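import Pool.Agent.PEt.ZE

/-! The bilinear estimate for `∑ d_k(n) a(n) e(φ(n))`. -/

set_option autoImplicit false

open Complex MeasureTheory Set Filter Topology
open scoped Real ComplexConjugate ContDiff

namespace Pool.Agent.PEt

/-! ### Oscillatory integrals and sums -/

--BEGIN BA1
private theorem BA1_norm_e (x : ℝ) : ‖e x‖ = 1 := by
  unfold e
  rw [show (2 * π * I * x : ℂ) = ((2 * π * x : ℝ) : ℂ) * I by push_cast; ring]
  exact Complex.norm_exp_ofReal_mul_I _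

private theorem BA1_deriv_e {h : ℝ → ℝ} {h' u : ℝ} (hh : HasDerivAt h h' u) :
    HasDerivAt (fun u => e (h u)) (2 * π * I * h' * e (h u)) u := by
  unfold e
  have h1 : HasDerivAt (fun u : ℝ => (h u : ℂ)) (h' : ℂ) u := hh.ofReal_comp
  have h2 := (h1.const_mul (2 * π * I : ℂ)).cexp
  refine h2.congr_deriv ?_
  ring

private theorem BA1_cont_e : Continuous e := by
  unfold e
  fun_prop

private theorem BA1_alg (g g' w w' E : ℂ) (hw : w ≠ 0) :
    (g' * w - g * w') / w ^ 2 * E + g / w * (w * E) = (g' / w - g * w' / w ^ 2) * E + g * E := by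
  field_simp

/-- **BA1.** First derivative test, no monotonicity: integrate by parts once. -/
theorem first_deriv {p q : ℝ} (hpq : p ≤ q) {g g' : ℝ → ℂ} {h h' h'' : ℝ → ℝ} {S V μ H : ℝ}
    (hg : ∀ u ∈ Icc p q, HasDerivAt g (g' u) u) (hg' : ContinuousOn g' (Icc p q))
    (hh : ∀ u ∈ Icc p q, HasDerivAt h (h' u) u) (hh' : ∀ u ∈ Icc p q, HasDerivAt h' (h'' u) u)
    (hh'' : ContinuousOn h'' (Icc p q)) (hμ : 0 < μ) (h1 : ∀ u ∈ Icc p q, μ ≤ |h' u|)
    (h2 : ∀ u ∈ Icc p q, |h'' u| ≤ H * |h' u|) (hS : ∀ u ∈ Icc p q, ‖g u‖ ≤ S)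
    (hV : ∀ u ∈ Icc p q, ‖g' u‖ ≤ V) :
    ‖∫ u in p..q, g u * e (h u)‖ ≤ (2 * S + (q - p) * (V + S * H)) / μ := by
  have hpI : p ∈ Icc p q := left_mem_Icc.2 hpq
  have hS0 : 0 ≤ S := (norm_nonneg _).trans (hS p hpI)
  have hV0 : 0 ≤ V := (norm_nonneg _).trans (hV p hpI)
  have hh0 : ∀ u ∈ Icc p q, h' u ≠ 0 := fun u hu h0 => by
    have := h1 u hu
    rw [h0, abs_zero] at this
    linarith
  have hH0 : 0 ≤ H := by
    have h3 := (abs_nonneg _).trans (h2 p hpI)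
    have h4 : 0 < |h' p| := hμ.trans_le (h1 p hpI)
    by_contra hc
    push Not at hc
    nlinarith
  have hgc : ContinuousOn g (Icc p q) := fun u hu => (hg u hu).continuousAt.continuousWithinAt
  have hhc : ContinuousOn h (Icc p q) := fun u hu => (hh u hu).continuousAt.continuousWithinAt
  have hhc' : ContinuousOn h' (Icc p q) := fun u hu => (hh' u hu).continuousAt.continuousWithinAt
  have hec : ContinuousOn (fun u => e (h u)) (Icc p q) := BA1_cont_e.comp_continuousOn hhc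
  have hπ : (2 * π * I : ℂ) ≠ 0 := by simp [Real.pi_ne_zero]
  let R : ℝ → ℂ := fun u => (g' u / (2 * π * I * h' u) -
    g u * (2 * π * I * h'' u) / (2 * π * I * h' u) ^ 2) * e (h u)
  have hne : ∀ u ∈ Icc p q, (2 * π * I * h' u : ℂ) ≠ 0 := fun u hu =>
    mul_ne_zero hπ (by exact_mod_cast hh0 u hu)
  have hRc : ContinuousOn R (Icc p q) := by
    have c1 : ContinuousOn (fun u => (2 * π * I * h' u : ℂ)) (Icc p q) :=
      continuousOn_const.mul (Complex.continuous_ofReal.comp_continuousOn hhc')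
    have c2 : ContinuousOn (fun u => (2 * π * I * h'' u : ℂ)) (Icc p q) :=
      continuousOn_const.mul (Complex.continuous_ofReal.comp_continuousOn hh'')
    exact ((hg'.div c1 hne).sub ((hgc.mul c2).div (c1.pow 2)
      (fun u hu => pow_ne_zero 2 (hne u hu)))).mul hec
  have hder : ∀ u ∈ uIcc p q, HasDerivAt (fun u => g u / (2 * π * I * h' u) * e (h u))
      (R u + g u * e (h u)) u := by
    intro u hu
    rw [uIcc_of_le hpq] at hu
    have d1 : HasDerivAt (fun u : ℝ => (2 * π * I * h' u : ℂ)) (2 * π * I * h'' u) u :=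
      (hh' u hu).ofReal_comp.const_mul _
    have d2 := ((hg u hu).div d1 (hne u hu)).mul (BA1_deriv_e (hh u hu))
    refine d2.congr_deriv ?_
    exact BA1_alg _ _ _ _ _ (hne u hu)
  have hge : ContinuousOn (fun u => g u * e (h u)) (Icc p q) := hgc.mul hec
  have iR : IntervalIntegrable R volume p q :=
    (hRc.intervalIntegrable_of_Icc hpq)
  have ig : IntervalIntegrable (fun u => g u * e (h u)) volume p q :=
    (hge.intervalIntegrable_of_Icc hpq)
  have hint := intervalIntegral.integral_eq_sub_of_hasDerivAt hder (iR.add ig)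
  rw [intervalIntegral.integral_add iR ig] at hint
  have hb : ∀ u ∈ Icc p q, ‖g u / (2 * π * I * h' u) * e (h u)‖ ≤ S / μ := by
    intro u hu
    rw [norm_mul, BA1_norm_e, mul_one, norm_div]
    have h6 : μ ≤ ‖(2 * π * I * h' u : ℂ)‖ := by
      simp only [norm_mul, Complex.norm_I, mul_one, Complex.norm_real, Real.norm_eq_abs,
        Complex.norm_ofNat, abs_of_pos Real.pi_pos]
      have := h1 u hu
      nlinarith [Real.pi_gt_three, abs_nonneg (h' u)]
    exact div_le_div₀ hS0 (hS u hu) hμ h6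
  have hRb : ∀ u ∈ uIoc p q, ‖R u‖ ≤ (V + S * H) / μ := by
    intro u hu
    rw [uIoc_of_le hpq] at hu
    have hu : u ∈ Icc p q := Ioc_subset_Icc_self hu
    simp only [R]
    rw [norm_mul, BA1_norm_e, mul_one]
    refine (norm_sub_le _ _).trans ?_
    rw [add_div]
    have h7 : ‖(2 * π * I : ℂ)‖ = 2 * π := by
      simp [abs_of_pos Real.pi_pos]
    have h8 : 0 < |h' u| := hμ.trans_le (h1 u hu)
    have h9 : (1 : ℝ) ≤ 2 * π := by nlinarith [Real.pi_gt_three]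
    refine add_le_add ?_ ?_
    · rw [norm_div]
      refine div_le_div₀ hV0 (hV u hu) hμ ?_
      rw [norm_mul, h7, Complex.norm_real, Real.norm_eq_abs]
      have := h1 u hu
      nlinarith
    · have h10 : ‖g u * (2 * π * I * h'' u) / (2 * π * I * h' u) ^ 2‖ =
          ‖g u‖ * |h'' u| / ((2 * π) * |h' u| ^ 2) := by
        rw [norm_div, norm_mul, norm_pow, norm_mul _ (h'' u : ℂ), norm_mul _ (h' u : ℂ), h7,
          Complex.norm_real, Complex.norm_real, Real.norm_eq_abs, Real.norm_eq_abs]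
        field_simp
      rw [h10, div_le_div_iff₀ (by positivity) hμ]
      have h11 : ‖g u‖ * |h'' u| ≤ S * (H * |h' u|) :=
        mul_le_mul (hS u hu) (h2 u hu) (abs_nonneg _) hS0
      have h12 : μ ≤ |h' u| := h1 u hu
      calc ‖g u‖ * |h'' u| * μ ≤ S * (H * |h' u|) * |h' u| :=
            mul_le_mul h11 h12 hμ.le (by positivity)
        _ = S * H * (1 * |h' u| ^ 2) := by ring
        _ ≤ S * H * (2 * π * |h' u| ^ 2) := by gcongr
  have hI := intervalIntegral.norm_integral_le_of_norm_le_const hRb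
  rw [abs_of_nonneg (sub_nonneg.2 hpq)] at hI
  have e1 : ∫ u in p..q, g u * e (h u) = g q / (2 * π * I * h' q) * e (h q) -
      g p / (2 * π * I * h' p) * e (h p) - ∫ u in p..q, R u := by
    rw [← hint]
    ring
  rw [e1]
  refine (norm_sub_le _ _).trans ?_
  have h13 := norm_sub_le (g q / (2 * π * I * h' q) * e (h q)) (g p / (2 * π * I * h' p) * e (h p))
  have h14 := hb q (right_mem_Icc.2 hpq)
  have h15 := hb p hpI
  have h16 : (2 * S + (q - p) * (V + S * H)) / μ = S / μ + S / μ + (V + S * H) / μ * (q - p) := by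
    ring
  rw [h16]
  linarith
--END BA1

--BEGIN BA2
private theorem BA2_cs {p q : ℝ} (hpq : p ≤ q) {a b : ℝ → ℝ} (ha : ContinuousOn a (Icc p q))
    (hb : ContinuousOn b (Icc p q)) :
    (∫ u in p..q, a u * b u) ≤ √((∫ u in p..q, a u ^ 2) * ∫ u in p..q, b u ^ 2) := by
  apply Real.le_sqrt_of_sq_le
  have key : ∀ t : ℝ, 0 ≤ (∫ u in p..q, a u ^ 2) * (t * t) + (-2 * ∫ u in p..q, a u * b u) * t +
      ∫ u in p..q, b u ^ 2 := by
    intro t
    have h0 : 0 ≤ ∫ u in p..q, (t * a u - b u) ^ 2 :=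
      intervalIntegral.integral_nonneg hpq (fun u _ => sq_nonneg _)
    have e1 : ∀ u, (t * a u - b u) ^ 2 = t * t * a u ^ 2 + (-2 * t) * (a u * b u) + b u ^ 2 := by
      intro u
      ring
    have i1 : IntervalIntegrable (fun u => a u ^ 2) volume p q :=
      (ha.pow 2).intervalIntegrable_of_Icc hpq
    have i2 : IntervalIntegrable (fun u => b u ^ 2) volume p q :=
      (hb.pow 2).intervalIntegrable_of_Icc hpq
    have i3 : IntervalIntegrable (fun u => a u * b u) volume p q :=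
      (ha.mul hb).intervalIntegrable_of_Icc hpq
    simp only [e1] at h0
    rw [intervalIntegral.integral_add ((i1.const_mul _).add (i3.const_mul _)) i2,
      intervalIntegral.integral_add (i1.const_mul _) (i3.const_mul _),
      intervalIntegral.integral_const_mul, intervalIntegral.integral_const_mul] at h0
    linarith
  have := discrim_le_zero key
  unfold discrim at this
  nlinarith

private theorem BA2_unit (a : ℝ) {f f' : ℝ → ℂ}
    (hf : ∀ u ∈ Icc (a - 1 / 2) (a + 1 / 2), HasDerivAt f (f' u) u)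
    (hf' : ContinuousOn f' (Icc (a - 1 / 2) (a + 1 / 2))) :
    ‖f a‖ ^ 2 ≤ (∫ u in (a - 1 / 2)..(a + 1 / 2), ‖f u‖ ^ 2) +
      2 * ∫ u in (a - 1 / 2)..(a + 1 / 2), ‖f u‖ * ‖f' u‖ := by
  have hle : a - 1 / 2 ≤ a + 1 / 2 := by linarith
  have hfc : ContinuousOn f (Icc (a - 1 / 2) (a + 1 / 2)) := fun u hu =>
    (hf u hu).continuousAt.continuousWithinAt
  set D := ∫ u in (a - 1 / 2)..(a + 1 / 2), ‖f u‖ * ‖f' u‖ with hD
  have hder : ∀ u ∈ Icc (a - 1 / 2) (a + 1 / 2), HasDerivAt (fun u => ‖f u‖ ^ 2)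
      (2 * inner ℝ (f u) (f' u)) u := fun u hu => (hf u hu).norm_sq
  have hic : ContinuousOn (fun u => 2 * inner ℝ (f u) (f' u)) (Icc (a - 1 / 2) (a + 1 / 2)) :=
    continuousOn_const.mul (hfc.inner hf')
  have hsub : ∀ t ∈ Icc (a - 1 / 2) (a + 1 / 2), uIcc t a ⊆ Icc (a - 1 / 2) (a + 1 / 2) := by
    intro t ht
    exact uIcc_subset_Icc ht ⟨by linarith, by linarith⟩
  have hpt : ∀ t ∈ Icc (a - 1 / 2) (a + 1 / 2), ‖f a‖ ^ 2 - 2 * D ≤ ‖f t‖ ^ 2 := by
    intro t ht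
    have h1 : ∫ s in t..a, 2 * inner ℝ (f s) (f' s) = ‖f a‖ ^ 2 - ‖f t‖ ^ 2 :=
      intervalIntegral.integral_eq_sub_of_hasDerivAt (fun s hs => hder s (hsub t ht hs))
        ((hic.mono (hsub t ht)).intervalIntegrable)
    have h2 : |∫ s in t..a, 2 * inner ℝ (f s) (f' s)| ≤
        |∫ s in t..a, ‖(2 * inner ℝ (f s) (f' s) : ℝ)‖| := by
      have := intervalIntegral.norm_integral_le_abs_integral_norm
        (f := fun s => (2 * inner ℝ (f s) (f' s) : ℝ)) (a := t) (b := a) (μ := volume)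
      rwa [Real.norm_eq_abs] at this
    have h3 : |∫ s in t..a, ‖(2 * inner ℝ (f s) (f' s) : ℝ)‖| ≤
        |∫ s in (a - 1 / 2)..(a + 1 / 2), ‖(2 * inner ℝ (f s) (f' s) : ℝ)‖| := by
      apply intervalIntegral.abs_integral_mono_interval
      · rw [Set.uIoc_of_le hle]
        rcases le_total t a with h | h
        · rw [Set.uIoc_of_le h]
          exact Set.Ioc_subset_Ioc ht.1 (by linarith)
        · rw [Set.uIoc_of_ge h]
          exact Set.Ioc_subset_Ioc (by linarith) ht.2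
      · exact Filter.Eventually.of_forall fun s => norm_nonneg _
      · exact hic.norm.intervalIntegrable_of_Icc hle
    have h4 : |∫ s in (a - 1 / 2)..(a + 1 / 2), ‖(2 * inner ℝ (f s) (f' s) : ℝ)‖| ≤ 2 * D := by
      rw [abs_of_nonneg (intervalIntegral.integral_nonneg hle fun s _ => norm_nonneg _), hD,
        ← intervalIntegral.integral_const_mul]
      apply intervalIntegral.integral_mono_on hle (hic.norm.intervalIntegrable_of_Icc hle)
        ((continuousOn_const.mul (hfc.norm.mul hf'.norm)).intervalIntegrable_of_Icc hle)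
      intro s _
      rw [norm_mul, Real.norm_eq_abs, Real.norm_eq_abs, abs_two]
      exact mul_le_mul_of_nonneg_left (abs_real_inner_le_norm _ _) (by norm_num)
    have h5 := le_abs_self (∫ s in t..a, (2 * inner ℝ (f s) (f' s) : ℝ))
    rw [h1] at h5 h2
    linarith
  have h5 : ∫ t in (a - 1 / 2)..(a + 1 / 2), (‖f a‖ ^ 2 - 2 * D) ≤
      ∫ t in (a - 1 / 2)..(a + 1 / 2), ‖f t‖ ^ 2 :=
    intervalIntegral.integral_mono_on hle (by simp)
      ((hfc.norm.pow 2).intervalIntegrable_of_Icc hle) hpt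
  rw [intervalIntegral.integral_const, smul_eq_mul] at h5
  have h6 : (a + 1 / 2 - (a - 1 / 2)) = 1 := by ring
  rw [h6] at h5
  linarith

private theorem BA2_reindex {E : Type*} [AddCommMonoid E] {M N : ℤ} (h : M ≤ N) (F : ℤ → E) :
    ∑ a ∈ Finset.Icc M N, F a = ∑ j ∈ Finset.range ((N - M).toNat + 1), F (M + j) := by
  symm
  apply Finset.sum_bij (fun (j : ℕ) _ => M + (j : ℤ))
  · intro j hj
    simp only [Finset.mem_range, Finset.mem_Icc] at *
    omega
  · intro a _ b _ hab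
    simpa using hab
  · intro b hb
    simp only [Finset.mem_Icc] at hb
    exact ⟨(b - M).toNat, by simp only [Finset.mem_range]; omega, by omega⟩
  · intros
    rfl

/-- **BA2.** Gallagher's inequality. -/
theorem gallagher {M N : ℤ} (hMN : M ≤ N) {f f' : ℝ → ℂ}
    (hf : ∀ u ∈ Icc ((M : ℝ) - 1 / 2) (N + 1 / 2), HasDerivAt f (f' u) u)
    (hf' : ContinuousOn f' (Icc ((M : ℝ) - 1 / 2) (N + 1 / 2))) :
    ∑ a ∈ Finset.Icc M N, ‖f a‖ ^ 2 ≤ (∫ u in ((M : ℝ) - 1 / 2)..(N + 1 / 2), ‖f u‖ ^ 2) +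
      2 * √((∫ u in ((M : ℝ) - 1 / 2)..(N + 1 / 2), ‖f u‖ ^ 2) *
        ∫ u in ((M : ℝ) - 1 / 2)..(N + 1 / 2), ‖f' u‖ ^ 2) := by
  have hMN' : (M : ℝ) ≤ N := by exact_mod_cast hMN
  have hle : (M : ℝ) - 1 / 2 ≤ N + 1 / 2 := by linarith
  have hfc : ContinuousOn f (Icc ((M : ℝ) - 1 / 2) (N + 1 / 2)) := fun u hu =>
    (hf u hu).continuousAt.continuousWithinAt
  have sumI : ∀ φ : ℝ → ℝ, ContinuousOn φ (Icc ((M : ℝ) - 1 / 2) (N + 1 / 2)) →
      ∑ a ∈ Finset.Icc M N, (∫ u in ((a : ℝ) - 1 / 2)..(a + 1 / 2), φ u) =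
      ∫ u in ((M : ℝ) - 1 / 2)..(N + 1 / 2), φ u := by
    intro φ hφ
    rw [BA2_reindex hMN]
    have hL : (((N - M).toNat : ℕ) : ℤ) = N - M := Int.toNat_of_nonneg (by omega)
    have hL' : (((N - M).toNat : ℕ) : ℝ) = N - M := by exact_mod_cast hL
    have h1 := intervalIntegral.sum_integral_adjacent_intervals (f := φ) (μ := volume)
      (a := fun k : ℕ => (M : ℝ) - 1 / 2 + k) (n := (N - M).toNat + 1) (fun k hk => by
        apply ContinuousOn.intervalIntegrable_of_Icc (by push_cast; linarith)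
        apply hφ.mono
        have hk' : (k : ℝ) + 1 ≤ N - M + 1 := by
          rw [← hL']
          exact_mod_cast hk
        apply Icc_subset_Icc
        · have : (0 : ℝ) ≤ k := Nat.cast_nonneg k
          linarith
        · push_cast
          linarith)
    have h2 : ((M : ℝ) - 1 / 2 + ((0 : ℕ) : ℝ)) = M - 1 / 2 := by
      push_cast
      ring
    have h3 : ((M : ℝ) - 1 / 2 + (((N - M).toNat + 1 : ℕ) : ℝ)) = N + 1 / 2 := by
      push_cast
      rw [hL']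
      ring
    simp only [h2, h3] at h1
    rw [← h1]
    refine Finset.sum_congr rfl fun k _ => ?_
    have h4 : (((M + (k : ℤ) : ℤ) : ℝ) - 1 / 2) = (M : ℝ) - 1 / 2 + (k : ℝ) := by
      push_cast
      ring
    have h5 : (((M + (k : ℤ) : ℤ) : ℝ) + 1 / 2) = (M : ℝ) - 1 / 2 + ((k + 1 : ℕ) : ℝ) := by
      push_cast
      ring
    rw [h4, h5]
  have hsub : ∀ a ∈ Finset.Icc M N, Icc ((a : ℝ) - 1 / 2) (a + 1 / 2) ⊆
      Icc ((M : ℝ) - 1 / 2) (N + 1 / 2) := by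
    intro a ha
    rw [Finset.mem_Icc] at ha
    have h1 : (M : ℝ) ≤ a := by exact_mod_cast ha.1
    have h2 : (a : ℝ) ≤ N := by exact_mod_cast ha.2
    exact Icc_subset_Icc (by linarith) (by linarith)
  calc ∑ a ∈ Finset.Icc M N, ‖f a‖ ^ 2 ≤ ∑ a ∈ Finset.Icc M N,
        ((∫ u in ((a : ℝ) - 1 / 2)..(a + 1 / 2), ‖f u‖ ^ 2) +
          2 * ∫ u in ((a : ℝ) - 1 / 2)..(a + 1 / 2), ‖f u‖ * ‖f' u‖) :=
        Finset.sum_le_sum fun a ha => BA2_unit a (fun u hu => hf u (hsub a ha hu))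
          (hf'.mono (hsub a ha))
    _ = (∫ u in ((M : ℝ) - 1 / 2)..(N + 1 / 2), ‖f u‖ ^ 2) +
        2 * ∫ u in ((M : ℝ) - 1 / 2)..(N + 1 / 2), ‖f u‖ * ‖f' u‖ := by
        rw [Finset.sum_add_distrib, ← Finset.mul_sum, sumI (fun u => ‖f u‖ ^ 2) (hfc.norm.pow 2),
          sumI (fun u => ‖f u‖ * ‖f' u‖) (hfc.norm.mul hf'.norm)]
    _ ≤ _ := by
        have := BA2_cs hle hfc.norm hf'.norm
        linarith
--END BA2

--BEGIN BA3
private theorem BA3_e_add (x y : ℝ) : e (x + y) = e x * e y := by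
  unfold e
  rw [← Complex.exp_add]
  congr 1
  push_cast
  ring

private theorem BA3_e_int (k : ℤ) : e k = 1 := by
  unfold e
  rw [Complex.exp_eq_one_iff]
  exact ⟨k, by push_cast; ring⟩

private theorem BA3_inv {t : ℝ} (h : Real.sin (π * t) ≠ 0) :
    (1 - e t) * ((1 + I * ((Real.cos (π * t) / Real.sin (π * t) : ℝ) : ℂ)) / 2) = 1 := by
  have he : e t = (((Real.cos (π * t) : ℝ) : ℂ) + ((Real.sin (π * t) : ℝ) : ℂ) * I) ^ 2 := by
    have h1 : e t = cexp (((π * t : ℝ) : ℂ) * I) ^ 2 := by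
      unfold e
      rw [← Complex.exp_nat_mul]
      congr 1
      push_cast
      ring
    rw [h1, Complex.exp_mul_I, ← Complex.ofReal_cos, ← Complex.ofReal_sin]
  have hcs : ((Real.cos (π * t) : ℝ) : ℂ) ^ 2 + ((Real.sin (π * t) : ℝ) : ℂ) ^ 2 = 1 := by
    have := Real.cos_sq_add_sin_sq (π * t)
    exact_mod_cast this
  have hs : ((Real.sin (π * t) : ℝ) : ℂ) ≠ 0 := by exact_mod_cast h
  rw [he, Complex.ofReal_div]
  generalize ((Real.cos (π * t) : ℝ) : ℂ) = c at *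
  generalize ((Real.sin (π * t) : ℝ) : ℂ) = s at *
  have hI : I ^ 2 = -1 := Complex.I_sq
  field_simp
  linear_combination (-(I * c) - s + 2 * s) * hcs + (-(s ^ 2 * (s + I * c)) - 2 * s * c ^ 2) * hI

private theorem BA3_sin {δ t : ℝ} (hδ : 0 < δ) (h1 : δ ≤ t) (h2 : t ≤ 1 - δ) :
    2 * δ ≤ Real.sin (π * t) := by
  have hπ := Real.pi_pos
  rcases le_total t (1 / 2) with h | h
  · have h3 := Real.mul_le_sin (x := π * t) (by nlinarith) (by nlinarith)
    have h4 : 2 / π * (π * t) = 2 * t := by field_simp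
    linarith
  · have h3 := Real.mul_le_sin (x := π * (1 - t)) (by nlinarith) (by nlinarith)
    have h4 : 2 / π * (π * (1 - t)) = 2 * (1 - t) := by field_simp
    have h5 : Real.sin (π * (1 - t)) = Real.sin (π * t) := by
      rw [mul_sub, mul_one, Real.sin_pi_sub]
    linarith

private theorem BA3_cot_anti {x y : ℝ} (hx : 0 < Real.sin (π * x)) (hy : 0 < Real.sin (π * y))
    (h1 : x ≤ y) (h2 : y ≤ x + 1) :
    Real.cos (π * y) / Real.sin (π * y) ≤ Real.cos (π * x) / Real.sin (π * x) := by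
  rw [div_le_div_iff₀ hy hx]
  have h3 : Real.sin (π * y - π * x) = Real.sin (π * y) * Real.cos (π * x) -
    Real.cos (π * y) * Real.sin (π * x) := Real.sin_sub _ _
  have h4 : 0 ≤ Real.sin (π * y - π * x) := by
    apply Real.sin_nonneg_of_nonneg_of_le_pi
    · nlinarith [Real.pi_pos]
    · nlinarith [Real.pi_pos]
  linarith

private theorem BA3_core {n : ℕ} {z : ℕ → ℂ} {θ : ℕ → ℝ} {δ : ℝ} (hδ : 0 < δ) (hδ' : δ ≤ 1 / 2)
    (hz : ∀ j ≤ n, z (j + 1) = z j * e (θ j)) (hz1 : ∀ j, ‖z j‖ = 1)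
    (hθ : ∀ j ≤ n, δ ≤ θ j ∧ θ j ≤ 1 - δ)
    (hmono : (∀ j < n, θ j ≤ θ (j + 1)) ∨ (∀ j < n, θ (j + 1) ≤ θ j)) :
    ‖∑ j ∈ Finset.range (n + 1), z j‖ ≤ 3 / (2 * δ) := by
  set k : ℕ → ℝ := fun j => Real.cos (π * θ j) / Real.sin (π * θ j) with hk
  have hs : ∀ j ≤ n, 2 * δ ≤ Real.sin (π * θ j) := fun j hj => BA3_sin hδ (hθ j hj).1 (hθ j hj).2
  have hs0 : ∀ j ≤ n, 0 < Real.sin (π * θ j) := fun j hj => by linarith [hs j hj]
  have abel : ∀ m ≤ n, ∑ j ∈ Finset.range (m + 1), z j = z 0 * ((1 + I * (k 0 : ℂ)) / 2) -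
      z (m + 1) * ((1 + I * (k m : ℂ)) / 2) +
      ∑ j ∈ Finset.range m, z (j + 1) * (I * ((k (j + 1) - k j : ℝ) : ℂ) / 2) := by
    intro m hm
    induction m with
    | zero =>
      have h1 := BA3_inv (hs0 0 hm).ne'
      rw [Finset.sum_range_one, Finset.sum_range_zero, hz 0 hm]
      linear_combination (-(z 0)) * h1
    | succ m ih =>
      have h1 := BA3_inv (hs0 (m + 1) hm).ne'
      rw [Finset.sum_range_succ, ih (by omega), Finset.sum_range_succ _ m, hz (m + 1) hm]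
      push_cast
      linear_combination (-(z (m + 1))) * h1
  have hkb : ∀ j ≤ n, |k j| ≤ 1 / (2 * δ) := by
    intro j hj
    rw [hk]
    simp only
    rw [abs_div, abs_of_pos (hs0 j hj)]
    exact div_le_div₀ (by norm_num) (Real.abs_cos_le_one _) (by positivity) (hs j hj)
  have h1δ : 1 ≤ 1 / (2 * δ) := by
    rw [le_div_iff₀ (by positivity)]
    linarith
  have hcb : ∀ j ≤ n, ‖(1 + I * (k j : ℂ)) / 2‖ ≤ 1 / (2 * δ) := by
    intro j hj
    rw [norm_div, Complex.norm_ofNat]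
    have h2 : ‖(1 + I * (k j : ℂ))‖ ≤ 1 + |k j| := by
      refine (norm_add_le _ _).trans ?_
      rw [norm_one, norm_mul, Complex.norm_I, one_mul, Complex.norm_real, Real.norm_eq_abs]
    have := hkb j hj
    linarith
  have htel : ∑ j ∈ Finset.range n, |k (j + 1) - k j| ≤ 1 / δ := by
    have h3 : ∑ j ∈ Finset.range n, |k (j + 1) - k j| ≤ |k n - k 0| := by
      rcases hmono with hm | hm
      · have h4 : ∀ j ∈ Finset.range n, |k (j + 1) - k j| = k j - k (j + 1) := by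
          intro j hj
          rw [Finset.mem_range] at hj
          rw [abs_of_nonpos]
          · ring
          · have h5 := hθ j hj.le
            have h6 := hθ (j + 1) hj
            have := BA3_cot_anti (hs0 j hj.le) (hs0 (j + 1) hj) (hm j hj) (by linarith)
            linarith
        rw [Finset.sum_congr rfl h4, Finset.sum_range_sub']
        rw [abs_sub_comm]
        exact le_abs_self _
      · have h4 : ∀ j ∈ Finset.range n, |k (j + 1) - k j| = k (j + 1) - k j := by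
          intro j hj
          rw [Finset.mem_range] at hj
          rw [abs_of_nonneg]
          have h5 := hθ j hj.le
          have h6 := hθ (j + 1) hj
          have := BA3_cot_anti (hs0 (j + 1) hj) (hs0 j hj.le) (hm j hj) (by linarith)
          linarith
        rw [Finset.sum_congr rfl h4, Finset.sum_range_sub]
        exact le_abs_self _
    have h7 := abs_sub (k n) (k 0)
    have h8 := hkb n le_rfl
    have h9 := hkb 0 (Nat.zero_le _)
    have h10 : 1 / (2 * δ) + 1 / (2 * δ) = 1 / δ := by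
      field_simp
      norm_num
    linarith
  rw [abel n le_rfl]
  have h11 : ‖∑ j ∈ Finset.range n, z (j + 1) * (I * ((k (j + 1) - k j : ℝ) : ℂ) / 2)‖ ≤
      (∑ j ∈ Finset.range n, |k (j + 1) - k j|) / 2 := by
    refine (norm_sum_le _ _).trans ?_
    rw [Finset.sum_div]
    refine Finset.sum_le_sum fun j _ => ?_
    rw [norm_mul, hz1, one_mul, norm_div, norm_mul, Complex.norm_I, one_mul, Complex.norm_real,
      Complex.norm_ofNat, Real.norm_eq_abs]
  have h12 : ‖z 0 * ((1 + I * (k 0 : ℂ)) / 2)‖ ≤ 1 / (2 * δ) := by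
    rw [norm_mul, hz1, one_mul]
    exact hcb 0 (Nat.zero_le _)
  have h13 : ‖z (n + 1) * ((1 + I * (k n : ℂ)) / 2)‖ ≤ 1 / (2 * δ) := by
    rw [norm_mul, hz1, one_mul]
    exact hcb n le_rfl
  have h14 := norm_add_le (z 0 * ((1 + I * (k 0 : ℂ)) / 2) -
      z (n + 1) * ((1 + I * (k n : ℂ)) / 2))
      (∑ j ∈ Finset.range n, z (j + 1) * (I * ((k (j + 1) - k j : ℝ) : ℂ) / 2))
  have h15 := norm_sub_le (z 0 * ((1 + I * (k 0 : ℂ)) / 2))
    (z (n + 1) * ((1 + I * (k n : ℂ)) / 2))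
  have h16 : 3 / (2 * δ) = 1 / (2 * δ) + 1 / (2 * δ) + (1 / δ) / 2 := by
    field_simp
    norm_num
  linarith

/-- **BA3.** Kusmin-Landau. -/
theorem kusmin_landau {M N : ℤ} {f : ℝ → ℝ} {f' : ℝ → ℝ} {δ : ℝ} (hδ : 0 < δ) (hδ' : δ ≤ 1 / 2)
    (hf : ∀ u ∈ Icc (M : ℝ) N, HasDerivAt f (f' u) u)
    (hmono : MonotoneOn f' (Icc (M : ℝ) N) ∨ AntitoneOn f' (Icc (M : ℝ) N)) (m : ℤ)
    (h : ∀ u ∈ Icc (M : ℝ) N, (m : ℝ) + δ ≤ f' u ∧ f' u ≤ m + 1 - δ) :
    ‖∑ n ∈ Finset.Icc M N, e (f n)‖ ≤ 4 / δ := by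
  rcases lt_or_ge N M with hNM | hMN
  · rw [Finset.Icc_eq_empty (by omega), Finset.sum_empty, norm_zero]
    positivity
  rw [BA2_reindex hMN]
  have hL : (((N - M).toNat : ℕ) : ℤ) = N - M := Int.toNat_of_nonneg (by omega)
  have hL' : (((N - M).toNat : ℕ) : ℝ) = N - M := by exact_mod_cast hL
  generalize (N - M).toNat = L at hL hL'
  have h1δ : 1 ≤ 1 / (2 * δ) := by
    rw [le_div_iff₀ (by positivity)]
    linarith
  have h4δ : 4 / δ = 8 * (1 / (2 * δ)) := by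
    field_simp
    norm_num
  have h3δ : 3 / (2 * δ) = 3 * (1 / (2 * δ)) := by ring
  rcases L with _ | n
  · rw [Finset.sum_range_one, BA1_norm_e]
    linarith
  have hcont : ∀ a b : ℝ, M ≤ a → b ≤ N → ContinuousOn f (Icc a b) := fun a b ha hb u hu =>
    (hf u ⟨ha.trans hu.1, hu.2.trans hb⟩).continuousAt.continuousWithinAt
  have hmv : ∀ j : ℕ, j ≤ n → ∃ c ∈ Ioo ((M : ℝ) + j) (M + j + 1),
      f' c = f (M + j + 1) - f (M + j) := by
    intro j hj
    have hj' : (j : ℝ) + 1 ≤ N - M := by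
      rw [← hL']
      push_cast
      have : (j : ℝ) ≤ n := by exact_mod_cast hj
      linarith
    have hj0 : (0 : ℝ) ≤ j := Nat.cast_nonneg j
    obtain ⟨c, hc, hc'⟩ := exists_hasDerivAt_eq_slope f f' (a := (M : ℝ) + j) (b := M + j + 1)
      (by linarith) (hcont _ _ (by linarith) (by linarith))
      (fun x hx => hf x ⟨by linarith [hx.1], by linarith [hx.2]⟩)
    refine ⟨c, hc, ?_⟩
    rw [hc']
    have : ((M : ℝ) + j + 1 - (M + j)) = 1 := by ring
    rw [this, div_one]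
  choose! c hc hc' using hmv
  have hcI : ∀ j ≤ n, c j ∈ Icc (M : ℝ) N := by
    intro j hj
    have hj' : (j : ℝ) + 1 ≤ N - M := by
      rw [← hL']
      push_cast
      have : (j : ℝ) ≤ n := by exact_mod_cast hj
      linarith
    have hj0 : (0 : ℝ) ≤ j := Nat.cast_nonneg j
    have := hc j hj
    exact ⟨by linarith [this.1], by linarith [this.2]⟩
  have hcore := BA3_core (n := n) (z := fun j => e (f ((M + (j : ℤ) : ℤ) : ℝ)))
    (θ := fun j => f (M + j + 1) - f (M + j) - m) hδ hδ' ?_ (fun j => BA1_norm_e _) ?_ ?_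
  · rw [Finset.sum_range_succ]
    refine (norm_add_le _ _).trans ?_
    rw [BA1_norm_e]
    linarith
  · intro j hj
    have h5 : (((M + ((j + 1 : ℕ) : ℤ) : ℤ) : ℝ)) = M + j + 1 := by
      push_cast
      ring
    have h6 : (((M + (j : ℤ) : ℤ) : ℝ)) = M + j := by
      push_cast
      ring
    rw [h5, h6, ← BA3_e_add]
    have h7 : f (M + j + 1) = f (M + j) + (f (M + j + 1) - f (M + j) - m) + m := by ring
    conv_lhs => rw [h7]
    rw [BA3_e_add _ (m : ℝ), BA3_e_int, mul_one]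
  · intro j hj
    rw [← hc' j hj]
    have := h (c j) (hcI j hj)
    constructor <;> linarith
  · rcases hmono with hm | hm
    · left
      intro j hj
      have h8 := hc j hj.le
      have h9 := hc (j + 1) hj
      have h10 := hc' j hj.le
      have h11 := hc' (j + 1) hj
      push_cast at h9 h11 ⊢
      have := hm (hcI j hj.le) (hcI (j + 1) hj) (by linarith [h8.2, h9.1])
      linarith
    · right
      intro j hj
      have h8 := hc j hj.le
      have h9 := hc (j + 1) hj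
      have h10 := hc' j hj.le
      have h11 := hc' (j + 1) hj
      push_cast at h9 h11 ⊢
      have := hm (hcI j hj.le) (hcI (j + 1) hj) (by linarith [h8.2, h9.1])
      linarith
--END BA3

--BEGIN BA4
private theorem BA4_card {S : Finset ℤ} {D : ℝ} (hD : 0 ≤ D)
    (h : ∀ a ∈ S, ∀ b ∈ S, a ≤ b → ((b : ℝ) - a) ≤ D) : (S.card : ℝ) ≤ D + 1 := by
  rcases S.eq_empty_or_nonempty with rfl | hS
  · rw [Finset.card_empty, Nat.cast_zero]
    linarith
  have h1 : S ⊆ Finset.Icc (S.min' hS) (S.max' hS) := fun x hx =>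
    Finset.mem_Icc.2 ⟨S.min'_le x hx, S.le_max' x hx⟩
  have h2 := Finset.card_le_card h1
  rw [Int.card_Icc] at h2
  have h3 : S.min' hS ≤ S.max' hS := S.min'_le _ (S.max'_mem hS)
  have h4 := h _ (S.min'_mem hS) _ (S.max'_mem hS) h3
  have h5 : (((S.max' hS + 1 - S.min' hS).toNat : ℕ) : ℝ) = S.max' hS + 1 - S.min' hS := by
    have : (((S.max' hS + 1 - S.min' hS).toNat : ℕ) : ℤ) = S.max' hS + 1 - S.min' hS :=
      Int.toNat_of_nonneg (by omega)
    exact_mod_cast this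
  have h6 : (S.card : ℝ) ≤ (((S.max' hS + 1 - S.min' hS).toNat : ℕ) : ℝ) := by exact_mod_cast h2
  linarith

private theorem BA4_norm_sum (S : Finset ℤ) (f : ℝ → ℝ) :
    ‖∑ n ∈ S, e (f n)‖ ≤ S.card := by
  refine (norm_sum_le _ _).trans ?_
  simp [BA1_norm_e]

private theorem BA4_up {A Λ : ℝ} {M N : ℤ} {f f' f'' : ℝ → ℝ} (hMN : M ≤ N)
    (hΛ : 0 < Λ) (hΛ1 : Λ ≤ 1) (hf : ∀ u ∈ Icc (M : ℝ) N, HasDerivAt f (f' u) u)
    (hf' : ∀ u ∈ Icc (M : ℝ) N, HasDerivAt f' (f'' u) u)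
    (h : ∀ u ∈ Icc (M : ℝ) N, Λ ≤ f'' u ∧ f'' u ≤ A * Λ) :
    ‖∑ n ∈ Finset.Icc M N, e (f n)‖ ≤ (A * Λ * ((N : ℝ) - M) + 2) * (11 / √Λ) := by
  have hMN' : (M : ℝ) ≤ N := by exact_mod_cast hMN
  have hsq : 0 < √Λ := Real.sqrt_pos.2 hΛ
  have hsq1 : √Λ ≤ 1 := Real.sqrt_le_one.2 hΛ1
  have hss : √Λ * √Λ = Λ := Real.mul_self_sqrt hΛ.le
  -- the increments of the derivative
  have hinc : ∀ a b : ℝ, M ≤ a → a ≤ b → b ≤ N →
      Λ * (b - a) ≤ f' b - f' a ∧ f' b - f' a ≤ A * Λ * (b - a) := by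
    intro a b ha hab hb
    rcases hab.eq_or_lt with rfl | hlt
    · simp
    obtain ⟨c, hc, hc'⟩ := exists_hasDerivAt_eq_slope f' f'' hlt
      (fun u hu => (hf' u ⟨ha.trans hu.1, hu.2.trans hb⟩).continuousAt.continuousWithinAt)
      (fun u hu => hf' u ⟨ha.trans hu.1.le, hu.2.le.trans hb⟩)
    have h1 := h c ⟨ha.trans hc.1.le, hc.2.le.trans hb⟩
    have h2 : f' b - f' a = f'' c * (b - a) := by
      rw [hc', div_mul_cancel₀]
      exact (sub_pos.2 hlt).ne'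
    rw [h2]
    have h3 : 0 ≤ b - a := by linarith
    exact ⟨mul_le_mul_of_nonneg_right h1.1 h3, mul_le_mul_of_nonneg_right h1.2 h3⟩
  have hmon : MonotoneOn f' (Icc (M : ℝ) N) := by
    intro a ha b hb hab
    have := (hinc a b ha.1 hab hb.2).1
    have h3 : 0 ≤ Λ * (b - a) := mul_nonneg hΛ.le (by linarith)
    linarith
  have hmem : ∀ n ∈ Finset.Icc M N, (n : ℝ) ∈ Icc (M : ℝ) N := by
    intro n hn
    rw [Finset.mem_Icc] at hn
    exact ⟨by exact_mod_cast hn.1, by exact_mod_cast hn.2⟩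
  have hMm : (M : ℝ) ∈ Icc (M : ℝ) N := ⟨le_rfl, hMN'⟩
  have hNm : (N : ℝ) ∈ Icc (M : ℝ) N := ⟨hMN', le_rfl⟩
  have hmaps : ∀ n ∈ Finset.Icc M N, ⌊f' n⌋ ∈ Finset.Icc ⌊f' M⌋ ⌊f' N⌋ := by
    intro n hn
    have h1 := hmem n hn
    exact Finset.mem_Icc.2 ⟨Int.floor_mono (hmon hMm h1 h1.1), Int.floor_mono (hmon h1 hNm h1.2)⟩
  rw [← Finset.sum_fiberwise_of_maps_to hmaps]
  -- one value of the integer part
  have hδ : 0 < √Λ / 2 := by positivity
  have hδ' : √Λ / 2 ≤ 1 / 2 := by linarith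
  have hk : ∀ k ∈ Finset.Icc ⌊f' M⌋ ⌊f' N⌋,
      ‖∑ n ∈ (Finset.Icc M N).filter (fun n : ℤ => ⌊f' n⌋ = k), e (f n)‖ ≤ 11 / √Λ := by
    intro k _
    have hcard : ∀ S : Finset ℤ, S ⊆ Finset.Icc M N →
        (∀ a ∈ S, ∀ b ∈ S, f' b - f' a ≤ √Λ / 2) → (S.card : ℝ) ≤ (√Λ / 2) / Λ + 1 := by
      intro S hS hS'
      apply BA4_card (by positivity)
      intro a ha b hb hab
      have h1 := hinc a b (hmem a (hS ha)).1 (by exact_mod_cast hab) (hmem b (hS hb)).2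
      have h2 := hS' a ha b hb
      rw [le_div_iff₀ hΛ]
      linarith
    set S := Finset.filter (fun n : ℤ => ⌊f' n⌋ = k) (Finset.Icc M N) with hSdef
    have hS : ∀ n ∈ S, n ∈ Finset.Icc M N ∧ (k : ℝ) ≤ f' n ∧ f' n < k + 1 := by
      intro n hn
      rw [hSdef, Finset.mem_filter] at hn
      exact ⟨hn.1, Int.floor_eq_iff.1 hn.2⟩
    rw [← Finset.sum_filter_add_sum_filter_not S (fun n : ℤ => f' n < k + √Λ / 2),
      ← Finset.sum_filter_add_sum_filter_not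
        (S.filter (fun n : ℤ => ¬ f' n < k + √Λ / 2)) (fun n : ℤ => k + 1 - √Λ / 2 < f' n)]
    have h1 : ‖∑ n ∈ S.filter (fun n : ℤ => f' n < k + √Λ / 2), e (f n)‖ ≤
        (√Λ / 2) / Λ + 1 := by
      refine (BA4_norm_sum _ _).trans (hcard _ (fun n hn => ?_) ?_)
      · exact (hS n (Finset.mem_filter.1 hn).1).1
      · intro a ha b hb
        rw [Finset.mem_filter] at ha hb
        have := hS a ha.1
        linarith [ha.2, hb.2, this.2.1]
    have h2 : ‖∑ n ∈ (S.filter (fun n : ℤ => ¬ f' n < k + √Λ / 2)).filter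
        (fun n : ℤ => k + 1 - √Λ / 2 < f' n), e (f n)‖ ≤ (√Λ / 2) / Λ + 1 := by
      refine (BA4_norm_sum _ _).trans (hcard _ (fun n hn => ?_) ?_)
      · exact (hS n (Finset.mem_filter.1 (Finset.mem_filter.1 hn).1).1).1
      · intro a ha b hb
        rw [Finset.mem_filter, Finset.mem_filter] at ha hb
        have := hS b hb.1.1
        linarith [ha.2, hb.2, this.2.2]
    have h3 : ‖∑ n ∈ (S.filter (fun n : ℤ => ¬ f' n < k + √Λ / 2)).filter
        (fun n : ℤ => ¬ k + 1 - √Λ / 2 < f' n), e (f n)‖ ≤ 4 / (√Λ / 2) := by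
      set B := Finset.filter (fun n : ℤ => ¬ k + 1 - √Λ / 2 < f' n)
        (S.filter (fun n : ℤ => ¬ f' n < k + √Λ / 2)) with hB
      have hBm : ∀ n, n ∈ B ↔ n ∈ Finset.Icc M N ∧ (k : ℝ) + √Λ / 2 ≤ f' n ∧
          f' n ≤ k + 1 - √Λ / 2 := by
        intro n
        rw [hB, Finset.mem_filter, Finset.mem_filter, hSdef, Finset.mem_filter, not_lt, not_lt]
        constructor
        · rintro ⟨⟨⟨a, _⟩, b⟩, c⟩
          exact ⟨a, b, c⟩
        · rintro ⟨a, b, c⟩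
          exact ⟨⟨⟨a, Int.floor_eq_iff.2 ⟨by linarith, by linarith⟩⟩, b⟩, c⟩
      rcases B.eq_empty_or_nonempty with h0 | hne
      · rw [h0, Finset.sum_empty, norm_zero]
        positivity
      have hmin := (hBm _).1 (B.min'_mem hne)
      have hmax := (hBm _).1 (B.max'_mem hne)
      have hm1 := hmem _ hmin.1
      have hm2 := hmem _ hmax.1
      have hBI : B = Finset.Icc (B.min' hne) (B.max' hne) := by
        ext n
        constructor
        · intro hn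
          exact Finset.mem_Icc.2 ⟨B.min'_le n hn, B.le_max' n hn⟩
        · intro hn
          rw [Finset.mem_Icc] at hn
          have hn1 : ((B.min' hne : ℤ) : ℝ) ≤ n := by exact_mod_cast hn.1
          have hn2 : (n : ℝ) ≤ ((B.max' hne : ℤ) : ℝ) := by exact_mod_cast hn.2
          have hnI : (n : ℝ) ∈ Icc (M : ℝ) N := ⟨hm1.1.trans hn1, hn2.trans hm2.2⟩
          rw [hBm]
          refine ⟨Finset.mem_Icc.2 ⟨by exact_mod_cast hnI.1, by exact_mod_cast hnI.2⟩,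
            hmin.2.1.trans (hmon hm1 hnI hn1), (hmon hnI hm2 hn2).trans hmax.2.2⟩
      rw [hBI]
      have hsub : Icc ((B.min' hne : ℤ) : ℝ) ((B.max' hne : ℤ) : ℝ) ⊆ Icc (M : ℝ) N :=
        Icc_subset_Icc hm1.1 hm2.2
      apply kusmin_landau hδ hδ' (fun u hu => hf u (hsub hu)) (Or.inl (hmon.mono hsub)) k
      intro u hu
      exact ⟨hmin.2.1.trans (hmon hm1 (hsub hu) hu.1), (hmon (hsub hu) hm2 hu.2).trans hmax.2.2⟩
    have h4 : (√Λ / 2) / Λ = 1 / 2 * (1 / √Λ) := by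
      have h40 : (√Λ / 2) / Λ = (√Λ / 2) / (√Λ * √Λ) := by rw [hss]
      rw [h40]
      field_simp
    have h5 : 4 / (√Λ / 2) = 8 * (1 / √Λ) := by
      field_simp
      norm_num
    have h6 : 11 / √Λ = 11 * (1 / √Λ) := by ring
    have h7 : 1 ≤ 1 / √Λ := by
      rw [le_div_iff₀ hsq]
      linarith
    refine (norm_add_le _ _).trans ?_
    refine (add_le_add le_rfl (norm_add_le _ _)).trans ?_
    rw [h6]
    rw [h4] at h1 h2
    rw [h5] at h3
    linarith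
  refine (norm_sum_le _ _).trans ?_
  refine (Finset.sum_le_sum hk).trans ?_
  rw [Finset.sum_const, nsmul_eq_mul]
  refine mul_le_mul_of_nonneg_right ?_ (by positivity)
  rw [Int.card_Icc]
  have h8 : ⌊f' M⌋ ≤ ⌊f' N⌋ := Int.floor_mono (hmon hMm hNm hMN')
  have h9 : (((⌊f' N⌋ + 1 - ⌊f' M⌋).toNat : ℕ) : ℝ) = ⌊f' N⌋ + 1 - ⌊f' M⌋ := by
    have : (((⌊f' N⌋ + 1 - ⌊f' M⌋).toNat : ℕ) : ℤ) = ⌊f' N⌋ + 1 - ⌊f' M⌋ :=
      Int.toNat_of_nonneg (by omega)
    exact_mod_cast this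
  rw [h9]
  have h10 := Int.floor_le (f' N)
  have h11 := Int.lt_floor_add_one (f' M)
  have h12 := (hinc M N le_rfl hMN' le_rfl).2
  linarith

private theorem BA4_conj (x : ℝ) : conj (e x) = e (-x) := by
  unfold e
  rw [← Complex.exp_conj]
  congr 1
  simp only [map_mul, Complex.conj_ofReal, Complex.conj_I, map_ofNat]
  push_cast
  ring

/-- **BA4.** Second derivative test. -/
theorem second_deriv {A : ℝ} (hA : 1 ≤ A) : ∃ C : ℝ, 0 < C ∧ ∀ (M N : ℤ) (f f' f'' : ℝ → ℝ)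
    (Λ : ℝ), M ≤ N → 0 < Λ → (∀ u ∈ Icc (M : ℝ) N, HasDerivAt f (f' u) u) →
    (∀ u ∈ Icc (M : ℝ) N, HasDerivAt f' (f'' u) u) →
    ((∀ u ∈ Icc (M : ℝ) N, Λ ≤ f'' u ∧ f'' u ≤ A * Λ) ∨
      (∀ u ∈ Icc (M : ℝ) N, Λ ≤ -f'' u ∧ -f'' u ≤ A * Λ)) →
    ‖∑ n ∈ Finset.Icc M N, e (f n)‖ ≤ C * (((N : ℝ) - M) * √Λ + 1 / √Λ + 1) := by
  refine ⟨22 * A, by positivity, ?_⟩
  intro M N f f' f'' Λ hMN hΛ hf hf' h
  have hMN' : (M : ℝ) ≤ N := by exact_mod_cast hMN
  have hsq : 0 < √Λ := Real.sqrt_pos.2 hΛ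
  have hss : √Λ * √Λ = Λ := Real.mul_self_sqrt hΛ.le
  have h0 : (0 : ℝ) ≤ (N : ℝ) - M := by linarith
  rcases lt_or_ge 1 Λ with h1 | h1
  · have h2 : ‖∑ n ∈ Finset.Icc M N, e (f n)‖ ≤ (N : ℝ) - M + 1 := by
      refine (BA4_norm_sum _ _).trans (BA4_card h0 ?_)
      intro a ha b hb _
      rw [Finset.mem_Icc] at ha hb
      have h3 : (M : ℝ) ≤ a := by exact_mod_cast ha.1
      have h4 : (b : ℝ) ≤ N := by exact_mod_cast hb.2
      linarith
    have h3 : 1 ≤ √Λ := by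
      rw [Real.one_le_sqrt]
      exact h1.le
    have h4 : (N : ℝ) - M ≤ (N - M) * √Λ := by nlinarith
    have h5 : 0 ≤ 1 / √Λ := by positivity
    have h6 : 0 ≤ (N - M) * √Λ := by positivity
    nlinarith
  · have key : ∀ g g' g'' : ℝ → ℝ, (∀ u ∈ Icc (M : ℝ) N, HasDerivAt g (g' u) u) →
        (∀ u ∈ Icc (M : ℝ) N, HasDerivAt g' (g'' u) u) →
        (∀ u ∈ Icc (M : ℝ) N, Λ ≤ g'' u ∧ g'' u ≤ A * Λ) →
        ‖∑ n ∈ Finset.Icc M N, e (g n)‖ ≤ 22 * A * (((N : ℝ) - M) * √Λ + 1 / √Λ + 1) := by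
      intro g g' g'' hg hg' hg''
      refine (BA4_up hMN hΛ h1 hg hg' hg'').trans ?_
      have h7 : (A * Λ * ((N : ℝ) - M) + 2) * (11 / √Λ) =
          11 * A * ((N - M) * √Λ) + 22 * (1 / √Λ) := by
        have h70 : A * Λ * ((N : ℝ) - M) = A * (√Λ * √Λ) * ((N : ℝ) - M) := by rw [hss]
        rw [h70]
        field_simp
        ring
      rw [h7]
      have h5 : 0 ≤ 1 / √Λ := by positivity
      have h6 : 0 ≤ (N - M) * √Λ := by positivity
      have h8 : 0 ≤ A * ((N - M) * √Λ) := by positivity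
      have h9 : 1 / √Λ ≤ A * (1 / √Λ) := by nlinarith
      nlinarith
    rcases h with h | h
    · exact key f f' f'' hf hf' h
    · have h10 := key (fun u => -f u) (fun u => -f' u) (fun u => -f'' u)
        (fun u hu => (hf u hu).neg) (fun u hu => (hf' u hu).neg) h
      have h11 : ∑ n ∈ Finset.Icc M N, e (-f n) = conj (∑ n ∈ Finset.Icc M N, e (f n)) := by
        rw [map_sum]
        exact Finset.sum_congr rfl fun n _ => (BA4_conj _).symm
      rw [h11, Complex.norm_conj] at h10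
      exact h10
--END BA4

/-! ### The phase -/

--BEGIN BB1
/-- **BB1.** Derivatives of the phase. -/
theorem ph_deriv (k : ℕ) (hk : 4 ≤ k) (l κ' : ℝ) {x : ℝ} (hx : 0 < x) :
    HasDerivAt (ph k l κ') (l / √x + κ' / k * x ^ (1 / (k : ℝ) - 1)) x ∧
    HasDerivAt (fun y => l / √y + κ' / k * y ^ (1 / (k : ℝ) - 1))
      (-(l / 2) * x ^ (-(3 / 2) : ℝ) + κ' / k * (1 / k - 1) * x ^ (1 / (k : ℝ) - 2)) x := by
  have hk0 : (k : ℝ) ≠ 0 := by
    have : k ≠ 0 := by omega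
    exact_mod_cast this
  have hsx : 0 < √x := Real.sqrt_pos.2 hx
  have h1 : HasDerivAt (fun y => √y) (1 / (2 * √x)) x := Real.hasDerivAt_sqrt hx.ne'
  constructor
  · have h2 : HasDerivAt (fun y => y ^ (1 / (k : ℝ))) (1 / (k : ℝ) * x ^ (1 / (k : ℝ) - 1)) x :=
      Real.hasDerivAt_rpow_const (Or.inl hx.ne')
    refine ((h1.const_mul (2 * l)).add (h2.const_mul κ')).congr_deriv ?_
    field_simp
  · have h2 : HasDerivAt (fun y => y ^ (1 / (k : ℝ) - 1))
        ((1 / (k : ℝ) - 1) * x ^ (1 / (k : ℝ) - 1 - 1)) x :=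
      Real.hasDerivAt_rpow_const (Or.inl hx.ne')
    have h3 := (hasDerivAt_const x l).div h1 hsx.ne'
    refine (h3.add (h2.const_mul (κ' / k))).congr_deriv ?_
    have h4 : x ^ (-(3 / 2) : ℝ) = 1 / (√x) ^ 3 := by
      rw [Real.rpow_neg hx.le, Real.sqrt_eq_rpow, ← Real.rpow_natCast, ← Real.rpow_mul hx.le,
        one_div]
      norm_num
    have h5 : 1 / (k : ℝ) - 1 - 1 = 1 / k - 2 := by ring
    rw [h4, h5]
    congr 1
    · field_simp
      ring
    · ring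
--END BB1

--BEGIN BB2
private theorem BB2_rpow_half {T : ℝ} (hT : 0 < T) : T ^ (-(1 / 2) : ℝ) = 1 / √T := by
  rw [Real.rpow_neg hT.le, Real.sqrt_eq_rpow, one_div (T ^ (1 / 2 : ℝ))]

private theorem BB2_sqrt {T y z : ℝ} (hT : 0 < T) (hy : T / 4 ≤ y) (hz : z ≤ 8 * T)
    (hyz : y ≤ z) : T ^ (-(1 / 2) : ℝ) * (z - y) / 6 ≤ √z - √y ∧
      √z - √y ≤ T ^ (-(1 / 2) : ℝ) * (z - y) := by
  have hy0 : 0 < y := by linarith
  have hz0 : 0 < z := by linarith
  have hsT : 0 < √T := Real.sqrt_pos.2 hT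
  have hsy : 0 < √y := Real.sqrt_pos.2 hy0
  have hyz' : √y ≤ √z := Real.sqrt_le_sqrt hyz
  have h1 : √z ≤ 3 * √T := by
    rw [Real.sqrt_le_left (by positivity), mul_pow, Real.sq_sqrt hT.le]
    linarith
  have h2 : √T ≤ 2 * √y := by
    rw [Real.sqrt_le_left (by positivity), mul_pow, Real.sq_sqrt hy0.le]
    linarith
  have h3 : (√z - √y) * (√z + √y) = z - y := by
    have a1 := Real.sq_sqrt hz0.le
    have a2 := Real.sq_sqrt hy0.le
    nlinarith
  have h4 : 0 ≤ √z - √y := by linarith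
  rw [BB2_rpow_half hT]
  constructor
  · have h5 : 1 / √T * (z - y) / 6 = (z - y) / (6 * √T) := by
      field_simp
    rw [h5, div_le_iff₀ (by positivity), ← h3]
    exact mul_le_mul_of_nonneg_left (by linarith) h4
  · have h5 : 1 / √T * (z - y) = (z - y) / √T := by
      field_simp
    rw [h5, le_div_iff₀ hsT, ← h3]
    exact mul_le_mul_of_nonneg_left (by linarith) h4

private theorem BB2_pow {k : ℕ} (hk : 4 ≤ k) {T y z : ℝ} (hT : 4 ≤ T) (hy : T / 4 ≤ y)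
    (hyz : y ≤ z) : |z ^ (1 / (k : ℝ)) - y ^ (1 / (k : ℝ))| ≤ T ^ (-(3 / 4) : ℝ) * (z - y) := by
  have hy0 : 0 < y := by linarith
  have hk4 : (4 : ℝ) ≤ k := by exact_mod_cast hk
  rcases hyz.eq_or_lt with rfl | hlt
  · simp
  obtain ⟨c, hc, hc'⟩ := exists_hasDerivAt_eq_slope (fun u : ℝ => u ^ (1 / (k : ℝ)))
    (fun u => 1 / (k : ℝ) * u ^ (1 / (k : ℝ) - 1)) hlt
    (fun u hu => (Real.continuousAt_rpow_const _ _
      (Or.inl (hy0.trans_le hu.1).ne')).continuousWithinAt)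
    (fun u hu => Real.hasDerivAt_rpow_const (Or.inl (hy0.trans hu.1).ne'))
  have hzy : 0 < z - y := sub_pos.2 hlt
  have h1 : z ^ (1 / (k : ℝ)) - y ^ (1 / (k : ℝ)) = 1 / (k : ℝ) * c ^ (1 / (k : ℝ) - 1) *
      (z - y) := by
    rw [hc', div_mul_cancel₀ _ hzy.ne']
  have hcT : T / 4 ≤ c := hy.trans hc.1.le
  have hc1 : 1 ≤ c := by linarith
  have hc0 : 0 < c := by linarith
  have h2 : c ^ (1 / (k : ℝ) - 1) ≤ c ^ (-(3 / 4) : ℝ) := by
    apply Real.rpow_le_rpow_of_exponent_le hc1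
    have : 1 / (k : ℝ) ≤ 1 / 4 := one_div_le_one_div_of_le (by norm_num) hk4
    linarith
  have h3 : c ^ (-(3 / 4) : ℝ) ≤ (T / 4) ^ (-(3 / 4) : ℝ) :=
    Real.rpow_le_rpow_of_nonpos (by linarith) hcT (by norm_num)
  have h4 : (T / 4) ^ (-(3 / 4) : ℝ) ≤ 4 * T ^ (-(3 / 4) : ℝ) := by
    rw [Real.div_rpow (by linarith) (by norm_num), Real.rpow_neg (by norm_num : (0 : ℝ) ≤ 4),
      div_inv_eq_mul, mul_comm]
    apply mul_le_mul_of_nonneg_right _ (Real.rpow_nonneg (by linarith) _)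
    calc (4 : ℝ) ^ (3 / 4 : ℝ) ≤ 4 ^ (1 : ℝ) :=
          Real.rpow_le_rpow_of_exponent_le (by norm_num) (by norm_num)
      _ = 4 := Real.rpow_one 4
  have h5 : 0 ≤ c ^ (1 / (k : ℝ) - 1) := Real.rpow_nonneg hc0.le _
  have h6 : 1 / (k : ℝ) ≤ 1 / 4 := one_div_le_one_div_of_le (by norm_num) hk4
  rw [h1, abs_of_nonneg (by positivity)]
  apply mul_le_mul_of_nonneg_right _ hzy.le
  calc 1 / (k : ℝ) * c ^ (1 / (k : ℝ) - 1) ≤ 1 / 4 * (4 * T ^ (-(3 / 4) : ℝ)) :=
        mul_le_mul h6 (h2.trans (h3.trans h4)) h5 (by norm_num)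
    _ = T ^ (-(3 / 4) : ℝ) := by ring

/-- **BB2.** `θ(y) = y φ'(y)` is monotone with derivative `≍ |λ| T^{-1/2}` on `[T/4, 8T]`, for
large `T`. -/
theorem theta_deriv {k : ℕ} (hk : 4 ≤ k) {l0 : ℝ} (hl0 : 0 < l0) : ∃ c C T0 : ℝ, 0 < c ∧ 0 < C ∧
    1 ≤ T0 ∧ ∀ T l κ' : ℝ, T0 ≤ T → l0 ≤ |l| → |κ'| ≤ k → ∀ y z : ℝ, y ∈ Icc (T / 4) (8 * T) →
      z ∈ Icc (T / 4) (8 * T) → y ≤ z →
      c * |l| * T ^ (-(1 / 2) : ℝ) * (z - y) ≤
        |(l * √z + κ' / k * z ^ (1 / (k : ℝ))) - (l * √y + κ' / k * y ^ (1 / (k : ℝ)))| ∧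
      |(l * √z + κ' / k * z ^ (1 / (k : ℝ))) - (l * √y + κ' / k * y ^ (1 / (k : ℝ)))| ≤
        C * |l| * T ^ (-(1 / 2) : ℝ) * (z - y) := by
  refine ⟨1 / 12, 2, (12 / l0) ^ 4 + 4, by norm_num, by norm_num, ?_, ?_⟩
  · have : 0 ≤ (12 / l0) ^ 4 := by positivity
    linarith
  intro T l κ' hT hl hκ y z hy hz hyz
  have h120 : 0 ≤ (12 / l0) ^ 4 := by positivity
  have hT4 : 4 ≤ T := by linarith
  have hT0 : 0 < T := by linarith
  have hk4 : (4 : ℝ) ≤ k := by exact_mod_cast hk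
  have hk0 : (0 : ℝ) < k := by linarith
  obtain ⟨s1, s2⟩ := BB2_sqrt hT0 hy.1 hz.2 hyz
  have s3 := BB2_pow hk hT4 hy.1 hyz
  have hzy : 0 ≤ z - y := sub_nonneg.2 hyz
  have hsq0 : 0 ≤ √z - √y := sub_nonneg.2 (Real.sqrt_le_sqrt hyz)
  have h1 : T ^ (-(3 / 4) : ℝ) ≤ l0 / 12 * T ^ (-(1 / 2) : ℝ) := by
    have h2 : T ^ (-(3 / 4) : ℝ) = T ^ (-(1 / 4) : ℝ) * T ^ (-(1 / 2) : ℝ) := by
      rw [← Real.rpow_add hT0]
      norm_num
    rw [h2]
    apply mul_le_mul_of_nonneg_right _ (Real.rpow_nonneg hT0.le _)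
    rw [Real.rpow_neg hT0.le]
    have h3 : 12 / l0 ≤ T ^ (1 / 4 : ℝ) := by
      have h4 : ((12 / l0) ^ 4) ^ (1 / 4 : ℝ) ≤ T ^ (1 / 4 : ℝ) :=
        Real.rpow_le_rpow h120 (by linarith) (by norm_num)
      rw [← Real.rpow_natCast, ← Real.rpow_mul (by positivity)] at h4
      norm_num at h4
      exact h4
    rw [inv_le_comm₀ (by positivity) (by positivity), inv_div]
    exact h3
  have hκk : |κ' / k| ≤ 1 := by
    rw [abs_div, abs_of_pos hk0, div_le_one hk0]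
    exact hκ
  set P := T ^ (-(1 / 2) : ℝ) * (z - y) with hP
  have hP0 : 0 ≤ P := mul_nonneg (Real.rpow_nonneg hT0.le _) hzy
  have hY : |κ' / k * (z ^ (1 / (k : ℝ)) - y ^ (1 / (k : ℝ)))| ≤ |l| / 12 * P := by
    rw [abs_mul]
    calc |κ' / k| * |z ^ (1 / (k : ℝ)) - y ^ (1 / (k : ℝ))| ≤ 1 * (T ^ (-(3 / 4) : ℝ) * (z - y)) :=
          mul_le_mul hκk s3 (abs_nonneg _) (by norm_num)
      _ ≤ 1 * (l0 / 12 * T ^ (-(1 / 2) : ℝ) * (z - y)) := by
          rw [one_mul, one_mul]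
          exact mul_le_mul_of_nonneg_right h1 hzy
      _ = l0 / 12 * P := by rw [hP]; ring
      _ ≤ |l| / 12 * P := mul_le_mul_of_nonneg_right (by linarith) hP0
  have hX : |l * (√z - √y)| = |l| * (√z - √y) := by rw [abs_mul, abs_of_nonneg hsq0]
  have hl0' : 0 ≤ |l| := abs_nonneg l
  have e1 : (l * √z + κ' / k * z ^ (1 / (k : ℝ))) - (l * √y + κ' / k * y ^ (1 / (k : ℝ))) =
      l * (√z - √y) + κ' / k * (z ^ (1 / (k : ℝ)) - y ^ (1 / (k : ℝ))) := by ring
  rw [e1]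
  have e2 : |l| * (P / 6) ≤ |l| * (√z - √y) := mul_le_mul_of_nonneg_left s1 hl0'
  have e3 : |l| * (√z - √y) ≤ |l| * P := mul_le_mul_of_nonneg_left s2 hl0'
  have e4 := abs_add_le (l * (√z - √y)) (κ' / k * (z ^ (1 / (k : ℝ)) - y ^ (1 / (k : ℝ))))
  have e5 := abs_sub_abs_le_abs_sub (l * (√z - √y))
    (-(κ' / k * (z ^ (1 / (k : ℝ)) - y ^ (1 / (k : ℝ)))))
  rw [sub_neg_eq_add, abs_neg] at e5
  have e6 : 0 ≤ |l| * P := mul_nonneg hl0' hP0
  constructor
  · have e7 : 1 / 12 * |l| * T ^ (-(1 / 2) : ℝ) * (z - y) = |l| * P / 12 := by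
      rw [hP]
      ring
    rw [e7]
    linarith
  · have e7 : 2 * |l| * T ^ (-(1 / 2) : ℝ) * (z - y) = 2 * (|l| * P) := by
      rw [hP]
      ring
    rw [e7]
    linarith
--END BB2

--BEGIN BB3
private theorem BB3_abs {θ : ℝ → ℝ} {s : Set ℝ} {c C : ℝ}
    (h : ∀ y ∈ s, ∀ z ∈ s, y ≤ z → c * (z - y) ≤ |θ z - θ y| ∧ |θ z - θ y| ≤ C * (z - y)) :
    ∀ y ∈ s, ∀ z ∈ s, c * |z - y| ≤ |θ z - θ y| ∧ |θ z - θ y| ≤ C * |z - y| := by
  intro y hy z hz
  rcases le_total y z with h1 | h1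
  · rw [abs_of_nonneg (sub_nonneg.2 h1)]
    exact h y hy z hz h1
  · rw [abs_sub_comm z y, abs_of_nonneg (sub_nonneg.2 h1), abs_sub_comm (θ z)]
    exact h z hz y hy h1

private theorem BB3_theta1 {k : ℕ} (l κ' : ℝ) {y : ℝ} (hy : 0 < y) :
    y * (l / √y + κ' / k * y ^ (1 / (k : ℝ) - 1)) = l * √y + κ' / k * y ^ (1 / (k : ℝ)) := by
  rw [Real.rpow_sub_one hy.ne', mul_add]
  congr 1
  · rw [mul_div_left_comm, Real.div_sqrt]
  · field_simp

private theorem BB3_theta2 {k : ℕ} (l κ' : ℝ) {y : ℝ} (hy : 0 < y) :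
    y ^ 2 * (-(l / 2) * y ^ (-(3 / 2) : ℝ) + κ' / k * (1 / k - 1) * y ^ (1 / (k : ℝ) - 2)) =
      (-(l / 2)) * √y + (κ' * (1 / k - 1)) / k * y ^ (1 / (k : ℝ)) := by
  have h1 : y ^ 2 * y ^ (-(3 / 2) : ℝ) = √y := by
    rw [← Real.rpow_natCast, ← Real.rpow_add hy, Real.sqrt_eq_rpow]
    norm_num
  have h2 : y ^ 2 * y ^ (1 / (k : ℝ) - 2) = y ^ (1 / (k : ℝ)) := by
    rw [← Real.rpow_natCast, ← Real.rpow_add hy]
    congr 1
    push_cast
    ring
  rw [← h1, ← h2]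
  ring

private theorem BB3_conj (x y : ℝ) : e x * conj (e y) = e (x - y) := by
  rw [BA4_conj, ← BA3_e_add, sub_eq_add_neg]

/-- **BB3.** The off-diagonal integral: for `b ≠ b'`,
`∫ g(ub) conj(g(ub')) e(φ(ub) - φ(ub')) du ≪ S² (T/X) T^{1/2} / (|λ| |b - b'|)`, where `g` is
supported in `[T/2,4T]`, `|g| ≤ S`, `|g'| ≤ S/X`. By BA1: the derivative of the phase is
`(θ(ub) - θ(ub'))/u`. The integral is over all `u > 0` with `ub, ub' ∈ [T/2,4T]`. -/
theorem offdiag {k : ℕ} (hk : 4 ≤ k) {l0 : ℝ} (hl0 : 0 < l0) : ∃ C T0 : ℝ, 0 < C ∧ 1 ≤ T0 ∧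
    ∀ (T X S l κ' : ℝ) (g g' : ℝ → ℂ) (b b' : ℕ), T0 ≤ T → 1 ≤ X → X ≤ T → 0 ≤ S → l0 ≤ |l| →
      |κ'| ≤ k → (∀ x, HasDerivAt g (g' x) x) → Continuous g' →
      (∀ x, x ∉ Icc (T / 2) (4 * T) → g x = 0) → (∀ x, ‖g x‖ ≤ S) → (∀ x, ‖g' x‖ ≤ S / X) →
      1 ≤ b → 1 ≤ b' → b ≠ b' → ∀ p q : ℝ, 0 < p → p ≤ q →
      ‖∫ u in p..q, (g (u * b) * e (ph k l κ' (u * b))) *
        conj (g (u * b') * e (ph k l κ' (u * b')))‖ ≤
      C * S ^ 2 * (T / X) * T ^ (1 / 2 : ℝ) / (|l| * |(b : ℝ) - b'|) := by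
  obtain ⟨c, C1, T1, hc, hC1, hT1, hth1⟩ := theta_deriv hk hl0
  obtain ⟨c2, C2, T2, hc2, hC2, hT2, hth2⟩ := theta_deriv hk (half_pos hl0)
  refine ⟨(18 + 32 * (C2 / c)) / c, max T1 T2, by positivity, le_max_of_le_left hT1, ?_⟩
  intro T X S l κ' g g' b b' hT hX hXT hS hl hκ hg hg'c hg0 hgS hgS' hb hb' hbb p q hp hpq
  have hTT1 : T1 ≤ T := (le_max_left _ _).trans hT
  have hTT2 : T2 ≤ T := (le_max_right _ _).trans hT
  have hT0 : 0 < T := by linarith
  have hX0 : 0 < X := by linarith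
  have hk4 : (4 : ℝ) ≤ k := by exact_mod_cast hk
  have hk0 : (0 : ℝ) < k := by linarith
  have hl00 : 0 < |l| := hl0.trans_le hl
  have hb0 : (0 : ℝ) < b := by exact_mod_cast hb
  have hb0' : (0 : ℝ) < b' := by exact_mod_cast hb'
  have hbb0 : 0 < |(b : ℝ) - b'| := abs_pos.2 (sub_ne_zero.2 (by exact_mod_cast hbb))
  have hTX : 1 ≤ T / X := by rwa [le_div_iff₀ hX0, one_mul]
  -- the two monotone functions
  have hA : ∀ y ∈ Icc (T / 4) (8 * T), ∀ z ∈ Icc (T / 4) (8 * T),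
      c * |l| * T ^ (-(1 / 2) : ℝ) * |z - y| ≤
        |(l * √z + κ' / k * z ^ (1 / (k : ℝ))) - (l * √y + κ' / k * y ^ (1 / (k : ℝ)))| :=
    fun y hy z hz => (BB3_abs (θ := fun z => l * √z + κ' / k * z ^ (1 / (k : ℝ)))
      (s := Icc (T / 4) (8 * T)) (c := c * |l| * T ^ (-(1 / 2) : ℝ))
      (C := C1 * |l| * T ^ (-(1 / 2) : ℝ))
      (fun y hy z hz hyz => hth1 T l κ' hTT1 hl hκ y z hy hz hyz) y hy z hz).1
  have hl2 : l0 / 2 ≤ |-(l / 2)| := by
    rw [abs_neg, abs_div, abs_two]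
    linarith
  have hκ2 : |κ' * (1 / k - 1)| ≤ k := by
    rw [abs_mul]
    have h1 : |1 / (k : ℝ) - 1| ≤ 1 := by
      rw [abs_le]
      have h2 : 0 < 1 / (k : ℝ) := by positivity
      have h3 : 1 / (k : ℝ) ≤ 1 / 4 := one_div_le_one_div_of_le (by norm_num) hk4
      constructor <;> linarith
    calc |κ'| * |1 / (k : ℝ) - 1| ≤ k * 1 := mul_le_mul hκ h1 (abs_nonneg _) hk0.le
      _ = k := mul_one _
  have hB : ∀ y ∈ Icc (T / 4) (8 * T), ∀ z ∈ Icc (T / 4) (8 * T),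
      |((-(l / 2)) * √z + (κ' * (1 / k - 1)) / k * z ^ (1 / (k : ℝ))) -
        ((-(l / 2)) * √y + (κ' * (1 / k - 1)) / k * y ^ (1 / (k : ℝ)))| ≤
        C2 * |-(l / 2)| * T ^ (-(1 / 2) : ℝ) * |z - y| :=
    fun y hy z hz => (BB3_abs
      (θ := fun z => (-(l / 2)) * √z + (κ' * (1 / k - 1)) / k * z ^ (1 / (k : ℝ)))
      (s := Icc (T / 4) (8 * T)) (c := c2 * |-(l / 2)| * T ^ (-(1 / 2) : ℝ))
      (C := C2 * |-(l / 2)| * T ^ (-(1 / 2) : ℝ))
      (fun y hy z hz hyz => hth2 T (-(l / 2)) (κ' * (1 / k - 1)) hTT2 hl2 hκ2 y z hy hz hyz)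
      y hy z hz).2
  -- the interval
  set m : ℝ := min (b : ℝ) b' with hm
  set M : ℝ := max (b : ℝ) b' with hM
  have hm0 : 0 < m := lt_min hb0 hb0'
  have hM0 : 0 < M := hm0.trans_le (min_le_max)
  have hmM : m ≤ M := min_le_max
  set F : ℝ → ℂ := fun u => (g (u * b) * e (ph k l κ' (u * b))) *
        conj (g (u * b') * e (ph k l κ' (u * b'))) with hF
  have hz1 : ∀ u, u * m < T / 2 → F u = 0 := by
    intro u hu
    rcases min_choice (b : ℝ) b' with h | h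
    · rw [hm, h] at hu
      have : g (u * b) = 0 := hg0 _ fun h' => by linarith [h'.1]
      simp [hF, this]
    · rw [hm, h] at hu
      have : g (u * b') = 0 := hg0 _ fun h' => by linarith [h'.1]
      simp [hF, this]
  have hz2 : ∀ u, 4 * T < u * M → F u = 0 := by
    intro u hu
    rcases max_choice (b : ℝ) b' with h | h
    · rw [hM, h] at hu
      have : g (u * b) = 0 := hg0 _ fun h' => by linarith [h'.2]
      simp [hF, this]
    · rw [hM, h] at hu
      have : g (u * b') = 0 := hg0 _ fun h' => by linarith [h'.2]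
      simp [hF, this]
  set P := max p (T / (4 * m)) with hP
  set Q := min q (8 * T / M) with hQ
  have hP0 : 0 < P := hp.trans_le (le_max_left _ _)
  have hnonneg : 0 ≤ (18 + 32 * (C2 / c)) / c * S ^ 2 * (T / X) * T ^ (1 / 2 : ℝ) /
      (|l| * |(b : ℝ) - b'|) := by positivity
  have hzl : ∀ u, u ≤ T / (4 * m) → F u = 0 := by
    intro u hu
    apply hz1
    rw [le_div_iff₀ (by positivity)] at hu
    linarith
  have hzr : ∀ u, 8 * T / M ≤ u → F u = 0 := by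
    intro u hu
    apply hz2
    rw [div_le_iff₀ hM0] at hu
    linarith
  rcases lt_or_ge Q P with hQP | hPQ
  · have h0 : ∫ u in p..q, F u = 0 := by
      apply intervalIntegral.integral_zero_ae
      refine Filter.Eventually.of_forall fun u hu => ?_
      rw [uIoc_of_le hpq] at hu
      rcases le_total u (T / (4 * m)) with h1 | h1
      · exact hzl u h1
      · have h2 : P ≤ u := max_le hu.1.le h1
        rcases min_choice q (8 * T / M) with h3 | h3
        · rw [← hQ] at h3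
          linarith [hu.2]
        · rw [← hQ] at h3
          exact hzr u (by linarith)
    rw [h0, norm_zero]
    exact hnonneg
  -- the main case
  have hsub : ∀ u ∈ Icc P Q, ∀ y : ℝ, y = b ∨ y = b' → u * y ∈ Icc (T / 4) (8 * T) := by
    intro u hu y hy
    have hmy : m ≤ y ∧ y ≤ M := by
      rcases hy with rfl | rfl
      · exact ⟨min_le_left _ _, le_max_left _ _⟩
      · exact ⟨min_le_right _ _, le_max_right _ _⟩
    have hu0 : 0 < u := hP0.trans_le hu.1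
    have h1 : T / (4 * m) ≤ u := (le_max_right _ _).trans hu.1
    have h2 : u ≤ 8 * T / M := hu.2.trans (min_le_right _ _)
    rw [div_le_iff₀ (by positivity)] at h1
    rw [le_div_iff₀ hM0] at h2
    constructor
    · have : u * m ≤ u * y := mul_le_mul_of_nonneg_left hmy.1 hu0.le
      linarith
    · have : u * y ≤ u * M := mul_le_mul_of_nonneg_left hmy.2 hu0.le
      linarith
  have hpos : ∀ u ∈ Icc P Q, 0 < u := fun u hu => hP0.trans_le hu.1
  have hderG : ∀ u ∈ Icc P Q, HasDerivAt (fun u : ℝ => g (u * b) * conj (g (u * b')))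
      ((b : ℂ) * g' (u * b) * conj (g (u * b')) + g (u * b) * ((b' : ℂ) * conj (g' (u * b')))) u := by
    intro u _
    have d1 : HasDerivAt (fun u : ℝ => g (u * b)) ((b : ℝ) • g' (u * b)) u :=
      (hg (u * b)).scomp u (hasDerivAt_mul_const (b : ℝ))
    have d2 : HasDerivAt (fun u : ℝ => g (u * b')) ((b' : ℝ) • g' (u * b')) u :=
      (hg (u * b')).scomp u (hasDerivAt_mul_const (b' : ℝ))
    have d3 := d1.mul d2.star
    refine d3.congr_deriv ?_
    simp only [Complex.real_smul, Complex.ofReal_natCast, RCLike.star_def, map_mul,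
      Complex.conj_natCast]
  have hgc : Continuous g := continuous_iff_continuousAt.2 fun x => (hg x).continuousAt
  have hGc : Continuous (fun u : ℝ => (b : ℂ) * g' (u * b) * conj (g (u * b')) +
      g (u * b) * ((b' : ℂ) * conj (g' (u * b')))) := by
    have c1 : Continuous fun u : ℝ => g (u * b) := hgc.comp (by fun_prop)
    have c2 : Continuous fun u : ℝ => g (u * b') := hgc.comp (by fun_prop)
    have c3 : Continuous fun u : ℝ => g' (u * b) := hg'c.comp (by fun_prop)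
    have c4 : Continuous fun u : ℝ => g' (u * b') := hg'c.comp (by fun_prop)
    have c5 := Complex.continuous_conj.comp c2
    have c6 := Complex.continuous_conj.comp c4
    exact ((continuous_const.mul c3).mul c5).add (c1.mul (continuous_const.mul c6))
  have hderh : ∀ y : ℝ, 0 < y → ∀ u : ℝ, 0 < u →
      HasDerivAt (fun u => ph k l κ' (u * y))
        ((l / √(u * y) + κ' / k * (u * y) ^ (1 / (k : ℝ) - 1)) * y) u ∧
      HasDerivAt (fun u => (l / √(u * y) + κ' / k * (u * y) ^ (1 / (k : ℝ) - 1)) * y)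
        ((-(l / 2) * (u * y) ^ (-(3 / 2) : ℝ) +
          κ' / k * (1 / k - 1) * (u * y) ^ (1 / (k : ℝ) - 2)) * y * y) u := by
    intro y hy u hu
    obtain ⟨d1, d2⟩ := ph_deriv k hk l κ' (mul_pos hu hy)
    have c1 := HasDerivAt.comp (h := fun u : ℝ => u * y) u d1 (hasDerivAt_mul_const y)
    have c2 := (HasDerivAt.comp (h := fun u : ℝ => u * y) u d2
      (hasDerivAt_mul_const y)).mul_const y
    exact ⟨c1, c2⟩
  have hkey1 : ∀ u ∈ Icc P Q, c * |l| * T ^ (-(1 / 2) : ℝ) * |(b : ℝ) - b'| ≤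
      |(l / √(u * b) + κ' / k * (u * b) ^ (1 / (k : ℝ) - 1)) * b -
        (l / √(u * b') + κ' / k * (u * b') ^ (1 / (k : ℝ) - 1)) * b'| := by
    intro u hu
    have hu0 := hpos u hu
    have h1 := hA _ (hsub u hu b' (Or.inr rfl)) _ (hsub u hu b (Or.inl rfl))
    rw [← BB3_theta1 l κ' (mul_pos hu0 hb0), ← BB3_theta1 l κ' (mul_pos hu0 hb0')] at h1
    have h2 : u * (b : ℝ) * (l / √(u * b) + κ' / k * (u * b) ^ (1 / (k : ℝ) - 1)) -
        u * b' * (l / √(u * b') + κ' / k * (u * b') ^ (1 / (k : ℝ) - 1)) =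
        u * ((l / √(u * b) + κ' / k * (u * b) ^ (1 / (k : ℝ) - 1)) * b -
        (l / √(u * b') + κ' / k * (u * b') ^ (1 / (k : ℝ) - 1)) * b') := by ring
    have h3 : u * (b : ℝ) - u * b' = u * (b - b') := by ring
    rw [h2, h3, abs_mul, abs_mul, abs_of_pos hu0] at h1
    have h4 : c * |l| * T ^ (-(1 / 2) : ℝ) * (u * |(b : ℝ) - b'|) =
      u * (c * |l| * T ^ (-(1 / 2) : ℝ) * |(b : ℝ) - b'|) := by ring
    rw [h4] at h1
    exact le_of_mul_le_mul_left h1 hu0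
  have hkey2 : ∀ u ∈ Icc P Q,
      |(-(l / 2) * (u * b) ^ (-(3 / 2) : ℝ) +
          κ' / k * (1 / k - 1) * (u * b) ^ (1 / (k : ℝ) - 2)) * b * b -
        (-(l / 2) * (u * b') ^ (-(3 / 2) : ℝ) +
          κ' / k * (1 / k - 1) * (u * b') ^ (1 / (k : ℝ) - 2)) * b' * b'| ≤
      (C2 / c) / P * |(l / √(u * b) + κ' / k * (u * b) ^ (1 / (k : ℝ) - 1)) * b -
        (l / √(u * b') + κ' / k * (u * b') ^ (1 / (k : ℝ) - 1)) * b'| := by
    intro u hu
    have hu0 := hpos u hu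
    have h1 := hB _ (hsub u hu b' (Or.inr rfl)) _ (hsub u hu b (Or.inl rfl))
    rw [← BB3_theta2 l κ' (mul_pos hu0 hb0), ← BB3_theta2 l κ' (mul_pos hu0 hb0')] at h1
    have h2 : (u * (b : ℝ)) ^ 2 * (-(l / 2) * (u * b) ^ (-(3 / 2) : ℝ) +
          κ' / k * (1 / k - 1) * (u * b) ^ (1 / (k : ℝ) - 2)) -
        (u * b') ^ 2 * (-(l / 2) * (u * b') ^ (-(3 / 2) : ℝ) +
          κ' / k * (1 / k - 1) * (u * b') ^ (1 / (k : ℝ) - 2)) =
        u ^ 2 * ((-(l / 2) * (u * b) ^ (-(3 / 2) : ℝ) +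
          κ' / k * (1 / k - 1) * (u * b) ^ (1 / (k : ℝ) - 2)) * b * b -
        (-(l / 2) * (u * b') ^ (-(3 / 2) : ℝ) +
          κ' / k * (1 / k - 1) * (u * b') ^ (1 / (k : ℝ) - 2)) * b' * b') := by ring
    have h3 : u * (b : ℝ) - u * b' = u * (b - b') := by ring
    rw [h2, h3, abs_mul (u ^ 2), abs_mul u, abs_of_pos hu0, abs_of_pos (pow_pos hu0 2)] at h1
    have h5 := hkey1 u hu
    have h6 : |-(l / 2)| = |l| / 2 := by rw [abs_neg, abs_div, abs_two]
    rw [h6] at h1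
    set E1 := |(-(l / 2) * (u * b) ^ (-(3 / 2) : ℝ) +
          κ' / k * (1 / k - 1) * (u * b) ^ (1 / (k : ℝ) - 2)) * b * b -
        (-(l / 2) * (u * b') ^ (-(3 / 2) : ℝ) +
          κ' / k * (1 / k - 1) * (u * b') ^ (1 / (k : ℝ) - 2)) * b' * b'|
    set E2 := |(l / √(u * b) + κ' / k * (u * b) ^ (1 / (k : ℝ) - 1)) * b -
        (l / √(u * b') + κ' / k * (u * b') ^ (1 / (k : ℝ) - 1)) * b'|
    have h7 : u * E1 ≤ C2 * (|l| / 2) * T ^ (-(1 / 2) : ℝ) * |(b : ℝ) - b'| := by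
      have h8 : u * (u * E1) ≤
          u * (C2 * (|l| / 2) * T ^ (-(1 / 2) : ℝ) * |(b : ℝ) - b'|) := by
        calc u * (u * E1) = u ^ 2 * E1 := by ring
          _ ≤ C2 * (|l| / 2) * T ^ (-(1 / 2) : ℝ) * (u * |(b : ℝ) - b'|) := h1
          _ = _ := by ring
      exact le_of_mul_le_mul_left h8 hu0
    have h9 : C2 * (|l| / 2) * T ^ (-(1 / 2) : ℝ) * |(b : ℝ) - b'| ≤ (C2 / c) * E2 := by
      have h10 : C2 * (|l| / 2) * T ^ (-(1 / 2) : ℝ) * |(b : ℝ) - b'| =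
          (C2 / c) * (c * |l| * T ^ (-(1 / 2) : ℝ) * |(b : ℝ) - b'|) / 2 := by
        field_simp
      rw [h10]
      have h11 : (C2 / c) * (c * |l| * T ^ (-(1 / 2) : ℝ) * |(b : ℝ) - b'|) ≤ (C2 / c) * E2 :=
        mul_le_mul_of_nonneg_left h5 (by positivity)
      have h12 : 0 ≤ (C2 / c) * (c * |l| * T ^ (-(1 / 2) : ℝ) * |(b : ℝ) - b'|) := by positivity
      linarith
    rw [div_mul_eq_mul_div, le_div_iff₀ hP0]
    have h13 : 0 ≤ E1 := abs_nonneg _
    calc E1 * P ≤ E1 * u := mul_le_mul_of_nonneg_left hu.1 h13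
      _ = u * E1 := mul_comm _ _
      _ ≤ (C2 / c) * E2 := h7.trans h9
  have hμ : 0 < c * |l| * T ^ (-(1 / 2) : ℝ) * |(b : ℝ) - b'| := by positivity
  have hgn : ∀ x, ‖g' x‖ ≤ S / X := hgS'
  have hSX : 0 ≤ S / X := by positivity
  have hcont2 : ContinuousOn (fun u : ℝ => (-(l / 2) * (u * b) ^ (-(3 / 2) : ℝ) +
          κ' / k * (1 / k - 1) * (u * b) ^ (1 / (k : ℝ) - 2)) * b * b -
        (-(l / 2) * (u * b') ^ (-(3 / 2) : ℝ) +
          κ' / k * (1 / k - 1) * (u * b') ^ (1 / (k : ℝ) - 2)) * b' * b') (Icc P Q) := by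
    intro u hu
    have hu0 := hpos u hu
    have r1 : ∀ (y α : ℝ), 0 < y → ContinuousAt (fun u : ℝ => (u * y) ^ α) u := fun y α hy =>
      ContinuousAt.comp (g := fun v : ℝ => v ^ α) (f := fun u : ℝ => u * y)
        (Real.continuousAt_rpow_const _ _ (Or.inl (mul_pos hu0 hy).ne')) (by fun_prop)
    have a1 := r1 b (-(3 / 2)) hb0
    have a2 := r1 b (1 / (k : ℝ) - 2) hb0
    have a3 := r1 b' (-(3 / 2)) hb0'
    have a4 := r1 b' (1 / (k : ℝ) - 2) hb0'
    apply ContinuousAt.continuousWithinAt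
    exact ((((continuousAt_const.mul a1).add (continuousAt_const.mul a2)).mul
      continuousAt_const).mul continuousAt_const).sub
      ((((continuousAt_const.mul a3).add (continuousAt_const.mul a4)).mul
      continuousAt_const).mul continuousAt_const)
  have hBA := first_deriv (p := P) (q := Q) hPQ
    (g := fun u : ℝ => g (u * b) * conj (g (u * b')))
    (h := fun u => ph k l κ' (u * b) - ph k l κ' (u * b'))
    (S := S ^ 2) (V := 2 * M * S ^ 2 / X) (H := (C2 / c) / P)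
    hderG hGc.continuousOn
    (fun u hu => (hderh b hb0 u (hpos u hu)).1.sub (hderh b' hb0' u (hpos u hu)).1)
    (fun u hu => (hderh b hb0 u (hpos u hu)).2.sub (hderh b' hb0' u (hpos u hu)).2)
    hcont2 hμ hkey1 hkey2
    (fun u _ => by
      rw [norm_mul, Complex.norm_conj, sq]
      exact mul_le_mul (hgS _) (hgS _) (norm_nonneg _) hS)
    (fun u _ => by
      refine (norm_add_le _ _).trans ?_
      rw [norm_mul, norm_mul, norm_mul, norm_mul, Complex.norm_conj, Complex.norm_conj,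
        Complex.norm_natCast, Complex.norm_natCast]
      have i1 : (b : ℝ) * ‖g' (u * b)‖ * ‖g (u * b')‖ ≤ M * (S / X) * S :=
        mul_le_mul (mul_le_mul (le_max_left _ _) (hgn _) (norm_nonneg _) hM0.le) (hgS _)
          (norm_nonneg _) (by positivity)
      have i2 : ‖g (u * b)‖ * ((b' : ℝ) * ‖g' (u * b')‖) ≤ S * (M * (S / X)) :=
        mul_le_mul (hgS _) (mul_le_mul (le_max_right _ _) (hgn _) (norm_nonneg _) hM0.le)
          (by positivity) hS
      have i3 : 2 * M * S ^ 2 / X = M * (S / X) * S + S * (M * (S / X)) := by ring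
      rw [i3]
      exact add_le_add i1 i2)
  -- the integral is over `P..Q`
  have hFe : ∀ u, F u = g (u * b) * conj (g (u * b')) *
      e (ph k l κ' (u * b) - ph k l κ' (u * b')) := by
    intro u
    rw [← BB3_conj]
    simp only [hF, map_mul]
    ring
  have hpP : p ≤ P := le_max_left _ _
  have hQq : Q ≤ q := min_le_left _ _
  have hFc : ContinuousOn F (Icc p q) := by
    intro u hu
    have hu0 : 0 < u := hp.trans_le hu.1
    apply ContinuousAt.continuousWithinAt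
    have h1 : F = fun u => g (u * b) * conj (g (u * b')) *
      e (ph k l κ' (u * b) - ph k l κ' (u * b')) := funext hFe
    rw [h1]
    have a1 : ContinuousAt (fun u : ℝ => g (u * b)) u := (hgc.comp (by fun_prop)).continuousAt
    have a2 : ContinuousAt (fun u : ℝ => conj (g (u * b'))) u :=
      (Complex.continuous_conj.comp (hgc.comp (by fun_prop))).continuousAt
    have a3 : ContinuousAt (fun u => ph k l κ' (u * b) - ph k l κ' (u * b')) u :=
      ((hderh b hb0 u hu0).1.sub (hderh b' hb0' u hu0).1).continuousAt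
    exact (a1.mul a2).mul (ContinuousAt.comp (g := e) BA1_cont_e.continuousAt a3)
  have hint : ∀ a d : ℝ, p ≤ a → a ≤ d → d ≤ q → IntervalIntegrable F volume a d :=
    fun a d h1 h2 h3 => (hFc.mono (Icc_subset_Icc h1 h3)).intervalIntegrable_of_Icc h2
  have hsplit : ∫ u in p..q, F u = ∫ u in P..Q, F u := by
    have h1 := intervalIntegral.integral_add_adjacent_intervals
      (hint p P le_rfl hpP (hPQ.trans hQq)) (hint P Q hpP hPQ hQq)
    have h2 := intervalIntegral.integral_add_adjacent_intervals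
      (hint p Q le_rfl (hpP.trans hPQ) hQq) (hint Q q (hpP.trans hPQ) hQq le_rfl)
    have h3 : ∫ u in p..P, F u = 0 := by
      apply intervalIntegral.integral_zero_ae
      refine Filter.Eventually.of_forall fun u hu => ?_
      rw [uIoc_of_le hpP] at hu
      rcases max_choice p (T / (4 * m)) with h4 | h4
      · rw [← hP] at h4
        linarith [hu.1, hu.2]
      · rw [← hP] at h4
        exact hzl u (by linarith [hu.2])
    have h5 : ∫ u in Q..q, F u = 0 := by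
      apply intervalIntegral.integral_zero_ae
      refine Filter.Eventually.of_forall fun u hu => ?_
      rw [uIoc_of_le hQq] at hu
      rcases min_choice q (8 * T / M) with h4 | h4
      · rw [← hQ] at h4
        linarith [hu.1, hu.2]
      · rw [← hQ] at h4
        exact hzr u (by linarith [hu.1])
    rw [← h2, h5, add_zero, ← h1, h3, zero_add]
  rw [hsplit]
  have hFe' : ∫ u in P..Q, F u = ∫ u in P..Q, g (u * b) * conj (g (u * b')) *
      e (ph k l κ' (u * b) - ph k l κ' (u * b')) := by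
    simp only [hFe]
  rw [hFe']
  refine hBA.trans ?_
  have hQP' : 0 ≤ Q - P := sub_nonneg.2 hPQ
  have hQM : Q * M ≤ 8 * T := by
    have : Q ≤ 8 * T / M := min_le_right _ _
    rwa [le_div_iff₀ hM0] at this
  have hPm : T ≤ 4 * (P * m) := by
    have : T / (4 * m) ≤ P := le_max_right _ _
    rw [div_le_iff₀ (by positivity)] at this
    linarith
  have j1 : (Q - P) * (2 * M * S ^ 2 / X) ≤ 16 * S ^ 2 * (T / X) := by
    have : (Q - P) * (2 * M * S ^ 2 / X) = ((Q - P) * M) * (2 * S ^ 2 / X) := by ring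
    rw [this]
    have h1 : (Q - P) * M ≤ 8 * T := by nlinarith
    calc ((Q - P) * M) * (2 * S ^ 2 / X) ≤ (8 * T) * (2 * S ^ 2 / X) :=
          mul_le_mul_of_nonneg_right h1 (by positivity)
      _ = 16 * S ^ 2 * (T / X) := by ring
  have j2 : (Q - P) * (S ^ 2 * ((C2 / c) / P)) ≤ 32 * (C2 / c) * S ^ 2 := by
    have h1 : Q / P ≤ 32 := by
      rw [div_le_iff₀ hP0]
      have h2 : Q * M ≤ 32 * P * M := by
        calc Q * M ≤ 8 * T := hQM
          _ ≤ 8 * (4 * (P * m)) := by linarith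
          _ = 32 * P * m := by ring
          _ ≤ 32 * P * M := mul_le_mul_of_nonneg_left hmM (by positivity)
      exact le_of_mul_le_mul_right h2 hM0
    have h3 : (Q - P) / P ≤ 32 := by
      have : (Q - P) / P ≤ Q / P := div_le_div_of_nonneg_right (by linarith) hP0.le
      linarith
    calc (Q - P) * (S ^ 2 * ((C2 / c) / P)) = ((Q - P) / P) * ((C2 / c) * S ^ 2) := by ring
      _ ≤ 32 * ((C2 / c) * S ^ 2) := mul_le_mul_of_nonneg_right h3 (by positivity)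
      _ = _ := by ring
  have j3 : 2 * S ^ 2 + (Q - P) * (2 * M * S ^ 2 / X + S ^ 2 * ((C2 / c) / P)) ≤
      (18 + 32 * (C2 / c)) * S ^ 2 * (T / X) := by
    rw [mul_add]
    have h1 : S ^ 2 ≤ S ^ 2 * (T / X) := le_mul_of_one_le_right (by positivity) hTX
    have h2 : (C2 / c) * S ^ 2 ≤ (C2 / c) * S ^ 2 * (T / X) :=
      le_mul_of_one_le_right (by positivity) hTX
    linarith
  have hTs : T ^ (-(1 / 2) : ℝ) * T ^ (1 / 2 : ℝ) = 1 := by
    rw [← Real.rpow_add hT0]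
    norm_num
  have hTp : 0 < T ^ (1 / 2 : ℝ) := Real.rpow_pos_of_pos hT0 _
  have hTn : 0 < T ^ (-(1 / 2) : ℝ) := Real.rpow_pos_of_pos hT0 _
  calc (2 * S ^ 2 + (Q - P) * (2 * M * S ^ 2 / X + S ^ 2 * ((C2 / c) / P))) /
        (c * |l| * T ^ (-(1 / 2) : ℝ) * |(b : ℝ) - b'|) ≤
        ((18 + 32 * (C2 / c)) * S ^ 2 * (T / X)) /
        (c * |l| * T ^ (-(1 / 2) : ℝ) * |(b : ℝ) - b'|) :=
        div_le_div_of_nonneg_right j3 hμ.le
    _ = ((18 + 32 * (C2 / c)) * S ^ 2 * (T / X)) * (T ^ (-(1 / 2) : ℝ) * T ^ (1 / 2 : ℝ)) /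
        (c * |l| * T ^ (-(1 / 2) : ℝ) * |(b : ℝ) - b'|) := by rw [hTs, mul_one]
    _ = _ := by
        field_simp
--END BB3

--BEGIN BB4
private theorem BB4_supp {F : ℝ → ℂ} {p q K Q : ℝ} (hp : 0 ≤ p) (hpq : p ≤ q) (hQ : 0 ≤ Q)
    (hK : ∀ u, ‖F u‖ ≤ K) (h0 : ∀ u, Q ≤ u → F u = 0) (hF : ContinuousOn F (Icc p q)) :
    ‖∫ u in p..q, F u‖ ≤ K * Q := by
  have hK0 : 0 ≤ K := (norm_nonneg _).trans (hK 0)
  set R := min q (max p Q) with hR
  have hpR : p ≤ R := le_min hpq (le_max_left _ _)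
  have hRq : R ≤ q := min_le_left _ _
  have hint : ∀ a d : ℝ, p ≤ a → a ≤ d → d ≤ q → IntervalIntegrable F volume a d :=
    fun a d h1 h2 h3 => (hF.mono (Icc_subset_Icc h1 h3)).intervalIntegrable_of_Icc h2
  rw [← intervalIntegral.integral_add_adjacent_intervals (hint p R le_rfl hpR hRq)
    (hint R q hpR hRq le_rfl)]
  have h1 : ∫ u in R..q, F u = 0 := by
    apply intervalIntegral.integral_zero_ae
    refine Filter.Eventually.of_forall fun u hu => ?_
    rw [uIoc_of_le hRq] at hu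
    rcases min_choice q (max p Q) with h | h
    · rw [← hR] at h
      linarith [hu.1, hu.2]
    · rw [← hR] at h
      apply h0
      have := le_max_right p Q
      linarith [hu.1]
  rw [h1, add_zero]
  have h2 : ‖∫ u in p..R, F u‖ ≤ K * |R - p| :=
    intervalIntegral.norm_integral_le_of_norm_le_const fun u _ => hK u
  refine h2.trans (mul_le_mul_of_nonneg_left ?_ hK0)
  rw [abs_of_nonneg (sub_nonneg.2 hpR)]
  have h3 : R ≤ max p Q := min_le_right _ _
  rcases max_choice p Q with h | h <;> rw [h] at h3 <;> linarith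

private theorem BB4_inv (B : ℕ) : ∑ j ∈ Finset.Icc 1 B, 1 / (j : ℝ) ≤ 1 + Real.log B := by
  have h1 := harmonic_le_one_add_log B
  rw [harmonic_eq_sum_Icc] at h1
  push_cast at h1
  simpa only [one_div] using h1

private theorem BB4_harm (B b : ℕ) (hb : b ∈ Finset.Icc B (2 * B)) :
    ∑ b' ∈ (Finset.Icc B (2 * B)).erase b, 1 / |(b : ℝ) - b'| ≤ 2 * (1 + Real.log B) := by
  rw [Finset.mem_Icc] at hb
  rw [← Finset.sum_filter_add_sum_filter_not _ (fun b' : ℕ => b' < b)]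
  have h1 : ∑ b' ∈ ((Finset.Icc B (2 * B)).erase b).filter (fun b' : ℕ => b' < b),
      1 / |(b : ℝ) - b'| ≤ 1 + Real.log B := by
    refine le_trans ?_ (BB4_inv B)
    have h2 : ∑ b' ∈ ((Finset.Icc B (2 * B)).erase b).filter (fun b' : ℕ => b' < b),
        1 / |(b : ℝ) - b'| = ∑ b' ∈ ((Finset.Icc B (2 * B)).erase b).filter
          (fun b' : ℕ => b' < b), 1 / ((b - b' : ℕ) : ℝ) := by
      refine Finset.sum_congr rfl fun b' hb' => ?_
      rw [Finset.mem_filter] at hb'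
      rw [Nat.cast_sub hb'.2.le, abs_of_nonneg]
      exact sub_nonneg.2 (by exact_mod_cast hb'.2.le)
    rw [h2, ← Finset.sum_image (f := fun j : ℕ => 1 / (j : ℝ)) (g := fun b' => b - b')]
    · apply Finset.sum_le_sum_of_subset_of_nonneg
      · intro j hj
        rw [Finset.mem_image] at hj
        obtain ⟨b', hb', rfl⟩ := hj
        rw [Finset.mem_filter, Finset.mem_erase, Finset.mem_Icc] at hb'
        rw [Finset.mem_Icc]
        omega
      · intro j _ _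
        positivity
    · intro x hx y hy hxy
      have hx' := (Finset.mem_filter.1 hx).2
      have hy' := (Finset.mem_filter.1 hy).2
      have hxy' : b - x = b - y := hxy
      omega
  have h1' : ∑ b' ∈ ((Finset.Icc B (2 * B)).erase b).filter (fun b' : ℕ => ¬ b' < b),
      1 / |(b : ℝ) - b'| ≤ 1 + Real.log B := by
    refine le_trans ?_ (BB4_inv B)
    have h2 : ∑ b' ∈ ((Finset.Icc B (2 * B)).erase b).filter (fun b' : ℕ => ¬ b' < b),
        1 / |(b : ℝ) - b'| = ∑ b' ∈ ((Finset.Icc B (2 * B)).erase b).filter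
          (fun b' : ℕ => ¬ b' < b), 1 / ((b' - b : ℕ) : ℝ) := by
      refine Finset.sum_congr rfl fun b' hb' => ?_
      rw [Finset.mem_filter, not_lt] at hb'
      rw [Nat.cast_sub hb'.2, abs_sub_comm, abs_of_nonneg]
      exact sub_nonneg.2 (by exact_mod_cast hb'.2)
    rw [h2, ← Finset.sum_image (f := fun j : ℕ => 1 / (j : ℝ)) (g := fun b' => b' - b)]
    · apply Finset.sum_le_sum_of_subset_of_nonneg
      · intro j hj
        rw [Finset.mem_image] at hj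
        obtain ⟨b', hb', rfl⟩ := hj
        rw [Finset.mem_filter, Finset.mem_erase, Finset.mem_Icc] at hb'
        rw [Finset.mem_Icc]
        omega
      · intro j _ _
        positivity
    · intro x hx y hy hxy
      have hx' := (Finset.mem_filter.1 hx).2
      have hy' := (Finset.mem_filter.1 hy).2
      have hxy' : x - b = y - b := hxy
      omega
  linarith

/-- **BB4.** The mean square of `f(u) = ∑_b β_b g(ub) e(φ(ub))`. -/
theorem mean_square {k : ℕ} (hk : 4 ≤ k) {l0 : ℝ} (hl0 : 0 < l0) : ∃ C T0 : ℝ, 0 < C ∧ 1 ≤ T0 ∧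
    ∀ (T X S l κ' : ℝ) (g g' : ℝ → ℂ) (B : ℕ) (β : ℕ → ℝ) (W : ℝ), T0 ≤ T → 1 ≤ X → X ≤ T →
      0 ≤ S → l0 ≤ |l| → |κ'| ≤ k → (∀ x, HasDerivAt g (g' x) x) → Continuous g' →
      (∀ x, x ∉ Icc (T / 2) (4 * T) → g x = 0) → (∀ x, ‖g x‖ ≤ S) → (∀ x, ‖g' x‖ ≤ S / X) →
      1 ≤ B → 0 ≤ W → (∀ b, |β b| ≤ W) → ∀ p q : ℝ, 0 < p → p ≤ q →
      ∫ u in p..q, ‖∑ b ∈ Finset.Icc B (2 * B), (β b : ℂ) * (g (u * b) * e (ph k l κ' (u * b)))‖ ^ 2
        ≤ C * S ^ 2 * W ^ 2 * (T + B * (T / X) * T ^ (1 / 2 : ℝ) * (1 + Real.log B) / |l|) := by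
  obtain ⟨C3, T3, hC3, hT3, hoff⟩ := offdiag hk hl0
  refine ⟨10 + 4 * C3, T3, by positivity, hT3, ?_⟩
  intro T X S l κ' g g' B β W hT hX hXT hS hl hκ hg hg'c hg0 hgS hgS' hB hW hβ p q hp hpq
  have hT0 : 0 < T := by linarith
  have hX0 : 0 < X := by linarith
  have hl00 : 0 < |l| := hl0.trans_le hl
  have hB0 : (0 : ℝ) < B := by exact_mod_cast hB
  have hB1 : (1 : ℝ) ≤ B := by exact_mod_cast hB
  have hgc : Continuous g := continuous_iff_continuousAt.2 fun x => (hg x).continuousAt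
  set G : ℕ → ℝ → ℂ := fun b u => g (u * b) * e (ph k l κ' (u * b)) with hG
  have hGc : ∀ b : ℕ, 1 ≤ b → ContinuousOn (G b) (Icc p q) := by
    intro b hb u hu
    have hu0 : 0 < u := hp.trans_le hu.1
    have hb0 : (0 : ℝ) < b := by exact_mod_cast hb
    apply ContinuousAt.continuousWithinAt
    have c1 := HasDerivAt.comp (h := fun u : ℝ => u * b) u
      (ph_deriv k hk l κ' (mul_pos hu0 hb0)).1 (hasDerivAt_mul_const (b : ℝ))
    have a1 : ContinuousAt (fun u : ℝ => g (u * b)) u := (hgc.comp (by fun_prop)).continuousAt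
    exact a1.mul (ContinuousAt.comp (g := e) BA1_cont_e.continuousAt c1.continuousAt)
  have hGn : ∀ b u, ‖G b u‖ ≤ S := by
    intro b u
    rw [hG]
    simp only
    rw [norm_mul, BA1_norm_e, mul_one]
    exact hgS _
  have hmem : ∀ b ∈ Finset.Icc B (2 * B), 1 ≤ b := fun b hb => hB.trans (Finset.mem_Icc.1 hb).1
  have hint : ∀ b ∈ Finset.Icc B (2 * B), ∀ b' ∈ Finset.Icc B (2 * B),
      ContinuousOn (fun u => G b u * conj (G b' u)) (Icc p q) := fun b hb b' hb' =>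
    (hGc b (hmem b hb)).mul (Complex.continuous_conj.comp_continuousOn (hGc b' (hmem b' hb')))
  have hexp : ∀ u, ((‖∑ b ∈ Finset.Icc B (2 * B), (β b : ℂ) * G b u‖ ^ 2 : ℝ) : ℂ) =
      ∑ b ∈ Finset.Icc B (2 * B), ∑ b' ∈ Finset.Icc B (2 * B),
        ((β b * β b' : ℝ) : ℂ) * (G b u * conj (G b' u)) := by
    intro u
    rw [Complex.ofReal_pow, ← Complex.mul_conj', map_sum, Finset.sum_mul_sum]
    refine Finset.sum_congr rfl fun b _ => Finset.sum_congr rfl fun b' _ => ?_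
    rw [map_mul, Complex.conj_ofReal, Complex.ofReal_mul]
    ring
  have hI : ((∫ u in p..q, ‖∑ b ∈ Finset.Icc B (2 * B), (β b : ℂ) * G b u‖ ^ 2 : ℝ) : ℂ) =
      ∑ b ∈ Finset.Icc B (2 * B), ∑ b' ∈ Finset.Icc B (2 * B),
        ((β b * β b' : ℝ) : ℂ) * ∫ u in p..q, G b u * conj (G b' u) := by
    rw [← intervalIntegral.integral_ofReal]
    simp only [hexp]
    rw [intervalIntegral.integral_finsetSum]
    · refine Finset.sum_congr rfl fun b hb => ?_
      rw [intervalIntegral.integral_finsetSum]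
      · refine Finset.sum_congr rfl fun b' hb' => ?_
        rw [intervalIntegral.integral_const_mul]
      · intro b' hb'
        exact ((hint b hb b' hb').intervalIntegrable_of_Icc hpq).const_mul _
    · intro b hb
      apply ContinuousOn.intervalIntegrable_of_Icc hpq
      exact continuousOn_finsetSum _ fun b' hb' => continuousOn_const.mul (hint b hb b' hb')
  have hnn : 0 ≤ ∫ u in p..q, ‖∑ b ∈ Finset.Icc B (2 * B), (β b : ℂ) * G b u‖ ^ 2 :=
    intervalIntegral.integral_nonneg hpq fun u _ => by positivity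
  have hnorm : (∫ u in p..q, ‖∑ b ∈ Finset.Icc B (2 * B), (β b : ℂ) * G b u‖ ^ 2) =
      ‖((∫ u in p..q, ‖∑ b ∈ Finset.Icc B (2 * B), (β b : ℂ) * G b u‖ ^ 2 : ℝ) : ℂ)‖ := by
    rw [Complex.norm_real, Real.norm_of_nonneg hnn]
  change (∫ u in p..q, ‖∑ b ∈ Finset.Icc B (2 * B), (β b : ℂ) * G b u‖ ^ 2) ≤ _
  rw [hnorm, hI]
  set D1 : ℝ := 5 * S ^ 2 * T / B with hD1
  set D2 : ℝ := C3 * S ^ 2 * (T / X) * T ^ (1 / 2 : ℝ) / |l| with hD2
  have hD10 : 0 ≤ D1 := by positivity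
  have hD20 : 0 ≤ D2 := by positivity
  have hdiag : ∀ b ∈ Finset.Icc B (2 * B), ‖∫ u in p..q, G b u * conj (G b u)‖ ≤ D1 := by
    intro b hb
    have hb1 := hmem b hb
    have hb0 : (0 : ℝ) < b := by exact_mod_cast hb1
    have hBb : (B : ℝ) ≤ b := by exact_mod_cast (Finset.mem_Icc.1 hb).1
    have h1 := BB4_supp (F := fun u => G b u * conj (G b u)) (K := S ^ 2) (Q := 5 * T / b)
      hp.le hpq (by positivity) (fun u => by
        rw [norm_mul, Complex.norm_conj, sq]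
        exact mul_le_mul (hGn b u) (hGn b u) (norm_nonneg _) hS) (fun u hu => by
        rw [div_le_iff₀ hb0] at hu
        have : g (u * b) = 0 := hg0 _ fun h' => by linarith [h'.2]
        simp [hG, this]) (hint b hb b hb)
    refine h1.trans ?_
    rw [hD1]
    have h2 : S ^ 2 * (5 * T / b) = 5 * S ^ 2 * T / b := by ring
    rw [h2]
    exact div_le_div_of_nonneg_left (by positivity) hB0 hBb
  have hoffd : ∀ b ∈ Finset.Icc B (2 * B), ∀ b' ∈ (Finset.Icc B (2 * B)).erase b,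
      ‖∫ u in p..q, G b u * conj (G b' u)‖ ≤ D2 * (1 / |(b : ℝ) - b'|) := by
    intro b hb b' hb'
    rw [Finset.mem_erase] at hb'
    have h1 := hoff T X S l κ' g g' b b' hT hX hXT hS hl hκ hg hg'c hg0 hgS hgS' (hmem b hb)
      (hmem b' hb'.2) (Ne.symm hb'.1) p q hp hpq
    refine h1.trans (le_of_eq ?_)
    rw [hD2]
    have hbb0 : |(b : ℝ) - b'| ≠ 0 :=
      abs_ne_zero.2 (sub_ne_zero.2 (by exact_mod_cast (Ne.symm hb'.1)))
    field_simp
  have hrow : ∀ b ∈ Finset.Icc B (2 * B), ∑ b' ∈ Finset.Icc B (2 * B),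
      ‖∫ u in p..q, G b u * conj (G b' u)‖ ≤ D1 + D2 * (2 * (1 + Real.log B)) := by
    intro b hb
    rw [← Finset.add_sum_erase _ _ hb]
    refine add_le_add (hdiag b hb) ?_
    refine (Finset.sum_le_sum (hoffd b hb)).trans ?_
    rw [← Finset.mul_sum]
    exact mul_le_mul_of_nonneg_left (BB4_harm B b hb) hD20
  have hββ : ∀ b b', ‖((β b * β b' : ℝ) : ℂ)‖ ≤ W ^ 2 := by
    intro b b'
    rw [Complex.norm_real, Real.norm_eq_abs, abs_mul, sq]
    exact mul_le_mul (hβ b) (hβ b') (abs_nonneg _) hW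
  have hlog : 0 ≤ Real.log B := Real.log_nonneg hB1
  have htot : ‖∑ b ∈ Finset.Icc B (2 * B), ∑ b' ∈ Finset.Icc B (2 * B),
        ((β b * β b' : ℝ) : ℂ) * ∫ u in p..q, G b u * conj (G b' u)‖ ≤
      (B + 1) * (W ^ 2 * (D1 + D2 * (2 * (1 + Real.log B)))) := by
    refine (norm_sum_le _ _).trans ?_
    have h1 : ∀ b ∈ Finset.Icc B (2 * B), ‖∑ b' ∈ Finset.Icc B (2 * B),
        ((β b * β b' : ℝ) : ℂ) * ∫ u in p..q, G b u * conj (G b' u)‖ ≤
        W ^ 2 * (D1 + D2 * (2 * (1 + Real.log B))) := by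
      intro b hb
      refine (norm_sum_le _ _).trans ?_
      refine le_trans ?_ (mul_le_mul_of_nonneg_left (hrow b hb) (by positivity))
      rw [Finset.mul_sum]
      refine Finset.sum_le_sum fun b' _ => ?_
      rw [norm_mul]
      exact mul_le_mul_of_nonneg_right (hββ b b') (norm_nonneg _)
    refine (Finset.sum_le_sum h1).trans (le_of_eq ?_)
    rw [Finset.sum_const, Nat.card_Icc, nsmul_eq_mul]
    congr 1
    have : 2 * B + 1 - B = B + 1 := by omega
    rw [this]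
    push_cast
    rfl
  refine htot.trans ?_
  have hlogp : 0 ≤ 1 + Real.log B := by linarith
  have e1 : (B + 1) * (W ^ 2 * (D1 + D2 * (2 * (1 + Real.log B)))) ≤
      (2 * B) * (W ^ 2 * (D1 + D2 * (2 * (1 + Real.log B)))) :=
    mul_le_mul_of_nonneg_right (by linarith) (by positivity)
  refine e1.trans ?_
  have e2 : (2 * (B : ℝ)) * (W ^ 2 * (D1 + D2 * (2 * (1 + Real.log B)))) =
      10 * S ^ 2 * W ^ 2 * T + 4 * C3 * S ^ 2 * W ^ 2 *
        (B * (T / X) * T ^ (1 / 2 : ℝ) * (1 + Real.log B) / |l|) := by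
    rw [hD1, hD2]
    field_simp
    ring
  rw [e2]
  have e3 : 0 ≤ S ^ 2 * W ^ 2 * T := by positivity
  have e4 : 0 ≤ S ^ 2 * W ^ 2 * (B * (T / X) * T ^ (1 / 2 : ℝ) * (1 + Real.log B) / |l|) := by
    positivity
  have e5 : 0 ≤ C3 * (S ^ 2 * W ^ 2 * T) := by positivity
  nlinarith
--END BB4

--BEGIN BB5
private theorem BB5_theta_bound {k : ℕ} (hk : 4 ≤ k) {l0 T l κ' y : ℝ} (hl0 : 0 < l0) (hT : 4 ≤ T)
    (hl : l0 ≤ |l|) (hκ : |κ'| ≤ k) (hy : y ∈ Icc (T / 2) (4 * T)) :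
    |l * √y + κ' / k * y ^ (1 / (k : ℝ))| ≤ (2 + 2 / l0) * (|l| * √T) ∧
    |l / (2 * √y) + κ' / k * (1 / k * y ^ (1 / (k : ℝ) - 1))| ≤
      (1 + 1 / l0) * (|l| / √T) := by
  have hk4 : (4 : ℝ) ≤ k := by exact_mod_cast hk
  have hk0 : (0 : ℝ) < k := by linarith
  have hT0 : 0 < T := by linarith
  have hy0 : 0 < y := by linarith [hy.1]
  have hy1 : 1 ≤ y := by linarith [hy.1]
  have hsT : 0 < √T := Real.sqrt_pos.2 hT0
  have hsT1 : 1 ≤ √T := by
    rw [Real.one_le_sqrt]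
    linarith
  have hsy : 0 < √y := Real.sqrt_pos.2 hy0
  have hl00 : 0 < |l| := hl0.trans_le hl
  have hl1 : 1 ≤ |l| / l0 := by rwa [le_div_iff₀ hl0, one_mul]
  have hκk : |κ' / k| ≤ 1 := by
    rw [abs_div, abs_of_pos hk0, div_le_one hk0]
    exact hκ
  have h1k : 1 / (k : ℝ) ≤ 1 / 4 := one_div_le_one_div_of_le (by norm_num) hk4
  have h1k0 : 0 < 1 / (k : ℝ) := by positivity
  have hs4 : √y ≤ 2 * √T := by
    rw [Real.sqrt_le_left (by positivity), mul_pow, Real.sq_sqrt hT0.le]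
    linarith [hy.2]
  have hs2 : √T ≤ 2 * √y := by
    rw [Real.sqrt_le_left (by positivity), mul_pow, Real.sq_sqrt hy0.le]
    linarith [hy.1]
  constructor
  · have h1 : y ^ (1 / (k : ℝ)) ≤ √y := by
      rw [Real.sqrt_eq_rpow]
      exact Real.rpow_le_rpow_of_exponent_le hy1 (by linarith)
    have h2 : 0 ≤ y ^ (1 / (k : ℝ)) := Real.rpow_nonneg hy0.le _
    refine (abs_add_le _ _).trans ?_
    rw [abs_mul, abs_mul, abs_of_pos hsy, abs_of_nonneg h2]
    have h3 : |l| * √y ≤ |l| * (2 * √T) := mul_le_mul_of_nonneg_left hs4 hl00.le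
    have h4 : |κ' / k| * y ^ (1 / (k : ℝ)) ≤ 1 * (2 * √T) :=
      mul_le_mul hκk (h1.trans hs4) h2 (by norm_num)
    have h5 : 2 * √T ≤ (|l| / l0) * (2 * √T) := le_mul_of_one_le_left (by positivity) hl1
    have h6 : (2 + 2 / l0) * (|l| * √T) = |l| * (2 * √T) + (|l| / l0) * (2 * √T) := by
      field_simp
    rw [h6]
    linarith
  · have h1 : y ^ (1 / (k : ℝ) - 1) ≤ 1 / √y := by
      rw [← BB2_rpow_half hy0]
      exact Real.rpow_le_rpow_of_exponent_le hy1 (by linarith)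
    have h2 : 0 ≤ y ^ (1 / (k : ℝ) - 1) := Real.rpow_nonneg hy0.le _
    have h3 : 1 / √y ≤ 2 / √T := by
      rw [div_le_div_iff₀ hsy hsT]
      linarith
    refine (abs_add_le _ _).trans ?_
    have h4 : |l / (2 * √y)| ≤ |l| / √T := by
      rw [abs_div, abs_of_pos (by positivity : (0 : ℝ) < 2 * √y)]
      exact div_le_div_of_nonneg_left hl00.le hsT hs2
    have h5 : |κ' / k * (1 / k * y ^ (1 / (k : ℝ) - 1))| ≤ 1 * (1 / 4 * (2 / √T)) := by
      rw [abs_mul, abs_of_nonneg (by positivity : (0 : ℝ) ≤ 1 / k * y ^ (1 / (k : ℝ) - 1))]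
      exact mul_le_mul hκk (mul_le_mul h1k (h1.trans h3) h2 (by norm_num)) (by positivity)
        (by norm_num)
    have h6 : 1 / √T ≤ (|l| / l0) * (1 / √T) := le_mul_of_one_le_left (by positivity) hl1
    have h7 : (1 + 1 / l0) * (|l| / √T) = |l| / √T + (|l| / l0) * (1 / √T) := by
      field_simp
    have h8 : 1 * (1 / 4 * (2 / √T)) = (1 / 2) * (1 / √T) := by ring
    have h9 : 0 ≤ 1 / √T := by positivity
    rw [h7]
    linarith

private theorem BB5_theta_deriv {k : ℕ} (l κ' : ℝ) {x : ℝ} (hx : 0 < x) :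
    HasDerivAt (fun y => l * √y + κ' / k * y ^ (1 / (k : ℝ)))
      (l / (2 * √x) + κ' / k * (1 / k * x ^ (1 / (k : ℝ) - 1))) x := by
  have h1 : HasDerivAt (fun y => √y) (1 / (2 * √x)) x := Real.hasDerivAt_sqrt hx.ne'
  have h2 : HasDerivAt (fun y => y ^ (1 / (k : ℝ))) (1 / (k : ℝ) * x ^ (1 / (k : ℝ) - 1)) x :=
    Real.hasDerivAt_rpow_const (Or.inl hx.ne')
  refine ((h1.const_mul l).add (h2.const_mul (κ' / k))).congr_deriv ?_
  rw [mul_one_div]

/-- The amplitude of the derivative. -/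
private noncomputable def BB5_g1 (k : ℕ) (l κ' : ℝ) (a : ℝ → ℂ) (y : ℝ) : ℂ :=
  (y : ℂ) * deriv a y +
    2 * π * I * ((l * √y + κ' / k * y ^ (1 / (k : ℝ)) : ℝ) : ℂ) * a y

/-- Its derivative. -/
private noncomputable def BB5_g2 (k : ℕ) (l κ' : ℝ) (a : ℝ → ℂ) (y : ℝ) : ℂ :=
  (deriv a y + (y : ℂ) * deriv (deriv a) y) +
    (2 * π * I * ((l / (2 * √y) + κ' / k * (1 / k * y ^ (1 / (k : ℝ) - 1)) : ℝ) : ℂ) * a y +
    2 * π * I * ((l * √y + κ' / k * y ^ (1 / (k : ℝ)) : ℝ) : ℂ) * deriv a y)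

private theorem BB5_zero {T X C0 : ℝ} {a : ℝ → ℂ} (ha : Amp T X C0 a) {y : ℝ}
    (hy : y < T / 2) : a y = 0 ∧ deriv a y = 0 ∧ deriv (deriv a) y = 0 ∧
      (∀ᶠ z in 𝓝 y, a z = 0 ∧ deriv a z = 0 ∧ deriv (deriv a) z = 0) := by
  have h1 : ∀ z : ℝ, z < T / 2 → a z = 0 := fun z hz => ha.supp z fun h => by linarith [h.1]
  have h2 : ∀ z : ℝ, z < T / 2 → a =ᶠ[𝓝 z] fun _ => 0 := fun z hz =>
    (eventually_lt_nhds hz).mono fun w hw => h1 w hw
  have h3 : ∀ z : ℝ, z < T / 2 → deriv a z = 0 := fun z hz => by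
    rw [(h2 z hz).deriv_eq, deriv_const]
  have h4 : ∀ z : ℝ, z < T / 2 → deriv a =ᶠ[𝓝 z] fun _ => 0 := fun z hz =>
    (eventually_lt_nhds hz).mono fun w hw => h3 w hw
  have h5 : ∀ z : ℝ, z < T / 2 → deriv (deriv a) z = 0 := fun z hz => by
    rw [(h4 z hz).deriv_eq, deriv_const]
  exact ⟨h1 y hy, h3 y hy, h5 y hy, (eventually_lt_nhds hy).mono fun w hw =>
    ⟨h1 w hw, h3 w hw, h5 w hw⟩⟩

private theorem BB5_zero' {T X C0 : ℝ} {a : ℝ → ℂ} (ha : Amp T X C0 a) {y : ℝ}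
    (hy : y ∉ Icc (T / 2) (4 * T)) : a y = 0 ∧ deriv a y = 0 ∧ deriv (deriv a) y = 0 := by
  have h2 : ∀ z ∉ Icc (T / 2) (4 * T), a =ᶠ[𝓝 z] fun _ => 0 := fun z hz =>
    (isClosed_Icc.isOpen_compl.eventually_mem hz).mono fun w hw => ha.supp w hw
  have h3 : ∀ z ∉ Icc (T / 2) (4 * T), deriv a z = 0 := fun z hz => by
    rw [(h2 z hz).deriv_eq, deriv_const]
  have h4 : deriv a =ᶠ[𝓝 y] fun _ => 0 :=
    (isClosed_Icc.isOpen_compl.eventually_mem hy).mono fun w hw => h3 w hw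
  exact ⟨ha.supp y hy, h3 y hy, by rw [h4.deriv_eq, deriv_const]⟩

private theorem BB5_d1 {T X C0 : ℝ} {a : ℝ → ℂ} (ha : Amp T X C0 a) (x : ℝ) :
    HasDerivAt a (deriv a x) x :=
  ((ha.smooth.differentiable (by norm_num)) x).hasDerivAt

private theorem BB5_d2 {T X C0 : ℝ} {a : ℝ → ℂ} (ha : Amp T X C0 a) (x : ℝ) :
    HasDerivAt (deriv a) (deriv (deriv a) x) x := by
  have h1 : ContDiff ℝ 1 (deriv a) := by
    have := ha.smooth
    rw [show (2 : WithTop ℕ∞) = 1 + 1 from one_add_one_eq_two.symm] at this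
    exact (contDiff_succ_iff_deriv.1 this).2.2
  exact ((h1.differentiable (by norm_num)) x).hasDerivAt

private theorem BB5_c1 {T X C0 : ℝ} {a : ℝ → ℂ} (ha : Amp T X C0 a) :
    Continuous (deriv a) := continuous_iff_continuousAt.2 fun x => (BB5_d2 ha x).continuousAt

private theorem BB5_c2 {T X C0 : ℝ} {a : ℝ → ℂ} (ha : Amp T X C0 a) :
    Continuous (deriv (deriv a)) := by
  have h1 : ContDiff ℝ 1 (deriv a) := by
    have := ha.smooth
    rw [show (2 : WithTop ℕ∞) = 1 + 1 from one_add_one_eq_two.symm] at this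
    exact (contDiff_succ_iff_deriv.1 this).2.2
  exact h1.continuous_deriv le_rfl

private theorem BB5_hg1 {k : ℕ} {T X C0 l κ' : ℝ} {a : ℝ → ℂ} (hT : 0 < T)
    (ha : Amp T X C0 a) (x : ℝ) :
    HasDerivAt (BB5_g1 k l κ' a) (BB5_g2 k l κ' a x) x := by
  rcases lt_or_ge x (T / 2) with hx | hx
  · obtain ⟨z1, z2, z3, z4⟩ := BB5_zero ha hx
    have h1 : BB5_g2 k l κ' a x = 0 := by
      unfold BB5_g2
      rw [z1, z2, z3]
      ring
    have h2 : BB5_g1 k l κ' a =ᶠ[𝓝 x] fun _ => 0 := z4.mono fun w hw => by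
      unfold BB5_g1
      rw [hw.1, hw.2.1]
      ring
    rw [h1]
    exact (hasDerivAt_const x (0 : ℂ)).congr_of_eventuallyEq h2
  · have hx0 : 0 < x := by linarith
    have d1 := BB5_d1 ha x
    have d2 := BB5_d2 ha x
    have d3 : HasDerivAt (fun y : ℝ => (y : ℂ)) 1 x := Complex.ofRealCLM.hasDerivAt
    have d4 := ((BB5_theta_deriv (k := k) l κ' hx0).ofReal_comp).const_mul (2 * π * I : ℂ)
    have d5 := (d3.mul d2).add (d4.mul d1)
    unfold BB5_g2
    rw [one_mul] at d5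
    exact d5

private theorem BB5_cg2 {k : ℕ} {T X C0 l κ' : ℝ} {a : ℝ → ℂ} (hT : 0 < T)
    (ha : Amp T X C0 a) : Continuous (BB5_g2 k l κ' a) := by
  rw [continuous_iff_continuousAt]
  intro x
  rcases lt_or_ge x (T / 2) with hx | hx
  · obtain ⟨z1, z2, z3, z4⟩ := BB5_zero ha hx
    have h2 : (fun _ => (0 : ℂ)) =ᶠ[𝓝 x] BB5_g2 k l κ' a := z4.mono fun w hw => by
      unfold BB5_g2
      rw [hw.1, hw.2.1, hw.2.2]
      ring
    exact continuousAt_const.congr h2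
  · have hx0 : 0 < x := by linarith
    have ca : ContinuousAt a x := (BB5_d1 ha x).continuousAt
    have cd : ContinuousAt (deriv a) x := (BB5_c1 ha).continuousAt
    have cdd : ContinuousAt (deriv (deriv a)) x := (BB5_c2 ha).continuousAt
    have cx : ContinuousAt (fun y : ℝ => (y : ℂ)) x := Complex.continuous_ofReal.continuousAt
    have c1 : ContinuousAt (fun y => l * √y + κ' / k * y ^ (1 / (k : ℝ))) x :=
      (BB5_theta_deriv (k := k) l κ' hx0).continuousAt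
    have c2 : ContinuousAt (fun y : ℝ => l / (2 * √y) +
        κ' / k * (1 / k * y ^ (1 / (k : ℝ) - 1))) x := by
      refine ContinuousAt.add ?_ (continuousAt_const.mul (continuousAt_const.mul
        (Real.continuousAt_rpow_const _ _ (Or.inl hx0.ne'))))
      exact continuousAt_const.div (continuousAt_const.mul Real.continuous_sqrt.continuousAt)
        (by positivity)
    have c1' := Complex.continuous_ofReal.continuousAt.comp c1
    have c2' := Complex.continuous_ofReal.continuousAt.comp c2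
    exact (cd.add (cx.mul cdd)).add (((continuousAt_const.mul c2').mul ca).add
      ((continuousAt_const.mul c1').mul cd))

private theorem BB5_bounds {k : ℕ} (hk : 4 ≤ k) {l0 C0 : ℝ} (hl0 : 0 < l0) (hC0 : 0 < C0)
    {T X l κ' : ℝ} {a : ℝ → ℂ} (hT : 4 ≤ T) (hX : 1 ≤ X) (hXT : X ≤ T) (hl : l0 ≤ |l|)
    (hκ : |κ'| ≤ k) (ha : Amp T X C0 a) (x : ℝ) :
    ‖BB5_g1 k l κ' a x‖ ≤ C0 * (5 / l0 + 6 * π * (1 + 1 / l0)) * (T / X) * (|l| * √T) ∧
    ‖BB5_g2 k l κ' a x‖ ≤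
      C0 * (5 / l0 + 6 * π * (1 + 1 / l0)) * (T / X) * (|l| * √T) / X := by
  have hT0 : 0 < T := by linarith
  have hX0 : 0 < X := by linarith
  have hsT : 0 < √T := Real.sqrt_pos.2 hT0
  have hsT1 : 1 ≤ √T := by
    rw [Real.one_le_sqrt]
    linarith
  have hss : √T * √T = T := Real.mul_self_sqrt hT0.le
  have hl00 : 0 < |l| := hl0.trans_le hl
  have hTX : 1 ≤ T / X := by rwa [le_div_iff₀ hX0, one_mul]
  have hπ := Real.pi_pos
  by_cases hx : x ∈ Icc (T / 2) (4 * T)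
  swap
  · obtain ⟨z1, z2, z3⟩ := BB5_zero' ha hx
    constructor
    · have : BB5_g1 k l κ' a x = 0 := by
        unfold BB5_g1
        rw [z1, z2]
        ring
      rw [this, norm_zero]
      positivity
    · have : BB5_g2 k l κ' a x = 0 := by
        unfold BB5_g2
        rw [z1, z2, z3]
        ring
      rw [this, norm_zero]
      positivity
  obtain ⟨t1, t2⟩ := BB5_theta_bound hk hl0 hT hl hκ hx
  have hx0 : 0 < x := by linarith [hx.1]
  have hx4 : x ≤ 4 * T := hx.2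
  have hn2 : ‖(2 * π * I : ℂ)‖ = 2 * π := by simp [abs_of_pos hπ]
  set E := |l| * √T with hE
  have hE0 : 0 < E := by positivity
  have hE1 : 1 ≤ E / l0 := by
    rw [le_div_iff₀ hl0, one_mul, hE]
    calc l0 ≤ |l| := hl
      _ ≤ |l| * √T := le_mul_of_one_le_right hl00.le hsT1
  -- the pieces
  have p1 : ‖(x : ℂ) * deriv a x‖ ≤ 4 * C0 * (T / X) := by
    rw [norm_mul, Complex.norm_real, Real.norm_of_nonneg hx0.le]
    calc x * ‖deriv a x‖ ≤ (4 * T) * (C0 / X) := mul_le_mul hx4 (ha.b1 x) (norm_nonneg _)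
          (by positivity)
      _ = _ := by ring
  have p2 : ‖2 * π * I * ((l * √x + κ' / k * x ^ (1 / (k : ℝ)) : ℝ) : ℂ) * a x‖ ≤
      2 * π * ((2 + 2 / l0) * E) * C0 := by
    rw [norm_mul, norm_mul, hn2, Complex.norm_real, Real.norm_eq_abs]
    exact mul_le_mul (mul_le_mul_of_nonneg_left t1 (by positivity)) (ha.b0 x) (norm_nonneg _)
      (by positivity)
  have p3 : ‖(x : ℂ) * deriv (deriv a) x‖ ≤ 4 * C0 * (T / X) / X := by
    rw [norm_mul, Complex.norm_real, Real.norm_of_nonneg hx0.le]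
    calc x * ‖deriv (deriv a) x‖ ≤ (4 * T) * (C0 / X ^ 2) :=
          mul_le_mul hx4 (ha.b2 x) (norm_nonneg _) (by positivity)
      _ = _ := by
          field_simp
  have p4 : ‖2 * π * I * ((l / (2 * √x) + κ' / k * (1 / k * x ^ (1 / (k : ℝ) - 1)) : ℝ) : ℂ) *
      a x‖ ≤ 2 * π * ((1 + 1 / l0) * (E / X)) * C0 := by
    rw [norm_mul, norm_mul, hn2, Complex.norm_real, Real.norm_eq_abs]
    refine mul_le_mul (mul_le_mul_of_nonneg_left (t2.trans ?_) (by positivity)) (ha.b0 x)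
      (norm_nonneg _) (by positivity)
    apply mul_le_mul_of_nonneg_left _ (by positivity)
    rw [div_le_div_iff₀ hsT hX0, hE, mul_assoc, hss]
    exact mul_le_mul_of_nonneg_left hXT hl00.le
  have p5 : ‖2 * π * I * ((l * √x + κ' / k * x ^ (1 / (k : ℝ)) : ℝ) : ℂ) * deriv a x‖ ≤
      2 * π * ((2 + 2 / l0) * E) * (C0 / X) := by
    rw [norm_mul, norm_mul, hn2, Complex.norm_real, Real.norm_eq_abs]
    exact mul_le_mul (mul_le_mul_of_nonneg_left t1 (by positivity)) (ha.b1 x) (norm_nonneg _)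
      (by positivity)
  have q0 : 0 ≤ C0 * (T / X) := by positivity
  have q1 : C0 * (T / X) ≤ C0 * (T / X) * (E / l0) := le_mul_of_one_le_right q0 hE1
  have q2 : C0 * E ≤ C0 * E * (T / X) := le_mul_of_one_le_right (by positivity) hTX
  have q3 : C0 * (E / l0) ≤ C0 * (E / l0) * (T / X) := le_mul_of_one_le_right (by positivity) hTX
  have q4 : 0 ≤ C0 * (T / X) * (E / l0) := by positivity
  have q5 : 0 ≤ C0 * E * (T / X) := by positivity
  constructor
  · unfold BB5_g1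
    refine (norm_add_le _ _).trans ?_
    have e1 : C0 * (5 / l0 + 6 * π * (1 + 1 / l0)) * (T / X) * E =
        5 * (C0 * (T / X) * (E / l0)) + 6 * π * (C0 * E * (T / X)) +
          6 * π * (C0 * (E / l0) * (T / X)) := by
      field_simp
      ring
    have e2 : 2 * π * ((2 + 2 / l0) * E) * C0 = 4 * π * (C0 * E) + 4 * π * (C0 * (E / l0)) := by
      field_simp
      ring
    rw [e1]
    rw [e2] at p2
    have e3 : π * (C0 * E) ≤ π * (C0 * E * (T / X)) := mul_le_mul_of_nonneg_left q2 hπ.le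
    have e4 : π * (C0 * (E / l0)) ≤ π * (C0 * (E / l0) * (T / X)) :=
      mul_le_mul_of_nonneg_left q3 hπ.le
    have e5 : 0 ≤ π * (C0 * E * (T / X)) := by positivity
    have e6 : 0 ≤ π * (C0 * (E / l0) * (T / X)) := by positivity
    linarith
  · unfold BB5_g2
    have s1 := norm_add_le (deriv a x + (x : ℂ) * deriv (deriv a) x)
      (2 * π * I * ((l / (2 * √x) + κ' / k * (1 / k * x ^ (1 / (k : ℝ) - 1)) : ℝ) : ℂ) * a x +
        2 * π * I * ((l * √x + κ' / k * x ^ (1 / (k : ℝ)) : ℝ) : ℂ) * deriv a x)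
    have s2 := norm_add_le (deriv a x) ((x : ℂ) * deriv (deriv a) x)
    have s3 := norm_add_le
      (2 * π * I * ((l / (2 * √x) + κ' / k * (1 / k * x ^ (1 / (k : ℝ) - 1)) : ℝ) : ℂ) * a x)
      (2 * π * I * ((l * √x + κ' / k * x ^ (1 / (k : ℝ)) : ℝ) : ℂ) * deriv a x)
    have s4 := ha.b1 x
    rw [le_div_iff₀ hX0]
    have m1 : ‖deriv a x‖ * X ≤ C0 := by rwa [le_div_iff₀ hX0] at s4
    have m3 : ‖(x : ℂ) * deriv (deriv a) x‖ * X ≤ 4 * C0 * (T / X) := by
      rwa [le_div_iff₀ hX0] at p3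
    have m4 : ‖2 * π * I * ((l / (2 * √x) + κ' / k * (1 / k * x ^ (1 / (k : ℝ) - 1)) : ℝ) : ℂ) *
        a x‖ * X ≤ 2 * π * (C0 * E) + 2 * π * (C0 * (E / l0)) := by
      calc _ ≤ 2 * π * ((1 + 1 / l0) * (E / X)) * C0 * X :=
            mul_le_mul_of_nonneg_right p4 hX0.le
        _ = _ := by field_simp
    have m5 : ‖2 * π * I * ((l * √x + κ' / k * x ^ (1 / (k : ℝ)) : ℝ) : ℂ) * deriv a x‖ * X ≤
        4 * π * (C0 * E) + 4 * π * (C0 * (E / l0)) := by
      calc _ ≤ 2 * π * ((2 + 2 / l0) * E) * (C0 / X) * X :=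
            mul_le_mul_of_nonneg_right p5 hX0.le
        _ = _ := by
            field_simp
            ring
    have e1 : C0 * (5 / l0 + 6 * π * (1 + 1 / l0)) * (T / X) * E =
        5 * (C0 * (T / X) * (E / l0)) + 6 * π * (C0 * E * (T / X)) +
          6 * π * (C0 * (E / l0) * (T / X)) := by
      field_simp
      ring
    rw [e1]
    have e3 : π * (C0 * E) ≤ π * (C0 * E * (T / X)) := mul_le_mul_of_nonneg_left q2 hπ.le
    have e4 : π * (C0 * (E / l0)) ≤ π * (C0 * (E / l0) * (T / X)) :=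
      mul_le_mul_of_nonneg_left q3 hπ.le
    have e7 : C0 ≤ C0 * (T / X) := le_mul_of_one_le_right hC0.le hTX
    have s5 : ‖deriv a x + (x : ℂ) * deriv (deriv a) x + (2 * π * I *
        ((l / (2 * √x) + κ' / k * (1 / k * x ^ (1 / (k : ℝ) - 1)) : ℝ) : ℂ) * a x +
        2 * π * I * ((l * √x + κ' / k * x ^ (1 / (k : ℝ)) : ℝ) : ℂ) * deriv a x)‖ * X ≤
        (‖deriv a x‖ + ‖(x : ℂ) * deriv (deriv a) x‖ + (‖2 * π * I *
        ((l / (2 * √x) + κ' / k * (1 / k * x ^ (1 / (k : ℝ) - 1)) : ℝ) : ℂ) * a x‖ +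
        ‖2 * π * I * ((l * √x + κ' / k * x ^ (1 / (k : ℝ)) : ℝ) : ℂ) * deriv a x‖)) * X :=
      mul_le_mul_of_nonneg_right (by linarith) hX0.le
    refine s5.trans ?_
    rw [add_mul, add_mul, add_mul]
    linarith

private theorem BB5_log {T A B : ℝ} (hT : 4 ≤ T) (hA : 1 ≤ A) (hB : 1 ≤ B)
    (hAB : A * B ≤ 4 * T) : 1 + Real.log B ≤ 3 * (1 + Real.log T) := by
  have h1 : B ≤ 4 * T := by nlinarith
  have h2 : Real.log B ≤ Real.log (4 * T) := Real.log_le_log (by linarith) h1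
  have hT0 : 0 < T := by linarith
  rw [Real.log_mul (by norm_num) hT0.ne'] at h2
  have h3 : Real.log 4 ≤ 2 := by
    have h4 : Real.log 4 = 2 * Real.log 2 := by
      rw [show (4 : ℝ) = 2 ^ 2 by norm_num, Real.log_pow]
      norm_num
    have h5 : Real.log 2 ≤ 1 := by
      have := Real.log_two_lt_d9
      linarith
    linarith
  have h6 : 0 ≤ Real.log T := Real.log_nonneg (by linarith)
  linarith

private theorem BB5_sumZ (A : ℕ) (F : ℝ → ℝ) :
    ∑ m ∈ Finset.Icc ((A : ℕ) : ℤ) ((2 * A : ℕ) : ℤ), F m =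
      ∑ m ∈ Finset.Icc A (2 * A), F (m : ℝ) := by
  symm
  apply Finset.sum_bij (fun (m : ℕ) _ => (m : ℤ))
  · intro m hm
    rw [Finset.mem_Icc] at *
    omega
  · intro x _ y _ h
    exact_mod_cast h
  · intro m hm
    rw [Finset.mem_Icc] at hm
    exact ⟨m.toNat, by rw [Finset.mem_Icc]; omega, by omega⟩
  · intro m _
    rw [Int.cast_natCast]

private theorem BB5_hph {k : ℕ} (hk : 4 ≤ k) (l κ' : ℝ) {B b : ℕ} (hB : 1 ≤ B)
    (hb : b ∈ Finset.Icc B (2 * B)) {u : ℝ} (hu : 0 < u) :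
    HasDerivAt (fun u : ℝ => ph k l κ' (u * b))
        ((l / √(u * b) + κ' / k * (u * b) ^ (1 / (k : ℝ) - 1)) * b) u := by
  have hb1 : 1 ≤ b := hB.trans (Finset.mem_Icc.1 hb).1
  have hb0 : (0 : ℝ) < b := by exact_mod_cast hb1
  exact HasDerivAt.comp (h := fun u : ℝ => u * b) u
    (ph_deriv k hk l κ' (mul_pos hu hb0)).1 (hasDerivAt_mul_const (b : ℝ))

private theorem BB5_der {k : ℕ} (hk : 4 ≤ k) {T X C0 l κ' : ℝ} {a : ℝ → ℂ}
    (ha : Amp T X C0 a) {B : ℕ} (hB : 1 ≤ B) (β : ℕ → ℝ) {u : ℝ} (hu0 : 0 < u) :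
    HasDerivAt (fun u => ∑ b ∈ Finset.Icc B (2 * B), (β b : ℂ) *
      (a (u * b) * e (ph k l κ' (u * b)))) (((u⁻¹ : ℝ) : ℂ) * ∑ b ∈ Finset.Icc B (2 * B),
      (β b : ℂ) * (BB5_g1 k l κ' a (u * b) * e (ph k l κ' (u * b)))) u := by
  have h1 : HasDerivAt (fun u => ∑ b ∈ Finset.Icc B (2 * B), (β b : ℂ) *
      (a (u * b) * e (ph k l κ' (u * b)))) (∑ b ∈ Finset.Icc B (2 * B), (β b : ℂ) *
        (((b : ℝ) • deriv a (u * b)) * e (ph k l κ' (u * b)) + a (u * b) *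
          (2 * π * I * (((l / √(u * b) + κ' / k * (u * b) ^ (1 / (k : ℝ) - 1)) * b : ℝ) : ℂ) *
            e (ph k l κ' (u * b))))) u := by
    apply HasDerivAt.fun_sum
    intro b hb
    have d1 : HasDerivAt (fun u : ℝ => a (u * b)) ((b : ℝ) • deriv a (u * b)) u :=
      (BB5_d1 ha (u * b)).scomp u (hasDerivAt_mul_const (b : ℝ))
    exact (d1.mul (BA1_deriv_e (BB5_hph hk l κ' hB hb hu0))).const_mul _
  refine h1.congr_deriv ?_
  rw [Finset.mul_sum]
  refine Finset.sum_congr rfl fun b hb => ?_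
  have hb1 : 1 ≤ b := hB.trans (Finset.mem_Icc.1 hb).1
  have hb0 : (0 : ℝ) < b := by exact_mod_cast hb1
  have h2 := BB3_theta1 (k := k) l κ' (mul_pos hu0 hb0)
  unfold BB5_g1
  rw [← h2, Complex.real_smul]
  have hu' : (u : ℂ) ≠ 0 := by exact_mod_cast hu0.ne'
  generalize (l / √(u * b) + κ' / k * (u * b) ^ (1 / (k : ℝ) - 1)) = t
  push_cast
  field_simp

private theorem BB5_F1c {k : ℕ} (hk : 4 ≤ k) {T X C0 l κ' : ℝ} {a : ℝ → ℂ} (hT : 0 < T)
    (ha : Amp T X C0 a) {B : ℕ} (hB : 1 ≤ B) (β : ℕ → ℝ) {p q : ℝ} (hp : 0 < p) :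
    ContinuousOn (fun u : ℝ => ∑ b ∈ Finset.Icc B (2 * B), (β b : ℂ) *
      (BB5_g1 k l κ' a (u * b) * e (ph k l κ' (u * b)))) (Icc p q) := by
  have hgc : Continuous (BB5_g1 k l κ' a) :=
    continuous_iff_continuousAt.2 fun x => (BB5_hg1 hT ha x).continuousAt
  apply continuousOn_finsetSum
  intro b hb u hu
  have hu0 : 0 < u := hp.trans_le hu.1
  apply ContinuousAt.continuousWithinAt
  have a1 : ContinuousAt (fun u : ℝ => BB5_g1 k l κ' a (u * b)) u :=
    (hgc.comp (by fun_prop)).continuousAt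
  exact continuousAt_const.mul (a1.mul (ContinuousAt.comp (g := e) BA1_cont_e.continuousAt
    (BB5_hph hk l κ' hB hb hu0).continuousAt))

private theorem BB5_gal {k : ℕ} (hk : 4 ≤ k) {T X C0 l κ' : ℝ} {a : ℝ → ℂ} (hT : 0 < T)
    (ha : Amp T X C0 a) {A B : ℕ} (hA : 1 ≤ A) (hB : 1 ≤ B) (β : ℕ → ℝ) {Cm S0 S1 D : ℝ}
    (hCm : 0 ≤ Cm) (hS0 : 0 ≤ S0) (hD : 0 ≤ D) (hS1 : 0 ≤ S1)
    (hI1 : ∫ u in ((A : ℝ) - 1 / 2)..(2 * A + 1 / 2), ‖∑ b ∈ Finset.Icc B (2 * B), (β b : ℂ) *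
      (a (u * b) * e (ph k l κ' (u * b)))‖ ^ 2 ≤ Cm * S0 ^ 2 * D)
    (hI2 : ∫ u in ((A : ℝ) - 1 / 2)..(2 * A + 1 / 2), ‖∑ b ∈ Finset.Icc B (2 * B), (β b : ℂ) *
      (BB5_g1 k l κ' a (u * b) * e (ph k l κ' (u * b)))‖ ^ 2 ≤ Cm * S1 ^ 2 * D) :
    ∑ m ∈ Finset.Icc A (2 * A), ‖∑ b ∈ Finset.Icc B (2 * B), (β b : ℂ) *
      (a ((m : ℝ) * b) * e (ph k l κ' ((m : ℝ) * b)))‖ ^ 2 ≤
      Cm * S0 * D * (S0 + 4 * (S1 / A)) := by
  have hA1 : (1 : ℝ) ≤ A := by exact_mod_cast hA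
  have hA0 : (0 : ℝ) < A := by linarith
  have hp0 : (0 : ℝ) < A - 1 / 2 := by linarith
  have hpq : (A : ℝ) - 1 / 2 ≤ 2 * A + 1 / 2 := by linarith
  have hder := fun (u : ℝ) (hu : u ∈ Icc ((A : ℝ) - 1 / 2) (2 * A + 1 / 2)) =>
    BB5_der (k := k) (l := l) (κ' := κ') hk ha hB β (hp0.trans_le hu.1)
  have hF1c := BB5_F1c (k := k) (l := l) (κ' := κ') (q := 2 * A + 1 / 2) hk hT ha hB β hp0
  generalize hf : (fun u : ℝ => ∑ b ∈ Finset.Icc B (2 * B), (β b : ℂ) *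
      (a (u * b) * e (ph k l κ' (u * b)))) = f at hder
  have hfx : ∀ u : ℝ, ∑ b ∈ Finset.Icc B (2 * B), (β b : ℂ) *
      (a (u * b) * e (ph k l κ' (u * b))) = f u := fun u => by rw [← hf]
  generalize hF1 : (fun u : ℝ => ∑ b ∈ Finset.Icc B (2 * B), (β b : ℂ) *
      (BB5_g1 k l κ' a (u * b) * e (ph k l κ' (u * b)))) = F1 at hF1c
  have hF1x : ∀ u : ℝ, ∑ b ∈ Finset.Icc B (2 * B), (β b : ℂ) *
      (BB5_g1 k l κ' a (u * b) * e (ph k l κ' (u * b))) = F1 u := fun u => by rw [← hF1]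
  simp only [hfx] at hI1 ⊢
  simp only [hF1x] at hI2 hder
  have hinv : ContinuousOn (fun u : ℝ => ((u⁻¹ : ℝ) : ℂ)) (Icc ((A : ℝ) - 1 / 2) (2 * A + 1 / 2)) :=
    Complex.continuous_ofReal.comp_continuousOn
      (continuousOn_id.inv₀ fun u hu => (hp0.trans_le hu.1).ne')
  have hf'c := hinv.mul hF1c
  have hpA : (((A : ℕ) : ℤ) : ℝ) - 1 / 2 = (A : ℝ) - 1 / 2 := by push_cast; ring
  have hqA : (((2 * A : ℕ) : ℤ) : ℝ) + 1 / 2 = 2 * (A : ℝ) + 1 / 2 := by push_cast; ring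
  have hgal := gallagher (M := ((A : ℕ) : ℤ)) (N := ((2 * A : ℕ) : ℤ)) (by push_cast; omega)
    (f := f) (f' := fun u => ((u⁻¹ : ℝ) : ℂ) * F1 u) (by
      rw [hpA, hqA]
      exact hder) (by
      rw [hpA, hqA]
      exact hf'c)
  rw [BB5_sumZ A (fun u => ‖f u‖ ^ 2), hpA, hqA] at hgal
  have hI3 : ∫ u in ((A : ℝ) - 1 / 2)..(2 * A + 1 / 2), ‖((u⁻¹ : ℝ) : ℂ) * F1 u‖ ^ 2 ≤
      (2 / A) ^ 2 * (Cm * S1 ^ 2 * D) := by
    refine le_trans ?_ (mul_le_mul_of_nonneg_left hI2 (by positivity))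
    rw [← intervalIntegral.integral_const_mul]
    apply intervalIntegral.integral_mono_on hpq ((hf'c.norm.pow 2).intervalIntegrable_of_Icc hpq)
      ((continuousOn_const.mul (hF1c.norm.pow 2)).intervalIntegrable_of_Icc hpq)
    intro u hu
    have hu0 : 0 < u := hp0.trans_le hu.1
    change ‖((u⁻¹ : ℝ) : ℂ) * F1 u‖ ^ 2 ≤ (2 / (A : ℝ)) ^ 2 * ‖F1 u‖ ^ 2
    rw [norm_mul, mul_pow, Complex.norm_real, Real.norm_of_nonneg (by positivity)]
    apply mul_le_mul_of_nonneg_right _ (by positivity)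
    have h1 : u⁻¹ ≤ 2 / A := by
      rw [inv_le_comm₀ hu0 (by positivity), inv_div]
      have := hu.1
      linarith
    exact pow_le_pow_left₀ (by positivity) h1 2
  have hI30 : 0 ≤ ∫ u in ((A : ℝ) - 1 / 2)..(2 * A + 1 / 2), ‖((u⁻¹ : ℝ) : ℂ) * F1 u‖ ^ 2 :=
    intervalIntegral.integral_nonneg hpq fun u _ => by positivity
  have hsq : √((∫ u in ((A : ℝ) - 1 / 2)..(2 * A + 1 / 2), ‖f u‖ ^ 2) *
      ∫ u in ((A : ℝ) - 1 / 2)..(2 * A + 1 / 2), ‖((u⁻¹ : ℝ) : ℂ) * F1 u‖ ^ 2) ≤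
      Cm * S0 * (2 / A) * S1 * D := by
    rw [Real.sqrt_le_left (by positivity)]
    refine (mul_le_mul hI1 hI3 hI30 (by positivity)).trans (le_of_eq ?_)
    ring
  have h2 : Cm * S0 * D * (S0 + 4 * (S1 / A)) =
      Cm * S0 ^ 2 * D + 2 * (Cm * S0 * (2 / A) * S1 * D) := by ring
  rw [h2]
  linarith

private theorem BB5_rhs {C0 K1 l0 l T R A B LB LT : ℝ} (hC0 : 0 < C0) (hK1 : 0 < K1) (hl0 : 0 < l0)
    (hl : l0 ≤ l) (hT : 1 ≤ T) (hR : 1 ≤ R) (hA : 1 ≤ A) (hB : 1 ≤ B) (hAB : A * B ≤ 4 * T)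
    (hLB : 1 ≤ LB) (hLT : 1 ≤ LT) (hL : LB ≤ 3 * LT) :
    (T + B * R * √T * LB / l) * (C0 * A + 4 * (K1 * R * (l * √T))) ≤
      (C0 / l0 + 12 * C0 / l0 ^ 2 + 4 * K1 + 12 * K1 / l0) *
        (LT * l * R ^ 3 * T * (A + B + √T)) := by
  have hl' : 0 < l := hl0.trans_le hl
  have hT0 : 0 < T := by linarith
  have hsT : 0 < √T := Real.sqrt_pos.2 hT0
  have hss : √T * √T = T := Real.mul_self_sqrt hT0.le
  have hR0 : 0 < R := by linarith
  have hA0 : 0 < A := by linarith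
  have hB0 : 0 < B := by linarith
  have hLB0 : 0 < LB := by linarith
  have hLT0 : 0 < LT := by linarith
  have hl1 : 1 ≤ l / l0 := by rwa [le_div_iff₀ hl0, one_mul]
  have hR3 : 1 ≤ R ^ 3 := one_le_pow₀ hR
  have hR13 : R ≤ R ^ 3 := le_self_pow₀ hR (by norm_num)
  have hR23 : R ^ 2 ≤ R ^ 3 := pow_le_pow_right₀ hR (by norm_num)
  have e0 : (T + B * R * √T * LB / l) * (C0 * A + 4 * (K1 * R * (l * √T))) =
      C0 * (T * A) + 4 * K1 * (T * (R * (l * √T))) + C0 * ((A * B) * (R * √T * LB / l)) +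
        4 * K1 * (B * R ^ 2 * T * LB) := by
    have : √T ^ 2 = T := Real.sq_sqrt hT0.le
    field_simp
    ring_nf
    rw [this]
    ring
  rw [e0]
  have i1 : C0 * (T * A) ≤ (C0 / l0) * (LT * l * R ^ 3 * T * A) := by
    have h1 : (1 : ℝ) ≤ (l / l0) * (LT * R ^ 3) :=
      one_le_mul_of_one_le_of_one_le hl1 (one_le_mul_of_one_le_of_one_le hLT hR3)
    calc C0 * (T * A) ≤ C0 * (T * A) * ((l / l0) * (LT * R ^ 3)) :=
          le_mul_of_one_le_right (by positivity) h1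
      _ = _ := by ring
  have i2 : 4 * K1 * (T * (R * (l * √T))) ≤ 4 * K1 * (LT * l * R ^ 3 * T * √T) := by
    apply mul_le_mul_of_nonneg_left _ (by positivity)
    calc T * (R * (l * √T)) = R * (T * l * √T) := by ring
      _ ≤ R ^ 3 * (T * l * √T) := mul_le_mul_of_nonneg_right hR13 (by positivity)
      _ ≤ R ^ 3 * (T * l * √T) * LT := le_mul_of_one_le_right (by positivity) hLT
      _ = _ := by ring
  have i3 : C0 * ((A * B) * (R * √T * LB / l)) ≤
      (12 * C0 / l0 ^ 2) * (LT * l * R ^ 3 * T * √T) := by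
    have h1 : (1 : ℝ) ≤ (l / l0) * (l / l0) := one_le_mul_of_one_le_of_one_le hl1 hl1
    calc C0 * ((A * B) * (R * √T * LB / l)) ≤ C0 * ((4 * T) * (R ^ 3 * √T * (3 * LT) / l)) := by
          gcongr
      _ ≤ C0 * ((4 * T) * (R ^ 3 * √T * (3 * LT) / l)) * ((l / l0) * (l / l0)) :=
          le_mul_of_one_le_right (by positivity) h1
      _ = _ := by
          field_simp
          ring
  have i4 : 4 * K1 * (B * R ^ 2 * T * LB) ≤ (12 * K1 / l0) * (LT * l * R ^ 3 * T * B) := by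
    calc 4 * K1 * (B * R ^ 2 * T * LB) ≤ 4 * K1 * (B * R ^ 3 * T * (3 * LT)) := by
          gcongr
      _ ≤ 4 * K1 * (B * R ^ 3 * T * (3 * LT)) * (l / l0) :=
          le_mul_of_one_le_right (by positivity) hl1
      _ = _ := by
          field_simp
          ring
  set Y := LT * l * R ^ 3 * T with hY
  have hY0 : 0 < Y := by positivity
  have f1 : (C0 / l0) * (Y * A) ≤ (C0 / l0) * (Y * (A + B + √T)) := by
    gcongr
    linarith
  have f2 : 4 * K1 * (Y * √T) ≤ 4 * K1 * (Y * (A + B + √T)) := by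
    gcongr
    linarith
  have f3 : (12 * C0 / l0 ^ 2) * (Y * √T) ≤ (12 * C0 / l0 ^ 2) * (Y * (A + B + √T)) := by
    gcongr
    linarith
  have f4 : (12 * K1 / l0) * (Y * B) ≤ (12 * K1 / l0) * (Y * (A + B + √T)) := by
    gcongr
    linarith
  have f5 : (C0 / l0 + 12 * C0 / l0 ^ 2 + 4 * K1 + 12 * K1 / l0) * (Y * (A + B + √T)) =
      (C0 / l0) * (Y * (A + B + √T)) + (12 * C0 / l0 ^ 2) * (Y * (A + B + √T)) +
      4 * K1 * (Y * (A + B + √T)) + (12 * K1 / l0) * (Y * (A + B + √T)) := by ring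
  rw [f5]
  linarith

/-- **BB5.** The bilinear estimate, dyadic. -/
theorem bilinear_dyadic {k : ℕ} (hk : 4 ≤ k) {l0 C0 : ℝ} (hl0 : 0 < l0) (hC0 : 0 < C0) :
    ∃ C T0 : ℝ, 0 < C ∧ 1 ≤ T0 ∧
    ∀ (T X l κ' : ℝ) (a : ℝ → ℂ) (A B : ℕ) (α β : ℕ → ℝ) (W : ℝ), T0 ≤ T → 1 ≤ X → X ≤ T →
      l0 ≤ |l| → |κ'| ≤ k → Amp T X C0 a → 1 ≤ A → 1 ≤ B → 0 ≤ W → (∀ n, |α n| ≤ W) →
      (∀ n, |β n| ≤ W) →
      ‖∑ m ∈ Finset.Icc A (2 * A), ∑ b ∈ Finset.Icc B (2 * B), ((α m * β b : ℝ) : ℂ) *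
        (a (m * b) * e (ph k l κ' (m * b)))‖ ^ 2 ≤
      C * W ^ 4 * (1 + Real.log T) * |l| * (T / X) ^ 3 * T * (A + B + T ^ (1 / 2 : ℝ)) := by
  obtain ⟨Cm, Tm, hCm, hTm, hms⟩ := mean_square hk hl0
  set K1 : ℝ := C0 * (5 / l0 + 6 * π * (1 + 1 / l0)) with hK1
  have hK10 : 0 < K1 := by
    have := Real.pi_pos
    positivity
  set K2 : ℝ := C0 / l0 + 12 * C0 / l0 ^ 2 + 4 * K1 + 12 * K1 / l0 with hK2
  have hK20 : 0 < K2 := by positivity
  refine ⟨2 * Cm * C0 * K2, max Tm 4, by positivity, le_max_of_le_left hTm, ?_⟩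
  intro T X l κ' a A B α β W hT hX hXT hl hκ ha hA hB hW hα hβ
  have hTTm : Tm ≤ T := (le_max_left _ _).trans hT
  have hT4 : 4 ≤ T := (le_max_right _ _).trans hT
  have hT0 : 0 < T := by linarith
  have hX0 : 0 < X := by linarith
  have hl00 : 0 < |l| := hl0.trans_le hl
  have hTX : 1 ≤ T / X := by rwa [le_div_iff₀ hX0, one_mul]
  have hA1 : (1 : ℝ) ≤ A := by exact_mod_cast hA
  have hB1 : (1 : ℝ) ≤ B := by exact_mod_cast hB
  have hA0 : (0 : ℝ) < A := by linarith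
  have hlogT : 0 ≤ Real.log T := Real.log_nonneg (by linarith)
  have hsT : T ^ (1 / 2 : ℝ) = √T := (Real.sqrt_eq_rpow T).symm
  have hsT0 : 0 < √T := Real.sqrt_pos.2 hT0
  have hRHS : 0 ≤ 2 * Cm * C0 * K2 * W ^ 4 * (1 + Real.log T) * |l| * (T / X) ^ 3 * T *
      (A + B + T ^ (1 / 2 : ℝ)) := by positivity
  rcases lt_or_ge (4 * T) (A * B : ℝ) with hAB | hAB
  · have h0 : ∑ m ∈ Finset.Icc A (2 * A), ∑ b ∈ Finset.Icc B (2 * B), ((α m * β b : ℝ) : ℂ) *
        (a (m * b) * e (ph k l κ' (m * b))) = 0 := by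
      refine Finset.sum_eq_zero fun m hm => Finset.sum_eq_zero fun b hb => ?_
      have hm1 : (A : ℝ) ≤ m := by exact_mod_cast (Finset.mem_Icc.1 hm).1
      have hb1 : (B : ℝ) ≤ b := by exact_mod_cast (Finset.mem_Icc.1 hb).1
      have h1 : (A : ℝ) * B ≤ m * b := mul_le_mul hm1 hb1 (by linarith) (by linarith)
      have h2 : a (m * b) = 0 := ha.supp _ fun h => by linarith [h.2]
      rw [h2]
      ring
    rw [h0, norm_zero]
    simpa using hRHS
  -- the function of the first variable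
  set f : ℝ → ℂ := fun u => ∑ b ∈ Finset.Icc B (2 * B), (β b : ℂ) *
    (a (u * b) * e (ph k l κ' (u * b))) with hf
  set D : ℝ := W ^ 2 * (T + B * (T / X) * T ^ (1 / 2 : ℝ) * (1 + Real.log B) / |l|) with hD
  have hlogB : 0 ≤ Real.log B := Real.log_nonneg hB1
  have hD0 : 0 ≤ D := by positivity
  set S1 : ℝ := K1 * (T / X) * (|l| * √T) with hS1
  have hS10 : 0 ≤ S1 := by positivity
  have hp0 : (0 : ℝ) < A - 1 / 2 := by linarith
  have hpq : (A : ℝ) - 1 / 2 ≤ 2 * A + 1 / 2 := by linarith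
  have hI1 : ∫ u in ((A : ℝ) - 1 / 2)..(2 * A + 1 / 2), ‖f u‖ ^ 2 ≤ Cm * C0 ^ 2 * D := by
    have := hms T X C0 l κ' a (deriv a) B β W hTTm hX hXT hC0.le hl hκ (BB5_d1 ha) (BB5_c1 ha)
      ha.supp ha.b0 ha.b1 hB hW hβ _ _ hp0 hpq
    refine this.trans (le_of_eq ?_)
    rw [hD]
    ring
  have hI2 : ∫ u in ((A : ℝ) - 1 / 2)..(2 * A + 1 / 2), ‖∑ b ∈ Finset.Icc B (2 * B), (β b : ℂ) *
      (BB5_g1 k l κ' a (u * b) * e (ph k l κ' (u * b)))‖ ^ 2 ≤ Cm * S1 ^ 2 * D := by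
    have := hms T X S1 l κ' (BB5_g1 k l κ' a) (BB5_g2 k l κ' a) B β W hTTm hX hXT hS10 hl hκ
      (BB5_hg1 hT0 ha) (BB5_cg2 hT0 ha) (fun x hx => by
        obtain ⟨z1, z2, _⟩ := BB5_zero' ha hx
        unfold BB5_g1
        rw [z1, z2]
        ring)
      (fun x => (BB5_bounds hk hl0 hC0 hT4 hX hXT hl hκ ha x).1)
      (fun x => (BB5_bounds hk hl0 hC0 hT4 hX hXT hl hκ ha x).2) hB hW hβ _ _ hp0 hpq
    refine this.trans (le_of_eq ?_)
    rw [hD]
    ring
  have hsum := BB5_gal hk hT0 ha hA hB β hCm.le hC0.le hD0 hS10 hI1 hI2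
  -- Cauchy-Schwarz
  have hform : ∑ m ∈ Finset.Icc A (2 * A), ∑ b ∈ Finset.Icc B (2 * B), ((α m * β b : ℝ) : ℂ) *
        (a (m * b) * e (ph k l κ' (m * b))) =
      ∑ m ∈ Finset.Icc A (2 * A), (α m : ℂ) * f (m : ℝ) := by
    refine Finset.sum_congr rfl fun m _ => ?_
    rw [hf]
    simp only
    rw [Finset.mul_sum]
    refine Finset.sum_congr rfl fun b _ => ?_
    push_cast
    ring
  rw [hform]
  have hn : ‖∑ m ∈ Finset.Icc A (2 * A), (α m : ℂ) * f (m : ℝ)‖ ≤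
      ∑ m ∈ Finset.Icc A (2 * A), |α m| * ‖f (m : ℝ)‖ := by
    refine (norm_sum_le _ _).trans (le_of_eq ?_)
    refine Finset.sum_congr rfl fun m _ => ?_
    rw [norm_mul, Complex.norm_real, Real.norm_eq_abs]
  have hcs := Finset.sum_mul_sq_le_sq_mul_sq (Finset.Icc A (2 * A)) (fun m => |α m|)
    (fun m => ‖f (m : ℝ)‖)
  have hα2 : ∑ m ∈ Finset.Icc A (2 * A), |α m| ^ 2 ≤ 2 * A * W ^ 2 := by
    calc ∑ m ∈ Finset.Icc A (2 * A), |α m| ^ 2 ≤ ∑ m ∈ Finset.Icc A (2 * A), W ^ 2 :=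
          Finset.sum_le_sum fun m _ => pow_le_pow_left₀ (abs_nonneg _) (hα m) 2
      _ = (A + 1) * W ^ 2 := by
          rw [Finset.sum_const, Nat.card_Icc, nsmul_eq_mul]
          congr 1
          have : 2 * A + 1 - A = A + 1 := by omega
          rw [this]
          push_cast
          rfl
      _ ≤ 2 * A * W ^ 2 := mul_le_mul_of_nonneg_right (by linarith) (by positivity)
  have hfin := BB5_rhs (C0 := C0) (K1 := K1) (l0 := l0) (l := |l|) (T := T) (R := T / X)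
    (A := A) (B := B) (LB := 1 + Real.log B) (LT := 1 + Real.log T) hC0 hK10 hl0 hl (by linarith)
    hTX hA1 hB1 hAB (by linarith) (by linarith) (BB5_log hT4 hA1 hB1 hAB)
  calc ‖∑ m ∈ Finset.Icc A (2 * A), (α m : ℂ) * f (m : ℝ)‖ ^ 2 ≤
        (∑ m ∈ Finset.Icc A (2 * A), |α m| * ‖f (m : ℝ)‖) ^ 2 :=
        pow_le_pow_left₀ (norm_nonneg _) hn 2
    _ ≤ (∑ m ∈ Finset.Icc A (2 * A), |α m| ^ 2) *
        ∑ m ∈ Finset.Icc A (2 * A), ‖f (m : ℝ)‖ ^ 2 := hcs
    _ ≤ (2 * A * W ^ 2) * (Cm * C0 * D * (C0 + 4 * (S1 / A))) :=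
        mul_le_mul hα2 hsum (Finset.sum_nonneg fun m _ => by positivity) (by positivity)
    _ = 2 * Cm * C0 * W ^ 4 * ((T + B * (T / X) * √T * (1 + Real.log B) / |l|) *
        (C0 * A + 4 * (K1 * (T / X) * (|l| * √T)))) := by
        rw [hD, hS1, hsT]
        field_simp
    _ ≤ 2 * Cm * C0 * W ^ 4 * (K2 *
        ((1 + Real.log T) * |l| * (T / X) ^ 3 * T * (A + B + √T))) :=
        mul_le_mul_of_nonneg_left hfin (by positivity)
    _ = _ := by
        rw [hsT]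
        ring
--END BB5

/-! ### The decomposition of `d_k` -/

--BEGIN BC1
private noncomputable def BC1_s (z : ℝ) : ArithmeticFunction ℝ :=
  ⟨fun n => if n ≠ 0 ∧ (n : ℝ) ≤ z then 1 else 0, by simp⟩

private noncomputable def BC1_m (z z' : ℝ) : ArithmeticFunction ℝ :=
  ⟨fun n => if n ≠ 0 ∧ z < (n : ℝ) ∧ (n : ℝ) ≤ z' then 1 else 0, by simp⟩

private noncomputable def BC1_l (z : ℝ) : ArithmeticFunction ℝ :=
  ⟨fun n => if n ≠ 0 ∧ z < (n : ℝ) then 1 else 0, by simp⟩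

private noncomputable def BC1_tr (z : ℝ) (f : ArithmeticFunction ℝ) : ArithmeticFunction ℝ :=
  ⟨fun n => if (n : ℝ) ≤ z then f n else 0, by simp⟩

private noncomputable def BC1_z : ArithmeticFunction ℝ :=
  ⟨fun n => if n ≠ 0 then 1 else 0, by simp⟩

private noncomputable def BC1_p (z : ℝ) : ℕ → ArithmeticFunction ℝ
  | 0 => 1
  | r + 1 => BC1_tr z (BC1_p z r * BC1_s z)

private noncomputable def BC1_q (z : ℝ) (r : ℕ) : ArithmeticFunction ℝ :=
  BC1_p z r * BC1_s z - BC1_p z (r + 1)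

private def BC1_Le (f g : ArithmeticFunction ℝ) : Prop := ∀ n, 0 ≤ f n ∧ f n ≤ g n

private theorem BC1_Le.mul {f g f' g' : ArithmeticFunction ℝ} (h : BC1_Le f g)
    (h' : BC1_Le f' g') : BC1_Le (f * f') (g * g') := by
  intro n
  rw [ArithmeticFunction.mul_apply, ArithmeticFunction.mul_apply]
  refine ⟨Finset.sum_nonneg fun p _ => mul_nonneg (h _).1 (h' _).1,
    Finset.sum_le_sum fun p _ => mul_le_mul (h _).2 (h' _).2 (h' _).1
      ((h _).1.trans (h _).2)⟩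

private theorem BC1_Le.one : BC1_Le 1 1 := by
  intro n
  rw [ArithmeticFunction.one_apply]
  split_ifs <;> norm_num

private theorem BC1_Le.pow {f g : ArithmeticFunction ℝ} (h : BC1_Le f g) (k : ℕ) :
    BC1_Le (f ^ k) (g ^ k) := by
  induction k with
  | zero =>
    rw [pow_zero, pow_zero]
    exact BC1_Le.one
  | succ k ih =>
    rw [pow_succ, pow_succ]
    exact ih.mul h

private theorem BC1_Le.trans {f g h : ArithmeticFunction ℝ} (h1 : BC1_Le f g) (h2 : BC1_Le g h) :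
    BC1_Le f h := fun n => ⟨(h1 n).1, (h1 n).2.trans (h2 n).2⟩

private theorem BC1_one_z : BC1_Le 1 BC1_z := by
  intro n
  rw [ArithmeticFunction.one_apply]
  change _ ∧ _ ≤ (if n ≠ 0 then (1 : ℝ) else 0)
  by_cases h : n = 1
  · subst h
    norm_num
  · rw [if_neg h]
    split_ifs <;> norm_num

private theorem BC1_zz : BC1_Le BC1_z BC1_z := by
  intro n
  change 0 ≤ (if n ≠ 0 then (1 : ℝ) else 0) ∧ _
  refine ⟨?_, le_rfl⟩
  split_ifs <;> norm_num

private theorem BC1_mono {r k : ℕ} (h : r ≤ k) : BC1_Le (BC1_z ^ r) (BC1_z ^ k) := by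
  obtain ⟨j, rfl⟩ := Nat.exists_eq_add_of_le h
  have h1 := (BC1_zz.pow r).mul (BC1_one_z.pow j)
  rw [one_pow, mul_one, ← pow_add] at h1
  exact h1

private theorem BC1_sz (z : ℝ) : BC1_Le (BC1_s z) BC1_z := by
  intro n
  change 0 ≤ (if n ≠ 0 ∧ (n : ℝ) ≤ z then (1 : ℝ) else 0) ∧
    (if n ≠ 0 ∧ (n : ℝ) ≤ z then (1 : ℝ) else 0) ≤ (if n ≠ 0 then (1 : ℝ) else 0)
  by_cases h : n = 0
  · simp [h]
  · by_cases h2 : (n : ℝ) ≤ z
    · simp [h, h2]
    · simp [h, h2]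

private theorem BC1_mz (z z' : ℝ) : BC1_Le (BC1_m z z') BC1_z := by
  intro n
  change 0 ≤ (if n ≠ 0 ∧ z < (n : ℝ) ∧ (n : ℝ) ≤ z' then (1 : ℝ) else 0) ∧
    (if n ≠ 0 ∧ z < (n : ℝ) ∧ (n : ℝ) ≤ z' then (1 : ℝ) else 0) ≤
      (if n ≠ 0 then (1 : ℝ) else 0)
  by_cases h : n = 0
  · simp [h]
  · by_cases h2 : z < (n : ℝ) ∧ (n : ℝ) ≤ z'
    · simp [h, h2]
    · rw [if_neg fun h3 => h2 h3.2, if_pos h]
      norm_num

private theorem BC1_smz (z z' : ℝ) : BC1_Le (BC1_s z + BC1_m z z') BC1_z := by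
  intro n
  change 0 ≤ (if n ≠ 0 ∧ (n : ℝ) ≤ z then (1 : ℝ) else 0) +
    (if n ≠ 0 ∧ z < (n : ℝ) ∧ (n : ℝ) ≤ z' then (1 : ℝ) else 0) ∧
    (if n ≠ 0 ∧ (n : ℝ) ≤ z then (1 : ℝ) else 0) +
    (if n ≠ 0 ∧ z < (n : ℝ) ∧ (n : ℝ) ≤ z' then (1 : ℝ) else 0) ≤
      (if n ≠ 0 then (1 : ℝ) else 0)
  by_cases h : n = 0
  · simp [h]
  · by_cases h2 : (n : ℝ) ≤ z
    · have h3 : ¬ (z < (n : ℝ)) := not_lt.2 h2
      simp [h, h2, h3]
    · have h3 : z < (n : ℝ) := not_le.1 h2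
      by_cases h4 : (n : ℝ) ≤ z'
      · simp [h, h2, h3, h4]
      · simp [h, h2, h3, h4]

private theorem BC1_pz (z : ℝ) (r : ℕ) : BC1_Le (BC1_p z r) (BC1_z ^ r) := by
  induction r with
  | zero =>
    rw [pow_zero]
    exact BC1_Le.one
  | succ r ih =>
    intro n
    have h1 := (ih.mul (BC1_sz z)) n
    rw [← pow_succ] at h1
    change 0 ≤ (if (n : ℝ) ≤ z then (BC1_p z r * BC1_s z) n else 0) ∧
      (if (n : ℝ) ≤ z then (BC1_p z r * BC1_s z) n else 0) ≤ _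
    split_ifs
    · exact h1
    · exact ⟨le_rfl, h1.1.trans h1.2⟩

private theorem BC1_q_apply (z : ℝ) (r n : ℕ) : BC1_q z r n =
    if (n : ℝ) ≤ z then 0 else (BC1_p z r * BC1_s z) n := by
  change (BC1_p z r * BC1_s z) n - (if (n : ℝ) ≤ z then (BC1_p z r * BC1_s z) n else 0) = _
  split_ifs
  · exact sub_self _
  · exact sub_zero _

private theorem BC1_qz (z : ℝ) (r : ℕ) : BC1_Le (BC1_q z r) (BC1_z ^ (r + 1)) := by
  intro n
  have h1 := ((BC1_pz z r).mul (BC1_sz z)) n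
  rw [← pow_succ] at h1
  rw [BC1_q_apply]
  split_ifs
  · exact ⟨le_rfl, h1.1.trans h1.2⟩
  · exact h1

private theorem BC1_p_supp {z : ℝ} (hz : 1 ≤ z) (r n : ℕ) (hn : z < n) : BC1_p z r n = 0 := by
  cases r with
  | zero =>
    change (1 : ArithmeticFunction ℝ) n = 0
    rw [ArithmeticFunction.one_apply, if_neg]
    rintro rfl
    push_cast at hn
    linarith
  | succ r =>
    change (if (n : ℝ) ≤ z then (BC1_p z r * BC1_s z) n else 0) = 0
    rw [if_neg (not_le.2 hn)]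

private theorem BC1_q_supp {z : ℝ} (hz : 1 ≤ z) (r n : ℕ) (hn : BC1_q z r n ≠ 0) :
    z < n ∧ (n : ℝ) ≤ z ^ 2 := by
  rw [BC1_q_apply] at hn
  by_cases h : (n : ℝ) ≤ z
  · rw [if_pos h] at hn
    exact absurd rfl hn
  · rw [if_neg h] at hn
    refine ⟨not_le.1 h, ?_⟩
    rw [ArithmeticFunction.mul_apply] at hn
    obtain ⟨p, hp, h1⟩ := Finset.exists_ne_zero_of_sum_ne_zero hn
    have h2 : (p.1 : ℝ) ≤ z := by
      by_contra h2
      exact h1 (by rw [BC1_p_supp hz r p.1 (not_le.1 h2), zero_mul])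
    have h3 : (p.2 : ℝ) ≤ z := by
      by_contra h3
      apply h1
      have : BC1_s z p.2 = 0 := by
        change (if p.2 ≠ 0 ∧ (p.2 : ℝ) ≤ z then (1 : ℝ) else 0) = 0
        rw [if_neg fun h4 => h3 h4.2]
      rw [this, mul_zero]
    rw [← (Nat.mem_divisorsAntidiagonal.1 hp).1]
    push_cast
    nlinarith [Nat.cast_nonneg (α := ℝ) p.1, Nat.cast_nonneg (α := ℝ) p.2]

private theorem BC1_s_pow {z : ℝ} (k : ℕ) : ∀ r, r ≤ k → BC1_s z ^ k =
    ∑ i ∈ Finset.range r, BC1_q z i * BC1_s z ^ (k - 1 - i) + BC1_p z r * BC1_s z ^ (k - r) := by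
  intro r
  induction r with
  | zero =>
    intro _
    change _ = 0 + 1 * _
    rw [zero_add, one_mul, Nat.sub_zero]
  | succ r ih =>
    intro hr
    have h1 : BC1_p z r * BC1_s z ^ (k - r) =
        BC1_q z r * BC1_s z ^ (k - 1 - r) + BC1_p z (r + 1) * BC1_s z ^ (k - (r + 1)) := by
      have e1 : k - r = k - (r + 1) + 1 := by omega
      have e2 : k - 1 - r = k - (r + 1) := by omega
      rw [e1, e2, BC1_q]
      ring
    rw [ih (by omega), h1, Finset.sum_range_succ, add_assoc]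

private theorem BC1_tel {R : Type*} [CommRing R] (s m : R) (k : ℕ) :
    (s + m) ^ k = ∑ i ∈ Finset.range k, m * (s ^ i * (s + m) ^ (k - 1 - i)) + s ^ k := by
  induction k with
  | zero => simp
  | succ k ih =>
    have h1 : ∀ i ∈ Finset.range k, m * (s ^ i * (s + m) ^ (k + 1 - 1 - i)) =
        (s + m) * (m * (s ^ i * (s + m) ^ (k - 1 - i))) := by
      intro i hi
      rw [Finset.mem_range] at hi
      have e1 : k + 1 - 1 - i = k - 1 - i + 1 := by omega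
      rw [e1]
      ring
    rw [Finset.sum_range_succ, Finset.sum_congr rfl h1, ← Finset.mul_sum, pow_succ]
    have e2 : k + 1 - 1 - k = 0 := by omega
    rw [e2, pow_zero]
    have h2 : (s + m) ^ k * (s + m) = (s + m) * (s + m) ^ k := mul_comm _ _
    rw [h2]
    conv_lhs => rw [ih]
    ring

private theorem BC1_sub {R : Type*} [CommRing R] (z l : R) (k : ℕ) :
    ∃ h, (z - l) ^ (k + 1) = z ^ (k + 1) - (k + 1 : ℕ) * (l * z ^ k) + l ^ 2 * h := by
  induction k with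
  | zero => exact ⟨0, by simp⟩
  | succ k ih =>
    obtain ⟨h, hh⟩ := ih
    refine ⟨h * (z - l) + (k + 1 : ℕ) * z ^ k, ?_⟩
    rw [pow_succ, hh]
    push_cast
    ring

private theorem BC1_ll {z : ℝ} (hz : 0 ≤ z) (h : ArithmeticFunction ℝ) (n : ℕ)
    (hn : (n : ℝ) ≤ z ^ 2) : (BC1_l z ^ 2 * h) n = 0 := by
  have h1 : ∀ n : ℕ, (n : ℝ) ≤ z ^ 2 → (BC1_l z ^ 2) n = 0 := by
    intro n hn
    rw [sq, ArithmeticFunction.mul_apply]
    refine Finset.sum_eq_zero fun p hp => ?_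
    obtain ⟨hp1, hp2⟩ := Nat.mem_divisorsAntidiagonal.1 hp
    by_cases h2 : z < (p.1 : ℝ)
    · by_cases h3 : z < (p.2 : ℝ)
      · exfalso
        rw [← hp1] at hn
        push_cast at hn
        nlinarith
      · have : BC1_l z p.2 = 0 := by
          change (if p.2 ≠ 0 ∧ z < (p.2 : ℝ) then (1 : ℝ) else 0) = 0
          rw [if_neg fun h4 => h3 h4.2]
        rw [this, mul_zero]
    · have : BC1_l z p.1 = 0 := by
        change (if p.1 ≠ 0 ∧ z < (p.1 : ℝ) then (1 : ℝ) else 0) = 0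
        rw [if_neg fun h4 => h2 h4.2]
      rw [this, zero_mul]
  rw [ArithmeticFunction.mul_apply]
  refine Finset.sum_eq_zero fun p hp => ?_
  obtain ⟨hp1, hp2⟩ := Nat.mem_divisorsAntidiagonal.1 hp
  rw [h1 p.1, zero_mul]
  refine le_trans ?_ hn
  have h3 : p.1 ≤ n := by
    rw [← hp1]
    exact Nat.le_mul_of_pos_right _ (Nat.pos_of_ne_zero fun h4 => hp2 (by rw [← hp1, h4, mul_zero]))
  exact_mod_cast h3

private theorem BC1_sum (s : Finset ℕ) (f : ℕ → ArithmeticFunction ℝ) (n : ℕ) :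
    (∑ i ∈ s, f i) n = ∑ i ∈ s, f i n := by
  classical
  induction s using Finset.induction_on with
  | empty => rfl
  | insert a s ha ih =>
    rw [Finset.sum_insert ha, Finset.sum_insert ha, ArithmeticFunction.add_apply, ih]

private theorem BC1_dk (k n : ℕ) : dk k n = (BC1_z ^ k) n := by
  have h1 : ∀ k, ((((ArithmeticFunction.zeta : ArithmeticFunction ℕ) ^ k : ArithmeticFunction ℕ) :
      ArithmeticFunction ℝ)) = BC1_z ^ k := by
    intro k
    induction k with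
    | zero =>
      rw [pow_zero, pow_zero]
      exact ArithmeticFunction.natCoe_one
    | succ k ih =>
      rw [pow_succ, pow_succ, ArithmeticFunction.natCoe_mul, ih]
      congr 1
      ext n
      rw [ArithmeticFunction.natCoe_apply, ArithmeticFunction.zeta_apply]
      change _ = (if n ≠ 0 then (1 : ℝ) else 0)
      by_cases h : n = 0
      · simp [h]
      · simp [h]
  rw [← h1 k]
  rfl

/-- **BC1.** The combinatorial decomposition. With `1 = s + m + l` (parts `≤ z1`, in `(z1,z2]`,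
`> z2`): `ζ^k = (s+m)^k + k l ζ^{k-1}` up to `n ≤ z2²`, `(s+m)^k = s^k + ∑ s^i m (s+m)^{k-1-i}`, and
`s^k = ∑_r q_r s^{k-r} + p_k` with `q_r` = prefix products that leave `[1,z1]` at step `r`. -/
theorem dk_decomp {k : ℕ} (hk : 1 ≤ k) {z1 z2 : ℝ} (h1 : 1 ≤ z1) (h2 : z1 ^ 2 ≤ z2) :
    ∃ α β : Fin (2 * k) → ℕ → ℝ,
      (∀ i n, |α i n| ≤ dk k n ∧ |β i n| ≤ dk k n) ∧
      (∀ i n, α i n ≠ 0 → z1 < n ∧ (n : ℝ) ≤ z2) ∧
      ∀ n : ℕ, z1 < n → (n : ℝ) ≤ z2 ^ 2 →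
        dk k n = ∑ i, ∑ p ∈ n.divisorsAntidiagonal, α i p.1 * β i p.2 +
          k * ∑ p ∈ n.divisorsAntidiagonal, if z2 < (p.1 : ℝ) then dk (k - 1) p.2 else 0 := by
  have hz2 : 0 ≤ z2 := by nlinarith
  set s := BC1_s z1 with hs
  set m := BC1_m z1 z2 with hm
  set z := BC1_z with hz
  set l := BC1_l z2 with hl
  have hzl : z - l = s + m := by
    ext n
    change (if n ≠ 0 then (1 : ℝ) else 0) - (if n ≠ 0 ∧ z2 < (n : ℝ) then (1 : ℝ) else 0) =
      (if n ≠ 0 ∧ (n : ℝ) ≤ z1 then (1 : ℝ) else 0) +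
      (if n ≠ 0 ∧ z1 < (n : ℝ) ∧ (n : ℝ) ≤ z2 then (1 : ℝ) else 0)
    have h12 : z1 ≤ z2 := by nlinarith
    by_cases h : n = 0
    · simp [h]
    · by_cases h3 : (n : ℝ) ≤ z1
      · have h4 : ¬ z1 < (n : ℝ) := not_lt.2 h3
        have h5 : ¬ z2 < (n : ℝ) := not_lt.2 (h3.trans h12)
        simp [h, h3, h4, h5]
      · have h4 : z1 < (n : ℝ) := not_le.1 h3
        by_cases h5 : (n : ℝ) ≤ z2
        · have h6 : ¬ z2 < (n : ℝ) := not_lt.2 h5
          simp [h, h3, h4, h5, h6]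
        · have h6 : z2 < (n : ℝ) := not_le.1 h5
          simp [h, h3, h4, h5, h6]
  set A : ℕ → ArithmeticFunction ℝ := fun i => if i < k then m else BC1_q z1 (i - k) with hA
  set B : ℕ → ArithmeticFunction ℝ := fun i => if i < k then s ^ i * (s + m) ^ (k - 1 - i) else
    s ^ (k - 1 - (i - k)) with hB
  refine ⟨fun i n => A i n, fun i n => B i n, ?_, ?_, ?_⟩
  · intro i n
    have hAi : BC1_Le (A i) (z ^ k) := by
      change BC1_Le (if (i : ℕ) < k then m else BC1_q z1 (i - k)) (z ^ k)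
      split_ifs with h
      · have := (BC1_mz z1 z2).pow 1
        rw [pow_one] at this
        exact this.trans (BC1_mono hk)
      · exact (BC1_qz z1 _).trans (BC1_mono (by omega))
    have hBi : BC1_Le (B i) (z ^ k) := by
      change BC1_Le (if (i : ℕ) < k then s ^ (i : ℕ) * (s + m) ^ (k - 1 - i) else
        s ^ (k - 1 - (i - k))) (z ^ k)
      split_ifs with h
      · have := ((BC1_sz z1).pow i).mul ((BC1_smz z1 z2).pow (k - 1 - i))
        rw [← pow_add] at this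
        exact this.trans (BC1_mono (by omega))
      · exact ((BC1_sz z1).pow _).trans (BC1_mono (by omega))
    rw [BC1_dk]
    change |A i n| ≤ _ ∧ |B i n| ≤ _
    rw [abs_of_nonneg (hAi n).1, abs_of_nonneg (hBi n).1]
    exact ⟨(hAi n).2, (hBi n).2⟩
  · intro i n hn
    change (if (i : ℕ) < k then m else BC1_q z1 (i - k)) n ≠ 0 at hn
    split_ifs at hn with h
    · change (if n ≠ 0 ∧ z1 < (n : ℝ) ∧ (n : ℝ) ≤ z2 then (1 : ℝ) else 0) ≠ 0 at hn
      by_contra h3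
      exact hn (if_neg fun h4 => h3 h4.2)
    · obtain ⟨h3, h4⟩ := BC1_q_supp h1 _ _ hn
      exact ⟨h3, h4.trans h2⟩
  · intro n hn1 hn2
    have hconv : ∀ f g : ArithmeticFunction ℝ, ∑ p ∈ n.divisorsAntidiagonal, f p.1 * g p.2 =
        (f * g) n := fun f g => (ArithmeticFunction.mul_apply).symm
    have e1 : ∑ i : Fin (2 * k), ∑ p ∈ n.divisorsAntidiagonal, A i p.1 * B i p.2 =
        (∑ i ∈ Finset.range (2 * k), A i * B i) n := by
      rw [BC1_sum, Finset.sum_range]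
      exact Finset.sum_congr rfl fun i _ => hconv _ _
    have e2 : ∑ i ∈ Finset.range (2 * k), A i * B i = (s + m) ^ k - BC1_p z1 k := by
      rw [two_mul, Finset.sum_range_add]
      have e3 : ∑ i ∈ Finset.range k, A i * B i =
          ∑ i ∈ Finset.range k, m * (s ^ i * (s + m) ^ (k - 1 - i)) := by
        refine Finset.sum_congr rfl fun i hi => ?_
        rw [Finset.mem_range] at hi
        change (if i < k then m else _) * (if i < k then _ else _) = _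
        rw [if_pos hi, if_pos hi]
      have e4 : ∑ i ∈ Finset.range k, A (k + i) * B (k + i) =
          ∑ i ∈ Finset.range k, BC1_q z1 i * s ^ (k - 1 - i) := by
        refine Finset.sum_congr rfl fun i hi => ?_
        change (if k + i < k then m else BC1_q z1 (k + i - k)) *
          (if k + i < k then _ else s ^ (k - 1 - (k + i - k))) = _
        rw [if_neg (by omega), if_neg (by omega), Nat.add_sub_cancel_left]
      have e5 := BC1_s_pow (z := z1) k k le_rfl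
      rw [Nat.sub_self, pow_zero, mul_one] at e5
      rw [e3, e4, BC1_tel s m k, e5]
      ring
    have e6 : ∑ p ∈ n.divisorsAntidiagonal, (if z2 < (p.1 : ℝ) then dk (k - 1) p.2 else 0) =
        (l * z ^ (k - 1)) n := by
      rw [← hconv]
      refine Finset.sum_congr rfl fun p hp => ?_
      obtain ⟨hp1, hp2⟩ := Nat.mem_divisorsAntidiagonal.1 hp
      have hp0 : p.1 ≠ 0 := fun h3 => hp2 (by rw [← hp1, h3, zero_mul])
      change _ = (if p.1 ≠ 0 ∧ z2 < (p.1 : ℝ) then (1 : ℝ) else 0) * _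
      rw [BC1_dk]
      by_cases h3 : z2 < (p.1 : ℝ)
      · rw [if_pos h3, if_pos ⟨hp0, h3⟩, one_mul]
      · rw [if_neg h3, if_neg fun h4 => h3 h4.2, zero_mul]
    obtain ⟨j, rfl⟩ : ∃ j, k = j + 1 := ⟨k - 1, by omega⟩
    obtain ⟨h, hh⟩ := BC1_sub z l j
    rw [hzl] at hh
    have e7 : z ^ (j + 1) = ((s + m) ^ (j + 1) - BC1_p z1 (j + 1)) +
        (((j + 1 : ℕ) : ArithmeticFunction ℝ) * (l * z ^ j)) + BC1_p z1 (j + 1) -
          l ^ 2 * h := by
      rw [hh]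
      ring
    have e8 : (((j + 1 : ℕ) : ArithmeticFunction ℝ) * (l * z ^ j)) n =
        ((j + 1 : ℕ) : ℝ) * (l * z ^ j) n := by
      rw [← nsmul_eq_mul]
      have : ∀ (t : ℕ) (f : ArithmeticFunction ℝ), (t • f) n = (t : ℝ) * f n := by
        intro t f
        induction t with
        | zero => simp
        | succ t ih =>
          rw [succ_nsmul, ArithmeticFunction.add_apply, ih]
          push_cast
          ring
      exact this _ _
    change dk (j + 1) n = ∑ i : Fin (2 * (j + 1)), ∑ p ∈ n.divisorsAntidiagonal,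
      A i p.1 * B i p.2 + _
    rw [e1, e2, e6, BC1_dk]
    have e9 : (z ^ (j + 1)) n = ((s + m) ^ (j + 1) - BC1_p z1 (j + 1)) n +
        (((j + 1 : ℕ) : ArithmeticFunction ℝ) * (l * z ^ j)) n + BC1_p z1 (j + 1) n -
          (l ^ 2 * h) n := by
      conv_lhs => rw [e7]
      rfl
    rw [e9, BC1_ll hz2 h n hn2, BC1_p_supp h1 _ _ hn1, e8, Nat.add_sub_cancel]
    ring
--END BC1

--BEGIN BC2
private theorem BC2_abel (u v : ℕ → ℂ) {M N : ℕ} (hMN : M ≤ N) {S U D : ℝ} (hD0 : 0 ≤ D)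
    (hS : ∀ N', M ≤ N' → N' ≤ N → ‖∑ n ∈ Finset.Icc M N', v n‖ ≤ S) (hU : ‖u N‖ ≤ U)
    (hD : ∀ n, M ≤ n → n < N → ‖u (n + 1) - u n‖ ≤ D) :
    ‖∑ n ∈ Finset.Icc M N, u n * v n‖ ≤ (U + ((N - M : ℕ) : ℝ) * D) * S := by
  have key : ∀ N, M ≤ N → ∑ n ∈ Finset.Icc M N, u n * v n = u N * ∑ n ∈ Finset.Icc M N, v n -
      ∑ n ∈ Finset.Ico M N, (u (n + 1) - u n) * ∑ j ∈ Finset.Icc M n, v j := by
    intro N hN
    induction N, hN using Nat.le_induction with
    | base => simp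
    | succ N hN ih =>
      rw [Finset.sum_Icc_succ_top (by omega), ih, Finset.sum_Icc_succ_top (by omega),
        Finset.sum_Ico_succ_top hN]
      ring
  have hS0 : 0 ≤ S := (norm_nonneg _).trans (hS M le_rfl hMN)
  rw [key N hMN]
  refine (norm_sub_le _ _).trans ?_
  have h1 : ‖u N * ∑ n ∈ Finset.Icc M N, v n‖ ≤ U * S := by
    rw [norm_mul]
    exact mul_le_mul hU (hS N hMN le_rfl) (norm_nonneg _) ((norm_nonneg _).trans hU)
  have h2 : ‖∑ n ∈ Finset.Ico M N, (u (n + 1) - u n) * ∑ j ∈ Finset.Icc M n, v j‖ ≤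
      ((N - M : ℕ) : ℝ) * (D * S) := by
    refine (norm_sum_le_of_le _ (f := fun n => (u (n + 1) - u n) * ∑ j ∈ Finset.Icc M n, v j)
      (n := fun _ => D * S) ?_).trans ?_
    · intro n hn
      rw [Finset.mem_Ico] at hn
      rw [norm_mul]
      exact mul_le_mul (hD n hn.1 hn.2) (hS n hn.1 hn.2.le) (norm_nonneg _) hD0
    · rw [Finset.sum_const, Nat.card_Ico, nsmul_eq_mul]
  linarith

private theorem BC2_cast (F : ℤ → ℂ) (M N : ℕ) :
    ∑ n ∈ Finset.Icc (M : ℤ) N, F n = ∑ n ∈ Finset.Icc M N, F (n : ℤ) := by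
  symm
  refine Finset.sum_bij (fun n _ => (n : ℤ)) ?_ ?_ ?_ ?_
  · intro n hn
    rw [Finset.mem_Icc] at hn ⊢
    omega
  · intro a _ b _ hab
    exact_mod_cast hab
  · intro n hn
    rw [Finset.mem_Icc] at hn
    refine ⟨n.toNat, ?_, ?_⟩
    · rw [Finset.mem_Icc]
      omega
    · omega
  · intro n _
    rfl

/-- second derivative of the phase -/
private theorem BC2_ph2 {k : ℕ} (hk : 4 ≤ k) {l0 : ℝ} (hl0 : 0 < l0) {T l κ' x : ℝ}
    (hT : 2 ≤ T) (hT2 : 2 * (4 / l0) ^ 4 ≤ T) (hl : l0 ≤ |l|) (hκ : |κ'| ≤ k)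
    (hx1 : T / 2 ≤ x) (hx2 : x ≤ 4 * T) {D : ℝ}
    (hD : D = -(l / 2) * x ^ (-(3 / 2) : ℝ) + κ' / k * (1 / k - 1) * x ^ (1 / (k : ℝ) - 2)) :
    (0 ≤ l → |l| * T ^ (-(3 / 2) : ℝ) / 32 ≤ -D ∧ -D ≤ 3 * (|l| * T ^ (-(3 / 2) : ℝ))) ∧
    (l ≤ 0 → |l| * T ^ (-(3 / 2) : ℝ) / 32 ≤ D ∧ D ≤ 3 * (|l| * T ^ (-(3 / 2) : ℝ))) := by
  have hk0 : (0 : ℝ) < k := by
    have : 0 < k := by omega
    exact_mod_cast this
  have hk4 : (4 : ℝ) ≤ k := by exact_mod_cast hk
  have hx : 1 ≤ x := by linarith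
  have hx0 : 0 < x := by linarith
  have hT0 : 0 < T := by linarith
  set P := x ^ (-(3 / 2) : ℝ) with hP
  have hP0 : 0 < P := Real.rpow_pos_of_pos hx0 _
  -- the second term
  have h1 : |κ' / k * (1 / k - 1) * x ^ (1 / (k : ℝ) - 2)| ≤ (|l| / 4) * P := by
    have e1 : |κ' / k * (1 / k - 1)| ≤ 1 := by
      rw [abs_mul, abs_div, abs_of_pos hk0]
      have a1 : |κ'| / k ≤ 1 := (div_le_one hk0).2 hκ
      have a2 : |1 / (k : ℝ) - 1| ≤ 1 := by
        rw [abs_le]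
        constructor
        · have : 0 < 1 / (k : ℝ) := by positivity
          linarith
        · have : 1 / (k : ℝ) ≤ 1 := by
            rw [div_le_one hk0]
            linarith
          linarith
      exact mul_le_one₀ a1 (abs_nonneg _) a2
    have e2 : x ^ (1 / (k : ℝ) - 2) ≤ x ^ (-(7 / 4) : ℝ) := by
      apply Real.rpow_le_rpow_of_exponent_le hx
      have : 1 / (k : ℝ) ≤ 1 / 4 := one_div_le_one_div_of_le (by norm_num) hk4
      linarith
    have e3 : x ^ (-(7 / 4) : ℝ) = x ^ (-(1 / 4) : ℝ) * P := by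
      rw [hP, ← Real.rpow_add hx0]
      norm_num
    have e4 : x ^ (-(1 / 4) : ℝ) ≤ l0 / 4 := by
      have a1 : (4 / l0) ^ 4 ≤ x := by linarith
      have a2 : ((4 / l0) ^ 4) ^ (1 / 4 : ℝ) ≤ x ^ (1 / 4 : ℝ) :=
        Real.rpow_le_rpow (by positivity) a1 (by norm_num)
      have a3 : ((4 / l0) ^ 4) ^ (1 / 4 : ℝ) = 4 / l0 := by
        rw [← Real.rpow_natCast, ← Real.rpow_mul (by positivity)]
        norm_num
      rw [a3] at a2
      rw [Real.rpow_neg hx0.le]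
      have a4 : 0 < 4 / l0 := by positivity
      calc (x ^ (1 / 4 : ℝ))⁻¹ ≤ (4 / l0)⁻¹ := inv_anti₀ a4 a2
        _ = l0 / 4 := by rw [inv_div]
    rw [abs_mul, abs_of_pos (Real.rpow_pos_of_pos hx0 _)]
    calc |κ' / k * (1 / k - 1)| * x ^ (1 / (k : ℝ) - 2) ≤ 1 * x ^ (-(7 / 4) : ℝ) :=
          mul_le_mul e1 e2 (Real.rpow_nonneg hx0.le _) zero_le_one
      _ = x ^ (-(1 / 4) : ℝ) * P := by rw [one_mul, e3]
      _ ≤ (|l| / 4) * P := by
          apply mul_le_mul_of_nonneg_right _ hP0.le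
          linarith
  -- P against T
  have hP1 : T ^ (-(3 / 2) : ℝ) / 8 ≤ P := by
    have a1 : (4 * T) ^ (-(3 / 2) : ℝ) ≤ P :=
      Real.rpow_le_rpow_of_nonpos hx0 hx2 (by norm_num)
    have a2 : (4 * T) ^ (-(3 / 2) : ℝ) = T ^ (-(3 / 2) : ℝ) / 8 := by
      rw [Real.mul_rpow (by norm_num) hT0.le]
      have : (4 : ℝ) ^ (-(3 / 2) : ℝ) = 1 / 8 := by
        rw [show (4 : ℝ) = 2 ^ (2 : ℝ) by norm_num, ← Real.rpow_mul (by norm_num)]
        norm_num
      rw [this]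
      ring
    linarith
  have hP2 : P ≤ 4 * T ^ (-(3 / 2) : ℝ) := by
    have a1 : P ≤ (T / 2) ^ (-(3 / 2) : ℝ) :=
      Real.rpow_le_rpow_of_nonpos (by linarith) hx1 (by norm_num)
    have a2 : (T / 2) ^ (-(3 / 2) : ℝ) = T ^ (-(3 / 2) : ℝ) * 2 ^ (3 / 2 : ℝ) := by
      rw [Real.div_rpow hT0.le (by norm_num), Real.rpow_neg (by norm_num : (0 : ℝ) ≤ 2),
        div_inv_eq_mul]
    have a3 : (2 : ℝ) ^ (3 / 2 : ℝ) ≤ 4 := by
      calc (2 : ℝ) ^ (3 / 2 : ℝ) ≤ 2 ^ (2 : ℝ) :=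
            Real.rpow_le_rpow_of_exponent_le (by norm_num) (by norm_num)
        _ = 4 := by norm_num
    have a4 : 0 ≤ T ^ (-(3 / 2) : ℝ) := Real.rpow_nonneg hT0.le _
    rw [a2, mul_comm] at a1
    exact a1.trans (mul_le_mul_of_nonneg_right a3 a4)
  have hTp : 0 ≤ T ^ (-(3 / 2) : ℝ) := Real.rpow_nonneg hT0.le _
  have habs := abs_le.1 h1
  have hl1 : 0 ≤ |l| := abs_nonneg l
  have q1 : |l| * (T ^ (-(3 / 2) : ℝ) / 8) ≤ |l| * P := mul_le_mul_of_nonneg_left hP1 hl1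
  have q2 : |l| * P ≤ |l| * (4 * T ^ (-(3 / 2) : ℝ)) := mul_le_mul_of_nonneg_left hP2 hl1
  constructor
  · intro hl2
    rw [abs_of_nonneg hl2] at *
    subst hD
    constructor
    · linarith [habs.2]
    · linarith [habs.1]
  · intro hl2
    rw [abs_of_nonpos hl2] at *
    subst hD
    constructor
    · linarith [habs.1]
    · linarith [habs.2]

/-- **BC2.** Type I: one smooth variable `> z2`. -/
theorem type_one {k : ℕ} (hk : 4 ≤ k) {l0 C0 : ℝ} (hl0 : 0 < l0) (hC0 : 0 < C0) :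
    ∃ C T0 : ℝ, 0 < C ∧ 1 ≤ T0 ∧
    ∀ (T X l κ' z2 : ℝ) (a : ℝ → ℂ) (q : ℕ), T0 ≤ T → 1 ≤ X → X ≤ T → l0 ≤ |l| → |κ'| ≤ k →
      Amp T X C0 a → 1 ≤ q → 1 ≤ z2 →
      ‖∑ n ∈ Finset.Icc 1 ⌊4 * T⌋₊, if z2 < (n : ℝ) then a (n * q) * e (ph k l κ' (n * q)) else 0‖ ≤
      C * (T / X) * (|l| ^ (1 / 2 : ℝ) * T ^ (1 / 4 : ℝ) + T ^ (3 / 4 : ℝ) / q + 1) := by
  obtain ⟨C1, hC1, hBA⟩ := second_deriv (A := 96) (by norm_num)
  set c0 : ℝ := (l0 ^ (1 / 2 : ℝ))⁻¹ with hc0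
  have hl0r : 0 < l0 ^ (1 / 2 : ℝ) := Real.rpow_pos_of_pos hl0 _
  have hc0p : 0 < c0 := inv_pos.2 hl0r
  refine ⟨(C0 * 5) * (C1 * (4 + 6 * c0)), max 2 (2 * (4 / l0) ^ 4), by positivity,
    le_trans (by norm_num) (le_max_left _ _), ?_⟩
  intro T X l κ' z2 a q hT hX hXT hl hκ ha hq hz
  have hT2 : 2 ≤ T := (le_max_left _ _).trans hT
  have hT3 : 2 * (4 / l0) ^ 4 ≤ T := (le_max_right _ _).trans hT
  have hT0 : 0 < T := by linarith
  have hX0 : 0 < X := by linarith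
  have hq0 : (0 : ℝ) < q := by exact_mod_cast hq
  have hq1 : (1 : ℝ) ≤ q := by exact_mod_cast hq
  have hTX : 1 ≤ T / X := (one_le_div hX0).2 hXT
  have hl1 : 0 < |l| := hl0.trans_le hl
  set M0 : ℕ := max (⌊z2⌋₊ + 1) ⌈T / (2 * q)⌉₊ with hM0
  set N0 : ℕ := ⌊4 * T / q⌋₊ with hN0
  have hN0' : (N0 : ℝ) ≤ 4 * T / q := Nat.floor_le (by positivity)
  have hsum : ∑ n ∈ Finset.Icc 1 ⌊4 * T⌋₊,
      (if z2 < (n : ℝ) then a (n * q) * e (ph k l κ' (n * q)) else 0) =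
      ∑ n ∈ Finset.Icc M0 N0, a (n * q) * e (ph k l κ' (n * q)) := by
    refine (Finset.sum_subset (s₁ := Finset.Icc M0 N0) ?_ ?_).symm.trans
      (Finset.sum_congr rfl fun n hn => ?_)
    · intro n hn
      rw [Finset.mem_Icc] at hn ⊢
      constructor
      · have h1 : ⌊z2⌋₊ + 1 ≤ n := (le_max_left _ _).trans hn.1
        omega
      · refine hn.2.trans (Nat.floor_mono ?_)
        exact div_le_self (by linarith) hq1
    · intro n hn hn2
      split_ifs with h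
      · have h1 : ⌊z2⌋₊ + 1 ≤ n := by
          have := (Nat.floor_lt (by linarith)).2 h
          omega
        have h2 : (n : ℝ) * q ∉ Icc (T / 2) (4 * T) := by
          rintro ⟨h3, h4⟩
          apply hn2
          rw [Finset.mem_Icc]
          constructor
          · refine max_le h1 (Nat.ceil_le.2 ?_)
            rw [div_le_iff₀ (by positivity)]
            linarith
          · refine Nat.le_floor ?_
            rw [le_div_iff₀ hq0]
            exact h4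
        rw [ha.supp _ h2, zero_mul]
      · rfl
    · rw [Finset.mem_Icc] at hn
      rw [if_pos]
      have h1 : ⌊z2⌋₊ + 1 ≤ n := (le_max_left _ _).trans hn.1
      exact (Nat.floor_lt (by linarith)).1 (by omega)
  rw [hsum]
  have hT34 : 0 ≤ T ^ (3 / 4 : ℝ) := Real.rpow_nonneg hT0.le _
  have hT14 : 0 ≤ T ^ (1 / 4 : ℝ) := Real.rpow_nonneg hT0.le _
  have hl12 : 0 ≤ |l| ^ (1 / 2 : ℝ) := Real.rpow_nonneg hl1.le _
  have hR : 0 ≤ |l| ^ (1 / 2 : ℝ) * T ^ (1 / 4 : ℝ) + T ^ (3 / 4 : ℝ) / q + 1 := by positivity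
  rcases Nat.lt_or_ge N0 M0 with hMN | hMN
  · rw [Finset.Icc_eq_empty (by omega), Finset.sum_empty, norm_zero]
    positivity
  · -- the bound for the partial sums
    have hM1 : ⌈T / (2 * q)⌉₊ ≤ M0 := le_max_right _ _
    have hM0' : T / (2 * q) ≤ M0 := (Nat.le_ceil _).trans (Nat.cast_le.2 hM1)
    set S : ℝ := C1 * (4 + 6 * c0) *
      (|l| ^ (1 / 2 : ℝ) * T ^ (1 / 4 : ℝ) + T ^ (3 / 4 : ℝ) / q + 1) with hS
    have hrange : ∀ u : ℝ, (M0 : ℝ) ≤ u → u ≤ N0 → T / 2 ≤ u * q ∧ u * q ≤ 4 * T := by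
      intro u h1 h2
      constructor
      · have := hM0'.trans h1
        rw [div_le_iff₀ (by positivity)] at this
        linarith
      · have := h2.trans hN0'
        rwa [le_div_iff₀ hq0] at this
    have hSb : ∀ N', M0 ≤ N' → N' ≤ N0 →
        ‖∑ n ∈ Finset.Icc M0 N', e (ph k l κ' (n * q))‖ ≤ S := by
      intro N' h1 h2
      set Λ : ℝ := q ^ 2 * (|l| * T ^ (-(3 / 2) : ℝ) / 32) with hΛ
      have hT32 : 0 < T ^ (-(3 / 2) : ℝ) := Real.rpow_pos_of_pos hT0 _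
      have hΛ0 : 0 < Λ := by positivity
      have hu : ∀ u ∈ Icc ((M0 : ℤ) : ℝ) ((N' : ℤ) : ℝ), T / 2 ≤ u * q ∧ u * q ≤ 4 * T := by
        intro u hu
        obtain ⟨a1, a2⟩ := hu
        push_cast at a1 a2
        exact hrange u a1 (a2.trans (by exact_mod_cast h2))
      have hmain := hBA (M0 : ℤ) (N' : ℤ) (fun u => ph k l κ' (u * q))
        (fun u => (l / √(u * q) + κ' / k * (u * q) ^ (1 / (k : ℝ) - 1)) * q)
        (fun u => (-(l / 2) * (u * q) ^ (-(3 / 2) : ℝ) +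
          κ' / k * (1 / k - 1) * (u * q) ^ (1 / (k : ℝ) - 2)) * q * q) Λ (by exact_mod_cast h1) hΛ0
        (by
          intro u huI
          have h3 : 0 < u * q := by linarith [(hu u huI).1]
          have h4 := (ph_deriv k hk l κ' h3).1
          have h5 : HasDerivAt (fun u : ℝ => u * (q : ℝ)) q u := by
            simpa using (hasDerivAt_id u).mul_const (q : ℝ)
          exact h4.comp u h5)
        (by
          intro u huI
          have h3 : 0 < u * q := by linarith [(hu u huI).1]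
          have h4 := (ph_deriv k hk l κ' h3).2
          have h5 : HasDerivAt (fun u : ℝ => u * (q : ℝ)) q u := by
            simpa using (hasDerivAt_id u).mul_const (q : ℝ)
          exact (h4.comp u h5).mul_const _)
        (by
          have hqq : (0 : ℝ) < q ^ 2 := by positivity
          rcases le_total 0 l with hls | hls
          · right
            intro u huI
            obtain ⟨h3, h4⟩ := hu u huI
            obtain ⟨h5, h6⟩ := (BC2_ph2 hk hl0 hT2 hT3 hl hκ h3 h4 rfl).1 hls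
            constructor
            · rw [hΛ]
              linarith [mul_le_mul_of_nonneg_left h5 hqq.le]
            · rw [hΛ]
              linarith [mul_le_mul_of_nonneg_left h6 hqq.le]
          · left
            intro u huI
            obtain ⟨h3, h4⟩ := hu u huI
            obtain ⟨h5, h6⟩ := (BC2_ph2 hk hl0 hT2 hT3 hl hκ h3 h4 rfl).2 hls
            constructor
            · nlinarith
            · nlinarith)
      have hcast := BC2_cast (fun n : ℤ => e (ph k l κ' ((n : ℝ) * q))) M0 N'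
      simp only [Int.cast_natCast] at hcast
      have hmain2 : ‖∑ n ∈ Finset.Icc M0 N', e (ph k l κ' (n * q))‖ ≤
          C1 * (((N' : ℝ) - M0) * √Λ + 1 / √Λ + 1) := by
        rw [← hcast]
        simpa using hmain
      refine hmain2.trans ?_
      rw [hS, mul_assoc]
      apply mul_le_mul_of_nonneg_left _ hC1.le
      -- the square root of Λ
      have hsq : √Λ = q * |l| ^ (1 / 2 : ℝ) * T ^ (-(3 / 4) : ℝ) / √32 := by
        rw [hΛ, show (q : ℝ) ^ 2 * (|l| * T ^ (-(3 / 2) : ℝ) / 32) =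
          (q * |l| ^ (1 / 2 : ℝ) * T ^ (-(3 / 4) : ℝ)) ^ 2 / 32 by
            have a1 : (|l| ^ (1 / 2 : ℝ)) ^ 2 = |l| := by
              rw [← Real.rpow_natCast, ← Real.rpow_mul hl1.le]
              norm_num
            have a2 : (T ^ (-(3 / 4) : ℝ)) ^ 2 = T ^ (-(3 / 2) : ℝ) := by
              rw [← Real.rpow_natCast, ← Real.rpow_mul hT0.le]
              norm_num
            rw [mul_pow, mul_pow, a1, a2]
            ring]
        rw [Real.sqrt_div (by positivity), Real.sqrt_sq (by positivity)]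
      have h32 : 1 ≤ √(32 : ℝ) := by
        rw [Real.one_le_sqrt]
        norm_num
      have h32' : √(32 : ℝ) ≤ 6 := by
        rw [Real.sqrt_le_left (by norm_num)]
        norm_num
      have hTm : 0 < T ^ (-(3 / 4) : ℝ) := Real.rpow_pos_of_pos hT0 _
      have hl12' : 0 < |l| ^ (1 / 2 : ℝ) := Real.rpow_pos_of_pos hl1 _
      have hT34' : 0 < T ^ (3 / 4 : ℝ) := Real.rpow_pos_of_pos hT0 _
      have b1 : ((N' : ℝ) - M0) * √Λ ≤ 4 * (|l| ^ (1 / 2 : ℝ) * T ^ (1 / 4 : ℝ)) := by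
        have c1 : (N' : ℝ) - M0 ≤ 4 * T / q := by
          have c2 : (N' : ℝ) ≤ N0 := by exact_mod_cast h2
          have c3 : (0 : ℝ) ≤ M0 := Nat.cast_nonneg _
          linarith
        have c2 : √Λ ≤ q * |l| ^ (1 / 2 : ℝ) * T ^ (-(3 / 4) : ℝ) := by
          rw [hsq]
          exact div_le_self (by positivity) h32
        have c3 : T * T ^ (-(3 / 4) : ℝ) = T ^ (1 / 4 : ℝ) := by
          nth_rewrite 1 [← Real.rpow_one T]
          rw [← Real.rpow_add hT0]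
          norm_num
        calc ((N' : ℝ) - M0) * √Λ ≤ (4 * T / q) * (q * |l| ^ (1 / 2 : ℝ) * T ^ (-(3 / 4) : ℝ)) :=
              mul_le_mul c1 c2 (Real.sqrt_nonneg _) (by positivity)
          _ = 4 * (|l| ^ (1 / 2 : ℝ) * (T * T ^ (-(3 / 4) : ℝ))) := by
              field_simp
          _ = _ := by rw [c3]
      have b2 : 1 / √Λ ≤ 6 * c0 * (T ^ (3 / 4 : ℝ) / q) := by
        rw [hsq, one_div, inv_div]
        have c1 : T ^ (-(3 / 4) : ℝ) = (T ^ (3 / 4 : ℝ))⁻¹ := Real.rpow_neg hT0.le _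
        have c2 : (|l| ^ (1 / 2 : ℝ))⁻¹ ≤ c0 :=
          inv_anti₀ hl0r (Real.rpow_le_rpow hl0.le hl (by norm_num))
        calc √32 / (q * |l| ^ (1 / 2 : ℝ) * T ^ (-(3 / 4) : ℝ)) =
              √32 * (|l| ^ (1 / 2 : ℝ))⁻¹ * (T ^ (3 / 4 : ℝ) / q) := by
              rw [c1]
              field_simp
          _ ≤ 6 * c0 * (T ^ (3 / 4 : ℝ) / q) := by
              apply mul_le_mul_of_nonneg_right _ (by positivity)
              exact mul_le_mul h32' c2 (by positivity) (by norm_num)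
      have b3 : 0 ≤ |l| ^ (1 / 2 : ℝ) * T ^ (1 / 4 : ℝ) := by positivity
      have b4 : 0 ≤ T ^ (3 / 4 : ℝ) / q := by positivity
      have b5 : 0 ≤ c0 * (|l| ^ (1 / 2 : ℝ) * T ^ (1 / 4 : ℝ)) := by positivity
      linarith
    -- Abel summation
    have hdiff : ∀ x, DifferentiableAt ℝ a x := fun x =>
      (ha.smooth.differentiable (by norm_num)) x
    have h1 := BC2_abel (fun n : ℕ => a (n * q)) (fun n : ℕ => e (ph k l κ' (n * q))) hMN
      (S := S) (U := C0) (D := C0 / X * q) (by positivity) hSb (ha.b0 _) (by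
        intro n _ _
        have h2 := Convex.norm_image_sub_le_of_norm_deriv_le (f := a) (C := C0 / X)
          (s := Set.univ) (x := (n : ℝ) * q) (y := ((n + 1 : ℕ) : ℝ) * q)
          (fun x _ => hdiff x) (fun x _ => ha.b1 x) convex_univ trivial trivial
        refine h2.trans (le_of_eq ?_)
        congr 1
        push_cast
        rw [show ((n : ℝ) + 1) * q - n * q = q by ring, Real.norm_of_nonneg hq0.le])
    refine h1.trans ?_
    have h2 : C0 + ((N0 - M0 : ℕ) : ℝ) * (C0 / X * q) ≤ C0 * 5 * (T / X) := by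
      have h3 : ((N0 - M0 : ℕ) : ℝ) ≤ 4 * T / q := by
        refine le_trans ?_ hN0'
        exact_mod_cast Nat.sub_le _ _
      have h4 : ((N0 - M0 : ℕ) : ℝ) * (C0 / X * q) ≤ 4 * T / q * (C0 / X * q) :=
        mul_le_mul_of_nonneg_right h3 (by positivity)
      have h5 : 4 * T / q * (C0 / X * q) = 4 * C0 * (T / X) := by
        field_simp
      have h6 := mul_le_mul_of_nonneg_left hTX hC0.le
      linarith
    have hS0 : 0 ≤ S := by positivity
    calc (C0 + ((N0 - M0 : ℕ) : ℝ) * (C0 / X * q)) * S ≤ (C0 * 5 * (T / X)) * S :=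
          mul_le_mul_of_nonneg_right h2 hS0
      _ = _ := by
        rw [hS]
        ring
--END BC2

--BEGIN BC3
private theorem BC3_conv (F : ℕ → ℕ → ℂ) (N : ℕ) (hF : ∀ d e : ℕ, N < d * e → F d e = 0) :
    ∑ n ∈ Finset.Icc 1 N, ∑ p ∈ n.divisorsAntidiagonal, F p.1 p.2 =
      ∑ d ∈ Finset.Icc 1 N, ∑ e ∈ Finset.Icc 1 N, F d e := by
  classical
  rw [← Finset.sum_product']
  set P := (Finset.Icc 1 N ×ˢ Finset.Icc 1 N).filter (fun p : ℕ × ℕ => p.1 * p.2 ≤ N) with hP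
  have h1 : ∑ p ∈ Finset.Icc 1 N ×ˢ Finset.Icc 1 N, F p.1 p.2 = ∑ p ∈ P, F p.1 p.2 := by
    symm
    refine Finset.sum_subset (Finset.filter_subset _ _) ?_
    intro p hp hp2
    refine hF _ _ ?_
    by_contra h
    exact hp2 (Finset.mem_filter.2 ⟨hp, not_lt.1 h⟩)
  rw [h1, ← Finset.sum_fiberwise_of_maps_to (s := P) (t := Finset.Icc 1 N)
    (g := fun p : ℕ × ℕ => p.1 * p.2)]
  · refine Finset.sum_congr rfl fun n hn => Finset.sum_congr ?_ fun _ _ => rfl
    rw [Finset.mem_Icc] at hn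
    ext p
    rw [Nat.mem_divisorsAntidiagonal, Finset.mem_filter, hP, Finset.mem_filter,
      Finset.mem_product, Finset.mem_Icc, Finset.mem_Icc]
    constructor
    · rintro ⟨h2, h3⟩
      have h4 : p.1 ≠ 0 := fun h4 => h3 (by rw [← h2, h4, zero_mul])
      have h5 : p.2 ≠ 0 := fun h5 => h3 (by rw [← h2, h5, mul_zero])
      have h6 : p.1 ≤ p.1 * p.2 := Nat.le_mul_of_pos_right _ (Nat.pos_of_ne_zero h5)
      have h7 : p.2 ≤ p.1 * p.2 := Nat.le_mul_of_pos_left _ (Nat.pos_of_ne_zero h4)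
      refine ⟨⟨⟨⟨Nat.pos_of_ne_zero h4, by omega⟩, ⟨Nat.pos_of_ne_zero h5, by omega⟩⟩, by omega⟩,
        h2⟩
    · rintro ⟨-, h2⟩
      exact ⟨h2, by omega⟩
  · intro p hp
    rw [hP, Finset.mem_filter, Finset.mem_product, Finset.mem_Icc, Finset.mem_Icc] at hp
    rw [Finset.mem_Icc]
    exact ⟨Nat.mul_pos (by omega) (by omega), hp.2⟩

private noncomputable def BC3_cut (N : ℕ) (α : ℕ → ℝ) (j d : ℕ) : ℝ :=
  if d ∈ Finset.Icc 1 N ∧ Nat.log 2 d = j then α d else 0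

private theorem BC3_dy (N : ℕ) (α : ℕ → ℝ) (H : ℕ → ℂ) :
    ∑ d ∈ Finset.Icc 1 N, (α d : ℂ) * H d = ∑ j ∈ Finset.range (Nat.log 2 N + 1),
      ∑ d ∈ Finset.Icc (2 ^ j) (2 * 2 ^ j), ((BC3_cut N α j d : ℝ) : ℂ) * H d := by
  classical
  have h1 : ∀ j, ∑ d ∈ Finset.Icc (2 ^ j) (2 * 2 ^ j), ((BC3_cut N α j d : ℝ) : ℂ) * H d =
      ∑ d ∈ Finset.Icc 1 N, if Nat.log 2 d = j then (α d : ℂ) * H d else 0 := by
    intro j
    have h2 : ∑ d ∈ Finset.Icc 1 N, (if Nat.log 2 d = j then (α d : ℂ) * H d else 0) =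
        ∑ d ∈ (Finset.Icc 1 N).filter (fun d => Nat.log 2 d = j), (α d : ℂ) * H d :=
      (Finset.sum_filter _ _).symm
    rw [h2]
    symm
    have h3 : (Finset.Icc 1 N).filter (fun d => Nat.log 2 d = j) ⊆
        Finset.Icc (2 ^ j) (2 * 2 ^ j) := by
      intro d hd
      rw [Finset.mem_filter, Finset.mem_Icc] at hd
      obtain ⟨⟨h4, h5⟩, h6⟩ := hd
      have h7 := Nat.pow_log_le_self 2 (x := d) (by omega)
      have h8 := Nat.lt_pow_succ_log_self (b := 2) (by norm_num) d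
      rw [h6] at h7 h8
      rw [Finset.mem_Icc]
      rw [Nat.pow_succ] at h8
      omega
    rw [← Finset.sum_subset h3]
    · refine Finset.sum_congr rfl fun d hd => ?_
      rw [Finset.mem_filter] at hd
      rw [BC3_cut, if_pos hd]
    · intro d _ hd2
      rw [Finset.mem_filter] at hd2
      rw [BC3_cut, if_neg hd2]
      simp
  rw [Finset.sum_congr rfl fun j _ => h1 j, Finset.sum_comm]
  refine Finset.sum_congr rfl fun d hd => ?_
  rw [Finset.mem_Icc] at hd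
  rw [Finset.sum_ite_eq, if_pos]
  rw [Finset.mem_range]
  have := Nat.log_mono_right (b := 2) hd.2
  omega

private theorem BC3_dk (k : ℕ) {ε : ℝ} (hε : 0 < ε) (hε1 : ε ≤ 1) : ∃ C : ℝ, 1 ≤ C ∧
    ∀ (T : ℝ) (n : ℕ), 1 ≤ T → (n : ℝ) ≤ 4 * T → dk k n ≤ C * T ^ ε := by
  obtain ⟨C, hC, h⟩ := dk_bound k hε
  refine ⟨4 * C + 1, by linarith, ?_⟩
  intro T n hT hn
  have hT0 : 0 < T := by linarith
  have hTe : 0 < T ^ ε := Real.rpow_pos_of_pos hT0 _
  rcases Nat.eq_zero_or_pos n with h0 | h0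
  · have : dk k n = 0 := by
      rw [h0]
      unfold dk
      simp
    rw [this]
    positivity
  · refine (h n h0).trans ?_
    have h1 : (n : ℝ) ^ ε ≤ 4 * T ^ ε := by
      calc (n : ℝ) ^ ε ≤ (4 * T) ^ ε := Real.rpow_le_rpow (Nat.cast_nonneg _) hn hε.le
        _ = 4 ^ ε * T ^ ε := Real.mul_rpow (by norm_num) hT0.le
        _ ≤ 4 * T ^ ε := by
          apply mul_le_mul_of_nonneg_right _ hTe.le
          calc (4 : ℝ) ^ ε ≤ 4 ^ (1 : ℝ) := Real.rpow_le_rpow_of_exponent_le (by norm_num) hε1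
            _ = 4 := Real.rpow_one _
    calc C * (n : ℝ) ^ ε ≤ C * (4 * T ^ ε) := mul_le_mul_of_nonneg_left h1 hC.le
      _ ≤ (4 * C + 1) * T ^ ε := by linarith

private theorem BC3_lg {ε : ℝ} (hε : 0 < ε) : ∃ C : ℝ, 1 ≤ C ∧
    ∀ T : ℝ, 1 ≤ T → 1 + Real.log (4 * T) ≤ C * T ^ ε := by
  refine ⟨3 + ε⁻¹, by linarith [inv_pos.2 hε], ?_⟩
  intro T hT
  have hT0 : 0 < T := by linarith
  have h1 : Real.log (4 * T) = Real.log 4 + Real.log T :=
    Real.log_mul (by norm_num) hT0.ne'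
  have h2 : Real.log 4 ≤ 2 := by
    have : Real.log 4 = 2 * Real.log 2 := by
      rw [show (4 : ℝ) = 2 ^ 2 by norm_num, Real.log_pow]
      norm_num
    rw [this]
    linarith [Real.log_two_lt_d9]
  have h3 : Real.log T ≤ T ^ ε / ε := Real.log_le_rpow_div hT0.le hε
  have h4 : 1 ≤ T ^ ε := Real.one_le_rpow hT hε.le
  rw [h1]
  have h5 : T ^ ε / ε = ε⁻¹ * T ^ ε := by rw [div_eq_inv_mul]
  rw [h5] at h3
  linarith

private theorem BC3_nl {N : ℕ} {T : ℝ} (hN : 1 ≤ N) (hNT : (N : ℝ) ≤ 4 * T) :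
    ((Nat.log 2 N + 1 : ℕ) : ℝ) ≤ 2 * (1 + Real.log (4 * T)) := by
  have h1 := Real.natLog_le_logb N 2
  have hN0 : (1 : ℝ) ≤ N := by exact_mod_cast hN
  have h2 : Real.logb ((2 : ℕ) : ℝ) N ≤ 2 * Real.log (4 * T) := by
    rw [Real.logb, div_le_iff₀ (by push_cast; exact Real.log_pos (by norm_num))]
    have h3 : Real.log N ≤ Real.log (4 * T) := Real.log_le_log (by linarith) hNT
    have h4 : 0 ≤ Real.log N := Real.log_nonneg hN0
    have h5 : (1 : ℝ) / 2 ≤ Real.log ((2 : ℕ) : ℝ) := by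
      push_cast
      linarith [Real.log_two_gt_d9]
    have h6 := mul_le_mul_of_nonneg_left h5 (h4.trans h3)
    obtain ⟨w, hw⟩ : ∃ w, w = Real.log ((2 : ℕ) : ℝ) := ⟨_, rfl⟩
    rw [← hw] at h6 ⊢
    linarith
  have h3 := h1.trans h2
  push_cast
  linarith

private theorem BC3_har (N : ℕ) {T : ℝ} (hN : 1 ≤ N) (hNT : (N : ℝ) ≤ 4 * T) :
    ∑ q ∈ Finset.Icc 1 N, (1 : ℝ) / q ≤ 1 + Real.log (4 * T) := by
  have h1 := harmonic_le_one_add_log N
  have h2 : ((harmonic N : ℚ) : ℝ) = ∑ q ∈ Finset.Icc 1 N, (1 : ℝ) / q := by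
    rw [harmonic_eq_sum_Icc]
    push_cast
    exact Finset.sum_congr rfl fun q _ => (one_div _).symm
  rw [← h2]
  refine h1.trans ?_
  have hN0 : (1 : ℝ) ≤ N := by exact_mod_cast hN
  have h3 : Real.log N ≤ Real.log (4 * T) := Real.log_le_log (by linarith) hNT
  linarith

private theorem BC3_e (x : ℝ) : ‖e x‖ = 1 := by
  unfold e
  rw [show 2 * (π : ℂ) * I * (x : ℂ) = ((2 * π * x : ℝ) : ℂ) * I by push_cast; ring]
  exact Complex.norm_exp_ofReal_mul_I _

private theorem BC3_triv (k : ℕ) {C0 : ℝ} (hC0 : 0 < C0) {ε : ℝ} (hε : 0 < ε) (hε1 : ε ≤ 1) :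
    ∃ C : ℝ, 0 < C ∧ ∀ (T X l κ' : ℝ) (a : ℝ → ℂ), 1 ≤ T → Amp T X C0 a →
      ‖∑ n ∈ Finset.Icc 1 ⌊4 * T⌋₊, (dk k n : ℂ) * (a n * e (ph k l κ' n))‖ ≤
        C * T ^ (1 + ε) := by
  obtain ⟨C, hC, h⟩ := BC3_dk k hε hε1
  refine ⟨4 * (C * C0), by positivity, ?_⟩
  intro T X l κ' a hT ha
  have hT0 : 0 < T := by linarith
  have hTe : 0 < T ^ ε := Real.rpow_pos_of_pos hT0 _
  have hN : (⌊4 * T⌋₊ : ℝ) ≤ 4 * T := Nat.floor_le (by linarith)
  refine (norm_sum_le_of_le _ (n := fun _ => C * T ^ ε * C0) ?_).trans ?_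
  · intro n hn
    rw [Finset.mem_Icc] at hn
    have h1 : (n : ℝ) ≤ 4 * T := (Nat.cast_le.2 hn.2).trans hN
    rw [norm_mul, norm_mul, BC3_e, mul_one, Complex.norm_real,
      Real.norm_of_nonneg (dk_nonneg k n)]
    exact mul_le_mul (h T n hT h1) (ha.b0 _) (norm_nonneg _) (by positivity)
  · rw [Finset.sum_const, Nat.card_Icc, Nat.add_sub_cancel, nsmul_eq_mul,
      Real.rpow_add hT0, Real.rpow_one]
    calc (⌊4 * T⌋₊ : ℝ) * (C * T ^ ε * C0) ≤ 4 * T * (C * T ^ ε * C0) :=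
          mul_le_mul_of_nonneg_right hN (by positivity)
      _ = _ := by ring

/-- products of powers of `T` -/
private theorem BC3_rp {T : ℝ} (hT : 1 ≤ T) {x y : ℝ} (h : x ≤ y) : T ^ x ≤ T ^ y :=
  Real.rpow_le_rpow_of_exponent_le hT h

/-- **BC3.** Raw form of the exponential sum bound, `X ≥ T^{1-1/128}`. -/
theorem expSum_raw {k : ℕ} (hk : 4 ≤ k) {l0 C0 : ℝ} (hl0 : 0 < l0) (hC0 : 0 < C0) :
    ∃ C : ℝ, 0 < C ∧ ∀ (T X l κ' : ℝ) (a : ℝ → ℂ), 1 ≤ T → T ^ (1 - 1 / 128 : ℝ) ≤ X → X ≤ T →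
      l0 ≤ |l| → |κ'| ≤ k → Amp T X C0 a →
      ‖∑ n ∈ Finset.Icc 1 ⌊4 * T⌋₊, (dk k n : ℂ) * (a n * e (ph k l κ' n))‖ ≤
      C * |l| ^ (1 / 2 : ℝ) * T ^ (1 - 1 / (2 * (k : ℝ)) - 1 / 36) := by
  have hk0 : (0 : ℝ) < k := by
    have : 0 < k := by omega
    exact_mod_cast this
  have hk4 : (4 : ℝ) ≤ k := by exact_mod_cast hk
  have hki : 0 < 1 / (k : ℝ) := by positivity
  have hki4 : 1 / (k : ℝ) ≤ 1 / 4 := one_div_le_one_div_of_le (by norm_num) hk4
  have hk2 : 1 / (2 * (k : ℝ)) = 1 / (k : ℝ) / 2 := by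
    field_simp
  set r : ℝ := 1 / (k : ℝ) with hr
  rw [hk2]
  set ε : ℝ := 1 / 4000 with hε
  have hε0 : 0 < ε := by rw [hε]; norm_num
  have hε1 : ε ≤ 1 := by rw [hε]; norm_num
  obtain ⟨C1, T1, hC1, hT1, hTI⟩ := type_one hk hl0 hC0
  obtain ⟨C2, T2, hC2, hT2, hTII⟩ := bilinear_dyadic hk hl0 hC0
  obtain ⟨C3, hC3, hdk⟩ := BC3_dk k hε0 hε1
  obtain ⟨C3', hC3', hdk'⟩ := BC3_dk (k - 1) hε0 hε1
  obtain ⟨C4, hC4, hlog⟩ := BC3_lg hε0
  obtain ⟨C5, hC5, htriv⟩ := BC3_triv k hC0 hε0 hε1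
  set T0 : ℝ := max 64 (max T1 T2) with hT0
  have hT064 : 64 ≤ T0 := le_max_left _ _
  set c0 : ℝ := (l0 ^ (1 / 2 : ℝ))⁻¹ with hc0
  have hl0r : 0 < l0 ^ (1 / 2 : ℝ) := Real.rpow_pos_of_pos hl0 _
  have hc0p : 0 < c0 := inv_pos.2 hl0r
  -- type I, type II and small T
  set K1 : ℝ := k * (C1 * C3' * (4 + C4 * c0 + 4 * c0)) with hK1
  set K2 : ℝ := 2 * k * ((2 * C4) ^ 2 * √(C2 * C3 ^ 4 * C4 * 6)) with hK2
  set K3 : ℝ := C5 * T0 ^ (1 + ε) * c0 with hK3
  have hK1p : 0 < K1 := by positivity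
  have hK2p : 0 < K2 := by positivity
  have hK3p : 0 < K3 := by positivity
  refine ⟨K1 + K2 + K3, by positivity, ?_⟩
  intro T X l κ' a hT hX hXT hl hκ ha
  have hT00 : 0 < T := by linarith
  have hl1 : 0 < |l| := hl0.trans_le hl
  have hlr : 0 < |l| ^ (1 / 2 : ℝ) := Real.rpow_pos_of_pos hl1 _
  have hlc : 1 ≤ c0 * |l| ^ (1 / 2 : ℝ) := by
    rw [hc0, inv_mul_eq_div, one_le_div hl0r]
    exact Real.rpow_le_rpow hl0.le hl (by norm_num)
  set θ : ℝ := 1 - r / 2 - 1 / 36 with hθ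
  have hθ0 : 0 ≤ θ := by rw [hθ]; linarith
  have hTθ : 1 ≤ T ^ θ := Real.one_le_rpow hT hθ0
  have hTθ0 : 0 < T ^ θ := by linarith
  rcases lt_or_ge T T0 with hTT | hTT
  · -- small T
    have h1 := htriv T X l κ' a hT ha
    have h2 : T ^ (1 + ε) ≤ T0 ^ (1 + ε) := Real.rpow_le_rpow hT00.le hTT.le (by linarith)
    calc _ ≤ C5 * T ^ (1 + ε) := h1
      _ ≤ C5 * T0 ^ (1 + ε) := mul_le_mul_of_nonneg_left h2 hC5.le
      _ ≤ C5 * T0 ^ (1 + ε) * (c0 * |l| ^ (1 / 2 : ℝ)) :=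
          le_mul_of_one_le_right (by positivity) hlc
      _ = K3 * |l| ^ (1 / 2 : ℝ) := by rw [hK3]; ring
      _ ≤ K3 * |l| ^ (1 / 2 : ℝ) * T ^ θ := le_mul_of_one_le_right (by positivity) hTθ
      _ ≤ _ := by
          apply mul_le_mul_of_nonneg_right _ hTθ0.le
          apply mul_le_mul_of_nonneg_right _ hlr.le
          linarith
  · have hT64 : 64 ≤ T := hT064.trans hTT
    have hTT1 : T1 ≤ T := ((le_max_left _ _).trans (le_max_right _ _)).trans hTT
    have hTT2 : T2 ≤ T := ((le_max_right _ _).trans (le_max_right _ _)).trans hTT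
    have hX1 : 1 ≤ X := (Real.one_le_rpow hT (by norm_num)).trans hX
    have hX0 : 0 < X := by linarith
    have hTX : T / X ≤ T ^ (1 / 128 : ℝ) := by
      rw [div_le_iff₀ hX0]
      calc T = T ^ (1 / 128 : ℝ) * T ^ (1 - 1 / 128 : ℝ) := by
            rw [← Real.rpow_add hT00]
            norm_num
        _ ≤ T ^ (1 / 128 : ℝ) * X := mul_le_mul_of_nonneg_left hX (by positivity)
    have hTX0 : 0 < T / X := by positivity
    set N : ℕ := ⌊4 * T⌋₊ with hN
    have hNT : (N : ℝ) ≤ 4 * T := Nat.floor_le (by linarith)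
    have hN1 : 1 ≤ N := by
      apply Nat.le_floor
      push_cast
      linarith
    have hNlt : ∀ n : ℕ, N < n → 4 * T < n := fun n hn => (Nat.floor_lt (by linarith)).1 hn
    set z1 : ℝ := T ^ (r + 1 / 12) with hz1
    set z2 : ℝ := T ^ (11 / 12 - r) with hz2
    have hz1p : 0 < z1 := Real.rpow_pos_of_pos hT00 _
    have hz2p : 0 < z2 := Real.rpow_pos_of_pos hT00 _
    have hz11 : 1 ≤ z1 := Real.one_le_rpow hT (by linarith)
    have hz21 : 1 ≤ z2 := Real.one_le_rpow hT (by linarith)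
    have hz12 : z1 ^ 2 ≤ z2 := by
      rw [hz1, hz2, ← Real.rpow_natCast, ← Real.rpow_mul hT00.le]
      apply BC3_rp hT
      push_cast
      linarith
    have hz1z2 : z1 * z2 = T := by
      rw [hz1, hz2, ← Real.rpow_add hT00]
      have : r + 1 / 12 + (11 / 12 - r) = 1 := by ring
      rw [this, Real.rpow_one]
    obtain ⟨α, β, hb, hsupp, hdec⟩ := dk_decomp (k := k) (by omega) hz11 hz12
    set G : ℕ → ℂ := fun n => a n * e (ph k l κ' n) with hG
    have hG0 : ∀ n : ℕ, (n : ℝ) ∉ Icc (T / 2) (4 * T) → G n = 0 := by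
      intro n hn
      change a n * e (ph k l κ' n) = 0
      rw [ha.supp _ hn, zero_mul]
    have hGN : ∀ n : ℕ, N < n → G n = 0 := fun n hn => hG0 n fun h => by
      have := hNlt n hn
      linarith [h.2]
    -- the decomposition
    have hS : ∑ n ∈ Finset.Icc 1 N, (dk k n : ℂ) * (a n * e (ph k l κ' n)) =
        ∑ i, ∑ d ∈ Finset.Icc 1 N, ∑ b ∈ Finset.Icc 1 N, ((α i d : ℂ) * (β i b : ℂ)) * G (d * b) +
        (k : ℂ) * ∑ q ∈ Finset.Icc 1 N, (dk (k - 1) q : ℂ) *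
          ∑ n ∈ Finset.Icc 1 N, (if z2 < (n : ℝ) then G (n * q) else 0) := by
      have h1 : ∀ n ∈ Finset.Icc 1 N, (dk k n : ℂ) * (a n * e (ph k l κ' n)) =
          ∑ i, ∑ p ∈ n.divisorsAntidiagonal, ((α i p.1 : ℂ) * (β i p.2 : ℂ)) * G (p.1 * p.2) +
          (k : ℂ) * ∑ p ∈ n.divisorsAntidiagonal,
            (if z2 < (p.1 : ℝ) then (dk (k - 1) p.2 : ℂ) * G (p.1 * p.2) else 0) := by
        intro n hn
        have h2 : ∀ p ∈ n.divisorsAntidiagonal, G (p.1 * p.2) = G n := by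
          intro p hp
          rw [(Nat.mem_divisorsAntidiagonal.1 hp).1]
        by_cases h3 : (n : ℝ) ∈ Icc (T / 2) (4 * T)
        · have h4 : z1 < n := by
            have h5 : z1 ≤ T ^ (1 / 3 : ℝ) := BC3_rp hT (by linarith)
            have h6 : T = T ^ (1 / 3 : ℝ) * T ^ (2 / 3 : ℝ) := by
              rw [← Real.rpow_add hT00]
              norm_num
            have h7 : (16 : ℝ) ≤ T ^ (2 / 3 : ℝ) := by
              calc (16 : ℝ) = 64 ^ (2 / 3 : ℝ) := by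
                    rw [show (64 : ℝ) = 4 ^ (3 : ℝ) by norm_num, ← Real.rpow_mul (by norm_num)]
                    norm_num
                _ ≤ T ^ (2 / 3 : ℝ) := Real.rpow_le_rpow (by norm_num) hT64 (by norm_num)
            have h8 : 0 < T ^ (1 / 3 : ℝ) := Real.rpow_pos_of_pos hT00 _
            have h9 := mul_le_mul_of_nonneg_left h7 h8.le
            have h10 := h3.1
            linarith
          have h5 : (n : ℝ) ≤ z2 ^ 2 := by
            refine h3.2.trans ?_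
            have h6 : T ^ (4 / 3 : ℝ) ≤ z2 ^ 2 := by
              rw [hz2, ← Real.rpow_natCast, ← Real.rpow_mul hT00.le]
              apply BC3_rp hT
              push_cast
              linarith
            have h7 : T ^ (4 / 3 : ℝ) = T * T ^ (1 / 3 : ℝ) := by
              nth_rewrite 2 [← Real.rpow_one T]
              rw [← Real.rpow_add hT00]
              norm_num
            have h8 : (4 : ℝ) ≤ T ^ (1 / 3 : ℝ) := by
              calc (4 : ℝ) = 64 ^ (1 / 3 : ℝ) := by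
                    rw [show (64 : ℝ) = 4 ^ (3 : ℝ) by norm_num, ← Real.rpow_mul (by norm_num)]
                    norm_num
                _ ≤ T ^ (1 / 3 : ℝ) := Real.rpow_le_rpow (by norm_num) hT64 (by norm_num)
            have h9 := mul_le_mul_of_nonneg_left h8 hT00.le
            linarith
          have h6 := hdec n h4 h5
          have h7 : (dk k n : ℂ) = ∑ i, ∑ p ∈ n.divisorsAntidiagonal, (α i p.1 : ℂ) * (β i p.2 : ℂ) +
              (k : ℂ) * ∑ p ∈ n.divisorsAntidiagonal,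
                (if z2 < (p.1 : ℝ) then (dk (k - 1) p.2 : ℂ) else 0) := by
            rw [h6]
            push_cast
            congr 2
            refine Finset.sum_congr rfl fun p _ => ?_
            split_ifs <;> simp
          change (dk k n : ℂ) * G n = _
          rw [h7, add_mul, Finset.sum_mul, mul_assoc, Finset.sum_mul]
          congr 1
          · refine Finset.sum_congr rfl fun i _ => ?_
            rw [Finset.sum_mul]
            exact Finset.sum_congr rfl fun p hp => by rw [h2 p hp]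
          · congr 1
            refine Finset.sum_congr rfl fun p hp => ?_
            rw [h2 p hp]
            split_ifs
            · rfl
            · rw [zero_mul]
        · change (dk k n : ℂ) * G n = _
          have h4 := hG0 n h3
          rw [h4, mul_zero]
          rw [Finset.sum_eq_zero (fun i _ => Finset.sum_eq_zero fun p hp => by
            rw [h2 p hp, h4, mul_zero]), Finset.sum_eq_zero (s := n.divisorsAntidiagonal)
            (fun p hp => by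
              rw [h2 p hp, h4, mul_zero, ite_self])]
          simp
      rw [Finset.sum_congr rfl h1, Finset.sum_add_distrib, Finset.sum_comm, ← Finset.mul_sum]
      congr 1
      · refine Finset.sum_congr rfl fun i _ => ?_
        refine BC3_conv (fun d b => ((α i d : ℂ) * (β i b : ℂ)) * G (d * b)) N ?_
        intro d b hdb
        rw [hGN _ hdb, mul_zero]
      · congr 1
        rw [BC3_conv (fun d b => if z2 < (d : ℝ) then (dk (k - 1) b : ℂ) * G (d * b) else 0) N]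
        · rw [Finset.sum_comm]
          refine Finset.sum_congr rfl fun q _ => ?_
          rw [Finset.mul_sum]
          refine Finset.sum_congr rfl fun n _ => ?_
          rw [mul_ite, mul_zero]
        · intro d b hdb
          rw [hGN _ hdb, mul_zero, ite_self]
    rw [hS]
    have hTe : 0 < T ^ ε := Real.rpow_pos_of_pos hT00 _
    have hT34 : 0 < T ^ (3 / 4 : ℝ) := Real.rpow_pos_of_pos hT00 _
    have hT14 : 0 < T ^ (1 / 4 : ℝ) := Real.rpow_pos_of_pos hT00 _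
    -- type I
    have hI : ‖(k : ℂ) * ∑ q ∈ Finset.Icc 1 N, (dk (k - 1) q : ℂ) *
        ∑ n ∈ Finset.Icc 1 N, (if z2 < (n : ℝ) then G (n * q) else 0)‖ ≤
        K1 * |l| ^ (1 / 2 : ℝ) * T ^ θ := by
      set D : ℝ := C3' * T ^ ε * (C1 * (T / X)) with hD
      set E1 : ℝ := |l| ^ (1 / 2 : ℝ) * T ^ (1 / 4 : ℝ) + 1 with hE1
      have hE1p : 0 < E1 := by positivity
      have hDp : 0 < D := by positivity
      set Q0 : ℕ := ⌊4 * T / z2⌋₊ with hQ0
      have hpt : ∀ q ∈ Finset.Icc 1 N, ‖(dk (k - 1) q : ℂ) *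
          ∑ n ∈ Finset.Icc 1 N, (if z2 < (n : ℝ) then G (n * q) else 0)‖ ≤
          D * ((if q ≤ Q0 then E1 else 0) + T ^ (3 / 4 : ℝ) * (1 / q)) := by
        intro q hq
        rw [Finset.mem_Icc] at hq
        have hqT : (q : ℝ) ≤ 4 * T := (Nat.cast_le.2 hq.2).trans hNT
        have hq0 : (0 : ℝ) < q := by exact_mod_cast hq.1
        by_cases h1 : q ≤ Q0
        · rw [if_pos h1, norm_mul, Complex.norm_real, Real.norm_of_nonneg (dk_nonneg _ _)]
          have h2 := hTI T X l κ' z2 a q hTT1 hX1 hXT hl hκ ha hq.1 hz21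
          have h3 : ∑ n ∈ Finset.Icc 1 N, (if z2 < (n : ℝ) then G (n * q) else 0) =
              ∑ n ∈ Finset.Icc 1 ⌊4 * T⌋₊, if z2 < (n : ℝ) then
                a (n * q) * e (ph k l κ' (n * q)) else 0 := by
            refine Finset.sum_congr rfl fun n _ => ?_
            change (if z2 < (n : ℝ) then a ((n * q : ℕ) : ℝ) * e (ph k l κ' ((n * q : ℕ) : ℝ))
              else 0) = _
            rw [Nat.cast_mul]
          rw [h3]
          calc dk (k - 1) q * _ ≤ (C3' * T ^ ε) * (C1 * (T / X) *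
                (|l| ^ (1 / 2 : ℝ) * T ^ (1 / 4 : ℝ) + T ^ (3 / 4 : ℝ) / q + 1)) :=
                mul_le_mul (hdk' T q hT hqT) h2 (norm_nonneg _) (by positivity)
            _ = _ := by
                rw [hD, hE1]
                ring
        · have h2 : ∑ n ∈ Finset.Icc 1 N, (if z2 < (n : ℝ) then G (n * q) else 0) = 0 := by
            refine Finset.sum_eq_zero fun n _ => ?_
            split_ifs with h3
            · apply hG0
              intro h4
              have h5 : 4 * T / z2 < q := (Nat.floor_lt (by positivity)).1 (not_le.1 h1)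
              rw [div_lt_iff₀ hz2p] at h5
              have h6 := h4.2
              push_cast at h6
              have h7 : z2 * q < n * q := mul_lt_mul_of_pos_right h3 hq0
              linarith
            · rfl
          rw [h2, mul_zero, norm_zero, if_neg h1]
          positivity
      rw [norm_mul, Complex.norm_natCast]
      have hsum : ‖∑ q ∈ Finset.Icc 1 N, (dk (k - 1) q : ℂ) *
          ∑ n ∈ Finset.Icc 1 N, (if z2 < (n : ℝ) then G (n * q) else 0)‖ ≤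
          D * (4 * z1 * E1 + T ^ (3 / 4 : ℝ) * (C4 * T ^ ε)) := by
        refine (norm_sum_le_of_le _ hpt).trans ?_
        rw [← Finset.mul_sum, Finset.sum_add_distrib, ← Finset.mul_sum]
        apply mul_le_mul_of_nonneg_left _ hDp.le
        apply add_le_add
        · rw [← Finset.sum_filter, Finset.sum_const, nsmul_eq_mul]
          apply mul_le_mul_of_nonneg_right _ hE1p.le
          have h1 : ((Finset.Icc 1 N).filter (fun q => q ≤ Q0)).card ≤ Q0 := by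
            have h2 : (Finset.Icc 1 N).filter (fun q => q ≤ Q0) ⊆ Finset.Icc 1 Q0 := by
              intro q hq
              rw [Finset.mem_filter, Finset.mem_Icc] at hq
              rw [Finset.mem_Icc]
              exact ⟨hq.1.1, hq.2⟩
            have h3 := Finset.card_le_card h2
            rwa [Nat.card_Icc, Nat.add_sub_cancel] at h3
          calc ((((Finset.Icc 1 N).filter (fun q => q ≤ Q0)).card : ℕ) : ℝ) ≤ (Q0 : ℝ) :=
                Nat.cast_le.2 h1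
            _ ≤ 4 * T / z2 := Nat.floor_le (by positivity)
            _ = 4 * z1 := by
                rw [← hz1z2]
                field_simp
        · exact mul_le_mul_of_nonneg_left ((BC3_har N hN1 hNT).trans (hlog T hT)) hT34.le
      have e1 : T ^ ε * T ^ (1 / 128 : ℝ) * (z1 * T ^ (1 / 4 : ℝ)) ≤ T ^ θ := by
        rw [hz1, ← Real.rpow_add hT00, ← Real.rpow_add hT00, ← Real.rpow_add hT00]
        apply BC3_rp hT
        rw [hθ, hε]
        linarith
      have e2 : T ^ ε * T ^ (1 / 128 : ℝ) * z1 ≤ T ^ θ := by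
        rw [hz1, ← Real.rpow_add hT00, ← Real.rpow_add hT00]
        apply BC3_rp hT
        rw [hθ, hε]
        linarith
      have e3 : T ^ ε * T ^ (1 / 128 : ℝ) * (T ^ (3 / 4 : ℝ) * T ^ ε) ≤ T ^ θ := by
        rw [← Real.rpow_add hT00, ← Real.rpow_add hT00, ← Real.rpow_add hT00]
        apply BC3_rp hT
        rw [hθ, hε]
        linarith
      have hDle : D ≤ C1 * C3' * (T ^ ε * T ^ (1 / 128 : ℝ)) := by
        rw [hD]
        calc C3' * T ^ ε * (C1 * (T / X)) ≤ C3' * T ^ ε * (C1 * T ^ (1 / 128 : ℝ)) := by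
              apply mul_le_mul_of_nonneg_left _ (by positivity)
              exact mul_le_mul_of_nonneg_left hTX hC1.le
          _ = _ := by ring
      have hpos : 0 ≤ 4 * z1 * E1 + T ^ (3 / 4 : ℝ) * (C4 * T ^ ε) := by positivity
      have hmain : D * (4 * z1 * E1 + T ^ (3 / 4 : ℝ) * (C4 * T ^ ε)) ≤
          C1 * C3' * (4 + C4 * c0 + 4 * c0) * |l| ^ (1 / 2 : ℝ) * T ^ θ := by
        calc D * (4 * z1 * E1 + T ^ (3 / 4 : ℝ) * (C4 * T ^ ε)) ≤
              C1 * C3' * (T ^ ε * T ^ (1 / 128 : ℝ)) *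
                (4 * z1 * E1 + T ^ (3 / 4 : ℝ) * (C4 * T ^ ε)) :=
              mul_le_mul_of_nonneg_right hDle hpos
          _ = C1 * C3' * (4 * |l| ^ (1 / 2 : ℝ) * (T ^ ε * T ^ (1 / 128 : ℝ) *
                (z1 * T ^ (1 / 4 : ℝ))) + 4 * (T ^ ε * T ^ (1 / 128 : ℝ) * z1) +
                C4 * (T ^ ε * T ^ (1 / 128 : ℝ) * (T ^ (3 / 4 : ℝ) * T ^ ε))) := by
              rw [hE1]
              ring
          _ ≤ C1 * C3' * (4 * |l| ^ (1 / 2 : ℝ) * T ^ θ + 4 * T ^ θ + C4 * T ^ θ) := by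
              apply mul_le_mul_of_nonneg_left _ (by positivity)
              apply add_le_add (add_le_add _ _) _
              · exact mul_le_mul_of_nonneg_left e1 (by positivity)
              · exact mul_le_mul_of_nonneg_left e2 (by positivity)
              · exact mul_le_mul_of_nonneg_left e3 (by positivity)
          _ ≤ C1 * C3' * (4 * |l| ^ (1 / 2 : ℝ) * T ^ θ +
                4 * T ^ θ * (c0 * |l| ^ (1 / 2 : ℝ)) + C4 * T ^ θ * (c0 * |l| ^ (1 / 2 : ℝ))) := by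
              apply mul_le_mul_of_nonneg_left _ (by positivity)
              apply add_le_add (add_le_add le_rfl _) _
              · exact le_mul_of_one_le_right (by positivity) hlc
              · exact le_mul_of_one_le_right (by positivity) hlc
          _ = _ := by ring
      calc (k : ℝ) * _ ≤ (k : ℝ) * (C1 * C3' * (4 + C4 * c0 + 4 * c0) *
            |l| ^ (1 / 2 : ℝ) * T ^ θ) := mul_le_mul_of_nonneg_left (hsum.trans hmain) hk0.le
        _ = _ := by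
            rw [hK1]
            ring
    -- type II
    have hII : ∀ i : Fin (2 * k), ‖∑ d ∈ Finset.Icc 1 N, ∑ b ∈ Finset.Icc 1 N,
        ((α i d : ℂ) * (β i b : ℂ)) * G (d * b)‖ ≤
        (2 * C4) ^ 2 * √(C2 * C3 ^ 4 * C4 * 6) * |l| ^ (1 / 2 : ℝ) * T ^ θ := by
      intro i
      set W : ℝ := C3 * T ^ ε with hW
      have hWp : 0 < W := by positivity
      have hcut : ∀ (γ : ℕ → ℝ), (∀ n, |γ n| ≤ dk k n) → ∀ j n, |BC3_cut N γ j n| ≤ W := by
        intro γ hγ j n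
        unfold BC3_cut
        split_ifs with h1
        · have h2 := (Finset.mem_Icc.1 h1.1).2
          exact (hγ n).trans (hdk T n hT ((Nat.cast_le.2 h2).trans hNT))
        · rw [abs_zero]
          exact hWp.le
      set Dy : ℕ → ℕ → ℂ := fun j j' => ∑ d ∈ Finset.Icc (2 ^ j) (2 * 2 ^ j),
        ∑ b ∈ Finset.Icc (2 ^ j') (2 * 2 ^ j'),
          ((BC3_cut N (α i) j d * BC3_cut N (β i) j' b : ℝ) : ℂ) * G (d * b) with hDy
      have h1 : ∑ d ∈ Finset.Icc 1 N, ∑ b ∈ Finset.Icc 1 N,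
          ((α i d : ℂ) * (β i b : ℂ)) * G (d * b) = ∑ j ∈ Finset.range (Nat.log 2 N + 1),
            ∑ j' ∈ Finset.range (Nat.log 2 N + 1), Dy j j' := by
        have h2 : ∀ d, ∑ b ∈ Finset.Icc 1 N, ((α i d : ℂ) * (β i b : ℂ)) * G (d * b) =
            (α i d : ℂ) * ∑ b ∈ Finset.Icc 1 N, (β i b : ℂ) * G (d * b) := by
          intro d
          rw [Finset.mul_sum]
          exact Finset.sum_congr rfl fun b _ => mul_assoc _ _ _
        rw [Finset.sum_congr rfl fun d _ => h2 d, BC3_dy N (α i)]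
        refine Finset.sum_congr rfl fun j _ => ?_
        rw [hDy, Finset.sum_comm]
        refine Finset.sum_congr rfl fun d _ => ?_
        rw [BC3_dy N (β i) (fun b => G (d * b)), Finset.mul_sum]
        refine Finset.sum_congr rfl fun j' _ => ?_
        rw [Finset.mul_sum]
        refine Finset.sum_congr rfl fun b _ => ?_
        push_cast
        ring
      set R : ℝ := √(C2 * C3 ^ 4 * C4 * 6) * |l| ^ (1 / 2 : ℝ) *
        T ^ ((5 * ε + 3 / 128 + 23 / 12 - r) / 2) with hR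
      have hR0 : 0 ≤ R := by positivity
      have h2 : ∀ j j', ‖Dy j j'‖ ≤ R := by
        intro j j'
        by_cases h3 : ∃ d ∈ Finset.Icc (2 ^ j) (2 * 2 ^ j), ∃ b ∈ Finset.Icc (2 ^ j') (2 * 2 ^ j'),
            BC3_cut N (α i) j d ≠ 0 ∧ G (d * b) ≠ 0
        · obtain ⟨d, hd, b, hb2, h4, h5⟩ := h3
          have h6 := hTII T X l κ' a (2 ^ j) (2 ^ j') (BC3_cut N (α i) j) (BC3_cut N (β i) j') W
            hTT2 hX1 hXT hl hκ ha Nat.one_le_two_pow Nat.one_le_two_pow hWp.le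
            (hcut _ (fun n => (hb i n).1) j) (hcut _ (fun n => (hb i n).2) j')
          have h7 : Dy j j' = ∑ m ∈ Finset.Icc (2 ^ j) (2 * 2 ^ j),
              ∑ b ∈ Finset.Icc (2 ^ j') (2 * 2 ^ j'),
              ((BC3_cut N (α i) j m * BC3_cut N (β i) j' b : ℝ) : ℂ) *
                (a (m * b) * e (ph k l κ' (m * b))) := by
            refine Finset.sum_congr rfl fun m _ => Finset.sum_congr rfl fun b _ => ?_
            change _ * (a ((m * b : ℕ) : ℝ) * e (ph k l κ' ((m * b : ℕ) : ℝ))) = _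
            rw [Nat.cast_mul]
          rw [← h7] at h6
          have h8 : α i d ≠ 0 := by
            intro h8
            apply h4
            unfold BC3_cut
            rw [h8, ite_self]
          obtain ⟨h9, h10⟩ := hsupp i d h8
          have h11 : ((2 ^ j : ℕ) : ℝ) ≤ z2 :=
            (Nat.cast_le.2 (Finset.mem_Icc.1 hd).1).trans h10
          have h12 : ((2 ^ j' : ℕ) : ℝ) ≤ 4 * z2 := by
            have h13 : ((2 ^ j' : ℕ) : ℝ) ≤ b := Nat.cast_le.2 (Finset.mem_Icc.1 hb2).1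
            have h14 : ((d * b : ℕ) : ℝ) ≤ 4 * T := by
              by_contra h14
              exact h5 (hG0 _ fun h => h14 h.2)
            push_cast at h14
            have h15 : z1 * b ≤ z1 * (4 * z2) := by
              have : z1 * b ≤ d * b := mul_le_mul_of_nonneg_right h9.le (Nat.cast_nonneg _)
              calc z1 * b ≤ 4 * T := this.trans h14
                _ = z1 * (4 * z2) := by rw [← hz1z2]; ring
            exact h13.trans (le_of_mul_le_mul_left h15 hz1p)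
          have h13 : T ^ (1 / 2 : ℝ) ≤ z2 := BC3_rp hT (by linarith)
          have h14 : 1 + Real.log T ≤ C4 * T ^ ε := by
            refine le_trans ?_ (hlog T hT)
            have : Real.log T ≤ Real.log (4 * T) := Real.log_le_log hT00 (by linarith)
            linarith
          have hlogT : 0 ≤ Real.log T := Real.log_nonneg hT
          have h15 : (T / X) ^ 3 ≤ T ^ (3 / 128 : ℝ) := by
            calc (T / X) ^ 3 ≤ (T ^ (1 / 128 : ℝ)) ^ 3 := pow_le_pow_left₀ hTX0.le hTX 3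
              _ = T ^ (3 / 128 : ℝ) := by
                rw [← Real.rpow_natCast, ← Real.rpow_mul hT00.le]
                norm_num
          have h16 : ‖Dy j j'‖ ^ 2 ≤ R ^ 2 := by
            have e1 : R ^ 2 = C2 * W ^ 4 * (C4 * T ^ ε) * |l| * T ^ (3 / 128 : ℝ) * T * (6 * z2) := by
              have a1 : (√(C2 * C3 ^ 4 * C4 * 6)) ^ 2 = C2 * C3 ^ 4 * C4 * 6 :=
                Real.sq_sqrt (by positivity)
              have a2 : (|l| ^ (1 / 2 : ℝ)) ^ 2 = |l| := by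
                rw [← Real.rpow_natCast, ← Real.rpow_mul hl1.le]
                norm_num
              have a3 : (T ^ ((5 * ε + 3 / 128 + 23 / 12 - r) / 2)) ^ 2 =
                  T ^ ε * T ^ ε * T ^ ε * T ^ ε * T ^ ε * T ^ (3 / 128 : ℝ) * T * z2 := by
                have a4 : T ^ ε * T ^ ε * T ^ ε * T ^ ε * T ^ ε * T ^ (3 / 128 : ℝ) * T * z2 =
                    T ^ ε * T ^ ε * T ^ ε * T ^ ε * T ^ ε * T ^ (3 / 128 : ℝ) * T ^ (1 : ℝ) * z2 := by
                  rw [Real.rpow_one]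
                rw [a4, hz2, ← Real.rpow_natCast, ← Real.rpow_mul hT00.le, ← Real.rpow_add hT00,
                  ← Real.rpow_add hT00, ← Real.rpow_add hT00, ← Real.rpow_add hT00,
                  ← Real.rpow_add hT00, ← Real.rpow_add hT00, ← Real.rpow_add hT00]
                congr 1
                push_cast
                ring
              rw [hR, mul_pow, mul_pow, a1, a2, a3, hW]
              ring
            rw [e1]
            refine h6.trans ?_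
            have b1 : ((2 ^ j : ℕ) : ℝ) + ((2 ^ j' : ℕ) : ℝ) + T ^ (1 / 2 : ℝ) ≤ 6 * z2 := by
              linarith
            have b2 : 0 ≤ ((2 ^ j : ℕ) : ℝ) + ((2 ^ j' : ℕ) : ℝ) + T ^ (1 / 2 : ℝ) := by
              positivity
            have b3 : 0 < T ^ (3 / 128 : ℝ) := Real.rpow_pos_of_pos hT00 _
            apply mul_le_mul _ b1 b2 (by positivity)
            apply mul_le_mul_of_nonneg_right _ hT00.le
            apply mul_le_mul _ h15 (by positivity) (by positivity)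
            apply mul_le_mul_of_nonneg_right _ hl1.le
            exact mul_le_mul_of_nonneg_left h14 (by positivity)
          exact le_of_sq_le_sq h16 hR0
        · have h4 : Dy j j' = 0 := by
            refine Finset.sum_eq_zero fun d hd => Finset.sum_eq_zero fun b hb2 => ?_
            by_cases h5 : BC3_cut N (α i) j d = 0
            · rw [h5]
              simp
            · by_cases h6 : G (d * b) = 0
              · rw [h6, mul_zero]
              · exact absurd ⟨d, hd, b, hb2, h5, h6⟩ h3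
          rw [h4, norm_zero]
          exact hR0
      rw [h1]
      have h3 : ‖∑ j ∈ Finset.range (Nat.log 2 N + 1),
          ∑ j' ∈ Finset.range (Nat.log 2 N + 1), Dy j j'‖ ≤
          ((Nat.log 2 N + 1 : ℕ) : ℝ) * (((Nat.log 2 N + 1 : ℕ) : ℝ) * R) := by
        refine (norm_sum_le_of_le _ (n := fun _ => ((Nat.log 2 N + 1 : ℕ) : ℝ) * R) ?_).trans ?_
        · intro j _
          refine (norm_sum_le_of_le _ (n := fun _ => R) fun j' _ => h2 j j').trans ?_
          rw [Finset.sum_const, Finset.card_range, nsmul_eq_mul]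
        · rw [Finset.sum_const, Finset.card_range, nsmul_eq_mul]
      refine h3.trans ?_
      have h4 : ((Nat.log 2 N + 1 : ℕ) : ℝ) ≤ 2 * C4 * T ^ ε := by
        have := BC3_nl hN1 hNT
        have h5 := hlog T hT
        linarith
      have h5 : 0 ≤ ((Nat.log 2 N + 1 : ℕ) : ℝ) := Nat.cast_nonneg _
      calc ((Nat.log 2 N + 1 : ℕ) : ℝ) * (((Nat.log 2 N + 1 : ℕ) : ℝ) * R) ≤
            (2 * C4 * T ^ ε) * ((2 * C4 * T ^ ε) * R) := by
            apply mul_le_mul h4 _ (by positivity) (by positivity)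
            exact mul_le_mul_of_nonneg_right h4 hR0
        _ = (2 * C4) ^ 2 * √(C2 * C3 ^ 4 * C4 * 6) * |l| ^ (1 / 2 : ℝ) *
            (T ^ ε * T ^ ε * T ^ ((5 * ε + 3 / 128 + 23 / 12 - r) / 2)) := by
            rw [hR]
            ring
        _ ≤ _ := by
            apply mul_le_mul_of_nonneg_left _ (by positivity)
            rw [← Real.rpow_add hT00, ← Real.rpow_add hT00]
            apply BC3_rp hT
            rw [hθ, hε]
            linarith
    -- the end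
    have hIIs : ‖∑ i, ∑ d ∈ Finset.Icc 1 N, ∑ b ∈ Finset.Icc 1 N,
        ((α i d : ℂ) * (β i b : ℂ)) * G (d * b)‖ ≤ K2 * |l| ^ (1 / 2 : ℝ) * T ^ θ := by
      refine (norm_sum_le_of_le _ (n := fun _ => (2 * C4) ^ 2 * √(C2 * C3 ^ 4 * C4 * 6) *
        |l| ^ (1 / 2 : ℝ) * T ^ θ) fun i _ => hII i).trans ?_
      rw [Finset.sum_const, Finset.card_univ, Fintype.card_fin, nsmul_eq_mul, hK2]
      push_cast
      exact le_of_eq (by ring)
    refine (norm_add_le _ _).trans ?_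
    have hfin : K1 * |l| ^ (1 / 2 : ℝ) * T ^ θ + K2 * |l| ^ (1 / 2 : ℝ) * T ^ θ ≤
        (K1 + K2 + K3) * |l| ^ (1 / 2 : ℝ) * T ^ θ := by
      have : 0 ≤ K3 * |l| ^ (1 / 2 : ℝ) * T ^ θ := by positivity
      linarith
    linarith
--END BC3

--BEGIN BC4
/-- **BC4.** The exponential sum bound (interpolate BC3 with the trivial bound, `15/16` to
`1/16`). -/
theorem expSum {k : ℕ} (hk : 4 ≤ k) {l0 C0 : ℝ} (hl0 : 0 < l0) (hC0 : 0 < C0) :
    ∃ C : ℝ, 0 < C ∧ ∀ (T l κ' : ℝ) (a : ℝ → ℂ), 1 ≤ T → l0 ≤ |l| → |κ'| ≤ k →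
      Amp T (Xw k T) C0 a →
      ‖∑ n ∈ Finset.Icc 1 ⌊4 * T⌋₊, (dk k n : ℂ) * (a n * e (ph k l κ' n))‖ ≤
      C * |l| ^ (15 / 32 : ℝ) * T ^ (1 - 1 / (2 * (k : ℝ)) - 1 / (16 * (k : ℝ))) := by
  have hk0 : (0 : ℝ) < k := by
    have : 0 < k := by omega
    exact_mod_cast this
  have hk4 : (4 : ℝ) ≤ k := by exact_mod_cast hk
  have hki : 0 < 1 / (k : ℝ) := by positivity
  have hki4 : 1 / (k : ℝ) ≤ 1 / 4 := one_div_le_one_div_of_le (by norm_num) hk4
  obtain ⟨C, hC, h⟩ := expSum_raw hk hl0 hC0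
  obtain ⟨C', hC', h'⟩ := BC3_triv k hC0 (ε := 1 / 100) (by norm_num) (by norm_num)
  refine ⟨C ^ (15 / 16 : ℝ) * C' ^ (1 / 16 : ℝ), by positivity, ?_⟩
  intro T l κ' a hT hl hκ ha
  have hT00 : 0 < T := by linarith
  have hl1 : 0 < |l| := hl0.trans_le hl
  have e32 : 1 / (32 * (k : ℝ)) = 1 / (k : ℝ) / 32 := by field_simp
  have hX1 : T ^ (1 - 1 / 128 : ℝ) ≤ Xw k T := by
    unfold Xw
    apply BC3_rp hT
    rw [e32]
    linarith
  have hX2 : Xw k T ≤ T := by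
    unfold Xw
    calc T ^ (1 - 1 / (32 * (k : ℝ))) ≤ T ^ (1 : ℝ) := by
          apply BC3_rp hT
          rw [e32]
          linarith
      _ = T := Real.rpow_one T
  have h1 := h T (Xw k T) l κ' a hT hX1 hX2 hl hκ ha
  have h2 := h' T (Xw k T) l κ' a hT ha
  set s : ℝ := ‖∑ n ∈ Finset.Icc 1 ⌊4 * T⌋₊, (dk k n : ℂ) * (a n * e (ph k l κ' n))‖ with hs
  have hs0 : 0 ≤ s := norm_nonneg _
  have h3 : s = s ^ (15 / 16 : ℝ) * s ^ (1 / 16 : ℝ) := by
    rw [← Real.rpow_add' hs0 (by norm_num)]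
    norm_num
  have h4 : s ^ (15 / 16 : ℝ) ≤ C ^ (15 / 16 : ℝ) * |l| ^ (15 / 32 : ℝ) *
      T ^ ((1 - 1 / (2 * (k : ℝ)) - 1 / 36) * (15 / 16)) := by
    refine (Real.rpow_le_rpow hs0 h1 (by norm_num)).trans (le_of_eq ?_)
    rw [Real.mul_rpow (by positivity) (by positivity), Real.mul_rpow hC.le (by positivity),
      ← Real.rpow_mul hl1.le, ← Real.rpow_mul hT00.le]
    norm_num
  have h5 : s ^ (1 / 16 : ℝ) ≤ C' ^ (1 / 16 : ℝ) * T ^ ((1 + 1 / 100) * (1 / 16) : ℝ) := by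
    refine (Real.rpow_le_rpow hs0 h2 (by norm_num)).trans (le_of_eq ?_)
    rw [Real.mul_rpow hC'.le (by positivity), ← Real.rpow_mul hT00.le]
  rw [h3]
  calc s ^ (15 / 16 : ℝ) * s ^ (1 / 16 : ℝ) ≤ (C ^ (15 / 16 : ℝ) * |l| ^ (15 / 32 : ℝ) *
        T ^ ((1 - 1 / (2 * (k : ℝ)) - 1 / 36) * (15 / 16))) *
        (C' ^ (1 / 16 : ℝ) * T ^ ((1 + 1 / 100) * (1 / 16) : ℝ)) :=
        mul_le_mul h4 h5 (by positivity) (by positivity)
    _ = C ^ (15 / 16 : ℝ) * C' ^ (1 / 16 : ℝ) * |l| ^ (15 / 32 : ℝ) *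
        (T ^ ((1 - 1 / (2 * (k : ℝ)) - 1 / 36) * (15 / 16)) *
        T ^ ((1 + 1 / 100) * (1 / 16) : ℝ)) := by ring
    _ ≤ _ := by
        apply mul_le_mul_of_nonneg_left _ (by positivity)
        rw [← Real.rpow_add hT00]
        apply BC3_rp hT
        have e1 : 1 / (2 * (k : ℝ)) = 1 / (k : ℝ) / 2 := by field_simp
        have e2 : 1 / (16 * (k : ℝ)) = 1 / (k : ℝ) / 16 := by field_simp
        rw [e1, e2]
        linarith
--END BC4

--BEGIN BD1
private theorem BD1_theta3 {k : ℕ} (l κ' : ℝ) {y : ℝ} (hy : 0 < y) :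
    y ^ 3 * (3 / 4 * l * y ^ (-(5 / 2) : ℝ) +
      κ' / k * (1 / k - 1) * (1 / k - 2) * y ^ (1 / (k : ℝ) - 3)) =
      (3 / 4 * l) * √y + (κ' * ((1 / k - 1) * (1 / k - 2))) / k * y ^ (1 / (k : ℝ)) := by
  have h1 : y ^ 3 * y ^ (-(5 / 2) : ℝ) = √y := by
    rw [← Real.rpow_natCast, ← Real.rpow_add hy, Real.sqrt_eq_rpow]
    norm_num
  have h2 : y ^ 3 * y ^ (1 / (k : ℝ) - 3) = y ^ (1 / (k : ℝ)) := by
    rw [← Real.rpow_natCast, ← Real.rpow_add hy]
    congr 1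
    push_cast
    ring
  rw [← h1, ← h2]
  ring

private theorem BD1_third {k : ℕ} (l κ' : ℝ) {x : ℝ} (hx : 0 < x) :
    HasDerivAt (fun y => -(l / 2) * y ^ (-(3 / 2) : ℝ) +
        κ' / k * (1 / k - 1) * y ^ (1 / (k : ℝ) - 2))
      (3 / 4 * l * x ^ (-(5 / 2) : ℝ) +
        κ' / k * (1 / k - 1) * (1 / k - 2) * x ^ (1 / (k : ℝ) - 3)) x := by
  have h1 : HasDerivAt (fun y => y ^ (-(3 / 2) : ℝ)) (-(3 / 2) * x ^ (-(3 / 2) - 1 : ℝ)) x :=
    Real.hasDerivAt_rpow_const (Or.inl hx.ne')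
  have h2 : HasDerivAt (fun y => y ^ (1 / (k : ℝ) - 2))
      ((1 / (k : ℝ) - 2) * x ^ (1 / (k : ℝ) - 2 - 1)) x :=
    Real.hasDerivAt_rpow_const (Or.inl hx.ne')
  refine ((h1.const_mul (-(l / 2))).add (h2.const_mul (κ' / k * (1 / k - 1)))).congr_deriv ?_
  have h4 : (-(3 / 2) - 1 : ℝ) = -(5 / 2) := by norm_num
  have h5 : 1 / (k : ℝ) - 2 - 1 = 1 / k - 3 := by ring
  rw [h4, h5]
  ring

/-- Lower bound of the first derivative, upper bounds of the others. -/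
private theorem BD1_phase {k : ℕ} (hk : 4 ≤ k) {l0 l κ' x : ℝ} (hl0 : 0 < l0) (hl : l0 ≤ |l|)
    (hκ : |κ'| ≤ k) (hx1 : 1 ≤ x) (hx : (2 / l0) ^ 4 ≤ x) :
    |l| / (2 * √x) ≤ |l / √x + κ' / k * x ^ (1 / (k : ℝ) - 1)| ∧
    |-(l / 2) * x ^ (-(3 / 2) : ℝ) + κ' / k * (1 / k - 1) * x ^ (1 / (k : ℝ) - 2)| ≤
      (4 / x) * |l / √x + κ' / k * x ^ (1 / (k : ℝ) - 1)| ∧
    |3 / 4 * l * x ^ (-(5 / 2) : ℝ) +
        κ' / k * (1 / k - 1) * (1 / k - 2) * x ^ (1 / (k : ℝ) - 3)| ≤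
      (4 / x ^ 2) * |l / √x + κ' / k * x ^ (1 / (k : ℝ) - 1)| := by
  have hk4 : (4 : ℝ) ≤ k := by exact_mod_cast hk
  have hk0 : (0 : ℝ) < k := by linarith
  have hx0 : 0 < x := by linarith
  have hl00 : 0 < |l| := hl0.trans_le hl
  have hsx : 0 < √x := Real.sqrt_pos.2 hx0
  have hss : √x * √x = x := Real.mul_self_sqrt hx0.le
  have h1k : 1 / (k : ℝ) ≤ 1 / 4 := one_div_le_one_div_of_le (by norm_num) hk4
  have h1k0 : 0 < 1 / (k : ℝ) := by positivity
  have hκk : |κ' / k| ≤ 1 := by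
    rw [abs_div, abs_of_pos hk0, div_le_one hk0]
    exact hκ
  -- `x^(1/k) ≤ (l0/2) √x`
  have hq : x ^ (1 / (k : ℝ)) ≤ l0 / 2 * √x := by
    have h1 : x ^ (1 / (k : ℝ)) ≤ x ^ (1 / 4 : ℝ) := Real.rpow_le_rpow_of_exponent_le hx1 h1k
    have h2 : 2 / l0 ≤ x ^ (1 / 4 : ℝ) := by
      have h4 : ((2 / l0) ^ 4) ^ (1 / 4 : ℝ) ≤ x ^ (1 / 4 : ℝ) :=
        Real.rpow_le_rpow (by positivity) hx (by norm_num)
      rw [← Real.rpow_natCast, ← Real.rpow_mul (by positivity)] at h4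
      norm_num at h4
      exact h4
    have h3 : √x = x ^ (1 / 4 : ℝ) * x ^ (1 / 4 : ℝ) := by
      rw [← Real.rpow_add hx0, Real.sqrt_eq_rpow]
      norm_num
    have h5 : 0 < x ^ (1 / 4 : ℝ) := Real.rpow_pos_of_pos hx0 _
    have h6 : 1 ≤ l0 / 2 * x ^ (1 / 4 : ℝ) := by
      rw [div_le_iff₀ hl0] at h2
      linarith
    refine h1.trans ?_
    rw [h3]
    calc x ^ (1 / 4 : ℝ) ≤ x ^ (1 / 4 : ℝ) * (l0 / 2 * x ^ (1 / 4 : ℝ)) :=
          le_mul_of_one_le_right h5.le h6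
      _ = _ := by ring
  have hq0 : 0 ≤ x ^ (1 / (k : ℝ)) := Real.rpow_nonneg hx0.le _
  have hq' : x ^ (1 / (k : ℝ)) ≤ |l| / 2 * √x :=
    hq.trans (mul_le_mul_of_nonneg_right (by linarith) hsx.le)
  have hpc : ∀ c : ℝ, |c| ≤ 2 → |κ' * c / k * x ^ (1 / (k : ℝ))| ≤ |c| * (|l| / 2 * √x) := by
    intro c _
    have : κ' * c / k * x ^ (1 / (k : ℝ)) = (κ' / k) * (c * x ^ (1 / (k : ℝ))) := by ring
    rw [this, abs_mul, abs_mul c, abs_of_nonneg hq0]
    calc |κ' / k| * (|c| * x ^ (1 / (k : ℝ))) ≤ 1 * (|c| * (|l| / 2 * √x)) :=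
          mul_le_mul hκk (mul_le_mul_of_nonneg_left hq' (abs_nonneg c)) (by positivity)
            (by norm_num)
      _ = _ := one_mul _
  set φ1 := l / √x + κ' / k * x ^ (1 / (k : ℝ) - 1) with hφ1
  have hθ := BB3_theta1 (k := k) l κ' hx0
  rw [← hφ1] at hθ
  have hlow : |l| / 2 * √x ≤ x * |φ1| := by
    rw [← abs_of_pos hx0, ← abs_mul, abs_of_pos hx0, hθ]
    have e5 := abs_sub_abs_le_abs_sub (l * √x) (-(κ' / k * x ^ (1 / (k : ℝ))))
    rw [sub_neg_eq_add, abs_neg] at e5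
    have h1 : |l * √x| = |l| * √x := by rw [abs_mul, abs_of_pos hsx]
    have h2 := hpc 1 (by norm_num)
    rw [mul_one, abs_one, one_mul] at h2
    rw [h1] at e5
    linarith
  refine ⟨?_, ?_, ?_⟩
  · rw [div_le_iff₀ (by positivity)]
    have h1 : |l| / 2 * √x * √x ≤ x * |φ1| * √x := mul_le_mul_of_nonneg_right hlow hsx.le
    rw [mul_assoc, hss] at h1
    have h2 : x * (|l| / 2) ≤ x * (|φ1| * √x) := by linarith
    have h3 := le_of_mul_le_mul_left h2 hx0
    linarith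
  · have h2 := BB3_theta2 (k := k) l κ' hx0
    set φ2 := -(l / 2) * x ^ (-(3 / 2) : ℝ) + κ' / k * (1 / k - 1) * x ^ (1 / (k : ℝ) - 2)
    have h3 : |x ^ 2 * φ2| ≤ |l| * √x := by
      rw [h2]
      refine (abs_add_le _ _).trans ?_
      have hc : |1 / (k : ℝ) - 1| ≤ 1 := by
        rw [abs_le]
        constructor <;> linarith
      have h4 := hpc (1 / k - 1) (hc.trans (by norm_num))
      have h5 : |1 / (k : ℝ) - 1| * (|l| / 2 * √x) ≤ 1 * (|l| / 2 * √x) :=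
        mul_le_mul_of_nonneg_right hc (by positivity)
      have h6 : |-(l / 2) * √x| = |l| / 2 * √x := by
        rw [abs_mul, abs_neg, abs_div, abs_two, abs_of_pos hsx]
      rw [h6]
      linarith
    rw [abs_mul, abs_of_pos (pow_pos hx0 2)] at h3
    have h4 : x ^ 2 * |φ2| ≤ x ^ 2 * ((4 / x) * |φ1|) := by
      have h5 : x ^ 2 * ((4 / x) * |φ1|) = 4 * (x * |φ1|) := by
        field_simp
      rw [h5]
      have h6 : 0 ≤ x * |φ1| := by positivity
      linarith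
    exact le_of_mul_le_mul_left h4 (pow_pos hx0 2)
  · have h2 := BD1_theta3 (k := k) l κ' hx0
    set φ3 := 3 / 4 * l * x ^ (-(5 / 2) : ℝ) +
        κ' / k * (1 / k - 1) * (1 / k - 2) * x ^ (1 / (k : ℝ) - 3)
    have h3 : |x ^ 3 * φ3| ≤ 2 * (|l| * √x) := by
      rw [h2]
      refine (abs_add_le _ _).trans ?_
      have hc : |(1 / (k : ℝ) - 1) * (1 / k - 2)| ≤ 2 := by
        rw [abs_mul]
        have c1 : |1 / (k : ℝ) - 1| ≤ 1 := by
          rw [abs_le]
          constructor <;> linarith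
        have c2 : |1 / (k : ℝ) - 2| ≤ 2 := by
          rw [abs_le]
          constructor <;> linarith
        calc |1 / (k : ℝ) - 1| * |1 / (k : ℝ) - 2| ≤ 1 * 2 :=
              mul_le_mul c1 c2 (abs_nonneg _) (by norm_num)
          _ = 2 := by norm_num
      have h4 := hpc ((1 / k - 1) * (1 / k - 2)) hc
      have h5 : |(1 / (k : ℝ) - 1) * (1 / k - 2)| * (|l| / 2 * √x) ≤ 2 * (|l| / 2 * √x) :=
        mul_le_mul_of_nonneg_right hc (by positivity)
      have h6 : |3 / 4 * l * √x| = 3 / 4 * (|l| * √x) := by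
        rw [abs_mul, abs_mul, abs_of_pos hsx, abs_of_pos (by norm_num : (0 : ℝ) < 3 / 4)]
        ring
      rw [h6]
      have h7 : 0 ≤ |l| * √x := by positivity
      linarith
    rw [abs_mul, abs_of_pos (pow_pos hx0 3)] at h3
    have h4 : x ^ 3 * |φ3| ≤ x ^ 3 * ((4 / x ^ 2) * |φ1|) := by
      have h5 : x ^ 3 * ((4 / x ^ 2) * |φ1|) = 4 * (x * |φ1|) := by
        field_simp
      rw [h5]
      linarith
    exact le_of_mul_le_mul_left h4 (pow_pos hx0 3)

private theorem BD1_Xw {k : ℕ} (hk : 4 ≤ k) {T : ℝ} (hT : 1 ≤ T) :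
    1 ≤ Xw k T ∧ Xw k T ≤ T ∧ T / Xw k T ≤ T ^ (1 / 128 : ℝ) := by
  have hk4 : (4 : ℝ) ≤ k := by exact_mod_cast hk
  have hk0 : (0 : ℝ) < k := by linarith
  have hT0 : 0 < T := by linarith
  have h1 : 1 / (32 * (k : ℝ)) ≤ 1 / 128 :=
    one_div_le_one_div_of_le (by norm_num) (by linarith)
  have h2 : 0 < 1 / (32 * (k : ℝ)) := by positivity
  unfold Xw
  refine ⟨Real.one_le_rpow hT (by linarith), ?_, ?_⟩
  · calc T ^ (1 - 1 / (32 * (k : ℝ))) ≤ T ^ (1 : ℝ) :=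
          Real.rpow_le_rpow_of_exponent_le hT (by linarith)
      _ = T := Real.rpow_one T
  · have h3 : T / T ^ (1 - 1 / (32 * (k : ℝ))) = T ^ (1 / (32 * (k : ℝ))) := by
      conv_lhs => rw [show T / T ^ (1 - 1 / (32 * (k : ℝ))) =
        T ^ (1 : ℝ) / T ^ (1 - 1 / (32 * (k : ℝ))) by rw [Real.rpow_one]]
      rw [← Real.rpow_sub hT0]
      congr 1
      ring
    rw [h3]
    exact Real.rpow_le_rpow_of_exponent_le hT h1

/-- **BD1.** The oscillatory integral against the main term. -/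
theorem int_main_osc {k : ℕ} (hk : 4 ≤ k) {l0 C0 : ℝ} (hl0 : 0 < l0) (hC0 : 0 < C0) :
    ∃ C T0 : ℝ, 0 < C ∧ 1 ≤ T0 ∧ ∀ (T l κ' : ℝ) (a : ℝ → ℂ), T0 ≤ T → l0 ≤ |l| → |κ'| ≤ k →
      Amp T (Xw k T) C0 a →
      ‖∫ x in (T / 2)..(4 * T), (Mk1 k x : ℂ) * (a x * e (ph k l κ' x))‖ ≤
      C * |l| ^ (-1 : ℝ) * T ^ (1 / 2 + 1 / 16 : ℝ) := by
  obtain ⟨C1, hC1, hM, -⟩ := Mk_bound k (ε := 1 / 64) (by norm_num)
  refine ⟨1536 * C1 * C0, 2 * (2 / l0) ^ 4 + 4, by positivity, ?_, ?_⟩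
  · have : 0 ≤ (2 / l0) ^ 4 := by positivity
    linarith
  intro T l κ' a hT hl hκ ha
  have h0 : 0 ≤ (2 / l0) ^ 4 := by positivity
  have hT4 : 4 ≤ T := by linarith
  have hT0 : 0 < T := by linarith
  have hl00 : 0 < |l| := hl0.trans_le hl
  obtain ⟨hX1, hXT, hTX⟩ := BD1_Xw hk (by linarith : 1 ≤ T)
  set X := Xw k T with hX
  have hX0 : 0 < X := by linarith
  have hTX1 : 1 ≤ T / X := by rwa [le_div_iff₀ hX0, one_mul]
  have hpq : T / 2 ≤ 4 * T := by linarith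
  have hsT : 0 < √T := Real.sqrt_pos.2 hT0
  have hmem : ∀ x ∈ Icc (T / 2) (4 * T), 1 ≤ x ∧ (2 / l0) ^ 4 ≤ x ∧ 0 < x := fun x hx =>
    ⟨by linarith [hx.1], by linarith [hx.1], by linarith [hx.1]⟩
  set P := T ^ (1 / 64 : ℝ) with hP
  have hP0 : 0 < P := Real.rpow_pos_of_pos hT0 _
  have hb1 : ∀ x ∈ Icc (T / 2) (4 * T), |Mk1 k x| ≤ 4 * C1 * P := by
    intro x hx
    obtain ⟨x1, -, x0⟩ := hmem x hx
    refine ((hM x x1).2.1).trans ?_
    have h1 : x ^ (1 / 64 : ℝ) ≤ 4 * P := by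
      calc x ^ (1 / 64 : ℝ) ≤ (4 * T) ^ (1 / 64 : ℝ) :=
            Real.rpow_le_rpow x0.le hx.2 (by norm_num)
        _ = 4 ^ (1 / 64 : ℝ) * P := Real.mul_rpow (by norm_num) hT0.le
        _ ≤ 4 ^ (1 : ℝ) * P := mul_le_mul_of_nonneg_right
            (Real.rpow_le_rpow_of_exponent_le (by norm_num) (by norm_num)) hP0.le
        _ = 4 * P := by rw [Real.rpow_one]
    calc C1 * x ^ (1 / 64 : ℝ) ≤ C1 * (4 * P) := mul_le_mul_of_nonneg_left h1 hC1.le
      _ = _ := by ring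
  have hb2 : ∀ x ∈ Icc (T / 2) (4 * T), |Mk2 k x| ≤ 2 * C1 * P / X := by
    intro x hx
    obtain ⟨x1, -, x0⟩ := hmem x hx
    refine ((hM x x1).2.2).trans ?_
    have h1 : x ^ (-1 + 1 / 64 : ℝ) ≤ 2 * (P / X) := by
      calc x ^ (-1 + 1 / 64 : ℝ) ≤ (T / 2) ^ (-1 + 1 / 64 : ℝ) :=
            Real.rpow_le_rpow_of_nonpos (by linarith) hx.1 (by norm_num)
        _ = (T / 2) ^ (-1 : ℝ) * (T / 2) ^ (1 / 64 : ℝ) := Real.rpow_add (by linarith) _ _
        _ ≤ (T / 2) ^ (-1 : ℝ) * P := mul_le_mul_of_nonneg_left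
            (Real.rpow_le_rpow (by linarith) (by linarith) (by norm_num))
            (Real.rpow_nonneg (by linarith) _)
        _ = 2 * (P / T) := by
            rw [Real.rpow_neg_one]
            field_simp
        _ ≤ 2 * (P / X) := by
            have := div_le_div_of_nonneg_left hP0.le hX0 hXT
            linarith
    calc C1 * x ^ (-1 + 1 / 64 : ℝ) ≤ C1 * (2 * (P / X)) := mul_le_mul_of_nonneg_left h1 hC1.le
      _ = _ := by ring
  have hcont : ContinuousOn (fun x : ℝ => -(l / 2) * x ^ (-(3 / 2) : ℝ) +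
      κ' / k * (1 / k - 1) * x ^ (1 / (k : ℝ) - 2)) (Icc (T / 2) (4 * T)) := fun x hx =>
    (BD1_third (k := k) l κ' (hmem x hx).2.2).continuousAt.continuousWithinAt
  have hMc : ∀ x ∈ Icc (T / 2) (4 * T), HasDerivAt (fun x => ((Mk1 k x : ℝ) : ℂ) * a x)
      (((Mk2 k x : ℝ) : ℂ) * a x + ((Mk1 k x : ℝ) : ℂ) * deriv a x) x := fun x hx =>
    ((Mk_deriv k (hmem x hx).2.2).2.1.ofReal_comp).mul (BB5_d1 ha x)
  have hMc' : ContinuousOn (fun x => ((Mk2 k x : ℝ) : ℂ) * a x +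
      ((Mk1 k x : ℝ) : ℂ) * deriv a x) (Icc (T / 2) (4 * T)) := by
    intro x hx
    apply ContinuousAt.continuousWithinAt
    have c1 : ContinuousAt (fun x => ((Mk2 k x : ℝ) : ℂ)) x :=
      Complex.continuous_ofReal.continuousAt.comp (Mk_deriv k (hmem x hx).2.2).2.2
    have c2 : ContinuousAt (fun x => ((Mk1 k x : ℝ) : ℂ)) x :=
      Complex.continuous_ofReal.continuousAt.comp
        (Mk_deriv k (hmem x hx).2.2).2.1.continuousAt
    exact (c1.mul (BB5_d1 ha x).continuousAt).add (c2.mul (BB5_c1 ha).continuousAt)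
  have hsq : ∀ x ∈ Icc (T / 2) (4 * T), √x ≤ 2 * √T := by
    intro x hx
    rw [Real.sqrt_le_left (by positivity), mul_pow, Real.sq_sqrt hT0.le]
    linarith [hx.2]
  have hBA := first_deriv (p := T / 2) (q := 4 * T) hpq
    (g := fun x => ((Mk1 k x : ℝ) : ℂ) * a x) (h := ph k l κ')
    (S := 4 * C1 * P * C0) (V := 6 * C1 * P * C0 / X) (μ := |l| / (4 * √T)) (H := 8 / T)
    hMc hMc' (fun x hx => (ph_deriv k hk l κ' (hmem x hx).2.2).1)
    (fun x hx => (ph_deriv k hk l κ' (hmem x hx).2.2).2) hcont (by positivity)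
    (fun x hx => by
      obtain ⟨x1, x2, x0⟩ := hmem x hx
      refine le_trans ?_ (BD1_phase hk hl0 hl hκ x1 x2).1
      have hsx : 0 < √x := Real.sqrt_pos.2 x0
      apply div_le_div_of_nonneg_left hl00.le (by positivity)
      have := hsq x hx
      linarith)
    (fun x hx => by
      obtain ⟨x1, x2, x0⟩ := hmem x hx
      refine (BD1_phase hk hl0 hl hκ x1 x2).2.1.trans ?_
      apply mul_le_mul_of_nonneg_right _ (abs_nonneg _)
      rw [div_le_div_iff₀ x0 hT0]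
      linarith [hx.1])
    (fun x hx => by
      rw [norm_mul, Complex.norm_real, Real.norm_eq_abs]
      exact mul_le_mul (hb1 x hx) (ha.b0 x) (norm_nonneg _) (by positivity))
    (fun x hx => by
      refine (norm_add_le _ _).trans ?_
      rw [norm_mul, norm_mul, Complex.norm_real, Complex.norm_real, Real.norm_eq_abs,
        Real.norm_eq_abs]
      have i1 : |Mk2 k x| * ‖a x‖ ≤ 2 * C1 * P / X * C0 :=
        mul_le_mul (hb2 x hx) (ha.b0 x) (norm_nonneg _) (by positivity)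
      have i2 : |Mk1 k x| * ‖deriv a x‖ ≤ 4 * C1 * P * (C0 / X) :=
        mul_le_mul (hb1 x hx) (ha.b1 x) (norm_nonneg _) (by positivity)
      have i3 : 6 * C1 * P * C0 / X = 2 * C1 * P / X * C0 + 4 * C1 * P * (C0 / X) := by ring
      rw [i3]
      exact add_le_add i1 i2)
  have hform : ∫ x in (T / 2)..(4 * T), (Mk1 k x : ℂ) * (a x * e (ph k l κ' x)) =
      ∫ x in (T / 2)..(4 * T), ((Mk1 k x : ℝ) : ℂ) * a x * e (ph k l κ' x) := by
    simp only [mul_assoc]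
  rw [hform]
  refine hBA.trans ?_
  have j1 : (4 * T - T / 2) ≤ 4 * T := by linarith
  have j2 : 2 * (4 * C1 * P * C0) + (4 * T - T / 2) * (6 * C1 * P * C0 / X +
      4 * C1 * P * C0 * (8 / T)) ≤ 96 * 4 * C1 * C0 * (P * (T / X)) / 4 * 4 := by
    have k1 : (4 * T - T / 2) * (6 * C1 * P * C0 / X + 4 * C1 * P * C0 * (8 / T)) ≤
        (4 * T) * (6 * C1 * P * C0 / X + 4 * C1 * P * C0 * (8 / T)) :=
      mul_le_mul_of_nonneg_right j1 (by positivity)
    have k2 : (4 * T) * (6 * C1 * P * C0 / X + 4 * C1 * P * C0 * (8 / T)) =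
        24 * C1 * C0 * (P * (T / X)) + 128 * C1 * C0 * P := by
      field_simp
      ring
    have k3 : C1 * C0 * P ≤ C1 * C0 * P * (T / X) := le_mul_of_one_le_right (by positivity) hTX1
    have k4 : 0 ≤ C1 * C0 * P * (T / X) := by positivity
    nlinarith
  have j3 : P * (T / X) * √T ≤ T ^ (1 / 2 + 1 / 16 : ℝ) := by
    have k1 : P * (T / X) ≤ T ^ (1 / 64 : ℝ) * T ^ (1 / 128 : ℝ) :=
      mul_le_mul_of_nonneg_left hTX hP0.le
    have k2 : T ^ (1 / 64 : ℝ) * T ^ (1 / 128 : ℝ) * √T = T ^ (1 / 64 + 1 / 128 + 1 / 2 : ℝ) := by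
      rw [Real.sqrt_eq_rpow, ← Real.rpow_add hT0, ← Real.rpow_add hT0]
    calc P * (T / X) * √T ≤ T ^ (1 / 64 : ℝ) * T ^ (1 / 128 : ℝ) * √T :=
          mul_le_mul_of_nonneg_right k1 hsT.le
      _ = T ^ (1 / 64 + 1 / 128 + 1 / 2 : ℝ) := k2
      _ ≤ T ^ (1 / 2 + 1 / 16 : ℝ) :=
          Real.rpow_le_rpow_of_exponent_le (by linarith) (by norm_num)
  have hμ0 : 0 < |l| / (4 * √T) := by positivity
  refine (div_le_div_of_nonneg_right j2 hμ0.le).trans ?_
  have j4 : 96 * 4 * C1 * C0 * (P * (T / X)) / 4 * 4 / (|l| / (4 * √T)) =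
      1536 * C1 * C0 * |l|⁻¹ * (P * (T / X) * √T) := by
    field_simp
    ring
  rw [j4, Real.rpow_neg_one]
  exact mul_le_mul_of_nonneg_left j3 (by positivity)
--END BD1

--BEGIN BD2
/-- Products of an amplitude with a slowly varying function. -/
private theorem BD2_amp {T X C0 M : ℝ} {a : ℝ → ℂ} (ha : Amp T X C0 a) (hX : 0 < X)
    (hC0 : 0 ≤ C0) {U : Set ℝ} (hU : IsOpen U) (hIU : Icc (T / 2) (4 * T) ⊆ U)
    {ψ ψ' ψ'' : ℝ → ℝ} (h1 : ∀ x ∈ U, HasDerivAt ψ (ψ' x) x)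
    (h2 : ∀ x ∈ U, HasDerivAt ψ' (ψ'' x) x) (h3 : ContinuousOn ψ'' U) (hM : 0 ≤ M)
    (b0 : ∀ x ∈ Icc (T / 2) (4 * T), |ψ x| ≤ M) (b1 : ∀ x ∈ Icc (T / 2) (4 * T), |ψ' x| ≤ M / X)
    (b2 : ∀ x ∈ Icc (T / 2) (4 * T), |ψ'' x| ≤ M / X ^ 2) :
    Amp T X (4 * C0 * M) (fun x => a x * (ψ x : ℂ)) ∧
    ∀ x, deriv (fun x => a x * (ψ x : ℂ)) x = deriv a x * (ψ x : ℂ) + a x * (ψ' x : ℂ) := by
  have hnear : ∀ x ∉ Icc (T / 2) (4 * T), ∀ᶠ z in 𝓝 x, a z = 0 ∧ deriv a z = 0 ∧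
      deriv (deriv a) z = 0 := fun x hx =>
    (isClosed_Icc.isOpen_compl.eventually_mem hx).mono fun w hw => BB5_zero' ha hw
  have d1 : ∀ x, HasDerivAt (fun x => a x * (ψ x : ℂ))
      (deriv a x * (ψ x : ℂ) + a x * (ψ' x : ℂ)) x := by
    intro x
    by_cases hx : x ∈ U
    · exact (BB5_d1 ha x).mul (h1 x hx).ofReal_comp
    · have hx' : x ∉ Icc (T / 2) (4 * T) := fun h => hx (hIU h)
      obtain ⟨z1, z2, z3⟩ := BB5_zero' ha hx'
      rw [z1, z2, zero_mul, zero_mul, add_zero]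
      refine (hasDerivAt_const x (0 : ℂ)).congr_of_eventuallyEq ?_
      exact (hnear x hx').mono fun w hw => by
        simp only
        rw [hw.1, zero_mul]
  have d2 : ∀ x, HasDerivAt (fun x => deriv a x * (ψ x : ℂ) + a x * (ψ' x : ℂ))
      (deriv (deriv a) x * (ψ x : ℂ) + deriv a x * (ψ' x : ℂ) +
        (deriv a x * (ψ' x : ℂ) + a x * (ψ'' x : ℂ))) x := by
    intro x
    by_cases hx : x ∈ U
    · exact ((BB5_d2 ha x).mul (h1 x hx).ofReal_comp).add
        ((BB5_d1 ha x).mul (h2 x hx).ofReal_comp)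
    · have hx' : x ∉ Icc (T / 2) (4 * T) := fun h => hx (hIU h)
      obtain ⟨z1, z2, z3⟩ := BB5_zero' ha hx'
      rw [z1, z2, z3]
      simp only [zero_mul, add_zero]
      refine (hasDerivAt_const x (0 : ℂ)).congr_of_eventuallyEq ?_
      exact (hnear x hx').mono fun w hw => by
        simp only
        rw [hw.1, hw.2.1, zero_mul, zero_mul, add_zero]
  have e1 : deriv (fun x => a x * (ψ x : ℂ)) =
      fun x => deriv a x * (ψ x : ℂ) + a x * (ψ' x : ℂ) := funext fun x => (d1 x).deriv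
  have e2 : deriv (deriv (fun x => a x * (ψ x : ℂ))) =
      fun x => deriv (deriv a) x * (ψ x : ℂ) + deriv a x * (ψ' x : ℂ) +
        (deriv a x * (ψ' x : ℂ) + a x * (ψ'' x : ℂ)) := by
    rw [e1]
    exact funext fun x => (d2 x).deriv
  have c2 : Continuous (deriv (deriv (fun x => a x * (ψ x : ℂ)))) := by
    rw [e2, continuous_iff_continuousAt]
    intro x
    by_cases hx : x ∈ U
    · have ca : ContinuousAt a x := (BB5_d1 ha x).continuousAt
      have cd : ContinuousAt (deriv a) x := (BB5_c1 ha).continuousAt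
      have cdd : ContinuousAt (deriv (deriv a)) x := (BB5_c2 ha).continuousAt
      have p0 : ContinuousAt (fun x => (ψ x : ℂ)) x := (h1 x hx).ofReal_comp.continuousAt
      have p1 : ContinuousAt (fun x => (ψ' x : ℂ)) x := (h2 x hx).ofReal_comp.continuousAt
      have p2 : ContinuousAt (fun x => (ψ'' x : ℂ)) x :=
        Complex.continuous_ofReal.continuousAt.comp (h3.continuousAt (hU.mem_nhds hx))
      exact ((cdd.mul p0).add (cd.mul p1)).add ((cd.mul p1).add (ca.mul p2))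
    · have hx' : x ∉ Icc (T / 2) (4 * T) := fun h => hx (hIU h)
      refine (continuousAt_const (y := (0 : ℂ))).congr ?_
      exact (hnear x hx').mono fun w hw => by
        simp only
        rw [hw.1, hw.2.1, hw.2.2]
        simp
  have hsm : ContDiff ℝ 2 (fun x => a x * (ψ x : ℂ)) := by
    rw [show (2 : WithTop ℕ∞) = 1 + 1 from one_add_one_eq_two.symm, contDiff_succ_iff_deriv]
    refine ⟨fun x => (d1 x).differentiableAt, by simp, ?_⟩
    rw [contDiff_one_iff_deriv]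
    refine ⟨?_, c2⟩
    rw [e1]
    exact fun x => (d2 x).differentiableAt
  refine ⟨⟨hsm, ?_, ?_, ?_, ?_⟩, fun x => (d1 x).deriv⟩
  · intro x hx
    rw [ha.supp x hx, zero_mul]
  · intro x
    by_cases hx : x ∈ Icc (T / 2) (4 * T)
    · rw [norm_mul, Complex.norm_real, Real.norm_eq_abs]
      calc ‖a x‖ * |ψ x| ≤ C0 * M := mul_le_mul (ha.b0 x) (b0 x hx) (abs_nonneg _) hC0
        _ ≤ 4 * C0 * M := by nlinarith [mul_nonneg hC0 hM]
    · rw [ha.supp x hx, zero_mul, norm_zero]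
      positivity
  · intro x
    rw [e1]
    simp only
    by_cases hx : x ∈ Icc (T / 2) (4 * T)
    · refine (norm_add_le _ _).trans ?_
      rw [norm_mul, norm_mul, Complex.norm_real, Complex.norm_real, Real.norm_eq_abs,
        Real.norm_eq_abs]
      have i1 : ‖deriv a x‖ * |ψ x| ≤ C0 / X * M :=
        mul_le_mul (ha.b1 x) (b0 x hx) (abs_nonneg _) (by positivity)
      have i2 : ‖a x‖ * |ψ' x| ≤ C0 * (M / X) :=
        mul_le_mul (ha.b0 x) (b1 x hx) (abs_nonneg _) hC0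
      have i3 : 4 * C0 * M / X = 4 * (C0 / X * M) := by ring
      have i4 : C0 * (M / X) = C0 / X * M := by ring
      have i5 : 0 ≤ C0 / X * M := by positivity
      rw [i3]
      linarith
    · obtain ⟨z1, z2, z3⟩ := BB5_zero' ha hx
      rw [z1, z2, zero_mul, zero_mul, add_zero, norm_zero]
      positivity
  · intro x
    rw [e2]
    simp only
    by_cases hx : x ∈ Icc (T / 2) (4 * T)
    · refine (norm_add_le _ _).trans ?_
      refine (add_le_add (norm_add_le _ _) (norm_add_le _ _)).trans ?_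
      rw [norm_mul, norm_mul, norm_mul, Complex.norm_real, Complex.norm_real, Complex.norm_real,
        Real.norm_eq_abs, Real.norm_eq_abs, Real.norm_eq_abs]
      have i1 : ‖deriv (deriv a) x‖ * |ψ x| ≤ C0 / X ^ 2 * M :=
        mul_le_mul (ha.b2 x) (b0 x hx) (abs_nonneg _) (by positivity)
      have i2 : ‖deriv a x‖ * |ψ' x| ≤ C0 / X * (M / X) :=
        mul_le_mul (ha.b1 x) (b1 x hx) (abs_nonneg _) (by positivity)
      have i2' : ‖a x‖ * |ψ'' x| ≤ C0 * (M / X ^ 2) :=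
        mul_le_mul (ha.b0 x) (b2 x hx) (abs_nonneg _) hC0
      have i3 : 4 * C0 * M / X ^ 2 = 4 * (C0 / X ^ 2 * M) := by ring
      have i4 : C0 / X * (M / X) = C0 / X ^ 2 * M := by
        field_simp
      have i5 : C0 * (M / X ^ 2) = C0 / X ^ 2 * M := by ring
      rw [i3]
      linarith
    · obtain ⟨z1, z2, z3⟩ := BB5_zero' ha hx
      rw [z1, z2, z3]
      simp only [zero_mul, add_zero, norm_zero]
      positivity

/-- Integration by parts for a complex valued function. -/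
private theorem BD2_parts (k : ℕ) {G G' : ℝ → ℂ} {p q : ℝ} (hp : 0 < p) (hpq : p ≤ q)
    (hG : ∀ x ∈ Icc p q, HasDerivAt G (G' x) x) (hG' : ContinuousOn G' (Icc p q))
    (h0 : G p = 0) (h1 : G q = 0) :
    IntervalIntegrable (fun x => G' x * (Ek k x : ℂ)) volume p q ∧
    ∫ x in p..q, G' x * (Ek k x : ℂ) =
      -(∑ n ∈ Finset.Icc 1 ⌊q⌋₊, if p ≤ (n : ℝ) then (dk k n : ℂ) * G n else 0) +
        ∫ x in p..q, G x * (Mk1 k x : ℂ) := by
  have key : ∀ (L : ℂ →L[ℝ] ℝ), IntegrableOn (fun x => L (G' x) * Ek k x) (Icc p q) ∧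
      ∫ x in p..q, L (G' x) * Ek k x =
      -(∑ n ∈ Finset.Icc 1 ⌊q⌋₊, if p ≤ (n : ℝ) then dk k n * L (G n) else 0) +
        ∫ x in p..q, L (G x) * Mk1 k x := by
    intro L
    have hd : ∀ x ∈ Icc p q, HasDerivAt (fun x => L (G x)) (L (G' x)) x := fun x hx =>
      L.hasFDerivAt.comp_hasDerivAt x (hG x hx)
    have hc : ContinuousOn (fun x => L (G' x)) (Icc p q) := L.continuous.comp_continuousOn hG'
    refine int_Ek_parts k (F := fun x => L (G x)) hp hpq hc.integrableOn_Icc ?_ ?_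
    · intro x hx
      rw [intervalIntegral.integral_eq_sub_of_hasDerivAt (f := fun x => L (G x))
        (fun t ht => hd t ?_) ((hc.mono (Icc_subset_Icc le_rfl hx.2)).intervalIntegrable_of_Icc
          hx.1), h0, map_zero, sub_zero]
      rw [uIcc_of_le hx.1] at ht
      exact ⟨ht.1, ht.2.trans hx.2⟩
    · rw [h1, map_zero]
  obtain ⟨r1, r2⟩ := key Complex.reCLM
  obtain ⟨i1, i2⟩ := key Complex.imCLM
  simp only [Complex.reCLM_apply, Complex.imCLM_apply] at r1 r2 i1 i2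
  have r1' : IntervalIntegrable (fun x => (G' x).re * Ek k x) volume p q :=
    (intervalIntegrable_iff_integrableOn_Icc_of_le hpq).2 r1
  have i1' : IntervalIntegrable (fun x => (G' x).im * Ek k x) volume p q :=
    (intervalIntegrable_iff_integrableOn_Icc_of_le hpq).2 i1
  have hsplit : ∀ (z : ℂ) (r : ℝ), z * (r : ℂ) = ((z.re * r : ℝ) : ℂ) + ((z.im * r : ℝ) : ℂ) * I := by
    intro z r
    apply Complex.ext <;> simp
  have hMc : ContinuousOn (fun x => Mk1 k x) (Icc p q) := fun x hx =>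
    (Mk_deriv k (hp.trans_le hx.1)).2.1.continuousAt.continuousWithinAt
  have hGc : ContinuousOn G (Icc p q) := fun x hx => (hG x hx).continuousAt.continuousWithinAt
  have m1 : IntervalIntegrable (fun x => (G x).re * Mk1 k x) volume p q :=
    ((Complex.continuous_re.comp_continuousOn hGc).mul hMc).intervalIntegrable_of_Icc hpq
  have m2 : IntervalIntegrable (fun x => (G x).im * Mk1 k x) volume p q :=
    ((Complex.continuous_im.comp_continuousOn hGc).mul hMc).intervalIntegrable_of_Icc hpq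
  have c1 : IntervalIntegrable (fun x => (((G' x).re * Ek k x : ℝ) : ℂ)) volume p q :=
    ⟨r1'.1.ofReal, r1'.2.ofReal⟩
  have c2 : IntervalIntegrable (fun x => (((G' x).im * Ek k x : ℝ) : ℂ)) volume p q :=
    ⟨i1'.1.ofReal, i1'.2.ofReal⟩
  have c3 : IntervalIntegrable (fun x => (((G x).re * Mk1 k x : ℝ) : ℂ)) volume p q :=
    ⟨m1.1.ofReal, m1.2.ofReal⟩
  have c4 : IntervalIntegrable (fun x => (((G x).im * Mk1 k x : ℝ) : ℂ)) volume p q :=
    ⟨m2.1.ofReal, m2.2.ofReal⟩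
  constructor
  · have : (fun x => G' x * (Ek k x : ℂ)) = fun x => (((G' x).re * Ek k x : ℝ) : ℂ) +
        (((G' x).im * Ek k x : ℝ) : ℂ) * I := funext fun x => hsplit _ _
    rw [this]
    exact c1.add (c2.mul_const I)
  · have e1 : ∫ x in p..q, G' x * (Ek k x : ℂ) = ((∫ x in p..q, (G' x).re * Ek k x : ℝ) : ℂ) +
        ((∫ x in p..q, (G' x).im * Ek k x : ℝ) : ℂ) * I := by
      simp only [hsplit (G' _)]
      rw [intervalIntegral.integral_add c1 (c2.mul_const I), intervalIntegral.integral_mul_const,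
        intervalIntegral.integral_ofReal, intervalIntegral.integral_ofReal]
    have e2 : ∫ x in p..q, G x * (Mk1 k x : ℂ) = ((∫ x in p..q, (G x).re * Mk1 k x : ℝ) : ℂ) +
        ((∫ x in p..q, (G x).im * Mk1 k x : ℝ) : ℂ) * I := by
      simp only [hsplit (G _)]
      rw [intervalIntegral.integral_add c3 (c4.mul_const I), intervalIntegral.integral_mul_const,
        intervalIntegral.integral_ofReal, intervalIntegral.integral_ofReal]
    have e3 : ∑ n ∈ Finset.Icc 1 ⌊q⌋₊, (if p ≤ (n : ℝ) then (dk k n : ℂ) * G n else 0) =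
        ((∑ n ∈ Finset.Icc 1 ⌊q⌋₊, if p ≤ (n : ℝ) then dk k n * (G n).re else 0 : ℝ) : ℂ) +
        ((∑ n ∈ Finset.Icc 1 ⌊q⌋₊, if p ≤ (n : ℝ) then dk k n * (G n).im else 0 : ℝ) : ℂ) * I := by
      rw [Complex.ofReal_sum, Complex.ofReal_sum, Finset.sum_mul, ← Finset.sum_add_distrib]
      refine Finset.sum_congr rfl fun n _ => ?_
      split_ifs
      · rw [mul_comm (dk k n : ℂ), hsplit, mul_comm (G n).re, mul_comm (G n).im]
      · simp
    rw [e1, e2, e3, r2, i2]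
    push_cast
    ring

private theorem BD2_TX {k : ℕ} {T : ℝ} (hT : 0 < T) :
    T / Xw k T = T ^ (1 / (32 * (k : ℝ))) := by
  unfold Xw
  conv_lhs => rw [show T / T ^ (1 - 1 / (32 * (k : ℝ))) =
    T ^ (1 : ℝ) / T ^ (1 - 1 / (32 * (k : ℝ))) by rw [Real.rpow_one]]
  rw [← Real.rpow_sub hT]
  congr 1
  ring

private theorem BD2_final {k : ℕ} (hk : 4 ≤ k) {l0 l T C4 C5 C7 : ℝ} (hl0 : 0 < l0)
    (hl : l0 ≤ l) (hT : 1 ≤ T) (hC4 : 0 ≤ C4) (hC5 : 0 ≤ C5) (hC7 : 0 ≤ C7) :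
    (√T / l) * (C4 * l ^ (15 / 32 : ℝ) * T ^ (1 - 1 / (2 * (k : ℝ)) - 1 / (16 * (k : ℝ))) +
      C5 * l ^ (-1 : ℝ) * T ^ (1 / 2 + 1 / 16 : ℝ) +
      C7 * (T ^ (1 - 3 / (4 * (k : ℝ)) + 5 / (64 * (k : ℝ))) * (T / Xw k T))) ≤
    (C4 + C5 * l0 ^ (-(47 / 32) : ℝ) + C7 * l0 ^ (-(15 / 32) : ℝ)) * l ^ (-(17 / 32) : ℝ) *
      T ^ (3 / 2 - 1 / (2 * (k : ℝ)) - 1 / (16 * (k : ℝ))) := by
  have hk4 : (4 : ℝ) ≤ k := by exact_mod_cast hk
  have hk0 : (0 : ℝ) < k := by linarith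
  have hT0 : 0 < T := by linarith
  have hl' : 0 < l := hl0.trans_le hl
  have hsT : 0 < √T := Real.sqrt_pos.2 hT0
  have h1k : 1 / (k : ℝ) ≤ 1 / 4 := one_div_le_one_div_of_le (by norm_num) hk4
  have h1k0 : 0 < 1 / (k : ℝ) := by positivity
  set α : ℝ := 1 - 1 / (2 * (k : ℝ)) - 1 / (16 * (k : ℝ)) with hα
  have hαk : α = 1 - 9 / 16 * (1 / (k : ℝ)) := by
    rw [hα]
    field_simp
    ring
  have e1 : T ^ (3 / 2 - 1 / (2 * (k : ℝ)) - 1 / (16 * (k : ℝ))) = √T * T ^ α := by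
    rw [Real.sqrt_eq_rpow, ← Real.rpow_add hT0]
    congr 1
    rw [hα]
    ring
  have hTα : 0 < T ^ α := Real.rpow_pos_of_pos hT0 _
  have e2 : T ^ (1 / 2 + 1 / 16 : ℝ) ≤ T ^ α := by
    apply Real.rpow_le_rpow_of_exponent_le hT
    rw [hαk]
    linarith
  have e3 : T ^ (1 - 3 / (4 * (k : ℝ)) + 5 / (64 * (k : ℝ))) * (T / Xw k T) ≤ T ^ α := by
    rw [BD2_TX hT0, ← Real.rpow_add hT0]
    apply Real.rpow_le_rpow_of_exponent_le hT
    rw [hαk]
    have : 1 - 3 / (4 * (k : ℝ)) + 5 / (64 * (k : ℝ)) + 1 / (32 * (k : ℝ)) =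
        1 - 41 / 64 * (1 / (k : ℝ)) := by
      field_simp
      ring
    rw [this]
    linarith
  have f1 : l⁻¹ * l ^ (15 / 32 : ℝ) = l ^ (-(17 / 32) : ℝ) := by
    rw [← Real.rpow_neg_one l, ← Real.rpow_add hl']
    norm_num
  have f2 : l⁻¹ * l ^ (-1 : ℝ) ≤ l0 ^ (-(47 / 32) : ℝ) * l ^ (-(17 / 32) : ℝ) := by
    have h1 : l⁻¹ * l ^ (-1 : ℝ) = l ^ (-(47 / 32) : ℝ) * l ^ (-(17 / 32) : ℝ) := by
      rw [← Real.rpow_neg_one l, ← Real.rpow_add hl', ← Real.rpow_add hl']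
      norm_num
    rw [h1]
    exact mul_le_mul_of_nonneg_right (Real.rpow_le_rpow_of_nonpos hl0 hl (by norm_num))
      (Real.rpow_nonneg hl'.le _)
  have f3 : l⁻¹ ≤ l0 ^ (-(15 / 32) : ℝ) * l ^ (-(17 / 32) : ℝ) := by
    have h1 : l⁻¹ = l ^ (-(15 / 32) : ℝ) * l ^ (-(17 / 32) : ℝ) := by
      rw [← Real.rpow_neg_one l, ← Real.rpow_add hl']
      norm_num
    rw [h1]
    exact mul_le_mul_of_nonneg_right (Real.rpow_le_rpow_of_nonpos hl0 hl (by norm_num))
      (Real.rpow_nonneg hl'.le _)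
  have hL : 0 < l ^ (-(17 / 32) : ℝ) := Real.rpow_pos_of_pos hl' _
  have hLi : 0 < l⁻¹ := inv_pos.2 hl'
  have hLn : 0 < l ^ (-1 : ℝ) := Real.rpow_pos_of_pos hl' _
  have hL01 : 0 < l0 ^ (-(47 / 32) : ℝ) := Real.rpow_pos_of_pos hl0 _
  have hL02 : 0 < l0 ^ (-(15 / 32) : ℝ) := Real.rpow_pos_of_pos hl0 _
  have hX0 : 0 < Xw k T := Real.rpow_pos_of_pos hT0 _
  have g1 : (√T / l) * (C4 * l ^ (15 / 32 : ℝ) * T ^ α) =
      C4 * l ^ (-(17 / 32) : ℝ) * (√T * T ^ α) := by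
    rw [← f1]
    ring
  have g2 : (√T / l) * (C5 * l ^ (-1 : ℝ) * T ^ (1 / 2 + 1 / 16 : ℝ)) ≤
      C5 * l0 ^ (-(47 / 32) : ℝ) * l ^ (-(17 / 32) : ℝ) * (√T * T ^ α) := by
    calc (√T / l) * (C5 * l ^ (-1 : ℝ) * T ^ (1 / 2 + 1 / 16 : ℝ)) =
          C5 * (l⁻¹ * l ^ (-1 : ℝ)) * (√T * T ^ (1 / 2 + 1 / 16 : ℝ)) := by ring
      _ ≤ C5 * (l0 ^ (-(47 / 32) : ℝ) * l ^ (-(17 / 32) : ℝ)) * (√T * T ^ α) := by
          gcongr
      _ = _ := by ring
  have g3 : (√T / l) * (C7 * (T ^ (1 - 3 / (4 * (k : ℝ)) + 5 / (64 * (k : ℝ))) *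
      (T / Xw k T))) ≤
      C7 * l0 ^ (-(15 / 32) : ℝ) * l ^ (-(17 / 32) : ℝ) * (√T * T ^ α) := by
    calc (√T / l) * (C7 * (T ^ (1 - 3 / (4 * (k : ℝ)) + 5 / (64 * (k : ℝ))) * (T / Xw k T))) =
          C7 * l⁻¹ * (√T * (T ^ (1 - 3 / (4 * (k : ℝ)) + 5 / (64 * (k : ℝ))) *
            (T / Xw k T))) := by ring
      _ ≤ C7 * (l0 ^ (-(15 / 32) : ℝ) * l ^ (-(17 / 32) : ℝ)) * (√T * T ^ α) := by
          gcongr
      _ = _ := by ring
  rw [e1, mul_add, mul_add, g1]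
  calc _ ≤ C4 * l ^ (-(17 / 32) : ℝ) * (√T * T ^ α) +
        C5 * l0 ^ (-(47 / 32) : ℝ) * l ^ (-(17 / 32) : ℝ) * (√T * T ^ α) +
        C7 * l0 ^ (-(15 / 32) : ℝ) * l ^ (-(17 / 32) : ℝ) * (√T * T ^ α) :=
        add_le_add (add_le_add le_rfl g2) g3
    _ = _ := by ring

private theorem BD2_psi {k : ℕ} (hk : 4 ≤ k) {l0 l κ' T X : ℝ} (hl0 : 0 < l0) (hl : l0 ≤ |l|)
    (hκ : |κ'| ≤ k) (hT : 4 * (2 / l0) ^ 4 + 4 ≤ T) (hX0 : 0 < X) (hXT : X ≤ T) :
    ∃ ψ ψ' ψ'' : ℝ → ℝ, (∀ x ∈ Ioi (T / 4), HasDerivAt ψ (ψ' x) x) ∧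
      (∀ x ∈ Ioi (T / 4), HasDerivAt ψ' (ψ'' x) x) ∧ ContinuousOn ψ'' (Ioi (T / 4)) ∧
      (∀ x ∈ Icc (T / 2) (4 * T), |ψ x| ≤ 3072) ∧
      (∀ x ∈ Icc (T / 2) (4 * T), |ψ' x| ≤ 3072 / X) ∧
      (∀ x ∈ Icc (T / 2) (4 * T), |ψ'' x| ≤ 3072 / X ^ 2) ∧
      ∀ x ∈ Ioi (T / 4), √T / |l| * ψ x * (l / √x + κ' / k * x ^ (1 / (k : ℝ) - 1)) = 1 := by
  have h0 : 0 ≤ (2 / l0) ^ 4 := by positivity
  have hT4 : 4 ≤ T := by linarith
  have hT0 : 0 < T := by linarith
  have hl00 : 0 < |l| := hl0.trans_le hl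
  have hsT : 0 < √T := Real.sqrt_pos.2 hT0
  set φ1 : ℝ → ℝ := fun x => l / √x + κ' / k * x ^ (1 / (k : ℝ) - 1) with hφ1
  set φ2 : ℝ → ℝ := fun x => -(l / 2) * x ^ (-(3 / 2) : ℝ) +
        κ' / k * (1 / k - 1) * x ^ (1 / (k : ℝ) - 2) with hφ2
  set φ3 : ℝ → ℝ := fun x => 3 / 4 * l * x ^ (-(5 / 2) : ℝ) +
        κ' / k * (1 / k - 1) * (1 / k - 2) * x ^ (1 / (k : ℝ) - 3) with hφ3
  have hmem : ∀ x ∈ Ioi (T / 4), 1 ≤ x ∧ (2 / l0) ^ 4 ≤ x ∧ 0 < x := fun x hx =>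
    ⟨by linarith [hx.out], by linarith [hx.out], by linarith [hx.out]⟩
  have hd1 : ∀ x ∈ Ioi (T / 4), HasDerivAt φ1 (φ2 x) x := fun x hx =>
    (ph_deriv k hk l κ' (hmem x hx).2.2).2
  have hd2 : ∀ x ∈ Ioi (T / 4), HasDerivAt φ2 (φ3 x) x := fun x hx =>
    BD1_third l κ' (hmem x hx).2.2
  have hph : ∀ x ∈ Ioi (T / 4), |l| / (2 * √x) ≤ |φ1 x| ∧ |φ2 x| ≤ (4 / x) * |φ1 x| ∧
      |φ3 x| ≤ (4 / x ^ 2) * |φ1 x| := fun x hx =>
    BD1_phase hk hl0 hl hκ (hmem x hx).1 (hmem x hx).2.1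
  have hne : ∀ x ∈ Ioi (T / 4), φ1 x ≠ 0 := by
    intro x hx h
    have h1 := (hph x hx).1
    rw [h, abs_zero] at h1
    have h2 : 0 < √x := Real.sqrt_pos.2 (hmem x hx).2.2
    have h3 : 0 < |l| / (2 * √x) := by positivity
    linarith
  have hφ3c : ContinuousOn φ3 (Ioi (T / 4)) := by
    intro x hx
    have x0 := (hmem x hx).2.2
    apply ContinuousAt.continuousWithinAt
    exact (continuousAt_const.mul (Real.continuousAt_rpow_const _ _ (Or.inl x0.ne'))).add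
      (continuousAt_const.mul (Real.continuousAt_rpow_const _ _ (Or.inl x0.ne')))
  have hφ1c : ContinuousOn φ1 (Ioi (T / 4)) := fun x hx =>
    (hd1 x hx).continuousAt.continuousWithinAt
  have hφ2c : ContinuousOn φ2 (Ioi (T / 4)) := fun x hx =>
    (hd2 x hx).continuousAt.continuousWithinAt
  set c : ℝ := |l| / √T with hc
  have hc0 : 0 < c := by positivity
  have hsub : ∀ x ∈ Icc (T / 2) (4 * T), x ∈ Ioi (T / 4) := fun x hx =>
    mem_Ioi.2 (by linarith [hx.1])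
  have hcb : ∀ x ∈ Icc (T / 2) (4 * T), c / |φ1 x| ≤ 4 := by
    intro x hx
    have x0 := (hmem x (hsub x hx)).2.2
    have hsx : 0 < √x := Real.sqrt_pos.2 x0
    have h1 := (hph x (hsub x hx)).1
    have h2 : 0 < |φ1 x| := abs_pos.2 (hne x (hsub x hx))
    have h3 : √x ≤ 2 * √T := by
      rw [Real.sqrt_le_left (by positivity), mul_pow, Real.sq_sqrt hT0.le]
      linarith [hx.2]
    rw [div_le_iff₀ h2]
    have h4 : c ≤ 4 * (|l| / (2 * √x)) := by
      rw [hc, show 4 * (|l| / (2 * √x)) = (2 * |l|) / √x by field_simp; norm_num,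
        div_le_div_iff₀ hsT hsx]
      nlinarith
    linarith
  refine ⟨fun x => c / φ1 x, fun x => -(c * φ2 x) / φ1 x ^ 2,
    fun x => c * (2 * φ2 x ^ 2 - φ1 x * φ3 x) / φ1 x ^ 3, ?_, ?_, ?_, ?_, ?_, ?_, ?_⟩
  · intro x hx
    have := (hasDerivAt_const x c).div (hd1 x hx) (hne x hx)
    refine this.congr_deriv ?_
    rw [zero_mul, zero_sub]
  · intro x hx
    have h1 := ((hd2 x hx).const_mul c).neg.div ((hd1 x hx).pow 2) (pow_ne_zero 2 (hne x hx))
    refine h1.congr_deriv ?_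
    have h2 := hne x hx
    simp only [Pi.pow_apply, Pi.neg_apply]
    field_simp
    ring
  · exact (continuousOn_const.mul ((continuousOn_const.mul (hφ2c.pow 2)).sub
      (hφ1c.mul hφ3c))).div (hφ1c.pow 3) fun x hx => pow_ne_zero 3 (hne x hx)
  · intro x hx
    simp only
    rw [abs_div, abs_of_pos hc0]
    have := hcb x hx
    linarith
  · intro x hx
    simp only
    have x0 := (hmem x (hsub x hx)).2.2
    obtain ⟨-, h2, -⟩ := hph x (hsub x hx)
    have h3 : 0 < |φ1 x| := abs_pos.2 (hne x (hsub x hx))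
    rw [abs_div, abs_neg, abs_mul, abs_of_pos hc0, abs_pow]
    have h4 : |φ2 x| / |φ1 x| ≤ 4 / x := by rwa [div_le_iff₀ h3]
    have h5 : 4 / x ≤ 8 / X := by
      rw [div_le_div_iff₀ x0 hX0]
      linarith [hx.1]
    have h6 : c * |φ2 x| / |φ1 x| ^ 2 = (c / |φ1 x|) * (|φ2 x| / |φ1 x|) := by
      field_simp
    rw [h6]
    calc (c / |φ1 x|) * (|φ2 x| / |φ1 x|) ≤ 4 * (8 / X) :=
          mul_le_mul (hcb x hx) (h4.trans h5) (by positivity) (by norm_num)
      _ ≤ 3072 / X := by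
          rw [← mul_div_assoc]
          exact div_le_div_of_nonneg_right (by norm_num) hX0.le
  · intro x hx
    simp only
    have x0 := (hmem x (hsub x hx)).2.2
    obtain ⟨-, h2, h2'⟩ := hph x (hsub x hx)
    have h3 : 0 < |φ1 x| := abs_pos.2 (hne x (hsub x hx))
    have h4 : |φ2 x| / |φ1 x| ≤ 8 / X := by
      have : |φ2 x| / |φ1 x| ≤ 4 / x := by rwa [div_le_iff₀ h3]
      refine this.trans ?_
      rw [div_le_div_iff₀ x0 hX0]
      linarith [hx.1]
    have h5 : |φ3 x| / |φ1 x| ≤ 16 / X ^ 2 := by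
      have : |φ3 x| / |φ1 x| ≤ 4 / x ^ 2 := by rwa [div_le_iff₀ h3]
      refine this.trans ?_
      rw [div_le_div_iff₀ (by positivity) (by positivity)]
      have : X ≤ 2 * x := by linarith [hx.1]
      nlinarith
    rw [abs_div, abs_mul, abs_of_pos hc0, abs_pow]
    have h6 : |2 * φ2 x ^ 2 - φ1 x * φ3 x| ≤ 2 * |φ2 x| ^ 2 + |φ1 x| * |φ3 x| := by
      refine (abs_sub _ _).trans ?_
      rw [abs_mul, abs_mul, abs_pow, abs_two]
    have h7 : c * |2 * φ2 x ^ 2 - φ1 x * φ3 x| / |φ1 x| ^ 3 ≤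
        c * (2 * |φ2 x| ^ 2 + |φ1 x| * |φ3 x|) / |φ1 x| ^ 3 :=
      div_le_div_of_nonneg_right (mul_le_mul_of_nonneg_left h6 hc0.le) (by positivity)
    refine h7.trans ?_
    have h8 : c * (2 * |φ2 x| ^ 2 + |φ1 x| * |φ3 x|) / |φ1 x| ^ 3 =
        (c / |φ1 x|) * (2 * (|φ2 x| / |φ1 x|) ^ 2 + |φ3 x| / |φ1 x|) := by
      field_simp
    rw [h8]
    have h9 : 2 * (|φ2 x| / |φ1 x|) ^ 2 + |φ3 x| / |φ1 x| ≤ 2 * (8 / X) ^ 2 + 16 / X ^ 2 :=
      add_le_add (mul_le_mul_of_nonneg_left (pow_le_pow_left₀ (by positivity) h4 2)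
        (by norm_num)) h5
    calc (c / |φ1 x|) * (2 * (|φ2 x| / |φ1 x|) ^ 2 + |φ3 x| / |φ1 x|) ≤
          4 * (2 * (8 / X) ^ 2 + 16 / X ^ 2) :=
          mul_le_mul (hcb x hx) h9 (by positivity) (by norm_num)
      _ = 576 / X ^ 2 := by
          field_simp
          norm_num
      _ ≤ 3072 / X ^ 2 := div_le_div_of_nonneg_right (by norm_num) (by positivity)
  · intro x hx
    have h2 := hne x hx
    change √T / |l| * (c / φ1 x) * φ1 x = 1
    rw [hc]
    field_simp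

/-- **BD2.** The oscillatory integral against `Δ_k`: one integration by parts (ZA8), then BC4, BD1
and the pointwise bound ZD1 for the term with the derivative of the amplitude. -/
theorem int_Ek_osc {k : ℕ} (hk : 4 ≤ k) {l0 C0 : ℝ} (hl0 : 0 < l0) (hC0 : 0 < C0) :
    ∃ C T0 : ℝ, 0 < C ∧ 1 ≤ T0 ∧ ∀ (T l κ' : ℝ) (a : ℝ → ℂ), T0 ≤ T → l0 ≤ |l| → |κ'| ≤ k →
      Amp T (Xw k T) C0 a →
      ‖∫ x in (T / 2)..(4 * T), (Ek k x : ℂ) * (a x * e (ph k l κ' x))‖ ≤
      C * |l| ^ (-(17 / 32) : ℝ) * T ^ (3 / 2 - 1 / (2 * (k : ℝ)) - 1 / (16 * (k : ℝ))) := by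
  have hk4 : (4 : ℝ) ≤ k := by exact_mod_cast hk
  have hk0 : (0 : ℝ) < k := by linarith
  set C1 : ℝ := 4 * C0 * 3072 with hC1
  have hC10 : 0 < C1 := by positivity
  obtain ⟨C4, hC4, hsum⟩ := expSum hk hl0 hC10
  obtain ⟨C5, T5, hC5, hT5, hmain⟩ := int_main_osc hk hl0 hC10
  obtain ⟨C6, hC6, hEk⟩ := Ek_bound (k := k) (by omega) (ε := 5 / (64 * (k : ℝ))) (by positivity)
  refine ⟨C4 + C5 * l0 ^ (-(47 / 32) : ℝ) + 64 * C1 * C6 * l0 ^ (-(15 / 32) : ℝ),
    max T5 (4 * (2 / l0) ^ 4 + 4), ?_, le_max_of_le_left hT5, ?_⟩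
  · have h1 : 0 < l0 ^ (-(47 / 32) : ℝ) := Real.rpow_pos_of_pos hl0 _
    have h2 : 0 < l0 ^ (-(15 / 32) : ℝ) := Real.rpow_pos_of_pos hl0 _
    positivity
  intro T l κ' a hT hl hκ ha
  have hTT5 : T5 ≤ T := (le_max_left _ _).trans hT
  have hTl : 4 * (2 / l0) ^ 4 + 4 ≤ T := (le_max_right _ _).trans hT
  have h0 : 0 ≤ (2 / l0) ^ 4 := by positivity
  have hT4 : 4 ≤ T := by linarith
  have hT1 : 1 ≤ T := by linarith
  have hT0 : 0 < T := by linarith
  have hl00 : 0 < |l| := hl0.trans_le hl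
  obtain ⟨hX1, hXT, -⟩ := BD1_Xw hk hT1
  have hX0 : 0 < Xw k T := by linarith
  have hsT : 0 < √T := Real.sqrt_pos.2 hT0
  have hpq : T / 2 ≤ 4 * T := by linarith
  obtain ⟨ψ, ψ', ψ'', p1, p2, p3, p4, p5, p6, p7⟩ := BD2_psi hk hl0 hl hκ hTl hX0 hXT
  have hIU : Icc (T / 2) (4 * T) ⊆ Ioi (T / 4) := fun x hx => mem_Ioi.2 (by linarith [hx.1])
  obtain ⟨hA, hAd⟩ := BD2_amp ha hX0 hC0.le isOpen_Ioi hIU p1 p2 p3 (by norm_num) p4 p5 p6
  rw [← hC1] at hA
  generalize ha1 : (fun x => a x * (ψ x : ℂ)) = a1 at hA hAd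
  have ha1x : ∀ x, a1 x = a x * (ψ x : ℂ) := fun x => by rw [← ha1]
  have hph : ∀ x ∈ Icc (T / 2) (4 * T), HasDerivAt (ph k l κ')
      (l / √x + κ' / k * x ^ (1 / (k : ℝ) - 1)) x := fun x hx =>
    (ph_deriv k hk l κ' (by linarith [hx.1])).1
  have hφc : ContinuousOn (fun x : ℝ => l / √x + κ' / k * x ^ (1 / (k : ℝ) - 1))
      (Icc (T / 2) (4 * T)) := fun x hx =>
    (ph_deriv k hk l κ' (by linarith [hx.1])).2.continuousAt.continuousWithinAt
  have hphc : ContinuousOn (fun x => e (ph k l κ' x)) (Icc (T / 2) (4 * T)) :=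
    BA1_cont_e.comp_continuousOn fun x hx => (hph x hx).continuousAt.continuousWithinAt
  have ha1c : Continuous a1 := continuous_iff_continuousAt.2 fun x => (BB5_d1 hA x).continuousAt
  -- integration by parts
  have hG : ∀ x ∈ Icc (T / 2) (4 * T), HasDerivAt (fun x => a1 x * e (ph k l κ' x))
      (deriv a1 x * e (ph k l κ' x) + a1 x * (2 * π * I *
        ((l / √x + κ' / k * x ^ (1 / (k : ℝ) - 1) : ℝ) : ℂ) * e (ph k l κ' x))) x := fun x hx =>
    (BB5_d1 hA x).mul (BA1_deriv_e (hph x hx))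
  have hG'c : ContinuousOn (fun x => deriv a1 x * e (ph k l κ' x) + a1 x * (2 * π * I *
        ((l / √x + κ' / k * x ^ (1 / (k : ℝ) - 1) : ℝ) : ℂ) * e (ph k l κ' x)))
      (Icc (T / 2) (4 * T)) :=
    ((BB5_c1 hA).continuousOn.mul hphc).add (ha1c.continuousOn.mul
      ((continuousOn_const.mul (Complex.continuous_ofReal.comp_continuousOn hφc)).mul hphc))
  have hzero : ∀ x, x ∈ frontier (Icc (T / 2) (4 * T)) → a1 x = 0 := by
    intro x hx
    have h1 : x ∈ closure (Icc (T / 2) (4 * T))ᶜ := by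
      rw [closure_compl]
      rw [frontier] at hx
      exact hx.2
    have h2 : IsClosed {x | a1 x = 0} := isClosed_eq ha1c continuous_const
    exact (closure_minimal (fun y hy => hA.supp y hy) h2) h1
  have hzp : a1 (T / 2) = 0 := hzero _ (by rw [frontier_Icc hpq]; simp)
  have hzq : a1 (4 * T) = 0 := hzero _ (by rw [frontier_Icc hpq]; simp)
  obtain ⟨hi1, hi2⟩ := BD2_parts k (by linarith : 0 < T / 2) hpq hG hG'c
    (by rw [hzp, zero_mul]) (by rw [hzq, zero_mul])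
  -- the sum
  have hs1 : ‖∑ n ∈ Finset.Icc 1 ⌊4 * T⌋₊, (if T / 2 ≤ (n : ℝ) then
      (dk k n : ℂ) * (a1 n * e (ph k l κ' n)) else 0)‖ ≤
      C4 * |l| ^ (15 / 32 : ℝ) * T ^ (1 - 1 / (2 * (k : ℝ)) - 1 / (16 * (k : ℝ))) := by
    have h1 := hsum T l κ' a1 hT1 hl hκ hA
    have h2 : ∑ n ∈ Finset.Icc 1 ⌊4 * T⌋₊, (if T / 2 ≤ (n : ℝ) then
        (dk k n : ℂ) * (a1 n * e (ph k l κ' n)) else 0) =
        ∑ n ∈ Finset.Icc 1 ⌊4 * T⌋₊, (dk k n : ℂ) * (a1 n * e (ph k l κ' n)) := by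
      refine Finset.sum_congr rfl fun n _ => ?_
      split_ifs with h
      · rfl
      · rw [hA.supp n fun h' => h h'.1]
        ring
    rw [h2]
    exact h1
  have hs2 : ‖∫ x in (T / 2)..(4 * T), a1 x * e (ph k l κ' x) * (Mk1 k x : ℂ)‖ ≤
      C5 * |l| ^ (-1 : ℝ) * T ^ (1 / 2 + 1 / 16 : ℝ) := by
    have h1 := hmain T l κ' a1 hTT5 hl hκ hA
    have h2 : ∫ x in (T / 2)..(4 * T), a1 x * e (ph k l κ' x) * (Mk1 k x : ℂ) =
        ∫ x in (T / 2)..(4 * T), (Mk1 k x : ℂ) * (a1 x * e (ph k l κ' x)) :=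
      intervalIntegral.integral_congr fun x _ => mul_comm _ _
    rw [h2]
    exact h1
  -- the term with the derivative of the amplitude
  set E6 : ℝ := T ^ (1 - 3 / (4 * (k : ℝ)) + 5 / (64 * (k : ℝ))) with hE6
  have hE60 : 0 < E6 := Real.rpow_pos_of_pos hT0 _
  have hexp0 : 0 ≤ 1 - 3 / (4 * (k : ℝ)) + 5 / (64 * (k : ℝ)) ∧
      1 - 3 / (4 * (k : ℝ)) + 5 / (64 * (k : ℝ)) ≤ 2 := by
    have h1k : 1 / (k : ℝ) ≤ 1 / 4 := one_div_le_one_div_of_le (by norm_num) hk4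
    have h1k0 : 0 < 1 / (k : ℝ) := by positivity
    have : 1 - 3 / (4 * (k : ℝ)) + 5 / (64 * (k : ℝ)) = 1 - 43 / 64 * (1 / (k : ℝ)) := by
      field_simp
      ring
    rw [this]
    constructor <;> linarith
  have hEkb : ∀ x ∈ Icc (T / 2) (4 * T), |Ek k x| ≤ 16 * C6 * E6 := by
    intro x hx
    have x0 : 0 < x := by linarith [hx.1]
    refine (hEk x (by linarith [hx.1])).trans ?_
    have h1 : x ^ (1 - 3 / (4 * (k : ℝ)) + 5 / (64 * (k : ℝ))) ≤ 16 * E6 := by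
      calc x ^ (1 - 3 / (4 * (k : ℝ)) + 5 / (64 * (k : ℝ))) ≤
            (4 * T) ^ (1 - 3 / (4 * (k : ℝ)) + 5 / (64 * (k : ℝ))) :=
            Real.rpow_le_rpow x0.le hx.2 hexp0.1
        _ = 4 ^ (1 - 3 / (4 * (k : ℝ)) + 5 / (64 * (k : ℝ))) * E6 :=
            Real.mul_rpow (by norm_num) hT0.le
        _ ≤ 4 ^ (2 : ℝ) * E6 := mul_le_mul_of_nonneg_right
            (Real.rpow_le_rpow_of_exponent_le (by norm_num) hexp0.2) hE60.le
        _ = 16 * E6 := by norm_num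
    calc C6 * x ^ (1 - 3 / (4 * (k : ℝ)) + 5 / (64 * (k : ℝ))) ≤ C6 * (16 * E6) :=
          mul_le_mul_of_nonneg_left h1 hC6.le
      _ = _ := by ring
  have hb3 : ∀ x ∈ Icc (T / 2) (4 * T), ‖deriv a1 x * e (ph k l κ' x) * (Ek k x : ℂ)‖ ≤
      C1 / Xw k T * (16 * C6 * E6) := by
    intro x hx
    rw [norm_mul, norm_mul, BA1_norm_e, mul_one, Complex.norm_real, Real.norm_eq_abs]
    exact mul_le_mul (hA.b1 x) (hEkb x hx) (abs_nonneg _) (by positivity)
  have hs3 : ‖∫ x in (T / 2)..(4 * T), deriv a1 x * e (ph k l κ' x) * (Ek k x : ℂ)‖ ≤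
      64 * C1 * C6 * (E6 * (T / Xw k T)) := by
    have h1 := intervalIntegral.norm_integral_le_of_norm_le_const (a := T / 2) (b := 4 * T)
      (f := fun x => deriv a1 x * e (ph k l κ' x) * (Ek k x : ℂ))
      (C := C1 / Xw k T * (16 * C6 * E6)) (fun x hx => by
        rw [uIoc_of_le hpq] at hx
        exact hb3 x (Ioc_subset_Icc_self hx))
    refine h1.trans ?_
    rw [abs_of_nonneg (by linarith)]
    have h2 : C1 / Xw k T * (16 * C6 * E6) * (4 * T - T / 2) ≤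
        C1 / Xw k T * (16 * C6 * E6) * (4 * T) :=
      mul_le_mul_of_nonneg_left (by linarith) (by positivity)
    refine h2.trans (le_of_eq ?_)
    ring
  have hi3 : IntervalIntegrable (fun x => deriv a1 x * e (ph k l κ' x) * (Ek k x : ℂ)) volume
      (T / 2) (4 * T) := by
    rw [intervalIntegrable_iff_integrableOn_Icc_of_le hpq]
    have hm : Measurable (fun x => deriv a1 x * e (ph k l κ' x) * (Ek k x : ℂ)) := by
      have m1 : Measurable (ph k l κ') := by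
        unfold ph
        fun_prop
      exact ((BB5_c1 hA).measurable.mul (BA1_cont_e.measurable.comp m1)).mul
        (Complex.measurable_ofReal.comp (Ek_meas k))
    refine Measure.integrableOn_of_bounded (M := C1 / Xw k T * (16 * C6 * E6)) (by simp)
      hm.aestronglyMeasurable ?_
    exact (ae_restrict_iff' measurableSet_Icc).2 (Filter.Eventually.of_forall fun x hx => hb3 x hx)
  -- the identity
  have hπ : (2 * π * I : ℂ) ≠ 0 := by simp [Real.pi_ne_zero]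
  have hid : ∫ x in (T / 2)..(4 * T), (Ek k x : ℂ) * (a x * e (ph k l κ' x)) =
      (((√T / |l| : ℝ) : ℂ) / (2 * π * I)) *
      ((∫ x in (T / 2)..(4 * T), (deriv a1 x * e (ph k l κ' x) + a1 x * (2 * π * I *
        ((l / √x + κ' / k * x ^ (1 / (k : ℝ) - 1) : ℝ) : ℂ) * e (ph k l κ' x))) *
          (Ek k x : ℂ)) -
      ∫ x in (T / 2)..(4 * T), deriv a1 x * e (ph k l κ' x) * (Ek k x : ℂ)) := by
    rw [← intervalIntegral.integral_sub hi1 hi3, ← intervalIntegral.integral_const_mul]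
    refine intervalIntegral.integral_congr fun x hx => ?_
    rw [uIcc_of_le hpq] at hx
    have h1 := p7 x (hIU hx)
    have h2 : ((√T / |l| : ℝ) : ℂ) * (ψ x : ℂ) *
        ((l / √x + κ' / k * x ^ (1 / (k : ℝ) - 1) : ℝ) : ℂ) = 1 := by
      rw [← Complex.ofReal_mul, ← Complex.ofReal_mul, h1, Complex.ofReal_one]
    rw [ha1x]
    generalize ((l / √x + κ' / k * x ^ (1 / (k : ℝ) - 1) : ℝ) : ℂ) = t at *
    generalize ((√T / |l| : ℝ) : ℂ) = c at *
    generalize (2 * π * I : ℂ) = w at *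
    have h3 : c / w * ((deriv a1 x * e (ph k l κ' x) + a x * (ψ x : ℂ) * (w * t *
        e (ph k l κ' x))) * (Ek k x : ℂ) - deriv a1 x * e (ph k l κ' x) * (Ek k x : ℂ)) =
        (c * (ψ x : ℂ) * t) * (a x * e (ph k l κ' x) * (Ek k x : ℂ)) := by
      field_simp
      ring
    rw [h3, h2]
    ring
  rw [hid, norm_mul]
  have hn : ‖((√T / |l| : ℝ) : ℂ) / (2 * π * I)‖ ≤ √T / |l| := by
    rw [norm_div, Complex.norm_real, Real.norm_of_nonneg (by positivity)]
    have h7 : ‖(2 * π * I : ℂ)‖ = 2 * π := by simp [abs_of_pos Real.pi_pos]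
    rw [h7]
    apply div_le_self (by positivity)
    nlinarith [Real.pi_gt_three]
  have hsum3 : ‖(∫ x in (T / 2)..(4 * T), (deriv a1 x * e (ph k l κ' x) + a1 x * (2 * π * I *
        ((l / √x + κ' / k * x ^ (1 / (k : ℝ) - 1) : ℝ) : ℂ) * e (ph k l κ' x))) *
          (Ek k x : ℂ)) -
      ∫ x in (T / 2)..(4 * T), deriv a1 x * e (ph k l κ' x) * (Ek k x : ℂ)‖ ≤
      C4 * |l| ^ (15 / 32 : ℝ) * T ^ (1 - 1 / (2 * (k : ℝ)) - 1 / (16 * (k : ℝ))) +
      C5 * |l| ^ (-1 : ℝ) * T ^ (1 / 2 + 1 / 16 : ℝ) +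
      64 * C1 * C6 * (E6 * (T / Xw k T)) := by
    refine (norm_sub_le _ _).trans (add_le_add ?_ hs3)
    rw [hi2]
    refine (norm_add_le _ _).trans (add_le_add ?_ hs2)
    rw [norm_neg]
    exact hs1
  calc ‖((√T / |l| : ℝ) : ℂ) / (2 * π * I)‖ * _ ≤ (√T / |l|) *
      (C4 * |l| ^ (15 / 32 : ℝ) * T ^ (1 - 1 / (2 * (k : ℝ)) - 1 / (16 * (k : ℝ))) +
      C5 * |l| ^ (-1 : ℝ) * T ^ (1 / 2 + 1 / 16 : ℝ) +
      64 * C1 * C6 * (E6 * (T / Xw k T))) :=
        mul_le_mul hn hsum3 (norm_nonneg _) (by positivity)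
    _ ≤ _ := BD2_final hk hl0 hl hT1 hC4.le hC5.le (by positivity)
--END BD2

end Pool.Agent.PEt
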