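import Pool.Agent.PEt.ZE

/-! The slow kernel. -/

set_option autoImplicit false

open Complex MeasureTheory Set Filter Topology
open scoped Real ComplexConjugate ContDiff

namespace Pool.Agent.PEt

--BEGIN KS0
private theorem KS0_Y_pos (k : ℕ) {T : ℝ} (hT : 1 ≤ T) : 0 < Yk k T :=
  Real.rpow_pos_of_pos (by linarith) _

private theorem KS0_Y_le (k : ℕ) {T : ℝ} (hT : 1 ≤ T) : Yk k T ≤ 1 := by
  apply Real.rpow_le_one_of_one_le_of_nonpos hT
  have : (0 : ℝ) ≤ 1 / (2 * (k : ℝ)) := by positivity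
  linarith

private theorem KS0_X_pos (k : ℕ) {T : ℝ} (hT : 1 ≤ T) : 0 < Xw k T :=
  Real.rpow_pos_of_pos (by linarith) _

private theorem KS0_X_le (k : ℕ) {T : ℝ} (hT : 1 ≤ T) : Xw k T ≤ T := by
  have h1 : Xw k T ≤ T ^ (1 : ℝ) := by
    apply Real.rpow_le_rpow_of_exponent_le hT
    have : (0 : ℝ) ≤ 1 / (32 * (k : ℝ)) := by positivity
    linarith
  rwa [Real.rpow_one] at h1

private theorem KS0_X_ge (k : ℕ) (hk : 1 ≤ k) {T : ℝ} (hT : 1 ≤ T) : 1 ≤ Xw k T := by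
  apply Real.one_le_rpow hT
  have h1 : (1 : ℝ) ≤ k := by exact_mod_cast hk
  have : 1 / (32 * (k : ℝ)) ≤ 1 := by
    rw [div_le_one (by positivity)]
    linarith
  linarith

private theorem KS0_Y_sq {k : ℕ} (hk : 1 ≤ k) {T : ℝ} (hT : 1 ≤ T) :
    (Yk k T ^ 2)⁻¹ = T ^ (1 / (k : ℝ)) := by
  have h0 : 0 < T := by linarith
  have h1 : (k : ℝ) ≠ 0 := by
    have : (1 : ℝ) ≤ k := by exact_mod_cast hk
    linarith
  unfold Yk
  rw [← Real.rpow_natCast, ← Real.rpow_mul h0.le, ← Real.rpow_neg h0.le]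
  congr 1
  push_cast
  field_simp

private theorem KS0_w0_zero {ρ : ℝ → ℝ} (hρ : IsBump ρ (1 / 4) (3 / 8) (5 / 8) (3 / 4)) {k : ℕ}
    {T : ℝ} (hT : 1 ≤ T) {y : ℝ} (hy : y ∉ Icc (T + Xw k T / 4) (T + 3 * Xw k T / 4)) :
    w0 ρ k T y = 0 := by
  apply hρ.zero
  intro h
  apply hy
  have hX := KS0_X_pos k hT
  have h1 := h.1
  have h2 := h.2
  rw [le_div_iff₀ hX] at h1
  rw [div_le_iff₀ hX] at h2
  constructor <;> linarith

private theorem KS0_w0_zero' {ρ : ℝ → ℝ} (hρ : IsBump ρ (1 / 4) (3 / 8) (5 / 8) (3 / 4)) {k : ℕ}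
    {T : ℝ} (hT : 1 ≤ T) {y : ℝ} (hy : y ∉ Icc T (T + Xw k T)) : w0 ρ k T y = 0 := by
  apply KS0_w0_zero hρ hT
  intro h
  have hX := KS0_X_pos k hT
  exact hy ⟨by linarith [h.1], by linarith [h.2]⟩

private theorem KS0_w0_zero2 {ρ : ℝ → ℝ} (hρ : IsBump ρ (1 / 4) (3 / 8) (5 / 8) (3 / 4)) {k : ℕ}
    {T : ℝ} (hT : 1 ≤ T) {y : ℝ} (hy : y ∉ Icc T (2 * T)) : w0 ρ k T y = 0 := by
  apply KS0_w0_zero' hρ hT
  intro h
  have hX := KS0_X_le k hT
  exact hy ⟨h.1, by linarith [h.2]⟩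

private theorem KS0_w0_nonneg {ρ : ℝ → ℝ} {a b c d : ℝ} (hρ : IsBump ρ a b c d) (k : ℕ)
    (T y : ℝ) : 0 ≤ w0 ρ k T y := hρ.nonneg _

private theorem KS0_w0_le {ρ : ℝ → ℝ} {a b c d : ℝ} (hρ : IsBump ρ a b c d) (k : ℕ)
    (T y : ℝ) : w0 ρ k T y ≤ 1 := hρ.le_one _

private theorem KS0_w0_cont {ρ : ℝ → ℝ} {a b c d : ℝ} (hρ : IsBump ρ a b c d) (k : ℕ)
    (T : ℝ) : Continuous (w0 ρ k T) := by
  unfold w0
  exact hρ.smooth.continuous.comp (by fun_prop)

/-- **KS0.** Smooth bumps exist. -/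
theorem exists_bump {a b c d : ℝ} (h1 : a < b) (h2 : b ≤ c) (h3 : c < d) :
    ∃ f : ℝ → ℝ, IsBump f a b c d := by
  refine ⟨fun x => Real.smoothTransition ((x - a) / (b - a)) *
    Real.smoothTransition ((d - x) / (d - c)), ?_, ?_, ?_, ?_, ?_⟩
  · apply ContDiff.mul
    · exact (Real.smoothTransition.contDiff (n := ⊤)).comp
        ((contDiff_id.sub contDiff_const).div_const _)
    · exact (Real.smoothTransition.contDiff (n := ⊤)).comp
        ((contDiff_const.sub contDiff_id).div_const _)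
  · intro x
    exact mul_nonneg (Real.smoothTransition.nonneg _) (Real.smoothTransition.nonneg _)
  · intro x
    exact mul_le_one₀ (Real.smoothTransition.le_one _) (Real.smoothTransition.nonneg _)
      (Real.smoothTransition.le_one _)
  · intro x hx
    have e1 : Real.smoothTransition ((x - a) / (b - a)) = 1 := by
      apply Real.smoothTransition.one_of_one_le
      rw [le_div_iff₀ (by linarith)]
      linarith [hx.1]
    have e2 : Real.smoothTransition ((d - x) / (d - c)) = 1 := by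
      apply Real.smoothTransition.one_of_one_le
      rw [le_div_iff₀ (by linarith)]
      linarith [hx.2]
    simp only [e1, e2, mul_one]
  · intro x hx
    by_cases hxa : x < a
    · have e1 : Real.smoothTransition ((x - a) / (b - a)) = 0 := by
        apply Real.smoothTransition.zero_of_nonpos
        exact div_nonpos_of_nonpos_of_nonneg (by linarith) (by linarith)
      simp only [e1, zero_mul]
    · have hxd : d < x := by
        by_contra hcon
        exact hx ⟨not_lt.mp hxa, not_lt.mp hcon⟩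
      have e2 : Real.smoothTransition ((d - x) / (d - c)) = 0 := by
        apply Real.smoothTransition.zero_of_nonpos
        exact div_nonpos_of_nonpos_of_nonneg (by linarith) (by linarith)
      simp only [e2, mul_zero]
--END KS0

--BEGIN KS1
private theorem KS1_subst (h : ℝ → ℝ) {x : ℝ} (hx : 0 < x) :
    ∫ y in Ioi (0 : ℝ), h y / y = ∫ v : ℝ, h (x * Real.exp (-v)) := by
  have him : (fun v : ℝ => x * Real.exp (-v)) '' univ = Ioi 0 := by
    ext y
    constructor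
    · rintro ⟨v, -, rfl⟩
      exact mul_pos hx (Real.exp_pos _)
    · intro hy
      refine ⟨-Real.log (y / x), mem_univ _, ?_⟩
      have : 0 < y / x := div_pos hy hx
      simp only [neg_neg]
      rw [Real.exp_log this]
      field_simp
  have hd : ∀ v ∈ (univ : Set ℝ), HasDerivWithinAt (fun v : ℝ => x * Real.exp (-v))
      (x * (Real.exp (-v) * (-1))) univ v := by
    intro v _
    exact (((hasDerivAt_neg v).exp).const_mul x).hasDerivWithinAt
  have hinj : InjOn (fun v : ℝ => x * Real.exp (-v)) univ := by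
    intro v _ w _ hvw
    have h1 := mul_left_cancel₀ hx.ne' hvw
    have h2 := Real.exp_injective h1
    linarith
  have key := integral_image_eq_integral_abs_deriv_smul MeasurableSet.univ hd hinj
    (fun y => h y / y)
  rw [him] at key
  rw [key, setIntegral_univ]
  congr 1
  funext v
  have h1 : 0 < x * Real.exp (-v) := mul_pos hx (Real.exp_pos _)
  have h2 : |x * (Real.exp (-v) * (-1))| = x * Real.exp (-v) := by
    rw [show x * (Real.exp (-v) * (-1)) = -(x * Real.exp (-v)) by ring, abs_neg, abs_of_pos h1]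
  rw [h2, smul_eq_mul]
  field_simp

/-- the slow kernel as an integral over `v` -/
private theorem KS1_v {ρ : ℝ → ℝ} {k : ℕ} (hk : 4 ≤ k) {T : ℝ} (s θ : ℝ) {x : ℝ} (hx : 0 < x) :
    Kslow ρ k T s θ x = (Yk k T)⁻¹ * ∫ v : ℝ, w0 ρ k T (x * Real.exp (-v)) *
      Real.exp (-v ^ 2 / (2 * Yk k T ^ 2)) *
      (1 + s * Real.cos (Psi k x v + (2 * π * k * x ^ (1 / (k : ℝ)) + θ))) := by
  unfold Kslow
  rw [KS1_subst _ hx]
  congr 2
  funext v
  have h1 : 0 < Real.exp (-v) := Real.exp_pos _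
  have h2 : Real.log (x / (x * Real.exp (-v))) = v := by
    rw [div_mul_eq_div_div, div_self hx.ne', one_div, ← Real.exp_neg, neg_neg, Real.log_exp]
  have h3 : (x * Real.exp (-v)) ^ (1 / (k : ℝ)) = x ^ (1 / (k : ℝ)) * Real.exp (-v / k) := by
    rw [Real.mul_rpow hx.le h1.le, ← Real.exp_mul]
    congr 2
    ring
  rw [h2, h3]
  congr 3
  unfold Psi
  congr 1
  ring

private theorem KS1_supp {ρ : ℝ → ℝ} (hρ : IsBump ρ (1 / 4) (3 / 8) (5 / 8) (3 / 4)) {k : ℕ}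
    {T : ℝ} (hT : 1 ≤ T) {x : ℝ} (hx : 0 < x) {v : ℝ}
    (hv : v ∉ Icc (Real.log (x / (2 * T))) (Real.log (x / T))) :
    w0 ρ k T (x * Real.exp (-v)) = 0 := by
  apply KS0_w0_zero2 hρ hT
  intro h
  apply hv
  have hT0 : 0 < T := by linarith
  have hev : Real.exp v * Real.exp (-v) = 1 := by rw [← Real.exp_add]; simp
  have he : 0 < Real.exp v := Real.exp_pos v
  constructor
  · rw [Real.log_le_iff_le_exp (by positivity), div_le_iff₀ (by positivity)]
    calc x = (x * Real.exp (-v)) * Real.exp v := by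
          rw [mul_assoc, mul_comm (Real.exp (-v)), hev, mul_one]
      _ ≤ (2 * T) * Real.exp v := mul_le_mul_of_nonneg_right h.2 he.le
      _ = _ := by ring
  · rw [Real.le_log_iff_exp_le (by positivity), le_div_iff₀ hT0]
    calc Real.exp v * T ≤ Real.exp v * (x * Real.exp (-v)) :=
          mul_le_mul_of_nonneg_left h.1 he.le
      _ = (Real.exp v * Real.exp (-v)) * x := by ring
      _ = x := by rw [hev, one_mul]

private theorem KS1_int {ρ : ℝ → ℝ} (hρ : IsBump ρ (1 / 4) (3 / 8) (5 / 8) (3 / 4)) {k : ℕ}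
    {T : ℝ} (hT : 1 ≤ T) {x : ℝ} (hx : 0 < x) {f : ℝ → ℂ} (hf : Continuous f) :
    Integrable (fun v : ℝ => (w0 ρ k T (x * Real.exp (-v)) : ℂ) * f v) := by
  apply Continuous.integrable_of_hasCompactSupport
  · refine Continuous.mul ?_ hf
    exact Complex.continuous_ofReal.comp ((KS0_w0_cont hρ k T).comp (by fun_prop))
  · refine HasCompactSupport.intro (isCompact_Icc (a := Real.log (x / (2 * T)))
      (b := Real.log (x / T))) fun v hv => ?_
    rw [KS1_supp hρ hT hx hv]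
    simp

/-- **KS1.** The substitution `y = x e^{-v}`. -/
theorem Kslow_eq {ρ : ℝ → ℝ} (hρ : IsBump ρ (1 / 4) (3 / 8) (5 / 8) (3 / 4)) {k : ℕ} (hk : 4 ≤ k)
    {T : ℝ} (hT : 1 ≤ T) (s θ : ℝ) {x : ℝ} (hx : 0 < x) :
    (Kslow ρ k T s θ x : ℂ) = Aamp ρ k T 0 x +
      s / 2 * (Aamp ρ k T 1 x * cexp (I * (2 * π * k * x ^ (1 / (k : ℝ)) + θ : ℝ)) +
        Aamp ρ k T (-1) x * cexp (-(I * (2 * π * k * x ^ (1 / (k : ℝ)) + θ : ℝ)))) := by
  have hYc : Continuous fun v : ℝ => Psi k x v := by unfold Psi; fun_prop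
  have hc : ∀ l : ℤ, Continuous fun v : ℝ =>
      cexp (-(v : ℂ) ^ 2 / (2 * (Yk k T : ℂ) ^ 2) + I * l * Psi k x v) := by
    intro l
    have h1 : Continuous fun v : ℝ => ((Psi k x v : ℝ) : ℂ) := Complex.continuous_ofReal.comp hYc
    fun_prop
  have hi := fun l : ℤ => KS1_int (k := k) hρ hT hx (hc l)
  rw [KS1_v hk s θ hx]
  set φ : ℝ := 2 * π * k * x ^ (1 / (k : ℝ)) + θ with hφ
  unfold Aamp
  rw [Complex.ofReal_mul, ← integral_complex_ofReal]
  have e1 : ∀ a b c : ℂ, ∀ u : ℂ, u * a + (s : ℂ) / 2 * (u * b * cexp (I * (φ : ℝ)) +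
      u * c * cexp (-(I * (φ : ℝ)))) =
      u * (a + (s / 2 * cexp (I * (φ : ℝ))) * b + (s / 2 * cexp (-(I * (φ : ℝ)))) * c) := by
    intro a b c u
    ring
  rw [e1]
  congr 1
  have hsum : ∀ c1 c2 : ℂ, (∫ v : ℝ, (w0 ρ k T (x * Real.exp (-v)) : ℂ) *
      cexp (-(v : ℂ) ^ 2 / (2 * (Yk k T : ℂ) ^ 2) + I * ((0 : ℤ) : ℂ) * Psi k x v)) +
      c1 * (∫ v : ℝ, (w0 ρ k T (x * Real.exp (-v)) : ℂ) *
      cexp (-(v : ℂ) ^ 2 / (2 * (Yk k T : ℂ) ^ 2) + I * ((1 : ℤ) : ℂ) * Psi k x v)) +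
      c2 * (∫ v : ℝ, (w0 ρ k T (x * Real.exp (-v)) : ℂ) *
      cexp (-(v : ℂ) ^ 2 / (2 * (Yk k T : ℂ) ^ 2) + I * ((-1 : ℤ) : ℂ) * Psi k x v)) =
      ∫ v : ℝ, ((w0 ρ k T (x * Real.exp (-v)) : ℂ) *
      cexp (-(v : ℂ) ^ 2 / (2 * (Yk k T : ℂ) ^ 2) + I * ((0 : ℤ) : ℂ) * Psi k x v) +
      c1 * ((w0 ρ k T (x * Real.exp (-v)) : ℂ) *
      cexp (-(v : ℂ) ^ 2 / (2 * (Yk k T : ℂ) ^ 2) + I * ((1 : ℤ) : ℂ) * Psi k x v)) +
      c2 * ((w0 ρ k T (x * Real.exp (-v)) : ℂ) *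
      cexp (-(v : ℂ) ^ 2 / (2 * (Yk k T : ℂ) ^ 2) + I * ((-1 : ℤ) : ℂ) * Psi k x v))) := by
    intro c1 c2
    rw [integral_add (f := fun v : ℝ => (w0 ρ k T (x * Real.exp (-v)) : ℂ) *
      cexp (-(v : ℂ) ^ 2 / (2 * (Yk k T : ℂ) ^ 2) + I * ((0 : ℤ) : ℂ) * Psi k x v) +
      c1 * ((w0 ρ k T (x * Real.exp (-v)) : ℂ) *
      cexp (-(v : ℂ) ^ 2 / (2 * (Yk k T : ℂ) ^ 2) + I * ((1 : ℤ) : ℂ) * Psi k x v)))
      ((hi 0).add ((hi 1).const_mul c1)) ((hi (-1)).const_mul c2),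
      integral_add (hi 0) ((hi 1).const_mul c1), integral_const_mul, integral_const_mul]
  rw [hsum]
  congr 1
  funext v
  have h0 : cexp (-(v : ℂ) ^ 2 / (2 * (Yk k T : ℂ) ^ 2) + I * ((0 : ℤ) : ℂ) * Psi k x v) =
      cexp (-(v : ℂ) ^ 2 / (2 * (Yk k T : ℂ) ^ 2)) := by
    congr 1
    push_cast
    ring
  have h1 : cexp (-(v : ℂ) ^ 2 / (2 * (Yk k T : ℂ) ^ 2) + I * ((1 : ℤ) : ℂ) * Psi k x v) =
      cexp (-(v : ℂ) ^ 2 / (2 * (Yk k T : ℂ) ^ 2)) * cexp (I * Psi k x v) := by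
    rw [← Complex.exp_add]
    congr 1
    push_cast
    ring
  have h2 : cexp (-(v : ℂ) ^ 2 / (2 * (Yk k T : ℂ) ^ 2) + I * ((-1 : ℤ) : ℂ) * Psi k x v) =
      cexp (-(v : ℂ) ^ 2 / (2 * (Yk k T : ℂ) ^ 2)) * cexp (-(I * Psi k x v)) := by
    rw [← Complex.exp_add]
    congr 1
    push_cast
    ring
  rw [h0, h1, h2]
  have h3 : ((Real.cos (Psi k x v + φ) : ℝ) : ℂ) =
      (cexp (I * Psi k x v) * cexp (I * φ) + cexp (-(I * Psi k x v)) * cexp (-(I * φ))) / 2 := by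
    rw [Complex.ofReal_cos, Complex.cos, ← Complex.exp_add, ← Complex.exp_add]
    congr 3
    · push_cast; ring
    · push_cast; ring
  have h4 : ((Real.exp (-v ^ 2 / (2 * Yk k T ^ 2)) : ℝ) : ℂ) =
      cexp (-(v : ℂ) ^ 2 / (2 * (Yk k T : ℂ) ^ 2)) := by
    rw [Complex.ofReal_exp]
    congr 1
    push_cast
    ring
  rw [Complex.ofReal_mul, Complex.ofReal_mul, Complex.ofReal_add, Complex.ofReal_one,
    Complex.ofReal_mul, h3, h4]
  ring
--END KS1

--BEGIN KS2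
private theorem KS2_dom {F : ℝ → ℝ → ℂ}
    (hF : ContinuousOn (fun q : ℝ × ℝ => F q.1 q.2) (Ioi 0 ×ˢ univ))
    (hs : ∀ p q : ℝ, 0 < p → ∃ R : ℝ, ∀ x ∈ Icc p q, ∀ v, R < |v| → F x v = 0)
    {x₀ : ℝ} (hx₀ : 0 < x₀) :
    ∃ b : ℝ → ℝ, Integrable b ∧ ∀ x ∈ Icc (x₀ / 2) (2 * x₀), ∀ v, ‖F x v‖ ≤ b v := by
  obtain ⟨R, hR⟩ := hs (x₀ / 2) (2 * x₀) (by linarith)
  have hK : IsCompact (Icc (x₀ / 2) (2 * x₀) ×ˢ Icc (-R) R) := isCompact_Icc.prod isCompact_Icc
  have hsub : Icc (x₀ / 2) (2 * x₀) ×ˢ Icc (-R) R ⊆ Ioi (0 : ℝ) ×ˢ (univ : Set ℝ) := by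
    rintro ⟨x, v⟩ ⟨hx, -⟩
    have h1 : 0 < x₀ / 2 := by linarith
    exact ⟨lt_of_lt_of_le h1 hx.1, mem_univ _⟩
  obtain ⟨M, hM⟩ := hK.exists_bound_of_continuousOn (hF.mono hsub)
  refine ⟨indicator (Icc (-R) R) (fun _ => M), ?_, ?_⟩
  · rw [integrable_indicator_iff measurableSet_Icc]
    exact continuous_const.integrableOn_Icc
  · intro x hx v
    by_cases hv : v ∈ Icc (-R) R
    · rw [indicator_of_mem hv]
      exact hM (x, v) ⟨hx, hv⟩
    · rw [indicator_of_notMem hv, hR x hx v ?_, norm_zero]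
      by_contra hcon
      exact hv (abs_le.mp (not_lt.mp hcon))

private theorem KS2_sec {F : ℝ → ℝ → ℂ}
    (hF : ContinuousOn (fun q : ℝ × ℝ => F q.1 q.2) (Ioi 0 ×ˢ univ)) {x : ℝ} (hx : 0 < x) :
    Continuous (F x) := by
  have h1 : Continuous fun v : ℝ => (x, v) := by fun_prop
  exact hF.comp_continuous h1 fun v => ⟨hx, mem_univ _⟩

private theorem KS2_integrable {F : ℝ → ℝ → ℂ}
    (hF : ContinuousOn (fun q : ℝ × ℝ => F q.1 q.2) (Ioi 0 ×ˢ univ))
    (hs : ∀ p q : ℝ, 0 < p → ∃ R : ℝ, ∀ x ∈ Icc p q, ∀ v, R < |v| → F x v = 0)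
    {x : ℝ} (hx : 0 < x) : Integrable (F x) := by
  obtain ⟨b, hb, hb'⟩ := KS2_dom hF hs hx
  refine hb.mono' (KS2_sec hF hx).aestronglyMeasurable (ae_of_all _ fun v => ?_)
  exact hb' x ⟨by linarith, by linarith⟩ v

private theorem KS2_nhds {x₀ : ℝ} (hx₀ : 0 < x₀) : Icc (x₀ / 2) (2 * x₀) ∈ 𝓝 x₀ :=
  Icc_mem_nhds (by linarith) (by linarith)

private theorem KS2_cont {F : ℝ → ℝ → ℂ}
    (hF : ContinuousOn (fun q : ℝ × ℝ => F q.1 q.2) (Ioi 0 ×ˢ univ))
    (hs : ∀ p q : ℝ, 0 < p → ∃ R : ℝ, ∀ x ∈ Icc p q, ∀ v, R < |v| → F x v = 0) :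
    ContinuousOn (fun x => ∫ v, F x v) (Ioi 0) := by
  intro x₀ hx₀
  obtain ⟨b, hb, hb'⟩ := KS2_dom hF hs hx₀
  apply ContinuousAt.continuousWithinAt
  refine continuousAt_of_dominated (bound := b) ?_ ?_ hb ?_
  · filter_upwards [Ioi_mem_nhds hx₀] with x hx
    exact (KS2_sec hF hx).aestronglyMeasurable
  · filter_upwards [KS2_nhds hx₀] with x hx
    exact ae_of_all _ (hb' x hx)
  · refine ae_of_all _ fun v => ?_
    have h1 : ContinuousAt (fun q : ℝ × ℝ => F q.1 q.2) (x₀, v) :=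
      hF.continuousAt (prod_mem_nhds (Ioi_mem_nhds hx₀) univ_mem)
    have h2 : ContinuousAt (fun x : ℝ => (x, v)) x₀ := by fun_prop
    exact ContinuousAt.comp (x := x₀) (g := fun q : ℝ × ℝ => F q.1 q.2)
      (f := fun x : ℝ => (x, v)) h1 h2

private theorem KS2_deriv {F F' : ℝ → ℝ → ℂ}
    (hF : ContinuousOn (fun q : ℝ × ℝ => F q.1 q.2) (Ioi 0 ×ˢ univ))
    (hF' : ContinuousOn (fun q : ℝ × ℝ => F' q.1 q.2) (Ioi 0 ×ˢ univ))
    (hs : ∀ p q : ℝ, 0 < p → ∃ R : ℝ, ∀ x ∈ Icc p q, ∀ v, R < |v| → F x v = 0)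
    (hs' : ∀ p q : ℝ, 0 < p → ∃ R : ℝ, ∀ x ∈ Icc p q, ∀ v, R < |v| → F' x v = 0)
    (hd : ∀ x v, 0 < x → HasDerivAt (fun x => F x v) (F' x v) x)
    {x₀ : ℝ} (hx₀ : 0 < x₀) : HasDerivAt (fun x => ∫ v, F x v) (∫ v, F' x₀ v) x₀ := by
  obtain ⟨b, hb, hb'⟩ := KS2_dom hF' hs' hx₀
  refine (hasDerivAt_integral_of_dominated_loc_of_deriv_le (bound := b) (KS2_nhds hx₀) ?_
    (KS2_integrable hF hs hx₀) (KS2_sec hF' hx₀).aestronglyMeasurable ?_ hb ?_).2
  · filter_upwards [Ioi_mem_nhds hx₀] with x hx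
    exact (KS2_sec hF hx).aestronglyMeasurable
  · exact ae_of_all _ fun v x hx => hb' x hx v
  · refine ae_of_all _ fun v x hx => hd x v ?_
    have h1 : 0 < x₀ / 2 := by linarith
    exact lt_of_lt_of_le h1 hx.1

private noncomputable def KS2_g (k : ℕ) (v : ℝ) : ℝ := (k + v) * Real.exp (-v / k) - k

private noncomputable def KS2_P (k : ℕ) (l : ℤ) (x v : ℝ) : ℂ :=
  I * l * ((2 * π * (1 / (k : ℝ) * x ^ (1 / (k : ℝ) - 1)) * KS2_g k v : ℝ) : ℂ)

private noncomputable def KS2_Q (k : ℕ) (l : ℤ) (x v : ℝ) : ℂ :=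
  I * l * ((2 * π * (1 / (k : ℝ) * ((1 / (k : ℝ) - 1) * x ^ (1 / (k : ℝ) - 1 - 1))) *
    KS2_g k v : ℝ) : ℂ)

private noncomputable def KS2_E (k : ℕ) (Y : ℝ) (l : ℤ) (x v : ℝ) : ℂ :=
  cexp (-(v : ℂ) ^ 2 / (2 * (Y : ℂ) ^ 2) + I * l * Psi k x v)

private noncomputable def KS2_R (f : ℝ → ℝ) (T X : ℝ) (x v : ℝ) : ℂ :=
  ((f ((x * Real.exp (-v) - T) / X) : ℝ) : ℂ)

private noncomputable def KS2_c (X v : ℝ) : ℂ := ((Real.exp (-v) / X : ℝ) : ℂ)

private theorem KS2_hE (k : ℕ) (Y : ℝ) (l : ℤ) {x : ℝ} (hx : 0 < x) (v : ℝ) :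
    HasDerivAt (fun x => KS2_E k Y l x v) (KS2_E k Y l x v * KS2_P k l x v) x := by
  have h1 : HasDerivAt (fun x : ℝ => Psi k x v)
      (2 * π * (1 / (k : ℝ) * x ^ (1 / (k : ℝ) - 1)) * KS2_g k v) x := by
    unfold Psi KS2_g
    have h2 := (Real.hasDerivAt_rpow_const (x := x) (p := 1 / (k : ℝ)) (Or.inl hx.ne'))
    exact (h2.const_mul (2 * π)).mul_const _
  have h3 := h1.ofReal_comp
  have h4 : HasDerivAt (fun x : ℝ => -(v : ℂ) ^ 2 / (2 * (Y : ℂ) ^ 2) + I * l * Psi k x v)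
      (KS2_P k l x v) x := (h3.const_mul (I * (l : ℂ))).const_add _
  exact h4.cexp

private theorem KS2_hP (k : ℕ) (l : ℤ) {x : ℝ} (hx : 0 < x) (v : ℝ) :
    HasDerivAt (fun x => KS2_P k l x v) (KS2_Q k l x v) x := by
  have h2 := (Real.hasDerivAt_rpow_const (x := x) (p := 1 / (k : ℝ) - 1) (Or.inl hx.ne'))
  have h3 := (((h2.const_mul (1 / (k : ℝ))).const_mul (2 * π)).mul_const (KS2_g k v)).ofReal_comp
  exact h3.const_mul (I * (l : ℂ))

private theorem KS2_hR {f : ℝ → ℝ} (hf : Differentiable ℝ f) (T X : ℝ) (x v : ℝ) :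
    HasDerivAt (fun x => KS2_R f T X x v) (KS2_R (deriv f) T X x v * KS2_c X v) x := by
  have h1 : HasDerivAt (fun x : ℝ => (x * Real.exp (-v) - T) / X) (Real.exp (-v) / X) x := by
    have h2 := (((hasDerivAt_id x).mul_const (Real.exp (-v))).sub_const T).div_const X
    rwa [one_mul] at h2
  have h3 := ((hf _).hasDerivAt.comp x h1).ofReal_comp
  unfold KS2_R KS2_c
  rw [← Complex.ofReal_mul]
  exact h3

private theorem KS2_Rc {f : ℝ → ℝ} (hf : Continuous f) (T X : ℝ) :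
    ContinuousOn (fun q : ℝ × ℝ => KS2_R f T X q.1 q.2) (Ioi 0 ×ˢ univ) := by
  apply Continuous.continuousOn
  unfold KS2_R
  exact Complex.continuous_ofReal.comp (hf.comp (by fun_prop))

private theorem KS2_cc (X : ℝ) :
    ContinuousOn (fun q : ℝ × ℝ => KS2_c X q.2) (Ioi 0 ×ˢ univ) := by
  apply Continuous.continuousOn
  unfold KS2_c
  exact Complex.continuous_ofReal.comp (by fun_prop)

private theorem KS2_pow (p : ℝ) :
    ContinuousOn (fun q : ℝ × ℝ => q.1 ^ p) (Ioi 0 ×ˢ univ) := by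
  apply ContinuousOn.rpow_const continuousOn_fst
  rintro ⟨x, v⟩ ⟨hx, -⟩
  exact Or.inl (ne_of_gt hx)

private theorem KS2_gc (k : ℕ) : Continuous (KS2_g k) := by
  unfold KS2_g
  fun_prop

private theorem KS2_Ec (k : ℕ) (Y : ℝ) (l : ℤ) :
    ContinuousOn (fun q : ℝ × ℝ => KS2_E k Y l q.1 q.2) (Ioi 0 ×ˢ univ) := by
  have h1 : ContinuousOn (fun q : ℝ × ℝ => Psi k q.1 q.2) (Ioi 0 ×ˢ univ) := by
    unfold Psi
    exact (continuousOn_const.mul (KS2_pow _)).mul (by fun_prop)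
  have h2 : ContinuousOn (fun q : ℝ × ℝ => ((Psi k q.1 q.2 : ℝ) : ℂ)) (Ioi 0 ×ˢ univ) :=
    Complex.continuous_ofReal.comp_continuousOn h1
  unfold KS2_E
  apply Complex.continuous_exp.comp_continuousOn
  apply ContinuousOn.add
  · apply Continuous.continuousOn
    fun_prop
  · exact continuousOn_const.mul h2

private theorem KS2_Pc (k : ℕ) (l : ℤ) :
    ContinuousOn (fun q : ℝ × ℝ => KS2_P k l q.1 q.2) (Ioi 0 ×ˢ univ) := by
  unfold KS2_P
  refine continuousOn_const.mul (Complex.continuous_ofReal.comp_continuousOn ?_)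
  exact (continuousOn_const.mul (continuousOn_const.mul (KS2_pow _))).mul
    ((KS2_gc k).comp continuous_snd).continuousOn

private theorem KS2_Qc (k : ℕ) (l : ℤ) :
    ContinuousOn (fun q : ℝ × ℝ => KS2_Q k l q.1 q.2) (Ioi 0 ×ˢ univ) := by
  unfold KS2_Q
  refine continuousOn_const.mul (Complex.continuous_ofReal.comp_continuousOn ?_)
  exact (continuousOn_const.mul (continuousOn_const.mul (continuousOn_const.mul (KS2_pow _)))).mul
    ((KS2_gc k).comp continuous_snd).continuousOn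

/-- functions vanishing outside of `[1/4, 3/4]` -/
private def KS2_Z (f : ℝ → ℝ) : Prop := ∀ u, u ∉ Icc (1 / 4 : ℝ) (3 / 4) → f u = 0

private theorem KS2_Zd {f : ℝ → ℝ} (hf : KS2_Z f) : KS2_Z (deriv f) := by
  intro u hu
  have h1 : f =ᶠ[𝓝 u] fun _ => 0 := by
    filter_upwards [isClosed_Icc.isOpen_compl.mem_nhds hu] with y hy
    exact hf y hy
  rw [h1.deriv_eq, deriv_const]

private theorem KS2_RZ {f : ℝ → ℝ} (hf : KS2_Z f) {T X : ℝ} (hX : 0 < X) (hXT : X ≤ T) {x v : ℝ}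
    (h : x * Real.exp (-v) ∉ Icc T (2 * T)) : KS2_R f T X x v = 0 := by
  unfold KS2_R
  rw [hf, Complex.ofReal_zero]
  intro hu
  apply h
  have h1 := hu.1
  have h2 := hu.2
  rw [le_div_iff₀ hX] at h1
  rw [div_le_iff₀ hX] at h2
  constructor <;> linarith

private theorem KS2_far {T : ℝ} (hT : 1 ≤ T) (p q : ℝ) (hp : 0 < p) : ∃ R : ℝ,
    ∀ x ∈ Icc p q, ∀ v : ℝ, R < |v| → x * Real.exp (-v) ∉ Icc T (2 * T) := by
  have hT0 : 0 < T := by linarith
  refine ⟨|q| / T + 2 * T / p, ?_⟩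
  intro x hx v hv hmem
  have hx0 : 0 < x := lt_of_lt_of_le hp hx.1
  have h1 : 0 ≤ |q| / T := by positivity
  have h2 : 0 ≤ 2 * T / p := by positivity
  have hexp : |v| + 1 ≤ Real.exp |v| := Real.add_one_le_exp _
  rcases le_or_gt 0 v with h3 | h3
  · rw [abs_of_nonneg h3] at hv hexp
    have h4 : |q| / T < Real.exp v := by linarith
    rw [div_lt_iff₀ hT0] at h4
    have h5 : T * Real.exp v ≤ x := by
      calc T * Real.exp v ≤ (x * Real.exp (-v)) * Real.exp v :=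
            mul_le_mul_of_nonneg_right hmem.1 (Real.exp_pos _).le
        _ = x * (Real.exp (-v) * Real.exp v) := by ring
        _ = x := by rw [← Real.exp_add]; simp
    have h6 : x ≤ |q| := hx.2.trans (le_abs_self q)
    nlinarith
  · rw [abs_of_neg h3] at hv hexp
    have h4 : 2 * T / p < Real.exp (-v) := by linarith
    rw [div_lt_iff₀ hp] at h4
    have h5 := hmem.2
    have h6 : p * Real.exp (-v) ≤ x * Real.exp (-v) :=
      mul_le_mul_of_nonneg_right hx.1 (Real.exp_pos _).le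
    linarith

private noncomputable def KS2_F0 (ρ : ℝ → ℝ) (k : ℕ) (T : ℝ) (l : ℤ) (x v : ℝ) : ℂ :=
  KS2_R ρ T (Xw k T) x v * KS2_E k (Yk k T) l x v

private noncomputable def KS2_F1 (ρ : ℝ → ℝ) (k : ℕ) (T : ℝ) (l : ℤ) (x v : ℝ) : ℂ :=
  KS2_R (deriv ρ) T (Xw k T) x v * KS2_c (Xw k T) v * KS2_E k (Yk k T) l x v +
  KS2_R ρ T (Xw k T) x v * (KS2_E k (Yk k T) l x v * KS2_P k l x v)

private noncomputable def KS2_F2 (ρ : ℝ → ℝ) (k : ℕ) (T : ℝ) (l : ℤ) (x v : ℝ) : ℂ :=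
  (KS2_R (deriv (deriv ρ)) T (Xw k T) x v * KS2_c (Xw k T) v * KS2_c (Xw k T) v *
    KS2_E k (Yk k T) l x v +
  KS2_R (deriv ρ) T (Xw k T) x v * KS2_c (Xw k T) v * (KS2_E k (Yk k T) l x v * KS2_P k l x v)) +
  (KS2_R (deriv ρ) T (Xw k T) x v * KS2_c (Xw k T) v * (KS2_E k (Yk k T) l x v * KS2_P k l x v) +
  KS2_R ρ T (Xw k T) x v * (KS2_E k (Yk k T) l x v * KS2_P k l x v * KS2_P k l x v +
    KS2_E k (Yk k T) l x v * KS2_Q k l x v))

private theorem KS2_g_bound {k : ℕ} (hk : 4 ≤ k) {v : ℝ} (hv : |v| ≤ 3) :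
    |KS2_g k v| ≤ 3 * v ^ 2 := by
  have hk' : (4 : ℝ) ≤ k := by exact_mod_cast hk
  have hk0 : (0 : ℝ) < k := by linarith
  have hw : |v / k| ≤ 1 := by
    rw [abs_div, abs_of_pos hk0, div_le_one hk0]
    linarith
  have h1 := Real.abs_exp_sub_one_sub_id_le hw
  have h2 : KS2_g k v = -(k * Real.exp (-v / k) * (Real.exp (v / k) - 1 - v / k)) := by
    unfold KS2_g
    have h3 : Real.exp (-v / k) * Real.exp (v / k) = 1 := by
      rw [← Real.exp_add, neg_div, neg_add_cancel, Real.exp_zero]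
    have h4 : (k : ℝ) * (v / k) = v := by field_simp
    calc (k + v) * Real.exp (-v / k) - k =
        (k + k * (v / k)) * Real.exp (-v / k) - k * (Real.exp (-v / k) * Real.exp (v / k)) := by
          rw [h3, h4, mul_one]
      _ = _ := by ring
  have h5 : Real.exp (-v / k) ≤ 3 := by
    have h6 : -v / k ≤ 1 := by
      have := (abs_le.mp hw).1
      rw [neg_div]
      linarith
    calc Real.exp (-v / k) ≤ Real.exp 1 := Real.exp_le_exp.mpr h6
      _ ≤ 3 := by linarith [Real.exp_one_lt_d9]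
  rw [h2, abs_neg, abs_mul, abs_mul, abs_of_pos hk0, abs_of_pos (Real.exp_pos _)]
  have h7 : (v / k) ^ 2 * k ≤ v ^ 2 := by
    have h8 : (v / k) ^ 2 * k = v ^ 2 / k := by field_simp
    rw [h8]
    apply div_le_self (sq_nonneg v)
    linarith
  calc k * Real.exp (-v / k) * |Real.exp (v / k) - 1 - v / k| ≤ k * 3 * (v / k) ^ 2 := by
        apply mul_le_mul _ h1 (abs_nonneg _) (by positivity)
        exact mul_le_mul_of_nonneg_left h5 hk0.le
    _ = 3 * ((v / k) ^ 2 * k) := by ring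
    _ ≤ 3 * v ^ 2 := by linarith

private theorem KS2_bounds {k : ℕ} (hk : 4 ≤ k) {T : ℝ} (hT : 1 ≤ T) {l : ℤ} (hl : |l| ≤ 1)
    {x v : ℝ} (hx : x ∈ Icc (T / 4) (8 * T)) (hm : x * Real.exp (-v) ∈ Icc T (2 * T)) :
    ‖KS2_c (Xw k T) v‖ ≤ 8 / Xw k T ∧
    ‖KS2_P k l x v‖ ≤ 3072 * (v ^ 2 * (Yk k T ^ 2)⁻¹) / Xw k T ∧
    ‖KS2_Q k l x v‖ ≤ 3072 * (v ^ 2 * (Yk k T ^ 2)⁻¹) / Xw k T ^ 2 := by
  have hk' : (4 : ℝ) ≤ k := by exact_mod_cast hk
  have hk0 : (0 : ℝ) < k := by linarith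
  have hT0 : 0 < T := by linarith
  have hX := KS0_X_pos k hT
  have hXT := KS0_X_le k hT
  have hx0 : 0 < x := lt_of_lt_of_le (by linarith) hx.1
  have hev : Real.exp v * Real.exp (-v) = 1 := by rw [← Real.exp_add]; simp
  have hem : Real.exp (-v) ≤ 8 := by
    have h1 : T / 4 * Real.exp (-v) ≤ 2 * T :=
      (mul_le_mul_of_nonneg_right hx.1 (Real.exp_pos _).le).trans hm.2
    by_contra hcon
    push Not at hcon
    nlinarith
  have hep : Real.exp v ≤ 8 := by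
    have h1 : T * Real.exp v ≤ x := by
      calc T * Real.exp v ≤ (x * Real.exp (-v)) * Real.exp v :=
            mul_le_mul_of_nonneg_right hm.1 (Real.exp_pos _).le
        _ = x * (Real.exp v * Real.exp (-v)) := by ring
        _ = x := by rw [hev, mul_one]
    by_contra hcon
    push Not at hcon
    nlinarith [hx.2]
  have h8 : (8 : ℝ) ≤ Real.exp 3 := by
    have h1 : (2 : ℝ) ≤ Real.exp 1 := by
      have := Real.add_one_le_exp (1 : ℝ)
      linarith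
    have h2 : Real.exp 3 = Real.exp 1 ^ 3 := by
      rw [← Real.exp_nat_mul]
      norm_num
    rw [h2]
    calc (8 : ℝ) = 2 ^ 3 := by norm_num
      _ ≤ _ := pow_le_pow_left₀ (by norm_num) h1 3
  have hv : |v| ≤ 3 := by
    rw [abs_le]
    constructor
    · have := Real.exp_le_exp.mp (hem.trans h8)
      linarith
    · exact Real.exp_le_exp.mp (hep.trans h8)
  have hg := KS2_g_bound hk hv
  have hYk := KS0_Y_sq (k := k) (by omega) hT
  have hp0 : 0 ≤ 1 / (k : ℝ) := by positivity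
  have hp1 : 1 / (k : ℝ) ≤ 1 := by
    rw [div_le_one hk0]
    linarith
  have hxp : x ^ (1 / (k : ℝ)) ≤ 8 * T ^ (1 / (k : ℝ)) := by
    calc x ^ (1 / (k : ℝ)) ≤ (8 * T) ^ (1 / (k : ℝ)) := Real.rpow_le_rpow hx0.le hx.2 hp0
      _ = 8 ^ (1 / (k : ℝ)) * T ^ (1 / (k : ℝ)) := Real.mul_rpow (by norm_num) hT0.le
      _ ≤ 8 * T ^ (1 / (k : ℝ)) := by
          apply mul_le_mul_of_nonneg_right _ (Real.rpow_nonneg hT0.le _)
          calc (8 : ℝ) ^ (1 / (k : ℝ)) ≤ 8 ^ (1 : ℝ) :=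
                Real.rpow_le_rpow_of_exponent_le (by norm_num) hp1
            _ = 8 := Real.rpow_one 8
  have hTp : 0 ≤ T ^ (1 / (k : ℝ)) := Real.rpow_nonneg hT0.le _
  have hxi : x⁻¹ ≤ 4 / T := by
    rw [inv_eq_one_div, div_le_div_iff₀ hx0 hT0]
    linarith [hx.1]
  have hxi0 : 0 ≤ x⁻¹ := inv_nonneg.mpr hx0.le
  have hTX : 1 / T ≤ 1 / Xw k T := one_div_le_one_div_of_le hX hXT
  have hv2 : 0 ≤ v ^ 2 := sq_nonneg v
  have hpi : π ≤ 4 := Real.pi_le_four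
  have hpi0 : 0 < π := Real.pi_pos
  have hnorm : ∀ r : ℝ, ‖I * (l : ℂ) * (r : ℂ)‖ ≤ |r| := by
    intro r
    rw [norm_mul, norm_mul, Complex.norm_I, one_mul, Complex.norm_real, Real.norm_eq_abs]
    have h1 : ‖(l : ℂ)‖ ≤ 1 := by
      rw [Complex.norm_intCast]
      exact_mod_cast hl
    exact mul_le_of_le_one_left (abs_nonneg r) h1
  refine ⟨?_, ?_, ?_⟩
  · unfold KS2_c
    rw [Complex.norm_real, Real.norm_eq_abs, abs_of_pos (div_pos (Real.exp_pos _) hX)]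
    exact div_le_div_of_nonneg_right hem hX.le
  · unfold KS2_P
    refine (hnorm _).trans ?_
    have e1 : x ^ (1 / (k : ℝ) - 1) = x ^ (1 / (k : ℝ)) * x⁻¹ := by
      rw [Real.rpow_sub hx0, Real.rpow_one, div_eq_mul_inv]
    have e2 : x ^ (1 / (k : ℝ) - 1) ≤ 8 * T ^ (1 / (k : ℝ)) * (4 / T) := by
      rw [e1]
      exact mul_le_mul hxp hxi hxi0 (by positivity)
    have e3 : 0 ≤ x ^ (1 / (k : ℝ) - 1) := Real.rpow_nonneg hx0.le _
    rw [abs_mul, abs_of_nonneg (by positivity), hYk]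
    calc 2 * π * (1 / (k : ℝ) * x ^ (1 / (k : ℝ) - 1)) * |KS2_g k v|
        ≤ 2 * 4 * (1 * (8 * T ^ (1 / (k : ℝ)) * (4 / T))) * (3 * v ^ 2) := by
          apply mul_le_mul _ hg (abs_nonneg _) (by positivity)
          apply mul_le_mul (by linarith) _ (by positivity) (by positivity)
          exact mul_le_mul hp1 e2 e3 (by norm_num)
      _ = 768 * (v ^ 2 * T ^ (1 / (k : ℝ))) * (1 / T) := by ring
      _ ≤ 3072 * (v ^ 2 * T ^ (1 / (k : ℝ))) * (1 / Xw k T) := by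
          apply mul_le_mul _ hTX (by positivity) (by positivity)
          have : 0 ≤ v ^ 2 * T ^ (1 / (k : ℝ)) := by positivity
          linarith
      _ = _ := by ring
  · unfold KS2_Q
    refine (hnorm _).trans ?_
    have e1 : x ^ (1 / (k : ℝ) - 1 - 1) = x ^ (1 / (k : ℝ)) * (x⁻¹ * x⁻¹) := by
      rw [Real.rpow_sub hx0, Real.rpow_sub hx0, Real.rpow_one, div_eq_mul_inv, div_eq_mul_inv]
      ring
    have e2 : x ^ (1 / (k : ℝ) - 1 - 1) ≤ 8 * T ^ (1 / (k : ℝ)) * ((4 / T) * (4 / T)) := by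
      rw [e1]
      apply mul_le_mul hxp _ (by positivity) (by positivity)
      exact mul_le_mul hxi hxi hxi0 (by positivity)
    have e3 : 0 ≤ x ^ (1 / (k : ℝ) - 1 - 1) := Real.rpow_nonneg hx0.le _
    have e4 : |1 / (k : ℝ) - 1| ≤ 1 := by
      rw [abs_le]
      constructor <;> linarith
    rw [abs_mul, abs_mul (2 * π), abs_mul (1 / (k : ℝ)), abs_mul (1 / (k : ℝ) - 1),
      abs_of_nonneg (show (0 : ℝ) ≤ 2 * π by positivity), abs_of_nonneg hp0, abs_of_nonneg e3, hYk]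
    have hTX2 : (1 / T) ^ 2 ≤ (1 / Xw k T) ^ 2 := pow_le_pow_left₀ (by positivity) hTX 2
    calc 2 * π * (1 / (k : ℝ) * (|1 / (k : ℝ) - 1| * x ^ (1 / (k : ℝ) - 1 - 1))) * |KS2_g k v|
        ≤ 2 * 4 * (1 * (1 * (8 * T ^ (1 / (k : ℝ)) * ((4 / T) * (4 / T))))) * (3 * v ^ 2) := by
          apply mul_le_mul _ hg (abs_nonneg _) (by positivity)
          apply mul_le_mul (by linarith) _ (by positivity) (by positivity)
          apply mul_le_mul hp1 _ (by positivity) (by norm_num)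
          exact mul_le_mul e4 e2 e3 (by norm_num)
      _ = 3072 * (v ^ 2 * T ^ (1 / (k : ℝ))) * (1 / T) ^ 2 := by ring
      _ ≤ 3072 * (v ^ 2 * T ^ (1 / (k : ℝ))) * (1 / Xw k T) ^ 2 := by
          apply mul_le_mul_of_nonneg_left hTX2 (by positivity)
      _ = _ := by
          rw [div_pow, one_pow]
          ring

private theorem KS2_normE (k : ℕ) (Y : ℝ) (l : ℤ) (x v : ℝ) :
    ‖KS2_E k Y l x v‖ = Real.exp (-(v ^ 2 * (Y ^ 2)⁻¹) / 2) := by
  unfold KS2_E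
  rw [Complex.norm_exp]
  congr 1
  have h1 : (-(v : ℂ) ^ 2 / (2 * (Y : ℂ) ^ 2) + I * l * Psi k x v) =
      ((-(v ^ 2 * (Y ^ 2)⁻¹) / 2 : ℝ) : ℂ) + ((l * Psi k x v : ℝ) : ℂ) * I := by
    push_cast
    rcases eq_or_ne Y 0 with rfl | hY
    · simp
      ring
    · have : (Y : ℂ) ≠ 0 := by exact_mod_cast hY
      field_simp
  rw [h1, Complex.add_re, Complex.ofReal_re, Complex.re_ofReal_mul, Complex.I_re, mul_zero,
    add_zero]

private theorem KS2_pt {B c X t e R₀ R₁ R₂ cc E P Q : ℝ} (hB : 0 ≤ B) (hc : 1 ≤ c) (hX : 0 < X)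
    (ht : 0 ≤ t) (he : 0 ≤ e) (hR₀ : R₀ ≤ B) (hR₁ : R₁ ≤ B) (hR₂ : R₂ ≤ B)
    (hR₀' : 0 ≤ R₀) (hR₁' : 0 ≤ R₁) (hR₂' : 0 ≤ R₂)
    (hcc : cc ≤ 8 / X) (hcc' : 0 ≤ cc) (hE : E = e) (hP : P ≤ c * t / X) (hP' : 0 ≤ P)
    (hQ : Q ≤ c * t / X ^ 2) (hQ' : 0 ≤ Q) :
    R₀ * E ≤ 64 * c ^ 2 * B * ((1 + t) ^ 2 * e) ∧
    R₁ * cc * E + R₀ * (E * P) ≤ 64 * c ^ 2 * B * ((1 + t) ^ 2 * e) / X ∧
    (R₂ * cc * cc * E + R₁ * cc * (E * P)) + (R₁ * cc * (E * P) + R₀ * (E * P * P + E * Q)) ≤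
      64 * c ^ 2 * B * ((1 + t) ^ 2 * e) / X ^ 2 := by
  subst hE
  have hc0 : 0 ≤ c := by linarith
  have hc2 : 1 ≤ c ^ 2 := one_le_pow₀ hc
  have hcc2 : c ≤ c ^ 2 := by nlinarith
  have hBe : 0 ≤ B * E := mul_nonneg hB he
  refine ⟨?_, ?_, ?_⟩
  · calc R₀ * E ≤ B * E := mul_le_mul_of_nonneg_right hR₀ he
      _ = 1 * (B * E) := by ring
      _ ≤ (64 * c ^ 2 * (1 + t) ^ 2) * (B * E) := by
          apply mul_le_mul_of_nonneg_right _ hBe
          nlinarith [mul_nonneg (sq_nonneg c) ht, mul_nonneg (sq_nonneg c) (sq_nonneg t)]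
      _ = _ := by ring
  · calc R₁ * cc * E + R₀ * (E * P) ≤ B * (8 / X) * E + B * (E * (c * t / X)) := by
          apply add_le_add
          · exact mul_le_mul_of_nonneg_right (mul_le_mul hR₁ hcc hcc' hB) he
          · exact mul_le_mul hR₀ (mul_le_mul_of_nonneg_left hP he) (mul_nonneg he hP') hB
      _ = (8 + c * t) * ((B * E) / X) := by ring
      _ ≤ (64 * c ^ 2 * (1 + t) ^ 2) * ((B * E) / X) := by
          apply mul_le_mul_of_nonneg_right _ (div_nonneg hBe hX.le)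
          have h1 : c * t ≤ c ^ 2 * t := mul_le_mul_of_nonneg_right hcc2 ht
          nlinarith [mul_nonneg (sq_nonneg c) ht, mul_nonneg (sq_nonneg c) (sq_nonneg t)]
      _ = _ := by ring
  · have h1 : R₂ * cc * cc * E ≤ B * (8 / X) * (8 / X) * E := by
      apply mul_le_mul_of_nonneg_right _ he
      exact mul_le_mul (mul_le_mul hR₂ hcc hcc' hB) hcc hcc' (by positivity)
    have h2 : R₁ * cc * (E * P) ≤ B * (8 / X) * (E * (c * t / X)) :=
      mul_le_mul (mul_le_mul hR₁ hcc hcc' hB) (mul_le_mul_of_nonneg_left hP he)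
        (mul_nonneg he hP') (by positivity)
    have h3 : R₀ * (E * P * P + E * Q) ≤
        B * (E * (c * t / X) * (c * t / X) + E * (c * t / X ^ 2)) := by
      apply mul_le_mul hR₀ _ (by positivity) hB
      apply add_le_add
      · exact mul_le_mul (mul_le_mul_of_nonneg_left hP he) hP hP' (by positivity)
      · exact mul_le_mul_of_nonneg_left hQ he
    calc _ ≤ (B * (8 / X) * (8 / X) * E + B * (8 / X) * (E * (c * t / X))) +
          (B * (8 / X) * (E * (c * t / X)) +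
          B * (E * (c * t / X) * (c * t / X) + E * (c * t / X ^ 2))) :=
          add_le_add (add_le_add h1 h2) (add_le_add h2 h3)
      _ = (64 + 17 * (c * t) + (c * t) ^ 2) * ((B * E) / X ^ 2) := by
          field_simp
          ring
      _ ≤ (64 * c ^ 2 * (1 + t) ^ 2) * ((B * E) / X ^ 2) := by
          apply mul_le_mul_of_nonneg_right _ (div_nonneg hBe (by positivity))
          have h4 : c * t ≤ c ^ 2 * t := mul_le_mul_of_nonneg_right hcc2 ht
          nlinarith [mul_nonneg (sq_nonneg c) ht, mul_nonneg (sq_nonneg c) (sq_nonneg t)]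
      _ = _ := by ring

private theorem KS2_exp4 {t : ℝ} (ht : 0 ≤ t) :
    (1 + t) ^ 2 * Real.exp (-t / 2) ≤ 64 * Real.exp (-t / 4) := by
  have h1 : 1 + t ≤ 8 * Real.exp (t / 8) := by
    have := Real.add_one_le_exp (t / 8)
    linarith
  have h2 : (1 + t) ^ 2 ≤ (8 * Real.exp (t / 8)) ^ 2 := pow_le_pow_left₀ (by linarith) h1 2
  calc (1 + t) ^ 2 * Real.exp (-t / 2) ≤ (8 * Real.exp (t / 8)) ^ 2 * Real.exp (-t / 2) :=
        mul_le_mul_of_nonneg_right h2 (Real.exp_pos _).le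
    _ = 64 * (Real.exp (t / 8) * Real.exp (t / 8) * Real.exp (-t / 2)) := by ring
    _ = 64 * Real.exp (-t / 4) := by
        rw [← Real.exp_add, ← Real.exp_add]
        congr 2
        ring

private theorem KS2_gauss {Y : ℝ} (hY : 0 < Y) {K : ℝ} (hK : 0 ≤ K) :
    Integrable (fun v : ℝ => K * (64 * Real.exp (-(v ^ 2 * (Y ^ 2)⁻¹) / 4))) ∧
    ∫ v : ℝ, K * (64 * Real.exp (-(v ^ 2 * (Y ^ 2)⁻¹) / 4)) ≤ 256 * K * Y := by
  have h0 : 0 < (4 * Y ^ 2)⁻¹ := by positivity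
  have h1 : (fun v : ℝ => K * (64 * Real.exp (-(v ^ 2 * (Y ^ 2)⁻¹) / 4))) =
      fun v : ℝ => K * (64 * Real.exp (-((4 * Y ^ 2)⁻¹) * v ^ 2)) := by
    funext v
    congr 3
    rw [mul_inv]
    ring
  rw [h1]
  refine ⟨((integrable_exp_neg_mul_sq h0).const_mul 64).const_mul K, ?_⟩
  rw [integral_const_mul, integral_const_mul, integral_gaussian]
  have h2 : √(π / (4 * Y ^ 2)⁻¹) ≤ 4 * Y := by
    rw [Real.sqrt_le_left (by positivity), div_inv_eq_mul]
    have := Real.pi_le_four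
    nlinarith [sq_nonneg Y]
  calc K * (64 * √(π / (4 * Y ^ 2)⁻¹)) ≤ K * (64 * (4 * Y)) := by gcongr
    _ = _ := by ring

/-- **KS2.** Derivatives of the amplitudes (differentiate twice under the integral; on the support
`x e^{-v} ∈ [T, 2T]`, so `|v| ≤ 3`, `|Ψ| ≤ C x^{1/k} v²`). -/
theorem Aamp_bound {ρ : ℝ → ℝ} (hρ : IsBump ρ (1 / 4) (3 / 8) (5 / 8) (3 / 4)) {k : ℕ}
    (hk : 4 ≤ k) : ∃ C : ℝ, 0 < C ∧ ∀ T : ℝ, 1 ≤ T → ∀ l : ℤ, |l| ≤ 1 →
      ContDiffOn ℝ 2 (Aamp ρ k T l) (Ioi 0) ∧ ∀ x ∈ Icc (T / 4) (8 * T),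
        ‖Aamp ρ k T l x‖ ≤ C ∧ ‖deriv (Aamp ρ k T l) x‖ ≤ C / Xw k T ∧
        ‖deriv (deriv (Aamp ρ k T l)) x‖ ≤ C / Xw k T ^ 2 := by
  -- smoothness of `ρ`
  have hZ0 : KS2_Z ρ := fun u hu => hρ.zero u hu
  have hZ1 := KS2_Zd hZ0
  have hZ2 := KS2_Zd hZ1
  have hs1 : ContDiff ℝ ∞ (deriv ρ) := (contDiff_infty_iff_deriv.mp hρ.smooth).2
  have hs2 : ContDiff ℝ ∞ (deriv (deriv ρ)) := (contDiff_infty_iff_deriv.mp hs1).2
  have hd0 : Differentiable ℝ ρ := (contDiff_infty_iff_deriv.mp hρ.smooth).1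
  have hd1 : Differentiable ℝ (deriv ρ) := (contDiff_infty_iff_deriv.mp hs1).1
  -- bounds of the derivatives
  have hbd : ∀ f : ℝ → ℝ, Continuous f → KS2_Z f → ∃ B : ℝ, 0 ≤ B ∧ ∀ u, |f u| ≤ B := by
    intro f hf hz
    obtain ⟨B, hB⟩ := (isCompact_Icc (a := (1 / 4 : ℝ)) (b := 3 / 4)).exists_bound_of_continuousOn
      hf.continuousOn
    refine ⟨|B|, abs_nonneg B, fun u => ?_⟩
    by_cases hu : u ∈ Icc (1 / 4 : ℝ) (3 / 4)
    · exact (hB u hu).trans (le_abs_self B)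
    · rw [hz u hu, abs_zero]
      exact abs_nonneg B
  obtain ⟨B0, hB0, hB0'⟩ := hbd ρ hρ.smooth.continuous hZ0
  obtain ⟨B1, hB1, hB1'⟩ := hbd _ hs1.continuous hZ1
  obtain ⟨B2, hB2, hB2'⟩ := hbd _ hs2.continuous hZ2
  set B : ℝ := B0 + B1 + B2 with hBdef
  have hB : 0 ≤ B := by positivity
  set K : ℝ := 64 * (3072 : ℝ) ^ 2 * B with hK
  have hK0 : 0 ≤ K := by positivity
  refine ⟨256 * K + 1, by positivity, ?_⟩
  intro T hT l hl
  have hX := KS0_X_pos k hT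
  have hXT := KS0_X_le k hT
  have hY := KS0_Y_pos k hT
  -- joint continuity
  have c0 : ContinuousOn (fun q : ℝ × ℝ => KS2_F0 ρ k T l q.1 q.2) (Ioi 0 ×ˢ univ) :=
    (KS2_Rc hρ.smooth.continuous _ _).mul (KS2_Ec _ _ _)
  have c1 : ContinuousOn (fun q : ℝ × ℝ => KS2_F1 ρ k T l q.1 q.2) (Ioi 0 ×ˢ univ) :=
    (((KS2_Rc hs1.continuous _ _).mul (KS2_cc _)).mul (KS2_Ec _ _ _)).add
      ((KS2_Rc hρ.smooth.continuous _ _).mul ((KS2_Ec _ _ _).mul (KS2_Pc _ _)))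
  have c2 : ContinuousOn (fun q : ℝ × ℝ => KS2_F2 ρ k T l q.1 q.2) (Ioi 0 ×ˢ univ) :=
    (((((KS2_Rc hs2.continuous _ _).mul (KS2_cc _)).mul (KS2_cc _)).mul (KS2_Ec _ _ _)).add
      (((KS2_Rc hs1.continuous _ _).mul (KS2_cc _)).mul ((KS2_Ec _ _ _).mul (KS2_Pc _ _)))).add
      ((((KS2_Rc hs1.continuous _ _).mul (KS2_cc _)).mul ((KS2_Ec _ _ _).mul (KS2_Pc _ _))).add
      ((KS2_Rc hρ.smooth.continuous _ _).mul ((((KS2_Ec _ _ _).mul (KS2_Pc _ _)).mul
        (KS2_Pc _ _)).add ((KS2_Ec _ _ _).mul (KS2_Qc _ _)))))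
  -- vanishing
  have v0 : ∀ x v, x * Real.exp (-v) ∉ Icc T (2 * T) → KS2_F0 ρ k T l x v = 0 := by
    intro x v h
    unfold KS2_F0
    rw [KS2_RZ hZ0 hX hXT h]
    ring
  have v1 : ∀ x v, x * Real.exp (-v) ∉ Icc T (2 * T) → KS2_F1 ρ k T l x v = 0 := by
    intro x v h
    unfold KS2_F1
    rw [KS2_RZ hZ0 hX hXT h, KS2_RZ hZ1 hX hXT h]
    ring
  have v2 : ∀ x v, x * Real.exp (-v) ∉ Icc T (2 * T) → KS2_F2 ρ k T l x v = 0 := by
    intro x v h
    unfold KS2_F2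
    rw [KS2_RZ hZ0 hX hXT h, KS2_RZ hZ1 hX hXT h, KS2_RZ hZ2 hX hXT h]
    ring
  have hfar : ∀ F : ℝ → ℝ → ℂ, (∀ x v, x * Real.exp (-v) ∉ Icc T (2 * T) → F x v = 0) →
      ∀ p q : ℝ, 0 < p → ∃ R : ℝ, ∀ x ∈ Icc p q, ∀ v, R < |v| → F x v = 0 := by
    intro F hF p q hp
    obtain ⟨R, hR⟩ := KS2_far hT p q hp
    exact ⟨R, fun x hx v hv => hF x v (hR x hx v hv)⟩
  -- derivatives
  have d0 : ∀ x v, 0 < x → HasDerivAt (fun x => KS2_F0 ρ k T l x v) (KS2_F1 ρ k T l x v) x := by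
    intro x v hx
    exact (KS2_hR hd0 T (Xw k T) x v).mul (KS2_hE k (Yk k T) l hx v)
  have d1 : ∀ x v, 0 < x → HasDerivAt (fun x => KS2_F1 ρ k T l x v) (KS2_F2 ρ k T l x v) x := by
    intro x v hx
    have e1 := ((KS2_hR hd1 T (Xw k T) x v).mul_const (KS2_c (Xw k T) v)).mul
      (KS2_hE k (Yk k T) l hx v)
    have e2 := (KS2_hR hd0 T (Xw k T) x v).mul
      ((KS2_hE k (Yk k T) l hx v).mul (KS2_hP k l hx v))
    exact e1.add e2
  have D0 : ∀ x : ℝ, 0 < x → HasDerivAt (fun x => ∫ v, KS2_F0 ρ k T l x v)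
      (∫ v, KS2_F1 ρ k T l x v) x := fun x hx =>
    KS2_deriv c0 c1 (hfar _ v0) (hfar _ v1) d0 hx
  have D1 : ∀ x : ℝ, 0 < x → HasDerivAt (fun x => ∫ v, KS2_F1 ρ k T l x v)
      (∫ v, KS2_F2 ρ k T l x v) x := fun x hx =>
    KS2_deriv c1 c2 (hfar _ v1) (hfar _ v2) d1 hx
  -- the amplitude
  have hA : ∀ x, Aamp ρ k T l x = ((Yk k T)⁻¹ : ℝ) * ∫ v, KS2_F0 ρ k T l x v := fun x => rfl
  have hA1 : ∀ x : ℝ, 0 < x → HasDerivAt (Aamp ρ k T l)
      (((Yk k T)⁻¹ : ℝ) * ∫ v, KS2_F1 ρ k T l x v) x := fun x hx =>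
    (D0 x hx).const_mul (((Yk k T)⁻¹ : ℝ) : ℂ)
  have hA1' : ∀ x : ℝ, 0 < x → deriv (Aamp ρ k T l) x =
      ((Yk k T)⁻¹ : ℝ) * ∫ v, KS2_F1 ρ k T l x v := fun x hx => (hA1 x hx).deriv
  have hA2 : ∀ x : ℝ, 0 < x → HasDerivAt (deriv (Aamp ρ k T l))
      (((Yk k T)⁻¹ : ℝ) * ∫ v, KS2_F2 ρ k T l x v) x := by
    intro x hx
    refine HasDerivAt.congr_of_eventuallyEq ((D1 x hx).const_mul (((Yk k T)⁻¹ : ℝ) : ℂ)) ?_
    filter_upwards [Ioi_mem_nhds hx] with y hy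
    exact hA1' y hy
  have hA2' : ∀ x : ℝ, 0 < x → deriv (deriv (Aamp ρ k T l)) x =
      ((Yk k T)⁻¹ : ℝ) * ∫ v, KS2_F2 ρ k T l x v := fun x hx => (hA2 x hx).deriv
  constructor
  · have h2 : (2 : WithTop ℕ∞) = 1 + 1 := by norm_num
    rw [h2, contDiffOn_succ_iff_deriv_of_isOpen isOpen_Ioi]
    refine ⟨fun x hx => (hA1 x hx).differentiableAt.differentiableWithinAt, by simp, ?_⟩
    have h1 : (1 : WithTop ℕ∞) = 0 + 1 := by norm_num
    rw [h1, contDiffOn_succ_iff_deriv_of_isOpen isOpen_Ioi]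
    refine ⟨fun x hx => (hA2 x hx).differentiableAt.differentiableWithinAt, by simp, ?_⟩
    rw [contDiffOn_zero]
    have h3 : ContinuousOn (fun x => (((Yk k T)⁻¹ : ℝ) : ℂ) * ∫ v, KS2_F2 ρ k T l x v) (Ioi 0) :=
      continuousOn_const.mul (KS2_cont c2 (hfar _ v2))
    exact h3.congr fun x hx => hA2' x hx
  · intro x hx
    have hT0 : 0 < T := by linarith
    have hx0 : 0 < x := lt_of_lt_of_le (by linarith) hx.1
    -- pointwise bounds
    have key : ∀ v : ℝ, ‖KS2_F0 ρ k T l x v‖ ≤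
          K * (64 * Real.exp (-(v ^ 2 * (Yk k T ^ 2)⁻¹) / 4)) ∧
        ‖KS2_F1 ρ k T l x v‖ ≤
          (K / Xw k T) * (64 * Real.exp (-(v ^ 2 * (Yk k T ^ 2)⁻¹) / 4)) ∧
        ‖KS2_F2 ρ k T l x v‖ ≤
          (K / Xw k T ^ 2) * (64 * Real.exp (-(v ^ 2 * (Yk k T ^ 2)⁻¹) / 4)) := by
      intro v
      by_cases hm : x * Real.exp (-v) ∈ Icc T (2 * T)
      · obtain ⟨b1, b2, b3⟩ := KS2_bounds hk hT hl hx hm
        set t : ℝ := v ^ 2 * (Yk k T ^ 2)⁻¹ with ht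
        have ht0 : 0 ≤ t := by positivity
        have hexp := KS2_exp4 ht0
        have hEn := KS2_normE k (Yk k T) l x v
        rw [← ht] at hEn
        have hRn : ∀ f : ℝ → ℝ, (∀ u, |f u| ≤ B) → ‖KS2_R f T (Xw k T) x v‖ ≤ B := by
          intro f hf
          unfold KS2_R
          rw [Complex.norm_real, Real.norm_eq_abs]
          exact hf _
        have r0 := hRn ρ fun u => (hB0' u).trans (by linarith)
        have r1 := hRn (deriv ρ) fun u => (hB1' u).trans (by linarith)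
        have r2 := hRn (deriv (deriv ρ)) fun u => (hB2' u).trans (by linarith)
        obtain ⟨p1, p2, p3⟩ := KS2_pt (c := 3072) hB (by norm_num) hX ht0 (Real.exp_pos (-t / 2)).le
          r0 r1 r2 (norm_nonneg _) (norm_nonneg _) (norm_nonneg _) b1 (norm_nonneg _) hEn b2
          (norm_nonneg _) b3 (norm_nonneg _)
        have hKe : K * ((1 + t) ^ 2 * Real.exp (-t / 2)) ≤ K * (64 * Real.exp (-t / 4)) :=
          mul_le_mul_of_nonneg_left hexp hK0
        refine ⟨?_, ?_, ?_⟩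
        · unfold KS2_F0
          rw [norm_mul]
          exact p1.trans hKe
        · unfold KS2_F1
          refine (norm_add_le _ _).trans ?_
          rw [norm_mul, norm_mul, norm_mul, norm_mul]
          refine p2.trans ?_
          rw [div_mul_eq_mul_div]
          exact div_le_div_of_nonneg_right hKe hX.le
        · unfold KS2_F2
          refine (norm_add_le _ _).trans ?_
          refine le_trans (add_le_add (norm_add_le _ _) (norm_add_le _ _)) ?_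
          have h4 : ‖KS2_R ρ T (Xw k T) x v * (KS2_E k (Yk k T) l x v * KS2_P k l x v *
              KS2_P k l x v + KS2_E k (Yk k T) l x v * KS2_Q k l x v)‖ ≤
              ‖KS2_R ρ T (Xw k T) x v‖ * (‖KS2_E k (Yk k T) l x v‖ * ‖KS2_P k l x v‖ *
              ‖KS2_P k l x v‖ + ‖KS2_E k (Yk k T) l x v‖ * ‖KS2_Q k l x v‖) := by
            rw [norm_mul]
            apply mul_le_mul_of_nonneg_left _ (norm_nonneg _)
            refine (norm_add_le _ _).trans ?_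
            rw [norm_mul, norm_mul, norm_mul]
          refine le_trans (add_le_add le_rfl (add_le_add le_rfl h4)) ?_
          simp only [norm_mul]
          refine p3.trans ?_
          rw [div_mul_eq_mul_div]
          exact div_le_div_of_nonneg_right hKe (by positivity)
      · rw [v0 x v hm, v1 x v hm, v2 x v hm, norm_zero]
        refine ⟨by positivity, by positivity, by positivity⟩
    have hfin : ∀ (F : ℝ → ℂ) (M : ℝ), 0 ≤ M → (∀ v, ‖F v‖ ≤
        M * (64 * Real.exp (-(v ^ 2 * (Yk k T ^ 2)⁻¹) / 4))) →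
        ‖(((Yk k T)⁻¹ : ℝ) : ℂ) * ∫ v, F v‖ ≤ 256 * M := by
      intro F M hM hF
      obtain ⟨g1, g2⟩ := KS2_gauss hY hM
      have h1 : ‖∫ v, F v‖ ≤ 256 * M * Yk k T :=
        (norm_integral_le_of_norm_le g1 (ae_of_all _ hF)).trans g2
      rw [norm_mul, Complex.norm_real, Real.norm_eq_abs, abs_of_pos (inv_pos.mpr hY)]
      calc (Yk k T)⁻¹ * ‖∫ v, F v‖ ≤ (Yk k T)⁻¹ * (256 * M * Yk k T) :=
            mul_le_mul_of_nonneg_left h1 (inv_pos.mpr hY).le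
        _ = 256 * M := by field_simp
    refine ⟨?_, ?_, ?_⟩
    · rw [hA]
      have := hfin _ K hK0 fun v => (key v).1
      linarith
    · rw [hA1' x hx0]
      refine (hfin _ (K / Xw k T) (by positivity) fun v => (key v).2.1).trans ?_
      rw [← mul_div_assoc]
      apply div_le_div_of_nonneg_right _ hX.le
      linarith
    · rw [hA2' x hx0]
      refine (hfin _ (K / Xw k T ^ 2) (by positivity) fun v => (key v).2.2).trans ?_
      rw [← mul_div_assoc]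
      apply div_le_div_of_nonneg_right _ (by positivity)
      linarith
--END KS2

--BEGIN KS3
private theorem KS3_W {s : ℝ} (hs : |s| ≤ 1) (A : ℝ) :
    0 ≤ 1 + s * Real.cos A ∧ 1 + s * Real.cos A ≤ 2 := by
  have h1 : |s * Real.cos A| ≤ 1 := by
    rw [abs_mul]
    exact mul_le_one₀ hs (abs_nonneg _) (Real.abs_cos_le_one A)
  have h2 := abs_le.mp h1
  constructor <;> linarith [h2.1, h2.2]

/-- **KS3.** `K_slow ≥ 0`. -/
theorem Kslow_nonneg {ρ : ℝ → ℝ} (hρ : IsBump ρ (1 / 4) (3 / 8) (5 / 8) (3 / 4)) {k : ℕ}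
    {T : ℝ} (hT : 1 ≤ T) {s : ℝ} (hs : |s| ≤ 1) (θ : ℝ) {x : ℝ} (hx : 0 < x) :
    0 ≤ Kslow ρ k T s θ x := by
  unfold Kslow
  apply mul_nonneg (inv_nonneg.mpr (KS0_Y_pos k hT).le)
  apply setIntegral_nonneg measurableSet_Ioi
  intro y hy
  apply div_nonneg _ (le_of_lt hy)
  exact mul_nonneg (mul_nonneg (KS0_w0_nonneg hρ k T y) (Real.exp_pos _).le) (KS3_W hs _).1
--END KS3

--BEGIN KS4
private theorem KS4_w0_int {ρ : ℝ → ℝ} (hρ : IsBump ρ (1 / 4) (3 / 8) (5 / 8) (3 / 4)) {k : ℕ}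
    {T : ℝ} (hT : 1 ≤ T) : Integrable (fun y : ℝ => w0 ρ k T y / y) := by
  have hsupp : Function.support (fun y : ℝ => w0 ρ k T y / y) ⊆ Icc T (2 * T) := by
    intro y hy
    by_contra hcon
    apply hy
    simp only [KS0_w0_zero2 hρ hT hcon, zero_div]
  rw [← integrableOn_iff_integrable_of_support_subset hsupp]
  apply ContinuousOn.integrableOn_Icc
  apply ContinuousOn.div (KS0_w0_cont hρ k T).continuousOn continuousOn_id
  intro y hy
  have : 0 < y := lt_of_lt_of_le (by linarith) hy.1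
  exact this.ne'

private theorem KS4_w0_set {ρ : ℝ → ℝ} (hρ : IsBump ρ (1 / 4) (3 / 8) (5 / 8) (3 / 4)) {k : ℕ}
    {T : ℝ} (hT : 1 ≤ T) :
    ∫ y in Ioi (0 : ℝ), w0 ρ k T y / y = ∫ y : ℝ, w0 ρ k T y / y := by
  apply setIntegral_eq_integral_of_forall_compl_eq_zero
  intro y hy
  have : y ∉ Icc T (2 * T) := by
    intro h
    apply hy
    have : 0 < y := lt_of_lt_of_le (by linarith) h.1
    exact this
  rw [KS0_w0_zero2 hρ hT this, zero_div]

private theorem KS4_w0_up {ρ : ℝ → ℝ} (hρ : IsBump ρ (1 / 4) (3 / 8) (5 / 8) (3 / 4)) {k : ℕ}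
    {T : ℝ} (hT : 1 ≤ T) : ∫ y in Ioi (0 : ℝ), w0 ρ k T y / y ≤ Xw k T / T := by
  have hT0 : 0 < T := by linarith
  have hX := KS0_X_pos k hT
  rw [KS4_w0_set hρ hT]
  have h1 : ∫ y : ℝ, indicator (Icc T (T + Xw k T)) (fun _ => 1 / T) y = Xw k T / T := by
    rw [integral_indicator measurableSet_Icc, setIntegral_const, measureReal_def,
      Real.volume_Icc, ENNReal.toReal_ofReal (by linarith), smul_eq_mul]
    ring
  rw [← h1]
  apply integral_mono (KS4_w0_int hρ hT)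
  · rw [integrable_indicator_iff measurableSet_Icc]
    exact continuous_const.integrableOn_Icc
  · intro y
    by_cases hy : y ∈ Icc T (T + Xw k T)
    · rw [indicator_of_mem hy]
      exact div_le_div₀ zero_le_one (KS0_w0_le hρ k T y) hT0 hy.1
    · rw [indicator_of_notMem hy]
      simp only [KS0_w0_zero' hρ hT hy, zero_div, le_refl]

private theorem KS4_w0_up1 {ρ : ℝ → ℝ} (hρ : IsBump ρ (1 / 4) (3 / 8) (5 / 8) (3 / 4)) {k : ℕ}
    {T : ℝ} (hT : 1 ≤ T) : ∫ y in Ioi (0 : ℝ), w0 ρ k T y / y ≤ 1 := by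
  refine (KS4_w0_up hρ hT).trans ?_
  rw [div_le_one (by linarith)]
  exact KS0_X_le k hT

private theorem KS4_w0_nn {ρ : ℝ → ℝ} (hρ : IsBump ρ (1 / 4) (3 / 8) (5 / 8) (3 / 4)) {k : ℕ}
    {T : ℝ} : 0 ≤ ∫ y in Ioi (0 : ℝ), w0 ρ k T y / y :=
  setIntegral_nonneg measurableSet_Ioi fun y hy =>
    div_nonneg (KS0_w0_nonneg hρ k T y) (le_of_lt hy)

private theorem KS4_w0_low {ρ : ℝ → ℝ} (hρ : IsBump ρ (1 / 4) (3 / 8) (5 / 8) (3 / 4)) {k : ℕ}
    {T : ℝ} (hT : 1 ≤ T) : Xw k T / (8 * T) ≤ ∫ y in Ioi (0 : ℝ), w0 ρ k T y / y := by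
  have hT0 : 0 < T := by linarith
  have hX := KS0_X_pos k hT
  have hXT := KS0_X_le k hT
  rw [KS4_w0_set hρ hT]
  have h1 : ∫ y : ℝ, indicator (Icc (T + 3 * Xw k T / 8) (T + 5 * Xw k T / 8))
      (fun _ => 1 / (2 * T)) y = Xw k T / (8 * T) := by
    rw [integral_indicator measurableSet_Icc, setIntegral_const, measureReal_def,
      Real.volume_Icc, ENNReal.toReal_ofReal (by linarith), smul_eq_mul]
    field_simp
    ring
  rw [← h1]
  apply integral_mono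
  · rw [integrable_indicator_iff measurableSet_Icc]
    exact continuous_const.integrableOn_Icc
  · exact KS4_w0_int hρ hT
  · intro y
    by_cases hy : y ∈ Icc (T + 3 * Xw k T / 8) (T + 5 * Xw k T / 8)
    · rw [indicator_of_mem hy]
      have h2 : w0 ρ k T y = 1 := by
        apply hρ.one
        constructor
        · rw [le_div_iff₀ hX]
          linarith [hy.1]
        · rw [div_le_iff₀ hX]
          linarith [hy.2]
      have hy0 : 0 < y := by linarith [hy.1]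
      simp only [h2]
      exact one_div_le_one_div_of_le hy0 (by linarith [hy.2])
    · rw [indicator_of_notMem hy]
      by_cases hy0 : 0 < y
      · exact div_nonneg (KS0_w0_nonneg hρ k T y) hy0.le
      · have h3 : y ∉ Icc T (2 * T) := fun h => hy0 (lt_of_lt_of_le hT0 h.1)
        simp only [KS0_w0_zero2 hρ hT h3, zero_div, le_refl]

private theorem KS4_G {T x y m : ℝ} (hT : 1 ≤ T) (hx : 0 < x) (hy : y ∈ Icc T (2 * T))
    (hm : 0 ≤ m) :
    Real.exp (-(Real.log (x / y)) ^ 2 / 4) ≤ Real.exp (m ^ 2) * (4 * T / (1 + x)) ^ m := by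
  have hT0 : 0 < T := by linarith
  have hy0 : 0 < y := lt_of_lt_of_le hT0 hy.1
  have hb : 0 < 4 * T / (1 + x) := by positivity
  rcases le_or_gt 1 x with h1 | h1
  · set u := Real.log (x / y) with hu
    have h2 : -u ^ 2 / 4 ≤ m ^ 2 + m * (-u) := by nlinarith [sq_nonneg (u / 2 - m)]
    have h3 : Real.exp (m * (-u)) = (y / x) ^ m := by
      rw [Real.rpow_def_of_pos (by positivity)]
      congr 1
      have : Real.log (y / x) = -u := by
        rw [hu, ← Real.log_inv, inv_div]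
      rw [this]
      ring
    calc Real.exp (-u ^ 2 / 4) ≤ Real.exp (m ^ 2 + m * (-u)) := Real.exp_le_exp.mpr h2
      _ = Real.exp (m ^ 2) * (y / x) ^ m := by rw [Real.exp_add, h3]
      _ ≤ Real.exp (m ^ 2) * (4 * T / (1 + x)) ^ m := by
          apply mul_le_mul_of_nonneg_left _ (Real.exp_pos _).le
          apply Real.rpow_le_rpow (by positivity) _ hm
          rw [div_le_div_iff₀ hx (by linarith)]
          nlinarith [hy.2]
  · calc Real.exp (-(Real.log (x / y)) ^ 2 / 4) ≤ 1 := by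
          rw [Real.exp_le_one_iff]
          have := sq_nonneg (Real.log (x / y))
          linarith
      _ = 1 * 1 := by ring
      _ ≤ Real.exp (m ^ 2) * (4 * T / (1 + x)) ^ m := by
          apply mul_le_mul _ _ zero_le_one (Real.exp_pos _).le
          · exact Real.one_le_exp (sq_nonneg m)
          · apply Real.one_le_rpow _ hm
            rw [le_div_iff₀ (by linarith)]
            linarith

private theorem KS4_Y4 {Y : ℝ} (hY : 0 < Y) (hY1 : Y ≤ 1) (u : ℝ) :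
    Real.exp (-u ^ 2 / (2 * Y ^ 2)) ≤ Real.exp (-u ^ 2 / 4) := by
  apply Real.exp_le_exp.mpr
  have h1 : u ^ 2 / 4 ≤ u ^ 2 / (2 * Y ^ 2) := by
    apply div_le_div_of_nonneg_left (sq_nonneg u) (by positivity)
    nlinarith
  rw [neg_div, neg_div]
  linarith

private theorem KS4_D {φ : ℝ → ℝ} {C M : ℝ} (hM : 0 ≤ M)
    (hφ : ∀ x : ℝ, 0 < x → |φ x| ≤ C * (1 + x) ^ M) {T Y : ℝ} (hT : 1 ≤ T) (hY : 0 < Y)
    (hY1 : Y ≤ 1) {x y : ℝ} (hx : 0 < x) (hy : y ∈ Icc T (2 * T)) :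
    |φ x| * Real.exp (-(Real.log (x / y)) ^ 2 / (2 * Y ^ 2)) ≤
      (|C| * (Real.exp ((M + 2) ^ 2) * (4 * T) ^ (M + 2))) * (1 + ‖x‖) ^ (-(2 : ℝ)) := by
  have hT0 : 0 < T := by linarith
  have h1 : Real.exp (-(Real.log (x / y)) ^ 2 / (2 * Y ^ 2)) ≤
      Real.exp ((M + 2) ^ 2) * (4 * T / (1 + x)) ^ (M + 2) :=
    (KS4_Y4 hY hY1 _).trans (KS4_G hT hx hy (by linarith))
  have hx1 : 0 < 1 + x := by linarith
  have h2 : |φ x| ≤ |C| * (1 + x) ^ M :=
    (hφ x hx).trans (mul_le_mul_of_nonneg_right (le_abs_self C) (Real.rpow_nonneg hx1.le _))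
  have h3 : (1 + x) ^ M * (4 * T / (1 + x)) ^ (M + 2) = (4 * T) ^ (M + 2) * (1 + x) ^ (-(2 : ℝ)) := by
    rw [Real.div_rpow (by positivity) hx1.le, div_eq_mul_inv, ← Real.rpow_neg hx1.le]
    rw [show (1 + x) ^ M * ((4 * T) ^ (M + 2) * (1 + x) ^ (-(M + 2))) =
      (4 * T) ^ (M + 2) * ((1 + x) ^ M * (1 + x) ^ (-(M + 2))) by ring, ← Real.rpow_add hx1]
    congr 2
    ring
  rw [Real.norm_eq_abs, abs_of_pos hx]
  calc |φ x| * Real.exp (-(Real.log (x / y)) ^ 2 / (2 * Y ^ 2))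
      ≤ (|C| * (1 + x) ^ M) * (Real.exp ((M + 2) ^ 2) * (4 * T / (1 + x)) ^ (M + 2)) :=
        mul_le_mul h2 h1 (Real.exp_pos _).le (by positivity)
    _ = |C| * Real.exp ((M + 2) ^ 2) * ((1 + x) ^ M * (4 * T / (1 + x)) ^ (M + 2)) := by ring
    _ = _ := by rw [h3]; ring

private theorem KS4_D_int (K : ℝ) :
    IntegrableOn (fun x : ℝ => K * (1 + ‖x‖) ^ (-(2 : ℝ))) (Ioi 0) := by
  have h1 : Integrable (fun x : ℝ => (1 + ‖x‖) ^ (-(2 : ℝ))) := by
    apply integrable_one_add_norm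
    rw [Module.finrank_self]
    norm_num
  exact (h1.const_mul K).integrableOn

private theorem KS4_prod {ρ : ℝ → ℝ} (hρ : IsBump ρ (1 / 4) (3 / 8) (5 / 8) (3 / 4)) {k : ℕ}
    {T : ℝ} (hT : 1 ≤ T) {φ : ℝ → ℝ} (hφm : Measurable φ) {C M : ℝ} (hM : 0 ≤ M)
    (hφ : ∀ x : ℝ, 0 < x → |φ x| ≤ C * (1 + x) ^ M) {W : ℝ → ℝ → ℝ}
    (hWm : Measurable (Function.uncurry W)) (hW : ∀ x y, |W x y| ≤ 2) :
    Integrable (Function.uncurry fun x y : ℝ => φ x * (w0 ρ k T y *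
      Real.exp (-(Real.log (x / y)) ^ 2 / (2 * Yk k T ^ 2)) * W x y / y))
      ((volume.restrict (Ioi (0 : ℝ))).prod (volume.restrict (Ioi (0 : ℝ)))) := by
  have hY := KS0_Y_pos k hT
  have hY1 := KS0_Y_le k hT
  have hT0 : 0 < T := by linarith
  set K : ℝ := |C| * (Real.exp ((M + 2) ^ 2) * (4 * T) ^ (M + 2)) with hK
  have hD := KS4_D_int K
  have hw : IntegrableOn (fun y : ℝ => 2 * (w0 ρ k T y / y)) (Ioi 0) :=
    ((KS4_w0_int hρ hT).const_mul 2).integrableOn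
  have hp := Integrable.mul_prod hD hw
  refine hp.mono' ?_ ?_
  · apply Measurable.aestronglyMeasurable
    have m1 : Measurable fun q : ℝ × ℝ => φ q.1 := hφm.comp measurable_fst
    have m2 : Measurable fun q : ℝ × ℝ => w0 ρ k T q.2 :=
      (KS0_w0_cont hρ k T).measurable.comp measurable_snd
    have m3 : Measurable fun q : ℝ × ℝ => Real.log (q.1 / q.2) :=
      Real.measurable_log.comp (measurable_fst.div measurable_snd)
    have m4 : Measurable fun q : ℝ × ℝ =>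
        Real.exp (-(Real.log (q.1 / q.2)) ^ 2 / (2 * Yk k T ^ 2)) :=
      Real.measurable_exp.comp (((m3.pow_const 2).neg).div_const _)
    exact m1.mul (((m2.mul m4).mul hWm).div measurable_snd)
  · rw [Measure.prod_restrict]
    apply ae_restrict_of_forall_mem (measurableSet_Ioi.prod measurableSet_Ioi)
    rintro ⟨x, y⟩ ⟨hx, hy⟩
    have hx0 : (0 : ℝ) < x := hx
    have hy0 : (0 : ℝ) < y := hy
    simp only [Function.uncurry_apply_pair]
    by_cases hyT : y ∈ Icc T (2 * T)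
    · have h1 := KS4_D hM hφ hT hY hY1 hx0 hyT
      have hw0 := KS0_w0_nonneg hρ k T y
      rw [Real.norm_eq_abs, abs_mul, abs_div, abs_mul, abs_mul, abs_of_nonneg hw0,
        abs_of_pos (Real.exp_pos _), abs_of_pos hy0]
      calc |φ x| * (w0 ρ k T y * Real.exp (-(Real.log (x / y)) ^ 2 / (2 * Yk k T ^ 2)) *
            |W x y| / y) =
            (|φ x| * Real.exp (-(Real.log (x / y)) ^ 2 / (2 * Yk k T ^ 2))) *
            (|W x y| * (w0 ρ k T y / y)) := by ring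
        _ ≤ (K * (1 + ‖x‖) ^ (-(2 : ℝ))) * (2 * (w0 ρ k T y / y)) := by
            apply mul_le_mul h1 _ (by positivity) (by positivity)
            exact mul_le_mul_of_nonneg_right (hW x y) (by positivity)
    · rw [KS0_w0_zero2 hρ hT hyT]
      simp

private theorem KS4_W_meas (k : ℕ) (s θ : ℝ) : Measurable (Function.uncurry fun x y : ℝ =>
    1 + s * Real.cos (2 * π * y ^ (1 / (k : ℝ)) * Real.log (x / y) +
      2 * π * k * y ^ (1 / (k : ℝ)) + θ)) := by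
  have m3 : Measurable fun q : ℝ × ℝ => Real.log (q.1 / q.2) :=
    Real.measurable_log.comp (measurable_fst.div measurable_snd)
  have m4 : Measurable fun q : ℝ × ℝ => q.2 ^ (1 / (k : ℝ)) := measurable_snd.pow_const _
  exact measurable_const.add (measurable_const.mul (Real.measurable_cos.comp
    ((((measurable_const.mul m4).mul m3).add (measurable_const.mul m4)).add measurable_const)))

/-- the double integral of the slow kernel against a function -/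
private theorem KS4_swap {ρ : ℝ → ℝ} (hρ : IsBump ρ (1 / 4) (3 / 8) (5 / 8) (3 / 4)) {k : ℕ}
    {T : ℝ} (hT : 1 ≤ T) {φ : ℝ → ℝ} (hφm : Measurable φ) {C M : ℝ} (hM : 0 ≤ M)
    (hφ : ∀ x : ℝ, 0 < x → |φ x| ≤ C * (1 + x) ^ M) {s : ℝ} (hs : |s| ≤ 1) (θ : ℝ) :
    IntegrableOn (fun x => φ x * Kslow ρ k T s θ x) (Ioi 0) ∧
    ∫ x in Ioi (0 : ℝ), φ x * Kslow ρ k T s θ x =
      (Yk k T)⁻¹ * ∫ y in Ioi (0 : ℝ), ∫ x in Ioi (0 : ℝ), φ x * (w0 ρ k T y *
        Real.exp (-(Real.log (x / y)) ^ 2 / (2 * Yk k T ^ 2)) *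
        (1 + s * Real.cos (2 * π * y ^ (1 / (k : ℝ)) * Real.log (x / y) +
          2 * π * k * y ^ (1 / (k : ℝ)) + θ)) / y) := by
  have hp := KS4_prod (k := k) hρ hT hφm hM hφ (KS4_W_meas k s θ) (fun x y => by
    have h1 := KS3_W hs (2 * π * y ^ (1 / (k : ℝ)) * Real.log (x / y) +
      2 * π * k * y ^ (1 / (k : ℝ)) + θ)
    rw [abs_of_nonneg h1.1]
    exact h1.2)
  have he : ∀ x, φ x * Kslow ρ k T s θ x = (Yk k T)⁻¹ * ∫ y in Ioi (0 : ℝ), φ x * (w0 ρ k T y *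
        Real.exp (-(Real.log (x / y)) ^ 2 / (2 * Yk k T ^ 2)) *
        (1 + s * Real.cos (2 * π * y ^ (1 / (k : ℝ)) * Real.log (x / y) +
          2 * π * k * y ^ (1 / (k : ℝ)) + θ)) / y) := by
    intro x
    unfold Kslow
    rw [integral_const_mul]
    ring
  constructor
  · have h1 := (hp.integral_prod_left).const_mul (Yk k T)⁻¹
    refine h1.congr (ae_of_all _ fun x => ?_)
    exact (he x).symm
  · simp only [he]
    rw [integral_const_mul, integral_integral_swap hp]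

private theorem KS4_inner {Y : ℝ} (hY : 0 < Y) (hY1 : Y ≤ 1) {y : ℝ} (hy : 0 < y) :
    ∫ x in Ioi (0 : ℝ), Real.exp (-(Real.log (x / y)) ^ 2 / (2 * Y ^ 2)) ≤ 12 * (y * Y) := by
  have h1 : ∫ x in Ioi (0 : ℝ), Real.exp (-(Real.log (x / y)) ^ 2 / (2 * Y ^ 2)) =
      ∫ x in Ioi (0 : ℝ), (x * Real.exp (-(Real.log (x / y)) ^ 2 / (2 * Y ^ 2))) / x := by
    apply setIntegral_congr_fun measurableSet_Ioi
    intro x hx
    have hx0 : (0 : ℝ) < x := hx
    simp only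
    field_simp
  rw [h1, KS1_subst (fun x => x * Real.exp (-(Real.log (x / y)) ^ 2 / (2 * Y ^ 2))) hy]
  have h0 : 0 < (4 * Y ^ 2)⁻¹ := by positivity
  have h2 : ∀ v : ℝ, y * Real.exp (-v) * Real.exp (-(Real.log (y * Real.exp (-v) / y)) ^ 2 /
      (2 * Y ^ 2)) ≤ y * (3 * Real.exp (-((4 * Y ^ 2)⁻¹) * v ^ 2)) := by
    intro v
    have h3 : Real.log (y * Real.exp (-v) / y) = -v := by
      rw [mul_div_assoc, mul_comm, div_mul_cancel₀ _ hy.ne', Real.log_exp]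
    rw [h3, mul_assoc, ← Real.exp_add]
    apply mul_le_mul_of_nonneg_left _ hy.le
    have h4 : -v + -(-v) ^ 2 / (2 * Y ^ 2) ≤ 1 + -((4 * Y ^ 2)⁻¹) * v ^ 2 := by
      have h5 : 0 ≤ (v / (2 * Y) + Y) ^ 2 := sq_nonneg _
      have h6 : (v / (2 * Y) + Y) ^ 2 = v ^ 2 * (4 * Y ^ 2)⁻¹ + v + Y ^ 2 := by
        field_simp
        ring
      have h7 : -(-v) ^ 2 / (2 * Y ^ 2) = -(2 * (v ^ 2 * (4 * Y ^ 2)⁻¹)) := by
        field_simp
        ring
      have h8 : Y ^ 2 ≤ 1 := pow_le_one₀ hY.le hY1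
      rw [h7]
      rw [h6] at h5
      linarith
    calc Real.exp (-v + -(-v) ^ 2 / (2 * Y ^ 2)) ≤
          Real.exp (1 + -((4 * Y ^ 2)⁻¹) * v ^ 2) := Real.exp_le_exp.mpr h4
      _ = Real.exp 1 * Real.exp (-((4 * Y ^ 2)⁻¹) * v ^ 2) := Real.exp_add _ _
      _ ≤ 3 * Real.exp (-((4 * Y ^ 2)⁻¹) * v ^ 2) := by
          apply mul_le_mul_of_nonneg_right _ (Real.exp_pos _).le
          linarith [Real.exp_one_lt_d9]
  have hint : Integrable fun v : ℝ => y * (3 * Real.exp (-((4 * Y ^ 2)⁻¹) * v ^ 2)) :=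
    ((integrable_exp_neg_mul_sq h0).const_mul 3).const_mul y
  have h9 : ∫ v : ℝ, y * Real.exp (-v) * Real.exp (-(Real.log (y * Real.exp (-v) / y)) ^ 2 /
      (2 * Y ^ 2)) ≤ ∫ v : ℝ, y * (3 * Real.exp (-((4 * Y ^ 2)⁻¹) * v ^ 2)) := by
    apply integral_mono_of_nonneg (ae_of_all _ fun v => by positivity) hint
      (ae_of_all _ h2)
  refine h9.trans ?_
  rw [integral_const_mul, integral_const_mul, integral_gaussian]
  have h10 : √(π / (4 * Y ^ 2)⁻¹) ≤ 4 * Y := by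
    rw [Real.sqrt_le_left (by positivity), div_inv_eq_mul]
    have := Real.pi_le_four
    nlinarith [sq_nonneg Y]
  calc y * (3 * √(π / (4 * Y ^ 2)⁻¹)) ≤ y * (3 * (4 * Y)) := by gcongr
    _ = _ := by ring

private theorem KS4_inner_int {T Y : ℝ} (hT : 1 ≤ T) (hY : 0 < Y) (hY1 : Y ≤ 1) {y : ℝ}
    (hy : y ∈ Icc T (2 * T)) {φ : ℝ → ℝ} (hφm : Measurable φ) {C M : ℝ} (hM : 0 ≤ M)
    (hφ : ∀ x : ℝ, 0 < x → |φ x| ≤ C * (1 + x) ^ M) {W : ℝ → ℝ} (hWm : Measurable W)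
    (hW : ∀ x, |W x| ≤ 1) :
    IntegrableOn (fun x => φ x * Real.exp (-(Real.log (x / y)) ^ 2 / (2 * Y ^ 2)) * W x)
      (Ioi 0) := by
  have hD := KS4_D_int (|C| * (Real.exp ((M + 2) ^ 2) * (4 * T) ^ (M + 2)))
  refine hD.mono' ?_ ?_
  · apply Measurable.aestronglyMeasurable
    have m3 : Measurable fun x : ℝ => Real.log (x / y) :=
      Real.measurable_log.comp (measurable_id.div_const y)
    exact (hφm.mul (Real.measurable_exp.comp (((m3.pow_const 2).neg).div_const _))).mul hWm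
  · apply ae_restrict_of_forall_mem measurableSet_Ioi
    intro x hx
    have h1 := KS4_D hM hφ hT hY hY1 (show (0 : ℝ) < x from hx) hy
    rw [Real.norm_eq_abs, abs_mul, abs_mul, abs_of_pos (Real.exp_pos _)]
    calc |φ x| * Real.exp (-(Real.log (x / y)) ^ 2 / (2 * Y ^ 2)) * |W x| ≤
          |φ x| * Real.exp (-(Real.log (x / y)) ^ 2 / (2 * Y ^ 2)) * 1 :=
          mul_le_mul_of_nonneg_left (hW x) (by positivity)
      _ = |φ x| * Real.exp (-(Real.log (x / y)) ^ 2 / (2 * Y ^ 2)) := mul_one _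
      _ ≤ _ := h1

/-- **KS4.** The mass of `K_slow`. -/
theorem Kslow_mass {ρ : ℝ → ℝ} (hρ : IsBump ρ (1 / 4) (3 / 8) (5 / 8) (3 / 4)) {k : ℕ}
    (hk : 4 ≤ k) : ∃ C : ℝ, 0 < C ∧ ∀ T : ℝ, 1 ≤ T → ∀ s θ : ℝ, |s| ≤ 1 →
      IntegrableOn (Kslow ρ k T s θ) (Ioi 0) ∧ ∫ x in Ioi (0 : ℝ), Kslow ρ k T s θ x ≤ C * Xw k T := by
  refine ⟨48, by norm_num, ?_⟩
  intro T hT s θ hs
  have hT0 : 0 < T := by linarith
  have hY := KS0_Y_pos k hT
  have hY1 := KS0_Y_le k hT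
  have hX := KS0_X_pos k hT
  have hφ : ∀ x : ℝ, 0 < x → |(fun _ : ℝ => (1 : ℝ)) x| ≤ 1 * (1 + x) ^ (0 : ℝ) := by
    intro x _
    simp
  obtain ⟨h1, h2⟩ := KS4_swap (k := k) hρ hT (measurable_const (a := (1 : ℝ))) le_rfl hφ hs θ
  simp only [one_mul] at h1 h2
  refine ⟨h1, ?_⟩
  rw [h2]
  have h3 : ∀ y : ℝ, y ∈ Ioi (0 : ℝ) → (∫ x in Ioi (0 : ℝ), w0 ρ k T y *
        Real.exp (-(Real.log (x / y)) ^ 2 / (2 * Yk k T ^ 2)) *
        (1 + s * Real.cos (2 * π * y ^ (1 / (k : ℝ)) * Real.log (x / y) +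
          2 * π * k * y ^ (1 / (k : ℝ)) + θ)) / y) ≤ (48 * T * Yk k T) * (w0 ρ k T y / y) := by
    intro y hy
    have hy0 : (0 : ℝ) < y := hy
    by_cases hyT : y ∈ Icc T (2 * T)
    · have hw0 := KS0_w0_nonneg hρ k T y
      have i1 := KS4_inner_int hT hY hY1 hyT (measurable_const (a := (1 : ℝ))) le_rfl hφ
        (measurable_const (a := (1 : ℝ))) (fun _ => by norm_num)
      simp only [one_mul, mul_one] at i1
      have h4 : ∫ x in Ioi (0 : ℝ), w0 ρ k T y *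
          Real.exp (-(Real.log (x / y)) ^ 2 / (2 * Yk k T ^ 2)) *
          (1 + s * Real.cos (2 * π * y ^ (1 / (k : ℝ)) * Real.log (x / y) +
          2 * π * k * y ^ (1 / (k : ℝ)) + θ)) / y ≤
          ∫ x in Ioi (0 : ℝ), (2 * (w0 ρ k T y / y)) *
            Real.exp (-(Real.log (x / y)) ^ 2 / (2 * Yk k T ^ 2)) := by
        apply integral_mono_of_nonneg
        · refine ae_of_all _ fun x => ?_
          apply div_nonneg _ hy0.le
          exact mul_nonneg (mul_nonneg hw0 (Real.exp_pos _).le) (KS3_W hs _).1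
        · exact i1.const_mul _
        · refine ae_of_all _ fun x => ?_
          have h5 := (KS3_W hs (2 * π * y ^ (1 / (k : ℝ)) * Real.log (x / y) +
            2 * π * k * y ^ (1 / (k : ℝ)) + θ)).2
          calc w0 ρ k T y * Real.exp (-(Real.log (x / y)) ^ 2 / (2 * Yk k T ^ 2)) *
              (1 + s * Real.cos (2 * π * y ^ (1 / (k : ℝ)) * Real.log (x / y) +
              2 * π * k * y ^ (1 / (k : ℝ)) + θ)) / y ≤
              w0 ρ k T y * Real.exp (-(Real.log (x / y)) ^ 2 / (2 * Yk k T ^ 2)) * 2 / y := by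
                apply div_le_div_of_nonneg_right _ hy0.le
                exact mul_le_mul_of_nonneg_left h5 (mul_nonneg hw0 (Real.exp_pos _).le)
            _ = _ := by ring
      refine h4.trans ?_
      rw [integral_const_mul]
      calc 2 * (w0 ρ k T y / y) *
            ∫ x in Ioi (0 : ℝ), Real.exp (-(Real.log (x / y)) ^ 2 / (2 * Yk k T ^ 2)) ≤
            2 * (w0 ρ k T y / y) * (12 * (y * Yk k T)) :=
            mul_le_mul_of_nonneg_left (KS4_inner hY hY1 hy0) (by positivity)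
        _ ≤ 2 * (w0 ρ k T y / y) * (12 * ((2 * T) * Yk k T)) := by
            apply mul_le_mul_of_nonneg_left _ (by positivity)
            apply mul_le_mul_of_nonneg_left _ (by norm_num)
            exact mul_le_mul_of_nonneg_right hyT.2 hY.le
        _ = _ := by ring
    · rw [KS0_w0_zero2 hρ hT hyT]
      simp
  have h6 : ∫ y in Ioi (0 : ℝ), (∫ x in Ioi (0 : ℝ), w0 ρ k T y *
        Real.exp (-(Real.log (x / y)) ^ 2 / (2 * Yk k T ^ 2)) *
        (1 + s * Real.cos (2 * π * y ^ (1 / (k : ℝ)) * Real.log (x / y) +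
          2 * π * k * y ^ (1 / (k : ℝ)) + θ)) / y) ≤
      ∫ y in Ioi (0 : ℝ), (48 * T * Yk k T) * (w0 ρ k T y / y) := by
    apply integral_mono_of_nonneg
    · apply ae_restrict_of_forall_mem measurableSet_Ioi
      intro y hy
      have hy0 : (0 : ℝ) < y := hy
      apply integral_nonneg
      intro x
      apply div_nonneg _ hy0.le
      exact mul_nonneg (mul_nonneg (KS0_w0_nonneg hρ k T y) (Real.exp_pos _).le) (KS3_W hs _).1
    · exact ((KS4_w0_int hρ hT).const_mul _).integrableOn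
    · exact ae_restrict_of_forall_mem measurableSet_Ioi h3
  calc (Yk k T)⁻¹ * _ ≤ (Yk k T)⁻¹ * ∫ y in Ioi (0 : ℝ), (48 * T * Yk k T) * (w0 ρ k T y / y) :=
        mul_le_mul_of_nonneg_left h6 (inv_nonneg.mpr hY.le)
    _ = 48 * T * ∫ y in Ioi (0 : ℝ), w0 ρ k T y / y := by
        rw [integral_const_mul]
        field_simp
    _ ≤ 48 * T * (Xw k T / T) := by
        apply mul_le_mul_of_nonneg_left (KS4_w0_up hρ hT) (by positivity)
    _ = 48 * Xw k T := by field_simp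
--END KS4

--BEGIN KS5
/-- a bound for the slow kernel -/
private theorem KS5_sup {ρ : ℝ → ℝ} (hρ : IsBump ρ (1 / 4) (3 / 8) (5 / 8) (3 / 4)) {k : ℕ}
    {T : ℝ} (hT : 1 ≤ T) {s : ℝ} (hs : |s| ≤ 1) (θ : ℝ) {x A : ℝ}
    (hA : ∀ y ∈ Icc (T + Xw k T / 4) (T + 3 * Xw k T / 4),
      Real.exp (-(Real.log (x / y)) ^ 2 / (2 * Yk k T ^ 2)) ≤ A) :
    Kslow ρ k T s θ x ≤ 2 * (Yk k T)⁻¹ * A := by
  have hT0 : 0 < T := by linarith
  have hY := KS0_Y_pos k hT
  have hX := KS0_X_pos k hT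
  have hA0 : 0 ≤ A := (Real.exp_pos _).le.trans (hA (T + Xw k T / 4) ⟨le_rfl, by linarith⟩)
  have h1 : ∫ y in Ioi (0 : ℝ), w0 ρ k T y *
      Real.exp (-(Real.log (x / y)) ^ 2 / (2 * Yk k T ^ 2)) *
      (1 + s * Real.cos (2 * π * y ^ (1 / (k : ℝ)) * Real.log (x / y) +
      2 * π * k * y ^ (1 / (k : ℝ)) + θ)) / y ≤
      ∫ y in Ioi (0 : ℝ), (2 * A) * (w0 ρ k T y / y) := by
    apply integral_mono_of_nonneg
    · apply ae_restrict_of_forall_mem measurableSet_Ioi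
      intro y hy
      exact div_nonneg (mul_nonneg (mul_nonneg (KS0_w0_nonneg hρ k T y) (Real.exp_pos _).le)
        (KS3_W hs _).1) (le_of_lt hy)
    · exact ((KS4_w0_int hρ hT).const_mul _).integrableOn
    · apply ae_restrict_of_forall_mem measurableSet_Ioi
      intro y hy
      have hy0 : (0 : ℝ) < y := hy
      by_cases hyT : y ∈ Icc (T + Xw k T / 4) (T + 3 * Xw k T / 4)
      · have h2 := KS3_W hs (2 * π * y ^ (1 / (k : ℝ)) * Real.log (x / y) +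
          2 * π * k * y ^ (1 / (k : ℝ)) + θ)
        have hw0 := KS0_w0_nonneg hρ k T y
        calc w0 ρ k T y * Real.exp (-(Real.log (x / y)) ^ 2 / (2 * Yk k T ^ 2)) *
            (1 + s * Real.cos (2 * π * y ^ (1 / (k : ℝ)) * Real.log (x / y) +
            2 * π * k * y ^ (1 / (k : ℝ)) + θ)) / y ≤ w0 ρ k T y * A * 2 / y := by
              apply div_le_div_of_nonneg_right _ hy0.le
              apply mul_le_mul _ h2.2 h2.1 (by positivity)
              exact mul_le_mul_of_nonneg_left (hA y hyT) hw0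
          _ = (2 * A) * (w0 ρ k T y / y) := by ring
      · simp only [KS0_w0_zero hρ hT hyT, zero_mul, zero_div, mul_zero, le_refl]
  unfold Kslow
  calc (Yk k T)⁻¹ * _ ≤ (Yk k T)⁻¹ * ∫ y in Ioi (0 : ℝ), (2 * A) * (w0 ρ k T y / y) :=
        mul_le_mul_of_nonneg_left h1 (inv_nonneg.mpr hY.le)
    _ = (2 * (Yk k T)⁻¹ * A) * ∫ y in Ioi (0 : ℝ), w0 ρ k T y / y := by
        rw [integral_const_mul]
        ring
    _ ≤ (2 * (Yk k T)⁻¹ * A) * 1 :=
        mul_le_mul_of_nonneg_left (KS4_w0_up1 hρ hT) (by positivity)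
    _ = _ := mul_one _

private theorem KS5_Yinv {k : ℕ} {T : ℝ} (hT : 1 ≤ T) :
    (Yk k T)⁻¹ = T ^ (1 / (2 * (k : ℝ))) := by
  unfold Yk
  rw [Real.rpow_neg (by linarith), inv_inv]

private theorem KS5_log {a b : ℝ} (ha : 0 < a) (hab : a ≤ b) : (b - a) / b ≤ Real.log (b / a) := by
  have hb : 0 < b := lt_of_lt_of_le ha hab
  have h1 := Real.one_sub_inv_le_log_of_pos (show 0 < b / a by positivity)
  rw [inv_div] at h1
  have h2 : (b - a) / b = 1 - a / b := by field_simp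
  rw [h2]
  exact h1

/-- **KS5.** Inside `[T/2, 4T]` but outside `[T, T+X]` the kernel is very small. -/
theorem Kslow_tail {ρ : ℝ → ℝ} (hρ : IsBump ρ (1 / 4) (3 / 8) (5 / 8) (3 / 4)) {k : ℕ}
    (hk : 4 ≤ k) : ∃ T0 : ℝ, 1 ≤ T0 ∧ ∀ T : ℝ, T0 ≤ T → ∀ s θ : ℝ, |s| ≤ 1 →
      ∀ x ∈ Icc (T / 2) (4 * T), x ∉ Icc T (T + Xw k T) →
        Kslow ρ k T s θ x ≤ Real.exp (-(T ^ (1 / (2 * (k : ℝ))))) := by
  have hk' : (4 : ℝ) ≤ k := by exact_mod_cast hk
  have hk0 : (0 : ℝ) < k := by linarith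
  refine ⟨(1536 ^ 2 : ℝ) ^ (2 * (k : ℝ)), Real.one_le_rpow (by norm_num) (by positivity), ?_⟩
  intro T hTT s θ hs x hx hxn
  have hT : 1 ≤ T := le_trans (Real.one_le_rpow (by norm_num) (by positivity)) hTT
  have hT0 : 0 < T := by linarith
  have hY := KS0_Y_pos k hT
  have hX := KS0_X_pos k hT
  have hXT := KS0_X_le k hT
  have hx0 : 0 < x := lt_of_lt_of_le (by linarith) hx.1
  set z : ℝ := T ^ (1 / (2 * (k : ℝ))) with hz
  have hz1 : (1536 ^ 2 : ℝ) ≤ z := by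
    have h1 : ((1536 ^ 2 : ℝ) ^ (2 * (k : ℝ))) ^ (1 / (2 * (k : ℝ))) = 1536 ^ 2 := by
      rw [← Real.rpow_mul (by norm_num), mul_one_div_cancel (by positivity), Real.rpow_one]
    rw [← h1, hz]
    exact Real.rpow_le_rpow (by positivity) hTT (by positivity)
  have hz0 : 0 < z := lt_of_lt_of_le (by norm_num) hz1
  -- the exponent
  have hE : (Xw k T / T) ^ 2 * (Yk k T ^ 2)⁻¹ = z ^ (15 / 8 : ℝ) := by
    rw [KS0_Y_sq (by omega) hT]
    have h1 : Xw k T / T = T ^ (-(1 / (32 * (k : ℝ)))) := by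
      unfold Xw
      rw [Real.rpow_sub hT0, Real.rpow_one, Real.rpow_neg hT0.le]
      field_simp
    rw [h1, ← Real.rpow_natCast, ← Real.rpow_mul hT0.le, ← Real.rpow_add hT0, hz,
      ← Real.rpow_mul hT0.le]
    congr 1
    push_cast
    field_simp
    ring
  have hsup : ∀ y ∈ Icc (T + Xw k T / 4) (T + 3 * Xw k T / 4),
      Real.exp (-(Real.log (x / y)) ^ 2 / (2 * Yk k T ^ 2)) ≤
        Real.exp (-(z ^ (15 / 8 : ℝ) / 512)) := by
    intro y hy
    have hy0 : 0 < y := by linarith [hy.1]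
    have hy4 : y ≤ 4 * T := by linarith [hy.2]
    have h1 : Xw k T / (16 * T) ≤ |Real.log (x / y)| := by
      rcases le_or_gt T x with h2 | h2
      · have h3 : T + Xw k T < x := by
          by_contra hcon
          exact hxn ⟨h2, not_lt.mp hcon⟩
        have hyx : y ≤ x := by linarith [hy.2]
        have h4 := KS5_log hy0 hyx
        have h5 : Xw k T / (16 * T) ≤ (x - y) / x := by
          rw [div_le_div_iff₀ (by positivity) hx0]
          have h6 : Xw k T / 4 ≤ x - y := by linarith [hy.2]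
          calc Xw k T * x ≤ Xw k T * (4 * T) := mul_le_mul_of_nonneg_left hx.2 hX.le
            _ = (Xw k T / 4) * (16 * T) := by ring
            _ ≤ (x - y) * (16 * T) := mul_le_mul_of_nonneg_right h6 (by positivity)
        exact (h5.trans h4).trans (le_abs_self _)
      · have hxy : x ≤ y := by linarith [hy.1]
        have h4 := KS5_log hx0 hxy
        have h5 : Xw k T / (16 * T) ≤ (y - x) / y := by
          rw [div_le_div_iff₀ (by positivity) hy0]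
          have h6 : Xw k T / 4 ≤ y - x := by linarith [hy.1]
          calc Xw k T * y ≤ Xw k T * (4 * T) := mul_le_mul_of_nonneg_left hy4 hX.le
            _ = (Xw k T / 4) * (16 * T) := by ring
            _ ≤ (y - x) * (16 * T) := mul_le_mul_of_nonneg_right h6 (by positivity)
        have h7 : |Real.log (x / y)| = |Real.log (y / x)| := by
          rw [← inv_div, Real.log_inv, abs_neg]
        rw [h7]
        exact (h5.trans h4).trans (le_abs_self _)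
    apply Real.exp_le_exp.mpr
    have h8 : (Xw k T / (16 * T)) ^ 2 ≤ (Real.log (x / y)) ^ 2 := by
      rw [← sq_abs (Real.log (x / y))]
      exact pow_le_pow_left₀ (by positivity) h1 2
    have h9 : z ^ (15 / 8 : ℝ) / 512 ≤ (Real.log (x / y)) ^ 2 / (2 * Yk k T ^ 2) := by
      rw [← hE]
      calc (Xw k T / T) ^ 2 * (Yk k T ^ 2)⁻¹ / 512 =
            (Xw k T / (16 * T)) ^ 2 / (2 * Yk k T ^ 2) := by
            field_simp
            norm_num
        _ ≤ _ := div_le_div_of_nonneg_right h8 (by positivity)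
    rw [neg_div]
    linarith
  refine (KS5_sup hρ hT hs θ hsup).trans ?_
  rw [KS5_Yinv hT, ← hz]
  have hzp : 1536 * z ≤ z ^ (15 / 8 : ℝ) := by
    have h1 : z ^ (15 / 8 : ℝ) = z ^ (7 / 8 : ℝ) * z := by
      rw [← Real.rpow_add_one hz0.ne']
      norm_num
    rw [h1]
    apply mul_le_mul_of_nonneg_right _ hz0.le
    calc (1536 : ℝ) = (1536 ^ 2 : ℝ) ^ (1 / 2 : ℝ) := by
          rw [← Real.sqrt_eq_rpow, Real.sqrt_sq (by norm_num)]
      _ ≤ z ^ (1 / 2 : ℝ) := Real.rpow_le_rpow (by norm_num) hz1 (by norm_num)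
      _ ≤ z ^ (7 / 8 : ℝ) := Real.rpow_le_rpow_of_exponent_le (by linarith) (by norm_num)
  have h2z : 2 * z ≤ Real.exp (2 * z) := by
    have := Real.add_one_le_exp (2 * z)
    linarith
  calc 2 * z * Real.exp (-(z ^ (15 / 8 : ℝ) / 512)) ≤
        Real.exp (2 * z) * Real.exp (-(z ^ (15 / 8 : ℝ) / 512)) :=
        mul_le_mul_of_nonneg_right h2z (Real.exp_pos _).le
    _ = Real.exp (2 * z + -(z ^ (15 / 8 : ℝ) / 512)) := (Real.exp_add _ _).symm
    _ ≤ Real.exp (-z) := by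
        apply Real.exp_le_exp.mpr
        linarith
--END KS5

--BEGIN KS6
private theorem KS6_phi (k : ℕ) {α : ℝ} (hα : 0 ≤ α) : ∃ C : ℝ, 0 < C ∧
    ∀ x : ℝ, 0 < x → |Ek k x * x ^ α| ≤ C * (1 + x) ^ (α + 2) := by
  obtain ⟨C, hC, h1, h2⟩ := Ek_trivial k (ε := 1 / 2) (by norm_num)
  refine ⟨C, hC, fun x hx => ?_⟩
  have hxa : 0 ≤ x ^ α := Real.rpow_nonneg hx.le α
  rw [abs_mul, abs_of_nonneg hxa]
  rcases le_or_gt 1 x with hx1 | hx1
  · calc |Ek k x| * x ^ α ≤ (C * x ^ (1 + 1 / 2 : ℝ)) * x ^ α :=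
          mul_le_mul_of_nonneg_right (h1 x hx1) hxa
      _ = C * x ^ (1 + 1 / 2 + α : ℝ) := by
          rw [Real.rpow_add hx (1 + 1 / 2) α]
          ring
      _ ≤ C * x ^ (α + 2) := by
          apply mul_le_mul_of_nonneg_left _ hC.le
          apply Real.rpow_le_rpow_of_exponent_le hx1
          linarith
      _ ≤ C * (1 + x) ^ (α + 2) := by
          apply mul_le_mul_of_nonneg_left _ hC.le
          exact Real.rpow_le_rpow hx.le (by linarith) (by linarith)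
  · calc |Ek k x| * x ^ α ≤ (C * x ^ (1 / 2 : ℝ)) * x ^ α :=
          mul_le_mul_of_nonneg_right (h2 x hx hx1.le) hxa
      _ ≤ (C * 1) * 1 := by
          apply mul_le_mul _ (Real.rpow_le_one hx.le hx1.le hα) hxa (by positivity)
          apply mul_le_mul_of_nonneg_left _ hC.le
          exact Real.rpow_le_one hx.le hx1.le (by norm_num)
      _ = C * 1 := by ring
      _ ≤ C * (1 + x) ^ (α + 2) := by
          apply mul_le_mul_of_nonneg_left _ hC.le
          exact Real.one_le_rpow (by linarith) (by linarith)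

private theorem KS6_phi_meas (k : ℕ) (α : ℝ) : Measurable fun x : ℝ => Ek k x * x ^ α :=
  (Ek_meas k).mul (measurable_id.pow_const α)

private theorem KS6_dec {k : ℕ} (hk : 1 ≤ k) {T : ℝ} (hT : 1 ≤ T) :
    T ^ (6 : ℝ) * Real.exp (-(T ^ (1 / (k : ℝ)) / 64)) ≤
      64 ^ (6 * k) * ((6 * k).factorial : ℝ) := by
  have hT0 : 0 < T := by linarith
  have hk' : (1 : ℝ) ≤ k := by exact_mod_cast hk
  have hk0 : (k : ℝ) ≠ 0 := by linarith
  set z : ℝ := T ^ (1 / (k : ℝ)) with hz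
  have hz0 : 0 < z := Real.rpow_pos_of_pos hT0 _
  have h1 : T ^ (6 : ℝ) = z ^ (6 * k) := by
    rw [hz, ← Real.rpow_natCast, ← Real.rpow_mul hT0.le]
    congr 1
    push_cast
    field_simp
  have h2 := Real.pow_div_factorial_le_exp (z / 64) (by positivity) (6 * k)
  have hf : (0 : ℝ) < ((6 * k).factorial : ℝ) := by exact_mod_cast Nat.factorial_pos _
  rw [div_le_iff₀ hf, div_pow, div_le_iff₀ (by positivity)] at h2
  rw [h1]
  calc z ^ (6 * k) * Real.exp (-(z / 64)) ≤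
        (Real.exp (z / 64) * ((6 * k).factorial : ℝ) * 64 ^ (6 * k)) * Real.exp (-(z / 64)) :=
        mul_le_mul_of_nonneg_right h2 (Real.exp_pos _).le
    _ = (Real.exp (z / 64) * Real.exp (-(z / 64))) * (64 ^ (6 * k) * ((6 * k).factorial : ℝ)) := by
        ring
    _ = _ := by
        rw [← Real.exp_add]
        simp

/-- **KS6.** Far outside, with decay. -/
theorem Kslow_far {ρ : ℝ → ℝ} (hρ : IsBump ρ (1 / 4) (3 / 8) (5 / 8) (3 / 4)) {k : ℕ}
    (hk : 4 ≤ k) {α : ℝ} (hα : 0 ≤ α) (hα' : α ≤ 1 / 4) : ∃ C T0 : ℝ, 0 < C ∧ 1 ≤ T0 ∧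
      ∀ T : ℝ, T0 ≤ T → ∀ s θ : ℝ, |s| ≤ 1 → ∀ ϕ : ℝ → ℝ, IsBump ϕ (1 / 2) (3 / 4) 3 4 →
      IntegrableOn (fun x : ℝ => Ek k x * x ^ α * Kslow ρ k T s θ x) (Ioi 0) ∧
      |(∫ x in Ioi (0 : ℝ), Ek k x * x ^ α * Kslow ρ k T s θ x) -
        ∫ x in Ioi (0 : ℝ), Ek k x * x ^ α * (ϕ (x / T) * Kslow ρ k T s θ x)| ≤ C := by
  have hk' : (4 : ℝ) ≤ k := by exact_mod_cast hk
  have hk0 : (0 : ℝ) < k := by linarith
  obtain ⟨C, hC, hφ⟩ := KS6_phi k hα
  set J : ℝ := ∫ x in Ioi (0 : ℝ), (1 + ‖x‖) ^ (-(2 : ℝ)) with hJ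
  have hJ0 : 0 ≤ J := integral_nonneg fun x => by positivity
  set m : ℝ := α + 4 with hm
  set C1 : ℝ := 2 * C * (Real.exp (m ^ 2) * 4 ^ m) * (64 ^ (6 * k) * ((6 * k).factorial : ℝ)) * J
    with hC1
  have hC1' : 0 ≤ C1 := by positivity
  refine ⟨C1 + 1, (2 : ℝ) ^ (32 * (k : ℝ)), by linarith,
    Real.one_le_rpow (by norm_num) (by positivity), ?_⟩
  intro T hTT s θ hs ϕ hϕ
  have hT : 1 ≤ T := le_trans (Real.one_le_rpow (by norm_num) (by positivity)) hTT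
  have hT0 : 0 < T := by linarith
  have hY := KS0_Y_pos k hT
  have hY1 := KS0_Y_le k hT
  have hX := KS0_X_pos k hT
  have hXT : Xw k T ≤ T / 2 := by
    unfold Xw
    rw [Real.rpow_sub hT0, Real.rpow_one]
    apply div_le_div_of_nonneg_left hT0.le (by norm_num)
    have h1 : ((2 : ℝ) ^ (32 * (k : ℝ))) ^ (1 / (32 * (k : ℝ))) = 2 := by
      rw [← Real.rpow_mul (by norm_num), mul_one_div_cancel (by positivity), Real.rpow_one]
    calc (2 : ℝ) = ((2 : ℝ) ^ (32 * (k : ℝ))) ^ (1 / (32 * (k : ℝ))) := h1.symm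
      _ ≤ _ := Real.rpow_le_rpow (by positivity) hTT (by positivity)
  have hφ' : ∀ x : ℝ, 0 < x → |(fun x : ℝ => Ek k x * x ^ α) x| ≤ C * (1 + x) ^ (α + 2) := hφ
  obtain ⟨i1, -⟩ := KS4_swap (k := k) hρ hT (KS6_phi_meas k α) (by linarith) hφ' hs θ
  refine ⟨i1, ?_⟩
  have hϕc : Measurable fun x : ℝ => ϕ (x / T) :=
    (hϕ.smooth.continuous.comp (continuous_id.div_const T)).measurable
  have i2 : IntegrableOn (fun x : ℝ => Ek k x * x ^ α * (ϕ (x / T) * Kslow ρ k T s θ x))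
      (Ioi 0) := by
    refine Integrable.mono i1 ?_ ?_
    · have h1 : AEStronglyMeasurable (fun x : ℝ => ϕ (x / T) *
          (Ek k x * x ^ α * Kslow ρ k T s θ x)) (volume.restrict (Ioi 0)) :=
        hϕc.aestronglyMeasurable.mul i1.aestronglyMeasurable
      refine h1.congr (ae_of_all _ fun x => ?_)
      ring
    · refine ae_of_all _ fun x => ?_
      rw [Real.norm_eq_abs, Real.norm_eq_abs, abs_mul, abs_mul (ϕ (x / T)), abs_mul (Ek k x * x ^ α)]
      apply mul_le_mul_of_nonneg_left _ (abs_nonneg _)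
      apply mul_le_of_le_one_left (abs_nonneg _)
      rw [abs_of_nonneg (hϕ.nonneg _)]
      exact hϕ.le_one _
  rw [← integral_sub i1 i2]
  -- the exponential factor
  set W : ℝ := Real.exp (-(T ^ (1 / (k : ℝ)) / 64)) with hW
  have hW0 : 0 < W := Real.exp_pos _
  have hpt : ∀ x ∈ Ioi (0 : ℝ), ‖Ek k x * x ^ α * Kslow ρ k T s θ x -
      Ek k x * x ^ α * (ϕ (x / T) * Kslow ρ k T s θ x)‖ ≤
      (C * (2 * (Yk k T)⁻¹ * (W * (Real.exp (m ^ 2) * (4 * T) ^ m)))) *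
        (1 + ‖x‖) ^ (-(2 : ℝ)) := by
    intro x hx
    have hx0 : (0 : ℝ) < x := hx
    have hx1 : 0 < 1 + x := by linarith
    have e1 : Ek k x * x ^ α * Kslow ρ k T s θ x -
      Ek k x * x ^ α * (ϕ (x / T) * Kslow ρ k T s θ x) =
      (Ek k x * x ^ α) * ((1 - ϕ (x / T)) * Kslow ρ k T s θ x) := by ring
    rw [e1]
    by_cases hxT : x / T ∈ Icc (3 / 4 : ℝ) 3
    · rw [hϕ.one _ hxT]
      simp only [sub_self, zero_mul, mul_zero, norm_zero]
      positivity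
    · have hsup : ∀ y ∈ Icc (T + Xw k T / 4) (T + 3 * Xw k T / 4),
          Real.exp (-(Real.log (x / y)) ^ 2 / (2 * Yk k T ^ 2)) ≤
            W * (Real.exp (m ^ 2) * (4 * T / (1 + x)) ^ m) := by
        intro y hy
        have hy0 : 0 < y := by linarith [hy.1]
        have hyT : y ∈ Icc T (2 * T) := ⟨by linarith [hy.1], by linarith [hy.2]⟩
        have h1 : 1 / 4 ≤ |Real.log (x / y)| := by
          rcases lt_or_ge (x / T) (3 / 4) with h2 | h2
          · rw [div_lt_iff₀ hT0] at h2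
            have h3 := KS5_log hx0 (show x ≤ y by linarith [hyT.1])
            have h4 : 1 / 4 ≤ (y - x) / y := by
              rw [div_le_div_iff₀ (by norm_num) hy0]
              linarith [hyT.1]
            have h7 : |Real.log (x / y)| = |Real.log (y / x)| := by
              rw [← inv_div, Real.log_inv, abs_neg]
            rw [h7]
            exact (h4.trans h3).trans (le_abs_self _)
          · have h3 : 3 < x / T := by
              by_contra hcon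
              exact hxT ⟨h2, not_lt.mp hcon⟩
            rw [lt_div_iff₀ hT0] at h3
            have h4 := KS5_log hy0 (show y ≤ x by linarith [hyT.2])
            have h5 : 1 / 4 ≤ (x - y) / x := by
              rw [div_le_div_iff₀ (by norm_num) hx0]
              linarith [hyT.2]
            exact (h5.trans h4).trans (le_abs_self _)
        have h2 : (1 / 4 : ℝ) ^ 2 ≤ (Real.log (x / y)) ^ 2 := by
          rw [← sq_abs (Real.log (x / y))]
          exact pow_le_pow_left₀ (by norm_num) h1 2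
        have h3 : -(Real.log (x / y)) ^ 2 / (2 * Yk k T ^ 2) ≤
            -(T ^ (1 / (k : ℝ)) / 64) + -(Real.log (x / y)) ^ 2 / 4 := by
          have h4 := KS0_Y_sq (k := k) (by omega) hT
          have h5 : (1 : ℝ) ≤ T ^ (1 / (k : ℝ)) := Real.one_le_rpow hT (by positivity)
          have h6 : -(Real.log (x / y)) ^ 2 / (2 * Yk k T ^ 2) =
              -((Real.log (x / y)) ^ 2 * (Yk k T ^ 2)⁻¹ / 2) := by
            field_simp
          rw [h6, h4]
          nlinarith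
        calc Real.exp (-(Real.log (x / y)) ^ 2 / (2 * Yk k T ^ 2)) ≤
              Real.exp (-(T ^ (1 / (k : ℝ)) / 64) + -(Real.log (x / y)) ^ 2 / 4) :=
              Real.exp_le_exp.mpr h3
          _ = W * Real.exp (-(Real.log (x / y)) ^ 2 / 4) := Real.exp_add _ _
          _ ≤ _ := mul_le_mul_of_nonneg_left (KS4_G hT hx0 hyT (by linarith)) hW0.le
      have h1 := KS5_sup hρ hT hs θ hsup
      have h2 := Kslow_nonneg hρ (k := k) hT hs θ hx0
      have h3 : |(1 - ϕ (x / T)) * Kslow ρ k T s θ x| ≤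
          2 * (Yk k T)⁻¹ * (W * (Real.exp (m ^ 2) * (4 * T / (1 + x)) ^ m)) := by
        rw [abs_mul, abs_of_nonneg h2]
        have h4 : |1 - ϕ (x / T)| ≤ 1 := by
          rw [abs_le]
          constructor <;> linarith [hϕ.nonneg (x / T), hϕ.le_one (x / T)]
        exact (mul_le_of_le_one_left h2 h4).trans h1
      have h5 : (1 + x) ^ (α + 2) * (4 * T / (1 + x)) ^ m = (4 * T) ^ m * (1 + x) ^ (-(2 : ℝ)) := by
        rw [Real.div_rpow (by positivity) hx1.le, div_eq_mul_inv, ← Real.rpow_neg hx1.le]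
        rw [show (1 + x) ^ (α + 2) * ((4 * T) ^ m * (1 + x) ^ (-m)) =
          (4 * T) ^ m * ((1 + x) ^ (α + 2) * (1 + x) ^ (-m)) by ring, ← Real.rpow_add hx1]
        congr 2
        rw [hm]
        ring
      rw [Real.norm_eq_abs, Real.norm_eq_abs, abs_of_pos hx0, abs_mul]
      calc |Ek k x * x ^ α| * |(1 - ϕ (x / T)) * Kslow ρ k T s θ x| ≤
            (C * (1 + x) ^ (α + 2)) *
            (2 * (Yk k T)⁻¹ * (W * (Real.exp (m ^ 2) * (4 * T / (1 + x)) ^ m))) :=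
            mul_le_mul (hφ x hx0) h3 (abs_nonneg _) (by positivity)
        _ = C * (2 * (Yk k T)⁻¹ * (W * (Real.exp (m ^ 2)))) *
            ((1 + x) ^ (α + 2) * (4 * T / (1 + x)) ^ m) := by ring
        _ = _ := by rw [h5]; ring
  have hfin := norm_integral_le_of_norm_le
    (KS4_D_int (C * (2 * (Yk k T)⁻¹ * (W * (Real.exp (m ^ 2) * (4 * T) ^ m)))))
    (ae_restrict_of_forall_mem measurableSet_Ioi hpt)
  rw [Real.norm_eq_abs, integral_const_mul, ← hJ] at hfin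
  refine hfin.trans ?_
  have h1 : (Yk k T)⁻¹ * T ^ m ≤ T ^ (6 : ℝ) := by
    rw [KS5_Yinv hT, ← Real.rpow_add hT0]
    apply Real.rpow_le_rpow_of_exponent_le hT
    have h2 : 1 / (2 * (k : ℝ)) ≤ 1 := by
      rw [div_le_one (by positivity)]
      linarith
    rw [hm]
    linarith
  have h2 := KS6_dec (k := k) (by omega) hT
  rw [← hW] at h2
  have h3 : (4 * T) ^ m = 4 ^ m * T ^ m := Real.mul_rpow (by norm_num) hT0.le
  rw [h3]
  calc C * (2 * (Yk k T)⁻¹ * (W * (Real.exp (m ^ 2) * (4 ^ m * T ^ m)))) * J =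
        2 * C * (Real.exp (m ^ 2) * 4 ^ m) * (((Yk k T)⁻¹ * T ^ m) * W) * J := by ring
    _ ≤ 2 * C * (Real.exp (m ^ 2) * 4 ^ m) * (T ^ (6 : ℝ) * W) * J := by
        apply mul_le_mul_of_nonneg_right _ hJ0
        apply mul_le_mul_of_nonneg_left _ (by positivity)
        exact mul_le_mul_of_nonneg_right h1 hW0.le
    _ ≤ 2 * C * (Real.exp (m ^ 2) * 4 ^ m) * (64 ^ (6 * k) * ((6 * k).factorial : ℝ)) * J := by
        apply mul_le_mul_of_nonneg_right _ hJ0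
        exact mul_le_mul_of_nonneg_left h2 (by positivity)
    _ = C1 := hC1.symm
    _ ≤ C1 + 1 := by linarith
--END KS6

--BEGIN KS7
private theorem KS7_GI {k : ℕ} {T Y : ℝ} (hT : 1 ≤ T) (hY : 0 < Y) (hY1 : Y ≤ 1) {y : ℝ}
    (hy : y ∈ Icc T (2 * T)) {α : ℝ} (hα : 0 ≤ α) (A τ : ℝ) :
    (cexp (I * (A : ℝ)) * GI k (α + 1) y Y τ).re =
      ∫ x in Ioi (0 : ℝ), Ek k x * x ^ α * Real.exp (-(Real.log (x / y)) ^ 2 / (2 * Y ^ 2)) *
        Real.cos (A + τ * Real.log (x / y)) := by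
  obtain ⟨C, hC, hφ⟩ := KS6_phi k hα
  have hφ' : ∀ x : ℝ, 0 < x → |(fun x : ℝ => Ek k x * x ^ α) x| ≤ C * (1 + x) ^ (α + 2) := hφ
  have m3 : Measurable fun x : ℝ => Real.log (x / y) :=
    Real.measurable_log.comp (measurable_id.div_const y)
  have i1 := KS4_inner_int hT hY hY1 hy (KS6_phi_meas k α) (by linarith) hφ'
    (W := fun x => Real.cos (τ * Real.log (x / y)))
    (Real.measurable_cos.comp (measurable_const.mul m3)) (fun x => Real.abs_cos_le_one _)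
  have i2 := KS4_inner_int hT hY hY1 hy (KS6_phi_meas k α) (by linarith) hφ'
    (W := fun x => Real.sin (τ * Real.log (x / y)))
    (Real.measurable_sin.comp (measurable_const.mul m3)) (fun x => Real.abs_sin_le_one _)
  have i3 : IntegrableOn (fun x : ℝ => ((Ek k x * x ^ (α + 1 - 1) *
      Real.exp (-(Real.log (x / y)) ^ 2 / (2 * Y ^ 2)) : ℝ) : ℂ) *
      cexp (I * τ * Real.log (x / y))) (Ioi 0) := by
    have h1 : IntegrableOn (fun x : ℝ => (((Ek k x * x ^ α *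
        Real.exp (-(Real.log (x / y)) ^ 2 / (2 * Y ^ 2)) *
        Real.cos (τ * Real.log (x / y)) : ℝ) : ℂ) + ((Ek k x * x ^ α *
        Real.exp (-(Real.log (x / y)) ^ 2 / (2 * Y ^ 2)) *
        Real.sin (τ * Real.log (x / y)) : ℝ) : ℂ) * I)) (Ioi 0) :=
      (Integrable.ofReal i1).add ((Integrable.ofReal i2).mul_const I)
    refine h1.congr (ae_of_all _ fun x => ?_)
    have h2 : α + 1 - 1 = α := by ring
    have h3 : cexp (I * τ * Real.log (x / y)) = (Real.cos (τ * Real.log (x / y)) : ℂ) +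
        (Real.sin (τ * Real.log (x / y)) : ℂ) * I := by
      rw [Complex.ofReal_cos, Complex.ofReal_sin, ← Complex.exp_mul_I]
      congr 1
      push_cast
      ring
    simp only [h2, h3]
    push_cast
    ring
  unfold GI
  rw [← integral_const_mul]
  refine (integral_re (𝕜 := ℂ) (i3.const_mul (cexp (I * (A : ℝ))))).symm.trans ?_
  apply setIntegral_congr_fun measurableSet_Ioi
  intro x hx
  have h2 : α + 1 - 1 = α := by ring
  simp only [h2]
  have h5 : cexp (I * (A : ℝ)) * (((Ek k x * x ^ α *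
      Real.exp (-(Real.log (x / y)) ^ 2 / (2 * Y ^ 2)) : ℝ) : ℂ) *
      cexp (I * τ * Real.log (x / y))) =
      ((Ek k x * x ^ α * Real.exp (-(Real.log (x / y)) ^ 2 / (2 * Y ^ 2)) : ℝ) : ℂ) *
        cexp (((A + τ * Real.log (x / y) : ℝ) : ℂ) * I) := by
    rw [show cexp (I * (A : ℝ)) * (((Ek k x * x ^ α *
      Real.exp (-(Real.log (x / y)) ^ 2 / (2 * Y ^ 2)) : ℝ) : ℂ) *
      cexp (I * τ * Real.log (x / y))) = ((Ek k x * x ^ α *
      Real.exp (-(Real.log (x / y)) ^ 2 / (2 * Y ^ 2)) : ℝ) : ℂ) *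
      (cexp (I * (A : ℝ)) * cexp (I * τ * Real.log (x / y))) by ring, ← Complex.exp_add]
    congr 2
    push_cast
    ring
  rw [h5]
  exact (Complex.re_ofReal_mul _ _).trans (by rw [Complex.exp_ofReal_mul_I_re])

private theorem KS7_pt {k : ℕ} {T Y : ℝ} (hT : 1 ≤ T) (hY : 0 < Y) (hY1 : Y ≤ 1) {y : ℝ}
    (hy : y ∈ Icc T (2 * T)) {α : ℝ} (hα : 0 ≤ α) (w s A τ : ℝ) :
    ∫ x in Ioi (0 : ℝ), Ek k x * x ^ α * (w *
      Real.exp (-(Real.log (x / y)) ^ 2 / (2 * Y ^ 2)) *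
      (1 + s * Real.cos (A + τ * Real.log (x / y))) / y) =
    w * ((GI k (α + 1) y Y 0).re + s * (cexp (I * (A : ℝ)) * GI k (α + 1) y Y τ).re) / y := by
  obtain ⟨C, hC, hφ⟩ := KS6_phi k hα
  have hφ' : ∀ x : ℝ, 0 < x → |(fun x : ℝ => Ek k x * x ^ α) x| ≤ C * (1 + x) ^ (α + 2) := hφ
  have m3 : Measurable fun x : ℝ => Real.log (x / y) :=
    Real.measurable_log.comp (measurable_id.div_const y)
  have i1 := KS4_inner_int hT hY hY1 hy (KS6_phi_meas k α) (by linarith) hφ'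
    (W := fun x => Real.cos (A + τ * Real.log (x / y)))
    (Real.measurable_cos.comp (measurable_const.add (measurable_const.mul m3)))
    (fun x => Real.abs_cos_le_one _)
  have i0 := KS4_inner_int hT hY hY1 hy (KS6_phi_meas k α) (by linarith) hφ'
    (W := fun _ => 1) measurable_const (fun _ => by norm_num)
  have h0 := KS7_GI (k := k) hT hY hY1 hy hα 0 0
  have h1 := KS7_GI (k := k) hT hY hY1 hy hα A τ
  rw [h1]
  have h0' : (GI k (α + 1) y Y 0).re = ∫ x in Ioi (0 : ℝ), Ek k x * x ^ α *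
      Real.exp (-(Real.log (x / y)) ^ 2 / (2 * Y ^ 2)) * 1 := by
    rw [Complex.ofReal_zero, mul_zero, Complex.exp_zero, one_mul] at h0
    rw [h0]
    congr 1
    funext x
    rw [zero_mul, add_zero, Real.cos_zero]
  rw [h0', ← integral_const_mul, ← integral_add i0 (i1.const_mul s), ← integral_const_mul,
    ← integral_div]
  congr 1
  funext x
  ring

private theorem KS7_phase (k : ℕ) (x y θ : ℝ) :
    Real.cos (2 * π * y ^ (1 / (k : ℝ)) * Real.log (x / y) + 2 * π * k * y ^ (1 / (k : ℝ)) + θ) =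
    Real.cos ((2 * π * k * y ^ (1 / (k : ℝ)) + θ) +
      (2 * π * y ^ (1 / (k : ℝ))) * Real.log (x / y)) := by
  congr 1
  ring

/-- **KS7.** Fubini: `∫ E x^α K_slow` in terms of `GI`. -/
theorem Kslow_GI {ρ : ℝ → ℝ} (hρ : IsBump ρ (1 / 4) (3 / 8) (5 / 8) (3 / 4)) {k : ℕ}
    (hk : 4 ≤ k) {α : ℝ} (hα : 0 ≤ α) {T : ℝ} (hT : 1 ≤ T) {s : ℝ} (hs : |s| ≤ 1) (θ : ℝ) :
    ∫ x in Ioi (0 : ℝ), Ek k x * x ^ α * Kslow ρ k T s θ x =
    (Yk k T)⁻¹ * ∫ y in Ioi (0 : ℝ), w0 ρ k T y *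
      ((GI k (α + 1) y (Yk k T) 0).re +
        s * (cexp (I * (2 * π * k * y ^ (1 / (k : ℝ)) + θ : ℝ)) *
          GI k (α + 1) y (Yk k T) (2 * π * y ^ (1 / (k : ℝ)))).re) / y := by
  obtain ⟨C, hC, hφ⟩ := KS6_phi k hα
  have hφ' : ∀ x : ℝ, 0 < x → |(fun x : ℝ => Ek k x * x ^ α) x| ≤ C * (1 + x) ^ (α + 2) := hφ
  obtain ⟨-, h2⟩ := KS4_swap (k := k) hρ hT (KS6_phi_meas k α) (by linarith) hφ' hs θ
  rw [h2]
  congr 1
  apply setIntegral_congr_fun measurableSet_Ioi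
  intro y hy
  by_cases hyT : y ∈ Icc T (2 * T)
  · have h3 := KS7_pt (k := k) hT (KS0_Y_pos k hT) (KS0_Y_le k hT) hyT hα (w0 ρ k T y) s
      (2 * π * k * y ^ (1 / (k : ℝ)) + θ) (2 * π * y ^ (1 / (k : ℝ)))
    simp only [KS7_phase]
    exact h3
  · simp only [KS0_w0_zero2 hρ hT hyT, zero_mul, zero_div, mul_zero, integral_zero]
--END KS7

--BEGIN KS8
private theorem KS8_int {ρ : ℝ → ℝ} (hρ : IsBump ρ (1 / 4) (3 / 8) (5 / 8) (3 / 4)) {k : ℕ}
    {α : ℝ} (hα : 0 ≤ α) {T : ℝ} (hT : 1 ≤ T) {A τ : ℝ → ℝ} (hA : Measurable A)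
    (hτ : Measurable τ) :
    IntegrableOn (fun y : ℝ => w0 ρ k T y *
      (cexp (I * (A y : ℝ)) * GI k (α + 1) y (Yk k T) (τ y)).re / y) (Ioi 0) := by
  obtain ⟨C, hC, hφ⟩ := KS6_phi k hα
  have hφ' : ∀ x : ℝ, 0 < x → |(fun x : ℝ => Ek k x * x ^ α) x| ≤ C * (1 + x) ^ (α + 2) := hφ
  have hWm : Measurable (Function.uncurry fun x y : ℝ =>
      Real.cos (A y + τ y * Real.log (x / y))) := by
    have m3 : Measurable fun q : ℝ × ℝ => Real.log (q.1 / q.2) :=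
      Real.measurable_log.comp (measurable_fst.div measurable_snd)
    exact Real.measurable_cos.comp ((hA.comp measurable_snd).add
      ((hτ.comp measurable_snd).mul m3))
  have hp := KS4_prod (k := k) hρ hT (KS6_phi_meas k α) (by linarith) hφ' hWm
    (fun x y => (Real.abs_cos_le_one _).trans (by norm_num))
  have h1 := hp.integral_prod_right
  refine Integrable.congr h1 ?_
  apply ae_restrict_of_forall_mem measurableSet_Ioi
  intro y hy
  simp only [Function.uncurry_apply_pair]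
  by_cases hyT : y ∈ Icc T (2 * T)
  · rw [KS7_GI (k := k) hT (KS0_Y_pos k hT) (KS0_Y_le k hT) hyT hα (A y) (τ y),
      ← integral_const_mul, ← integral_div]
    congr 1
    funext x
    ring
  · simp only [KS0_w0_zero2 hρ hT hyT, zero_mul, zero_div, mul_zero, integral_zero]

private theorem KS8_int0 {ρ : ℝ → ℝ} (hρ : IsBump ρ (1 / 4) (3 / 8) (5 / 8) (3 / 4)) {k : ℕ}
    {α : ℝ} (hα : 0 ≤ α) {T : ℝ} (hT : 1 ≤ T) :
    IntegrableOn (fun y : ℝ => w0 ρ k T y * (GI k (α + 1) y (Yk k T) 0).re / y) (Ioi 0) := by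
  have h1 := KS8_int (k := k) hρ hα hT (A := fun _ => 0) (τ := fun _ => 0) measurable_const
    measurable_const
  refine h1.congr (ae_of_all _ fun y => ?_)
  simp only [Complex.ofReal_zero, mul_zero, Complex.exp_zero, one_mul]

/-- the full integral as a sum -/
private theorem KS8_sum {ρ : ℝ → ℝ} (hρ : IsBump ρ (1 / 4) (3 / 8) (5 / 8) (3 / 4)) {k : ℕ}
    (hk : 4 ≤ k) {α : ℝ} (hα : 0 ≤ α) {T : ℝ} (hT : 1 ≤ T) {s : ℝ} (hs : |s| ≤ 1) (θ : ℝ) :
    ∫ x in Ioi (0 : ℝ), Ek k x * x ^ α * Kslow ρ k T s θ x =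
    (Yk k T)⁻¹ * ((∫ y in Ioi (0 : ℝ), w0 ρ k T y * (GI k (α + 1) y (Yk k T) 0).re / y) +
      s * ∫ y in Ioi (0 : ℝ), w0 ρ k T y *
        (cexp (I * (2 * π * k * y ^ (1 / (k : ℝ)) + θ : ℝ)) *
          GI k (α + 1) y (Yk k T) (2 * π * y ^ (1 / (k : ℝ)))).re / y) := by
  have i0 := KS8_int0 (k := k) hρ hα hT
  have i1 := KS8_int (k := k) hρ hα hT (A := fun y => 2 * π * k * y ^ (1 / (k : ℝ)) + θ)
    (τ := fun y => 2 * π * y ^ (1 / (k : ℝ)))
    ((measurable_const.mul (measurable_id.pow_const _)).add measurable_const)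
    (measurable_const.mul (measurable_id.pow_const _))
  rw [Kslow_GI hρ hk hα hT hs θ]
  congr 1
  rw [← integral_const_mul, ← integral_add i0 (i1.const_mul s)]
  congr 1
  funext y
  ring

private theorem KS8_abs {ρ : ℝ → ℝ} (hρ : IsBump ρ (1 / 4) (3 / 8) (5 / 8) (3 / 4)) {k : ℕ}
    {T : ℝ} (hT : 1 ≤ T) {f : ℝ → ℝ} {D : ℝ} (hf : ∀ y ∈ Icc T (T + Xw k T), |f y| ≤ D) :
    |∫ y in Ioi (0 : ℝ), w0 ρ k T y * f y / y| ≤ D * ∫ y in Ioi (0 : ℝ), w0 ρ k T y / y := by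
  have h1 : ∀ y ∈ Ioi (0 : ℝ), ‖w0 ρ k T y * f y / y‖ ≤ D * (w0 ρ k T y / y) := by
    intro y hy
    have hy0 : (0 : ℝ) < y := hy
    by_cases hyT : y ∈ Icc T (T + Xw k T)
    · have hw0 := KS0_w0_nonneg hρ k T y
      rw [Real.norm_eq_abs, abs_div, abs_mul, abs_of_nonneg hw0, abs_of_pos hy0]
      calc w0 ρ k T y * |f y| / y = |f y| * (w0 ρ k T y / y) := by ring
        _ ≤ D * (w0 ρ k T y / y) := mul_le_mul_of_nonneg_right (hf y hyT) (by positivity)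
    · simp only [KS0_w0_zero' hρ hT hyT, zero_mul, zero_div, mul_zero, norm_zero, le_refl]
  have h2 := norm_integral_le_of_norm_le
    (((KS4_w0_int (k := k) hρ hT).const_mul D).integrableOn (s := Ioi (0 : ℝ)))
    (ae_restrict_of_forall_mem measurableSet_Ioi h1)
  rwa [Real.norm_eq_abs, integral_const_mul] at h2

private theorem KS8_low {ρ : ℝ → ℝ} (hρ : IsBump ρ (1 / 4) (3 / 8) (5 / 8) (3 / 4)) {k : ℕ}
    {T : ℝ} (hT : 1 ≤ T) {f : ℝ → ℝ} {D : ℝ} (hf : ∀ y ∈ Icc T (T + Xw k T), D ≤ f y)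
    (hi : IntegrableOn (fun y : ℝ => w0 ρ k T y * f y / y) (Ioi 0)) :
    D * ∫ y in Ioi (0 : ℝ), w0 ρ k T y / y ≤ ∫ y in Ioi (0 : ℝ), w0 ρ k T y * f y / y := by
  rw [← integral_const_mul]
  apply setIntegral_mono_on (((KS4_w0_int (k := k) hρ hT).const_mul D).integrableOn) hi
    measurableSet_Ioi
  intro y hy
  have hy0 : (0 : ℝ) < y := hy
  by_cases hyT : y ∈ Icc T (T + Xw k T)
  · have hw0 := KS0_w0_nonneg hρ k T y
    calc D * (w0 ρ k T y / y) ≤ f y * (w0 ρ k T y / y) :=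
          mul_le_mul_of_nonneg_right (hf y hyT) (by positivity)
      _ = _ := by ring
  · simp only [KS0_w0_zero' hρ hT hyT, zero_mul, zero_div, mul_zero, le_refl]

private theorem KS8_phase (A : ℝ) (z : ℂ) : |(cexp (I * (A : ℝ)) * z).re| ≤ ‖z‖ := by
  refine (Complex.abs_re_le_norm _).trans ?_
  rw [norm_mul, mul_comm I, Complex.norm_exp_ofReal_mul_I, one_mul]

private theorem KS8_root {K T : ℝ} (hK : 0 ≤ K) (hT : K ^ 4 ≤ T) : K ≤ T ^ (1 / 4 : ℝ) := by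
  have h1 : (K ^ 4) ^ (1 / 4 : ℝ) = K := by
    rw [← Real.rpow_natCast, ← Real.rpow_mul hK]
    norm_num
  calc K = (K ^ 4) ^ (1 / 4 : ℝ) := h1.symm
    _ ≤ _ := Real.rpow_le_rpow (by positivity) hT (by norm_num)

/-- **KS8.** The slow part of `Δ_k`, both signs. -/
theorem slow_main {ρ : ℝ → ℝ} (hρ : IsBump ρ (1 / 4) (3 / 8) (5 / 8) (3 / 4)) {k : ℕ}
    (hk : 4 ≤ k) : ∃ θ c C T0 : ℝ, 0 < c ∧ 0 < C ∧ 1 ≤ T0 ∧ ∀ T : ℝ, T0 ≤ T →
      ∀ s : ℝ, (s = 1 ∨ s = -1) → ∀ ϕ : ℝ → ℝ, IsBump ϕ (1 / 2) (3 / 4) 3 4 →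
      c * Xw k T * T ^ (1 / 4 + (1 / 2 - 1 / (2 * (k : ℝ)))) ≤
        s * ∫ x in Ioi (0 : ℝ), Ek k x * x ^ (1 / 4 : ℝ) * (ϕ (x / T) * Kslow ρ k T s θ x) ∧
      |∫ x in Ioi (0 : ℝ), Ek k x * (ϕ (x / T) * Kslow ρ k T s θ x)| ≤
        C * Xw k T * T ^ (1 / 2 - 1 / (2 * (k : ℝ))) := by
  have hk' : (4 : ℝ) ≤ k := by exact_mod_cast hk
  have hk0 : (0 : ℝ) < k := by linarith
  have hk8 : 1 / (2 * (k : ℝ)) ≤ 1 / 8 := by
    apply one_div_le_one_div_of_le (by norm_num)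
    linarith
  have hk9 : 0 ≤ 1 / (2 * (k : ℝ)) := by positivity
  obtain ⟨θ, c, C₁, T₁, hc, hC₁, hT₁, H1⟩ := GI_main (β := 1 / 4 + 1) hk (by norm_num) (by norm_num)
  obtain ⟨_, _, C₂, T₂, _, hC₂, hT₂, H2⟩ := GI_main (β := 0 + 1) hk (by norm_num) (by norm_num)
  obtain ⟨D₁, hD₁, Z1⟩ := GI_zero_bound (β := 1 / 4 + 1) hk (by norm_num) (by norm_num)
  obtain ⟨D₂, hD₂, Z2⟩ := GI_zero_bound (β := 0 + 1) hk (by norm_num) (by norm_num)
  obtain ⟨C₃, T₃, hC₃, hT₃, F1⟩ := Kslow_far hρ hk (α := 1 / 4) (by norm_num) le_rfl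
  obtain ⟨C₄, T₄, hC₄, hT₄, F2⟩ := Kslow_far hρ hk (α := 0) le_rfl (by norm_num)
  set K : ℝ := 32 * (D₁ + C₃) / c with hK
  have hK0 : 0 ≤ K := by positivity
  refine ⟨θ, c / 16, D₂ + C₂ + C₄, max (max T₁ T₂) (max (max T₃ T₄) (K ^ 4)), by positivity,
    by positivity, le_max_of_le_left (le_max_of_le_left hT₁), ?_⟩
  intro T hTT s hs ϕ hϕ
  have hTT1 : T₁ ≤ T := le_trans (le_max_of_le_left (le_max_left _ _)) hTT
  have hTT2 : T₂ ≤ T := le_trans (le_max_of_le_left (le_max_right _ _)) hTT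
  have hTT3 : T₃ ≤ T := le_trans (le_max_of_le_right (le_max_of_le_left (le_max_left _ _))) hTT
  have hTT4 : T₄ ≤ T := le_trans (le_max_of_le_right (le_max_of_le_left (le_max_right _ _))) hTT
  have hTT5 : K ^ 4 ≤ T := le_trans (le_max_of_le_right (le_max_right _ _)) hTT
  have hT : 1 ≤ T := hT₁.trans hTT1
  have hT0 : 0 < T := by linarith
  have hY := KS0_Y_pos k hT
  have hX := KS0_X_pos k hT
  have hX1 := KS0_X_ge k (by omega) hT
  have hXT := KS0_X_le k hT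
  have hs1 : |s| ≤ 1 := by
    rcases hs with rfl | rfl
    · rw [abs_one]
    · rw [abs_neg, abs_one]
  have hss : s * s = 1 := by
    rcases hs with rfl | rfl <;> norm_num
  have hsub : ∀ y ∈ Icc T (T + Xw k T), y ∈ Icc T (2 * T) := by
    intro y hy
    exact ⟨hy.1, by linarith [hy.2]⟩
  set I0 : ℝ := ∫ y in Ioi (0 : ℝ), w0 ρ k T y / y with hI0
  have hI0n : 0 ≤ I0 := KS4_w0_nn hρ
  have hI0u : I0 ≤ Xw k T / T := KS4_w0_up hρ hT
  have hI0l : Xw k T / (8 * T) ≤ I0 := KS4_w0_low hρ hT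
  constructor
  · obtain ⟨-, f1⟩ := F1 T hTT3 s θ hs1 ϕ hϕ
    rw [KS8_sum hρ hk (by norm_num) hT hs1 θ] at f1
    set Z : ℝ := ∫ y in Ioi (0 : ℝ), w0 ρ k T y * (GI k (1 / 4 + 1) y (Yk k T) 0).re / y with hZ
    set P : ℝ := ∫ y in Ioi (0 : ℝ), w0 ρ k T y *
        (cexp (I * (2 * π * k * y ^ (1 / (k : ℝ)) + θ : ℝ)) *
          GI k (1 / 4 + 1) y (Yk k T) (2 * π * y ^ (1 / (k : ℝ)))).re / y with hP
    set V : ℝ := ∫ x in Ioi (0 : ℝ), Ek k x * x ^ (1 / 4 : ℝ) * (ϕ (x / T) * Kslow ρ k T s θ x)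
      with hV
    have hPl : (c * Yk k T * T ^ ((1 / 4 + 1) + 1 / 2 - 1 / (2 * (k : ℝ)))) * I0 ≤ P :=
      KS8_low hρ hT (fun y hy => (H1 T hTT1 y hy).1)
        (KS8_int (k := k) hρ (by norm_num) hT (A := fun y => 2 * π * k * y ^ (1 / (k : ℝ)) + θ)
        (τ := fun y => 2 * π * y ^ (1 / (k : ℝ)))
        ((measurable_const.mul (measurable_id.pow_const _)).add measurable_const)
        (measurable_const.mul (measurable_id.pow_const _)))
    have hZu : |Z| ≤ (D₁ * Yk k T * T ^ ((1 / 4 + 1) + 1 / 8 : ℝ)) * I0 :=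
      KS8_abs hρ hT fun y hy =>
        (Complex.abs_re_le_norm _).trans (Z1 T hT y (hsub y hy))
    -- powers of `T`
    have hYi : (Yk k T)⁻¹ * Yk k T = 1 := inv_mul_cancel₀ hY.ne'
    have e1 : T ^ ((1 / 4 + 1) + 1 / 2 - 1 / (2 * (k : ℝ))) =
        T ^ (1 / 4 + (1 / 2 - 1 / (2 * (k : ℝ)))) * T := by
      rw [← Real.rpow_add_one hT0.ne']
      congr 1
      ring
    have e2 : T ^ ((1 / 4 + 1) + 1 / 8 : ℝ) = T ^ (3 / 8 : ℝ) * T := by
      rw [← Real.rpow_add_one hT0.ne']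
      norm_num
    set Q : ℝ := T ^ (1 / 4 + (1 / 2 - 1 / (2 * (k : ℝ)))) with hQ
    have hQ0 : 0 < Q := Real.rpow_pos_of_pos hT0 _
    have hroot := KS8_root hK0 hTT5
    have hR0 : 0 < T ^ (1 / 4 : ℝ) := Real.rpow_pos_of_pos hT0 _
    have e3 : T ^ (3 / 8 : ℝ) * T ^ (1 / 4 : ℝ) ≤ Q := by
      rw [← Real.rpow_add hT0]
      apply Real.rpow_le_rpow_of_exponent_le hT
      linarith
    have e4 : T ^ (1 / 4 : ℝ) ≤ Q := by
      apply Real.rpow_le_rpow_of_exponent_le hT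
      linarith
    have e5 : 32 * (D₁ + C₃) ≤ c * T ^ (1 / 4 : ℝ) := by
      rw [hK, div_le_iff₀ hc] at hroot
      linarith
    have b1 : (c / 8) * Xw k T * Q ≤ (Yk k T)⁻¹ * P := by
      calc (c / 8) * Xw k T * Q = (c * Q * T) * (Xw k T / (8 * T)) := by field_simp
        _ ≤ (c * Q * T) * I0 := mul_le_mul_of_nonneg_left hI0l (by positivity)
        _ = (Yk k T)⁻¹ * ((c * Yk k T * (Q * T)) * I0) := by
            calc (c * Q * T) * I0 = ((Yk k T)⁻¹ * Yk k T) * ((c * Q * T) * I0) := by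
                  rw [hYi, one_mul]
              _ = _ := by ring
        _ ≤ (Yk k T)⁻¹ * P := by
            apply mul_le_mul_of_nonneg_left _ (inv_nonneg.mpr hY.le)
            rw [← e1]
            exact hPl
    have b2 : (Yk k T)⁻¹ * |Z| ≤ D₁ * Xw k T * T ^ (3 / 8 : ℝ) := by
      calc (Yk k T)⁻¹ * |Z| ≤ (Yk k T)⁻¹ * ((D₁ * Yk k T * (T ^ (3 / 8 : ℝ) * T)) * I0) := by
            apply mul_le_mul_of_nonneg_left _ (inv_nonneg.mpr hY.le)
            rw [← e2]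
            exact hZu
        _ = ((Yk k T)⁻¹ * Yk k T) * ((D₁ * T ^ (3 / 8 : ℝ) * T) * I0) := by ring
        _ = (D₁ * T ^ (3 / 8 : ℝ) * T) * I0 := by rw [hYi, one_mul]
        _ ≤ (D₁ * T ^ (3 / 8 : ℝ) * T) * (Xw k T / T) :=
            mul_le_mul_of_nonneg_left hI0u (by positivity)
        _ = _ := by field_simp
    have b3 : D₁ * Xw k T * T ^ (3 / 8 : ℝ) ≤ (c / 32) * Xw k T * Q := by
      have h1 : D₁ * T ^ (3 / 8 : ℝ) ≤ (c / 32) * Q := by
        have h2 : 32 * D₁ ≤ c * T ^ (1 / 4 : ℝ) := by linarith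
        have h3 : 0 < T ^ (3 / 8 : ℝ) := Real.rpow_pos_of_pos hT0 _
        calc D₁ * T ^ (3 / 8 : ℝ) = (1 / 32) * ((32 * D₁) * T ^ (3 / 8 : ℝ)) := by ring
          _ ≤ (1 / 32) * ((c * T ^ (1 / 4 : ℝ)) * T ^ (3 / 8 : ℝ)) := by gcongr
          _ = (c / 32) * (T ^ (3 / 8 : ℝ) * T ^ (1 / 4 : ℝ)) := by ring
          _ ≤ (c / 32) * Q := mul_le_mul_of_nonneg_left e3 (by positivity)
      calc D₁ * Xw k T * T ^ (3 / 8 : ℝ) = Xw k T * (D₁ * T ^ (3 / 8 : ℝ)) := by ring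
        _ ≤ Xw k T * ((c / 32) * Q) := mul_le_mul_of_nonneg_left h1 hX.le
        _ = _ := by ring
    have b4 : C₃ ≤ (c / 32) * Xw k T * Q := by
      have h1 : 32 * C₃ ≤ c * Q := by
        have h2 : c * T ^ (1 / 4 : ℝ) ≤ c * Q := mul_le_mul_of_nonneg_left e4 hc.le
        linarith
      have h3 : (c / 32) * Q ≤ (c / 32) * Xw k T * Q := by
        have : 0 ≤ (c / 32) * Q := by positivity
        nlinarith
      linarith
    have f2 := (abs_le.mp f1)
    have f3 : s * ((Yk k T)⁻¹ * (Z + s * P) - V) ≤ C₃ := by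
      rcases hs with rfl | rfl
      · linarith [f2.2]
      · linarith [f2.1]
    have f4 : -((Yk k T)⁻¹ * |Z|) ≤ s * ((Yk k T)⁻¹ * Z) := by
      have h1 : |s * ((Yk k T)⁻¹ * Z)| ≤ (Yk k T)⁻¹ * |Z| := by
        rw [abs_mul, abs_mul, abs_of_pos (inv_pos.mpr hY)]
        exact mul_le_of_le_one_left (by positivity) hs1
      exact (abs_le.mp h1).1
    have f5 : s * ((Yk k T)⁻¹ * (Z + s * P) - V) =
        s * ((Yk k T)⁻¹ * Z) + (s * s) * ((Yk k T)⁻¹ * P) - s * V := by ring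
    rw [f5, hss, one_mul] at f3
    have : c / 16 * Xw k T * Q = (c / 8) * Xw k T * Q - (c / 32) * Xw k T * Q -
      (c / 32) * Xw k T * Q := by ring
    linarith
  · obtain ⟨-, f1⟩ := F2 T hTT4 s θ hs1 ϕ hϕ
    rw [KS8_sum hρ hk le_rfl hT hs1 θ] at f1
    have hV : ∫ x in Ioi (0 : ℝ), Ek k x * x ^ (0 : ℝ) * (ϕ (x / T) * Kslow ρ k T s θ x) =
        ∫ x in Ioi (0 : ℝ), Ek k x * (ϕ (x / T) * Kslow ρ k T s θ x) := by
      congr 1
      funext x
      rw [Real.rpow_zero, mul_one]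
    rw [hV] at f1
    set Z : ℝ := ∫ y in Ioi (0 : ℝ), w0 ρ k T y * (GI k (0 + 1) y (Yk k T) 0).re / y with hZ
    set P : ℝ := ∫ y in Ioi (0 : ℝ), w0 ρ k T y *
        (cexp (I * (2 * π * k * y ^ (1 / (k : ℝ)) + θ : ℝ)) *
          GI k (0 + 1) y (Yk k T) (2 * π * y ^ (1 / (k : ℝ)))).re / y with hP
    set V : ℝ := ∫ x in Ioi (0 : ℝ), Ek k x * (ϕ (x / T) * Kslow ρ k T s θ x) with hV'
    have hPu : |P| ≤ (C₂ * Yk k T * T ^ ((0 + 1) + 1 / 2 - 1 / (2 * (k : ℝ)))) * I0 :=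
      KS8_abs hρ hT fun y hy => (KS8_phase _ _).trans (H2 T hTT2 y hy).2
    have hZu : |Z| ≤ (D₂ * Yk k T * T ^ ((0 + 1) + 1 / 8 : ℝ)) * I0 :=
      KS8_abs hρ hT fun y hy =>
        (Complex.abs_re_le_norm _).trans (Z2 T hT y (hsub y hy))
    have hYi : (Yk k T)⁻¹ * Yk k T = 1 := inv_mul_cancel₀ hY.ne'
    have e1 : T ^ ((0 + 1) + 1 / 2 - 1 / (2 * (k : ℝ))) =
        T ^ (1 / 2 - 1 / (2 * (k : ℝ))) * T := by
      rw [← Real.rpow_add_one hT0.ne']
      congr 1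
      ring
    have e2 : T ^ ((0 + 1) + 1 / 8 : ℝ) ≤ T ^ (1 / 2 - 1 / (2 * (k : ℝ))) * T := by
      rw [← e1]
      apply Real.rpow_le_rpow_of_exponent_le hT
      linarith
    set Q : ℝ := T ^ (1 / 2 - 1 / (2 * (k : ℝ))) with hQ
    have hQe : 0 ≤ 1 / 2 - 1 / (2 * (k : ℝ)) := by linarith
    have hQ1 : 1 ≤ Q := by
      rw [hQ]
      exact Real.one_le_rpow hT hQe
    have b1 : (Yk k T)⁻¹ * |P| ≤ C₂ * Xw k T * Q := by
      calc (Yk k T)⁻¹ * |P| ≤ (Yk k T)⁻¹ * ((C₂ * Yk k T * (Q * T)) * I0) := by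
            apply mul_le_mul_of_nonneg_left _ (inv_nonneg.mpr hY.le)
            rw [← e1]
            exact hPu
        _ = ((Yk k T)⁻¹ * Yk k T) * ((C₂ * Q * T) * I0) := by ring
        _ = (C₂ * Q * T) * I0 := by rw [hYi, one_mul]
        _ ≤ (C₂ * Q * T) * (Xw k T / T) := mul_le_mul_of_nonneg_left hI0u (by positivity)
        _ = _ := by field_simp
    have b2 : (Yk k T)⁻¹ * |Z| ≤ D₂ * Xw k T * Q := by
      calc (Yk k T)⁻¹ * |Z| ≤ (Yk k T)⁻¹ * ((D₂ * Yk k T * (Q * T)) * I0) := by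
            apply mul_le_mul_of_nonneg_left _ (inv_nonneg.mpr hY.le)
            refine hZu.trans ?_
            apply mul_le_mul_of_nonneg_right _ hI0n
            exact mul_le_mul_of_nonneg_left e2 (by positivity)
        _ = ((Yk k T)⁻¹ * Yk k T) * ((D₂ * Q * T) * I0) := by ring
        _ = (D₂ * Q * T) * I0 := by rw [hYi, one_mul]
        _ ≤ (D₂ * Q * T) * (Xw k T / T) := mul_le_mul_of_nonneg_left hI0u (by positivity)
        _ = _ := by field_simp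
    have b3 : C₄ ≤ C₄ * Xw k T * Q := by
      have h1 : 1 ≤ Xw k T * Q := by nlinarith
      calc C₄ = C₄ * 1 := (mul_one _).symm
        _ ≤ C₄ * (Xw k T * Q) := mul_le_mul_of_nonneg_left h1 hC₄.le
        _ = _ := by ring
    have f4 : |(Yk k T)⁻¹ * (Z + s * P)| ≤ (Yk k T)⁻¹ * |Z| + (Yk k T)⁻¹ * |P| := by
      rw [abs_mul, abs_of_pos (inv_pos.mpr hY), ← mul_add]
      apply mul_le_mul_of_nonneg_left _ (inv_nonneg.mpr hY.le)
      refine (abs_add_le _ _).trans ?_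
      apply add_le_add le_rfl
      rw [abs_mul]
      exact mul_le_of_le_one_left (abs_nonneg _) hs1
    have f5 : |V| ≤ |(Yk k T)⁻¹ * (Z + s * P)| + C₄ := by
      have h1 : V = (Yk k T)⁻¹ * (Z + s * P) - ((Yk k T)⁻¹ * (Z + s * P) - V) := by ring
      rw [h1]
      refine (abs_sub _ _).trans ?_
      exact add_le_add le_rfl f1
    calc |V| ≤ |(Yk k T)⁻¹ * (Z + s * P)| + C₄ := f5
      _ ≤ ((Yk k T)⁻¹ * |Z| + (Yk k T)⁻¹ * |P|) + C₄ := add_le_add f4 le_rfl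
      _ ≤ (D₂ * Xw k T * Q + C₂ * Xw k T * Q) + C₄ * Xw k T * Q :=
          add_le_add (add_le_add b2 b1) b3
      _ = _ := by ring
--END KS8

end Pool.Agent.PEt
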