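import Pool.Agent.PEt.VO
import Pool.Agent.PEt.KS
import Pool.Agent.PEt.BL

/-! Assembly. -/

set_option autoImplicit false

open Complex MeasureTheory Set Filter Topology
open scoped Real ComplexConjugate ContDiff

namespace Pool.Agent.PEt

/-! ### The kernel as a sum of exponentials -/

--BEGIN AA1
private theorem AA1_out {T X C : ℝ} {a : ℝ → ℂ} (h : Amp T X C a) {x : ℝ}
    (hx : x ∉ Icc (T / 2) (4 * T)) : a x = 0 ∧ deriv a x = 0 ∧ deriv (deriv a) x = 0 := by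
  have h1 : a =ᶠ[𝓝 x] fun _ => 0 := by
    filter_upwards [isClosed_Icc.isOpen_compl.mem_nhds hx] with y hy
    exact h.supp y hy
  have h2 : deriv a =ᶠ[𝓝 x] fun _ => 0 := by
    have := h1.deriv
    simpa using this
  refine ⟨h.supp x hx, ?_, ?_⟩
  · exact h2.eq_of_nhds
  · have := h2.deriv_eq
    simpa using this

private theorem AA1_nn {T X C : ℝ} {a : ℝ → ℂ} (h : Amp T X C a) : 0 ≤ C :=
  (norm_nonneg _).trans (h.b0 0)

private theorem AA1_mono {T X C C' : ℝ} {a : ℝ → ℂ} (h : Amp T X C a) (hX : 0 < X)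
    (hC : C ≤ C') : Amp T X C' a :=
  ⟨h.smooth, h.supp, fun x => (h.b0 x).trans hC,
    fun x => (h.b1 x).trans (by gcongr), fun x => (h.b2 x).trans (by gcongr)⟩

private theorem AA1_d1 {a : ℝ → ℂ} (h : ContDiff ℝ 2 a) (x : ℝ) : HasDerivAt a (deriv a x) x :=
  (h.differentiable (by norm_num) x).hasDerivAt

private theorem AA1_c1 {a : ℝ → ℂ} (h : ContDiff ℝ 2 a) : ContDiff ℝ 1 (deriv a) := by
  have h2 : ContDiff ℝ (1 + 1) a := by simpa [one_add_one_eq_two] using h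
  exact (contDiff_succ_iff_deriv.1 h2).2.2

private theorem AA1_d2 {a : ℝ → ℂ} (h : ContDiff ℝ 2 a) (x : ℝ) :
    HasDerivAt (deriv a) (deriv (deriv a) x) x :=
  ((AA1_c1 h).differentiable (by norm_num) x).hasDerivAt

private theorem AA1_o {P : ℝ → ℂ} (h : ContDiffOn ℝ 2 P (Ioi 0)) {x : ℝ} (hx : 0 < x) :
    HasDerivAt P (deriv P x) x ∧ HasDerivAt (deriv P) (deriv (deriv P) x) x := by
  have h2 : ContDiffOn ℝ (1 + 1) P (Ioi 0) := by simpa [one_add_one_eq_two] using h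
  have h3 := (contDiffOn_succ_iff_deriv_of_isOpen isOpen_Ioi).1 h2
  refine ⟨((h3.1 x hx).differentiableAt (Ioi_mem_nhds hx)).hasDerivAt, ?_⟩
  exact ((h3.2.2.differentiableOn (by norm_num) x hx).differentiableAt
    (Ioi_mem_nhds hx)).hasDerivAt

private theorem AA1_mul {T X C M : ℝ} {a P : ℝ → ℂ} (hX : 0 < X) (hT : 0 < T)
    (h : Amp T X C a) (hP : ContDiffOn ℝ 2 P (Ioi 0))
    (h0 : ∀ x ∈ Icc (T / 2) (4 * T), ‖P x‖ ≤ M)
    (h1 : ∀ x ∈ Icc (T / 2) (4 * T), ‖deriv P x‖ ≤ M / X)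
    (h2 : ∀ x ∈ Icc (T / 2) (4 * T), ‖deriv (deriv P) x‖ ≤ M / X ^ 2) :
    Amp T X (4 * M * C) (fun x => P x * a x) := by
  have hC := AA1_nn h
  have hM : 0 ≤ M := (norm_nonneg _).trans (h0 (T / 2) ⟨le_rfl, by linarith⟩)
  have hMC : 0 ≤ M * C := mul_nonneg hM hC
  have hd1 : ∀ y : ℝ, 0 < y → HasDerivAt (fun x => P x * a x)
      (deriv P y * a y + P y * deriv a y) y := fun y hy =>
    (AA1_o hP hy).1.mul (AA1_d1 h.smooth y)
  have hd2 : ∀ y : ℝ, 0 < y → HasDerivAt (deriv (fun x => P x * a x))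
      ((deriv (deriv P) y * a y + deriv P y * deriv a y) +
        (deriv P y * deriv a y + P y * deriv (deriv a) y)) y := by
    intro y hy
    have h3 : HasDerivAt (fun x => deriv P x * a x + P x * deriv a x)
        ((deriv (deriv P) y * a y + deriv P y * deriv a y) +
        (deriv P y * deriv a y + P y * deriv (deriv a) y)) y :=
      ((AA1_o hP hy).2.mul (AA1_d1 h.smooth y)).add ((AA1_o hP hy).1.mul (AA1_d2 h.smooth y))
    refine h3.congr_of_eventuallyEq ?_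
    filter_upwards [Ioi_mem_nhds hy] with z hz
    exact (hd1 z hz).deriv
  have hs : ∀ x, x ∉ Icc (T / 2) (4 * T) → P x * a x = 0 := fun x hx => by
    rw [h.supp x hx, mul_zero]
  have hev : ∀ x, x ∉ Icc (T / 2) (4 * T) → (fun x => P x * a x) =ᶠ[𝓝 x] fun _ => 0 := by
    intro x hx
    filter_upwards [isClosed_Icc.isOpen_compl.mem_nhds hx] with y hy
    exact hs y hy
  have hpos : ∀ x ∈ Icc (T / 2) (4 * T), 0 < x := fun x hx => lt_of_lt_of_le (by linarith) hx.1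
  refine ⟨?_, hs, ?_, ?_, ?_⟩
  · rw [contDiff_iff_contDiffAt]
    intro x
    by_cases hx : 0 < x
    · exact (hP.contDiffAt (Ioi_mem_nhds hx)).mul h.smooth.contDiffAt
    · refine contDiffAt_const.congr_of_eventuallyEq (hev x ?_)
      intro hx'
      exact hx (hpos x hx')
  · intro x
    by_cases hx : x ∈ Icc (T / 2) (4 * T)
    · rw [norm_mul]
      calc ‖P x‖ * ‖a x‖ ≤ M * C := mul_le_mul (h0 x hx) (h.b0 x) (norm_nonneg _) hM
        _ ≤ 4 * M * C := by linarith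
    · rw [hs x hx, norm_zero]
      linarith
  · intro x
    by_cases hx : x ∈ Icc (T / 2) (4 * T)
    · rw [(hd1 x (hpos x hx)).deriv]
      calc ‖deriv P x * a x + P x * deriv a x‖ ≤ ‖deriv P x‖ * ‖a x‖ + ‖P x‖ * ‖deriv a x‖ := by
            rw [← norm_mul, ← norm_mul]
            exact norm_add_le _ _
        _ ≤ M / X * C + M * (C / X) := by
            gcongr
            · exact h1 x hx
            · exact h.b0 x
            · exact h0 x hx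
            · exact h.b1 x
        _ = 2 * (M * C) / X := by ring
        _ ≤ 4 * M * C / X := div_le_div_of_nonneg_right (by linarith) hX.le
    · rw [(hev x hx).deriv_eq]
      simp only [deriv_const, norm_zero]
      apply div_nonneg _ hX.le
      linarith
  · intro x
    by_cases hx : x ∈ Icc (T / 2) (4 * T)
    · rw [(hd2 x (hpos x hx)).deriv]
      calc ‖(deriv (deriv P) x * a x + deriv P x * deriv a x) +
            (deriv P x * deriv a x + P x * deriv (deriv a) x)‖ ≤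
            (‖deriv (deriv P) x‖ * ‖a x‖ + ‖deriv P x‖ * ‖deriv a x‖) +
            (‖deriv P x‖ * ‖deriv a x‖ + ‖P x‖ * ‖deriv (deriv a) x‖) := by
            refine (norm_add_le _ _).trans (add_le_add ((norm_add_le _ _).trans ?_)
              ((norm_add_le _ _).trans ?_))
            · rw [norm_mul, norm_mul]
            · rw [norm_mul, norm_mul]
        _ ≤ (M / X ^ 2 * C + M / X * (C / X)) + (M / X * (C / X) + M * (C / X ^ 2)) := by
            gcongr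
            · exact h2 x hx
            · exact h.b0 x
            · exact h1 x hx
            · exact h.b1 x
            · exact h1 x hx
            · exact h.b1 x
            · exact h0 x hx
            · exact h.b2 x
        _ = 4 * M * C / X ^ 2 := by ring
    · have h3 : deriv (fun x => P x * a x) =ᶠ[𝓝 x] fun _ => 0 := by
        have := (hev x hx).deriv
        simpa using this
      rw [h3.deriv_eq]
      simp only [deriv_const, norm_zero]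
      apply div_nonneg _ (by positivity)
      linarith

/-- The cutoff is an amplitude. -/
private theorem AA1_bump {ϕ : ℝ → ℝ} (hϕ : IsBump ϕ (1 / 2) (3 / 4) 3 4) :
    ∃ M : ℝ, 0 < M ∧ ∀ T X : ℝ, 1 ≤ X → X ≤ T → Amp T X M (fun x => (ϕ (x / T) : ℂ)) := by
  have hc : HasCompactSupport ϕ := by
    refine HasCompactSupport.intro (isCompact_Icc (a := 1 / 2) (b := 4)) ?_
    intro x hx
    exact hϕ.zero x hx
  have hs2 : ContDiff ℝ 2 ϕ := by exact_mod_cast contDiff_infty.1 hϕ.smooth 2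
  have hs1 : ContDiff ℝ 1 (deriv ϕ) := by
    have h2 : ContDiff ℝ (1 + 1) ϕ := by simpa [one_add_one_eq_two] using hs2
    exact (contDiff_succ_iff_deriv.1 h2).2.2
  have hs0 : ContDiff ℝ 0 (deriv (deriv ϕ)) := by
    have h2 : ContDiff ℝ (0 + 1) (deriv ϕ) := by simpa using hs1
    exact (contDiff_succ_iff_deriv.1 h2).2.2
  obtain ⟨M1, hM1⟩ := hc.deriv.exists_bound_of_continuous hs1.continuous
  obtain ⟨M2, hM2⟩ := hc.deriv.deriv.exists_bound_of_continuous hs0.continuous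
  have hM1' : 0 ≤ M1 := (norm_nonneg _).trans (hM1 0)
  have hM2' : 0 ≤ M2 := (norm_nonneg _).trans (hM2 0)
  refine ⟨1 + M1 + M2, by linarith, ?_⟩
  intro T X hX hXT
  have hX0 : 0 < X := by linarith
  have hT0 : 0 < T := by linarith
  have hd1 : ∀ x, HasDerivAt (fun x => (ϕ (x / T) : ℂ)) ((deriv ϕ (x / T) * (1 / T) : ℝ) : ℂ) x := by
    intro x
    refine HasDerivAt.ofReal_comp (f := fun x => ϕ (x / T)) ?_
    exact ((hs2.differentiable (by norm_num) (x / T)).hasDerivAt).comp x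
      ((hasDerivAt_id x).div_const T)
  have hd1' : deriv (fun x => (ϕ (x / T) : ℂ)) = fun x => ((deriv ϕ (x / T) * (1 / T) : ℝ) : ℂ) :=
    funext fun x => (hd1 x).deriv
  have hd2 : ∀ x, HasDerivAt (deriv (fun x => (ϕ (x / T) : ℂ)))
      ((deriv (deriv ϕ) (x / T) * (1 / T) * (1 / T) : ℝ) : ℂ) x := by
    intro x
    rw [hd1']
    refine HasDerivAt.ofReal_comp (f := fun x => deriv ϕ (x / T) * (1 / T)) ?_
    exact (((hs1.differentiable (by norm_num) (x / T)).hasDerivAt).comp x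
      ((hasDerivAt_id x).div_const T)).mul_const _
  refine ⟨?_, ?_, ?_, ?_, ?_⟩
  · have h3 : ContDiff ℝ 2 (fun x : ℝ => ϕ (x / T)) := hs2.comp (contDiff_id.div_const T)
    exact Complex.ofRealCLM.contDiff.comp h3
  · intro x hx
    rw [hϕ.zero (x / T), ofReal_zero]
    intro hx'
    apply hx
    constructor
    · have := hx'.1
      rw [le_div_iff₀ hT0] at this
      linarith
    · have := hx'.2
      rw [div_le_iff₀ hT0] at this
      linarith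
  · intro x
    rw [Complex.norm_real, Real.norm_eq_abs, abs_of_nonneg (hϕ.nonneg _)]
    have := hϕ.le_one (x / T)
    linarith
  · intro x
    rw [hd1', Complex.norm_real, norm_mul, Real.norm_of_nonneg (by positivity : (0 : ℝ) ≤ 1 / T)]
    calc ‖deriv ϕ (x / T)‖ * (1 / T) ≤ M1 * (1 / X) := by
          gcongr
          exact hM1 _
      _ = M1 / X := by ring
      _ ≤ (1 + M1 + M2) / X := by
          gcongr
          linarith
  · intro x
    rw [(hd2 x).deriv, Complex.norm_real, norm_mul, norm_mul,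
      Real.norm_of_nonneg (by positivity : (0 : ℝ) ≤ 1 / T)]
    calc ‖deriv (deriv ϕ) (x / T)‖ * (1 / T) * (1 / T) ≤ M2 * (1 / X) * (1 / X) := by
          gcongr
          exact hM2 _
      _ = M2 / X ^ 2 := by ring
      _ ≤ (1 + M1 + M2) / X ^ 2 := by
          gcongr
          linarith

private theorem AA1_X {k : ℕ} (hk : 4 ≤ k) {T : ℝ} (hT : 1 ≤ T) :
    1 ≤ Xw k T ∧ Xw k T ≤ T ∧ T ^ (1 / 2 : ℝ) ≤ Xw k T := by
  have hk' : (4 : ℝ) ≤ k := by exact_mod_cast hk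
  have h1 : 0 ≤ 1 / (32 * (k : ℝ)) := by positivity
  have h2 : 1 / (32 * (k : ℝ)) ≤ 1 / 2 := by
    apply one_div_le_one_div_of_le (by norm_num)
    linarith
  unfold Xw
  refine ⟨Real.one_le_rpow hT (by linarith), ?_, Real.rpow_le_rpow_of_exponent_le hT (by linarith)⟩
  calc T ^ (1 - 1 / (32 * (k : ℝ))) ≤ T ^ (1 : ℝ) :=
        Real.rpow_le_rpow_of_exponent_le hT (by linarith)
    _ = T := Real.rpow_one T

private theorem AA1_e_add (a b : ℝ) : e (a + b) = e a * e b := by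
  unfold e
  rw [← Complex.exp_add]
  push_cast
  ring_nf

private theorem AA1_e_norm (a : ℝ) : ‖e a‖ = 1 := by
  unfold e
  have : (2 * π * I * a : ℂ) = I * ((2 * π * a : ℝ) : ℂ) := by push_cast; ring
  rw [this, Complex.norm_exp_I_mul_ofReal]

private theorem AA1_sum3 (f : ℤ → ℂ) :
    ∑ l ∈ Finset.Icc (-1 : ℤ) 1, f l = f (-1) + f 0 + f 1 := by
  have : Finset.Icc (-1 : ℤ) 1 = {-1, 0, 1} := by decide
  rw [this, Finset.sum_insert (by decide), Finset.sum_insert (by decide), Finset.sum_singleton,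
    add_assoc]

private theorem AA1_int {l : ℤ} (hl : l ∈ Finset.Icc (-1 : ℤ) 1) : |l| ≤ 1 := by
  rw [Finset.mem_Icc] at hl
  exact abs_le.2 hl

private theorem AA1_const {T X C M : ℝ} {a : ℝ → ℂ} (hX : 0 < X) (hT : 0 < T)
    (h : Amp T X C a) (z : ℂ) (hz : ‖z‖ ≤ M) : Amp T X (4 * M * C) (fun x => z * a x) := by
  have hM : 0 ≤ M := (norm_nonneg _).trans hz
  refine AA1_mul (P := fun _ => z) hX hT h contDiffOn_const (fun _ _ => hz) ?_ ?_
  · intro x _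
    simp only [deriv_const, norm_zero]
    positivity
  · intro x _
    simp only [deriv_const', norm_zero]
    positivity

private noncomputable def AA1_cl (s θ : ℝ) (l : ℤ) : ℂ :=
  if l = 0 then 1 else s / 2 * cexp (I * ((l * θ : ℝ) : ℂ))

private theorem AA1_cl_norm {s : ℝ} (hs : |s| ≤ 1) (θ : ℝ) (l : ℤ) : ‖AA1_cl s θ l‖ ≤ 1 := by
  unfold AA1_cl
  split_ifs
  · simp
  · rw [norm_mul, Complex.norm_exp_I_mul_ofReal, mul_one, norm_div, Complex.norm_real,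
      Real.norm_eq_abs, Complex.norm_ofNat]
    linarith

private theorem AA1_slow {ϕ ρ : ℝ → ℝ} (hϕ : IsBump ϕ (1 / 2) (3 / 4) 3 4)
    (hρ : IsBump ρ (1 / 4) (3 / 8) (5 / 8) (3 / 4)) {k : ℕ} (hk : 4 ≤ k) :
    ∃ C : ℝ, 0 < C ∧ ∀ T s θ : ℝ, 1 ≤ T → |s| ≤ 1 → ∃ g : ℤ → ℝ → ℂ,
      (∀ l : ℤ, |l| ≤ 1 → Amp T (Xw k T) C (g l)) ∧
      ∀ x : ℝ, 0 < x → ((ϕ (x / T) * Kslow ρ k T s θ x : ℝ) : ℂ) =
        ∑ l ∈ Finset.Icc (-1 : ℤ) 1, g l x * e (ph k 0 (l * k) x) := by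
  obtain ⟨M, hM, hb⟩ := AA1_bump hϕ
  obtain ⟨C, hC, hA⟩ := Aamp_bound hρ hk
  refine ⟨4 * C * M, by positivity, ?_⟩
  intro T s θ hT hs
  obtain ⟨hX1, hX2, -⟩ := AA1_X hk hT
  have hX0 : 0 < Xw k T := by linarith
  have hT0 : 0 < T := by linarith
  have hmul : ∀ (c : ℂ) (r B : ℝ) (z : ℂ), ‖c‖ ≤ 1 → ‖z‖ ≤ B → ‖c * z‖ ≤ B := by
    intro c _ B z h1 h2
    rw [norm_mul]
    calc ‖c‖ * ‖z‖ ≤ 1 * ‖z‖ := by gcongr
      _ ≤ B := by rwa [one_mul]
  refine ⟨fun l x => (AA1_cl s θ l * Aamp ρ k T l x) * (ϕ (x / T) : ℂ), ?_, ?_⟩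
  · intro l hl
    obtain ⟨h1, h2⟩ := hA T hT l hl
    have hsub : ∀ x ∈ Icc (T / 2) (4 * T), x ∈ Icc (T / 4) (8 * T) := fun x hx =>
      ⟨by have := hx.1; linarith, by have := hx.2; linarith⟩
    have hder : deriv (fun x => AA1_cl s θ l * Aamp ρ k T l x) =
        fun x => AA1_cl s θ l * deriv (Aamp ρ k T l) x := by
      funext x
      exact deriv_const_mul_field _
    refine AA1_mul hX0 hT0 (hb T (Xw k T) hX1 hX2) (contDiffOn_const.mul h1) ?_ ?_ ?_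
    · intro x hx
      exact hmul _ 0 _ _ (AA1_cl_norm hs θ l) (h2 x (hsub x hx)).1
    · intro x hx
      rw [hder]
      exact hmul _ 0 _ _ (AA1_cl_norm hs θ l) (h2 x (hsub x hx)).2.1
    · intro x hx
      rw [hder, deriv_const_mul_field]
      exact hmul _ 0 _ _ (AA1_cl_norm hs θ l) (h2 x (hsub x hx)).2.2
  · intro x hx
    rw [ofReal_mul, Kslow_eq hρ hk hT s θ hx, AA1_sum3]
    have e0 : e (ph k 0 ((0 : ℤ) * k) x) = 1 := by
      unfold e ph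
      simp
    have e1 : e (ph k 0 ((1 : ℤ) * k) x) = cexp (I * (2 * π * k * x ^ (1 / (k : ℝ)) : ℝ)) := by
      unfold e ph
      congr 1
      push_cast
      ring
    have e2 : e (ph k 0 ((-1 : ℤ) * k) x) = cexp (-(I * (2 * π * k * x ^ (1 / (k : ℝ)) : ℝ))) := by
      unfold e ph
      congr 1
      push_cast
      ring
    rw [e0, e1, e2]
    have e3 : cexp (I * (2 * π * k * x ^ (1 / (k : ℝ)) + θ : ℝ)) =
        cexp (I * (2 * π * k * x ^ (1 / (k : ℝ)) : ℝ)) * cexp (I * (((1 : ℤ) * θ : ℝ) : ℂ)) := by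
      rw [← Complex.exp_add]
      congr 1
      push_cast
      ring
    have e4 : cexp (-(I * (2 * π * k * x ^ (1 / (k : ℝ)) + θ : ℝ))) =
        cexp (-(I * (2 * π * k * x ^ (1 / (k : ℝ)) : ℝ))) *
          cexp (I * (((-1 : ℤ) * θ : ℝ) : ℂ)) := by
      rw [← Complex.exp_add]
      congr 1
      push_cast
      ring
    rw [e3, e4]
    simp only [AA1_cl, if_neg (by decide : ¬ (-1 : ℤ) = 0), if_neg (by decide : ¬ (1 : ℤ) = 0),
      if_pos]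
    ring

private noncomputable def AA1_fj (φ : ℝ) (j : ℤ) : ℂ :=
  if j = 0 then 1 else 1 / 2 * cexp (I * ((j * φ : ℝ) : ℂ))

private theorem AA1_fj_norm (φ : ℝ) (j : ℤ) : ‖AA1_fj φ j‖ ≤ 1 := by
  unfold AA1_fj
  split_ifs
  · simp
  · rw [norm_mul, Complex.norm_exp_I_mul_ofReal, mul_one, norm_div, norm_one,
      Complex.norm_ofNat]
    norm_num

private theorem AA1_Kf {κ : ℝ} (hκ : 0 < κ) (φ x : ℝ) :
    (Kf κ φ x : ℂ) = ∑ j ∈ Finset.Icc (-1 : ℤ) 1, AA1_fj φ j * e (2 * (j * √κ) * √x) := by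
  rw [AA1_sum3]
  unfold Kf
  rw [Real.sqrt_mul hκ.le]
  push_cast
  rw [Complex.cos]
  have e0 : e (2 * ((0 : ℤ) * √κ) * √x) = 1 := by
    unfold e
    simp
  have e1 : cexp ((4 * π * (√κ * √x) + φ) * I) =
      e (2 * ((1 : ℤ) * √κ) * √x) * cexp (I * (((1 : ℤ) * φ : ℝ) : ℂ)) := by
    unfold e
    rw [← Complex.exp_add]
    congr 1
    push_cast
    ring
  have e2 : cexp (-(4 * π * (√κ * √x) + φ) * I) =
      e (2 * ((-1 : ℤ) * √κ) * √x) * cexp (I * (((-1 : ℤ) * φ : ℝ) : ℂ)) := by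
    unfold e
    rw [← Complex.exp_add]
    congr 1
    push_cast
    ring
  simp only [Int.cast_zero, Int.cast_one, Int.cast_neg] at e0 e1 e2 ⊢
  rw [e0, e1, e2]
  simp only [AA1_fj, if_neg (by decide : ¬ (-1 : ℤ) = 0), if_neg (by decide : ¬ (1 : ℤ) = 0),
    if_pos, Int.cast_one, Int.cast_neg]
  ring

private theorem AA1_ph (k : ℕ) (a b : ℝ) (x : ℝ) :
    e (ph k a b x) = e (2 * a * √x) * e (ph k 0 b x) := by
  rw [← AA1_e_add]
  unfold ph
  congr 1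
  ring

/-- **AA1.** `K(x) = ∑_{j,l = -1,0,1} g_{j,l}(x) e(2j√κ √x + l k x^{1/k})`, amplitudes
`g_{j,l}(x) = ϕ(x/T) f_j B_l(x)`. -/
theorem KK_expand {ϕ ρ : ℝ → ℝ} (hϕ : IsBump ϕ (1 / 2) (3 / 4) 3 4)
    (hρ : IsBump ρ (1 / 4) (3 / 8) (5 / 8) (3 / 4)) {κ : ℝ} (hκ : 0 < κ) {k : ℕ} (hk : 4 ≤ k) :
    ∃ C : ℝ, 0 < C ∧ ∀ T s θ φ : ℝ, 1 ≤ T → |s| ≤ 1 → ∃ g : ℤ → ℤ → ℝ → ℂ,
      (∀ j l : ℤ, |j| ≤ 1 → |l| ≤ 1 → Amp T (Xw k T) C (g j l)) ∧
      ∀ x : ℝ, 0 < x → (KK ϕ ρ κ φ k T s θ x : ℂ) =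
        ∑ j ∈ Finset.Icc (-1 : ℤ) 1, ∑ l ∈ Finset.Icc (-1 : ℤ) 1,
          g j l x * e (ph k (j * √κ) (l * k) x) := by
  obtain ⟨C, hC, h⟩ := AA1_slow hϕ hρ hk
  refine ⟨4 * 1 * C, by positivity, ?_⟩
  intro T s θ φ hT hs
  obtain ⟨g, hg1, hg2⟩ := h T s θ hT hs
  have hX0 : 0 < Xw k T := by linarith [(AA1_X hk hT).1]
  refine ⟨fun j l x => AA1_fj φ j * g l x, ?_, ?_⟩
  · intro j l _ hl
    exact AA1_const hX0 (by linarith) (hg1 l hl) _ (AA1_fj_norm φ j)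
  · intro x hx
    have h1 : (KK ϕ ρ κ φ k T s θ x : ℂ) =
        (Kf κ φ x : ℂ) * ((ϕ (x / T) * Kslow ρ k T s θ x : ℝ) : ℂ) := by
      unfold KK
      push_cast
      ring
    rw [h1, hg2 x hx, AA1_Kf hκ, Finset.sum_mul_sum]
    refine Finset.sum_congr rfl fun j _ => Finset.sum_congr rfl fun l _ => ?_
    rw [AA1_ph k (j * √κ)]
    ring
--END AA1

--BEGIN AA2
/-- **AA2.** Only the slow part: `ϕ(x/T) K_slow(x) = ∑_{l} g_l(x) e(l k x^{1/k})`. -/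
theorem slow_expand {ϕ ρ : ℝ → ℝ} (hϕ : IsBump ϕ (1 / 2) (3 / 4) 3 4)
    (hρ : IsBump ρ (1 / 4) (3 / 8) (5 / 8) (3 / 4)) {k : ℕ} (hk : 4 ≤ k) :
    ∃ C : ℝ, 0 < C ∧ ∀ T s θ : ℝ, 1 ≤ T → |s| ≤ 1 → ∃ g : ℤ → ℝ → ℂ,
      (∀ l : ℤ, |l| ≤ 1 → Amp T (Xw k T) C (g l)) ∧
      ∀ x : ℝ, 0 < x → ((ϕ (x / T) * Kslow ρ k T s θ x : ℝ) : ℂ) =
        ∑ l ∈ Finset.Icc (-1 : ℤ) 1, g l x * e (ph k 0 (l * k) x) :=
  AA1_slow hϕ hρ hk
--END AA2

--BEGIN AA3
private theorem AA3_rpow_le {B γ y : ℝ} (hγ : |γ| ≤ B) (h1 : 1 / 2 ≤ y) (h2 : y ≤ 4) :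
    y ^ γ ≤ 4 ^ B := by
  have hy : 0 < y := by linarith
  have h4 : |Real.log y| ≤ Real.log 4 := by
    rw [abs_le]
    constructor
    · have : -Real.log 4 = Real.log (1 / 4) := by
        rw [one_div, Real.log_inv]
      rw [this]
      exact Real.log_le_log (by norm_num) (by linarith)
    · exact Real.log_le_log hy h2
  have hB : 0 ≤ B := (abs_nonneg _).trans hγ
  rw [Real.rpow_def_of_pos hy, Real.rpow_def_of_pos (by norm_num : (0 : ℝ) < 4)]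
  apply Real.exp_le_exp.2
  calc Real.log y * γ ≤ |Real.log y * γ| := le_abs_self _
    _ = |Real.log y| * |γ| := abs_mul _ _
    _ ≤ Real.log 4 * B := mul_le_mul h4 hγ (abs_nonneg _) (Real.log_nonneg (by norm_num))

private theorem AA3_der {T β x : ℝ} (hT : 0 < T) (hx : 0 < x) :
    HasDerivAt (fun x : ℝ => (((x / T) ^ β : ℝ) : ℂ)) ((β * (x / T) ^ (β - 1) * (1 / T) : ℝ) : ℂ)
      x := by
  refine HasDerivAt.ofReal_comp (f := fun x => (x / T) ^ β) ?_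
  have h1 : HasDerivAt (fun y : ℝ => y / T) (1 / T) x := (hasDerivAt_id x).div_const T
  have h2 := (Real.hasDerivAt_rpow_const (x := x / T) (p := β)
    (Or.inl (div_pos hx hT).ne')).comp x h1
  exact h2

private theorem AA3_pow {B : ℝ} (hB : 0 ≤ B) : ∃ M : ℝ, 0 < M ∧ ∀ β : ℝ, |β| ≤ B →
    ∀ T X : ℝ, 1 ≤ X → X ≤ T → ContDiffOn ℝ 2 (fun x : ℝ => (((x / T) ^ β : ℝ) : ℂ)) (Ioi 0) ∧
    ∀ x ∈ Icc (T / 2) (4 * T), ‖(((x / T) ^ β : ℝ) : ℂ)‖ ≤ M ∧
      ‖deriv (fun x : ℝ => (((x / T) ^ β : ℝ) : ℂ)) x‖ ≤ M / X ∧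
      ‖deriv (deriv (fun x : ℝ => (((x / T) ^ β : ℝ) : ℂ))) x‖ ≤ M / X ^ 2 := by
  refine ⟨(B + 1) ^ 2 * 4 ^ (B + 2), by positivity, ?_⟩
  intro β hβ T X hX hXT
  have hX0 : 0 < X := by linarith
  have hT0 : 0 < T := by linarith
  have hTX : 1 / T ≤ 1 / X := one_div_le_one_div_of_le hX0 hXT
  constructor
  · have h1 : ContDiffOn ℝ 2 (fun x : ℝ => (x / T) ^ β) (Ioi 0) := by
      intro x hx
      have hx' : (0 : ℝ) < x := hx
      exact ((contDiff_id.div_const T).contDiffAt.rpow_const_of_ne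
        (div_pos hx' hT0).ne').contDiffWithinAt
    exact Complex.ofRealCLM.contDiff.comp_contDiffOn h1
  · intro x hx
    have hx0 : 0 < x := lt_of_lt_of_le (by linarith) hx.1
    have h1 : 1 / 2 ≤ x / T := by rw [le_div_iff₀ hT0]; linarith [hx.1]
    have h2 : x / T ≤ 4 := by rw [div_le_iff₀ hT0]; linarith [hx.2]
    have hβ2 := abs_le.1 hβ
    have hp : ∀ γ : ℝ, |γ| ≤ B + 2 → (x / T) ^ γ ≤ 4 ^ (B + 2) := fun γ hγ =>
      AA3_rpow_le hγ h1 h2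
    have hn : ∀ γ : ℝ, 0 ≤ (x / T) ^ γ := fun γ => Real.rpow_nonneg (by linarith) γ
    have h4 : (0 : ℝ) ≤ 4 ^ (B + 2) := by positivity
    have hb1 : |β - 1| ≤ B + 1 := by rw [abs_le]; constructor <;> linarith
    refine ⟨?_, ?_, ?_⟩
    · rw [Complex.norm_real, Real.norm_of_nonneg (hn _)]
      calc (x / T) ^ β ≤ 4 ^ (B + 2) := hp _ (hβ.trans (by linarith))
        _ = 1 * 4 ^ (B + 2) := (one_mul _).symm
        _ ≤ (B + 1) ^ 2 * 4 ^ (B + 2) := by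
            apply mul_le_mul_of_nonneg_right _ h4
            nlinarith
    · rw [(AA3_der hT0 hx0).deriv, Complex.norm_real, norm_mul, norm_mul,
        Real.norm_of_nonneg (hn _), Real.norm_of_nonneg (by positivity : (0 : ℝ) ≤ 1 / T),
        Real.norm_eq_abs]
      calc |β| * (x / T) ^ (β - 1) * (1 / T) ≤ (B + 1) ^ 2 * 4 ^ (B + 2) * (1 / X) := by
            apply mul_le_mul (mul_le_mul (hβ.trans (by nlinarith)) (hp _ (hb1.trans (by linarith)))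
              (hn _) (by positivity)) hTX (by positivity) (by positivity)
        _ = (B + 1) ^ 2 * 4 ^ (B + 2) / X := by ring
    · have hd : deriv (fun x : ℝ => (((x / T) ^ β : ℝ) : ℂ)) =ᶠ[𝓝 x]
          fun x => ((β * (1 / T) : ℝ) : ℂ) * (((x / T) ^ (β - 1) : ℝ) : ℂ) := by
        filter_upwards [Ioi_mem_nhds hx0] with y hy
        rw [(AA3_der hT0 hy).deriv]
        push_cast
        ring
      rw [hd.deriv_eq, deriv_const_mul_field, (AA3_der hT0 hx0).deriv, ← ofReal_mul,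
        Complex.norm_real, norm_mul, norm_mul, norm_mul, norm_mul,
        Real.norm_of_nonneg (hn _), Real.norm_of_nonneg (by positivity : (0 : ℝ) ≤ 1 / T),
        Real.norm_eq_abs, Real.norm_eq_abs]
      have hb2 : |β - 1 - 1| ≤ B + 2 := by rw [abs_le]; constructor <;> linarith
      calc |β| * (1 / T) * (|β - 1| * (x / T) ^ (β - 1 - 1) * (1 / T)) ≤
            (B + 1) * (1 / X) * ((B + 1) * 4 ^ (B + 2) * (1 / X)) := by
            apply mul_le_mul (mul_le_mul (hβ.trans (by linarith)) hTX (by positivity)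
              (by positivity)) (mul_le_mul (mul_le_mul hb1 (hp _ hb2)
              (hn _) (by positivity)) hTX (by positivity) (by positivity)) _ (by positivity)
            have := hn (β - 1 - 1)
            positivity
        _ = (B + 1) ^ 2 * 4 ^ (B + 2) / X ^ 2 := by ring

/-- Multiplication of an amplitude by a power, uniform in the exponent. -/
private theorem AA3_unif {B : ℝ} (hB : 0 ≤ B) : ∃ M : ℝ, 0 < M ∧ ∀ β : ℝ, |β| ≤ B →
    ∀ (T X C : ℝ) (g : ℝ → ℂ), 1 ≤ X → X ≤ T → Amp T X C g →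
      Amp T X (4 * M * C) (fun x => (((x / T) ^ β : ℝ) : ℂ) * g x) := by
  obtain ⟨M, hM, h⟩ := AA3_pow hB
  refine ⟨M, hM, ?_⟩
  intro β hβ T X C g hX hXT hg
  obtain ⟨h1, h2⟩ := h β hβ T X hX hXT
  exact AA1_mul (by linarith) (by linarith) hg h1 (fun x hx => (h2 x hx).1)
    (fun x hx => (h2 x hx).2.1) (fun x hx => (h2 x hx).2.2)

/-- **AA3.** Multiplication of an amplitude by a power `(x/T)^β`. -/
theorem Amp_rpow (C β : ℝ) : ∃ C' : ℝ, 0 < C' ∧ ∀ (T X : ℝ) (g : ℝ → ℂ), 1 ≤ X → X ≤ T →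
    Amp T X C g → Amp T X C' (fun x => (((x / T) ^ β : ℝ) : ℂ) * g x) := by
  obtain ⟨M, hM, h⟩ := AA3_unif (abs_nonneg β)
  refine ⟨4 * M * |C| + 1, by positivity, ?_⟩
  intro T X g hX hXT hg
  refine AA1_mono (h β le_rfl T X C g hX hXT hg) (by linarith) ?_
  have h1 : M * C ≤ M * |C| := mul_le_mul_of_nonneg_left (le_abs_self C) hM.le
  linarith
--END AA3

--BEGIN AA4
/-- **AA4.** Sums and constant multiples of amplitudes. -/
theorem Amp_lin {T X C D : ℝ} {g h : ℝ → ℂ} (hX : 0 < X) (hg : Amp T X C g) (hh : Amp T X D h)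
    (z : ℂ) : Amp T X (C + ‖z‖ * D) (fun x => g x + z * h x) := by
  have hd1 : ∀ x, HasDerivAt (fun x => g x + z * h x) (deriv g x + z * deriv h x) x := fun x =>
    (AA1_d1 hg.smooth x).add ((AA1_d1 hh.smooth x).const_mul z)
  have hd1' : deriv (fun x => g x + z * h x) = fun x => deriv g x + z * deriv h x :=
    funext fun x => (hd1 x).deriv
  have hd2 : ∀ x, HasDerivAt (deriv (fun x => g x + z * h x))
      (deriv (deriv g) x + z * deriv (deriv h) x) x := by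
    intro x
    rw [hd1']
    exact (AA1_d2 hg.smooth x).add ((AA1_d2 hh.smooth x).const_mul z)
  have hn : ∀ (a b : ℂ) (A B : ℝ), ‖a‖ ≤ A → ‖b‖ ≤ B → ‖a + z * b‖ ≤ A + ‖z‖ * B := by
    intro a b A B ha hb
    calc ‖a + z * b‖ ≤ ‖a‖ + ‖z * b‖ := norm_add_le _ _
      _ = ‖a‖ + ‖z‖ * ‖b‖ := by rw [norm_mul]
      _ ≤ A + ‖z‖ * B := by gcongr
  refine ⟨hg.smooth.add (contDiff_const.mul hh.smooth), ?_, ?_, ?_, ?_⟩
  · intro x hx
    rw [hg.supp x hx, hh.supp x hx]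
    simp
  · intro x
    exact hn _ _ _ _ (hg.b0 x) (hh.b0 x)
  · intro x
    rw [(hd1 x).deriv]
    refine (hn _ _ _ _ (hg.b1 x) (hh.b1 x)).trans (le_of_eq ?_)
    ring
  · intro x
    rw [(hd2 x).deriv]
    refine (hn _ _ _ _ (hg.b2 x) (hh.b2 x)).trans (le_of_eq ?_)
    ring
--END AA4

--BEGIN AA5
private noncomputable def AA5_D (κ : ℝ) (k : ℕ) (g : ℤ → ℤ → ℝ → ℂ) (x : ℝ) : ℂ :=
  ∑ j ∈ Finset.Icc (-1 : ℤ) 1, ∑ l ∈ Finset.Icc (-1 : ℤ) 1,
    (deriv (g j l) x + 2 * π * I * ((j * √κ / √x + l * x ^ (1 / (k : ℝ) - 1) : ℝ) : ℂ) * g j l x) *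
      e (ph k (j * √κ) (l * k) x)

private theorem AA5_e_deriv {f : ℝ → ℝ} {f' x : ℝ} (h : HasDerivAt f f' x) :
    HasDerivAt (fun x => e (f x)) (2 * π * I * (f' : ℂ) * e (f x)) x := by
  unfold e
  have h1 : HasDerivAt (fun x => (f x : ℂ)) (f' : ℂ) x := h.ofReal_comp
  have h2 := (h1.const_mul (2 * π * I : ℂ)).cexp
  refine h2.congr_deriv ?_
  ring

private theorem AA5_ph {k : ℕ} (hk : 4 ≤ k) (a : ℝ) (l : ℤ) {x : ℝ} (hx : 0 < x) :
    HasDerivAt (ph k a (l * k)) (a / √x + l * x ^ (1 / (k : ℝ) - 1)) x := by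
  have h := (ph_deriv k hk a (l * k) hx).1
  have hk0 : (k : ℝ) ≠ 0 := by
    have : 0 < k := by omega
    positivity
  have h2 : (l : ℝ) * k / k = l := mul_div_cancel_right₀ _ hk0
  rwa [h2] at h

private theorem AA5_hasDeriv {ϕ ρ : ℝ → ℝ} {κ φ : ℝ} {k : ℕ} (hk : 4 ≤ k) {T s θ X C : ℝ}
    {g : ℤ → ℤ → ℝ → ℂ} (hg : ∀ j l : ℤ, |j| ≤ 1 → |l| ≤ 1 → Amp T X C (g j l))
    (hexp : ∀ x : ℝ, 0 < x → (KK ϕ ρ κ φ k T s θ x : ℂ) =
        ∑ j ∈ Finset.Icc (-1 : ℤ) 1, ∑ l ∈ Finset.Icc (-1 : ℤ) 1,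
          g j l x * e (ph k (j * √κ) (l * k) x)) {x : ℝ} (hx : 0 < x) :
    HasDerivAt (KK ϕ ρ κ φ k T s θ) (AA5_D κ k g x).re x ∧
      ((AA5_D κ k g x).re : ℂ) = AA5_D κ k g x := by
  have h1 : HasDerivAt (fun x => ∑ j ∈ Finset.Icc (-1 : ℤ) 1, ∑ l ∈ Finset.Icc (-1 : ℤ) 1,
          g j l x * e (ph k (j * √κ) (l * k) x)) (AA5_D κ k g x) x := by
    unfold AA5_D
    refine HasDerivAt.fun_sum fun j hj => HasDerivAt.fun_sum fun l hl => ?_
    have h2 := (AA1_d1 (hg j l (AA1_int hj) (AA1_int hl)).smooth x).mul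
      (AA5_e_deriv (AA5_ph hk (j * √κ) l hx))
    refine h2.congr_deriv ?_
    ring
  have h2 : HasDerivAt (fun y => (KK ϕ ρ κ φ k T s θ y : ℂ)) (AA5_D κ k g x) x := by
    refine h1.congr_of_eventuallyEq ?_
    filter_upwards [Ioi_mem_nhds hx] with y hy
    exact hexp y hy
  have h3 : HasDerivAt (KK ϕ ρ κ φ k T s θ) (AA5_D κ k g x).re x := by
    have h4 := Complex.reCLM.hasFDerivAt.comp_hasDerivAt x h2
    exact h4
  exact ⟨h3, h3.ofReal_comp.unique h2⟩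

private theorem AA5_sum9 {f : ℤ → ℤ → ℂ} {B : ℝ} (h : ∀ j l : ℤ, |j| ≤ 1 → |l| ≤ 1 → ‖f j l‖ ≤ B) :
    ‖∑ j ∈ Finset.Icc (-1 : ℤ) 1, ∑ l ∈ Finset.Icc (-1 : ℤ) 1, f j l‖ ≤ 9 * B := by
  have h1 : ∀ j ∈ Finset.Icc (-1 : ℤ) 1, ‖∑ l ∈ Finset.Icc (-1 : ℤ) 1, f j l‖ ≤ 3 * B := by
    intro j hj
    refine (norm_sum_le_of_le _ fun l hl => h j l (AA1_int hj) (AA1_int hl)).trans (le_of_eq ?_)
    simp
  refine (norm_sum_le_of_le _ h1).trans (le_of_eq ?_)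
  simp
  ring

private theorem AA5_split {T x : ℝ} (hT : 0 < T) (hx : 0 < x) (γ : ℝ) :
    x ^ γ = T ^ γ * (x / T) ^ γ := by
  rw [← Real.mul_rpow hT.le (div_pos hx hT).le, mul_div_cancel₀ _ hT.ne']

private theorem AA5_sqrt {T x : ℝ} (hT : 0 < T) (hx : 0 < x) :
    1 / √x = T ^ (-(1 / 2) : ℝ) * (x / T) ^ (-(1 / 2) : ℝ) := by
  rw [← AA5_split hT hx, Real.rpow_neg hx.le, ← Real.sqrt_eq_rpow, one_div]

private theorem AA5_k {k : ℕ} (hk : 4 ≤ k) {T : ℝ} (hT : 1 ≤ T) :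
    |1 / (k : ℝ) - 1| ≤ 1 ∧ T ^ (1 / (k : ℝ) - 1) ≤ T ^ (-(1 / 2) : ℝ) := by
  have hk' : (4 : ℝ) ≤ k := by exact_mod_cast hk
  have h1 : 0 ≤ 1 / (k : ℝ) := by positivity
  have h2 : 1 / (k : ℝ) ≤ 1 / 4 := one_div_le_one_div_of_le (by norm_num) hk'
  refine ⟨?_, Real.rpow_le_rpow_of_exponent_le hT (by linarith)⟩
  rw [abs_le]
  constructor <;> linarith

private theorem AA5_phb {κ : ℝ} {k : ℕ} (hk : 4 ≤ k) {T : ℝ} (hT : 1 ≤ T) {j l : ℤ}
    (hj : |j| ≤ 1) (hl : |l| ≤ 1) {x : ℝ} (hx : x ∈ Icc (T / 2) (4 * T)) :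
    |j * √κ / √x + l * x ^ (1 / (k : ℝ) - 1)| ≤ 4 * (√κ + 1) * T ^ (-(1 / 2) : ℝ) := by
  have hT0 : 0 < T := by linarith
  have hx0 : 0 < x := lt_of_lt_of_le (by linarith) hx.1
  have h1 : 1 / 2 ≤ x / T := by rw [le_div_iff₀ hT0]; linarith [hx.1]
  have h2 : x / T ≤ 4 := by rw [div_le_iff₀ hT0]; linarith [hx.2]
  obtain ⟨h3, h4⟩ := AA5_k hk hT
  have h5 : (x / T) ^ (-(1 / 2) : ℝ) ≤ 4 := by
    have := AA3_rpow_le (B := 1) (γ := -(1 / 2)) (by rw [abs_neg]; norm_num [abs_of_pos]) h1 h2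
    simpa using this
  have h6 : (x / T) ^ (1 / (k : ℝ) - 1) ≤ 4 := by
    have := AA3_rpow_le (B := 1) h3 h1 h2
    simpa using this
  have hj' : |(j : ℝ)| ≤ 1 := by exact_mod_cast hj
  have hl' : |(l : ℝ)| ≤ 1 := by exact_mod_cast hl
  have hs0 : 0 ≤ √κ := Real.sqrt_nonneg _
  have hTn : 0 ≤ T ^ (-(1 / 2) : ℝ) := by positivity
  have hn5 : 0 ≤ (x / T) ^ (-(1 / 2) : ℝ) := Real.rpow_nonneg (by linarith) _
  have hn6 : 0 ≤ (x / T) ^ (1 / (k : ℝ) - 1) := Real.rpow_nonneg (by linarith) _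
  have e1 : (j : ℝ) * √κ / √x = j * (√κ * (T ^ (-(1 / 2) : ℝ) * (x / T) ^ (-(1 / 2) : ℝ))) := by
    rw [← AA5_sqrt hT0 hx0]
    ring
  have b1 : |(j : ℝ) * √κ / √x| ≤ 1 * (√κ * (T ^ (-(1 / 2) : ℝ) * 4)) := by
    rw [e1, abs_mul]
    apply mul_le_mul hj' _ (abs_nonneg _) zero_le_one
    rw [abs_of_nonneg (by positivity)]
    gcongr
  have b2 : |(l : ℝ) * x ^ (1 / (k : ℝ) - 1)| ≤ 1 * (T ^ (-(1 / 2) : ℝ) * 4) := by
    rw [abs_mul, AA5_split hT0 hx0]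
    apply mul_le_mul hl' _ (abs_nonneg _) zero_le_one
    rw [abs_of_nonneg (by positivity)]
    exact mul_le_mul h4 h6 hn6 hTn
  calc _ ≤ |(j : ℝ) * √κ / √x| + |(l : ℝ) * x ^ (1 / (k : ℝ) - 1)| := abs_add_le _ _
    _ ≤ 1 * (√κ * (T ^ (-(1 / 2) : ℝ) * 4)) + 1 * (T ^ (-(1 / 2) : ℝ) * 4) := add_le_add b1 b2
    _ = 4 * (√κ + 1) * T ^ (-(1 / 2) : ℝ) := by ring

private theorem AA5_Xinv {k : ℕ} (hk : 4 ≤ k) {T : ℝ} (hT : 1 ≤ T) :
    1 / Xw k T ≤ T ^ (-(1 / 2) : ℝ) := by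
  have h := (AA1_X hk hT).2.2
  have hT0 : 0 < T := by linarith
  rw [Real.rpow_neg hT0.le, ← one_div]
  exact one_div_le_one_div_of_le (by positivity) h

private theorem AA5_zero {ϕ : ℝ → ℝ} (hϕ : IsBump ϕ (1 / 2) (3 / 4) 3 4) {y : ℝ}
    (hy : y ∉ Ioo (1 / 2) 4) : ϕ y = 0 := by
  have hcl : IsClosed {z | ϕ z = 0} := isClosed_eq hϕ.smooth.continuous continuous_const
  have h1 : Iio (1 / 2 : ℝ) ⊆ {z | ϕ z = 0} := fun z hz =>
    hϕ.zero z fun h => absurd h.1 (not_le.2 hz)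
  have h2 : Ioi (4 : ℝ) ⊆ {z | ϕ z = 0} := fun z hz =>
    hϕ.zero z fun h => absurd h.2 (not_le.2 hz)
  have h3 := hcl.closure_subset_iff.2 h1
  have h4 := hcl.closure_subset_iff.2 h2
  rw [closure_Iio] at h3
  rw [closure_Ioi] at h4
  rcases le_or_gt y (1 / 2) with h5 | h5
  · exact h3 h5
  · rcases le_or_gt 4 y with h6 | h6
    · exact h4 h6
    · exact absurd ⟨h5, h6⟩ hy

private theorem AA5_Kf (κ φ x : ℝ) : 0 ≤ Kf κ φ x ∧ Kf κ φ x ≤ 2 := by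
  unfold Kf
  constructor
  · linarith [Real.neg_one_le_cos (4 * π * √(κ * x) + φ)]
  · linarith [Real.cos_le_one (4 * π * √(κ * x) + φ)]

/-- **AA5.** `K` is differentiable, `K' ≪ T^{-1/2}`, and `0 ≤ K ≤ C`. -/
theorem KK_deriv_bound {ϕ ρ : ℝ → ℝ} (hϕ : IsBump ϕ (1 / 2) (3 / 4) 3 4)
    (hρ : IsBump ρ (1 / 4) (3 / 8) (5 / 8) (3 / 4)) {κ : ℝ} (hκ : 0 < κ) {k : ℕ} (hk : 4 ≤ k) :
    ∃ C : ℝ, 0 < C ∧ ∀ T s θ φ : ℝ, 1 ≤ T → |s| ≤ 1 → ∀ x : ℝ, 0 < x →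
      DifferentiableAt ℝ (KK ϕ ρ κ φ k T s θ) x ∧
      ContinuousAt (deriv (KK ϕ ρ κ φ k T s θ)) x ∧
      |deriv (KK ϕ ρ κ φ k T s θ) x| ≤ C * T ^ (-(1 / 2) : ℝ) ∧
      0 ≤ KK ϕ ρ κ φ k T s θ x ∧ KK ϕ ρ κ φ k T s θ x ≤ C ∧
      (x ∉ Ioo (T / 2) (4 * T) → KK ϕ ρ κ φ k T s θ x = 0) := by
  obtain ⟨C, hC, hE⟩ := KK_expand hϕ hρ hκ hk
  refine ⟨9 * (C + 2 * π * (4 * (√κ + 1)) * C), by positivity, ?_⟩
  intro T s θ φ hT hs x hx
  obtain ⟨g, hg, hexp⟩ := hE T s θ φ hT hs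
  have hT0 : 0 < T := by linarith
  have hTn : 0 < T ^ (-(1 / 2) : ℝ) := by positivity
  have hder := fun (y : ℝ) (hy : 0 < y) => AA5_hasDeriv hk hg hexp hy
  have hX0 : 0 < Xw k T := by linarith [(AA1_X hk hT).1]
  have hpi : 0 < π := Real.pi_pos
  have hs0 : 0 ≤ √κ := Real.sqrt_nonneg _
  refine ⟨(hder x hx).1.differentiableAt, ?_, ?_, ?_, ?_, ?_⟩
  · have h1 : deriv (KK ϕ ρ κ φ k T s θ) =ᶠ[𝓝 x] fun y => (AA5_D κ k g y).re := by
      filter_upwards [Ioi_mem_nhds hx] with y hy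
      exact (hder y hy).1.deriv
    have h2 : ContinuousAt (AA5_D κ k g) x := by
      unfold AA5_D
      refine tendsto_finsetSum _ fun j hj => tendsto_finsetSum _ fun l hl => ?_
      have hgjl := hg j l (AA1_int hj) (AA1_int hl)
      have c1 : ContinuousAt (deriv (g j l)) x := (AA1_c1 hgjl.smooth).continuous.continuousAt
      have c2 : ContinuousAt (g j l) x := hgjl.smooth.continuous.continuousAt
      have c3 : ContinuousAt (fun x => ((j * √κ / √x + l * x ^ (1 / (k : ℝ) - 1) : ℝ) : ℂ)) x := by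
        refine Complex.continuous_ofReal.continuousAt.comp ?_
        refine ContinuousAt.add ?_ ?_
        · exact continuousAt_const.div Real.continuous_sqrt.continuousAt (Real.sqrt_pos.2 hx).ne'
        · exact continuousAt_const.mul (Real.continuousAt_rpow_const _ _ (Or.inl hx.ne'))
      have c4 : ContinuousAt (fun x => e (ph k (j * √κ) (l * k) x)) x :=
        (AA5_e_deriv (AA5_ph hk (j * √κ) l hx)).continuousAt
      exact (c1.add ((continuousAt_const.mul c3).mul c2)).mul c4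
    exact (Complex.continuous_re.continuousAt.comp h2).congr h1.symm
  · rw [(hder x hx).1.deriv]
    refine (Complex.abs_re_le_norm _).trans ?_
    rw [mul_assoc]
    refine AA5_sum9 fun j l hj hl => ?_
    rw [norm_mul, AA1_e_norm, mul_one]
    have ha := hg j l hj hl
    by_cases hxi : x ∈ Icc (T / 2) (4 * T)
    · have b1 : ‖deriv (g j l) x‖ ≤ C * T ^ (-(1 / 2) : ℝ) := by
        refine (ha.b1 x).trans ?_
        rw [div_eq_mul_one_div]
        exact mul_le_mul_of_nonneg_left (AA5_Xinv hk hT) hC.le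
      have b2 : ‖2 * π * I * ((j * √κ / √x + l * x ^ (1 / (k : ℝ) - 1) : ℝ) : ℂ) * g j l x‖ ≤
          2 * π * (4 * (√κ + 1) * T ^ (-(1 / 2) : ℝ)) * C := by
        rw [norm_mul, norm_mul, Complex.norm_real, Real.norm_eq_abs]
        have h7 : ‖(2 * π * I : ℂ)‖ = 2 * π := by
          simp [abs_of_pos hpi]
        rw [h7]
        have h8 := AA5_phb (κ := κ) hk hT hj hl hxi
        apply mul_le_mul (mul_le_mul_of_nonneg_left h8 (by positivity)) (ha.b0 x) (norm_nonneg _)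
        positivity
      calc _ ≤ C * T ^ (-(1 / 2) : ℝ) + 2 * π * (4 * (√κ + 1) * T ^ (-(1 / 2) : ℝ)) * C :=
            (norm_add_le _ _).trans (add_le_add b1 b2)
        _ = (C + 2 * π * (4 * (√κ + 1)) * C) * T ^ (-(1 / 2) : ℝ) := by ring
    · obtain ⟨z0, z1, _⟩ := AA1_out ha hxi
      rw [z0, z1]
      simp only [mul_zero, add_zero, norm_zero]
      positivity
  · unfold KK
    exact mul_nonneg (mul_nonneg (hϕ.nonneg _) (AA5_Kf _ _ _).1) (Kslow_nonneg hρ hT hs θ hx)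
  · have h1 : KK ϕ ρ κ φ k T s θ x ≤ ‖(KK ϕ ρ κ φ k T s θ x : ℂ)‖ := by
      rw [Complex.norm_real]
      exact le_abs_self _
    refine h1.trans ?_
    rw [hexp x hx]
    refine (AA5_sum9 (B := C) fun j l hj hl => ?_).trans ?_
    · rw [norm_mul, AA1_e_norm, mul_one]
      exact (hg j l hj hl).b0 x
    · have : 0 ≤ 2 * π * (4 * (√κ + 1)) * C := by positivity
      linarith
  · intro hxo
    have h1 : ϕ (x / T) = 0 := by
      refine AA5_zero hϕ fun h => hxo ⟨?_, ?_⟩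
      · have := h.1
        rw [lt_div_iff₀ hT0] at this
        linarith
      · have := h.2
        rw [div_lt_iff₀ hT0] at this
        linarith
    unfold KK
    rw [h1]
    ring
--END AA5

--BEGIN AA6
/-- **AA6.** Mass of `K` and its size outside `[T, T+X]`. -/
theorem KK_mass {ϕ ρ : ℝ → ℝ} (hϕ : IsBump ϕ (1 / 2) (3 / 4) 3 4)
    (hρ : IsBump ρ (1 / 4) (3 / 8) (5 / 8) (3 / 4)) {κ : ℝ} (hκ : 0 < κ) {k : ℕ} (hk : 4 ≤ k) :
    ∃ C T0 : ℝ, 0 < C ∧ 1 ≤ T0 ∧ ∀ T s θ φ : ℝ, T0 ≤ T → |s| ≤ 1 →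
      (∫ x in (T / 2)..(4 * T), KK ϕ ρ κ φ k T s θ x) ≤ C * Xw k T ∧
      ∀ x ∈ Icc (T / 2) (4 * T), x ∉ Icc T (T + Xw k T) →
        KK ϕ ρ κ φ k T s θ x ≤ 2 * Real.exp (-(T ^ (1 / (2 * (k : ℝ))))) := by
  obtain ⟨C1, hC1, hD⟩ := KK_deriv_bound hϕ hρ hκ hk
  obtain ⟨C2, hC2, hM⟩ := Kslow_mass hρ hk
  obtain ⟨T0, hT0, hTail⟩ := Kslow_tail hρ hk
  refine ⟨2 * C2, T0, by positivity, hT0, ?_⟩
  intro T s θ φ hT hs
  have hT1 : 1 ≤ T := hT0.trans hT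
  have hle : ∀ x : ℝ, 0 < x → KK ϕ ρ κ φ k T s θ x ≤ 2 * Kslow ρ k T s θ x := by
    intro x hx
    have h1 : 0 ≤ Kslow ρ k T s θ x := Kslow_nonneg hρ hT1 hs θ hx
    have h2 := AA5_Kf κ φ x
    have h3 : ϕ (x / T) * Kf κ φ x ≤ 1 * 2 :=
      mul_le_mul (hϕ.le_one _) h2.2 h2.1 zero_le_one
    unfold KK
    calc ϕ (x / T) * Kf κ φ x * Kslow ρ k T s θ x ≤ 1 * 2 * Kslow ρ k T s θ x :=
          mul_le_mul_of_nonneg_right h3 h1
      _ = 2 * Kslow ρ k T s θ x := by ring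
  constructor
  · obtain ⟨hi, hm⟩ := hM T hT1 s θ hs
    have hlt : T / 2 ≤ 4 * T := by linarith
    have hsub : Ioc (T / 2) (4 * T) ⊆ Ioi 0 := fun x hx => lt_trans (by linarith) hx.1
    have hi2 : IntegrableOn (Kslow ρ k T s θ) (Ioc (T / 2) (4 * T)) := hi.mono_set hsub
    have hcont : ContinuousOn (KK ϕ ρ κ φ k T s θ) (Icc (T / 2) (4 * T)) := fun x hx =>
      (hD T s θ φ hT1 hs x (lt_of_lt_of_le (by linarith) hx.1)).1.continuousAt.continuousWithinAt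
    have hi3 : IntegrableOn (KK ϕ ρ κ φ k T s θ) (Ioc (T / 2) (4 * T)) :=
      (hcont.integrableOn_Icc).mono_set Ioc_subset_Icc_self
    rw [intervalIntegral.integral_of_le hlt]
    calc ∫ x in Ioc (T / 2) (4 * T), KK ϕ ρ κ φ k T s θ x ≤
          ∫ x in Ioc (T / 2) (4 * T), 2 * Kslow ρ k T s θ x := by
          refine setIntegral_mono_on hi3 (hi2.const_mul 2) measurableSet_Ioc ?_
          intro x hx
          exact hle x (hsub hx)
      _ = 2 * ∫ x in Ioc (T / 2) (4 * T), Kslow ρ k T s θ x := integral_const_mul _ _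
      _ ≤ 2 * ∫ x in Ioi (0 : ℝ), Kslow ρ k T s θ x := by
          apply mul_le_mul_of_nonneg_left _ (by norm_num)
          refine setIntegral_mono_set hi ?_ (LE.le.eventuallyLE hsub)
          rw [Filter.EventuallyLE, ae_restrict_iff' measurableSet_Ioi]
          exact Filter.Eventually.of_forall fun x hx => Kslow_nonneg hρ hT1 hs θ hx
      _ ≤ 2 * (C2 * Xw k T) := by gcongr
      _ = 2 * C2 * Xw k T := by ring
  · intro x hx hx'
    have hx0 : 0 < x := lt_of_lt_of_le (by linarith) hx.1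
    refine (hle x hx0).trans ?_
    have := hTail T hT s θ hs x hx hx'
    linarith
--END AA6

/-! ### The terms of the Voronoi series, one by one -/

--BEGIN AB5
private theorem AB5_conj (t : ℝ) : conj (e t) = e (-t) := by
  unfold e
  rw [← Complex.exp_conj]
  congr 1
  have h : (2 * π * I * t : ℂ) = ((2 * π * t : ℝ) : ℂ) * I := by
    push_cast
    ring
  rw [h, map_mul, Complex.conj_ofReal, Complex.conj_I]
  push_cast
  ring

private noncomputable def AB5_d (c0 : ℂ) (i : ℤ) : ℂ := if i = 1 then c0 / 2 else conj c0 / 2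

private theorem AB5_d_norm (c0 : ℂ) (i : ℤ) : ‖AB5_d c0 i‖ ≤ ‖c0‖ := by
  have h := norm_nonneg c0
  unfold AB5_d
  split_ifs
  · rw [norm_div, Complex.norm_ofNat]
    linarith
  · rw [norm_div, Complex.norm_ofNat, RCLike.norm_conj]
    linarith

private theorem AB5_sum2 (f : ℤ → ℂ) : ∑ i ∈ ({-1, 1} : Finset ℤ), f i = f (-1) + f 1 := by
  rw [Finset.sum_insert (by decide), Finset.sum_singleton]

private theorem AB5_int {i : ℤ} (hi : i ∈ ({-1, 1} : Finset ℤ)) : |i| ≤ 1 := by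
  rw [Finset.mem_insert, Finset.mem_singleton] at hi
  rcases hi with rfl | rfl <;> decide

private theorem AB5_Pm {κ : ℝ} (hκ : 0 < κ) (c0 : ℂ) (m : ℕ) {T x : ℝ} (hT : 0 < T)
    (hx : 0 < x) : (Pm κ c0 m x : ℂ) = ((T ^ (3 / 4 : ℝ) : ℝ) : ℂ) *
      ∑ i ∈ ({-1, 1} : Finset ℤ), ((((x / T) ^ (3 / 4 : ℝ) : ℝ) : ℂ) * AB5_d c0 i) *
        e (2 * (i * √(κ * m)) * √x) := by
  unfold Pm
  rw [AB5_sum2, ofReal_mul, AA5_split hT hx, Complex.re_eq_add_conj, map_mul, AB5_conj,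
    Real.sqrt_mul (by positivity : 0 ≤ κ * m)]
  have h1 : AB5_d c0 1 = c0 / 2 := by
    unfold AB5_d
    rw [if_pos rfl]
  have h2 : AB5_d c0 (-1) = conj c0 / 2 := by
    unfold AB5_d
    rw [if_neg (by decide)]
  have h3 : 2 * (((1 : ℤ) : ℝ) * √(κ * m)) * √x = 2 * (√(κ * m) * √x) := by
    push_cast
    ring
  have h4 : 2 * (((-1 : ℤ) : ℝ) * √(κ * m)) * √x = -(2 * (√(κ * m) * √x)) := by
    push_cast
    ring
  rw [h1, h2, h3, h4]
  push_cast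
  ring

/-- **AB5.** `P_m K` as a sum of 18 exponentials, with amplitudes independent of `m` (from AA1,
AA3, AA4; `Re z = (z + conj z)/2`). -/
theorem term_expand {ϕ ρ : ℝ → ℝ} (hϕ : IsBump ϕ (1 / 2) (3 / 4) 3 4)
    (hρ : IsBump ρ (1 / 4) (3 / 8) (5 / 8) (3 / 4)) {κ : ℝ} (hκ : 0 < κ) (c0 : ℂ) {k : ℕ}
    (hk : 4 ≤ k) : ∃ C : ℝ, 0 < C ∧ ∀ T s θ φ : ℝ, 1 ≤ T → |s| ≤ 1 → ∃ g : ℤ → ℤ → ℤ → ℝ → ℂ,
      (∀ i j l : ℤ, |i| ≤ 1 → |j| ≤ 1 → |l| ≤ 1 → Amp T (Xw k T) C (g i j l)) ∧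
      ∀ (m : ℕ) (x : ℝ), 0 < x → ((Pm κ c0 m x * KK ϕ ρ κ φ k T s θ x : ℝ) : ℂ) =
        ((T ^ (3 / 4 : ℝ) : ℝ) : ℂ) * ∑ i ∈ ({-1, 1} : Finset ℤ), ∑ j ∈ Finset.Icc (-1 : ℤ) 1,
          ∑ l ∈ Finset.Icc (-1 : ℤ) 1,
          g i j l x * e (ph k (i * √(κ * m) + j * √κ) (l * k) x) := by
  obtain ⟨C, hC, hE⟩ := KK_expand hϕ hρ hκ hk
  obtain ⟨M, hM, hP⟩ := AA3_unif (B := 1) zero_le_one
  refine ⟨4 * M * (4 * ‖c0‖ * C) + 1, by positivity, ?_⟩
  intro T s θ φ hT hs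
  obtain ⟨g, hg, hexp⟩ := hE T s θ φ hT hs
  obtain ⟨hX1, hX2, -⟩ := AA1_X hk hT
  have hT0 : 0 < T := by linarith
  refine ⟨fun i j l x => (((x / T) ^ (3 / 4 : ℝ) : ℝ) : ℂ) * (AB5_d c0 i * g j l x), ?_, ?_⟩
  · intro i j l _ hj hl
    refine AA1_mono (hP (3 / 4) (by rw [abs_of_pos] <;> norm_num) T (Xw k T) _ _ hX1 hX2
      (AA1_const (by linarith) hT0 (hg j l hj hl) _ (AB5_d_norm c0 i))) (by linarith) (by linarith)
  · intro m x hx
    rw [ofReal_mul, hexp x hx, AB5_Pm hκ c0 m hT0 hx, mul_assoc, Finset.sum_mul]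
    congr 1
    refine Finset.sum_congr rfl fun i _ => ?_
    rw [Finset.mul_sum]
    refine Finset.sum_congr rfl fun j _ => ?_
    rw [Finset.mul_sum]
    refine Finset.sum_congr rfl fun l _ => ?_
    have h1 : e (ph k (i * √(κ * m) + j * √κ) (l * k) x) =
        e (2 * (i * √(κ * m)) * √x) * e (ph k (j * √κ) (l * k) x) := by
      rw [← AA1_e_add]
      unfold ph
      congr 1
      ring
    rw [h1]
    ring
--END AB5

--BEGIN AB6
/-- **AB6.** The same for `P_m K'`: `K' = ∑ (g' + 2πi φ' g) e(φ)`, and the part with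
`φ' = j√κ/√x + l x^{1/k-1}` is `T^{-1/2}` times an amplitude, the part with `g'` is `O(1/X)`. -/
theorem term_expand_deriv {ϕ ρ : ℝ → ℝ} (hϕ : IsBump ϕ (1 / 2) (3 / 4) 3 4)
    (hρ : IsBump ρ (1 / 4) (3 / 8) (5 / 8) (3 / 4)) {κ : ℝ} (hκ : 0 < κ) (c0 : ℂ) {k : ℕ}
    (hk : 4 ≤ k) : ∃ C : ℝ, 0 < C ∧ ∀ T s θ φ : ℝ, 1 ≤ T → |s| ≤ 1 →
      ∃ g q : ℤ → ℤ → ℤ → ℝ → ℂ,
      (∀ i j l : ℤ, |i| ≤ 1 → |j| ≤ 1 → |l| ≤ 1 → Amp T (Xw k T) C (g i j l) ∧
        Continuous (q i j l) ∧ ∀ x, ‖q i j l x‖ ≤ C / Xw k T) ∧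
      ∀ (m : ℕ) (x : ℝ), 0 < x → ((Pm κ c0 m x * deriv (KK ϕ ρ κ φ k T s θ) x : ℝ) : ℂ) =
        ((T ^ (3 / 4 : ℝ) : ℝ) : ℂ) * ∑ i ∈ ({-1, 1} : Finset ℤ), ∑ j ∈ Finset.Icc (-1 : ℤ) 1,
          ∑ l ∈ Finset.Icc (-1 : ℤ) 1,
          (((T ^ (-(1 / 2) : ℝ) : ℝ) : ℂ) * g i j l x + q i j l x) *
            e (ph k (i * √(κ * m) + j * √κ) (l * k) x) := by
  obtain ⟨C, hC, hE⟩ := KK_expand hϕ hρ hκ hk
  obtain ⟨M, hM, hP⟩ := AA3_unif (B := 1) zero_le_one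
  have hpi := Real.pi_pos
  set C1 : ℝ := 4 * (2 * π * √κ) * (4 * M * C) + 2 * π * (4 * M * C) with hC1
  have hC1p : 0 ≤ C1 := by positivity
  have hs0 : 0 ≤ √κ := Real.sqrt_nonneg _
  have hn0 : 0 ≤ ‖c0‖ := norm_nonneg _
  refine ⟨4 * M * (4 * ‖c0‖ * C1) + 4 * ‖c0‖ * C + 1, by positivity, ?_⟩
  intro T s θ φ hT hs
  obtain ⟨g, hg, hexp⟩ := hE T s θ φ hT hs
  obtain ⟨hX1, hX2, -⟩ := AA1_X hk hT
  have hX0 : 0 < Xw k T := by linarith
  have hT0 : 0 < T := by linarith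
  have hhalf : |(-(1 / 2) : ℝ)| ≤ 1 := by rw [abs_neg, abs_of_pos] <;> norm_num
  have hkk := (AA5_k hk hT).1
  refine ⟨fun i j l x => (((x / T) ^ (3 / 4 : ℝ) : ℝ) : ℂ) * (AB5_d c0 i *
      ((2 * π * I * ((j * √κ : ℝ) : ℂ)) * ((((x / T) ^ (-(1 / 2) : ℝ) : ℝ) : ℂ) * g j l x) +
        (2 * π * I * ((l * T ^ (1 / (k : ℝ) - 1 / 2) : ℝ) : ℂ)) *
          ((((x / T) ^ (1 / (k : ℝ) - 1) : ℝ) : ℂ) * g j l x))),
    fun i j l x => (((x / T) ^ (3 / 4 : ℝ) : ℝ) : ℂ) * (AB5_d c0 i * deriv (g j l) x), ?_, ?_⟩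
  · intro i j l _ hj hl
    have ha := hg j l hj hl
    refine ⟨?_, ?_, ?_⟩
    · have h1 := hP (-(1 / 2)) hhalf T (Xw k T) C _ hX1 hX2 ha
      have h2 := hP (1 / (k : ℝ) - 1) hkk T (Xw k T) C _ hX1 hX2 ha
      have h7 : ‖(2 * π * I : ℂ)‖ = 2 * π := by
        simp [abs_of_pos hpi]
      have hz1 : ‖(2 * π * I * ((j * √κ : ℝ) : ℂ) : ℂ)‖ ≤ 2 * π * √κ := by
        rw [norm_mul, h7, Complex.norm_real, Real.norm_eq_abs, abs_mul, abs_of_nonneg hs0]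
        have hj' : |(j : ℝ)| ≤ 1 := by exact_mod_cast hj
        calc 2 * π * (|(j : ℝ)| * √κ) ≤ 2 * π * (1 * √κ) := by gcongr
          _ = 2 * π * √κ := by ring
      have hz2 : ‖(2 * π * I * ((l * T ^ (1 / (k : ℝ) - 1 / 2) : ℝ) : ℂ) : ℂ)‖ ≤ 2 * π := by
        rw [norm_mul, h7, Complex.norm_real, Real.norm_eq_abs, abs_mul,
          abs_of_nonneg (by positivity : 0 ≤ T ^ (1 / (k : ℝ) - 1 / 2))]
        have hl' : |(l : ℝ)| ≤ 1 := by exact_mod_cast hl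
        have hk' : (4 : ℝ) ≤ k := by exact_mod_cast hk
        have h8 : 1 / (k : ℝ) ≤ 1 / 4 := one_div_le_one_div_of_le (by norm_num) hk'
        have h9 : T ^ (1 / (k : ℝ) - 1 / 2) ≤ 1 := by
          calc T ^ (1 / (k : ℝ) - 1 / 2) ≤ T ^ (0 : ℝ) :=
                Real.rpow_le_rpow_of_exponent_le hT (by linarith)
            _ = 1 := Real.rpow_zero T
        calc 2 * π * (|(l : ℝ)| * T ^ (1 / (k : ℝ) - 1 / 2)) ≤ 2 * π * (1 * 1) := by gcongr
          _ = 2 * π := by ring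
      have h3 := AA1_const hX0 hT0 h1 _ hz1
      have h4 := Amp_lin hX0 h3 h2 (2 * π * I * ((l * T ^ (1 / (k : ℝ) - 1 / 2) : ℝ) : ℂ))
      have h5 := AA1_mono (C' := C1) h4 hX0 (by
        rw [hC1]
        gcongr)
      have h6 := AA1_const hX0 hT0 h5 _ (AB5_d_norm c0 i)
      have h10 := hP (3 / 4) (by rw [abs_of_pos] <;> norm_num) T (Xw k T) _ _ hX1 hX2 h6
      refine AA1_mono h10 hX0 ?_
      have : 0 ≤ 4 * ‖c0‖ * C := by positivity
      linarith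
    · refine Continuous.mul ?_ (continuous_const.mul (AA1_c1 ha.smooth).continuous)
      refine Complex.continuous_ofReal.comp ?_
      exact (Real.continuous_rpow_const (by norm_num)).comp (continuous_id.div_const T)
    · intro x
      by_cases hxi : x ∈ Icc (T / 2) (4 * T)
      · have h1 : 1 / 2 ≤ x / T := by rw [le_div_iff₀ hT0]; linarith [hxi.1]
        have h2 : x / T ≤ 4 := by rw [div_le_iff₀ hT0]; linarith [hxi.2]
        have h3 : (x / T) ^ (3 / 4 : ℝ) ≤ 4 := by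
          have := AA3_rpow_le (B := 1) (γ := 3 / 4) (by rw [abs_of_pos] <;> norm_num) h1 h2
          simpa using this
        rw [norm_mul, norm_mul, Complex.norm_real, Real.norm_of_nonneg
          (Real.rpow_nonneg (by linarith) _)]
        calc (x / T) ^ (3 / 4 : ℝ) * (‖AB5_d c0 i‖ * ‖deriv (g j l) x‖) ≤
              4 * (‖c0‖ * (C / Xw k T)) := by
              apply mul_le_mul h3 (mul_le_mul (AB5_d_norm c0 i) (ha.b1 x) (norm_nonneg _) hn0)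
                (by positivity) (by norm_num)
          _ = (4 * ‖c0‖ * C) / Xw k T := by ring
          _ ≤ (4 * M * (4 * ‖c0‖ * C1) + 4 * ‖c0‖ * C + 1) / Xw k T := by
              apply div_le_div_of_nonneg_right _ hX0.le
              have : 0 ≤ 4 * M * (4 * ‖c0‖ * C1) := by positivity
              linarith
      · show ‖(((x / T) ^ (3 / 4 : ℝ) : ℝ) : ℂ) * (AB5_d c0 i * deriv (g j l) x)‖ ≤ _
        rw [(AA1_out ha hxi).2.1]
        simp only [mul_zero, norm_zero]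
        positivity
  · intro m x hx
    obtain ⟨h1, h2⟩ := AA5_hasDeriv hk hg hexp hx
    rw [ofReal_mul, h1.deriv, h2, AB5_Pm hκ c0 m hT0 hx, mul_assoc, Finset.sum_mul]
    congr 1
    refine Finset.sum_congr rfl fun i _ => ?_
    unfold AA5_D
    rw [Finset.mul_sum]
    refine Finset.sum_congr rfl fun j _ => ?_
    rw [Finset.mul_sum]
    refine Finset.sum_congr rfl fun l _ => ?_
    have h3 : e (ph k (i * √(κ * m) + j * √κ) (l * k) x) =
        e (2 * (i * √(κ * m)) * √x) * e (ph k (j * √κ) (l * k) x) := by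
      rw [← AA1_e_add]
      unfold ph
      congr 1
      ring
    have h4 : j * √κ / √x + l * x ^ (1 / (k : ℝ) - 1) = T ^ (-(1 / 2) : ℝ) *
        (j * √κ * (x / T) ^ (-(1 / 2) : ℝ) + l * T ^ (1 / (k : ℝ) - 1 / 2) *
          (x / T) ^ (1 / (k : ℝ) - 1)) := by
      have h5 : T ^ (1 / (k : ℝ) - 1) = T ^ (-(1 / 2) : ℝ) * T ^ (1 / (k : ℝ) - 1 / 2) := by
        rw [← Real.rpow_add hT0]
        congr 1
        ring
      rw [AA5_split hT0 hx (1 / (k : ℝ) - 1), h5, div_eq_mul_one_div, AA5_sqrt hT0 hx]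
      ring
    rw [h3, h4]
    push_cast
    ring
--END AB6

--BEGIN AB1
private theorem AB1_lam {κ : ℝ} (hκ : 0 < κ) {m : ℕ} (hm : 2 ≤ m) {i j : ℤ}
    (hi : i ∈ ({-1, 1} : Finset ℤ)) (hj : |j| ≤ 1) :
    (√2 - 1) * √κ ≤ |i * √(κ * m) + j * √κ| ∧ |i * √(κ * m) + j * √κ| ≤ 2 * (√κ * √m) := by
  have hr : 0 < √κ := Real.sqrt_pos.2 hκ
  have ht : √2 ≤ √m := Real.sqrt_le_sqrt (by exact_mod_cast hm)
  have h2 : 1 < √2 := by
    rw [Real.lt_sqrt (by norm_num)]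
    norm_num
  have hj' : |(j : ℝ)| ≤ 1 := by exact_mod_cast hj
  have hj2 := abs_le.1 hj'
  have e1 : i * √(κ * m) + j * √κ = √κ * (i * √m + j) := by
    rw [Real.sqrt_mul hκ.le]
    ring
  rw [e1, abs_mul, abs_of_pos hr]
  have h3 : √2 - 1 ≤ |i * √m + j| ∧ |i * √m + j| ≤ 2 * √m := by
    rw [Finset.mem_insert, Finset.mem_singleton] at hi
    rcases hi with rfl | rfl
    · push_cast
      rw [abs_of_neg (by linarith)]
      constructor <;> linarith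
    · push_cast
      rw [abs_of_pos (by linarith)]
      constructor <;> linarith
  constructor
  · calc (√2 - 1) * √κ = √κ * (√2 - 1) := mul_comm _ _
      _ ≤ _ := mul_le_mul_of_nonneg_left h3.1 hr.le
  · calc _ ≤ √κ * (2 * √m) := mul_le_mul_of_nonneg_left h3.2 hr.le
      _ = 2 * (√κ * √m) := by ring

private theorem AB1_l0 {κ : ℝ} (hκ : 0 < κ) : 0 < (√2 - 1) * √κ := by
  have h2 : 1 < √2 := by
    rw [Real.lt_sqrt (by norm_num)]
    norm_num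
  exact mul_pos (by linarith) (Real.sqrt_pos.2 hκ)

private theorem AB1_sum18 {f : ℤ → ℤ → ℤ → ℂ} {B : ℝ} (h : ∀ i ∈ ({-1, 1} : Finset ℤ),
    ∀ j l : ℤ, |j| ≤ 1 → |l| ≤ 1 → ‖f i j l‖ ≤ B) :
    ‖∑ i ∈ ({-1, 1} : Finset ℤ), ∑ j ∈ Finset.Icc (-1 : ℤ) 1, ∑ l ∈ Finset.Icc (-1 : ℤ) 1,
      f i j l‖ ≤ 18 * B := by
  refine (norm_sum_le_of_le _ fun i hi => AA5_sum9 (h i hi)).trans (le_of_eq ?_)
  rw [Finset.sum_const, Finset.card_pair (by decide)]
  simp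
  ring

private theorem AB1_comm (s : Finset ℕ) (F : ℤ → ℤ → ℤ → ℕ → ℂ) :
    ∑ n ∈ s, ∑ i ∈ ({-1, 1} : Finset ℤ), ∑ j ∈ Finset.Icc (-1 : ℤ) 1,
      ∑ l ∈ Finset.Icc (-1 : ℤ) 1, F i j l n =
    ∑ i ∈ ({-1, 1} : Finset ℤ), ∑ j ∈ Finset.Icc (-1 : ℤ) 1,
      ∑ l ∈ Finset.Icc (-1 : ℤ) 1, ∑ n ∈ s, F i j l n := by
  rw [Finset.sum_comm]
  refine Finset.sum_congr rfl fun i _ => ?_
  rw [Finset.sum_comm]
  refine Finset.sum_congr rfl fun j _ => ?_
  rw [Finset.sum_comm]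

private theorem AB1_lk {k : ℕ} {l : ℤ} (hl : |l| ≤ 1) : |(l : ℝ) * k| ≤ k := by
  have hl' : |(l : ℝ)| ≤ 1 := by exact_mod_cast hl
  rw [abs_mul, abs_of_nonneg (Nat.cast_nonneg k : (0 : ℝ) ≤ k)]
  calc |(l : ℝ)| * k ≤ 1 * k := by gcongr
    _ = k := one_mul _

/-- **AB1.** The sum over `n` for one `m ≥ 2` (AB5 and BC4): phases
`λ = ±√(κm) + j√κ`, `|λ| ≥ (√2-1)√κ`, `|λ| ≤ 2√(κm)`. -/
theorem term_sum {ϕ ρ : ℝ → ℝ} (hϕ : IsBump ϕ (1 / 2) (3 / 4) 3 4)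
    (hρ : IsBump ρ (1 / 4) (3 / 8) (5 / 8) (3 / 4)) {κ : ℝ} (hκ : 0 < κ) (c0 : ℂ) {k : ℕ}
    (hk : 4 ≤ k) : ∃ C T0 : ℝ, 0 < C ∧ 1 ≤ T0 ∧ ∀ T s θ φ : ℝ, T0 ≤ T → |s| ≤ 1 → ∀ m : ℕ, 2 ≤ m →
      |∑ n ∈ Finset.Icc 1 ⌊4 * T⌋₊, dk k n * (Pm κ c0 m n * KK ϕ ρ κ φ k T s θ n)| ≤
        C * (m : ℝ) ^ (15 / 64 : ℝ) * T ^ (7 / 4 - 1 / (2 * (k : ℝ)) - 1 / (16 * (k : ℝ))) := by
  obtain ⟨C1, hC1, hE⟩ := term_expand hϕ hρ hκ c0 hk
  obtain ⟨C2, hC2, hS⟩ := expSum hk (AB1_l0 hκ) hC1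
  have hr : 0 < √κ := Real.sqrt_pos.2 hκ
  refine ⟨18 * (C2 * (2 * √κ) ^ (15 / 32 : ℝ)), 1, by positivity, le_rfl, ?_⟩
  intro T s θ φ hT hs m hm
  obtain ⟨g, hg, hexp⟩ := hE T s θ φ hT hs
  have hT0 : 0 < T := by linarith
  have h1 : ((∑ n ∈ Finset.Icc 1 ⌊4 * T⌋₊, dk k n * (Pm κ c0 m n * KK ϕ ρ κ φ k T s θ n) : ℝ) : ℂ)
      = ((T ^ (3 / 4 : ℝ) : ℝ) : ℂ) * ∑ i ∈ ({-1, 1} : Finset ℤ), ∑ j ∈ Finset.Icc (-1 : ℤ) 1,
          ∑ l ∈ Finset.Icc (-1 : ℤ) 1, ∑ n ∈ Finset.Icc 1 ⌊4 * T⌋₊,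
          (dk k n : ℂ) * (g i j l n * e (ph k (i * √(κ * m) + j * √κ) (l * k) n)) := by
    rw [ofReal_sum, ← AB1_comm, Finset.mul_sum]
    refine Finset.sum_congr rfl fun n hn => ?_
    have hn1 : (0 : ℝ) < n := by
      have := (Finset.mem_Icc.1 hn).1
      exact_mod_cast this
    rw [ofReal_mul, hexp m n hn1]
    simp only [Finset.mul_sum]
    refine Finset.sum_congr rfl fun i _ => Finset.sum_congr rfl fun j _ =>
      Finset.sum_congr rfl fun l _ => ?_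
    ring
  have h2 : ∀ i ∈ ({-1, 1} : Finset ℤ), ∀ j l : ℤ, |j| ≤ 1 → |l| ≤ 1 →
      ‖∑ n ∈ Finset.Icc 1 ⌊4 * T⌋₊,
        (dk k n : ℂ) * (g i j l n * e (ph k (i * √(κ * m) + j * √κ) (l * k) n))‖ ≤
      C2 * ((2 * √κ) ^ (15 / 32 : ℝ) * (m : ℝ) ^ (15 / 64 : ℝ)) *
        T ^ (1 - 1 / (2 * (k : ℝ)) - 1 / (16 * (k : ℝ))) := by
    intro i hi j l hj hl
    obtain ⟨hl1, hl2⟩ := AB1_lam hκ hm hi hj
    refine (hS T _ _ _ hT hl1 (AB1_lk hl) (hg i j l (AB5_int hi) hj hl)).trans ?_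
    have h3 : |i * √(κ * m) + j * √κ| ^ (15 / 32 : ℝ) ≤
        (2 * √κ) ^ (15 / 32 : ℝ) * (m : ℝ) ^ (15 / 64 : ℝ) := by
      calc |i * √(κ * m) + j * √κ| ^ (15 / 32 : ℝ) ≤ (2 * (√κ * √m)) ^ (15 / 32 : ℝ) :=
            Real.rpow_le_rpow (abs_nonneg _) hl2 (by norm_num)
        _ = (2 * √κ) ^ (15 / 32 : ℝ) * (√m) ^ (15 / 32 : ℝ) := by
            rw [← Real.mul_rpow (by positivity) (Real.sqrt_nonneg _)]
            ring_nf
        _ = (2 * √κ) ^ (15 / 32 : ℝ) * (m : ℝ) ^ (15 / 64 : ℝ) := by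
            rw [Real.sqrt_eq_rpow (m : ℝ), ← Real.rpow_mul (Nat.cast_nonneg m)]
            norm_num
    gcongr
  have h4 : |∑ n ∈ Finset.Icc 1 ⌊4 * T⌋₊, dk k n * (Pm κ c0 m n * KK ϕ ρ κ φ k T s θ n)| =
      ‖((∑ n ∈ Finset.Icc 1 ⌊4 * T⌋₊, dk k n * (Pm κ c0 m n * KK ϕ ρ κ φ k T s θ n) : ℝ) : ℂ)‖ := by
    rw [Complex.norm_real, Real.norm_eq_abs]
  rw [h4, h1, norm_mul, Complex.norm_real, Real.norm_of_nonneg (by positivity)]
  have h5 := AB1_sum18 h2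
  have h6 : T ^ (7 / 4 - 1 / (2 * (k : ℝ)) - 1 / (16 * (k : ℝ))) =
      T ^ (3 / 4 : ℝ) * T ^ (1 - 1 / (2 * (k : ℝ)) - 1 / (16 * (k : ℝ))) := by
    rw [← Real.rpow_add hT0]
    congr 1
    ring
  calc _ ≤ T ^ (3 / 4 : ℝ) * (18 * (C2 * ((2 * √κ) ^ (15 / 32 : ℝ) * (m : ℝ) ^ (15 / 64 : ℝ)) *
        T ^ (1 - 1 / (2 * (k : ℝ)) - 1 / (16 * (k : ℝ))))) :=
        mul_le_mul_of_nonneg_left h5 (by positivity)
    _ = _ := by
        rw [h6]
        ring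
--END AB1

--BEGIN AB2
private theorem AB2_cont {k : ℕ} (hk : 4 ≤ k) (a b : ℝ) {p q : ℝ} (hp : 0 < p) :
    ContinuousOn (fun x => e (ph k a b x)) (Icc p q) := fun _ hx =>
  (AA5_e_deriv (ph_deriv k hk a b (lt_of_lt_of_le hp hx.1)).1).continuousAt.continuousWithinAt

private theorem AB2_gen {p q : ℝ} (hpq : p ≤ q) {R : ℝ → ℝ} (hR : IntegrableOn R (Icc p q))
    {G : ℝ → ℝ} {z : ℂ} {F : ℤ → ℤ → ℤ → ℝ → ℂ} {B : ℝ}
    (hF : ∀ i j l : ℤ, |i| ≤ 1 → |j| ≤ 1 → |l| ≤ 1 → ContinuousOn (F i j l) (Icc p q))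
    (hG : ∀ x ∈ Icc p q, (G x : ℂ) = z * ∑ i ∈ ({-1, 1} : Finset ℤ),
      ∑ j ∈ Finset.Icc (-1 : ℤ) 1, ∑ l ∈ Finset.Icc (-1 : ℤ) 1, F i j l x)
    (hB : ∀ i ∈ ({-1, 1} : Finset ℤ), ∀ j l : ℤ, |j| ≤ 1 → |l| ≤ 1 →
      ‖∫ x in p..q, (R x : ℂ) * F i j l x‖ ≤ B) :
    |∫ x in p..q, R x * G x| ≤ ‖z‖ * (18 * B) := by
  have h1 : |∫ x in p..q, R x * G x| = ‖∫ x in p..q, ((R x * G x : ℝ) : ℂ)‖ := by
    rw [intervalIntegral.integral_ofReal, Complex.norm_real, Real.norm_eq_abs]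
  have hRC : IntegrableOn (fun x => (R x : ℂ)) (Icc p q) := hR.ofReal
  have hint : ∀ i j l : ℤ, |i| ≤ 1 → |j| ≤ 1 → |l| ≤ 1 →
      IntegrableOn (fun x => (R x : ℂ) * F i j l x) (Ioc p q) := fun i j l hi hj hl =>
    (hRC.mul_continuousOn (hF i j l hi hj hl) isCompact_Icc).mono_set Ioc_subset_Icc_self
  have h2 : ∫ x in p..q, ((R x * G x : ℝ) : ℂ) = z * ∑ i ∈ ({-1, 1} : Finset ℤ),
      ∑ j ∈ Finset.Icc (-1 : ℤ) 1, ∑ l ∈ Finset.Icc (-1 : ℤ) 1,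
        ∫ x in p..q, (R x : ℂ) * F i j l x := by
    simp only [intervalIntegral.integral_of_le hpq]
    have h3 : ∫ x in Ioc p q, ((R x * G x : ℝ) : ℂ) =
        ∫ x in Ioc p q, z * ∑ i ∈ ({-1, 1} : Finset ℤ),
          ∑ j ∈ Finset.Icc (-1 : ℤ) 1, ∑ l ∈ Finset.Icc (-1 : ℤ) 1, (R x : ℂ) * F i j l x := by
      refine setIntegral_congr_fun measurableSet_Ioc fun x hx => ?_
      show ((R x * G x : ℝ) : ℂ) = z * ∑ i ∈ ({-1, 1} : Finset ℤ),
          ∑ j ∈ Finset.Icc (-1 : ℤ) 1, ∑ l ∈ Finset.Icc (-1 : ℤ) 1, (R x : ℂ) * F i j l x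
      rw [ofReal_mul, hG x (Ioc_subset_Icc_self hx)]
      simp only [Finset.mul_sum]
      refine Finset.sum_congr rfl fun i _ => Finset.sum_congr rfl fun j _ =>
        Finset.sum_congr rfl fun l _ => ?_
      ring
    rw [h3, integral_const_mul]
    congr 1
    rw [integral_finsetSum _ fun i hi => integrable_finsetSum _ fun j hj =>
      integrable_finsetSum _ fun l hl => hint i j l (AB5_int hi) (AA1_int hj) (AA1_int hl)]
    refine Finset.sum_congr rfl fun i hi => ?_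
    rw [integral_finsetSum _ fun j hj =>
      integrable_finsetSum _ fun l hl => hint i j l (AB5_int hi) (AA1_int hj) (AA1_int hl)]
    refine Finset.sum_congr rfl fun j hj => ?_
    rw [integral_finsetSum _ fun l hl => hint i j l (AB5_int hi) (AA1_int hj) (AA1_int hl)]
  rw [h1, h2, norm_mul]
  exact mul_le_mul_of_nonneg_left (AB1_sum18 hB) (norm_nonneg _)

/-- **AB2.** The integral against the main term for one `m ≥ 2` (BD1). -/
theorem term_main {ϕ ρ : ℝ → ℝ} (hϕ : IsBump ϕ (1 / 2) (3 / 4) 3 4)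
    (hρ : IsBump ρ (1 / 4) (3 / 8) (5 / 8) (3 / 4)) {κ : ℝ} (hκ : 0 < κ) (c0 : ℂ) {k : ℕ}
    (hk : 4 ≤ k) : ∃ C T0 : ℝ, 0 < C ∧ 1 ≤ T0 ∧ ∀ T s θ φ : ℝ, T0 ≤ T → |s| ≤ 1 → ∀ m : ℕ, 2 ≤ m →
      |∫ x in (T / 2)..(4 * T), Mk1 k x * (Pm κ c0 m x * KK ϕ ρ κ φ k T s θ x)| ≤
        C * T ^ (21 / 16 : ℝ) := by
  obtain ⟨C1, hC1, hE⟩ := term_expand hϕ hρ hκ c0 hk
  obtain ⟨C2, T0, hC2, hT0, hS⟩ := int_main_osc hk (AB1_l0 hκ) hC1
  have hl0 := AB1_l0 hκ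
  refine ⟨18 * (C2 * ((√2 - 1) * √κ) ^ (-1 : ℝ)), T0, by positivity, hT0, ?_⟩
  intro T s θ φ hT hs m hm
  have hT1 : 1 ≤ T := hT0.trans hT
  have hTp : 0 < T := by linarith
  obtain ⟨g, hg, hexp⟩ := hE T s θ φ hT1 hs
  have hR : IntegrableOn (Mk1 k) (Icc (T / 2) (4 * T)) := by
    refine ContinuousOn.integrableOn_Icc fun x hx => ?_
    exact (Mk_deriv k (lt_of_lt_of_le (by linarith) hx.1)).2.1.continuousAt.continuousWithinAt
  have h1 := AB2_gen (z := ((T ^ (3 / 4 : ℝ) : ℝ) : ℂ))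
    (B := C2 * ((√2 - 1) * √κ) ^ (-1 : ℝ) * T ^ (1 / 2 + 1 / 16 : ℝ))
    (G := fun x => Pm κ c0 m x * KK ϕ ρ κ φ k T s θ x)
    (F := fun i j l x => g i j l x * e (ph k (i * √(κ * m) + j * √κ) (l * k) x))
    (by linarith : T / 2 ≤ 4 * T) hR ?_ ?_ ?_
  · refine h1.trans (le_of_eq ?_)
    rw [Complex.norm_real, Real.norm_of_nonneg (by positivity)]
    have h6 : T ^ (21 / 16 : ℝ) = T ^ (3 / 4 : ℝ) * T ^ (1 / 2 + 1 / 16 : ℝ) := by
      rw [← Real.rpow_add hTp]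
      norm_num
    rw [h6]
    ring
  · intro i j l hi hj hl
    exact (hg i j l hi hj hl).smooth.continuous.continuousOn.mul
      (AB2_cont hk _ _ (by linarith))
  · intro x hx
    exact hexp m x (lt_of_lt_of_le (by linarith) hx.1)
  · intro i hi j l hj hl
    obtain ⟨hl1, _⟩ := AB1_lam hκ hm hi hj
    refine (hS T _ _ _ hT hl1 (AB1_lk hl) (hg i j l (AB5_int hi) hj hl)).trans ?_
    have h3 := Real.rpow_le_rpow_of_nonpos hl0 hl1 (by norm_num : (-1 : ℝ) ≤ 0)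
    gcongr
--END AB2

--BEGIN AB3
private theorem AB3_int (k : ℕ) {T : ℝ} (hT : 2 ≤ T) :
    IntegrableOn (Ek k) (Icc (T / 2) (4 * T)) := by
  obtain ⟨C, hC, h, _⟩ := Ek_trivial k (ε := 1) one_pos
  refine Measure.integrableOn_of_bounded (M := C * (4 * T) ^ (1 + 1 : ℝ)) ?_
    (Ek_meas k).aestronglyMeasurable ?_
  · exact isCompact_Icc.measure_lt_top.ne
  · rw [ae_restrict_iff' measurableSet_Icc]
    refine Filter.Eventually.of_forall fun x hx => ?_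
    have hx1 : 1 ≤ x := le_trans (by linarith) hx.1
    rw [Real.norm_eq_abs]
    refine (h x hx1).trans ?_
    gcongr
    exact hx.2

private theorem AB3_exp {k : ℕ} (hk : 4 ≤ k) {T : ℝ} (hT : 1 ≤ T) :
    T ^ (3 / 4 : ℝ) * (T ^ (1 - 3 / (4 * (k : ℝ)) + 1 / (8 * (k : ℝ))) * (1 / Xw k T) * T) ≤
      T ^ (7 / 4 - 1 / (2 * (k : ℝ)) - 1 / (16 * (k : ℝ))) := by
  have hTp : 0 < T := by linarith
  have hk0 : (0 : ℝ) < k := by
    have : 0 < k := by omega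
    exact_mod_cast this
  unfold Xw
  have h0 : ∀ a b : ℝ, T ^ (3 / 4 : ℝ) * (T ^ a * (1 / T ^ b) * T) =
      T ^ (3 / 4 + (a + (-b) + 1)) := by
    intro a b
    rw [Real.rpow_add hTp (3 / 4) _, Real.rpow_add hTp (a + -b) 1, Real.rpow_add hTp a (-b),
      Real.rpow_neg hTp.le, Real.rpow_one, one_div]
  rw [h0]
  apply Real.rpow_le_rpow_of_exponent_le hT
  have h2 : 3 / (4 * (k : ℝ)) = 3 / 4 * (1 / k) := by field_simp
  have h3 : 1 / (8 * (k : ℝ)) = 1 / 8 * (1 / k) := by field_simp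
  have h4 : 1 / (32 * (k : ℝ)) = 1 / 32 * (1 / k) := by field_simp
  have h5 : 1 / (2 * (k : ℝ)) = 1 / 2 * (1 / k) := by field_simp
  have h6 : 1 / (16 * (k : ℝ)) = 1 / 16 * (1 / k) := by field_simp
  rw [h2, h3, h4, h5, h6]
  have h7 : 0 ≤ 1 / (k : ℝ) := by positivity
  linarith

/-- **AB3.** The integral against `Δ_k` and `K'` for one `m ≥ 2` (AB6): the part with `g` by BD2,
the part with `q` by the pointwise bound ZD1. -/
theorem term_err {ϕ ρ : ℝ → ℝ} (hϕ : IsBump ϕ (1 / 2) (3 / 4) 3 4)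
    (hρ : IsBump ρ (1 / 4) (3 / 8) (5 / 8) (3 / 4)) {κ : ℝ} (hκ : 0 < κ) (c0 : ℂ) {k : ℕ}
    (hk : 4 ≤ k) : ∃ C T0 : ℝ, 0 < C ∧ 1 ≤ T0 ∧ ∀ T s θ φ : ℝ, T0 ≤ T → |s| ≤ 1 → ∀ m : ℕ, 2 ≤ m →
      |∫ x in (T / 2)..(4 * T), Ek k x * (Pm κ c0 m x * deriv (KK ϕ ρ κ φ k T s θ) x)| ≤
        C * T ^ (7 / 4 - 1 / (2 * (k : ℝ)) - 1 / (16 * (k : ℝ))) := by
  obtain ⟨C1, hC1, hE⟩ := term_expand_deriv hϕ hρ hκ c0 hk
  obtain ⟨C2, T0, hC2, hT0, hS⟩ := int_Ek_osc hk (AB1_l0 hκ) hC1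
  have hk0 : (0 : ℝ) < k := by
    have : 0 < k := by omega
    exact_mod_cast this
  have hk4 : (4 : ℝ) ≤ k := by exact_mod_cast hk
  obtain ⟨C3, hC3, hpt⟩ := Ek_bound (k := k) (by omega) (ε := 1 / (8 * (k : ℝ))) (by positivity)
  have hl0 := AB1_l0 hκ
  set D1 : ℝ := C2 * ((√2 - 1) * √κ) ^ (-(17 / 32) : ℝ) with hD1
  set γ : ℝ := 1 - 3 / (4 * (k : ℝ)) + 1 / (8 * (k : ℝ)) with hγ
  set D2 : ℝ := C3 * 4 ^ γ * C1 * 4 with hD2
  have hD1p : 0 < D1 := by positivity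
  have hD2p : 0 < D2 := by positivity
  have hγ0 : 0 ≤ γ := by
    rw [hγ]
    have h1 : 3 / (4 * (k : ℝ)) ≤ 3 / (4 * 4) := by gcongr
    have h2 : 0 ≤ 1 / (8 * (k : ℝ)) := by positivity
    linarith
  refine ⟨18 * (D1 + D2), max T0 2, by positivity, le_max_of_le_left hT0, ?_⟩
  intro T s θ φ hT hs m hm
  have hTT0 : T0 ≤ T := (le_max_left _ _).trans hT
  have hT2 : 2 ≤ T := (le_max_right _ _).trans hT
  have hT1 : 1 ≤ T := by linarith
  have hTp : 0 < T := by linarith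
  have hXp : 0 < Xw k T := by linarith [(AA1_X hk hT1).1]
  obtain ⟨g, q, hgq, hexp⟩ := hE T s θ φ hT1 hs
  have hR := AB3_int k hT2
  have h1 := AB2_gen (z := ((T ^ (3 / 4 : ℝ) : ℝ) : ℂ))
    (B := T ^ (-(1 / 2) : ℝ) * (D1 * T ^ (3 / 2 - 1 / (2 * (k : ℝ)) - 1 / (16 * (k : ℝ)))) +
      D2 * (T ^ γ * (1 / Xw k T) * T))
    (G := fun x => Pm κ c0 m x * deriv (KK ϕ ρ κ φ k T s θ) x)
    (F := fun i j l x => (((T ^ (-(1 / 2) : ℝ) : ℝ) : ℂ) * g i j l x + q i j l x) *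
            e (ph k (i * √(κ * m) + j * √κ) (l * k) x))
    (by linarith : T / 2 ≤ 4 * T) hR ?_ ?_ ?_
  · refine h1.trans ?_
    rw [Complex.norm_real, Real.norm_of_nonneg (by positivity)]
    have h6 : T ^ (3 / 4 : ℝ) * (T ^ (-(1 / 2) : ℝ) *
        T ^ (3 / 2 - 1 / (2 * (k : ℝ)) - 1 / (16 * (k : ℝ)))) =
        T ^ (7 / 4 - 1 / (2 * (k : ℝ)) - 1 / (16 * (k : ℝ))) := by
      rw [← Real.rpow_add hTp, ← Real.rpow_add hTp]
      congr 1
      ring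
    have h7 := AB3_exp hk hT1
    calc T ^ (3 / 4 : ℝ) * (18 * (T ^ (-(1 / 2) : ℝ) * (D1 *
          T ^ (3 / 2 - 1 / (2 * (k : ℝ)) - 1 / (16 * (k : ℝ)))) +
          D2 * (T ^ γ * (1 / Xw k T) * T))) =
          18 * D1 * (T ^ (3 / 4 : ℝ) * (T ^ (-(1 / 2) : ℝ) *
            T ^ (3 / 2 - 1 / (2 * (k : ℝ)) - 1 / (16 * (k : ℝ))))) +
          18 * D2 * (T ^ (3 / 4 : ℝ) * (T ^ γ * (1 / Xw k T) * T)) := by ring
      _ ≤ 18 * D1 * T ^ (7 / 4 - 1 / (2 * (k : ℝ)) - 1 / (16 * (k : ℝ))) +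
          18 * D2 * T ^ (7 / 4 - 1 / (2 * (k : ℝ)) - 1 / (16 * (k : ℝ))) := by
          rw [h6]
          gcongr
      _ = _ := by ring
  · intro i j l hi hj hl
    obtain ⟨ha, hq, _⟩ := hgq i j l hi hj hl
    exact ((continuous_const.mul ha.smooth.continuous).add hq).continuousOn.mul
      (AB2_cont hk _ _ (by linarith))
  · intro x hx
    exact hexp m x (lt_of_lt_of_le (by linarith) hx.1)
  · intro i hi j l hj hl
    obtain ⟨hl1, _⟩ := AB1_lam hκ hm hi hj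
    obtain ⟨ha, hq, hqb⟩ := hgq i j l (AB5_int hi) hj hl
    have hRC : IntegrableOn (fun x => (Ek k x : ℂ)) (Icc (T / 2) (4 * T)) := hR.ofReal
    have hi1 : IntervalIntegrable (fun x => (Ek k x : ℂ) * (g i j l x *
        e (ph k (i * √(κ * m) + j * √κ) (l * k) x))) volume (T / 2) (4 * T) := by
      rw [intervalIntegrable_iff_integrableOn_Icc_of_le (by linarith)]
      exact hRC.mul_continuousOn (ha.smooth.continuous.continuousOn.mul
        (AB2_cont hk _ _ (by linarith))) isCompact_Icc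
    have hi2 : IntervalIntegrable (fun x => (Ek k x : ℂ) * (q i j l x *
        e (ph k (i * √(κ * m) + j * √κ) (l * k) x))) volume (T / 2) (4 * T) := by
      rw [intervalIntegrable_iff_integrableOn_Icc_of_le (by linarith)]
      exact hRC.mul_continuousOn (hq.continuousOn.mul
        (AB2_cont hk _ _ (by linarith))) isCompact_Icc
    have h2 : ∫ x in (T / 2)..(4 * T), (Ek k x : ℂ) * ((((T ^ (-(1 / 2) : ℝ) : ℝ) : ℂ) *
        g i j l x + q i j l x) * e (ph k (i * √(κ * m) + j * √κ) (l * k) x)) =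
        ((T ^ (-(1 / 2) : ℝ) : ℝ) : ℂ) * (∫ x in (T / 2)..(4 * T), (Ek k x : ℂ) *
          (g i j l x * e (ph k (i * √(κ * m) + j * √κ) (l * k) x))) +
        ∫ x in (T / 2)..(4 * T), (Ek k x : ℂ) *
          (q i j l x * e (ph k (i * √(κ * m) + j * √κ) (l * k) x)) := by
      rw [← intervalIntegral.integral_const_mul, ← intervalIntegral.integral_add
        (hi1.const_mul _) hi2]
      refine intervalIntegral.integral_congr fun x _ => ?_
      show (Ek k x : ℂ) * ((((T ^ (-(1 / 2) : ℝ) : ℝ) : ℂ) *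
        g i j l x + q i j l x) * e (ph k (i * √(κ * m) + j * √κ) (l * k) x)) =
        ((T ^ (-(1 / 2) : ℝ) : ℝ) : ℂ) * ((Ek k x : ℂ) *
          (g i j l x * e (ph k (i * √(κ * m) + j * √κ) (l * k) x))) + (Ek k x : ℂ) *
          (q i j l x * e (ph k (i * √(κ * m) + j * √κ) (l * k) x))
      ring
    rw [h2]
    refine (norm_add_le _ _).trans (add_le_add ?_ ?_)
    · rw [norm_mul, Complex.norm_real, Real.norm_of_nonneg (by positivity)]
      apply mul_le_mul_of_nonneg_left _ (by positivity)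
      refine (hS T _ _ _ hTT0 hl1 (AB1_lk hl) ha).trans ?_
      have h3 := Real.rpow_le_rpow_of_nonpos hl0 hl1 (by norm_num : (-(17 / 32) : ℝ) ≤ 0)
      rw [hD1]
      gcongr
    · have h3 : ∀ x ∈ Set.uIoc (T / 2) (4 * T), ‖(Ek k x : ℂ) *
          (q i j l x * e (ph k (i * √(κ * m) + j * √κ) (l * k) x))‖ ≤
          C3 * (4 * T) ^ γ * (C1 / Xw k T) := by
        intro x hx
        rw [uIoc_of_le (by linarith)] at hx
        have hx1 : 1 ≤ x := le_trans (by linarith) hx.1.le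
        rw [norm_mul, norm_mul, AA1_e_norm, mul_one, Complex.norm_real, Real.norm_eq_abs]
        apply mul_le_mul _ (hqb x) (norm_nonneg _) (by positivity)
        refine (hpt x hx1).trans ?_
        apply mul_le_mul_of_nonneg_left _ hC3.le
        exact Real.rpow_le_rpow (by linarith) hx.2 hγ0
      refine (intervalIntegral.norm_integral_le_of_norm_le_const h3).trans ?_
      rw [abs_of_pos (by linarith), Real.mul_rpow (by norm_num) hTp.le]
      calc C3 * (4 ^ γ * T ^ γ) * (C1 / Xw k T) * (4 * T - T / 2) ≤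
            C3 * (4 ^ γ * T ^ γ) * (C1 / Xw k T) * (4 * T) := by
            apply mul_le_mul_of_nonneg_left (by linarith) (by positivity)
        _ = D2 * (T ^ γ * (1 / Xw k T) * T) := by
            rw [hD2]
            ring
--END AB3

--BEGIN AB4
private theorem AB4_cos {κ : ℝ} (hκ : 0 < κ) (j : ℕ) (φ x : ℝ) :
    (Real.cos (j * (4 * π * √(κ * x) + φ)) : ℂ) = ∑ i ∈ ({-1, 1} : Finset ℤ),
      (1 / 2 * cexp (I * ((i * (j * φ) : ℝ) : ℂ))) * e (2 * (i * (j * √κ)) * √x) := by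
  rw [AB5_sum2, Real.sqrt_mul hκ.le, Complex.ofReal_cos, Complex.cos]
  have e1 : cexp (((j * (4 * π * (√κ * √x) + φ) : ℝ) : ℂ) * I) =
      cexp (I * ((((1 : ℤ) : ℝ) * (j * φ) : ℝ) : ℂ)) * e (2 * (((1 : ℤ) : ℝ) * (j * √κ)) * √x) := by
    unfold e
    rw [← Complex.exp_add]
    congr 1
    push_cast
    ring
  have e2 : cexp (-((j * (4 * π * (√κ * √x) + φ) : ℝ) : ℂ) * I) =
      cexp (I * ((((-1 : ℤ) : ℝ) * (j * φ) : ℝ) : ℂ)) *
        e (2 * (((-1 : ℤ) : ℝ) * (j * √κ)) * √x) := by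
    unfold e
    rw [← Complex.exp_add]
    congr 1
    push_cast
    ring
  rw [e1, e2]
  ring

/-- **AB4.** The non resonant parts of the term `m = 1`. -/
theorem nonres {ϕ ρ : ℝ → ℝ} (hϕ : IsBump ϕ (1 / 2) (3 / 4) 3 4)
    (hρ : IsBump ρ (1 / 4) (3 / 8) (5 / 8) (3 / 4)) {κ : ℝ} (hκ : 0 < κ) {k : ℕ}
    (hk : 4 ≤ k) : ∃ C T0 : ℝ, 0 < C ∧ 1 ≤ T0 ∧ ∀ T s θ φ : ℝ, T0 ≤ T → |s| ≤ 1 → ∀ j : ℕ,
      (j = 1 ∨ j = 2) → ∀ α : ℝ, 0 ≤ α → α ≤ 1 / 4 →
      |∫ x in Ioi (0 : ℝ), Ek k x * x ^ α * Real.cos (j * (4 * π * √(κ * x) + φ)) *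
        (ϕ (x / T) * Kslow ρ k T s θ x)| ≤
        C * T ^ (α + 3 / 2 - 1 / (2 * (k : ℝ)) - 1 / (16 * (k : ℝ))) := by
  obtain ⟨C1, hC1, hE⟩ := AA1_slow hϕ hρ hk
  obtain ⟨M, hM, hP⟩ := AA3_unif (B := 1) zero_le_one
  have hr : 0 < √κ := Real.sqrt_pos.2 hκ
  have hC0 : 0 < 4 * M * (4 * 1 * C1) := by positivity
  obtain ⟨C2, T0, hC2, hT0, hS⟩ := int_Ek_osc hk hr hC0
  refine ⟨18 * (C2 * (√κ) ^ (-(17 / 32) : ℝ)), max T0 2, by positivity,
    le_max_of_le_left hT0, ?_⟩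
  intro T s θ φ hT hs j hj α hα hα'
  have hTT0 : T0 ≤ T := (le_max_left _ _).trans hT
  have hT2 : 2 ≤ T := (le_max_right _ _).trans hT
  have hT1 : 1 ≤ T := by linarith
  have hTp : 0 < T := by linarith
  obtain ⟨hX1, hX2, -⟩ := AA1_X hk hT1
  obtain ⟨g, hg, hexp⟩ := hE T s θ hT1 hs
  have hR := AB3_int k hT2
  have hj1 : (1 : ℝ) ≤ j := by
    rcases hj with rfl | rfl <;> norm_num
  have hlam : ∀ i ∈ ({-1, 1} : Finset ℤ), √κ ≤ |(i : ℝ) * (j * √κ)| := by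
    intro i hi
    rw [Finset.mem_insert, Finset.mem_singleton] at hi
    have h1 : √κ ≤ j * √κ := by nlinarith
    rcases hi with rfl | rfl
    · push_cast
      rw [abs_of_neg (by linarith)]
      linarith
    · push_cast
      rw [abs_of_pos (by linarith)]
      linarith
  have hAmp : ∀ i l : ℤ, |l| ≤ 1 → Amp T (Xw k T) (4 * M * (4 * 1 * C1)) (fun x =>
      (((x / T) ^ α : ℝ) : ℂ) * ((1 / 2 * cexp (I * ((i * (j * φ) : ℝ) : ℂ))) * g l x)) := by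
    intro i l hl
    refine hP α ?_ T (Xw k T) _ _ hX1 hX2 (AA1_const (by linarith) hTp (hg l hl) _ ?_)
    · rw [abs_of_nonneg hα]
      linarith
    · rw [norm_mul, Complex.norm_exp_I_mul_ofReal, mul_one, norm_div, norm_one,
        Complex.norm_ofNat]
      norm_num
  have hset : ∫ x in Ioi (0 : ℝ), Ek k x * x ^ α * Real.cos (j * (4 * π * √(κ * x) + φ)) *
        (ϕ (x / T) * Kslow ρ k T s θ x) = ∫ x in (T / 2)..(4 * T), Ek k x * (x ^ α *
        Real.cos (j * (4 * π * √(κ * x) + φ)) * (ϕ (x / T) * Kslow ρ k T s θ x)) := by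
    rw [intervalIntegral.integral_of_le (by linarith)]
    have h1 : ∀ x ∈ Ioi (0 : ℝ) \ Ioc (T / 2) (4 * T), Ek k x * x ^ α *
        Real.cos (j * (4 * π * √(κ * x) + φ)) * (ϕ (x / T) * Kslow ρ k T s θ x) = 0 := by
      intro x hx
      have h2 : ϕ (x / T) = 0 := by
        refine AA5_zero hϕ fun h => hx.2 ⟨?_, ?_⟩
        · have := h.1
          rw [lt_div_iff₀ hTp] at this
          linarith
        · have := h.2
          rw [div_lt_iff₀ hTp] at this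
          linarith
      rw [h2]
      ring
    rw [setIntegral_eq_of_subset_of_forall_sdiff_eq_zero measurableSet_Ioi
      (fun x hx => lt_trans (by linarith) hx.1) h1]
    refine setIntegral_congr_fun measurableSet_Ioc fun x _ => ?_
    show Ek k x * x ^ α * Real.cos (j * (4 * π * √(κ * x) + φ)) *
        (ϕ (x / T) * Kslow ρ k T s θ x) = Ek k x * (x ^ α *
        Real.cos (j * (4 * π * √(κ * x) + φ)) * (ϕ (x / T) * Kslow ρ k T s θ x))
    ring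
  rw [hset]
  have h1 := AB2_gen (z := ((T ^ α : ℝ) : ℂ))
    (B := C2 * (√κ) ^ (-(17 / 32) : ℝ) * T ^ (3 / 2 - 1 / (2 * (k : ℝ)) - 1 / (16 * (k : ℝ))))
    (G := fun x => x ^ α *
        Real.cos (j * (4 * π * √(κ * x) + φ)) * (ϕ (x / T) * Kslow ρ k T s θ x))
    (F := fun i j' l x => if j' = 0 then ((((x / T) ^ α : ℝ) : ℂ) *
      ((1 / 2 * cexp (I * ((i * (j * φ) : ℝ) : ℂ))) * g l x)) *
        e (ph k (i * (j * √κ)) (l * k) x) else 0)
    (by linarith : T / 2 ≤ 4 * T) hR ?_ ?_ ?_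
  · refine h1.trans (le_of_eq ?_)
    rw [Complex.norm_real, Real.norm_of_nonneg (by positivity)]
    have h6 : T ^ (α + 3 / 2 - 1 / (2 * (k : ℝ)) - 1 / (16 * (k : ℝ))) =
        T ^ α * T ^ (3 / 2 - 1 / (2 * (k : ℝ)) - 1 / (16 * (k : ℝ))) := by
      rw [← Real.rpow_add hTp]
      congr 1
      ring
    rw [h6]
    ring
  · intro i j' l hi hj' hl
    by_cases hj0 : j' = 0
    · simp only [if_pos hj0]
      exact (hAmp i l hl).smooth.continuous.continuousOn.mul (AB2_cont hk _ _ (by linarith))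
    · simp only [if_neg hj0]
      exact continuousOn_const
  · intro x hx
    have hx0 : 0 < x := lt_of_lt_of_le (by linarith) hx.1
    show ((x ^ α * Real.cos (j * (4 * π * √(κ * x) + φ)) *
      (ϕ (x / T) * Kslow ρ k T s θ x) : ℝ) : ℂ) = _
    rw [ofReal_mul, hexp x hx0, ofReal_mul, AB4_cos hκ, AA5_split hTp hx0, ofReal_mul, mul_assoc,
      mul_assoc, Finset.sum_mul_sum, Finset.mul_sum]
    congr 1
    refine Finset.sum_congr rfl fun i _ => ?_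
    rw [AA1_sum3 fun j' => ∑ l ∈ Finset.Icc (-1 : ℤ) 1, if j' = 0 then ((((x / T) ^ α : ℝ) : ℂ) *
      ((1 / 2 * cexp (I * ((i * (j * φ) : ℝ) : ℂ))) * g l x)) *
        e (ph k (i * (j * √κ)) (l * k) x) else 0]
    simp only [if_neg (by decide : ¬ (-1 : ℤ) = 0), if_neg (by decide : ¬ (1 : ℤ) = 0),
      if_pos, Finset.sum_const_zero, zero_add, add_zero]
    rw [Finset.mul_sum]
    refine Finset.sum_congr rfl fun l _ => ?_
    rw [AA1_ph k (i * (j * √κ))]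
    ring
  · intro i hi j' l hj' hl
    by_cases hj0 : j' = 0
    · simp only [if_pos hj0]
      refine (hS T _ _ _ hTT0 (hlam i hi) (AB1_lk hl) (hAmp i l hl)).trans ?_
      have h3 := Real.rpow_le_rpow_of_nonpos hr (hlam i hi) (by norm_num : (-(17 / 32) : ℝ) ≤ 0)
      gcongr
    · simp only [if_neg hj0, mul_zero, intervalIntegral.integral_zero, norm_zero]
      positivity
--END AB4

/-! ### The whole series -/

/-- The derivative of `P_1`. -/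
noncomputable def P1d (κ : ℝ) (c0 : ℂ) (x : ℝ) : ℝ :=
  x ^ (1 / 4 : ℝ) * (2 * π * I * √κ * c0 * e (2 * √(κ * x))).re +
    3 / 4 * x ^ (-(1 / 4) : ℝ) * (c0 * e (2 * √(κ * x))).re

--BEGIN AC1
/-- **AC1.** -/
theorem Pm_one_deriv {κ : ℝ} (hκ : 0 < κ) (c0 : ℂ) {x : ℝ} (hx : 0 < x) :
    HasDerivAt (Pm κ c0 1) (P1d κ c0 x) x := by
  have hκx : 0 < κ * x := mul_pos hκ hx
  have hsx : 0 < √x := Real.sqrt_pos.2 hx
  have hsk : 0 < √κ := Real.sqrt_pos.2 hκ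
  have h1 : HasDerivAt (fun x => 2 * √(κ * x)) (√κ / √x) x := by
    have h2 : HasDerivAt (fun x => κ * x) κ x := by
      simpa using (hasDerivAt_id x).const_mul κ
    have h3 := (h2.sqrt hκx.ne').const_mul 2
    refine h3.congr_deriv ?_
    rw [Real.sqrt_mul hκ.le]
    have h4 : κ = √κ * √κ := (Real.mul_self_sqrt hκ.le).symm
    have h5 : 2 * (κ / (2 * (√κ * √x))) = κ / √κ / √x := by
      field_simp
    rw [h5]
    congr 1
    rw [div_eq_iff hsk.ne']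
    exact h4
  have h5 : HasDerivAt (fun x => (c0 * e (2 * √(κ * x))).re)
      (c0 * (2 * π * I * ((√κ / √x : ℝ) : ℂ) * e (2 * √(κ * x)))).re x :=
    Complex.reCLM.hasFDerivAt.comp_hasDerivAt x ((AA5_e_deriv h1).const_mul c0)
  have h6 : HasDerivAt (fun x : ℝ => x ^ (3 / 4 : ℝ)) (3 / 4 * x ^ (3 / 4 - 1 : ℝ)) x :=
    Real.hasDerivAt_rpow_const (Or.inl hx.ne')
  have h7 := h6.mul h5
  have h8 : Pm κ c0 1 = fun x => x ^ (3 / 4 : ℝ) * (c0 * e (2 * √(κ * x))).re := by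
    funext y
    unfold Pm
    rw [Nat.cast_one, mul_one]
  rw [h8]
  refine h7.congr_deriv ?_
  unfold P1d
  have h9 : (c0 * (2 * π * I * ((√κ / √x : ℝ) : ℂ) * e (2 * √(κ * x)))).re =
      1 / √x * (2 * π * I * √κ * c0 * e (2 * √(κ * x))).re := by
    rw [← Complex.re_ofReal_mul]
    congr 1
    push_cast
    ring
  have h10 : x ^ (3 / 4 : ℝ) * (1 / √x) = x ^ (1 / 4 : ℝ) := by
    rw [Real.sqrt_eq_rpow, one_div, ← Real.rpow_neg hx.le, ← Real.rpow_add hx]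
    norm_num
  have h11 : (3 / 4 - 1 : ℝ) = -(1 / 4) := by norm_num
  rw [h9, h11, ← mul_assoc, h10]
  ring
--END AC1

/-- `D_r(x) = ∫_0^x E_f - L_0 x - P_1(x)`. -/
noncomputable def Dr (a : ℕ → ℝ) (L : ℂ → ℂ) (κ L0 : ℝ) (c0 : ℂ) (x : ℝ) : ℝ :=
  (∫ t in (0 : ℝ)..x, errTerm a L t) - L0 * x - Pm κ c0 1 x

/-- The conclusion of the Voronoi theorem, as a hypothesis. -/
structure Vor (a : ℕ → ℝ) (L : ℂ → ℂ) (κ L0 : ℝ) (c0 : ℂ) : Prop where
  kpos : 0 < κ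
  cne : c0 ≠ 0
  main : ∀ δ : ℝ, 0 < δ → ∃ C : ℝ, 0 < C ∧ ∀ x : ℝ, 1 ≤ x →
      |(∫ t in (0 : ℝ)..x, errTerm a L t) - L0 * x -
        ∑' m : ℕ, a m * (m : ℝ) ^ (-(5 / 4) : ℝ) * Pm κ c0 m x| ≤ C * x ^ (1 / 4 + δ)

variable {a : ℕ → ℝ} {L : ℂ → ℂ} {κ L0 : ℝ} {c0 : ℂ}

--BEGIN AC2
private lemma AC2_Pm (κ : ℝ) (c0 : ℂ) (m : ℕ) {x : ℝ} (hx : 0 ≤ x) :
    |Pm κ c0 m x| ≤ x ^ (3 / 4 : ℝ) * ‖c0‖ := by
  unfold Pm
  rw [abs_mul, abs_of_nonneg (Real.rpow_nonneg hx _)]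
  refine mul_le_mul_of_nonneg_left ?_ (Real.rpow_nonneg hx _)
  refine (abs_re_le_norm _).trans ?_
  rw [norm_mul]
  have : ‖e (2 * √(κ * m * x))‖ = 1 := by
    unfold e
    rw [Complex.norm_exp]
    simp
  rw [this, mul_one]

private lemma AC2_bound (h : RealSelberg a L 2) {ε : ℝ} (hε : 0 < ε) : ∃ C : ℝ, 0 < C ∧
    ∀ m : ℕ, |a (m + 2) * ((m + 2 : ℕ) : ℝ) ^ (-(5 / 4) : ℝ)| ≤
      C * ((m + 2 : ℕ) : ℝ) ^ (-(5 / 4) + ε) := by
  obtain ⟨C, hC⟩ := h.ramanujan ε hε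
  refine ⟨|C| + 1, by positivity, fun m => ?_⟩
  have hm : (0 : ℝ) < ((m + 2 : ℕ) : ℝ) := by positivity
  rw [abs_mul, abs_of_nonneg (Real.rpow_nonneg hm.le _), add_comm (-(5 / 4) : ℝ), Real.rpow_add hm,
    ← mul_assoc]
  refine mul_le_mul_of_nonneg_right ?_ (Real.rpow_nonneg hm.le _)
  refine (hC (m + 2) (by omega)).trans ?_
  refine mul_le_mul_of_nonneg_right ?_ (Real.rpow_nonneg hm.le _)
  linarith [le_abs_self C]

/-- **AC2.** `D_r = ∑_{m ≥ 2} + R`. -/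
theorem Dr_series (h : RealSelberg a L 2) (hv : Vor a L κ L0 c0) {δ : ℝ} (hδ : 0 < δ) :
    ∃ C : ℝ, 0 < C ∧ ∀ x : ℝ, 1 ≤ x →
      Summable (fun m : ℕ => a (m + 2) * ((m + 2 : ℕ) : ℝ) ^ (-(5 / 4) : ℝ) * Pm κ c0 (m + 2) x) ∧
      |Dr a L κ L0 c0 x -
        ∑' m : ℕ, a (m + 2) * ((m + 2 : ℕ) : ℝ) ^ (-(5 / 4) : ℝ) * Pm κ c0 (m + 2) x| ≤
          C * x ^ (1 / 4 + δ) ∧
      |Dr a L κ L0 c0 x| ≤ C * x ^ (3 / 4 : ℝ) := by
  obtain ⟨C1, hC1, h1⟩ := hv.main δ hδ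
  obtain ⟨C2, hC2, h2⟩ := hv.main (1 / 8) (by norm_num)
  obtain ⟨C3, hC3, h3⟩ := AC2_bound h (ε := 1 / 8) (by norm_num)
  have hs0 : Summable (fun m : ℕ => ((m + 2 : ℕ) : ℝ) ^ (-(5 / 4) + 1 / 8 : ℝ)) := by
    have := (summable_nat_add_iff 2).2
      (Real.summable_nat_rpow (p := (-(5 / 4) + 1 / 8 : ℝ)).2 (by norm_num))
    exact this
  set S := ∑' m : ℕ, ((m + 2 : ℕ) : ℝ) ^ (-(5 / 4) + 1 / 8 : ℝ) with hS
  have hS0 : 0 ≤ S := tsum_nonneg fun m => Real.rpow_nonneg (by positivity) _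
  have key : ∀ x : ℝ, 1 ≤ x → Summable (fun m : ℕ => a (m + 2) *
      ((m + 2 : ℕ) : ℝ) ^ (-(5 / 4) : ℝ) * Pm κ c0 (m + 2) x) ∧
      |∑' m : ℕ, a (m + 2) * ((m + 2 : ℕ) : ℝ) ^ (-(5 / 4) : ℝ) * Pm κ c0 (m + 2) x| ≤
        C3 * S * ‖c0‖ * x ^ (3 / 4 : ℝ) := by
    intro x hx
    have hb : ∀ m : ℕ, ‖a (m + 2) * ((m + 2 : ℕ) : ℝ) ^ (-(5 / 4) : ℝ) * Pm κ c0 (m + 2) x‖ ≤
        (C3 * ‖c0‖ * x ^ (3 / 4 : ℝ)) * ((m + 2 : ℕ) : ℝ) ^ (-(5 / 4) + 1 / 8 : ℝ) := by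
      intro m
      rw [Real.norm_eq_abs, abs_mul]
      calc _ ≤ (C3 * ((m + 2 : ℕ) : ℝ) ^ (-(5 / 4) + 1 / 8 : ℝ)) * (x ^ (3 / 4 : ℝ) * ‖c0‖) :=
            mul_le_mul (h3 m) (AC2_Pm κ c0 (m + 2) (by linarith)) (abs_nonneg _) (by positivity)
        _ = _ := by ring
    have hsum := Summable.of_norm_bounded (hs0.mul_left _) hb
    refine ⟨hsum, ?_⟩
    have := tsum_of_norm_bounded (hs0.mul_left (C3 * ‖c0‖ * x ^ (3 / 4 : ℝ))).hasSum hb
    rw [tsum_mul_left, ← hS, Real.norm_eq_abs] at this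
    refine this.trans (le_of_eq (by ring))
  have split : ∀ x : ℝ, 1 ≤ x → ∑' m : ℕ, a m * (m : ℝ) ^ (-(5 / 4) : ℝ) * Pm κ c0 m x =
      Pm κ c0 1 x + ∑' m : ℕ, a (m + 2) * ((m + 2 : ℕ) : ℝ) ^ (-(5 / 4) : ℝ) * Pm κ c0 (m + 2) x := by
    intro x hx
    have hs : Summable (fun m : ℕ => a m * (m : ℝ) ^ (-(5 / 4) : ℝ) * Pm κ c0 m x) :=
      (summable_nat_add_iff 2).1 (key x hx).1
    rw [← hs.sum_add_tsum_nat_add 2]
    congr 1
    rw [Finset.sum_range_succ, Finset.sum_range_one, a_one h]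
    have : ((0 : ℕ) : ℝ) ^ (-(5 / 4) : ℝ) = 0 := by
      rw [Nat.cast_zero]
      exact Real.zero_rpow (by norm_num)
    rw [this]
    simp
  refine ⟨C1 + C2 + ‖c0‖ * (1 + C3 * S), by positivity, fun x hx => ⟨(key x hx).1, ?_, ?_⟩⟩
  · have e1 := h1 x hx
    rw [split x hx] at e1
    have e2 : (∫ t in (0 : ℝ)..x, errTerm a L t) - L0 * x - (Pm κ c0 1 x +
        ∑' m : ℕ, a (m + 2) * ((m + 2 : ℕ) : ℝ) ^ (-(5 / 4) : ℝ) * Pm κ c0 (m + 2) x) =
        Dr a L κ L0 c0 x -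
          ∑' m : ℕ, a (m + 2) * ((m + 2 : ℕ) : ℝ) ^ (-(5 / 4) : ℝ) * Pm κ c0 (m + 2) x := by
      unfold Dr; ring
    rw [e2] at e1
    refine e1.trans (mul_le_mul_of_nonneg_right ?_ (by positivity))
    have : 0 ≤ ‖c0‖ * (1 + C3 * S) := by positivity
    linarith
  · have e1 := h2 x hx
    rw [split x hx] at e1
    have e2 : (∫ t in (0 : ℝ)..x, errTerm a L t) - L0 * x - (Pm κ c0 1 x +
        ∑' m : ℕ, a (m + 2) * ((m + 2 : ℕ) : ℝ) ^ (-(5 / 4) : ℝ) * Pm κ c0 (m + 2) x) =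
        Dr a L κ L0 c0 x -
          ∑' m : ℕ, a (m + 2) * ((m + 2 : ℕ) : ℝ) ^ (-(5 / 4) : ℝ) * Pm κ c0 (m + 2) x := by
      unfold Dr; ring
    rw [e2] at e1
    have e3 := (key x hx).2
    have e4 : x ^ (1 / 4 + 1 / 8 : ℝ) ≤ x ^ (3 / 4 : ℝ) :=
      Real.rpow_le_rpow_of_exponent_le hx (by norm_num)
    have hX : 0 ≤ x ^ (3 / 4 : ℝ) := by positivity
    have e5 : |Dr a L κ L0 c0 x| ≤ C2 * x ^ (1 / 4 + 1 / 8 : ℝ) + C3 * S * ‖c0‖ * x ^ (3 / 4 : ℝ) := by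
      have := abs_sub_abs_le_abs_sub (Dr a L κ L0 c0 x)
        (∑' m : ℕ, a (m + 2) * ((m + 2 : ℕ) : ℝ) ^ (-(5 / 4) : ℝ) * Pm κ c0 (m + 2) x)
      linarith
    have e6 : C2 * x ^ (1 / 4 + 1 / 8 : ℝ) ≤ C2 * x ^ (3 / 4 : ℝ) :=
      mul_le_mul_of_nonneg_left e4 hC2.le
    have e7 : 0 ≤ (C1 + ‖c0‖) * x ^ (3 / 4 : ℝ) := by positivity
    calc |Dr a L κ L0 c0 x| ≤ C2 * x ^ (3 / 4 : ℝ) + C3 * S * ‖c0‖ * x ^ (3 / 4 : ℝ) := by linarith
      _ ≤ (C1 + C2 + ‖c0‖ * (1 + C3 * S)) * x ^ (3 / 4 : ℝ) := by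
          have : (C1 + C2 + ‖c0‖ * (1 + C3 * S)) * x ^ (3 / 4 : ℝ) =
            (C1 + ‖c0‖) * x ^ (3 / 4 : ℝ) + (C2 * x ^ (3 / 4 : ℝ) +
              C3 * S * ‖c0‖ * x ^ (3 / 4 : ℝ)) := by ring
          linarith
--END AC2

--BEGIN AC3
private lemma AC3_coef (h : RealSelberg a L 2) {ε : ℝ} (hε : 0 < ε) : ∃ C : ℝ, 0 < C ∧
    ∀ m : ℕ, |a (m + 2) * ((m + 2 : ℕ) : ℝ) ^ (-(5 / 4) : ℝ)| ≤
      C * ((m + 2 : ℕ) : ℝ) ^ (-(5 / 4) + ε) := by
  obtain ⟨C, hC⟩ := h.ramanujan ε hε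
  refine ⟨|C| + 1, by positivity, fun m => ?_⟩
  have hm : (0 : ℝ) < ((m + 2 : ℕ) : ℝ) := by positivity
  rw [abs_mul, abs_of_nonneg (Real.rpow_nonneg hm.le _), add_comm (-(5 / 4) : ℝ), Real.rpow_add hm,
    ← mul_assoc]
  refine mul_le_mul_of_nonneg_right ?_ (Real.rpow_nonneg hm.le _)
  refine (hC (m + 2) (by omega)).trans ?_
  refine mul_le_mul_of_nonneg_right ?_ (Real.rpow_nonneg hm.le _)
  linarith [le_abs_self C]

/-- **AC3.** The sum `∑ d_k(n) D_r(n) K(n)`. -/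
theorem total_sum (h : RealSelberg a L 2) (hv : Vor a L κ L0 c0) {ϕ ρ : ℝ → ℝ}
    (hϕ : IsBump ϕ (1 / 2) (3 / 4) 3 4) (hρ : IsBump ρ (1 / 4) (3 / 8) (5 / 8) (3 / 4)) {k : ℕ}
    (hk : 4 ≤ k) : ∃ C T0 : ℝ, 0 < C ∧ 1 ≤ T0 ∧ ∀ T s θ φ : ℝ, T0 ≤ T → |s| ≤ 1 →
      |∑ n ∈ Finset.Icc 1 ⌊4 * T⌋₊, dk k n * (Dr a L κ L0 c0 n * KK ϕ ρ κ φ k T s θ n)| ≤
        C * T ^ (7 / 4 - 1 / (2 * (k : ℝ)) - 1 / (16 * (k : ℝ))) := by
  obtain ⟨C1, hC1, h1⟩ := Dr_series h hv (δ := 1 / 8) (by norm_num)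
  obtain ⟨C2, T2, hC2, hT2, h2⟩ := term_sum hϕ hρ hv.kpos c0 hk
  obtain ⟨C3, hC3, h3⟩ := AC3_coef h (ε := 1 / 128) (by norm_num)
  obtain ⟨C4, hC4, h4⟩ := KK_deriv_bound hϕ hρ hv.kpos hk
  obtain ⟨C5, hC5, h5⟩ := dk_bound k (ε := 1 / 8) (by norm_num)
  have hk4 : (4 : ℝ) ≤ k := by exact_mod_cast hk
  have hk0 : (0 : ℝ) < k := by linarith
  have hs0 : Summable (fun m : ℕ => ((m + 2 : ℕ) : ℝ) ^ (-(5 / 4) + 1 / 128 + 15 / 64 : ℝ)) :=
    (summable_nat_add_iff 2).2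
      (Real.summable_nat_rpow (p := (-(5 / 4) + 1 / 128 + 15 / 64 : ℝ)).2 (by norm_num))
  set S := ∑' m : ℕ, ((m + 2 : ℕ) : ℝ) ^ (-(5 / 4) + 1 / 128 + 15 / 64 : ℝ) with hS
  have hS0 : 0 ≤ S := tsum_nonneg fun m => Real.rpow_nonneg (by positivity) _
  refine ⟨C3 * C2 * S + 64 * C5 * C1 * C4, T2, by positivity, hT2, fun T s θ φ hT hs => ?_⟩
  have hT1 : 1 ≤ T := by linarith
  have hT0 : 0 < T := by linarith
  set K := KK ϕ ρ κ φ k T s θ with hK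
  set A : ℕ → ℝ := fun m => a (m + 2) * ((m + 2 : ℕ) : ℝ) ^ (-(5 / 4) : ℝ) with hA
  set U : ℕ → ℝ := fun n => ∑' m : ℕ, A m * Pm κ c0 (m + 2) n with hU
  set R := T ^ (7 / 4 - 1 / (2 * (k : ℝ)) - 1 / (16 * (k : ℝ))) with hR
  have hR0 : 0 ≤ R := by positivity
  have hfacts : ∀ n ∈ Finset.Icc 1 ⌊4 * T⌋₊, Summable (fun m : ℕ => A m * Pm κ c0 (m + 2) n) ∧
      |Dr a L κ L0 c0 n - U n| ≤ C1 * (n : ℝ) ^ (1 / 4 + 1 / 8 : ℝ) := by
    intro n hn
    rw [Finset.mem_Icc] at hn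
    have hn1 : (1 : ℝ) ≤ n := by exact_mod_cast hn.1
    obtain ⟨f1, f2, -⟩ := h1 n hn1
    exact ⟨f1, f2⟩
  have e1 : ∑ n ∈ Finset.Icc 1 ⌊4 * T⌋₊, dk k n * (Dr a L κ L0 c0 n * K n) =
      (∑ n ∈ Finset.Icc 1 ⌊4 * T⌋₊, dk k n * (U n * K n)) +
      ∑ n ∈ Finset.Icc 1 ⌊4 * T⌋₊, dk k n * ((Dr a L κ L0 c0 n - U n) * K n) := by
    rw [← Finset.sum_add_distrib]
    apply Finset.sum_congr rfl
    intro n _
    ring
  have e2 : ∑ n ∈ Finset.Icc 1 ⌊4 * T⌋₊, dk k n * (U n * K n) =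
      ∑' m : ℕ, A m * ∑ n ∈ Finset.Icc 1 ⌊4 * T⌋₊, dk k n * (Pm κ c0 (m + 2) n * K n) := by
    have f1 : ∀ n ∈ Finset.Icc 1 ⌊4 * T⌋₊, dk k n * (U n * K n) =
        ∑' m : ℕ, (dk k n * K n) * (A m * Pm κ c0 (m + 2) n) := by
      intro n hn
      rw [tsum_mul_left]
      ring
    rw [Finset.sum_congr rfl f1, ← Summable.tsum_finsetSum]
    · apply tsum_congr
      intro m
      rw [Finset.mul_sum]
      apply Finset.sum_congr rfl
      intro n _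
      ring
    · intro n hn
      exact (hfacts n hn).1.mul_left _
  have b1 : |∑' m : ℕ, A m * ∑ n ∈ Finset.Icc 1 ⌊4 * T⌋₊, dk k n * (Pm κ c0 (m + 2) n * K n)| ≤
      C3 * C2 * S * R := by
    have hb : ∀ m : ℕ, ‖A m * ∑ n ∈ Finset.Icc 1 ⌊4 * T⌋₊, dk k n * (Pm κ c0 (m + 2) n * K n)‖ ≤
        (C3 * C2 * R) * ((m + 2 : ℕ) : ℝ) ^ (-(5 / 4) + 1 / 128 + 15 / 64 : ℝ) := by
      intro m
      have hm : (0 : ℝ) < ((m + 2 : ℕ) : ℝ) := by positivity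
      rw [Real.norm_eq_abs, abs_mul]
      calc _ ≤ (C3 * ((m + 2 : ℕ) : ℝ) ^ (-(5 / 4) + 1 / 128 : ℝ)) *
            (C2 * ((m + 2 : ℕ) : ℝ) ^ (15 / 64 : ℝ) * R) :=
            mul_le_mul (h3 m) (h2 T s θ φ hT hs (m + 2) (by omega)) (abs_nonneg _) (by positivity)
        _ = _ := by rw [Real.rpow_add hm (-(5 / 4) + 1 / 128)]; ring
    have := tsum_of_norm_bounded (hs0.mul_left (C3 * C2 * R)).hasSum hb
    rw [tsum_mul_left, ← hS, Real.norm_eq_abs] at this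
    refine this.trans (le_of_eq (by ring))
  have b2 : |∑ n ∈ Finset.Icc 1 ⌊4 * T⌋₊, dk k n * ((Dr a L κ L0 c0 n - U n) * K n)| ≤
      64 * C5 * C1 * C4 * R := by
    have hterm : ∀ n ∈ Finset.Icc 1 ⌊4 * T⌋₊, |dk k n * ((Dr a L κ L0 c0 n - U n) * K n)| ≤
        16 * C5 * C1 * C4 * T ^ (1 / 2 : ℝ) := by
      intro n hn
      have hn' := hn
      rw [Finset.mem_Icc] at hn'
      have hn1 : (1 : ℝ) ≤ n := by exact_mod_cast hn'.1
      have hn0 : (0 : ℝ) < n := by linarith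
      have hn4 : (n : ℝ) ≤ 4 * T := (Nat.le_floor_iff (by positivity)).1 hn'.2
      obtain ⟨-, -, -, k1, k2, -⟩ := h4 T s θ φ hT1 hs n hn0
      have k1' : 0 ≤ K n := k1
      rw [abs_mul, abs_mul, abs_of_nonneg (dk_nonneg k n), abs_of_nonneg k1']
      have g1 := h5 n hn'.1
      have g2 := (hfacts n hn).2
      have g3 : (n : ℝ) ^ (1 / 8 : ℝ) * (n : ℝ) ^ (1 / 4 + 1 / 8 : ℝ) ≤ 16 * T ^ (1 / 2 : ℝ) := by
        rw [← Real.rpow_add hn0]
        calc (n : ℝ) ^ (1 / 8 + (1 / 4 + 1 / 8) : ℝ) ≤ (4 * T) ^ (1 / 8 + (1 / 4 + 1 / 8) : ℝ) :=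
              Real.rpow_le_rpow hn0.le hn4 (by norm_num)
          _ = (4 * T) ^ (1 / 2 : ℝ) := by norm_num
          _ = 4 ^ (1 / 2 : ℝ) * T ^ (1 / 2 : ℝ) := Real.mul_rpow (by norm_num) hT0.le
          _ ≤ 16 * T ^ (1 / 2 : ℝ) := by
              gcongr
              calc (4 : ℝ) ^ (1 / 2 : ℝ) ≤ 4 ^ (1 : ℝ) :=
                    Real.rpow_le_rpow_of_exponent_le (by norm_num) (by norm_num)
                _ ≤ 16 := by norm_num
      calc dk k n * (|Dr a L κ L0 c0 n - U n| * K n)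
          ≤ (C5 * (n : ℝ) ^ (1 / 8 : ℝ)) * ((C1 * (n : ℝ) ^ (1 / 4 + 1 / 8 : ℝ)) * C4) := by
            refine mul_le_mul g1 (mul_le_mul g2 k2 k1' (by positivity)) (by positivity)
              (by positivity)
        _ = C5 * C1 * C4 * ((n : ℝ) ^ (1 / 8 : ℝ) * (n : ℝ) ^ (1 / 4 + 1 / 8 : ℝ)) := by ring
        _ ≤ C5 * C1 * C4 * (16 * T ^ (1 / 2 : ℝ)) := mul_le_mul_of_nonneg_left g3 (by positivity)
        _ = _ := by ring
    calc |∑ n ∈ Finset.Icc 1 ⌊4 * T⌋₊, dk k n * ((Dr a L κ L0 c0 n - U n) * K n)|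
        ≤ ∑ n ∈ Finset.Icc 1 ⌊4 * T⌋₊, |dk k n * ((Dr a L κ L0 c0 n - U n) * K n)| :=
          Finset.abs_sum_le_sum_abs _ _
      _ ≤ ∑ n ∈ Finset.Icc 1 ⌊4 * T⌋₊, 16 * C5 * C1 * C4 * T ^ (1 / 2 : ℝ) :=
          Finset.sum_le_sum hterm
      _ = ⌊4 * T⌋₊ * (16 * C5 * C1 * C4 * T ^ (1 / 2 : ℝ)) := by
          rw [Finset.sum_const, Nat.card_Icc, nsmul_eq_mul]; simp
      _ ≤ (4 * T) * (16 * C5 * C1 * C4 * T ^ (1 / 2 : ℝ)) := by
          gcongr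
          exact Nat.floor_le (by positivity)
      _ = 64 * C5 * C1 * C4 * (T ^ (1 : ℝ) * T ^ (1 / 2 : ℝ)) := by rw [Real.rpow_one]; ring
      _ ≤ 64 * C5 * C1 * C4 * R := by
          gcongr
          rw [← Real.rpow_add hT0, hR]
          apply Real.rpow_le_rpow_of_exponent_le hT1
          have h1' : 1 / (2 * (k : ℝ)) ≤ 1 / 8 := by
            apply one_div_le_one_div_of_le (by norm_num); linarith
          have h2' : 1 / (16 * (k : ℝ)) ≤ 1 / 64 := by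
            apply one_div_le_one_div_of_le (by norm_num); linarith
          linarith
  rw [e1, e2]
  calc _ ≤ C3 * C2 * S * R + 64 * C5 * C1 * C4 * R := (abs_add_le _ _).trans (add_le_add b1 b2)
    _ = _ := by ring
--END AC3

--BEGIN AC4
private lemma AC4_Pm (κ : ℝ) (c0 : ℂ) (m : ℕ) {x : ℝ} (hx : 0 ≤ x) :
    |Pm κ c0 m x| ≤ x ^ (3 / 4 : ℝ) * ‖c0‖ := by
  unfold Pm
  rw [abs_mul, abs_of_nonneg (Real.rpow_nonneg hx _)]
  refine mul_le_mul_of_nonneg_left ?_ (Real.rpow_nonneg hx _)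
  refine (abs_re_le_norm _).trans ?_
  rw [norm_mul]
  have : ‖e (2 * √(κ * m * x))‖ = 1 := by
    unfold e
    rw [Complex.norm_exp]
    simp
  rw [this, mul_one]

private lemma AC4_coef (h : RealSelberg a L 2) {ε : ℝ} (hε : 0 < ε) : ∃ C : ℝ, 0 < C ∧
    ∀ m : ℕ, |a (m + 2) * ((m + 2 : ℕ) : ℝ) ^ (-(5 / 4) : ℝ)| ≤
      C * ((m + 2 : ℕ) : ℝ) ^ (-(5 / 4) + ε) := by
  obtain ⟨C, hC⟩ := h.ramanujan ε hε
  refine ⟨|C| + 1, by positivity, fun m => ?_⟩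
  have hm : (0 : ℝ) < ((m + 2 : ℕ) : ℝ) := by positivity
  rw [abs_mul, abs_of_nonneg (Real.rpow_nonneg hm.le _), add_comm (-(5 / 4) : ℝ), Real.rpow_add hm,
    ← mul_assoc]
  refine mul_le_mul_of_nonneg_right ?_ (Real.rpow_nonneg hm.le _)
  refine (hC (m + 2) (by omega)).trans ?_
  refine mul_le_mul_of_nonneg_right ?_ (Real.rpow_nonneg hm.le _)
  linarith [le_abs_self C]

private lemma AC4_Pm_cont (κ : ℝ) (c0 : ℂ) (m : ℕ) {p q : ℝ} (hp : 0 < p) :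
    ContinuousOn (Pm κ c0 m) (Icc p q) := by
  unfold Pm
  refine ContinuousOn.mul (continuousOn_id.rpow_const fun x hx =>
    Or.inl (ne_of_gt (lt_of_lt_of_le hp hx.1))) ?_
  unfold e
  exact Continuous.continuousOn (by fun_prop)

private lemma AC4_Dr_cont (h : RealSelberg a L 2) (κ L0 : ℝ) (c0 : ℂ) {p q : ℝ} (hp : 0 < p)
    (hpq : p ≤ q) : ContinuousOn (Dr a L κ L0 c0) (Icc p q) := by
  unfold Dr
  have h1 := (int_errTerm h).1 q (by linarith)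
  have h2 : ContinuousOn (fun x => ∫ t in (0 : ℝ)..x, errTerm a L t) (uIcc 0 q) :=
    intervalIntegral.continuousOn_primitive_interval' h1 left_mem_uIcc
  rw [uIcc_of_le (by linarith)] at h2
  exact ((h2.mono (Icc_subset_Icc_left hp.le)).sub (by fun_prop)).sub (AC4_Pm_cont κ c0 1 hp)

private lemma AC4_gen (h : RealSelberg a L 2) (hv : Vor a L κ L0 c0) {δ : ℝ} (hδ : 0 < δ) :
    ∃ C : ℝ, 0 < C ∧ ∀ (p q G B : ℝ) (g : ℝ → ℝ), 1 ≤ p → p ≤ q →
      IntervalIntegrable g volume p q → (∀ x ∈ Icc p q, |g x| ≤ G) →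
      (∀ m : ℕ, |∫ x in p..q, Pm κ c0 (m + 2) x * g x| ≤ B) →
      |∫ x in p..q, Dr a L κ L0 c0 x * g x| ≤ C * B + C * q ^ (1 / 4 + δ) * (q - p) * G := by
  obtain ⟨C1, hC1, h1⟩ := Dr_series h hv hδ
  obtain ⟨C3, hC3, h3⟩ := AC4_coef h (ε := 1 / 8) (by norm_num)
  have hs0 : Summable (fun m : ℕ => ((m + 2 : ℕ) : ℝ) ^ (-(5 / 4) + 1 / 8 : ℝ)) :=
    (summable_nat_add_iff 2).2
      (Real.summable_nat_rpow (p := (-(5 / 4) + 1 / 8 : ℝ)).2 (by norm_num))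
  set S := ∑' m : ℕ, ((m + 2 : ℕ) : ℝ) ^ (-(5 / 4) + 1 / 8 : ℝ) with hS
  have hS0 : 0 ≤ S := tsum_nonneg fun m => Real.rpow_nonneg (by positivity) _
  refine ⟨C3 * S + C1, by positivity, fun p q G B g hp hpq hg hG hB => ?_⟩
  have hp0 : 0 < p := by linarith
  have hu : uIcc p q = Icc p q := uIcc_of_le hpq
  have hB0 : 0 ≤ B := (abs_nonneg _).trans (hB 0)
  have hG0 : 0 ≤ G := (abs_nonneg _).trans (hG p (left_mem_Icc.2 hpq))
  set A : ℕ → ℝ := fun m => a (m + 2) * ((m + 2 : ℕ) : ℝ) ^ (-(5 / 4) : ℝ) with hA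
  set U : ℝ → ℝ := fun x => ∑' m : ℕ, A m * Pm κ c0 (m + 2) x with hU
  have hterm : ∀ m : ℕ, ∀ x ∈ Icc p q, ‖A m * Pm κ c0 (m + 2) x‖ ≤
      (C3 * ‖c0‖ * q ^ (3 / 4 : ℝ)) * ((m + 2 : ℕ) : ℝ) ^ (-(5 / 4) + 1 / 8 : ℝ) := by
    intro m x hx
    have hx0 : 0 ≤ x := by linarith [hx.1]
    rw [Real.norm_eq_abs, abs_mul]
    calc _ ≤ (C3 * ((m + 2 : ℕ) : ℝ) ^ (-(5 / 4) + 1 / 8 : ℝ)) * (x ^ (3 / 4 : ℝ) * ‖c0‖) :=
          mul_le_mul (h3 m) (AC4_Pm κ c0 (m + 2) hx0) (abs_nonneg _) (by positivity)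
      _ ≤ (C3 * ((m + 2 : ℕ) : ℝ) ^ (-(5 / 4) + 1 / 8 : ℝ)) * (q ^ (3 / 4 : ℝ) * ‖c0‖) := by
          gcongr
          exact hx.2
      _ = _ := by ring
  have hUc : ContinuousOn U (Icc p q) :=
    continuousOn_tsum (fun m => continuousOn_const.mul (AC4_Pm_cont κ c0 (m + 2) hp0))
      (hs0.mul_left _) hterm
  have hsum : HasSum (fun m : ℕ => ∫ x in p..q, A m * Pm κ c0 (m + 2) x * g x)
      (∫ x in p..q, U x * g x) := by
    refine intervalIntegral.hasSum_integral_of_dominated_convergence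
      (fun m x => ((C3 * ‖c0‖ * q ^ (3 / 4 : ℝ)) * ((m + 2 : ℕ) : ℝ) ^ (-(5 / 4) + 1 / 8 : ℝ)) *
        |g x|) ?_ ?_ ?_ ?_ ?_
    · intro m
      have c1 : ContinuousOn (fun x => A m * Pm κ c0 (m + 2) x) (uIcc p q) := by
        rw [hu]; exact continuousOn_const.mul (AC4_Pm_cont κ c0 (m + 2) hp0)
      exact (hg.continuousOn_mul c1).def'.aestronglyMeasurable
    · intro m
      refine Eventually.of_forall fun x hx => ?_
      have hx' : x ∈ Icc p q := by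
        rw [uIoc_of_le hpq] at hx
        exact ⟨hx.1.le, hx.2⟩
      rw [norm_mul, Real.norm_eq_abs (g x)]
      exact mul_le_mul_of_nonneg_right (hterm m x hx') (abs_nonneg _)
    · refine Eventually.of_forall fun x _ => ?_
      exact (hs0.mul_left _).mul_right _
    · have : (fun x : ℝ => ∑' m : ℕ, ((C3 * ‖c0‖ * q ^ (3 / 4 : ℝ)) *
          ((m + 2 : ℕ) : ℝ) ^ (-(5 / 4) + 1 / 8 : ℝ)) * |g x|) =
          fun x => ((C3 * ‖c0‖ * q ^ (3 / 4 : ℝ)) * S) * |g x| := by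
        ext x
        rw [tsum_mul_right, tsum_mul_left]
      rw [this]
      exact hg.abs.const_mul _
    · refine Eventually.of_forall fun x hx => ?_
      have hx' : x ∈ Icc p q := by
        rw [uIoc_of_le hpq] at hx
        exact ⟨hx.1.le, hx.2⟩
      exact ((h1 x (by linarith [hx'.1])).1.hasSum).mul_right (g x)
  have hAB : Summable (fun m : ℕ => (C3 * B) * ((m + 2 : ℕ) : ℝ) ^ (-(5 / 4) + 1 / 8 : ℝ)) :=
    hs0.mul_left _
  have b1 : |∫ x in p..q, U x * g x| ≤ C3 * S * B := by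
    have hb : ∀ m : ℕ, ‖∫ x in p..q, A m * Pm κ c0 (m + 2) x * g x‖ ≤
        (C3 * B) * ((m + 2 : ℕ) : ℝ) ^ (-(5 / 4) + 1 / 8 : ℝ) := by
      intro m
      have e1 : ∫ x in p..q, A m * Pm κ c0 (m + 2) x * g x =
          A m * ∫ x in p..q, Pm κ c0 (m + 2) x * g x := by
        rw [← intervalIntegral.integral_const_mul]
        apply intervalIntegral.integral_congr
        intro x _
        ring
      rw [e1, Real.norm_eq_abs, abs_mul]
      calc _ ≤ (C3 * ((m + 2 : ℕ) : ℝ) ^ (-(5 / 4) + 1 / 8 : ℝ)) * B :=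
            mul_le_mul (h3 m) (hB m) (abs_nonneg _) (by positivity)
        _ = _ := by ring
    have := tsum_of_norm_bounded hAB.hasSum hb
    rw [tsum_mul_left, ← hS, hsum.tsum_eq, Real.norm_eq_abs] at this
    exact this.trans (le_of_eq (by ring))
  have i1 : IntervalIntegrable (fun x => Dr a L κ L0 c0 x * g x) volume p q :=
    hg.continuousOn_mul (by rw [hu]; exact AC4_Dr_cont h κ L0 c0 hp0 hpq)
  have i2 : IntervalIntegrable (fun x => U x * g x) volume p q :=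
    hg.continuousOn_mul (by rw [hu]; exact hUc)
  have b2 : |∫ x in p..q, (Dr a L κ L0 c0 x * g x - U x * g x)| ≤
      C1 * q ^ (1 / 4 + δ) * G * (q - p) := by
    have hb : ∀ x ∈ uIoc p q, ‖Dr a L κ L0 c0 x * g x - U x * g x‖ ≤
        C1 * q ^ (1 / 4 + δ) * G := by
      intro x hx
      rw [uIoc_of_le hpq] at hx
      have hx1 : 1 ≤ x := by linarith [hx.1]
      have hx0 : 0 ≤ x := by linarith
      have e1 : Dr a L κ L0 c0 x * g x - U x * g x = (Dr a L κ L0 c0 x - U x) * g x := by ring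
      rw [e1, Real.norm_eq_abs, abs_mul]
      have e2 := (h1 x hx1).2.1
      have e3 : x ^ (1 / 4 + δ) ≤ q ^ (1 / 4 + δ) := Real.rpow_le_rpow hx0 hx.2 (by linarith)
      have hq0 : 0 ≤ q ^ (1 / 4 + δ) := Real.rpow_nonneg (by linarith) _
      exact mul_le_mul (e2.trans (mul_le_mul_of_nonneg_left e3 hC1.le))
        (hG x ⟨hx.1.le, hx.2⟩) (abs_nonneg _) (by positivity)
    have := intervalIntegral.norm_integral_le_of_norm_le_const hb
    rwa [Real.norm_eq_abs, abs_of_nonneg (by linarith : (0 : ℝ) ≤ q - p)] at this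
  have e1 : ∫ x in p..q, Dr a L κ L0 c0 x * g x =
      (∫ x in p..q, U x * g x) + ∫ x in p..q, (Dr a L κ L0 c0 x * g x - U x * g x) := by
    rw [intervalIntegral.integral_sub i1 i2]; ring
  rw [e1]
  have hq0 : 0 ≤ q ^ (1 / 4 + δ) := Real.rpow_nonneg (by linarith) _
  have hqp : 0 ≤ q - p := by linarith
  calc _ ≤ C3 * S * B + C1 * q ^ (1 / 4 + δ) * G * (q - p) :=
        (abs_add_le _ _).trans (add_le_add b1 b2)
    _ ≤ (C3 * S + C1) * B + (C3 * S + C1) * q ^ (1 / 4 + δ) * (q - p) * G := by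
        have f1 : 0 ≤ C1 * B := by positivity
        have f2 : 0 ≤ C3 * S * (q ^ (1 / 4 + δ) * (q - p) * G) := by positivity
        have : (C3 * S + C1) * B + (C3 * S + C1) * q ^ (1 / 4 + δ) * (q - p) * G =
          C3 * S * B + C1 * q ^ (1 / 4 + δ) * G * (q - p) + C1 * B +
            C3 * S * (q ^ (1 / 4 + δ) * (q - p) * G) := by ring
        linarith

/-- **AC4.** The integral of `D_r K M'`. -/
theorem total_main (h : RealSelberg a L 2) (hv : Vor a L κ L0 c0) {ϕ ρ : ℝ → ℝ}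
    (hϕ : IsBump ϕ (1 / 2) (3 / 4) 3 4) (hρ : IsBump ρ (1 / 4) (3 / 8) (5 / 8) (3 / 4)) {k : ℕ}
    (hk : 4 ≤ k) : ∃ C T0 : ℝ, 0 < C ∧ 1 ≤ T0 ∧ ∀ T s θ φ : ℝ, T0 ≤ T → |s| ≤ 1 →
      |∫ x in (T / 2)..(4 * T), Dr a L κ L0 c0 x * KK ϕ ρ κ φ k T s θ x * Mk1 k x| ≤
        C * T ^ (3 / 2 : ℝ) := by
  obtain ⟨C1, hC1, h1⟩ := AC4_gen h hv (δ := 1 / 8) (by norm_num)
  obtain ⟨C2, T2, hC2, hT2, h2⟩ := term_main hϕ hρ hv.kpos c0 hk
  obtain ⟨C4, hC4, h4⟩ := KK_deriv_bound hϕ hρ hv.kpos hk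
  obtain ⟨C5, hC5, h5, -⟩ := Mk_bound k (ε := 1 / 8) (by norm_num)
  refine ⟨C1 * C2 + C1 * 64 * C4 * C5, max 2 T2, by positivity,
    le_trans (by norm_num) (le_max_left _ _), fun T s θ φ hT hs => ?_⟩
  have hTa : 2 ≤ T := le_trans (le_max_left _ _) hT
  have hTb : T2 ≤ T := le_trans (le_max_right _ _) hT
  have hT1 : 1 ≤ T := by linarith
  have hT0 : 0 < T := by linarith
  set K := KK ϕ ρ κ φ k T s θ with hK
  have hKc : ContinuousOn K (Icc (T / 2) (4 * T)) := fun x hx =>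
    (h4 T s θ φ hT1 hs x (by linarith [hx.1])).1.continuousAt.continuousWithinAt
  have hMc : ContinuousOn (Mk1 k) (Icc (T / 2) (4 * T)) := fun x hx =>
    (Mk_deriv k (by linarith [hx.1] : 0 < x)).2.1.continuousAt.continuousWithinAt
  have hpq : T / 2 ≤ 4 * T := by linarith
  have hT18 : (4 * T) ^ (1 / 8 : ℝ) ≤ 4 * T ^ (1 / 8 : ℝ) := by
    rw [Real.mul_rpow (by norm_num) hT0.le]
    gcongr
    calc (4 : ℝ) ^ (1 / 8 : ℝ) ≤ 4 ^ (1 : ℝ) :=
          Real.rpow_le_rpow_of_exponent_le (by norm_num) (by norm_num)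
      _ = 4 := Real.rpow_one _
  have hT38 : (4 * T) ^ (1 / 4 + 1 / 8 : ℝ) ≤ 4 * T ^ (1 / 4 + 1 / 8 : ℝ) := by
    rw [Real.mul_rpow (by norm_num) hT0.le]
    gcongr
    calc (4 : ℝ) ^ (1 / 4 + 1 / 8 : ℝ) ≤ 4 ^ (1 : ℝ) :=
          Real.rpow_le_rpow_of_exponent_le (by norm_num) (by norm_num)
      _ = 4 := Real.rpow_one _
  have := h1 (T / 2) (4 * T) (C4 * (C5 * (4 * T ^ (1 / 8 : ℝ)))) (C2 * T ^ (21 / 16 : ℝ))
    (fun x => K x * Mk1 k x) (by linarith) hpq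
    (ContinuousOn.intervalIntegrable (by rw [uIcc_of_le hpq]; exact hKc.mul hMc)) ?_ ?_
  · have e1 : ∫ x in (T / 2)..(4 * T), Dr a L κ L0 c0 x * K x * Mk1 k x =
        ∫ x in (T / 2)..(4 * T), Dr a L κ L0 c0 x * (K x * Mk1 k x) := by
      apply intervalIntegral.integral_congr
      intro x _
      ring
    rw [e1]
    refine this.trans ?_
    have f1 : T ^ (21 / 16 : ℝ) ≤ T ^ (3 / 2 : ℝ) :=
      Real.rpow_le_rpow_of_exponent_le hT1 (by norm_num)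
    have f2 : C1 * (4 * T) ^ (1 / 4 + 1 / 8 : ℝ) * (4 * T - T / 2) *
        (C4 * (C5 * (4 * T ^ (1 / 8 : ℝ)))) ≤ C1 * 64 * C4 * C5 * T ^ (3 / 2 : ℝ) := by
      calc _ ≤ C1 * (4 * T ^ (1 / 4 + 1 / 8 : ℝ)) * (4 * T) *
            (C4 * (C5 * (4 * T ^ (1 / 8 : ℝ)))) := by
            gcongr
            linarith
        _ = C1 * 64 * C4 * C5 * (T ^ (1 / 4 + 1 / 8 : ℝ) * T ^ (1 : ℝ) * T ^ (1 / 8 : ℝ)) := by
            rw [Real.rpow_one]; ring
        _ = C1 * 64 * C4 * C5 * T ^ (3 / 2 : ℝ) := by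
            rw [← Real.rpow_add hT0, ← Real.rpow_add hT0]; norm_num
    have f3 : C1 * (C2 * T ^ (21 / 16 : ℝ)) ≤ C1 * (C2 * T ^ (3 / 2 : ℝ)) := by gcongr
    calc _ ≤ C1 * (C2 * T ^ (3 / 2 : ℝ)) + C1 * 64 * C4 * C5 * T ^ (3 / 2 : ℝ) := add_le_add f3 f2
      _ = _ := by ring
  · intro x hx
    have hx1 : 1 ≤ x := by linarith [hx.1]
    have hx0 : 0 < x := by linarith
    obtain ⟨-, -, -, k1, k2, -⟩ := h4 T s θ φ hT1 hs x hx0
    rw [abs_mul]
    have k3 : |K x| ≤ C4 := by rw [abs_of_nonneg (show 0 ≤ K x from k1)]; exact k2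
    have k4 : |Mk1 k x| ≤ C5 * (4 * T ^ (1 / 8 : ℝ)) := by
      refine (h5 x hx1).2.1.trans (mul_le_mul_of_nonneg_left ?_ hC5.le)
      exact (Real.rpow_le_rpow hx0.le hx.2 (by norm_num)).trans hT18
    exact mul_le_mul k3 k4 (abs_nonneg _) hC4.le
  · intro m
    have e1 : ∫ x in (T / 2)..(4 * T), Pm κ c0 (m + 2) x * (K x * Mk1 k x) =
        ∫ x in (T / 2)..(4 * T), Mk1 k x * (Pm κ c0 (m + 2) x * K x) := by
      apply intervalIntegral.integral_congr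
      intro x _
      ring
    rw [e1]
    exact h2 T s θ φ hTb hs (m + 2) (by omega)
--END AC4

--BEGIN AC5
private lemma AC5_Ek_int (k : ℕ) {p q : ℝ} (hp : 1 ≤ p) (hpq : p ≤ q) :
    IntervalIntegrable (Ek k) volume p q := by
  obtain ⟨C, hC, h1, h2⟩ := Ek_trivial k (ε := 1) one_pos
  rw [intervalIntegrable_iff_integrableOn_Ioc_of_le hpq]
  refine Measure.integrableOn_of_bounded (M := C * (q + 1) ^ 2) (by simp)
    (Ek_meas k).aestronglyMeasurable ?_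
  refine (ae_restrict_iff' measurableSet_Ioc).2 (Eventually.of_forall fun x hx => ?_)
  rw [Real.norm_eq_abs]
  refine (h1 x (by linarith [hx.1])).trans ?_
  rw [show (1 : ℝ) + 1 = ((2 : ℕ) : ℝ) by norm_num, Real.rpow_natCast]
  have : 0 ≤ x := by linarith [hx.1]
  gcongr
  linarith [hx.2]

/-- **AC5.** The integral of `D_r K' Δ_k`. -/
theorem total_err (h : RealSelberg a L 2) (hv : Vor a L κ L0 c0) {ϕ ρ : ℝ → ℝ}
    (hϕ : IsBump ϕ (1 / 2) (3 / 4) 3 4) (hρ : IsBump ρ (1 / 4) (3 / 8) (5 / 8) (3 / 4)) {k : ℕ}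
    (hk : 4 ≤ k) : ∃ C T0 : ℝ, 0 < C ∧ 1 ≤ T0 ∧ ∀ T s θ φ : ℝ, T0 ≤ T → |s| ≤ 1 →
      |∫ x in (T / 2)..(4 * T), Dr a L κ L0 c0 x * deriv (KK ϕ ρ κ φ k T s θ) x * Ek k x| ≤
        C * T ^ (7 / 4 - 1 / (2 * (k : ℝ)) - 1 / (16 * (k : ℝ))) := by
  have hk4 : (4 : ℝ) ≤ k := by exact_mod_cast hk
  have hk0 : (0 : ℝ) < k := by linarith
  obtain ⟨C1, hC1, h1⟩ := AC4_gen h hv (δ := 1 / (16 * (k : ℝ))) (by positivity)
  obtain ⟨C2, T2, hC2, hT2, h2⟩ := term_err hϕ hρ hv.kpos c0 hk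
  obtain ⟨C4, hC4, h4⟩ := KK_deriv_bound hϕ hρ hv.kpos hk
  obtain ⟨C5, hC5, h5⟩ := Ek_bound (k := k) (by omega) (ε := 1 / (16 * (k : ℝ))) (by positivity)
  refine ⟨C1 * C2 + C1 * 64 * C4 * C5, max 2 T2, by positivity,
    le_trans (by norm_num) (le_max_left _ _), fun T s θ φ hT hs => ?_⟩
  have hTa : 2 ≤ T := le_trans (le_max_left _ _) hT
  have hTb : T2 ≤ T := le_trans (le_max_right _ _) hT
  have hT1 : 1 ≤ T := by linarith
  have hT0 : 0 < T := by linarith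
  set K := KK ϕ ρ κ φ k T s θ with hK
  have hKc : ContinuousOn (deriv K) (Icc (T / 2) (4 * T)) := fun x hx =>
    (h4 T s θ φ hT1 hs x (by linarith [hx.1])).2.1.continuousWithinAt
  have hpq : T / 2 ≤ 4 * T := by linarith
  have hkk : 1 / (16 * (k : ℝ)) ≤ 1 / 64 := by
    apply one_div_le_one_div_of_le (by norm_num); linarith
  have hkk0 : 0 < 1 / (16 * (k : ℝ)) := by positivity
  have hk34 : 3 / (4 * (k : ℝ)) ≤ 3 / 16 := by
    apply div_le_div_of_nonneg_left (by norm_num) (by norm_num); linarith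
  have hk340 : 0 ≤ 3 / (4 * (k : ℝ)) := by positivity
  have hpow : ∀ β : ℝ, 0 ≤ β → β ≤ 1 → (4 * T) ^ β ≤ 4 * T ^ β := by
    intro β hβ0 hβ1
    rw [Real.mul_rpow (by norm_num) hT0.le]
    gcongr
    calc (4 : ℝ) ^ β ≤ 4 ^ (1 : ℝ) := Real.rpow_le_rpow_of_exponent_le (by norm_num) hβ1
      _ = 4 := Real.rpow_one _
  set β1 := 1 / 4 + 1 / (16 * (k : ℝ)) with hβ1
  set β2 := 1 - 3 / (4 * (k : ℝ)) + 1 / (16 * (k : ℝ)) with hβ2
  have hβ2' : β2 ≤ 1 := by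
    have : 1 / (16 * (k : ℝ)) ≤ 3 / (4 * (k : ℝ)) := by
      rw [div_le_div_iff₀ (by positivity) (by positivity)]; linarith
    rw [hβ2]; linarith
  have hT38 := hpow β1 (by rw [hβ1]; linarith) (by rw [hβ1]; linarith)
  have hT18 := hpow β2 (by rw [hβ2]; linarith) hβ2'
  have hEi := AC5_Ek_int k (p := T / 2) (q := 4 * T) (by linarith) hpq
  have := h1 (T / 2) (4 * T) (C4 * T ^ (-(1 / 2) : ℝ) * (C5 * (4 * T ^ β2)))
    (C2 * T ^ (7 / 4 - 1 / (2 * (k : ℝ)) - 1 / (16 * (k : ℝ))))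
    (fun x => deriv K x * Ek k x) (by linarith) hpq
    (hEi.continuousOn_mul (by rw [uIcc_of_le hpq]; exact hKc)) ?_ ?_
  · have e1 : ∫ x in (T / 2)..(4 * T), Dr a L κ L0 c0 x * deriv K x * Ek k x =
        ∫ x in (T / 2)..(4 * T), Dr a L κ L0 c0 x * (deriv K x * Ek k x) := by
      apply intervalIntegral.integral_congr
      intro x _
      ring
    rw [e1]
    refine this.trans ?_
    have f2 : C1 * (4 * T) ^ β1 * (4 * T - T / 2) *
        (C4 * T ^ (-(1 / 2) : ℝ) * (C5 * (4 * T ^ β2))) ≤ C1 * 64 * C4 * C5 *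
          T ^ (7 / 4 - 1 / (2 * (k : ℝ)) - 1 / (16 * (k : ℝ))) := by
      calc _ ≤ C1 * (4 * T ^ β1) * (4 * T) *
            (C4 * T ^ (-(1 / 2) : ℝ) * (C5 * (4 * T ^ β2))) := by
            gcongr
            linarith
        _ = C1 * 64 * C4 * C5 * (T ^ β1 * T ^ (1 : ℝ) * T ^ (-(1 / 2) : ℝ) * T ^ β2) := by
            rw [Real.rpow_one]; ring
        _ = C1 * 64 * C4 * C5 * T ^ (β1 + 1 + -(1 / 2) + β2) := by
            rw [← Real.rpow_add hT0, ← Real.rpow_add hT0, ← Real.rpow_add hT0]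
        _ ≤ _ := by
            refine mul_le_mul_of_nonneg_left ?_ (by positivity)
            apply Real.rpow_le_rpow_of_exponent_le hT1
            have e3 : 3 / (4 * (k : ℝ)) = 1 / (2 * k) + 1 / (16 * k) + 1 / (16 * (k : ℝ)) +
                1 / (8 * k) := by
              field_simp; norm_num
            have e4 : 1 / (8 * (k : ℝ)) = 1 / (16 * k) + 1 / (16 * k) := by
              field_simp; norm_num
            rw [hβ1, hβ2]
            linarith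
    calc _ ≤ C1 * (C2 * T ^ (7 / 4 - 1 / (2 * (k : ℝ)) - 1 / (16 * (k : ℝ)))) +
          C1 * 64 * C4 * C5 * T ^ (7 / 4 - 1 / (2 * (k : ℝ)) - 1 / (16 * (k : ℝ))) :=
          add_le_add le_rfl f2
      _ = _ := by ring
  · intro x hx
    have hx1 : 1 ≤ x := by linarith [hx.1]
    have hx0 : 0 < x := by linarith
    obtain ⟨-, -, k3, -⟩ := h4 T s θ φ hT1 hs x hx0
    rw [abs_mul]
    have k4 : |Ek k x| ≤ C5 * (4 * T ^ β2) := by
      refine (h5 x hx1).trans (mul_le_mul_of_nonneg_left ?_ hC5.le)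
      exact (Real.rpow_le_rpow hx0.le hx.2 (by rw [hβ2]; linarith)).trans hT18
    exact mul_le_mul k3 k4 (abs_nonneg _) (by positivity)
  · intro m
    have e1 : ∫ x in (T / 2)..(4 * T), Pm κ c0 (m + 2) x * (deriv K x * Ek k x) =
        ∫ x in (T / 2)..(4 * T), Ek k x * (Pm κ c0 (m + 2) x * deriv K x) := by
      apply intervalIntegral.integral_congr
      intro x _
      ring
    rw [e1]
    exact h2 T s θ φ hTb hs (m + 2) (by omega)
--END AC5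

--BEGIN AC6
private lemma AC6_ac {f f' : ℝ → ℝ} (h : ∀ x, 0 < x → HasDerivAt f (f' x) x)
    (hc : ContinuousOn f' (Ioi 0)) {p q : ℝ} (hp : 0 < p) (hpq : p ≤ q) :
    AbsolutelyContinuousOnInterval f p q := by
  have h1 : ContDiffOn ℝ 1 f (Ioi 0) := by
    have h2 : ContDiffOn ℝ (0 + 1) f (Ioi 0) := by
      rw [contDiffOn_succ_iff_deriv_of_isOpen isOpen_Ioi]
      refine ⟨fun x hx => (h x hx).differentiableAt.differentiableWithinAt, by simp, ?_⟩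
      rw [contDiffOn_zero]
      exact hc.congr fun x hx => (h x hx).deriv
    simpa using h2
  apply ContDiffOn.absolutelyContinuousOnInterval
  apply h1.mono
  rw [uIcc_of_le hpq]
  exact fun x hx => lt_of_lt_of_le hp hx.1

private lemma AC6_P1d_cont (κ : ℝ) (c0 : ℂ) : ContinuousOn (P1d κ c0) (Ioi 0) := by
  have h1 : ∀ β : ℝ, ContinuousOn (fun x : ℝ => x ^ β) (Ioi 0) := fun β =>
    continuousOn_id.rpow_const fun x hx => Or.inl (ne_of_gt hx)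
  have h2 : Continuous (fun x : ℝ => e (2 * √(κ * x))) := by
    unfold e
    fun_prop
  unfold P1d
  refine ContinuousOn.add ?_ ?_
  · exact (h1 _).mul (continuous_re.comp (continuous_const.mul h2)).continuousOn
  · exact (continuousOn_const.mul (h1 _)).mul
      (continuous_re.comp (continuous_const.mul h2)).continuousOn

private lemma AC6_Ek_int (k : ℕ) {p q : ℝ} (hp : 1 / 2 ≤ p) (hpq : p ≤ q) :
    IntervalIntegrable (Ek k) volume p q := by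
  obtain ⟨C, hC, h1, h2⟩ := Ek_trivial k (ε := 1) one_pos
  rw [intervalIntegrable_iff_integrableOn_Ioc_of_le hpq]
  refine Measure.integrableOn_of_bounded (M := C * (q + 1) ^ 2) (by simp) 
    (Ek_meas k).aestronglyMeasurable ?_
  refine (ae_restrict_iff' measurableSet_Ioc).2 (Eventually.of_forall fun x hx => ?_)
  rw [Real.norm_eq_abs]
  rcases le_or_gt 1 x with h | h
  · refine (h1 x h).trans ?_
    rw [show (1 : ℝ) + 1 = ((2 : ℕ) : ℝ) by norm_num, Real.rpow_natCast]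
    gcongr
    linarith [hx.2]
  · have hx0 : 0 < x := by linarith [hx.1]
    refine (h2 x hx0 h.le).trans ?_
    have e1 : x ^ (1 / 2 : ℝ) ≤ 1 := Real.rpow_le_one hx0.le h.le (by norm_num)
    have e2 : 1 ≤ (q + 1) ^ 2 := by nlinarith
    exact mul_le_mul_of_nonneg_left (e1.trans e2) hC.le

/-- **AC6.** The identity. -/
theorem parts_identity (h : RealSelberg a L 2) (hκ : 0 < κ) {ϕ ρ : ℝ → ℝ}
    (hϕ : IsBump ϕ (1 / 2) (3 / 4) 3 4) (hρ : IsBump ρ (1 / 4) (3 / 8) (5 / 8) (3 / 4)) {k : ℕ}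
    (hk : 4 ≤ k) {T s θ φ : ℝ} (hT : 1 ≤ T) (hs : |s| ≤ 1) :
    ∫ x in (T / 2)..(4 * T), errTerm a L x * Ek k x * KK ϕ ρ κ φ k T s θ x =
      (∫ x in (T / 2)..(4 * T), (L0 + P1d κ c0 x) * Ek k x * KK ϕ ρ κ φ k T s θ x) -
      (∑ n ∈ Finset.Icc 1 ⌊4 * T⌋₊, dk k n * (Dr a L κ L0 c0 n * KK ϕ ρ κ φ k T s θ n)) +
      (∫ x in (T / 2)..(4 * T), Dr a L κ L0 c0 x * KK ϕ ρ κ φ k T s θ x * Mk1 k x) -
      ∫ x in (T / 2)..(4 * T), Dr a L κ L0 c0 x * deriv (KK ϕ ρ κ φ k T s θ) x * Ek k x := by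
  obtain ⟨C, hC, h3⟩ := KK_deriv_bound hϕ hρ hκ hk
  have hK := fun x hx => h3 T s θ φ hT hs x hx
  set K := KK ϕ ρ κ φ k T s θ with hKdef
  set D := Dr a L κ L0 c0 with hDdef
  set p := T / 2 with hp
  set q := 4 * T with hq
  have hp0 : 0 < p := by rw [hp]; linarith
  have hp2 : 1 / 2 ≤ p := by rw [hp]; linarith
  have hpq : p ≤ q := by rw [hp, hq]; linarith
  have hE : IntervalIntegrable (errTerm a L) volume 0 q := (int_errTerm h).1 q (by linarith)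
  have hEpq : IntervalIntegrable (errTerm a L) volume p q :=
    hE.mono_set (by rw [uIcc_of_le hpq, uIcc_of_le (hp0.le.trans hpq)]; exact Icc_subset_Icc_left hp0.le)
  have hKd : ∀ x, 0 < x → HasDerivAt K (deriv K x) x := fun x hx => (hK x hx).1.hasDerivAt
  have hKdc : ContinuousOn (deriv K) (Ioi 0) := fun x hx => (hK x hx).2.1.continuousWithinAt
  have hKc : ContinuousOn K (Ioi 0) := fun x hx => (hK x hx).1.continuousAt.continuousWithinAt
  have hsub : ∀ {x : ℝ}, Icc p x ⊆ Ioi 0 := fun {x} y hy => lt_of_lt_of_le hp0 hy.1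
  have hKac : ∀ x, p ≤ x → AbsolutelyContinuousOnInterval K p x := fun x hx =>
    AC6_ac hKd hKdc hp0 hx
  have hP := fun x (hx : 0 < x) => Pm_one_deriv hκ c0 hx
  have hPac : AbsolutelyContinuousOnInterval (Pm κ c0 1) p q := AC6_ac hP (AC6_P1d_cont κ c0) hp0 hpq
  have hDac : AbsolutelyContinuousOnInterval D p q := by
    have e1 : AbsolutelyContinuousOnInterval (fun x => ∫ t in (0 : ℝ)..x, errTerm a L t) p q := by
      refine AbsolutelyContinuousOnInterval.mono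
        (hE.absolutelyContinuousOnInterval_intervalIntegral (c := 0) left_mem_uIcc) ?_
      rw [uIcc_of_le hpq, uIcc_of_le (hp0.le.trans hpq)]
      exact Icc_subset_Icc_left hp0.le
    have e2 : AbsolutelyContinuousOnInterval (fun x => L0 * x) p q :=
      AC6_ac (f' := fun _ => L0) (fun x _ => by simpa using (hasDerivAt_id x).const_mul L0)
        continuousOn_const hp0 hpq
    exact (e1.sub e2).sub hPac
  have hDc : ContinuousOn D (Icc p q) := by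
    have := hDac.continuousOn
    rwa [uIcc_of_le hpq] at this
  set F' : ℝ → ℝ := fun x => (errTerm a L x - L0 - P1d κ c0 x) * K x + D x * deriv K x with hF'
  have hPdi : IntervalIntegrable (P1d κ c0) volume p q :=
    ContinuousOn.intervalIntegrable (by
      rw [uIcc_of_le hpq]; exact (AC6_P1d_cont κ c0).mono hsub)
  have hKi : ContinuousOn K (uIcc p q) := by rw [uIcc_of_le hpq]; exact hKc.mono hsub
  have hDKi : ContinuousOn (fun x => D x * deriv K x) (uIcc p q) := by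
    rw [uIcc_of_le hpq]; exact hDc.mul (hKdc.mono hsub)
  have hF'i : IntervalIntegrable F' volume p q := by
    refine IntervalIntegrable.add ?_ hDKi.intervalIntegrable
    exact ((hEpq.sub (by simp)).sub hPdi).mul_continuousOn hKi
  have hder : ∀ᵐ x, x ∈ uIcc p q → HasDerivAt D (errTerm a L x - L0 - P1d κ c0 x) x := by
    filter_upwards [hE.ae_hasDerivAt_integral] with x hx hxI
    rw [uIcc_of_le hpq] at hxI
    have hx0 : 0 < x := lt_of_lt_of_le hp0 hxI.1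
    have e1 := hx (by rw [uIcc_of_le (hp0.le.trans hpq)]; exact ⟨hx0.le, hxI.2⟩) 0 left_mem_uIcc
    have e2 : HasDerivAt (fun x => L0 * x) L0 x := by simpa using (hasDerivAt_id x).const_mul L0
    exact (e1.sub e2).sub (hP x hx0)
  have hK0 : K p = 0 := (hK p hp0).2.2.2.2.2 (by simp [hp])
  have hKq : K q = 0 := (hK q (by linarith)).2.2.2.2.2 (by simp [hq])
  have hF : ∀ x ∈ Icc p q, D x * K x = ∫ t in p..x, F' t := by
    intro x hx
    have hmono : uIcc p x ⊆ uIcc p q := by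
      rw [uIcc_of_le hx.1, uIcc_of_le hpq]; exact Icc_subset_Icc_right hx.2
    have e1 := (hDac.mono hmono).integral_deriv_mul_eq_sub (hKac x hx.1)
    rw [hK0, mul_zero, sub_zero] at e1
    rw [← e1]
    apply intervalIntegral.integral_congr_ae
    filter_upwards [hder] with y hy hyI
    have hyI' : y ∈ uIcc p q := hmono (uIoc_subset_uIcc hyI)
    rw [(hy hyI').deriv]
  have hEk := AC6_Ek_int k hp2 hpq
  obtain ⟨i1, i2⟩ := int_Ek_parts k hp0 hpq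
    ((intervalIntegrable_iff_integrableOn_Icc_of_le hpq).1 hF'i) hF (by rw [hKq, mul_zero])
  have i1' : IntervalIntegrable (fun x => F' x * Ek k x) volume p q :=
    (intervalIntegrable_iff_integrableOn_Icc_of_le hpq).2 i1
  have j1 : IntervalIntegrable (fun x => (L0 + P1d κ c0 x) * Ek k x * K x) volume p q := by
    have : ContinuousOn (fun x => L0 + P1d κ c0 x) (uIcc p q) := by
      rw [uIcc_of_le hpq]; exact continuousOn_const.add ((AC6_P1d_cont κ c0).mono hsub)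
    exact (hEk.continuousOn_mul this).mul_continuousOn hKi
  have j2 : IntervalIntegrable (fun x => D x * deriv K x * Ek k x) volume p q :=
    hEk.continuousOn_mul hDKi
  have main : ∫ x in p..q, errTerm a L x * Ek k x * K x =
      (∫ x in p..q, (L0 + P1d κ c0 x) * Ek k x * K x) + (∫ x in p..q, F' x * Ek k x) -
        ∫ x in p..q, D x * deriv K x * Ek k x := by
    rw [← intervalIntegral.integral_add j1 i1', ← intervalIntegral.integral_sub (j1.add i1') j2]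
    apply intervalIntegral.integral_congr
    intro x _
    simp only [hF']
    ring
  rw [main, i2]
  have hsum : (∑ n ∈ Finset.Icc 1 ⌊q⌋₊, if p ≤ (n : ℝ) then dk k n * (D n * K n) else 0) =
      ∑ n ∈ Finset.Icc 1 ⌊q⌋₊, dk k n * (D n * K n) := by
    apply Finset.sum_congr rfl
    intro n hn
    rw [Finset.mem_Icc] at hn
    have hn0 : (0 : ℝ) < n := by exact_mod_cast hn.1
    split_ifs with hpn
    · rfl
    · have : K n = 0 := (hK n hn0).2.2.2.2.2 fun hh => hpn hh.1.le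
      rw [this]; ring
  rw [hsum]
  have : (∫ x in p..q, D x * K x * Mk1 k x) = ∫ x in p..q, (D x * K x) * Mk1 k x := rfl
  ring
--END AC6

--BEGIN AC7
private lemma AC7_conv {p q : ℝ} (hp : 0 < p) (hpq : p ≤ q) {f : ℝ → ℝ}
    (hf : ∀ x, 0 < x → x ∉ Icc p q → f x = 0) :
    ∫ x in Ioi (0 : ℝ), f x = ∫ x in p..q, f x := by
  rw [intervalIntegral.integral_of_le hpq, ← integral_Icc_eq_integral_Ioc]
  refine setIntegral_eq_of_subset_of_forall_sdiff_eq_zero measurableSet_Ioi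
    (fun x hx => lt_of_lt_of_le hp hx.1) ?_
  intro x hx
  exact hf x hx.1 hx.2

private lemma AC7_Ek_int (k : ℕ) {p q : ℝ} (hp : 1 / 2 ≤ p) (hpq : p ≤ q) :
    IntervalIntegrable (Ek k) volume p q := by
  obtain ⟨C, hC, h1, h2⟩ := Ek_trivial k (ε := 1) one_pos
  rw [intervalIntegrable_iff_integrableOn_Ioc_of_le hpq]
  refine Measure.integrableOn_of_bounded (M := C * (q + 1) ^ 2) (by simp) 
    (Ek_meas k).aestronglyMeasurable ?_
  refine (ae_restrict_iff' measurableSet_Ioc).2 (Eventually.of_forall fun x hx => ?_)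
  rw [Real.norm_eq_abs]
  rcases le_or_gt 1 x with h | h
  · refine (h1 x h).trans ?_
    rw [show (1 : ℝ) + 1 = ((2 : ℕ) : ℝ) by norm_num, Real.rpow_natCast]
    gcongr
    linarith [hx.2]
  · have hx0 : 0 < x := by linarith [hx.1]
    refine (h2 x hx0 h.le).trans ?_
    have e1 : x ^ (1 / 2 : ℝ) ≤ 1 := Real.rpow_le_one hx0.le h.le (by norm_num)
    have e2 : 1 ≤ (q + 1) ^ 2 := by nlinarith
    exact mul_le_mul_of_nonneg_left (e1.trans e2) hC.le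

private lemma AC7_e_norm (x : ℝ) : ‖e x‖ = 1 := by
  unfold e
  rw [Complex.norm_exp]
  simp

/-- the phase of the resonant term -/
private lemma AC7_phase (C1 : ℂ) (y : ℝ) :
    (C1 * e (2 * y)).re = ‖C1‖ * Real.cos (4 * π * y + arg C1) := by
  have h1 : C1 * e (2 * y) = ‖C1‖ * cexp ((4 * π * y + arg C1 : ℝ) * I) := by
    conv_lhs => rw [← Complex.norm_mul_exp_arg_mul_I C1]
    rw [mul_assoc]
    congr 1
    unfold e
    rw [← Complex.exp_add]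
    congr 1
    push_cast
    ring
  rw [h1, Complex.re_ofReal_mul, Complex.exp_ofReal_mul_I_re]

private lemma AC7_W_cont {ϕ ρ : ℝ → ℝ} (hϕ : IsBump ϕ (1 / 2) (3 / 4) 3 4)
    (hρ : IsBump ρ (1 / 4) (3 / 8) (5 / 8) (3 / 4)) {k : ℕ} (hk : 4 ≤ k) {T s θ : ℝ} (hT : 1 ≤ T)
    (hs : |s| ≤ 1) : ContinuousOn (fun x => ϕ (x / T) * Kslow ρ k T s θ x) (Ioi 0) := by
  obtain ⟨C, hC, h⟩ := slow_expand hϕ hρ hk
  obtain ⟨g, hg, he⟩ := h T s θ hT hs
  have h1 : ContinuousOn (fun x : ℝ => ∑ l ∈ Finset.Icc (-1 : ℤ) 1, g l x * e (ph k 0 (l * k) x))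
      (Ioi 0) := by
    refine continuousOn_finsetSum _ fun l hl => ?_
    rw [Finset.mem_Icc] at hl
    have : |l| ≤ 1 := abs_le.2 hl
    refine ((hg l this).smooth.continuous.continuousOn).mul ?_
    have h2 : ContinuousOn (fun x : ℝ => ph k 0 (l * k) x) (Ioi 0) := by
      unfold ph
      refine ContinuousOn.add (by fun_prop) (continuousOn_const.mul ?_)
      exact continuousOn_id.rpow_const fun x hx => Or.inl (ne_of_gt hx)
    have h3 : Continuous e := by unfold e; fun_prop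
    exact h3.comp_continuousOn h2
  have h2 : ContinuousOn (fun x : ℝ => (∑ l ∈ Finset.Icc (-1 : ℤ) 1,
      g l x * e (ph k 0 (l * k) x)).re) (Ioi 0) := continuous_re.comp_continuousOn h1
  refine h2.congr fun x hx => ?_
  change _ = (∑ l ∈ Finset.Icc (-1 : ℤ) 1, g l x * e (ph k 0 (l * k) x)).re
  rw [← he x hx, ofReal_re]

/-- **AC7.** The resonant part: with `φ = arg(2πi√κ c0)`,
`∫ (L0 + P_1') Δ_k K = (|C_1|/2) ∫ x^{1/4} Δ_k ϕ K_slow + small`. -/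
theorem resonant (hκ : 0 < κ) (c0 : ℂ) (L0 : ℝ) {ϕ ρ : ℝ → ℝ}
    (hϕ : IsBump ϕ (1 / 2) (3 / 4) 3 4) (hρ : IsBump ρ (1 / 4) (3 / 8) (5 / 8) (3 / 4)) {k : ℕ}
    (hk : 4 ≤ k) (θ : ℝ) (hθ : ∃ C T0 : ℝ, 0 < C ∧ 1 ≤ T0 ∧ ∀ T : ℝ, T0 ≤ T → ∀ s : ℝ,
      (s = 1 ∨ s = -1) → |∫ x in Ioi (0 : ℝ), Ek k x * (ϕ (x / T) * Kslow ρ k T s θ x)| ≤
        C * Xw k T * T ^ (1 / 2 - 1 / (2 * (k : ℝ)))) :
    ∃ C T0 : ℝ, 0 < C ∧ 1 ≤ T0 ∧ ∀ T s : ℝ, T0 ≤ T → (s = 1 ∨ s = -1) →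
      |(∫ x in (T / 2)..(4 * T), (L0 + P1d κ c0 x) * Ek k x *
          KK ϕ ρ κ (arg (2 * π * I * √κ * c0)) k T s θ x) -
        ‖2 * π * I * √κ * c0‖ / 2 *
          ∫ x in Ioi (0 : ℝ), Ek k x * x ^ (1 / 4 : ℝ) * (ϕ (x / T) * Kslow ρ k T s θ x)| ≤
        C * T ^ (7 / 4 - 1 / (2 * (k : ℝ)) - 1 / (16 * (k : ℝ))) := by
  obtain ⟨C0, T0, hC0, hT0, h0⟩ := hθ
  obtain ⟨C1, T1, hC1, hT1, h1⟩ := nonres hϕ hρ hκ hk
  have hk4 : (4 : ℝ) ≤ k := by exact_mod_cast hk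
  have hk0 : (0 : ℝ) < k := by linarith
  obtain ⟨C2, hC2, h2⟩ := Ek_bound (k := k) (by omega) (ε := 1 / (16 * (k : ℝ))) (by positivity)
  obtain ⟨C3, hC3, h3⟩ := KK_deriv_bound hϕ hρ hκ hk
  set φ := arg (2 * π * I * √κ * c0) with hφ
  set N := ‖2 * π * I * √κ * c0‖ with hN
  have hN0 : 0 ≤ N := norm_nonneg _
  set B : ℝ := |L0| * C0 + |L0| * C1 + N * C1 + N / 2 * C1 +
    3 / 4 * 2 * ‖c0‖ * (C2 * 4) * C3 * 4 with hB
  have hB0 : 0 ≤ B := by positivity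
  refine ⟨B + 1, max 2 (max T0 T1), by linarith, by
    exact le_trans (by norm_num) (le_max_left _ _), fun T s hT hs => ?_⟩
  simp only [max_le_iff] at hT
  obtain ⟨hTa, hTb, hTc⟩ := hT
  have hT1' : 1 ≤ T := by linarith
  have hTpos : 0 < T := by linarith
  have hs1 : |s| ≤ 1 := by rcases hs with rfl | rfl <;> simp
  set p := T / 2 with hp
  set q := 4 * T with hq
  have hp1 : 1 ≤ p := by rw [hp]; linarith
  have hp0 : 0 < p := by linarith
  have hpq : p ≤ q := by rw [hp, hq]; linarith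
  have hsub : Icc p q ⊆ Ioi (0 : ℝ) := fun y hy => lt_of_lt_of_le hp0 hy.1
  set W : ℝ → ℝ := fun x => ϕ (x / T) * Kslow ρ k T s θ x with hW
  have hWc : ContinuousOn W (Icc p q) := (AC7_W_cont hϕ hρ hk hT1' hs1).mono hsub
  have hW0 : ∀ x, 0 < x → x ∉ Icc p q → W x = 0 := by
    intro x hx hxn
    have : x / T ∉ Icc (1 / 2 : ℝ) 4 := by
      intro hh
      apply hxn
      rw [mem_Icc, le_div_iff₀ hTpos, div_le_iff₀ hTpos] at hh
      exact ⟨by rw [hp]; linarith [hh.1], by rw [hq]; linarith [hh.2]⟩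
    simp only [hW]
    rw [hϕ.zero _ this, zero_mul]
  have hEi := AC7_Ek_int k (p := p) (q := q) (by linarith) hpq
  have hu : uIcc p q = Icc p q := uIcc_of_le hpq
  set u : ℝ → ℝ := fun x => 4 * π * √(κ * x) + φ with hu'
  have huc : Continuous u := by simp only [hu']; fun_prop
  -- the basic integrals
  have key : ∀ g : ℝ → ℝ, ContinuousOn g (Icc p q) →
      IntervalIntegrable (fun x => Ek k x * g x) volume p q := fun g hg =>
    hEi.mul_continuousOn (by rw [hu]; exact hg)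
  have hx14 : ContinuousOn (fun x : ℝ => x ^ (1 / 4 : ℝ)) (Icc p q) :=
    continuousOn_id.rpow_const fun x hx => Or.inl (ne_of_gt (hsub hx))
  have hxm14 : ContinuousOn (fun x : ℝ => x ^ (-(1 / 4) : ℝ)) (Icc p q) :=
    continuousOn_id.rpow_const fun x hx => Or.inl (ne_of_gt (hsub hx))
  have hc1 : ContinuousOn (fun x => Real.cos (u x)) (Icc p q) :=
    (Real.continuous_cos.comp huc).continuousOn
  have hc2 : ContinuousOn (fun x => Real.cos (2 * u x)) (Icc p q) :=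
    (Real.continuous_cos.comp (continuous_const.mul huc)).continuousOn
  have hec : Continuous (fun x : ℝ => (c0 * e (2 * √(κ * x))).re) := by
    unfold e
    fun_prop
  have a0 := h0 T hTb s hs
  have a1 := h1 T s θ φ hTc hs1 1 (Or.inl rfl) 0 le_rfl (by norm_num)
  have a2 := h1 T s θ φ hTc hs1 1 (Or.inl rfl) (1 / 4) (by norm_num) le_rfl
  have a3 := h1 T s θ φ hTc hs1 2 (Or.inr rfl) (1 / 4) (by norm_num) le_rfl
  -- rewriting as interval integrals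
  rw [AC7_conv hp0 hpq (f := fun x => Ek k x * (ϕ (x / T) * Kslow ρ k T s θ x))
    (fun x hx hxn => by have := hW0 x hx hxn; simp only [hW] at this; rw [this, mul_zero])] at a0
  rw [AC7_conv hp0 hpq (f := fun x => Ek k x * x ^ (0 : ℝ) *
      Real.cos ((1 : ℕ) * (4 * π * √(κ * x) + φ)) * (ϕ (x / T) * Kslow ρ k T s θ x))
    (fun x hx hxn => by have := hW0 x hx hxn; simp only [hW] at this; rw [this, mul_zero])] at a1
  rw [AC7_conv hp0 hpq (f := fun x => Ek k x * x ^ (1 / 4 : ℝ) *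
      Real.cos ((1 : ℕ) * (4 * π * √(κ * x) + φ)) * (ϕ (x / T) * Kslow ρ k T s θ x))
    (fun x hx hxn => by have := hW0 x hx hxn; simp only [hW] at this; rw [this, mul_zero])] at a2
  rw [AC7_conv hp0 hpq (f := fun x => Ek k x * x ^ (1 / 4 : ℝ) *
      Real.cos ((2 : ℕ) * (4 * π * √(κ * x) + φ)) * (ϕ (x / T) * Kslow ρ k T s θ x))
    (fun x hx hxn => by have := hW0 x hx hxn; simp only [hW] at this; rw [this, mul_zero])] at a3
  rw [AC7_conv hp0 hpq (f := fun x => Ek k x * x ^ (1 / 4 : ℝ) *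
      (ϕ (x / T) * Kslow ρ k T s θ x))
    (fun x hx hxn => by have := hW0 x hx hxn; simp only [hW] at this; rw [this, mul_zero])]
  set I0 := ∫ x in p..q, Ek k x * (ϕ (x / T) * Kslow ρ k T s θ x) with hI0
  set I1 := ∫ x in p..q, Ek k x * x ^ (0 : ℝ) *
      Real.cos ((1 : ℕ) * (4 * π * √(κ * x) + φ)) * (ϕ (x / T) * Kslow ρ k T s θ x) with hI1
  set I2 := ∫ x in p..q, Ek k x * x ^ (1 / 4 : ℝ) *
      Real.cos ((1 : ℕ) * (4 * π * √(κ * x) + φ)) * (ϕ (x / T) * Kslow ρ k T s θ x) with hI2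
  set I3 := ∫ x in p..q, Ek k x * x ^ (1 / 4 : ℝ) *
      Real.cos ((2 : ℕ) * (4 * π * √(κ * x) + φ)) * (ϕ (x / T) * Kslow ρ k T s θ x) with hI3
  set I5 := ∫ x in p..q, Ek k x * x ^ (1 / 4 : ℝ) * (ϕ (x / T) * Kslow ρ k T s θ x) with hI5
  set I4 := ∫ x in p..q, Ek k x * (3 / 4 * x ^ (-(1 / 4) : ℝ) * (c0 * e (2 * √(κ * x))).re *
    ((1 + Real.cos (u x)) * W x)) with hI4
  have e0 : I0 = ∫ x in p..q, Ek k x * W x := rfl
  have e1 : I1 = ∫ x in p..q, Ek k x * (Real.cos (u x) * W x) := by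
    rw [hI1]; apply intervalIntegral.integral_congr; intro x _
    simp only [hu', hW, Real.rpow_zero, Nat.cast_one, one_mul, mul_one]; ring
  have e2 : I2 = ∫ x in p..q, Ek k x * (x ^ (1 / 4 : ℝ) * Real.cos (u x) * W x) := by
    rw [hI2]; apply intervalIntegral.integral_congr; intro x _
    simp only [hu', hW, Nat.cast_one, one_mul]; ring
  have e3 : I3 = ∫ x in p..q, Ek k x * (x ^ (1 / 4 : ℝ) * Real.cos (2 * u x) * W x) := by
    rw [hI3]; apply intervalIntegral.integral_congr; intro x _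
    simp only [hu', hW, Nat.cast_ofNat]; ring
  have e5 : I5 = ∫ x in p..q, Ek k x * (x ^ (1 / 4 : ℝ) * W x) := by
    rw [hI5]; apply intervalIntegral.integral_congr; intro x _
    simp only [hW]; ring
  have main : ∫ x in p..q, (L0 + P1d κ c0 x) * Ek k x * KK ϕ ρ κ φ k T s θ x =
      L0 * I0 + L0 * I1 + N * I2 + N / 2 * I3 + N / 2 * I5 + I4 := by
    rw [e0, e1, e2, e3, e5, hI4, ← intervalIntegral.integral_const_mul,
      ← intervalIntegral.integral_const_mul, ← intervalIntegral.integral_const_mul,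
      ← intervalIntegral.integral_const_mul, ← intervalIntegral.integral_const_mul]
    have c0' := (key _ hWc).const_mul L0
    have c1' := (key (fun x => Real.cos (u x) * W x) (hc1.mul hWc)).const_mul L0
    have c2' := (key (fun x => x ^ (1 / 4 : ℝ) * Real.cos (u x) * W x)
      ((hx14.mul hc1).mul hWc)).const_mul N
    have c3' := (key (fun x => x ^ (1 / 4 : ℝ) * Real.cos (2 * u x) * W x)
      ((hx14.mul hc2).mul hWc)).const_mul (N / 2)
    have c5' := (key (fun x => x ^ (1 / 4 : ℝ) * W x) (hx14.mul hWc)).const_mul (N / 2)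
    have c4' := key (fun x => 3 / 4 * x ^ (-(1 / 4) : ℝ) * (c0 * e (2 * √(κ * x))).re *
      ((1 + Real.cos (u x)) * W x)) (((continuousOn_const.mul hxm14).mul hec.continuousOn).mul
        ((continuousOn_const.add hc1).mul hWc))
    rw [← intervalIntegral.integral_add c0' c1', ← intervalIntegral.integral_add (c0'.add c1') c2',
      ← intervalIntegral.integral_add ((c0'.add c1').add c2') c3',
      ← intervalIntegral.integral_add (((c0'.add c1').add c2').add c3') c5',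
      ← intervalIntegral.integral_add ((((c0'.add c1').add c2').add c3').add c5') c4']
    apply intervalIntegral.integral_congr
    intro x hx
    have ph1 : (2 * π * I * √κ * c0 * e (2 * √(κ * x))).re = N * Real.cos (u x) :=
      AC7_phase (2 * π * I * √κ * c0) (√(κ * x))
    have ph2 : Real.cos (2 * u x) = 2 * Real.cos (u x) ^ 2 - 1 := Real.cos_two_mul _
    simp only [P1d, KK, Kf]
    rw [ph1, ph2]
    have hux : 4 * π * √(κ * x) + φ = u x := rfl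
    rw [hux]
    simp only [hW]
    ring
  have hT7 : 0 ≤ T ^ (7 / 4 - 1 / (2 * (k : ℝ)) - 1 / (16 * (k : ℝ))) := by positivity
  set R := T ^ (7 / 4 - 1 / (2 * (k : ℝ)) - 1 / (16 * (k : ℝ))) with hR
  have hk16 : 1 / (16 * (k : ℝ)) ≤ 1 / 4 := by
    apply one_div_le_one_div_of_le (by norm_num); linarith
  have b0 : |I0| ≤ C0 * R := by
    refine a0.trans ?_
    rw [mul_assoc]
    refine mul_le_mul_of_nonneg_left ?_ hC0.le
    rw [Xw, ← Real.rpow_add hTpos, hR]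
    apply Real.rpow_le_rpow_of_exponent_le hT1'
    have : 0 ≤ 1 / (32 * (k : ℝ)) := by positivity
    linarith
  have b1 : |I1| ≤ C1 * R := by
    refine a1.trans (mul_le_mul_of_nonneg_left ?_ hC1.le)
    apply Real.rpow_le_rpow_of_exponent_le hT1'
    linarith
  have b2 : |I2| ≤ C1 * R := by
    refine a2.trans (mul_le_mul_of_nonneg_left ?_ hC1.le)
    apply Real.rpow_le_rpow_of_exponent_le hT1'
    linarith
  have b3 : |I3| ≤ C1 * R := by
    refine a3.trans (mul_le_mul_of_nonneg_left ?_ hC1.le)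
    apply Real.rpow_le_rpow_of_exponent_le hT1'
    linarith
  have b4 : |I4| ≤ (3 / 4 * 2 * ‖c0‖ * (C2 * 4) * C3 * 4) * R := by
    have hbd : ∀ x ∈ uIoc p q, ‖Ek k x * (3 / 4 * x ^ (-(1 / 4) : ℝ) * (c0 * e (2 * √(κ * x))).re *
        ((1 + Real.cos (u x)) * W x))‖ ≤
        (3 / 4 * 2 * ‖c0‖ * (C2 * 4) * C3) * T ^ (-(1 / 4) + (1 - 3 / (4 * (k : ℝ)) + 1 / (16 * (k : ℝ)))) := by
      intro x hx
      rw [uIoc_of_le hpq] at hx
      have hx1 : 1 ≤ x := by linarith [hx.1]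
      have hx0 : 0 < x := by linarith
      have g1 := h2 x hx1
      have g2 : x ^ (1 - 3 / (4 * (k : ℝ)) + 1 / (16 * (k : ℝ))) ≤
          4 * T ^ (1 - 3 / (4 * (k : ℝ)) + 1 / (16 * (k : ℝ))) := by
        have he0 : 0 ≤ 1 - 3 / (4 * (k : ℝ)) + 1 / (16 * (k : ℝ)) := by
          have : 3 / (4 * (k : ℝ)) ≤ 1 := by rw [div_le_one (by positivity)]; linarith
          have : 0 ≤ 1 / (16 * (k : ℝ)) := by positivity
          linarith
        have he1 : 1 - 3 / (4 * (k : ℝ)) + 1 / (16 * (k : ℝ)) ≤ 1 := by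
          have : 1 / (16 * (k : ℝ)) ≤ 3 / (4 * (k : ℝ)) := by
            rw [div_le_div_iff₀ (by positivity) (by positivity)]; linarith
          linarith
        calc x ^ (1 - 3 / (4 * (k : ℝ)) + 1 / (16 * (k : ℝ)))
            ≤ (4 * T) ^ (1 - 3 / (4 * (k : ℝ)) + 1 / (16 * (k : ℝ))) :=
              Real.rpow_le_rpow hx0.le hx.2 he0
          _ = 4 ^ (1 - 3 / (4 * (k : ℝ)) + 1 / (16 * (k : ℝ))) *
              T ^ (1 - 3 / (4 * (k : ℝ)) + 1 / (16 * (k : ℝ))) :=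
              Real.mul_rpow (by norm_num) hTpos.le
          _ ≤ 4 ^ (1 : ℝ) * T ^ (1 - 3 / (4 * (k : ℝ)) + 1 / (16 * (k : ℝ))) := by
              gcongr
              · norm_num
          _ = _ := by rw [Real.rpow_one]
      have g3 : x ^ (-(1 / 4) : ℝ) ≤ 2 * T ^ (-(1 / 4) : ℝ) := by
        have hxp : T / 2 ≤ x := hx.1.le
        calc x ^ (-(1 / 4) : ℝ) ≤ (T / 2) ^ (-(1 / 4) : ℝ) :=
              Real.rpow_le_rpow_of_nonpos (by linarith) hxp (by norm_num)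
          _ = (1 / 2) ^ (-(1 / 4) : ℝ) * T ^ (-(1 / 4) : ℝ) := by
              rw [← Real.mul_rpow (by norm_num) hTpos.le]; congr 1; ring
          _ ≤ 2 * T ^ (-(1 / 4) : ℝ) := by
              gcongr
              rw [show (1 / 2 : ℝ) = 2⁻¹ by norm_num, Real.inv_rpow (by norm_num),
                ← Real.rpow_neg (by norm_num)]
              calc (2 : ℝ) ^ (-(-(1 / 4)) : ℝ) ≤ 2 ^ (1 : ℝ) :=
                    Real.rpow_le_rpow_of_exponent_le (by norm_num) (by norm_num)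
                _ = 2 := Real.rpow_one _
      have g4 : |(c0 * e (2 * √(κ * x))).re| ≤ ‖c0‖ := by
        refine (abs_re_le_norm _).trans ?_
        rw [norm_mul, AC7_e_norm, mul_one]
      have g5 : |(1 + Real.cos (u x)) * W x| ≤ C3 := by
        obtain ⟨-, -, -, k1, k2, -⟩ := h3 T s θ φ hT1' hs1 x hx0
        have : (1 + Real.cos (u x)) * W x = KK ϕ ρ κ φ k T s θ x := by
          simp only [hW, KK, Kf, hu']; ring
        rw [this, abs_of_nonneg k1]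
        exact k2
      rw [Real.norm_eq_abs, abs_mul, abs_mul, abs_mul, abs_mul,
        abs_of_nonneg (show (0 : ℝ) ≤ 3 / 4 by norm_num),
        abs_of_nonneg (Real.rpow_nonneg hx0.le _), Real.rpow_add hTpos]
      calc |Ek k x| * (3 / 4 * x ^ (-(1 / 4) : ℝ) * |(c0 * e (2 * √(κ * x))).re| *
            |(1 + Real.cos (u x)) * W x|)
          ≤ (C2 * (4 * T ^ (1 - 3 / (4 * (k : ℝ)) + 1 / (16 * (k : ℝ))))) *
            (3 / 4 * (2 * T ^ (-(1 / 4) : ℝ)) * ‖c0‖ * C3) := by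
            have := g1.trans (mul_le_mul_of_nonneg_left g2 hC2.le)
            gcongr
        _ = _ := by ring
    have hni := intervalIntegral.norm_integral_le_of_norm_le_const hbd
    rw [Real.norm_eq_abs] at hni
    refine hni.trans ?_
    rw [abs_of_nonneg (by linarith)]
    have hlen : q - p ≤ 4 * T := by rw [hp, hq]; linarith
    calc (3 / 4 * 2 * ‖c0‖ * (C2 * 4) * C3) *
          T ^ (-(1 / 4) + (1 - 3 / (4 * (k : ℝ)) + 1 / (16 * (k : ℝ)))) * (q - p)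
        ≤ (3 / 4 * 2 * ‖c0‖ * (C2 * 4) * C3) *
          T ^ (-(1 / 4) + (1 - 3 / (4 * (k : ℝ)) + 1 / (16 * (k : ℝ)))) * (4 * T) := by
          gcongr
      _ = (3 / 4 * 2 * ‖c0‖ * (C2 * 4) * C3 * 4) *
          (T ^ (-(1 / 4) + (1 - 3 / (4 * (k : ℝ)) + 1 / (16 * (k : ℝ)))) * T ^ (1 : ℝ)) := by
          rw [Real.rpow_one]; ring
      _ ≤ (3 / 4 * 2 * ‖c0‖ * (C2 * 4) * C3 * 4) * R := by
          gcongr
          rw [← Real.rpow_add hTpos, hR]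
          apply Real.rpow_le_rpow_of_exponent_le hT1'
          have : 3 / (4 * (k : ℝ)) = 1 / (2 * k) + 1 / (16 * k) + 1 / (16 * (k : ℝ)) + 1 / (8 * k) := by
            field_simp; norm_num
          have h8 : 0 < 1 / (8 * (k : ℝ)) := by positivity
          linarith
  rw [main]
  have e6 : L0 * I0 + L0 * I1 + N * I2 + N / 2 * I3 + N / 2 * I5 + I4 - N / 2 * I5 =
      L0 * I0 + L0 * I1 + N * I2 + N / 2 * I3 + I4 := by ring
  rw [e6]
  have t0 : |L0 * I0| ≤ |L0| * (C0 * R) := by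
    rw [abs_mul]; exact mul_le_mul_of_nonneg_left b0 (abs_nonneg _)
  have t1 : |L0 * I1| ≤ |L0| * (C1 * R) := by
    rw [abs_mul]; exact mul_le_mul_of_nonneg_left b1 (abs_nonneg _)
  have t2 : |N * I2| ≤ N * (C1 * R) := by
    rw [abs_mul, abs_of_nonneg hN0]; exact mul_le_mul_of_nonneg_left b2 hN0
  have t3 : |N / 2 * I3| ≤ N / 2 * (C1 * R) := by
    rw [abs_mul, abs_of_nonneg (by positivity)]
    exact mul_le_mul_of_nonneg_left b3 (by positivity)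
  calc |L0 * I0 + L0 * I1 + N * I2 + N / 2 * I3 + I4|
      ≤ |L0 * I0| + |L0 * I1| + |N * I2| + |N / 2 * I3| + |I4| := by
        have r1 := abs_add_le (L0 * I0 + L0 * I1 + N * I2 + N / 2 * I3) I4
        have r2 := abs_add_le (L0 * I0 + L0 * I1 + N * I2) (N / 2 * I3)
        have r3 := abs_add_le (L0 * I0 + L0 * I1) (N * I2)
        have r4 := abs_add_le (L0 * I0) (L0 * I1)
        linarith
    _ ≤ B * R := by
        rw [hB]
        linarith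
    _ ≤ (B + 1) * R := by
        apply mul_le_mul_of_nonneg_right (by linarith) hT7
--END AC7

--BEGIN AC8
private lemma AC8_exp {k : ℕ} (hk : 4 ≤ k) {T : ℝ} (hT : 1 ≤ T) :
    Xw k T * T ^ (1 / 4 + ((k : ℝ) - 1) / (2 * k)) = T ^ (7 / 4 - 17 / (32 * (k : ℝ))) := by
  have hT0 : 0 < T := by linarith
  have hk0 : (0 : ℝ) < k := by
    have : (4 : ℝ) ≤ k := by exact_mod_cast hk
    linarith
  rw [Xw, ← Real.rpow_add hT0]
  congr 1
  field_simp
  ring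

/-- comparison of powers with constants -/
private lemma AC8_small {A B : ℝ} (hAB : A < B) (D : ℝ) {c : ℝ} (hc : 0 < c) :
    ∃ T0 : ℝ, 1 ≤ T0 ∧ ∀ T : ℝ, T0 ≤ T → D * T ^ A ≤ c * T ^ B := by
  have h1 : Tendsto (fun T : ℝ => T ^ (B - A)) atTop atTop := tendsto_rpow_atTop (by linarith)
  obtain ⟨T1, hT1⟩ := (h1.eventually_ge_atTop (D / c)).exists_forall_of_atTop
  refine ⟨max 1 T1, le_max_left _ _, fun T hT => ?_⟩
  have hT0 : 0 < T := by linarith [le_max_left 1 T1]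
  have h2 := hT1 T (le_trans (le_max_right _ _) hT)
  rw [div_le_iff₀ hc] at h2
  have h3 : T ^ B = T ^ (B - A) * T ^ A := by
    rw [← Real.rpow_add hT0]; congr 1; ring
  rw [h3]
  have h4 : 0 ≤ T ^ A := Real.rpow_nonneg hT0.le _
  calc D * T ^ A ≤ (T ^ (B - A) * c) * T ^ A := mul_le_mul_of_nonneg_right h2 h4
    _ = c * (T ^ (B - A) * T ^ A) := by ring

/-- **AC8.** The lower bound for `± ∫ E_f Δ_k K`. -/
theorem Q_lower (h : RealSelberg a L 2) (hv : Vor a L κ L0 c0) {ϕ ρ : ℝ → ℝ}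
    (hϕ : IsBump ϕ (1 / 2) (3 / 4) 3 4) (hρ : IsBump ρ (1 / 4) (3 / 8) (5 / 8) (3 / 4)) {k : ℕ}
    (hk : 4 ≤ k) : ∃ θ c T0 : ℝ, 0 < c ∧ 1 ≤ T0 ∧ ∀ T s : ℝ, T0 ≤ T → (s = 1 ∨ s = -1) →
      c * Xw k T * T ^ (1 / 4 + ((k : ℝ) - 1) / (2 * k)) ≤
        s * ∫ x in (T / 2)..(4 * T), errTerm a L x * Ek k x *
          KK ϕ ρ κ (arg (2 * π * I * √κ * c0)) k T s θ x := by
  obtain ⟨θ, c, C1, T1, hc, hC1, hT1, h1⟩ := slow_main hρ hk
  obtain ⟨C2, T2, hC2, hT2, h2⟩ := resonant hv.kpos c0 L0 hϕ hρ hk θ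
    ⟨C1, T1, hC1, hT1, fun T hT s hs => (h1 T hT s hs ϕ hϕ).2⟩
  obtain ⟨C3, T3, hC3, hT3, h3⟩ := total_sum h hv hϕ hρ hk
  obtain ⟨C4, T4, hC4, hT4, h4⟩ := total_main h hv hϕ hρ hk
  obtain ⟨C5, T5, hC5, hT5, h5⟩ := total_err h hv hϕ hρ hk
  have hk4 : (4 : ℝ) ≤ k := by exact_mod_cast hk
  have hk0 : (0 : ℝ) < k := by linarith
  set N : ℝ := ‖2 * π * I * √κ * c0‖ with hN
  have hNpos : 0 < N := by
    rw [hN, norm_pos_iff]
    have : (√κ : ℂ) ≠ 0 := by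
      have := Real.sqrt_pos.2 hv.kpos
      exact_mod_cast this.ne'
    have hπ : (π : ℂ) ≠ 0 := by exact_mod_cast Real.pi_pos.ne'
    simp [hv.cne, this, hπ, I_ne_zero]
  have hb : 0 < N * c / 8 := by positivity
  obtain ⟨T6, hT6, h6⟩ := AC8_small (A := 7 / 4 - 1 / (2 * (k : ℝ)) - 1 / (16 * (k : ℝ)))
    (B := 7 / 4 - 17 / (32 * (k : ℝ))) (by
      have : 1 / (2 * (k : ℝ)) + 1 / (16 * (k : ℝ)) = 18 / (32 * (k : ℝ)) := by
        field_simp; norm_num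
      have h' : 17 / (32 * (k : ℝ)) < 18 / (32 * (k : ℝ)) := by
        apply div_lt_div_of_pos_right _ (by positivity); norm_num
      linarith) (C2 + C3 + C5) hb
  obtain ⟨T7, hT7, h7⟩ := AC8_small (A := 3 / 2) (B := 7 / 4 - 17 / (32 * (k : ℝ))) (by
      have h' : 17 / (32 * (k : ℝ)) ≤ 17 / (32 * 4) := by
        apply div_le_div_of_nonneg_left (by norm_num) (by norm_num); linarith
      linarith) C4 hb
  refine ⟨θ, N * c / 4, max T1 (max T2 (max T3 (max T4 (max T5 (max T6 T7))))), by positivity,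
    le_trans hT1 (le_max_left _ _), ?_⟩
  intro T s hT hs
  simp only [max_le_iff] at hT
  obtain ⟨hTa, hTb, hTc, hTd, hTe, hTf, hTg⟩ := hT
  have hT1' : 1 ≤ T := by linarith
  have hs1 : |s| ≤ 1 := by rcases hs with rfl | rfl <;> simp
  have e := parts_identity (L0 := L0) (c0 := c0) h hv.kpos hϕ hρ hk (θ := θ)
    (φ := arg (2 * π * I * √κ * c0)) hT1' hs1
  rw [e]
  have b1 := (h1 T hTa s hs ϕ hϕ).1
  have b2 := h2 T s hTb hs
  have b3 := h3 T s θ (arg (2 * π * I * √κ * c0)) hTc hs1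
  have b4 := h4 T s θ (arg (2 * π * I * √κ * c0)) hTd hs1
  have b5 := h5 T s θ (arg (2 * π * I * √κ * c0)) hTe hs1
  have b6 := h6 T hTf
  have b7 := h7 T hTg
  have ex : Xw k T * T ^ (1 / 4 + (1 / 2 - 1 / (2 * (k : ℝ)))) =
      T ^ (7 / 4 - 17 / (32 * (k : ℝ))) := by
    rw [← AC8_exp hk hT1']
    congr 2
    field_simp
  rw [mul_assoc, ex] at b1
  rw [mul_assoc, AC8_exp hk hT1']
  set J1 := ∫ x in (T / 2)..(4 * T), (L0 + P1d κ c0 x) * Ek k x *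
          KK ϕ ρ κ (arg (2 * π * I * √κ * c0)) k T s θ x
  set J2 := ∑ n ∈ Finset.Icc 1 ⌊4 * T⌋₊, dk k n * (Dr a L κ L0 c0 n *
    KK ϕ ρ κ (arg (2 * π * I * √κ * c0)) k T s θ n)
  set J3 := ∫ x in (T / 2)..(4 * T), Dr a L κ L0 c0 x *
    KK ϕ ρ κ (arg (2 * π * I * √κ * c0)) k T s θ x * Mk1 k x
  set J4 := ∫ x in (T / 2)..(4 * T), Dr a L κ L0 c0 x *
    deriv (KK ϕ ρ κ (arg (2 * π * I * √κ * c0)) k T s θ) x * Ek k x
  set J0 := ∫ x in Ioi (0 : ℝ), Ek k x * x ^ (1 / 4 : ℝ) * (ϕ (x / T) * Kslow ρ k T s θ x)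
  set P := T ^ (7 / 4 - 17 / (32 * (k : ℝ)))
  set R := T ^ (7 / 4 - 1 / (2 * (k : ℝ)) - 1 / (16 * (k : ℝ)))
  have hmain : N * c / 2 * P ≤ s * (N / 2 * J0) := by
    have : N / 2 * (c * P) ≤ N / 2 * (s * J0) := mul_le_mul_of_nonneg_left b1 (by positivity)
    linarith [this]
  have hs2 : s * s = 1 := by rcases hs with rfl | rfl <;> norm_num
  have key : |s * (J1 - J2 + J3 - J4) - s * (N / 2 * J0)| ≤ (C2 + C3 + C5) * R + C4 * T ^ (3 / 2 : ℝ) := by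
    have e1 : s * (J1 - J2 + J3 - J4) - s * (N / 2 * J0) =
        s * ((J1 - N / 2 * J0) - J2 + J3 - J4) := by ring
    rw [e1, abs_mul]
    have e2 : |(J1 - N / 2 * J0) - J2 + J3 - J4| ≤ |J1 - N / 2 * J0| + |J2| + |J3| + |J4| := by
      have t1 := abs_sub (J1 - N / 2 * J0 - J2 + J3) J4
      have t2 := abs_add_le (J1 - N / 2 * J0 - J2) J3
      have t3 := abs_sub (J1 - N / 2 * J0) J2
      linarith
    calc |s| * |(J1 - N / 2 * J0) - J2 + J3 - J4| ≤ 1 * |(J1 - N / 2 * J0) - J2 + J3 - J4| :=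
          mul_le_mul_of_nonneg_right hs1 (abs_nonneg _)
      _ ≤ (C2 + C3 + C5) * R + C4 * T ^ (3 / 2 : ℝ) := by
          rw [one_mul]; linarith [e2, b2, b3, b4, b5]
  have k2 := (abs_le.1 key).1
  linarith [k2, hmain, b6, b7]
--END AC8

--BEGIN AC9
private lemma AC9_tiny (k : ℕ) (hk : 4 ≤ k) (D : ℝ) {c : ℝ} (hc : 0 < c) :
    ∃ T0 : ℝ, 1 ≤ T0 ∧ ∀ T : ℝ, T0 ≤ T → D * T ^ 5 * Real.exp (-(T ^ (1 / (2 * (k : ℝ))))) ≤ c := by
  have hk4 : (4 : ℝ) ≤ k := by exact_mod_cast hk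
  have hk0 : (0 : ℝ) < k := by linarith
  have h1 : Tendsto (fun T : ℝ => T ^ (1 / (2 * (k : ℝ)))) atTop atTop :=
    tendsto_rpow_atTop (by positivity)
  have h2 := (Real.tendsto_pow_mul_exp_neg_atTop_nhds_zero (10 * k)).comp h1
  have h3 : Tendsto (fun T : ℝ => |D| * (((fun x : ℝ => x ^ (10 * k) * Real.exp (-x)) ∘
      (fun T : ℝ => T ^ (1 / (2 * (k : ℝ))))) T)) atTop (𝓝 (|D| * 0)) := h2.const_mul _
  rw [mul_zero] at h3
  obtain ⟨T1, hT1⟩ := (h3.eventually (ge_mem_nhds hc)).exists_forall_of_atTop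
  refine ⟨max 1 T1, le_max_left _ _, fun T hT => ?_⟩
  have hT1' : 1 ≤ T := le_trans (le_max_left _ _) hT
  have hT0 : 0 < T := by linarith
  have h4 := hT1 T (le_trans (le_max_right _ _) hT)
  simp only [Function.comp_apply] at h4
  have h5 : (T ^ (1 / (2 * (k : ℝ)))) ^ (10 * k) = T ^ 5 := by
    rw [← Real.rpow_natCast, ← Real.rpow_mul hT0.le]
    have : 1 / (2 * (k : ℝ)) * ((10 * k : ℕ) : ℝ) = (5 : ℕ) := by
      push_cast
      field_simp
      norm_num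
    rw [this, Real.rpow_natCast]
  rw [h5] at h4
  calc D * T ^ 5 * Real.exp (-(T ^ (1 / (2 * (k : ℝ)))))
      ≤ |D| * T ^ 5 * Real.exp (-(T ^ (1 / (2 * (k : ℝ))))) := by
        gcongr; exact le_abs_self D
    _ = |D| * (T ^ 5 * Real.exp (-(T ^ (1 / (2 * (k : ℝ)))))) := by ring
    _ ≤ c := h4

/-- **AC9.** The theorem. -/
theorem main_theorem (h : RealSelberg a L 2) {k : ℕ} (hk : 4 ≤ k) :
    ∃ c T0 : ℝ, 0 < c ∧ ∀ T : ℝ, T0 ≤ T →
      (∃ x ∈ Icc T (T + T ^ (1 - 1 / (32 * (k : ℝ)))),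
        c * T ^ (1 / 4 + ((k : ℝ) - 1) / (2 * k)) < errTerm a L x * Ek k x) ∧
      ∃ x ∈ Icc T (T + T ^ (1 - 1 / (32 * (k : ℝ)))),
        errTerm a L x * Ek k x < -(c * T ^ (1 / 4 + ((k : ℝ) - 1) / (2 * k))) := by
  obtain ⟨κ, c0, L0, hκ, hc0, hV⟩ := voronoi h
  have hv : Vor a L κ L0 c0 := ⟨hκ, hc0, hV⟩
  obtain ⟨ϕ, hϕ⟩ := exists_bump (a := 1 / 2) (b := 3 / 4) (c := 3) (d := 4) (by norm_num)
    (by norm_num) (by norm_num)
  obtain ⟨ρ, hρ⟩ := exists_bump (a := 1 / 4) (b := 3 / 8) (c := 5 / 8) (d := 3 / 4) (by norm_num)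
    (by norm_num) (by norm_num)
  obtain ⟨θ, c, T1, hc, hT1, h1⟩ := Q_lower h hv hϕ hρ hk
  obtain ⟨C2, T2, hC2, hT2, h2⟩ := KK_mass hϕ hρ hκ hk
  obtain ⟨C3, hC3, h3⟩ := KK_deriv_bound hϕ hρ hκ hk
  obtain ⟨C4, hC4, h4, -⟩ := errTerm_trivial h (ε := 1) one_pos
  obtain ⟨C5, hC5, h5, -⟩ := Ek_trivial k (ε := 1) one_pos
  obtain ⟨T6, hT6, h6⟩ := AC9_tiny k hk (C4 * C5 * 256 * 7) (c := c / 4) (by positivity)
  have hk4 : (4 : ℝ) ≤ k := by exact_mod_cast hk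
  have hk0 : (0 : ℝ) < k := by linarith
  have main : ∀ T : ℝ, max 2 (max T1 (max T2 T6)) ≤ T → ∀ s : ℝ, (s = 1 ∨ s = -1) →
      ∃ x ∈ Icc T (T + T ^ (1 - 1 / (32 * (k : ℝ)))),
        c / (2 * C2) * T ^ (1 / 4 + ((k : ℝ) - 1) / (2 * k)) < s * (errTerm a L x * Ek k x) := by
    intro T hT s hs
    simp only [max_le_iff] at hT
    obtain ⟨hTa, hTb, hTc, hTd⟩ := hT
    have hT1' : 1 ≤ T := by linarith
    have hT0 : 0 < T := by linarith
    have hs1 : |s| ≤ 1 := by rcases hs with rfl | rfl <;> simp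
    by_contra hcon
    push Not at hcon
    have b1 := h1 T s hTb hs
    obtain ⟨b2, b3⟩ := h2 T s θ (arg (2 * π * I * √κ * c0)) hTc hs1
    have b6 := h6 T hTd
    set P := T ^ (1 / 4 + ((k : ℝ) - 1) / (2 * k)) with hP
    set K := KK ϕ ρ κ (arg (2 * π * I * √κ * c0)) k T s θ with hK
    set E := Real.exp (-(T ^ (1 / (2 * (k : ℝ))))) with hE
    have hE0 : 0 < E := Real.exp_pos _
    have hP1 : 1 ≤ P := by
      apply Real.one_le_rpow hT1'
      have : 0 ≤ ((k : ℝ) - 1) / (2 * k) := div_nonneg (by linarith) (by positivity)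
      linarith
    have hX1 : 1 ≤ Xw k T := by
      apply Real.one_le_rpow hT1'
      have : 1 / (32 * (k : ℝ)) ≤ 1 := by
        rw [div_le_one (by positivity)]; linarith
      linarith
    have hKfacts := fun x hx => h3 T s θ (arg (2 * π * I * √κ * c0)) hT1' hs1 x hx
    have hF : ∀ x ∈ Icc (T / 2) (4 * T), |errTerm a L x * Ek k x| ≤ C4 * C5 * 256 * T ^ 4 := by
      intro x hx
      have hx1 : 1 ≤ x := by linarith [hx.1]
      have a1 := h4 x hx1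
      have a2 := h5 x hx1
      have e1 : x ^ ((1 : ℝ) + 1) = x ^ 2 := by
        rw [show (1 : ℝ) + 1 = ((2 : ℕ) : ℝ) by norm_num, Real.rpow_natCast]
      rw [e1] at a1 a2
      have hx4 : x ≤ 4 * T := hx.2
      have hx0 : 0 ≤ x := by linarith
      have e2 : x ^ 2 ≤ (4 * T) ^ 2 := pow_le_pow_left₀ hx0 hx4 2
      rw [abs_mul]
      calc |errTerm a L x| * |Ek k x| ≤ (C4 * x ^ 2) * (C5 * x ^ 2) :=
            mul_le_mul a1 a2 (abs_nonneg _) (by positivity)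
        _ ≤ (C4 * (4 * T) ^ 2) * (C5 * (4 * T) ^ 2) := by gcongr
        _ = C4 * C5 * 256 * T ^ 4 := by ring
    by_cases hint : IntervalIntegrable (fun x => errTerm a L x * Ek k x * K x) volume (T / 2) (4 * T)
    · have hKc : ContinuousOn K (Icc (T / 2) (4 * T)) := fun x hx =>
        (hKfacts x (by linarith [hx.1])).1.continuousAt.continuousWithinAt
      have hKi : IntervalIntegrable K volume (T / 2) (4 * T) := by
        apply ContinuousOn.intervalIntegrable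
        rwa [uIcc_of_le (by linarith)]
      have hg : IntervalIntegrable (fun x => c / (2 * C2) * P * K x +
          C4 * C5 * 256 * T ^ 4 * (2 * E)) volume (T / 2) (4 * T) :=
        (hKi.const_mul _).add (by simp)
      have hle : s * ∫ x in (T / 2)..(4 * T), errTerm a L x * Ek k x * K x ≤
          ∫ x in (T / 2)..(4 * T), (c / (2 * C2) * P * K x + C4 * C5 * 256 * T ^ 4 * (2 * E)) := by
        rw [← intervalIntegral.integral_const_mul]
        refine intervalIntegral.integral_mono_on (by linarith) (hint.const_mul s) hg ?_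
        intro x hx
        have hx0 : 0 < x := by linarith [hx.1]
        obtain ⟨-, -, -, k1, -, -⟩ := hKfacts x hx0
        have k1' : 0 ≤ K x := k1
        by_cases hxT : x ∈ Icc T (T + Xw k T)
        · have f1 := hcon x hxT
          have f2 : s * (errTerm a L x * Ek k x) * K x ≤ c / (2 * C2) * P * K x :=
            mul_le_mul_of_nonneg_right f1 k1'
          have f3 : 0 ≤ C4 * C5 * 256 * T ^ 4 * (2 * E) := by positivity
          linarith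
        · have f1 : K x ≤ 2 * E := b3 x hx hxT
          have f2 := hF x hx
          have f3 : s * (errTerm a L x * Ek k x) ≤ |errTerm a L x * Ek k x| := by
            calc s * (errTerm a L x * Ek k x) ≤ |s * (errTerm a L x * Ek k x)| := le_abs_self _
              _ = |s| * |errTerm a L x * Ek k x| := abs_mul _ _
              _ ≤ 1 * |errTerm a L x * Ek k x| := mul_le_mul_of_nonneg_right hs1 (abs_nonneg _)
              _ = _ := one_mul _
          have f4 : s * (errTerm a L x * Ek k x) * K x ≤ C4 * C5 * 256 * T ^ 4 * (2 * E) := by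
            calc s * (errTerm a L x * Ek k x) * K x ≤ |errTerm a L x * Ek k x| * K x :=
                  mul_le_mul_of_nonneg_right f3 k1'
              _ ≤ (C4 * C5 * 256 * T ^ 4) * (2 * E) := mul_le_mul f2 f1 k1' (by positivity)
          have f5 : 0 ≤ c / (2 * C2) * P * K x := by positivity
          linarith
      rw [intervalIntegral.integral_add (hKi.const_mul _) (by simp),
        intervalIntegral.integral_const_mul, intervalIntegral.integral_const] at hle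
      have g1 : c / (2 * C2) * P * ∫ x in (T / 2)..(4 * T), K x ≤ c / 2 * (Xw k T * P) := by
        calc c / (2 * C2) * P * ∫ x in (T / 2)..(4 * T), K x ≤ c / (2 * C2) * P * (C2 * Xw k T) :=
              mul_le_mul_of_nonneg_left b2 (by positivity)
          _ = c / 2 * (Xw k T * P) := by field_simp
      have g2 : (4 * T - T / 2) • (C4 * C5 * 256 * T ^ 4 * (2 * E)) ≤ c / 4 := by
        rw [smul_eq_mul]
        calc (4 * T - T / 2) * (C4 * C5 * 256 * T ^ 4 * (2 * E)) = C4 * C5 * 256 * 7 * T ^ 5 * E := by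
              ring
          _ ≤ c / 4 := b6
      have g3 : 1 ≤ Xw k T * P := by nlinarith
      have g4 : c * Xw k T * P = c * (Xw k T * P) := by ring
      have g5 : c * 1 ≤ c * (Xw k T * P) := mul_le_mul_of_nonneg_left g3 hc.le
      linarith
    · rw [intervalIntegral.integral_undef hint, mul_zero] at b1
      have : 0 < c * Xw k T * P := by positivity
      linarith
  refine ⟨c / (2 * C2), max 2 (max T1 (max T2 T6)), by positivity, fun T hT => ⟨?_, ?_⟩⟩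
  · obtain ⟨x, hx, hx2⟩ := main T hT 1 (Or.inl rfl)
    exact ⟨x, hx, by linarith⟩
  · obtain ⟨x, hx, hx2⟩ := main T hT (-1) (Or.inr rfl)
    exact ⟨x, hx, by linarith⟩
--END AC9

end Pool.Agent.PEt
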