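import Pool.Agent.PEt.Stmt

/-! MP_a10c55_nt: products of error terms. Definitions. -/

set_option autoImplicit false

open Complex MeasureTheory Set Filter Topology
open scoped Real ComplexConjugate ContDiff

namespace Pool.Agent.PEt

/-- The error term `Δ_k(x)` of `ζ(s)^k`. -/
noncomputable def Ek (k : ℕ) (x : ℝ) : ℝ := errTerm (dk k) (fun s => riemannZeta s ^ k) x

/-- The derivative of the main term of `∑_{n ≤ x} d_k(n)`. -/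
noncomputable def Mk1 (k : ℕ) (x : ℝ) : ℝ :=
  ((2 * π * I)⁻¹ * ∮ s in C(1, 1 / 2), riemannZeta s ^ k * (x : ℂ) ^ (s - 1)).re

/-- Its second derivative. -/
noncomputable def Mk2 (k : ℕ) (x : ℝ) : ℝ :=
  ((2 * π * I)⁻¹ * ∮ s in C(1, 1 / 2), riemannZeta s ^ k * (s - 1) * (x : ℂ) ^ (s - 2)).re

/-- `e(x) = exp(2πix)`. -/
noncomputable def e (x : ℝ) : ℂ := cexp (2 * π * I * x)

/-- The data of the functional equation of an `L` of degree 2. -/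
structure Fun2 (L : ℂ → ℂ) (Q : ℝ) {r : ℕ} (lam : Fin r → ℝ) (mu : Fin r → ℂ) (w : ℂ) :
    Prop where
  Qpos : 0 < Q
  lampos : ∀ j, 0 < lam j
  mure : ∀ j, 0 ≤ (mu j).re
  wnorm : ‖w‖ = 1
  deg : ∑ j, lam j = 1
  fe : ∀ s : ℂ, 0 < s.re → s.re < 1 →
      (Q : ℂ) ^ s * (∏ j, Gamma (lam j * s + mu j)) * L s =
        w * conj ((Q : ℂ) ^ (1 - conj s) * (∏ j, Gamma (lam j * (1 - conj s) + mu j)) *
          L (1 - conj s))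

/-- `X(s) = L(s)/L(1-s)`. -/
noncomputable def Xf (Q : ℝ) {r : ℕ} (lam : Fin r → ℝ) (mu : Fin r → ℂ) (w : ℂ) (s : ℂ) : ℂ :=
  w * (Q : ℂ) ^ (1 - 2 * s) * (∏ j, Gamma (lam j * (1 - s) + conj (mu j))) /
    ∏ j, Gamma (lam j * s + mu j)

/-- The constant `κ = (2π Q ∏ λ_j^{λ_j})^{-2}`. -/
noncomputable def kap (Q : ℝ) {r : ℕ} (lam : Fin r → ℝ) : ℝ :=
  (2 * π * Q * ∏ j, lam j ^ lam j)⁻¹ ^ 2

/-- `M_j(s) = e^{-iπs} (4π√κ)^{2s} Γ(-2s-3/2-j)`. -/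
noncomputable def Mf (κ : ℝ) (j : ℕ) (s : ℂ) : ℂ :=
  cexp (-(π * I * s)) * ((4 * π * √κ : ℝ) : ℂ) ^ (2 * s) * Gamma (-2 * s - 3 / 2 - j)

/-- A smooth bump: between 0 and 1, equal to 1 on `[b,c]`, zero off `[a,d]`. -/
structure IsBump (f : ℝ → ℝ) (a b c d : ℝ) : Prop where
  smooth : ContDiff ℝ ∞ f
  nonneg : ∀ x, 0 ≤ f x
  le_one : ∀ x, f x ≤ 1
  one : ∀ x ∈ Icc b c, f x = 1
  zero : ∀ x, x ∉ Icc a d → f x = 0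

/-- The phase `φ(x) = 2λ√x + κ' x^{1/k}`. -/
noncomputable def ph (k : ℕ) (lam kap' : ℝ) (x : ℝ) : ℝ :=
  2 * lam * √x + kap' * x ^ (1 / (k : ℝ))

/-- Amplitudes: `C²`, supported in `[T/2, 4T]`, with derivatives `≪ X^{-j}`. -/
structure Amp (T X C : ℝ) (a : ℝ → ℂ) : Prop where
  smooth : ContDiff ℝ 2 a
  supp : ∀ x, x ∉ Icc (T / 2) (4 * T) → a x = 0
  b0 : ∀ x, ‖a x‖ ≤ C
  b1 : ∀ x, ‖deriv a x‖ ≤ C / X
  b2 : ∀ x, ‖deriv (deriv a) x‖ ≤ C / X ^ 2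

/-- The width `Y = T^{-1/(2k)}` of the Gaussian windows. -/
noncomputable def Yk (k : ℕ) (T : ℝ) : ℝ := T ^ (-(1 / (2 * (k : ℝ))))

/-- The length `X = T^{1-1/(32k)}` of the long window. -/
noncomputable def Xw (k : ℕ) (T : ℝ) : ℝ := T ^ (1 - 1 / (32 * (k : ℝ)))

/-- The long window. -/
noncomputable def w0 (ρ : ℝ → ℝ) (k : ℕ) (T y : ℝ) : ℝ := ρ ((y - T) / Xw k T)

/-- The slow kernel. -/
noncomputable def Kslow (ρ : ℝ → ℝ) (k : ℕ) (T s θ x : ℝ) : ℝ :=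
  (Yk k T)⁻¹ * ∫ y in Ioi (0 : ℝ), w0 ρ k T y * Real.exp (-(Real.log (x / y)) ^ 2 / (2 * Yk k T ^ 2)) *
    (1 + s * Real.cos (2 * π * y ^ (1 / (k : ℝ)) * Real.log (x / y) +
      2 * π * k * y ^ (1 / (k : ℝ)) + θ)) / y

/-- `Ψ(x,v) = 2π x^{1/k} ((k+v) e^{-v/k} - k)`. -/
noncomputable def Psi (k : ℕ) (x v : ℝ) : ℝ :=
  2 * π * x ^ (1 / (k : ℝ)) * ((k + v) * Real.exp (-v / k) - k)

/-- The slow amplitudes `A_l(x)`, `l = -1, 0, 1`. -/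
noncomputable def Aamp (ρ : ℝ → ℝ) (k : ℕ) (T : ℝ) (l : ℤ) (x : ℝ) : ℂ :=
  ((Yk k T)⁻¹ : ℝ) * ∫ v : ℝ, (w0 ρ k T (x * Real.exp (-v)) : ℂ) *
    cexp (-(v : ℂ) ^ 2 / (2 * (Yk k T : ℂ) ^ 2) + I * l * Psi k x v)

/-- The Gaussian integral of `Δ_k`. -/
noncomputable def GI (k : ℕ) (β y Y τ : ℝ) : ℂ :=
  ∫ x in Ioi (0 : ℝ), ((Ek k x * x ^ (β - 1) *
    Real.exp (-(Real.log (x / y)) ^ 2 / (2 * Y ^ 2)) : ℝ) : ℂ) * cexp (I * τ * Real.log (x / y))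

/-- The fast kernel `1 + cos(4π√(κx) + φ)`. -/
noncomputable def Kf (κ φ x : ℝ) : ℝ := 1 + Real.cos (4 * π * √(κ * x) + φ)

/-- The kernel `K`. -/
noncomputable def KK (ϕ ρ : ℝ → ℝ) (κ φ : ℝ) (k : ℕ) (T s θ x : ℝ) : ℝ :=
  ϕ (x / T) * Kf κ φ x * Kslow ρ k T s θ x

/-- The `m`-th term of the Voronoi series of `∫ E_f`, without its coefficient. -/
noncomputable def Pm (κ : ℝ) (c0 : ℂ) (m : ℕ) (x : ℝ) : ℝ :=
  x ^ (3 / 4 : ℝ) * (c0 * e (2 * √(κ * m * x))).re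

end Pool.Agent.PEt
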