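import Pool.Agent.PEt.Defs
import Pool.Agent.MP_67227b_nt.Mo.Digamma

/-! Digamma and Gamma asymptotics. -/

set_option autoImplicit false

open Complex MeasureTheory Set Filter Topology
open scoped Real ComplexConjugate ContDiff

namespace Pool.Agent.PEt

--BEGIN GA1
private theorem GA1_diff {z : ℂ} (hz : 0 < z.re) : DifferentiableAt ℂ digamma z := by
  have h2 := Pool.Agent.MP_67227b_nt.Mo.analyticAt_Gamma hz
  have h3 : AnalyticAt ℂ digamma z := h2.deriv.div h2 (Gamma_ne_zero_of_re_pos hz)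
  exact h3.differentiableAt

private theorem GA1_shift {s : ℂ} (hs : 0 < s.re) {N : ℕ} (hN : 8 * (‖s‖ + 3) ≤ N) :
    ‖digamma (s + N) - digamma (1 + N)‖ ≤ 2048 / N * ‖s - 1‖ := by
  have hconv : Convex ℝ ({z : ℂ | 0 < z.re} ∩ Metric.closedBall 0 (1 + ‖s‖)) :=
    (convex_halfSpace_re_gt 0).inter (convex_closedBall _ _)
  have h1 : (1 : ℂ) ∈ ({z : ℂ | 0 < z.re} ∩ Metric.closedBall 0 (1 + ‖s‖)) := by
    refine ⟨by simp, ?_⟩
    rw [mem_closedBall_zero_iff, norm_one]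
    linarith [norm_nonneg s]
  have h2 : s ∈ ({z : ℂ | 0 < z.re} ∩ Metric.closedBall 0 (1 + ‖s‖)) := by
    refine ⟨hs, ?_⟩
    rw [mem_closedBall_zero_iff]
    linarith
  have hN0 : (0 : ℝ) ≤ N := Nat.cast_nonneg N
  have hre : ∀ z : ℂ, 0 < z.re → 0 < (z + N).re := by
    intro z hz
    simp
    positivity
  refine Convex.norm_image_sub_le_of_norm_deriv_le (f := fun z : ℂ => digamma (z + N))
    (fun z hz => ?_) (fun z hz => ?_) hconv h1 h2
  · exact (GA1_diff (hre z hz.1)).comp z (by fun_prop)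
  · rw [deriv_comp_add_const]
    refine (Pool.Agent.MP_67227b_nt.Mo.digamma_far hz.1 ?_).2
    have h3 := mem_closedBall_zero_iff.1 hz.2
    linarith

private theorem GA1_lim_one :
    Tendsto (fun N : ℕ => digamma (1 + N) - (Real.log N : ℂ)) atTop (𝓝 0) := by
  have h1 : ∀ N : ℕ, digamma (1 + N) - (Real.log N : ℂ) =
      (((harmonic N : ℝ) - Real.log N - Real.eulerMascheroniConstant : ℝ) : ℂ) := by
    intro N
    rw [Pool.Agent.MP_67227b_nt.Mo.digamma_add_nat (by simp) N, digamma_one]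
    have h2 : ∑ j ∈ Finset.range N, ((1 : ℂ) + j)⁻¹ = (((harmonic N : ℚ) : ℝ) : ℂ) := by
      rw [harmonic]
      push_cast
      exact Finset.sum_congr rfl fun j _ => by rw [add_comm]
    rw [h2]
    push_cast
    ring
  have h3 := Real.tendsto_harmonic_sub_log.sub_const Real.eulerMascheroniConstant
  rw [sub_self] at h3
  have h4 := (Complex.continuous_ofReal.tendsto 0).comp h3
  rw [Complex.ofReal_zero] at h4
  exact h4.congr fun N => (h1 N).symm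

private theorem GA1_lim_log {s : ℂ} (hs : 0 < s.re) :
    Tendsto (fun N : ℕ => Complex.log (s + N) - (Real.log N : ℂ)) atTop (𝓝 0) := by
  have h1 : Tendsto (fun N : ℕ => 1 + s / (N : ℂ)) atTop (𝓝 (1 + 0)) := by
    refine tendsto_const_nhds.add ?_
    have h2 := (tendsto_const_div_atTop_nhds_zero_nat ‖s‖)
    rw [tendsto_zero_iff_norm_tendsto_zero]
    refine h2.congr fun N => ?_
    rw [norm_div, Complex.norm_natCast]
  rw [add_zero] at h1
  have h3 : ContinuousAt Complex.log 1 := continuousAt_clog (by simp)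
  have h4 := h3.tendsto.comp h1
  rw [Complex.log_one] at h4
  refine h4.congr' ?_
  filter_upwards [eventually_ge_atTop 1] with N hN
  have hN0 : (0 : ℝ) < N := by exact_mod_cast hN
  have hNc : (N : ℂ) ≠ 0 := by exact_mod_cast hN0.ne'
  have h5 : s + N = ((N : ℝ) : ℂ) * (1 + s / N) := by
    rw [Complex.ofReal_natCast]
    field_simp
    ring
  have h6 : (1 + s / (N : ℂ)) ≠ 0 := by
    intro h7
    rw [h7, mul_zero] at h5
    have h8 : 0 < (s + N).re := by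
      simp
      positivity
    rw [h5] at h8
    simp at h8
  rw [h5, Complex.log_ofReal_mul hN0 h6]
  simp

private theorem GA1_far {s : ℂ} (hs : 0 < s.re) :
    Tendsto (fun N : ℕ => digamma (s + N) - Complex.log (s + N)) atTop (𝓝 0) := by
  have hA : Tendsto (fun N : ℕ => Complex.digamma (s + N) - Complex.digamma (1 + N)) atTop
      (𝓝 0) := by
    have h1 : Tendsto (fun N : ℕ => 2048 / (N : ℝ) * ‖s - 1‖) atTop (𝓝 (0 * ‖s - 1‖)) :=
      (tendsto_const_div_atTop_nhds_zero_nat 2048).mul_const _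
    rw [zero_mul] at h1
    refine squeeze_zero_norm' ?_ h1
    filter_upwards [eventually_ge_atTop ⌈8 * (‖s‖ + 3)⌉₊] with N hN
    exact GA1_shift hs ((Nat.le_ceil _).trans (by exact_mod_cast hN))
  have h := (hA.add GA1_lim_one).sub (GA1_lim_log hs)
  rw [add_zero, sub_zero] at h
  refine h.congr fun N => ?_
  ring

/-- the remainder -/
private noncomputable def GA1_d (s : ℂ) : ℂ :=
  digamma s - Complex.log s + 1 / (2 * s) + 1 / (12 * s ^ 2)

private theorem GA1_dlim {s : ℂ} (hs : 0 < s.re) :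
    Tendsto (fun N : ℕ => GA1_d (s + N)) atTop (𝓝 0) := by
  have h1 : Tendsto (fun N : ℕ => (1 : ℂ) / (s + N)) atTop (𝓝 0) := by
    have h2 : Tendsto (fun N : ℕ => (1 : ℝ) / N) atTop (𝓝 0) := tendsto_one_div_atTop_nhds_zero_nat
    refine squeeze_zero_norm' ?_ h2
    filter_upwards [eventually_ge_atTop 1] with N hN
    have hN0 : (0 : ℝ) < N := by exact_mod_cast hN
    rw [norm_div, norm_one]
    refine one_div_le_one_div_of_le hN0 ?_
    have h3 := Complex.re_le_norm (s + N)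
    simp only [add_re, natCast_re] at h3
    linarith
  have h4 := ((GA1_far hs).add (h1.const_mul (1 / 2))).add ((h1.mul h1).const_mul (1 / 12))
  simp only [mul_zero, add_zero] at h4
  refine h4.congr fun N => ?_
  have h5 : s + (N : ℂ) ≠ 0 := by
    intro h
    have := congrArg Complex.re h
    simp at this
    have hN : (0 : ℝ) ≤ N := Nat.cast_nonneg N
    linarith
  unfold GA1_d
  field_simp

/-- one step, for every `s` off the real axis -/
private theorem GA1_step {s : ℂ} (hs : s.im ≠ 0) (hg : ∀ m : ℕ, s ≠ -m) {r : ℝ} (hr : 1 ≤ r)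
    (hr2 : ∀ u : ℝ, 0 ≤ u → u ≤ 1 → r ≤ ‖s + u‖) :
    ‖GA1_d s - GA1_d (s + 1)‖ ≤ 2 / r ^ 4 := by
  have hr0 : 0 < r := by linarith
  have n0 : r ≤ ‖s‖ := by simpa using hr2 0 le_rfl zero_le_one
  have n1 : r ≤ ‖s + 1‖ := by simpa using hr2 1 zero_le_one le_rfl
  have hs0 : s ≠ 0 := norm_pos_iff.1 (by linarith)
  have hs1 : s + 1 ≠ 0 := norm_pos_iff.1 (by linarith)
  have key := norm_image_sub_le_of_norm_deriv_le_segment_01'
    (f := fun u : ℝ => Complex.log (s + u) - (u : ℂ) * s⁻¹ + (u : ℂ) ^ 2 * (1 / (2 * s ^ 2)) -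
      (u : ℂ) ^ 3 * (1 / (3 * s ^ 3)))
    (f' := fun u : ℝ => (s + u)⁻¹ - s⁻¹ + (u : ℂ) * (1 / s ^ 2) - (u : ℂ) ^ 2 * (1 / s ^ 3))
    (C := 1 / r ^ 4) ?_ ?_
  · have e1 : GA1_d s - GA1_d (s + 1) =
        ((Complex.log (s + (1 : ℝ)) - ((1 : ℝ) : ℂ) * s⁻¹ +
          ((1 : ℝ) : ℂ) ^ 2 * (1 / (2 * s ^ 2)) - ((1 : ℝ) : ℂ) ^ 3 * (1 / (3 * s ^ 3))) -
          (Complex.log (s + (0 : ℝ)) - ((0 : ℝ) : ℂ) * s⁻¹ +
          ((0 : ℝ) : ℂ) ^ 2 * (1 / (2 * s ^ 2)) - ((0 : ℝ) : ℂ) ^ 3 * (1 / (3 * s ^ 3)))) +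
        1 / (2 * (s ^ 3 * (s + 1))) - (3 * s + 2) / (12 * (s ^ 3 * (s + 1) ^ 2)) := by
      unfold GA1_d
      rw [digamma_apply_add_one s hg]
      simp only [Complex.ofReal_zero, add_zero, zero_mul, sub_zero, Complex.ofReal_one, one_mul,
        one_pow, ne_eq, OfNat.ofNat_ne_zero, not_false_eq_true, zero_pow]
      field_simp
      ring
    have b1 : ‖1 / (2 * (s ^ 3 * (s + 1)))‖ ≤ 1 / 2 * (1 / r ^ 4) := by
      rw [norm_div, norm_one, norm_mul, norm_mul, norm_pow, Complex.norm_ofNat, ← one_div_mul_one_div]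
      have h3 : r ^ 4 ≤ ‖s‖ ^ 3 * ‖s + 1‖ := by
        calc r ^ 4 = r ^ 3 * r := by ring
          _ ≤ ‖s‖ ^ 3 * ‖s + 1‖ := by gcongr
      gcongr
    have b2 : ‖(3 * s + 2) / (12 * (s ^ 3 * (s + 1) ^ 2))‖ ≤ 1 / 3 * (1 / r ^ 4) := by
      have h3 : ‖3 * s + 2‖ ≤ 4 * ‖s + 1‖ := by
        have h4 : 3 * s + 2 = 3 * (s + 1) - 1 := by ring
        rw [h4]
        refine (norm_sub_le _ _).trans ?_
        rw [norm_mul, Complex.norm_ofNat, norm_one]
        linarith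
      rw [norm_div, norm_mul, norm_mul, norm_pow, norm_pow, Complex.norm_ofNat]
      have p0 : 0 < ‖s‖ := by linarith
      have p1 : 0 < ‖s + 1‖ := by linarith
      have h5 : r ^ 4 ≤ ‖s‖ ^ 3 * ‖s + 1‖ := by
        calc r ^ 4 = r ^ 3 * r := by ring
          _ ≤ ‖s‖ ^ 3 * ‖s + 1‖ := by gcongr
      calc ‖3 * s + 2‖ / (12 * (‖s‖ ^ 3 * ‖s + 1‖ ^ 2))
          ≤ 4 * ‖s + 1‖ / (12 * (‖s‖ ^ 3 * ‖s + 1‖ ^ 2)) := by gcongr
        _ = 1 / 3 * (1 / (‖s‖ ^ 3 * ‖s + 1‖)) := by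
            field_simp
            ring
        _ ≤ 1 / 3 * (1 / r ^ 4) := by gcongr
    rw [e1]
    refine (norm_sub_le _ _).trans ?_
    have h4 := (norm_add_le ((Complex.log (s + (1 : ℝ)) - ((1 : ℝ) : ℂ) * s⁻¹ +
          ((1 : ℝ) : ℂ) ^ 2 * (1 / (2 * s ^ 2)) - ((1 : ℝ) : ℂ) ^ 3 * (1 / (3 * s ^ 3))) -
          (Complex.log (s + (0 : ℝ)) - ((0 : ℝ) : ℂ) * s⁻¹ +
          ((0 : ℝ) : ℂ) ^ 2 * (1 / (2 * s ^ 2)) - ((0 : ℝ) : ℂ) ^ 3 * (1 / (3 * s ^ 3))))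
          (1 / (2 * (s ^ 3 * (s + 1)))))
    have h5 : 0 ≤ 1 / r ^ 4 := by positivity
    have h6 : 2 / r ^ 4 = 2 * (1 / r ^ 4) := by ring
    rw [h6]
    linarith
  · intro u hu
    have h5 : (s + u) ∈ slitPlane := by
      rw [Complex.mem_slitPlane_iff]
      right
      simpa using hs
    have h6 : HasDerivAt (fun u : ℝ => s + (u : ℂ)) 1 u := by
      have := (Complex.ofRealCLM.hasDerivAt (x := u)).const_add s
      simpa using this
    have h0 : HasDerivAt (fun u : ℝ => (u : ℂ)) 1 u := Complex.ofRealCLM.hasDerivAt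
    have h7 := h6.clog_real h5
    have h8 := h0.mul_const s⁻¹
    have h9 := (h0.pow 2).mul_const (1 / (2 * s ^ 2))
    have h10 := (h0.pow 3).mul_const (1 / (3 * s ^ 3))
    have h11 := ((h7.sub h8).add h9).sub h10
    refine HasDerivAt.hasDerivWithinAt (h11.congr_deriv ?_)
    push_cast
    field_simp
  · intro u hu
    have hu2 := hr2 u hu.1 hu.2.le
    have h5 : s + u ≠ 0 := norm_pos_iff.1 (by linarith)
    have h6 : (s + u)⁻¹ - s⁻¹ + (u : ℂ) * (1 / s ^ 2) - (u : ℂ) ^ 2 * (1 / s ^ 3) =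
        -((u : ℂ) ^ 3 * (1 / (s ^ 3 * (s + u)))) := by
      field_simp
      ring
    rw [h6, norm_neg, norm_mul, norm_pow, Complex.norm_real, Real.norm_eq_abs, abs_of_nonneg hu.1,
      norm_div, norm_one, norm_mul, norm_pow]
    have h7 : u ^ 3 ≤ 1 := pow_le_one₀ hu.1 hu.2.le
    have h8 : r ^ 4 ≤ ‖s‖ ^ 3 * ‖s + u‖ := by
      calc r ^ 4 = r ^ 3 * r := by ring
        _ ≤ ‖s‖ ^ 3 * ‖s + u‖ := by gcongr
    have h9 : 1 / (‖s‖ ^ 3 * ‖s + u‖) ≤ 1 / r ^ 4 := by gcongr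
    have h10 : 0 ≤ 1 / (‖s‖ ^ 3 * ‖s + u‖) := by positivity
    nlinarith

private theorem GA1_im_ne {s : ℂ} (hs : s.im ≠ 0) (m : ℕ) : s ≠ -m := by
  rintro rfl
  simp at hs

/-- **GA1.** Second order expansion of the digamma function in the right half plane.
Telescoping: `δ(s) = ψ(s) - log s + 1/(2s) + 1/(12s²)` has `δ(s) - δ(s+1) = O(|s|^{-5})` and tends
to `0` along `s + N` (compare `Pool/Agent/MP_67227b_nt/Fb/FbDig.lean`, `digamma_log`). -/
theorem digamma_two : ∃ C : ℝ, 0 < C ∧ ∀ s : ℂ, 0 < s.re → 1 ≤ |s.im| →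
    ‖digamma s - log s + 1 / (2 * s) + 1 / (12 * s ^ 2)‖ ≤ C / |s.im| ^ 3 := by
  refine ⟨16, by norm_num, fun s hs ht => ?_⟩
  have hstep : ∀ j : ℕ, ‖GA1_d (s + j) - GA1_d (s + (j + 1 : ℕ))‖ ≤
      8 / |s.im| ^ 2 * (1 / ((j : ℝ) + |s.im|) ^ 2) := by
    intro j
    have hj : (0 : ℝ) ≤ j := Nat.cast_nonneg j
    have him : (s + j).im = s.im := by simp
    have hne : (s + j).im ≠ 0 := by
      rw [him]
      intro h
      rw [h, abs_zero] at ht
      linarith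
    have hn1 : 1 ≤ ‖s + j‖ := by
      have := Complex.abs_im_le_norm (s + j)
      rw [him] at this
      linarith
    have h3 : ((j : ℝ) + |s.im|) ^ 2 / 2 ≤ ‖s + j‖ ^ 2 := by
      rw [← normSq_eq_norm_sq, normSq_apply]
      simp only [add_re, natCast_re, add_im, natCast_im, add_zero]
      nlinarith [sq_nonneg ((j : ℝ) - |s.im|), sq_abs s.im, mul_nonneg hj hs.le]
    have h1 := GA1_step hne (GA1_im_ne hne) hn1 (fun u hu _ => by
      rw [← sq_le_sq₀ (norm_nonneg _) (norm_nonneg _), ← normSq_eq_norm_sq, ← normSq_eq_norm_sq,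
        normSq_apply, normSq_apply]
      simp only [add_re, natCast_re, add_im, natCast_im, add_zero, ofReal_re, ofReal_im]
      nlinarith [mul_nonneg hu hs.le, mul_nonneg hu hj])
    have e1 : s + ((j + 1 : ℕ) : ℂ) = s + j + 1 := by
      push_cast
      ring
    rw [e1]
    refine h1.trans ?_
    have h4 : 0 < |s.im| := by linarith
    have h5 : |s.im| ^ 2 * ((j : ℝ) + |s.im|) ^ 2 / 4 ≤ ‖s + j‖ ^ 4 := by
      have h6 : |s.im| ^ 2 ≤ ((j : ℝ) + |s.im|) ^ 2 := by nlinarith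
      have h7 : 0 ≤ ((j : ℝ) + |s.im|) ^ 2 := sq_nonneg _
      nlinarith [mul_le_mul h3 h3 (by positivity) (by positivity)]
    have h8 : 0 < |s.im| ^ 2 * ((j : ℝ) + |s.im|) ^ 2 / 4 := by positivity
    calc 2 / ‖s + j‖ ^ 4 ≤ 2 / (|s.im| ^ 2 * ((j : ℝ) + |s.im|) ^ 2 / 4) := by gcongr
      _ = 8 / |s.im| ^ 2 * (1 / ((j : ℝ) + |s.im|) ^ 2) := by
          field_simp
          ring
  have hsum : ∀ N : ℕ, ‖GA1_d s‖ ≤ ‖GA1_d (s + N)‖ + 16 / |s.im| ^ 3 := by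
    intro N
    have h0 : 0 ≤ 16 / |s.im| ^ 3 := by positivity
    rcases N with _ | M
    · simp only [Nat.cast_zero, add_zero]
      linarith
    have h1 : GA1_d s = GA1_d (s + (M + 1 : ℕ)) +
        ∑ j ∈ Finset.range (M + 1), (GA1_d (s + j) - GA1_d (s + (j + 1 : ℕ))) := by
      rw [Finset.sum_range_sub' (fun j : ℕ => GA1_d (s + j))]
      simp
    have h2 : ‖∑ j ∈ Finset.range (M + 1), (GA1_d (s + j) - GA1_d (s + (j + 1 : ℕ)))‖ ≤
        16 / |s.im| ^ 3 := by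
      calc _ ≤ ∑ j ∈ Finset.range (M + 1), ‖GA1_d (s + j) - GA1_d (s + (j + 1 : ℕ))‖ :=
            norm_sum_le _ _
        _ ≤ ∑ j ∈ Finset.range (M + 1), 8 / |s.im| ^ 2 * (1 / ((j : ℝ) + |s.im|) ^ 2) :=
            Finset.sum_le_sum fun j _ => hstep j
        _ = 8 / |s.im| ^ 2 * ∑ j ∈ Finset.range (M + 1), 1 / ((j : ℝ) + |s.im|) ^ 2 := by
            rw [Finset.mul_sum]
        _ ≤ 8 / |s.im| ^ 2 * (2 / |s.im|) := by
            have h3 := Pool.Agent.MP_67227b_nt.Mo.sum_inv_sq_le ht M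
            have h4 : 0 ≤ 1 / (|s.im| + M) := by positivity
            have h5 : 1 / |s.im| ^ 2 ≤ 1 / |s.im| := by
              apply one_div_le_one_div_of_le (by linarith)
              nlinarith
            have h6 : 2 / |s.im| = 1 / |s.im| + 1 / |s.im| := by ring
            gcongr
            rw [h6]
            linarith
        _ = 16 / |s.im| ^ 3 := by
            have h4 : 0 < |s.im| := by linarith
            field_simp
            ring
    calc ‖GA1_d s‖ = ‖GA1_d (s + (M + 1 : ℕ)) +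
        ∑ j ∈ Finset.range (M + 1), (GA1_d (s + j) - GA1_d (s + (j + 1 : ℕ)))‖ := by rw [← h1]
      _ ≤ _ := (norm_add_le _ _).trans (add_le_add le_rfl h2)
  have hlim : Tendsto (fun N : ℕ => ‖GA1_d (s + N)‖ + 16 / |s.im| ^ 3) atTop
      (𝓝 (0 + 16 / |s.im| ^ 3)) := by
    have h := (GA1_dlim hs).norm
    rw [norm_zero] at h
    exact h.add tendsto_const_nhds
  rw [zero_add] at hlim
  exact ge_of_tendsto hlim (Eventually.of_forall hsum)
--END GA1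

--BEGIN GA2
private theorem GA2_nat {s : ℂ} (ht : 1 ≤ |s.im|) (M : ℕ) :
    ‖GA1_d s‖ ≤ ‖GA1_d (s + M)‖ + M * (2 / |s.im| ^ 3) := by
  induction M with
  | zero => simp
  | succ M ih =>
    have him : (s + M).im = s.im := by simp
    have hne : (s + M).im ≠ 0 := by
      rw [him]
      intro h
      rw [h, abs_zero] at ht
      linarith
    have h1 := GA1_step hne (GA1_im_ne hne) ht (fun u _ _ => by
      have := Complex.abs_im_le_norm (s + M + u)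
      rw [add_im, him, ofReal_im, add_zero] at this
      exact this)
    have h2 : 2 / |s.im| ^ 4 ≤ 2 / |s.im| ^ 3 := by
      have h3 : 0 < |s.im| := by linarith
      have h4 : |s.im| ^ 3 ≤ |s.im| ^ 4 := by
        calc |s.im| ^ 3 = |s.im| ^ 3 * 1 := by ring
          _ ≤ |s.im| ^ 3 * |s.im| := by gcongr
          _ = |s.im| ^ 4 := by ring
      gcongr
    have e1 : s + ((M + 1 : ℕ) : ℂ) = s + M + 1 := by
      push_cast
      ring
    have h5 : ‖GA1_d (s + M)‖ ≤ ‖GA1_d (s + M + 1)‖ + ‖GA1_d (s + M) - GA1_d (s + M + 1)‖ := by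
      have h6 := norm_add_le (GA1_d (s + M + 1)) (GA1_d (s + M) - GA1_d (s + M + 1))
      rw [add_sub_cancel] at h6
      exact h6
    rw [e1]
    push_cast
    linarith

/-- **GA2.** The same in every vertical strip, by the recurrence `ψ(s) = ψ(s+1) - 1/s`. -/
theorem digamma_strip (A : ℝ) : ∃ C : ℝ, 0 < C ∧ ∀ s : ℂ, |s.re| ≤ A → 1 ≤ |s.im| →
    ‖digamma s - log s + 1 / (2 * s) + 1 / (12 * s ^ 2)‖ ≤ C / |s.im| ^ 3 := by
  obtain ⟨C, hC, h⟩ := digamma_two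
  obtain ⟨M, hM⟩ := exists_nat_gt A
  refine ⟨C + M * 2, by positivity, fun s hs ht => ?_⟩
  have him : (s + M).im = s.im := by simp
  have hre : 0 < (s + M).re := by
    have := (abs_le.1 hs).1
    simp
    linarith
  have h1 := h (s + M) hre (by rw [him]; exact ht)
  rw [him] at h1
  have h2 := GA2_nat ht M
  have h3 : (C + M * 2) / |s.im| ^ 3 = C / |s.im| ^ 3 + M * (2 / |s.im| ^ 3) := by ring
  rw [h3]
  exact h2.trans (add_le_add h1 le_rfl)
--END GA2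

--BEGIN GA3
private theorem GA3_log {w β : ℂ} {r : ℝ} (hr : 0 < r) (hw : r ≤ |w.im|)
    (hb : ∀ u : ℝ, 0 ≤ u → u ≤ 1 → r ≤ |(w + u * β).im|)
    (hw0 : ∀ u : ℝ, 0 ≤ u → u ≤ 1 → (w + u * β).im ≠ 0) :
    ‖Complex.log (w + β) - Complex.log w - β / w + β ^ 2 / (2 * w ^ 2)‖ ≤ ‖β‖ ^ 3 / r ^ 3 := by
  have n0 : r ≤ ‖w‖ := hw.trans (Complex.abs_im_le_norm w)
  have hwn : w ≠ 0 := norm_pos_iff.1 (by linarith)
  have key := norm_image_sub_le_of_norm_deriv_le_segment_01'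
    (f := fun u : ℝ => Complex.log (w + u * β) - (u : ℂ) * (β / w) +
      (u : ℂ) ^ 2 * (β ^ 2 / (2 * w ^ 2)))
    (f' := fun u : ℝ => β / (w + u * β) - β / w + (u : ℂ) * (β ^ 2 / w ^ 2))
    (C := ‖β‖ ^ 3 / r ^ 3) ?_ ?_
  · have e1 : Complex.log (w + β) - Complex.log w - β / w + β ^ 2 / (2 * w ^ 2) =
        (Complex.log (w + (1 : ℝ) * β) - ((1 : ℝ) : ℂ) * (β / w) +
          ((1 : ℝ) : ℂ) ^ 2 * (β ^ 2 / (2 * w ^ 2))) -
        (Complex.log (w + (0 : ℝ) * β) - ((0 : ℝ) : ℂ) * (β / w) +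
          ((0 : ℝ) : ℂ) ^ 2 * (β ^ 2 / (2 * w ^ 2))) := by
      simp only [Complex.ofReal_zero, add_zero, zero_mul, sub_zero, Complex.ofReal_one, one_mul,
        one_pow, ne_eq, OfNat.ofNat_ne_zero, not_false_eq_true, zero_pow]
      ring
    rw [e1]
    exact key
  · intro u hu
    have h5 : (w + u * β) ∈ slitPlane := by
      rw [Complex.mem_slitPlane_iff]
      right
      exact hw0 u hu.1 hu.2
    have h0 : HasDerivAt (fun u : ℝ => (u : ℂ)) 1 u := Complex.ofRealCLM.hasDerivAt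
    have h6 : HasDerivAt (fun u : ℝ => w + (u : ℂ) * β) (1 * β) u := (h0.mul_const β).const_add w
    have h7 := h6.clog_real h5
    have h8 := h0.mul_const (β / w)
    have h9 := (h0.pow 2).mul_const (β ^ 2 / (2 * w ^ 2))
    have h11 := (h7.sub h8).add h9
    refine HasDerivAt.hasDerivWithinAt (h11.congr_deriv ?_)
    push_cast
    field_simp
  · intro u hu
    have hu2 := (hb u hu.1 hu.2.le).trans (Complex.abs_im_le_norm _)
    have h5 : w + u * β ≠ 0 := norm_pos_iff.1 (by linarith)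
    have h6 : β / (w + u * β) - β / w + (u : ℂ) * (β ^ 2 / w ^ 2) =
        (u : ℂ) ^ 2 * (β ^ 3 / (w ^ 2 * (w + u * β))) := by
      generalize hz : w + (u : ℂ) * β = z at h5 ⊢
      have hu' : (u : ℂ) * β = z - w := by rw [← hz]; ring
      have e : β / z - β / w + (u : ℂ) * (β ^ 2 / w ^ 2) =
          β * (w ^ 2 - z * w + (u * β) * z) / (w ^ 2 * z) := by field_simp
      have e' : (u : ℂ) ^ 2 * (β ^ 3 / (w ^ 2 * z)) = β * (u * β) ^ 2 / (w ^ 2 * z) := by ring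
      rw [e, e', hu']
      ring
    rw [h6, norm_mul, norm_pow, Complex.norm_real, Real.norm_eq_abs, abs_of_nonneg hu.1,
      norm_div, norm_pow, norm_mul, norm_pow]
    have h7 : u ^ 2 ≤ 1 := pow_le_one₀ hu.1 hu.2.le
    have h8 : r ^ 3 ≤ ‖w‖ ^ 2 * ‖w + u * β‖ := by
      calc r ^ 3 = r ^ 2 * r := by ring
        _ ≤ ‖w‖ ^ 2 * ‖w + u * β‖ := by gcongr
    have h9 : ‖β‖ ^ 3 / (‖w‖ ^ 2 * ‖w + u * β‖) ≤ ‖β‖ ^ 3 / r ^ 3 := by gcongr
    have h10 : 0 ≤ ‖β‖ ^ 3 / (‖w‖ ^ 2 * ‖w + u * β‖) := by positivity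
    nlinarith

/-- **GA3.** Affine arguments. Here `c = (-β²/2 + β/2 - 1/12)/α²`. -/
theorem digamma_affine (α : ℝ) (hα : α ≠ 0) (β : ℂ) (A : ℝ) :
    ∃ (c : ℂ) (C t0 : ℝ), 0 < C ∧ 1 ≤ t0 ∧ ∀ s : ℂ, |s.re| ≤ A → t0 ≤ |s.im| →
      ‖digamma (α * s + β) - log (α * s) - (β - 1 / 2) / (α * s) - c / s ^ 2‖ ≤
        C / |s.im| ^ 3 := by
  obtain ⟨C, hC, h⟩ := digamma_strip (|α| * A + ‖β‖)
  have ha : 0 < |α| := abs_pos.2 hα
  have hb : 0 ≤ ‖β‖ := norm_nonneg β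
  have hαc : (α : ℂ) ≠ 0 := by exact_mod_cast hα
  refine ⟨(-β ^ 2 / 2 + β / 2 - 1 / 12) / α ^ 2,
    (C + ‖β‖ ^ 3 + ‖β‖ ^ 2 + 2 * ‖β‖) / (|α| / 2) ^ 3, 1 + 2 * (1 + ‖β‖) / |α|,
    by positivity, ?_, fun s hs ht => ?_⟩
  · have : 0 ≤ 2 * (1 + ‖β‖) / |α| := by positivity
    linarith
  have ht0 : 2 * (1 + ‖β‖) / |α| ≤ |s.im| := by linarith
  have ht1 : 1 ≤ |s.im| := by
    have : 0 ≤ 2 * (1 + ‖β‖) / |α| := by positivity
    linarith
  have ht2 : 2 * (1 + ‖β‖) ≤ |α| * |s.im| := by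
    rw [div_le_iff₀ ha] at ht0
    linarith
  -- `w = α s`, `z = w + β`, `r = |α| |t| / 2`
  have hwim : |((α : ℂ) * s).im| = |α| * |s.im| := by
    rw [Complex.im_ofReal_mul, abs_mul]
  have hr1 : 1 ≤ |α| * |s.im| / 2 := by linarith
  have hr : 0 < |α| * |s.im| / 2 := by linarith
  have hβ : ‖β‖ ≤ |α| * |s.im| / 2 := by linarith
  have hseg : ∀ u : ℝ, 0 ≤ u → u ≤ 1 → |α| * |s.im| / 2 ≤ |((α : ℂ) * s + u * β).im| := by
    intro u hu hu1
    have h1 : |((α : ℂ) * s).im| ≤ |((α : ℂ) * s + u * β).im| + |(u * β : ℂ).im| := by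
      have h2 := abs_sub (((α : ℂ) * s + u * β).im) ((u * β : ℂ).im)
      rw [add_im, add_sub_cancel_right] at h2
      rw [add_im]
      exact h2
    have h2 : |(u * β : ℂ).im| ≤ ‖β‖ := by
      rw [Complex.im_ofReal_mul, abs_mul, abs_of_nonneg hu]
      have h3 := Complex.abs_im_le_norm β
      nlinarith [abs_nonneg β.im]
    rw [hwim] at h1
    linarith
  have hseg0 : ∀ u : ℝ, 0 ≤ u → u ≤ 1 → ((α : ℂ) * s + u * β).im ≠ 0 := by
    intro u hu hu1 h0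
    have := hseg u hu hu1
    rw [h0, abs_zero] at this
    linarith
  have hlog := GA3_log hr (by rw [hwim]; linarith) hseg hseg0
  have hz1 : |α| * |s.im| / 2 ≤ |((α : ℂ) * s + β).im| := by
    have := hseg 1 zero_le_one le_rfl
    rwa [Complex.ofReal_one, one_mul] at this
  have hzre : |((α : ℂ) * s + β).re| ≤ |α| * A + ‖β‖ := by
    rw [add_re, Complex.re_ofReal_mul]
    refine (abs_add_le _ _).trans (add_le_add ?_ (Complex.abs_re_le_norm β))
    rw [abs_mul]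
    gcongr
  have hd := h ((α : ℂ) * s + β) hzre (hr1.trans hz1)
  have hd' : C / |((α : ℂ) * s + β).im| ^ 3 ≤ C / (|α| * |s.im| / 2) ^ 3 := by gcongr
  have nw : |α| * |s.im| / 2 ≤ ‖(α : ℂ) * s‖ := by
    have := Complex.abs_im_le_norm ((α : ℂ) * s)
    rw [hwim] at this
    linarith
  have nz : |α| * |s.im| / 2 ≤ ‖(α : ℂ) * s + β‖ := hz1.trans (Complex.abs_im_le_norm _)
  have hs0 : s ≠ 0 := by
    rintro rfl
    rw [zero_im, abs_zero] at ht1
    linarith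
  have hw0 : (α : ℂ) * s ≠ 0 := mul_ne_zero hαc hs0
  have hz0 : (α : ℂ) * s + β ≠ 0 := norm_pos_iff.1 (by linarith)
  have b1 : ‖β ^ 2 / (2 * (((α : ℂ) * s) ^ 2 * ((α : ℂ) * s + β)))‖ ≤
      ‖β‖ ^ 2 / (|α| * |s.im| / 2) ^ 3 := by
    rw [norm_div, norm_pow, norm_mul, Complex.norm_ofNat, norm_mul, norm_pow]
    have h8 : (|α| * |s.im| / 2) ^ 3 ≤ 2 * (‖(α : ℂ) * s‖ ^ 2 * ‖(α : ℂ) * s + β‖) := by
      calc (|α| * |s.im| / 2) ^ 3 = (|α| * |s.im| / 2) ^ 2 * (|α| * |s.im| / 2) := by ring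
        _ ≤ ‖(α : ℂ) * s‖ ^ 2 * ‖(α : ℂ) * s + β‖ := by gcongr
        _ ≤ 2 * (‖(α : ℂ) * s‖ ^ 2 * ‖(α : ℂ) * s + β‖) := by
            have : 0 ≤ ‖(α : ℂ) * s‖ ^ 2 * ‖(α : ℂ) * s + β‖ := by positivity
            linarith
    gcongr
  have b2 : ‖β * (2 * ((α : ℂ) * s) + β) / (12 * (((α : ℂ) * s) ^ 2 * ((α : ℂ) * s + β) ^ 2))‖ ≤
      2 * ‖β‖ / (|α| * |s.im| / 2) ^ 3 := by
    have h3 : ‖2 * ((α : ℂ) * s) + β‖ ≤ ‖(α : ℂ) * s‖ + ‖(α : ℂ) * s + β‖ := by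
      have h4 : 2 * ((α : ℂ) * s) + β = (α : ℂ) * s + ((α : ℂ) * s + β) := by ring
      rw [h4]
      exact norm_add_le _ _
    rw [norm_div, norm_mul, norm_mul, Complex.norm_ofNat, norm_mul, norm_pow, norm_pow]
    have p0 : 0 < ‖(α : ℂ) * s‖ := by linarith
    have p1 : 0 < ‖(α : ℂ) * s + β‖ := by linarith
    have h5 : (|α| * |s.im| / 2) ^ 3 ≤ ‖(α : ℂ) * s‖ * ‖(α : ℂ) * s + β‖ ^ 2 := by
      calc (|α| * |s.im| / 2) ^ 3 = (|α| * |s.im| / 2) * (|α| * |s.im| / 2) ^ 2 := by ring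
        _ ≤ ‖(α : ℂ) * s‖ * ‖(α : ℂ) * s + β‖ ^ 2 := by gcongr
    have h6 : (|α| * |s.im| / 2) ^ 3 ≤ ‖(α : ℂ) * s‖ ^ 2 * ‖(α : ℂ) * s + β‖ := by
      calc (|α| * |s.im| / 2) ^ 3 = (|α| * |s.im| / 2) ^ 2 * (|α| * |s.im| / 2) := by ring
        _ ≤ ‖(α : ℂ) * s‖ ^ 2 * ‖(α : ℂ) * s + β‖ := by gcongr
    calc ‖β‖ * ‖2 * ((α : ℂ) * s) + β‖ / (12 * (‖(α : ℂ) * s‖ ^ 2 * ‖(α : ℂ) * s + β‖ ^ 2))
        ≤ ‖β‖ * (‖(α : ℂ) * s‖ + ‖(α : ℂ) * s + β‖) /
          (12 * (‖(α : ℂ) * s‖ ^ 2 * ‖(α : ℂ) * s + β‖ ^ 2)) := by gcongr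
      _ = 1 / 12 * (‖β‖ / (‖(α : ℂ) * s‖ * ‖(α : ℂ) * s + β‖ ^ 2)) +
          1 / 12 * (‖β‖ / (‖(α : ℂ) * s‖ ^ 2 * ‖(α : ℂ) * s + β‖)) := by
          field_simp
      _ ≤ 1 / 12 * (‖β‖ / (|α| * |s.im| / 2) ^ 3) + 1 / 12 * (‖β‖ / (|α| * |s.im| / 2) ^ 3) := by
          gcongr
      _ ≤ 2 * ‖β‖ / (|α| * |s.im| / 2) ^ 3 := by
          have h7 : 0 ≤ ‖β‖ / (|α| * |s.im| / 2) ^ 3 := by positivity
          have h8 : 2 * ‖β‖ / (|α| * |s.im| / 2) ^ 3 = 2 * (‖β‖ / (|α| * |s.im| / 2) ^ 3) := by ring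
          rw [h8]
          linarith
  have e1 : digamma (α * s + β) - Complex.log (α * s) - (β - 1 / 2) / (α * s) -
      (-β ^ 2 / 2 + β / 2 - 1 / 12) / α ^ 2 / s ^ 2 =
      (digamma (α * s + β) - Complex.log (α * s + β) + 1 / (2 * (α * s + β)) +
        1 / (12 * (α * s + β) ^ 2)) +
      (Complex.log (α * s + β) - Complex.log (α * s) - β / (α * s) +
        β ^ 2 / (2 * (α * s) ^ 2)) -
      β ^ 2 / (2 * ((α * s) ^ 2 * (α * s + β))) +
      β * (2 * (α * s) + β) / (12 * ((α * s) ^ 2 * (α * s + β) ^ 2)) := by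
    have hs2 : (-β ^ 2 / 2 + β / 2 - 1 / 12) / (α : ℂ) ^ 2 / s ^ 2 =
        (-β ^ 2 / 2 + β / 2 - 1 / 12) / ((α : ℂ) * s) ^ 2 := by
      rw [div_div, mul_pow]
    rw [hs2]
    generalize (α : ℂ) * s = w at hw0 hz0 ⊢
    field_simp
    ring
  rw [e1]
  refine (norm_add_le _ _).trans ?_
  refine (add_le_add ((norm_sub_le _ _).trans (add_le_add (norm_add_le _ _) le_rfl)) le_rfl).trans ?_
  have e2 : (C + ‖β‖ ^ 3 + ‖β‖ ^ 2 + 2 * ‖β‖) / (|α| / 2) ^ 3 / |s.im| ^ 3 =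
      C / (|α| * |s.im| / 2) ^ 3 + ‖β‖ ^ 3 / (|α| * |s.im| / 2) ^ 3 +
        ‖β‖ ^ 2 / (|α| * |s.im| / 2) ^ 3 + 2 * ‖β‖ / (|α| * |s.im| / 2) ^ 3 := by
    field_simp
  rw [e2]
  exact add_le_add (add_le_add (add_le_add (hd.trans hd') hlog) b1) b2
--END GA3

--BEGIN GA4
private theorem GA4_half (t : ℝ) : ‖Gamma ((1 / 2 : ℝ) + t * I)‖ ^ 2 = π / Real.cosh (π * t) := by
  have h1 : conj ((1 / 2 : ℝ) + t * I : ℂ) = 1 - ((1 / 2 : ℝ) + t * I) := by
    rw [map_add, map_mul, Complex.conj_ofReal, Complex.conj_ofReal, Complex.conj_I]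
    push_cast
    ring
  have h2 : ((‖Gamma ((1 / 2 : ℝ) + t * I)‖ ^ 2 : ℝ) : ℂ) =
      Gamma ((1 / 2 : ℝ) + t * I) * Gamma (1 - ((1 / 2 : ℝ) + t * I)) := by
    rw [← h1, Gamma_conj, Complex.mul_conj, normSq_eq_norm_sq]
  rw [Complex.Gamma_mul_Gamma_one_sub] at h2
  have h3 : sin (π * ((1 / 2 : ℝ) + t * I)) = ((Real.cosh (π * t) : ℝ) : ℂ) := by
    have h4 : (π : ℂ) * ((1 / 2 : ℝ) + t * I) = (π * t : ℂ) * I + π / 2 := by
      push_cast
      ring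
    rw [h4, Complex.sin_add_pi_div_two, Complex.cos_mul_I, Complex.ofReal_cosh]
    push_cast
    rfl
  rw [h3] at h2
  exact_mod_cast h2

private theorem GA4_cosh (x : ℝ) : Real.exp |x| / 2 ≤ Real.cosh x ∧ Real.cosh x ≤ Real.exp |x| := by
  rw [← Real.cosh_abs, Real.cosh_eq]
  have h1 := Real.exp_pos |x|
  have h2 := Real.exp_pos (-|x|)
  have h3 : Real.exp (-|x|) ≤ Real.exp |x| := Real.exp_le_exp.2 (by linarith [abs_nonneg x])
  constructor <;> linarith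

private theorem GA4_halfb {t : ℝ} : ‖Gamma ((1 / 2 : ℝ) + t * I)‖ ≤ 3 * Real.exp (-(π * |t| / 2)) ∧
    Real.exp (-(π * |t| / 2)) ≤ ‖Gamma ((1 / 2 : ℝ) + t * I)‖ := by
  have h1 := GA4_half t
  obtain ⟨h2, h3⟩ := GA4_cosh (π * t)
  have h4 : |π * t| = π * |t| := by rw [abs_mul, abs_of_pos Real.pi_pos]
  rw [h4] at h2 h3
  have h5 : Real.exp (-(π * |t| / 2)) ^ 2 = (Real.exp (π * |t|))⁻¹ := by
    rw [← Real.exp_nat_mul, ← Real.exp_neg]
    congr 1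
    push_cast
    ring
  have hE := Real.exp_pos (π * |t|)
  have hc : 0 < Real.cosh (π * t) := Real.cosh_pos _
  have hpi := Real.pi_gt_three
  have hpi4 := Real.pi_lt_four
  constructor
  · refine abs_le_of_sq_le_sq' ?_ (by positivity) |>.2
    rw [h1, mul_pow, h5, div_le_iff₀ hc]
    have h6 : 1 / 2 ≤ (Real.exp (π * |t|))⁻¹ * Real.cosh (π * t) := by
      rw [inv_mul_eq_div, le_div_iff₀ hE]
      linarith
    nlinarith
  · refine abs_le_of_sq_le_sq' ?_ (norm_nonneg _) |>.2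
    rw [h1, h5, le_div_iff₀ hc]
    have h6 : (Real.exp (π * |t|))⁻¹ * Real.cosh (π * t) ≤ 1 := by
      rw [inv_mul_eq_div, div_le_iff₀ hE]
      linarith
    linarith

private theorem GA4_deriv {σ t : ℝ} (ht : t ≠ 0) :
    HasDerivAt (fun σ : ℝ => Real.log (‖Gamma (σ + t * I)‖ ^ 2))
      (2 * (digamma (σ + t * I)).re) σ := by
  have hne : ∀ m : ℕ, (σ + t * I : ℂ) ≠ -m := GA1_im_ne (by simpa using ht)
  have hG : Gamma (σ + t * I) ≠ 0 := Gamma_ne_zero hne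
  have h1 : HasDerivAt (fun σ : ℝ => (σ : ℂ) + t * I) 1 σ :=
    (Complex.ofRealCLM.hasDerivAt (x := σ)).add_const _
  have h2 : HasDerivAt (fun σ : ℝ => Gamma (σ + t * I)) (deriv Gamma (σ + t * I) * 1) σ :=
    (differentiableAt_Gamma _ hne).hasDerivAt.comp σ h1
  have h3 := h2.norm_sq
  have h4 : ‖Gamma (σ + t * I)‖ ^ 2 ≠ 0 := pow_ne_zero 2 (norm_ne_zero_iff.2 hG)
  have h5 := h3.log h4
  refine h5.congr_deriv ?_
  rw [mul_one, digamma_def, logDeriv_apply, Complex.inner, Complex.div_re, Complex.mul_re,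
    Complex.conj_re, Complex.conj_im, ← normSq_eq_norm_sq]
  have h6 : normSq (Gamma (σ + t * I)) ≠ 0 := by
    rw [normSq_eq_norm_sq]
    exact h4
  field_simp
  ring

private theorem GA4_re (A : ℝ) : ∃ C : ℝ, 0 < C ∧ ∀ σ t : ℝ, |σ| ≤ A → 1 ≤ |t| →
    |(digamma (σ + t * I)).re - Real.log (|t|)| ≤ C := by
  obtain ⟨C, hC, h⟩ := digamma_strip A
  refine ⟨C + 2 + |A|, by positivity, fun σ t hσ ht => ?_⟩
  have hre : ((σ : ℂ) + t * I).re = σ := by simp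
  have him : ((σ : ℂ) + t * I).im = t := by simp
  have h1 := h (σ + t * I) (by rw [hre]; exact hσ) (by rw [him]; exact ht)
  rw [him] at h1
  have h2 : C / |t| ^ 3 ≤ C := by
    rw [div_le_iff₀ (by positivity)]
    have : 1 ≤ |t| ^ 3 := one_le_pow₀ ht
    nlinarith
  have hn : 1 ≤ ‖(σ : ℂ) + t * I‖ := by
    have := Complex.abs_im_le_norm ((σ : ℂ) + t * I)
    rw [him] at this
    linarith
  have h3 : ‖1 / (2 * ((σ : ℂ) + t * I))‖ ≤ 1 := by
    rw [norm_div, norm_one, norm_mul, Complex.norm_ofNat, div_le_one (by linarith)]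
    linarith
  have h4 : ‖1 / (12 * ((σ : ℂ) + t * I) ^ 2)‖ ≤ 1 := by
    rw [norm_div, norm_one, norm_mul, Complex.norm_ofNat, norm_pow,
      div_le_one (by positivity)]
    have : 1 ≤ ‖(σ : ℂ) + t * I‖ ^ 2 := one_le_pow₀ hn
    linarith
  have h5 : |(digamma (σ + t * I)).re - (Complex.log (σ + t * I)).re| ≤ C + 2 := by
    rw [← Complex.sub_re]
    refine (Complex.abs_re_le_norm _).trans ?_
    have h6 : digamma (σ + t * I) - Complex.log (σ + t * I) =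
        (digamma (σ + t * I) - Complex.log (σ + t * I) + 1 / (2 * (σ + t * I)) +
          1 / (12 * (σ + t * I) ^ 2)) - 1 / (2 * (σ + t * I)) - 1 / (12 * (σ + t * I) ^ 2) := by
      ring
    rw [h6]
    refine (norm_sub_le _ _).trans ?_
    have h7 := norm_sub_le (digamma (σ + t * I) - Complex.log (σ + t * I) +
      1 / (2 * (σ + t * I)) + 1 / (12 * (σ + t * I) ^ 2)) (1 / (2 * (σ + t * I)))
    linarith
  have h6 : |Real.log ‖(σ : ℂ) + t * I‖ - Real.log (|t|)| ≤ |A| := by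
    have ht0 : 0 < |t| := by linarith
    have h7 : |t| ≤ ‖(σ : ℂ) + t * I‖ := by
      have := Complex.abs_im_le_norm ((σ : ℂ) + t * I)
      rwa [him] at this
    have h8 : Real.log |t| ≤ Real.log ‖(σ : ℂ) + t * I‖ := Real.log_le_log ht0 h7
    rw [abs_of_nonneg (by linarith), ← Real.log_div (by linarith) ht0.ne']
    have h9 : 0 < ‖(σ : ℂ) + t * I‖ / |t| := by positivity
    refine (Real.log_le_sub_one_of_pos h9).trans ?_
    have h10 : ‖(σ : ℂ) + t * I‖ ≤ |σ| + |t| := by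
      refine (norm_add_le _ _).trans ?_
      rw [norm_mul, Complex.norm_I, mul_one, Complex.norm_real, Complex.norm_real,
        Real.norm_eq_abs, Real.norm_eq_abs]
    have h11 : ‖(σ : ℂ) + t * I‖ / |t| ≤ 1 + |σ| := by
      rw [div_le_iff₀ ht0]
      nlinarith [abs_nonneg σ]
    have h12 : |σ| ≤ |A| := hσ.trans (le_abs_self A)
    linarith
  rw [Complex.log_re] at h5
  have h7 : (digamma (σ + t * I)).re - Real.log |t| =
      ((digamma (σ + t * I)).re - Real.log ‖(σ : ℂ) + t * I‖) +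
        (Real.log ‖(σ : ℂ) + t * I‖ - Real.log |t|) := by ring
  rw [h7]
  refine (abs_add_le _ _).trans ?_
  linarith

private theorem GA4_log (A : ℝ) : ∃ C : ℝ, 0 < C ∧ ∀ σ t : ℝ, |σ| ≤ A → 1 ≤ |t| →
    |(Real.log (‖Gamma (σ + t * I)‖ ^ 2) - 2 * σ * Real.log |t|) -
      (Real.log (‖Gamma ((1 / 2 : ℝ) + t * I)‖ ^ 2) - 2 * (1 / 2) * Real.log |t|)| ≤ C := by
  obtain ⟨C, hC, h⟩ := GA4_re (max A (1 / 2))
  refine ⟨2 * C * (|A| + 1), by positivity, fun σ t hσ ht => ?_⟩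
  have ht0 : t ≠ 0 := by
    rintro rfl
    rw [abs_zero] at ht
    linarith
  have hd : ∀ x : ℝ, HasDerivAt (fun σ : ℝ => Real.log (‖Gamma (σ + t * I)‖ ^ 2) -
      2 * σ * Real.log |t|) (2 * (digamma (x + t * I)).re - 2 * Real.log |t|) x := by
    intro x
    have h1 : HasDerivAt (fun σ : ℝ => 2 * σ * Real.log |t|) (2 * 1 * Real.log |t|) x :=
      ((hasDerivAt_id x).const_mul 2).mul_const _
    rw [mul_one] at h1
    exact (GA4_deriv ht0).sub h1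
  have hconv : Convex ℝ (Icc (-(max A (1 / 2))) (max A (1 / 2))) := convex_Icc _ _
  have hm : (1 / 2 : ℝ) ≤ max A (1 / 2) := le_max_right _ _
  have h2 := hconv.norm_image_sub_le_of_norm_hasDerivWithin_le (C := 2 * C)
    (f := fun σ : ℝ => Real.log (‖Gamma (σ + t * I)‖ ^ 2) - 2 * σ * Real.log |t|)
    (f' := fun x => 2 * (digamma (x + t * I)).re - 2 * Real.log |t|)
    (fun x _ => (hd x).hasDerivWithinAt) (fun x hx => by
      have h3 := h x t (abs_le.2 hx) ht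
      rw [Real.norm_eq_abs, ← mul_sub, abs_mul, abs_two]
      linarith) (x := 1 / 2) (y := σ) ⟨by linarith, hm⟩
    (abs_le.1 (hσ.trans (le_max_left _ _)))
  rw [Real.norm_eq_abs, Real.norm_eq_abs] at h2
  refine h2.trans ?_
  have h4 : |σ - 1 / 2| ≤ |A| + 1 := by
    have h5 := abs_sub σ (1 / 2)
    have h6 : |(1 / 2 : ℝ)| = 1 / 2 := abs_of_pos (by norm_num)
    rw [h6] at h5
    have h12 : |σ| ≤ |A| := hσ.trans (le_abs_self A)
    linarith
  gcongr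

/-- **GA4.** Upper and lower bounds for `|Γ|` in vertical strips: exact value on `Re s = 1/2`
(`|Γ(1/2+it)|² = π/cosh πt`) and `∂_σ log|Γ| = Re ψ = log|t| + O(1/|t|)`. -/
theorem Gamma_bound (A : ℝ) : ∃ C : ℝ, 0 < C ∧ ∀ σ t : ℝ, |σ| ≤ A → 1 ≤ |t| →
    ‖Gamma (σ + t * I)‖ ≤ C * |t| ^ (σ - 1 / 2) * Real.exp (-(π * |t| / 2)) ∧
    |t| ^ (σ - 1 / 2) * Real.exp (-(π * |t| / 2)) ≤ C * ‖Gamma (σ + t * I)‖ := by
  obtain ⟨C, hC, h⟩ := GA4_log A
  refine ⟨3 * Real.exp C, by positivity, fun σ t hσ ht => ?_⟩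
  have ht0 : t ≠ 0 := by
    rintro rfl
    rw [abs_zero] at ht
    linarith
  have ht1 : 0 < |t| := by linarith
  have hG : 0 < ‖Gamma (σ + t * I)‖ :=
    norm_pos_iff.2 (Gamma_ne_zero (GA1_im_ne (by simpa using ht0)))
  have hH : 0 < ‖Gamma ((1 / 2 : ℝ) + t * I)‖ :=
    norm_pos_iff.2 (Gamma_ne_zero (GA1_im_ne (by simpa using ht0)))
  have h1 := h σ t hσ ht
  rw [Real.log_pow, Real.log_pow] at h1
  simp only [Nat.cast_ofNat] at h1
  have h2 := abs_le.1 h1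
  obtain ⟨h3, h4⟩ := GA4_halfb (t := t)
  have hl : Real.log (|t| ^ (σ - 1 / 2)) = (σ - 1 / 2) * Real.log |t| := Real.log_rpow ht1 _
  have hp : 0 < |t| ^ (σ - 1 / 2) := Real.rpow_pos_of_pos ht1 _
  have u1 : ‖Gamma (σ + t * I)‖ ≤
      Real.exp C * |t| ^ (σ - 1 / 2) * ‖Gamma ((1 / 2 : ℝ) + t * I)‖ := by
    rw [← Real.log_le_log_iff hG (by positivity), Real.log_mul (by positivity) hH.ne',
      Real.log_mul (Real.exp_ne_zero _) hp.ne', Real.log_exp, hl]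
    nlinarith [h2.2]
  have u2 : |t| ^ (σ - 1 / 2) * ‖Gamma ((1 / 2 : ℝ) + t * I)‖ ≤
      Real.exp C * ‖Gamma (σ + t * I)‖ := by
    rw [← Real.log_le_log_iff (by positivity) (by positivity), Real.log_mul hp.ne' hH.ne',
      Real.log_mul (Real.exp_ne_zero _) hG.ne', Real.log_exp, hl]
    nlinarith [h2.1]
  constructor
  · refine u1.trans ?_
    calc Real.exp C * |t| ^ (σ - 1 / 2) * ‖Gamma ((1 / 2 : ℝ) + t * I)‖
        ≤ Real.exp C * |t| ^ (σ - 1 / 2) * (3 * Real.exp (-(π * |t| / 2))) := by gcongr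
      _ = 3 * Real.exp C * |t| ^ (σ - 1 / 2) * Real.exp (-(π * |t| / 2)) := by ring
  · calc |t| ^ (σ - 1 / 2) * Real.exp (-(π * |t| / 2))
        ≤ |t| ^ (σ - 1 / 2) * ‖Gamma ((1 / 2 : ℝ) + t * I)‖ := by gcongr
      _ ≤ Real.exp C * ‖Gamma (σ + t * I)‖ := u2
      _ ≤ 3 * Real.exp C * ‖Gamma (σ + t * I)‖ := by
          have : 0 ≤ Real.exp C * ‖Gamma (σ + t * I)‖ := by positivity
          linarith
--END GA4

end Pool.Agent.PEt
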