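import Mathlib

/-! Shifting a line of integration. -/

set_option autoImplicit false

open Complex MeasureTheory Set Filter Topology
open scoped Real ComplexConjugate ContDiff

namespace Pool.Agent.PEt

--BEGIN SH1
private noncomputable def SH1_bd (f : ℂ → ℂ) (a b c d : ℝ) : ℂ :=
  (∫ x in a..b, f (x + c * I)) - (∫ x in a..b, f (x + d * I)) +
    I * (∫ y in c..d, f (b + y * I)) - I * ∫ y in c..d, f (a + y * I)

private theorem SH1_bd_zero {f : ℂ → ℂ} {a b c d : ℝ} (hab : a ≤ b) (hcd : c ≤ d)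
    (hf : DifferentiableOn ℂ f (Icc a b ×ℂ Icc c d)) : SH1_bd f a b c d = 0 := by
  have h := Complex.integral_boundary_rect_eq_zero_of_differentiableOn f ⟨a, c⟩ ⟨b, d⟩ (by
    show DifferentiableOn ℂ f (uIcc a b ×ℂ uIcc c d)
    rwa [uIcc_of_le hab, uIcc_of_le hcd])
  exact h

private theorem SH1_int {h : ℝ → ℂ} {C δ : ℝ} (hδ : 0 < δ) (hc : Continuous h)
    (hb : ∀ t : ℝ, 1 ≤ |t| → ‖h t‖ ≤ C * |t| ^ (-(1 + δ))) : Integrable h := by
  obtain ⟨M, hM⟩ := (isCompact_Icc (a := (-1 : ℝ)) (b := 1)).exists_bound_of_continuousOn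
    hc.continuousOn
  have hM0 : 0 ≤ M := (norm_nonneg _).trans (hM 0 ⟨by norm_num, by norm_num⟩)
  have hC0 : 0 ≤ C := by
    have := (norm_nonneg _).trans (hb 1 (by rw [abs_one]))
    simpa using this
  have hi : Integrable (fun t : ℝ => (1 + ‖t‖) ^ (-(1 + δ))) :=
    integrable_one_add_norm (by simp; linarith)
  refine (hi.const_mul ((M + C) * 2 ^ (1 + δ))).mono' hc.aestronglyMeasurable
    (Eventually.of_forall fun t => ?_)
  have h1 : (0 : ℝ) < 1 + ‖t‖ := by positivity
  have hr : (0 : ℝ) ≤ 1 + δ := by linarith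
  by_cases ht : 1 ≤ |t|
  · have h2 : |t| ^ (-(1 + δ)) ≤ 2 ^ (1 + δ) * (1 + ‖t‖) ^ (-(1 + δ)) := by
      rw [Real.norm_eq_abs] at h1 ⊢
      have h3 : (1 + |t|) ≤ 2 * |t| := by linarith
      have h4 : (1 + |t|) ^ (1 + δ) ≤ 2 ^ (1 + δ) * |t| ^ (1 + δ) := by
        rw [← Real.mul_rpow (by norm_num) (abs_nonneg t)]
        exact Real.rpow_le_rpow h1.le h3 hr
      rw [Real.rpow_neg (abs_nonneg t), Real.rpow_neg h1.le, ← div_eq_mul_inv,
        inv_eq_one_div, div_le_div_iff₀ (Real.rpow_pos_of_pos (by linarith) _)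
          (Real.rpow_pos_of_pos h1 _), one_mul]
      exact h4
    refine (hb t ht).trans ?_
    refine (mul_le_mul_of_nonneg_left h2 hC0).trans ?_
    have h5 : 0 ≤ 2 ^ (1 + δ) * (1 + ‖t‖) ^ (-(1 + δ)) := by positivity
    nlinarith
  · have ht' : |t| ≤ 1 := (not_le.1 ht).le
    have h2 : (1 : ℝ) ≤ 2 ^ (1 + δ) * (1 + ‖t‖) ^ (-(1 + δ)) := by
      rw [Real.norm_eq_abs] at h1 ⊢
      rw [Real.rpow_neg h1.le, ← div_eq_mul_inv, one_le_div (Real.rpow_pos_of_pos h1 _)]
      exact Real.rpow_le_rpow h1.le (by linarith) hr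
    refine (hM t (abs_le.1 ht')).trans ?_
    have h5 : 0 ≤ 2 ^ (1 + δ) * (1 + ‖t‖) ^ (-(1 + δ)) := by positivity
    nlinarith

private theorem SH1_hor {F : ℂ → ℂ} {σ1 σ2 C δ : ℝ} (hσ : σ1 ≤ σ2) (hδ : 0 < δ)
    (hb : ∀ s : ℂ, σ1 ≤ s.re → s.re ≤ σ2 → 1 ≤ |s.im| → ‖F s‖ ≤ C * |s.im| ^ (-(1 + δ)))
    (ε : ℝ) (hε : ε = 1 ∨ ε = -1) :
    Tendsto (fun N : ℝ => ∫ x in σ1..σ2, F (x + (ε * N : ℝ) * I)) atTop (𝓝 0) := by
  have h1 : Tendsto (fun N : ℝ => C * N ^ (-(1 + δ)) * |σ2 - σ1|) atTop (𝓝 0) := by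
    have h2 := (tendsto_rpow_neg_atTop (by linarith : 0 < 1 + δ)).const_mul C
    simpa using h2.mul_const |σ2 - σ1|
  refine squeeze_zero_norm' ?_ h1
  filter_upwards [eventually_ge_atTop 1] with N hN
  have ha : |ε * N| = N := by
    rw [abs_mul, abs_of_nonneg (by linarith : 0 ≤ N)]
    rcases hε with rfl | rfl <;> simp
  refine intervalIntegral.norm_integral_le_of_norm_le_const fun x hx => ?_
  rw [uIoc_of_le hσ] at hx
  have h3 : ((x : ℂ) + (ε * N : ℝ) * I).re = x := by simp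
  have h4 : ((x : ℂ) + (ε * N : ℝ) * I).im = ε * N := by simp
  have h5 := hb ((x : ℂ) + (ε * N : ℝ) * I) (by rw [h3]; exact hx.1.le) (by rw [h3]; exact hx.2)
    (by rw [h4, ha]; exact hN)
  rwa [h4, ha] at h5

private theorem SH1_lim {F : ℂ → ℂ} {σ1 σ2 C δ : ℝ} {R : ℂ} (hσ : σ1 ≤ σ2) (hδ : 0 < δ)
    (c1 : Continuous fun t : ℝ => F (σ1 + t * I)) (c2 : Continuous fun t : ℝ => F (σ2 + t * I))
    (hb : ∀ s : ℂ, σ1 ≤ s.re → s.re ≤ σ2 → 1 ≤ |s.im| → ‖F s‖ ≤ C * |s.im| ^ (-(1 + δ)))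
    (hR : ∀ N : ℝ, 1 ≤ N → SH1_bd F σ1 σ2 (-N) N = R) :
    Integrable (fun t : ℝ => F (σ1 + t * I)) ∧ Integrable (fun t : ℝ => F (σ2 + t * I)) ∧
    I * (∫ t : ℝ, F (σ2 + t * I)) - I * (∫ t : ℝ, F (σ1 + t * I)) = R := by
  have i1 : Integrable (fun t : ℝ => F (σ1 + t * I)) := SH1_int hδ c1 fun t ht => by
    have := hb (σ1 + t * I) (by simp) (by simpa using hσ) (by simpa using ht)
    simpa using this
  have i2 : Integrable (fun t : ℝ => F (σ2 + t * I)) := SH1_int hδ c2 fun t ht => by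
    have := hb (σ2 + t * I) (by simpa using hσ) (by simp) (by simpa using ht)
    simpa using this
  refine ⟨i1, i2, ?_⟩
  have t1 := intervalIntegral_tendsto_integral i1 tendsto_neg_atTop_atBot tendsto_id
  have t2 := intervalIntegral_tendsto_integral i2 tendsto_neg_atTop_atBot tendsto_id
  have t3 := SH1_hor hσ hδ hb 1 (Or.inl rfl)
  have t4 := SH1_hor hσ hδ hb (-1) (Or.inr rfl)
  have t5 := ((t4.sub t3).add (t2.const_mul I)).sub (t1.const_mul I)
  have t6 : Tendsto (fun N : ℝ => SH1_bd F σ1 σ2 (-N) N) atTop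
      (𝓝 (0 - 0 + I * (∫ t : ℝ, F (σ2 + t * I)) - I * (∫ t : ℝ, F (σ1 + t * I)))) := by
    refine t5.congr fun N => ?_
    simp only [SH1_bd, one_mul, neg_one_mul, id]
  have t7 : Tendsto (fun N : ℝ => SH1_bd F σ1 σ2 (-N) N) atTop (𝓝 R) := by
    refine tendsto_const_nhds.congr' ?_
    filter_upwards [eventually_ge_atTop 1] with N hN
    exact (hR N hN).symm
  have t8 := tendsto_nhds_unique t6 t7
  rw [sub_zero, zero_add] at t8
  exact t8

private theorem SH1_line {F : ℂ → ℂ} {σ : ℝ} (h : ∀ t : ℝ, DifferentiableAt ℂ F (σ + t * I)) :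
    Continuous fun t : ℝ => F (σ + t * I) := by
  rw [continuous_iff_continuousAt]
  intro t
  exact ContinuousAt.comp (f := fun t : ℝ => (σ + t * I : ℂ)) (h t).continuousAt
    (by fun_prop)

/-- **SH1.** No poles. Rectangles `[σ1,σ2] × [-N,N]`, `N → ∞`. -/
theorem shift_plain {F : ℂ → ℂ} {σ1 σ2 C δ : ℝ} (hσ : σ1 ≤ σ2) (hδ : 0 < δ)
    (hF : ∀ s : ℂ, σ1 ≤ s.re → s.re ≤ σ2 → DifferentiableAt ℂ F s)
    (hb : ∀ s : ℂ, σ1 ≤ s.re → s.re ≤ σ2 → 1 ≤ |s.im| → ‖F s‖ ≤ C * |s.im| ^ (-(1 + δ))) :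
    Integrable (fun t : ℝ => F (σ1 + t * I)) ∧ Integrable (fun t : ℝ => F (σ2 + t * I)) ∧
    ∫ t : ℝ, F (σ2 + t * I) = ∫ t : ℝ, F (σ1 + t * I) := by
  have h := SH1_lim (R := 0) hσ hδ (SH1_line fun t => hF _ (by simp) (by simpa using hσ))
    (SH1_line fun t => hF _ (by simpa using hσ) (by simp)) hb (fun N hN => by
      refine SH1_bd_zero hσ (by linarith) fun s hs => ?_
      exact (hF s hs.1.1 hs.1.2).differentiableWithinAt)
  refine ⟨h.1, h.2.1, ?_⟩
  have h1 := h.2.2
  rw [← mul_sub] at h1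
  exact sub_eq_zero.1 ((mul_eq_zero.1 h1).resolve_left I_ne_zero)
--END SH1

--BEGIN SH2
/-- the integral of `1/(s - z)` along a line, by a branch of the logarithm -/
private theorem SH2_seg {u v : ℂ} {p q : ℝ} {z : ℂ} (w : ℂ) (hw : w ≠ 0)
    (h : ∀ x ∈ uIcc p q, w * (u + x * v - z) ∈ slitPlane) :
    ∫ x in p..q, v * (1 / (u + (x : ℂ) * v - z)) =
      Complex.log (w * (u + q * v - z)) - Complex.log (w * (u + p * v - z)) := by
  have hd : ∀ x ∈ uIcc p q, HasDerivAt (fun x : ℝ => Complex.log (w * (u + (x : ℂ) * v - z)))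
      (v * (1 / (u + (x : ℂ) * v - z))) x := by
    intro x hx
    have h1 : HasDerivAt (fun x : ℝ => w * (u + (x : ℂ) * v - z)) (w * v) x := by
      have h2 : HasDerivAt (fun x : ℝ => (x : ℂ)) 1 x := Complex.ofRealCLM.hasDerivAt
      have h3 := (((h2.mul_const v).const_add u).sub_const z).const_mul w
      simpa using h3
    have h4 := h1.clog_real (h x hx)
    have h5 : u + (x : ℂ) * v - z ≠ 0 := by
      intro h6
      have := h x hx
      rw [h6, mul_zero] at this
      exact Complex.slitPlane_ne_zero this rfl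
    have h6 : v * (1 / (u + (x : ℂ) * v - z)) = w * v / (w * (u + (x : ℂ) * v - z)) := by
      field_simp
    rw [h6]
    exact h4
  refine intervalIntegral.integral_eq_sub_of_hasDerivAt hd ?_
  refine ContinuousOn.intervalIntegrable ?_
  refine continuousOn_const.mul (ContinuousOn.div continuousOn_const ?_ ?_)
  · fun_prop
  · intro x hx h6
    have := h x hx
    rw [h6, mul_zero] at this
    exact Complex.slitPlane_ne_zero this rfl

private theorem SH2_one {a b c d : ℝ} {z : ℂ} (h1 : a < z.re) (h2 : z.re < b)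
    (h3 : c < z.im) (h4 : z.im < d) : SH1_bd (fun s => 1 / (s - z)) a b c d = 2 * π * I := by
  have e1 : ∫ x in a..b, (1 : ℂ) / ((x : ℂ) + c * I - z) =
      Complex.log ((b : ℂ) + c * I - z) - Complex.log ((a : ℂ) + c * I - z) := by
    have h := SH2_seg (u := c * I) (v := 1) (p := a) (q := b) (z := z) 1 one_ne_zero (by
      intro x _
      rw [Complex.mem_slitPlane_iff]
      right
      simp
      linarith)
    simp only [one_mul, mul_one] at h
    rw [add_comm (b : ℂ), add_comm (a : ℂ), ← h]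
    refine intervalIntegral.integral_congr fun x _ => ?_
    simp only [add_comm]
  have e2 : ∫ x in a..b, (1 : ℂ) / ((x : ℂ) + d * I - z) =
      Complex.log ((b : ℂ) + d * I - z) - Complex.log ((a : ℂ) + d * I - z) := by
    have h := SH2_seg (u := d * I) (v := 1) (p := a) (q := b) (z := z) 1 one_ne_zero (by
      intro x _
      rw [Complex.mem_slitPlane_iff]
      right
      simp
      linarith)
    simp only [one_mul, mul_one] at h
    rw [add_comm (b : ℂ), add_comm (a : ℂ), ← h]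
    refine intervalIntegral.integral_congr fun x _ => ?_
    simp only [add_comm]
  have e3 : I * ∫ y in c..d, (1 : ℂ) / ((b : ℂ) + y * I - z) =
      Complex.log ((b : ℂ) + d * I - z) - Complex.log ((b : ℂ) + c * I - z) := by
    have h := SH2_seg (u := b) (v := I) (p := c) (q := d) (z := z) 1 one_ne_zero (by
      intro x _
      rw [Complex.mem_slitPlane_iff]
      left
      simp
      linarith)
    simp only [one_mul] at h
    rw [← h, ← intervalIntegral.integral_const_mul]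
  have e4 : I * ∫ y in c..d, (1 : ℂ) / ((a : ℂ) + y * I - z) =
      Complex.log (-((a : ℂ) + d * I - z)) - Complex.log (-((a : ℂ) + c * I - z)) := by
    have h := SH2_seg (u := a) (v := I) (p := c) (q := d) (z := z) (-1) (by norm_num) (by
      intro x _
      rw [Complex.mem_slitPlane_iff]
      left
      simp
      linarith)
    simp only [neg_mul, one_mul] at h
    rw [← h, ← intervalIntegral.integral_const_mul]
  have l1 : Complex.log (-((a : ℂ) + d * I - z)) = Complex.log ((a : ℂ) + d * I - z) - π * I := by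
    unfold Complex.log
    rw [norm_neg, Complex.arg_neg_eq_arg_sub_pi_of_im_pos (by simp; linarith)]
    push_cast
    ring
  have l2 : Complex.log (-((a : ℂ) + c * I - z)) = Complex.log ((a : ℂ) + c * I - z) + π * I := by
    unfold Complex.log
    rw [norm_neg, Complex.arg_neg_eq_arg_add_pi_of_im_neg (by simp; linarith)]
    push_cast
    ring
  unfold SH1_bd
  rw [e1, e2, e3, e4, l1, l2]
  ring

/-- the integral of `f(s)/(s - z)` along a line which does not contain `z` -/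
private theorem SH2_side {f : ℂ → ℂ} {S : Set ℂ} {z : ℂ} (hz : S ∈ 𝓝 z) (hf : DifferentiableOn ℂ f S)
    {p q : ℝ} {g : ℝ → ℂ} (hg : Continuous g) (hS : ∀ x ∈ uIcc p q, g x ∈ S ∧ g x ≠ z) :
    ∫ x in p..q, f (g x) / (g x - z) = (∫ x in p..q, dslope f z (g x)) +
      f z * ∫ x in p..q, 1 / (g x - z) := by
  have hd : DifferentiableOn ℂ (dslope f z) S := (Complex.differentiableOn_dslope hz).2 hf
  have i1 : IntervalIntegrable (fun x => dslope f z (g x)) volume p q :=
    (hd.continuousOn.comp hg.continuousOn fun x hx => (hS x hx).1).intervalIntegrable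
  have i2 : IntervalIntegrable (fun x => f z * (1 / (g x - z))) volume p q := by
    refine ContinuousOn.intervalIntegrable (continuousOn_const.mul
      (ContinuousOn.div continuousOn_const (hg.sub continuous_const).continuousOn ?_))
    intro x hx
    exact sub_ne_zero.2 (hS x hx).2
  rw [← intervalIntegral.integral_const_mul, ← intervalIntegral.integral_add i1 i2]
  refine intervalIntegral.integral_congr fun x hx => ?_
  have h1 := sub_ne_zero.2 (hS x hx).2
  rw [dslope_of_ne _ (hS x hx).2, slope_def_field]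
  field_simp
  ring


/-- Cauchy's formula for a rectangle. -/
private theorem SH2_pole {f : ℂ → ℂ} {a b c d : ℝ} {z : ℂ} (h1 : a < z.re) (h2 : z.re < b)
    (h3 : c < z.im) (h4 : z.im < d) (hf : DifferentiableOn ℂ f (Icc a b ×ℂ Icc c d)) :
    SH1_bd (fun s => f s / (s - z)) a b c d = 2 * π * I * f z := by
  have hz : (Icc a b ×ℂ Icc c d) ∈ 𝓝 z := by
    have h5 : (Ioo a b ×ℂ Ioo c d) ∈ 𝓝 z := by
      refine IsOpen.mem_nhds ?_ ⟨⟨h1, h2⟩, ⟨h3, h4⟩⟩
      exact isOpen_Ioo.reProdIm isOpen_Ioo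
    refine Filter.mem_of_superset h5 ?_
    rintro s ⟨hs1, hs2⟩
    exact ⟨Ioo_subset_Icc_self hs1, Ioo_subset_Icc_self hs2⟩
  have hab : a ≤ b := (h1.trans h2).le
  have hcd : c ≤ d := (h3.trans h4).le
  have hd : DifferentiableOn ℂ (dslope f z) (Icc a b ×ℂ Icc c d) :=
    (Complex.differentiableOn_dslope hz).2 hf
  have key : SH1_bd (fun s => f s / (s - z)) a b c d = SH1_bd (dslope f z) a b c d +
      f z * SH1_bd (fun s => 1 / (s - z)) a b c d := by
    have hx : ∀ y₀, y₀ ∈ Icc c d → y₀ ≠ z.im → ∀ x ∈ uIcc a b,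
        ((x : ℂ) + y₀ * I) ∈ Icc a b ×ℂ Icc c d ∧ ((x : ℂ) + y₀ * I) ≠ z := by
      intro y₀ hy₀ hne x hx
      rw [uIcc_of_le hab] at hx
      refine ⟨?_, ?_⟩
      · rw [Complex.mem_reProdIm]
        simpa using ⟨hx, hy₀⟩
      · intro h
        apply hne
        rw [← h]
        simp
    have hy : ∀ x₀, x₀ ∈ Icc a b → x₀ ≠ z.re → ∀ y ∈ uIcc c d,
        ((x₀ : ℂ) + y * I) ∈ Icc a b ×ℂ Icc c d ∧ ((x₀ : ℂ) + y * I) ≠ z := by
      intro x₀ hx₀ hne y hy
      rw [uIcc_of_le hcd] at hy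
      refine ⟨?_, ?_⟩
      · rw [Complex.mem_reProdIm]
        simpa using ⟨hx₀, hy⟩
      · intro h
        apply hne
        rw [← h]
        simp
    unfold SH1_bd
    rw [SH2_side hz hf (g := fun x : ℝ => (x : ℂ) + c * I) (by fun_prop)
        (hx c (left_mem_Icc.2 hcd) h3.ne),
      SH2_side hz hf (g := fun x : ℝ => (x : ℂ) + d * I) (by fun_prop)
        (hx d (right_mem_Icc.2 hcd) h4.ne'),
      SH2_side hz hf (g := fun y : ℝ => (b : ℂ) + y * I) (by fun_prop)
        (hy b (right_mem_Icc.2 hab) h2.ne'),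
      SH2_side hz hf (g := fun y : ℝ => (a : ℂ) + y * I) (by fun_prop)
        (hy a (left_mem_Icc.2 hab) h1.ne)]
    ring
  rw [key, SH1_bd_zero hab hcd hd, SH2_one h1 h2 h3 h4]
  ring


private theorem SH2_ne {N : ℝ} (hN : 1 ≤ N) (ε : ℝ) (hε : ε = 1 ∨ ε = -1) (x : ℝ) (z : ℂ)
    (hz : z.im = 0) : (x : ℂ) + (ε * N : ℝ) * I ≠ z := by
  intro h
  have h1 := congrArg Complex.im h
  rw [hz] at h1
  simp at h1
  rcases hε with rfl | rfl
  · rcases h1 with h1 | h1 <;> linarith
  · rcases h1 with h1 | h1 <;> linarith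

private theorem SH2_ne' {σ : ℝ} {z : ℂ} (hz : z.re ≠ σ) (y : ℝ) : (σ : ℂ) + y * I ≠ z := by
  intro h
  apply hz
  rw [← h]
  simp

/-- the boundary integral of a derivative -/
private theorem SH2_deriv {g f : ℂ → ℂ} {a b c d : ℝ}
    (h1 : ∀ x : ℝ, HasDerivAt g (f (x + c * I)) (x + c * I))
    (h2 : ∀ x : ℝ, HasDerivAt g (f (x + d * I)) (x + d * I))
    (h3 : ∀ y : ℝ, HasDerivAt g (f (b + y * I)) (b + y * I))
    (h4 : ∀ y : ℝ, HasDerivAt g (f (a + y * I)) (a + y * I))
    (c1 : Continuous fun x : ℝ => f (x + c * I)) (c2 : Continuous fun x : ℝ => f (x + d * I))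
    (c3 : Continuous fun y : ℝ => f (b + y * I)) (c4 : Continuous fun y : ℝ => f (a + y * I)) :
    SH1_bd f a b c d = 0 := by
  have e1 : ∀ {e : ℝ}, (∀ x : ℝ, HasDerivAt g (f (x + e * I)) (x + e * I)) →
      Continuous (fun x : ℝ => f (x + e * I)) →
      ∫ x in a..b, f (x + e * I) = g (b + e * I) - g (a + e * I) := by
    intro e he ce
    refine intervalIntegral.integral_eq_sub_of_hasDerivAt (f := fun x : ℝ => g (x + e * I))
      (fun x _ => ?_) (ce.intervalIntegrable _ _)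
    have h5 : HasDerivAt (fun x : ℝ => (x : ℂ) + e * I) 1 x :=
      (Complex.ofRealCLM.hasDerivAt (x := x)).add_const _
    have h6 := (he x).comp x h5
    rwa [mul_one] at h6
  have e2 : ∀ {e : ℝ}, (∀ y : ℝ, HasDerivAt g (f (e + y * I)) (e + y * I)) →
      Continuous (fun y : ℝ => f (e + y * I)) →
      I * ∫ y in c..d, f (e + y * I) = g (e + d * I) - g (e + c * I) := by
    intro e he ce
    rw [← intervalIntegral.integral_const_mul]
    refine intervalIntegral.integral_eq_sub_of_hasDerivAt (f := fun y : ℝ => g (e + y * I))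
      (fun y _ => ?_) ((continuous_const.mul ce).intervalIntegrable _ _)
    have h5 : HasDerivAt (fun y : ℝ => (e : ℂ) + y * I) I y := by
      have h7 := ((Complex.ofRealCLM.hasDerivAt (x := y)).mul_const I).const_add (e : ℂ)
      simpa using h7
    have h6 := (he y).comp y h5
    rwa [mul_comm] at h6
  unfold SH1_bd
  rw [e1 h1 c1, e1 h2 c2, e2 h3 c3, e2 h4 c4]
  ring

private theorem SH2_pow {a b c d : ℝ} (h1 : a < 1) (h2 : 1 < b) (h3 : c < 0) (h4 : 0 < d)
    (m : ℕ) : SH1_bd (fun s => 1 / (s - 1) ^ (m + 2)) a b c d = 0 := by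
  have hx : ∀ e : ℝ, e ≠ 0 → ∀ x : ℝ, (x : ℂ) + e * I - 1 ≠ 0 := by
    intro e he x h
    have := congrArg Complex.im h
    simp at this
    exact he this
  have hy : ∀ e : ℝ, e ≠ 1 → ∀ y : ℝ, (e : ℂ) + y * I - 1 ≠ 0 := by
    intro e he y h
    have := congrArg Complex.re h
    simp at this
    exact he (by linarith)
  have hd : ∀ s : ℂ, s - 1 ≠ 0 → HasDerivAt (fun s : ℂ => -(1 / ((m + 1 : ℂ) * (s - 1) ^ (m + 1))))
      (1 / (s - 1) ^ (m + 2)) s := by
    intro s hs
    have hm : (m + 1 : ℂ) ≠ 0 := by exact_mod_cast Nat.succ_ne_zero m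
    have h5 : HasDerivAt (fun s : ℂ => (m + 1 : ℂ) * (s - 1) ^ (m + 1))
        ((m + 1 : ℂ) * ((m + 1 : ℕ) * (s - 1) ^ m * 1)) s :=
      (((hasDerivAt_id s).sub_const 1).pow (m + 1)).const_mul _
    have h6 := (h5.inv (mul_ne_zero hm (pow_ne_zero _ hs))).neg
    refine (h6.congr_deriv ?_).congr_of_eventuallyEq (Eventually.of_forall fun z => ?_)
    · push_cast
      field_simp
      ring
    · simp [one_div]
  refine SH2_deriv (g := fun s : ℂ => -(1 / ((m + 1 : ℂ) * (s - 1) ^ (m + 1))))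
    (fun x => hd _ (hx c h3.ne x)) (fun x => hd _ (hx d h4.ne' x))
    (fun y => hd _ (hy b h2.ne' y)) (fun y => hd _ (hy a h1.ne y)) ?_ ?_ ?_ ?_
  · exact continuous_const.div (by fun_prop) fun x => pow_ne_zero _ (hx c h3.ne x)
  · exact continuous_const.div (by fun_prop) fun x => pow_ne_zero _ (hx d h4.ne' x)
  · exact continuous_const.div (by fun_prop) fun x => pow_ne_zero _ (hy b h2.ne' x)
  · exact continuous_const.div (by fun_prop) fun x => pow_ne_zero _ (hy a h1.ne x)

/-- additivity of the boundary integral -/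
private theorem SH2_add {f g : ℂ → ℂ} {a b c d : ℝ}
    (f1 : ContinuousOn (fun x : ℝ => f (x + c * I)) (uIcc a b))
    (f2 : ContinuousOn (fun x : ℝ => f (x + d * I)) (uIcc a b))
    (f3 : ContinuousOn (fun y : ℝ => f (b + y * I)) (uIcc c d))
    (f4 : ContinuousOn (fun y : ℝ => f (a + y * I)) (uIcc c d))
    (g1 : ContinuousOn (fun x : ℝ => g (x + c * I)) (uIcc a b))
    (g2 : ContinuousOn (fun x : ℝ => g (x + d * I)) (uIcc a b))
    (g3 : ContinuousOn (fun y : ℝ => g (b + y * I)) (uIcc c d))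
    (g4 : ContinuousOn (fun y : ℝ => g (a + y * I)) (uIcc c d)) :
    SH1_bd (fun s => f s + g s) a b c d = SH1_bd f a b c d + SH1_bd g a b c d := by
  unfold SH1_bd
  rw [intervalIntegral.integral_add f1.intervalIntegrable g1.intervalIntegrable,
    intervalIntegral.integral_add f2.intervalIntegrable g2.intervalIntegrable,
    intervalIntegral.integral_add f3.intervalIntegrable g3.intervalIntegrable,
    intervalIntegral.integral_add f4.intervalIntegrable g4.intervalIntegrable]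
  ring

private theorem SH2_smul {f : ℂ → ℂ} {a b c d : ℝ} (k : ℂ) :
    SH1_bd (fun s => k * f s) a b c d = k * SH1_bd f a b c d := by
  unfold SH1_bd
  rw [intervalIntegral.integral_const_mul, intervalIntegral.integral_const_mul,
    intervalIntegral.integral_const_mul, intervalIntegral.integral_const_mul]
  ring

private theorem SH2_congr {f g : ℂ → ℂ} {a b c d : ℝ} (hc : c ≠ 0) (hd : d ≠ 0)
    (ha : a ≠ 0 ∧ a ≠ 1) (hb : b ≠ 0 ∧ b ≠ 1) (h : ∀ s : ℂ, s ≠ 0 → s ≠ 1 → f s = g s) :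
    SH1_bd f a b c d = SH1_bd g a b c d := by
  have hx : ∀ e : ℝ, e ≠ 0 → ∀ x : ℝ, f ((x : ℂ) + e * I) = g ((x : ℂ) + e * I) := by
    intro e he x
    refine h _ (fun h => ?_) (fun h => ?_)
    · have := congrArg Complex.im h
      simp at this
      exact he this
    · have := congrArg Complex.im h
      simp at this
      exact he this
  have hy : ∀ e : ℝ, e ≠ 0 → e ≠ 1 → ∀ y : ℝ, f ((e : ℂ) + y * I) = g ((e : ℂ) + y * I) := by
    intro e he he1 y
    refine h _ (fun h => ?_) (fun h => ?_)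
    · have := congrArg Complex.re h
      simp at this
      exact he this
    · have := congrArg Complex.re h
      simp at this
      exact he1 this
  unfold SH1_bd
  simp only [hx c hc, hx d hd, hy a ha.1 ha.2, hy b hb.1 hb.2]

private def SH2_P (f : ℂ → ℂ) (a b c d : ℝ) : Prop :=
  ∀ s : ℂ, a ≤ s.re → s.re ≤ b → c ≤ s.im → s.im ≤ d → s ≠ 0 → s ≠ 1 → DifferentiableAt ℂ f s

private theorem SH2_h {f : ℂ → ℂ} {a b c d : ℝ} (h1 : a < 0) (h2 : 3 / 2 < b) (hf : SH2_P f a b c d)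
    {e : ℝ} (he : e ≠ 0) (he1 : c ≤ e) (he2 : e ≤ d) :
    ContinuousOn (fun x : ℝ => f (x + e * I)) (uIcc a b) := by
  intro x hx
  rw [uIcc_of_le (by linarith)] at hx
  refine ContinuousAt.continuousWithinAt ?_
  refine ContinuousAt.comp (f := fun x : ℝ => (x + e * I : ℂ))
    (hf _ (by simpa using hx.1) (by simpa using hx.2) (by simpa using he1) (by simpa using he2)
      (fun h => ?_) (fun h => ?_)).continuousAt (by fun_prop)
  · have := congrArg Complex.im h
    simp at this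
    exact he this
  · have := congrArg Complex.im h
    simp at this
    exact he this

private theorem SH2_v {f : ℂ → ℂ} {a b c d : ℝ} (hcd : c ≤ d) (hf : SH2_P f a b c d)
    {e : ℝ} (he : e ≠ 0) (he' : e ≠ 1) (he1 : a ≤ e) (he2 : e ≤ b) :
    ContinuousOn (fun y : ℝ => f (e + y * I)) (uIcc c d) := by
  intro x hx
  rw [uIcc_of_le hcd] at hx
  refine ContinuousAt.continuousWithinAt ?_
  refine ContinuousAt.comp (f := fun y : ℝ => (e + y * I : ℂ))
    (hf _ (by simpa using he1) (by simpa using he2) (by simpa using hx.1) (by simpa using hx.2)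
      (fun h => ?_) (fun h => ?_)).continuousAt (by fun_prop)
  · have := congrArg Complex.re h
    simp at this
    exact he this
  · have := congrArg Complex.re h
    simp at this
    exact he' this

private theorem SH2_add' {f g : ℂ → ℂ} {a b c d : ℝ} (h1 : a < 0) (h2 : 3 / 2 < b) (h3 : c < 0)
    (h4 : 0 < d) (hf : SH2_P f a b c d) (hg : SH2_P g a b c d) :
    SH1_bd (fun s => f s + g s) a b c d = SH1_bd f a b c d + SH1_bd g a b c d :=
  SH2_add (SH2_h h1 h2 hf h3.ne le_rfl (by linarith)) (SH2_h h1 h2 hf h4.ne' (by linarith) le_rfl)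
    (SH2_v (by linarith) hf (by linarith) (by linarith) (by linarith) le_rfl)
    (SH2_v (by linarith) hf h1.ne (by linarith) le_rfl (by linarith))
    (SH2_h h1 h2 hg h3.ne le_rfl (by linarith)) (SH2_h h1 h2 hg h4.ne' (by linarith) le_rfl)
    (SH2_v (by linarith) hg (by linarith) (by linarith) (by linarith) le_rfl)
    (SH2_v (by linarith) hg h1.ne (by linarith) le_rfl (by linarith))

private theorem SH2_ball {s : ℂ} (hs : s ∈ Metric.closedBall (1 : ℂ) (1 / 2)) :
    0 ≤ s.re ∧ s.re ≤ 3 / 2 ∧ -1 ≤ s.im ∧ s.im ≤ 1 ∧ s ≠ 0 := by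
  rw [Metric.mem_closedBall, dist_eq_norm] at hs
  have h1 := (Complex.abs_re_le_norm (s - 1)).trans hs
  have h2 := (Complex.abs_im_le_norm (s - 1)).trans hs
  rw [Complex.sub_re, Complex.one_re, abs_le] at h1
  rw [Complex.sub_im, Complex.one_im, abs_le] at h2
  refine ⟨by linarith, by linarith, by linarith, by linarith, ?_⟩
  rintro rfl
  norm_num at hs

private theorem SH2_circ {f : ℂ → ℂ} {a b c d : ℝ} (h1 : a < 0) (h2 : 3 / 2 < b) (h3 : c ≤ -1)
    (h4 : 1 ≤ d) (hf : SH2_P f a b c d) : CircleIntegrable f 1 (1 / 2) := by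
  refine ContinuousOn.circleIntegrable (by norm_num) fun s hs => ?_
  have h5 := SH2_ball (Metric.sphere_subset_closedBall hs)
  refine (hf s (by linarith) (by linarith) (by linarith) (by linarith) h5.2.2.2.2
    ?_).continuousAt.continuousWithinAt
  rintro rfl
  rw [Metric.mem_sphere, dist_self] at hs
  norm_num at hs

private theorem SH2_dslope {f : ℂ → ℂ} {a b c d : ℝ} (h1 : a < 0) (h2 : 3 / 2 < b) (h3 : c ≤ -1)
    (h4 : 1 ≤ d)
    (hf : ∀ s : ℂ, a ≤ s.re → s.re ≤ b → c ≤ s.im → s.im ≤ d → DifferentiableAt ℂ f s) (s : ℂ)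
    (ha : a ≤ s.re) (hb : s.re ≤ b) (hc : c ≤ s.im) (hd : s.im ≤ d) :
    DifferentiableAt ℂ (dslope f 1) s := by
  by_cases hs : s = 1
  · have hU : (Ioo a b ×ℂ Ioo c d) ∈ 𝓝 (1 : ℂ) := by
      refine IsOpen.mem_nhds (isOpen_Ioo.reProdIm isOpen_Ioo) ⟨⟨?_, ?_⟩, ⟨?_, ?_⟩⟩
      · show a < (1 : ℂ).re
        simp; linarith
      · show (1 : ℂ).re < b
        simp; linarith
      · show c < (1 : ℂ).im
        simp; linarith
      · show (1 : ℂ).im < d
        simp; linarith
    have h5 : DifferentiableOn ℂ f (Ioo a b ×ℂ Ioo c d) := fun z hz =>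
      (hf z hz.1.1.le hz.1.2.le hz.2.1.le hz.2.2.le).differentiableWithinAt
    rw [hs]
    exact ((Complex.differentiableOn_dslope hU).2 h5).differentiableAt hU
  · exact (differentiableAt_dslope_of_ne hs).2 (hf s ha hb hc hd)

private theorem SH2_mpole {a b c d : ℝ} (h1 : a < 0) (h2 : 3 / 2 < b) (h3 : c ≤ -1)
    (h4 : 1 ≤ d) (m : ℕ) : ∀ f : ℂ → ℂ,
    (∀ s : ℂ, a ≤ s.re → s.re ≤ b → c ≤ s.im → s.im ≤ d → DifferentiableAt ℂ f s) →
    SH1_bd (fun s => f s / (s - 1) ^ (m + 1)) a b c d =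
      ∮ s in C(1, 1 / 2), f s / (s - 1) ^ (m + 1) := by
  induction m with
  | zero =>
    intro f hf
    simp only [zero_add, pow_one]
    rw [SH2_pole (z := 1) (by simp; linarith) (by simp; linarith) (by simp; linarith)
      (by simp; linarith) fun s hs => (hf s hs.1.1 hs.1.2 hs.2.1 hs.2.2).differentiableWithinAt]
    have h5 := circleIntegral_sub_inv_smul_of_differentiable_on_off_countable
      (R := 1 / 2) (c := 1) (w := 1) (f := f) countable_empty (by simp) (fun s hs => by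
        have h6 := SH2_ball hs
        exact (hf s (by linarith) (by linarith) (by linarith)
          (by linarith)).continuousAt.continuousWithinAt) (fun s hs => by
        have h6 := SH2_ball (Metric.ball_subset_closedBall hs.1)
        exact hf s (by linarith) (by linarith) (by linarith) (by linarith))
    rw [smul_eq_mul] at h5
    rw [← h5]
    refine circleIntegral.integral_congr (by norm_num) fun s _ => ?_
    simp only [smul_eq_mul]
    rw [div_eq_mul_inv, mul_comm]
  | succ m ih =>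
    intro f hf
    have hds := SH2_dslope h1 h2 h3 h4 hf
    have hdec : ∀ s : ℂ, s ≠ 1 → f s / (s - 1) ^ (m + 1 + 1) =
        f 1 * (1 / (s - 1) ^ (m + 2)) + dslope f 1 s / (s - 1) ^ (m + 1) := by
      intro s hs
      have hs' : s - 1 ≠ 0 := sub_ne_zero.2 hs
      rw [dslope_of_ne _ hs, slope_def_field]
      field_simp
      ring
    have p1 : SH2_P (fun s => f 1 * (1 / (s - 1) ^ (m + 2))) a b c d := by
      intro s _ _ _ _ _ hs
      have hs' : s - 1 ≠ 0 := sub_ne_zero.2 hs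
      exact (differentiableAt_const _).mul ((differentiableAt_const _).div
        (by fun_prop) (pow_ne_zero _ hs'))
    have p2 : SH2_P (fun s => dslope f 1 s / (s - 1) ^ (m + 1)) a b c d := by
      intro s ha hb hc hd _ hs
      have hs' : s - 1 ≠ 0 := sub_ne_zero.2 hs
      exact (hds s ha hb hc hd).div (by fun_prop) (pow_ne_zero _ hs')
    rw [SH2_congr (by linarith) (by linarith) ⟨by linarith, by linarith⟩
      ⟨by linarith, by linarith⟩ (fun s _ hs => hdec s hs),
      SH2_add' h1 h2 (by linarith) (by linarith) p1 p2, SH2_smul,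
      SH2_pow (by linarith) (by linarith) (by linarith) (by linarith), mul_zero, zero_add,
      ih _ hds]
    have c1 := SH2_circ h1 h2 h3 h4 p1
    have c2 := SH2_circ h1 h2 h3 h4 p2
    have e1 : (∮ s in C(1, 1 / 2), f s / (s - 1) ^ (m + 1 + 1)) =
        ∮ s in C(1, 1 / 2), (f 1 * (1 / (s - 1) ^ (m + 2)) + dslope f 1 s / (s - 1) ^ (m + 1)) := by
      refine circleIntegral.integral_congr (by norm_num) fun s hs => hdec s ?_
      rintro rfl
      rw [Metric.mem_sphere, dist_self] at hs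
      norm_num at hs
    rw [e1, circleIntegral.integral_add c1 c2]
    have e2 : (∮ s in C(1, 1 / 2), f 1 * (1 / (s - 1) ^ (m + 2))) = 0 := by
      rw [circleIntegral.integral_const_mul]
      have e3 := circleIntegral.integral_sub_zpow_of_ne (n := -((m + 2 : ℕ) : ℤ))
        (by omega) 1 1 (1 / 2)
      have e4 : (∮ s in C(1, 1 / 2), 1 / (s - 1 : ℂ) ^ (m + 2)) = 0 := by
        rw [← e3]
        refine circleIntegral.integral_congr (by norm_num) fun s _ => ?_
        simp only [zpow_neg, zpow_natCast, one_div]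
      rw [e4, mul_zero]
    rw [e2, zero_add]

private theorem SH2_mpole' {a b c d : ℝ} (h1 : a < 0) (h2 : 3 / 2 < b) (h3 : c ≤ -1)
    (h4 : 1 ≤ d) (m : ℕ) (f : ℂ → ℂ)
    (hf : ∀ s : ℂ, a ≤ s.re → s.re ≤ b → c ≤ s.im → s.im ≤ d → DifferentiableAt ℂ f s) :
    SH1_bd (fun s => f s / (s - 1) ^ m) a b c d = ∮ s in C(1, 1 / 2), f s / (s - 1) ^ m := by
  rcases m with _ | m
  · simp only [pow_zero, div_one]
    rw [SH1_bd_zero (by linarith) (by linarith) fun s hs =>
      (hf s hs.1.1 hs.1.2 hs.2.1 hs.2.2).differentiableWithinAt]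
    refine (Complex.circleIntegral_eq_zero_of_differentiable_on_off_countable (by norm_num)
      countable_empty (fun s hs => ?_) (fun s hs => ?_)).symm
    · have h6 := SH2_ball hs
      exact (hf s (by linarith) (by linarith) (by linarith)
        (by linarith)).continuousAt.continuousWithinAt
    · have h6 := SH2_ball (Metric.ball_subset_closedBall hs.1)
      exact hf s (by linarith) (by linarith) (by linarith) (by linarith)
  · exact SH2_mpole h1 h2 h3 h4 m f hf

private theorem SH2_res {a b c d : ℝ} (h1 : a < 0) (h2 : 3 / 2 < b) (h3 : c ≤ -1)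
    (h4 : 1 ≤ d) (m : ℕ) (F G : ℂ → ℂ)
    (hG : ∀ s : ℂ, a ≤ s.re → s.re ≤ b → c ≤ s.im → s.im ≤ d → DifferentiableAt ℂ G s)
    (hF : ∀ s : ℂ, s ≠ 0 → s ≠ 1 → F s = G s / (s * (s - 1) ^ m)) :
    SH1_bd F a b c d = (∮ s in C(1, 1 / 2), F s) + 2 * π * I * (G 0 / (-1) ^ m) := by
  have hgeo : ∀ s : ℂ, s * ∑ j ∈ Finset.range m, (1 - s) ^ j = 1 - (1 - s) ^ m := by
    intro s
    have h5 := mul_neg_geom_sum (1 - s) m
    rw [sub_sub_cancel] at h5
    exact h5
  have hsg : ∀ s : ℂ, (1 - s) ^ m = (-1) ^ m * (s - 1) ^ m := by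
    intro s
    rw [← mul_pow]
    congr 1
    ring
  have hs2 : ((-1 : ℂ) ^ m) * (-1) ^ m = 1 := by
    rw [← mul_pow]
    norm_num
  have hdec : ∀ s : ℂ, s ≠ 0 → s ≠ 1 → F s = (-1) ^ m * (G s / (s - 0)) +
      (G s * ∑ j ∈ Finset.range m, (1 - s) ^ j) / (s - 1) ^ m := by
    intro s hs hs1
    have hs' : (s - 1) ^ m ≠ 0 := pow_ne_zero _ (sub_ne_zero.2 hs1)
    rw [hF s hs hs1]
    have h5 : (∑ j ∈ Finset.range m, (1 - s) ^ j) = (1 - (1 - s) ^ m) / s := by
      rw [← hgeo, mul_div_cancel_left₀ _ hs]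
    rw [h5, hsg, sub_zero]
    field_simp
    ring
  have hH : ∀ s : ℂ, a ≤ s.re → s.re ≤ b → c ≤ s.im → s.im ≤ d →
      DifferentiableAt ℂ (fun s => G s * ∑ j ∈ Finset.range m, (1 - s) ^ j) s := by
    intro s ha hb hc hd
    exact (hG s ha hb hc hd).mul (by fun_prop)
  have p1 : SH2_P (fun s => (-1) ^ m * (G s / (s - 0))) a b c d := by
    intro s ha hb hc hd hs _
    exact (differentiableAt_const _).mul ((hG s ha hb hc hd).div (by fun_prop)
      (by rwa [sub_zero]))
  have p2 : SH2_P (fun s => (G s * ∑ j ∈ Finset.range m, (1 - s) ^ j) / (s - 1) ^ m) a b c d := by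
    intro s ha hb hc hd _ hs
    exact (hH s ha hb hc hd).div (by fun_prop) (pow_ne_zero _ (sub_ne_zero.2 hs))
  have e1 : (∮ s in C(1, 1 / 2), F s) = ∮ s in C(1, 1 / 2), ((-1) ^ m * (G s / (s - 0)) +
      (G s * ∑ j ∈ Finset.range m, (1 - s) ^ j) / (s - 1) ^ m) := by
    refine circleIntegral.integral_congr (by norm_num) fun s hs => hdec s
      (SH2_ball (Metric.sphere_subset_closedBall hs)).2.2.2.2 ?_
    rintro rfl
    rw [Metric.mem_sphere, dist_self] at hs
    norm_num at hs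
  have e2 : (∮ s in C(1, 1 / 2), (-1 : ℂ) ^ m * (G s / (s - 0))) = 0 := by
    rw [circleIntegral.integral_const_mul]
    have e3 : (∮ s in C(1, 1 / 2), G s / (s - 0)) = 0 := by
      refine Complex.circleIntegral_eq_zero_of_differentiable_on_off_countable (by norm_num)
        countable_empty (fun s hs => ?_) (fun s hs => ?_)
      · have h6 := SH2_ball hs
        exact ((hG s (by linarith) (by linarith) (by linarith) (by linarith)).div (by fun_prop)
          (by rw [sub_zero]; exact h6.2.2.2.2)).continuousAt.continuousWithinAt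
      · have h6 := SH2_ball (Metric.ball_subset_closedBall hs.1)
        exact (hG s (by linarith) (by linarith) (by linarith) (by linarith)).div (by fun_prop)
          (by rw [sub_zero]; exact h6.2.2.2.2)
    rw [e3, mul_zero]
  rw [SH2_congr (by linarith) (by linarith) ⟨by linarith, by linarith⟩
      ⟨by linarith, by linarith⟩ hdec,
    SH2_add' h1 h2 (by linarith) (by linarith) p1 p2, SH2_smul,
    SH2_pole (z := 0) (by simpa using h1) (by simp; linarith) (by simp; linarith)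
      (by simp; linarith) (fun s hs => (hG s hs.1.1 hs.1.2 hs.2.1 hs.2.2).differentiableWithinAt),
    SH2_mpole' h1 h2 h3 h4 m _ hH, e1,
    circleIntegral.integral_add (SH2_circ h1 h2 h3 h4 p1) (SH2_circ h1 h2 h3 h4 p2), e2, zero_add]
  have h7 : G 0 / (-1 : ℂ) ^ m = (-1) ^ m * G 0 := by
    rw [div_eq_iff (pow_ne_zero _ (by norm_num))]
    linear_combination (-G 0) * hs2
  rw [h7]
  ring

/-- **SH2.** A simple pole at `0` and a pole of order `≤ m` at `1`. Compare
`Pool/Agent/MP_67227b_nt/Ah/AhRect.lean` (`bd_zero`, `bd_pole`): subtract the principal parts. -/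
theorem shift_poles {F G : ℂ → ℂ} {σ1 σ2 C δ : ℝ} (m : ℕ) (h1 : σ1 < 0) (h2 : 3 / 2 < σ2)
    (hδ : 0 < δ) (hG : ∀ s : ℂ, σ1 ≤ s.re → s.re ≤ σ2 → DifferentiableAt ℂ G s)
    (hF : ∀ s : ℂ, s ≠ 0 → s ≠ 1 → F s = G s / (s * (s - 1) ^ m))
    (hb : ∀ s : ℂ, σ1 ≤ s.re → s.re ≤ σ2 → 1 ≤ |s.im| → ‖F s‖ ≤ C * |s.im| ^ (-(1 + δ))) :
    Integrable (fun t : ℝ => F (σ1 + t * I)) ∧ Integrable (fun t : ℝ => F (σ2 + t * I)) ∧
    (1 / (2 * π) : ℂ) * ∫ t : ℝ, F (σ2 + t * I) =
      (2 * π * I)⁻¹ * (∮ s in C(1, 1 / 2), F s) + G 0 / (-1) ^ m +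
        (1 / (2 * π) : ℂ) * ∫ t : ℝ, F (σ1 + t * I) := by
  have hl : ∀ σ : ℝ, σ1 ≤ σ → σ ≤ σ2 → σ ≠ 0 → σ ≠ 1 →
      Continuous fun t : ℝ => F (σ + t * I) := by
    intro σ ha hb h0 h1'
    have hne : ∀ t : ℝ, (σ : ℂ) + t * I ≠ 0 ∧ (σ : ℂ) + t * I ≠ 1 := fun t =>
      ⟨SH2_ne' (by simpa using h0.symm) t, SH2_ne' (by simpa using h1'.symm) t⟩
    have e : (fun t : ℝ => F (σ + t * I)) =
        fun t : ℝ => G (σ + t * I) / ((σ + t * I) * ((σ + t * I) - 1) ^ m) := by
      funext t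
      exact hF _ (hne t).1 (hne t).2
    rw [e]
    refine (SH1_line fun t => hG _ (by simpa using ha) (by simpa using hb)).div (by fun_prop)
      fun t => mul_ne_zero (hne t).1 (pow_ne_zero _ (sub_ne_zero.2 (hne t).2))
  have h := SH1_lim (R := (∮ s in C(1, 1 / 2), F s) + 2 * π * I * (G 0 / (-1) ^ m))
    (by linarith) hδ (hl σ1 le_rfl (by linarith) h1.ne (by linarith))
    (hl σ2 (by linarith) le_rfl (by linarith) (by linarith)) hb (fun N hN =>
      SH2_res h1 h2 (by linarith) hN m F G (fun s ha hb _ _ => hG s ha hb) hF)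
  refine ⟨h.1, h.2.1, ?_⟩
  have h5 := h.2.2
  have hpi : (π : ℂ) ≠ 0 := by exact_mod_cast Real.pi_ne_zero
  have hI := I_ne_zero
  have hI2 := I_sq
  generalize (∫ t : ℝ, F (σ2 + t * I)) = J2 at h5 ⊢
  generalize (∫ t : ℝ, F (σ1 + t * I)) = J1 at h5 ⊢
  generalize (∮ s in C(1, 1 / 2), F s) = R at h5 ⊢
  generalize G 0 / (-1) ^ m = g at h5 ⊢
  have h6 : J2 = (R + 2 * π * I * g) / I + J1 := by
    rw [eq_comm, ← h5]
    field_simp
    ring
  rw [h6]
  field_simp
--END SH2

end Pool.Agent.PEt
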