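import Mathlib

/-! MP_a10c55_nt: the class, its error terms, the Piltz divisor function. -/

set_option autoImplicit false

open Complex MeasureTheory Set Filter Topology
open scoped Real ComplexConjugate ContDiff

namespace Pool.Agent.PEt

/-- The real Selberg class: `L(s) = ∑ a(n) n^{-s}` with real coefficients satisfies the five axioms,
and its degree is `d`. -/
structure RealSelberg (a : ℕ → ℝ) (L : ℂ → ℂ) (d : ℝ) : Prop where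
  /-- absolute convergence for `Re s > 1` -/
  series : ∀ s : ℂ, 1 < s.re → LSeriesSummable (fun n => (a n : ℂ)) s ∧
    L s = LSeries (fun n => (a n : ℂ)) s
  /-- `(s-1)^m L(s)` is entire of finite order -/
  continuation : ∃ (m : ℕ) (G : ℂ → ℂ) (A : ℝ), Differentiable ℂ G ∧
    (∀ s, s ≠ 1 → G s = (s - 1) ^ m * L s) ∧ ∀ s, ‖G s‖ ≤ Real.exp (A * (1 + ‖s‖) ^ A)
  /-- the functional equation, in the critical strip; the degree is `2 ∑ λ_j` -/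
  functional : ∃ (Q : ℝ) (r : ℕ) (lam : Fin r → ℝ) (mu : Fin r → ℂ) (w : ℂ),
    0 < Q ∧ (∀ j, 0 < lam j) ∧ (∀ j, 0 ≤ (mu j).re) ∧ ‖w‖ = 1 ∧ 2 * ∑ j, lam j = d ∧
    ∀ s : ℂ, 0 < s.re → s.re < 1 →
      (Q : ℂ) ^ s * (∏ j, Gamma (lam j * s + mu j)) * L s =
        w * conj ((Q : ℂ) ^ (1 - conj s) * (∏ j, Gamma (lam j * (1 - conj s) + mu j)) *
          L (1 - conj s))
  /-- the Ramanujan hypothesis -/
  ramanujan : ∀ ε : ℝ, 0 < ε → ∃ C : ℝ, ∀ n : ℕ, 1 ≤ n → |a n| ≤ C * (n : ℝ) ^ ε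
  /-- the Euler product -/
  euler : ∃ (b : ℕ → ℂ) (θ C : ℝ), θ < 1 / 2 ∧ (∀ n, ¬ IsPrimePow n → b n = 0) ∧
    (∀ n : ℕ, 1 ≤ n → ‖b n‖ ≤ C * (n : ℝ) ^ θ) ∧
    ∀ s : ℂ, 1 < s.re → LSeriesSummable b s ∧ L s = cexp (LSeries b s)

/-- The error term `E_f(x) = ∑_{n ≤ x} a(n) - Res_{s=1} L(s) x^s / s`. -/
noncomputable def errTerm (a : ℕ → ℝ) (L : ℂ → ℂ) (x : ℝ) : ℝ :=
  ∑ n ∈ Finset.Icc 1 ⌊x⌋₊, a n - ((2 * π * I)⁻¹ * ∮ s in C(1, 1 / 2), L s * (x : ℂ) ^ s / s).re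

/-- The Piltz divisor function `d_k(n)`, the coefficients of `ζ(s)^k`. -/
noncomputable def dk (k n : ℕ) : ℝ :=
  (((ArithmeticFunction.zeta : ArithmeticFunction ℕ) ^ k) n : ℝ)

end Pool.Agent.PEt
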