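import Pool.Agent.PEt.XF
import Pool.Agent.PEt.SH

/-! The Voronoi series of `∫ E_f` for an `L` of degree 2. -/

set_option autoImplicit false

open Complex MeasureTheory Set Filter Topology
open scoped Real ComplexConjugate ContDiff

namespace Pool.Agent.PEt

/-! ### Mellin-Barnes integrals -/

--BEGIN MB1
/-! integral of `x^(a-1) e^(-rx)` for complex `r` -/

private theorem MB1_int {a : ℂ} (ha : 0 < a.re) {b : ℝ} (hb : 0 < b) :
    IntegrableOn (fun x : ℝ => x ^ (a.re - 1) * Real.exp (-b * x)) (Ioi 0) := by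
  have h := integrableOn_rpow_mul_exp_neg_mul_rpow (s := a.re - 1) (p := 1) (b := b)
    (by linarith) (by norm_num) hb
  simpa only [Real.rpow_one] using h

private theorem MB1_meas (a r : ℂ) :
    AEStronglyMeasurable (fun x : ℝ => (x : ℂ) ^ (a - 1) * cexp (-r * x))
      (volume.restrict (Ioi 0)) := by
  refine ContinuousOn.aestronglyMeasurable ?_ measurableSet_Ioi
  intro x hx
  have hx0 : (x : ℂ) ∈ slitPlane := ofReal_mem_slitPlane.2 hx
  have h1 : ContinuousAt (fun x : ℝ => (x : ℂ) ^ (a - 1)) x :=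
    (continuousAt_cpow_const hx0).comp continuous_ofReal.continuousAt
  exact (h1.mul (by fun_prop : ContinuousAt (fun x : ℝ => cexp (-r * x)) x)).continuousWithinAt

private theorem MB1_norm {a r : ℂ} {x : ℝ} (hx : 0 < x) :
    ‖(x : ℂ) ^ (a - 1) * cexp (-r * x)‖ = x ^ (a.re - 1) * Real.exp (-r.re * x) := by
  rw [norm_mul, norm_cpow_eq_rpow_re_of_pos hx, norm_exp]
  simp

private theorem MB1_integrable {a r : ℂ} (ha : 0 < a.re) (hr : 0 < r.re) :
    IntegrableOn (fun x : ℝ => (x : ℂ) ^ (a - 1) * cexp (-r * x)) (Ioi 0) := by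
  refine Integrable.mono' (MB1_int ha hr) (MB1_meas a r) ?_
  refine (ae_restrict_iff' measurableSet_Ioi).2 (Eventually.of_forall fun x hx => ?_)
  rw [MB1_norm hx]

private theorem MB1_deriv {a r : ℂ} (ha : 0 < a.re) (hr : 0 < r.re) :
    HasDerivAt (fun r : ℂ => ∫ x in Ioi (0:ℝ), (x : ℂ) ^ (a - 1) * cexp (-r * x))
      (∫ x in Ioi (0:ℝ), (x : ℂ) ^ (a - 1) * (cexp (-r * x) * (-x))) r := by
  have hball : ∀ z ∈ Metric.ball r (r.re / 2), r.re / 2 < z.re := by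
    intro z hz
    rw [Metric.mem_ball, dist_eq_norm] at hz
    have h1 := abs_re_le_norm (z - r)
    rw [sub_re] at h1
    have h2 := (abs_le.1 (h1.trans hz.le)).1
    have h3 : |z.re - r.re| < r.re / 2 := lt_of_le_of_lt h1 hz
    linarith [(abs_lt.1 h3).1]
  have hx1 : ∀ x : ℝ, 0 < x → (x : ℂ) ^ (a - 1) * (x:ℂ) = (x : ℂ) ^ ((a + 1) - 1) := by
    intro x hx
    have hx0 : (x : ℂ) ≠ 0 := ofReal_ne_zero.2 hx.ne'
    rw [show (a + 1) - 1 = (a - 1) + 1 by ring, cpow_add _ _ hx0, cpow_one]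
  refine (hasDerivAt_integral_of_dominated_loc_of_deriv_le (F := fun (r : ℂ) (x : ℝ) =>
    (x : ℂ) ^ (a - 1) * cexp (-r * x)) (F' := fun (r : ℂ) (x : ℝ) =>
      (x : ℂ) ^ (a - 1) * (cexp (-r * x) * (-x)))
    (bound := fun x : ℝ => x ^ ((a + 1).re - 1) * Real.exp (-(r.re / 2) * x))
    (s := Metric.ball r (r.re / 2)) (Metric.ball_mem_nhds r (by linarith)) (Eventually.of_forall fun z => MB1_meas a z)
    (MB1_integrable ha hr) ?_ ?_ (MB1_int (by simp; linarith) (by linarith)) ?_).2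
  · have h1 := (MB1_meas (a + 1) r).neg
    refine h1.congr ?_
    refine (ae_restrict_iff' measurableSet_Ioi).2 (Eventually.of_forall fun x hx => ?_)
    simp only [Pi.neg_apply]
    rw [← hx1 x hx]
    ring
  · refine (ae_restrict_iff' measurableSet_Ioi).2 (Eventually.of_forall fun x hx z hz => ?_)
    have h1 : (x : ℂ) ^ (a - 1) * (cexp (-z * x) * (-x)) =
        -((x : ℂ) ^ ((a + 1) - 1) * cexp (-z * x)) := by
      rw [← hx1 x hx]; ring
    rw [h1, norm_neg, MB1_norm hx]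
    refine mul_le_mul_of_nonneg_left ?_ (Real.rpow_nonneg (le_of_lt hx) _)
    refine Real.exp_le_exp.2 ?_
    have h2 := hball z hz
    have hx' : 0 < x := hx
    nlinarith
  · refine (ae_restrict_iff' measurableSet_Ioi).2 (Eventually.of_forall fun x hx z hz => ?_)
    have h1 : HasDerivAt (fun r : ℂ => -r * (x:ℂ)) (-(x:ℂ)) z := by
      simpa using ((hasDerivAt_id z).neg).mul_const (x:ℂ)
    exact (h1.cexp).const_mul _

private theorem MB1_gamma {a r : ℂ} (ha : 0 < a.re) (hr : 0 < r.re) :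
    ∫ x in Ioi (0:ℝ), (x : ℂ) ^ (a - 1) * cexp (-r * x) = r ^ (-a) * Gamma a := by
  have hU : IsOpen {z : ℂ | 0 < z.re} := isOpen_lt continuous_const continuous_re
  have hc : IsPreconnected {z : ℂ | 0 < z.re} :=
    (convex_halfSpace_re_gt 0).isPreconnected
  have h1 : AnalyticOnNhd ℂ (fun r : ℂ => ∫ x in Ioi (0:ℝ), (x : ℂ) ^ (a - 1) * cexp (-r * x))
      {z : ℂ | 0 < z.re} := by
    refine DifferentiableOn.analyticOnNhd ?_ hU
    intro z hz
    exact (MB1_deriv ha hz).differentiableAt.differentiableWithinAt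
  have h2 : AnalyticOnNhd ℂ (fun r : ℂ => r ^ (-a) * Gamma a) {z : ℂ | 0 < z.re} := by
    refine DifferentiableOn.analyticOnNhd ?_ hU
    intro z hz
    have hz' : z ∈ slitPlane := Or.inl hz
    exact ((differentiableAt_id.cpow_const hz').mul_const _).differentiableWithinAt
  have h3 : ∀ x : ℝ, 0 < x → (∫ t in Ioi (0:ℝ), (t : ℂ) ^ (a - 1) * cexp (-(x:ℂ) * t)) =
      (x : ℂ) ^ (-a) * Gamma a := by
    intro x hx
    have h4 := integral_cpow_mul_exp_neg_mul_Ioi ha hx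
    have h5 : (1 / (x:ℂ)) ^ a = (x:ℂ) ^ (-a) := by
      rw [one_div, inv_cpow _ _ (by rw [arg_ofReal_of_nonneg hx.le]; exact Real.pi_pos.ne),
        cpow_neg]
    rw [← h5, ← h4]
    refine integral_congr_ae (Eventually.of_forall fun t => ?_)
    simp only [neg_mul]
  have h4 : ∃ᶠ z in 𝓝[≠] (1:ℂ), (∫ x in Ioi (0:ℝ), (x : ℂ) ^ (a - 1) * cexp (-z * x)) =
      z ^ (-a) * Gamma a := by
    have h5 : Tendsto (fun x : ℝ => (x : ℂ)) (𝓝[≠] 1) (𝓝[≠] 1) := by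
      refine tendsto_nhdsWithin_iff.2 ⟨?_, ?_⟩
      · exact (by simpa using (continuous_ofReal.tendsto (1:ℝ)).mono_left nhdsWithin_le_nhds)
      · filter_upwards [self_mem_nhdsWithin] with x hx
        simpa using hx
    have h6 : ∀ᶠ x : ℝ in 𝓝[≠] 1, (0:ℝ) < x :=
      nhdsWithin_le_nhds (lt_mem_nhds one_pos)
    exact h5.frequently ((h6.mono fun x hx => h3 x hx).frequently)
  exact h1.eqOn_of_preconnected_of_frequently_eq h2 hc (by simp : (1:ℂ) ∈ {z : ℂ | 0 < z.re}) h4 hr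

/-! integrals of bounded functions against powers -/

/-- domination by `C x^p` near `0` and `C x^q` at infinity -/
private theorem MB1_dom {f : ℝ → ℂ} {C p q : ℝ} (hp : -1 < p) (hq : q < -1)
    (hm : AEStronglyMeasurable f (volume.restrict (Ioi 0)))
    (h0 : ∀ x : ℝ, 0 < x → x ≤ 1 → ‖f x‖ ≤ C * x ^ p)
    (h1 : ∀ x : ℝ, 1 < x → ‖f x‖ ≤ C * x ^ q) : IntegrableOn f (Ioi 0) := by
  have e : Ioi (0:ℝ) = Ioc 0 1 ∪ Ioi 1 := (Ioc_union_Ioi_eq_Ioi zero_le_one).symm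
  rw [e]
  refine IntegrableOn.union ?_ ?_
  · have k1 : IntegrableOn (fun x : ℝ => C * x ^ p) (Ioc 0 1) :=
      ((intervalIntegrable_iff_integrableOn_Ioc_of_le zero_le_one).1
        (intervalIntegral.intervalIntegrable_rpow' hp)).const_mul C
    refine Integrable.mono' k1 (hm.mono_set Ioc_subset_Ioi_self) ?_
    exact (ae_restrict_iff' measurableSet_Ioc).2 (Eventually.of_forall fun x hx => h0 x hx.1 hx.2)
  · have k1 : IntegrableOn (fun x : ℝ => C * x ^ q) (Ioi 1) :=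
      (integrableOn_Ioi_rpow_of_lt hq zero_lt_one).const_mul C
    refine Integrable.mono' k1 (hm.mono_set (Ioi_subset_Ioi zero_le_one)) ?_
    exact (ae_restrict_iff' measurableSet_Ioi).2 (Eventually.of_forall fun x hx => h1 x hx)

private theorem MB1_exp_le {z : ℂ} (hz : z.re ≤ 0) : ‖cexp z - 1‖ ≤ 2 ∧ ‖cexp z - 1‖ ≤ 2 * ‖z‖ := by
  have h1 : ‖cexp z - 1‖ ≤ 2 := by
    refine (norm_sub_le _ _).trans ?_
    rw [norm_exp, norm_one]
    have := Real.exp_le_one_iff.2 hz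
    linarith
  refine ⟨h1, ?_⟩
  rcases le_total ‖z‖ 1 with h | h
  · exact norm_exp_sub_one_le h
  · linarith

private theorem MB1_meas2 (w r : ℂ) :
    AEStronglyMeasurable (fun x : ℝ => (cexp (-r * x) - 1) * (x : ℂ) ^ (w - 1))
      (volume.restrict (Ioi 0)) := by
  refine ContinuousOn.aestronglyMeasurable ?_ measurableSet_Ioi
  intro x hx
  have hx0 : (x : ℂ) ∈ slitPlane := ofReal_mem_slitPlane.2 hx
  have h1 : ContinuousAt (fun x : ℝ => (x : ℂ) ^ (w - 1)) x :=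
    (continuousAt_cpow_const hx0).comp continuous_ofReal.continuousAt
  exact ((by fun_prop : ContinuousAt (fun x : ℝ => cexp (-r * x) - 1) x).mul h1).continuousWithinAt

private theorem MB1_bd0 {w r : ℂ} (hr : 0 ≤ r.re) {x : ℝ} (hx : 0 < x) :
    ‖(cexp (-r * x) - 1) * (x : ℂ) ^ (w - 1)‖ ≤ 2 * ‖r‖ * x ^ w.re ∧
    ‖(cexp (-r * x) - 1) * (x : ℂ) ^ (w - 1)‖ ≤ 2 * x ^ (w.re - 1) := by
  have h1 := MB1_exp_le (z := -r * x) (by simp; positivity)
  have h2 : 0 ≤ x ^ (w.re - 1) := Real.rpow_nonneg hx.le _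
  rw [norm_mul, norm_cpow_eq_rpow_re_of_pos hx, sub_re, one_re]
  constructor
  · have h3 : ‖-r * (x:ℂ)‖ = ‖r‖ * x := by
      rw [norm_mul, norm_neg, norm_real, Real.norm_of_nonneg hx.le]
    have h4 : x ^ w.re = x * x ^ (w.re - 1) := by
      rw [Real.rpow_sub_one hx.ne']
      field_simp
    calc ‖cexp (-r * x) - 1‖ * x ^ (w.re - 1) ≤ (2 * (‖r‖ * x)) * x ^ (w.re - 1) := by
          refine mul_le_mul_of_nonneg_right ?_ h2
          rw [← h3]; exact h1.2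
      _ = 2 * ‖r‖ * x ^ w.re := by rw [h4]; ring
  · exact mul_le_mul_of_nonneg_right h1.1 h2

private theorem MB1_int2 {w r : ℂ} (h1 : -1 < w.re) (h2 : w.re < 0) (hr : 0 ≤ r.re) :
    IntegrableOn (fun x : ℝ => (cexp (-r * x) - 1) * (x : ℂ) ^ (w - 1)) (Ioi 0) := by
  refine MB1_dom (C := max (2 * ‖r‖) 2) h1 (q := w.re - 1) (by linarith) (MB1_meas2 w r) ?_ ?_
  · intro x hx _
    exact (MB1_bd0 hr hx).1.trans (mul_le_mul_of_nonneg_right (le_max_left _ _)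
      (Real.rpow_nonneg hx.le _))
  · intro x hx
    have hx0 : 0 < x := by linarith
    exact (MB1_bd0 hr hx0).2.trans (mul_le_mul_of_nonneg_right (le_max_right _ _)
      (Real.rpow_nonneg hx0.le _))

private theorem MB1_cpow_deriv {w : ℂ} (hw : w ≠ 0) {x : ℝ} (hx : 0 < x) :
    HasDerivAt (fun x : ℝ => (x : ℂ) ^ w / w) ((x : ℂ) ^ (w - 1)) x := by
  have h1 := (hasDerivAt_ofReal_cpow_const (x := x) hx.ne' (r := w) hw).div_const w
  refine h1.congr_deriv ?_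
  field_simp

/-- by parts -/
private theorem MB1_parts {w r : ℂ} (h1 : -1 < w.re) (h2 : w.re < 0) (hr : 0 < r.re) :
    ∫ x in Ioi (0:ℝ), (cexp (-r * x) - 1) * (x : ℂ) ^ (w - 1) = r ^ (-w) * Gamma w := by
  have hw : w ≠ 0 := by
    intro h; rw [h, zero_re] at h2; exact lt_irrefl _ h2
  have hr0 : r ≠ 0 := by
    intro h; rw [h, zero_re] at hr; exact lt_irrefl _ hr
  have hI := MB1_integrable (a := w + 1) (r := r) (by simp; linarith) hr
  have hG := MB1_gamma (a := w + 1) (r := r) (by simp; linarith) hr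
  have e0 : ∀ x : ℝ, (-r * cexp (-r * x)) * ((x : ℂ) ^ w / w) =
      (-r / w) * ((x : ℂ) ^ (w + 1 - 1) * cexp (-r * x)) := by
    intro x
    rw [add_sub_cancel_right]
    ring
  have key := integral_Ioi_mul_deriv_eq_deriv_mul (a := (0:ℝ)) (a' := (0:ℂ)) (b' := (0:ℂ))
    (u := fun x : ℝ => cexp (-r * x) - 1) (v := fun x : ℝ => (x : ℂ) ^ w / w)
    (u' := fun x : ℝ => -r * cexp (-r * x)) (v' := fun x : ℝ => (x : ℂ) ^ (w - 1))
    (fun x _ => by
      have k1 : HasDerivAt (fun x : ℝ => -r * (x:ℂ)) (-r * 1) x :=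
        (ofRealCLM.hasDerivAt (x := x)).const_mul (-r)
      have k2 := (k1.cexp).sub_const (1:ℂ)
      refine k2.congr_deriv ?_
      ring)
    (fun x hx => MB1_cpow_deriv hw hx)
    (MB1_int2 h1 h2 hr.le)
    (by
      refine (hI.const_mul (-r / w)).congr ?_
      exact Eventually.of_forall fun x => (e0 x).symm)
    (by
      -- at zero
      have k1 : Tendsto (fun x : ℝ => 2 * ‖r‖ / ‖w‖ * x ^ (w.re + 1)) (𝓝[>] 0) (𝓝 0) := by
        have k2 : Tendsto (fun x : ℝ => x ^ (w.re + 1)) (𝓝 0) (𝓝 (0 ^ (w.re + 1))) :=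
          (Real.continuousAt_rpow_const 0 (w.re + 1) (Or.inr (by linarith))).tendsto
        rw [Real.zero_rpow (by linarith)] at k2
        simpa using (k2.mono_left nhdsWithin_le_nhds).const_mul (2 * ‖r‖ / ‖w‖)
      refine squeeze_zero_norm' ?_ k1
      filter_upwards [self_mem_nhdsWithin] with x hx
      have hx0 : 0 < x := hx
      have k3 := (MB1_exp_le (z := -r * x) (by simp; positivity)).2
      simp only [Pi.mul_apply]
      rw [norm_mul, norm_div, norm_cpow_eq_rpow_re_of_pos hx0]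
      have k4 : ‖-r * (x:ℂ)‖ = ‖r‖ * x := by
        rw [norm_mul, norm_neg, norm_real, Real.norm_of_nonneg hx0.le]
      rw [k4] at k3
      rw [Real.rpow_add_one hx0.ne']
      calc ‖cexp (-r * x) - 1‖ * (x ^ w.re / ‖w‖) ≤ (2 * (‖r‖ * x)) * (x ^ w.re / ‖w‖) :=
            mul_le_mul_of_nonneg_right k3 (by positivity)
        _ = 2 * ‖r‖ / ‖w‖ * (x ^ w.re * x) := by ring)
    (by
      -- at infinity
      have k1 : Tendsto (fun x : ℝ => 2 / ‖w‖ * x ^ (-(-w.re))) atTop (𝓝 0) := by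
        simpa using (tendsto_rpow_neg_atTop (y := -w.re) (by linarith)).const_mul (2 / ‖w‖)
      refine squeeze_zero_norm' ?_ k1
      filter_upwards [eventually_gt_atTop 0] with x hx0
      have k3 := (MB1_exp_le (z := -r * x) (by simp; positivity)).1
      simp only [Pi.mul_apply]
      rw [norm_mul, norm_div, norm_cpow_eq_rpow_re_of_pos hx0, neg_neg]
      calc ‖cexp (-r * x) - 1‖ * (x ^ w.re / ‖w‖) ≤ 2 * (x ^ w.re / ‖w‖) :=
            mul_le_mul_of_nonneg_right k3 (by positivity)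
        _ = 2 / ‖w‖ * x ^ w.re := by ring)
  rw [key]
  have e1 : ∫ x in Ioi (0:ℝ), (-r * cexp (-r * x)) * ((x : ℂ) ^ w / w) =
      (-r / w) * ∫ x in Ioi (0:ℝ), (x : ℂ) ^ (w + 1 - 1) * cexp (-r * x) := by
    rw [← integral_const_mul]
    exact integral_congr_ae (Eventually.of_forall fun x => e0 x)
  rw [e1, hG, Gamma_add_one w hw, neg_add, cpow_add _ _ hr0, cpow_neg_one]
  field_simp
  ring

/-- **MB1.** `∫_0^∞ (e^{ix}-1) x^{w-1} dx = Γ(w) e^{iπw/2}` for `-1 < Re w < 0` (first with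
`e^{-rx}`, `Re r > 0`, by parts from `Γ(w+1)`; then `r → -i`). -/
theorem mellin_exp_one {w : ℂ} (h1 : -1 < w.re) (h2 : w.re < 0) :
    IntegrableOn (fun x : ℝ => (cexp (I * x) - 1) * (x : ℂ) ^ (w - 1)) (Ioi 0) ∧
    ∫ x in Ioi (0 : ℝ), (cexp (I * x) - 1) * (x : ℂ) ^ (w - 1) = Gamma w * cexp (I * π * w / 2) := by
  have hI := MB1_int2 (r := -I) h1 h2 (by simp)
  rw [neg_neg] at hI
  refine ⟨hI, ?_⟩
  have hε : Tendsto (fun n : ℕ => ((1 / ((n:ℝ) + 1) : ℝ) : ℂ) - I) atTop (𝓝 (-I)) := by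
    have k1 : Tendsto (fun n : ℕ => ((1 / ((n:ℝ) + 1) : ℝ) : ℂ)) atTop (𝓝 ((0:ℝ):ℂ)) :=
      (continuous_ofReal.tendsto 0).comp tendsto_one_div_add_atTop_nhds_zero_nat
    simpa using k1.sub_const I
  have hre : ∀ n : ℕ, (((1 / ((n:ℝ) + 1) : ℝ) : ℂ) - I).re = 1 / ((n:ℝ) + 1) := by
    intro n
    rw [sub_re, ofReal_re, I_re, sub_zero]
  have hpos : ∀ n : ℕ, 0 < (((1 / ((n:ℝ) + 1) : ℝ) : ℂ) - I).re := by
    intro n; rw [hre]; positivity
  have hnorm : ∀ n : ℕ, ‖((1 / ((n:ℝ) + 1) : ℝ) : ℂ) - I‖ ≤ 2 := by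
    intro n
    refine (norm_sub_le _ _).trans ?_
    rw [norm_real, norm_I, Real.norm_of_nonneg (by positivity)]
    have : 1 / ((n:ℝ) + 1) ≤ 1 := by
      rw [div_le_one (by positivity)]
      linarith [Nat.cast_nonneg (α := ℝ) n]
    linarith
  have t1 : Tendsto (fun n : ℕ => ∫ x in Ioi (0:ℝ),
      (cexp (-(((1 / ((n:ℝ) + 1) : ℝ) : ℂ) - I) * x) - 1) * (x : ℂ) ^ (w - 1)) atTop
      (𝓝 (∫ x in Ioi (0 : ℝ), (cexp (I * x) - 1) * (x : ℂ) ^ (w - 1))) := by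
    have hb : IntegrableOn (fun x : ℝ => ‖(4:ℂ) * (if x ≤ 1 then ((x ^ w.re : ℝ) : ℂ) else
        ((x ^ (w.re - 1) : ℝ) : ℂ))‖) (Ioi 0) := by
      refine (MB1_dom (f := fun x : ℝ => (4:ℂ) * (if x ≤ 1 then ((x ^ w.re : ℝ) : ℂ) else
        ((x ^ (w.re - 1) : ℝ) : ℂ))) (C := 4) h1 (q := w.re - 1) (by linarith) ?_ ?_ ?_).norm
      · refine Measurable.aestronglyMeasurable ?_
        refine measurable_const.mul (Measurable.ite measurableSet_Iic ?_ ?_)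
        · exact measurable_ofReal.comp (measurable_id.pow_const _)
        · exact measurable_ofReal.comp (measurable_id.pow_const _)
      · intro x hx hx1
        rw [if_pos hx1, norm_mul, norm_real, Real.norm_of_nonneg (Real.rpow_nonneg hx.le _)]
        norm_num
      · intro x hx
        rw [if_neg (not_le.2 hx), norm_mul, norm_real,
          Real.norm_of_nonneg (Real.rpow_nonneg (by linarith) _)]
        norm_num
    refine tendsto_integral_of_dominated_convergence _ (fun n => MB1_meas2 w _) hb ?_ ?_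
    · intro n
      refine (ae_restrict_iff' measurableSet_Ioi).2 (Eventually.of_forall fun x hx => ?_)
      have hx0 : 0 < x := hx
      have k1 := MB1_bd0 (w := w) (hpos n).le hx0
      rw [norm_mul (4:ℂ)]
      by_cases hx1 : x ≤ 1
      · rw [if_pos hx1, norm_real, Real.norm_of_nonneg (Real.rpow_nonneg hx0.le _)]
        refine k1.1.trans (mul_le_mul_of_nonneg_right ?_ (Real.rpow_nonneg hx0.le _))
        have := hnorm n
        have h4 : ‖(4:ℂ)‖ = 4 := by norm_num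
        rw [h4]
        linarith
      · rw [if_neg hx1, norm_real, Real.norm_of_nonneg (Real.rpow_nonneg hx0.le _)]
        refine k1.2.trans (mul_le_mul_of_nonneg_right ?_ (Real.rpow_nonneg hx0.le _))
        norm_num
    · refine Eventually.of_forall fun x => ?_
      have k1 : Tendsto (fun n : ℕ => -(((1 / ((n:ℝ) + 1) : ℝ) : ℂ) - I) * (x:ℂ)) atTop
          (𝓝 (I * x)) := by
        have := (hε.neg).mul_const (x:ℂ)
        simpa using this
      exact ((continuous_exp.continuousAt.tendsto.comp k1).sub_const 1).mul_const _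
  have t2 : Tendsto (fun n : ℕ => (((1 / ((n:ℝ) + 1) : ℝ) : ℂ) - I) ^ (-w) * Gamma w) atTop
      (𝓝 ((-I) ^ (-w) * Gamma w)) := by
    refine Tendsto.mul_const _ ?_
    have hs : (-I) ∈ slitPlane := Or.inr (by simp)
    exact ((continuousAt_cpow_const hs).tendsto).comp hε
  have t3 : (fun n : ℕ => ∫ x in Ioi (0:ℝ),
      (cexp (-(((1 / ((n:ℝ) + 1) : ℝ) : ℂ) - I) * x) - 1) * (x : ℂ) ^ (w - 1)) =
      fun n : ℕ => (((1 / ((n:ℝ) + 1) : ℝ) : ℂ) - I) ^ (-w) * Gamma w := by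
    funext n
    exact MB1_parts h1 h2 (hpos n)
  rw [t3] at t1
  rw [tendsto_nhds_unique t1 t2, mul_comm]
  congr 1
  rw [cpow_def_of_ne_zero (neg_ne_zero.2 I_ne_zero), log_neg_I]
  congr 1
  ring
--END MB1

--BEGIN MB2
private theorem MB2_meas (w : ℂ) :
    AEStronglyMeasurable (fun x : ℝ => (cexp (I * x) - 1 - I * x) * (x : ℂ) ^ (w - 1))
      (volume.restrict (Ioi 0)) := by
  refine ContinuousOn.aestronglyMeasurable ?_ measurableSet_Ioi
  intro x hx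
  have hx0 : (x : ℂ) ∈ slitPlane := ofReal_mem_slitPlane.2 hx
  have h1 : ContinuousAt (fun x : ℝ => (x : ℂ) ^ (w - 1)) x :=
    (continuousAt_cpow_const hx0).comp continuous_ofReal.continuousAt
  exact ((by fun_prop : ContinuousAt (fun x : ℝ => cexp (I * x) - 1 - I * x) x).mul
    h1).continuousWithinAt

private theorem MB2_le {x : ℝ} (hx : 0 < x) :
    (x ≤ 1 → ‖cexp (I * x) - 1 - I * x‖ ≤ x ^ 2) ∧ (1 ≤ x → ‖cexp (I * x) - 1 - I * x‖ ≤ 3 * x) := by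
  have hn : ‖I * (x:ℂ)‖ = x := by
    rw [norm_mul, norm_I, one_mul, norm_real, Real.norm_of_nonneg hx.le]
  constructor
  · intro h1
    have h2 := norm_exp_sub_one_sub_id_le (x := I * x) (by rw [hn]; exact h1)
    rwa [hn] at h2
  · intro h1
    have h2 : ‖cexp (I * x)‖ = 1 := by
      rw [norm_exp]; simp
    calc ‖cexp (I * x) - 1 - I * x‖ ≤ ‖cexp (I * x) - 1‖ + ‖I * (x:ℂ)‖ := norm_sub_le _ _
      _ ≤ (‖cexp (I * x)‖ + ‖(1:ℂ)‖) + ‖I * (x:ℂ)‖ := by gcongr; exact norm_sub_le _ _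
      _ ≤ 3 * x := by rw [h2, hn, norm_one]; linarith

private theorem MB2_int {w : ℂ} (h1 : -2 < w.re) (h2 : w.re < -1) :
    IntegrableOn (fun x : ℝ => (cexp (I * x) - 1 - I * x) * (x : ℂ) ^ (w - 1)) (Ioi 0) := by
  have key : ∀ x : ℝ, 0 < x → ‖(x : ℂ) ^ (w - 1)‖ = x ^ (w.re - 1) := by
    intro x hx
    rw [norm_cpow_eq_rpow_re_of_pos hx, sub_re, one_re]
  have hm := MB2_meas w
  have e : Ioi (0:ℝ) = Ioc 0 1 ∪ Ioi 1 := (Ioc_union_Ioi_eq_Ioi zero_le_one).symm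
  rw [e]
  refine IntegrableOn.union ?_ ?_
  · have k1 : IntegrableOn (fun x : ℝ => x ^ (w.re + 1)) (Ioc 0 1) :=
      (intervalIntegrable_iff_integrableOn_Ioc_of_le zero_le_one).1
        (intervalIntegral.intervalIntegrable_rpow' (by linarith))
    refine Integrable.mono' k1 (hm.mono_set Ioc_subset_Ioi_self) ?_
    refine (ae_restrict_iff' measurableSet_Ioc).2 (Eventually.of_forall fun x hx => ?_)
    rw [norm_mul, key x hx.1]
    have h3 := (MB2_le hx.1).1 hx.2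
    have h4 : x ^ (w.re + 1) = x ^ 2 * x ^ (w.re - 1) := by
      rw [← Real.rpow_natCast, ← Real.rpow_add hx.1]
      congr 1
      push_cast
      ring
    rw [h4]
    exact mul_le_mul_of_nonneg_right h3 (Real.rpow_nonneg hx.1.le _)
  · have k1 : IntegrableOn (fun x : ℝ => 3 * x ^ w.re) (Ioi 1) :=
      (integrableOn_Ioi_rpow_of_lt h2 zero_lt_one).const_mul 3
    refine Integrable.mono' k1 (hm.mono_set (Ioi_subset_Ioi zero_le_one)) ?_
    refine (ae_restrict_iff' measurableSet_Ioi).2 (Eventually.of_forall fun x hx => ?_)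
    have hx1 : 1 < x := hx
    have hx0 : 0 < x := by linarith
    rw [norm_mul, key x hx0]
    have h3 := (MB2_le hx0).2 hx1.le
    have h4 : x ^ w.re = x * x ^ (w.re - 1) := by
      rw [Real.rpow_sub_one hx0.ne']
      field_simp
    rw [h4]
    calc ‖cexp (I * x) - 1 - I * x‖ * x ^ (w.re - 1) ≤ (3 * x) * x ^ (w.re - 1) :=
          mul_le_mul_of_nonneg_right h3 (Real.rpow_nonneg hx0.le _)
      _ = 3 * (x * x ^ (w.re - 1)) := by ring

/-- **MB2.** The same with `e^{ix} - 1 - ix`, `-2 < Re w < -1`. -/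
theorem mellin_exp_two {w : ℂ} (h1 : -2 < w.re) (h2 : w.re < -1) :
    IntegrableOn (fun x : ℝ => (cexp (I * x) - 1 - I * x) * (x : ℂ) ^ (w - 1)) (Ioi 0) ∧
    ∫ x in Ioi (0 : ℝ), (cexp (I * x) - 1 - I * x) * (x : ℂ) ^ (w - 1) =
      Gamma w * cexp (I * π * w / 2) := by
  have hw : w ≠ 0 := by
    intro h; rw [h, zero_re] at h2; linarith
  obtain ⟨hI, hG⟩ := mellin_exp_one (w := w + 1) (by simp; linarith) (by simp; linarith)
  refine ⟨MB2_int h1 h2, ?_⟩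
  have e0 : ∀ x : ℝ, (I * (cexp (I * x) - 1)) * ((x : ℂ) ^ w / w) =
      (I / w) * ((cexp (I * x) - 1) * (x : ℂ) ^ (w + 1 - 1)) := by
    intro x
    rw [add_sub_cancel_right]
    ring
  have key := integral_Ioi_mul_deriv_eq_deriv_mul (a := (0:ℝ)) (a' := (0:ℂ)) (b' := (0:ℂ))
    (u := fun x : ℝ => cexp (I * x) - 1 - I * x) (v := fun x : ℝ => (x : ℂ) ^ w / w)
    (u' := fun x : ℝ => I * (cexp (I * x) - 1)) (v' := fun x : ℝ => (x : ℂ) ^ (w - 1))
    (fun x _ => by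
      have k1 : HasDerivAt (fun x : ℝ => I * (x:ℂ)) (I * 1) x :=
        (ofRealCLM.hasDerivAt (x := x)).const_mul I
      have k2 := ((k1.cexp).sub_const (1:ℂ)).sub k1
      refine k2.congr_deriv ?_
      ring)
    (fun x hx => by
      have hx0 : x ≠ 0 := ne_of_gt hx
      have h1 := (hasDerivAt_ofReal_cpow_const (x := x) hx0 (r := w) hw).div_const w
      refine h1.congr_deriv ?_
      field_simp)
    (MB2_int h1 h2)
    (by
      refine (hI.const_mul (I / w)).congr ?_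
      exact Eventually.of_forall fun x => (e0 x).symm)
    (by
      have k1 : Tendsto (fun x : ℝ => 1 / ‖w‖ * x ^ (w.re + 2)) (𝓝[>] 0) (𝓝 0) := by
        have k2 : Tendsto (fun x : ℝ => x ^ (w.re + 2)) (𝓝 0) (𝓝 (0 ^ (w.re + 2))) :=
          (Real.continuousAt_rpow_const 0 (w.re + 2) (Or.inr (by linarith))).tendsto
        rw [Real.zero_rpow (by linarith)] at k2
        simpa using (k2.mono_left nhdsWithin_le_nhds).const_mul (1 / ‖w‖)
      refine squeeze_zero_norm' ?_ k1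
      filter_upwards [self_mem_nhdsWithin, nhdsWithin_le_nhds (gt_mem_nhds one_pos)] with x hx hx1
      have hx0 : 0 < x := hx
      have k3 := (MB2_le hx0).1 (le_of_lt hx1)
      simp only [Pi.mul_apply]
      rw [norm_mul, norm_div, norm_cpow_eq_rpow_re_of_pos hx0]
      have k4 : x ^ (w.re + 2) = x ^ w.re * x ^ 2 := by
        rw [← Real.rpow_natCast, ← Real.rpow_add hx0]
        push_cast
        rfl
      rw [k4]
      calc ‖cexp (I * x) - 1 - I * x‖ * (x ^ w.re / ‖w‖) ≤ x ^ 2 * (x ^ w.re / ‖w‖) :=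
            mul_le_mul_of_nonneg_right k3 (by positivity)
        _ = 1 / ‖w‖ * (x ^ w.re * x ^ 2) := by ring)
    (by
      have k1 : Tendsto (fun x : ℝ => 3 / ‖w‖ * x ^ (-(-w.re - 1))) atTop (𝓝 0) := by
        simpa using (tendsto_rpow_neg_atTop (y := -w.re - 1) (by linarith)).const_mul (3 / ‖w‖)
      refine squeeze_zero_norm' ?_ k1
      filter_upwards [eventually_gt_atTop 1] with x hx1
      have hx0 : 0 < x := by linarith
      have k3 := (MB2_le hx0).2 hx1.le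
      simp only [Pi.mul_apply]
      rw [norm_mul, norm_div, norm_cpow_eq_rpow_re_of_pos hx0]
      have k4 : x ^ (-(-w.re - 1)) = x ^ w.re * x := by
        rw [← Real.rpow_add_one hx0.ne']
        congr 1
        ring
      rw [k4]
      calc ‖cexp (I * x) - 1 - I * x‖ * (x ^ w.re / ‖w‖) ≤ 3 * x * (x ^ w.re / ‖w‖) :=
            mul_le_mul_of_nonneg_right k3 (by positivity)
        _ = 3 / ‖w‖ * (x ^ w.re * x) := by ring)
  rw [key]
  have e1 : ∫ x in Ioi (0:ℝ), (I * (cexp (I * x) - 1)) * ((x : ℂ) ^ w / w) =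
      (I / w) * ∫ x in Ioi (0:ℝ), (cexp (I * x) - 1) * (x : ℂ) ^ (w + 1 - 1) := by
    rw [← integral_const_mul]
    exact integral_congr_ae (Eventually.of_forall fun x => e0 x)
  have e2 : cexp (I * π * (w + 1) / 2) = cexp (I * π * w / 2) * I := by
    rw [show I * π * (w + 1) / 2 = I * π * w / 2 + π / 2 * I by ring, exp_add, exp_pi_div_two_mul_I]
  rw [e1, hG, Gamma_add_one w hw, e2]
  have e3 : I * I = -1 := I_mul_I
  generalize cexp (I * π * w / 2) = E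
  generalize Gamma w = G
  field_simp
  linear_combination (-(G * E)) * e3
--END MB2

--BEGIN MB3
private theorem MB3_norm (c v : ℝ) :
    ‖cexp (I * π * (c + v * I) / 2)‖ = Real.exp (-(π * v / 2)) := by
  rw [norm_exp]
  congr 1
  have : I * π * (c + v * I) / 2 = ((-(π * v / 2) : ℝ) : ℂ) + ((π * c / 2 : ℝ) : ℂ) * I := by
    push_cast
    linear_combination (π * v / 2 : ℂ) * I_mul_I
  rw [this, add_re, ofReal_re, re_ofReal_mul, I_re, mul_zero, add_zero]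

/-- the weight is integrable -/
private theorem MB3_vert {c : ℝ} (hc : c < -(1 / 2)) (hm : ∀ m : ℕ, c ≠ -m) :
    Integrable (fun v : ℝ => Gamma (c + v * I) * cexp (I * π * (c + v * I) / 2)) := by
  obtain ⟨C, hC, hG⟩ := Gamma_bound |c|
  have hcont : Continuous fun v : ℝ => Gamma (c + v * I) * cexp (I * π * (c + v * I) / 2) := by
    refine Continuous.mul ?_ (by fun_prop)
    refine continuous_iff_continuousAt.2 fun v => ?_
    have h1 : ContinuousAt Gamma (c + v * I) := by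
      refine (differentiableAt_Gamma _ ?_).continuousAt
      intro m h
      have h2 := congrArg re h
      simp at h2
      exact hm m h2
    exact ContinuousAt.comp (f := fun v : ℝ => (c:ℂ) + v * I) h1 (by fun_prop)
  obtain ⟨K, hK⟩ := (isCompact_Icc (a := (-1:ℝ)) (b := 1)).exists_bound_of_continuousOn
    hcont.continuousOn
  have hint : Integrable (fun v : ℝ => (max K C * 2 ^ (1 / 2 - c)) * (1 + ‖v‖) ^ (-(1 / 2 - c))) :=
    (integrable_one_add_norm (by simp; linarith)).const_mul _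
  refine Integrable.mono' hint hcont.aestronglyMeasurable (Eventually.of_forall fun v => ?_)
  have hpos : 0 < 1 + ‖v‖ := by positivity
  have hK0 : 0 ≤ K := (norm_nonneg _).trans (hK 0 (by simp))
  have e1 : (1 + ‖v‖) ^ (-(1 / 2 - c)) * 2 ^ (1 / 2 - c) = ((1 + ‖v‖) / 2) ^ (-(1 / 2 - c)) := by
    rw [Real.div_rpow hpos.le (by norm_num), Real.rpow_neg (by norm_num : (0:ℝ) ≤ 2)]
    field_simp
  have e2 : (max K C * 2 ^ (1 / 2 - c)) * (1 + ‖v‖) ^ (-(1 / 2 - c)) =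
      max K C * ((1 + ‖v‖) / 2) ^ (-(1 / 2 - c)) := by
    rw [← e1]; ring
  rw [e2]
  rcases le_total |v| 1 with hv | hv
  · have h1 := hK v (abs_le.1 hv)
    have h2 : 1 ≤ ((1 + ‖v‖) / 2) ^ (-(1 / 2 - c)) := by
      refine Real.one_le_rpow_of_pos_of_le_one_of_nonpos (by positivity) ?_ (by linarith)
      rw [Real.norm_eq_abs]; linarith
    calc ‖Gamma (c + v * I) * cexp (I * π * (c + v * I) / 2)‖ ≤ K := h1
      _ ≤ max K C * 1 := by rw [mul_one]; exact le_max_left _ _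
      _ ≤ _ := mul_le_mul_of_nonneg_left h2 (hK0.trans (le_max_left _ _))
  · have h1 := (hG c v le_rfl hv).1
    have hv0 : 0 < |v| := by linarith
    rw [norm_mul, MB3_norm]
    have h2 : Real.exp (-(π * |v| / 2)) * Real.exp (-(π * v / 2)) ≤ 1 := by
      rw [← Real.exp_add, Real.exp_le_one_iff]
      have := neg_abs_le v
      nlinarith [Real.pi_pos]
    have h3 : |v| ^ (c - 1 / 2) ≤ ((1 + ‖v‖) / 2) ^ (-(1 / 2 - c)) := by
      rw [show c - 1 / 2 = -(1 / 2 - c) by ring]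
      refine Real.rpow_le_rpow_of_nonpos (by positivity) ?_ (by linarith)
      rw [Real.norm_eq_abs]; linarith
    calc ‖Gamma (c + v * I)‖ * Real.exp (-(π * v / 2))
        ≤ (C * |v| ^ (c - 1 / 2) * Real.exp (-(π * |v| / 2))) * Real.exp (-(π * v / 2)) :=
          mul_le_mul_of_nonneg_right h1 (Real.exp_pos _).le
      _ = C * |v| ^ (c - 1 / 2) * (Real.exp (-(π * |v| / 2)) * Real.exp (-(π * v / 2))) := by ring
      _ ≤ C * |v| ^ (c - 1 / 2) * 1 := mul_le_mul_of_nonneg_left h2 (by positivity)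
      _ ≤ max K C * ((1 + ‖v‖) / 2) ^ (-(1 / 2 - c)) := by
          rw [mul_one]
          exact mul_le_mul (le_max_right _ _) h3 (by positivity) (hC.le.trans (le_max_right _ _))

/-- inversion, both cases -/
private theorem MB3_inv {c Z : ℝ} {f : ℝ → ℂ} (hc : c < -(1 / 2)) (hm : ∀ m : ℕ, c ≠ -m)
    (hZ : 0 < Z) (hf : Continuous f)
    (hI : IntegrableOn (fun x : ℝ => f x * (x : ℂ) ^ ((c:ℂ) - 1)) (Ioi 0))
    (hM : ∀ v : ℝ, ∫ x in Ioi (0 : ℝ), f x * (x : ℂ) ^ ((c + v * I : ℂ) - 1) =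
      Gamma (c + v * I) * cexp (I * π * (c + v * I) / 2)) :
    Integrable (fun v : ℝ => Gamma (c + v * I) * cexp (I * π * (c + v * I) / 2) *
      (Z : ℂ) ^ (-(c + v * I : ℂ))) ∧
    (1 / (2 * π) : ℂ) * ∫ v : ℝ, Gamma (c + v * I) * cexp (I * π * (c + v * I) / 2) *
      (Z : ℂ) ^ (-(c + v * I : ℂ)) = f Z := by
  have hv := MB3_vert hc hm
  have hmel : ∀ v : ℝ, mellin f (c + v * I) = Gamma (c + v * I) * cexp (I * π * (c + v * I) / 2) := by
    intro v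
    rw [← hM v, mellin]
    refine integral_congr_ae (Eventually.of_forall fun x => ?_)
    simp only [smul_eq_mul]
    ring
  constructor
  · have hZ0 : (Z:ℂ) ≠ 0 := ofReal_ne_zero.2 hZ.ne'
    refine Integrable.mul_bdd (c := Z ^ (-c)) hv ?_ (Eventually.of_forall fun v => ?_)
    · refine Continuous.aestronglyMeasurable ?_
      have : (fun v : ℝ => (Z : ℂ) ^ (-(c + v * I : ℂ))) =
          fun v : ℝ => cexp (Complex.log Z * (-(c + v * I : ℂ))) := by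
        funext v
        rw [cpow_def_of_ne_zero hZ0]
      rw [this]
      fun_prop
    · rw [norm_cpow_eq_rpow_re_of_pos hZ]
      simp
  · have hinv := mellinInv_mellin_eq c f hZ (by
      rw [MellinConvergent]
      refine hI.congr (Eventually.of_forall fun x => ?_)
      simp only [smul_eq_mul]
      ring) (by
      rw [VerticalIntegrable]
      exact hv.congr (Eventually.of_forall fun v => (hmel v).symm)) hf.continuousAt
    rw [← hinv, mellinInv]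
    rw [real_smul]
    push_cast
    congr 1
    refine integral_congr_ae (Eventually.of_forall fun v => ?_)
    simp only [smul_eq_mul]
    rw [hmel]
    ring

/-- **MB3.** Mellin inversion of MB1, `-1 < c < -1/2`. -/
theorem mellinBarnes_one {c Z : ℝ} (h1 : -1 < c) (h2 : c < -(1 / 2)) (hZ : 0 < Z) :
    Integrable (fun v : ℝ => Gamma (c + v * I) * cexp (I * π * (c + v * I) / 2) *
      (Z : ℂ) ^ (-(c + v * I : ℂ))) ∧
    (1 / (2 * π) : ℂ) * ∫ v : ℝ, Gamma (c + v * I) * cexp (I * π * (c + v * I) / 2) *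
      (Z : ℂ) ^ (-(c + v * I : ℂ)) = cexp (I * Z) - 1 := by
  refine MB3_inv (f := fun x : ℝ => cexp (I * x) - 1) h2 ?_ hZ (by fun_prop) ?_ ?_
  · intro m h
    rw [h] at h1 h2
    rcases Nat.eq_zero_or_pos m with h3 | h3
    · rw [h3] at h2; norm_num at h2
    · have : (1:ℝ) ≤ m := by exact_mod_cast h3
      linarith
  · exact (mellin_exp_one (w := c) (by simpa using h1) (by simp; linarith)).1
  · intro v
    exact (mellin_exp_one (w := c + v * I) (by simpa using h1) (by simp; linarith)).2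
--END MB3

--BEGIN MB4
/-- **MB4.** Mellin inversion of MB2, `-2 < c < -1`. -/
theorem mellinBarnes_two {c Z : ℝ} (h1 : -2 < c) (h2 : c < -1) (hZ : 0 < Z) :
    Integrable (fun v : ℝ => Gamma (c + v * I) * cexp (I * π * (c + v * I) / 2) *
      (Z : ℂ) ^ (-(c + v * I : ℂ))) ∧
    (1 / (2 * π) : ℂ) * ∫ v : ℝ, Gamma (c + v * I) * cexp (I * π * (c + v * I) / 2) *
      (Z : ℂ) ^ (-(c + v * I : ℂ)) = cexp (I * Z) - 1 - I * Z := by
  refine MB3_inv (f := fun x : ℝ => cexp (I * x) - 1 - I * x) (by linarith) ?_ hZ (by fun_prop) ?_ ?_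
  · intro m h
    rw [h] at h1 h2
    have h3 : 1 < m := by
      have : (1:ℝ) < m := by linarith
      exact_mod_cast this
    have h4 : m < 2 := by
      have : (m:ℝ) < 2 := by linarith
      exact_mod_cast this
    omega
  · exact (mellin_exp_two (w := c) (by simpa using h1) (by simpa using h2)).1
  · intro v
    exact (mellin_exp_two (w := c + v * I) (by simpa using h1) (by simpa using h2)).2
--END MB4

--BEGIN MB5
private theorem MB5_cpow {x : ℝ} (hx : 0 < x) (z : ℂ) : (x : ℂ) ^ z = cexp ((Real.log x : ℝ) * z) := by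
  rw [cpow_def_of_ne_zero (ofReal_ne_zero.2 hx.ne'), ofReal_log hx.le]

private theorem MB5_eq {κ y : ℝ} (hκ : 0 < κ) (hy : 0 < y) (j : ℕ) (t : ℝ) :
    Mf κ j (-(3 / 8) + t * I) * (y : ℂ) ^ (-(3 / 8) + t * I + 2 : ℂ) =
      (cexp (I * π * (3 / 2 + j) / 2) * ((4 * π * √κ : ℝ) : ℂ) ^ (-(3 / 2 + j) : ℂ)) *
        ((y ^ (5 / 4 - j / 2 : ℝ) : ℝ) : ℂ) *
      (Gamma (((-(3 / 4) - j : ℝ) : ℂ) + ((-2 * t : ℝ) : ℂ) * I) *
        cexp (I * π * (((-(3 / 4) - j : ℝ) : ℂ) + ((-2 * t : ℝ) : ℂ) * I) / 2) *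
        ((4 * π * √(κ * y) : ℝ) : ℂ) ^ (-(((-(3 / 4) - j : ℝ) : ℂ) + ((-2 * t : ℝ) : ℂ) * I))) := by
  have hA : 0 < 4 * π * √κ := by have := Real.sqrt_pos.2 hκ; positivity
  have hB : 0 < 4 * π * √(κ * y) := by have := Real.sqrt_pos.2 (mul_pos hκ hy); positivity
  have hlog : Real.log (4 * π * √(κ * y)) = Real.log (4 * π * √κ) + Real.log y / 2 := by
    rw [Real.sqrt_mul hκ.le, ← mul_assoc, Real.log_mul hA.ne' (Real.sqrt_pos.2 hy).ne',
      Real.log_sqrt hy.le]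
  have hyp : ((y ^ (5 / 4 - j / 2 : ℝ) : ℝ) : ℂ) = cexp ((Real.log y : ℝ) * (5 / 4 - j / 2)) := by
    rw [Real.rpow_def_of_pos hy, ofReal_exp]
    push_cast
    rfl
  have hG : (-2 * (-(3 / 8) + t * I) - 3 / 2 - j : ℂ) =
      ((-(3 / 4) - j : ℝ) : ℂ) + ((-2 * t : ℝ) : ℂ) * I := by
    push_cast
    ring
  unfold Mf
  rw [hG, MB5_cpow hA, MB5_cpow hA, MB5_cpow hB, MB5_cpow hy, hyp, hlog]
  generalize Gamma _ = G
  have key : cexp (-(π * I * (-(3 / 8) + t * I))) *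
      cexp ((Real.log (4 * π * √κ) : ℝ) * (2 * (-(3 / 8) + t * I))) *
      cexp ((Real.log y : ℝ) * (-(3 / 8) + t * I + 2)) =
      cexp (I * π * (3 / 2 + j) / 2) * cexp ((Real.log (4 * π * √κ) : ℝ) * (-(3 / 2 + j))) *
        cexp ((Real.log y : ℝ) * (5 / 4 - j / 2)) *
        cexp (I * π * (((-(3 / 4) - j : ℝ) : ℂ) + ((-2 * t : ℝ) : ℂ) * I) / 2) *
        cexp (((Real.log (4 * π * √κ) + Real.log y / 2 : ℝ) : ℂ) *
          (-(((-(3 / 4) - j : ℝ) : ℂ) + ((-2 * t : ℝ) : ℂ) * I))) := by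
    rw [← exp_add, ← exp_add, ← exp_add, ← exp_add, ← exp_add, ← exp_add]
    congr 1
    push_cast
    ring
  linear_combination G * key

/-- the transform for both values of `j` -/
private theorem MB5_trans {κ y c : ℝ} {W : ℂ} (hκ : 0 < κ) (hy : 0 < y) (j : ℕ)
    (hc : c = -(3 / 4) - j)
    (h : Integrable (fun v : ℝ => Gamma (c + v * I) * cexp (I * π * (c + v * I) / 2) *
      ((4 * π * √(κ * y) : ℝ) : ℂ) ^ (-(c + v * I : ℂ))) ∧
    (1 / (2 * π) : ℂ) * ∫ v : ℝ, Gamma (c + v * I) * cexp (I * π * (c + v * I) / 2) *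
      ((4 * π * √(κ * y) : ℝ) : ℂ) ^ (-(c + v * I : ℂ)) = W) :
    Integrable (fun t : ℝ => Mf κ j (-(3 / 8) + t * I) * (y : ℂ) ^ (-(3 / 8) + t * I + 2 : ℂ)) ∧
    (1 / (2 * π) : ℂ) * ∫ t : ℝ, Mf κ j (-(3 / 8) + t * I) *
      (y : ℂ) ^ (-(3 / 8) + t * I + 2 : ℂ) =
      (1 / 2 * (cexp (I * π * (3 / 2 + j) / 2) * ((4 * π * √κ : ℝ) : ℂ) ^ (-(3 / 2 + j) : ℂ))) *
        ((y ^ (5 / 4 - j / 2 : ℝ) : ℝ) : ℂ) * W := by
  obtain ⟨h1, h2⟩ := h
  set g : ℝ → ℂ := fun v : ℝ => Gamma (c + v * I) * cexp (I * π * (c + v * I) / 2) *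
      ((4 * π * √(κ * y) : ℝ) : ℂ) ^ (-(c + v * I : ℂ)) with hg
  set K : ℂ := cexp (I * π * (3 / 2 + j) / 2) * ((4 * π * √κ : ℝ) : ℂ) ^ (-(3 / 2 + j) : ℂ) with hK
  have e : (fun t : ℝ => Mf κ j (-(3 / 8) + t * I) * (y : ℂ) ^ (-(3 / 8) + t * I + 2 : ℂ)) =
      fun t : ℝ => K * ((y ^ (5 / 4 - j / 2 : ℝ) : ℝ) : ℂ) * g (-2 * t) := by
    funext t
    rw [MB5_eq hκ hy j t, hg, hc]
  rw [e]
  refine ⟨(h1.comp_mul_left' (by norm_num)).const_mul _, ?_⟩
  have e2 : ∫ t : ℝ, K * ((y ^ (5 / 4 - j / 2 : ℝ) : ℝ) : ℂ) * g (-2 * t) =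
      K * ((y ^ (5 / 4 - j / 2 : ℝ) : ℝ) : ℂ) * ((1 / 2 : ℂ) * ∫ v, g v) := by
    rw [integral_const_mul, Measure.integral_comp_mul_left g (-2), real_smul]
    congr 2
    norm_num
  rw [e2, ← h2]
  ring

/-- **MB5.** `(1/2πi) ∫_{(-3/8)} M_0(s) y^{s+2} ds = C_0 y^{5/4} (e^{iZ} - 1)`, `Z = 4π√(κy)`:
put `w = -2s - 3/2`. -/
theorem Mf_zero_transform {κ : ℝ} (hκ : 0 < κ) : ∃ C0 : ℂ, C0 ≠ 0 ∧ ∀ y : ℝ, 0 < y →
    Integrable (fun t : ℝ => Mf κ 0 (-(3 / 8) + t * I) * (y : ℂ) ^ (-(3 / 8) + t * I + 2 : ℂ)) ∧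
    (1 / (2 * π) : ℂ) * ∫ t : ℝ, Mf κ 0 (-(3 / 8) + t * I) *
      (y : ℂ) ^ (-(3 / 8) + t * I + 2 : ℂ) =
      C0 * ((y ^ (5 / 4 : ℝ) : ℝ) : ℂ) * (cexp (I * (4 * π * √(κ * y) : ℝ)) - 1) := by
  refine ⟨1 / 2 * (cexp (I * π * (3 / 2 + (0:ℕ)) / 2) * ((4 * π * √κ : ℝ) : ℂ) ^ (-(3 / 2 + (0:ℕ)) : ℂ)),
    ?_, ?_⟩
  · have hA : 0 < 4 * π * √κ := by have := Real.sqrt_pos.2 hκ; positivity
    refine mul_ne_zero (by norm_num) (mul_ne_zero (exp_ne_zero _) ?_)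
    rw [MB5_cpow hA]
    exact exp_ne_zero _
  · intro y hy
    have hB : 0 < 4 * π * √(κ * y) := by have := Real.sqrt_pos.2 (mul_pos hκ hy); positivity
    have h := MB5_trans hκ hy 0 (c := -(3 / 4)) (by norm_num)
      (mellinBarnes_one (c := -(3 / 4)) (by norm_num) (by norm_num) hB)
    have e : (5 / 4 - ((0:ℕ):ℝ) / 2 : ℝ) = 5 / 4 := by norm_num
    rw [e] at h
    exact h
--END MB5

--BEGIN MB6
/-- **MB6.** The same for `M_1`: `C_1 y^{3/4} (e^{iZ} - 1 - iZ)`. -/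
theorem Mf_one_transform {κ : ℝ} (hκ : 0 < κ) : ∃ C1 : ℂ, ∀ y : ℝ, 0 < y →
    Integrable (fun t : ℝ => Mf κ 1 (-(3 / 8) + t * I) * (y : ℂ) ^ (-(3 / 8) + t * I + 2 : ℂ)) ∧
    (1 / (2 * π) : ℂ) * ∫ t : ℝ, Mf κ 1 (-(3 / 8) + t * I) *
      (y : ℂ) ^ (-(3 / 8) + t * I + 2 : ℂ) =
      C1 * ((y ^ (3 / 4 : ℝ) : ℝ) : ℂ) * (cexp (I * (4 * π * √(κ * y) : ℝ)) - 1 -
        I * (4 * π * √(κ * y) : ℝ)) := by
  refine ⟨1 / 2 * (cexp (I * π * (3 / 2 + (1:ℕ)) / 2) * ((4 * π * √κ : ℝ) : ℂ) ^ (-(3 / 2 + (1:ℕ)) : ℂ)),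
    ?_⟩
  intro y hy
  have hB : 0 < 4 * π * √(κ * y) := by have := Real.sqrt_pos.2 (mul_pos hκ hy); positivity
  have h := MB5_trans hκ hy 1 (c := -(7 / 4)) (by norm_num)
    (mellinBarnes_two (c := -(7 / 4)) (by norm_num) (by norm_num) hB)
  have e : (5 / 4 - ((1:ℕ):ℝ) / 2 : ℝ) = 3 / 4 := by norm_num
  rw [e] at h
  exact h
--END MB6

/-! ### Perron and the shift -/

variable {a : ℕ → ℝ} {L : ℂ → ℂ}

--BEGIN VO1
private noncomputable def VO1_f (x : ℝ) : ℂ := ((1 / 2 * (max (1 - x) 0) ^ 2 : ℝ) : ℂ)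

private theorem VO1_cont : Continuous VO1_f := by
  unfold VO1_f; fun_prop

private theorem VO1_eq {s : ℂ} {x : ℝ} (hx : 0 < x) (hx1 : x ≤ 1) :
    (x : ℂ) ^ (s - 1) • VO1_f x =
      1 / 2 * ((x : ℂ) ^ (s - 1) - 2 * (x : ℂ) ^ s + (x : ℂ) ^ (s + 1)) := by
  have hx0 : (x : ℂ) ≠ 0 := ofReal_ne_zero.2 hx.ne'
  have h1 : (x : ℂ) ^ s = (x : ℂ) ^ (s - 1) * x := by
    conv_lhs => rw [show s = (s - 1) + 1 by ring]
    rw [cpow_add _ _ hx0, cpow_one]
  have h2 : (x : ℂ) ^ (s + 1) = (x : ℂ) ^ (s - 1) * x * x := by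
    rw [cpow_add _ _ hx0, cpow_one, h1]
  rw [VO1_f, max_eq_left (by linarith), h2, h1, smul_eq_mul]
  push_cast
  ring

private theorem VO1_ii {r : ℂ} (hr : -1 < r.re) :
    IntervalIntegrable (fun x : ℝ => (x : ℂ) ^ r) volume 0 1 :=
  intervalIntegral.intervalIntegrable_cpow' hr

private theorem VO1_conv {s : ℂ} (hs : 0 < s.re) : MellinConvergent VO1_f s := by
  rw [MellinConvergent, ← Ioc_union_Ioi_eq_Ioi zero_le_one]
  refine IntegrableOn.union ?_ ?_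
  · have h1 : IntegrableOn (fun x : ℝ => 1 / 2 * ((x : ℂ) ^ (s - 1) - 2 * (x : ℂ) ^ s +
        (x : ℂ) ^ (s + 1))) (Ioc 0 1) := by
      refine (intervalIntegrable_iff_integrableOn_Ioc_of_le zero_le_one).1 ?_
      exact (((VO1_ii (by simp; linarith)).sub ((VO1_ii (by linarith)).const_mul 2)).add
        (VO1_ii (by simp; linarith))).const_mul (1 / 2)
    exact h1.congr_fun (fun x hx => (VO1_eq hx.1 hx.2).symm) measurableSet_Ioc
  · have h0 : IntegrableOn (fun _ : ℝ => (0:ℂ)) (Ioi 1) := integrable_zero _ _ _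
    refine h0.congr_fun ?_ measurableSet_Ioi
    intro x hx
    simp only [VO1_f]
    rw [max_eq_right (by linarith [mem_Ioi.1 hx])]
    simp

private theorem VO1_mellin {s : ℂ} (hs : 0 < s.re) : mellin VO1_f s = 1 / (s * (s + 1) * (s + 2)) := by
  have hc := VO1_conv hs
  rw [MellinConvergent] at hc
  have hI1 := hc.mono_set (show Ioc (0:ℝ) 1 ⊆ Ioi 0 from Ioc_subset_Ioi_self)
  have hI2 := hc.mono_set (Ioi_subset_Ioi (zero_le_one (α := ℝ)))
  have hd : Disjoint (Ioc (0:ℝ) 1) (Ioi 1) := by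
    rw [Set.disjoint_left]
    intro x hx hx'
    exact not_lt.2 hx.2 hx'
  rw [mellin, ← Ioc_union_Ioi_eq_Ioi zero_le_one, setIntegral_union hd measurableSet_Ioi hI1 hI2]
  have e1 : ∫ t in Ioi (1:ℝ), (t : ℂ) ^ (s - 1) • VO1_f t = 0 := by
    rw [setIntegral_congr_fun (g := fun _ => (0:ℂ)) measurableSet_Ioi]
    · simp
    · intro x hx
      simp only [VO1_f]
      rw [max_eq_right (by linarith [mem_Ioi.1 hx])]
      simp
  have e2 : ∫ t in Ioc (0:ℝ) 1, (t : ℂ) ^ (s - 1) • VO1_f t =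
      ∫ t in (0:ℝ)..1, 1 / 2 * ((t : ℂ) ^ (s - 1) - 2 * (t : ℂ) ^ s + (t : ℂ) ^ (s + 1)) := by
    rw [intervalIntegral.integral_of_le zero_le_one]
    exact setIntegral_congr_fun measurableSet_Ioc fun x hx => VO1_eq hx.1 hx.2
  have i1 : IntervalIntegrable (fun x : ℝ => (x : ℂ) ^ (s - 1)) volume 0 1 := VO1_ii (by simp; linarith)
  have i2 : IntervalIntegrable (fun x : ℝ => 2 * (x : ℂ) ^ s) volume 0 1 :=
    (VO1_ii (by linarith)).const_mul 2
  have i3 : IntervalIntegrable (fun x : ℝ => (x : ℂ) ^ (s + 1)) volume 0 1 := VO1_ii (by simp; linarith)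
  have hne : ∀ m : ℕ, s + m ≠ 0 := by
    intro m h
    have := congrArg re h
    simp at this
    have h2 : (0:ℝ) ≤ m := Nat.cast_nonneg m
    linarith
  have h0 : s ≠ 0 := by simpa using hne 0
  have h1 : s + 1 ≠ 0 := by simpa using hne 1
  have h2 : s + 2 ≠ 0 := by simpa using hne 2
  rw [e1, e2, add_zero, intervalIntegral.integral_const_mul,
    intervalIntegral.integral_add (i1.sub i2) i3, intervalIntegral.integral_sub i1 i2,
    intervalIntegral.integral_const_mul, integral_cpow (Or.inl (by simp; linarith)),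
    integral_cpow (Or.inl (by linarith)), integral_cpow (Or.inl (by simp; linarith))]
  have e3 : s - 1 + 1 = s := by ring
  have e4 : s + 1 + 1 = s + 2 := by ring
  rw [e3, e4]
  simp only [ofReal_one, one_cpow, ofReal_zero]
  rw [zero_cpow h0, zero_cpow h1, zero_cpow h2]
  field_simp
  ring

private theorem VO1_vert : Integrable (fun v : ℝ => mellin VO1_f ((2:ℝ) + v * I)) := by
  have hm : ∀ v : ℝ, mellin VO1_f ((2:ℝ) + v * I) =
      1 / (((2:ℝ) + v * I : ℂ) * ((2:ℝ) + v * I + 1) * ((2:ℝ) + v * I + 2)) :=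
    fun v => VO1_mellin (by simp)
  simp only [hm]
  have hne : ∀ (m : ℕ) (v : ℝ), ((2:ℝ) + v * I + m : ℂ) ≠ 0 := by
    intro m v h
    have := congrArg re h
    simp at this
    have h2 : (0:ℝ) ≤ m := Nat.cast_nonneg m
    linarith
  have hn : ∀ (m : ℕ) (v : ℝ), 1 + v ^ 2 ≤ ‖((2:ℝ) + v * I + m : ℂ)‖ ^ 2 := by
    intro m v
    rw [← normSq_eq_norm_sq, normSq_apply]
    simp
    nlinarith [Nat.cast_nonneg (α := ℝ) m]
  refine Integrable.mono' (integrable_inv_one_add_sq) ?_ (Eventually.of_forall fun v => ?_)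
  · refine Continuous.aestronglyMeasurable ?_
    refine continuous_const.div (by fun_prop) ?_
    intro v
    have h0 := hne 0 v; have h1 := hne 1 v; have h2 := hne 2 v
    push_cast at h0 h1 h2
    rw [add_zero] at h0
    push_cast
    exact mul_ne_zero (mul_ne_zero h0 h1) h2
  · have h0 := hn 0 v; have h1 := hn 1 v; have h2 := hn 2 v
    push_cast at h0 h1 h2
    rw [add_zero] at h0
    push_cast
    rw [norm_div, norm_mul, norm_mul, norm_one, one_div]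
    refine inv_anti₀ (by positivity) ?_
    set a := ‖(2 + v * I : ℂ)‖
    set b := ‖(2 + v * I + 1 : ℂ)‖
    set c := ‖(2 + v * I + 2 : ℂ)‖
    have hs : 0 < 1 + v ^ 2 := by positivity
    have ha : √(1 + v ^ 2) ≤ a := Real.sqrt_le_left (norm_nonneg _) |>.2 h0
    have hb : √(1 + v ^ 2) ≤ b := Real.sqrt_le_left (norm_nonneg _) |>.2 h1
    have hc : 1 ≤ c := by
      have : 1 ≤ c ^ 2 := by nlinarith [sq_nonneg v]
      nlinarith [norm_nonneg (2 + v * I + 2 : ℂ)]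
    have h3 : 1 + v ^ 2 = √(1 + v ^ 2) * √(1 + v ^ 2) := (Real.mul_self_sqrt hs.le).symm
    calc 1 + v ^ 2 = √(1 + v ^ 2) * √(1 + v ^ 2) * 1 := by rw [mul_one]; exact h3
      _ ≤ a * b * c := by
        refine mul_le_mul (mul_le_mul ha hb (Real.sqrt_nonneg _) (norm_nonneg _)) hc zero_le_one
          (mul_nonneg (norm_nonneg _) (norm_nonneg _))

/-- **VO1.** `(1/2)(1 - u)²_+ = (1/2πi) ∫_{(2)} u^{-s}/(s(s+1)(s+2)) ds`. -/
theorem perron_kernel {u : ℝ} (hu : 0 < u) :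
    (1 / (2 * π) : ℂ) * ∫ t : ℝ, (u : ℂ) ^ (-(2 + t * I : ℂ)) /
      ((2 + t * I) * (2 + t * I + 1) * (2 + t * I + 2)) =
    ((1 / 2 * (max (1 - u) 0) ^ 2 : ℝ) : ℂ) := by
  have h := mellinInv_mellin_eq 2 VO1_f hu (VO1_conv (by simp)) VO1_vert VO1_cont.continuousAt
  rw [mellinInv, real_smul] at h
  have e : VO1_f u = ((1 / 2 * (max (1 - u) 0) ^ 2 : ℝ) : ℂ) := rfl
  rw [← e, ← h]
  push_cast
  congr 1
  refine integral_congr_ae (Eventually.of_forall fun v => ?_)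
  have h2 : mellin VO1_f ((2:ℝ) + v * I) =
      1 / (((2:ℝ) + v * I : ℂ) * ((2:ℝ) + v * I + 1) * ((2:ℝ) + v * I + 2)) := VO1_mellin (by simp)
  push_cast at h2
  simp only [smul_eq_mul]
  rw [h2]
  ring
--END VO1

--BEGIN VO2
private theorem VO2_ne (t : ℝ) : (2 + t * I : ℂ) * (2 + t * I + 1) * (2 + t * I + 2) ≠ 0 := by
  have h : ∀ c : ℝ, 0 < c → (c + t * I : ℂ) ≠ 0 := by
    intro c hc h0
    have := congrArg Complex.re h0
    simp at this
    exact hc.ne' this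
  have h1 := h 2 (by norm_num)
  have h2 := h 3 (by norm_num)
  have h3 := h 4 (by norm_num)
  push_cast at h1 h2 h3
  refine mul_ne_zero (mul_ne_zero h1 ?_) ?_
  · have e : (2 + t * I + 1 : ℂ) = 3 + t * I := by ring
    rw [e]
    exact h2
  · have e : (2 + t * I + 2 : ℂ) = 4 + t * I := by ring
    rw [e]
    exact h3

private theorem VO2_den (t : ℝ) :
    ‖(2 + t * I : ℂ) * (2 + t * I + 1) * (2 + t * I + 2)‖⁻¹ ≤ (1 + t ^ 2)⁻¹ := by
  refine inv_anti₀ (by positivity) ?_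
  have h : ∀ c : ℝ, ‖(c + t * I : ℂ)‖ ^ 2 = c ^ 2 + t ^ 2 := by
    intro c
    rw [← Complex.normSq_eq_norm_sq, Complex.normSq_add_mul_I]
  have e1 : (2 + t * I : ℂ) = ((2 : ℝ) : ℂ) + t * I := by push_cast; ring
  have e2 : (2 + t * I + 1 : ℂ) = ((3 : ℝ) : ℂ) + t * I := by push_cast; ring
  have e3 : (2 + t * I + 2 : ℂ) = ((4 : ℝ) : ℂ) + t * I := by push_cast; ring
  rw [norm_mul, norm_mul, e2, e3, e1]
  have h1 := h 2
  have h2 := h 3
  have h3 := h 4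
  have n1 := norm_nonneg (((2 : ℝ) : ℂ) + t * I)
  have n2 := norm_nonneg (((3 : ℝ) : ℂ) + t * I)
  have n3 := norm_nonneg (((4 : ℝ) : ℂ) + t * I)
  generalize ‖((2 : ℝ) : ℂ) + t * I‖ = A at h1 n1 ⊢
  generalize ‖((3 : ℝ) : ℂ) + t * I‖ = B at h2 n2 ⊢
  generalize ‖((4 : ℝ) : ℂ) + t * I‖ = D at h3 n3 ⊢
  have hB : A ≤ B := by
    apply le_of_sq_le_sq _ n2
    nlinarith
  have hD : 1 ≤ D := by nlinarith
  have h4 : A * A ≤ A * B := mul_le_mul_of_nonneg_left hB n1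
  have h5 : 0 ≤ A * B := mul_nonneg n1 n2
  nlinarith

/-- **VO2.** -/
theorem perron_sum (h : RealSelberg a L 2) {x : ℝ} (hx : 0 < x) :
    ((1 / 2 * ∑ n ∈ Finset.Icc 1 ⌊x⌋₊, a n * (x - n) ^ 2 : ℝ) : ℂ) =
    (1 / (2 * π) : ℂ) * ∫ t : ℝ, L (2 + t * I) * (x : ℂ) ^ (2 + t * I + 2 : ℂ) /
      ((2 + t * I) * (2 + t * I + 1) * (2 + t * I + 2)) := by
  have hxc : (x : ℂ) ≠ 0 := Complex.ofReal_ne_zero.2 hx.ne'
  -- the terms
  set T : ℕ → ℝ → ℂ := fun n t => LSeries.term (fun n => (a n : ℂ)) (2 + t * I) n *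
    (x : ℂ) ^ (2 + t * I + 2 : ℂ) / ((2 + t * I) * (2 + t * I + 1) * (2 + t * I + 2)) with hT
  have hre : ∀ t : ℝ, (2 + t * I : ℂ).re = 2 := by intro t; simp
  have hsum2 : LSeriesSummable (fun n => (a n : ℂ)) 2 := (h.series 2 (by norm_num)).1
  have hLs : ∀ t : ℝ, L (2 + t * I) * (x : ℂ) ^ (2 + t * I + 2 : ℂ) /
      ((2 + t * I) * (2 + t * I + 1) * (2 + t * I + 2)) = ∑' n, T n t := by
    intro t
    have h1 := (h.series (2 + t * I) (by rw [hre]; norm_num)).2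
    rw [h1, hT]
    simp only [LSeries]
    rw [← tsum_mul_right, ← tsum_div_const]
  have hK : ∀ t : ℝ, ‖(x : ℂ) ^ (2 + t * I + 2 : ℂ) /
      ((2 + t * I) * (2 + t * I + 1) * (2 + t * I + 2))‖ ≤ x ^ (4 : ℝ) * (1 + t ^ 2)⁻¹ := by
    intro t
    rw [norm_div, Complex.norm_cpow_eq_rpow_re_of_pos hx, div_eq_mul_inv]
    have h1 : (2 + t * I + 2 : ℂ).re = 4 := by simp; norm_num
    rw [h1]
    refine mul_le_mul_of_nonneg_left ?_ (Real.rpow_nonneg hx.le _)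
    exact VO2_den t
  have hTn : ∀ n t, ‖T n t‖ ≤ ‖LSeries.term (fun n => (a n : ℂ)) 2 n‖ *
      (x ^ (4 : ℝ) * (1 + t ^ 2)⁻¹) := by
    intro n t
    rw [hT]
    simp only []
    rw [mul_div_assoc, norm_mul]
    refine mul_le_mul (le_of_eq ?_) (hK t) (norm_nonneg _) (norm_nonneg _)
    rw [LSeries.norm_term_eq, LSeries.norm_term_eq, hre]
    rfl
  have hint0 : Integrable (fun t : ℝ => x ^ (4 : ℝ) * (1 + t ^ 2)⁻¹) :=
    integrable_inv_one_add_sq.const_mul _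
  have hcont : ∀ n, Continuous (T n) := by
    intro n
    rw [hT]
    simp only []
    rcases eq_or_ne n 0 with rfl | hn
    · simp only [LSeries.term_zero, zero_mul, zero_div]
      exact continuous_const
    · have hn' : (n : ℂ) ≠ 0 := Nat.cast_ne_zero.2 hn
      simp only [LSeries.term_of_ne_zero hn]
      refine Continuous.div ?_ (by fun_prop) (fun t => VO2_ne t)
      refine Continuous.mul (Continuous.div continuous_const ?_ ?_) ?_
      · exact Continuous.const_cpow (by fun_prop) (Or.inl hn')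
      · intro t
        rw [Ne, Complex.cpow_eq_zero_iff]
        exact fun h => hn' h.1
      · exact Continuous.const_cpow (by fun_prop) (Or.inl hxc)
  have hTint : ∀ n, Integrable (T n) := fun n =>
    (hint0.const_mul ‖LSeries.term (fun n => (a n : ℂ)) 2 n‖).mono'
      (hcont n).aestronglyMeasurable (Filter.Eventually.of_forall fun t => hTn n t)
  have hTsum : Summable fun n => ∫ t, ‖T n t‖ := by
    have h2 : Summable fun n => ‖LSeries.term (fun n => (a n : ℂ)) 2 n‖ *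
        ∫ t : ℝ, x ^ (4 : ℝ) * (1 + t ^ 2)⁻¹ := hsum2.norm.mul_right _
    refine Summable.of_nonneg_of_le (fun n => integral_nonneg fun t => norm_nonneg _)
      (fun n => ?_) h2
    rw [← integral_const_mul]
    exact integral_mono (hTint n).norm (hint0.const_mul _) (fun t => hTn n t)
  have hmain := hasSum_integral_of_summable_integral_norm hTint hTsum
  -- the single integrals
  have hone : ∀ n : ℕ, (1 / (2 * π) : ℂ) * ∫ t, T n t =
      ((if n = 0 then 0 else 1 / 2 * (a n * (max (x - n) 0) ^ 2) : ℝ) : ℂ) := by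
    intro n
    rcases eq_or_ne n 0 with rfl | hn
    · rw [hT]
      simp
    · have hn0 : (0 : ℝ) < n := Nat.cast_pos.2 (Nat.pos_of_ne_zero hn)
      have hu : 0 < (n : ℝ) / x := div_pos hn0 hx
      have h3 : ∀ t : ℝ, T n t = ((a n * x ^ 2 : ℝ) : ℂ) * ((((n : ℝ) / x : ℝ) : ℂ) ^ (-(2 + t * I : ℂ)) /
          ((2 + t * I) * (2 + t * I + 1) * (2 + t * I + 2))) := by
        intro t
        rw [hT]
        simp only []
        rw [LSeries.term_of_ne_zero hn, Complex.cpow_neg, Complex.ofReal_div,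
          Complex.div_cpow_ofReal_nonneg hn0.le hx.le]
        have h5 : (x : ℂ) ^ (2 + t * I + 2 : ℂ) = (x : ℂ) ^ (2 + t * I : ℂ) * (x : ℂ) ^ 2 := by
          rw [Complex.cpow_add _ _ hxc]
          norm_cast
        rw [h5]
        have h6 : ((n : ℝ) : ℂ) = (n : ℂ) := by simp
        rw [h6]
        have h7 : (x : ℂ) ^ (2 + t * I : ℂ) ≠ 0 := by
          rw [Ne, Complex.cpow_eq_zero_iff]
          exact fun h => hxc h.1
        have h8 : (n : ℂ) ^ (2 + t * I : ℂ) ≠ 0 := by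
          rw [Ne, Complex.cpow_eq_zero_iff]
          exact fun h => (Nat.cast_ne_zero.2 hn) h.1
        push_cast
        field_simp
      simp only [h3]
      rw [integral_const_mul, mul_left_comm, perron_kernel hu, if_neg hn, ← Complex.ofReal_mul]
      congr 1
      have h9 : max (x - n) 0 = x * max (1 - n / x) 0 := by
        rw [mul_max_of_nonneg _ _ hx.le, mul_zero]
        congr 1
        field_simp
      rw [h9]
      ring
  have hsum := hmain.mul_left (1 / (2 * π) : ℂ)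
  simp only [hone] at hsum
  have hfin : HasSum (fun n : ℕ => ((if n = 0 then 0 else 1 / 2 * (a n * (max (x - n) 0) ^ 2) : ℝ) : ℂ))
      ((1 / 2 * ∑ n ∈ Finset.Icc 1 ⌊x⌋₊, a n * (x - n) ^ 2 : ℝ) : ℂ) := by
    have h10 : ((1 / 2 * ∑ n ∈ Finset.Icc 1 ⌊x⌋₊, a n * (x - n) ^ 2 : ℝ) : ℂ)
        = ∑ n ∈ Finset.Icc 1 ⌊x⌋₊,
          ((if n = 0 then 0 else 1 / 2 * (a n * (max (x - n) 0) ^ 2) : ℝ) : ℂ) := by
      rw [Finset.mul_sum, Complex.ofReal_sum]
      refine Finset.sum_congr rfl fun n hn => ?_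
      obtain ⟨h11, h12⟩ := Finset.mem_Icc.1 hn
      have h13 : (n : ℝ) ≤ x := (Nat.le_floor_iff hx.le).1 h12
      rw [if_neg (by omega), max_eq_left (by linarith)]
    rw [h10]
    refine hasSum_sum_of_ne_finset_zero fun n hn => ?_
    rcases Nat.eq_zero_or_pos n with rfl | hn0
    · simp
    · have h14 : x < n := by
        by_contra hc
        push Not at hc
        exact hn (Finset.mem_Icc.2 ⟨hn0, Nat.le_floor hc⟩)
      rw [if_neg hn0.ne', max_eq_right (by linarith)]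
      simp
  rw [hfin.unique hsum]
  congr 1
  exact integral_congr_ae (Filter.Eventually.of_forall fun t => (hLs t).symm)
--END VO2

--BEGIN VO3
private theorem VO3_poly (A : ℝ) : ∃ E : ℝ, ∀ u v : ℝ, 0 ≤ u → u ≤ 2 + v →
    A * (1 + u) ^ A ≤ E * Real.exp v := by
  rcases le_or_gt A 0 with hA | hA
  · refine ⟨0, fun u v hu _ => ?_⟩
    have h1 : 0 ≤ (1 + u) ^ A := Real.rpow_nonneg (by linarith) _
    nlinarith
  · obtain ⟨n, hn⟩ := exists_nat_ge A
    refine ⟨A * ((n.factorial : ℝ) * Real.exp 3), fun u v hu huv => ?_⟩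
    have h1 : (1 + u) ^ A ≤ (1 + u) ^ (n : ℝ) :=
      Real.rpow_le_rpow_of_exponent_le (by linarith) hn
    rw [Real.rpow_natCast] at h1
    have h2 := Real.pow_div_factorial_le_exp (x := 1 + u) (by linarith) n
    rw [div_le_iff₀ (by positivity)] at h2
    have h3 : Real.exp (1 + u) ≤ Real.exp 3 * Real.exp v := by
      rw [← Real.exp_add]
      exact Real.exp_le_exp.2 (by linarith)
    have h4 : (0 : ℝ) < n.factorial := by positivity
    calc A * (1 + u) ^ A ≤ A * (Real.exp (1 + u) * n.factorial) :=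
          mul_le_mul_of_nonneg_left (h1.trans h2) hA.le
      _ ≤ A * (Real.exp 3 * Real.exp v * n.factorial) :=
          mul_le_mul_of_nonneg_left (mul_le_mul_of_nonneg_right h3 h4.le) hA.le
      _ = _ := by ring

/-- **VO3.** Phragmen-Lindelof: `|L(s)| ≪ |t|^{7/4}` for `-3/8 ≤ Re s ≤ 2`. -/
theorem L_growth (h : RealSelberg a L 2) : ∃ C : ℝ, 0 < C ∧ ∀ s : ℂ, -(3 / 8) ≤ s.re →
    s.re ≤ 2 → 1 ≤ |s.im| → ‖L s‖ ≤ C * |s.im| ^ (7 / 4 : ℝ) := by
  obtain ⟨Q, r, lam, mu, w, hf⟩ := exists_fun2 h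
  obtain ⟨C1, hC1, hX⟩ := Xf_bound h hf
  obtain ⟨m, G, A, hGd, hG, hGb⟩ := h.continuation
  -- bounds for the Dirichlet series
  have hser : ∀ σ : ℝ, 1 < σ → ∃ B : ℝ, 0 < B ∧ ∀ s : ℂ, s.re = σ → ‖L s‖ ≤ B := by
    intro σ hσ
    have h1 : LSeriesSummable (fun n => (a n : ℂ)) (σ : ℂ) := (h.series σ (by simpa using hσ)).1
    refine ⟨∑' n, ‖LSeries.term (fun n => (a n : ℂ)) (σ : ℂ) n‖ + 1, ?_, fun s hs => ?_⟩
    · have : 0 ≤ ∑' n, ‖LSeries.term (fun n => (a n : ℂ)) (σ : ℂ) n‖ :=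
        tsum_nonneg fun n => norm_nonneg _
      linarith
    · rw [(h.series s (by rw [hs]; exact hσ)).2]
      have h2 : ∀ n, ‖LSeries.term (fun n => (a n : ℂ)) s n‖
          = ‖LSeries.term (fun n => (a n : ℂ)) (σ : ℂ) n‖ := by
        intro n
        rw [LSeries.norm_term_eq, LSeries.norm_term_eq, hs, Complex.ofReal_re]
      have h3 : ‖LSeries (fun n => (a n : ℂ)) s‖
          ≤ ∑' n, ‖LSeries.term (fun n => (a n : ℂ)) s n‖ := by
        unfold LSeries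
        refine norm_tsum_le_tsum_norm ?_
        simp only [h2]
        exact h1.norm
      simp only [h2] at h3
      linarith
  obtain ⟨B2, hB2, hL2⟩ := hser 2 (by norm_num)
  obtain ⟨B1, hB1, hL1⟩ := hser (11 / 8) (by norm_num)
  set N : ℝ := m + 7 / 4 with hN
  have hN0 : 0 < N := by positivity
  -- the normalised function
  set f : ℂ → ℂ := fun s => G s * (s + 2) ^ (-(N : ℂ)) with hfdef
  have hslit : ∀ s : ℂ, -(3 / 8) ≤ s.re → s + 2 ∈ slitPlane := by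
    intro s hs
    left
    simp
    linarith
  have hne2 : ∀ s : ℂ, -(3 / 8) ≤ s.re → 1 ≤ ‖s + 2‖ := by
    intro s hs
    have h1 := (Complex.re_le_norm (s + 2))
    simp at h1
    linarith
  have hfn : ∀ s : ℂ, ‖f s‖ = ‖G s‖ * ‖s + 2‖ ^ (-N) := by
    intro s
    rw [hfdef]
    simp only []
    rw [norm_mul, ← Complex.ofReal_neg, Complex.norm_cpow_real]
  have hs12 : ∀ s : ℂ, -(3 / 8) ≤ s.re → ‖s - 1‖ ≤ ‖s + 2‖ := by
    intro s hs
    apply le_of_sq_le_sq _ (norm_nonneg _)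
    rw [← Complex.normSq_eq_norm_sq, ← Complex.normSq_eq_norm_sq, Complex.normSq_apply,
      Complex.normSq_apply]
    simp
    nlinarith
  set D : ℝ := B2 + C1 * B1 * 2 ^ (7 / 4 : ℝ) with hD
  have hD0 : 0 < D := by positivity
  have hside : ∀ s : ℂ, -(3 / 8) ≤ s.re → ∀ K : ℝ, 0 ≤ K → s ≠ 1 →
      ‖L s‖ ≤ K * ‖s + 2‖ ^ (7 / 4 : ℝ) → ‖f s‖ ≤ K := by
    intro s hs K hK hs1 hLs
    have h2 := hne2 s hs
    have h20 : 0 < ‖s + 2‖ := by linarith
    rw [hfn, hG s hs1, norm_mul, norm_pow]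
    have h3 : ‖s - 1‖ ^ m * ‖L s‖ ≤ ‖s + 2‖ ^ m * (K * ‖s + 2‖ ^ (7 / 4 : ℝ)) :=
      mul_le_mul (pow_le_pow_left₀ (norm_nonneg _) (hs12 s hs) m) hLs (norm_nonneg _)
        (by positivity)
    calc ‖s - 1‖ ^ m * ‖L s‖ * ‖s + 2‖ ^ (-N)
        ≤ ‖s + 2‖ ^ m * (K * ‖s + 2‖ ^ (7 / 4 : ℝ)) * ‖s + 2‖ ^ (-N) :=
          mul_le_mul_of_nonneg_right h3 (by positivity)
      _ = K := by
          rw [← Real.rpow_natCast, hN]
          have h4 : ‖s + 2‖ ^ (m : ℝ) * (K * ‖s + 2‖ ^ (7 / 4 : ℝ)) * ‖s + 2‖ ^ (-(m + 7 / 4 : ℝ))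
              = K * (‖s + 2‖ ^ (m : ℝ) * ‖s + 2‖ ^ (7 / 4 : ℝ) * ‖s + 2‖ ^ (-(m + 7 / 4 : ℝ))) := by
            ring
          rw [h4, ← Real.rpow_add h20, ← Real.rpow_add h20]
          have h5 : (m : ℝ) + 7 / 4 + -(m + 7 / 4) = 0 := by ring
          rw [h5, Real.rpow_zero, mul_one]
  have hright : ∀ s : ℂ, s.re = 2 → ‖f s‖ ≤ D := by
    intro s hs
    have h1 : -(3 / 8) ≤ s.re := by rw [hs]; norm_num
    have hs1 : s ≠ 1 := by
      rintro rfl
      norm_num at hs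
    refine (hside s h1 B2 hB2.le hs1 ?_).trans (by rw [hD]; linarith [show 0 ≤ C1 * B1 * (2 : ℝ) ^ (7 / 4 : ℝ) by positivity])
    refine (hL2 s hs).trans (le_mul_of_one_le_right hB2.le ?_)
    exact Real.one_le_rpow (hne2 s h1) (by norm_num)
  have hleft : ∀ s : ℂ, s.re = -(3 / 8) → ‖f s‖ ≤ D := by
    intro s hs
    have h1 : -(3 / 8) ≤ s.re := hs.ge
    have hs1 : s ≠ 1 := by
      rintro rfl
      norm_num at hs
    have hs0 : s ≠ 0 := by
      rintro rfl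
      norm_num at hs
    refine (hside s h1 (C1 * B1 * 2 ^ (7 / 4 : ℝ)) (by positivity) hs1 ?_).trans
      (by rw [hD]; linarith)
    rw [fe_left h hf (by rw [hs]; norm_num) hs0, norm_mul]
    have h2 := hX s (by rw [hs]; norm_num) hs.le
    have h3 := hL1 (1 - s) (by rw [Complex.sub_re, Complex.one_re, hs]; norm_num)
    have h4 : (1 + |s.im|) ^ (1 - 2 * s.re) ≤ (2 * ‖s + 2‖) ^ (7 / 4 : ℝ) := by
      rw [hs]
      have h5 : (1 : ℝ) - 2 * -(3 / 8) = 7 / 4 := by norm_num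
      rw [h5]
      refine Real.rpow_le_rpow (by positivity) ?_ (by norm_num)
      have h6 := hne2 s h1
      have h7 : |s.im| ≤ ‖s + 2‖ := by
        have := Complex.abs_im_le_norm (s + 2)
        simpa using this
      linarith
    calc ‖Xf Q lam mu w s‖ * ‖L (1 - s)‖ ≤ C1 * (2 * ‖s + 2‖) ^ (7 / 4 : ℝ) * B1 :=
          mul_le_mul (h2.trans (mul_le_mul_of_nonneg_left h4 hC1.le)) h3 (norm_nonneg _)
            (by positivity)
      _ = C1 * B1 * 2 ^ (7 / 4 : ℝ) * ‖s + 2‖ ^ (7 / 4 : ℝ) := by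
          rw [Real.mul_rpow (by norm_num) (norm_nonneg _)]
          ring
  -- Phragmen-Lindelof
  have hfd : ∀ s : ℂ, -(3 / 8) ≤ s.re → DifferentiableAt ℂ f s := by
    intro s hs
    have h1 : DifferentiableAt ℂ (fun s : ℂ => s + 2) s := by fun_prop
    exact (hGd s).mul (h1.cpow_const (hslit s hs))
  have hdc : DiffContOnCl ℂ f (re ⁻¹' Ioo (-(3 / 8)) 2) := by
    constructor
    · intro s hs
      exact (hfd s hs.1.le).differentiableWithinAt
    · rw [Complex.closure_preimage_re, closure_Ioo (by norm_num)]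
      intro s hs
      exact (hfd s hs.1).continuousAt.continuousWithinAt
  obtain ⟨E, hE⟩ := VO3_poly A
  have hall : ∀ s : ℂ, -(3 / 8) ≤ s.re → s.re ≤ 2 → ‖f s‖ ≤ D := by
    intro s h1 h2
    refine PhragmenLindelof.vertical_strip (a := -(3 / 8)) (b := 2) hdc ?_ hleft hright h1 h2
    refine ⟨1, ?_, E, ?_⟩
    · rw [lt_div_iff₀ (by norm_num)]
      have := Real.pi_gt_three
      norm_num
      linarith
    · apply Asymptotics.IsBigO.of_bound 1
      have h3 : ∀ᶠ z : ℂ in comap (_root_.abs ∘ im) atTop ⊓ 𝓟 (re ⁻¹' Ioo (-(3 / 8)) 2),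
          z ∈ re ⁻¹' Ioo (-(3 / 8) : ℝ) 2 :=
        Filter.mem_inf_of_right (Filter.mem_principal_self _)
      filter_upwards [h3] with z hz
      have hz1 : -(3 / 8) ≤ z.re := hz.1.le
      have hz2 : z.re ≤ 2 := hz.2.le
      rw [one_mul, Real.norm_eq_abs, Real.abs_exp, one_mul, hfn]
      have h4 : ‖z + 2‖ ^ (-N) ≤ 1 := Real.rpow_le_one_of_one_le_of_nonpos (hne2 z hz1) (by linarith)
      have h5 : ‖G z‖ * ‖z + 2‖ ^ (-N) ≤ Real.exp (A * (1 + ‖z‖) ^ A) :=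
        (mul_le_of_le_one_right (norm_nonneg _) h4).trans (hGb z)
      refine h5.trans (Real.exp_le_exp.2 ?_)
      refine hE ‖z‖ |z.im| (norm_nonneg _) ?_
      have h6 := Complex.norm_le_abs_re_add_abs_im z
      have h7 : |z.re| ≤ 2 := by rw [abs_le]; constructor <;> linarith
      linarith
  refine ⟨D * 5 ^ N, by positivity, fun s h1 h2 h3 => ?_⟩
  have hs1 : s ≠ 1 := by
    rintro rfl
    simp at h3
    linarith
  have h4 := hall s h1 h2
  have h5 := hne2 s h1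
  have h50 : 0 < ‖s + 2‖ := by linarith
  rw [hfn, hG s hs1, norm_mul, norm_pow, Real.rpow_neg h50.le, ← div_eq_mul_inv,
    div_le_iff₀ (by positivity)] at h4
  have ht : 0 < |s.im| := by linarith
  have h6 : |s.im| ≤ ‖s - 1‖ := by
    have := Complex.abs_im_le_norm (s - 1)
    simpa using this
  have h7 : ‖s + 2‖ ≤ 5 * |s.im| := by
    have h8 := Complex.norm_le_abs_re_add_abs_im (s + 2)
    have h9 : |(s + 2).re| ≤ 4 := by
      rw [abs_le]
      simp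
      constructor <;> linarith
    have h10 : |(s + 2).im| = |s.im| := by simp
    rw [h10] at h8
    linarith
  have h8 : |s.im| ^ m * ‖L s‖ ≤ D * 5 ^ N * |s.im| ^ (7 / 4 : ℝ) * |s.im| ^ m := by
    calc |s.im| ^ m * ‖L s‖ ≤ ‖s - 1‖ ^ m * ‖L s‖ :=
          mul_le_mul_of_nonneg_right (pow_le_pow_left₀ ht.le h6 m) (norm_nonneg _)
      _ ≤ D * ‖s + 2‖ ^ N := h4
      _ ≤ D * (5 * |s.im|) ^ N :=
          mul_le_mul_of_nonneg_left (Real.rpow_le_rpow h50.le h7 hN0.le) hD0.le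
      _ = D * 5 ^ N * |s.im| ^ (7 / 4 : ℝ) * |s.im| ^ m := by
          rw [Real.mul_rpow (by norm_num) ht.le, hN, Real.rpow_add ht, Real.rpow_natCast]
          ring
  have h9 : 0 < |s.im| ^ m := by positivity
  rw [mul_comm] at h8
  exact le_of_mul_le_mul_right h8 h9
--END VO3

--BEGIN VO4
/-- **VO4.** The shift of the line of integration from `2` to `-3/8`. -/
theorem shift_line (h : RealSelberg a L 2) {x : ℝ} (hx : 0 < x) :
    (1 / (2 * π) : ℂ) * ∫ t : ℝ, L (2 + t * I) * (x : ℂ) ^ (2 + t * I + 2 : ℂ) /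
      ((2 + t * I) * (2 + t * I + 1) * (2 + t * I + 2)) =
    (2 * π * I)⁻¹ * (∮ s in C(1, 1 / 2), L s * (x : ℂ) ^ (s + 2) / (s * (s + 1) * (s + 2))) +
      L 0 * (x : ℂ) ^ 2 / 2 +
    (1 / (2 * π) : ℂ) * ∫ t : ℝ, L (-(3 / 8) + t * I) * (x : ℂ) ^ (-(3 / 8) + t * I + 2 : ℂ) /
      ((-(3 / 8) + t * I) * (-(3 / 8) + t * I + 1) * (-(3 / 8) + t * I + 2)) := by
  have hxc : (x : ℂ) ≠ 0 := Complex.ofReal_ne_zero.2 hx.ne'
  obtain ⟨C, hC, hL⟩ := L_growth h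
  obtain ⟨m, G, A, hGd, hG, -⟩ := h.continuation
  set F : ℂ → ℂ := fun s => L s * (x : ℂ) ^ (s + 2) / (s * (s + 1) * (s + 2)) with hF
  set G1 : ℂ → ℂ := fun s => G s * (x : ℂ) ^ (s + 2) / ((s + 1) * (s + 2)) with hG1
  have hne : ∀ s : ℂ, -(3 / 8) ≤ s.re → (s + 1) * (s + 2) ≠ 0 := by
    intro s hs
    refine mul_ne_zero ?_ ?_
    · intro h0
      have := congrArg Complex.re h0
      simp at this
      linarith
    · intro h0
      have := congrArg Complex.re h0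
      simp at this
      linarith
  have hmax : ∀ s : ℂ, -(3 / 8) ≤ s.re → s.re ≤ 2 → x ^ (s.re + 2) ≤ (max x 1) ^ (4 : ℝ) := by
    intro s h1 h2
    calc x ^ (s.re + 2) ≤ (max x 1) ^ (s.re + 2) :=
          Real.rpow_le_rpow hx.le (le_max_left _ _) (by linarith)
      _ ≤ (max x 1) ^ (4 : ℝ) :=
          Real.rpow_le_rpow_of_exponent_le (le_max_right _ _) (by linarith)
  have key := shift_poles (F := F) (G := G1) (σ1 := -(3 / 8)) (σ2 := 2)
    (C := C * (max x 1) ^ (4 : ℝ)) (δ := 1 / 4) m (by norm_num) (by norm_num) (by norm_num)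
    (by
      intro s h1 _
      have h3 : DifferentiableAt ℂ (fun s : ℂ => (x : ℂ) ^ (s + 2)) s :=
        DifferentiableAt.const_cpow (by fun_prop) (Or.inl hxc)
      exact ((hGd s).mul h3).div (by fun_prop) (hne s h1))
    (by
      intro s hs0 hs1
      rw [hF, hG1]
      simp only []
      rw [hG s hs1]
      have h4 : (s - 1) ^ m ≠ 0 := pow_ne_zero _ (sub_ne_zero.2 hs1)
      by_cases h5 : (s + 1) * (s + 2) = 0
      · have h6 : s * (s + 1) * (s + 2) = 0 := by rw [mul_assoc, h5, mul_zero]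
        rw [h6, h5, div_zero, div_zero, zero_div]
      · obtain ⟨h6, h7⟩ := mul_ne_zero_iff.1 h5
        field_simp)
    (by
      intro s h1 h2 h3
      have ht : 0 < |s.im| := by linarith
      rw [hF]
      simp only []
      rw [norm_div, norm_mul, norm_mul, norm_mul, Complex.norm_cpow_eq_rpow_re_of_pos hx]
      have h4 : (s + 2).re = s.re + 2 := by simp
      rw [h4]
      have h5 : ∀ c : ℝ, |s.im| ≤ ‖s + c‖ := by
        intro c
        have := Complex.abs_im_le_norm (s + c)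
        simpa using this
      have a0 : |s.im| ≤ ‖s‖ := Complex.abs_im_le_norm s
      have a1 : |s.im| ≤ ‖s + 1‖ := by simpa using h5 1
      have a2 : |s.im| ≤ ‖s + 2‖ := by simpa using h5 2
      have h6 : |s.im| ^ 3 ≤ ‖s‖ * ‖s + 1‖ * ‖s + 2‖ := by
        calc |s.im| ^ 3 = |s.im| * |s.im| * |s.im| := by ring
          _ ≤ ‖s‖ * ‖s + 1‖ * ‖s + 2‖ := by gcongr
      calc ‖L s‖ * x ^ (s.re + 2) / (‖s‖ * ‖s + 1‖ * ‖s + 2‖)
          ≤ (C * |s.im| ^ (7 / 4 : ℝ)) * (max x 1) ^ (4 : ℝ) / |s.im| ^ 3 := by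
            refine div_le_div₀ (by positivity) ?_ (by positivity) h6
            exact mul_le_mul (hL s h1 h2 h3) (hmax s h1 h2) (Real.rpow_nonneg hx.le _)
              (by positivity)
        _ = C * (max x 1) ^ (4 : ℝ) * |s.im| ^ (-(1 + 1 / 4 : ℝ)) := by
            have h7 : |s.im| ^ (-(1 + 1 / 4 : ℝ)) = |s.im| ^ (7 / 4 : ℝ) / |s.im| ^ 3 := by
              rw [← Real.rpow_natCast, ← Real.rpow_sub ht]
              norm_num
            rw [h7]
            ring)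
  obtain ⟨-, -, key⟩ := key
  have h0 : G1 0 / (-1) ^ m = L 0 * (x : ℂ) ^ 2 / 2 := by
    rw [hG1]
    simp only []
    rw [hG 0 (by norm_num)]
    have h8 : (x : ℂ) ^ ((0 : ℂ) + 2) = (x : ℂ) ^ 2 := by
      rw [zero_add]
      norm_cast
    rw [h8]
    have h9 : ((-1 : ℂ)) ^ m ≠ 0 := pow_ne_zero _ (by norm_num)
    have h10 : ((0 : ℂ) - 1) ^ m = (-1) ^ m := by norm_num
    rw [h10]
    field_simp
    ring
  rw [h0] at key
  have c2 : ((2 : ℝ) : ℂ) = 2 := by norm_num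
  have c38 : ((-(3 / 8) : ℝ) : ℂ) = -(3 / 8) := by push_cast; ring
  rw [c2, c38] at key
  exact key
--END VO4

/-- The kernel `Θ(y) = (1/2πi) ∫_{(-3/8)} X(s) y^{s+2}/(s(s+1)(s+2)) ds`. -/
noncomputable def Theta (Q : ℝ) {r : ℕ} (lam : Fin r → ℝ) (mu : Fin r → ℂ) (w : ℂ) (y : ℝ) : ℂ :=
  (1 / (2 * π) : ℂ) * ∫ t : ℝ, Xf Q lam mu w (-(3 / 8) + t * I) *
    (y : ℂ) ^ (-(3 / 8) + t * I + 2 : ℂ) /
      ((-(3 / 8) + t * I) * (-(3 / 8) + t * I + 1) * (-(3 / 8) + t * I + 2))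

variable {Q : ℝ} {r : ℕ} {lam : Fin r → ℝ} {mu : Fin r → ℂ} {w : ℂ}

--BEGIN VO5
private theorem VO5_den (t : ℝ) : (3 / 16 * (1 + |t|)) ^ 3 ≤
    ‖((-(3 / 8) + t * I) * (-(3 / 8) + t * I + 1) * (-(3 / 8) + t * I + 2) : ℂ)‖ := by
  have hn : ∀ z : ℂ, (|z.re| + |z.im|) / 2 ≤ ‖z‖ := by
    intro z
    have h1 := abs_re_le_norm z
    have h2 := abs_im_le_norm z
    linarith
  have h0 : 3 / 16 * (1 + |t|) ≤ ‖(-(3 / 8) + t * I : ℂ)‖ := by
    refine le_trans ?_ (hn _)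
    have e1 : (-(3 / 8) + t * I : ℂ).re = -(3 / 8) := by simp
    have e2 : (-(3 / 8) + t * I : ℂ).im = t := by simp
    rw [e1, e2, abs_neg, abs_of_pos (by norm_num : (0 : ℝ) < 3 / 8)]
    have := abs_nonneg t
    linarith
  have h1 : 3 / 16 * (1 + |t|) ≤ ‖(-(3 / 8) + t * I + 1 : ℂ)‖ := by
    refine le_trans ?_ (hn _)
    have e1 : (-(3 / 8) + t * I + 1 : ℂ).re = 5 / 8 := by simp; norm_num
    have e2 : (-(3 / 8) + t * I + 1 : ℂ).im = t := by simp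
    rw [e1, e2, abs_of_pos (by norm_num : (0 : ℝ) < 5 / 8)]
    have := abs_nonneg t
    linarith
  have h2 : 3 / 16 * (1 + |t|) ≤ ‖(-(3 / 8) + t * I + 2 : ℂ)‖ := by
    refine le_trans ?_ (hn _)
    have e1 : (-(3 / 8) + t * I + 2 : ℂ).re = 13 / 8 := by simp; norm_num
    have e2 : (-(3 / 8) + t * I + 2 : ℂ).im = t := by simp
    rw [e1, e2, abs_of_pos (by norm_num : (0 : ℝ) < 13 / 8)]
    have := abs_nonneg t
    linarith
  have hpos : 0 ≤ 3 / 16 * (1 + |t|) := by positivity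
  rw [norm_mul, norm_mul]
  calc (3 / 16 * (1 + |t|)) ^ 3 = (3 / 16 * (1 + |t|)) * (3 / 16 * (1 + |t|)) *
        (3 / 16 * (1 + |t|)) := by ring
    _ ≤ _ := by gcongr

private theorem VO5_denne (t : ℝ) :
    ((-(3 / 8) + t * I) * (-(3 / 8) + t * I + 1) * (-(3 / 8) + t * I + 2) : ℂ) ≠ 0 := by
  intro h
  have h1 := VO5_den t
  rw [h, norm_zero] at h1
  have : 0 < (3 / 16 * (1 + |t|)) ^ 3 := by positivity
  linarith

private theorem VO5_int (h : RealSelberg a L 2) (hf : Fun2 L Q lam mu w) :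
    Integrable (fun t : ℝ => Xf Q lam mu w (-(3 / 8) + t * I) /
      ((-(3 / 8) + t * I) * (-(3 / 8) + t * I + 1) * (-(3 / 8) + t * I + 2))) := by
  obtain ⟨C, hC, hb⟩ := Xf_bound h hf
  have hre : ∀ t : ℝ, (-(3 / 8) + t * I : ℂ).re = -(3 / 8) := by intro t; simp
  have him : ∀ t : ℝ, (-(3 / 8) + t * I : ℂ).im = t := by intro t; simp
  have hcont : Continuous (fun t : ℝ => Xf Q lam mu w (-(3 / 8) + t * I)) := by
    rw [continuous_iff_continuousAt]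
    intro t
    have h1 : ContinuousAt (Xf Q lam mu w) (-(3 / 8) + t * I) :=
      (Xf_diff hf (by rw [hre]; norm_num)).continuousAt
    exact ContinuousAt.comp (f := fun t : ℝ => (-(3 / 8) + t * I : ℂ)) h1
      (by fun_prop)
  have hg : Integrable (fun t : ℝ => C * (16 / 3) ^ 3 * (1 + ‖t‖) ^ (-(5 / 4 : ℝ))) := by
    refine Integrable.const_mul ?_ _
    exact integrable_one_add_norm (by simp; norm_num)
  refine hg.mono' ?_ ?_
  · refine Continuous.aestronglyMeasurable ?_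
    exact hcont.div (by fun_prop) (fun t => VO5_denne t)
  · refine Eventually.of_forall fun t => ?_
    have h1 := hb (-(3 / 8) + t * I) (by rw [hre]; norm_num) (by rw [hre])
    rw [hre, him] at h1
    have h2 := VO5_den t
    have hp : 0 < 1 + |t| := by positivity
    rw [norm_div, Real.norm_eq_abs]
    have h3 : (1 + |t|) ^ (1 - 2 * -(3 / 8) : ℝ) =
        (1 + |t|) ^ (-(5 / 4 : ℝ)) * (1 + |t|) ^ (3 : ℕ) := by
      rw [← Real.rpow_natCast (1 + |t|) 3, ← Real.rpow_add hp]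
      congr 1
      norm_num
    calc ‖Xf Q lam mu w (-(3 / 8) + t * I)‖ /
        ‖((-(3 / 8) + t * I) * (-(3 / 8) + t * I + 1) * (-(3 / 8) + t * I + 2) : ℂ)‖
        ≤ (C * (1 + |t|) ^ (1 - 2 * -(3 / 8) : ℝ)) / (3 / 16 * (1 + |t|)) ^ 3 := by gcongr
      _ = C * (16 / 3) ^ 3 * (1 + |t|) ^ (-(5 / 4 : ℝ)) := by
        rw [h3]
        field_simp

private theorem VO5_normy {y : ℝ} (hy : 0 < y) (t : ℝ) :
    ‖(y : ℂ) ^ (-(3 / 8) + t * I + 2 : ℂ)‖ = y ^ (13 / 8 : ℝ) := by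
  rw [norm_cpow_eq_rpow_re_of_pos hy]
  congr 1
  simp
  norm_num

private theorem VO5_inty (h : RealSelberg a L 2) (hf : Fun2 L Q lam mu w) {y : ℝ} (hy : 0 < y) :
    Integrable (fun t : ℝ => Xf Q lam mu w (-(3 / 8) + t * I) *
      (y : ℂ) ^ (-(3 / 8) + t * I + 2 : ℂ) /
      ((-(3 / 8) + t * I) * (-(3 / 8) + t * I + 1) * (-(3 / 8) + t * I + 2))) := by
  have hyc : (y : ℂ) ≠ 0 := by exact_mod_cast hy.ne'
  have h1 := (VO5_int h hf).mul_bdd (g := fun t : ℝ => (y : ℂ) ^ (-(3 / 8) + t * I + 2 : ℂ))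
    (c := y ^ (13 / 8 : ℝ))
    (Continuous.aestronglyMeasurable (Continuous.const_cpow (by fun_prop) (Or.inl hyc)))
    (Eventually.of_forall fun t => (VO5_normy hy t).le)
  refine h1.congr (Eventually.of_forall fun t => ?_)
  simp only
  ring

/-- **VO5.** Insert the functional equation and the Dirichlet series. -/
theorem dual_series (h : RealSelberg a L 2) (hf : Fun2 L Q lam mu w) {x : ℝ} (hx : 0 < x) :
    Summable (fun m : ℕ => ((a m * (m : ℝ) ^ (-3 : ℝ) : ℝ) : ℂ) * Theta Q lam mu w (m * x)) ∧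
    (1 / (2 * π) : ℂ) * ∫ t : ℝ, L (-(3 / 8) + t * I) * (x : ℂ) ^ (-(3 / 8) + t * I + 2 : ℂ) /
      ((-(3 / 8) + t * I) * (-(3 / 8) + t * I + 1) * (-(3 / 8) + t * I + 2)) =
    ∑' m : ℕ, ((a m * (m : ℝ) ^ (-3 : ℝ) : ℝ) : ℂ) * Theta Q lam mu w (m * x) := by
  set D : ℝ → ℂ := fun t =>
    ((-(3 / 8) + t * I) * (-(3 / 8) + t * I + 1) * (-(3 / 8) + t * I + 2) : ℂ) with hD
  set F : ℕ → ℝ → ℂ := fun m t => ((a m * (m : ℝ) ^ (-3 : ℝ) : ℝ) : ℂ) *
    (Xf Q lam mu w (-(3 / 8) + t * I) * (((m * x : ℝ)) : ℂ) ^ (-(3 / 8) + t * I + 2 : ℂ) / D t)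
    with hF
  have hre : ∀ t : ℝ, (-(3 / 8) + t * I : ℂ).re = -(3 / 8) := by intro t; simp
  have hzero : ∀ t, F 0 t = 0 := by
    intro t
    simp only [hF]
    rw [Nat.cast_zero, Real.zero_rpow (by norm_num)]
    simp
  have hF_int : ∀ m, Integrable (F m) := by
    intro m
    rcases Nat.eq_zero_or_pos m with rfl | hm
    · have : F 0 = fun _ => 0 := funext hzero
      rw [this]
      exact integrable_zero _ _ _
    · have hm' : (0 : ℝ) < m := by exact_mod_cast hm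
      exact (VO5_inty h hf (mul_pos hm' hx)).const_mul _
  -- the norms
  set g : ℝ → ℝ := fun t => ‖Xf Q lam mu w (-(3 / 8) + t * I) / D t‖ * x ^ (13 / 8 : ℝ) with hg
  have hnorm : ∀ m t, ‖F m t‖ = |a m| * (m : ℝ) ^ (-(11 / 8) : ℝ) * g t := by
    intro m t
    rcases Nat.eq_zero_or_pos m with rfl | hm
    · rw [hzero, norm_zero, Nat.cast_zero, Real.zero_rpow (by norm_num)]
      simp
    · have hm' : (0 : ℝ) < m := by exact_mod_cast hm
      simp only [hF, hg]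
      rw [norm_mul, norm_div, norm_mul, VO5_normy (mul_pos hm' hx), norm_real, norm_mul,
        Real.norm_eq_abs, Real.norm_of_nonneg (Real.rpow_nonneg hm'.le _), norm_div,
        Real.mul_rpow hm'.le hx.le]
      have e1 : (m : ℝ) ^ (-(11 / 8) : ℝ) = (m : ℝ) ^ (-3 : ℝ) * (m : ℝ) ^ (13 / 8 : ℝ) := by
        rw [← Real.rpow_add hm']; norm_num
      rw [e1]
      ring
  have hsa : Summable (fun m : ℕ => |a m| * (m : ℝ) ^ (-(11 / 8) : ℝ)) := by
    have h1 := (h.series ((11 / 8 : ℝ) : ℂ) (by rw [ofReal_re]; norm_num)).1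
    rw [LSeriesSummable] at h1
    have h2 := h1.norm
    refine (h2.congr_cofinite ?_)
    filter_upwards [(Set.finite_singleton (0 : ℕ)).compl_mem_cofinite] with m hm
    have hm0 : m ≠ 0 := by simpa using hm
    have hm' : (0 : ℝ) < m := by exact_mod_cast Nat.pos_of_ne_zero hm0
    rw [LSeries.norm_term_eq, if_neg hm0, norm_real, Real.norm_eq_abs, ofReal_re,
      Real.rpow_neg hm'.le]
    rfl
  have hsum : Summable fun m => ∫ t, ‖F m t‖ := by
    have : (fun m => ∫ t, ‖F m t‖) = fun m => |a m| * (m : ℝ) ^ (-(11 / 8) : ℝ) * ∫ t, g t := by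
      funext m
      rw [← integral_const_mul]
      exact integral_congr_ae (Eventually.of_forall fun t => hnorm m t)
    rw [this]
    exact hsa.mul_right _
  have hHas := hasSum_integral_of_summable_integral_norm hF_int hsum
  have hterm : ∀ m, (1 / (2 * π) : ℂ) * ∫ t, F m t =
      ((a m * (m : ℝ) ^ (-3 : ℝ) : ℝ) : ℂ) * Theta Q lam mu w (m * x) := by
    intro m
    simp only [hF]
    rw [integral_const_mul, Theta]
    ring
  have hHas2 := hHas.mul_left (1 / (2 * π) : ℂ)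
  simp_rw [hterm] at hHas2
  refine ⟨hHas2.summable, ?_⟩
  rw [hHas2.tsum_eq]
  congr 1
  refine integral_congr_ae (Eventually.of_forall fun t => ?_)
  simp only
  set s : ℂ := -(3 / 8) + t * I with hs
  have hsre : s.re = -(3 / 8) := hre t
  have hs0 : s ≠ 0 := by
    rintro h0
    rw [h0] at hsre
    simp at hsre
  have h1s : 1 < (1 - s).re := by rw [sub_re, one_re, hsre]; norm_num
  have hfe := fe_left h hf (by rw [hsre]; norm_num) hs0
  obtain ⟨hsumm, hLs⟩ := h.series (1 - s) h1s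
  have hxc : (x : ℂ) ≠ 0 := by exact_mod_cast hx.ne'
  have hFt : ∀ m, F m t = Xf Q lam mu w s * (x : ℂ) ^ (s + 2) / D t *
      LSeries.term (fun n => (a n : ℂ)) (1 - s) m := by
    intro m
    rcases Nat.eq_zero_or_pos m with rfl | hm
    · rw [hzero, LSeries.term_zero, mul_zero]
    · have hm' : (0 : ℝ) < m := by exact_mod_cast hm
      have hmc : (m : ℂ) ≠ 0 := by exact_mod_cast hm.ne'
      rw [LSeries.term_of_ne_zero hm.ne']
      simp only [hF]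
      rw [← hs]
      have e1 : ((m * x : ℝ) : ℂ) ^ (s + 2) = (m : ℂ) ^ (s + 2) * (x : ℂ) ^ (s + 2) := by
        rw [ofReal_mul, mul_cpow_ofReal_nonneg hm'.le hx.le, ofReal_natCast]
      have e2 : (((m : ℝ) ^ (-3 : ℝ) : ℝ) : ℂ) = (m : ℂ) ^ (-3 : ℂ) := by
        rw [ofReal_cpow hm'.le]
        push_cast
        rfl
      have e3 : (m : ℂ) ^ (-3 : ℂ) * (m : ℂ) ^ (s + 2) * (m : ℂ) ^ (1 - s) = 1 := by
        rw [← cpow_add _ _ hmc, ← cpow_add _ _ hmc]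
        have : (-3 + (s + 2) + (1 - s) : ℂ) = 0 := by ring
        rw [this, cpow_zero]
      have e4 : (m : ℂ) ^ (1 - s) ≠ 0 := by
        rw [cpow_def_of_ne_zero hmc]; exact exp_ne_zero _
      rw [ofReal_mul, e1, e2]
      field_simp
      linear_combination (a m * Xf Q lam mu w s * (x : ℂ) ^ (s + 2) / D t) * e3
  have e5 : ∑' m, F m t = Xf Q lam mu w s * (x : ℂ) ^ (s + 2) / D t * L (1 - s) := by
    simp_rw [hFt]
    rw [tsum_mul_left, hLs, LSeries]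
  rw [e5, hfe]
  simp only [hD]
  rw [← hs]
  ring
--END VO5

/-- The remainder `Rem(s) = X(s)/(s(s+1)(s+2)) - (h0 M_0 + h1 M_1)(s) - conj((h0 M_0 + h1 M_1)(conj s))`. -/
noncomputable def Rem (Q : ℝ) {r : ℕ} (lam : Fin r → ℝ) (mu : Fin r → ℂ) (w h0 h1 : ℂ) (s : ℂ) : ℂ :=
  Xf Q lam mu w s / (s * (s + 1) * (s + 2)) -
    (h0 * Mf (kap Q lam) 0 s + h1 * Mf (kap Q lam) 1 s) -
    conj (h0 * Mf (kap Q lam) 0 (conj s) + h1 * Mf (kap Q lam) 1 (conj s))

--BEGIN VO6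
private theorem VO6_exp {t : ℝ} (ht : 1 ≤ t) : Real.exp (-(2 * π * t)) ≤ 24 * t ^ (-4 : ℝ) := by
  have h1 := Real.pow_div_factorial_le_exp t (by linarith) 4
  have h2 : Real.exp (-(2 * π * t)) ≤ Real.exp (-t) := by
    refine Real.exp_le_exp.2 ?_
    have := Real.pi_gt_three
    nlinarith
  refine h2.trans ?_
  have ht0 : 0 < t := by linarith
  have h3 : (t ^ (-4 : ℝ)) = (t ^ 4)⁻¹ := by
    rw [Real.rpow_neg ht0.le]
    congr 1
    exact_mod_cast Real.rpow_natCast t 4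
  rw [h3, Real.exp_neg, ← div_eq_mul_inv, inv_eq_one_div,
    div_le_div_iff₀ (Real.exp_pos t) (by positivity)]
  have h4 : ((4 : ℕ).factorial : ℝ) = 24 := by norm_num [Nat.factorial]
  rw [h4, div_le_iff₀ (by norm_num)] at h1
  linarith

private theorem VO6_low {κ : ℝ} (hκ : 0 < κ) (j : ℕ) : ∃ C : ℝ, 0 < C ∧ ∀ s : ℂ,
    -(3 / 4) ≤ s.re → s.re ≤ -(3 / 8) → 1 ≤ -s.im →
      ‖Mf κ j s‖ ≤ C * (-s.im) ^ (-4 - 2 * s.re) := by
  obtain ⟨C, hC, hb⟩ := Gamma_bound (2 + j)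
  set K : ℝ := 4 * π * √κ with hK
  have hK0 : 0 < K := by
    have := Real.pi_pos
    have := Real.sqrt_pos.2 hκ
    positivity
  refine ⟨(K ^ (-(3 / 2) : ℝ) + K ^ (-(3 / 4) : ℝ)) * C * 24, by positivity,
    fun s h1 h2 h3 => ?_⟩
  have hj : (0 : ℝ) ≤ j := Nat.cast_nonneg j
  set σ : ℝ := s.re with hσ
  set t : ℝ := -s.im with ht
  have ht0 : 0 < t := by linarith
  have hs : (-2 * s - 3 / 2 - j : ℂ) = ((-2 * σ - 3 / 2 - j : ℝ) : ℂ) + ((2 * t : ℝ) : ℂ) * I := by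
    apply Complex.ext
    · simp [hσ]
    · simp [ht]
  have hG := (hb (-2 * σ - 3 / 2 - j) (2 * t) (abs_le.2 ⟨by linarith, by linarith⟩)
    (by rw [abs_of_pos (by linarith)]; linarith)).1
  rw [abs_of_pos (by linarith : 0 < 2 * t)] at hG
  have hG2 : (2 * t) ^ (-2 * σ - 3 / 2 - j - 1 / 2 : ℝ) ≤ 1 :=
    Real.rpow_le_one_of_one_le_of_nonpos (by linarith) (by linarith)
  have hE : ‖cexp (-(π * I * s))‖ = Real.exp (-(π * t)) := by
    rw [norm_exp]
    congr 1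
    simp [ht]
  have hKn : ‖((K : ℝ) : ℂ) ^ (2 * s)‖ ≤ K ^ (-(3 / 2) : ℝ) + K ^ (-(3 / 4) : ℝ) := by
    rw [norm_cpow_eq_rpow_re_of_pos hK0]
    have e1 : (2 * s).re = 2 * σ := by simp [hσ]
    rw [e1]
    have p1 : 0 < K ^ (-(3 / 2) : ℝ) := by positivity
    have p2 : 0 < K ^ (-(3 / 4) : ℝ) := by positivity
    rcases le_or_gt 1 K with h | h
    · have : K ^ (2 * σ) ≤ K ^ (-(3 / 4) : ℝ) :=
        Real.rpow_le_rpow_of_exponent_le h (by linarith)
      linarith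
    · have : K ^ (2 * σ) ≤ K ^ (-(3 / 2) : ℝ) :=
        Real.rpow_le_rpow_of_exponent_ge hK0 h.le (by linarith)
      linarith
  have hfin : Real.exp (-(2 * π * t)) ≤ 24 * t ^ (-4 - 2 * σ) := by
    refine (VO6_exp h3).trans ?_
    refine mul_le_mul_of_nonneg_left ?_ (by norm_num)
    exact Real.rpow_le_rpow_of_exponent_le h3 (by linarith)
  have hee : Real.exp (-(π * t)) * Real.exp (-(π * (2 * t) / 2)) = Real.exp (-(2 * π * t)) := by
    rw [← Real.exp_add]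
    congr 1
    ring
  rw [Mf, norm_mul, norm_mul, hE, hs]
  have hpe := Real.exp_pos (-(π * (2 * t) / 2))
  calc Real.exp (-(π * t)) * ‖((K : ℝ) : ℂ) ^ (2 * s)‖ *
        ‖Gamma (((-2 * σ - 3 / 2 - j : ℝ) : ℂ) + ((2 * t : ℝ) : ℂ) * I)‖
      ≤ Real.exp (-(π * t)) * (K ^ (-(3 / 2) : ℝ) + K ^ (-(3 / 4) : ℝ)) *
        (C * 1 * Real.exp (-(π * (2 * t) / 2))) := by
        refine mul_le_mul (mul_le_mul_of_nonneg_left hKn (Real.exp_pos _).le)
          (hG.trans ?_) (norm_nonneg _) (by positivity)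
        gcongr
    _ = (K ^ (-(3 / 2) : ℝ) + K ^ (-(3 / 4) : ℝ)) * C * (Real.exp (-(π * t)) *
        Real.exp (-(π * (2 * t) / 2))) := by ring
    _ = (K ^ (-(3 / 2) : ℝ) + K ^ (-(3 / 4) : ℝ)) * C * Real.exp (-(2 * π * t)) := by rw [hee]
    _ ≤ (K ^ (-(3 / 2) : ℝ) + K ^ (-(3 / 4) : ℝ)) * C * (24 * t ^ (-4 - 2 * σ)) := by gcongr
    _ = _ := by ring

private theorem VO6_diffM {κ : ℝ} (hκ : 0 < κ) (j : ℕ) {s : ℂ} (h1 : -(3 / 4) < s.re)
    (h2 : s.re ≤ -(3 / 8)) : DifferentiableAt ℂ (Mf κ j) s := by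
  have hK : ((4 * π * √κ : ℝ) : ℂ) ≠ 0 := by
    have := Real.pi_pos
    have := Real.sqrt_pos.2 hκ
    exact_mod_cast (by positivity : (4 * π * √κ : ℝ) ≠ 0)
  have d1 : DifferentiableAt ℂ (fun s : ℂ => ((4 * π * √κ : ℝ) : ℂ) ^ (2 * s)) s :=
    DifferentiableAt.const_cpow (by fun_prop) (Or.inl hK)
  have d2 : DifferentiableAt ℂ (fun s : ℂ => Gamma (-2 * s - 3 / 2 - j)) s := by
    refine (differentiableAt_Gamma _ fun m h' => ?_).comp s
      (f := fun s : ℂ => -2 * s - 3 / 2 - j) (by fun_prop)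
    have h3 := congrArg re h'
    have h4 : (-2 * s - 3 / 2 - j : ℂ).re = -2 * s.re - 3 / 2 - j := by simp
    rw [h4] at h3
    simp only [neg_re, natCast_re] at h3
    have h5 : ((j : ℤ) - (m : ℤ) : ℤ) < 0 := by
      have : (((j : ℤ) - (m : ℤ) : ℤ) : ℝ) < 0 := by push_cast; linarith
      exact_mod_cast this
    have h6 : (-1 : ℤ) < ((j : ℤ) - (m : ℤ) : ℤ) := by
      have : ((-1 : ℤ) : ℝ) < (((j : ℤ) - (m : ℤ) : ℤ) : ℝ) := by push_cast; linarith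
      exact_mod_cast this
    omega
  have d3 : DifferentiableAt ℂ (fun s : ℂ => cexp (-(π * I * s))) s := by fun_prop
  exact (d3.mul d1).mul d2

private theorem VO6_diff (hf : Fun2 L Q lam mu w) (h0 h1 : ℂ) {s : ℂ} (hs1 : -(3 / 4) < s.re)
    (hs2 : s.re ≤ -(3 / 8)) : DifferentiableAt ℂ (Rem Q lam mu w h0 h1) s := by
  have hκ := kap_pos hf
  have n0 : s ≠ 0 := by rintro rfl; simp at hs2; linarith
  have n1 : s + 1 ≠ 0 := by
    intro h'
    have h3 := congrArg re h'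
    simp only [add_re, one_re, zero_re] at h3
    linarith
  have n2 : s + 2 ≠ 0 := by
    intro h'
    have h3 := congrArg re h'
    simp only [add_re, re_ofNat, zero_re] at h3
    linarith
  have dX : DifferentiableAt ℂ (Xf Q lam mu w) s := Xf_diff hf (by linarith)
  have dP : DifferentiableAt ℂ (fun s : ℂ => s * (s + 1) * (s + 2)) s := by fun_prop
  have dA : ∀ z : ℂ, -(3 / 4) < z.re → z.re ≤ -(3 / 8) → DifferentiableAt ℂ
      (fun z => h0 * Mf (kap Q lam) 0 z + h1 * Mf (kap Q lam) 1 z) z := fun z hz1 hz2 =>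
    ((VO6_diffM hκ 0 hz1 hz2).const_mul h0).add ((VO6_diffM hκ 1 hz1 hz2).const_mul h1)
  have dB := (dA (conj s) (by simpa using hs1) (by simpa using hs2)).conj_conj
  rw [conj_conj] at dB
  exact ((dX.div dP (mul_ne_zero (mul_ne_zero n0 n1) n2)).sub (dA s hs1 hs2)).sub dB

private theorem VO6_conj (h : RealSelberg a L 2) (hf : Fun2 L Q lam mu w) (h0 h1 : ℂ) {s : ℂ}
    (hs : s.re < 0) : Rem Q lam mu w h0 h1 (conj s) = conj (Rem Q lam mu w h0 h1 s) := by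
  have h2c : conj (2 : ℂ) = 2 := map_ofNat _ 2
  rw [Rem, Rem, Xf_conj h hf hs]
  simp only [conj_conj, map_sub, map_div₀, map_mul, map_add, map_one, h2c]
  ring

/-- **VO6.** The remainder is `O((1+|t|)^{-4-2σ})` in `-3/4+δ ≤ Re s ≤ -3/8` and differentiable
there. In the upper half plane the conjugate term is `O(e^{-2πt} t^{..})`. -/
theorem Rem_bound (h : RealSelberg a L 2) (hf : Fun2 L Q lam mu w) : ∃ h0 h1 : ℂ, h0 ≠ 0 ∧
    ∀ δ : ℝ, 0 < δ → δ ≤ 1 / 8 → ∃ C : ℝ, 0 < C ∧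
    ∀ s : ℂ, -(3 / 4) + δ ≤ s.re → s.re ≤ -(3 / 8) →
      DifferentiableAt ℂ (Rem Q lam mu w h0 h1) s ∧
      ‖Rem Q lam mu w h0 h1 s‖ ≤ C * (1 + |s.im|) ^ (-4 - 2 * s.re) := by
  have hκ := kap_pos hf
  obtain ⟨h0, h1, C, t0, hh0, hC, ht0, hG⟩ := G_asymp h hf
  obtain ⟨B0, hB0, hb0⟩ := VO6_low hκ 0
  obtain ⟨B1, hB1, hb1⟩ := VO6_low hκ 1
  refine ⟨h0, h1, hh0, fun δ hδ hδ' => ?_⟩
  set K : ℝ := 16 * (C + ‖h0‖ * B0 + ‖h1‖ * B1) with hK
  have hK0 : 0 < K := by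
    have := norm_nonneg h0
    have := norm_nonneg h1
    positivity
  have hup : ∀ s : ℂ, -(3 / 4) + δ ≤ s.re → s.re ≤ -(3 / 8) → t0 ≤ s.im →
      ‖Rem Q lam mu w h0 h1 s‖ ≤ K * (1 + |s.im|) ^ (-4 - 2 * s.re) := by
    intro s hs1 hs2 hs3
    have him : 0 < s.im := by linarith
    have ht1 : 1 ≤ s.im := by linarith
    have g := hG s (by linarith) hs2 hs3
    have e1 : (conj s).re = s.re := conj_re s
    have e2 : -(conj s).im = s.im := by rw [conj_im, neg_neg]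
    have b0 := hb0 (conj s) (by rw [e1]; linarith) (by rw [e1]; linarith) (by rw [e2]; linarith)
    have b1 := hb1 (conj s) (by rw [e1]; linarith) (by rw [e1]; linarith) (by rw [e2]; linarith)
    rw [e1, e2] at b0 b1
    have c1 : ‖conj (h0 * Mf (kap Q lam) 0 (conj s) + h1 * Mf (kap Q lam) 1 (conj s))‖ ≤
        (‖h0‖ * B0 + ‖h1‖ * B1) * s.im ^ (-4 - 2 * s.re) := by
      rw [RCLike.norm_conj]
      refine (norm_add_le _ _).trans ?_
      rw [norm_mul, norm_mul, add_mul, mul_assoc, mul_assoc]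
      gcongr
    have c2 : ‖Rem Q lam mu w h0 h1 s‖ ≤ (C + ‖h0‖ * B0 + ‖h1‖ * B1) *
        s.im ^ (-4 - 2 * s.re) := by
      rw [Rem]
      refine (norm_sub_le _ _).trans ((add_le_add g c1).trans_eq ?_)
      ring
    have c3 : s.im ^ (-4 - 2 * s.re) ≤ 16 * (1 + s.im) ^ (-4 - 2 * s.re) := by
      have h3 : s.im ^ (-4 - 2 * s.re) ≤ ((1 + s.im) / 2) ^ (-4 - 2 * s.re) :=
        Real.rpow_le_rpow_of_nonpos (by linarith) (by linarith) (by linarith)
      refine h3.trans ?_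
      rw [Real.div_rpow (by linarith) (by norm_num)]
      have h4 : (0 : ℝ) < (1 + s.im) ^ (-4 - 2 * s.re) := Real.rpow_pos_of_pos (by linarith) _
      have h5 : (1 / 16 : ℝ) ≤ 2 ^ (-4 - 2 * s.re) := by
        have : (1 / 16 : ℝ) = 2 ^ (-4 : ℝ) := by
          rw [Real.rpow_neg (by norm_num)]
          norm_num
        rw [this]
        exact Real.rpow_le_rpow_of_exponent_le (by norm_num) (by linarith)
      rw [div_le_iff₀ (by positivity)]
      nlinarith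
    rw [abs_of_pos him]
    refine c2.trans ?_
    have hK1 : 0 ≤ C + ‖h0‖ * B0 + ‖h1‖ * B1 := by linarith [hK]
    calc (C + ‖h0‖ * B0 + ‖h1‖ * B1) * s.im ^ (-4 - 2 * s.re)
        ≤ (C + ‖h0‖ * B0 + ‖h1‖ * B1) * (16 * (1 + s.im) ^ (-4 - 2 * s.re)) :=
          mul_le_mul_of_nonneg_left c3 hK1
      _ = _ := by rw [hK]; ring
  have hcomp : IsCompact (Icc (-(3 / 4) + δ : ℝ) (-(3 / 8)) ×ℂ Icc (-t0) t0) :=
    isCompact_Icc.reProdIm isCompact_Icc
  have hcont : ContinuousOn (fun s => ‖Rem Q lam mu w h0 h1 s‖)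
      (Icc (-(3 / 4) + δ : ℝ) (-(3 / 8)) ×ℂ Icc (-t0) t0) := by
    intro s hs
    have hs' : s.re ∈ Icc (-(3 / 4) + δ : ℝ) (-(3 / 8)) := hs.1
    exact (VO6_diff hf h0 h1 (by linarith [hs'.1])
      hs'.2).continuousAt.norm.continuousWithinAt
  obtain ⟨M, hM⟩ := hcomp.bddAbove_image hcont
  refine ⟨K + |M| * (1 + t0) ^ (4 : ℝ), ?_, fun s hs1 hs2 => ⟨VO6_diff hf h0 h1 (by linarith) hs2, ?_⟩⟩
  · have : 0 ≤ |M| * (1 + t0) ^ (4 : ℝ) := by positivity
    linarith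
  have hp : 0 < (1 + |s.im|) ^ (-4 - 2 * s.re) := Real.rpow_pos_of_pos (by positivity) _
  have hq : 0 ≤ |M| * (1 + t0) ^ (4 : ℝ) := by positivity
  rcases le_or_gt t0 |s.im| with hle | hlt
  · have hb : ‖Rem Q lam mu w h0 h1 s‖ ≤ K * (1 + |s.im|) ^ (-4 - 2 * s.re) := by
      rcases le_or_gt 0 s.im with h0' | h0'
      · exact hup s hs1 hs2 (by rwa [abs_of_nonneg h0'] at hle)
      · have h1' := hup (conj s) (by simpa using hs1) (by simpa using hs2)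
          (by rw [abs_of_neg h0'] at hle; simpa using hle)
        rw [VO6_conj h hf h0 h1 (by linarith), RCLike.norm_conj] at h1'
        simpa using h1'
    refine hb.trans ?_
    nlinarith
  · have hmem : s ∈ (Icc (-(3 / 4) + δ : ℝ) (-(3 / 8)) ×ℂ Icc (-t0) t0) :=
      ⟨⟨hs1, hs2⟩, (abs_lt.1 hlt).1.le, (abs_lt.1 hlt).2.le⟩
    have h1' : ‖Rem Q lam mu w h0 h1 s‖ ≤ M := hM (mem_image_of_mem _ hmem)
    have h2 : (1 : ℝ) ≤ (1 + t0) ^ (4 : ℝ) * (1 + |s.im|) ^ (-4 - 2 * s.re) := by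
      have e1 : (1 + t0) ^ (-4 : ℝ) ≤ (1 + |s.im|) ^ (-4 - 2 * s.re) := by
        calc (1 + t0) ^ (-4 : ℝ) ≤ (1 + |s.im|) ^ (-4 : ℝ) :=
              Real.rpow_le_rpow_of_nonpos (by positivity) (by linarith) (by norm_num)
          _ ≤ _ := Real.rpow_le_rpow_of_exponent_le (by linarith [abs_nonneg s.im])
              (by linarith)
      have e2 : (1 + t0) ^ (4 : ℝ) * (1 + t0) ^ (-4 : ℝ) = 1 := by
        rw [← Real.rpow_add (by linarith)]
        norm_num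
      have e3 : 0 < (1 + t0) ^ (4 : ℝ) := Real.rpow_pos_of_pos (by linarith) _
      calc (1 : ℝ) = (1 + t0) ^ (4 : ℝ) * (1 + t0) ^ (-4 : ℝ) := e2.symm
        _ ≤ _ := mul_le_mul_of_nonneg_left e1 e3.le
    have h3 : M ≤ |M| := le_abs_self M
    have h4 : |M| ≤ |M| * ((1 + t0) ^ (4 : ℝ) * (1 + |s.im|) ^ (-4 - 2 * s.re)) :=
      le_mul_of_one_le_right (abs_nonneg M) h2
    have h5 : 0 ≤ K * (1 + |s.im|) ^ (-4 - 2 * s.re) := by positivity
    calc ‖Rem Q lam mu w h0 h1 s‖ ≤ |M| * ((1 + t0) ^ (4 : ℝ) *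
          (1 + |s.im|) ^ (-4 - 2 * s.re)) := by linarith
      _ ≤ K * (1 + |s.im|) ^ (-4 - 2 * s.re) + |M| * ((1 + t0) ^ (4 : ℝ) *
          (1 + |s.im|) ^ (-4 - 2 * s.re)) := by linarith
      _ = _ := by ring
--END VO6

--BEGIN VO7
private theorem VO7_cont {R : ℂ → ℂ} {σ : ℝ} (hR : ∀ t : ℝ, DifferentiableAt ℂ R (σ + t * I)) :
    Continuous fun t : ℝ => R (σ + t * I) :=
  continuous_iff_continuousAt.2 fun t =>
    ContinuousAt.comp (f := fun t : ℝ => (σ : ℂ) + t * I) (hR t).continuousAt (by fun_prop)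

private theorem VO7_cpow_cont {y : ℝ} (hy : 0 < y) (z : ℂ) :
    Continuous fun t : ℝ => (y : ℂ) ^ (z + t * I) := by
  have hy0 : (y : ℂ) ≠ 0 := ofReal_ne_zero.2 hy.ne'
  have : (fun t : ℝ => (y : ℂ) ^ (z + t * I)) = fun t : ℝ => cexp (Complex.log y * (z + t * I)) := by
    funext t
    rw [cpow_def_of_ne_zero hy0]
  rw [this]
  fun_prop

/-- differentiation under the integral -/
private theorem VO7_deriv {R : ℂ → ℂ} {σ C p : ℝ} (hσ : 0 < σ + 2) (hσ' : σ < 0) (hp : 2 < p) (hC : 0 < C)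
    (hR : ∀ t : ℝ, DifferentiableAt ℂ R (σ + t * I))
    (hb : ∀ t : ℝ, ‖R (σ + t * I)‖ ≤ C * (1 + |t|) ^ (-p)) {y : ℝ} (hy : 0 < y) :
    HasDerivAt (fun y : ℝ => ∫ t : ℝ, R (σ + t * I) * (y : ℂ) ^ (σ + t * I + 2 : ℂ))
      (∫ t : ℝ, R (σ + t * I) * ((σ + t * I + 2 : ℂ) * (y : ℂ) ^ (σ + t * I + 2 - 1 : ℂ))) y ∧
    ‖∫ t : ℝ, R (σ + t * I) * ((σ + t * I + 2 : ℂ) * (y : ℂ) ^ (σ + t * I + 2 - 1 : ℂ))‖ ≤
      (2 * C * ∫ t : ℝ, (1 + ‖t‖) ^ (-(p - 1))) * y ^ (σ + 1) := by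
  have hint : Integrable (fun t : ℝ => (1 + ‖t‖) ^ (-(p - 1))) := integrable_one_add_norm (by simp; linarith)
  have hint0 : Integrable (fun t : ℝ => (1 + ‖t‖) ^ (-p)) := integrable_one_add_norm (by simp; linarith)
  have hcR := VO7_cont hR
  have hnorm : ∀ (z : ℝ), 0 < z → ∀ t : ℝ, ‖R (σ + t * I) * ((σ + t * I + 2 : ℂ) *
      (z : ℂ) ^ (σ + t * I + 2 - 1 : ℂ))‖ ≤ 2 * C * (1 + ‖t‖) ^ (-(p - 1)) * z ^ (σ + 1) := by
    intro z hz t
    have h1 : ‖(z : ℂ) ^ (σ + t * I + 2 - 1 : ℂ)‖ = z ^ (σ + 1) := by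
      rw [norm_cpow_eq_rpow_re_of_pos hz]
      congr 1
      simp
      ring
    have h2 : ‖(σ + t * I + 2 : ℂ)‖ ≤ 2 * (1 + ‖t‖) := by
      have e : (σ + t * I + 2 : ℂ) = ((σ + 2 : ℝ) : ℂ) + t * I := by push_cast; ring
      rw [e]
      refine (norm_add_le _ _).trans ?_
      rw [norm_mul, norm_I, mul_one, norm_real, norm_real, Real.norm_of_nonneg hσ.le]
      linarith [norm_nonneg t]
    have h3 : (1 + ‖t‖) ^ (-(p - 1)) = (1 + ‖t‖) ^ (-p) * (1 + ‖t‖) := by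
      rw [← Real.rpow_add_one (by positivity)]
      congr 1
      ring
    rw [norm_mul, norm_mul, h1, h3]
    calc ‖R (σ + t * I)‖ * (‖(σ + t * I + 2 : ℂ)‖ * z ^ (σ + 1))
        ≤ (C * (1 + |t|) ^ (-p)) * ((2 * (1 + ‖t‖)) * z ^ (σ + 1)) := by
          refine mul_le_mul (hb t) (mul_le_mul_of_nonneg_right h2 (Real.rpow_nonneg hz.le _))
            (by positivity) (by positivity)
      _ = 2 * C * ((1 + ‖t‖) ^ (-p) * (1 + ‖t‖)) * z ^ (σ + 1) := by
          rw [Real.norm_eq_abs]; ring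
  constructor
  · refine (hasDerivAt_integral_of_dominated_loc_of_deriv_le
      (F := fun (y : ℝ) (t : ℝ) => R (σ + t * I) * (y : ℂ) ^ (σ + t * I + 2 : ℂ))
      (F' := fun (y : ℝ) (t : ℝ) => R (σ + t * I) * ((σ + t * I + 2 : ℂ) *
        (y : ℂ) ^ (σ + t * I + 2 - 1 : ℂ)))
      (bound := fun t => 2 * C * (1 + ‖t‖) ^ (-(p - 1)) * max ((y / 2) ^ (σ + 1)) ((2 * y) ^ (σ + 1)))
      (s := Ioo (y / 2) (2 * y)) (Ioo_mem_nhds (by linarith) (by linarith)) ?_ ?_ ?_ ?_ ?_ ?_).2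
    · filter_upwards [lt_mem_nhds hy] with z hz
      refine (hcR.mul ?_).aestronglyMeasurable
      have := VO7_cpow_cont hz (σ + 2)
      refine this.congr fun t => ?_
      congr 1
      ring
    · refine Integrable.mono' ((hint0.const_mul C).mul_const (y ^ (σ + 2))) ?_
        (Eventually.of_forall fun t => ?_)
      · refine (hcR.mul ?_).aestronglyMeasurable
        have := VO7_cpow_cont hy (σ + 2)
        refine this.congr fun t => ?_
        congr 1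
        ring
      · rw [norm_mul, norm_cpow_eq_rpow_re_of_pos hy]
        have e : (σ + t * I + 2 : ℂ).re = σ + 2 := by simp
        rw [e]
        exact mul_le_mul_of_nonneg_right (by simpa using hb t) (Real.rpow_nonneg hy.le _)
    · refine (hcR.mul ?_).aestronglyMeasurable
      refine Continuous.mul (by fun_prop) ?_
      have := VO7_cpow_cont hy (σ + 1)
      refine this.congr fun t => ?_
      congr 1
      ring
    · refine Eventually.of_forall fun t z hz => ?_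
      have hz0 : 0 < z := by linarith [hz.1]
      refine (hnorm z hz0 t).trans (mul_le_mul_of_nonneg_left ?_ (by positivity))
      rcases le_total 0 (σ + 1) with h | h
      · exact (Real.rpow_le_rpow hz0.le hz.2.le h).trans (le_max_right _ _)
      · exact (Real.rpow_le_rpow_of_nonpos (by linarith) hz.1.le h).trans (le_max_left _ _)
    · exact (hint.const_mul _).mul_const _
    · refine Eventually.of_forall fun t z hz => ?_
      have hz0 : z ≠ 0 := by have := hz.1; intro h; rw [h] at this; linarith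
      have hne : (σ + t * I + 2 : ℂ) ≠ 0 := by
        intro h
        have := congrArg re h
        simp at this
        linarith
      exact (hasDerivAt_ofReal_cpow_const hz0 hne).const_mul _
  · refine (norm_integral_le_integral_norm _).trans ?_
    have h4 : (2 * C * ∫ t : ℝ, (1 + ‖t‖) ^ (-(p - 1))) * y ^ (σ + 1) =
        ∫ t : ℝ, 2 * C * (1 + ‖t‖) ^ (-(p - 1)) * y ^ (σ + 1) := by
      rw [integral_mul_const, integral_const_mul]
    rw [h4]
    refine integral_mono_of_nonneg (Eventually.of_forall fun t => norm_nonneg _)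
      ((hint.const_mul _).mul_const _) (Eventually.of_forall fun t => hnorm y hy t)

/-- **VO7.** Shift for functions with the bound of VO6, and differentiation in `y`. -/
theorem Rem_transform {R : ℂ → ℂ} {δ C : ℝ} (hδ : 0 < δ) (hδ' : δ ≤ 1 / 8) (hC : 0 < C)
    (hR : ∀ s : ℂ, -(3 / 4) + δ / 2 ≤ s.re → s.re ≤ -(3 / 8) → DifferentiableAt ℂ R s ∧
      ‖R s‖ ≤ C * (1 + |s.im|) ^ (-4 - 2 * s.re)) :
    ∃ (V V' : ℝ → ℂ) (C' : ℝ), (∀ y : ℝ, 0 < y → V y = (1 / (2 * π) : ℂ) * ∫ t : ℝ,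
      R (-(3 / 8) + t * I) * (y : ℂ) ^ (-(3 / 8) + t * I + 2 : ℂ)) ∧
      (∀ y : ℝ, 0 < y → HasDerivAt V (V' y) y ∧ ‖V' y‖ ≤ C' * y ^ (1 / 4 + δ)) := by
  set σ : ℝ := -(3 / 4) + δ with hσ
  have hRσ : ∀ t : ℝ, DifferentiableAt ℂ R (σ + t * I) := fun t => by
    refine (hR _ ?_ ?_).1 <;> simp [hσ] <;> linarith
  have hbσ : ∀ t : ℝ, ‖R (σ + t * I)‖ ≤ C * (1 + |t|) ^ (-(5 / 2 + 2 * δ)) := fun t => by
    have h1 := (hR (σ + t * I) (by simp [hσ]; linarith) (by simp [hσ]; linarith)).2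
    have e1 : (σ + t * I : ℂ).re = σ := by simp
    have e2 : (σ + t * I : ℂ).im = t := by simp
    rw [e1, e2] at h1
    have e3 : -4 - 2 * σ = -(5 / 2 + 2 * δ) := by rw [hσ]; ring
    rwa [e3] at h1
  -- the shift
  have hshift : ∀ y : ℝ, 0 < y → ∫ t : ℝ, R (-(3 / 8) + t * I) * (y : ℂ) ^ (-(3 / 8) + t * I + 2 : ℂ) =
      ∫ t : ℝ, R (σ + t * I) * (y : ℂ) ^ (σ + t * I + 2 : ℂ) := by
    intro y hy
    have hy0 : (y : ℂ) ≠ 0 := ofReal_ne_zero.2 hy.ne'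
    have h := (shift_plain (F := fun s : ℂ => R s * (y : ℂ) ^ (s + 2)) (σ1 := σ) (σ2 := -(3 / 8))
      (C := C * max (y ^ (σ + 2)) (y ^ (-(3 / 8) + 2 : ℝ))) (δ := 1) (by rw [hσ]; linarith) one_pos
      (fun s h1 h2 => ?_) (fun s h1 h2 h3 => ?_)).2.2
    · have e : ((-(3 / 8) : ℝ) : ℂ) = -(3 / 8) := by push_cast; ring
      simp only [e] at h
      exact h
    · have h3 := (hR s (by rw [hσ] at h1; linarith) h2).1
      refine h3.mul ?_
      have : DifferentiableAt ℂ (fun s : ℂ => s + 2) s := by fun_prop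
      exact this.const_cpow (Or.inl hy0)
    · have h4 := (hR s (by rw [hσ] at h1; linarith) h2).2
      rw [norm_mul, norm_cpow_eq_rpow_re_of_pos hy]
      have h5 : (s + 2).re = s.re + 2 := by simp
      rw [h5]
      have h6 : y ^ (s.re + 2) ≤ max (y ^ (σ + 2)) (y ^ (-(3 / 8) + 2 : ℝ)) := by
        rcases le_total 1 y with hy1 | hy1
        · exact (Real.rpow_le_rpow_of_exponent_le hy1 (by linarith)).trans (le_max_right _ _)
        · exact (Real.rpow_le_rpow_of_exponent_ge hy hy1 (by linarith)).trans (le_max_left _ _)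
      have h7 : (1 + |s.im|) ^ (-4 - 2 * s.re) ≤ |s.im| ^ (-(1 + 1) : ℝ) := by
        have h8 : (1 + |s.im|) ^ (-4 - 2 * s.re) ≤ (1 + |s.im|) ^ (-(1 + 1) : ℝ) := by
          refine Real.rpow_le_rpow_of_exponent_le (by linarith) ?_
          rw [hσ] at h1
          linarith
        refine h8.trans (Real.rpow_le_rpow_of_nonpos (by linarith) (by linarith) (by norm_num))
      calc ‖R s‖ * y ^ (s.re + 2) ≤ (C * (1 + |s.im|) ^ (-4 - 2 * s.re)) *
            max (y ^ (σ + 2)) (y ^ (-(3 / 8) + 2 : ℝ)) :=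
            mul_le_mul h4 h6 (Real.rpow_nonneg hy.le _) (by positivity)
        _ ≤ (C * |s.im| ^ (-(1 + 1) : ℝ)) * max (y ^ (σ + 2)) (y ^ (-(3 / 8) + 2 : ℝ)) :=
            mul_le_mul_of_nonneg_right (mul_le_mul_of_nonneg_left h7 hC.le)
              ((Real.rpow_nonneg hy.le _).trans (le_max_left _ _))
        _ = _ := by ring
  refine ⟨fun y => (1 / (2 * π) : ℂ) * ∫ t : ℝ,
      R (-(3 / 8) + t * I) * (y : ℂ) ^ (-(3 / 8) + t * I + 2 : ℂ),
    fun y => (1 / (2 * π) : ℂ) * ∫ t : ℝ, R (σ + t * I) * ((σ + t * I + 2 : ℂ) *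
      (y : ℂ) ^ (σ + t * I + 2 - 1 : ℂ)),
    1 / (2 * π) * (2 * C * ∫ t : ℝ, (1 + ‖t‖) ^ (-(5 / 2 + 2 * δ - 1))), fun y _ => rfl, ?_⟩
  intro y hy
  obtain ⟨h1, h2⟩ := VO7_deriv (R := R) (σ := σ) (C := C) (p := 5 / 2 + 2 * δ) (by rw [hσ]; linarith)
    (by rw [hσ]; linarith) (by linarith) hC hRσ hbσ hy
  constructor
  · refine (h1.const_mul (1 / (2 * π) : ℂ)).congr_of_eventuallyEq ?_
    filter_upwards [lt_mem_nhds hy] with z hz
    rw [hshift z hz]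
  · rw [norm_mul]
    have e1 : ‖(1 / (2 * π) : ℂ)‖ = 1 / (2 * π) := by
      rw [norm_div, norm_one, norm_mul, norm_real, Real.norm_of_nonneg Real.pi_pos.le]
      norm_num
    have e2 : 1 / 4 + δ = σ + 1 := by rw [hσ]; ring
    rw [e1, e2, mul_assoc]
    exact mul_le_mul_of_nonneg_left h2 (by positivity)
--END VO7

--BEGIN VO8
/-- the main part of `Theta` -/
private noncomputable def VO8_W (κ : ℝ) (u0 u1 : ℂ) (y : ℝ) : ℂ :=
  u0 * ((y ^ (5 / 4 : ℝ) : ℝ) : ℂ) * (cexp (I * (4 * π * √(κ * y) : ℝ)) - 1) +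
  u1 * ((y ^ (3 / 4 : ℝ) : ℝ) : ℂ) * (cexp (I * (4 * π * √(κ * y) : ℝ)) - 1 -
        I * (4 * π * √(κ * y) : ℝ))

/-- the derivative of the main part of `Theta` -/
private noncomputable def VO8_W' (κ : ℝ) (u0 u1 : ℂ) (y : ℝ) : ℂ :=
  u0 * ((5 / 4 * y ^ (1 / 4 : ℝ) : ℝ) : ℂ) * (cexp (I * (4 * π * √(κ * y) : ℝ)) - 1) +
  u0 * ((y ^ (5 / 4 : ℝ) : ℝ) : ℂ) * (cexp (I * (4 * π * √(κ * y) : ℝ)) *
    (I * (2 * π * κ / √(κ * y) : ℝ))) +
  (u1 * ((3 / 4 * y ^ (-(1 / 4) : ℝ) : ℝ) : ℂ) * (cexp (I * (4 * π * √(κ * y) : ℝ)) - 1 -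
        I * (4 * π * √(κ * y) : ℝ)) +
  u1 * ((y ^ (3 / 4 : ℝ) : ℝ) : ℂ) * (cexp (I * (4 * π * √(κ * y) : ℝ)) *
    (I * (2 * π * κ / √(κ * y) : ℝ)) - I * (2 * π * κ / √(κ * y) : ℝ)))

private theorem VO8_hasDeriv {κ : ℝ} (hκ : 0 < κ) (u0 u1 : ℂ) {y : ℝ} (hy : 0 < y) :
    HasDerivAt (VO8_W κ u0 u1) (VO8_W' κ u0 u1 y) y := by
  have hZ : HasDerivAt (fun y : ℝ => 4 * π * √(κ * y)) (2 * π * κ / √(κ * y)) y := by
    have h1 : HasDerivAt (fun y : ℝ => κ * y) κ y := by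
      simpa using (hasDerivAt_id y).const_mul κ
    have h2 := (h1.sqrt (mul_pos hκ hy).ne').const_mul (4 * π)
    have h3 : 4 * π * (κ / (2 * √(κ * y))) = 2 * π * κ / √(κ * y) := by
      have := Real.sqrt_pos.2 (mul_pos hκ hy)
      field_simp
      ring
    rw [h3] at h2
    exact h2
  have hZc : HasDerivAt (fun y : ℝ => I * ((4 * π * √(κ * y) : ℝ) : ℂ))
      (I * ((2 * π * κ / √(κ * y) : ℝ) : ℂ)) y := hZ.ofReal_comp.const_mul I
  have hE := hZc.cexp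
  have hp : ∀ p : ℝ, HasDerivAt (fun y : ℝ => ((y ^ p : ℝ) : ℂ)) ((p * y ^ (p - 1) : ℝ) : ℂ) y :=
    fun p => (Real.hasDerivAt_rpow_const (Or.inl hy.ne')).ofReal_comp
  have h5 := hp (5 / 4)
  have h3 := hp (3 / 4)
  have e5 : (5 / 4 - 1 : ℝ) = 1 / 4 := by norm_num
  have e3 : (3 / 4 - 1 : ℝ) = -(1 / 4) := by norm_num
  rw [e5] at h5
  rw [e3] at h3
  have m0 := (h5.const_mul u0).mul (hE.sub_const 1)
  have m1 := (h3.const_mul u1).mul ((hE.sub_const 1).sub hZc)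
  exact m0.add m1

private theorem VO8_conjI {G : ℝ → ℂ} (hG : Integrable G) :
    Integrable (fun t : ℝ => conj (G (-t))) ∧ ∫ t : ℝ, conj (G (-t)) = conj (∫ t : ℝ, G t) := by
  have h1 : Integrable (fun t : ℝ => G (-t)) := hG.comp_neg
  refine ⟨(Complex.conjCLE : ℂ →L[ℝ] ℂ).integrable_comp h1, ?_⟩
  rw [integral_conj]
  congr 1
  exact integral_neg_eq_self G volume

private theorem VO8_int {h0 h1 : ℂ} {C : ℝ}
    (hb : ∀ s : ℂ, -(3 / 4) + 1 / 8 ≤ s.re → s.re ≤ -(3 / 8) →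
      DifferentiableAt ℂ (Rem Q lam mu w h0 h1) s ∧
      ‖Rem Q lam mu w h0 h1 s‖ ≤ C * (1 + |s.im|) ^ (-4 - 2 * s.re)) {y : ℝ} (hy : 0 < y) :
    Integrable (fun t : ℝ => Rem Q lam mu w h0 h1 (-(3 / 8) + t * I) *
      (y : ℂ) ^ (-(3 / 8) + t * I + 2 : ℂ)) := by
  have hre : ∀ t : ℝ, (-(3 / 8) + t * I : ℂ).re = -(3 / 8) := by intro t; simp
  have him : ∀ t : ℝ, (-(3 / 8) + t * I : ℂ).im = t := by intro t; simp
  have hyc : (y : ℂ) ≠ 0 := by exact_mod_cast hy.ne'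
  have hcont : Continuous (fun t : ℝ => Rem Q lam mu w h0 h1 (-(3 / 8) + t * I)) := by
    rw [continuous_iff_continuousAt]
    intro t
    have h1 : ContinuousAt (Rem Q lam mu w h0 h1) (-(3 / 8) + t * I) :=
      (hb _ (by rw [hre]; norm_num) (by rw [hre])).1.continuousAt
    exact ContinuousAt.comp (f := fun t : ℝ => (-(3 / 8) + t * I : ℂ)) h1 (by fun_prop)
  have hg : Integrable (fun t : ℝ => C * (1 + ‖t‖) ^ (-(13 / 4 : ℝ))) :=
    (integrable_one_add_norm (by simp; norm_num)).const_mul _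
  have hR : Integrable (fun t : ℝ => Rem Q lam mu w h0 h1 (-(3 / 8) + t * I)) := by
    refine hg.mono' hcont.aestronglyMeasurable (Eventually.of_forall fun t => ?_)
    have h1 := (hb (-(3 / 8) + t * I) (by rw [hre]; norm_num) (by rw [hre])).2
    rw [hre, him] at h1
    refine h1.trans_eq ?_
    rw [Real.norm_eq_abs]
    norm_num
  exact hR.mul_bdd (g := fun t : ℝ => (y : ℂ) ^ (-(3 / 8) + t * I + 2 : ℂ))
    (c := y ^ (13 / 8 : ℝ))
    (Continuous.aestronglyMeasurable (Continuous.const_cpow (by fun_prop) (Or.inl hyc)))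
    (Eventually.of_forall fun t => (VO5_normy hy t).le)

private theorem VO8_dec {h0 h1 C0 C1 : ℂ} {y : ℝ} (hy : 0 < y)
    (hC0 : Integrable (fun t : ℝ => Mf (kap Q lam) 0 (-(3 / 8) + t * I) *
      (y : ℂ) ^ (-(3 / 8) + t * I + 2 : ℂ)) ∧
    (1 / (2 * π) : ℂ) * ∫ t : ℝ, Mf (kap Q lam) 0 (-(3 / 8) + t * I) *
      (y : ℂ) ^ (-(3 / 8) + t * I + 2 : ℂ) =
      C0 * ((y ^ (5 / 4 : ℝ) : ℝ) : ℂ) * (cexp (I * (4 * π * √((kap Q lam) * y) : ℝ)) - 1))
    (hC1 : Integrable (fun t : ℝ => Mf (kap Q lam) 1 (-(3 / 8) + t * I) *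
      (y : ℂ) ^ (-(3 / 8) + t * I + 2 : ℂ)) ∧
    (1 / (2 * π) : ℂ) * ∫ t : ℝ, Mf (kap Q lam) 1 (-(3 / 8) + t * I) *
      (y : ℂ) ^ (-(3 / 8) + t * I + 2 : ℂ) =
      C1 * ((y ^ (3 / 4 : ℝ) : ℝ) : ℂ) * (cexp (I * (4 * π * √((kap Q lam) * y) : ℝ)) - 1 -
        I * (4 * π * √((kap Q lam) * y) : ℝ)))
    (hR : Integrable (fun t : ℝ => Rem Q lam mu w h0 h1 (-(3 / 8) + t * I) *
      (y : ℂ) ^ (-(3 / 8) + t * I + 2 : ℂ))) :
    Theta Q lam mu w y = VO8_W (kap Q lam) (h0 * C0) (h1 * C1) y +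
      conj (VO8_W (kap Q lam) (h0 * C0) (h1 * C1) y) + (1 / (2 * π) : ℂ) * ∫ t : ℝ,
        Rem Q lam mu w h0 h1 (-(3 / 8) + t * I) * (y : ℂ) ^ (-(3 / 8) + t * I + 2 : ℂ) := by
  obtain ⟨i0, v0⟩ := hC0
  obtain ⟨i1, v1⟩ := hC1
  set G : ℝ → ℂ := fun t => h0 * (Mf (kap Q lam) 0 (-(3 / 8) + t * I) *
      (y : ℂ) ^ (-(3 / 8) + t * I + 2 : ℂ)) + h1 * (Mf (kap Q lam) 1 (-(3 / 8) + t * I) *
      (y : ℂ) ^ (-(3 / 8) + t * I + 2 : ℂ)) with hG
  have iG : Integrable G := (i0.const_mul h0).add (i1.const_mul h1)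
  have vG : (1 / (2 * π) : ℂ) * ∫ t : ℝ, G t = VO8_W (kap Q lam) (h0 * C0) (h1 * C1) y := by
    simp only [hG]
    rw [integral_add (i0.const_mul h0) (i1.const_mul h1), integral_const_mul, integral_const_mul,
      mul_add, mul_left_comm, v0, mul_left_comm (1 / (2 * π) : ℂ) h1, v1, VO8_W]
    ring
  obtain ⟨iH, vH⟩ := VO8_conjI iG
  have hpt : ∀ t : ℝ, Xf Q lam mu w (-(3 / 8) + t * I) * (y : ℂ) ^ (-(3 / 8) + t * I + 2 : ℂ) /
      ((-(3 / 8) + t * I) * (-(3 / 8) + t * I + 1) * (-(3 / 8) + t * I + 2)) =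
      G t + conj (G (-t)) + Rem Q lam mu w h0 h1 (-(3 / 8) + t * I) *
        (y : ℂ) ^ (-(3 / 8) + t * I + 2 : ℂ) := by
    intro t
    have hcs : conj (-(3 / 8) + t * I : ℂ) = -(3 / 8) + ((-t : ℝ) : ℂ) * I := by
      simp only [map_add, map_neg, map_div₀, map_ofNat, map_mul, conj_ofReal, conj_I]
      push_cast
      ring
    have hcy : conj ((y : ℂ) ^ (-(3 / 8) + ((-t : ℝ) : ℂ) * I + 2 : ℂ)) =
        (y : ℂ) ^ (-(3 / 8) + t * I + 2 : ℂ) := by
      have h1 := conj_cpow (y : ℂ) (-(3 / 8) + t * I + 2 : ℂ)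
        (by rw [arg_ofReal_of_nonneg hy.le]; exact Real.pi_ne_zero.symm)
      have h2 : conj (2 : ℂ) = 2 := map_ofNat _ 2
      rw [conj_ofReal, map_add, hcs, h2] at h1
      exact h1.symm
    have hGc : conj (G (-t)) = conj (h0 * Mf (kap Q lam) 0 (-(3 / 8) + ((-t : ℝ) : ℂ) * I) +
        h1 * Mf (kap Q lam) 1 (-(3 / 8) + ((-t : ℝ) : ℂ) * I)) *
        (y : ℂ) ^ (-(3 / 8) + t * I + 2 : ℂ) := by
      rw [← hcy, ← map_mul]
      congr 1
      simp only [hG]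
      ring
    rw [hGc, Rem, hcs]
    simp only [hG]
    ring
  have iGH : Integrable (fun t : ℝ => G t + conj (G (-t))) := iG.add iH
  rw [Theta]
  simp_rw [hpt]
  rw [integral_add iGH hR, integral_add iG iH, vH, mul_add, mul_add, vG]
  congr 2
  rw [← vG, map_mul]
  congr 1
  rw [map_div₀, map_mul, map_one, conj_ofReal, map_ofNat]

private theorem VO8_pow {y e1 e2 : ℝ} (hy : 1 / 2 ≤ y) (he : e1 ≤ e2) :
    y ^ e1 ≤ (1 / 2 : ℝ) ^ (-(e2 - e1)) * y ^ e2 := by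
  have hy0 : 0 < y := by linarith
  have h1 : y ^ e1 = y ^ (-(e2 - e1)) * y ^ e2 := by
    rw [← Real.rpow_add hy0]; congr 1; ring
  rw [h1]
  exact mul_le_mul_of_nonneg_right (Real.rpow_le_rpow_of_nonpos (by norm_num) hy (by linarith))
    (Real.rpow_nonneg hy0.le _)

private theorem VO8_main {κ : ℝ} (hκ : 0 < κ) (u0 u1 : ℂ) : ∃ B : ℝ, 0 < B ∧
    ∀ y : ℝ, 1 / 2 ≤ y → ‖VO8_W' κ u0 u1 y + conj (VO8_W' κ u0 u1 y) -
      ((Pm κ (4 * π * √κ * I * u0) 1 y : ℝ) : ℂ)‖ ≤ B * y ^ (1 / 4 : ℝ) := by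
  have hK0 : 0 < √κ := Real.sqrt_pos.2 hκ
  have hπ := Real.pi_pos
  refine ⟨1 + 2 * (‖u0‖ * (5 / 4) * 2 + ‖u1‖ * (3 + 3 * π * √κ + 4 * π * √κ)), ?_, fun y hy => ?_⟩
  · positivity
  have hy0 : 0 < y := by linarith
  set E : ℂ := cexp (I * (4 * π * √(κ * y) : ℝ)) with hE
  have hEn : ‖E‖ = 1 := by
    rw [hE, mul_comm]
    exact norm_exp_ofReal_mul_I _
  set P : ℂ := u0 * ((y ^ (5 / 4 : ℝ) : ℝ) : ℂ) * (E * (I * (2 * π * κ / √(κ * y) : ℝ))) with hP
  set R : ℂ := u0 * ((5 / 4 * y ^ (1 / 4 : ℝ) : ℝ) : ℂ) * (E - 1) +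
    (u1 * ((3 / 4 * y ^ (-(1 / 4) : ℝ) : ℝ) : ℂ) * (E - 1 - I * (4 * π * √(κ * y) : ℝ)) +
    u1 * ((y ^ (3 / 4 : ℝ) : ℝ) : ℂ) * (E * (I * (2 * π * κ / √(κ * y) : ℝ)) -
      I * (2 * π * κ / √(κ * y) : ℝ))) with hR
  have hW : VO8_W' κ u0 u1 y = P + R := by
    rw [VO8_W', hP, hR, ← hE]
    ring
  have hsq : √(κ * y) = √κ * √y := Real.sqrt_mul hκ.le y
  have hsy : √y = y ^ (1 / 2 : ℝ) := Real.sqrt_eq_rpow y
  have hsy0 : 0 < √y := Real.sqrt_pos.2 hy0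
  have hκκ : κ = √κ * √κ := (Real.mul_self_sqrt hκ.le).symm
  have hZ : 2 * π * κ / √(κ * y) = 2 * π * √κ / √y := by
    rw [hsq]
    nth_rewrite 1 [hκκ]
    field_simp
  have hy54 : y ^ (5 / 4 : ℝ) * (2 * π * κ / √(κ * y)) = 2 * π * √κ * y ^ (3 / 4 : ℝ) := by
    rw [hZ]
    have : y ^ (5 / 4 : ℝ) = y ^ (3 / 4 : ℝ) * √y := by
      rw [hsy, ← Real.rpow_add hy0]; norm_num
    rw [this]
    field_simp
  have hy34 : y ^ (3 / 4 : ℝ) * (2 * π * κ / √(κ * y)) = 2 * π * √κ * y ^ (1 / 4 : ℝ) := by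
    rw [hZ]
    have : y ^ (3 / 4 : ℝ) = y ^ (1 / 4 : ℝ) * √y := by
      rw [hsy, ← Real.rpow_add hy0]; norm_num
    rw [this]
    field_simp
  have hy14 : y ^ (-(1 / 4) : ℝ) * √(κ * y) = √κ * y ^ (1 / 4 : ℝ) := by
    rw [hsq, hsy]
    have : y ^ (1 / 4 : ℝ) = y ^ (-(1 / 4) : ℝ) * y ^ (1 / 2 : ℝ) := by
      rw [← Real.rpow_add hy0]; norm_num
    rw [this]
    ring
  -- the main term
  have hPm : P + conj P = ((Pm κ (4 * π * √κ * I * u0) 1 y : ℝ) : ℂ) := by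
    have e1 : e (2 * √(κ * 1 * y)) = E := by
      rw [e, hE]
      congr 1
      rw [mul_one]
      push_cast
      ring
    have e2 : P = ((y ^ (3 / 4 : ℝ) / 2 : ℝ) : ℂ) * (4 * π * √κ * I * u0 * E) := by
      rw [hP]
      have e3 : ((y ^ (5 / 4 : ℝ) : ℝ) : ℂ) * ((2 * π * κ / √(κ * y) : ℝ) : ℂ) =
          ((2 * π * √κ * y ^ (3 / 4 : ℝ) : ℝ) : ℂ) := by
        rw [← ofReal_mul, hy54]
      calc u0 * ((y ^ (5 / 4 : ℝ) : ℝ) : ℂ) * (E * (I * ((2 * π * κ / √(κ * y) : ℝ) : ℂ)))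
          = u0 * E * I * (((y ^ (5 / 4 : ℝ) : ℝ) : ℂ) * ((2 * π * κ / √(κ * y) : ℝ) : ℂ)) := by
            ring
        _ = _ := by
            rw [e3]
            push_cast
            ring
    rw [add_conj, Pm]
    have e4 : ((1 : ℕ) : ℝ) = 1 := by norm_num
    rw [e4, e1, e2, re_ofReal_mul]
    push_cast
    ring
  have hRn : ‖R‖ ≤ (‖u0‖ * (5 / 4) * 2 + ‖u1‖ * (3 + 3 * π * √κ + 4 * π * √κ)) *
      y ^ (1 / 4 : ℝ) := by
    have hp14 : 0 < y ^ (1 / 4 : ℝ) := Real.rpow_pos_of_pos hy0 _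
    have hpm14 : 0 < y ^ (-(1 / 4) : ℝ) := Real.rpow_pos_of_pos hy0 _
    have hE1 : ‖E - 1‖ ≤ 2 := by
      refine (norm_sub_le _ _).trans ?_
      rw [hEn, norm_one]; norm_num
    have r1 : ‖u0 * ((5 / 4 * y ^ (1 / 4 : ℝ) : ℝ) : ℂ) * (E - 1)‖ ≤
        ‖u0‖ * (5 / 4) * 2 * y ^ (1 / 4 : ℝ) := by
      rw [norm_mul, norm_mul, norm_real, Real.norm_of_nonneg (by positivity)]
      calc ‖u0‖ * (5 / 4 * y ^ (1 / 4 : ℝ)) * ‖E - 1‖ ≤
            ‖u0‖ * (5 / 4 * y ^ (1 / 4 : ℝ)) * 2 := by gcongr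
        _ = _ := by ring
    have hneg : y ^ (-(1 / 4) : ℝ) ≤ 2 * y ^ (1 / 4 : ℝ) := by
      have h1 := VO8_pow hy (by norm_num : (-(1 / 4) : ℝ) ≤ 1 / 4)
      have h2 : (1 / 2 : ℝ) ^ (-(1 / 4 - -(1 / 4)) : ℝ) ≤ 2 := by
        have h3 : (1 / 2 : ℝ) ^ (-(1 / 4 - -(1 / 4)) : ℝ) ≤ (1 / 2 : ℝ) ^ (-1 : ℝ) :=
          Real.rpow_le_rpow_of_exponent_ge (by norm_num) (by norm_num) (by norm_num)
        refine h3.trans ?_
        rw [Real.rpow_neg (by norm_num), Real.rpow_one]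
        norm_num
      nlinarith
    have r2 : ‖u1 * ((3 / 4 * y ^ (-(1 / 4) : ℝ) : ℝ) : ℂ) *
        (E - 1 - I * (4 * π * √(κ * y) : ℝ))‖ ≤ ‖u1‖ * (3 + 3 * π * √κ) * y ^ (1 / 4 : ℝ) := by
      rw [norm_mul, norm_mul, norm_real, Real.norm_of_nonneg (by positivity)]
      have h1 : ‖E - 1 - I * ((4 * π * √(κ * y) : ℝ) : ℂ)‖ ≤ 2 + 4 * π * √(κ * y) := by
        refine (norm_sub_le _ _).trans (add_le_add hE1 ?_)
        rw [norm_mul, norm_I, one_mul, norm_real, Real.norm_of_nonneg (by positivity)]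
      calc ‖u1‖ * (3 / 4 * y ^ (-(1 / 4) : ℝ)) * ‖E - 1 - I * ((4 * π * √(κ * y) : ℝ) : ℂ)‖
          ≤ ‖u1‖ * (3 / 4 * y ^ (-(1 / 4) : ℝ)) * (2 + 4 * π * √(κ * y)) := by gcongr
        _ = ‖u1‖ * (3 / 2 * y ^ (-(1 / 4) : ℝ) + 3 * π * (y ^ (-(1 / 4) : ℝ) * √(κ * y))) := by
            ring
        _ = ‖u1‖ * (3 / 2 * y ^ (-(1 / 4) : ℝ) + 3 * π * (√κ * y ^ (1 / 4 : ℝ))) := by rw [hy14]
        _ ≤ ‖u1‖ * (3 / 2 * (2 * y ^ (1 / 4 : ℝ)) + 3 * π * (√κ * y ^ (1 / 4 : ℝ))) := by gcongr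
        _ = _ := by ring
    have r3 : ‖u1 * ((y ^ (3 / 4 : ℝ) : ℝ) : ℂ) * (E * (I * (2 * π * κ / √(κ * y) : ℝ)) -
      I * (2 * π * κ / √(κ * y) : ℝ))‖ ≤ ‖u1‖ * (4 * π * √κ) * y ^ (1 / 4 : ℝ) := by
      have h1 : E * (I * ((2 * π * κ / √(κ * y) : ℝ) : ℂ)) - I * ((2 * π * κ / √(κ * y) : ℝ) : ℂ) =
          (E - 1) * I * ((2 * π * κ / √(κ * y) : ℝ) : ℂ) := by ring
      rw [h1, norm_mul, norm_mul, norm_mul, norm_mul, norm_real, norm_real, norm_I,
        Real.norm_of_nonneg (by positivity), Real.norm_of_nonneg (by positivity)]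
      calc ‖u1‖ * y ^ (3 / 4 : ℝ) * (‖E - 1‖ * 1 * (2 * π * κ / √(κ * y)))
          ≤ ‖u1‖ * y ^ (3 / 4 : ℝ) * (2 * 1 * (2 * π * κ / √(κ * y))) := by gcongr
        _ = ‖u1‖ * 2 * (y ^ (3 / 4 : ℝ) * (2 * π * κ / √(κ * y))) := by ring
        _ = ‖u1‖ * 2 * (2 * π * √κ * y ^ (1 / 4 : ℝ)) := by rw [hy34]
        _ = _ := by ring
    calc ‖R‖ ≤ ‖u0‖ * (5 / 4) * 2 * y ^ (1 / 4 : ℝ) + (‖u1‖ * (3 + 3 * π * √κ) * y ^ (1 / 4 : ℝ) +
          ‖u1‖ * (4 * π * √κ) * y ^ (1 / 4 : ℝ)) :=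
          (norm_add_le _ _).trans (add_le_add r1 ((norm_add_le _ _).trans (add_le_add r2 r3)))
      _ = _ := by ring
  have hfin : VO8_W' κ u0 u1 y + conj (VO8_W' κ u0 u1 y) -
      ((Pm κ (4 * π * √κ * I * u0) 1 y : ℝ) : ℂ) = R + conj R := by
    rw [hW, ← hPm, map_add]
    ring
  rw [hfin]
  have hp14 : 0 < y ^ (1 / 4 : ℝ) := Real.rpow_pos_of_pos hy0 _
  calc ‖R + conj R‖ ≤ ‖R‖ + ‖R‖ := (norm_add_le _ _).trans_eq (by rw [RCLike.norm_conj])
    _ ≤ _ := by nlinarith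

/-- **VO8.** `Θ` and its derivative: `Θ'(y) = Re(c0 y^{3/4} e(2√(κy))) + O(y^{1/4+δ})`. -/
theorem Theta_deriv (h : RealSelberg a L 2) (hf : Fun2 L Q lam mu w) : ∃ (c0 : ℂ) (Θ' : ℝ → ℂ),
    c0 ≠ 0 ∧ (∀ y : ℝ, 0 < y → HasDerivAt (Theta Q lam mu w) (Θ' y) y) ∧
    ∀ δ : ℝ, 0 < δ → ∃ C : ℝ, 0 < C ∧ ∀ y : ℝ, 1 / 2 ≤ y →
      ‖Θ' y - ((Pm (kap Q lam) c0 1 y : ℝ) : ℂ)‖ ≤ C * y ^ (1 / 4 + δ) := by
  have hκ := kap_pos hf
  obtain ⟨h0, h1, hh0, hRem⟩ := Rem_bound h hf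
  obtain ⟨C0, hC0, hM0⟩ := Mf_zero_transform hκ
  obtain ⟨C1, hM1⟩ := Mf_one_transform hκ
  set κ := kap Q lam with hκd
  obtain ⟨Cb, hCb, hbb⟩ := hRem (1 / 8) (by norm_num) le_rfl
  set W := VO8_W κ (h0 * C0) (h1 * C1) with hW
  set W' := VO8_W' κ (h0 * C0) (h1 * C1) with hW'
  set V : ℝ → ℂ := fun y => (1 / (2 * π) : ℂ) * ∫ t : ℝ,
        Rem Q lam mu w h0 h1 (-(3 / 8) + t * I) * (y : ℂ) ^ (-(3 / 8) + t * I + 2 : ℂ) with hV
  have hdec : ∀ y : ℝ, 0 < y → Theta Q lam mu w y = W y + conj (W y) + V y := fun y hy =>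
    VO8_dec hy (hM0 y hy) (hM1 y hy) (VO8_int hbb hy)
  -- the derivative of V
  have hVd : ∀ δ : ℝ, 0 < δ → δ ≤ 1 / 8 → ∃ (V' : ℝ → ℂ) (C' : ℝ), ∀ y : ℝ, 0 < y →
      HasDerivAt V (V' y) y ∧ ‖V' y‖ ≤ C' * y ^ (1 / 4 + δ) := by
    intro δ hδ hδ'
    obtain ⟨C, hC, hb⟩ := hRem (δ / 2) (by linarith) (by linarith)
    obtain ⟨V1, V', C', hV1, hV'⟩ := Rem_transform hδ hδ' hC hb
    refine ⟨V', C', fun y hy => ⟨?_, (hV' y hy).2⟩⟩
    refine (hV' y hy).1.congr_of_eventuallyEq ?_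
    filter_upwards [Ioi_mem_nhds hy] with z hz
    rw [hV1 z hz]
  have hWd : ∀ y : ℝ, 0 < y → HasDerivAt (fun y => W y + conj (W y)) (W' y + conj (W' y)) y := by
    intro y hy
    have h1 := VO8_hasDeriv hκ (h0 * C0) (h1 * C1) hy
    exact h1.add h1.star
  have hd : ∀ y : ℝ, 0 < y → ∀ v : ℂ, HasDerivAt V v y →
      HasDerivAt (Theta Q lam mu w) (W' y + conj (W' y) + v) y := by
    intro y hy v hv
    refine ((hWd y hy).add hv).congr_of_eventuallyEq ?_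
    filter_upwards [Ioi_mem_nhds hy] with z hz
    exact hdec z hz
  obtain ⟨V8, C8, hV8⟩ := hVd (1 / 8) (by norm_num) le_rfl
  refine ⟨4 * π * √κ * I * (h0 * C0), fun y => W' y + conj (W' y) + V8 y, ?_,
    fun y hy => hd y hy _ (hV8 y hy).1, fun δ hδ => ?_⟩
  · have hK0 : (√κ : ℝ) ≠ 0 := (Real.sqrt_pos.2 hκ).ne'
    have hK1 : ((√κ : ℝ) : ℂ) ≠ 0 := by exact_mod_cast hK0
    have hπ : (π : ℂ) ≠ 0 := by exact_mod_cast Real.pi_ne_zero
    exact mul_ne_zero (mul_ne_zero (mul_ne_zero (mul_ne_zero (by norm_num) hπ) hK1) I_ne_zero)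
      (mul_ne_zero hh0 hC0)
  obtain ⟨B, hB, hmain⟩ := VO8_main hκ (h0 * C0) (h1 * C1)
  set δ1 : ℝ := min δ (1 / 8) with hδ1
  have hδ1p : 0 < δ1 := lt_min hδ (by norm_num)
  have hδ1l : δ1 ≤ δ := min_le_left _ _
  obtain ⟨V1, C1', hV1⟩ := hVd δ1 hδ1p (min_le_right _ _)
  set q1 : ℝ := (1 / 2 : ℝ) ^ (-((1 / 4 + δ) - 1 / 4)) with hq1
  set q2 : ℝ := (1 / 2 : ℝ) ^ (-((1 / 4 + δ) - (1 / 4 + δ1))) with hq2
  have hq1p : 0 < q1 := Real.rpow_pos_of_pos (by norm_num) _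
  have hq2p : 0 < q2 := Real.rpow_pos_of_pos (by norm_num) _
  refine ⟨B * q1 + |C1'| * q2, by positivity, fun y hy => ?_⟩
  have hy0 : 0 < y := by linarith
  have huniq : V8 y = V1 y := (hV8 y hy0).1.unique (hV1 y hy0).1
  have e1 : W' y + conj (W' y) + V8 y - ((Pm κ (4 * π * √κ * I * (h0 * C0)) 1 y : ℝ) : ℂ) =
      (W' y + conj (W' y) - ((Pm κ (4 * π * √κ * I * (h0 * C0)) 1 y : ℝ) : ℂ)) + V1 y := by
    rw [huniq]; ring
  rw [e1]
  have e2 := hmain y hy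
  have e3 := (hV1 y hy0).2
  have e4 := VO8_pow hy (by linarith : (1 / 4 : ℝ) ≤ 1 / 4 + δ)
  have e5 := VO8_pow hy (by linarith : (1 / 4 + δ1 : ℝ) ≤ 1 / 4 + δ)
  have hp : 0 < y ^ (1 / 4 + δ1) := Real.rpow_pos_of_pos hy0 _
  have e6 : ‖V1 y‖ ≤ |C1'| * (q2 * y ^ (1 / 4 + δ)) := by
    refine e3.trans ?_
    calc C1' * y ^ (1 / 4 + δ1) ≤ |C1'| * y ^ (1 / 4 + δ1) :=
          mul_le_mul_of_nonneg_right (le_abs_self _) hp.le
      _ ≤ _ := mul_le_mul_of_nonneg_left e5 (abs_nonneg _)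
  calc _ ≤ B * (q1 * y ^ (1 / 4 + δ)) + |C1'| * (q2 * y ^ (1 / 4 + δ)) :=
        (norm_add_le _ _).trans (add_le_add (e2.trans (mul_le_mul_of_nonneg_left e4 hB.le)) e6)
    _ = _ := by ring
--END VO8

/-! ### The error term -/

--BEGIN VO9
private theorem VO9_diff (h : RealSelberg a L 2) {s : ℂ} (hs : s ≠ 1) : DifferentiableAt ℂ L s := by
  obtain ⟨m, G, A, hG, hGL, -⟩ := h.continuation
  have h1 : DifferentiableAt ℂ (fun z => G z / (z - 1) ^ m) s := by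
    refine (hG s).div (by fun_prop) (pow_ne_zero _ (sub_ne_zero.2 hs))
  refine h1.congr_of_eventuallyEq ?_
  filter_upwards [isOpen_ne.mem_nhds hs] with z hz
  have hz' : (z - 1) ^ m ≠ 0 := pow_ne_zero _ (sub_ne_zero.2 hz)
  rw [hGL z hz]; field_simp

private theorem VO9_sphere {r : ℝ} (_hr : 0 < r) (hr' : r ≤ 1 / 2) {s : ℂ}
    (hs : s ∈ Metric.sphere (1 : ℂ) r) :
    1 - r ≤ s.re ∧ s.re ≤ 1 + r ∧ 1 / 2 ≤ s.re ∧ 1 / 2 ≤ ‖s‖ ∧ ‖s‖ ≤ 3 / 2 := by
  have h1 : ‖s - 1‖ = r := by simpa [dist_eq_norm] using hs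
  have h2 : |(s - 1).re| ≤ r := h1 ▸ Complex.abs_re_le_norm (s - 1)
  simp only [Complex.sub_re, Complex.one_re] at h2
  rw [abs_le] at h2
  have h3 : s.re ≤ ‖s‖ := Complex.re_le_norm s
  have h4 : ‖s‖ ≤ ‖s - 1‖ + ‖(1 : ℂ)‖ := by
    have := norm_add_le (s - 1) 1
    simpa using this
  rw [h1, norm_one] at h4
  refine ⟨by linarith, by linarith, by linarith, by linarith, by linarith⟩

/-- bound on the circle -/
private theorem VO9_bound {k : ℂ → ℂ} {r : ℝ} (hr : 0 < r) (hr' : r ≤ 1 / 2)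
    (hk : ContinuousOn k (Metric.sphere (1 : ℂ) r)) (c : ℝ) : ∃ K : ℝ, 0 < K ∧ ∀ t : ℝ, 0 < t →
    ‖(2 * π * I : ℂ)⁻¹ * ∮ s in C(1, r), k s * (t : ℂ) ^ (s + c)‖ ≤
      K * (t ^ (1 - r + c) + t ^ (1 + r + c)) := by
  obtain ⟨B, hB⟩ := (isCompact_sphere (1 : ℂ) r).exists_bound_of_continuousOn hk
  refine ⟨max B 1, by positivity, fun t ht => ?_⟩
  have hp1 : 0 < t ^ (1 - r + c) := Real.rpow_pos_of_pos ht _
  have hp2 : 0 < t ^ (1 + r + c) := Real.rpow_pos_of_pos ht _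
  have h1 : ∀ s ∈ Metric.sphere (1 : ℂ) r, ‖k s * (t : ℂ) ^ (s + c)‖ ≤
      max B 1 * (t ^ (1 - r + c) + t ^ (1 + r + c)) := by
    intro s hs
    obtain ⟨e1, e2, -, -, -⟩ := VO9_sphere hr hr' hs
    rw [norm_mul, Complex.norm_cpow_eq_rpow_re_of_pos ht]
    have h2 : t ^ (s + c).re ≤ t ^ (1 - r + c) + t ^ (1 + r + c) := by
      have e3 : (s + c).re = s.re + c := by simp
      rw [e3]
      rcases le_total 1 t with h | h
      · have := Real.rpow_le_rpow_of_exponent_le h (by linarith : s.re + c ≤ 1 + r + c)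
        linarith
      · have := Real.rpow_le_rpow_of_exponent_ge ht h (by linarith : 1 - r + c ≤ s.re + c)
        linarith
    exact mul_le_mul ((hB s hs).trans (le_max_left _ _)) h2 (Real.rpow_nonneg ht.le _)
      (by positivity)
  have h2 := circleIntegral.norm_two_pi_i_inv_smul_integral_le_of_norm_le_const hr.le h1
  rw [smul_eq_mul] at h2
  refine h2.trans ?_
  have : 0 ≤ max B 1 * (t ^ (1 - r + c) + t ^ (1 + r + c)) := by positivity
  nlinarith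

private theorem VO9_cont {k : ℂ → ℂ} {r : ℝ} (hr : 0 < r)
    (hk : ContinuousOn k (Metric.sphere (1 : ℂ) r)) (c : ℂ) :
    ContinuousOn (fun p : ℝ × ℝ => deriv (circleMap 1 r) p.2 •
      (k (circleMap 1 r p.2) * (p.1 : ℂ) ^ (circleMap 1 r p.2 + c))) (Ioi 0 ×ˢ univ) := by
  have h0 : ContinuousOn (fun p : ℝ × ℝ => k (circleMap 1 r p.2)) (Ioi 0 ×ˢ univ) := by
    refine hk.comp (Continuous.continuousOn ?_) ?_
    · exact (continuous_circleMap 1 r).comp continuous_snd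
    · intro p _
      exact circleMap_mem_sphere 1 hr.le p.2
  have h1 : ContinuousOn (fun p : ℝ × ℝ => (p.1 : ℂ) ^ (circleMap 1 r p.2 + c))
      (Ioi 0 ×ˢ univ) := by
    refine ContinuousOn.cpow ?_ ?_ ?_
    · exact (Complex.continuous_ofReal.comp continuous_fst).continuousOn
    · exact (((continuous_circleMap 1 r).comp continuous_snd).add continuous_const).continuousOn
    · rintro ⟨x, y⟩ hp
      have : 0 < x := hp.1
      exact Or.inl (by simpa using this)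
  have h2 : ContinuousOn (fun p : ℝ × ℝ => deriv (circleMap 1 r) p.2) (Ioi 0 ×ˢ univ) := by
    simp only [deriv_circleMap]
    exact (((continuous_circleMap 0 r).comp continuous_snd).mul continuous_const).continuousOn
  exact h2.smul (h0.mul h1)

/-- derivative under the integral sign -/
private theorem VO9_deriv {k : ℂ → ℂ} {r : ℝ} (hr : 0 < r)
    (hk : ContinuousOn k (Metric.sphere (1 : ℂ) r)) (c : ℂ) {x : ℝ} (hx : 0 < x) :
    HasDerivAt (fun z : ℝ => ∮ s in C(1, r), k s * (z : ℂ) ^ (s + c))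
      (∮ s in C(1, r), k s * (s + c) * (x : ℂ) ^ (s + (c - 1))) x := by
  have hk' : ContinuousOn (fun s => k s * (s + c)) (Metric.sphere (1 : ℂ) r) :=
    hk.mul (by fun_prop)
  have c1 := VO9_cont hr hk c
  have c2 := VO9_cont hr hk' (c - 1)
  have hsub : Icc (x / 2) (2 * x) ×ˢ Icc 0 (2 * π) ⊆ (Ioi 0 ×ˢ univ : Set (ℝ × ℝ)) := by
    rintro ⟨p, q⟩ hp
    exact ⟨lt_of_lt_of_le (by positivity : 0 < x / 2) hp.1.1, mem_univ _⟩
  obtain ⟨B, hB⟩ := (isCompact_Icc.prod isCompact_Icc).exists_bound_of_continuousOn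
    (c2.mono hsub)
  have key := intervalIntegral.hasDerivAt_integral_of_dominated_loc_of_deriv_le
    (μ := volume) (a := 0) (b := 2 * π) (x₀ := x) (s := Ioo (x / 2) (2 * x))
    (F := fun (z : ℝ) (θ : ℝ) => deriv (circleMap 1 r) θ •
      (k (circleMap 1 r θ) * (z : ℂ) ^ (circleMap 1 r θ + c)))
    (F' := fun (z : ℝ) (θ : ℝ) => deriv (circleMap 1 r) θ •
      (k (circleMap 1 r θ) * (circleMap 1 r θ + c) * (z : ℂ) ^ (circleMap 1 r θ + (c - 1))))
    (bound := fun _ => B)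
    (Ioo_mem_nhds (by linarith) (by linarith)) ?_ ?_ ?_ ?_ ?_ ?_
  · exact key.2
  · filter_upwards [lt_mem_nhds hx] with z hz
    have : Continuous (fun θ : ℝ => deriv (circleMap 1 r) θ •
      (k (circleMap 1 r θ) * (z : ℂ) ^ (circleMap 1 r θ + c))) := by
      have := c1.comp_continuous (f := fun θ : ℝ => (z, θ)) (by fun_prop)
        (fun θ => ⟨hz, mem_univ _⟩)
      exact this
    exact this.aestronglyMeasurable
  · have : Continuous (fun θ : ℝ => deriv (circleMap 1 r) θ •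
      (k (circleMap 1 r θ) * (x : ℂ) ^ (circleMap 1 r θ + c))) := by
      have := c1.comp_continuous (f := fun θ : ℝ => (x, θ)) (by fun_prop)
        (fun θ => ⟨hx, mem_univ _⟩)
      exact this
    exact this.intervalIntegrable _ _
  · have : Continuous (fun θ : ℝ => deriv (circleMap 1 r) θ •
      (k (circleMap 1 r θ) * (circleMap 1 r θ + c) *
        (x : ℂ) ^ (circleMap 1 r θ + (c - 1)))) := by
      have := c2.comp_continuous (f := fun θ : ℝ => (x, θ)) (by fun_prop)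
        (fun θ => ⟨hx, mem_univ _⟩)
      exact this
    exact this.aestronglyMeasurable
  · refine Filter.Eventually.of_forall fun θ hθ z hz => ?_
    have hθ' : θ ∈ Icc 0 (2 * π) := by
      rw [uIoc_of_le (by positivity)] at hθ
      exact ⟨hθ.1.le, hθ.2⟩
    exact hB (z, θ) ⟨⟨hz.1.le, hz.2.le⟩, hθ'⟩
  · exact intervalIntegrable_const
  · refine Filter.Eventually.of_forall fun θ hθ z hz => ?_
    have hz0 : 0 < z := lt_trans (by positivity : 0 < x / 2) hz.1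
    have h1 : HasDerivAt (fun y : ℂ => y ^ (circleMap 1 r θ + c))
        ((circleMap 1 r θ + c) * (z : ℂ) ^ (circleMap 1 r θ + c - 1) * 1) (z : ℂ) :=
      (hasDerivAt_id (z : ℂ)).cpow_const (Or.inl (by simpa using hz0))
    have h2 := (h1.comp_ofReal).const_mul (k (circleMap 1 r θ))
    have h3 := h2.const_smul (deriv (circleMap 1 r) θ)
    refine h3.congr_deriv ?_
    rw [mul_one, add_sub_assoc, mul_assoc]

private theorem VO9_q (u : ℝ) : HasDerivAt (fun v : ℝ => (max v 0) ^ 2) (2 * max u 0) u := by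
  rcases lt_trichotomy u 0 with h | h | h
  · have h1 : HasDerivAt (fun _ : ℝ => (0 : ℝ)) 0 u := hasDerivAt_const _ _
    rw [max_eq_right h.le, mul_zero]
    refine h1.congr_of_eventuallyEq ?_
    filter_upwards [gt_mem_nhds h] with v hv
    rw [max_eq_right (le_of_lt hv)]; norm_num
  · subst h
    rw [max_self, mul_zero, hasDerivAt_iff_isLittleO]
    have h1 : (fun v : ℝ => v ^ 2) =o[𝓝 0] (fun v : ℝ => v) :=
      Asymptotics.isLittleO_pow_id (by norm_num)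
    simp only [max_self, sub_zero, smul_zero, ne_eq, OfNat.ofNat_ne_zero, not_false_eq_true,
      zero_pow]
    refine (Asymptotics.IsBigO.of_norm_le fun v => ?_).trans_isLittleO h1
    rw [Real.norm_eq_abs, abs_of_nonneg (sq_nonneg _)]
    rcases le_total v 0 with h | h
    · rw [max_eq_right h]; nlinarith [sq_nonneg v]
    · rw [max_eq_left h]
  · have h1 : HasDerivAt (fun v : ℝ => v ^ 2) (2 * u) u := by
      have := hasDerivAt_pow 2 u
      simpa using this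
    rw [max_eq_left h.le]
    refine h1.congr_of_eventuallyEq ?_
    filter_upwards [lt_mem_nhds h] with v hv
    rw [max_eq_left (le_of_lt hv)]

private theorem VO9_sum_shift (a : ℕ → ℝ) {z : ℝ} (g : ℝ → ℝ) (hg : ∀ u, u ≤ 0 → g u = 0)
    {N : ℕ} (hz : z ≤ N) :
    ∑ n ∈ Finset.Icc 1 ⌊z⌋₊, a n * g (z - n) = ∑ n ∈ Finset.Icc 1 N, a n * g (z - n) := by
  refine Finset.sum_subset ?_ ?_
  · refine Finset.Icc_subset_Icc_right ?_
    exact Nat.floor_le_of_le hz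
  · intro n hn hn'
    rw [Finset.mem_Icc] at hn hn'
    have h1 : ⌊z⌋₊ < n := by
      by_contra h; exact hn' ⟨hn.1, not_lt.1 h⟩
    have h2 : z < n := (Nat.floor_lt' (by omega)).1 h1
    rw [hg _ (by linarith), mul_zero]

private theorem VO9_A (a : ℕ → ℝ) (x : ℝ) :
    HasDerivAt (fun z : ℝ => 1 / 2 * ∑ n ∈ Finset.Icc 1 ⌊z⌋₊, a n * (z - n) ^ 2)
      (∑ n ∈ Finset.Icc 1 ⌊x⌋₊, a n * (x - n)) x := by
  obtain ⟨N, hN⟩ := exists_nat_gt x
  have e0 : ∀ z : ℝ, z ≤ N → 1 / 2 * ∑ n ∈ Finset.Icc 1 ⌊z⌋₊, a n * (z - n) ^ 2 =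
      1 / 2 * ∑ n ∈ Finset.Icc 1 N, a n * (max (z - n) 0) ^ 2 := by
    intro z hz
    rw [← VO9_sum_shift a (fun u => (max u 0) ^ 2) (fun u hu => by simp [max_eq_right hu]) hz]
    congr 1
    refine Finset.sum_congr rfl fun n hn => ?_
    rw [Finset.mem_Icc] at hn
    have h1 : (n : ℝ) ≤ z := (Nat.le_floor_iff' (by omega)).1 hn.2
    rw [max_eq_left (by linarith)]
  have e1 : ∑ n ∈ Finset.Icc 1 ⌊x⌋₊, a n * (x - n) =
      1 / 2 * ∑ n ∈ Finset.Icc 1 N, a n * (2 * max (x - n) 0 * 1) := by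
    rw [Finset.mul_sum]
    have e2 : ∀ n : ℕ, 1 / 2 * (a n * (2 * max (x - n) 0 * 1)) = a n * max (x - n) 0 := by
      intro n; ring
    simp only [e2]
    rw [← VO9_sum_shift a (fun u => max u 0) (fun u hu => by simp [max_eq_right hu]) hN.le]
    refine Finset.sum_congr rfl fun n hn => ?_
    rw [Finset.mem_Icc] at hn
    have h1 : (n : ℝ) ≤ x := (Nat.le_floor_iff' (by omega)).1 hn.2
    rw [max_eq_left (by linarith)]
  rw [e1]
  have e3 : HasDerivAt (fun z : ℝ => 1 / 2 * ∑ n ∈ Finset.Icc 1 N, a n * (max (z - n) 0) ^ 2)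
      (1 / 2 * ∑ n ∈ Finset.Icc 1 N, a n * (2 * max (x - n) 0 * 1)) x := by
    refine HasDerivAt.const_mul _ (HasDerivAt.fun_sum fun n _ => HasDerivAt.const_mul _ ?_)
    exact (VO9_q (x - n)).comp x ((hasDerivAt_id x).sub_const (n : ℝ))
  refine e3.congr_of_eventuallyEq ?_
  filter_upwards [gt_mem_nhds hN] with z hz
  exact e0 z (le_of_lt hz)

private theorem VO9_ind {x : ℝ} (_hx : 0 ≤ x) {n : ℕ} (hn : 1 ≤ n) (hnx : (n : ℝ) ≤ x) (c : ℝ) :
    IntervalIntegrable (fun t : ℝ => (Ici (n : ℝ)).indicator (fun _ => c) t) volume 0 x ∧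
    ∫ t in (0 : ℝ)..x, (Ici (n : ℝ)).indicator (fun _ => c) t = c * (x - n) := by
  have hn' : (1 : ℝ) ≤ n := by exact_mod_cast hn
  constructor
  · rw [intervalIntegrable_iff_integrableOn_Ioc_of_le (by linarith)]
    refine IntegrableOn.indicator ?_ measurableSet_Ici
    exact integrableOn_const (by simp)
  · rw [intervalIntegral.integral_of_le (by linarith), setIntegral_indicator measurableSet_Ici]
    have : Ioc 0 x ∩ Ici (n : ℝ) = Icc (n : ℝ) x := by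
      ext t; simp only [mem_inter_iff, mem_Ioc, mem_Ici, mem_Icc]
      constructor
      · rintro ⟨⟨_, h2⟩, h3⟩; exact ⟨h3, h2⟩
      · rintro ⟨h1, h2⟩; exact ⟨⟨by linarith, h2⟩, h1⟩
    rw [this, setIntegral_const, measureReal_def, Real.volume_Icc,
      ENNReal.toReal_ofReal (by linarith), smul_eq_mul, mul_comm]

private theorem VO9_S (a : ℕ → ℝ) {x : ℝ} (hx : 0 ≤ x) :
    IntervalIntegrable (fun t : ℝ => ∑ n ∈ Finset.Icc 1 ⌊t⌋₊, a n) volume 0 x ∧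
    ∫ t in (0 : ℝ)..x, ∑ n ∈ Finset.Icc 1 ⌊t⌋₊, a n = ∑ n ∈ Finset.Icc 1 ⌊x⌋₊, a n * (x - n) := by
  have e0 : EqOn (fun t : ℝ => ∑ n ∈ Finset.Icc 1 ⌊x⌋₊, (Ici (n : ℝ)).indicator (fun _ => a n) t)
      (fun t : ℝ => ∑ n ∈ Finset.Icc 1 ⌊t⌋₊, a n) (uIcc 0 x) := by
    intro t ht
    rw [uIcc_of_le hx] at ht
    simp only
    symm
    rw [← Finset.sum_subset (Finset.Icc_subset_Icc_right (Nat.floor_mono ht.2))]
    · refine Finset.sum_congr rfl fun n hn => ?_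
      rw [Finset.mem_Icc] at hn
      have h1 : (n : ℝ) ≤ t := (Nat.le_floor_iff' (by omega)).1 hn.2
      rw [indicator_of_mem (by exact h1)]
    · intro n hn hn'
      rw [Finset.mem_Icc] at hn hn'
      have h1 : ⌊t⌋₊ < n := by
        by_contra h; exact hn' ⟨hn.1, not_lt.1 h⟩
      have h2 : t < n := (Nat.floor_lt' (by omega)).1 h1
      rw [indicator_of_notMem (by simpa using h2)]
  have e1 : IntervalIntegrable (fun t : ℝ => ∑ n ∈ Finset.Icc 1 ⌊x⌋₊,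
      (Ici (n : ℝ)).indicator (fun _ => a n) t) volume 0 x := by
    rw [intervalIntegrable_iff_integrableOn_Ioc_of_le hx]
    refine integrable_finsetSum _ fun n hn => ?_
    rw [Finset.mem_Icc] at hn
    have := (VO9_ind hx hn.1 ((Nat.le_floor_iff' (by omega)).1 hn.2) (a n)).1
    rwa [intervalIntegrable_iff_integrableOn_Ioc_of_le hx] at this
  refine ⟨IntervalIntegrable.congr (e0.mono uIoc_subset_uIcc) e1, ?_⟩
  rw [← intervalIntegral.integral_congr e0, intervalIntegral.integral_finsetSum]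
  · refine Finset.sum_congr rfl fun n hn => ?_
    rw [Finset.mem_Icc] at hn
    exact (VO9_ind hx hn.1 ((Nat.le_floor_iff' (by omega)).1 hn.2) (a n)).2
  · intro n hn
    rw [Finset.mem_Icc] at hn
    exact (VO9_ind hx hn.1 ((Nat.le_floor_iff' (by omega)).1 hn.2) (a n)).1

private theorem VO9_k (h : RealSelberg a L 2) {r : ℝ} (hr : 0 < r)
    {q : ℂ → ℂ} (hq : ContinuousOn q (Metric.sphere (1 : ℂ) r))
    (hq0 : ∀ s ∈ Metric.sphere (1 : ℂ) r, q s ≠ 0) :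
    ContinuousOn (fun s => L s / q s) (Metric.sphere (1 : ℂ) r) := by
  refine ContinuousOn.div (fun s hs => ?_) hq hq0
  refine (VO9_diff h ?_).continuousAt.continuousWithinAt
  rintro rfl
  rw [Metric.mem_sphere, dist_self] at hs
  linarith

private theorem VO9_re {s : ℂ} (hs : s ∈ Metric.sphere (1 : ℂ) (1 / 2)) :
    s ≠ 0 ∧ s + 1 ≠ 0 ∧ s + 2 ≠ 0 := by
  have h1 := (VO9_sphere (by norm_num) le_rfl hs).2.2.1
  refine ⟨?_, ?_, ?_⟩
  · rintro rfl; norm_num at h1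
  · intro h
    have : (s + 1).re = 0 := by rw [h]; simp
    simp only [add_re, one_re] at this
    linarith
  · intro h
    have : (s + 2).re = 0 := by rw [h]; simp
    simp only [add_re, re_ofNat] at this
    linarith

private theorem VO9_P (h : RealSelberg a L 2) :
    (∀ x : ℝ, 0 < x → HasDerivAt (fun z : ℝ => ((2 * π * I : ℂ)⁻¹ * ∮ s in C(1, 1 / 2),
        L s * (z : ℂ) ^ (s + 2) / (s * (s + 1) * (s + 2))).re)
      ((2 * π * I : ℂ)⁻¹ * ∮ s in C(1, 1 / 2), L s * (x : ℂ) ^ (s + 1) / (s * (s + 1))).re x) ∧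
    (∀ x : ℝ, 0 < x → HasDerivAt (fun z : ℝ => ((2 * π * I : ℂ)⁻¹ * ∮ s in C(1, 1 / 2),
        L s * (z : ℂ) ^ (s + 1) / (s * (s + 1))).re)
      ((2 * π * I : ℂ)⁻¹ * ∮ s in C(1, 1 / 2), L s * (x : ℂ) ^ s / s).re x) ∧
    (∃ K : ℝ, 0 < K ∧ ∀ x : ℝ, 0 < x →
      |((2 * π * I : ℂ)⁻¹ * ∮ s in C(1, 1 / 2), L s * (x : ℂ) ^ (s + 1) / (s * (s + 1))).re| ≤
        K * (x ^ (3 / 2 : ℝ) + x ^ (5 / 2 : ℝ))) ∧
    (∃ K : ℝ, 0 < K ∧ ∀ x : ℝ, 0 < x →
      |((2 * π * I : ℂ)⁻¹ * ∮ s in C(1, 1 / 2), L s * (x : ℂ) ^ s / s).re| ≤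
        K * (x ^ (1 / 2 : ℝ) + x ^ (3 / 2 : ℝ))) ∧
    ContinuousOn (fun x : ℝ => ((2 * π * I : ℂ)⁻¹ * ∮ s in C(1, 1 / 2),
      L s * (x : ℂ) ^ s / s).re) (Ioi 0) := by
  have hr : (0 : ℝ) < 1 / 2 := by norm_num
  have k2 := VO9_k h (q := fun s => s * (s + 1) * (s + 2)) hr (by fun_prop)
    (fun s hs => by
      obtain ⟨h1, h2, h3⟩ := VO9_re hs
      exact mul_ne_zero (mul_ne_zero h1 h2) h3)
  have k1 := VO9_k h (q := fun s => s * (s + 1)) hr (by fun_prop)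
    (fun s hs => by
      obtain ⟨h1, h2, h3⟩ := VO9_re hs
      exact mul_ne_zero h1 h2)
  have k0 := VO9_k h (q := fun s => s) hr (by fun_prop)
    (fun s hs => (VO9_re hs).1)
  have f2 : ∀ z : ℝ, (∮ s in C(1, 1 / 2), L s * (z : ℂ) ^ (s + 2) / (s * (s + 1) * (s + 2))) =
      ∮ s in C(1, 1 / 2), L s / (s * (s + 1) * (s + 2)) * (z : ℂ) ^ (s + 2) := by
    intro z
    exact circleIntegral.integral_congr hr.le (fun s _ => by ring)
  have f1 : ∀ z : ℝ, (∮ s in C(1, 1 / 2), L s * (z : ℂ) ^ (s + 1) / (s * (s + 1))) =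
      ∮ s in C(1, 1 / 2), L s / (s * (s + 1)) * (z : ℂ) ^ (s + 1) := by
    intro z
    exact circleIntegral.integral_congr hr.le (fun s _ => by ring)
  have f0 : ∀ z : ℝ, (∮ s in C(1, 1 / 2), L s * (z : ℂ) ^ s / s) =
      ∮ s in C(1, 1 / 2), L s / s * (z : ℂ) ^ (s + 0) := by
    intro z
    exact circleIntegral.integral_congr hr.le (fun s _ => by simp only [add_zero]; ring)
  have g1 : ∀ z : ℝ, (∮ s in C(1, 1 / 2), L s / (s * (s + 1) * (s + 2)) * (s + 2) *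
      (z : ℂ) ^ (s + (2 - 1))) = ∮ s in C(1, 1 / 2), L s / (s * (s + 1)) * (z : ℂ) ^ (s + 1) := by
    intro z
    refine circleIntegral.integral_congr hr.le (fun s hs => ?_)
    obtain ⟨h1, h2, h3⟩ := VO9_re hs
    have : (2 - 1 : ℂ) = 1 := by norm_num
    simp only [this]
    field_simp
  have g0 : ∀ z : ℝ, (∮ s in C(1, 1 / 2), L s / (s * (s + 1)) * (s + 1) *
      (z : ℂ) ^ (s + (1 - 1))) = ∮ s in C(1, 1 / 2), L s / s * (z : ℂ) ^ (s + 0) := by
    intro z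
    refine circleIntegral.integral_congr hr.le (fun s hs => ?_)
    obtain ⟨h1, h2, h3⟩ := VO9_re hs
    have : (1 - 1 : ℂ) = 0 := by norm_num
    simp only [this]
    field_simp
  simp only [f2, f1, f0]
  have d1 : ∀ x : ℝ, 0 < x → HasDerivAt (fun z : ℝ => ((2 * π * I : ℂ)⁻¹ *
      ∮ s in C(1, 1 / 2), L s / (s * (s + 1)) * (z : ℂ) ^ (s + 1)).re)
      ((2 * π * I : ℂ)⁻¹ * ∮ s in C(1, 1 / 2), L s / s * (x : ℂ) ^ (s + 0)).re x := by
    intro x hx
    have := (VO9_deriv hr k1 1 hx).const_mul (2 * π * I : ℂ)⁻¹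
    rw [g0] at this
    exact Complex.reCLM.hasFDerivAt.comp_hasDerivAt x this
  have b1 := VO9_bound hr le_rfl k1 1
  have b0 := VO9_bound hr le_rfl k0 0
  simp only [ofReal_one] at b1
  simp only [ofReal_zero] at b0
  refine ⟨fun x hx => ?_, d1, ?_, ?_, ?_⟩
  · have := (VO9_deriv hr k2 2 hx).const_mul (2 * π * I : ℂ)⁻¹
    rw [g1] at this
    exact Complex.reCLM.hasFDerivAt.comp_hasDerivAt x this
  · obtain ⟨K, hK, hb⟩ := b1
    refine ⟨K, hK, fun x hx => (Complex.abs_re_le_norm _).trans ?_⟩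
    have := hb x hx
    norm_num at this ⊢
    exact this
  · obtain ⟨K, hK, hb⟩ := b0
    refine ⟨K, hK, fun x hx => (Complex.abs_re_le_norm _).trans ?_⟩
    have := hb x hx
    norm_num at this ⊢
    exact this
  · intro x hx
    have := ((VO9_deriv hr k0 0 hx).const_mul (2 * π * I : ℂ)⁻¹).continuousAt
    exact (Complex.continuous_re.continuousAt.comp this).continuousWithinAt

/-- **VO9.** Integrals of `E_f`. -/
theorem int_errTerm (h : RealSelberg a L 2) : (∀ x : ℝ, 0 ≤ x →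
      IntervalIntegrable (errTerm a L) volume 0 x) ∧
    ∀ x : ℝ, 0 < x → HasDerivAt (fun z : ℝ => 1 / 2 * ∑ n ∈ Finset.Icc 1 ⌊z⌋₊, a n * (z - n) ^ 2 -
      ((2 * π * I)⁻¹ * ∮ s in C(1, 1 / 2), L s * (z : ℂ) ^ (s + 2) /
        (s * (s + 1) * (s + 2))).re) (∫ t in (0 : ℝ)..x, errTerm a L t) x := by
  obtain ⟨d2, d1, ⟨K1, hK1, b1⟩, ⟨K0, hK0, b0⟩, hc⟩ := VO9_P h
  have iP : ∀ x : ℝ, 0 ≤ x → IntervalIntegrable (fun t : ℝ =>
      ((2 * π * I : ℂ)⁻¹ * ∮ s in C(1, 1 / 2), L s * (t : ℂ) ^ s / s).re) volume 0 x := by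
    intro x hx
    rw [intervalIntegrable_iff_integrableOn_Ioc_of_le hx]
    refine IntegrableOn.of_bound (by simp)
      ((hc.mono Ioc_subset_Ioi_self).aestronglyMeasurable measurableSet_Ioc)
      (K0 * (x ^ (1 / 2 : ℝ) + x ^ (3 / 2 : ℝ))) ?_
    rw [ae_restrict_iff' measurableSet_Ioc]
    refine Filter.Eventually.of_forall fun t ht => ?_
    rw [Real.norm_eq_abs]
    refine (b0 t ht.1).trans ?_
    have e1 := Real.rpow_le_rpow ht.1.le ht.2 (by norm_num : (0 : ℝ) ≤ 1 / 2)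
    have e2 := Real.rpow_le_rpow ht.1.le ht.2 (by norm_num : (0 : ℝ) ≤ 3 / 2)
    exact mul_le_mul_of_nonneg_left (add_le_add e1 e2) hK0.le
  have iE : ∀ x : ℝ, 0 ≤ x → IntervalIntegrable (errTerm a L) volume 0 x := by
    intro x hx
    exact (VO9_S a hx).1.sub (iP x hx)
  refine ⟨iE, fun x hx => ?_⟩
  have i1 : ∫ t in (0 : ℝ)..x, ((2 * π * I : ℂ)⁻¹ * ∮ s in C(1, 1 / 2),
      L s * (t : ℂ) ^ s / s).re =
      ((2 * π * I : ℂ)⁻¹ * ∮ s in C(1, 1 / 2), L s * (x : ℂ) ^ (s + 1) / (s * (s + 1))).re - 0 := by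
    refine intervalIntegral.integral_eq_sub_of_hasDerivAt_of_tendsto
      (f := fun z : ℝ => ((2 * π * I : ℂ)⁻¹ * ∮ s in C(1, 1 / 2),
        L s * (z : ℂ) ^ (s + 1) / (s * (s + 1))).re) hx (fun t ht => d1 t ht.1) (iP x hx.le) ?_ ?_
    · have t1 : Tendsto (fun z : ℝ => K1 * (z ^ (3 / 2 : ℝ) + z ^ (5 / 2 : ℝ))) (𝓝[>] 0) (𝓝 0) := by
        have e1 : Tendsto (fun z : ℝ => K1 * (z ^ (3 / 2 : ℝ) + z ^ (5 / 2 : ℝ))) (𝓝 0)
            (𝓝 (K1 * ((0 : ℝ) ^ (3 / 2 : ℝ) + (0 : ℝ) ^ (5 / 2 : ℝ)))) := by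
          refine Tendsto.const_mul _ (Tendsto.add ?_ ?_)
          · exact (Real.continuousAt_rpow_const _ _ (Or.inr (by norm_num))).tendsto
          · exact (Real.continuousAt_rpow_const _ _ (Or.inr (by norm_num))).tendsto
        rw [Real.zero_rpow (by norm_num), Real.zero_rpow (by norm_num), add_zero, mul_zero] at e1
        exact e1.mono_left nhdsWithin_le_nhds
      refine squeeze_zero_norm' ?_ t1
      filter_upwards [self_mem_nhdsWithin] with z hz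
      rw [Real.norm_eq_abs]
      exact b1 z hz
    · exact (d1 x hx).continuousAt.tendsto.mono_left nhdsWithin_le_nhds
  have i2 : ∫ t in (0 : ℝ)..x, errTerm a L t = ∑ n ∈ Finset.Icc 1 ⌊x⌋₊, a n * (x - n) -
      ((2 * π * I : ℂ)⁻¹ * ∮ s in C(1, 1 / 2), L s * (x : ℂ) ^ (s + 1) / (s * (s + 1))).re := by
    have := intervalIntegral.integral_sub (VO9_S a hx.le).1 (iP x hx.le)
    rw [(VO9_S a hx.le).2, i1, sub_zero] at this
    exact this
  rw [i2]
  exact (VO9_A a x).sub (d2 x hx)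
--END VO9

--BEGIN VO10
private theorem VO10_shrink (h : RealSelberg a L 2) {r : ℝ} (hr : 0 < r) (hr' : r ≤ 1 / 2) {x : ℝ}
    (hx : 0 < x) : (∮ s in C(1, 1 / 2), L s * (x : ℂ) ^ s / s) =
      ∮ s in C(1, r), L s / s * (x : ℂ) ^ (s + (0 : ℝ)) := by
  have e1 : (∮ s in C(1, r), L s / s * (x : ℂ) ^ (s + (0 : ℝ))) =
      ∮ s in C(1, r), L s * (x : ℂ) ^ s / s := by
    refine circleIntegral.integral_congr hr.le (fun s _ => ?_)
    simp only [ofReal_zero, add_zero]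
    ring
  rw [e1]
  have hd : ∀ z ∈ Metric.closedBall (1 : ℂ) (1 / 2) \ Metric.ball (1 : ℂ) r,
      DifferentiableAt ℂ (fun s => L s * (x : ℂ) ^ s / s) z := by
    intro z hz
    have hz1 : z ≠ 1 := by
      rintro rfl
      exact hz.2 (Metric.mem_ball_self hr)
    have hz0 : z ≠ 0 := by
      rintro rfl
      have := hz.1
      rw [Metric.mem_closedBall, dist_eq_norm, zero_sub, norm_neg, norm_one] at this
      norm_num at this
    have hx0 : (x : ℂ) ≠ 0 := by exact_mod_cast hx.ne'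
    refine ((VO9_diff h hz1).mul ?_).div differentiableAt_id hz0
    exact (differentiableAt_id).const_cpow (Or.inl hx0)
  refine Complex.circleIntegral_eq_of_differentiable_on_annulus_off_countable hr hr'
    countable_empty (fun z hz => (hd z hz).continuousAt.continuousWithinAt) ?_
  intro z hz
  refine hd z ⟨Metric.ball_subset_closedBall hz.1.1, fun h => hz.1.2 ?_⟩
  exact Metric.ball_subset_closedBall h

/-- **VO10.** Trivial bound `E_f(x) ≪ x^{1+ε}`, and `E_f(x) ≪ x^{1/2}` near `0`. -/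
theorem errTerm_trivial (h : RealSelberg a L 2) {ε : ℝ} (hε : 0 < ε) : ∃ C : ℝ, 0 < C ∧
    (∀ x : ℝ, 1 ≤ x → |errTerm a L x| ≤ C * x ^ (1 + ε)) ∧
    ∀ x : ℝ, 0 < x → x ≤ 1 → |errTerm a L x| ≤ C * x ^ (1 / 2 : ℝ) := by
  obtain ⟨Ca', hCa'⟩ := h.ramanujan ε hε
  obtain ⟨Ca, hCa1, hCa⟩ : ∃ Ca : ℝ, 0 < Ca ∧ ∀ n : ℕ, 1 ≤ n → |a n| ≤ Ca * (n : ℝ) ^ ε := by
    refine ⟨max Ca' 1, by positivity, fun n hn => (hCa' n hn).trans ?_⟩
    exact mul_le_mul_of_nonneg_right (le_max_left _ _) (by positivity)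
  have hS : ∀ x : ℝ, 0 ≤ x → |∑ n ∈ Finset.Icc 1 ⌊x⌋₊, a n| ≤ Ca * (⌊x⌋₊ : ℝ) * x ^ ε := by
    intro x hx
    refine (Finset.abs_sum_le_sum_abs _ _).trans ?_
    have : ∀ n ∈ Finset.Icc 1 ⌊x⌋₊, |a n| ≤ Ca * x ^ ε := by
      intro n hn
      rw [Finset.mem_Icc] at hn
      refine (hCa n hn.1).trans ?_
      have h1 : (n : ℝ) ≤ x := (Nat.le_floor_iff' (by omega)).1 hn.2
      exact mul_le_mul_of_nonneg_left (Real.rpow_le_rpow (by positivity) h1 hε.le) hCa1.le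
    refine (Finset.sum_le_card_nsmul _ _ _ this).trans ?_
    rw [Nat.card_Icc, nsmul_eq_mul, Nat.add_sub_cancel]
    apply le_of_eq; ring
  obtain ⟨r, hr, hr', hrε⟩ : ∃ r : ℝ, 0 < r ∧ r ≤ 1 / 2 ∧ r ≤ ε :=
    ⟨min ε (1 / 2), lt_min hε (by norm_num), min_le_right _ _, min_le_left _ _⟩
  have kr := VO9_k h (q := fun s => s) hr (by fun_prop) (fun s hs => by
      have := (VO9_sphere hr hr' hs).2.2.1
      rintro rfl
      norm_num at this)
  obtain ⟨K, hK, hb⟩ := VO9_bound hr hr' kr 0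
  obtain ⟨-, -, -, ⟨K0, hK0, b0⟩, -⟩ := VO9_P h
  refine ⟨Ca + 2 * K + 2 * K0, by positivity, fun x hx => ?_, fun x hx hx1 => ?_⟩
  · have hx0 : 0 < x := by linarith
    have h1 : |∑ n ∈ Finset.Icc 1 ⌊x⌋₊, a n| ≤ Ca * x ^ (1 + ε) := by
      refine (hS x hx0.le).trans ?_
      rw [Real.rpow_add hx0, Real.rpow_one, mul_assoc]
      refine mul_le_mul_of_nonneg_left ?_ hCa1.le
      exact mul_le_mul_of_nonneg_right (Nat.floor_le hx0.le) (by positivity)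
    have h2 : |((2 * π * I : ℂ)⁻¹ * ∮ s in C(1, 1 / 2), L s * (x : ℂ) ^ s / s).re| ≤
        2 * K * x ^ (1 + ε) := by
      rw [VO10_shrink h hr hr' hx0]
      refine (Complex.abs_re_le_norm _).trans ((hb x hx0).trans ?_)
      have e1 := Real.rpow_le_rpow_of_exponent_le hx (by linarith : 1 - r + 0 ≤ 1 + ε)
      have e2 := Real.rpow_le_rpow_of_exponent_le hx (by linarith : 1 + r + 0 ≤ 1 + ε)
      nlinarith
    have h3 := abs_sub (∑ n ∈ Finset.Icc 1 ⌊x⌋₊, a n)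
      ((2 * π * I : ℂ)⁻¹ * ∮ s in C(1, 1 / 2), L s * (x : ℂ) ^ s / s).re
    have h4 : 0 ≤ 2 * K0 * x ^ (1 + ε) := by positivity
    rw [errTerm]
    calc _ ≤ _ := h3
      _ ≤ Ca * x ^ (1 + ε) + 2 * K * x ^ (1 + ε) := add_le_add h1 h2
      _ ≤ _ := by linarith
  · have h1 : |∑ n ∈ Finset.Icc 1 ⌊x⌋₊, a n| ≤ Ca * x ^ (1 / 2 : ℝ) := by
      refine (hS x hx.le).trans ?_
      rcases lt_or_eq_of_le hx1 with h | h
      · rw [Nat.floor_eq_zero.2 h]
        simp only [Nat.cast_zero, mul_zero, zero_mul]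
        positivity
      · subst h; simp
    have h2 : |((2 * π * I : ℂ)⁻¹ * ∮ s in C(1, 1 / 2), L s * (x : ℂ) ^ s / s).re| ≤
        2 * K0 * x ^ (1 / 2 : ℝ) := by
      refine (b0 x hx).trans ?_
      have e1 := Real.rpow_le_rpow_of_exponent_ge hx hx1 (by norm_num : (1 / 2 : ℝ) ≤ 3 / 2)
      nlinarith
    have h3 := abs_sub (∑ n ∈ Finset.Icc 1 ⌊x⌋₊, a n)
      ((2 * π * I : ℂ)⁻¹ * ∮ s in C(1, 1 / 2), L s * (x : ℂ) ^ s / s).re
    have h4 : 0 ≤ 2 * K * x ^ (1 / 2 : ℝ) := by positivity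
    rw [errTerm]
    calc _ ≤ _ := h3
      _ ≤ Ca * x ^ (1 / 2 : ℝ) + 2 * K0 * x ^ (1 / 2 : ℝ) := add_le_add h1 h2
      _ ≤ _ := by linarith
--END VO10

--BEGIN VO11
/-! auxiliary facts for VO11 -/

private theorem VO11_sum {a : ℕ → ℝ} {p : ℝ} (hp : p < -1)
    (ha : ∀ ε : ℝ, 0 < ε → ∃ C : ℝ, ∀ n : ℕ, 1 ≤ n → |a n| ≤ C * (n : ℝ) ^ ε) :
    Summable fun m : ℕ => |a m| * (m : ℝ) ^ p := by
  obtain ⟨C, hC⟩ := ha ((-1 - p) / 2) (by linarith)
  have h1 : Summable fun m : ℕ => |C| * (m : ℝ) ^ (p + (-1 - p) / 2) :=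
    (Real.summable_nat_rpow.2 (by linarith)).mul_left _
  refine Summable.of_nonneg_of_le (fun m => by positivity) (fun m => ?_) h1
  rcases Nat.eq_zero_or_pos m with h0 | h0
  · rw [h0, Nat.cast_zero, Real.zero_rpow (by linarith), mul_zero]
    positivity
  · have hm : (0:ℝ) < m := by exact_mod_cast h0
    rw [add_comm p, Real.rpow_add hm, ← mul_assoc]
    refine mul_le_mul_of_nonneg_right ((hC m h0).trans ?_) (by positivity)
    exact mul_le_mul_of_nonneg_right (le_abs_self C) (by positivity)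

private theorem VO11_Pm_le {κ : ℝ} {c0 : ℂ} {m : ℕ} {x : ℝ} (hx : 0 ≤ x) :
    |Pm κ c0 m x| ≤ ‖c0‖ * x ^ (3 / 4 : ℝ) := by
  unfold Pm
  rw [abs_mul, abs_of_nonneg (Real.rpow_nonneg hx _), mul_comm]
  refine mul_le_mul_of_nonneg_right ((abs_re_le_norm _).trans ?_) (Real.rpow_nonneg hx _)
  have h1 : ‖e (2 * √(κ * m * x))‖ = 1 := by
    unfold e
    rw [norm_exp]
    have : (2 * π * I * ((2 * √(κ * m * x) : ℝ) : ℂ)) =
        ((2 * π * (2 * √(κ * m * x)) : ℝ) : ℂ) * I := by push_cast; ring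
    rw [this, re_ofReal_mul, I_re, mul_zero, Real.exp_zero]
  rw [norm_mul, h1, mul_one]

private theorem VO11_scale {κ : ℝ} {c0 : ℂ} {m : ℕ} (hm : 1 ≤ m) {x : ℝ} (hx : 0 < x) :
    (m : ℝ) ^ (-3 : ℝ) * m * Pm κ c0 1 (m * x) = (m : ℝ) ^ (-(5 / 4) : ℝ) * Pm κ c0 m x := by
  have hm0 : (0:ℝ) < m := by exact_mod_cast hm
  unfold Pm
  have e1 : κ * ((1:ℕ) : ℝ) * (m * x) = κ * m * x := by push_cast; ring
  rw [e1, Real.mul_rpow hm0.le hx.le]
  have e2 : (m : ℝ) ^ (-(5 / 4) : ℝ) = (m : ℝ) ^ (-3 : ℝ) * m * (m : ℝ) ^ (3 / 4 : ℝ) := by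
    rw [← Real.rpow_add_one hm0.ne', ← Real.rpow_add hm0]
    norm_num
  rw [e2]
  ring

/-- **VO11.** The Voronoi series. The term `m = 0` is zero by the conventions for powers. -/
theorem voronoi (h : RealSelberg a L 2) : ∃ (κ : ℝ) (c0 : ℂ) (L0 : ℝ), 0 < κ ∧ c0 ≠ 0 ∧
    ∀ δ : ℝ, 0 < δ → ∃ C : ℝ, 0 < C ∧ ∀ x : ℝ, 1 ≤ x →
      |(∫ t in (0 : ℝ)..x, errTerm a L t) - L0 * x -
        ∑' m : ℕ, a m * (m : ℝ) ^ (-(5 / 4) : ℝ) * Pm κ c0 m x| ≤ C * x ^ (1 / 4 + δ) := by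
  obtain ⟨Q, r, lam, mu, w, hf⟩ := exists_fun2 h
  obtain ⟨c0, Θ', hc0, hΘ, hΘb⟩ := Theta_deriv h hf
  set κ := kap Q lam with hκ
  refine ⟨κ, c0, (L 0).re, kap_pos hf, hc0, fun δ hδ => ?_⟩
  -- a bound for `Θ'`
  obtain ⟨C1, hC1, hb1⟩ := hΘb (1 / 4) (by norm_num)
  have hΘn : ∀ y : ℝ, 1 / 2 ≤ y → ‖Θ' y‖ ≤ (‖c0‖ + 2 * C1) * y ^ (3 / 4 : ℝ) := by
    intro y hy
    have hy0 : 0 < y := by linarith
    have k1 := hb1 y hy
    have k2 : y ^ (1 / 4 + 1 / 4 : ℝ) ≤ 2 * y ^ (3 / 4 : ℝ) := by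
      have e1 : y ^ (3 / 4 : ℝ) = y ^ (1 / 4 + 1 / 4 : ℝ) * y ^ (1 / 4 : ℝ) := by
        rw [← Real.rpow_add hy0]; norm_num
      have e2 : (1 / 2 : ℝ) ≤ y ^ (1 / 4 : ℝ) := by
        calc (1 / 2 : ℝ) = (1 / 2 : ℝ) ^ (1 : ℝ) := (Real.rpow_one _).symm
          _ ≤ (1 / 2 : ℝ) ^ (1 / 4 : ℝ) :=
            Real.rpow_le_rpow_of_exponent_ge (by norm_num) (by norm_num) (by norm_num)
          _ ≤ y ^ (1 / 4 : ℝ) := Real.rpow_le_rpow (by norm_num) hy (by norm_num)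
      rw [e1]
      have := mul_le_mul_of_nonneg_left e2 (Real.rpow_nonneg hy0.le (1 / 4 + 1 / 4 : ℝ))
      linarith
    have k3 : ‖((Pm κ c0 1 y : ℝ) : ℂ)‖ ≤ ‖c0‖ * y ^ (3 / 4 : ℝ) := by
      rw [norm_real]; exact VO11_Pm_le hy0.le
    have k4 : ‖Θ' y‖ ≤ ‖Θ' y - ((Pm κ c0 1 y : ℝ) : ℂ)‖ + ‖((Pm κ c0 1 y : ℝ) : ℂ)‖ := by
      have := norm_add_le (Θ' y - ((Pm κ c0 1 y : ℝ) : ℂ)) ((Pm κ c0 1 y : ℝ) : ℂ)
      rwa [sub_add_cancel] at this
    have k5 := mul_le_mul_of_nonneg_left k2 hC1.le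
    linarith
  -- the remainder constant
  set δ' := min δ (1 / 4) with hδ'
  have hδ'0 : 0 < δ' := lt_min hδ (by norm_num)
  have hδ'1 : δ' ≤ 1 / 4 := min_le_right _ _
  have hδ'2 : δ' ≤ δ := min_le_left _ _
  obtain ⟨C2, hC2, hb2⟩ := hΘb δ' hδ'0
  have hs1 := VO11_sum (a := a) (p := -(5 / 4)) (by norm_num) h.ramanujan
  have hs2 := VO11_sum (a := a) (p := -(7 / 4) + δ') (by linarith) h.ramanujan
  have hs2' : 0 ≤ ∑' m : ℕ, |a m| * (m : ℝ) ^ (-(7 / 4) + δ') := tsum_nonneg fun m => by positivity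
  refine ⟨C2 * (∑' m : ℕ, |a m| * (m : ℝ) ^ (-(7 / 4) + δ')) + 1, by positivity, fun x hx => ?_⟩
  have hx0 : 0 < x := by linarith
  -- the terms of the series and their derivatives
  set f : ℕ → ℝ → ℂ := fun m z => ((a m * (m : ℝ) ^ (-3 : ℝ) : ℝ) : ℂ) * Theta Q lam mu w (m * z) with hfd
  set f' : ℕ → ℝ → ℂ := fun m z => ((a m * (m : ℝ) ^ (-3 : ℝ) : ℝ) : ℂ) * ((m : ℂ) * Θ' (m * z)) with hfd'
  have hf0 : ∀ z, f 0 z = 0 ∧ f' 0 z = 0 := by
    intro z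
    simp only [hfd, hfd', Nat.cast_zero]
    rw [Real.zero_rpow (by norm_num)]
    simp
  have hder : ∀ (m : ℕ) (z : ℝ), z ∈ Ioo (x / 2) (2 * x) → HasDerivAt (f m) (f' m z) z := by
    intro m z hz
    have hz0 : 0 < z := by linarith [hz.1]
    rcases Nat.eq_zero_or_pos m with h0 | h0
    · have e1 : f m = fun _ => 0 := by funext u; rw [h0]; exact (hf0 u).1
      rw [e1, h0, (hf0 z).2]
      exact hasDerivAt_const z 0
    · have hm0 : (0:ℝ) < m := by exact_mod_cast h0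
      have k1 := hΘ (m * z) (by positivity)
      have k2 : HasDerivAt (fun z : ℝ => (m:ℝ) * z) (m:ℝ) z := by
        simpa using (hasDerivAt_id z).const_mul (m:ℝ)
      have k3 := (k1.scomp z k2).const_mul (((a m * (m : ℝ) ^ (-3 : ℝ) : ℝ) : ℂ))
      refine k3.congr_deriv ?_
      simp only [hfd', real_smul, ofReal_natCast]
  have hnf' : ∀ (m : ℕ) (z : ℝ), z ∈ Ioo (x / 2) (2 * x) →
      ‖f' m z‖ ≤ (‖c0‖ + 2 * C1) * (2 * x) ^ (3 / 4 : ℝ) * (|a m| * (m : ℝ) ^ (-(5 / 4) : ℝ)) := by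
    intro m z hz
    have hz0 : 0 < z := by linarith [hz.1]
    rcases Nat.eq_zero_or_pos m with h0 | h0
    · rw [h0, (hf0 z).2, norm_zero]
      positivity
    · have hm1 : (1:ℝ) ≤ m := by exact_mod_cast h0
      have hm0 : (0:ℝ) < m := by linarith
      have hmz : 1 / 2 ≤ m * z := by nlinarith [hz.1]
      have k1 := hΘn (m * z) hmz
      have e2 : (m : ℝ) ^ (-(5 / 4) : ℝ) = (m : ℝ) ^ (-3 : ℝ) * m * (m : ℝ) ^ (3 / 4 : ℝ) := by
        rw [← Real.rpow_add_one hm0.ne', ← Real.rpow_add hm0]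
        norm_num
      have k2 : z ^ (3 / 4 : ℝ) ≤ (2 * x) ^ (3 / 4 : ℝ) :=
        Real.rpow_le_rpow hz0.le hz.2.le (by norm_num)
      simp only [hfd']
      rw [norm_mul, norm_mul, norm_real, norm_natCast, Real.norm_eq_abs, abs_mul,
        abs_of_nonneg (Real.rpow_nonneg hm0.le _), e2]
      rw [Real.mul_rpow hm0.le hz0.le] at k1
      calc |a m| * (m : ℝ) ^ (-3 : ℝ) * (m * ‖Θ' (m * z)‖)
          ≤ |a m| * (m : ℝ) ^ (-3 : ℝ) * (m * ((‖c0‖ + 2 * C1) * ((m : ℝ) ^ (3 / 4 : ℝ) *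
            (2 * x) ^ (3 / 4 : ℝ)))) := by
            refine mul_le_mul_of_nonneg_left (mul_le_mul_of_nonneg_left (k1.trans ?_) hm0.le)
              (by positivity)
            refine mul_le_mul_of_nonneg_left (mul_le_mul_of_nonneg_left k2 (by positivity)) (by positivity)
        _ = _ := by ring
  have hxs : x ∈ Ioo (x / 2) (2 * x) := ⟨by linarith, by linarith⟩
  have hsumf := (dual_series h hf hx0).1
  have hD : HasDerivAt (fun z => ∑' m, f m z) (∑' m, f' m x) x :=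
    hasDerivAt_tsum_of_isPreconnected (hs1.mul_left _) isOpen_Ioo isPreconnected_Ioo hder hnf' hxs
      hsumf hxs
  have hsumf' : Summable fun m => f' m x :=
    Summable.of_norm_bounded (hs1.mul_left _) fun m => hnf' m x hxs
  -- the identity for `S - Re M`
  have hid : ∀ z : ℝ, 0 < z → 1 / 2 * ∑ n ∈ Finset.Icc 1 ⌊z⌋₊, a n * (z - n) ^ 2 -
      ((2 * π * I)⁻¹ * ∮ s in C(1, 1 / 2), L s * (z : ℂ) ^ (s + 2) /
        (s * (s + 1) * (s + 2))).re = (L 0).re * (z ^ 2 / 2) + (∑' m, f m z).re := by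
    intro z hz
    have k1 := perron_sum h hz
    rw [shift_line h hz, (dual_series h hf hz).2] at k1
    have k2 := congrArg re k1
    rw [ofReal_re, add_re, add_re] at k2
    have k3 : (L 0 * (z : ℂ) ^ 2 / 2).re = (L 0).re * (z ^ 2 / 2) := by
      have : L 0 * (z : ℂ) ^ 2 / 2 = L 0 * ((z ^ 2 / 2 : ℝ) : ℂ) := by push_cast; ring
      rw [this, re_mul_ofReal]
    rw [k3] at k2
    linarith
  have hE := (int_errTerm h).2 x hx0
  have hE2 : HasDerivAt (fun z : ℝ => (L 0).re * (z ^ 2 / 2) + (∑' m, f m z).re)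
      ((L 0).re * x + (∑' m, f' m x).re) x := by
    have k1 : HasDerivAt (fun z : ℝ => (L 0).re * (z ^ 2 / 2)) ((L 0).re * x) x := by
      have := (((hasDerivAt_pow 2 x).div_const 2).const_mul (L 0).re)
      refine this.congr_deriv ?_
      norm_num
    have k2 : HasDerivAt (fun z : ℝ => (∑' m, f m z).re) (∑' m, f' m x).re x :=
      (reCLM.hasFDerivAt.comp_hasDerivAt x hD)
    exact k1.add k2
  have hE3 : ∫ t in (0 : ℝ)..x, errTerm a L t = (L 0).re * x + (∑' m, f' m x).re := by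
    refine hE.unique (hE2.congr_of_eventuallyEq ?_)
    filter_upwards [lt_mem_nhds hx0] with z hz
    exact hid z hz
  -- real parts
  have hre : (∑' m, f' m x).re = ∑' m, (f' m x).re := re_tsum hsumf'
  have hsumre : Summable fun m => (f' m x).re := hsumf'.map reCLM.toLinearMap.toAddMonoidHom reCLM.continuous
  have hsumP : Summable fun m : ℕ => a m * (m : ℝ) ^ (-(5 / 4) : ℝ) * Pm κ c0 m x := by
    refine Summable.of_norm_bounded (hs1.mul_left (‖c0‖ * x ^ (3 / 4 : ℝ))) fun m => ?_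
    rw [Real.norm_eq_abs, abs_mul, abs_mul, abs_of_nonneg (Real.rpow_nonneg (Nat.cast_nonneg m) _)]
    have := mul_le_mul_of_nonneg_left (VO11_Pm_le (κ := κ) (c0 := c0) (m := m) hx0.le)
      (show 0 ≤ |a m| * (m : ℝ) ^ (-(5 / 4) : ℝ) by positivity)
    linarith
  rw [hE3, hre, add_sub_cancel_left, ← hsumre.tsum_sub hsumP]
  have hterm : ∀ m : ℕ, ‖(f' m x).re - a m * (m : ℝ) ^ (-(5 / 4) : ℝ) * Pm κ c0 m x‖ ≤
      C2 * x ^ (1 / 4 + δ') * (|a m| * (m : ℝ) ^ (-(7 / 4) + δ')) := by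
    intro m
    rcases Nat.eq_zero_or_pos m with h0 | h0
    · rw [h0, (hf0 x).2, Nat.cast_zero, Real.zero_rpow (by norm_num)]
      simp
      positivity
    · have hm1 : (1:ℝ) ≤ m := by exact_mod_cast h0
      have hm0 : (0:ℝ) < m := by linarith
      have k1 := hb2 (m * x) (by nlinarith)
      have k2 : (f' m x).re - a m * (m : ℝ) ^ (-(5 / 4) : ℝ) * Pm κ c0 m x =
          a m * ((m : ℝ) ^ (-3 : ℝ) * m) * (Θ' (m * x) - ((Pm κ c0 1 (m * x) : ℝ) : ℂ)).re := by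
        have k3 := VO11_scale (κ := κ) (c0 := c0) h0 hx0
        have k4 : f' m x = ((a m * ((m : ℝ) ^ (-3 : ℝ) * m) : ℝ) : ℂ) * Θ' (m * x) := by
          simp only [hfd']; push_cast; ring
        rw [k4, re_ofReal_mul, sub_re, ofReal_re]
        linear_combination (a m) * k3
      have k5 : |(Θ' (m * x) - ((Pm κ c0 1 (m * x) : ℝ) : ℂ)).re| ≤ C2 * (m * x) ^ (1 / 4 + δ') :=
        (abs_re_le_norm _).trans k1
      rw [k2, Real.norm_eq_abs, abs_mul, abs_mul, abs_of_nonneg (show 0 ≤ (m : ℝ) ^ (-3 : ℝ) * m by positivity)]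
      rw [Real.mul_rpow hm0.le hx0.le] at k5
      have e2 : (m : ℝ) ^ (-(7 / 4) + δ') = (m : ℝ) ^ (-3 : ℝ) * m * (m : ℝ) ^ (1 / 4 + δ') := by
        rw [← Real.rpow_add_one hm0.ne', ← Real.rpow_add hm0]
        congr 1
        ring
      rw [e2]
      calc |a m| * ((m : ℝ) ^ (-3 : ℝ) * m) * |(Θ' (m * x) - ((Pm κ c0 1 (m * x) : ℝ) : ℂ)).re|
          ≤ |a m| * ((m : ℝ) ^ (-3 : ℝ) * m) * (C2 * ((m : ℝ) ^ (1 / 4 + δ') * x ^ (1 / 4 + δ'))) :=
            mul_le_mul_of_nonneg_left k5 (by positivity)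
        _ = _ := by ring
  have hfin := tsum_of_norm_bounded ((hs2.mul_left (C2 * x ^ (1 / 4 + δ'))).hasSum) hterm
  rw [Real.norm_eq_abs, tsum_mul_left] at hfin
  refine hfin.trans ?_
  have hxp : x ^ (1 / 4 + δ') ≤ x ^ (1 / 4 + δ) := Real.rpow_le_rpow_of_exponent_le hx (by linarith)
  have hxq : 0 ≤ x ^ (1 / 4 + δ) := by positivity
  calc C2 * x ^ (1 / 4 + δ') * ∑' m : ℕ, |a m| * (m : ℝ) ^ (-(7 / 4) + δ')
      = C2 * (∑' m : ℕ, |a m| * (m : ℝ) ^ (-(7 / 4) + δ')) * x ^ (1 / 4 + δ') := by ring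
    _ ≤ C2 * (∑' m : ℕ, |a m| * (m : ℝ) ^ (-(7 / 4) + δ')) * x ^ (1 / 4 + δ) :=
        mul_le_mul_of_nonneg_left hxp (by positivity)
    _ ≤ (C2 * (∑' m : ℕ, |a m| * (m : ℝ) ^ (-(7 / 4) + δ')) + 1) * x ^ (1 / 4 + δ) := by nlinarith
--END VO11

end Pool.Agent.PEt
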