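import Pool.Agent.PEt.GA

/-! The factor `X(s)` of the functional equation of an `L` of degree 2. -/

set_option autoImplicit false

open Complex MeasureTheory Set Filter Topology
open scoped Real ComplexConjugate ContDiff

namespace Pool.Agent.PEt

variable {a : ℕ → ℝ} {L : ℂ → ℂ} {d : ℝ}

/-- **XF0.** From the class to the data. -/
theorem exists_fun2 (h : RealSelberg a L 2) : ∃ (Q : ℝ) (r : ℕ) (lam : Fin r → ℝ)
    (mu : Fin r → ℂ) (w : ℂ), Fun2 L Q lam mu w := by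
  obtain ⟨Q, r, lam, mu, w, h1, h2, h3, h4, h5, h6⟩ := h.functional
  exact ⟨Q, r, lam, mu, w, h1, h2, h3, h4, by linarith, h6⟩

--BEGIN XF1
private theorem XF1_eq {m : ℕ} {G : ℂ → ℂ} (hG : ∀ s, s ≠ 1 → G s = (s - 1) ^ m * L s)
    {s : ℂ} (hs : s ≠ 1) : L s = G s / (s - 1) ^ m := by
  rw [hG s hs]
  have : (s - 1) ^ m ≠ 0 := pow_ne_zero _ (sub_ne_zero.2 hs)
  field_simp

/-- **XF1.** `L` is differentiable off `1`. -/
theorem L_diff (h : RealSelberg a L d) {s : ℂ} (hs : s ≠ 1) : DifferentiableAt ℂ L s := by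
  obtain ⟨m, G, A, hGd, hG, -⟩ := h.continuation
  have h1 : (fun z => G z / (z - 1) ^ m) =ᶠ[𝓝 s] L := by
    filter_upwards [isOpen_ne.mem_nhds hs] with z hz
    exact (XF1_eq hG hz).symm
  refine DifferentiableAt.congr_of_eventuallyEq ?_ h1.symm
  exact (hGd s).div (by fun_prop) (pow_ne_zero _ (sub_ne_zero.2 hs))
--END XF1

--BEGIN XF2
private theorem XF2_conj (h : RealSelberg a L d) {s : ℂ} (hs : 1 < s.re) :
    L (conj s) = conj (L s) := by
  have hs' : 1 < (conj s).re := by simpa using hs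
  rw [(h.series s hs).2, (h.series (conj s) hs').2, LSeries, LSeries, conj_tsum]
  refine tsum_congr fun n => ?_
  rcases eq_or_ne n 0 with rfl | hn
  · simp
  · rw [LSeries.term_of_ne_zero hn, LSeries.term_of_ne_zero hn, map_div₀, conj_ofReal]
    congr 1
    rw [cpow_conj _ _ (by simp [Complex.natCast_arg, Real.pi_ne_zero.symm]), conj_natCast]

/-- **XF2.** `L` is real. -/
theorem L_conj (h : RealSelberg a L d) {s : ℂ} (hs : s ≠ 1) : L (conj s) = conj (L s) := by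
  obtain ⟨m, G, A, hGd, hG, -⟩ := h.continuation
  have hG2 : Differentiable ℂ (fun z => conj (G (conj z))) := by
    intro z
    have h1 := (hGd (conj z)).conj_conj
    rw [conj_conj] at h1
    exact h1
  have hcs : ∀ z : ℂ, z ≠ 1 → conj z ≠ 1 := by
    intro z hz h1
    apply hz
    have := congrArg conj h1
    simpa using this
  have hEq : G = fun z => conj (G (conj z)) := by
    have hA1 : AnalyticOnNhd ℂ G univ := hGd.differentiableOn.analyticOnNhd isOpen_univ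
    have hA2 : AnalyticOnNhd ℂ (fun z => conj (G (conj z))) univ :=
      hG2.differentiableOn.analyticOnNhd isOpen_univ
    refine AnalyticOnNhd.eq_of_eventuallyEq hA1 hA2 (z₀ := 2) ?_
    have hop : IsOpen {z : ℂ | 1 < z.re} := isOpen_lt continuous_const continuous_re
    filter_upwards [hop.mem_nhds (show (2 : ℂ) ∈ {z : ℂ | 1 < z.re} by simp)] with z hz
    have hz' : 1 < z.re := hz
    have hz1 : z ≠ 1 := by rintro rfl; simp at hz'
    rw [hG z hz1, hG (conj z) (hcs z hz1), XF2_conj h hz']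
    simp
  have h1 := congrFun hEq (conj s)
  simp only [conj_conj] at h1
  rw [hG s hs, hG (conj s) (hcs s hs)] at h1
  have h2 : (conj s - 1) ^ m ≠ 0 := pow_ne_zero _ (sub_ne_zero.2 (hcs s hs))
  simp only [map_mul, map_pow, map_sub, map_one] at h1
  exact mul_left_cancel₀ h2 h1
--END XF2

--BEGIN XF3
/-- **XF3.** `L` does not vanish for `Re s > 1`, and `a(1) = 1`. -/
theorem L_ne_zero (h : RealSelberg a L d) {s : ℂ} (hs : 1 < s.re) : L s ≠ 0 := by
  obtain ⟨b, θ, C, -, -, -, hb⟩ := h.euler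
  rw [(hb s hs).2]
  exact exp_ne_zero _

theorem a_one (h : RealSelberg a L d) : a 1 = 1 := by
  obtain ⟨b, θ, C, -, hb0, -, hb⟩ := h.euler
  have h2 : (1 : ℝ) < (2 : ℂ).re := by simp
  have hla : LSeries.abscissaOfAbsConv (fun n => (a n : ℂ)) < ⊤ :=
    lt_of_le_of_lt (h.series 2 h2).1.abscissaOfAbsConv_le (EReal.coe_lt_top _)
  have hlb : LSeries.abscissaOfAbsConv b < ⊤ :=
    lt_of_le_of_lt (hb 2 h2).1.abscissaOfAbsConv_le (EReal.coe_lt_top _)
  have ta := LSeries.tendsto_atTop hla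
  have tb := LSeries.tendsto_atTop hlb
  have hb1 : b 1 = 0 := hb0 1 (by exact not_isPrimePow_one)
  rw [hb1] at tb
  have te := (continuous_exp.tendsto 0).comp tb
  rw [exp_zero] at te
  have hev : (fun x : ℝ => LSeries (fun n => (a n : ℂ)) x) =ᶠ[atTop]
      (cexp ∘ fun x : ℝ => LSeries b x) := by
    filter_upwards [eventually_gt_atTop 1] with x hx
    have hx' : 1 < (x : ℂ).re := by simpa using hx
    simp only [Function.comp_apply]
    rw [← (h.series x hx').2, (hb x hx').2]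
  have := tendsto_nhds_unique (ta.congr' hev) te
  exact_mod_cast this
--END XF3

variable {Q : ℝ} {r : ℕ} {lam : Fin r → ℝ} {mu : Fin r → ℂ} {w : ℂ}

--BEGIN XF4
private theorem XF4_num (hf : Fun2 L Q lam mu w) {s : ℂ} (hs : s.re < 1) (j : Fin r) :
    0 < ((lam j : ℂ) * (1 - s) + conj (mu j)).re := by
  have h1 := hf.lampos j
  have h2 := hf.mure j
  have h3 : ((lam j : ℂ) * (1 - s) + conj (mu j)).re = lam j * (1 - s.re) + (mu j).re := by simp
  rw [h3]
  have : 0 < lam j * (1 - s.re) := mul_pos h1 (by linarith)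
  linarith

private theorem XF4_diffGamma {z : ℂ} (hz : 0 < z.re) : DifferentiableAt ℂ Gamma z := by
  refine differentiableAt_Gamma z fun m h => ?_
  rw [h] at hz
  simp only [neg_re, natCast_re] at hz
  have : (0 : ℝ) ≤ m := Nat.cast_nonneg m
  linarith

/-- **XF4.** `X` is differentiable for `Re s < 1`. -/
theorem Xf_diff (hf : Fun2 L Q lam mu w) {s : ℂ} (hs : s.re < 1) :
    DifferentiableAt ℂ (Xf Q lam mu w) s := by
  have hQ : (Q : ℂ) ≠ 0 := by exact_mod_cast hf.Qpos.ne'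
  have hX : Xf Q lam mu w = fun s => w * (Q : ℂ) ^ (1 - 2 * s) *
      (∏ j, Gamma (lam j * (1 - s) + conj (mu j))) * ∏ j, (Gamma (lam j * s + mu j))⁻¹ := by
    funext s
    rw [Xf, div_eq_mul_inv, Finset.prod_inv_distrib]
  rw [hX]
  refine DifferentiableAt.mul (DifferentiableAt.mul (DifferentiableAt.const_mul ?_ _) ?_) ?_
  · exact DifferentiableAt.const_cpow (by fun_prop) (Or.inl hQ)
  · refine DifferentiableAt.fun_finsetProd fun j _ => ?_
    exact (XF4_diffGamma (XF4_num hf hs j)).comp s (f := fun s => (lam j : ℂ) * (1 - s) + conj (mu j))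
      (by fun_prop)
  · refine DifferentiableAt.fun_finsetProd fun j _ => ?_
    exact (differentiable_one_div_Gamma _).comp s (f := fun s => (lam j : ℂ) * s + mu j)
      (by fun_prop)
--END XF4

--BEGIN XF5
private theorem XF5_crit (h : RealSelberg a L 2) (hf : Fun2 L Q lam mu w) {s : ℂ} (h0 : 0 < s.re)
    (h1 : s.re < 1) : L s = Xf Q lam mu w s * L (1 - s) := by
  have hQ : (Q : ℂ) ≠ 0 := by exact_mod_cast hf.Qpos.ne'
  have hfe := hf.fe s h0 h1
  have hne : 1 - conj s ≠ 1 := by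
    intro h'
    have := congrArg re h'
    simp at this
    linarith
  have hL : conj (L (1 - conj s)) = L (1 - s) := by
    rw [← L_conj h hne]; simp
  have hG : conj (∏ j, Gamma (lam j * (1 - conj s) + mu j)) =
      ∏ j, Gamma (lam j * (1 - s) + conj (mu j)) := by
    rw [map_prod]
    refine Finset.prod_congr rfl fun j _ => ?_
    rw [← Gamma_conj]
    simp
  have hq : conj ((Q : ℂ) ^ (1 - conj s)) = (Q : ℂ) ^ (1 - s) := by
    have h1 := conj_cpow (Q : ℂ) (1 - s)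
      (by rw [arg_ofReal_of_nonneg hf.Qpos.le]; exact Real.pi_ne_zero.symm)
    rw [conj_ofReal, map_sub, map_one] at h1
    exact h1.symm
  have hP : (∏ j, Gamma (lam j * s + mu j)) ≠ 0 := by
    refine Finset.prod_ne_zero_iff.2 fun j _ => ?_
    refine Gamma_ne_zero_of_re_pos ?_
    have h2 := hf.lampos j
    have h3 := hf.mure j
    have h4 : ((lam j : ℂ) * s + mu j).re = lam j * s.re + (mu j).re := by simp
    rw [h4]
    have := mul_pos h2 h0
    linarith
  rw [map_mul, map_mul, hL, hG, hq] at hfe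
  have hQs : (Q : ℂ) ^ s ≠ 0 := by
    rw [cpow_def_of_ne_zero hQ]; exact exp_ne_zero _
  have hQ2 : (Q : ℂ) ^ (1 - s) = (Q : ℂ) ^ (1 - 2 * s) * (Q : ℂ) ^ s := by
    rw [← cpow_add _ _ hQ]; congr 1; ring
  rw [hQ2] at hfe
  rw [Xf, div_mul_eq_mul_div, eq_div_iff hP]
  refine mul_left_cancel₀ hQs ?_
  linear_combination hfe

/-- **XF5.** The functional equation `L(s) = X(s) L(1-s)` (identity theorem on `Re s < 1`, `s ≠ 0`;
on `0 < Re s < 1` use `L(1 - conj s) = conj L(1-s)`). -/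
theorem fe_left (h : RealSelberg a L 2) (hf : Fun2 L Q lam mu w) {s : ℂ} (hs : s.re < 1)
    (h0 : s ≠ 0) : L s = Xf Q lam mu w s * L (1 - s) := by
  obtain ⟨m, G, A, hGd, hG, -⟩ := h.continuation
  have hUo : IsOpen {z : ℂ | z.re < 1} := isOpen_lt continuous_re continuous_const
  have hUc : Convex ℝ {z : ℂ | z.re < 1} := convex_halfSpace_re_lt 1
  have hne1 : ∀ z : ℂ, z.re < 1 → z ≠ 1 := by
    rintro z hz rfl
    simp at hz
  have hA1 : AnalyticOnNhd ℂ (fun z => (-z) ^ m * L z) {z : ℂ | z.re < 1} := by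
    refine DifferentiableOn.analyticOnNhd (fun z hz => ?_) hUo
    have hz' : z.re < 1 := hz
    exact ((by fun_prop : DifferentiableAt ℂ (fun z : ℂ => (-z) ^ m) z).mul
      (L_diff h (hne1 z hz'))).differentiableWithinAt
  have hA2 : AnalyticOnNhd ℂ (fun z => Xf Q lam mu w z * G (1 - z)) {z : ℂ | z.re < 1} := by
    refine DifferentiableOn.analyticOnNhd (fun z hz => ?_) hUo
    have hz' : z.re < 1 := hz
    refine ((Xf_diff hf hz').mul ?_).differentiableWithinAt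
    exact (hGd _).comp z (f := fun z => 1 - z) (by fun_prop)
  have hG1 : ∀ z : ℂ, z ≠ 0 → G (1 - z) = (-z) ^ m * L (1 - z) := by
    intro z hz
    rw [hG (1 - z) (by intro h'; apply hz; linear_combination -h')]
    congr 2
    ring
  have hhalf : ((1 / 2 : ℝ) : ℂ) ∈ {z : ℂ | z.re < 1} := by
    show ((1 / 2 : ℝ) : ℂ).re < 1
    rw [ofReal_re]; norm_num
  have key := hA1.eqOn_of_preconnected_of_eventuallyEq hA2 hUc.isPreconnected hhalf (by
    have hop : IsOpen {z : ℂ | 0 < z.re ∧ z.re < 1} :=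
      (isOpen_lt continuous_const continuous_re).inter (isOpen_lt continuous_re continuous_const)
    have hmem : ((1 / 2 : ℝ) : ℂ) ∈ {z : ℂ | 0 < z.re ∧ z.re < 1} := by
      show 0 < ((1 / 2 : ℝ) : ℂ).re ∧ ((1 / 2 : ℝ) : ℂ).re < 1
      rw [ofReal_re]; norm_num
    filter_upwards [hop.mem_nhds hmem] with z hz
    have hz1 : 0 < z.re := hz.1
    have hz2 : z.re < 1 := hz.2
    have hz0 : z ≠ 0 := by
      rintro rfl
      simp at hz1
    rw [hG1 z hz0, XF5_crit h hf hz1 hz2]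
    ring)
  have h2 := key (show s ∈ {z : ℂ | z.re < 1} from hs)
  simp only at h2
  rw [hG1 s h0] at h2
  refine mul_left_cancel₀ (pow_ne_zero m (neg_ne_zero.2 h0)) ?_
  linear_combination h2
--END XF5

--BEGIN XF6
/-- **XF6.** `X` is real for `Re s < 0`. -/
theorem Xf_conj (h : RealSelberg a L 2) (hf : Fun2 L Q lam mu w) {s : ℂ} (hs : s.re < 0) :
    Xf Q lam mu w (conj s) = conj (Xf Q lam mu w s) := by
  have hsc : (conj s).re < 0 := by simpa using hs
  have hne : ∀ z : ℂ, z.re < 0 → z ≠ 0 ∧ z ≠ 1 := by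
    intro z hz
    constructor
    · rintro rfl; simp at hz
    · rintro rfl; simp at hz; linarith
  have e1 := fe_left h hf (by linarith : s.re < 1) (hne s hs).1
  have e2 := fe_left h hf (by linarith : (conj s).re < 1) (hne _ hsc).1
  have hL0 : L (1 - s) ≠ 0 := L_ne_zero h (by simp; linarith)
  have h1s : (1 - s) ≠ 1 := by
    intro h'
    exact (hne s hs).1 (by linear_combination -h')
  have hc : L (1 - conj s) = conj (L (1 - s)) := by
    rw [← L_conj h h1s]; simp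
  rw [L_conj h (hne s hs).2, hc, e1, map_mul] at e2
  exact (mul_right_cancel₀ ((map_ne_zero _).2 hL0) e2).symm
--END XF6

--BEGIN XF7
private theorem XF7_im (hf : Fun2 L Q lam mu w) : ∃ t0 : ℝ, 1 ≤ t0 ∧ ∀ s : ℂ,
    t0 ≤ |s.im| → ∀ j, ((lam j : ℂ) * s + mu j).im ≠ 0 := by
  refine ⟨1 + ∑ j, (|(mu j).im| / lam j), ?_, fun s hs j => ?_⟩
  · have : 0 ≤ ∑ j, (|(mu j).im| / lam j) :=
      Finset.sum_nonneg fun j _ => div_nonneg (abs_nonneg _) (hf.lampos j).le
    linarith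
  · intro h0
    have hl := hf.lampos j
    have h1 : ((lam j : ℂ) * s + mu j).im = lam j * s.im + (mu j).im := by simp
    rw [h1] at h0
    have h2 : |(mu j).im| / lam j ≤ ∑ j, (|(mu j).im| / lam j) :=
      Finset.single_le_sum (f := fun j => |(mu j).im| / lam j)
        (fun j _ => div_nonneg (abs_nonneg _) (hf.lampos j).le) (Finset.mem_univ j)
    have h3 : |(mu j).im| = lam j * |s.im| := by
      have : (mu j).im = -(lam j * s.im) := by linarith
      rw [this, abs_neg, abs_mul, abs_of_pos hl]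
    have h4 : |(mu j).im| / lam j = |s.im| := by
      rw [h3]; field_simp
    rw [h4] at h2
    linarith

/-- **XF7.** `X` has no zeros off the real axis, far up. -/
theorem Xf_ne_zero (hf : Fun2 L Q lam mu w) : ∃ t0 : ℝ, 1 ≤ t0 ∧ ∀ s : ℂ, s.re < 1 →
    t0 ≤ |s.im| → Xf Q lam mu w s ≠ 0 := by
  obtain ⟨t0, h1, h2⟩ := XF7_im hf
  have hQ : (Q : ℂ) ≠ 0 := by exact_mod_cast hf.Qpos.ne'
  refine ⟨t0, h1, fun s hs ht => ?_⟩
  rw [Xf]
  refine div_ne_zero (mul_ne_zero (mul_ne_zero ?_ ?_) ?_) ?_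
  · intro h0
    have := hf.wnorm
    rw [h0] at this
    simp at this
  · rw [cpow_def_of_ne_zero hQ]; exact exp_ne_zero _
  · refine Finset.prod_ne_zero_iff.2 fun j _ => ?_
    exact Gamma_ne_zero_of_re_pos (XF4_num hf hs j)
  · refine Finset.prod_ne_zero_iff.2 fun j _ => ?_
    refine Gamma_ne_zero fun m h' => ?_
    have h3 := h2 s ht j
    rw [h'] at h3
    simp at h3
--END XF7

--BEGIN XF8
private theorem XF8_gen (hf : Fun2 L Q lam mu w) : ∃ (c2 : ℂ) (C t0 : ℝ), 0 < C ∧ 1 ≤ t0 ∧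
    ∀ s : ℂ, -1 ≤ s.re → s.re ≤ 1 / 2 → t0 ≤ |s.im| →
      ‖logDeriv (Xf Q lam mu w) s - (-((2 * Real.log Q : ℝ) : ℂ) -
        ∑ j, ((lam j : ℂ) * (log ((lam j : ℂ) * s) + log (((-lam j : ℝ) : ℂ) * s))) +
        (1 - (2 * ∑ j, (mu j).im : ℝ) * I) / s + c2 / s ^ 2)‖ ≤ C / |s.im| ^ 3 := by
  have hQ : (Q : ℂ) ≠ 0 := by exact_mod_cast hf.Qpos.ne'
  have hlc : ∀ j, (lam j : ℂ) ≠ 0 := fun j => by exact_mod_cast (hf.lampos j).ne'
  obtain ⟨t1, ht1, him⟩ := XF7_im hf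
  have hA1 := fun j => digamma_affine (lam j) (hf.lampos j).ne' (mu j) 1
  have hA2 := fun j => digamma_affine (-lam j) (neg_ne_zero.2 (hf.lampos j).ne')
    (lam j + conj (mu j)) 1
  choose c C t hC ht hb using hA1
  choose c' C' t' hC' ht' hb' using hA2
  have hlam0 : ∀ j, 0 ≤ lam j := fun j => (hf.lampos j).le
  refine ⟨-∑ j, (lam j : ℂ) * (c j + c' j), 1 + ∑ j, lam j * (C j + C' j),
    t1 + ∑ j, (t j + t' j), ?_, ?_, ?_⟩
  · have : 0 ≤ ∑ j, lam j * (C j + C' j) :=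
      Finset.sum_nonneg fun j _ => mul_nonneg (hlam0 j) (by have := hC j; have := hC' j; linarith)
    linarith
  · have : 0 ≤ ∑ j, (t j + t' j) :=
      Finset.sum_nonneg fun j _ => by have := ht j; have := ht' j; linarith
    linarith
  intro s hs1 hs2 hst
  have hsum0 : 0 ≤ ∑ j, (t j + t' j) :=
    Finset.sum_nonneg fun j _ => by have := ht j; have := ht' j; linarith
  have hst1 : t1 ≤ |s.im| := by linarith
  have hle : ∀ j, t j + t' j ≤ |s.im| := by
    intro j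
    have : t j + t' j ≤ ∑ j, (t j + t' j) :=
      Finset.single_le_sum (f := fun j => t j + t' j)
        (fun j _ => by have := ht j; have := ht' j; linarith) (Finset.mem_univ j)
    linarith
  have him0 : 0 < |s.im| := by linarith
  have hs0 : s ≠ 0 := by
    rintro rfl
    simp at him0
  have hsre : |s.re| ≤ 1 := abs_le.2 ⟨hs1, by linarith⟩
  have hs1' : s.re < 1 := by linarith
  -- the logarithmic derivative
  have hld : logDeriv (Xf Q lam mu w) s = -((2 * Real.log Q : ℝ) : ℂ) -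
      ∑ j, (lam j : ℂ) * digamma (((-lam j : ℝ) : ℂ) * s + (lam j + conj (mu j))) -
      ∑ j, (lam j : ℂ) * digamma (lam j * s + mu j) := by
    have hw : w ≠ 0 := by
      intro h0
      have := hf.wnorm
      rw [h0] at this
      simp at this
    have d1 : HasDerivAt (fun z : ℂ => (Q : ℂ) ^ (1 - 2 * z))
        ((Q : ℂ) ^ (1 - 2 * s) * Complex.log Q * (-2)) s := by
      have : HasDerivAt (fun z : ℂ => 1 - 2 * z) (-2) s := by
        have := ((hasDerivAt_id s).const_mul (2 : ℂ)).const_sub 1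
        simpa using this
      exact this.const_cpow (Or.inl hQ)
    have n1 : (Q : ℂ) ^ (1 - 2 * s) ≠ 0 := by
      rw [cpow_def_of_ne_zero hQ]; exact exp_ne_zero _
    have n2 : ∀ j ∈ Finset.univ, (fun z : ℂ => Gamma (lam j * (1 - z) + conj (mu j))) s ≠ 0 :=
      fun j _ => Gamma_ne_zero_of_re_pos (XF4_num hf hs1' j)
    have g3 : ∀ j, ∀ m : ℕ, (lam j : ℂ) * s + mu j ≠ -m := by
      intro j m h'
      have h3 := him s hst1 j
      rw [h'] at h3
      simp at h3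
    have n3 : ∀ j ∈ Finset.univ, (fun z : ℂ => Gamma (lam j * z + mu j)) s ≠ 0 :=
      fun j _ => Gamma_ne_zero (g3 j)
    have e2 : ∀ j ∈ Finset.univ,
        DifferentiableAt ℂ (fun z : ℂ => Gamma (lam j * (1 - z) + conj (mu j))) s := by
      intro j _
      exact (XF4_diffGamma (XF4_num hf hs1' j)).comp s
        (f := fun s => (lam j : ℂ) * (1 - s) + conj (mu j)) (by fun_prop)
    have e3 : ∀ j ∈ Finset.univ, DifferentiableAt ℂ (fun z : ℂ => Gamma (lam j * z + mu j)) s := by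
      intro j _
      exact (differentiableAt_Gamma _ (g3 j)).comp s (f := fun s => (lam j : ℂ) * s + mu j)
        (by fun_prop)
    have p2 : (∏ j, Gamma (lam j * (1 - s) + conj (mu j))) ≠ 0 := Finset.prod_ne_zero_iff.2 n2
    have p3 : (∏ j, Gamma (lam j * s + mu j)) ≠ 0 := Finset.prod_ne_zero_iff.2 n3
    have q2 : DifferentiableAt ℂ (fun z : ℂ => ∏ j, Gamma (lam j * (1 - z) + conj (mu j))) s :=
      DifferentiableAt.fun_finsetProd e2
    have q3 : DifferentiableAt ℂ (fun z : ℂ => ∏ j, Gamma (lam j * z + mu j)) s :=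
      DifferentiableAt.fun_finsetProd e3
    have h1 : logDeriv (Xf Q lam mu w) s = logDeriv (fun z => w * (Q : ℂ) ^ (1 - 2 * z) *
        (∏ j, Gamma (lam j * (1 - z) + conj (mu j)))) s -
        logDeriv (fun z => ∏ j, Gamma (lam j * z + mu j)) s := by
      refine logDeriv_div s (mul_ne_zero (mul_ne_zero hw n1) p2) p3 ?_ q3
      exact (d1.differentiableAt.const_mul w).mul q2
    have h2 : logDeriv (fun z => w * (Q : ℂ) ^ (1 - 2 * z) *
        (∏ j, Gamma (lam j * (1 - z) + conj (mu j)))) s =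
        logDeriv (fun z => w * (Q : ℂ) ^ (1 - 2 * z)) s +
        logDeriv (fun z => ∏ j, Gamma (lam j * (1 - z) + conj (mu j))) s :=
      logDeriv_mul s (mul_ne_zero hw n1) p2 (d1.differentiableAt.const_mul w) q2
    have h3 : logDeriv (fun z => w * (Q : ℂ) ^ (1 - 2 * z)) s = -((2 * Real.log Q : ℝ) : ℂ) := by
      rw [logDeriv_const_mul s w hw, logDeriv_apply, d1.deriv, ofReal_mul, ofReal_log hf.Qpos.le]
      field_simp
      push_cast
      ring
    have h4 : logDeriv (fun z => ∏ j, Gamma (lam j * (1 - z) + conj (mu j))) s =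
        -∑ j, (lam j : ℂ) * digamma (((-lam j : ℝ) : ℂ) * s + (lam j + conj (mu j))) := by
      rw [logDeriv_prod n2 e2, ← Finset.sum_neg_distrib]
      refine Finset.sum_congr rfl fun j _ => ?_
      have dd : HasDerivAt (fun z : ℂ => (lam j : ℂ) * (1 - z) + conj (mu j)) (-(lam j : ℂ)) s := by
        have := (((hasDerivAt_id s).const_sub 1).const_mul (lam j : ℂ)).add_const (conj (mu j))
        simpa using this
      have := logDeriv_comp (f := Gamma) (g := fun z : ℂ => (lam j : ℂ) * (1 - z) + conj (mu j))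
        (x := s) (XF4_diffGamma (XF4_num hf hs1' j)) dd.differentiableAt
      rw [dd.deriv] at this
      have h5 : (((-lam j : ℝ) : ℂ) * s + (lam j + conj (mu j))) =
          (lam j : ℂ) * (1 - s) + conj (mu j) := by push_cast; ring
      rw [h5, digamma_def]
      have h6 : (Gamma ∘ fun z : ℂ => (lam j : ℂ) * (1 - z) + conj (mu j)) =
        fun z : ℂ => Gamma (lam j * (1 - z) + conj (mu j)) := rfl
      rw [h6] at this
      rw [this]
      ring
    have h5 : logDeriv (fun z => ∏ j, Gamma (lam j * z + mu j)) s =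
        ∑ j, (lam j : ℂ) * digamma (lam j * s + mu j) := by
      rw [logDeriv_prod n3 e3]
      refine Finset.sum_congr rfl fun j _ => ?_
      have dd : HasDerivAt (fun z : ℂ => (lam j : ℂ) * z + mu j) (lam j : ℂ) s := by
        have := (((hasDerivAt_id s)).const_mul (lam j : ℂ)).add_const (mu j)
        simpa using this
      have := logDeriv_comp (f := Gamma) (g := fun z : ℂ => (lam j : ℂ) * z + mu j)
        (x := s) (differentiableAt_Gamma _ (g3 j)) dd.differentiableAt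
      rw [dd.deriv] at this
      have h6 : (Gamma ∘ fun z : ℂ => (lam j : ℂ) * z + mu j) =
        fun z : ℂ => Gamma (lam j * z + mu j) := rfl
      rw [h6] at this
      rw [this, digamma_def]
      ring
    rw [h1, h2, h3, h4, h5]
    ring
  have hmain : logDeriv (Xf Q lam mu w) s - (-((2 * Real.log Q : ℝ) : ℂ) -
        ∑ j, ((lam j : ℂ) * (log ((lam j : ℂ) * s) + log (((-lam j : ℝ) : ℂ) * s))) +
        (1 - (2 * ∑ j, (mu j).im : ℝ) * I) / s +
        (-∑ j, (lam j : ℂ) * (c j + c' j)) / s ^ 2) =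
      -∑ j, (lam j : ℂ) * ((digamma (lam j * s + mu j) - log (lam j * s) -
        (mu j - 1 / 2) / (lam j * s) - c j / s ^ 2) +
        (digamma (((-lam j : ℝ) : ℂ) * s + (lam j + conj (mu j))) - log (((-lam j : ℝ) : ℂ) * s) -
          (lam j + conj (mu j) - 1 / 2) / (((-lam j : ℝ) : ℂ) * s) - c' j / s ^ 2)) := by
    rw [hld]
    have hone : (1 : ℂ) = ∑ j, (lam j : ℂ) := by
      rw [← ofReal_sum, hf.deg]; simp
    have hnu : ((2 * ∑ j, (mu j).im : ℝ) : ℂ) * I = ∑ j, (mu j - conj (mu j)) := by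
      rw [ofReal_mul, ofReal_sum, Finset.mul_sum, Finset.sum_mul]
      refine Finset.sum_congr rfl fun j _ => ?_
      rw [sub_conj]
      push_cast
      ring
    have e1 : (1 - (2 * ∑ j, (mu j).im : ℝ) * I) / s =
        ∑ j, ((lam j : ℂ) - (mu j - conj (mu j))) / s := by
      have e0 : ∑ j, ((lam j : ℂ) - (mu j - conj (mu j))) = 1 - ∑ j, (mu j - conj (mu j)) := by
        rw [hone]
        exact Finset.sum_sub_distrib (fun j => (lam j : ℂ)) (fun j => mu j - conj (mu j))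
      rw [hnu, ← Finset.sum_div, e0]
    have e2 : (-∑ j, (lam j : ℂ) * (c j + c' j)) / s ^ 2 =
        -∑ j, (lam j : ℂ) * (c j + c' j) / s ^ 2 := by
      rw [neg_div, Finset.sum_div]
    have e3 : ∑ j, (lam j : ℂ) * ((digamma (lam j * s + mu j) - log (lam j * s) -
        (mu j - 1 / 2) / (lam j * s) - c j / s ^ 2) +
        (digamma (((-lam j : ℝ) : ℂ) * s + (lam j + conj (mu j))) - log (((-lam j : ℝ) : ℂ) * s) -
          (lam j + conj (mu j) - 1 / 2) / (((-lam j : ℝ) : ℂ) * s) - c' j / s ^ 2)) =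
        ∑ j, ((lam j : ℂ) * digamma (lam j * s + mu j) +
          (lam j : ℂ) * digamma (((-lam j : ℝ) : ℂ) * s + (lam j + conj (mu j))) -
          (lam j : ℂ) * (log ((lam j : ℂ) * s) + log (((-lam j : ℝ) : ℂ) * s)) +
          ((lam j : ℂ) - (mu j - conj (mu j))) / s - (lam j : ℂ) * (c j + c' j) / s ^ 2) := by
      refine Finset.sum_congr rfl fun j _ => ?_
      have h1 := hlc j
      rw [ofReal_neg]
      field_simp
      ring
    rw [e1, e2, e3, Finset.sum_sub_distrib, Finset.sum_add_distrib, Finset.sum_sub_distrib,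
      Finset.sum_add_distrib]
    ring
  rw [hmain, norm_neg]
  refine (norm_sum_le _ _).trans ?_
  have h3 : ∀ j ∈ Finset.univ, ‖(lam j : ℂ) * ((digamma (lam j * s + mu j) - log (lam j * s) -
        (mu j - 1 / 2) / (lam j * s) - c j / s ^ 2) +
        (digamma (((-lam j : ℝ) : ℂ) * s + (lam j + conj (mu j))) - log (((-lam j : ℝ) : ℂ) * s) -
          (lam j + conj (mu j) - 1 / 2) / (((-lam j : ℝ) : ℂ) * s) - c' j / s ^ 2))‖ ≤
      lam j * (C j + C' j) / |s.im| ^ 3 := by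
    intro j _
    rw [norm_mul, norm_real, Real.norm_of_nonneg (hlam0 j), mul_div_assoc, add_div]
    refine mul_le_mul_of_nonneg_left ((norm_add_le _ _).trans (add_le_add ?_ ?_)) (hlam0 j)
    · exact hb j s hsre (by have := hle j; have := ht' j; linarith)
    · exact hb' j s hsre (by have := hle j; have := ht j; linarith)
  refine (Finset.sum_le_sum h3).trans ?_
  rw [← Finset.sum_div]
  gcongr
  linarith

private theorem XF8_kap (hf : Fun2 L Q lam mu w) : 2 * Real.log (2 * π * √(kap Q lam)) =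
    -(2 * Real.log Q) - 2 * ∑ j, lam j * Real.log (lam j) := by
  have hP : 0 < ∏ j, lam j ^ lam j :=
    Finset.prod_pos fun j _ => Real.rpow_pos_of_pos (hf.lampos j) _
  have hQ := hf.Qpos
  have h1 : √(kap Q lam) = (2 * π * Q * ∏ j, lam j ^ lam j)⁻¹ := by
    rw [kap, Real.sqrt_sq]
    have := Real.pi_pos
    positivity
  have h2 : 2 * π * √(kap Q lam) = (Q * ∏ j, lam j ^ lam j)⁻¹ := by
    rw [h1]
    have := Real.pi_pos
    field_simp
  have h3 : Real.log (∏ j, lam j ^ lam j) = ∑ j, lam j * Real.log (lam j) := by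
    rw [Real.log_prod fun j _ => (Real.rpow_pos_of_pos (hf.lampos j) _).ne']
    exact Finset.sum_congr rfl fun j _ => Real.log_rpow (hf.lampos j) _
  rw [h2, Real.log_inv, Real.log_mul hQ.ne' hP.ne', h3]
  ring

private theorem XF8_sum (hf : Fun2 L Q lam mu w) {s : ℂ} (hs : s ≠ 0) :
    -((2 * Real.log Q : ℝ) : ℂ) -
        ∑ j, ((lam j : ℂ) * (log ((lam j : ℂ) * s) + log (((-lam j : ℝ) : ℂ) * s))) =
      2 * Real.log (2 * π * √(kap Q lam)) - (log s + log (-s)) := by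
  have h0 : (2 * Real.log (2 * π * √(kap Q lam)) : ℂ) =
      ((2 * Real.log (2 * π * √(kap Q lam)) : ℝ) : ℂ) := by push_cast; ring
  have hone : (1 : ℂ) = ∑ j, (lam j : ℂ) := by
    rw [← ofReal_sum, hf.deg]; simp
  have h1 : ∑ j, ((lam j : ℂ) * (log ((lam j : ℂ) * s) + log (((-lam j : ℝ) : ℂ) * s))) =
      2 * ∑ j, ((lam j * Real.log (lam j) : ℝ) : ℂ) + (log s + log (-s)) := by
    have : (log s + log (-s)) = ∑ j, (lam j : ℂ) * (log s + log (-s)) := by
      rw [← Finset.sum_mul, ← hone, one_mul]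
    rw [this, Finset.mul_sum, ← Finset.sum_add_distrib]
    refine Finset.sum_congr rfl fun j _ => ?_
    have h2 : ((-lam j : ℝ) : ℂ) * s = (lam j : ℂ) * (-s) := by push_cast; ring
    rw [h2, log_ofReal_mul (hf.lampos j) hs, log_ofReal_mul (hf.lampos j) (neg_ne_zero.2 hs)]
    push_cast
    ring
  rw [h0, XF8_kap hf, h1]
  push_cast
  ring

/-- **XF8.** Third order expansion of `X'/X`, upper half plane; `ν = 2 ∑ Im μ_j`. Use
`digamma_affine` for `λ_j s + μ_j` and `-λ_j s + (λ_j + conj μ_j)`, and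
`log(-λ s) = log s + log λ - iπ` for `Im s > 0`. -/
theorem Xf_logDeriv_upper (hf : Fun2 L Q lam mu w) : ∃ (c2 : ℂ) (C t0 : ℝ), 0 < C ∧ 1 ≤ t0 ∧
    ∀ s : ℂ, -1 ≤ s.re → s.re ≤ 1 / 2 → t0 ≤ s.im →
      ‖logDeriv (Xf Q lam mu w) s - (π * I + 2 * Real.log (2 * π * √(kap Q lam)) - 2 * log s +
        (1 - (2 * ∑ j, (mu j).im : ℝ) * I) / s + c2 / s ^ 2)‖ ≤ C / s.im ^ 3 := by
  obtain ⟨c2, C, t0, hC, ht, hb⟩ := XF8_gen hf
  refine ⟨c2, C, t0, hC, ht, fun s h1 h2 h3 => ?_⟩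
  have him : 0 < s.im := by linarith
  have hs : s ≠ 0 := by
    rintro rfl
    simp at him
  have h4 := hb s h1 h2 (by rwa [abs_of_pos him])
  rw [abs_of_pos him, XF8_sum hf hs] at h4
  have h5 : log (-s) = log s - π * I := by
    rw [log, log, norm_neg, arg_neg_eq_arg_sub_pi_of_im_pos him]
    push_cast
    ring
  rw [h5] at h4
  refine le_of_eq_of_le ?_ h4
  congr 1
  ring
--END XF8

--BEGIN XF9
/-- **XF9.** The same in the lower half plane (`log(-s) = log s + iπ` there). -/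
theorem Xf_logDeriv_lower (hf : Fun2 L Q lam mu w) : ∃ (c2 : ℂ) (C t0 : ℝ), 0 < C ∧ 1 ≤ t0 ∧
    ∀ s : ℂ, -1 ≤ s.re → s.re ≤ 1 / 2 → s.im ≤ -t0 →
      ‖logDeriv (Xf Q lam mu w) s - (-(π * I) + 2 * Real.log (2 * π * √(kap Q lam)) - 2 * log s +
        (1 - (2 * ∑ j, (mu j).im : ℝ) * I) / s + c2 / s ^ 2)‖ ≤ C / |s.im| ^ 3 := by
  obtain ⟨c2, C, t0, hC, ht, hb⟩ := XF8_gen hf
  refine ⟨c2, C, t0, hC, ht, fun s h1 h2 h3 => ?_⟩
  have him : s.im < 0 := by linarith
  have hs : s ≠ 0 := by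
    rintro rfl
    simp at him
  have h4 := hb s h1 h2 (by rw [abs_of_neg him]; linarith)
  rw [XF8_sum hf hs] at h4
  have h5 : log (-s) = log s + π * I := by
    rw [log, log, norm_neg, arg_neg_eq_arg_add_pi_of_im_neg him]
    push_cast
    ring
  rw [h5] at h4
  refine le_of_eq_of_le ?_ h4
  congr 1
  ring
--END XF9

--BEGIN XF10
/-- **XF10.** `∑ Im μ_j = 0`, because `X` is real (compare XF8 and XF9 at conjugate points). -/
theorem sum_im_zero (h : RealSelberg a L 2) (hf : Fun2 L Q lam mu w) : ∑ j, (mu j).im = 0 := by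
  obtain ⟨c, C, t0, hC, ht, hb⟩ := Xf_logDeriv_upper hf
  obtain ⟨c', C', t0', hC', ht', hb'⟩ := Xf_logDeriv_lower hf
  set K : ℂ := ((2 * Real.log (2 * π * √(kap Q lam)) : ℝ) : ℂ) with hK
  set ν : ℝ := 2 * ∑ j, (mu j).im with hν
  have hKe : (2 * Real.log (2 * π * √(kap Q lam)) : ℂ) = K := by rw [hK]; push_cast; ring
  -- the logarithmic derivative of X at conjugate points
  have hld : ∀ s : ℂ, s.re < 0 →
      logDeriv (Xf Q lam mu w) (conj s) = conj (logDeriv (Xf Q lam mu w) s) := by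
    intro s hs
    have h1 : HasDerivAt (Xf Q lam mu w) (deriv (Xf Q lam mu w) s) s :=
      (Xf_diff hf (by linarith)).hasDerivAt
    have h2 := h1.conj_conj
    have h3 : (conj ∘ Xf Q lam mu w ∘ conj) =ᶠ[𝓝 (conj s)] Xf Q lam mu w := by
      have hop : IsOpen {z : ℂ | z.re < 0} := isOpen_lt continuous_re continuous_const
      have hm : conj s ∈ {z : ℂ | z.re < 0} := by
        show (conj s).re < 0
        simpa using hs
      filter_upwards [hop.mem_nhds hm] with z hz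
      have hz' : z.re < 0 := hz
      simp only [Function.comp_apply]
      rw [Xf_conj h hf hz', conj_conj]
    have h4 := (h2.congr_of_eventuallyEq h3.symm).deriv
    rw [logDeriv_apply, logDeriv_apply, h4, Xf_conj h hf hs, map_div₀]
  -- compare at -1/2 + it
  have key : ∀ t : ℝ, t0 + t0' ≤ t → |ν| * 2 / (1 + t) ≤
      (‖c‖ + ‖c'‖) / t ^ 2 + (C + C') / t ^ 3 := by
    intro t htt
    have ht0 : 0 < t := by linarith
    set s : ℂ := -(1 / 2) + t * I with hs
    have hre : s.re = -(1 / 2) := by simp [hs]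
    have him : s.im = t := by simp [hs]
    have hcre : (conj s).re = -(1 / 2) := by simp [hs]
    have hcim : (conj s).im = -t := by simp [hs]
    have hs0 : s ≠ 0 := by
      intro h0
      rw [h0] at him
      simp at him
      linarith
    have e1 := hb s (by rw [hre]; norm_num) (by rw [hre]; norm_num) (by rw [him]; linarith)
    have e2 := hb' (conj s) (by rw [hcre]; norm_num) (by rw [hcre]; norm_num)
      (by rw [hcim]; linarith)
    rw [hld s (by rw [hre]; norm_num), hcim, abs_neg, abs_of_pos ht0] at e2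
    rw [him] at e1
    have e3 : ‖conj (conj (logDeriv (Xf Q lam mu w) s) - (-(π * I) +
        2 * Real.log (2 * π * √(kap Q lam)) - 2 * log (conj s) +
        (1 - (ν : ℂ) * I) / conj s + c' / conj s ^ 2))‖ ≤ C' / t ^ 3 := by
      rw [RCLike.norm_conj]; exact e2
    have hlog : conj (log (conj s)) = log s := by
      rw [← log_conj _ (by
        intro h'
        have := (arg_eq_pi_iff.1 h').2
        rw [hcim] at this
        linarith), conj_conj]
    have h2c : conj (2 : ℂ) = 2 := map_ofNat _ 2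
    have hKc : conj K = K := by rw [hK, conj_ofReal]
    have hνc : conj (ν : ℂ) = ν := conj_ofReal _
    have hπc : conj (π : ℂ) = π := conj_ofReal _
    rw [hKe] at e3
    simp only [map_sub, map_add, map_neg, map_mul, map_div₀, map_pow, map_one, conj_conj, hlog,
      conj_I, h2c, hKc, hνc, hπc] at e3
    rw [hKe] at e1
    have e4 := norm_sub_le
      (logDeriv (Xf Q lam mu w) s - (-((π : ℂ) * -I) + K - 2 * log s +
        (1 - (ν : ℂ) * -I) / s + conj c' / s ^ 2))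
      (logDeriv (Xf Q lam mu w) s - (π * I + K - 2 * log s + (1 - (ν : ℂ) * I) / s + c / s ^ 2))
    have e5 : (logDeriv (Xf Q lam mu w) s - (-((π : ℂ) * -I) + K - 2 * log s +
        (1 - (ν : ℂ) * -I) / s + conj c' / s ^ 2)) -
      (logDeriv (Xf Q lam mu w) s - (π * I + K - 2 * log s + (1 - (ν : ℂ) * I) / s + c / s ^ 2)) =
      -(2 * (ν * I) / s) - (conj c' - c) / s ^ 2 := by
      field_simp
      ring
    rw [e5] at e4
    have e6 : ‖2 * ((ν : ℂ) * I) / s‖ ≤ ‖-(2 * (ν * I) / s) - (conj c' - c) / s ^ 2‖ +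
        ‖(conj c' - c) / s ^ 2‖ := by
      have := norm_add_le (-(2 * (ν * I) / s) - (conj c' - c) / s ^ 2) ((conj c' - c) / s ^ 2)
      rw [sub_add_cancel, norm_neg] at this
      exact this
    have hns : ‖s‖ ≤ 1 + t := by
      refine (norm_add_le _ _).trans ?_
      have h1 : ‖(-(1 / 2) : ℂ)‖ = 1 / 2 := by
        rw [norm_neg]
        norm_num
      rw [h1, norm_mul, norm_I, mul_one, norm_real, Real.norm_of_nonneg ht0.le]
      linarith
    have hns2 : t ≤ ‖s‖ := by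
      have := abs_im_le_norm s
      rw [him, abs_of_pos ht0] at this
      exact this
    have hns0 : 0 < ‖s‖ := norm_pos_iff.2 hs0
    have e7 : ‖2 * ((ν : ℂ) * I) / s‖ = |ν| * 2 / ‖s‖ := by
      rw [norm_div, norm_mul, norm_mul, norm_I, norm_real, Real.norm_eq_abs, mul_one, mul_comm]
      norm_num
    have e8 : |ν| * 2 / (1 + t) ≤ |ν| * 2 / ‖s‖ := by
      gcongr
    have e9 : ‖(conj c' - c) / s ^ 2‖ ≤ (‖c‖ + ‖c'‖) / t ^ 2 := by
      rw [norm_div, norm_pow]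
      have h1 : ‖conj c' - c‖ ≤ ‖c‖ + ‖c'‖ := by
        refine (norm_sub_le _ _).trans ?_
        rw [RCLike.norm_conj]; linarith
      gcongr
    have e10 : C' / t ^ 3 + C / t ^ 3 = (C + C') / t ^ 3 := by ring
    linarith
  have hν0 : ν = 0 := by
    by_contra hne
    have hpos : 0 < |ν| := abs_pos.2 hne
    set B : ℝ := ‖c‖ + ‖c'‖ + (C + C') with hB
    have hB0 : 0 < B := by have := norm_nonneg c; have := norm_nonneg c'; linarith
    set t : ℝ := t0 + t0' + B / |ν| with htd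
    have hBν : 0 < B / |ν| := div_pos hB0 hpos
    have ht1 : 1 ≤ t := by linarith
    have ht0 : 0 < t := by linarith
    have h1 := key t (by linarith)
    have h2 : (‖c‖ + ‖c'‖) / t ^ 2 + (C + C') / t ^ 3 ≤ B / t ^ 2 := by
      have : (C + C') / t ^ 3 ≤ (C + C') / t ^ 2 := by
        exact div_le_div_of_nonneg_left (by linarith) (by positivity)
          (pow_le_pow_right₀ ht1 (by norm_num))
      have h3 : B / t ^ 2 = (‖c‖ + ‖c'‖) / t ^ 2 + (C + C') / t ^ 2 := by rw [hB]; ring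
      linarith
    have h3 : |ν| / t ≤ |ν| * 2 / (1 + t) := by
      rw [div_le_div_iff₀ ht0 (by linarith)]
      nlinarith
    have h4 : |ν| / t ≤ B / t ^ 2 := by linarith
    rw [div_le_div_iff₀ ht0 (by positivity)] at h4
    have h5 : |ν| * t ≤ B := by
      have : |ν| * t * t ≤ B * t := by nlinarith
      exact le_of_mul_le_mul_right this ht0
    have h6 : B < |ν| * t := by
      have : |ν| * (B / |ν|) = B := by field_simp
      rw [htd]
      nlinarith
    linarith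
  rw [hν] at hν0
  linarith
--END XF10

--BEGIN XF11
/-- **XF11.** The logarithmic derivative of `M_0`. -/
theorem Mf_logDeriv {κ : ℝ} (hκ : 0 < κ) : ∃ (c : ℂ) (C t0 : ℝ), 0 < C ∧ 1 ≤ t0 ∧
    ∀ s : ℂ, -1 ≤ s.re → s.re ≤ 1 / 2 → t0 ≤ s.im →
      Mf κ 0 s ≠ 0 ∧
      ‖logDeriv (Mf κ 0) s - (π * I + 2 * Real.log (2 * π * √κ) - 2 * log s - 2 / s + c / s ^ 2)‖
        ≤ C / s.im ^ 3 := by
  obtain ⟨c, C, t0, hC, ht0, hd⟩ := digamma_affine (-2) (by norm_num) (-3 / 2) 1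
  have hB : 0 < 4 * π * √κ := by positivity
  refine ⟨-2 * c, 2 * C, t0, by positivity, ht0, fun s hs1 hs2 hst => ?_⟩
  have him : 0 < s.im := by linarith
  have hs0 : s ≠ 0 := by
    intro h
    rw [h, Complex.zero_im] at him
    exact lt_irrefl _ him
  have hz : ∀ m : ℕ, (-2 * s - 3 / 2 - ((0 : ℕ) : ℂ)) ≠ -(m : ℂ) := by
    intro m hm
    have h1 := congrArg Complex.im hm
    simp at h1
    linarith
  have hΓ : Gamma (-2 * s - 3 / 2 - ((0 : ℕ) : ℂ)) ≠ 0 := Complex.Gamma_ne_zero hz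
  have hBc : ((4 * π * √κ : ℝ) : ℂ) ≠ 0 := by
    rw [Complex.ofReal_ne_zero]
    exact hB.ne'
  have hpow : ((4 * π * √κ : ℝ) : ℂ) ^ (2 * s) ≠ 0 := by
    rw [Complex.cpow_ne_zero_iff]
    exact Or.inl hBc
  have hexp : cexp (-(π * I * s)) ≠ 0 := Complex.exp_ne_zero _
  refine ⟨mul_ne_zero (mul_ne_zero hexp hpow) hΓ, ?_⟩
  have d1 : HasDerivAt (fun s : ℂ => cexp (-(π * I * s))) (cexp (-(π * I * s)) * (-(π * I))) s := by
    have h1 : HasDerivAt (fun s : ℂ => -(π * I * s)) (-(π * I * 1)) s :=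
      ((hasDerivAt_id s).const_mul (π * I)).neg
    rw [mul_one] at h1
    exact h1.cexp
  have d2 : HasDerivAt (fun s : ℂ => ((4 * π * √κ : ℝ) : ℂ) ^ (2 * s))
      (((4 * π * √κ : ℝ) : ℂ) ^ (2 * s) * log ((4 * π * √κ : ℝ) : ℂ) * 2) s := by
    have h1 : HasDerivAt (fun s : ℂ => 2 * s) (2 * 1) s := (hasDerivAt_id s).const_mul 2
    rw [mul_one] at h1
    exact h1.const_cpow (Or.inl hBc)
  have d3 : HasDerivAt (fun s : ℂ => Gamma (-2 * s - 3 / 2 - ((0 : ℕ) : ℂ)))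
      (deriv Gamma (-2 * s - 3 / 2 - ((0 : ℕ) : ℂ)) * (-2)) s := by
    have h1 : HasDerivAt (fun s : ℂ => -2 * s - 3 / 2 - ((0 : ℕ) : ℂ)) (-2 * 1) s :=
      (((hasDerivAt_id s).const_mul (-2)).sub_const _).sub_const _
    rw [mul_one] at h1
    exact (Complex.differentiableAt_Gamma _ hz).hasDerivAt.comp s h1
  have d4 := (d1.mul d2).mul d3
  have e1 : logDeriv (Mf κ 0) s = -(π * I) + log ((4 * π * √κ : ℝ) : ℂ) * 2
      + digamma (-2 * s - 3 / 2 - ((0 : ℕ) : ℂ)) * (-2) := by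
    have h1 : HasDerivAt (Mf κ 0) _ s := d4
    rw [logDeriv_apply, h1.deriv]
    unfold Mf digamma
    rw [logDeriv_apply]
    simp only [Pi.mul_apply]
    generalize Gamma (-2 * s - 3 / 2 - ((0 : ℕ) : ℂ)) = G at hΓ ⊢
    generalize deriv Gamma (-2 * s - 3 / 2 - ((0 : ℕ) : ℂ)) = G'
    generalize ((4 * π * √κ : ℝ) : ℂ) ^ (2 * s) = P at hpow ⊢
    generalize cexp (-(π * I * s)) = E at hexp ⊢
    field_simp
  have hd1 := hd s (by rw [abs_le]; constructor <;> linarith) (by rw [abs_of_pos him]; exact hst)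
  rw [abs_of_pos him] at hd1
  have e2 : (((-2 : ℝ) : ℂ) * s + (-3 / 2 : ℂ)) = -2 * s - 3 / 2 - ((0 : ℕ) : ℂ) := by
    push_cast
    ring
  have e3 : log (((-2 : ℝ) : ℂ) * s) = log s + Real.log 2 - π * I := by
    have h2 : ((-2 : ℝ) : ℂ) * s = ((2 : ℝ) : ℂ) * (-s) := by
      push_cast
      ring
    have h3 : -s ≠ 0 := neg_ne_zero.2 hs0
    rw [h2, Complex.log_ofReal_mul (by norm_num) h3]
    have h4 : log (-s) = log s - π * I := by
      rw [Complex.log, Complex.log, norm_neg, Complex.arg_neg_eq_arg_sub_pi_of_im_pos him]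
      push_cast
      ring
    rw [h4]
    ring
  have e4 : log ((4 * π * √κ : ℝ) : ℂ) = ((Real.log 2 + Real.log (2 * π * √κ) : ℝ) : ℂ) := by
    rw [← Complex.ofReal_log hB.le, ← Real.log_mul (by norm_num) (by positivity)]
    congr 2
    ring
  rw [e2, e3] at hd1
  have e5 : logDeriv (Mf κ 0) s - (π * I + 2 * Real.log (2 * π * √κ) - 2 * log s - 2 / s
      + -2 * c / s ^ 2) = -2 * (digamma (-2 * s - 3 / 2 - ((0 : ℕ) : ℂ))
        - (log s + Real.log 2 - π * I) - (-3 / 2 - 1 / 2) / (((-2 : ℝ) : ℂ) * s) - c / s ^ 2) := by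
    rw [e1, e4]
    push_cast
    field_simp
    ring
  rw [e5, norm_mul]
  have h6 : ‖(-2 : ℂ)‖ = 2 := by norm_num
  rw [h6, mul_div_assoc]
  exact mul_le_mul_of_nonneg_left hd1 (by norm_num)
--END XF11

--BEGIN XF12
private theorem XF12_bd (f f' : ℝ → ℂ) (t0 C M : ℝ) (ht : 1 ≤ t0) (hC : 0 ≤ C) (hM : 0 < M)
    (hf : ∀ t, t0 ≤ t → HasDerivAt f (f' t) t) (hb : ∀ t, t0 ≤ t → ‖f' t‖ ≤ C / t ^ 3 * ‖f t‖)
    (h0 : ‖f t0‖ ≤ M) : ∀ t, t0 ≤ t → ‖f t‖ ≤ M * Real.exp (C + 1) := by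
  intro t htt
  have hB : ∀ x, t0 ≤ x → HasDerivAt
      (fun x : ℝ => M * Real.exp ((C + 1) / 2 * ((t0 ^ 2)⁻¹ - (x ^ 2)⁻¹)))
      (M * Real.exp ((C + 1) / 2 * ((t0 ^ 2)⁻¹ - (x ^ 2)⁻¹)) * ((C + 1) / x ^ 3)) x := by
    intro x hx
    have hx0 : x ≠ 0 := by linarith
    have h1 : HasDerivAt (fun x : ℝ => (x ^ 2)⁻¹) (-(2 * x) / (x ^ 2) ^ 2) x := by
      refine ((hasDerivAt_pow 2 x).inv (pow_ne_zero 2 hx0)).congr_deriv ?_
      simp
    have h3 : HasDerivAt (fun x : ℝ => (C + 1) / 2 * ((t0 ^ 2)⁻¹ - (x ^ 2)⁻¹))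
        ((C + 1) / 2 * (-(-(2 * x) / (x ^ 2) ^ 2))) x := by
      have h4 := (h1.const_sub ((t0 ^ 2)⁻¹)).const_mul ((C + 1) / 2)
      exact h4
    have h5 := (h3.exp).const_mul M
    refine h5.congr_deriv ?_
    field_simp
  have h1 := image_norm_le_of_norm_deriv_right_lt_deriv_boundary' (f := f) (f' := f')
    (a := t0) (b := t)
    (B := fun x : ℝ => M * Real.exp ((C + 1) / 2 * ((t0 ^ 2)⁻¹ - (x ^ 2)⁻¹)))
    (B' := fun x : ℝ => M * Real.exp ((C + 1) / 2 * ((t0 ^ 2)⁻¹ - (x ^ 2)⁻¹)) * ((C + 1) / x ^ 3))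
    (fun x hx => (hf x hx.1).continuousAt.continuousWithinAt)
    (fun x hx => (hf x hx.1).hasDerivWithinAt)
    (by simpa using h0)
    (fun x hx => (hB x hx.1).continuousAt.continuousWithinAt)
    (fun x hx => (hB x hx.1).hasDerivWithinAt)
    (by
      intro x hx hxe
      have hx1 : 1 ≤ x := ht.trans hx.1
      refine (hb x hx.1).trans_lt ?_
      rw [hxe, mul_comm]
      refine mul_lt_mul_of_pos_left ?_ (by positivity)
      exact div_lt_div_of_pos_right (by linarith) (by positivity))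
    (right_mem_Icc.2 htt)
  refine h1.trans ?_
  refine mul_le_mul_of_nonneg_left ?_ hM.le
  apply Real.exp_le_exp.2
  have h2 : (t0 ^ 2)⁻¹ ≤ 1 := inv_le_one_of_one_le₀ (one_le_pow₀ ht)
  have h3 : 0 ≤ (t ^ 2)⁻¹ := by positivity
  nlinarith

private theorem XF12_lim (f f' : ℝ → ℂ) (t0 K : ℝ) (ht : 1 ≤ t0) (hK : 0 ≤ K)
    (hf : ∀ t, t0 ≤ t → HasDerivAt f (f' t) t) (hb : ∀ t, t0 ≤ t → ‖f' t‖ ≤ K / t ^ 3) :
    ∃ h0 : ℂ, ∀ t, t0 ≤ t → ‖f t - h0‖ ≤ K / t ^ 2 := by
  have key : ∀ t, t0 ≤ t → ∀ u, t ≤ u → ‖f u - f t‖ ≤ K / t ^ 2 := by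
    intro t htt u htu
    have ht1 : 1 ≤ t := ht.trans htt
    have hB : ∀ x, t ≤ x → HasDerivAt (fun x : ℝ => K / 2 * ((t ^ 2)⁻¹ - (x ^ 2)⁻¹))
        (K / x ^ 3) x := by
      intro x hx
      have hx0 : x ≠ 0 := by linarith
      have h1 : HasDerivAt (fun x : ℝ => (x ^ 2)⁻¹) (-(2 * x) / (x ^ 2) ^ 2) x := by
        refine ((hasDerivAt_pow 2 x).inv (pow_ne_zero 2 hx0)).congr_deriv ?_
        simp
      have h4 := (h1.const_sub ((t ^ 2)⁻¹)).const_mul (K / 2)
      refine h4.congr_deriv ?_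
      field_simp
    have h1 := image_norm_le_of_norm_deriv_right_le_deriv_boundary' (f := fun x => f x - f t)
      (f' := f') (a := t) (b := u) (B := fun x : ℝ => K / 2 * ((t ^ 2)⁻¹ - (x ^ 2)⁻¹))
      (B' := fun x => K / x ^ 3)
      (fun x hx => ((hf x (htt.trans hx.1)).sub_const _).continuousAt.continuousWithinAt)
      (fun x hx => ((hf x (htt.trans hx.1)).sub_const _).hasDerivWithinAt)
      (by simp)
      (fun x hx => (hB x hx.1).continuousAt.continuousWithinAt)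
      (fun x hx => (hB x hx.1).hasDerivWithinAt)
      (fun x hx => hb x (htt.trans hx.1))
      (right_mem_Icc.2 htu)
    refine h1.trans ?_
    have h3 : 0 ≤ (u ^ 2)⁻¹ := by positivity
    have h4 : 0 ≤ (t ^ 2)⁻¹ := by positivity
    have h5 : K / t ^ 2 = K * (t ^ 2)⁻¹ := div_eq_mul_inv _ _
    rw [h5]
    nlinarith
  have hc : CauchySeq f := by
    rw [Metric.cauchySeq_iff']
    intro ε hε
    refine ⟨max t0 (K / ε + 1), fun u hu => ?_⟩
    have h1 : t0 ≤ max t0 (K / ε + 1) := le_max_left _ _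
    have h2 : K / ε + 1 ≤ max t0 (K / ε + 1) := le_max_right _ _
    have h3 := key _ h1 u hu
    generalize max t0 (K / ε + 1) = T at h1 h2 h3 hu ⊢
    have hT1 : 1 ≤ T := ht.trans h1
    rw [dist_eq_norm]
    refine h3.trans_lt ?_
    rw [div_lt_iff₀ (by positivity)]
    have h4 : K < ε * T := by
      have h5 : K = ε * (K / ε) := by field_simp
      rw [h5]
      exact mul_lt_mul_of_pos_left (by linarith) hε
    nlinarith
  obtain ⟨h0, hh0⟩ := cauchySeq_tendsto_of_complete hc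
  refine ⟨h0, fun t htt => ?_⟩
  have h1 : Tendsto (fun u => ‖f u - f t‖) atTop (𝓝 ‖h0 - f t‖) := (hh0.sub_const _).norm
  rw [norm_sub_rev]
  exact le_of_tendsto h1 (Filter.eventually_atTop.2 ⟨t, fun u hu => key t htt u hu⟩)

private theorem XF12_exp (z : ℂ) (A : ℝ) (hz : ‖z‖ ≤ A) :
    ‖cexp z - 1 - z‖ ≤ (Real.exp A + 2) * ‖z‖ ^ 2 := by
  rcases le_total ‖z‖ 1 with h | h
  · refine (Complex.norm_exp_sub_one_sub_id_le h).trans ?_
    have := Real.exp_pos A
    nlinarith [sq_nonneg ‖z‖]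
  · have h1 : ‖cexp z‖ ≤ Real.exp A := by
      rw [Complex.norm_exp]
      exact Real.exp_le_exp.2 ((Complex.re_le_norm _).trans hz)
    have h2 : ‖cexp z - 1 - z‖ ≤ ‖cexp z‖ + 1 + ‖z‖ := by
      refine (norm_sub_le _ _).trans ?_
      have := norm_sub_le (cexp z) 1
      rw [norm_one] at this
      linarith
    have h3 : 1 ≤ ‖z‖ ^ 2 := one_le_pow₀ h
    have h4 : ‖z‖ ≤ ‖z‖ ^ 2 := by nlinarith
    have := Real.exp_pos A
    nlinarith

/-- **XF12.** A function with `H'/H = h2/s² + O(t^{-3})` in a half strip is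
`h0 (1 - h2/s + O(t^{-2}))`, with `h0 ≠ 0`. -/
theorem asymp_of_logDeriv {H : ℂ → ℂ} {σ1 σ2 t0 C : ℝ} {h2 : ℂ} (hσ : σ1 < σ2) (ht : 1 ≤ t0)
    (hd : ∀ s : ℂ, σ1 - 1 / 8 < s.re → s.re < σ2 + 1 / 8 → t0 / 2 < s.im →
      DifferentiableAt ℂ H s ∧ H s ≠ 0)
    (hl : ∀ s : ℂ, σ1 ≤ s.re → s.re ≤ σ2 → t0 ≤ s.im →
      ‖logDeriv H s - h2 / s ^ 2‖ ≤ C / s.im ^ 3) :
    ∃ (h0 : ℂ) (C' : ℝ), h0 ≠ 0 ∧ 0 < C' ∧ ∀ s : ℂ, σ1 ≤ s.re → s.re ≤ σ2 → t0 ≤ s.im →
      ‖H s - h0 * (1 - h2 / s)‖ ≤ C' / s.im ^ 2 := by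
  obtain ⟨C0, hC0, hCC0⟩ : ∃ C0 : ℝ, 0 ≤ C0 ∧ C ≤ C0 := ⟨max C 0, le_max_right _ _, le_max_left _ _⟩
  have hs0 : ∀ s : ℂ, t0 ≤ s.im → s ≠ 0 := by
    intro s hs h
    rw [h, Complex.zero_im] at hs
    linarith
  -- the function `F = H exp (h2 / s)` and its reciprocal
  have hF : ∀ s : ℂ, σ1 ≤ s.re → s.re ≤ σ2 → t0 ≤ s.im →
      HasDerivAt (fun s => H s * cexp (h2 / s))
        (H s * cexp (h2 / s) * (logDeriv H s - h2 / s ^ 2)) s := by
    intro s h1 h2' h3
    obtain ⟨h4, h5⟩ := hd s (by linarith) (by linarith) (by linarith)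
    have h6 : HasDerivAt (fun s : ℂ => h2 / s) (-(h2 / s ^ 2)) s := by
      have h7 := (hasDerivAt_inv (hs0 s h3)).const_mul h2
      refine (h7.congr_deriv ?_).congr_of_eventuallyEq ?_
      · rw [mul_neg, div_eq_mul_inv]
      · exact Filter.Eventually.of_forall fun x => div_eq_mul_inv _ _
    have h8 := h4.hasDerivAt.mul h6.cexp
    refine h8.congr_deriv ?_
    rw [logDeriv_apply]
    field_simp
    ring
  have hcont : ContinuousOn (fun x : ℝ => H (x + t0 * I) * cexp (h2 / (x + t0 * I))) (Icc σ1 σ2) := by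
    intro x hx
    have h1 := (hF (x + t0 * I) (by simpa using hx.1) (by simpa using hx.2) (by simp)).continuousAt
    have h2' : ContinuousAt (fun x : ℝ => (x : ℂ) + t0 * I) x := by fun_prop
    exact (ContinuousAt.comp (f := fun x : ℝ => (x : ℂ) + t0 * I)
      (g := fun s => H s * cexp (h2 / s)) h1 h2').continuousWithinAt
  obtain ⟨M, hM⟩ := (isCompact_Icc.image_of_continuousOn hcont.norm).bddAbove
  obtain ⟨M0, hM0, hMM0⟩ : ∃ M0 : ℝ, 0 < M0 ∧ M ≤ M0 :=
    ⟨max M 1, lt_max_of_lt_right one_pos, le_max_left _ _⟩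
  have hFne : ∀ s : ℂ, σ1 ≤ s.re → s.re ≤ σ2 → t0 ≤ s.im → H s * cexp (h2 / s) ≠ 0 := by
    intro s h1 h2' h3
    exact mul_ne_zero (hd s (by linarith) (by linarith) (by linarith)).2 (Complex.exp_ne_zero _)
  -- vertical lines
  have hv : ∀ σ : ℝ, σ1 ≤ σ → σ ≤ σ2 → ∀ t : ℝ, t0 ≤ t →
      HasDerivAt (fun t : ℝ => H (σ + t * I) * cexp (h2 / (σ + t * I)))
        (H (σ + t * I) * cexp (h2 / (σ + t * I)) * (logDeriv H (σ + t * I) - h2 / (σ + t * I) ^ 2)
          * I) t := by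
    intro σ h1 h2' t h3
    have h4 := hF (σ + t * I) (by simpa using h1) (by simpa using h2') (by simpa using h3)
    have h5 : HasDerivAt (fun t : ℝ => (σ : ℂ) + t * I) I t := by
      have := ((Complex.ofRealCLM.hasDerivAt (x := t)).mul_const I).const_add (σ : ℂ)
      simpa using this
    exact HasDerivAt.comp t h4 h5
  have hE : ∀ σ : ℝ, σ1 ≤ σ → σ ≤ σ2 → ∀ t : ℝ, t0 ≤ t →
      ‖logDeriv H (σ + t * I) - h2 / (σ + t * I) ^ 2‖ ≤ C0 / t ^ 3 := by
    intro σ h1 h2' t h3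
    have h4 := hl (σ + t * I) (by simpa using h1) (by simpa using h2') (by simpa using h3)
    have h5 : ((σ : ℂ) + t * I).im = t := by simp
    rw [h5] at h4
    have ht' : 0 < t := by linarith
    exact h4.trans (div_le_div_of_nonneg_right hCC0 (by positivity))
  -- boundedness
  have hbd : ∀ σ : ℝ, σ1 ≤ σ → σ ≤ σ2 → ∀ t : ℝ, t0 ≤ t →
      ‖H (σ + t * I) * cexp (h2 / (σ + t * I))‖ ≤ M0 * Real.exp (C0 + 1) := by
    intro σ h1 h2' t h3
    refine XF12_bd _ _ t0 C0 M0 ht hC0 hM0 (hv σ h1 h2') ?_ ?_ t h3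
    · intro u hu
      rw [norm_mul, Complex.norm_I, mul_one, norm_mul, mul_comm]
      exact mul_le_mul_of_nonneg_right (hE σ h1 h2' u hu) (norm_nonneg _)
    · exact (hM ⟨σ, ⟨h1, h2'⟩, rfl⟩).trans hMM0
  set K : ℝ := C0 * (M0 * Real.exp (C0 + 1)) with hK
  have hK0 : 0 ≤ K := by positivity
  -- the limit along the line σ1
  obtain ⟨h0, hh0⟩ := XF12_lim (fun t : ℝ => H (σ1 + t * I) * cexp (h2 / (σ1 + t * I))) _ t0 K ht
    hK0 (hv σ1 le_rfl hσ.le) (by
      intro u hu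
      rw [norm_mul, Complex.norm_I, mul_one, norm_mul, mul_comm]
      calc _ ≤ C0 / u ^ 3 * (M0 * Real.exp (C0 + 1)) :=
            mul_le_mul (hE σ1 le_rfl hσ.le u hu) (hbd σ1 le_rfl hσ.le u hu) (norm_nonneg _)
              ((norm_nonneg _).trans (hE σ1 le_rfl hσ.le u hu))
        _ = K / u ^ 3 := by rw [hK]; ring)
  -- h0 is not zero
  have hne : h0 ≠ 0 := by
    intro h00
    have hφne : ∀ t : ℝ, t0 ≤ t → H (σ1 + t * I) * cexp (h2 / (σ1 + t * I)) ≠ 0 := fun t h3 =>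
      hFne _ (by simp) (by simpa using hσ.le) (by simpa using h3)
    have hinv : ∀ t : ℝ, t0 ≤ t → HasDerivAt
        (fun t : ℝ => (H (σ1 + t * I) * cexp (h2 / (σ1 + t * I)))⁻¹)
        (-(H (σ1 + t * I) * cexp (h2 / (σ1 + t * I)) * (logDeriv H (σ1 + t * I)
          - h2 / (σ1 + t * I) ^ 2) * I) / (H (σ1 + t * I) * cexp (h2 / (σ1 + t * I))) ^ 2) t :=
      fun t h3 => (hv σ1 le_rfl hσ.le t h3).inv (hφne t h3)
    have hM1 : 0 < ‖(H (σ1 + t0 * I) * cexp (h2 / (σ1 + t0 * I)))⁻¹‖ :=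
      norm_pos_iff.2 (inv_ne_zero (hφne t0 le_rfl))
    have hbi := XF12_bd _ _ t0 C0 _ ht hC0 hM1 hinv (by
      intro u hu
      have h4 := hφne u hu
      have h5 : ‖H (σ1 + u * I) * cexp (h2 / (σ1 + u * I))‖ ≠ 0 := norm_ne_zero_iff.2 h4
      rw [norm_div, norm_neg, norm_mul, Complex.norm_I, mul_one, norm_mul
        (H (σ1 + u * I) * cexp (h2 / (σ1 + u * I))), norm_pow, norm_inv]
      have h6 : ‖H (σ1 + u * I) * cexp (h2 / (σ1 + u * I))‖
          * ‖logDeriv H (σ1 + u * I) - h2 / (σ1 + u * I) ^ 2‖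
          / ‖H (σ1 + u * I) * cexp (h2 / (σ1 + u * I))‖ ^ 2
          = ‖logDeriv H (σ1 + u * I) - h2 / (σ1 + u * I) ^ 2‖
          * ‖H (σ1 + u * I) * cexp (h2 / (σ1 + u * I))‖⁻¹ := by
        field_simp
      rw [h6]
      exact mul_le_mul_of_nonneg_right (hE σ1 le_rfl hσ.le u hu) (by positivity)) le_rfl
    set M1 : ℝ := ‖(H (σ1 + t0 * I) * cexp (h2 / (σ1 + t0 * I)))⁻¹‖ * Real.exp (C0 + 1) with hM1'
    have hM1p : 0 < M1 := by positivity
    -- take t large
    have h7 : ∀ t : ℝ, t0 ≤ t → M1⁻¹ ≤ K / t ^ 2 := by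
      intro t h3
      have h8 := hbi t h3
      rw [norm_inv] at h8
      have h9 := hh0 t h3
      rw [h00, sub_zero] at h9
      have h10 : 0 < ‖H (σ1 + t * I) * cexp (h2 / (σ1 + t * I))‖ := norm_pos_iff.2 (hφne t h3)
      refine le_trans ?_ h9
      rw [inv_le_comm₀ hM1p h10]
      exact h8
    have h11 := h7 (max t0 (K * M1 + 1)) (le_max_left _ _)
    have h12 : 1 ≤ max t0 (K * M1 + 1) := le_trans ht (le_max_left _ _)
    have h13 : K * M1 + 1 ≤ max t0 (K * M1 + 1) := le_max_right _ _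
    generalize max t0 (K * M1 + 1) = T at h11 h12 h13
    rw [le_div_iff₀ (by positivity), inv_mul_le_iff₀ hM1p] at h11
    nlinarith
  -- horizontal segments
  have hh : ∀ σ : ℝ, σ1 ≤ σ → σ ≤ σ2 → ∀ t : ℝ, t0 ≤ t →
      ‖H (σ + t * I) * cexp (h2 / (σ + t * I)) - H (σ1 + t * I) * cexp (h2 / (σ1 + t * I))‖
        ≤ K * (σ2 - σ1) / t ^ 2 := by
    intro σ h1 h2' t h3
    have ht1 : 1 ≤ t := ht.trans h3
    have h4 : ∀ x ∈ Icc σ1 σ, HasDerivWithinAt
        (fun x : ℝ => H (x + t * I) * cexp (h2 / (x + t * I)))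
        (H (x + t * I) * cexp (h2 / (x + t * I)) * (logDeriv H (x + t * I)
          - h2 / (x + t * I) ^ 2)) (Icc σ1 σ) x := by
      intro x hx
      have h5 := hF (x + t * I) (by simpa using hx.1) (by simpa using hx.2.trans h2')
        (by simpa using h3)
      have h6 : HasDerivAt (fun x : ℝ => (x : ℂ) + t * I) 1 x := by
        have := (Complex.ofRealCLM.hasDerivAt (x := x)).add_const (t * I)
        simpa using this
      have h7 := HasDerivAt.comp x h5 h6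
      rw [mul_one] at h7
      exact h7.hasDerivWithinAt
    have h8 : ∀ x ∈ Ico σ1 σ, ‖H (x + t * I) * cexp (h2 / (x + t * I)) * (logDeriv H (x + t * I)
          - h2 / (x + t * I) ^ 2)‖ ≤ K / t ^ 3 := by
      intro x hx
      rw [norm_mul, mul_comm]
      calc _ ≤ C0 / t ^ 3 * (M0 * Real.exp (C0 + 1)) :=
            mul_le_mul (hE x hx.1 (hx.2.le.trans h2') t h3) (hbd x hx.1 (hx.2.le.trans h2') t h3)
              (norm_nonneg _) ((norm_nonneg _).trans (hE x hx.1 (hx.2.le.trans h2') t h3))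
        _ = K / t ^ 3 := by rw [hK]; ring
    have h9 := norm_image_sub_le_of_norm_deriv_le_segment' h4 h8 σ (right_mem_Icc.2 h1)
    refine h9.trans ?_
    have h10 : K / t ^ 3 ≤ K / t ^ 2 := by
      apply div_le_div_of_nonneg_left hK0 (by positivity)
      exact pow_le_pow_right₀ ht1 (by norm_num)
    calc K / t ^ 3 * (σ - σ1) ≤ K / t ^ 2 * (σ2 - σ1) :=
          mul_le_mul h10 (by linarith) (by linarith) (by positivity)
      _ = K * (σ2 - σ1) / t ^ 2 := by ring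
  -- assembly
  set A : ℝ := ‖h2‖ with hA
  have hA0 : 0 ≤ A := norm_nonneg _
  refine ⟨h0, (K * (σ2 - σ1) + K) * Real.exp A + ‖h0‖ * ((Real.exp A + 2) * A ^ 2) + 1, hne, ?_, ?_⟩
  · have : 0 ≤ K * (σ2 - σ1) := mul_nonneg hK0 (by linarith)
    positivity
  intro s h1 h2' h3
  have hs : (s.re : ℂ) + s.im * I = s := Complex.re_add_im s
  have ht1 : 1 ≤ s.im := ht.trans h3
  have g1 := hh s.re h1 h2' s.im h3
  have g2 := hh0 s.im h3
  rw [hs] at g1
  have g3 : ‖H s * cexp (h2 / s) - h0‖ ≤ (K * (σ2 - σ1) + K) / s.im ^ 2 := by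
    calc ‖H s * cexp (h2 / s) - h0‖
        ≤ ‖H s * cexp (h2 / s) - H (σ1 + s.im * I) * cexp (h2 / (σ1 + s.im * I))‖
          + ‖H (σ1 + s.im * I) * cexp (h2 / (σ1 + s.im * I)) - h0‖ := norm_sub_le_norm_sub_add_norm_sub _ _ _
      _ ≤ K * (σ2 - σ1) / s.im ^ 2 + K / s.im ^ 2 := add_le_add g1 g2
      _ = _ := by ring
  have hns : s.im ≤ ‖s‖ := (le_abs_self _).trans (Complex.abs_im_le_norm s)
  have hz : ‖-(h2 / s)‖ ≤ A / s.im := by
    rw [norm_neg, norm_div]
    exact div_le_div_of_nonneg_left hA0 (by linarith) hns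
  have hz1 : ‖-(h2 / s)‖ ≤ A := hz.trans (div_le_self hA0 ht1)
  have g4 : H s - h0 * (1 - h2 / s) = (H s * cexp (h2 / s) - h0) * cexp (-(h2 / s))
      + h0 * (cexp (-(h2 / s)) - 1 - (-(h2 / s))) := by
    have h5 : cexp (h2 / s) * cexp (-(h2 / s)) = 1 := by
      rw [← Complex.exp_add, add_neg_cancel, Complex.exp_zero]
    linear_combination (- H s) * h5
  rw [g4]
  refine (norm_add_le _ _).trans ?_
  rw [norm_mul, norm_mul]
  have g5 : ‖cexp (-(h2 / s))‖ ≤ Real.exp A := by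
    rw [Complex.norm_exp]
    exact Real.exp_le_exp.2 ((Complex.re_le_norm _).trans hz1)
  have g6 : ‖cexp (-(h2 / s)) - 1 - (-(h2 / s))‖ ≤ (Real.exp A + 2) * (A / s.im) ^ 2 := by
    refine (XF12_exp _ A hz1).trans ?_
    exact mul_le_mul_of_nonneg_left (pow_le_pow_left₀ (norm_nonneg _) hz 2) (by positivity)
  have g7 : ‖H s * cexp (h2 / s) - h0‖ * ‖cexp (-(h2 / s))‖
      ≤ (K * (σ2 - σ1) + K) / s.im ^ 2 * Real.exp A :=
    mul_le_mul g3 g5 (norm_nonneg _) ((norm_nonneg _).trans g3)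
  have g8 : ‖h0‖ * ‖cexp (-(h2 / s)) - 1 - (-(h2 / s))‖
      ≤ ‖h0‖ * ((Real.exp A + 2) * (A / s.im) ^ 2) := mul_le_mul_of_nonneg_left g6 (norm_nonneg _)
  refine (add_le_add g7 g8).trans ?_
  have g9 : (K * (σ2 - σ1) + K) / s.im ^ 2 * Real.exp A
      + ‖h0‖ * ((Real.exp A + 2) * (A / s.im) ^ 2)
      = ((K * (σ2 - σ1) + K) * Real.exp A + ‖h0‖ * ((Real.exp A + 2) * A ^ 2)) / s.im ^ 2 := by
    rw [div_pow]
    ring
  rw [g9]
  exact div_le_div_of_nonneg_right (by linarith) (by positivity)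
--END XF12

--BEGIN XF13
/-- **XF13.** Upper bound for `M_j`. -/
theorem Mf_bound {κ : ℝ} (hκ : 0 < κ) (j : ℕ) : ∃ C : ℝ, 0 < C ∧
    ∀ s : ℂ, -1 ≤ s.re → s.re ≤ 1 / 2 → 1 ≤ s.im →
      ‖Mf κ j s‖ ≤ C * s.im ^ (-2 * s.re - 2 - j) := by
  obtain ⟨C, hC, hG⟩ := Gamma_bound (7 / 2 + j)
  have hB : 0 < 4 * π * √κ := by positivity
  set B : ℝ := 4 * π * √κ with hBdef
  refine ⟨C * (max B B⁻¹ + 1) ^ 2, by positivity, fun s h1 h2 h3 => ?_⟩
  have him : 0 < s.im := by linarith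
  have hj : (0 : ℝ) ≤ j := Nat.cast_nonneg j
  unfold Mf
  rw [norm_mul, norm_mul]
  have e1 : ‖cexp (-(π * I * s))‖ = Real.exp (π * s.im) := by
    rw [Complex.norm_exp]
    congr 1
    simp
  have e2 : ‖((B : ℝ) : ℂ) ^ (2 * s)‖ ≤ (max B B⁻¹ + 1) ^ 2 := by
    rw [Complex.norm_cpow_eq_rpow_re_of_pos hB]
    have h4 : (2 * s).re = 2 * s.re := by simp
    rw [h4]
    have h5 : 1 ≤ max B B⁻¹ + 1 := by
      have := hB.le.trans (le_max_left B B⁻¹)
      linarith
    rcases le_total 0 (2 * s.re) with h6 | h6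
    · calc B ^ (2 * s.re) ≤ (max B B⁻¹ + 1) ^ (2 * s.re) :=
            Real.rpow_le_rpow hB.le (by linarith [le_max_left B B⁻¹]) h6
        _ ≤ (max B B⁻¹ + 1) ^ (2 : ℝ) := Real.rpow_le_rpow_of_exponent_le h5 (by linarith)
        _ = (max B B⁻¹ + 1) ^ 2 := by norm_cast
    · have h7 : B ^ (2 * s.re) = (B⁻¹) ^ (-(2 * s.re)) := by
        rw [Real.inv_rpow hB.le, Real.rpow_neg hB.le, inv_inv]
      rw [h7]
      calc (B⁻¹) ^ (-(2 * s.re)) ≤ (max B B⁻¹ + 1) ^ (-(2 * s.re)) :=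
            Real.rpow_le_rpow (inv_nonneg.2 hB.le) (by linarith [le_max_right B B⁻¹]) (by linarith)
        _ ≤ (max B B⁻¹ + 1) ^ (2 : ℝ) := Real.rpow_le_rpow_of_exponent_le h5 (by linarith)
        _ = (max B B⁻¹ + 1) ^ 2 := by norm_cast
  have hσ : |-2 * s.re - 3 / 2 - j| ≤ 7 / 2 + j := by
    rw [abs_le]
    constructor <;> linarith
  have ht : 1 ≤ |-2 * s.im| := by
    rw [abs_mul, abs_of_pos him]
    norm_num
    linarith
  obtain ⟨g1, -⟩ := hG (-2 * s.re - 3 / 2 - j) (-2 * s.im) hσ ht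
  have e3 : (((-2 * s.re - 3 / 2 - j : ℝ) : ℂ) + ((-2 * s.im : ℝ) : ℂ) * I)
      = -2 * s - 3 / 2 - j := by
    apply Complex.ext
    · simp
    · simp
  have e4 : |-2 * s.im| = 2 * s.im := by
    rw [abs_mul, abs_of_pos him]
    norm_num
  rw [e3, e4] at g1
  have e5 : (-2 * s.re - 3 / 2 - (j : ℝ) - 1 / 2) = -2 * s.re - 2 - j := by ring
  have e6 : -(π * (2 * s.im) / 2) = -(π * s.im) := by ring
  rw [e5, e6] at g1
  have g2 : (2 * s.im) ^ (-2 * s.re - 2 - (j : ℝ)) ≤ s.im ^ (-2 * s.re - 2 - (j : ℝ)) :=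
    Real.rpow_le_rpow_of_nonpos him (by linarith) (by linarith)
  rw [e1]
  calc Real.exp (π * s.im) * ‖((B : ℝ) : ℂ) ^ (2 * s)‖ * ‖Gamma (-2 * s - 3 / 2 - j)‖
      ≤ Real.exp (π * s.im) * (max B B⁻¹ + 1) ^ 2
        * (C * (2 * s.im) ^ (-2 * s.re - 2 - (j : ℝ)) * Real.exp (-(π * s.im))) := by
        refine mul_le_mul (mul_le_mul_of_nonneg_left e2 (Real.exp_pos _).le) g1 (norm_nonneg _)
          (by positivity)
    _ = C * (max B B⁻¹ + 1) ^ 2 * (2 * s.im) ^ (-2 * s.re - 2 - (j : ℝ))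
        * (Real.exp (π * s.im) * Real.exp (-(π * s.im))) := by ring
    _ = C * (max B B⁻¹ + 1) ^ 2 * (2 * s.im) ^ (-2 * s.re - 2 - (j : ℝ)) := by
        rw [← Real.exp_add, add_neg_cancel, Real.exp_zero, mul_one]
    _ ≤ C * (max B B⁻¹ + 1) ^ 2 * s.im ^ (-2 * s.re - 2 - (j : ℝ)) :=
        mul_le_mul_of_nonneg_left g2 (by positivity)
--END XF13

--BEGIN XF14
private theorem XF14_kap (hf : Fun2 L Q lam mu w) : 0 < kap Q lam := by
  have hP : 0 < ∏ j, lam j ^ lam j :=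
    Finset.prod_pos fun j _ => Real.rpow_pos_of_pos (hf.lampos j) _
  have hQ := hf.Qpos
  have := Real.pi_pos
  rw [kap]
  positivity

private theorem XF14_diffM {κ : ℝ} (hκ : 0 < κ) (j : ℕ) {s : ℂ} (hs : s.im ≠ 0) :
    DifferentiableAt ℂ (Mf κ j) s := by
  have hK : ((4 * π * √κ : ℝ) : ℂ) ≠ 0 := by
    have := Real.pi_pos
    have := Real.sqrt_pos.2 hκ
    exact_mod_cast (by positivity : (4 * π * √κ : ℝ) ≠ 0)
  have h1 : DifferentiableAt ℂ (fun s : ℂ => ((4 * π * √κ : ℝ) : ℂ) ^ (2 * s)) s :=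
    DifferentiableAt.const_cpow (by fun_prop) (Or.inl hK)
  have h2 : DifferentiableAt ℂ (fun s : ℂ => Gamma (-2 * s - 3 / 2 - j)) s := by
    refine (differentiableAt_Gamma _ fun m h' => ?_).comp s
      (f := fun s : ℂ => -2 * s - 3 / 2 - j) (by fun_prop)
    have := congrArg im h'
    simp at this
    exact hs this
  have h3 : DifferentiableAt ℂ (fun s : ℂ => cexp (-(π * I * s))) s := by fun_prop
  exact (h3.mul h1).mul h2

private theorem XF14_M1 {κ : ℝ} {s : ℂ} (hs : s.im ≠ 0) :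
    Mf κ 0 s = Mf κ 1 s * (-2 * s - 5 / 2) := by
  have h0 : (-2 * s - 5 / 2 : ℂ) ≠ 0 := by
    intro h'
    have := congrArg im h'
    simp at this
    exact hs this
  have h1 : Gamma (-2 * s - 3 / 2) = (-2 * s - 5 / 2) * Gamma (-2 * s - 5 / 2) := by
    rw [← Gamma_add_one _ h0]
    congr 1
    ring
  rw [Mf, Mf]
  have h2 : (-2 * s - 3 / 2 - ((0 : ℕ) : ℂ)) = -2 * s - 3 / 2 := by simp
  have h3 : (-2 * s - 3 / 2 - ((1 : ℕ) : ℂ)) = -2 * s - 5 / 2 := by push_cast; ring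
  rw [h2, h3, h1]
  ring

/-- **XF14.** The two term asymptotic of `X(s)/(s(s+1)(s+2))`. -/
theorem G_asymp (h : RealSelberg a L 2) (hf : Fun2 L Q lam mu w) :
    ∃ (h0 h1 : ℂ) (C t0 : ℝ), h0 ≠ 0 ∧ 0 < C ∧ 1 ≤ t0 ∧
    ∀ s : ℂ, -(3 / 4) ≤ s.re → s.re ≤ -(3 / 8) → t0 ≤ s.im →
      ‖Xf Q lam mu w s / (s * (s + 1) * (s + 2)) -
        (h0 * Mf (kap Q lam) 0 s + h1 * Mf (kap Q lam) 1 s)‖ ≤ C * s.im ^ (-4 - 2 * s.re) := by
  have hκ := XF14_kap hf
  obtain ⟨c2, C1, t1, hC1, ht1, hX⟩ := Xf_logDeriv_upper hf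
  obtain ⟨c, C2, t2, hC2, ht2, hM⟩ := Mf_logDeriv hκ
  obtain ⟨t3, ht3, hX0⟩ := Xf_ne_zero hf
  obtain ⟨B0, hB0, hb0⟩ := Mf_bound hκ 0
  obtain ⟨B1, hB1, hb1⟩ := Mf_bound hκ 1
  have hsum := sum_im_zero h hf
  set X := Xf Q lam mu w with hXdef
  set M0 := Mf (kap Q lam) 0 with hM0
  set M1 := Mf (kap Q lam) 1 with hM1
  set t0 : ℝ := 2 * (t1 + t2 + t3) with ht0
  set H : ℂ → ℂ := fun s => X s / (s * (s + 1) * (s + 2)) / M0 s with hH
  set h2 : ℂ := c2 - c + 3 with hh2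
  have hne : ∀ s : ℂ, 0 < s.im → s ≠ 0 ∧ s + 1 ≠ 0 ∧ s + 2 ≠ 0 := by
    intro s hs
    refine ⟨?_, ?_, ?_⟩
    · rintro rfl; simp at hs
    · intro h'; have := congrArg im h'; simp at this; linarith
    · intro h'; have := congrArg im h'; simp at this; linarith
  obtain ⟨h0, C', hh0, hC', hasy⟩ := asymp_of_logDeriv (H := H) (σ1 := -(3 / 4)) (σ2 := -(3 / 8))
    (t0 := t0) (C := C1 + C2 + 5) (h2 := h2) (by norm_num) (by linarith)
    (by
      intro s hs1 hs2 hs3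
      have him : 0 < s.im := by linarith
      obtain ⟨n0, n1, n2⟩ := hne s him
      have nX : X s ≠ 0 := hX0 s (by linarith) (by rw [abs_of_pos him]; linarith)
      have nM : M0 s ≠ 0 := (hM s (by linarith) (by linarith) (by linarith)).1
      have dX : DifferentiableAt ℂ X s := Xf_diff hf (by linarith)
      have dM : DifferentiableAt ℂ M0 s := XF14_diffM hκ 0 him.ne'
      have dP : DifferentiableAt ℂ (fun s : ℂ => s * (s + 1) * (s + 2)) s := by fun_prop
      constructor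
      · exact (dX.div dP (mul_ne_zero (mul_ne_zero n0 n1) n2)).div dM nM
      · exact div_ne_zero (div_ne_zero nX (mul_ne_zero (mul_ne_zero n0 n1) n2)) nM)
    (by
      intro s hs1 hs2 hs3
      have him : 0 < s.im := by linarith
      obtain ⟨n0, n1, n2⟩ := hne s him
      have nX : X s ≠ 0 := hX0 s (by linarith) (by rw [abs_of_pos him]; linarith)
      obtain ⟨nM, hM'⟩ := hM s (by linarith) (by linarith) (by linarith)
      have hX' := hX s (by linarith) (by linarith) (by linarith)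
      have dX : DifferentiableAt ℂ X s := Xf_diff hf (by linarith)
      have dM : DifferentiableAt ℂ M0 s := XF14_diffM hκ 0 him.ne'
      have nP : s * (s + 1) * (s + 2) ≠ 0 := mul_ne_zero (mul_ne_zero n0 n1) n2
      have dP : DifferentiableAt ℂ (fun s : ℂ => s * (s + 1) * (s + 2)) s := by fun_prop
      have e1 : logDeriv H s = logDeriv (fun s => X s / (s * (s + 1) * (s + 2))) s -
          logDeriv M0 s := logDeriv_div s (div_ne_zero nX nP) nM (dX.div dP nP) dM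
      have e2 : logDeriv (fun s => X s / (s * (s + 1) * (s + 2))) s = logDeriv X s -
          logDeriv (fun s : ℂ => s * (s + 1) * (s + 2)) s := logDeriv_div s nX nP dX dP
      have e3 : logDeriv (fun s : ℂ => s * (s + 1) * (s + 2)) s = 1 / s + 1 / (s + 1) +
          1 / (s + 2) := by
        rw [logDeriv_mul (f := fun s : ℂ => s * (s + 1)) (g := fun s : ℂ => s + 2) s
          (mul_ne_zero n0 n1) n2 (by fun_prop) (by fun_prop),
          logDeriv_mul (f := fun s : ℂ => s) (g := fun s : ℂ => s + 1) s n0 n1 (by fun_prop)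
          (by fun_prop)]
        simp [logDeriv_apply]
      have hns : s.im ≤ ‖s‖ := (le_abs_self _).trans (abs_im_le_norm s)
      have hn1 : s.im ≤ ‖s + 1‖ := by
        have := (le_abs_self _).trans (abs_im_le_norm (s + 1))
        simpa using this
      have hn2 : s.im ≤ ‖s + 2‖ := by
        have := (le_abs_self _).trans (abs_im_le_norm (s + 2))
        simpa using this
      rw [e1, e2, e3]
      rw [hsum] at hX'
      have e4 : logDeriv X s - (1 / s + 1 / (s + 1) + 1 / (s + 2)) - logDeriv M0 s - h2 / s ^ 2 =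
          (logDeriv X s - (π * I + 2 * Real.log (2 * π * √(kap Q lam)) - 2 * log s +
            (1 - ((2 * 0 : ℝ) : ℂ) * I) / s + c2 / s ^ 2)) -
          (logDeriv M0 s - (π * I + 2 * Real.log (2 * π * √(kap Q lam)) - 2 * log s - 2 / s +
            c / s ^ 2)) - (1 / (s ^ 2 * (s + 1)) + 4 / (s ^ 2 * (s + 2))) := by
        rw [hh2]
        field_simp
        push_cast
        ring
      rw [e4]
      have e5 : ‖1 / (s ^ 2 * (s + 1)) + 4 / (s ^ 2 * (s + 2))‖ ≤ 5 / s.im ^ 3 := by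
        refine (norm_add_le _ _).trans ?_
        have a1 : ‖1 / (s ^ 2 * (s + 1))‖ ≤ 1 / s.im ^ 3 := by
          rw [norm_div, norm_one, norm_mul, norm_pow]
          gcongr
          calc s.im ^ 3 = s.im ^ 2 * s.im := by ring
            _ ≤ ‖s‖ ^ 2 * ‖s + 1‖ := by gcongr
        have a2 : ‖4 / (s ^ 2 * (s + 2))‖ ≤ 4 / s.im ^ 3 := by
          rw [norm_div, norm_mul, norm_pow]
          have : ‖(4 : ℂ)‖ = 4 := by norm_num
          rw [this]
          gcongr
          calc s.im ^ 3 = s.im ^ 2 * s.im := by ring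
            _ ≤ ‖s‖ ^ 2 * ‖s + 2‖ := by gcongr
        have a3 : (5 : ℝ) / s.im ^ 3 = 1 / s.im ^ 3 + 4 / s.im ^ 3 := by ring
        linarith
      refine (norm_sub_le _ _).trans ?_
      have a4 : (C1 + C2 + 5) / s.im ^ 3 = C1 / s.im ^ 3 + C2 / s.im ^ 3 + 5 / s.im ^ 3 := by ring
      rw [a4]
      refine add_le_add ((norm_sub_le _ _).trans (add_le_add ?_ ?_)) e5
      · exact hX'
      · exact hM')
  refine ⟨h0, 2 * h0 * h2, B0 * C' + (5 / 2) * ‖h0 * h2‖ * B1, t0, hh0, ?_, by linarith,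
    fun s hs1 hs2 hs3 => ?_⟩
  · have := norm_nonneg (h0 * h2)
    positivity
  have him : 0 < s.im := by linarith
  obtain ⟨n0, n1, n2⟩ := hne s him
  obtain ⟨nM, -⟩ := hM s (by linarith) (by linarith) (by linarith)
  have e1 := hasy s hs1 hs2 hs3
  have e2 : X s / (s * (s + 1) * (s + 2)) = H s * M0 s := by
    rw [hH]
    field_simp
  have e3 : X s / (s * (s + 1) * (s + 2)) - (h0 * M0 s + 2 * h0 * h2 * M1 s) =
      (H s - h0 * (1 - h2 / s)) * M0 s + (5 / 2) * (h0 * h2) * (M1 s / s) := by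
    rw [e2]
    have : M0 s = M1 s * (-2 * s - 5 / 2) := XF14_M1 him.ne'
    have h5 : (H s - h0 * (1 - h2 / s)) * M0 s = H s * M0 s - h0 * M0 s + h0 * h2 * M0 s / s := by
      field_simp
      ring
    rw [h5]
    have h6 : h0 * h2 * M0 s / s = h0 * h2 * (M1 s * (-2 * s - 5 / 2)) / s := by rw [this]
    rw [h6]
    field_simp
    ring
  rw [e3]
  refine (norm_add_le _ _).trans ?_
  have b0 := hb0 s (by linarith) (by linarith) (by linarith)
  have b1 := hb1 s (by linarith) (by linarith) (by linarith)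
  have hns : s.im ≤ ‖s‖ := (le_abs_self _).trans (abs_im_le_norm s)
  have p2 : s.im ^ (-4 - 2 * s.re) = s.im ^ (-2 * s.re - 2 - ((0 : ℕ) : ℝ)) / s.im ^ 2 := by
    rw [← Real.rpow_natCast s.im 2, ← Real.rpow_sub him]
    congr 1
    push_cast
    ring
  have p1 : s.im ^ (-4 - 2 * s.re) = s.im ^ (-2 * s.re - 2 - ((1 : ℕ) : ℝ)) / s.im := by
    have : s.im ^ (-2 * s.re - 2 - ((1 : ℕ) : ℝ)) / s.im =
      s.im ^ (-2 * s.re - 2 - ((1 : ℕ) : ℝ)) / s.im ^ (1 : ℝ) := by rw [Real.rpow_one]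
    rw [this, ← Real.rpow_sub him]
    congr 1
    push_cast
    ring
  have q1 : ‖(H s - h0 * (1 - h2 / s)) * M0 s‖ ≤ B0 * C' * s.im ^ (-4 - 2 * s.re) := by
    rw [norm_mul, p2]
    calc ‖H s - h0 * (1 - h2 / s)‖ * ‖M0 s‖ ≤ (C' / s.im ^ 2) *
          (B0 * s.im ^ (-2 * s.re - 2 - ((0 : ℕ) : ℝ))) := by gcongr
      _ = _ := by ring
  have q2 : ‖(5 / 2) * (h0 * h2) * (M1 s / s)‖ ≤
      (5 / 2) * ‖h0 * h2‖ * B1 * s.im ^ (-4 - 2 * s.re) := by
    rw [norm_mul, norm_mul, norm_div (M1 s) s, p1]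
    have : ‖(5 / 2 : ℂ)‖ = 5 / 2 := by norm_num
    rw [this]
    calc 5 / 2 * ‖h0 * h2‖ * (‖M1 s‖ / ‖s‖) ≤ 5 / 2 * ‖h0 * h2‖ *
          ((B1 * s.im ^ (-2 * s.re - 2 - ((1 : ℕ) : ℝ))) / s.im) := by gcongr
      _ = _ := by ring
  calc _ ≤ B0 * C' * s.im ^ (-4 - 2 * s.re) +
        (5 / 2) * ‖h0 * h2‖ * B1 * s.im ^ (-4 - 2 * s.re) := add_le_add q1 q2
    _ = _ := by ring
--END XF14

--BEGIN XF15
private theorem XF15_up (h : RealSelberg a L 2) (hf : Fun2 L Q lam mu w) :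
    ∃ K t0 : ℝ, 0 < K ∧ 1 ≤ t0 ∧
    ∀ s : ℂ, -(3 / 4) ≤ s.re → s.re ≤ -(3 / 8) → t0 ≤ s.im →
      ‖Xf Q lam mu w s‖ ≤ K * (1 + |s.im|) ^ (1 - 2 * s.re) := by
  have hκ := XF14_kap hf
  obtain ⟨h0, h1, C, t0, hh0, hC, ht0, hG⟩ := G_asymp h hf
  obtain ⟨B0, hB0, hb0⟩ := Mf_bound hκ 0
  obtain ⟨B1, hB1, hb1⟩ := Mf_bound hκ 1
  refine ⟨8 * (C + ‖h0‖ * B0 + ‖h1‖ * B1), t0, ?_, ht0, fun s hs1 hs2 hs3 => ?_⟩
  · have := norm_nonneg h0
    have := norm_nonneg h1
    positivity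
  have ht1 : 1 ≤ s.im := by linarith
  have him : 0 < s.im := by linarith
  have hne : s ≠ 0 ∧ s + 1 ≠ 0 ∧ s + 2 ≠ 0 := by
    refine ⟨?_, ?_, ?_⟩
    · rintro rfl; simp at him
    · intro h'; have := congrArg im h'; simp at this; linarith
    · intro h'; have := congrArg im h'; simp at this; linarith
  obtain ⟨n0, n1, n2⟩ := hne
  rw [abs_of_pos him]
  have g := hG s hs1 hs2 hs3
  have b0 := hb0 s (by linarith) (by linarith) ht1
  have b1 := hb1 s (by linarith) (by linarith) ht1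
  have r1 : ‖Xf Q lam mu w s / (s * (s + 1) * (s + 2))‖ ≤
      (C + ‖h0‖ * B0 + ‖h1‖ * B1) * s.im ^ (-2 * s.re - 2) := by
    have e1 : Xf Q lam mu w s / (s * (s + 1) * (s + 2)) =
        (Xf Q lam mu w s / (s * (s + 1) * (s + 2)) -
        (h0 * Mf (kap Q lam) 0 s + h1 * Mf (kap Q lam) 1 s)) +
        (h0 * Mf (kap Q lam) 0 s + h1 * Mf (kap Q lam) 1 s) := by ring
    rw [e1]
    have q0 : ‖h0 * Mf (kap Q lam) 0 s‖ ≤ ‖h0‖ * B0 * s.im ^ (-2 * s.re - 2) := by
      rw [norm_mul, mul_assoc]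
      refine mul_le_mul_of_nonneg_left (b0.trans_eq ?_) (norm_nonneg _)
      congr 2
      push_cast
      ring
    have q1 : ‖h1 * Mf (kap Q lam) 1 s‖ ≤ ‖h1‖ * B1 * s.im ^ (-2 * s.re - 2) := by
      rw [norm_mul, mul_assoc]
      refine mul_le_mul_of_nonneg_left (b1.trans ?_) (norm_nonneg _)
      refine mul_le_mul_of_nonneg_left ?_ hB1.le
      exact Real.rpow_le_rpow_of_exponent_le ht1 (by push_cast; linarith)
    have q2 : C * s.im ^ (-4 - 2 * s.re) ≤ C * s.im ^ (-2 * s.re - 2) :=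
      mul_le_mul_of_nonneg_left (Real.rpow_le_rpow_of_exponent_le ht1 (by linarith)) hC.le
    calc _ ≤ C * s.im ^ (-2 * s.re - 2) + (‖h0‖ * B0 * s.im ^ (-2 * s.re - 2) +
          ‖h1‖ * B1 * s.im ^ (-2 * s.re - 2)) :=
          (norm_add_le _ _).trans (add_le_add (g.trans q2)
            ((norm_add_le _ _).trans (add_le_add q0 q1)))
      _ = _ := by ring
  have hre : |s.re| ≤ 1 := abs_le.2 ⟨by linarith, by linarith⟩
  have hn : ∀ z : ℂ, ‖z‖ ≤ |z.re| + |z.im| := norm_le_abs_re_add_abs_im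
  have m0 : ‖s‖ ≤ 1 + s.im := (hn s).trans (by rw [abs_of_pos him]; linarith)
  have m1 : ‖s + 1‖ ≤ 1 + s.im := by
    refine (hn _).trans ?_
    have e1 : (s + 1).re = s.re + 1 := by simp
    have e2 : (s + 1).im = s.im := by simp
    rw [e1, e2, abs_of_pos him]
    have : |s.re + 1| ≤ 1 := abs_le.2 ⟨by linarith, by linarith⟩
    linarith
  have m2 : ‖s + 2‖ ≤ 2 * (1 + s.im) := by
    refine (hn _).trans ?_
    have e1 : (s + 2).re = s.re + 2 := by simp
    have e2 : (s + 2).im = s.im := by simp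
    rw [e1, e2, abs_of_pos him]
    have : |s.re + 2| ≤ 2 := abs_le.2 ⟨by linarith, by linarith⟩
    linarith
  have m3 : ‖s * (s + 1) * (s + 2)‖ ≤ 2 * (1 + s.im) ^ (3 : ℕ) := by
    rw [norm_mul, norm_mul]
    calc ‖s‖ * ‖s + 1‖ * ‖s + 2‖ ≤ (1 + s.im) * (1 + s.im) * (2 * (1 + s.im)) := by gcongr
      _ = _ := by ring
  have r2 : s.im ^ (-2 * s.re - 2) ≤ 4 * (1 + s.im) ^ (-2 * s.re - 2) := by
    have h2 : (1 + s.im) / 2 ≤ s.im := by linarith
    have h3 : s.im ^ (-2 * s.re - 2) ≤ ((1 + s.im) / 2) ^ (-2 * s.re - 2) :=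
      Real.rpow_le_rpow_of_nonpos (by linarith) h2 (by linarith)
    refine h3.trans ?_
    rw [Real.div_rpow (by linarith) (by norm_num)]
    have h4 : (0 : ℝ) < (1 + s.im) ^ (-2 * s.re - 2) := Real.rpow_pos_of_pos (by linarith) _
    have h5 : (1 / 4 : ℝ) ≤ 2 ^ (-2 * s.re - 2) := by
      have : (1 / 4 : ℝ) = 2 ^ (-2 : ℝ) := by
        rw [Real.rpow_neg (by norm_num)]
        norm_num
      rw [this]
      exact Real.rpow_le_rpow_of_exponent_le (by norm_num) (by linarith)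
    rw [div_le_iff₀ (by positivity)]
    nlinarith
  have e9 : Xf Q lam mu w s = Xf Q lam mu w s / (s * (s + 1) * (s + 2)) *
      (s * (s + 1) * (s + 2)) := by field_simp
  rw [e9, norm_mul]
  have hK : 0 ≤ C + ‖h0‖ * B0 + ‖h1‖ * B1 := by
    have := norm_nonneg h0
    have := norm_nonneg h1
    positivity
  calc ‖Xf Q lam mu w s / (s * (s + 1) * (s + 2))‖ * ‖s * (s + 1) * (s + 2)‖
      ≤ ((C + ‖h0‖ * B0 + ‖h1‖ * B1) * (4 * (1 + s.im) ^ (-2 * s.re - 2))) *
        (2 * (1 + s.im) ^ (3 : ℕ)) := by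
        refine mul_le_mul (r1.trans (mul_le_mul_of_nonneg_left r2 hK)) m3 (norm_nonneg _) ?_
        have : (0 : ℝ) < (1 + s.im) ^ (-2 * s.re - 2) := Real.rpow_pos_of_pos (by linarith) _
        positivity
    _ = 8 * (C + ‖h0‖ * B0 + ‖h1‖ * B1) *
        ((1 + s.im) ^ (-2 * s.re - 2) * (1 + s.im) ^ (3 : ℕ)) := by ring
    _ = 8 * (C + ‖h0‖ * B0 + ‖h1‖ * B1) * (1 + s.im) ^ (1 - 2 * s.re) := by
        rw [← Real.rpow_natCast (1 + s.im) 3, ← Real.rpow_add (by linarith)]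
        congr 2
        push_cast
        ring

/-- **XF15.** `|X(s)| ≪ (1+|t|)^{1-2σ}`. -/
theorem Xf_bound (h : RealSelberg a L 2) (hf : Fun2 L Q lam mu w) : ∃ C : ℝ, 0 < C ∧
    ∀ s : ℂ, -(3 / 4) ≤ s.re → s.re ≤ -(3 / 8) →
      ‖Xf Q lam mu w s‖ ≤ C * (1 + |s.im|) ^ (1 - 2 * s.re) := by
  obtain ⟨K, t0, hK, ht0, hup⟩ := XF15_up h hf
  have hcomp : IsCompact (Icc (-(3 / 4) : ℝ) (-(3 / 8)) ×ℂ Icc (-t0) t0) :=
    isCompact_Icc.reProdIm isCompact_Icc
  have hcont : ContinuousOn (fun s => ‖Xf Q lam mu w s‖)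
      (Icc (-(3 / 4) : ℝ) (-(3 / 8)) ×ℂ Icc (-t0) t0) := by
    intro s hs
    have hs' : s.re ∈ Icc (-(3 / 4) : ℝ) (-(3 / 8)) := hs.1
    exact (Xf_diff hf (by linarith [hs'.2])).continuousAt.norm.continuousWithinAt
  obtain ⟨M, hM⟩ := hcomp.bddAbove_image hcont
  refine ⟨K + |M|, by positivity, fun s hs1 hs2 => ?_⟩
  have hp : 0 < (1 + |s.im|) ^ (1 - 2 * s.re) := Real.rpow_pos_of_pos (by positivity) _
  rcases le_or_gt t0 |s.im| with hle | hlt
  · have hb : ‖Xf Q lam mu w s‖ ≤ K * (1 + |s.im|) ^ (1 - 2 * s.re) := by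
      rcases le_or_gt 0 s.im with h0 | h0
      · exact hup s hs1 hs2 (by rwa [abs_of_nonneg h0] at hle)
      · have h1 := hup (conj s) (by simpa using hs1) (by simpa using hs2)
          (by rw [abs_of_neg h0] at hle; simpa using hle)
        rw [Xf_conj h hf (by linarith), RCLike.norm_conj] at h1
        simpa using h1
    refine hb.trans ?_
    have := abs_nonneg M
    nlinarith
  · have hmem : s ∈ (Icc (-(3 / 4) : ℝ) (-(3 / 8)) ×ℂ Icc (-t0) t0) :=
      ⟨⟨hs1, hs2⟩, (abs_lt.1 hlt).1.le, (abs_lt.1 hlt).2.le⟩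
    have h1 : ‖Xf Q lam mu w s‖ ≤ M := hM (mem_image_of_mem _ hmem)
    have h2 : (1 : ℝ) ≤ (1 + |s.im|) ^ (1 - 2 * s.re) :=
      Real.one_le_rpow (by linarith [abs_nonneg s.im]) (by linarith)
    have h3 : M ≤ |M| := le_abs_self M
    have := abs_nonneg M
    nlinarith

theorem kap_pos (hf : Fun2 L Q lam mu w) : 0 < kap Q lam := by
  exact XF14_kap hf
--END XF15

end Pool.Agent.PEt
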