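import Pool.Agent.PEt.Defs
import Pool.Agent.PEt.GA
import Pool.Agent.PEt.SH
import Pool.Agent.Lib.ZetaCount_helper33.XiBounds

/-! The side of `ζ^k`: coefficients, main term, pointwise bound, Gaussian windows. -/

set_option autoImplicit false

open Complex MeasureTheory Set Filter Topology
open scoped Real ComplexConjugate ContDiff

namespace Pool.Agent.PEt

/-! ### Coefficients and main term -/

--BEGIN ZA1
/-- **ZA1.** -/
theorem dk_nonneg (k n : ℕ) : 0 ≤ dk k n := by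
  unfold dk
  exact Nat.cast_nonneg _
--END ZA1

--BEGIN ZA2
private lemma ZA2_local (d : ℝ) (hd : 0 < d) (P : ℕ) (hP : (2 : ℝ) ^ (1 / d) ≤ P) (p a : ℕ)
    (hp : 2 ≤ p) :
    (a : ℝ) + 1 ≤ (if p < P then 1 + 1 / (d * Real.log 2) else 1) * ((p : ℝ) ^ d) ^ a := by
  have hl2 : 0 < Real.log 2 := Real.log_pos (by norm_num)
  have hp0 : (0 : ℝ) < p := by
    have : 0 < p := by omega
    exact_mod_cast this
  have hp2 : (2 : ℝ) ≤ p := by exact_mod_cast hp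
  split_ifs with h
  · have h1 : (2 : ℝ) ^ d ≤ (p : ℝ) ^ d := Real.rpow_le_rpow (by norm_num) hp2 hd.le
    have h2 : ((2 : ℝ) ^ d) ^ a ≤ ((p : ℝ) ^ d) ^ a := pow_le_pow_left₀ (by positivity) h1 a
    have h3 : 1 + d * a * Real.log 2 ≤ ((2 : ℝ) ^ d) ^ a := by
      have e1 : ((2 : ℝ) ^ d) ^ a = Real.exp (d * a * Real.log 2) := by
        rw [← Real.rpow_natCast, ← Real.rpow_mul (by norm_num : (0 : ℝ) ≤ 2),
          Real.rpow_def_of_pos (by norm_num : (0 : ℝ) < 2)]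
        ring_nf
      rw [e1]
      have := Real.add_one_le_exp (d * a * Real.log 2)
      linarith
    have hdl : 0 < d * Real.log 2 := mul_pos hd hl2
    have ha0 : (0 : ℝ) ≤ a := Nat.cast_nonneg a
    have h4 : (a : ℝ) + 1 ≤ (1 + 1 / (d * Real.log 2)) * (1 + d * a * Real.log 2) := by
      have e2 : (1 + 1 / (d * Real.log 2)) * (1 + d * a * Real.log 2) =
          1 + a + (d * a * Real.log 2 + 1 / (d * Real.log 2)) := by
        field_simp
        ring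
      rw [e2]
      have : 0 ≤ d * a * Real.log 2 + 1 / (d * Real.log 2) := by positivity
      linarith
    refine h4.trans (mul_le_mul_of_nonneg_left (h3.trans h2) ?_)
    positivity
  · rw [one_mul]
    have hPp : (P : ℝ) ≤ p := by
      have : P ≤ p := by omega
      exact_mod_cast this
    have h1 : (2 : ℝ) ≤ (p : ℝ) ^ d := by
      have h2 : ((2 : ℝ) ^ (1 / d)) ^ d ≤ (p : ℝ) ^ d :=
        Real.rpow_le_rpow (by positivity) (hP.trans hPp) hd.le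
      rwa [← Real.rpow_mul (by norm_num : (0 : ℝ) ≤ 2), one_div_mul_cancel hd.ne',
        Real.rpow_one] at h2
    have h3 : ((a : ℝ) + 1) ≤ 2 ^ a := by
      have : a + 1 ≤ 2 ^ a := Nat.lt_two_pow_self
      exact_mod_cast this
    exact h3.trans (pow_le_pow_left₀ (by norm_num) h1 a)

private lemma ZA2_rpow_prod (d : ℝ) (n : ℕ) (hn : n ≠ 0) :
    (n : ℝ) ^ d = ∏ p ∈ n.primeFactors, ((p : ℝ) ^ d) ^ (n.factorization p) := by
  have h1 : (n : ℝ) = ∏ p ∈ n.primeFactors, (p : ℝ) ^ (n.factorization p) := by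
    have h := Nat.prod_factorization_pow_eq_self hn
    rw [Finsupp.prod, Nat.support_factorization] at h
    conv_lhs => rw [← h]
    push_cast
    rfl
  conv_lhs => rw [h1]
  rw [← Real.finsetProd_rpow _ _ (fun p _ => by positivity)]
  exact Finset.prod_congr rfl fun p _ => (Real.rpow_pow_comm (Nat.cast_nonneg p) d _).symm

private lemma ZA2_tau {d : ℝ} (hd : 0 < d) : ∃ C : ℝ, 1 ≤ C ∧ ∀ n : ℕ, 1 ≤ n →
    (n.divisors.card : ℝ) ≤ C * (n : ℝ) ^ d := by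
  have hl2 : 0 < Real.log 2 := Real.log_pos (by norm_num)
  obtain ⟨C, hC⟩ : ∃ C : ℝ, C = 1 + 1 / (d * Real.log 2) := ⟨_, rfl⟩
  have hC1 : 1 ≤ C := by
    rw [hC]
    have : 0 ≤ 1 / (d * Real.log 2) := by positivity
    linarith
  obtain ⟨P, hP⟩ := exists_nat_ge ((2 : ℝ) ^ (1 / d))
  refine ⟨C ^ P, one_le_pow₀ hC1, fun n hn => ?_⟩
  have hn1 : n ≠ 0 := by omega
  have h1 : (n.divisors.card : ℝ) = ∏ p ∈ n.primeFactors, ((n.factorization p : ℝ) + 1) := by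
    rw [Nat.card_divisors hn1]
    push_cast
    rfl
  have h2 : (n.divisors.card : ℝ) ≤
      (∏ p ∈ n.primeFactors, (if p < P then C else 1)) * (n : ℝ) ^ d := by
    rw [h1, ZA2_rpow_prod d n hn1, ← Finset.prod_mul_distrib]
    apply Finset.prod_le_prod
    · intro p _
      positivity
    · intro p hp
      rw [hC]
      exact ZA2_local d hd P hP p _ (Nat.prime_of_mem_primeFactors hp).two_le
  have h3 : (∏ p ∈ n.primeFactors, (if p < P then C else 1)) ≤ C ^ P := by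
    rw [Finset.prod_ite, Finset.prod_const_one, mul_one, Finset.prod_const]
    apply pow_le_pow_right₀ hC1
    calc (n.primeFactors.filter fun p => p < P).card ≤ (Finset.range P).card := by
          apply Finset.card_le_card
          intro p hp
          rw [Finset.mem_filter] at hp
          exact Finset.mem_range.mpr hp.2
      _ = P := Finset.card_range P
  exact h2.trans (mul_le_mul_of_nonneg_right h3 (by positivity))

private lemma ZA2_succ (k n : ℕ) : dk (k + 1) n = ∑ d ∈ n.divisors, dk k d := by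
  unfold dk
  rw [pow_succ, ArithmeticFunction.mul_zeta_apply]
  push_cast
  rfl

/-- **ZA2.** Divisor bound. -/
theorem dk_bound (k : ℕ) {ε : ℝ} (hε : 0 < ε) : ∃ C : ℝ, 0 < C ∧ ∀ n : ℕ, 1 ≤ n →
    dk k n ≤ C * (n : ℝ) ^ ε := by
  induction k generalizing ε with
  | zero =>
    refine ⟨1, one_pos, fun n hn => ?_⟩
    have h1 : (1 : ℝ) ≤ (n : ℝ) ^ ε := Real.one_le_rpow (by exact_mod_cast hn) hε.le
    have h2 : dk 0 n ≤ 1 := by
      unfold dk
      rw [pow_zero, ArithmeticFunction.one_apply]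
      split_ifs <;> simp
    linarith
  | succ k ih =>
    obtain ⟨C1, hC1, h1⟩ := ih (half_pos hε)
    obtain ⟨C2, hC2, h2⟩ := ZA2_tau (half_pos hε)
    refine ⟨C1 * C2, by positivity, fun n hn => ?_⟩
    have hn0 : (0 : ℝ) < n := by exact_mod_cast hn
    rw [ZA2_succ]
    have h3 : ∀ d ∈ n.divisors, dk k d ≤ C1 * (n : ℝ) ^ (ε / 2) := by
      intro d hd
      have hd1 : 1 ≤ d := Nat.pos_of_mem_divisors hd
      have hdn : d ≤ n := Nat.divisor_le hd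
      refine (h1 d hd1).trans (mul_le_mul_of_nonneg_left ?_ hC1.le)
      exact Real.rpow_le_rpow (by positivity) (by exact_mod_cast hdn) (by positivity)
    have h4 := Finset.sum_le_card_nsmul _ _ _ h3
    rw [nsmul_eq_mul] at h4
    refine h4.trans ?_
    have h5 := mul_le_mul_of_nonneg_right (h2 n hn)
      (show (0 : ℝ) ≤ C1 * (n : ℝ) ^ (ε / 2) by positivity)
    refine h5.trans (le_of_eq ?_)
    have h6 : (n : ℝ) ^ ε = (n : ℝ) ^ (ε / 2) * (n : ℝ) ^ (ε / 2) := by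
      rw [← Real.rpow_add hn0]
      ring_nf
    rw [h6]
    ring
--END ZA2

--BEGIN ZA3
private lemma ZA3_coe (k : ℕ) : (fun n => (dk k n : ℂ)) = (fun n =>
    (((ArithmeticFunction.zeta ^ k : ArithmeticFunction ℕ) : ArithmeticFunction ℂ)) n) := by
  funext n
  unfold dk
  rw [ofReal_natCast, ArithmeticFunction.natCoe_apply]

private lemma ZA3_has (k : ℕ) {s : ℂ} (hs : 1 < s.re) : LSeriesHasSum (fun n =>
    (((ArithmeticFunction.zeta ^ k : ArithmeticFunction ℕ) : ArithmeticFunction ℂ)) n) s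
      (riemannZeta s ^ k) := by
  induction k with
  | zero =>
    rw [pow_zero, pow_zero, ArithmeticFunction.natCoe_one, ArithmeticFunction.one_eq_delta]
    unfold LSeriesHasSum
    have h1 : (LSeries.term LSeries.delta s) = (fun n : ℕ => if n = 1 then (1 : ℂ) else 0) := by
      funext n
      exact LSeries.term_delta s n
    rw [h1]
    exact hasSum_ite_eq 1 (1 : ℂ)
  | succ k ih =>
    rw [pow_succ, pow_succ, ArithmeticFunction.natCoe_mul]
    refine ArithmeticFunction.LSeriesHasSum_mul ih ?_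
    have h2 := (ArithmeticFunction.LSeriesSummable_zeta_iff.mpr hs).LSeriesHasSum
    rw [ArithmeticFunction.LSeries_zeta_eq_riemannZeta hs] at h2
    have h3 : (fun n => ((ArithmeticFunction.zeta : ArithmeticFunction ℂ)) n) =
        (fun n => ((ArithmeticFunction.zeta n : ℕ) : ℂ)) := by
      funext n
      rw [ArithmeticFunction.natCoe_apply]
    rw [h3]
    exact h2

/-- **ZA3.** `ζ(s)^k = ∑ d_k(n) n^{-s}` for `Re s > 1`. -/
theorem zeta_pow_series (k : ℕ) {s : ℂ} (hs : 1 < s.re) :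
    LSeriesSummable (fun n => (dk k n : ℂ)) s ∧
    riemannZeta s ^ k = LSeries (fun n => (dk k n : ℂ)) s := by
  rw [ZA3_coe]
  exact ⟨(ZA3_has k hs).LSeriesSummable, (ZA3_has k hs).LSeries_eq.symm⟩
--END ZA3

/-- The main term of `∑_{n ≤ x} d_k(n)`. -/
noncomputable def Mk (k : ℕ) (x : ℝ) : ℝ :=
  ((2 * π * I)⁻¹ * ∮ s in C(1, 1 / 2), riemannZeta s ^ k * (x : ℂ) ^ s / s).re

--BEGIN ZA4
private lemma ZA4_param {g : ℂ → ℂ} (hg : ContinuousOn g (Metric.sphere (1 : ℂ) (1 / 2))) (a : ℂ)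
    {x : ℝ} (hx : 0 < x) :
    HasDerivAt (fun y : ℝ => ∮ s in C(1, 1 / 2), g s * (y : ℂ) ^ (s - a))
      (∮ s in C(1, 1 / 2), g s * (s - a) * (x : ℂ) ^ (s - a - 1)) x := by
  have hcm : Continuous (circleMap (1 : ℂ) (1 / 2)) := continuous_circleMap _ _
  have hmem : ∀ θ : ℝ, circleMap (1 : ℂ) (1 / 2) θ ∈ Metric.sphere (1 : ℂ) (1 / 2) :=
    fun θ => circleMap_mem_sphere _ (by norm_num) θ
  have hgc : Continuous (fun θ : ℝ => g (circleMap (1 : ℂ) (1 / 2) θ)) :=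
    hg.comp_continuous hcm hmem
  have hdc : Continuous (fun θ : ℝ => deriv (circleMap (1 : ℂ) (1 / 2)) θ) := by
    simp only [deriv_circleMap]
    exact (continuous_circleMap _ _).mul continuous_const
  have hjoint : ∀ (b : ℂ) (h : ℂ → ℂ), Continuous (fun θ : ℝ => h (circleMap (1 : ℂ) (1 / 2) θ)) →
      ContinuousOn (fun q : ℝ × ℝ => deriv (circleMap (1 : ℂ) (1 / 2)) q.2 •
        (h (circleMap (1 : ℂ) (1 / 2) q.2) *
          (q.1 : ℂ) ^ (circleMap (1 : ℂ) (1 / 2) q.2 - b))) (Ioi 0 ×ˢ univ) := by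
    intro b h hh
    refine ContinuousOn.smul (hdc.comp continuous_snd).continuousOn
      (ContinuousOn.mul (hh.comp continuous_snd).continuousOn ?_)
    refine ContinuousOn.cpow (continuous_ofReal.comp continuous_fst).continuousOn
      ((hcm.comp continuous_snd).sub continuous_const).continuousOn ?_
    intro q hq
    exact ofReal_mem_slitPlane.mpr hq.1
  have hx2 : Icc (x / 2) (2 * x) ∈ 𝓝 x := Icc_mem_nhds (by linarith) (by linarith)
  have hJ := hjoint (a + 1) (fun s => g s * (s - a)) (hgc.mul (hcm.sub continuous_const))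
  obtain ⟨B, hB⟩ := ((isCompact_Icc (a := x / 2) (b := 2 * x)).prod
    (isCompact_Icc (a := (0 : ℝ)) (b := 2 * π))).exists_bound_of_continuousOn
      (hJ.mono (fun q hq => ⟨lt_of_lt_of_le (by linarith) hq.1.1, mem_univ _⟩))
  have h1 := intervalIntegral.hasDerivAt_integral_of_dominated_loc_of_deriv_le (μ := volume)
    (a := 0) (b := 2 * π) (x₀ := x) (s := Icc (x / 2) (2 * x))
    (F := fun (y : ℝ) (θ : ℝ) => deriv (circleMap (1 : ℂ) (1 / 2)) θ •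
      (g (circleMap (1 : ℂ) (1 / 2) θ) * (y : ℂ) ^ (circleMap (1 : ℂ) (1 / 2) θ - a)))
    (F' := fun (y : ℝ) (θ : ℝ) => deriv (circleMap (1 : ℂ) (1 / 2)) θ •
      (g (circleMap (1 : ℂ) (1 / 2) θ) * (circleMap (1 : ℂ) (1 / 2) θ - a) *
        (y : ℂ) ^ (circleMap (1 : ℂ) (1 / 2) θ - a - 1)))
    (bound := fun _ => B) hx2 ?_ ?_ ?_ ?_ ?_ ?_
  · unfold circleIntegral
    exact h1.2
  · filter_upwards [hx2] with y hy
    have hy0 : 0 < y := lt_of_lt_of_le (by linarith) hy.1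
    have h2 : Continuous (fun θ : ℝ => deriv (circleMap (1 : ℂ) (1 / 2)) θ •
      (g (circleMap (1 : ℂ) (1 / 2) θ) * (y : ℂ) ^ (circleMap (1 : ℂ) (1 / 2) θ - a))) :=
      (hjoint a g hgc).comp_continuous (f := fun θ : ℝ => (y, θ)) (by fun_prop)
        (fun θ => ⟨hy0, mem_univ _⟩)
    exact h2.aestronglyMeasurable
  · have h2 : Continuous (fun θ : ℝ => deriv (circleMap (1 : ℂ) (1 / 2)) θ •
      (g (circleMap (1 : ℂ) (1 / 2) θ) * (x : ℂ) ^ (circleMap (1 : ℂ) (1 / 2) θ - a))) :=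
      (hjoint a g hgc).comp_continuous (f := fun θ : ℝ => (x, θ)) (by fun_prop)
        (fun θ => ⟨hx, mem_univ _⟩)
    exact h2.intervalIntegrable _ _
  · have h2 : Continuous (fun θ : ℝ => deriv (circleMap (1 : ℂ) (1 / 2)) θ •
      (g (circleMap (1 : ℂ) (1 / 2) θ) * (circleMap (1 : ℂ) (1 / 2) θ - a) *
        (x : ℂ) ^ (circleMap (1 : ℂ) (1 / 2) θ - (a + 1)))) :=
      hJ.comp_continuous (f := fun θ : ℝ => (x, θ)) (by fun_prop)
        (fun θ => ⟨hx, mem_univ _⟩)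
    simp only [← sub_sub] at h2
    exact h2.aestronglyMeasurable
  · refine Eventually.of_forall fun θ hθ y hy => ?_
    rw [uIoc_of_le Real.two_pi_pos.le] at hθ
    have := hB (y, θ) ⟨hy, ⟨hθ.1.le, hθ.2⟩⟩
    simp only [← sub_sub] at this
    exact this
  · exact intervalIntegrable_const
  · refine Eventually.of_forall fun θ hθ y hy => ?_
    have hy0 : 0 < y := lt_of_lt_of_le (by linarith) hy.1
    have h3 : HasDerivAt (fun y : ℝ => (y : ℂ) ^ (circleMap (1 : ℂ) (1 / 2) θ - a))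
        ((circleMap (1 : ℂ) (1 / 2) θ - a) * (y : ℂ) ^ (circleMap (1 : ℂ) (1 / 2) θ - a - 1)) y := by
      have h4 : HasDerivAt (fun z : ℂ => z ^ (circleMap (1 : ℂ) (1 / 2) θ - a))
          ((circleMap (1 : ℂ) (1 / 2) θ - a) * (y : ℂ) ^ (circleMap (1 : ℂ) (1 / 2) θ - a - 1) * 1)
          (y : ℂ) :=
        (hasDerivAt_id (y : ℂ)).cpow_const (ofReal_mem_slitPlane.mpr hy0)
      rw [mul_one] at h4
      exact h4.comp_ofReal
    have h5 := (h3.const_mul (g (circleMap (1 : ℂ) (1 / 2) θ))).const_smul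
      (deriv (circleMap (1 : ℂ) (1 / 2)) θ)
    rw [← mul_assoc] at h5
    exact h5

private lemma ZA4_re {f : ℝ → ℂ} {f' : ℂ} {x : ℝ} (h : HasDerivAt f f' x) (c : ℂ) :
    HasDerivAt (fun y => (c * f y).re) (c * f').re x := by
  have h1 := h.const_mul c
  exact (Complex.reCLM.hasFDerivAt.comp_hasDerivAt x h1)

private lemma ZA4_zeta (k : ℕ) : ContinuousOn (fun s => riemannZeta s ^ k)
    (Metric.sphere (1 : ℂ) (1 / 2)) := by
  refine ContinuousOn.pow (fun s hs => ?_) k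
  have h1 : s ≠ 1 := by
    rintro rfl
    rw [Metric.mem_sphere, dist_self] at hs
    norm_num at hs
  exact (differentiableAt_riemannZeta h1).continuousAt.continuousWithinAt

private lemma ZA4_ne {s : ℂ} (hs : s ∈ Metric.sphere (1 : ℂ) (1 / 2)) : s ≠ 0 := by
  rintro rfl
  rw [Metric.mem_sphere, dist_eq_norm] at hs
  norm_num at hs

/-- **ZA4.** Derivatives of the main term. -/
theorem Mk_deriv (k : ℕ) {x : ℝ} (hx : 0 < x) : HasDerivAt (Mk k) (Mk1 k x) x ∧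
    HasDerivAt (Mk1 k) (Mk2 k x) x ∧ ContinuousAt (Mk2 k) x := by
  have hz := ZA4_zeta k
  refine ⟨?_, ?_, ?_⟩
  · have h1 := ZA4_re (ZA4_param (g := fun s => riemannZeta s ^ k / s)
      (hz.div continuousOn_id (fun s hs => ZA4_ne hs)) 0 hx) ((2 * π * I)⁻¹)
    have e1 : Mk k = fun y : ℝ => ((2 * π * I)⁻¹ *
        ∮ s in C(1, 1 / 2), riemannZeta s ^ k / s * (y : ℂ) ^ (s - 0)).re := by
      funext y
      unfold Mk
      have : (fun s : ℂ => riemannZeta s ^ k * (y : ℂ) ^ s / s) =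
          fun s : ℂ => riemannZeta s ^ k / s * (y : ℂ) ^ (s - 0) := by
        funext s
        rw [sub_zero]
        ring
      rw [this]
    have e2 : Mk1 k x = ((2 * π * I)⁻¹ *
        ∮ s in C(1, 1 / 2), riemannZeta s ^ k / s * (s - 0) * (x : ℂ) ^ (s - 0 - 1)).re := by
      unfold Mk1
      have : (∮ s in C(1, 1 / 2), riemannZeta s ^ k * (x : ℂ) ^ (s - 1)) =
          ∮ s in C(1, 1 / 2), riemannZeta s ^ k / s * (s - 0) * (x : ℂ) ^ (s - 0 - 1) := by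
        refine circleIntegral.integral_congr (by norm_num) fun s hs => ?_
        have := ZA4_ne hs
        rw [sub_zero, div_mul_cancel₀ _ this]
      rw [this]
    rw [e1, e2]
    exact h1
  · have h1 := ZA4_re (ZA4_param (g := fun s => riemannZeta s ^ k) hz 1 hx) ((2 * π * I)⁻¹)
    have e2 : Mk2 k x = ((2 * π * I)⁻¹ *
        ∮ s in C(1, 1 / 2), riemannZeta s ^ k * (s - 1) * (x : ℂ) ^ (s - 1 - 1)).re := by
      unfold Mk2
      have : (fun s : ℂ => riemannZeta s ^ k * (s - 1) * (x : ℂ) ^ (s - 2)) =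
          fun s : ℂ => riemannZeta s ^ k * (s - 1) * (x : ℂ) ^ (s - 1 - 1) := by
        funext s
        rw [sub_sub, one_add_one_eq_two]
      rw [this]
    rw [e2]
    exact h1
  · have h1 := ZA4_re (ZA4_param (g := fun s => riemannZeta s ^ k * (s - 1))
      (hz.mul (continuousOn_id.sub continuousOn_const)) 2 hx) ((2 * π * I)⁻¹)
    exact h1.continuousAt
--END ZA4

--BEGIN ZA5
private lemma ZA5_ne {s : ℂ} {r : ℝ} (hr : 0 < r) (_hr2 : r ≤ 1 / 2)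
    (hs : s ∈ Metric.closedBall (1 : ℂ) (1 / 2) \ Metric.ball (1 : ℂ) r) : s ≠ 1 ∧ s ≠ 0 := by
  constructor
  · rintro rfl
    exact hs.2 (Metric.mem_ball_self hr)
  · rintro rfl
    have h1 := hs.1
    rw [Metric.mem_closedBall, dist_eq_norm] at h1
    norm_num at h1

private lemma ZA5_defo {g : ℂ → ℂ} (hg : ∀ s, s ≠ 1 → s ≠ 0 → DifferentiableAt ℂ g s)
    (a : ℂ) {r : ℝ} (hr : 0 < r) (hr2 : r ≤ 1 / 2) {x : ℝ} (hx : 0 < x) :
    (∮ s in C(1, 1 / 2), g s * (x : ℂ) ^ (s - a)) = ∮ s in C(1, r), g s * (x : ℂ) ^ (s - a) := by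
  have hd : ∀ s, s ≠ 1 → s ≠ 0 → DifferentiableAt ℂ (fun s => g s * (x : ℂ) ^ (s - a)) s := by
    intro s h1 h0
    refine (hg s h1 h0).mul ?_
    refine DifferentiableAt.const_cpow (by fun_prop) (Or.inl ?_)
    exact_mod_cast hx.ne'
  refine Complex.circleIntegral_eq_of_differentiable_on_annulus_off_countable hr hr2
    (countable_empty) ?_ ?_
  · intro s hs
    have h1 := ZA5_ne hr hr2 hs
    exact (hd s h1.1 h1.2).continuousAt.continuousWithinAt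
  · intro s hs
    have h1 := ZA5_ne hr hr2 (s := s) ⟨Metric.ball_subset_closedBall hs.1.1,
      fun h => hs.1.2 (Metric.ball_subset_closedBall h)⟩
    exact hd s h1.1 h1.2

private lemma ZA5_size {g : ℂ → ℂ} {r : ℝ} (hr : 0 < r) (a : ℝ)
    (hg : ContinuousOn g (Metric.sphere (1 : ℂ) r)) : ∃ C : ℝ, 0 < C ∧ (∀ x : ℝ, 1 ≤ x →
      |((2 * π * I)⁻¹ * ∮ s in C(1, r), g s * (x : ℂ) ^ (s - a)).re| ≤ C * x ^ (1 + r - a)) ∧
      ∀ x : ℝ, 0 < x → x ≤ 1 →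
      |((2 * π * I)⁻¹ * ∮ s in C(1, r), g s * (x : ℂ) ^ (s - a)).re| ≤ C * x ^ (1 - r - a) := by
  obtain ⟨B, hB⟩ := (isCompact_sphere (1 : ℂ) r).exists_bound_of_continuousOn hg
  have hre : ∀ s ∈ Metric.sphere (1 : ℂ) r, 1 - r ≤ s.re ∧ s.re ≤ 1 + r := by
    intro s hs
    rw [Metric.mem_sphere, dist_eq_norm] at hs
    have h1 := Complex.abs_re_le_norm (s - 1)
    rw [hs] at h1
    have h2 : (s - 1).re = s.re - 1 := by simp
    rw [h2] at h1
    have h3 := abs_le.mp h1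
    constructor <;> linarith [h3.1, h3.2]
  have hB0 : 0 ≤ max B 0 := le_max_right _ _
  have hmain : ∀ x e : ℝ, 0 < x → (∀ s ∈ Metric.sphere (1 : ℂ) r, x ^ (s.re - a) ≤ x ^ e) →
      |((2 * π * I)⁻¹ * ∮ s in C(1, r), g s * (x : ℂ) ^ (s - a)).re| ≤
        (r * max B 0 + 1) * x ^ e := by
    intro x e hx he
    have h1 : ‖∮ s in C(1, r), g s * (x : ℂ) ^ (s - a)‖ ≤ 2 * π * r * (max B 0 * x ^ e) := by
      refine circleIntegral.norm_integral_le_of_norm_le_const hr.le fun s hs => ?_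
      rw [norm_mul, Complex.norm_cpow_eq_rpow_re_of_pos hx]
      refine mul_le_mul ((hB s hs).trans (le_max_left _ _)) ?_ (by positivity) hB0
      have : (s - (a : ℂ)).re = s.re - a := by simp
      rw [this]
      exact he s hs
    refine (Complex.abs_re_le_norm _).trans ?_
    rw [norm_mul]
    have h2 : ‖(2 * π * I : ℂ)⁻¹‖ = (2 * π)⁻¹ := by
      rw [norm_inv, norm_mul, norm_mul, Complex.norm_I, mul_one]
      congr 2
      · norm_num
      · rw [Complex.norm_real, Real.norm_eq_abs, abs_of_pos Real.pi_pos]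
    rw [h2]
    have hp := Real.pi_pos
    calc (2 * π)⁻¹ * ‖∮ s in C(1, r), g s * (x : ℂ) ^ (s - a)‖
        ≤ (2 * π)⁻¹ * (2 * π * r * (max B 0 * x ^ e)) :=
          mul_le_mul_of_nonneg_left h1 (by positivity)
      _ = r * max B 0 * x ^ e := by field_simp
      _ ≤ (r * max B 0 + 1) * x ^ e := by
          have : 0 ≤ x ^ e := by positivity
          nlinarith
  refine ⟨r * max B 0 + 1, by positivity, fun x hx => ?_, fun x hx hx1 => ?_⟩
  · refine hmain x _ (by linarith) fun s hs => ?_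
    exact Real.rpow_le_rpow_of_exponent_le hx (by linarith [(hre s hs).2])
  · refine hmain x _ hx fun s hs => ?_
    exact Real.rpow_le_rpow_of_exponent_ge hx hx1 (by linarith [(hre s hs).1])

private lemma ZA5_gen {g : ℂ → ℂ} (hg : ∀ s, s ≠ 1 → s ≠ 0 → DifferentiableAt ℂ g s)
    (a : ℝ) {ε : ℝ} (hε : 0 < ε) : ∃ C : ℝ, 0 < C ∧ (∀ x : ℝ, 1 ≤ x →
      |((2 * π * I)⁻¹ * ∮ s in C(1, 1 / 2), g s * (x : ℂ) ^ (s - a)).re| ≤
        C * x ^ (1 + ε - a)) := by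
  have hr : 0 < min ε (1 / 2) := by positivity
  have hr2 : min ε (1 / 2) ≤ 1 / 2 := min_le_right _ _
  have hc : ContinuousOn g (Metric.sphere (1 : ℂ) (min ε (1 / 2))) := by
    intro s hs
    have h1 := ZA5_ne hr hr2 (s := s) ⟨?_, ?_⟩
    · exact (hg s h1.1 h1.2).continuousAt.continuousWithinAt
    · rw [Metric.mem_sphere] at hs
      rw [Metric.mem_closedBall, hs]
      exact hr2
    · rw [Metric.mem_sphere] at hs
      rw [Metric.mem_ball, hs]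
      exact lt_irrefl _
  obtain ⟨C, hC, h1, -⟩ := ZA5_size hr a hc
  refine ⟨C, hC, fun x hx => ?_⟩
  rw [ZA5_defo hg (a : ℂ) hr hr2 (by linarith : 0 < x)]
  refine (h1 x hx).trans (mul_le_mul_of_nonneg_left ?_ hC.le)
  exact Real.rpow_le_rpow_of_exponent_le hx (by linarith [min_le_left ε (1 / 2)])

private lemma ZA5_zeta (k : ℕ) {s : ℂ} (hs : s ≠ 1) :
    DifferentiableAt ℂ (fun s => riemannZeta s ^ k) s :=
  (differentiableAt_riemannZeta hs).pow k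

private lemma ZA5_Mk (k : ℕ) (y : ℝ) : Mk k y = ((2 * π * I)⁻¹ *
    ∮ s in C(1, 1 / 2), riemannZeta s ^ k / s * (y : ℂ) ^ (s - (0 : ℝ))).re := by
  unfold Mk
  have : (fun s : ℂ => riemannZeta s ^ k * (y : ℂ) ^ s / s) =
      fun s : ℂ => riemannZeta s ^ k / s * (y : ℂ) ^ (s - (0 : ℝ)) := by
    funext s
    rw [ofReal_zero, sub_zero]
    ring
  rw [this]

/-- **ZA5.** Size of the main term (deform the circle to radius `ε`). -/
theorem Mk_bound (k : ℕ) {ε : ℝ} (hε : 0 < ε) : ∃ C : ℝ, 0 < C ∧ (∀ x : ℝ, 1 ≤ x →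
    |Mk k x| ≤ C * x ^ (1 + ε) ∧ |Mk1 k x| ≤ C * x ^ ε ∧ |Mk2 k x| ≤ C * x ^ (-1 + ε)) ∧
    ∀ x : ℝ, 0 < x → x ≤ 1 → |Mk k x| ≤ C * x ^ (1 / 2 : ℝ) := by
  obtain ⟨C0, hC0, h0⟩ := ZA5_gen (g := fun s => riemannZeta s ^ k / s)
    (fun s h1 h0 => (ZA5_zeta k h1).div differentiableAt_id h0) 0 hε
  obtain ⟨C1, hC1, h1⟩ := ZA5_gen (g := fun s => riemannZeta s ^ k)
    (fun s h1 _ => ZA5_zeta k h1) 1 hε
  obtain ⟨C2, hC2, h2⟩ := ZA5_gen (g := fun s => riemannZeta s ^ k * (s - 1))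
    (fun s h1 _ => (ZA5_zeta k h1).mul (by fun_prop)) 2 hε
  obtain ⟨C3, hC3, -, h3⟩ := ZA5_size (g := fun s => riemannZeta s ^ k / s) (r := 1 / 2)
    (by norm_num) 0 (by
      intro s hs
      have h1 := ZA5_ne (r := 1 / 2) (by norm_num) le_rfl (s := s)
        ⟨Metric.sphere_subset_closedBall hs, by
          rw [Metric.mem_sphere] at hs
          rw [Metric.mem_ball, hs]
          exact lt_irrefl _⟩
      exact ((ZA5_zeta k h1.1).div differentiableAt_id h1.2).continuousAt.continuousWithinAt)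
  refine ⟨C0 + C1 + C2 + C3, by positivity, fun x hx => ⟨?_, ?_, ?_⟩, fun x hx hx1 => ?_⟩
  · rw [ZA5_Mk]
    refine (h0 x hx).trans ?_
    rw [sub_zero]
    exact mul_le_mul_of_nonneg_right (by linarith) (by positivity)
  · have e1 : Mk1 k x = ((2 * π * I)⁻¹ *
        ∮ s in C(1, 1 / 2), riemannZeta s ^ k * (x : ℂ) ^ (s - (1 : ℝ))).re := by
      unfold Mk1
      rw [ofReal_one]
    rw [e1]
    refine (h1 x hx).trans ?_
    have e2 : 1 + ε - 1 = ε := by ring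
    rw [e2]
    exact mul_le_mul_of_nonneg_right (by linarith) (by positivity)
  · have e1 : Mk2 k x = ((2 * π * I)⁻¹ *
        ∮ s in C(1, 1 / 2), riemannZeta s ^ k * (s - 1) * (x : ℂ) ^ (s - (2 : ℝ))).re := by
      unfold Mk2
      rw [ofReal_ofNat]
    rw [e1]
    refine (h2 x hx).trans ?_
    have e2 : 1 + ε - 2 = -1 + ε := by ring
    rw [e2]
    exact mul_le_mul_of_nonneg_right (by linarith) (by positivity)
  · rw [ZA5_Mk]
    refine (h3 x hx hx1).trans ?_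
    have e2 : 1 - 1 / 2 - (0 : ℝ) = 1 / 2 := by norm_num
    rw [e2]
    exact mul_le_mul_of_nonneg_right (by linarith) (by positivity)
--END ZA5

--BEGIN ZA6
private lemma ZA6_eq (k : ℕ) (x : ℝ) : Ek k x = ∑ n ∈ Finset.Icc 1 ⌊x⌋₊, dk k n - Mk k x := rfl

/-- **ZA6.** Trivial bound for `Δ_k`, local integrability. -/
theorem Ek_trivial (k : ℕ) {ε : ℝ} (hε : 0 < ε) : ∃ C : ℝ, 0 < C ∧
    (∀ x : ℝ, 1 ≤ x → |Ek k x| ≤ C * x ^ (1 + ε)) ∧
    ∀ x : ℝ, 0 < x → x ≤ 1 → |Ek k x| ≤ C * x ^ (1 / 2 : ℝ) := by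
  obtain ⟨C1, hC1, h1⟩ := dk_bound k hε
  obtain ⟨C2, hC2, h2, h3⟩ := Mk_bound k hε
  have hsum : ∀ x : ℝ, 1 ≤ x → |∑ n ∈ Finset.Icc 1 ⌊x⌋₊, dk k n| ≤ C1 * x ^ (1 + ε) := by
    intro x hx
    have hx0 : 0 < x := by linarith
    rw [abs_of_nonneg (Finset.sum_nonneg fun n _ => dk_nonneg k n)]
    have h4 : ∀ n ∈ Finset.Icc 1 ⌊x⌋₊, dk k n ≤ C1 * x ^ ε := by
      intro n hn
      rw [Finset.mem_Icc] at hn
      refine (h1 n hn.1).trans (mul_le_mul_of_nonneg_left ?_ hC1.le)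
      exact Real.rpow_le_rpow (by positivity) ((Nat.le_floor_iff hx0.le).mp hn.2) hε.le
    have h5 := Finset.sum_le_card_nsmul _ _ _ h4
    rw [nsmul_eq_mul, Nat.card_Icc, Nat.add_sub_cancel] at h5
    refine h5.trans ?_
    have h6 : ((⌊x⌋₊ : ℕ) : ℝ) ≤ x := Nat.floor_le hx0.le
    have h7 : x ^ (1 + ε) = x * x ^ ε := by
      rw [Real.rpow_add hx0, Real.rpow_one]
    rw [h7]
    have h8 : 0 ≤ C1 * x ^ ε := by positivity
    calc ((⌊x⌋₊ : ℕ) : ℝ) * (C1 * x ^ ε) ≤ x * (C1 * x ^ ε) :=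
          mul_le_mul_of_nonneg_right h6 h8
      _ = C1 * (x * x ^ ε) := by ring
  refine ⟨C1 + C2, by positivity, fun x hx => ?_, fun x hx hx1 => ?_⟩
  · rw [ZA6_eq]
    refine (abs_sub _ _).trans ?_
    have := hsum x hx
    have := (h2 x hx).1
    linarith
  · rw [ZA6_eq]
    refine (abs_sub _ _).trans ?_
    have h5 := h3 x hx hx1
    have h6 : |∑ n ∈ Finset.Icc 1 ⌊x⌋₊, dk k n| ≤ C1 * x ^ (1 / 2 : ℝ) := by
      rcases hx1.lt_or_eq with h | h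
      · rw [(Nat.floor_eq_zero).mpr h]
        simp only [Finset.Icc_eq_empty_of_lt (show (0 : ℕ) < 1 by norm_num), Finset.sum_empty,
          abs_zero]
        positivity
      · have := hsum x h.ge
        rw [h, Real.one_rpow] at this ⊢
        exact this
    linarith

theorem Ek_meas (k : ℕ) : Measurable (Ek k) := by
  have h1 : Measurable (fun x : ℝ => ∑ n ∈ Finset.Icc 1 ⌊x⌋₊, dk k n) :=
    (measurable_from_nat (f := fun m : ℕ => ∑ n ∈ Finset.Icc 1 m, dk k n)).comp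
      Nat.measurable_floor
  have h2 : Measurable (Mk k) := by
    unfold Mk circleIntegral
    refine Complex.measurable_re.comp (Measurable.const_mul ?_ _)
    have hcm : Measurable (circleMap (1 : ℂ) (1 / 2)) := (continuous_circleMap _ _).measurable
    have hz : Measurable riemannZeta :=
      measurable_of_continuousOn_compl_singleton 1 fun s hs =>
        (differentiableAt_riemannZeta hs).continuousAt.continuousWithinAt
    have hd : Measurable (fun θ : ℝ => deriv (circleMap (1 : ℂ) (1 / 2)) θ) := by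
      simp only [deriv_circleMap]
      exact ((continuous_circleMap _ _).mul continuous_const).measurable
    have hj : Measurable (fun q : ℝ × ℝ => deriv (circleMap (1 : ℂ) (1 / 2)) q.2 •
        (riemannZeta (circleMap (1 : ℂ) (1 / 2) q.2) ^ k *
          (q.1 : ℂ) ^ (circleMap (1 : ℂ) (1 / 2) q.2) / circleMap (1 : ℂ) (1 / 2) q.2)) := by
      have hc2 : Measurable (fun q : ℝ × ℝ => circleMap (1 : ℂ) (1 / 2) q.2) :=
        hcm.comp measurable_snd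
      refine Measurable.smul (hd.comp measurable_snd) (Measurable.div (Measurable.mul
        ((hz.comp hc2).pow_const k) ?_) hc2)
      exact Measurable.pow (measurable_ofReal.comp measurable_fst) hc2
    have h3 := hj.stronglyMeasurable.integral_prod_right' (ν := volume.restrict (Ioc 0 (2 * π)))
    have e1 : (fun x : ℝ => ∫ θ in (0 : ℝ)..2 * π, deriv (circleMap (1 : ℂ) (1 / 2)) θ •
        (riemannZeta (circleMap (1 : ℂ) (1 / 2) θ) ^ k *
          (x : ℂ) ^ (circleMap (1 : ℂ) (1 / 2) θ) / circleMap (1 : ℂ) (1 / 2) θ)) =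
        fun x : ℝ => ∫ θ, (fun q : ℝ × ℝ => deriv (circleMap (1 : ℂ) (1 / 2)) q.2 •
        (riemannZeta (circleMap (1 : ℂ) (1 / 2) q.2) ^ k *
          (q.1 : ℂ) ^ (circleMap (1 : ℂ) (1 / 2) q.2) / circleMap (1 : ℂ) (1 / 2) q.2)) (x, θ)
          ∂(volume.restrict (Ioc 0 (2 * π))) := by
      funext x
      rw [intervalIntegral.integral_of_le Real.two_pi_pos.le]
    rw [e1]
    exact h3.measurable
  exact h1.sub h2
--END ZA6

--BEGIN ZA7
private lemma ZA7_le (k : ℕ) {ε : ℝ} (hε : 0 < ε) : ∃ C : ℝ, 0 < C ∧ ∀ u v : ℝ, 1 ≤ u → u ≤ v →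
    |Ek k v - Ek k u| ≤ C * (v - u + 1) * v ^ ε := by
  obtain ⟨C1, hC1, h1⟩ := dk_bound k hε
  obtain ⟨C2, hC2, h2, -⟩ := Mk_bound k hε
  refine ⟨C1 + C2, by positivity, fun u v hu huv => ?_⟩
  have hu0 : 0 < u := by linarith
  have hv0 : 0 < v := by linarith
  have e1 : Ek k v - Ek k u = ∑ n ∈ Finset.Ioc ⌊u⌋₊ ⌊v⌋₊, dk k n - (Mk k v - Mk k u) := by
    have e2 : ∑ n ∈ Finset.Icc 1 ⌊v⌋₊, dk k n = ∑ n ∈ Finset.Icc 1 ⌊u⌋₊, dk k n +
        ∑ n ∈ Finset.Ioc ⌊u⌋₊ ⌊v⌋₊, dk k n := by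
      have h3 : Finset.Icc 1 ⌊v⌋₊ = Finset.Icc 1 ⌊u⌋₊ ∪ Finset.Ioc ⌊u⌋₊ ⌊v⌋₊ := by
        have h4 : ⌊u⌋₊ ≤ ⌊v⌋₊ := Nat.floor_mono huv
        ext n
        simp only [Finset.mem_union, Finset.mem_Icc, Finset.mem_Ioc]
        omega
      rw [h3, Finset.sum_union]
      rw [Finset.disjoint_left]
      intro n hn hn2
      rw [Finset.mem_Icc] at hn
      rw [Finset.mem_Ioc] at hn2
      omega
    have e3 : ∀ x, Ek k x = ∑ n ∈ Finset.Icc 1 ⌊x⌋₊, dk k n - Mk k x := fun x => rfl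
    rw [e3, e3, e2]
    ring
  rw [e1]
  refine (abs_sub _ _).trans ?_
  have h3 : |∑ n ∈ Finset.Ioc ⌊u⌋₊ ⌊v⌋₊, dk k n| ≤ (v - u + 1) * (C1 * v ^ ε) := by
    rw [abs_of_nonneg (Finset.sum_nonneg fun n _ => dk_nonneg k n)]
    have h4 : ∀ n ∈ Finset.Ioc ⌊u⌋₊ ⌊v⌋₊, dk k n ≤ C1 * v ^ ε := by
      intro n hn
      rw [Finset.mem_Ioc] at hn
      refine (h1 n (by omega)).trans (mul_le_mul_of_nonneg_left ?_ hC1.le)
      exact Real.rpow_le_rpow (by positivity) ((Nat.le_floor_iff hv0.le).mp hn.2) hε.le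
    have h5 := Finset.sum_le_card_nsmul _ _ _ h4
    rw [nsmul_eq_mul, Nat.card_Ioc] at h5
    refine h5.trans (mul_le_mul_of_nonneg_right ?_ (by positivity))
    rw [Nat.cast_sub (Nat.floor_mono huv)]
    have h6 := Nat.floor_le hv0.le
    have h7 := Nat.lt_floor_add_one u
    linarith
  have h4 : |Mk k v - Mk k u| ≤ C2 * v ^ ε * (v - u) := by
    have h5 := (convex_Icc u v).norm_image_sub_le_of_norm_hasDerivWithin_le
      (f := Mk k) (f' := Mk1 k) (C := C2 * v ^ ε) (x := u) (y := v)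
      (fun t ht => (Mk_deriv k (by linarith [ht.1] : 0 < t)).1.hasDerivWithinAt)
      (fun t ht => by
        rw [Real.norm_eq_abs]
        refine ((h2 t (by linarith [ht.1])).2.1).trans (mul_le_mul_of_nonneg_left ?_ hC2.le)
        exact Real.rpow_le_rpow (by linarith [ht.1]) ht.2 hε.le)
      (left_mem_Icc.mpr huv) (right_mem_Icc.mpr huv)
    rw [Real.norm_eq_abs, Real.norm_eq_abs, abs_of_nonneg (by linarith : 0 ≤ v - u)] at h5
    exact h5
  have h5 : 0 ≤ C2 * v ^ ε := by positivity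
  calc |∑ n ∈ Finset.Ioc ⌊u⌋₊ ⌊v⌋₊, dk k n| + |Mk k v - Mk k u|
      ≤ (v - u + 1) * (C1 * v ^ ε) + C2 * v ^ ε * (v - u) := add_le_add h3 h4
    _ ≤ (v - u + 1) * (C1 * v ^ ε) + C2 * v ^ ε * (v - u + 1) := by nlinarith
    _ = (C1 + C2) * (v - u + 1) * v ^ ε := by ring

/-- **ZA7.** Short differences of `Δ_k`. -/
theorem Ek_diff (k : ℕ) {ε : ℝ} (hε : 0 < ε) : ∃ C : ℝ, 0 < C ∧ ∀ x z : ℝ, 1 ≤ x →
    x / 2 ≤ z → z ≤ 2 * x → 1 ≤ z → |Ek k x - Ek k z| ≤ C * (|x - z| + 1) * x ^ ε := by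
  obtain ⟨C, hC, h⟩ := ZA7_le k hε
  refine ⟨C * 2 ^ ε, by positivity, fun x z hx _ hz2 hz => ?_⟩
  have hx0 : 0 < x := by linarith
  have h2 : (1 : ℝ) ≤ 2 ^ ε := Real.one_le_rpow (by norm_num) hε.le
  have h3 : (2 * x) ^ ε = 2 ^ ε * x ^ ε := Real.mul_rpow (by norm_num) hx0.le
  have hpos : 0 ≤ C * (|x - z| + 1) := by positivity
  rcases le_total x z with hxz | hxz
  · have h4 := h x z hx hxz
    rw [abs_sub_comm]
    have e1 : |x - z| = z - x := by rw [abs_sub_comm, abs_of_nonneg (by linarith)]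
    rw [e1] at hpos ⊢
    refine h4.trans ?_
    calc C * (z - x + 1) * z ^ ε ≤ C * (z - x + 1) * (2 * x) ^ ε :=
          mul_le_mul_of_nonneg_left (Real.rpow_le_rpow (by linarith) hz2 hε.le) hpos
      _ = C * 2 ^ ε * (z - x + 1) * x ^ ε := by rw [h3]; ring
  · have h4 := h z x hz hxz
    have e1 : |x - z| = x - z := abs_of_nonneg (by linarith)
    rw [e1] at hpos ⊢
    refine h4.trans ?_
    calc C * (x - z + 1) * x ^ ε ≤ C * (x - z + 1) * (2 * x) ^ ε :=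
          mul_le_mul_of_nonneg_left (Real.rpow_le_rpow (by linarith) (by linarith) hε.le) hpos
      _ = C * 2 ^ ε * (x - z + 1) * x ^ ε := by rw [h3]; ring
--END ZA7

--BEGIN ZA8
private lemma ZA8_main {g g' F' : ℝ → ℝ} {p q : ℝ} (hpq : p ≤ q)
    (hF' : IntegrableOn F' (Icc p q)) (hg : ∀ x ∈ Icc p q, HasDerivAt g (g' x) x)
    (hc : ContinuousOn g' (Icc p q)) (hq : ∫ t in p..q, F' t = 0) :
    ∫ x in p..q, F' x * g x = -∫ x in p..q, (∫ t in p..x, F' t) * g' x := by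
  have hI : IntervalIntegrable F' volume p q :=
    (intervalIntegrable_iff_integrableOn_Icc_of_le hpq).mpr hF'
  have h1 : AbsolutelyContinuousOnInterval (fun x => ∫ t in p..x, F' t) p q :=
    hI.absolutelyContinuousOnInterval_intervalIntegral left_mem_uIcc
  have h2 : AbsolutelyContinuousOnInterval g p q := by
    obtain ⟨B, hB⟩ := isCompact_Icc.exists_bound_of_continuousOn hc
    have h3 : LipschitzOnWith (Real.toNNReal B) g (uIcc p q) := by
      rw [uIcc_of_le hpq]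
      refine (convex_Icc p q).lipschitzOnWith_of_nnnorm_hasDerivWithin_le (f' := g')
        (fun x hx => (hg x hx).hasDerivWithinAt) (fun x hx => ?_)
      have h4 := hB x hx
      rw [← NNReal.coe_le_coe, coe_nnnorm, Real.coe_toNNReal B ((norm_nonneg _).trans h4)]
      exact h4
    exact h3.absolutelyContinuousOnInterval
  have h3 := h2.integral_mul_deriv_eq_deriv_mul h1
  simp only [hq, intervalIntegral.integral_same, mul_zero, sub_zero] at h3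
  rw [zero_sub] at h3
  have h4 : ∫ x in p..q, g x * deriv (fun x => ∫ t in p..x, F' t) x =
      ∫ x in p..q, F' x * g x := by
    refine intervalIntegral.integral_congr_ae ?_
    filter_upwards [hI.ae_hasDerivAt_integral] with x hx hx2
    rw [(hx (uIoc_subset_uIcc hx2) p left_mem_uIcc).deriv, mul_comm]
  have h5 : ∫ x in p..q, deriv g x * ∫ t in p..x, F' t =
      ∫ x in p..q, (∫ t in p..x, F' t) * g' x := by
    refine intervalIntegral.integral_congr fun x hx => ?_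
    rw [uIcc_of_le hpq] at hx
    rw [(hg x hx).deriv, mul_comm]
  rw [← h4, h3, h5]

private lemma ZA8_ind {F' : ℝ → ℝ} {p q a : ℝ} (hpq : p ≤ q) (haq : a ≤ q)
    (hF' : IntegrableOn F' (Icc p q)) (hq : ∫ t in p..q, F' t = 0) :
    ∫ x in p..q, (Ici a).indicator F' x = -(if p ≤ a then ∫ t in p..a, F' t else 0) := by
  have hI : ∀ u v, p ≤ u → u ≤ v → v ≤ q → IntervalIntegrable F' volume u v := by
    intro u v h1 h2 h3
    exact (intervalIntegrable_iff_integrableOn_Icc_of_le h2).mpr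
      (hF'.mono_set (Icc_subset_Icc h1 h3))
  rw [intervalIntegral.integral_of_le hpq, setIntegral_indicator measurableSet_Ici]
  rcases le_or_gt a p with h | h
  · have e1 : Ioc p q ∩ Ici a = Ioc p q :=
      inter_eq_left.mpr fun x hx => le_trans h hx.1.le
    rw [e1, ← intervalIntegral.integral_of_le hpq, hq]
    split_ifs with h2
    · have : a = p := le_antisymm h h2
      rw [this, intervalIntegral.integral_same, neg_zero]
    · rw [neg_zero]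
  · have e1 : Ioc p q ∩ Ici a = Icc a q := by
      ext x
      simp only [mem_inter_iff, mem_Ioc, mem_Ici, mem_Icc]
      constructor
      · rintro ⟨⟨h1, h2⟩, h3⟩
        exact ⟨h3, h2⟩
      · rintro ⟨h1, h2⟩
        exact ⟨⟨lt_of_lt_of_le h h1, h2⟩, h1⟩
    rw [e1, integral_Icc_eq_integral_Ioc, ← intervalIntegral.integral_of_le haq, if_pos h.le]
    have h3 := intervalIntegral.integral_add_adjacent_intervals (hI p a le_rfl h.le haq)
      (hI a q h.le haq le_rfl)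
    rw [hq] at h3
    linarith

/-- **ZA8.** Integration by parts against `Δ_k`. -/
theorem int_Ek_parts (k : ℕ) {F F' : ℝ → ℝ} {p q : ℝ} (hp : 0 < p) (hpq : p ≤ q)
    (hF' : IntegrableOn F' (Icc p q)) (hF : ∀ x ∈ Icc p q, F x = ∫ t in p..x, F' t)
    (hq : F q = 0) :
    IntegrableOn (fun x => F' x * Ek k x) (Icc p q) ∧
    ∫ x in p..q, F' x * Ek k x =
      -(∑ n ∈ Finset.Icc 1 ⌊q⌋₊, if p ≤ (n : ℝ) then dk k n * F n else 0) +
        ∫ x in p..q, F x * Mk1 k x := by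
  have hq' : ∫ t in p..q, F' t = 0 := by rw [← hF q (right_mem_Icc.mpr hpq), hq]
  have hq0 : 0 < q := lt_of_lt_of_le hp hpq
  have hM : ∀ x ∈ Icc p q, HasDerivAt (Mk k) (Mk1 k x) x := fun x hx =>
    (Mk_deriv k (lt_of_lt_of_le hp hx.1)).1
  have hM1 : ContinuousOn (Mk1 k) (Icc p q) := fun x hx =>
    (Mk_deriv k (lt_of_lt_of_le hp hx.1)).2.1.continuousAt.continuousWithinAt
  have hMc : ContinuousOn (Mk k) (Icc p q) := fun x hx =>
    (hM x hx).continuousAt.continuousWithinAt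
  have hMI : IntegrableOn (fun x => F' x * Mk k x) (Icc p q) :=
    hF'.mul_continuousOn hMc isCompact_Icc
  have hSI : ∀ n : ℕ, IntegrableOn (fun x => dk k n * (Ici (n : ℝ)).indicator F' x)
      (Icc p q) := fun n => (Integrable.indicator hF' measurableSet_Ici).const_mul _
  have hE : ∀ x ∈ Icc p q, F' x * Ek k x = ∑ n ∈ Finset.Icc 1 ⌊q⌋₊,
      dk k n * (Ici (n : ℝ)).indicator F' x - F' x * Mk k x := by
    intro x hx
    have e1 : Ek k x = ∑ n ∈ Finset.Icc 1 ⌊x⌋₊, dk k n - Mk k x := rfl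
    rw [e1, mul_sub]
    congr 1
    have hx0 : 0 < x := lt_of_lt_of_le hp hx.1
    have e2 : Finset.Icc 1 ⌊x⌋₊ = (Finset.Icc 1 ⌊q⌋₊).filter (fun n : ℕ => (n : ℝ) ≤ x) := by
      ext n
      simp only [Finset.mem_Icc, Finset.mem_filter]
      constructor
      · rintro ⟨h1, h2⟩
        have h3 := (Nat.le_floor_iff hx0.le).mp h2
        exact ⟨⟨h1, Nat.le_floor (h3.trans hx.2)⟩, h3⟩
      · rintro ⟨⟨h1, h2⟩, h3⟩
        exact ⟨h1, Nat.le_floor h3⟩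
    rw [e2, Finset.sum_filter, Finset.mul_sum]
    refine Finset.sum_congr rfl fun n _ => ?_
    by_cases h : (n : ℝ) ≤ x
    · rw [if_pos h, Set.indicator_of_mem (show x ∈ Ici (n : ℝ) from h), mul_comm]
    · rw [if_neg h, Set.indicator_of_notMem (show x ∉ Ici (n : ℝ) from h), mul_zero, mul_zero]
  have hI : IntegrableOn (fun x => ∑ n ∈ Finset.Icc 1 ⌊q⌋₊,
      dk k n * (Ici (n : ℝ)).indicator F' x) (Icc p q) :=
    integrable_finsetSum _ fun n _ => hSI n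
  have hI2 : IntegrableOn (fun x => ∑ n ∈ Finset.Icc 1 ⌊q⌋₊,
      dk k n * (Ici (n : ℝ)).indicator F' x - F' x * Mk k x) (Icc p q) := hI.sub hMI
  refine ⟨hI2.congr_fun (fun x hx => (hE x hx).symm) measurableSet_Icc, ?_⟩
  have h1 : ∫ x in p..q, F' x * Ek k x = ∫ x in p..q, (∑ n ∈ Finset.Icc 1 ⌊q⌋₊,
      dk k n * (Ici (n : ℝ)).indicator F' x - F' x * Mk k x) := by
    refine intervalIntegral.integral_congr fun x hx => ?_
    rw [uIcc_of_le hpq] at hx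
    exact hE x hx
  rw [h1, intervalIntegral.integral_sub
    ((intervalIntegrable_iff_integrableOn_Icc_of_le hpq).mpr hI)
    ((intervalIntegrable_iff_integrableOn_Icc_of_le hpq).mpr hMI),
    intervalIntegral.integral_finsetSum fun n _ =>
      (intervalIntegrable_iff_integrableOn_Icc_of_le hpq).mpr (hSI n),
    ZA8_main hpq hF' hM hM1 hq', sub_neg_eq_add]
  congr 1
  · rw [← Finset.sum_neg_distrib]
    refine Finset.sum_congr rfl fun n hn => ?_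
    rw [Finset.mem_Icc] at hn
    have hnq : (n : ℝ) ≤ q := (Nat.le_floor_iff hq0.le).mp hn.2
    rw [intervalIntegral.integral_const_mul, ZA8_ind hpq hnq hF' hq']
    split_ifs with h
    · rw [hF n ⟨h, hnq⟩]
      ring
    · ring
  · refine intervalIntegral.integral_congr fun x hx => ?_
    rw [uIcc_of_le hpq] at hx
    rw [hF x hx]
--END ZA8

/-! ### The factor `χ` -/

/-- `ζ(s) = χ(s) ζ(1-s)`. -/
noncomputable def chi (s : ℂ) : ℂ :=
  2 * (2 * π : ℂ) ^ (-(1 - s)) * Gamma (1 - s) * Complex.cos (π * (1 - s) / 2)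

--BEGIN ZB1
/-- **ZB1.** -/
theorem zeta_chi {s : ℂ} (hs : s.re < 0) : riemannZeta s = chi s * riemannZeta (1 - s) := by
  have h2 := riemannZeta_one_sub (s := 1 - s) (fun n h => by
      have h1 := congrArg Complex.re h
      simp only [Complex.sub_re, Complex.one_re, Complex.neg_re, Complex.natCast_re] at h1
      have h3 : (0 : ℝ) ≤ n := Nat.cast_nonneg n
      linarith) (fun h => by
      have h1 := congrArg Complex.re h
      simp only [Complex.sub_re, Complex.one_re] at h1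
      linarith)
  rw [sub_sub_cancel] at h2
  rw [h2]
  rfl
--END ZB1

--BEGIN ZB2
/-- **ZB2.** -/
theorem chi_conj (s : ℂ) : chi (conj s) = conj (chi s) := by
  have harg : (2 * π : ℂ).arg ≠ π := by
    have h1 : (2 * π : ℂ) = ((2 * π : ℝ) : ℂ) := by push_cast; ring
    rw [h1, Complex.arg_ofReal_of_nonneg (by positivity)]
    exact Real.pi_pos.ne
  have h2 : conj (2 * π : ℂ) = (2 * π : ℂ) := by
    rw [map_mul, Complex.conj_ofReal, Complex.conj_ofNat]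
  have h3 : (1 : ℂ) - conj s = conj (1 - s) := by rw [map_sub, map_one]
  have h4 : (2 * π : ℂ) ^ (-(1 - conj s)) = conj ((2 * π : ℂ) ^ (-(1 - s))) := by
    rw [h3, ← map_neg, Complex.cpow_conj _ _ harg, h2]
  have h5 : Complex.cos (π * (1 - conj s) / 2) = conj (Complex.cos (π * (1 - s) / 2)) := by
    rw [h3, ← Complex.cos_conj]
    congr 1
    rw [map_div₀, map_mul, Complex.conj_ofReal, Complex.conj_ofNat]
  unfold chi
  rw [h4, h5, h3, Complex.Gamma_conj]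
  simp only [map_mul, Complex.conj_ofNat]
--END ZB2

--BEGIN ZB3
private theorem ZB3_diff {s : ℂ} (hs : s.re < 1) : DifferentiableAt ℂ chi s := by
  unfold chi
  have h1 : DifferentiableAt ℂ (fun s : ℂ => Complex.Gamma (1 - s)) s := by
    have h2 : DifferentiableAt ℂ Complex.Gamma (1 - s) := by
      refine Complex.differentiableAt_Gamma _ fun m h => ?_
      have h3 := congrArg Complex.re h
      simp at h3
      have : (0 : ℝ) ≤ m := Nat.cast_nonneg m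
      linarith
    exact h2.comp s (by fun_prop)
  have h3 : (2 * π : ℂ) ≠ 0 := by
    have := Real.pi_ne_zero
    simp [this]
  have h4 : DifferentiableAt ℂ (fun s : ℂ => (2 * π : ℂ) ^ (-(1 - s))) s :=
    DifferentiableAt.const_cpow (by fun_prop) (Or.inl h3)
  have h5 : DifferentiableAt ℂ (fun s : ℂ => Complex.cos (π * (1 - s) / 2)) s := by
    fun_prop
  exact (((differentiableAt_const _).mul h4).mul h1).mul h5

private theorem ZB3_ne {s : ℂ} (hs : s.re < 1) (hs' : s.im ≠ 0) : chi s ≠ 0 := by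
  unfold chi
  have h3 : (2 * π : ℂ) ≠ 0 := by
    have := Real.pi_ne_zero
    simp [this]
  refine mul_ne_zero (mul_ne_zero (mul_ne_zero two_ne_zero ?_) ?_) ?_
  · rw [Complex.cpow_def_of_ne_zero h3]
    exact Complex.exp_ne_zero _
  · exact Complex.Gamma_ne_zero_of_re_pos (by simp; linarith)
  · rw [Complex.cos_ne_zero_iff]
    intro k h
    have h4 := congrArg Complex.im h
    have h5 : ((π : ℂ) * (1 - s) / 2) = ((π / 2 : ℝ) : ℂ) * (1 - s) := by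
      push_cast
      ring
    have h6 : ((2 * (k : ℂ) + 1) * π / 2) = (((2 * k + 1) * π / 2 : ℝ) : ℂ) := by
      push_cast
      ring
    rw [h5, h6, Complex.ofReal_im, Complex.im_ofReal_mul] at h4
    exact hs' (by simpa [Real.pi_ne_zero] using h4)

private theorem ZB3_deriv {s : ℂ} (hs : s.re < 1) (hs' : s.im ≠ 0) :
    logDeriv chi s = Complex.log (2 * π) - Complex.digamma (1 - s) +
      (π / 2 : ℂ) * Complex.tan (π * (1 - s) / 2) := by
  have h2pi : (2 * π : ℂ) ≠ 0 := by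
    have := Real.pi_pos.ne'
    simp [this]
  have hG : Complex.Gamma (1 - s) ≠ 0 := by
    refine Complex.Gamma_ne_zero_of_re_pos ?_
    simp only [Complex.sub_re, Complex.one_re]
    linarith
  have hne := ZB3_ne hs hs'
  have hcos : Complex.cos (π * (1 - s) / 2) ≠ 0 := by
    intro h
    refine hne ?_
    unfold chi
    rw [h, mul_zero]
  have hpow : (2 * π : ℂ) ^ (-(1 - s)) ≠ 0 := by
    rw [Complex.cpow_def_of_ne_zero h2pi]
    exact Complex.exp_ne_zero _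
  have d0 : HasDerivAt (fun s : ℂ => 1 - s) (-1) s := by
    simpa using (hasDerivAt_id s).const_sub 1
  have d1 : HasDerivAt (fun s : ℂ => (2 * π : ℂ) ^ (-(1 - s)))
      ((2 * π : ℂ) ^ (-(1 - s)) * Complex.log (2 * π) * (-(-1))) s :=
    HasDerivAt.const_cpow d0.neg (Or.inl h2pi)
  have hGd : DifferentiableAt ℂ Complex.Gamma (1 - s) := by
    refine Complex.differentiableAt_Gamma _ fun m hm => ?_
    have h1 := congrArg Complex.re hm
    simp only [Complex.sub_re, Complex.one_re, Complex.neg_re, Complex.natCast_re] at h1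
    have h2 : (0 : ℝ) ≤ m := Nat.cast_nonneg m
    linarith
  have d2 : HasDerivAt (fun s : ℂ => Complex.Gamma (1 - s))
      (deriv Complex.Gamma (1 - s) * (-1)) s := hGd.hasDerivAt.comp s d0
  have d3 : HasDerivAt (fun s : ℂ => Complex.cos (π * (1 - s) / 2))
      (-Complex.sin (π * (1 - s) / 2) * ((π * (-1)) / 2)) s := by
    have h := (d0.const_mul (π : ℂ)).div_const 2
    exact (Complex.hasDerivAt_cos _).comp s h
  have d4 := ((d1.const_mul (2 : ℂ)).mul d2).mul d3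
  have d5 : HasDerivAt chi (((2 * ((2 * π : ℂ) ^ (-(1 - s)) * Complex.log (2 * π) * (-(-1)))) *
      Complex.Gamma (1 - s) + 2 * (2 * π : ℂ) ^ (-(1 - s)) *
        (deriv Complex.Gamma (1 - s) * (-1))) * Complex.cos (π * (1 - s) / 2) +
      2 * (2 * π : ℂ) ^ (-(1 - s)) * Complex.Gamma (1 - s) *
        (-Complex.sin (π * (1 - s) / 2) * ((π * (-1)) / 2))) s := d4
  rw [logDeriv_apply, d5.deriv]
  unfold chi
  rw [Complex.digamma_def, logDeriv_apply, Complex.tan_eq_sin_div_cos]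
  generalize Complex.cos (π * (1 - s) / 2) = c at *
  generalize Complex.sin (π * (1 - s) / 2) = si at *
  generalize Complex.Gamma (1 - s) = g at *
  generalize deriv Complex.Gamma (1 - s) = g' at *
  generalize (2 * π : ℂ) ^ (-(1 - s)) = a at *
  field_simp
  ring

private theorem ZB3_tan {w : ℂ} {y : ℝ} (hy : 0 < y) (hw : w.im = -y) :
    ‖Complex.tan w + I‖ ≤ 1 / y ^ 2 := by
  have h1 : Complex.sin w + I * Complex.cos w = I * Complex.exp (-w * I) := by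
    rw [Complex.sin, Complex.cos]
    ring
  have hn1 : ‖Complex.exp (-w * I)‖ = Real.exp (-y) := by
    rw [Complex.norm_exp]
    congr 1
    simp [hw]
  have hn2 : ‖Complex.exp (w * I)‖ = Real.exp y := by
    rw [Complex.norm_exp]
    congr 1
    simp [hw]
  have hc : (Real.exp y - Real.exp (-y)) / 2 ≤ ‖Complex.cos w‖ := by
    rw [Complex.cos, norm_div]
    have h2 : ‖(2 : ℂ)‖ = 2 := by simp
    rw [h2]
    refine div_le_div_of_nonneg_right ?_ (by norm_num)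
    rw [← hn1, ← hn2]
    have h3 := norm_sub_norm_le (Complex.exp (w * I)) (-Complex.exp (-w * I))
    rwa [norm_neg, sub_neg_eq_add] at h3
  have hpos : 0 < (Real.exp y - Real.exp (-y)) / 2 := by
    have := Real.exp_lt_exp.2 (by linarith : -y < y)
    linarith
  have hcn : 0 < ‖Complex.cos w‖ := lt_of_lt_of_le hpos hc
  have hc0 : Complex.cos w ≠ 0 := norm_pos_iff.1 hcn
  have h4 : Complex.tan w + I = I * Complex.exp (-w * I) / Complex.cos w := by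
    rw [Complex.tan_eq_sin_div_cos, ← h1]
    field_simp
  rw [h4, norm_div, norm_mul, Complex.norm_I, one_mul, hn1,
    div_le_div_iff₀ hcn (by positivity), one_mul]
  refine le_trans ?_ hc
  have h5 : y ^ 2 * 2 ≤ Real.exp (2 * y) - 1 := by
    have := Real.quadratic_le_exp_of_nonneg (x := 2 * y) (by linarith)
    nlinarith
  have h6 : Real.exp y = Real.exp (-y) * Real.exp (2 * y) := by
    rw [← Real.exp_add]
    congr 1
    ring
  rw [h6]
  have h7 := Real.exp_pos (-y)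
  nlinarith

private theorem ZB3_log {t : ℝ} (ht : 1 ≤ t) :
    ‖Complex.log (5 / 4 - t * I) - ((Real.log t : ℂ) - π / 2 * I + 5 / 4 * I / t)‖ ≤ 2 / t ^ 2 := by
  have ht0 : 0 < t := by linarith
  have htc : (t : ℂ) ≠ 0 := by exact_mod_cast ht0.ne'
  set a : ℝ := 5 / 4 / t with ha
  have ha0 : 0 < a := by positivity
  have hne : ∀ s : ℝ, (-I + (s : ℂ) * a) ≠ 0 := by
    intro s h
    have h1 := congrArg Complex.im h
    simp at h1
  have h1 : Complex.log (5 / 4 - t * I) = (Real.log t : ℂ) + Complex.log (-I + ((1 : ℝ) : ℂ) * a) := by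
    rw [← Complex.log_ofReal_mul ht0 (hne 1)]
    congr 1
    rw [ha]
    push_cast
    field_simp
    ring
  set g : ℝ → ℂ := fun s => Complex.log (-I + (s : ℂ) * a) - (s : ℂ) * a * I with hg
  have hslit : ∀ s : ℝ, (-I + (s : ℂ) * a) ∈ Complex.slitPlane := by
    intro s
    right
    simp
  have hnorm : ∀ s : ℝ, 1 ≤ ‖-I + (s : ℂ) * a‖ := by
    intro s
    have h2 := Complex.abs_im_le_norm (-I + (s : ℂ) * a)
    have h3 : (-I + (s : ℂ) * a).im = -1 := by simp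
    rw [h3] at h2
    simpa using h2
  have hd : ∀ s ∈ Icc (0 : ℝ) 1, HasDerivWithinAt g (a / (-I + (s : ℂ) * a) - a * I)
      (Icc (0 : ℝ) 1) s := by
    intro s _
    have d1 : HasDerivAt (fun s : ℝ => (s : ℂ) * a) (a : ℂ) s := by
      have := (Complex.ofRealCLM.hasDerivAt (x := s)).mul_const (a : ℂ)
      simpa using this
    have d2 : HasDerivAt (fun s : ℝ => -I + (s : ℂ) * a) (a : ℂ) s := by
      simpa using d1.const_add (-I)
    exact ((d2.clog_real (hslit s)).sub (d1.mul_const I)).hasDerivWithinAt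
  have hb : ∀ s ∈ Ico (0 : ℝ) 1, ‖(a : ℂ) / (-I + (s : ℂ) * a) - a * I‖ ≤ a ^ 2 := by
    intro s hs
    have h2 : (a : ℂ) / (-I + (s : ℂ) * a) - a * I = -(I * (s : ℂ) * a ^ 2) / (-I + (s : ℂ) * a) := by
      rw [div_sub' (hne s)]
      congr 1
      linear_combination (a : ℂ) * Complex.I_sq
    rw [h2, norm_div, norm_neg, norm_mul, norm_mul, Complex.norm_I, one_mul, norm_pow,
      Complex.norm_real, Complex.norm_real, Real.norm_eq_abs, Real.norm_eq_abs,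
      abs_of_nonneg hs.1, abs_of_pos ha0]
    have h3 := hnorm s
    rw [div_le_iff₀ (by linarith)]
    have h4 : s * a ^ 2 ≤ 1 * a ^ 2 := mul_le_mul_of_nonneg_right hs.2.le (by positivity)
    nlinarith [sq_nonneg a]
  have h2 := norm_image_sub_le_of_norm_deriv_le_segment_01' hd hb
  have h3 : g 0 = -(π / 2 * I) := by
    simp only [hg, Complex.ofReal_zero, zero_mul, add_zero, sub_zero]
    rw [Complex.log_neg_I]
    ring
  have h4 : Complex.log (5 / 4 - t * I) - ((Real.log t : ℂ) - π / 2 * I + 5 / 4 * I / t) =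
      g 1 - g 0 := by
    rw [h3, h1, hg, ha]
    push_cast
    ring
  rw [h4]
  refine h2.trans ?_
  rw [ha, div_pow, div_le_div_iff_of_pos_right (by positivity)]
  norm_num

/-- **ZB3.** The logarithmic derivative of `χ` on the line `Re s = -1/4`:
`χ'/χ(s) = log 2π - ψ(1-s) - (π/2) tan(π(1-s)/2)·(-1)...`; `i χ'/χ` has real part `O(1/t²)`
after removing the logarithm. Stated for the phase: the derivative in `t` of a logarithm. -/
theorem chi_logDeriv_line : ∃ C : ℝ, 0 < C ∧ ∀ t : ℝ, 1 ≤ t →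
    chi (-(1 / 4) + t * I) ≠ 0 ∧
    ‖logDeriv chi (-(1 / 4) + t * I) - (-Real.log (t / (2 * π)) - (3 / 4) * I / t)‖ ≤ C / t ^ 2 := by
  obtain ⟨C, hC, hdig⟩ := digamma_two
  refine ⟨C + 5, by linarith, fun t ht => ?_⟩
  have ht0 : 0 < t := by linarith
  have htc : (t : ℂ) ≠ 0 := by exact_mod_cast ht0.ne'
  have hre : (-(1 / 4) + t * I : ℂ).re = -(1 / 4) := by simp
  have him : (-(1 / 4) + t * I : ℂ).im = t := by simp
  have hre1 : (-(1 / 4) + t * I : ℂ).re < 1 := by rw [hre]; norm_num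
  have him1 : (-(1 / 4) + t * I : ℂ).im ≠ 0 := by rw [him]; exact ht0.ne'
  refine ⟨ZB3_ne hre1 him1, ?_⟩
  rw [ZB3_deriv hre1 him1]
  have hz : (1 : ℂ) - (-(1 / 4) + t * I) = 5 / 4 - t * I := by ring
  rw [hz]
  have hzre : (5 / 4 - t * I : ℂ).re = 5 / 4 := by simp
  have hzim : (5 / 4 - t * I : ℂ).im = -t := by simp
  have hzn : t ≤ ‖(5 / 4 - t * I : ℂ)‖ := by
    have h1 := Complex.abs_im_le_norm (5 / 4 - t * I : ℂ)
    rwa [hzim, abs_neg, abs_of_pos ht0] at h1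
  have hz0 : (5 / 4 - t * I : ℂ) ≠ 0 := norm_pos_iff.1 (lt_of_lt_of_le ht0 hzn)
  have e1 := hdig (5 / 4 - t * I) (by rw [hzre]; norm_num) (by
    rw [hzim, abs_neg, abs_of_pos ht0]; exact ht)
  rw [hzim, abs_neg, abs_of_pos ht0] at e1
  have e2 := ZB3_log ht
  have e3 := ZB3_tan (w := π * (5 / 4 - t * I) / 2) (y := π * t / 2) (by positivity) (by
    have h4 : (π * (5 / 4 - t * I) / 2 : ℂ) = ((π / 2 : ℝ) : ℂ) * (5 / 4 - t * I) := by
      push_cast; ring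
    rw [h4, Complex.im_ofReal_mul, hzim]
    ring)
  have e4 : ‖1 / (2 * (5 / 4 - t * I : ℂ)) - I / (2 * t)‖ ≤ 5 / 8 / t ^ 2 := by
    have h1 : 1 / (2 * (5 / 4 - t * I : ℂ)) - I / (2 * t) =
        -(5 / 8 * I) / ((5 / 4 - t * I) * t) := by
      rw [div_sub_div _ _ (mul_ne_zero two_ne_zero hz0) (mul_ne_zero two_ne_zero htc),
        div_eq_div_iff (mul_ne_zero (mul_ne_zero two_ne_zero hz0) (mul_ne_zero two_ne_zero htc))
          (mul_ne_zero hz0 htc)]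
      linear_combination (2 * (t : ℂ) ^ 2 * (5 / 4 - t * I)) * Complex.I_sq
    rw [h1, norm_div, norm_neg, norm_mul, norm_mul, Complex.norm_I, mul_one, Complex.norm_real,
      Real.norm_eq_abs, abs_of_pos ht0]
    have h2 : ‖(5 / 8 : ℂ)‖ = 5 / 8 := by
      rw [norm_div]
      simp
    rw [h2]
    refine div_le_div_of_nonneg_left (by norm_num) (by positivity) ?_
    rw [sq]
    exact mul_le_mul_of_nonneg_right hzn ht0.le
  have e5 : ‖1 / (12 * (5 / 4 - t * I : ℂ) ^ 2)‖ ≤ 1 / 12 / t ^ 2 := by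
    rw [norm_div, norm_one, norm_mul, norm_pow]
    have h2 : ‖(12 : ℂ)‖ = 12 := by simp
    rw [h2, div_div]
    refine one_div_le_one_div_of_le (by positivity) ?_
    have h3 : t ^ 2 ≤ ‖(5 / 4 - t * I : ℂ)‖ ^ 2 := pow_le_pow_left₀ ht0.le hzn 2
    linarith
  have e6 : ‖(π / 2 : ℂ) * (Complex.tan (π * (5 / 4 - t * I) / 2) + I)‖ ≤ 1 / t ^ 2 := by
    rw [norm_mul]
    have h6 : ‖(π / 2 : ℂ)‖ = π / 2 := by
      have h7 : (π / 2 : ℂ) = ((π / 2 : ℝ) : ℂ) := by push_cast; ring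
      rw [h7, Complex.norm_real, Real.norm_eq_abs, abs_of_pos (by positivity)]
    rw [h6]
    calc π / 2 * ‖Complex.tan (π * (5 / 4 - t * I) / 2) + I‖ ≤ π / 2 * (1 / (π * t / 2) ^ 2) :=
          mul_le_mul_of_nonneg_left e3 (by positivity)
      _ = (2 / π) * (1 / t ^ 2) := by field_simp
      _ ≤ 1 * (1 / t ^ 2) := by
          refine mul_le_mul_of_nonneg_right ?_ (by positivity)
          rw [div_le_one Real.pi_pos]
          linarith [Real.pi_gt_three]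
      _ = 1 / t ^ 2 := one_mul _
  have e7 : C / t ^ 3 ≤ C / t ^ 2 :=
    div_le_div_of_nonneg_left hC.le (by positivity) (pow_le_pow_right₀ ht (by norm_num))
  have e8 : Complex.log (2 * π) - Complex.digamma (5 / 4 - t * I) +
      (π / 2 : ℂ) * Complex.tan (π * (5 / 4 - t * I) / 2) -
      (-Real.log (t / (2 * π)) - (3 / 4) * I / t) =
      -(Complex.digamma (5 / 4 - t * I) - Complex.log (5 / 4 - t * I) +
        1 / (2 * (5 / 4 - t * I)) + 1 / (12 * (5 / 4 - t * I) ^ 2)) -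
      (Complex.log (5 / 4 - t * I) - ((Real.log t : ℂ) - π / 2 * I + 5 / 4 * I / t)) +
      (1 / (2 * (5 / 4 - t * I : ℂ)) - I / (2 * t)) + 1 / (12 * (5 / 4 - t * I : ℂ) ^ 2) +
      (π / 2 : ℂ) * (Complex.tan (π * (5 / 4 - t * I) / 2) + I) := by
    have h5 : (Complex.log (2 * π : ℂ)) = (Real.log (2 * π) : ℂ) := by
      rw [Complex.ofReal_log (by positivity)]
      push_cast
      rfl
    rw [h5, Real.log_div ht0.ne' (by positivity)]
    push_cast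
    have h6 : I / (2 * (t : ℂ)) = 1 / 2 * (I / t) := by field_simp
    rw [h6]
    ring
  rw [e8]
  have n1 := norm_add_le (-(Complex.digamma (5 / 4 - t * I) - Complex.log (5 / 4 - t * I) +
        1 / (2 * (5 / 4 - t * I)) + 1 / (12 * (5 / 4 - t * I) ^ 2)) -
      (Complex.log (5 / 4 - t * I) - ((Real.log t : ℂ) - π / 2 * I + 5 / 4 * I / t)) +
      (1 / (2 * (5 / 4 - t * I : ℂ)) - I / (2 * t)) + 1 / (12 * (5 / 4 - t * I : ℂ) ^ 2))
      ((π / 2 : ℂ) * (Complex.tan (π * (5 / 4 - t * I) / 2) + I))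
  have n2 := norm_add_le (-(Complex.digamma (5 / 4 - t * I) - Complex.log (5 / 4 - t * I) +
        1 / (2 * (5 / 4 - t * I)) + 1 / (12 * (5 / 4 - t * I) ^ 2)) -
      (Complex.log (5 / 4 - t * I) - ((Real.log t : ℂ) - π / 2 * I + 5 / 4 * I / t)) +
      (1 / (2 * (5 / 4 - t * I : ℂ)) - I / (2 * t))) (1 / (12 * (5 / 4 - t * I : ℂ) ^ 2))
  have n3 := norm_add_le (-(Complex.digamma (5 / 4 - t * I) - Complex.log (5 / 4 - t * I) +
        1 / (2 * (5 / 4 - t * I)) + 1 / (12 * (5 / 4 - t * I) ^ 2)) -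
      (Complex.log (5 / 4 - t * I) - ((Real.log t : ℂ) - π / 2 * I + 5 / 4 * I / t)))
      (1 / (2 * (5 / 4 - t * I : ℂ)) - I / (2 * t))
  have n4 := norm_sub_le (-(Complex.digamma (5 / 4 - t * I) - Complex.log (5 / 4 - t * I) +
        1 / (2 * (5 / 4 - t * I)) + 1 / (12 * (5 / 4 - t * I) ^ 2)))
      (Complex.log (5 / 4 - t * I) - ((Real.log t : ℂ) - π / 2 * I + 5 / 4 * I / t))
  rw [norm_neg] at n4
  have e9 : (C + 5) / t ^ 2 = C / t ^ 2 + 2 / t ^ 2 + 5 / 8 / t ^ 2 + 1 / 12 / t ^ 2 + 1 / t ^ 2 +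
      31 / 24 / t ^ 2 := by ring
  have e10 : 0 ≤ 31 / 24 / t ^ 2 := by positivity
  rw [e9]
  linarith
--END ZB3

--BEGIN ZB4
private noncomputable def ZB4_E (t : ℝ) : ℂ :=
  ((((t / (2 * π)) ^ (3 / 4 : ℝ) : ℝ)) : ℂ) *
      cexp (I * (-(t * Real.log (t / (2 * π * Real.exp 1))) : ℝ))

private theorem ZB4_E_ne {t : ℝ} (ht : 0 < t) : ZB4_E t ≠ 0 := by
  refine mul_ne_zero ?_ (Complex.exp_ne_zero _)
  have : 0 < (t / (2 * π)) ^ (3 / 4 : ℝ) := Real.rpow_pos_of_pos (by positivity) _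
  exact_mod_cast this.ne'

private theorem ZB4_E_deriv {t : ℝ} (ht : 0 < t) :
    HasDerivAt ZB4_E (ZB4_E t * ((3 / 4 : ℂ) / t - I * Real.log (t / (2 * π)))) t := by
  have hpi := Real.pi_pos
  have h1 : HasDerivAt (fun t : ℝ => t / (2 * π)) (1 / (2 * π)) t := (hasDerivAt_id t).div_const _
  have h2 : HasDerivAt (fun t : ℝ => (t / (2 * π)) ^ (3 / 4 : ℝ))
      ((t / (2 * π)) ^ (3 / 4 : ℝ) * (3 / 4 / t)) t := by
    have h3 := h1.rpow_const (p := (3 / 4 : ℝ)) (Or.inl (by positivity))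
    have h4 : 1 / (2 * π) * (3 / 4) * (t / (2 * π)) ^ ((3 / 4 : ℝ) - 1) =
        (t / (2 * π)) ^ (3 / 4 : ℝ) * (3 / 4 / t) := by
      rw [Real.rpow_sub_one (by positivity)]
      field_simp
    rwa [h4] at h3
  have h3 : HasDerivAt (fun t : ℝ => -(t * Real.log (t / (2 * π * Real.exp 1))))
      (-(Real.log (t / (2 * π)))) t := by
    have h4 : HasDerivAt (fun t : ℝ => t / (2 * π * Real.exp 1)) (1 / (2 * π * Real.exp 1)) t :=
      (hasDerivAt_id t).div_const _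
    have h5 := h4.log (by positivity)
    have h6 := ((hasDerivAt_id t).mul h5).neg
    have h7 : -(1 * Real.log (t / (2 * π * Real.exp 1)) +
        id t * (1 / (2 * π * Real.exp 1) / (t / (2 * π * Real.exp 1)))) =
        -(Real.log (t / (2 * π))) := by
      have h8 : Real.log (t / (2 * π * Real.exp 1)) = Real.log (t / (2 * π)) - 1 := by
        rw [← div_div, Real.log_div (by positivity) (by positivity), Real.log_exp]
      have h9 : id t * (1 / (2 * π * Real.exp 1) / (t / (2 * π * Real.exp 1))) = 1 := by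
        simp only [id]
        field_simp
      rw [h8, h9]
      ring
    rwa [h7] at h6
  have h4 := h2.ofReal_comp.mul ((h3.ofReal_comp.const_mul I).cexp)
  have h5 : ((((t / (2 * π)) ^ (3 / 4 : ℝ) * (3 / 4 / t) : ℝ)) : ℂ) *
      cexp (I * (-(t * Real.log (t / (2 * π * Real.exp 1))) : ℝ)) +
      ((((t / (2 * π)) ^ (3 / 4 : ℝ) : ℝ)) : ℂ) *
      (cexp (I * (-(t * Real.log (t / (2 * π * Real.exp 1))) : ℝ)) *
        (I * ((-(Real.log (t / (2 * π))) : ℝ) : ℂ))) =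
      ZB4_E t * ((3 / 4 : ℂ) / t - I * Real.log (t / (2 * π))) := by
    unfold ZB4_E
    push_cast
    ring
  rw [h5] at h4
  exact h4

private theorem ZB4_exp (w : ℂ) : ‖cexp w - 1‖ ≤ ‖w‖ * Real.exp ‖w‖ := by
  have h1 := norm_image_sub_le_of_norm_deriv_le_segment_01'
    (f := fun s : ℝ => cexp ((s : ℂ) * w)) (f' := fun s : ℝ => cexp ((s : ℂ) * w) * w)
    (C := Real.exp ‖w‖ * ‖w‖) (fun s _ => by
      have h2 : HasDerivAt (fun s : ℝ => (s : ℂ) * w) w s := by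
        have := (Complex.ofRealCLM.hasDerivAt (x := s)).mul_const w
        simpa using this
      exact h2.cexp.hasDerivWithinAt) (fun s hs => by
      rw [norm_mul, Complex.norm_exp]
      refine mul_le_mul_of_nonneg_right (Real.exp_le_exp.2 ?_) (norm_nonneg _)
      have h3 := Complex.re_le_norm ((s : ℂ) * w)
      rw [norm_mul, Complex.norm_real, Real.norm_eq_abs, abs_of_nonneg hs.1] at h3
      have h4 : s * ‖w‖ ≤ 1 * ‖w‖ := mul_le_mul_of_nonneg_right hs.2.le (norm_nonneg _)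
      linarith)
  simp only [Complex.ofReal_one, one_mul, Complex.ofReal_zero, zero_mul, Complex.exp_zero] at h1
  linarith

private theorem ZB4_main {g r : ℝ → ℂ} {C : ℝ} (hC : 0 < C) (hr : ContinuousOn r (Ioi 0))
    (hrb : ∀ t : ℝ, 1 ≤ t → ‖r t‖ ≤ C / t ^ 2) (hg0 : ∀ t : ℝ, 1 ≤ t → g t ≠ 0)
    (hg : ∀ t : ℝ, 1 ≤ t → HasDerivAt g (g t * r t) t) :
    ∃ (z : ℂ) (C' : ℝ), z ≠ 0 ∧ 0 < C' ∧ ∀ t : ℝ, 1 ≤ t → ‖g t - z‖ ≤ C' / t := by
  have hpw : ∀ t : ℝ, 1 ≤ t → IntegrableOn (fun s : ℝ => C / s ^ 2) (Ioi t) ∧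
      ∫ s in Ioi t, C / s ^ 2 = C / t := by
    intro t ht
    have ht0 : 0 < t := by linarith
    have h1 := integrableOn_Ioi_rpow_of_lt (a := -2) (by norm_num) ht0
    have h2 := integral_Ioi_rpow_of_lt (a := -2) (by norm_num) ht0
    have h3 : ∀ s ∈ Ioi t, C * s ^ (-2 : ℝ) = C / s ^ 2 := by
      intro s hs
      have hs0 : 0 < s := ht0.trans hs
      rw [Real.rpow_neg hs0.le, div_eq_mul_inv]
      congr 2
      exact_mod_cast Real.rpow_natCast s 2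
    constructor
    · have h4 : IntegrableOn (fun s : ℝ => C * s ^ (-2 : ℝ)) (Ioi t) := h1.const_mul C
      exact h4.congr_fun h3 measurableSet_Ioi
    · rw [← setIntegral_congr_fun measurableSet_Ioi h3, integral_const_mul, h2]
      have h4 : (-2 : ℝ) + 1 = -1 := by norm_num
      rw [h4, Real.rpow_neg_one]
      ring
  have hsub : ∀ t : ℝ, 1 ≤ t → Ioi t ⊆ Ioi (0 : ℝ) := fun t ht x hx =>
    lt_trans (by linarith : (0 : ℝ) < t) hx
  have hrm : ∀ t : ℝ, 1 ≤ t → AEStronglyMeasurable r (volume.restrict (Ioi t)) := fun t ht =>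
    (hr.mono (hsub t ht)).aestronglyMeasurable measurableSet_Ioi
  have hint : ∀ t : ℝ, 1 ≤ t → IntegrableOn r (Ioi t) := by
    intro t ht
    refine Integrable.mono' (hpw t ht).1 (hrm t ht) ?_
    filter_upwards [ae_restrict_mem measurableSet_Ioi] with s hs
    exact hrb s (ht.trans (le_of_lt hs))
  -- the logarithm
  set R : ℝ → ℂ := fun t => ∫ s in (1 : ℝ)..t, r s with hR
  have hii : ∀ a b : ℝ, 1 ≤ a → 1 ≤ b → IntervalIntegrable r volume a b := by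
    intro a b ha hb
    refine (hr.mono ?_).intervalIntegrable
    intro x hx
    have h1 : min a b ≤ x := hx.1
    have h2 : 1 ≤ min a b := le_min ha hb
    exact lt_of_lt_of_le one_pos (h2.trans h1)
  have hRd : ∀ t : ℝ, 1 ≤ t → HasDerivAt R (r t) t := by
    intro t ht
    have ht0 : (0 : ℝ) < t := by linarith
    exact intervalIntegral.integral_hasDerivAt_right (hii 1 t le_rfl ht)
      (hr.stronglyMeasurableAtFilter isOpen_Ioi t ht0) (hr.continuousAt (Ioi_mem_nhds ht0))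
  have hconst : ∀ t : ℝ, 1 ≤ t → g t * cexp (-R t) = g 1 := by
    intro t ht
    have hR1 : R 1 = 0 := intervalIntegral.integral_same
    have hd : ∀ s : ℝ, 1 ≤ s → HasDerivAt (fun s => g s * cexp (-R s)) 0 s := by
      intro s hs
      have h1 : HasDerivAt (fun s => g s * cexp (-R s))
          (g s * r s * cexp (-R s) + g s * (cexp (-R s) * -r s)) s :=
        (hg s hs).mul ((hRd s hs).neg.cexp)
      have h2 : g s * r s * cexp (-R s) + g s * (cexp (-R s) * -r s) = 0 := by ring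
      rwa [h2] at h1
    have h1 : g t * cexp (-R t) = g 1 * cexp (-R 1) :=
      constant_of_has_deriv_right_zero (f := fun s => g s * cexp (-R s)) (a := 1) (b := t)
      (fun s hs => (hd s hs.1).continuousAt.continuousWithinAt)
      (fun s hs => (hd s hs.1).hasDerivWithinAt) t ⟨ht, le_rfl⟩
    rw [h1, hR1, neg_zero, Complex.exp_zero, mul_one]
  have hgR : ∀ t : ℝ, 1 ≤ t → g t = g 1 * cexp (R t) := by
    intro t ht
    rw [← hconst t ht, mul_assoc, ← Complex.exp_add, neg_add_cancel, Complex.exp_zero, mul_one]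
  set Ri : ℂ := ∫ s in Ioi (1 : ℝ), r s with hRi
  have htail : ∀ t : ℝ, 1 ≤ t → ‖R t - Ri‖ ≤ C / t := by
    intro t ht
    have h2 : R t - Ri = -∫ s in Ioi t, r s := by
      have h3 : Ri - ∫ s in Ioi t, r s = R t := by
        have h5 := setIntegral_union (Set.Ioc_disjoint_Ioi (le_refl t)) measurableSet_Ioi
          ((hint 1 le_rfl).mono_set Ioc_subset_Ioi_self) (hint t ht)
        rw [Ioc_union_Ioi_eq_Ioi ht] at h5
        rw [hRi, h5, hR]
        simp only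
        rw [intervalIntegral.integral_of_le ht]
        ring
      rw [← h3]
      ring
    rw [h2, norm_neg]
    refine (norm_integral_le_of_norm_le (hpw t ht).1 ?_).trans (hpw t ht).2.le
    filter_upwards [ae_restrict_mem measurableSet_Ioi] with s hs
    exact hrb s (ht.trans (le_of_lt hs))
  refine ⟨g 1 * cexp Ri, ‖g 1‖ * ‖cexp Ri‖ * (C * Real.exp C), ?_, ?_, ?_⟩
  · exact mul_ne_zero (hg0 1 le_rfl) (Complex.exp_ne_zero _)
  · have h1 : 0 < ‖g 1‖ := norm_pos_iff.2 (hg0 1 le_rfl)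
    have h2 : 0 < ‖cexp Ri‖ := norm_pos_iff.2 (Complex.exp_ne_zero _)
    positivity
  · intro t ht
    have ht0 : (0 : ℝ) < t := by linarith
    have h1 : g t - g 1 * cexp Ri = g 1 * cexp Ri * (cexp (R t - Ri) - 1) := by
      rw [hgR t ht, mul_sub, mul_assoc, ← Complex.exp_add, mul_one]
      congr 3
      ring
    have h2 : ‖cexp (R t - Ri) - 1‖ ≤ C * Real.exp C / t := by
      have h3 := ZB4_exp (R t - Ri)
      have h4 := htail t ht
      have h5 : ‖R t - Ri‖ ≤ C := h4.trans (by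
        rw [div_le_iff₀ ht0]
        nlinarith)
      have h6 : Real.exp ‖R t - Ri‖ ≤ Real.exp C := Real.exp_le_exp.2 h5
      calc ‖cexp (R t - Ri) - 1‖ ≤ ‖R t - Ri‖ * Real.exp ‖R t - Ri‖ := h3
        _ ≤ C / t * Real.exp C := mul_le_mul h4 h6 (Real.exp_pos _).le (by positivity)
        _ = C * Real.exp C / t := by ring
    rw [h1, norm_mul, norm_mul]
    calc ‖g 1‖ * ‖cexp Ri‖ * ‖cexp (R t - Ri) - 1‖ ≤ ‖g 1‖ * ‖cexp Ri‖ * (C * Real.exp C / t) :=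
          mul_le_mul_of_nonneg_left h2 (by positivity)
      _ = ‖g 1‖ * ‖cexp Ri‖ * (C * Real.exp C) / t := by ring

/-- **ZB4.** `χ(-1/4+it) = z (t/2π)^{3/4} exp(-i t log(t/2πe)) (1 + O(1/t))`, with a constant
`z ≠ 0` (integrate ZB3; the modulus of `z` is `1`, but this is not needed). -/
theorem chi_asymp : ∃ (z : ℂ) (C : ℝ), z ≠ 0 ∧ 0 < C ∧ ∀ t : ℝ, 1 ≤ t →
    ‖chi (-(1 / 4) + t * I) - z * ((((t / (2 * π)) ^ (3 / 4 : ℝ) : ℝ)) : ℂ) *
      cexp (I * (-(t * Real.log (t / (2 * π * Real.exp 1))) : ℝ))‖ ≤ C * t ^ (-(1 / 4) : ℝ) := by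
  obtain ⟨C, hC, hb⟩ := chi_logDeriv_line
  have hre : ∀ t : ℝ, (-(1 / 4) + t * I : ℂ).re < 1 := by
    intro t
    have : (-(1 / 4) + t * I : ℂ).re = -(1 / 4) := by simp
    rw [this]
    norm_num
  have hopen : IsOpen {s : ℂ | s.re < 1} := isOpen_lt Complex.continuous_re continuous_const
  have hdo : DifferentiableOn ℂ chi {s : ℂ | s.re < 1} := fun s hs =>
    (ZB3_diff hs).differentiableWithinAt
  have hdc : ContinuousOn (deriv chi) {s : ℂ | s.re < 1} := (hdo.deriv hopen).continuousOn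
  have hline : Continuous fun t : ℝ => (-(1 / 4) + t * I : ℂ) := by fun_prop
  have hne : ∀ t : ℝ, 0 < t → chi (-(1 / 4) + t * I) ≠ 0 := fun t ht =>
    ZB3_ne (hre t) (by simpa using ht.ne')
  set g : ℝ → ℂ := fun t => chi (-(1 / 4) + t * I) / ZB4_E t with hg
  set r : ℝ → ℂ := fun t => I * (logDeriv chi (-(1 / 4) + t * I) -
    (-Real.log (t / (2 * π)) - (3 / 4) * I / t)) with hr
  have hgd : ∀ t : ℝ, 1 ≤ t → HasDerivAt g (g t * r t) t := by
    intro t ht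
    have ht0 : (0 : ℝ) < t := by linarith
    have htc : (t : ℂ) ≠ 0 := by exact_mod_cast ht0.ne'
    have h0 : HasDerivAt (fun t : ℝ => (-(1 / 4) + t * I : ℂ)) I t := by
      have h1 := (Complex.ofRealCLM.hasDerivAt (x := t)).mul_const I
      have h2 := h1.const_add (-(1 / 4) : ℂ)
      simpa using h2
    have h1 : HasDerivAt (fun t : ℝ => chi (-(1 / 4) + t * I))
        (deriv chi (-(1 / 4) + t * I) * I) t :=
      (ZB3_diff (hre t)).hasDerivAt.comp_of_eq t h0 rfl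
    have h2 := h1.div (ZB4_E_deriv ht0) (ZB4_E_ne ht0)
    have h3 : (deriv chi (-(1 / 4) + t * I) * I * ZB4_E t -
        chi (-(1 / 4) + t * I) * (ZB4_E t * ((3 / 4 : ℂ) / t - I * Real.log (t / (2 * π))))) /
        ZB4_E t ^ 2 = g t * r t := by
      have hE := ZB4_E_ne ht0
      have hc := hne t ht0
      simp only [hg, hr, logDeriv_apply]
      generalize ZB4_E t = E at *
      generalize deriv chi (-(1 / 4) + t * I) = d at *
      generalize chi (-(1 / 4) + t * I) = c at *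
      generalize (Real.log (t / (2 * π)) : ℂ) = l at *
      field_simp
      linear_combination (-(3 : ℂ) * c) * Complex.I_sq
    rw [h3] at h2
    exact h2
  have hrc : ContinuousOn r (Ioi 0) := by
    refine continuousOn_const.mul (ContinuousOn.sub ?_ (ContinuousOn.sub ?_ ?_))
    · have h1 : ContinuousOn (fun t : ℝ => deriv chi (-(1 / 4) + t * I)) (Ioi 0) :=
        hdc.comp hline.continuousOn fun t _ => hre t
      have h2 : ContinuousOn (fun t : ℝ => chi (-(1 / 4) + t * I)) (Ioi 0) :=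
        hdo.continuousOn.comp hline.continuousOn fun t _ => hre t
      exact h1.div h2 fun t ht => hne t ht
    · refine ContinuousOn.neg ?_
      refine Complex.continuous_ofReal.comp_continuousOn ?_
      refine ContinuousOn.log (by fun_prop) ?_
      intro t ht
      have ht' : (0 : ℝ) < t := ht
      positivity
    · refine ContinuousOn.div (by fun_prop) (by fun_prop) ?_
      intro t ht
      have ht' : (0 : ℝ) < t := ht
      exact_mod_cast ht'.ne'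
  have hrb : ∀ t : ℝ, 1 ≤ t → ‖r t‖ ≤ C / t ^ 2 := by
    intro t ht
    simp only [hr, norm_mul, Complex.norm_I, one_mul]
    exact (hb t ht).2
  obtain ⟨z, C', hz, hC', h⟩ := ZB4_main hC hrc hrb (fun t ht => div_ne_zero
    (hne t (by linarith)) (ZB4_E_ne (by linarith))) hgd
  refine ⟨z, C', hz, hC', fun t ht => ?_⟩
  have ht0 : (0 : ℝ) < t := by linarith
  have hE := ZB4_E_ne ht0
  have h1 : chi (-(1 / 4) + t * I) - z * ((((t / (2 * π)) ^ (3 / 4 : ℝ) : ℝ)) : ℂ) *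
      cexp (I * (-(t * Real.log (t / (2 * π * Real.exp 1))) : ℝ)) = (g t - z) * ZB4_E t := by
    have h2 : g t * ZB4_E t = chi (-(1 / 4) + t * I) := div_mul_cancel₀ _ hE
    rw [sub_mul, h2]
    unfold ZB4_E
    ring
  have h2 : ‖ZB4_E t‖ ≤ t ^ (3 / 4 : ℝ) := by
    unfold ZB4_E
    rw [norm_mul, Complex.norm_real, Complex.norm_exp]
    have h3 : (I * ((-(t * Real.log (t / (2 * π * Real.exp 1))) : ℝ) : ℂ)).re = 0 := by
      simp
    rw [h3, Real.exp_zero, mul_one, Real.norm_eq_abs,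
      abs_of_nonneg (Real.rpow_nonneg (by positivity) _)]
    refine Real.rpow_le_rpow (by positivity) ?_ (by norm_num)
    rw [div_le_iff₀ (by positivity)]
    have := Real.pi_gt_three
    nlinarith
  rw [h1, norm_mul]
  have h4 : C' * t ^ (-(1 / 4) : ℝ) = C' / t * t ^ (3 / 4 : ℝ) := by
    have h5 : t ^ (-(1 / 4) : ℝ) = t ^ (3 / 4 : ℝ) / t := by
      rw [← Real.rpow_sub_one ht0.ne']
      norm_num
    rw [h5]
    ring
  rw [h4]
  exact mul_le_mul (h t ht) h2 (norm_nonneg _) (by positivity)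
--END ZB4

--BEGIN ZB5
private theorem ZB5_zeta {a : ℝ} (ha : 1 < a) : ∃ K : ℝ, 0 < K ∧ ∀ s : ℂ, a ≤ s.re →
    ‖riemannZeta s‖ ≤ K := by
  have hsum : Summable (fun n : ℕ => 1 / (n : ℝ) ^ a) := Real.summable_one_div_nat_rpow.mpr ha
  refine ⟨(∑' n : ℕ, 1 / (n : ℝ) ^ a) + 1, ?_, ?_⟩
  · have : 0 ≤ ∑' n : ℕ, 1 / (n : ℝ) ^ a := tsum_nonneg fun n => by positivity
    linarith
  · intro s hs
    rw [zeta_eq_tsum_one_div_nat_cpow (by linarith)]
    have hn : ∀ n : ℕ, ‖1 / (n : ℂ) ^ s‖ ≤ 1 / (n : ℝ) ^ a := by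
      intro n
      rcases Nat.eq_zero_or_pos n with h0 | h0
      · subst h0
        have hs0 : s ≠ 0 := by
          rintro rfl
          simp at hs
          linarith
        have ha0 : a ≠ 0 := by linarith
        rw [Nat.cast_zero, Nat.cast_zero, Complex.zero_cpow hs0, Real.zero_rpow ha0]
        simp
      · rw [norm_div, norm_one, Complex.norm_natCast_cpow_of_pos h0]
        have h1 : (1 : ℝ) ≤ n := by exact_mod_cast h0
        exact one_div_le_one_div_of_le (Real.rpow_pos_of_pos (by linarith) _)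
          (Real.rpow_le_rpow_of_exponent_le h1 hs)
    have h1 : ‖∑' n : ℕ, 1 / (n : ℂ) ^ s‖ ≤ ∑' n : ℕ, 1 / (n : ℝ) ^ a :=
      tsum_of_norm_bounded hsum.hasSum hn
    linarith

/-- **ZB5.** `|ζ(-1/4+it)| ≪ (1+|t|)^{3/4}`. -/
theorem zeta_line_bound : ∃ C : ℝ, 0 < C ∧ ∀ t : ℝ,
    ‖riemannZeta (-(1 / 4) + t * I)‖ ≤ C * (1 + |t|) ^ (3 / 4 : ℝ) := by
  obtain ⟨z, C1, hz, hC1, hchi⟩ := chi_asymp
  obtain ⟨K, hK, hzeta⟩ := ZB5_zeta (a := 5 / 4) (by norm_num)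
  have hcont : ContinuousOn (fun t : ℝ => riemannZeta (-(1 / 4) + t * I)) (Icc (-1) 1) := by
    intro t _
    refine ContinuousAt.continuousWithinAt ?_
    refine ContinuousAt.comp (f := fun t : ℝ => (-(1 / 4) + t * I : ℂ)) ?_ (by fun_prop)
    refine (differentiableAt_riemannZeta ?_).continuousAt
    intro h
    have h1 := congrArg Complex.re h
    simp at h1
    norm_num at h1
  obtain ⟨B, hB⟩ := isCompact_Icc.exists_bound_of_continuousOn hcont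
  -- the bound for `χ`
  have hchi2 : ∀ t : ℝ, 1 ≤ t → ‖chi (-(1 / 4) + t * I)‖ ≤ (‖z‖ + C1) * t ^ (3 / 4 : ℝ) := by
    intro t ht
    have ht0 : (0 : ℝ) < t := by linarith
    have h1 := hchi t ht
    have h2 : ‖z * ((((t / (2 * π)) ^ (3 / 4 : ℝ) : ℝ)) : ℂ) *
        cexp (I * (-(t * Real.log (t / (2 * π * Real.exp 1))) : ℝ))‖ ≤ ‖z‖ * t ^ (3 / 4 : ℝ) := by
      rw [norm_mul, norm_mul, Complex.norm_real, Complex.norm_exp]
      have h3 : (I * ((-(t * Real.log (t / (2 * π * Real.exp 1))) : ℝ) : ℂ)).re = 0 := by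
        simp
      rw [h3, Real.exp_zero, mul_one, Real.norm_eq_abs,
        abs_of_nonneg (Real.rpow_nonneg (by positivity) _)]
      refine mul_le_mul_of_nonneg_left ?_ (norm_nonneg _)
      refine Real.rpow_le_rpow (by positivity) ?_ (by norm_num)
      rw [div_le_iff₀ (by positivity)]
      have := Real.pi_gt_three
      nlinarith
    have h3 : t ^ (-(1 / 4) : ℝ) ≤ t ^ (3 / 4 : ℝ) :=
      Real.rpow_le_rpow_of_exponent_le ht (by norm_num)
    have h4 := norm_le_norm_add_norm_sub' (chi (-(1 / 4) + t * I))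
      (z * ((((t / (2 * π)) ^ (3 / 4 : ℝ) : ℝ)) : ℂ) *
        cexp (I * (-(t * Real.log (t / (2 * π * Real.exp 1))) : ℝ)))
    have h5 : C1 * t ^ (-(1 / 4) : ℝ) ≤ C1 * t ^ (3 / 4 : ℝ) := mul_le_mul_of_nonneg_left h3 hC1.le
    linarith
  have hchi3 : ∀ t : ℝ, 1 ≤ |t| → ‖chi (-(1 / 4) + t * I)‖ ≤ (‖z‖ + C1) * |t| ^ (3 / 4 : ℝ) := by
    intro t ht
    rcases le_or_gt 0 t with h | h
    · rw [abs_of_nonneg h] at ht ⊢
      exact hchi2 t ht
    · have h1 : (-(1 / 4) + t * I : ℂ) = conj (-(1 / 4) + (|t| : ℝ) * I : ℂ) := by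
        rw [abs_of_neg h]
        apply Complex.ext <;> simp
      rw [h1, chi_conj, Complex.norm_conj]
      exact hchi2 |t| ht
  refine ⟨|B| + K * (‖z‖ + C1) + 1, by positivity, fun t => ?_⟩
  have h1t : (1 : ℝ) ≤ (1 + |t|) ^ (3 / 4 : ℝ) :=
    Real.one_le_rpow (by linarith [abs_nonneg t]) (by norm_num)
  rcases le_or_gt 1 |t| with h | h
  · have hre : (-(1 / 4) + t * I : ℂ).re < 0 := by
      have : (-(1 / 4) + t * I : ℂ).re = -(1 / 4) := by simp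
      rw [this]
      norm_num
    rw [zeta_chi hre, norm_mul]
    have h2 := hzeta (1 - (-(1 / 4) + t * I)) (by
      simp
      norm_num)
    have h3 := hchi3 t h
    have h4 : |t| ^ (3 / 4 : ℝ) ≤ (1 + |t|) ^ (3 / 4 : ℝ) :=
      Real.rpow_le_rpow (abs_nonneg t) (by linarith) (by norm_num)
    calc ‖chi (-(1 / 4) + t * I)‖ * ‖riemannZeta (1 - (-(1 / 4) + t * I))‖
        ≤ ((‖z‖ + C1) * |t| ^ (3 / 4 : ℝ)) * K :=
          mul_le_mul h3 h2 (norm_nonneg _) (by positivity)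
      _ = (K * (‖z‖ + C1)) * |t| ^ (3 / 4 : ℝ) := by ring
      _ ≤ (K * (‖z‖ + C1)) * (1 + |t|) ^ (3 / 4 : ℝ) :=
          mul_le_mul_of_nonneg_left h4 (by positivity)
      _ ≤ (|B| + K * (‖z‖ + C1) + 1) * (1 + |t|) ^ (3 / 4 : ℝ) := by
          refine mul_le_mul_of_nonneg_right ?_ (by positivity)
          linarith [abs_nonneg B]
  · have h2 := hB t ⟨by linarith [neg_abs_le t], by linarith [le_abs_self t]⟩
    have h3 : ‖riemannZeta (-(1 / 4) + t * I)‖ ≤ |B| := h2.trans (le_abs_self B)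
    have h5 : 0 ≤ K * (‖z‖ + C1) := by positivity
    calc ‖riemannZeta (-(1 / 4) + t * I)‖ ≤ (|B| + K * (‖z‖ + C1) + 1) * 1 := by linarith
      _ ≤ (|B| + K * (‖z‖ + C1) + 1) * (1 + |t|) ^ (3 / 4 : ℝ) :=
          mul_le_mul_of_nonneg_left h1t (by positivity)
--END ZB5

--BEGIN ZB6
private theorem ZB6_cos_sq (x y : ℝ) (hx : Real.cos x ^ 2 = 1 / 2) :
    ‖Complex.cos ((x : ℂ) + (y : ℂ) * I)‖ ^ 2 = Real.cosh (2 * y) / 2 := by
  have hs : Real.sin x ^ 2 = 1 / 2 := by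
    have := Real.sin_sq_add_cos_sq x
    linarith
  rw [Complex.cos_add_mul_I, ← Complex.ofReal_cos, ← Complex.ofReal_cosh, ← Complex.ofReal_sin,
    ← Complex.ofReal_sinh, ← Complex.normSq_eq_norm_sq]
  have h1 : ((Real.cos x : ℂ) * (Real.cosh y : ℂ) - (Real.sin x : ℂ) * (Real.sinh y : ℂ) * I) =
      ((Real.cos x * Real.cosh y : ℝ) : ℂ) + ((-(Real.sin x * Real.sinh y) : ℝ) : ℂ) * I := by
    push_cast
    ring
  rw [h1, Complex.normSq_add_mul_I, Real.cosh_two_mul]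
  have h2 : (Real.cos x * Real.cosh y) ^ 2 + (-(Real.sin x * Real.sinh y)) ^ 2 =
      Real.cos x ^ 2 * Real.cosh y ^ 2 + Real.sin x ^ 2 * Real.sinh y ^ 2 := by ring
  rw [h2, hx, hs]
  ring

private theorem ZB6_gamma_sq (t : ℝ) :
    ‖Complex.Gamma (1 / 2 - (t : ℂ) * I)‖ ^ 2 = π / Real.cosh (π * t) := by
  have h1 := Complex.Gamma_mul_Gamma_one_sub (1 / 2 - (t : ℂ) * I)
  have h2 : 1 - (1 / 2 - (t : ℂ) * I) = (starRingEnd ℂ) (1 / 2 - (t : ℂ) * I) := by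
    simp only [map_sub, map_mul, map_div₀, map_one, Complex.conj_ofReal, Complex.conj_I,
      Complex.conj_ofNat]
    ring
  rw [h2, Complex.Gamma_conj] at h1
  have h3 : Complex.sin (π * (1 / 2 - (t : ℂ) * I)) = (Real.cosh (π * t) : ℂ) := by
    have h4 : (π : ℂ) * (1 / 2 - (t : ℂ) * I) = π / 2 - ((π * t : ℝ) : ℂ) * I := by
      push_cast
      ring
    rw [h4, Complex.sin_pi_div_two_sub, Complex.cos_mul_I, Complex.ofReal_cosh]
  rw [h3] at h1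
  have h5 := congrArg norm h1
  rw [norm_mul, Complex.norm_conj, norm_div, Complex.norm_real, Complex.norm_real,
    Real.norm_eq_abs, Real.norm_eq_abs, abs_of_pos Real.pi_pos, abs_of_pos (Real.cosh_pos _)] at h5
  rw [sq, h5]

private theorem ZB6_pow_norm (z : ℂ) : ‖(2 * π : ℂ) ^ (-z)‖ = (2 * π) ^ (-z.re) := by
  have h1 : (2 * π : ℂ) = ((2 * π : ℝ) : ℂ) := by push_cast; ring
  rw [h1, Complex.norm_cpow_eq_rpow_re_of_pos (by positivity), Complex.neg_re]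

private theorem ZB6_chi_norm (t : ℝ) :
    ‖chi (-1 / 2 + (t : ℂ) * I)‖ = Real.sqrt (1 / 4 + t ^ 2) / (2 * π) := by
  have hz : 1 - (-1 / 2 + (t : ℂ) * I) = (1 / 2 - (t : ℂ) * I) + 1 := by ring
  have hcos : Complex.cos (π * ((1 / 2 - (t : ℂ) * I) + 1) / 2) =
      Complex.cos (((3 * π / 4 : ℝ) : ℂ) + ((-(π * t / 2) : ℝ) : ℂ) * I) := by
    congr 1
    push_cast
    ring
  have h1 := ZB6_cos_sq (3 * π / 4) (-(π * t / 2)) (by
    have h0 : (3 * π / 4 : ℝ) = π - π / 4 := by ring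
    rw [h0, Real.cos_pi_sub, neg_sq, Real.cos_pi_div_four, div_pow, Real.sq_sqrt (by norm_num)]
    norm_num)
  have h2 := ZB6_gamma_sq t
  have hne : (1 / 2 - (t : ℂ) * I) ≠ 0 := fun h => by
    have := congrArg Complex.re h
    simp at this
  have hG : ‖Complex.Gamma ((1 / 2 - (t : ℂ) * I) + 1)‖ ^ 2 =
      (1 / 4 + t ^ 2) * (π / Real.cosh (π * t)) := by
    rw [Complex.Gamma_add_one _ hne, norm_mul, mul_pow, h2]
    congr 1
    rw [← Complex.normSq_eq_norm_sq]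
    have h7 : (1 / 2 - (t : ℂ) * I) = ((1 / 2 : ℝ) : ℂ) + ((-t : ℝ) : ℂ) * I := by
      push_cast
      ring
    rw [h7, Complex.normSq_add_mul_I]
    ring
  have h3 : ‖(2 * π : ℂ) ^ (-((1 / 2 - (t : ℂ) * I) + 1))‖ ^ 2 = 1 / (2 * π) ^ 3 := by
    rw [ZB6_pow_norm, ← Real.rpow_natCast, ← Real.rpow_mul (by positivity)]
    have h4 : -((1 / 2 - (t : ℂ) * I) + 1).re * ((2 : ℕ) : ℝ) = -((3 : ℕ) : ℝ) := by
      simp
      norm_num
    rw [h4, Real.rpow_neg (by positivity), Real.rpow_natCast, one_div]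
  have hc : 0 < Real.cosh (π * t) := Real.cosh_pos _
  have hpi := Real.pi_pos
  have h5 : ‖chi (-1 / 2 + (t : ℂ) * I)‖ ^ 2 = (Real.sqrt (1 / 4 + t ^ 2) / (2 * π)) ^ 2 := by
    unfold chi
    rw [hz, norm_mul, norm_mul, norm_mul, mul_pow, mul_pow, mul_pow, h3, hG, hcos, h1]
    have h6 : Real.cosh (2 * (-(π * t / 2))) = Real.cosh (π * t) := by
      rw [← Real.cosh_neg (π * t)]
      congr 1
      ring
    rw [h6, div_pow, Real.sq_sqrt (by positivity)]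
    simp only [Complex.norm_ofNat]
    field_simp
  exact (sq_eq_sq₀ (norm_nonneg _) (by positivity)).1 h5

private theorem ZB6_Gne {s : ℂ} (hs : s.im ≠ 0) : Complex.Gammaℝ s ≠ 0 := by
  intro h
  rw [Complex.Gammaℝ_eq_zero_iff] at h
  obtain ⟨n, hn⟩ := h
  apply hs
  rw [hn]
  simp

private noncomputable def ZB6_zs (s : ℂ) : ℂ := if s = 1 then 1 else (s - 1) * riemannZeta s

private theorem ZB6_differentiable : Differentiable ℂ ZB6_zs := by
  have hne : ∀ s : ℂ, s ≠ 1 → DifferentiableAt ℂ ZB6_zs s := by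
    intro s hs
    have h1 : ZB6_zs =ᶠ[𝓝 s] fun s => (s - 1) * riemannZeta s := by
      filter_upwards [isOpen_ne.mem_nhds hs] with z hz
      unfold ZB6_zs
      rw [if_neg hz]
    have h2 : DifferentiableAt ℂ (fun s => (s - 1) * riemannZeta s) s :=
      (differentiableAt_id.sub_const 1).mul (differentiableAt_riemannZeta hs)
    exact h2.congr_of_eventuallyEq h1
  intro s
  by_cases hs : s = 1
  · subst hs
    have hc : ContinuousAt ZB6_zs 1 := by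
      rw [← continuousWithinAt_compl_self]
      have h1 : ZB6_zs 1 = 1 := by
        unfold ZB6_zs
        rw [if_pos rfl]
      unfold ContinuousWithinAt
      rw [h1]
      refine riemannZeta_residue_one.congr' ?_
      filter_upwards [self_mem_nhdsWithin] with z hz
      have hz' : z ≠ 1 := hz
      unfold ZB6_zs
      rw [if_neg hz']
    have h2 : AnalyticAt ℂ ZB6_zs 1 := by
      refine Complex.analyticAt_of_differentiable_on_punctured_nhds_of_continuousAt ?_ hc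
      filter_upwards [self_mem_nhdsWithin] with z hz
      exact hne z hz
    exact h2.differentiableAt
  · exact hne s hs

private theorem ZB6_zeta_bd : ∃ K : ℝ, 0 < K ∧ ∀ s : ℂ, s.re = 3 / 2 → ‖riemannZeta s‖ ≤ K := by
  have hsum : Summable (fun n : ℕ => 1 / (n : ℝ) ^ (3 / 2 : ℝ)) :=
    Real.summable_one_div_nat_rpow.mpr (by norm_num)
  refine ⟨(∑' n : ℕ, 1 / (n : ℝ) ^ (3 / 2 : ℝ)) + 1, ?_, ?_⟩
  · have : 0 ≤ ∑' n : ℕ, 1 / (n : ℝ) ^ (3 / 2 : ℝ) := tsum_nonneg fun n => by positivity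
    linarith
  · intro s hs
    rw [zeta_eq_tsum_one_div_nat_cpow (by rw [hs]; norm_num)]
    have hn : ∀ n : ℕ, ‖1 / (n : ℂ) ^ s‖ = 1 / (n : ℝ) ^ (3 / 2 : ℝ) := by
      intro n
      rw [norm_div, norm_one, Complex.norm_natCast_cpow_of_re_ne_zero _ (by rw [hs]; norm_num), hs]
    have h1 : ‖∑' n : ℕ, 1 / (n : ℂ) ^ s‖ ≤ ∑' n : ℕ, ‖1 / (n : ℂ) ^ s‖ := by
      refine norm_tsum_le_tsum_norm ?_
      simp_rw [hn]
      exact hsum
    simp_rw [hn] at h1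
    linarith

private theorem ZB6_sin (w : ℂ) : ‖Complex.sin w‖ ≤ Real.exp |w.im| := by
  have h1 : Complex.sin w = (Complex.exp (-w * I) - Complex.exp (w * I)) * I / 2 := rfl
  have h2 : ‖Complex.exp (-w * I)‖ = Real.exp w.im := by
    rw [Complex.norm_exp]
    congr 1
    simp
  have h3 : ‖Complex.exp (w * I)‖ = Real.exp (-w.im) := by
    rw [Complex.norm_exp]
    congr 1
    simp
  have h4 : Real.exp w.im ≤ Real.exp |w.im| := Real.exp_le_exp.mpr (le_abs_self _)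
  have h5 : Real.exp (-w.im) ≤ Real.exp |w.im| := Real.exp_le_exp.mpr (neg_le_abs _)
  rw [h1, norm_div, norm_mul, Complex.norm_I, mul_one]
  have h6 : ‖(2 : ℂ)‖ = 2 := by simp
  rw [h6, div_le_iff₀ (by norm_num)]
  refine (norm_sub_le _ _).trans ?_
  rw [h2, h3]
  linarith

private theorem ZB6_gamma : ∃ G : ℝ, 0 < G ∧ ∀ s : ℂ, -(1 / 2) ≤ s.re → s.re ≤ 3 / 2 → s.im ≠ 0 →
    ‖(Complex.Gammaℝ s)⁻¹‖ ≤ G * Real.exp (π / 2 * |s.im|) := by
  obtain ⟨G, hG⟩ := (isCompact_Icc (a := (1 / 4 : ℝ)) (b := 5 / 4)).exists_bound_of_continuousOn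
    (f := Real.Gamma) (fun x hx => (Real.differentiableAt_Gamma fun m h => by
      have h1 : (0 : ℝ) ≤ m := Nat.cast_nonneg m
      have h2 := hx.1
      rw [h] at h2
      linarith).continuousAt.continuousWithinAt)
  refine ⟨|G| + 1, by positivity, ?_⟩
  intro s h1 h2 him
  have hGne : Complex.Gammaℝ s ≠ 0 := ZB6_Gne him
  rw [Complex.Gammaℝ_def] at hGne ⊢
  have hne1 : Complex.Gamma (s / 2) ≠ 0 := right_ne_zero_of_mul hGne
  have hrefl := Complex.Gamma_mul_Gamma_one_sub (s / 2)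
  have hre : (1 - s / 2).re = 1 - s.re / 2 := by simp
  have hne2 : Complex.Gamma (1 - s / 2) ≠ 0 := by
    apply Complex.Gamma_ne_zero_of_re_pos
    rw [hre]
    linarith
  have hsin : Complex.sin (π * (s / 2)) ≠ 0 := by
    intro h
    rw [h, div_zero] at hrefl
    exact (mul_ne_zero hne1 hne2) hrefl
  have hπ : (π : ℂ) ≠ 0 := by exact_mod_cast Real.pi_ne_zero
  have hinv : (Complex.Gamma (s / 2))⁻¹ =
      Complex.Gamma (1 - s / 2) * Complex.sin (π * (s / 2)) / π := by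
    rw [eq_div_iff hsin] at hrefl
    rw [eq_div_iff hπ, inv_mul_eq_iff_eq_mul₀ hne1]
    rw [← mul_assoc]
    exact hrefl.symm
  rw [mul_inv, norm_mul, hinv, norm_div, norm_mul]
  have hp1 : ‖((π : ℂ) ^ (-s / 2))⁻¹‖ ≤ π := by
    rw [norm_inv, Complex.norm_cpow_eq_rpow_re_of_pos Real.pi_pos]
    have h3 : (-s / 2).re = -(s.re / 2) := by
      simp
      ring
    rw [h3, Real.rpow_neg Real.pi_pos.le, inv_inv]
    calc π ^ (s.re / 2) ≤ π ^ (1 : ℝ) := by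
          apply Real.rpow_le_rpow_of_exponent_le
          · linarith [Real.pi_gt_three]
          · linarith
      _ = π := Real.rpow_one _
  have hp2 : ‖Complex.Gamma (1 - s / 2)‖ ≤ |G| + 1 := by
    have h3 := Pool.Agent.Lib.ZetaCount_helper33.norm_Gamma_le (s := 1 - s / 2) (by rw [hre]; linarith)
    have h4 := hG (1 - s.re / 2) ⟨by linarith, by linarith⟩
    rw [hre] at h3
    have h5 : Real.Gamma (1 - s.re / 2) ≤ ‖Real.Gamma (1 - s.re / 2)‖ := le_abs_self _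
    have h6 := le_abs_self G
    linarith
  have hp3 : ‖Complex.sin (π * (s / 2))‖ ≤ Real.exp (π / 2 * |s.im|) := by
    refine (ZB6_sin _).trans (le_of_eq ?_)
    congr 1
    have h3 : ((π : ℂ) * (s / 2)).im = π / 2 * s.im := by
      have : ((π : ℂ) * (s / 2)) = ((π / 2 : ℝ) : ℂ) * s := by
        push_cast
        ring
      rw [this, Complex.im_ofReal_mul]
    rw [h3, abs_mul, abs_of_pos (by positivity)]
  have hp4 : ‖(π : ℂ)‖ = π := by
    rw [Complex.norm_real, Real.norm_eq_abs, abs_of_pos Real.pi_pos]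
  rw [hp4]
  have hG0 : 0 < |G| + 1 := by positivity
  calc ‖((π : ℂ) ^ (-s / 2))⁻¹‖ * (‖Complex.Gamma (1 - s / 2)‖ * ‖Complex.sin (π * (s / 2))‖ / π)
      ≤ π * ((|G| + 1) * Real.exp (π / 2 * |s.im|) / π) := by
        have := Real.pi_pos
        gcongr
    _ = (|G| + 1) * Real.exp (π / 2 * |s.im|) := by
        field_simp

private theorem ZB6_growth : ∃ C : ℝ, 0 < C ∧ ∀ s : ℂ, -(1 / 2) ≤ s.re → s.re ≤ 3 / 2 →
    ‖ZB6_zs s‖ ≤ C * (1 + |s.im|) ^ 2 := by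
  obtain ⟨K, hK0, hK⟩ := ZB6_zeta_bd
  obtain ⟨G, hG0, hG⟩ := ZB6_gamma
  obtain ⟨C1, hC10, hC1⟩ := Pool.Agent.Lib.ZetaCount_helper33.exists_norm_completedRiemannZeta₀_le (-(1 / 2)) (3 / 2)
  set f : ℂ → ℂ := fun s => ZB6_zs s / (s + 2) ^ 2 with hf
  have hs2 : ∀ s : ℂ, -(1 / 2) ≤ s.re → 3 / 2 ≤ ‖s + 2‖ := by
    intro s hs
    have h1 : |(s + 2).re| ≤ ‖s + 2‖ := Complex.abs_re_le_norm _
    have h2 : (s + 2).re = s.re + 2 := by simp
    rw [h2] at h1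
    have h3 := le_abs_self (s.re + 2)
    linarith
  have hs1 : ∀ s : ℂ, -(1 / 2) ≤ s.re → ‖s - 1‖ ≤ 3 * ‖s + 2‖ := by
    intro s hs
    have h1 := hs2 s hs
    have h2 : ‖s - 1‖ ≤ ‖s + 2‖ + ‖(3 : ℂ)‖ := by
      have : s - 1 = (s + 2) - 3 := by ring
      rw [this]
      exact norm_sub_le _ _
    have h3 : ‖(3 : ℂ)‖ = 3 := by simp
    rw [h3] at h2
    linarith
  have hzs : ∀ s : ℂ, s ≠ 1 → ZB6_zs s = (s - 1) * riemannZeta s := by
    intro s hs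
    unfold ZB6_zs
    rw [if_neg hs]
  -- the bound
  obtain ⟨M, hM⟩ : ∃ M : ℝ, M = 3 * K := ⟨_, rfl⟩
  have hea : ∀ z : ℂ, z.re = -(1 / 2) → ‖f z‖ ≤ M := by
    intro z hz
    have h1 : z ≠ 1 := by
      rintro rfl
      norm_num at hz
    have h0 : z ≠ 0 := by
      rintro rfl
      norm_num at hz
    have hzre : z.re < 0 := by
      rw [hz]
      norm_num
    have h2 : z = -1 / 2 + (z.im : ℂ) * I := by
      apply Complex.ext
      · simp
        rw [hz]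
        norm_num
      · simp
    have h3 : ‖chi z‖ = Real.sqrt (1 / 4 + z.im ^ 2) / (2 * π) := by
      conv_lhs => rw [h2]
      exact ZB6_chi_norm z.im
    have h4 := hs2 z hz.ge
    have h5 := hs1 z hz.ge
    have h6 : Real.sqrt (1 / 4 + z.im ^ 2) ≤ ‖z + 2‖ := by
      apply Real.sqrt_le_iff.mpr
      refine ⟨norm_nonneg _, ?_⟩
      rw [Complex.sq_norm, Complex.normSq_apply]
      have a1 : (z + 2).re = z.re + 2 := by simp
      have a2 : (z + 2).im = z.im := by simp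
      rw [a1, a2, hz]
      nlinarith
    have h7 : ‖riemannZeta (1 - z)‖ ≤ K := by
      apply hK
      simp
      rw [hz]
      norm_num
    have h8 : ‖chi z‖ ≤ ‖z + 2‖ := by
      rw [h3, div_le_iff₀ (by positivity)]
      have := Real.pi_gt_three
      nlinarith
    rw [hf]
    show ‖ZB6_zs z / (z + 2) ^ 2‖ ≤ M
    rw [hzs z h1, zeta_chi hzre, norm_div, norm_pow, norm_mul, norm_mul,
      div_le_iff₀ (by positivity), hM]
    calc ‖z - 1‖ * (‖chi z‖ * ‖riemannZeta (1 - z)‖) ≤ (3 * ‖z + 2‖) * (‖z + 2‖ * K) := by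
          gcongr
      _ = 3 * K * ‖z + 2‖ ^ 2 := by ring
  have heb : ∀ z : ℂ, z.re = 3 / 2 → ‖f z‖ ≤ M := by
    intro z hz
    have h1 : z ≠ 1 := by
      rintro rfl
      norm_num at hz
    have h4 := hs2 z (by rw [hz]; norm_num)
    have h5 := hs1 z (by rw [hz]; norm_num)
    have h7 := hK z hz
    show ‖ZB6_zs z / (z + 2) ^ 2‖ ≤ M
    rw [hzs z h1, norm_div, norm_pow, norm_mul, div_le_iff₀ (by positivity), hM]
    calc ‖z - 1‖ * ‖riemannZeta z‖ ≤ (3 * ‖z + 2‖) * K := by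
          gcongr
      _ ≤ 3 * K * ‖z + 2‖ ^ 2 := by
          have : 0 ≤ K * ‖z + 2‖ := by positivity
          nlinarith
  have hfd : DiffContOnCl ℂ f (re ⁻¹' Ioo (-(1 / 2)) (3 / 2)) := by
    apply DifferentiableOn.diffContOnCl
    intro z hz
    have hcl : closure (re ⁻¹' Ioo (-(1 / 2) : ℝ) (3 / 2)) ⊆ re ⁻¹' Icc (-(1 / 2)) (3 / 2) :=
      closure_minimal (preimage_mono Ioo_subset_Icc_self) (isClosed_Icc.preimage Complex.continuous_re)
    have hz' := hcl hz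
    have h4 := hs2 z hz'.1
    have h5 : (z + 2) ^ 2 ≠ 0 := by
      apply pow_ne_zero
      intro h
      rw [h, norm_zero] at h4
      linarith
    exact ((ZB6_differentiable z).div ((differentiableAt_id.add_const 2).pow 2) h5).differentiableWithinAt
  have hB : ∃ c < π / (3 / 2 - -(1 / 2)), ∃ B : ℝ,
      f =O[comap (_root_.abs ∘ im) atTop ⊓ 𝓟 (re ⁻¹' Ioo (-(1 / 2)) (3 / 2))]
        fun z ↦ Real.exp (B * Real.exp (c * |z.im|)) := by
    refine ⟨1, ?_, 2, ?_⟩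
    · have := Real.pi_gt_three
      norm_num
      linarith
    · refine Asymptotics.IsBigO.of_bound (2 * (C1 + 2) * G) ?_
      rw [Filter.eventually_inf_principal]
      have h1 : ∀ᶠ z : ℂ in comap (_root_.abs ∘ im) atTop, (1 : ℝ) ≤ |z.im| :=
        tendsto_comap.eventually_ge_atTop 1
      filter_upwards [h1] with z hz1 hz
      have hz2 : -(1 / 2) < z.re := hz.1
      have hz3 : z.re < 3 / 2 := hz.2
      have him : z.im ≠ 0 := by
        intro h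
        rw [h, abs_zero] at hz1
        linarith
      have h0 : z ≠ 0 := by
        rintro rfl
        exact him rfl
      have hne1 : z ≠ 1 := by
        rintro rfl
        exact him rfl
      have hnz : 1 ≤ ‖z‖ := hz1.trans (Complex.abs_im_le_norm z)
      have hnz1 : 1 ≤ ‖1 - z‖ := by
        have h2 := Complex.abs_im_le_norm (1 - z)
        have h3 : (1 - z).im = -z.im := by simp
        rw [h3, abs_neg] at h2
        linarith
      have hcomp : ‖completedRiemannZeta z‖ ≤ C1 + 2 := by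
        rw [completedRiemannZeta_eq]
        have h2 := hC1 z hz2.le hz3.le
        have h3 : ‖1 / z‖ ≤ 1 := by
          rw [norm_div, norm_one, div_le_one (by linarith)]
          exact hnz
        have h4 : ‖1 / (1 - z)‖ ≤ 1 := by
          rw [norm_div, norm_one, div_le_one (by linarith)]
          exact hnz1
        refine (norm_sub_le _ _).trans ?_
        have h5 := norm_sub_le (completedRiemannZeta₀ z) (1 / z)
        linarith
      have hgam := hG z hz2.le hz3.le him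
      have h4 := hs2 z hz2.le
      have h5 := hs1 z hz2.le
      have hexp : Real.exp (π / 2 * |z.im|) ≤ Real.exp (2 * Real.exp (1 * |z.im|)) := by
        apply Real.exp_le_exp.mpr
        have h6 : |z.im| ≤ Real.exp (1 * |z.im|) := by
          rw [one_mul]
          have := Real.add_one_le_exp |z.im|
          linarith
        have h7 := Real.pi_le_four
        have h8 := abs_nonneg z.im
        nlinarith
      have hx : ‖Real.exp (2 * Real.exp (1 * |z.im|))‖ = Real.exp (2 * Real.exp (1 * |z.im|)) :=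
        Real.norm_of_nonneg (Real.exp_pos _).le
      rw [hx]
      show ‖ZB6_zs z / (z + 2) ^ 2‖ ≤ _
      rw [hzs z hne1, riemannZeta_def_of_ne_zero h0, div_eq_mul_inv (completedRiemannZeta z),
        norm_div, norm_pow, norm_mul, norm_mul, div_le_iff₀ (by positivity)]
      have hE := Real.exp_pos (2 * Real.exp (1 * |z.im|))
      calc ‖z - 1‖ * (‖completedRiemannZeta z‖ * ‖(Complex.Gammaℝ z)⁻¹‖)
          ≤ (3 * ‖z + 2‖) * ((C1 + 2) * (G * Real.exp (2 * Real.exp (1 * |z.im|)))) := by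
            gcongr
            exact hgam.trans (mul_le_mul_of_nonneg_left hexp hG0.le)
        _ ≤ 2 * (C1 + 2) * G * Real.exp (2 * Real.exp (1 * |z.im|)) * ‖z + 2‖ ^ 2 := by
            have h9 : 0 ≤ (C1 + 2) * G * Real.exp (2 * Real.exp (1 * |z.im|)) * ‖z + 2‖ := by
              positivity
            nlinarith
  refine ⟨M * (49 / 4), by rw [hM]; positivity, ?_⟩
  intro s h1 h2
  have h3 := PhragmenLindelof.vertical_strip hfd hB hea heb h1 h2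
  have h4 := hs2 s h1
  have h5 : ‖ZB6_zs s‖ ≤ M * ‖s + 2‖ ^ 2 := by
    have h6 : ‖ZB6_zs s / (s + 2) ^ 2‖ ≤ M := h3
    rw [norm_div, norm_pow, div_le_iff₀ (by positivity)] at h6
    exact h6
  have h6 : ‖s + 2‖ ≤ 7 / 2 * (1 + |s.im|) := by
    have h7 := Complex.norm_le_abs_re_add_abs_im (s + 2)
    have a1 : (s + 2).re = s.re + 2 := by simp
    have a2 : (s + 2).im = s.im := by simp
    rw [a1, a2, abs_of_pos (by linarith)] at h7
    have := abs_nonneg s.im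
    linarith
  have hM0 : 0 ≤ M := by rw [hM]; positivity
  calc ‖ZB6_zs s‖ ≤ M * ‖s + 2‖ ^ 2 := h5
    _ ≤ M * (7 / 2 * (1 + |s.im|)) ^ 2 := by gcongr
    _ = M * (49 / 4) * (1 + |s.im|) ^ 2 := by ring

/-- **ZB6.** Some polynomial bound for `(s-1)ζ(s)` in `-1/4 ≤ Re s ≤ 2`. -/
theorem zeta_strip_bound : ∃ C A : ℝ, 0 < C ∧ 0 < A ∧ ∀ s : ℂ, -(1 / 4) ≤ s.re → s.re ≤ 2 →
    ‖(s - 1) * riemannZeta s‖ ≤ C * (1 + |s.im|) ^ A := by
  obtain ⟨C, hC, hgr⟩ := ZB6_growth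
  obtain ⟨K, hK, hz⟩ := ZB5_zeta (a := 3 / 2) (by norm_num)
  refine ⟨C + K, 2, by linarith, by norm_num, fun s h1 h2 => ?_⟩
  rw [Real.rpow_two]
  have h0 := abs_nonneg s.im
  rcases le_or_gt s.re (3 / 2) with h | h
  · have h3 := hgr s (by linarith) h
    have h4 : ‖(s - 1) * riemannZeta s‖ ≤ ‖ZB6_zs s‖ := by
      unfold ZB6_zs
      by_cases hs : s = 1
      · subst hs
        simp
      · rw [if_neg hs]
    have h5 : 0 ≤ K * (1 + |s.im|) ^ 2 := by positivity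
    calc ‖(s - 1) * riemannZeta s‖ ≤ C * (1 + |s.im|) ^ 2 := h4.trans h3
      _ ≤ (C + K) * (1 + |s.im|) ^ 2 := by linarith
  · rw [norm_mul]
    have h3 := hz s h.le
    have h4 : ‖s - 1‖ ≤ 1 + |s.im| := by
      have h5 := Complex.norm_le_abs_re_add_abs_im (s - 1)
      have a1 : (s - 1).re = s.re - 1 := by simp
      have a2 : (s - 1).im = s.im := by simp
      rw [a1, a2, abs_of_pos (by linarith)] at h5
      linarith
    have h5 : 0 ≤ C * (1 + |s.im|) ^ 2 := by positivity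
    have h6 : 1 + |s.im| ≤ (1 + |s.im|) ^ 2 := by nlinarith
    have h7 : (1 + |s.im|) * K ≤ (1 + |s.im|) ^ 2 * K := mul_le_mul_of_nonneg_right h6 hK.le
    calc ‖s - 1‖ * ‖riemannZeta s‖ ≤ (1 + |s.im|) * K := by gcongr
      _ ≤ (C + K) * (1 + |s.im|) ^ 2 := by linarith
--END ZB6

/-! ### The Gaussian formula -/

--BEGIN ZC1
/-- The substitution `x = y e^v`. -/
private theorem ZC1_subst {y : ℝ} (hy : 0 < y) (g : ℝ → ℂ) :
    (IntegrableOn g (Ioi 0) ↔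
      Integrable (fun v : ℝ => ((y * Real.exp v : ℝ) : ℂ) * g (y * Real.exp v))) ∧
    ∫ x in Ioi (0 : ℝ), g x = ∫ v : ℝ, ((y * Real.exp v : ℝ) : ℂ) * g (y * Real.exp v) := by
  have himg : (fun v : ℝ => y * Real.exp v) '' univ = Ioi 0 := by
    ext x
    simp only [mem_image, mem_univ, true_and, mem_Ioi]
    constructor
    · rintro ⟨v, rfl⟩
      positivity
    · intro hx
      refine ⟨Real.log (x / y), ?_⟩
      rw [Real.exp_log (by positivity)]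
      field_simp
  have hd : ∀ v ∈ (univ : Set ℝ),
      HasDerivWithinAt (fun v => y * Real.exp v) (y * Real.exp v) univ v :=
    fun v _ => ((Real.hasDerivAt_exp v).const_mul y).hasDerivWithinAt
  have hinj : InjOn (fun v : ℝ => y * Real.exp v) univ := by
    intro a _ b _ h
    exact Real.exp_injective (mul_left_cancel₀ hy.ne' h)
  have h1 := integrableOn_image_iff_integrableOn_abs_deriv_smul MeasurableSet.univ hd hinj g
  have h2 := integral_image_eq_integral_abs_deriv_smul MeasurableSet.univ hd hinj g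
  have h3 : ∀ v : ℝ, |y * Real.exp v| • g (y * Real.exp v) =
      ((y * Real.exp v : ℝ) : ℂ) * g (y * Real.exp v) := by
    intro v
    rw [abs_of_pos (by positivity), Complex.real_smul]
  rw [himg] at h1 h2
  simp only [h3] at h1 h2
  rw [integrableOn_univ] at h1
  rw [setIntegral_univ] at h2
  exact ⟨h1, h2⟩

private theorem ZC1_point {y : ℝ} (hy : 0 < y) (Y β τ v : ℝ) (s : ℂ) :
    ((y * Real.exp v : ℝ) : ℂ) * (((((y * Real.exp v) ^ (β - 1) *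
      Real.exp (-(Real.log ((y * Real.exp v) / y)) ^ 2 / (2 * Y ^ 2)) : ℝ) : ℂ) *
      cexp (I * τ * Real.log ((y * Real.exp v) / y))) * ((y * Real.exp v : ℝ) : ℂ) ^ s) =
    (y : ℂ) ^ (s + β) * cexp (-(1 / (2 * (Y : ℂ) ^ 2)) * (v : ℂ) ^ 2 + (s + β + I * τ) * v + 0) := by
  have hyc : (y : ℂ) ≠ 0 := by exact_mod_cast hy.ne'
  have hL : Real.log ((y * Real.exp v) / y) = v := by
    rw [mul_div_cancel_left₀ _ hy.ne', Real.log_exp]
  have hpos : 0 < y * Real.exp v := by positivity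
  have hl2 : Real.log (y * Real.exp v) = Real.log y + v := by
    rw [Real.log_mul hy.ne' (Real.exp_pos v).ne', Real.log_exp]
  have hx : ((y * Real.exp v : ℝ) : ℂ) = cexp ((Real.log y : ℂ) + v) := by
    rw [← Complex.ofReal_add, ← Complex.ofReal_exp, ← hl2, Real.exp_log hpos]
  have hp : (((y * Real.exp v) ^ (β - 1) : ℝ) : ℂ) =
      cexp (((Real.log y : ℂ) + v) * (β - 1)) := by
    rw [Real.rpow_def_of_pos hpos, hl2]
    push_cast
    rfl
  have hs : ((y * Real.exp v : ℝ) : ℂ) ^ s = cexp (((Real.log y : ℂ) + v) * s) := by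
    rw [Complex.cpow_def_of_ne_zero (by exact_mod_cast hpos.ne'), ← Complex.ofReal_log hpos.le, hl2]
    push_cast
    rfl
  have hys : (y : ℂ) ^ (s + β) = cexp ((Real.log y : ℂ) * (s + β)) := by
    rw [Complex.cpow_def_of_ne_zero hyc, ← Complex.ofReal_log hy.le]
  rw [hs, hL, Complex.ofReal_mul ((y * Real.exp v) ^ (β - 1)), hp, hx, hys, Complex.ofReal_exp]
  rw [← Complex.exp_add, ← Complex.exp_add, ← Complex.exp_add, ← Complex.exp_add,
    ← Complex.exp_add]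
  congr 1
  push_cast
  ring

private theorem ZC1_const {Y : ℝ} (hY : 0 < Y) :
    (π / -(-(1 / (2 * (Y : ℂ) ^ 2)))) ^ (1 / 2 : ℂ) = ((√(2 * π) * Y : ℝ) : ℂ) := by
  have hYc : (Y : ℂ) ≠ 0 := by exact_mod_cast hY.ne'
  have h1 : (π / -(-(1 / (2 * (Y : ℂ) ^ 2))) : ℂ) = ((2 * π * Y ^ 2 : ℝ) : ℂ) := by
    push_cast
    field_simp
  have h2 : (1 / 2 : ℂ) = ((1 / 2 : ℝ) : ℂ) := by push_cast; ring
  rw [h1, h2, ← Complex.ofReal_cpow (by positivity), ← Real.sqrt_eq_rpow,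
    Real.sqrt_mul (by positivity), Real.sqrt_sq hY.le]

/-- **ZC1.** The Mellin transform of the Gaussian window. -/
theorem gauss_mellin {y Y : ℝ} (hy : 0 < y) (hY : 0 < Y) (β τ : ℝ) (s : ℂ) :
    IntegrableOn (fun x : ℝ => ((x ^ (β - 1) *
      Real.exp (-(Real.log (x / y)) ^ 2 / (2 * Y ^ 2)) : ℝ) : ℂ) * cexp (I * τ * Real.log (x / y)) *
      (x : ℂ) ^ s) (Ioi 0) ∧
    ∫ x in Ioi (0 : ℝ), ((x ^ (β - 1) *
      Real.exp (-(Real.log (x / y)) ^ 2 / (2 * Y ^ 2)) : ℝ) : ℂ) * cexp (I * τ * Real.log (x / y)) *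
      (x : ℂ) ^ s =
    (√(2 * π) * Y : ℝ) * (y : ℂ) ^ (s + β) * cexp ((Y : ℂ) ^ 2 * (s + β + I * τ) ^ 2 / 2) := by
  have hYc : (Y : ℂ) ≠ 0 := by exact_mod_cast hY.ne'
  obtain ⟨h1, h2⟩ := ZC1_subst hy (fun x : ℝ => ((x ^ (β - 1) *
      Real.exp (-(Real.log (x / y)) ^ 2 / (2 * Y ^ 2)) : ℝ) : ℂ) * cexp (I * τ * Real.log (x / y)) *
      (x : ℂ) ^ s)
  simp only [ZC1_point hy Y β τ _ s] at h1 h2
  have hb : (-(1 / (2 * (Y : ℂ) ^ 2))).re < 0 := by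
    have h3 : (-(1 / (2 * (Y : ℂ) ^ 2))) = ((-(1 / (2 * Y ^ 2)) : ℝ) : ℂ) := by push_cast; ring
    rw [h3, Complex.ofReal_re]
    have : 0 < 1 / (2 * Y ^ 2) := by positivity
    linarith
  refine ⟨h1.2 ((integrable_cexp_quadratic' hb _ _).const_mul _), ?_⟩
  rw [h2, integral_const_mul, integral_cexp_quadratic hb, ZC1_const hY]
  have h4 : (0 : ℂ) - (s + β + I * τ) ^ 2 / (4 * -(1 / (2 * (Y : ℂ) ^ 2))) =
      (Y : ℂ) ^ 2 * (s + β + I * τ) ^ 2 / 2 := by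
    field_simp
    ring
  rw [h4]
  ring
--END ZC1

--BEGIN ZC2
private noncomputable def ZC2_G (y Y β τ t : ℝ) : ℂ :=
  (√(2 * π) * Y : ℝ) * (y : ℂ) ^ (2 + t * I + β : ℂ) *
      cexp ((Y : ℂ) ^ 2 * (2 + t * I + β + I * τ) ^ 2 / 2)

private theorem ZC2_pt {y : ℝ} (hy : 0 < y) (Y β τ t L : ℝ) :
    ZC2_G y Y β τ t * cexp (-(2 + t * I) * L) = ((√(2 * π) * Y : ℝ) : ℂ) *
      cexp (-((Y : ℂ) ^ 2 / 2) * (t : ℂ) ^ 2 +
        I * (Real.log y + (Y : ℂ) ^ 2 * (2 + β + I * τ) - L) * t +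
        (Real.log y * (2 + β) + (Y : ℂ) ^ 2 * (2 + β + I * τ) ^ 2 / 2 - 2 * L)) := by
  have hyc : (y : ℂ) ≠ 0 := by exact_mod_cast hy.ne'
  unfold ZC2_G
  rw [Complex.cpow_def_of_ne_zero hyc, ← Complex.ofReal_log hy.le, mul_assoc, mul_assoc,
    ← Complex.exp_add, ← Complex.exp_add]
  congr 2
  linear_combination ((Y : ℂ) ^ 2 * (t : ℂ) ^ 2 / 2) * Complex.I_sq

private theorem ZC2_inv {y Y : ℝ} (hy : 0 < y) (hY : 0 < Y) (β τ L : ℝ) :
    Integrable (fun t : ℝ => ZC2_G y Y β τ t * cexp (-(2 + t * I) * L)) ∧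
    ∫ t : ℝ, ZC2_G y Y β τ t * cexp (-(2 + t * I) * L) =
      (2 * π : ℂ) * cexp (β * L - ((L : ℂ) - Real.log y) ^ 2 / (2 * Y ^ 2) +
        I * τ * (L - Real.log y)) := by
  have hYc : (Y : ℂ) ≠ 0 := by exact_mod_cast hY.ne'
  have hb : (-((Y : ℂ) ^ 2 / 2)).re < 0 := by
    have h3 : (-((Y : ℂ) ^ 2 / 2)) = ((-(Y ^ 2 / 2) : ℝ) : ℂ) := by push_cast; ring
    rw [h3, Complex.ofReal_re]
    have : 0 < Y ^ 2 / 2 := by positivity
    linarith
  simp only [ZC2_pt hy Y β τ _ L]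
  refine ⟨(integrable_cexp_quadratic' hb _ _).const_mul _, ?_⟩
  rw [integral_const_mul, integral_cexp_quadratic hb]
  have h1 : (π / -(-((Y : ℂ) ^ 2 / 2))) ^ (1 / 2 : ℂ) = ((√(2 * π) / Y : ℝ) : ℂ) := by
    have h2 : (π / -(-((Y : ℂ) ^ 2 / 2)) : ℂ) = ((2 * π / Y ^ 2 : ℝ) : ℂ) := by
      push_cast
      field_simp
    have h3 : (1 / 2 : ℂ) = ((1 / 2 : ℝ) : ℂ) := by push_cast; ring
    rw [h2, h3, ← Complex.ofReal_cpow (by positivity), ← Real.sqrt_eq_rpow,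
      Real.sqrt_div (by positivity), Real.sqrt_sq hY.le]
  rw [h1, ← mul_assoc, ← Complex.ofReal_mul]
  have h4 : √(2 * π) * Y * (√(2 * π) / Y) = 2 * π := by
    have h5 := Real.mul_self_sqrt (show 0 ≤ 2 * π by positivity)
    field_simp
    nlinarith
  have h6 : (I * ((Real.log y : ℂ) + (Y : ℂ) ^ 2 * (2 + β + I * τ) - L)) ^ 2 =
      -((Real.log y : ℂ) + (Y : ℂ) ^ 2 * (2 + β + I * τ) - L) ^ 2 := by
    rw [mul_pow, Complex.I_sq]
    ring
  rw [h4, h6]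
  push_cast
  congr 2
  field_simp
  ring

private theorem ZC2_g {y : ℝ} (hy : 0 < y) (Y β τ L : ℝ) :
    ((Real.exp L : ℝ) : ℂ) * ((((Real.exp L) ^ (β - 1) *
      Real.exp (-(Real.log (Real.exp L / y)) ^ 2 / (2 * Y ^ 2)) : ℝ) : ℂ) *
      cexp (I * τ * Real.log (Real.exp L / y))) =
    cexp (β * L - ((L : ℂ) - Real.log y) ^ 2 / (2 * Y ^ 2) + I * τ * (L - Real.log y)) := by
  have hL : Real.log (Real.exp L / y) = L - Real.log y := by
    rw [Real.log_div (Real.exp_pos L).ne' hy.ne', Real.log_exp]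
  have hp : (Real.exp L) ^ (β - 1) = Real.exp (L * (β - 1)) := by
    rw [← Real.exp_mul]
  rw [hL, hp, Complex.ofReal_mul, Complex.ofReal_exp, Complex.ofReal_exp, Complex.ofReal_exp,
    ← Complex.exp_add, ← Complex.exp_add, ← Complex.exp_add]
  congr 1
  push_cast
  ring

/-- **ZC2.** The tail integral of the window by Mellin inversion on `Re s = 2`. -/
theorem gauss_tail {y Y : ℝ} (hy : 0 < y) (hY : 0 < Y) (β τ : ℝ) {u : ℝ} (hu : 0 < u) :
    ∫ x in Ioi u, ((x ^ (β - 1) *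
      Real.exp (-(Real.log (x / y)) ^ 2 / (2 * Y ^ 2)) : ℝ) : ℂ) * cexp (I * τ * Real.log (x / y)) =
    (1 / (2 * π) : ℂ) * ∫ t : ℝ, (√(2 * π) * Y : ℝ) * (y : ℂ) ^ (2 + t * I + β : ℂ) *
      cexp ((Y : ℂ) ^ 2 * (2 + t * I + β + I * τ) ^ 2 / 2) / (2 + t * I) *
      (u : ℂ) ^ (-(2 + t * I : ℂ)) := by
  have huc : (u : ℂ) ≠ 0 := by exact_mod_cast hu.ne'
  -- the left side
  have himg : (fun w : ℝ => Real.exp (Real.log u + w)) '' Ioi 0 = Ioi u := by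
    ext x
    simp only [mem_image, mem_Ioi]
    constructor
    · rintro ⟨w, hw, rfl⟩
      rw [Real.exp_add, Real.exp_log hu]
      have := Real.one_lt_exp_iff.2 hw
      nlinarith
    · intro hx
      have hx0 : 0 < x := hu.trans hx
      refine ⟨Real.log x - Real.log u, ?_, ?_⟩
      · have := Real.log_lt_log hu hx
        linarith
      · rw [add_sub_cancel, Real.exp_log hx0]
  have hd : ∀ w ∈ Ioi (0 : ℝ), HasDerivWithinAt (fun w => Real.exp (Real.log u + w))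
      (Real.exp (Real.log u + w)) (Ioi 0) w := by
    intro w _
    have h1 := ((hasDerivAt_id w).const_add (Real.log u)).exp
    simp only [mul_one, id] at h1
    exact h1.hasDerivWithinAt
  have hinj : InjOn (fun w : ℝ => Real.exp (Real.log u + w)) (Ioi 0) := by
    intro a _ b _ h
    exact add_left_cancel (Real.exp_injective h)
  have h2 := integral_image_eq_integral_abs_deriv_smul measurableSet_Ioi hd hinj
    (fun x : ℝ => ((x ^ (β - 1) *
      Real.exp (-(Real.log (x / y)) ^ 2 / (2 * Y ^ 2)) : ℝ) : ℂ) * cexp (I * τ * Real.log (x / y)))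
  rw [himg] at h2
  have h3 : ∀ w : ℝ, |Real.exp (Real.log u + w)| • (((Real.exp (Real.log u + w) ^ (β - 1) *
      Real.exp (-(Real.log (Real.exp (Real.log u + w) / y)) ^ 2 / (2 * Y ^ 2)) : ℝ) : ℂ) *
      cexp (I * τ * Real.log (Real.exp (Real.log u + w) / y))) =
      cexp (β * ((Real.log u + w : ℝ) : ℂ) -
        (((Real.log u + w : ℝ) : ℂ) - Real.log y) ^ 2 / (2 * Y ^ 2) +
        I * τ * (((Real.log u + w : ℝ) : ℂ) - Real.log y)) := by
    intro w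
    rw [Real.abs_exp, Complex.real_smul]
    exact ZC2_g hy Y β τ (Real.log u + w)
  simp only [h3] at h2
  rw [h2]
  -- the right side
  have hre : ∀ t : ℝ, (-(2 + t * I : ℂ)).re < 0 := by
    intro t
    simp
  have hne : ∀ t : ℝ, (2 + t * I : ℂ) ≠ 0 := by
    intro t h
    have := congrArg Complex.re h
    simp at this
  have h4 : ∀ t : ℝ, (√(2 * π) * Y : ℝ) * (y : ℂ) ^ (2 + t * I + β : ℂ) *
      cexp ((Y : ℂ) ^ 2 * (2 + t * I + β + I * τ) ^ 2 / 2) / (2 + t * I) *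
      (u : ℂ) ^ (-(2 + t * I : ℂ)) =
      ∫ w in Ioi (0 : ℝ), ZC2_G y Y β τ t * cexp (-(2 + t * I) * ((Real.log u + w : ℝ) : ℂ)) := by
    intro t
    have h5 : ∀ w : ℝ, ZC2_G y Y β τ t * cexp (-(2 + t * I) * ((Real.log u + w : ℝ) : ℂ)) =
        ZC2_G y Y β τ t * cexp (-(2 + t * I) * Real.log u) * cexp (-(2 + t * I) * w) := by
      intro w
      rw [mul_assoc, ← Complex.exp_add]
      congr 2
      push_cast
      ring
    simp only [h5]
    rw [integral_const_mul, integral_exp_mul_complex_Ioi (hre t), Complex.ofReal_zero, mul_zero,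
      Complex.exp_zero, Complex.cpow_def_of_ne_zero huc, ← Complex.ofReal_log hu.le]
    unfold ZC2_G
    have h6 := hne t
    have h7 : -(1 : ℂ) / -(2 + t * I) = 1 / (2 + t * I) := neg_div_neg_eq _ _
    rw [h7, mul_comm ((Real.log u : ℂ)) _]
    ring
  simp only [h4]
  have hG := (ZC2_inv hy hY β τ 0).1
  have hG' : Integrable (fun t : ℝ => ZC2_G y Y β τ t) := by
    simpa using hG
  have hcont : Continuous (fun t : ℝ => ZC2_G y Y β τ t) := by
    have h5 : (fun t : ℝ => ZC2_G y Y β τ t) =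
        fun t : ℝ => ZC2_G y Y β τ t * cexp (-(2 + t * I) * ((0 : ℝ) : ℂ)) := by
      funext t
      simp
    rw [h5]
    simp only [ZC2_pt hy Y β τ _ 0]
    fun_prop
  have hint : Integrable (Function.uncurry fun (t : ℝ) (w : ℝ) =>
      ZC2_G y Y β τ t * cexp (-(2 + t * I) * ((Real.log u + w : ℝ) : ℂ)))
      (volume.prod (volume.restrict (Ioi (0 : ℝ)))) := by
    have h5 : IntegrableOn (fun w : ℝ => Real.exp (-2 * Real.log u) * Real.exp (-2 * w))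
        (Ioi 0) := (integrableOn_exp_mul_Ioi (by norm_num) 0).const_mul _
    refine Integrable.mono' (hG'.norm.mul_prod h5) ?_ ?_
    · refine Continuous.aestronglyMeasurable ?_
      have h6 : Continuous (fun z : ℝ × ℝ => ZC2_G y Y β τ z.1) := hcont.comp continuous_fst
      have h7 : Continuous (fun z : ℝ × ℝ =>
          cexp (-(2 + (z.1 : ℂ) * I) * ((Real.log u + z.2 : ℝ) : ℂ))) := by
        fun_prop
      exact h6.mul h7
    · refine Filter.Eventually.of_forall fun z => ?_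
      simp only [Function.uncurry]
      rw [norm_mul, Complex.norm_exp, ← Real.exp_add]
      have h6 : (-(2 + (z.1 : ℂ) * I) * ((Real.log u + z.2 : ℝ) : ℂ)).re =
          -2 * Real.log u + -2 * z.2 := by
        rw [Complex.re_mul_ofReal]
        simp
        ring
      rw [h6]
  rw [integral_integral_swap hint]
  simp only [(ZC2_inv hy hY β τ _).2]
  rw [integral_const_mul, ← mul_assoc]
  have hpi : (π : ℂ) ≠ 0 := by exact_mod_cast Real.pi_ne_zero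
  have h5 : (1 / (2 * π) : ℂ) * (2 * π) = 1 := by field_simp
  rw [h5, one_mul]
--END ZC2

--BEGIN ZC3
private theorem ZC3_dec (M : ℝ) {Y : ℝ} (hY : 0 < Y) (τ : ℝ) : ∃ C : ℝ, 0 < C ∧ ∀ t : ℝ,
    (1 + |t|) ^ M * Real.exp (-(Y ^ 2 * (t + τ) ^ 2 / 2)) ≤ C := by
  set N := ⌈M⌉₊ with hN
  refine ⟨N.factorial * Real.exp (1 + |τ| + 1 / (2 * Y ^ 2)), by positivity, fun t => ?_⟩
  have ht0 := abs_nonneg t
  have h1 : (1 + |t|) ^ M ≤ (1 + |t|) ^ N := by
    rw [← Real.rpow_natCast]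
    exact Real.rpow_le_rpow_of_exponent_le (by linarith) (Nat.le_ceil M)
  have h2 : (1 + |t|) ^ N ≤ N.factorial * Real.exp (1 + |t|) := by
    have h3 := Real.pow_div_factorial_le_exp (x := 1 + |t|) (by linarith) N
    rw [div_le_iff₀ (by positivity)] at h3
    linarith
  have h3 : |t| ≤ |t + τ| + |τ| := by
    have := abs_sub (t + τ) τ
    rw [add_sub_cancel_right] at this
    exact this
  have h4 : |t + τ| - Y ^ 2 * (t + τ) ^ 2 / 2 ≤ 1 / (2 * Y ^ 2) := by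
    rw [← sq_abs (t + τ)]
    have h5 : 0 ≤ (Y ^ 2 * |t + τ| - 1) ^ 2 := sq_nonneg _
    rw [le_div_iff₀ (by positivity)]
    nlinarith
  calc (1 + |t|) ^ M * Real.exp (-(Y ^ 2 * (t + τ) ^ 2 / 2))
      ≤ (N.factorial * Real.exp (1 + |t|)) * Real.exp (-(Y ^ 2 * (t + τ) ^ 2 / 2)) :=
        mul_le_mul_of_nonneg_right (h1.trans h2) (Real.exp_pos _).le
    _ = N.factorial * Real.exp (1 + |t| - Y ^ 2 * (t + τ) ^ 2 / 2) := by
        rw [mul_assoc, ← Real.exp_add]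
        congr 2
    _ ≤ N.factorial * Real.exp (1 + |τ| + 1 / (2 * Y ^ 2)) := by
        refine mul_le_mul_of_nonneg_left (Real.exp_le_exp.2 ?_) (by positivity)
        linarith

private noncomputable def ZC3_E (y Y β τ : ℝ) (s : ℂ) : ℂ :=
  (√(2 * π) * Y : ℝ) * (y : ℂ) ^ (s + β : ℂ) * cexp ((Y : ℂ) ^ 2 * (s + β + I * τ) ^ 2 / 2)

private theorem ZC3_E_norm {y Y : ℝ} (hy : 0 < y) (hY : 0 < Y) (β τ : ℝ) : ∃ C : ℝ, 0 < C ∧
    ∀ s : ℂ, -(1 / 4) ≤ s.re → s.re ≤ 2 →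
      ‖ZC3_E y Y β τ s‖ ≤ C * Real.exp (-(Y ^ 2 * (s.im + τ) ^ 2 / 2)) := by
  refine ⟨√(2 * π) * Y * (y ^ (2 + β) + y ^ (-(1 / 4) + β)) *
    Real.exp (Y ^ 2 * (2 + |β|) ^ 2 / 2), by positivity, fun s h1 h2 => ?_⟩
  unfold ZC3_E
  rw [norm_mul, norm_mul, Complex.norm_real, Real.norm_eq_abs, abs_of_pos (by positivity),
    Complex.norm_cpow_eq_rpow_re_of_pos hy, Complex.norm_exp]
  have e1 : (s + (β : ℂ)).re = s.re + β := by simp
  have e2 : ((Y : ℂ) ^ 2 * (s + β + I * τ) ^ 2 / 2).re =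
      Y ^ 2 * (s.re + β) ^ 2 / 2 + -(Y ^ 2 * (s.im + τ) ^ 2 / 2) := by
    have h3 : ((Y : ℂ) ^ 2 * (s + β + I * τ) ^ 2 / 2) = ((Y ^ 2 / 2 : ℝ) : ℂ) *
        (s + β + I * τ) ^ 2 := by
      push_cast
      ring
    rw [h3, Complex.re_ofReal_mul, sq (s + β + I * τ), Complex.mul_re]
    have h4 : (s + β + I * τ).re = s.re + β := by simp
    have h5 : (s + β + I * τ).im = s.im + τ := by simp
    rw [h4, h5]
    ring
  rw [e1, e2, Real.exp_add]
  have h3 : y ^ (s.re + β) ≤ y ^ (2 + β) + y ^ (-(1 / 4) + β) := by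
    rcases le_or_gt 1 y with h | h
    · have h4 : y ^ (s.re + β) ≤ y ^ (2 + β) :=
        Real.rpow_le_rpow_of_exponent_le h (by linarith)
      have h5 : 0 ≤ y ^ (-(1 / 4) + β) := by positivity
      linarith
    · have h4 : y ^ (s.re + β) ≤ y ^ (-(1 / 4) + β) :=
        Real.rpow_le_rpow_of_exponent_ge hy h.le (by linarith)
      have h5 : 0 ≤ y ^ (2 + β) := by positivity
      linarith
  have h4 : Real.exp (Y ^ 2 * (s.re + β) ^ 2 / 2) ≤ Real.exp (Y ^ 2 * (2 + |β|) ^ 2 / 2) := by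
    apply Real.exp_le_exp.2
    have h5 : |s.re + β| ≤ 2 + |β| := by
      refine (abs_add_le _ _).trans ?_
      have : |s.re| ≤ 2 := by
        rw [abs_le]
        constructor <;> linarith
      linarith
    have h6 : (s.re + β) ^ 2 ≤ (2 + |β|) ^ 2 := by
      rw [← sq_abs (s.re + β)]
      exact pow_le_pow_left₀ (abs_nonneg _) h5 2
    have h7 : 0 < Y ^ 2 := by positivity
    nlinarith
  calc √(2 * π) * Y * y ^ (s.re + β) *
        (Real.exp (Y ^ 2 * (s.re + β) ^ 2 / 2) * Real.exp (-(Y ^ 2 * (s.im + τ) ^ 2 / 2)))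
      ≤ √(2 * π) * Y * (y ^ (2 + β) + y ^ (-(1 / 4) + β)) *
        (Real.exp (Y ^ 2 * (2 + |β|) ^ 2 / 2) * Real.exp (-(Y ^ 2 * (s.im + τ) ^ 2 / 2))) := by
        gcongr
    _ = _ := by ring

/-- **ZC3.** The shift from `2` to `-1/4` for `ζ^k`. -/
theorem zeta_gauss_shift {k : ℕ} (hk : 1 ≤ k) {y Y : ℝ} (hy : 0 < y) (hY : 0 < Y) (β τ : ℝ) :
    (1 / (2 * π) : ℂ) * ∫ t : ℝ, riemannZeta (2 + t * I) ^ k *
      ((√(2 * π) * Y : ℝ) * (y : ℂ) ^ (2 + t * I + β : ℂ) *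
      cexp ((Y : ℂ) ^ 2 * (2 + t * I + β + I * τ) ^ 2 / 2) / (2 + t * I)) =
    (2 * π * I)⁻¹ * (∮ s in C(1, 1 / 2), riemannZeta s ^ k *
      ((√(2 * π) * Y : ℝ) * (y : ℂ) ^ (s + β : ℂ) *
      cexp ((Y : ℂ) ^ 2 * (s + β + I * τ) ^ 2 / 2) / s)) +
    riemannZeta 0 ^ k * ((√(2 * π) * Y : ℝ) * (y : ℂ) ^ (β : ℂ) *
      cexp ((Y : ℂ) ^ 2 * (β + I * τ) ^ 2 / 2)) +
    (1 / (2 * π) : ℂ) * ∫ t : ℝ, riemannZeta (-(1 / 4) + t * I) ^ k *
      ((√(2 * π) * Y : ℝ) * (y : ℂ) ^ (-(1 / 4) + t * I + β : ℂ) *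
      cexp ((Y : ℂ) ^ 2 * (-(1 / 4) + t * I + β + I * τ) ^ 2 / 2) / (-(1 / 4) + t * I)) := by
  have hyc : (y : ℂ) ≠ 0 := by exact_mod_cast hy.ne'
  obtain ⟨C1, A, hC1, hA, hz⟩ := zeta_strip_bound
  obtain ⟨C2, hC2, hE⟩ := ZC3_E_norm hy hY β τ
  obtain ⟨C3, hC3, hdec⟩ := ZC3_dec (A * k + 2) hY τ
  set F : ℂ → ℂ := fun s => riemannZeta s ^ k * (ZC3_E y Y β τ s / s) with hF
  set G : ℂ → ℂ := fun s => ZB6_zs s ^ k * ZC3_E y Y β τ s with hG
  have hEd : ∀ s : ℂ, DifferentiableAt ℂ (ZC3_E y Y β τ) s := by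
    intro s
    unfold ZC3_E
    refine ((differentiableAt_const _).mul ?_).mul ?_
    · exact DifferentiableAt.const_cpow (by fun_prop) (Or.inl hyc)
    · fun_prop
  have hGd : ∀ s : ℂ, -(1 / 4) ≤ s.re → s.re ≤ 2 → DifferentiableAt ℂ G s := fun s _ _ =>
    ((ZB6_differentiable s).pow k).mul (hEd s)
  have hFG : ∀ s : ℂ, s ≠ 0 → s ≠ 1 → F s = G s / (s * (s - 1) ^ k) := by
    intro s h0 h1
    have h2 : (s - 1) ≠ 0 := sub_ne_zero.2 h1
    have h3 : ZB6_zs s = (s - 1) * riemannZeta s := by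
      unfold ZB6_zs
      rw [if_neg h1]
    simp only [hF, hG, h3]
    rw [mul_pow]
    field_simp
  have hb : ∀ s : ℂ, -(1 / 4) ≤ s.re → s.re ≤ 2 → 1 ≤ |s.im| →
      ‖F s‖ ≤ (C1 ^ k * C2 * C3) * |s.im| ^ (-(1 + 1) : ℝ) := by
    intro s h1 h2 h3
    have hs1 : 1 ≤ ‖s‖ := h3.trans (Complex.abs_im_le_norm s)
    have hs2 : 1 ≤ ‖s - 1‖ := by
      have h4 := Complex.abs_im_le_norm (s - 1)
      have h5 : (s - 1).im = s.im := by simp
      rw [h5] at h4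
      linarith
    have h4 : ‖riemannZeta s‖ ≤ C1 * (1 + |s.im|) ^ A := by
      have h5 := hz s h1 h2
      rw [norm_mul] at h5
      have h6 : 1 * ‖riemannZeta s‖ ≤ ‖s - 1‖ * ‖riemannZeta s‖ :=
        mul_le_mul_of_nonneg_right hs2 (norm_nonneg _)
      linarith
    have h5 : ‖riemannZeta s‖ ^ k ≤ C1 ^ k * (1 + |s.im|) ^ (A * k) := by
      calc ‖riemannZeta s‖ ^ k ≤ (C1 * (1 + |s.im|) ^ A) ^ k := by gcongr
        _ = C1 ^ k * (1 + |s.im|) ^ (A * k) := by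
            rw [mul_pow, ← Real.rpow_natCast ((1 + |s.im|) ^ A), ← Real.rpow_mul (by positivity)]
    have h6 : ‖ZC3_E y Y β τ s / s‖ ≤ C2 * Real.exp (-(Y ^ 2 * (s.im + τ) ^ 2 / 2)) := by
      rw [norm_div, div_le_iff₀ (by linarith)]
      have h7 := hE s h1 h2
      have h8 : 0 ≤ C2 * Real.exp (-(Y ^ 2 * (s.im + τ) ^ 2 / 2)) := by positivity
      nlinarith
    have h7 : (1 + |s.im|) ^ (A * k) * Real.exp (-(Y ^ 2 * (s.im + τ) ^ 2 / 2)) ≤
        C3 * |s.im| ^ (-(1 + 1) : ℝ) := by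
      have h8 := hdec s.im
      have him : 0 < |s.im| := by linarith
      have h9 : |s.im| ^ (-(1 + 1) : ℝ) = (|s.im| ^ (2 : ℝ))⁻¹ := by
        rw [← Real.rpow_neg him.le]
        norm_num
      rw [h9, ← div_eq_mul_inv, le_div_iff₀ (by positivity)]
      have h10 : |s.im| ^ (2 : ℝ) ≤ (1 + |s.im|) ^ (2 : ℝ) :=
        Real.rpow_le_rpow him.le (by linarith) (by norm_num)
      calc (1 + |s.im|) ^ (A * k) * Real.exp (-(Y ^ 2 * (s.im + τ) ^ 2 / 2)) * |s.im| ^ (2 : ℝ)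
          ≤ (1 + |s.im|) ^ (A * k) * Real.exp (-(Y ^ 2 * (s.im + τ) ^ 2 / 2)) *
            (1 + |s.im|) ^ (2 : ℝ) := by gcongr
        _ = (1 + |s.im|) ^ (A * k + 2) * Real.exp (-(Y ^ 2 * (s.im + τ) ^ 2 / 2)) := by
            rw [Real.rpow_add (by positivity)]
            ring
        _ ≤ C3 := h8
    simp only [hF]
    rw [norm_mul, norm_pow]
    calc ‖riemannZeta s‖ ^ k * ‖ZC3_E y Y β τ s / s‖
        ≤ (C1 ^ k * (1 + |s.im|) ^ (A * k)) * (C2 * Real.exp (-(Y ^ 2 * (s.im + τ) ^ 2 / 2))) := by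
          gcongr
      _ = C1 ^ k * C2 * ((1 + |s.im|) ^ (A * k) * Real.exp (-(Y ^ 2 * (s.im + τ) ^ 2 / 2))) := by
          ring
      _ ≤ C1 ^ k * C2 * (C3 * |s.im| ^ (-(1 + 1) : ℝ)) := by gcongr
      _ = _ := by ring
  obtain ⟨-, -, hsh⟩ := shift_poles (F := F) (G := G) (σ1 := -(1 / 4)) (σ2 := 2) k (by norm_num)
    (by norm_num) one_pos hGd hFG hb
  have hG0 : G 0 / (-1) ^ k = riemannZeta 0 ^ k * ((√(2 * π) * Y : ℝ) * (y : ℂ) ^ (β : ℂ) *
      cexp ((Y : ℂ) ^ 2 * (β + I * τ) ^ 2 / 2)) := by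
    have h1 : ZB6_zs 0 = -1 * riemannZeta 0 := by
      unfold ZB6_zs
      rw [if_neg (by norm_num)]
      ring
    have h2 : ((-1 : ℂ)) ^ k ≠ 0 := pow_ne_zero k (by norm_num)
    simp only [hG, h1, ZC3_E, zero_add]
    rw [mul_pow]
    field_simp
  rw [hG0] at hsh
  simp only [hF, ZC3_E] at hsh
  have hc2 : ((2 : ℝ) : ℂ) = 2 := by norm_num
  have hc4 : ((-(1 / 4) : ℝ) : ℂ) = -(1 / 4) := by push_cast; ring
  rw [hc2, hc4] at hsh
  exact hsh
--END ZC3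

--BEGIN ZC4
private theorem ZC4_real {f : ℂ → ℂ} (hf : ∀ s, f (conj s) = conj (f s)) :
    ((((2 * π * I)⁻¹ * ∮ s in C(1, 1 / 2), f s).re : ℝ) : ℂ) =
      (2 * π * I)⁻¹ * ∮ s in C(1, 1 / 2), f s := by
  have hpi : (π : ℂ) ≠ 0 := by exact_mod_cast Real.pi_ne_zero
  set φ : ℝ → ℂ := fun θ => (1 / 2 : ℂ) * cexp (θ * I) * f (1 + (1 / 2 : ℂ) * cexp (θ * I)) with hφ
  have hc : ∀ θ : ℝ, circleMap 1 (1 / 2) θ = 1 + (1 / 2 : ℂ) * cexp (θ * I) := by
    intro θ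
    rw [circleMap]
    push_cast
    ring
  have h1 : (∮ s in C(1, 1 / 2), f s) = I * ∫ θ in (0 : ℝ)..2 * π, φ θ := by
    rw [circleIntegral, ← intervalIntegral.integral_const_mul]
    congr 1
    funext θ
    rw [deriv_circleMap, hc, hφ, smul_eq_mul, circleMap]
    push_cast
    ring
  have h2 : (2 * π * I)⁻¹ * (∮ s in C(1, 1 / 2), f s) =
      (2 * π : ℂ)⁻¹ * ∫ θ in (0 : ℝ)..2 * π, φ θ := by
    rw [h1]
    field_simp
  rw [h2, ← Complex.conj_eq_iff_re]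
  have h3 : ∀ θ : ℝ, conj (φ θ) = φ (2 * π - θ) := by
    intro θ
    have h4 : conj (cexp (θ * I)) = cexp (((2 * π - θ : ℝ) : ℂ) * I) := by
      rw [← Complex.exp_conj, map_mul, Complex.conj_ofReal, Complex.conj_I]
      have h5 : ((2 * π - θ : ℝ) : ℂ) * I = (θ : ℂ) * -I + 2 * π * I := by
        push_cast
        ring
      rw [h5, Complex.exp_periodic]
    have h6 : conj (1 / 2 : ℂ) = 1 / 2 := by
      rw [map_div₀, map_one, Complex.conj_ofNat]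
    simp only [hφ]
    rw [map_mul, map_mul, h6, h4, ← hf, map_add, map_mul, map_one, h6, h4]
  have h5 : conj (∫ θ in (0 : ℝ)..2 * π, φ θ) = ∫ θ in (0 : ℝ)..2 * π, φ θ := by
    rw [intervalIntegral.integral_of_le Real.two_pi_pos.le, ← integral_conj,
      ← intervalIntegral.integral_of_le Real.two_pi_pos.le]
    simp only [h3]
    rw [intervalIntegral.integral_comp_sub_left φ (2 * π), sub_zero, sub_self,
      intervalIntegral.integral_of_le Real.two_pi_pos.le]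
  rw [map_mul, h5]
  congr 1
  rw [map_inv₀, map_mul, Complex.conj_ofReal, Complex.conj_ofNat]

private noncomputable def ZC4_g (y Y β τ x : ℝ) : ℂ :=
  ((x ^ (β - 1) * Real.exp (-(Real.log (x / y)) ^ 2 / (2 * Y ^ 2)) : ℝ) : ℂ) *
    cexp (I * τ * Real.log (x / y))

private theorem ZC4_g_meas (y Y β τ : ℝ) : Measurable (ZC4_g y Y β τ) := by
  unfold ZC4_g
  fun_prop

private theorem ZC4_g_int {y Y : ℝ} (hy : 0 < y) (hY : 0 < Y) (β τ : ℝ) (s : ℂ) :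
    IntegrableOn (fun x : ℝ => ZC4_g y Y β τ x * (x : ℂ) ^ s) (Ioi 0) :=
  (gauss_mellin hy hY β τ s).1

private theorem ZC4_g_int0 {y Y : ℝ} (hy : 0 < y) (hY : 0 < Y) (β τ : ℝ) :
    IntegrableOn (ZC4_g y Y β τ) (Ioi 0) := by
  have h := ZC4_g_int hy hY β τ 0
  simpa using h

private theorem ZC4_term (k n : ℕ) (s : ℂ) (hs : s ≠ 0) :
    LSeries.term (fun n => (dk k n : ℂ)) s n = (dk k n : ℂ) * (n : ℂ) ^ (-s) := by
  rcases Nat.eq_zero_or_pos n with h | h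
  · subst h
    rw [LSeries.term_zero, Nat.cast_zero, Complex.zero_cpow (neg_ne_zero.2 hs), mul_zero]
  · rw [LSeries.term_of_ne_zero h.ne', Complex.cpow_neg, div_eq_mul_inv]

/-- The sum side. -/
private theorem ZC4_sum (k : ℕ) {y Y : ℝ} (hy : 0 < y) (hY : 0 < Y) (β τ : ℝ) :
    ∫ x in Ioi (0 : ℝ), ((∑ n ∈ Finset.Icc 1 ⌊x⌋₊, dk k n : ℝ) : ℂ) * ZC4_g y Y β τ x =
      (1 / (2 * π) : ℂ) * ∫ t : ℝ, riemannZeta (2 + t * I) ^ k *
        (ZC3_E y Y β τ (2 + t * I) / (2 + t * I)) := by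
  set g := ZC4_g y Y β τ with hg
  have hd0 : dk k 0 = 0 := by
    unfold dk
    rw [ArithmeticFunction.map_zero, Nat.cast_zero]
  have hdn : ∀ n, 0 ≤ dk k n := fun n => by
    unfold dk
    exact Nat.cast_nonneg _
  obtain ⟨hsum2, -⟩ := zeta_pow_series k (s := 2) (by norm_num)
  have hterm : ∀ n, ‖LSeries.term (fun n => (dk k n : ℂ)) 2 n‖ = dk k n / (n : ℝ) ^ 2 := by
    intro n
    rw [LSeries.norm_term_eq]
    rcases Nat.eq_zero_or_pos n with h | h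
    · subst h
      rw [if_pos rfl, hd0]
      simp
    · rw [if_neg h.ne', Complex.norm_real, Real.norm_eq_abs, abs_of_nonneg (hdn n)]
      norm_num
  have hS : Summable fun n : ℕ => dk k n / (n : ℝ) ^ 2 := by
    have h := hsum2.norm
    simp only [hterm] at h
    exact h
  -- first interchange
  set h : ℕ → ℝ → ℂ := fun n => (Ici (n : ℝ)).indicator fun x => (dk k n : ℂ) * g x with hh
  have hgi := ZC4_g_int0 hy hY β τ
  have hhint : ∀ n, Integrable (h n) (volume.restrict (Ioi 0)) := fun n =>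
    (hgi.const_mul _).indicator measurableSet_Ici
  set K : ℝ := ∫ x in Ioi (0 : ℝ), ‖g x * (x : ℂ) ^ (2 : ℂ)‖ with hK
  have hhb : ∀ n, ∫ x in Ioi (0 : ℝ), ‖h n x‖ ≤ dk k n / (n : ℝ) ^ 2 * K := by
    intro n
    rw [hK, ← integral_const_mul]
    refine setIntegral_mono_on (hhint n).norm ((ZC4_g_int hy hY β τ 2).norm.const_mul _)
      measurableSet_Ioi ?_
    intro x hx
    have hx0 : (0 : ℝ) < x := hx
    have hr : 0 ≤ dk k n / (n : ℝ) ^ 2 * ‖g x * (x : ℂ) ^ (2 : ℂ)‖ :=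
      mul_nonneg (div_nonneg (hdn n) (by positivity)) (norm_nonneg _)
    simp only [hh]
    by_cases hxn : x ∈ Ici (n : ℝ)
    · rw [indicator_of_mem hxn, norm_mul, Complex.norm_real, Real.norm_eq_abs,
        abs_of_nonneg (hdn n)]
      rcases Nat.eq_zero_or_pos n with h0 | h0
      · subst h0
        rw [hd0]
        simp
      · have hn1 : (0 : ℝ) < n := by exact_mod_cast h0
        have hxn' : (n : ℝ) ≤ x := hxn
        have h2 : ‖(x : ℂ) ^ (2 : ℂ)‖ = x ^ 2 := by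
          rw [Complex.norm_cpow_eq_rpow_re_of_pos hx0]
          norm_num
        rw [norm_mul, h2]
        have h3 : (1 : ℝ) ≤ x ^ 2 / (n : ℝ) ^ 2 := by
          rw [one_le_div (by positivity)]
          exact pow_le_pow_left₀ hn1.le hxn' 2
        have h4 : 0 ≤ dk k n * ‖g x‖ := mul_nonneg (hdn n) (norm_nonneg _)
        calc dk k n * ‖g x‖ ≤ dk k n * ‖g x‖ * (x ^ 2 / (n : ℝ) ^ 2) := by nlinarith
          _ = dk k n / (n : ℝ) ^ 2 * (‖g x‖ * x ^ 2) := by ring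
    · rw [indicator_of_notMem hxn, norm_zero]
      exact hr
  have hsum1 : Summable fun n => ∫ x in Ioi (0 : ℝ), ‖h n x‖ :=
    Summable.of_nonneg_of_le (fun n => integral_nonneg fun x => norm_nonneg _) hhb
      (hS.mul_right K)
  have hs1 := hasSum_integral_of_summable_integral_norm hhint hsum1
  have hts : ∀ x ∈ Ioi (0 : ℝ), ∑' n, h n x =
      ((∑ n ∈ Finset.Icc 1 ⌊x⌋₊, dk k n : ℝ) : ℂ) * g x := by
    intro x hx
    have hx0 : (0 : ℝ) < x := hx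
    rw [tsum_eq_sum (s := Finset.Icc 1 ⌊x⌋₊)]
    · push_cast
      rw [Finset.sum_mul]
      refine Finset.sum_congr rfl fun n hn => ?_
      rw [Finset.mem_Icc] at hn
      have hnx : (n : ℝ) ≤ x := (Nat.le_floor_iff hx0.le).1 hn.2
      simp only [hh]
      rw [indicator_of_mem (show x ∈ Ici (n : ℝ) from hnx)]
    · intro n hn
      simp only [hh]
      rcases Nat.eq_zero_or_pos n with h0 | h0
      · subst h0
        rw [hd0]
        simp
      · refine indicator_of_notMem ?_ _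
        intro hxn
        apply hn
        rw [Finset.mem_Icc]
        exact ⟨h0, (Nat.le_floor_iff hx0.le).2 hxn⟩
  rw [setIntegral_congr_fun measurableSet_Ioi hts] at hs1
  -- the terms
  have hint : ∀ n, ∫ x in Ioi (0 : ℝ), h n x = (1 / (2 * π) : ℂ) *
      ∫ t : ℝ, (ZC3_E y Y β τ (2 + t * I) / (2 + t * I)) *
        LSeries.term (fun n => (dk k n : ℂ)) (2 + t * I) n := by
    intro n
    have hne : ∀ t : ℝ, (2 + t * I : ℂ) ≠ 0 := by
      intro t h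
      have := congrArg Complex.re h
      simp at this
    simp only [ZC4_term k n _ (hne _)]
    simp only [hh]
    rw [setIntegral_indicator measurableSet_Ici]
    rcases Nat.eq_zero_or_pos n with h0 | h0
    · subst h0
      rw [hd0]
      simp
    · have hn1 : (0 : ℝ) < n := by exact_mod_cast h0
      have h1 : Ioi (0 : ℝ) ∩ Ici (n : ℝ) = Ici (n : ℝ) :=
        inter_eq_right.2 fun x hx => lt_of_lt_of_le hn1 hx
      rw [h1, integral_Ici_eq_integral_Ioi, integral_const_mul]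
      have h2 := gauss_tail hy hY β τ hn1
      have h3 : ∫ x in Ioi (n : ℝ), g x = (1 / (2 * π) : ℂ) * ∫ t : ℝ,
          ZC3_E y Y β τ (2 + t * I) / (2 + t * I) * ((n : ℝ) : ℂ) ^ (-(2 + t * I : ℂ)) := h2
      rw [h3, ← mul_assoc, mul_comm ((dk k n : ℂ)) _, mul_assoc, ← integral_const_mul]
      congr 2
      funext t
      rw [Complex.ofReal_natCast]
      ring
  simp only [hint] at hs1
  -- second interchange
  have hre : ∀ t : ℝ, (2 + t * I : ℂ).re = 2 := by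
    intro t
    simp
  have him : ∀ t : ℝ, (2 + t * I : ℂ).im = t := by
    intro t
    simp
  have hnorm2 : ∀ t : ℝ, 1 ≤ ‖(2 + t * I : ℂ)‖ := by
    intro t
    have h1 := Complex.re_le_norm (2 + t * I : ℂ)
    rw [hre] at h1
    linarith
  have hyc : (y : ℂ) ≠ 0 := by exact_mod_cast hy.ne'
  have hEc : Continuous fun t : ℝ => ZC3_E y Y β τ (2 + t * I) / (2 + t * I) := by
    unfold ZC3_E
    refine Continuous.div ?_ (by fun_prop) ?_
    · refine (continuous_const.mul ?_).mul (by fun_prop)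
      exact Continuous.const_cpow (by fun_prop) (Or.inl hyc)
    · intro t h
      have := hnorm2 t
      rw [h, norm_zero] at this
      linarith
  obtain ⟨C2, hC2, hE⟩ := ZC3_E_norm hy hY β τ
  have hgau : Integrable fun t : ℝ => C2 * Real.exp (-(Y ^ 2 * (t + τ) ^ 2 / 2)) := by
    have h1 : Integrable fun t : ℝ => Real.exp (-(Y ^ 2 / 2) * t ^ 2) :=
      integrable_exp_neg_mul_sq (by positivity)
    have h2 := (h1.comp_add_right τ).const_mul C2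
    refine h2.congr (Filter.Eventually.of_forall fun t => ?_)
    simp only
    congr 2
    ring
  have hEi : Integrable fun t : ℝ => ZC3_E y Y β τ (2 + t * I) / (2 + t * I) := by
    refine Integrable.mono' hgau hEc.aestronglyMeasurable (Filter.Eventually.of_forall fun t => ?_)
    rw [norm_div, div_le_iff₀ (by linarith [hnorm2 t])]
    have h1 := hE (2 + t * I) (by rw [hre]; norm_num) (by rw [hre])
    rw [him] at h1
    have h2 : 0 ≤ C2 * Real.exp (-(Y ^ 2 * (t + τ) ^ 2 / 2)) := by positivity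
    have h3 := hnorm2 t
    nlinarith
  have htn : ∀ (n : ℕ) (t : ℝ), ‖LSeries.term (fun n => (dk k n : ℂ)) (2 + t * I) n‖ =
      dk k n / (n : ℝ) ^ 2 := by
    intro n t
    rw [LSeries.norm_term_eq]
    rcases Nat.eq_zero_or_pos n with h | h
    · subst h
      rw [if_pos rfl, hd0]
      simp
    · rw [if_neg h.ne', Complex.norm_real, Real.norm_eq_abs, abs_of_nonneg (hdn n), hre]
      norm_num
  have htc : ∀ n : ℕ, Continuous fun t : ℝ =>
      LSeries.term (fun n => (dk k n : ℂ)) (2 + t * I) n := by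
    intro n
    rcases Nat.eq_zero_or_pos n with h | h
    · subst h
      simp only [LSeries.term_zero]
      exact continuous_const
    · simp only [LSeries.term_of_ne_zero h.ne']
      have hnc : (n : ℂ) ≠ 0 := by exact_mod_cast h.ne'
      refine continuous_const.div ?_ ?_
      · exact Continuous.const_cpow (by fun_prop) (Or.inl hnc)
      · intro t
        rw [Complex.cpow_def_of_ne_zero hnc]
        exact Complex.exp_ne_zero _
  have hFint : ∀ n : ℕ, Integrable fun t : ℝ => (ZC3_E y Y β τ (2 + t * I) / (2 + t * I)) *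
      LSeries.term (fun n => (dk k n : ℂ)) (2 + t * I) n := by
    intro n
    refine Integrable.mono' (hEi.norm.mul_const (dk k n / (n : ℝ) ^ 2))
      (hEc.mul (htc n)).aestronglyMeasurable (Filter.Eventually.of_forall fun t => ?_)
    rw [norm_mul, htn]
  have hFsum : Summable fun n : ℕ => ∫ t : ℝ, ‖(ZC3_E y Y β τ (2 + t * I) / (2 + t * I)) *
      LSeries.term (fun n => (dk k n : ℂ)) (2 + t * I) n‖ := by
    have h1 : ∀ n : ℕ, ∫ t : ℝ, ‖(ZC3_E y Y β τ (2 + t * I) / (2 + t * I)) *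
      LSeries.term (fun n => (dk k n : ℂ)) (2 + t * I) n‖ =
      (∫ t : ℝ, ‖ZC3_E y Y β τ (2 + t * I) / (2 + t * I)‖) * (dk k n / (n : ℝ) ^ 2) := by
      intro n
      rw [← integral_mul_const]
      congr 1
      funext t
      rw [norm_mul, htn]
    simp only [h1]
    exact hS.mul_left _
  have hs2 := (hasSum_integral_of_summable_integral_norm hFint hFsum).mul_left
    (1 / (2 * π) : ℂ)
  have hfin := hs1.unique hs2
  rw [hfin]
  congr 2
  funext t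
  rw [tsum_mul_left, mul_comm]
  congr 1
  exact ((zeta_pow_series k (s := 2 + t * I) (by rw [hre]; norm_num)).2).symm

/-- The main term side. -/
private theorem ZC4_main (k : ℕ) {y Y : ℝ} (hy : 0 < y) (hY : 0 < Y) (β τ : ℝ) :
    IntegrableOn (fun x : ℝ => ((Mk k x : ℝ) : ℂ) * ZC4_g y Y β τ x) (Ioi 0) ∧
    ∫ x in Ioi (0 : ℝ), ((Mk k x : ℝ) : ℂ) * ZC4_g y Y β τ x =
      (2 * π * I)⁻¹ * ∮ s in C(1, 1 / 2), riemannZeta s ^ k * (ZC3_E y Y β τ s / s) := by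
  set g := ZC4_g y Y β τ with hg
  set a : ℝ → ℂ := fun θ => deriv (circleMap 1 (1 / 2)) θ *
    (riemannZeta (circleMap 1 (1 / 2) θ) ^ k / circleMap 1 (1 / 2) θ) with ha
  have hcc : Continuous (circleMap 1 (1 / 2)) := continuous_circleMap _ _
  have hcn : ∀ θ : ℝ, ‖circleMap 1 (1 / 2) θ - 1‖ = 1 / 2 := by
    intro θ
    rw [circleMap_sub_center, norm_circleMap_zero]
    norm_num
  have hcre : ∀ θ : ℝ, 1 / 2 ≤ (circleMap 1 (1 / 2) θ).re ∧
      (circleMap 1 (1 / 2) θ).re ≤ 3 / 2 := by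
    intro θ
    have h1 := Complex.abs_re_le_norm (circleMap 1 (1 / 2) θ - 1)
    rw [hcn, Complex.sub_re, Complex.one_re, abs_le] at h1
    constructor <;> linarith
  have hc0 : ∀ θ : ℝ, circleMap 1 (1 / 2) θ ≠ 0 := by
    intro θ h
    have := (hcre θ).1
    rw [h, Complex.zero_re] at this
    linarith
  have hc1 : ∀ θ : ℝ, circleMap 1 (1 / 2) θ ≠ 1 := by
    intro θ h
    have := hcn θ
    rw [h, sub_self, norm_zero] at this
    linarith
  have hac : Continuous a := by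
    refine Continuous.mul ?_ (Continuous.div ?_ hcc hc0)
    · have h1 : deriv (circleMap 1 (1 / 2)) = fun θ => circleMap 0 (1 / 2) θ * I := by
        funext θ
        exact deriv_circleMap _ _ _
      rw [h1]
      exact (continuous_circleMap _ _).mul continuous_const
    · refine Continuous.pow ?_ k
      rw [continuous_iff_continuousAt]
      intro θ
      exact ContinuousAt.comp (f := circleMap 1 (1 / 2))
        (differentiableAt_riemannZeta (hc1 θ)).continuousAt hcc.continuousAt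
  obtain ⟨B, hB⟩ := (isCompact_Icc (a := (0 : ℝ)) (b := 2 * π)).exists_bound_of_continuousOn
    hac.continuousOn
  set Ψ : ℝ → ℝ → ℂ := fun θ x => a θ * (g x * (x : ℂ) ^ (circleMap 1 (1 / 2) θ)) with hΨ
  have hmeas : Measurable (Function.uncurry Ψ) := by
    have h1 : Measurable fun z : ℝ × ℝ => a z.1 := hac.measurable.comp measurable_fst
    have h2 : Measurable fun z : ℝ × ℝ => g z.2 := (ZC4_g_meas y Y β τ).comp measurable_snd
    have h3 : Measurable fun z : ℝ × ℝ => (z.2 : ℂ) ^ (circleMap 1 (1 / 2) z.1) :=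
      (Complex.measurable_ofReal.comp measurable_snd).pow (hcc.measurable.comp measurable_fst)
    exact h1.mul (h2.mul h3)
  have hint : Integrable (Function.uncurry Ψ)
      ((volume.restrict (Icc (0 : ℝ) (2 * π))).prod (volume.restrict (Ioi (0 : ℝ)))) := by
    have h1 : Integrable (fun _ : ℝ => |B|) (volume.restrict (Icc (0 : ℝ) (2 * π))) :=
      continuous_const.integrableOn_Icc
    have h2 := (ZC4_g_int hy hY β τ ((1 / 2 : ℝ) : ℂ)).norm
    have h3 := (ZC4_g_int hy hY β τ ((3 / 2 : ℝ) : ℂ)).norm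
    refine Integrable.mono' (h1.mul_prod (h2.add h3)) hmeas.aestronglyMeasurable ?_
    rw [Measure.prod_restrict]
    filter_upwards [ae_restrict_mem (measurableSet_Icc.prod measurableSet_Ioi)] with z hz
    have hz1 : z.1 ∈ Icc (0 : ℝ) (2 * π) := hz.1
    have hz2 : 0 < z.2 := hz.2
    have h4 := hB z.1 hz1
    have h5 : ‖(z.2 : ℂ) ^ (circleMap 1 (1 / 2) z.1)‖ ≤
        ‖(z.2 : ℂ) ^ (((1 / 2 : ℝ)) : ℂ)‖ + ‖(z.2 : ℂ) ^ (((3 / 2 : ℝ)) : ℂ)‖ := by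
      rw [Complex.norm_cpow_eq_rpow_re_of_pos hz2, Complex.norm_cpow_eq_rpow_re_of_pos hz2,
        Complex.norm_cpow_eq_rpow_re_of_pos hz2, Complex.ofReal_re, Complex.ofReal_re]
      obtain ⟨h6, h7⟩ := hcre z.1
      rcases le_or_gt 1 z.2 with h | h
      · have h8 := Real.rpow_le_rpow_of_exponent_le h h7
        have h9 : 0 ≤ z.2 ^ (1 / 2 : ℝ) := by positivity
        linarith
      · have h8 := Real.rpow_le_rpow_of_exponent_ge hz2 h.le h6
        have h9 : 0 ≤ z.2 ^ (3 / 2 : ℝ) := by positivity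
        linarith
    have h6 : ‖a z.1‖ ≤ |B| := h4.trans (le_abs_self B)
    have h7 : ‖a z.1 * (g z.2 * (z.2 : ℂ) ^ (circleMap 1 (1 / 2) z.1))‖ ≤
        |B| * (‖g z.2 * (z.2 : ℂ) ^ (((1 / 2 : ℝ)) : ℂ)‖ +
          ‖g z.2 * (z.2 : ℂ) ^ (((3 / 2 : ℝ)) : ℂ)‖) := by
      rw [norm_mul (a z.1), norm_mul (g z.2), norm_mul (g z.2), norm_mul (g z.2), ← mul_add]
      exact mul_le_mul h6 (mul_le_mul_of_nonneg_left h5 (norm_nonneg _)) (by positivity)
        (abs_nonneg B)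
    exact h7
  -- the inner integral in `θ`
  have hθ : ∀ x ∈ Ioi (0 : ℝ), (2 * π * I)⁻¹ * ∫ θ in Icc (0 : ℝ) (2 * π), Ψ θ x =
      ((Mk k x : ℝ) : ℂ) * g x := by
    intro x hx
    have hx0 : (0 : ℝ) < x := hx
    have hreal := ZC4_real (f := fun s => riemannZeta s ^ k * (x : ℂ) ^ s / s) (by
      intro s
      have harg : (x : ℂ).arg ≠ π := by
        rw [Complex.arg_ofReal_of_nonneg hx0.le]
        exact Real.pi_pos.ne
      rw [map_div₀, map_mul, map_pow, riemannZeta_conj, Complex.cpow_conj _ _ harg,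
        Complex.conj_ofReal])
    have h1 : ((Mk k x : ℝ) : ℂ) = (2 * π * I)⁻¹ *
        ∮ s in C(1, 1 / 2), riemannZeta s ^ k * (x : ℂ) ^ s / s := hreal
    rw [h1, circleIntegral_def_Icc, mul_assoc ((2 * π * I : ℂ)⁻¹), ← integral_mul_const]
    congr 2
    funext θ
    simp only [hΨ, ha, smul_eq_mul]
    ring
  -- the inner integral in `x`
  have hxi : ∀ θ : ℝ, ∫ x in Ioi (0 : ℝ), Ψ θ x = deriv (circleMap 1 (1 / 2)) θ •
      (riemannZeta (circleMap 1 (1 / 2) θ) ^ k *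
        (ZC3_E y Y β τ (circleMap 1 (1 / 2) θ) / circleMap 1 (1 / 2) θ)) := by
    intro θ
    simp only [hΨ]
    rw [integral_const_mul]
    have h1 : ∫ x in Ioi (0 : ℝ), g x * (x : ℂ) ^ (circleMap 1 (1 / 2) θ) =
        ZC3_E y Y β τ (circleMap 1 (1 / 2) θ) := (gauss_mellin hy hY β τ _).2
    rw [h1, ha, smul_eq_mul]
    ring
  have hsw := integral_integral_swap hint
  simp only [hxi] at hsw
  have hci : (∮ s in C(1, 1 / 2), riemannZeta s ^ k * (ZC3_E y Y β τ s / s)) =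
      ∫ θ in Icc (0 : ℝ) (2 * π), deriv (circleMap 1 (1 / 2)) θ •
      (riemannZeta (circleMap 1 (1 / 2) θ) ^ k *
        (ZC3_E y Y β τ (circleMap 1 (1 / 2) θ) / circleMap 1 (1 / 2) θ)) :=
    circleIntegral_def_Icc _ _ _
  rw [← hci] at hsw
  constructor
  · have h1 := (hint.integral_prod_right).const_mul ((2 * π * I : ℂ)⁻¹)
    refine (h1.congr ?_)
    filter_upwards [ae_restrict_mem measurableSet_Ioi] with x hx
    exact hθ x hx
  · rw [← setIntegral_congr_fun measurableSet_Ioi hθ, integral_const_mul, hsw]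

private theorem ZC4_GIint (k : ℕ) {y Y : ℝ} (hy : 0 < y) (hY : 0 < Y) (β τ : ℝ) :
    IntegrableOn (fun x : ℝ => ((Ek k x * x ^ (β - 1) *
      Real.exp (-(Real.log (x / y)) ^ 2 / (2 * Y ^ 2)) : ℝ) : ℂ) * cexp (I * τ * Real.log (x / y)))
      (Ioi 0) := by
  obtain ⟨C, hC, hb1, hb2⟩ := Ek_trivial k (ε := 1) one_pos
  have h1 := ((gauss_mellin hy hY β τ ((2 : ℝ) : ℂ)).1.norm).const_mul C
  have h2 := ((gauss_mellin hy hY β τ ((1 / 2 : ℝ) : ℂ)).1.norm).const_mul C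
  have hm : Measurable (fun x : ℝ => ((Ek k x * x ^ (β - 1) *
      Real.exp (-(Real.log (x / y)) ^ 2 / (2 * Y ^ 2)) : ℝ) : ℂ) *
      cexp (I * τ * Real.log (x / y))) := by
    have := Ek_meas k
    fun_prop
  refine Integrable.mono' (h1.add h2) hm.aestronglyMeasurable ?_
  filter_upwards [ae_restrict_mem measurableSet_Ioi] with x hx
  have hx0 : 0 < x := hx
  have hcexp : ‖cexp (I * τ * Real.log (x / y))‖ = 1 := by
    rw [Complex.norm_exp]
    have : (I * τ * Real.log (x / y)).re = 0 := by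
      have h3 : (I * τ * Real.log (x / y) : ℂ) = ((τ * Real.log (x / y) : ℝ) : ℂ) * I := by
        push_cast; ring
      rw [h3, Complex.re_ofReal_mul, Complex.I_re, mul_zero]
    rw [this, Real.exp_zero]
  have hxp : ∀ a : ℝ, ‖(x : ℂ) ^ (a : ℂ)‖ = x ^ a := by
    intro a
    rw [Complex.norm_cpow_eq_rpow_re_of_pos hx0, Complex.ofReal_re]
  have hxb : 0 < x ^ (β - 1) := Real.rpow_pos_of_pos hx0 _
  simp only [Pi.add_apply, norm_mul, hcexp, hxp, Complex.norm_real, Real.norm_eq_abs, mul_one,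
    Real.abs_exp, abs_of_pos hxb]
  have hx2 : 0 < x ^ (2 : ℝ) := Real.rpow_pos_of_pos hx0 _
  have hx12 : 0 < x ^ (1 / 2 : ℝ) := Real.rpow_pos_of_pos hx0 _
  have hEk : |Ek k x| ≤ C * x ^ (2 : ℝ) + C * x ^ (1 / 2 : ℝ) := by
    rcases le_or_gt 1 x with h | h
    · have h3 := hb1 x h
      have h4 : (1 + 1 : ℝ) = 2 := by norm_num
      rw [h4] at h3
      have : 0 ≤ C * x ^ (1 / 2 : ℝ) := by positivity
      linarith
    · have h3 := hb2 x hx0 h.le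
      have : 0 ≤ C * x ^ (2 : ℝ) := by positivity
      linarith
  have hE0 : 0 < Real.exp (-(Real.log (x / y)) ^ 2 / (2 * Y ^ 2)) := Real.exp_pos _
  generalize Real.exp (-(Real.log (x / y)) ^ 2 / (2 * Y ^ 2)) = E at *
  calc |Ek k x| * x ^ (β - 1) * E ≤ (C * x ^ (2 : ℝ) + C * x ^ (1 / 2 : ℝ)) * x ^ (β - 1) * E := by
        gcongr
    _ = C * (x ^ (β - 1) * E * x ^ (2 : ℝ)) + C * (x ^ (β - 1) * E * x ^ (1 / 2 : ℝ)) := by ring

/-- **ZC4.** The Gaussian formula. -/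
theorem GI_formula {k : ℕ} (hk : 1 ≤ k) {y Y : ℝ} (hy : 0 < y) (hY : 0 < Y) (β τ : ℝ) :
    GI k β y Y τ =
    riemannZeta 0 ^ k * ((√(2 * π) * Y : ℝ) * (y : ℂ) ^ (β : ℂ) *
      cexp ((Y : ℂ) ^ 2 * (β + I * τ) ^ 2 / 2)) +
    (1 / (2 * π) : ℂ) * ∫ t : ℝ, riemannZeta (-(1 / 4) + t * I) ^ k *
      ((√(2 * π) * Y : ℝ) * (y : ℂ) ^ (-(1 / 4) + t * I + β : ℂ) *
      cexp ((Y : ℂ) ^ 2 * (-(1 / 4) + t * I + β + I * τ) ^ 2 / 2) / (-(1 / 4) + t * I)) := by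
  have h1 := zeta_gauss_shift hk hy hY β τ
  have h2 := ZC4_sum k hy hY β τ
  obtain ⟨h3, h4⟩ := ZC4_main k hy hY β τ
  have h5 := ZC4_GIint k hy hY β τ
  have h6 : IntegrableOn (fun x : ℝ => ((Ek k x : ℝ) : ℂ) * ZC4_g y Y β τ x) (Ioi 0) := by
    refine h5.congr_fun ?_ measurableSet_Ioi
    intro x _
    simp only [ZC4_g]
    push_cast
    ring
  have h7 : GI k β y Y τ = ∫ x in Ioi (0 : ℝ), ((Ek k x : ℝ) : ℂ) * ZC4_g y Y β τ x := by
    unfold GI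
    congr 1
    funext x
    simp only [ZC4_g]
    push_cast
    ring
  have h8 : ∀ x : ℝ, ((Ek k x : ℝ) : ℂ) * ZC4_g y Y β τ x + ((Mk k x : ℝ) : ℂ) * ZC4_g y Y β τ x =
      ((∑ n ∈ Finset.Icc 1 ⌊x⌋₊, dk k n : ℝ) : ℂ) * ZC4_g y Y β τ x := by
    intro x
    rw [← add_mul, ← Complex.ofReal_add]
    congr 2
    change (∑ n ∈ Finset.Icc 1 ⌊x⌋₊, dk k n) - Mk k x + Mk k x = _
    ring
  have h9 := integral_add h6 h3
  simp only [h8] at h9
  rw [h2, h4, ← h7] at h9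
  have h10 : GI k β y Y τ = (1 / (2 * π) : ℂ) * (∫ t : ℝ, riemannZeta (2 + t * I) ^ k *
        (ZC3_E y Y β τ (2 + t * I) / (2 + t * I))) -
      (2 * π * I)⁻¹ * ∮ s in C(1, 1 / 2), riemannZeta s ^ k * (ZC3_E y Y β τ s / s) := by
    rw [h9]
    ring
  rw [h10]
  simp only [ZC3_E]
  rw [h1]
  ring
--END ZC4

--BEGIN ZC5
/-- **ZC5.** Integrability of the integrand of `GI`. -/
theorem GI_integrable (k : ℕ) {y Y : ℝ} (hy : 0 < y) (hY : 0 < Y) (β τ : ℝ) :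
    IntegrableOn (fun x : ℝ => ((Ek k x * x ^ (β - 1) *
      Real.exp (-(Real.log (x / y)) ^ 2 / (2 * Y ^ 2)) : ℝ) : ℂ) * cexp (I * τ * Real.log (x / y)))
      (Ioi 0) := by
  obtain ⟨C, hC, hb1, hb2⟩ := Ek_trivial k (ε := 1) one_pos
  have h1 := ((gauss_mellin hy hY β τ ((2 : ℝ) : ℂ)).1.norm).const_mul C
  have h2 := ((gauss_mellin hy hY β τ ((1 / 2 : ℝ) : ℂ)).1.norm).const_mul C
  have hm : Measurable (fun x : ℝ => ((Ek k x * x ^ (β - 1) *
      Real.exp (-(Real.log (x / y)) ^ 2 / (2 * Y ^ 2)) : ℝ) : ℂ) *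
      cexp (I * τ * Real.log (x / y))) := by
    have := Ek_meas k
    fun_prop
  refine Integrable.mono' (h1.add h2) hm.aestronglyMeasurable ?_
  filter_upwards [ae_restrict_mem measurableSet_Ioi] with x hx
  have hx0 : 0 < x := hx
  have hcexp : ‖cexp (I * τ * Real.log (x / y))‖ = 1 := by
    rw [Complex.norm_exp]
    have : (I * τ * Real.log (x / y)).re = 0 := by
      have h3 : (I * τ * Real.log (x / y) : ℂ) = ((τ * Real.log (x / y) : ℝ) : ℂ) * I := by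
        push_cast; ring
      rw [h3, Complex.re_ofReal_mul, Complex.I_re, mul_zero]
    rw [this, Real.exp_zero]
  have hxp : ∀ a : ℝ, ‖(x : ℂ) ^ (a : ℂ)‖ = x ^ a := by
    intro a
    rw [Complex.norm_cpow_eq_rpow_re_of_pos hx0, Complex.ofReal_re]
  have hxb : 0 < x ^ (β - 1) := Real.rpow_pos_of_pos hx0 _
  simp only [Pi.add_apply, norm_mul, hcexp, hxp, Complex.norm_real, Real.norm_eq_abs, mul_one,
    Real.abs_exp, abs_of_pos hxb]
  have hx2 : 0 < x ^ (2 : ℝ) := Real.rpow_pos_of_pos hx0 _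
  have hx12 : 0 < x ^ (1 / 2 : ℝ) := Real.rpow_pos_of_pos hx0 _
  have hEk : |Ek k x| ≤ C * x ^ (2 : ℝ) + C * x ^ (1 / 2 : ℝ) := by
    rcases le_or_gt 1 x with h | h
    · have h3 := hb1 x h
      have h4 : (1 + 1 : ℝ) = 2 := by norm_num
      rw [h4] at h3
      have : 0 ≤ C * x ^ (1 / 2 : ℝ) := by positivity
      linarith
    · have h3 := hb2 x hx0 h.le
      have : 0 ≤ C * x ^ (2 : ℝ) := by positivity
      linarith
  have hE0 : 0 < Real.exp (-(Real.log (x / y)) ^ 2 / (2 * Y ^ 2)) := Real.exp_pos _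
  generalize Real.exp (-(Real.log (x / y)) ^ 2 / (2 * Y ^ 2)) = E at *
  calc |Ek k x| * x ^ (β - 1) * E ≤ (C * x ^ (2 : ℝ) + C * x ^ (1 / 2 : ℝ)) * x ^ (β - 1) * E := by
        gcongr
    _ = C * (x ^ (β - 1) * E * x ^ (2 : ℝ)) + C * (x ^ (β - 1) * E * x ^ (1 / 2 : ℝ)) := by ring
--END ZC5

/-! ### Consequences -/

--BEGIN ZD1
/-! bound of the Gaussian integrals at `τ = 0` -/

private theorem ZD1_pow_le (n : ℕ) (v : ℝ) :
    (1 + |v|) ^ n * Real.exp (-(v ^ 2 / 2)) ≤ n.factorial * Real.exp (3 / 2) := by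
  have h1 : (1 + |v|) ^ n ≤ n.factorial * Real.exp (1 + |v|) := by
    have := Real.pow_div_factorial_le_exp (1 + |v|) (by positivity) n
    rw [div_le_iff₀ (by positivity)] at this
    linarith
  have h2 : Real.exp (1 + |v|) * Real.exp (-(v ^ 2 / 2)) ≤ Real.exp (3 / 2) := by
    rw [← Real.exp_add, Real.exp_le_exp]
    have := sq_abs v
    nlinarith [sq_nonneg (|v| - 1)]
  calc (1 + |v|) ^ n * Real.exp (-(v ^ 2 / 2))
      ≤ (n.factorial * Real.exp (1 + |v|)) * Real.exp (-(v ^ 2 / 2)) :=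
        mul_le_mul_of_nonneg_right h1 (Real.exp_pos _).le
    _ = n.factorial * (Real.exp (1 + |v|) * Real.exp (-(v ^ 2 / 2))) := by ring
    _ ≤ _ := mul_le_mul_of_nonneg_left h2 (by positivity)

private theorem ZD1_int (p : ℝ) :
    Integrable fun v : ℝ => (1 + |v|) ^ p * Real.exp (-(v ^ 2 / 2)) := by
  set n := ⌈p⌉₊ + 2 with hn
  have hint : Integrable (fun v : ℝ => (n.factorial * Real.exp (3 / 2)) * (1 + ‖v‖) ^ (-(2:ℝ))) :=
    (integrable_one_add_norm (by simp)).const_mul _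
  refine Integrable.mono' hint ?_ (Eventually.of_forall fun v => ?_)
  · refine Continuous.aestronglyMeasurable ?_
    refine Continuous.mul ?_ (by fun_prop)
    exact (by fun_prop : Continuous fun v : ℝ => 1 + |v|).rpow_const fun v => Or.inl (by positivity)
  · have h0 : 0 < 1 + |v| := by positivity
    rw [Real.norm_of_nonneg (by positivity)]
    have h1 : (1 + |v|) ^ p ≤ (1 + |v|) ^ n * (1 + ‖v‖) ^ (-(2:ℝ)) := by
      rw [← Real.rpow_natCast, Real.norm_eq_abs, ← Real.rpow_add h0]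
      refine Real.rpow_le_rpow_of_exponent_le (by linarith [abs_nonneg v]) ?_
      rw [hn]
      push_cast
      linarith [Nat.le_ceil p]
    calc (1 + |v|) ^ p * Real.exp (-(v ^ 2 / 2))
        ≤ ((1 + |v|) ^ n * (1 + ‖v‖) ^ (-(2:ℝ))) * Real.exp (-(v ^ 2 / 2)) :=
          mul_le_mul_of_nonneg_right h1 (Real.exp_pos _).le
      _ = ((1 + |v|) ^ n * Real.exp (-(v ^ 2 / 2))) * (1 + ‖v‖) ^ (-(2:ℝ)) := by ring
      _ ≤ _ := mul_le_mul_of_nonneg_right (ZD1_pow_le n v) (by positivity)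

/-- scaled version -/
private theorem ZD1_scale {p Y : ℝ} (hp : 0 ≤ p) (hY : 0 < Y) (hY1 : Y ≤ 1) :
    Integrable (fun t : ℝ => (1 + |t|) ^ p * Real.exp (-(Y ^ 2 * t ^ 2 / 2))) ∧
    ∫ t : ℝ, (1 + |t|) ^ p * Real.exp (-(Y ^ 2 * t ^ 2 / 2)) ≤
      Y ^ (-(p + 1)) * ∫ v : ℝ, (1 + |v|) ^ p * Real.exp (-(v ^ 2 / 2)) := by
  set g : ℝ → ℝ := fun v => (1 + |v|) ^ p * Real.exp (-(v ^ 2 / 2)) with hg
  have hgi : Integrable g := ZD1_int p
  have hgc : Integrable fun t : ℝ => Y ^ (-p) * g (Y * t) := (hgi.comp_mul_left' hY.ne').const_mul _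
  have hle : ∀ t : ℝ, (1 + |t|) ^ p * Real.exp (-(Y ^ 2 * t ^ 2 / 2)) ≤ Y ^ (-p) * g (Y * t) := by
    intro t
    have h1 : (1 + |t|) ^ p ≤ Y ^ (-p) * (1 + |Y * t|) ^ p := by
      have h2 : 1 + |t| ≤ Y⁻¹ * (1 + |Y * t|) := by
        rw [abs_mul, abs_of_pos hY, mul_add, mul_one, ← mul_assoc, inv_mul_cancel₀ hY.ne', one_mul]
        have := one_le_inv_iff₀.2 ⟨hY, hY1⟩
        linarith
      have h3 := Real.rpow_le_rpow (by positivity) h2 hp
      rw [Real.mul_rpow (by positivity) (by positivity), Real.inv_rpow hY.le,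
        ← Real.rpow_neg hY.le] at h3
      exact h3
    rw [hg]
    simp only
    rw [mul_pow, ← mul_assoc]
    exact mul_le_mul_of_nonneg_right h1 (Real.exp_pos _).le
  have hint : Integrable (fun t : ℝ => (1 + |t|) ^ p * Real.exp (-(Y ^ 2 * t ^ 2 / 2))) := by
    refine Integrable.mono' hgc ?_ (Eventually.of_forall fun t => ?_)
    · refine Continuous.aestronglyMeasurable ?_
      refine Continuous.mul ?_ (by fun_prop)
      exact (by fun_prop : Continuous fun v : ℝ => 1 + |v|).rpow_const fun v => Or.inl (by positivity)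
    · rw [Real.norm_of_nonneg (by positivity)]
      exact hle t
  refine ⟨hint, (integral_mono hint hgc hle).trans (le_of_eq ?_)⟩
  rw [integral_const_mul, Measure.integral_comp_mul_left g Y, smul_eq_mul, abs_of_pos (inv_pos.2 hY),
    ← mul_assoc]
  congr 1
  rw [neg_add, Real.rpow_add hY, Real.rpow_neg_one]

private theorem ZD1_GI {k : ℕ} (hk : 2 ≤ k) : ∃ C : ℝ, 0 < C ∧ ∀ (β y Y : ℝ), 0 ≤ β → β ≤ 2 →
    0 < y → 0 < Y → Y ≤ 1 →
    ‖GI k β y Y 0‖ ≤ C * Y * (y ^ β + y ^ (β - 1 / 4) * Y ^ (-(3 / 4 * (k : ℝ)))) := by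
  obtain ⟨Cz, hCz, hz⟩ := zeta_line_bound
  set K := ∫ v : ℝ, (1 + |v|) ^ (3 / 4 * (k : ℝ) - 1) * Real.exp (-(v ^ 2 / 2)) with hK
  have hK0 : 0 ≤ K := integral_nonneg fun v => by positivity
  have hk2 : (2:ℝ) ≤ k := by exact_mod_cast hk
  set A := ‖riemannZeta 0 ^ k‖ * (√(2 * π) * Real.exp 2) with hA
  set B := 1 / (2 * π) * (Cz ^ k * √(2 * π) * Real.exp 2 * 5 * K) with hB
  have hA0 : 0 ≤ A := by positivity
  have hB0 : 0 ≤ B := by positivity
  refine ⟨A + B + 1, by positivity, fun β y Y hβ0 hβ2 hy hY hY1 => ?_⟩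
  have hY2 : Y ^ 2 ≤ 1 := pow_le_one₀ hY.le hY1
  rw [GI_formula (by omega) hy hY β 0]
  -- the first term
  have h1 : ‖riemannZeta 0 ^ k * ((√(2 * π) * Y : ℝ) * (y : ℂ) ^ (β : ℂ) *
      cexp ((Y : ℂ) ^ 2 * (β + I * (0:ℝ)) ^ 2 / 2))‖ ≤ A * Y * y ^ β := by
    rw [norm_mul, norm_mul, norm_mul, norm_real, norm_cpow_eq_rpow_re_of_pos hy, ofReal_re, norm_exp]
    have e1 : ((Y : ℂ) ^ 2 * (β + I * (0:ℝ)) ^ 2 / 2).re = Y ^ 2 * β ^ 2 / 2 := by
      have : ((Y : ℂ) ^ 2 * (β + I * (0:ℝ)) ^ 2 / 2) = ((Y ^ 2 * β ^ 2 / 2 : ℝ) : ℂ) := by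
        push_cast; ring
      rw [this, ofReal_re]
    have e2 : Real.exp (Y ^ 2 * β ^ 2 / 2) ≤ Real.exp 2 := by
      rw [Real.exp_le_exp]
      have : β ^ 2 ≤ 4 := by nlinarith
      nlinarith [sq_nonneg β, sq_nonneg Y]
    rw [e1, Real.norm_of_nonneg (by positivity)]
    calc ‖riemannZeta 0 ^ k‖ * (√(2 * π) * Y * y ^ β * Real.exp (Y ^ 2 * β ^ 2 / 2))
        ≤ ‖riemannZeta 0 ^ k‖ * (√(2 * π) * Y * y ^ β * Real.exp 2) :=
          mul_le_mul_of_nonneg_left (mul_le_mul_of_nonneg_left e2 (by positivity)) (norm_nonneg _)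
      _ = A * Y * y ^ β := by rw [hA]; ring
  -- the integral
  obtain ⟨hi1, hi2⟩ := ZD1_scale (p := 3 / 4 * (k : ℝ) - 1) (Y := Y) (by linarith) hY hY1
  have h2 : ‖∫ t : ℝ, riemannZeta (-(1 / 4) + t * I) ^ k *
      ((√(2 * π) * Y : ℝ) * (y : ℂ) ^ (-(1 / 4) + t * I + β : ℂ) *
      cexp ((Y : ℂ) ^ 2 * (-(1 / 4) + t * I + β + I * (0:ℝ)) ^ 2 / 2) / (-(1 / 4) + t * I))‖ ≤
      (Cz ^ k * √(2 * π) * Real.exp 2 * 5 * Y * y ^ (β - 1 / 4)) *
        (Y ^ (-(3 / 4 * (k : ℝ))) * K) := by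
    refine (norm_integral_le_integral_norm _).trans ?_
    have h3 : ∀ t : ℝ, ‖riemannZeta (-(1 / 4) + t * I) ^ k *
      ((√(2 * π) * Y : ℝ) * (y : ℂ) ^ (-(1 / 4) + t * I + β : ℂ) *
      cexp ((Y : ℂ) ^ 2 * (-(1 / 4) + t * I + β + I * (0:ℝ)) ^ 2 / 2) / (-(1 / 4) + t * I))‖ ≤
      (Cz ^ k * √(2 * π) * Real.exp 2 * 5 * Y * y ^ (β - 1 / 4)) *
        ((1 + |t|) ^ (3 / 4 * (k : ℝ) - 1) * Real.exp (-(Y ^ 2 * t ^ 2 / 2))) := by
      intro t
      have ht : 0 < 1 + |t| := by positivity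
      have k1 : ‖riemannZeta (-(1 / 4) + t * I) ^ k‖ ≤ Cz ^ k * (1 + |t|) ^ (3 / 4 * (k : ℝ)) := by
        rw [norm_pow, Real.rpow_mul ht.le, Real.rpow_natCast, ← mul_pow]
        exact pow_le_pow_left₀ (norm_nonneg _) (hz t) k
      have k2 : ‖(y : ℂ) ^ (-(1 / 4) + t * I + β : ℂ)‖ = y ^ (β - 1 / 4) := by
        rw [norm_cpow_eq_rpow_re_of_pos hy]
        congr 1
        have : (-(1 / 4) + t * I + β : ℂ) = ((β - 1 / 4 : ℝ) : ℂ) + t * I := by push_cast; ring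
        rw [this]
        simp
      have k3 : ‖cexp ((Y : ℂ) ^ 2 * (-(1 / 4) + t * I + β + I * (0:ℝ)) ^ 2 / 2)‖ ≤
          Real.exp 2 * Real.exp (-(Y ^ 2 * t ^ 2 / 2)) := by
        rw [norm_exp, ← Real.exp_add, Real.exp_le_exp]
        have e1 : ((Y : ℂ) ^ 2 * (-(1 / 4) + t * I + β + I * (0:ℝ)) ^ 2 / 2) =
            ((Y ^ 2 * ((β - 1 / 4) ^ 2 - t ^ 2) / 2 : ℝ) : ℂ) + ((Y ^ 2 * (β - 1 / 4) * t : ℝ) : ℂ) * I := by
          push_cast
          linear_combination ((Y:ℂ) ^ 2 * t ^ 2 / 2) * I_sq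
        rw [e1, add_re, ofReal_re, re_ofReal_mul, I_re, mul_zero, add_zero]
        have : (β - 1 / 4) ^ 2 ≤ 4 := by nlinarith
        nlinarith [sq_nonneg (β - 1 / 4), sq_nonneg Y]
      have k4 : (1 + |t|) / 5 ≤ ‖(-(1 / 4) + t * I : ℂ)‖ := by
        have e1 : (-(1 / 4) + t * I : ℂ) = ((-(1 / 4) : ℝ) : ℂ) + t * I := by push_cast; ring
        have r1 : 1 / 4 ≤ ‖(-(1 / 4) + t * I : ℂ)‖ := by
          have := abs_re_le_norm (-(1 / 4) + t * I : ℂ)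
          rw [e1, add_re, ofReal_re, re_ofReal_mul, I_re, mul_zero, add_zero] at this
          rw [e1]
          refine le_trans ?_ this
          norm_num
        have r2 : |t| ≤ ‖(-(1 / 4) + t * I : ℂ)‖ := by
          have := abs_im_le_norm (-(1 / 4) + t * I : ℂ)
          rw [e1, add_im, ofReal_im, im_ofReal_mul, I_im, mul_one, zero_add] at this
          rwa [e1]
        linarith
      have k5 : (1 + |t|) ^ (3 / 4 * (k : ℝ)) / ((1 + |t|) / 5) =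
          5 * (1 + |t|) ^ (3 / 4 * (k : ℝ) - 1) := by
        rw [Real.rpow_sub_one ht.ne']
        field_simp
      have hn0 : 0 < ‖(-(1 / 4) + t * I : ℂ)‖ := lt_of_lt_of_le (by positivity) k4
      rw [norm_mul, norm_div, norm_mul, norm_mul, norm_real, k2,
        Real.norm_of_nonneg (by positivity : 0 ≤ √(2 * π) * Y)]
      calc ‖riemannZeta (-(1 / 4) + t * I) ^ k‖ * (√(2 * π) * Y * y ^ (β - 1 / 4) *
            ‖cexp ((Y : ℂ) ^ 2 * (-(1 / 4) + t * I + β + I * (0:ℝ)) ^ 2 / 2)‖ /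
              ‖(-(1 / 4) + t * I : ℂ)‖)
          ≤ (Cz ^ k * (1 + |t|) ^ (3 / 4 * (k : ℝ))) * (√(2 * π) * Y * y ^ (β - 1 / 4) *
            (Real.exp 2 * Real.exp (-(Y ^ 2 * t ^ 2 / 2))) / ((1 + |t|) / 5)) := by
            refine mul_le_mul k1 ?_ (by positivity) (by positivity)
            refine div_le_div₀ (by positivity) ?_ (by positivity) k4
            exact mul_le_mul_of_nonneg_left k3 (by positivity)
        _ = Cz ^ k * √(2 * π) * Real.exp 2 * Y * y ^ (β - 1 / 4) *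
            ((1 + |t|) ^ (3 / 4 * (k : ℝ)) / ((1 + |t|) / 5)) * Real.exp (-(Y ^ 2 * t ^ 2 / 2)) := by
            ring
        _ = _ := by rw [k5]; ring
    refine (integral_mono_of_nonneg (Eventually.of_forall fun t => norm_nonneg _)
      (hi1.const_mul _) (Eventually.of_forall h3)).trans ?_
    rw [integral_const_mul]
    refine mul_le_mul_of_nonneg_left ?_ (by positivity)
    have e1 : -(3 / 4 * (k : ℝ) - 1 + 1) = -(3 / 4 * (k : ℝ)) := by ring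
    rw [e1] at hi2
    exact hi2
  have e1 : ‖(1 / (2 * π) : ℂ)‖ = 1 / (2 * π) := by
    rw [norm_div, norm_one, norm_mul, norm_real, Real.norm_of_nonneg Real.pi_pos.le]
    norm_num
  have hyb : 0 ≤ y ^ β := by positivity
  have hyc : 0 ≤ y ^ (β - 1 / 4) * Y ^ (-(3 / 4 * (k : ℝ))) := by positivity
  calc _ ≤ ‖riemannZeta 0 ^ k * ((√(2 * π) * Y : ℝ) * (y : ℂ) ^ (β : ℂ) *
        cexp ((Y : ℂ) ^ 2 * (β + I * (0:ℝ)) ^ 2 / 2))‖ + ‖(1 / (2 * π) : ℂ) * ∫ t : ℝ,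
        riemannZeta (-(1 / 4) + t * I) ^ k *
      ((√(2 * π) * Y : ℝ) * (y : ℂ) ^ (-(1 / 4) + t * I + β : ℂ) *
      cexp ((Y : ℂ) ^ 2 * (-(1 / 4) + t * I + β + I * (0:ℝ)) ^ 2 / 2) / (-(1 / 4) + t * I))‖ :=
        norm_add_le _ _
    _ ≤ A * Y * y ^ β + B * Y * (y ^ (β - 1 / 4) * Y ^ (-(3 / 4 * (k : ℝ)))) := by
        refine add_le_add h1 ?_
        rw [norm_mul, e1]
        refine (mul_le_mul_of_nonneg_left h2 (by positivity)).trans (le_of_eq ?_)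
        rw [hB]; ring
    _ ≤ (A + B + 1) * Y * (y ^ β + y ^ (β - 1 / 4) * Y ^ (-(3 / 4 * (k : ℝ)))) := by
        have p1 : 0 ≤ B * Y * y ^ β := by positivity
        have p2 : 0 ≤ A * Y * (y ^ (β - 1 / 4) * Y ^ (-(3 / 4 * (k : ℝ)))) := by positivity
        have p3 : 0 ≤ Y * (y ^ β + y ^ (β - 1 / 4) * Y ^ (-(3 / 4 * (k : ℝ)))) := by positivity
        nlinarith

/-- the window -/
private noncomputable def ZD1_W (y Y x : ℝ) : ℝ :=
  x ^ ((0:ℝ) - 1) * Real.exp (-(Real.log (x / y)) ^ 2 / (2 * Y ^ 2))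

private theorem ZD1_mom {y Y : ℝ} (hy : 0 < y) (hY : 0 < Y) (s : ℝ) :
    IntegrableOn (fun x : ℝ => x ^ (s - 1) *
      Real.exp (-(Real.log (x / y)) ^ 2 / (2 * Y ^ 2))) (Ioi 0) ∧
    ∫ x in Ioi (0:ℝ), x ^ (s - 1) * Real.exp (-(Real.log (x / y)) ^ 2 / (2 * Y ^ 2)) =
      √(2 * π) * Y * y ^ s * Real.exp (Y ^ 2 * s ^ 2 / 2) := by
  obtain ⟨h1, h2⟩ := gauss_mellin hy hY s 0 0
  have e : ∀ x : ℝ, ((x ^ (s - 1) *
      Real.exp (-(Real.log (x / y)) ^ 2 / (2 * Y ^ 2)) : ℝ) : ℂ) *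
      cexp (I * (0:ℝ) * Real.log (x / y)) * (x : ℂ) ^ (0:ℂ) =
      ((x ^ (s - 1) * Real.exp (-(Real.log (x / y)) ^ 2 / (2 * Y ^ 2)) : ℝ) : ℂ) := by
    intro x
    rw [cpow_zero, mul_one, ofReal_zero, mul_zero, zero_mul, Complex.exp_zero, mul_one]
  simp_rw [e] at h1 h2
  constructor
  · have := h1.re
    exact (by simpa only [RCLike.re_to_complex, ofReal_re] using this :
      Integrable _ (volume.restrict (Ioi (0:ℝ))))
  · rw [integral_complex_ofReal] at h2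
    have e2 : (√(2 * π) * Y : ℝ) * (y : ℂ) ^ (0 + (s:ℂ)) *
        cexp ((Y : ℂ) ^ 2 * (0 + (s:ℂ) + I * (0:ℝ)) ^ 2 / 2) =
        ((√(2 * π) * Y * y ^ s * Real.exp (Y ^ 2 * s ^ 2 / 2) : ℝ) : ℂ) := by
      rw [zero_add, ofReal_zero, mul_zero, add_zero, ofReal_mul, ofReal_mul, ofReal_exp,
        ofReal_mul, ofReal_cpow hy.le]
      push_cast
      ring
    rw [e2] at h2
    exact_mod_cast h2

private theorem ZD1_W_nonneg {y Y x : ℝ} (hx : 0 < x) : 0 ≤ ZD1_W y Y x := by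
  unfold ZD1_W
  positivity

private theorem ZD1_W0 {y Y : ℝ} (hy : 0 < y) (hY : 0 < Y) :
    IntegrableOn (ZD1_W y Y) (Ioi 0) ∧ ∫ x in Ioi (0:ℝ), ZD1_W y Y x = √(2 * π) * Y := by
  obtain ⟨h1, h2⟩ := ZD1_mom hy hY 0
  refine ⟨h1, h2.trans ?_⟩
  rw [Real.rpow_zero]
  norm_num

private theorem ZD1_W1 {y Y : ℝ} (hy : 0 < y) (hY : 0 < Y) :
    IntegrableOn (fun x => x * ZD1_W y Y x) (Ioi 0) ∧
      ∫ x in Ioi (0:ℝ), x * ZD1_W y Y x = √(2 * π) * Y * (y * Real.exp (Y ^ 2 / 2)) := by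
  obtain ⟨h1, h2⟩ := ZD1_mom hy hY 1
  have e : ∀ x ∈ Ioi (0:ℝ), x ^ ((1:ℝ) - 1) *
      Real.exp (-(Real.log (x / y)) ^ 2 / (2 * Y ^ 2)) = x * ZD1_W y Y x := by
    intro x hx
    have hx : 0 < x := hx
    unfold ZD1_W
    rw [← mul_assoc, zero_sub, Real.rpow_neg_one, mul_inv_cancel₀ hx.ne', sub_self,
      Real.rpow_zero]
  constructor
  · exact h1.congr_fun e measurableSet_Ioi
  · rw [← setIntegral_congr_fun measurableSet_Ioi e, h2, Real.rpow_one]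
    norm_num
    ring

private theorem ZD1_W2 {y Y : ℝ} (hy : 0 < y) (hY : 0 < Y) :
    IntegrableOn (fun x => x ^ 2 * ZD1_W y Y x) (Ioi 0) ∧
      ∫ x in Ioi (0:ℝ), x ^ 2 * ZD1_W y Y x =
        √(2 * π) * Y * (y ^ 2 * Real.exp (2 * Y ^ 2)) := by
  obtain ⟨h1, h2⟩ := ZD1_mom hy hY 2
  have e : ∀ x ∈ Ioi (0:ℝ), x ^ ((2:ℝ) - 1) *
      Real.exp (-(Real.log (x / y)) ^ 2 / (2 * Y ^ 2)) = x ^ 2 * ZD1_W y Y x := by
    intro x hx
    have hx : 0 < x := hx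
    unfold ZD1_W
    have e3 : x ^ 2 * x⁻¹ = x := by field_simp
    rw [← mul_assoc, zero_sub, Real.rpow_neg_one, e3]
    norm_num
  constructor
  · exact h1.congr_fun e measurableSet_Ioi
  · rw [← setIntegral_congr_fun measurableSet_Ioi e, h2]
    have e2 : y ^ (2:ℝ) = y ^ 2 := by exact_mod_cast Real.rpow_natCast y 2
    have e3 : Y ^ 2 * (2:ℝ) ^ 2 / 2 = 2 * Y ^ 2 := by ring
    rw [e2, e3]
    ring

private theorem ZD1_var {y Y : ℝ} (hy : 0 < y) (hY : 0 < Y) (hY1 : Y ≤ 1) :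
    IntegrableOn (fun x => (x - y) ^ 2 * ZD1_W y Y x) (Ioi 0) ∧
      ∫ x in Ioi (0:ℝ), (x - y) ^ 2 * ZD1_W y Y x ≤
        √(2 * π) * Y * (2 * Real.exp 2 * (y ^ 2 * Y ^ 2)) := by
  obtain ⟨a1, a2⟩ := ZD1_W0 hy hY
  obtain ⟨b1, b2⟩ := ZD1_W1 hy hY
  obtain ⟨c1, c2⟩ := ZD1_W2 hy hY
  have e : (fun x => (x - y) ^ 2 * ZD1_W y Y x) = fun x =>
      (x ^ 2 * ZD1_W y Y x - (2 * y) * (x * ZD1_W y Y x)) + y ^ 2 * ZD1_W y Y x := by
    funext x
    ring
  rw [e]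
  have b1' : IntegrableOn (fun x => (2 * y) * (x * ZD1_W y Y x)) (Ioi 0) := b1.const_mul _
  have a1' : IntegrableOn (fun x => y ^ 2 * ZD1_W y Y x) (Ioi 0) := a1.const_mul _
  have cb : IntegrableOn (fun x => x ^ 2 * ZD1_W y Y x - (2 * y) * (x * ZD1_W y Y x)) (Ioi 0) :=
    c1.sub b1'
  refine ⟨cb.add a1', ?_⟩
  rw [integral_add cb a1', integral_sub c1 b1', integral_const_mul, integral_const_mul,
    a2, b2, c2]
  have h1 : Real.exp (2 * Y ^ 2) - 1 ≤ 2 * Y ^ 2 * Real.exp 2 := by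
    have h3 : 1 - 2 * Y ^ 2 ≤ Real.exp (-(2 * Y ^ 2)) := by
      have := Real.add_one_le_exp (-(2 * Y ^ 2))
      linarith
    have h4 : Real.exp (2 * Y ^ 2) * Real.exp (-(2 * Y ^ 2)) = 1 := by
      rw [← Real.exp_add, add_neg_cancel, Real.exp_zero]
    have h5 : Real.exp (2 * Y ^ 2) ≤ Real.exp 2 := by
      rw [Real.exp_le_exp]
      have : Y ^ 2 ≤ 1 := pow_le_one₀ hY.le hY1
      linarith
    have h6 := mul_le_mul_of_nonneg_left h3 (Real.exp_pos (2 * Y ^ 2)).le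
    rw [h4] at h6
    have h7 := mul_le_mul_of_nonneg_left h5 (show 0 ≤ 2 * Y ^ 2 by positivity)
    nlinarith
  have h2 : 1 ≤ Real.exp (Y ^ 2 / 2) := Real.one_le_exp (by positivity)
  have h3 : Real.exp (2 * Y ^ 2) - 2 * Real.exp (Y ^ 2 / 2) + 1 ≤ 2 * Y ^ 2 * Real.exp 2 := by
    linarith
  have h4 : 0 ≤ √(2 * π) * Y * y ^ 2 := by positivity
  have h5 := mul_le_mul_of_nonneg_left h3 h4
  calc √(2 * π) * Y * (y ^ 2 * Real.exp (2 * Y ^ 2)) -
        2 * y * (√(2 * π) * Y * (y * Real.exp (Y ^ 2 / 2))) + y ^ 2 * (√(2 * π) * Y)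
      = √(2 * π) * Y * y ^ 2 * (Real.exp (2 * Y ^ 2) - 2 * Real.exp (Y ^ 2 / 2) + 1) := by ring
    _ ≤ √(2 * π) * Y * y ^ 2 * (2 * Y ^ 2 * Real.exp 2) := h5
    _ = _ := by ring

/-- outside `[y/2, 2y]` the window is small -/
private theorem ZD1_out {y Y x : ℝ} (hy : 0 < y) (hY : 0 < Y) (hx : 0 < x)
    (h : x < y / 2 ∨ 2 * y < x) :
    ZD1_W y Y x ≤ Real.exp (-(Real.log 2 ^ 2 / (4 * Y ^ 2))) * ZD1_W y (√2 * Y) x := by
  unfold ZD1_W
  have h1 : Real.log 2 ^ 2 ≤ Real.log (x / y) ^ 2 := by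
    have hl : 0 < Real.log 2 := Real.log_pos (by norm_num)
    rcases h with h | h
    · have h2 : Real.log (x / y) ≤ -Real.log 2 := by
        rw [← Real.log_inv]
        refine Real.log_le_log (by positivity) ?_
        rw [div_le_iff₀ hy]
        linarith
      nlinarith
    · have h2 : Real.log 2 ≤ Real.log (x / y) := by
        refine Real.log_le_log (by positivity) ?_
        rw [le_div_iff₀ hy]
        linarith
      nlinarith
  have h2 : (√2 * Y) ^ 2 = 2 * Y ^ 2 := by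
    rw [mul_pow, Real.sq_sqrt (by norm_num)]
  have h3 : Real.exp (-(Real.log (x / y)) ^ 2 / (2 * Y ^ 2)) ≤
      Real.exp (-(Real.log 2 ^ 2 / (4 * Y ^ 2))) *
        Real.exp (-(Real.log (x / y)) ^ 2 / (2 * (√2 * Y) ^ 2)) := by
    rw [← Real.exp_add, Real.exp_le_exp, h2]
    have e1 : -(Real.log (x / y)) ^ 2 / (2 * Y ^ 2) = -(Real.log (x / y) ^ 2 / (4 * Y ^ 2)) +
        -(Real.log (x / y)) ^ 2 / (2 * (2 * Y ^ 2)) := by
      field_simp
      ring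
    rw [e1]
    have : Real.log 2 ^ 2 / (4 * Y ^ 2) ≤ Real.log (x / y) ^ 2 / (4 * Y ^ 2) :=
      div_le_div_of_nonneg_right h1 (by positivity)
    linarith
  calc x ^ ((0:ℝ) - 1) * Real.exp (-(Real.log (x / y)) ^ 2 / (2 * Y ^ 2))
      ≤ x ^ ((0:ℝ) - 1) * (Real.exp (-(Real.log 2 ^ 2 / (4 * Y ^ 2))) *
        Real.exp (-(Real.log (x / y)) ^ 2 / (2 * (√2 * Y) ^ 2))) :=
        mul_le_mul_of_nonneg_left h3 (by positivity)
    _ = _ := by ring

/-- the pointwise comparison -/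
private theorem ZD1_pt (k : ℕ) {ε : ℝ} (hε : 0 < ε) : ∃ C : ℝ, 0 < C ∧
    ∀ y Y : ℝ, 1 ≤ y → 0 < Y → ∀ x : ℝ, 0 < x →
      |Ek k x - Ek k y| * ZD1_W y Y x ≤
        C * y ^ ε * ((y * Y + 1) * ZD1_W y Y x + (y * Y)⁻¹ * ((x - y) ^ 2 * ZD1_W y Y x)) +
        C * Real.exp (-(Real.log 2 ^ 2 / (4 * Y ^ 2))) *
          ((1 + y ^ 2) * ZD1_W y (√2 * Y) x + x ^ 2 * ZD1_W y (√2 * Y) x) := by
  obtain ⟨C1, hC1, h1⟩ := Ek_diff k hε
  obtain ⟨C2, hC2, h2, h2'⟩ := Ek_trivial k (ε := 1) one_pos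
  have hE : ∀ x : ℝ, 0 < x → |Ek k x| ≤ C2 * (1 + x ^ 2) := by
    intro x hx
    rcases le_or_gt 1 x with h | h
    · have := h2 x h
      have e : x ^ ((1:ℝ) + 1) = x ^ 2 := by
        rw [show (1:ℝ) + 1 = ((2:ℕ):ℝ) by norm_num, Real.rpow_natCast]
      rw [e] at this
      nlinarith
    · have := h2' x hx h.le
      have e : x ^ (1 / 2 : ℝ) ≤ 1 := Real.rpow_le_one hx.le h.le (by norm_num)
      nlinarith [sq_nonneg x]
  refine ⟨C1 + 10 * C2, by positivity, fun y Y hy hY x hx => ?_⟩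
  have hy0 : 0 < y := by linarith
  have hyY : 0 < y * Y := by positivity
  have hW := ZD1_W_nonneg (y := y) (Y := Y) hx
  have hW' := ZD1_W_nonneg (y := y) (Y := √2 * Y) hx
  have hye : 1 ≤ y ^ ε := Real.one_le_rpow hy hε.le
  have hD : |Ek k x - Ek k y| ≤ C2 * (1 + x ^ 2) + C2 * (1 + y ^ 2) := by
    calc |Ek k x - Ek k y| ≤ |Ek k x| + |Ek k y| := abs_sub _ _
      _ ≤ _ := add_le_add (hE x hx) (hE y hy0)
  have hE0 : 0 ≤ Real.exp (-(Real.log 2 ^ 2 / (4 * Y ^ 2))) := (Real.exp_pos _).le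
  have hA0 : 0 ≤ (C1 + 10 * C2) * y ^ ε * ((y * Y + 1) * ZD1_W y Y x +
      (y * Y)⁻¹ * ((x - y) ^ 2 * ZD1_W y Y x)) := by positivity
  have hB0 : 0 ≤ (C1 + 10 * C2) * Real.exp (-(Real.log 2 ^ 2 / (4 * Y ^ 2))) *
          ((1 + y ^ 2) * ZD1_W y (√2 * Y) x + x ^ 2 * ZD1_W y (√2 * Y) x) := by positivity
  by_cases hin : y / 2 ≤ x ∧ x ≤ 2 * y
  · refine le_trans ?_ (le_add_of_nonneg_right hB0)
    have hmain : |Ek k x - Ek k y| ≤ (C1 + 10 * C2) * y ^ ε * (|x - y| + 1) := by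
      rcases le_or_gt 1 x with h | h
      · have := h1 y x hy hin.1 hin.2 h
        rw [abs_sub_comm (Ek k x), abs_sub_comm x y]
        refine this.trans ?_
        have p : 0 ≤ C2 * y ^ ε * (|y - x| + 1) := by positivity
        nlinarith
      · have hy2 : y < 2 := by linarith [hin.1]
        have hy4 : y ^ 2 ≤ 4 := by nlinarith
        have hx4 : x ^ 2 ≤ 1 := by nlinarith
        have p1 : 1 ≤ y ^ ε * (|x - y| + 1) := by
          have : 1 ≤ |x - y| + 1 := by linarith [abs_nonneg (x - y)]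
          nlinarith
        have p2 : 0 ≤ C1 * (y ^ ε * (|x - y| + 1)) := by positivity
        nlinarith
    have hab : |x - y| ≤ y * Y + (y * Y)⁻¹ * (x - y) ^ 2 := by
      have e : (y * Y) * (y * Y + (y * Y)⁻¹ * (x - y) ^ 2) = (y * Y) ^ 2 + (x - y) ^ 2 := by
        field_simp
      have h3 : (y * Y) * |x - y| ≤ (y * Y) * (y * Y + (y * Y)⁻¹ * (x - y) ^ 2) := by
        rw [e]
        have := sq_abs (x - y)
        nlinarith [sq_nonneg (y * Y - |x - y|), sq_nonneg (y * Y), sq_nonneg (|x - y|)]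
      exact le_of_mul_le_mul_left h3 hyY
    calc |Ek k x - Ek k y| * ZD1_W y Y x
        ≤ ((C1 + 10 * C2) * y ^ ε * (|x - y| + 1)) * ZD1_W y Y x :=
          mul_le_mul_of_nonneg_right hmain hW
      _ ≤ ((C1 + 10 * C2) * y ^ ε * ((y * Y + (y * Y)⁻¹ * (x - y) ^ 2) + 1)) * ZD1_W y Y x := by
          refine mul_le_mul_of_nonneg_right ?_ hW
          refine mul_le_mul_of_nonneg_left ?_ (by positivity)
          linarith
      _ = _ := by ring
  · refine le_trans ?_ (le_add_of_nonneg_left hA0)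
    have hout : x < y / 2 ∨ 2 * y < x := by
      by_contra hc
      push Not at hc
      exact hin hc
    calc |Ek k x - Ek k y| * ZD1_W y Y x
        ≤ (C2 * (1 + x ^ 2) + C2 * (1 + y ^ 2)) *
          (Real.exp (-(Real.log 2 ^ 2 / (4 * Y ^ 2))) * ZD1_W y (√2 * Y) x) :=
          mul_le_mul hD (ZD1_out hy0 hY hx hout) hW (by positivity)
      _ ≤ ((C1 + 10 * C2) * ((1 + y ^ 2) + x ^ 2)) *
          (Real.exp (-(Real.log 2 ^ 2 / (4 * Y ^ 2))) * ZD1_W y (√2 * Y) x) := by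
          refine mul_le_mul_of_nonneg_right ?_ (by positivity)
          have : 0 ≤ C1 * (1 + y ^ 2 + x ^ 2) := by positivity
          have : 0 ≤ C2 * (y ^ 2) := by positivity
          have : 0 ≤ C2 * (x ^ 2) := by positivity
          nlinarith
      _ = _ := by ring

/-- the integrated comparison -/
private theorem ZD1_cmp (k : ℕ) {ε : ℝ} (hε : 0 < ε) : ∃ C : ℝ, 0 < C ∧
    ∀ y Y : ℝ, 1 ≤ y → 0 < Y → Y ≤ 1 →
      |Ek k y| * (√(2 * π) * Y) ≤ ‖GI k 0 y Y 0‖ +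
        √(2 * π) * Y * (C * y ^ ε * (y * Y + 1) +
          C * (Real.exp (-(Real.log 2 ^ 2 / (4 * Y ^ 2))) * y ^ 2)) := by
  obtain ⟨C, hC, h⟩ := ZD1_pt k hε
  refine ⟨C * (1 + 2 * Real.exp 2) + C * √2 * (2 + Real.exp 4), by positivity,
    fun y Y hy hY hY1 => ?_⟩
  have hy0 : 0 < y := by linarith
  have hyY : 0 < y * Y := by positivity
  have hsY : 0 < √2 * Y := by positivity
  obtain ⟨w1, w2⟩ := ZD1_W0 hy0 hY
  obtain ⟨v1, v2⟩ := ZD1_var hy0 hY hY1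
  obtain ⟨u1, u2⟩ := ZD1_W0 hy0 hsY
  obtain ⟨t1, t2⟩ := ZD1_W2 hy0 hsY
  set E := Real.exp (-(Real.log 2 ^ 2 / (4 * Y ^ 2))) with hE
  have hE0 : 0 < E := Real.exp_pos _
  have e0 : ∀ x : ℝ, ((Ek k x * x ^ ((0:ℝ) - 1) *
      Real.exp (-(Real.log (x / y)) ^ 2 / (2 * Y ^ 2)) : ℝ) : ℂ) *
      cexp (I * (0:ℝ) * Real.log (x / y)) = ((Ek k x * ZD1_W y Y x : ℝ) : ℂ) := by
    intro x
    rw [ofReal_zero, mul_zero, zero_mul, Complex.exp_zero, mul_one, mul_assoc]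
    rfl
  have hJ : IntegrableOn (fun x => Ek k x * ZD1_W y Y x) (Ioi 0) := by
    have h1 := GI_integrable k hy0 hY 0 0
    simp_rw [e0] at h1
    have h2 := h1.re
    exact (by simpa only [RCLike.re_to_complex, ofReal_re] using h2 :
      Integrable _ (volume.restrict (Ioi (0:ℝ))))
  have hG : ‖GI k 0 y Y 0‖ = |∫ x in Ioi (0:ℝ), Ek k x * ZD1_W y Y x| := by
    have : GI k 0 y Y 0 = ((∫ x in Ioi (0:ℝ), Ek k x * ZD1_W y Y x : ℝ) : ℂ) := by
      rw [← integral_complex_ofReal]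
      unfold GI
      refine integral_congr_ae (Eventually.of_forall fun x => ?_)
      exact e0 x
    rw [this, norm_real, Real.norm_eq_abs]
  have hw : IntegrableOn (fun x => Ek k y * ZD1_W y Y x) (Ioi 0) := w1.const_mul _
  have hd : IntegrableOn (fun x => (Ek k x - Ek k y) * ZD1_W y Y x) (Ioi 0) := by
    have : (fun x => (Ek k x - Ek k y) * ZD1_W y Y x) =
        fun x => Ek k x * ZD1_W y Y x - Ek k y * ZD1_W y Y x := by
      funext x
      ring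
    rw [this]
    exact hJ.sub hw
  have hid : Ek k y * (√(2 * π) * Y) = (∫ x in Ioi (0:ℝ), Ek k x * ZD1_W y Y x) -
      ∫ x in Ioi (0:ℝ), (Ek k x - Ek k y) * ZD1_W y Y x := by
    rw [← integral_sub hJ hd, ← w2, ← integral_const_mul]
    refine integral_congr_ae (Eventually.of_forall fun x => ?_)
    simp only
    ring
  -- the bound
  have v1' : IntegrableOn (fun x => (y * Y)⁻¹ * ((x - y) ^ 2 * ZD1_W y Y x)) (Ioi 0) :=
    v1.const_mul _
  have w1' : IntegrableOn (fun x => (y * Y + 1) * ZD1_W y Y x) (Ioi 0) := w1.const_mul _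
  have u1' : IntegrableOn (fun x => (1 + y ^ 2) * ZD1_W y (√2 * Y) x) (Ioi 0) := u1.const_mul _
  have a1 : IntegrableOn (fun x => (y * Y + 1) * ZD1_W y Y x +
      (y * Y)⁻¹ * ((x - y) ^ 2 * ZD1_W y Y x)) (Ioi 0) := w1'.add v1'
  have a2 : IntegrableOn (fun x => (1 + y ^ 2) * ZD1_W y (√2 * Y) x +
      x ^ 2 * ZD1_W y (√2 * Y) x) (Ioi 0) := u1'.add t1
  have a1' : IntegrableOn (fun x => C * y ^ ε * ((y * Y + 1) * ZD1_W y Y x +
      (y * Y)⁻¹ * ((x - y) ^ 2 * ZD1_W y Y x))) (Ioi 0) := a1.const_mul _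
  have a2' : IntegrableOn (fun x => C * E * ((1 + y ^ 2) * ZD1_W y (√2 * Y) x +
      x ^ 2 * ZD1_W y (√2 * Y) x)) (Ioi 0) := a2.const_mul _
  have hbd : |∫ x in Ioi (0:ℝ), (Ek k x - Ek k y) * ZD1_W y Y x| ≤
      C * y ^ ε * ((y * Y + 1) * (√(2 * π) * Y) +
        (y * Y)⁻¹ * (√(2 * π) * Y * (2 * Real.exp 2 * (y ^ 2 * Y ^ 2)))) +
      C * E * ((1 + y ^ 2) * (√(2 * π) * (√2 * Y)) +
        √(2 * π) * (√2 * Y) * (y ^ 2 * Real.exp (2 * (√2 * Y) ^ 2))) := by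
    rw [← Real.norm_eq_abs]
    refine (norm_integral_le_integral_norm _).trans ?_
    have a12 : IntegrableOn (fun x => C * y ^ ε * ((y * Y + 1) * ZD1_W y Y x +
        (y * Y)⁻¹ * ((x - y) ^ 2 * ZD1_W y Y x)) + C * E * ((1 + y ^ 2) * ZD1_W y (√2 * Y) x +
        x ^ 2 * ZD1_W y (√2 * Y) x)) (Ioi 0) := a1'.add a2'
    refine (setIntegral_mono_on hd.norm a12 measurableSet_Ioi fun x hx => ?_).trans ?_
    · have hx : 0 < x := hx
      rw [norm_mul, Real.norm_eq_abs, Real.norm_of_nonneg (ZD1_W_nonneg hx)]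
      exact h y Y hy hY x hx
    · rw [integral_add a1' a2', integral_const_mul, integral_const_mul, integral_add w1' v1',
        integral_add u1' t1, integral_const_mul, integral_const_mul, integral_const_mul, w2, u2, t2]
      have p1 : (y * Y)⁻¹ * ∫ x in Ioi (0:ℝ), (x - y) ^ 2 * ZD1_W y Y x ≤
          (y * Y)⁻¹ * (√(2 * π) * Y * (2 * Real.exp 2 * (y ^ 2 * Y ^ 2))) :=
        mul_le_mul_of_nonneg_left v2 (by positivity)
      have p2 := mul_le_mul_of_nonneg_left p1 (show 0 ≤ C * y ^ ε by positivity)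
      nlinarith
  have q1 : (y * Y)⁻¹ * (√(2 * π) * Y * (2 * Real.exp 2 * (y ^ 2 * Y ^ 2))) =
      √(2 * π) * Y * (2 * Real.exp 2 * (y * Y)) := by
    field_simp
  have q2 : Real.exp (2 * (√2 * Y) ^ 2) ≤ Real.exp 4 := by
    rw [Real.exp_le_exp, mul_pow, Real.sq_sqrt (by norm_num)]
    have : Y ^ 2 ≤ 1 := pow_le_one₀ hY.le hY1
    linarith
  have q3 : C * y ^ ε * ((y * Y + 1) * (√(2 * π) * Y) +
        (y * Y)⁻¹ * (√(2 * π) * Y * (2 * Real.exp 2 * (y ^ 2 * Y ^ 2)))) ≤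
      √(2 * π) * Y * ((C * (1 + 2 * Real.exp 2)) * y ^ ε * (y * Y + 1)) := by
    rw [q1]
    have p : 0 ≤ √(2 * π) * Y * (C * (2 * Real.exp 2) * y ^ ε) := by positivity
    nlinarith
  have q4 : C * E * ((1 + y ^ 2) * (√(2 * π) * (√2 * Y)) +
        √(2 * π) * (√2 * Y) * (y ^ 2 * Real.exp (2 * (√2 * Y) ^ 2))) ≤
      √(2 * π) * Y * ((C * √2 * (2 + Real.exp 4)) * (E * y ^ 2)) := by
    have p1 : (1 + y ^ 2) + y ^ 2 * Real.exp (2 * (√2 * Y) ^ 2) ≤ (2 + Real.exp 4) * y ^ 2 := by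
      have r1 : (1:ℝ) ≤ y ^ 2 := one_le_pow₀ hy
      have r2 := mul_le_mul_of_nonneg_left q2 (show 0 ≤ y ^ 2 by positivity)
      linarith
    calc C * E * ((1 + y ^ 2) * (√(2 * π) * (√2 * Y)) +
        √(2 * π) * (√2 * Y) * (y ^ 2 * Real.exp (2 * (√2 * Y) ^ 2)))
        = (√(2 * π) * Y * (C * √2 * E)) * ((1 + y ^ 2) +
          y ^ 2 * Real.exp (2 * (√2 * Y) ^ 2)) := by ring
      _ ≤ (√(2 * π) * Y * (C * √2 * E)) * ((2 + Real.exp 4) * y ^ 2) :=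
          mul_le_mul_of_nonneg_left p1 (by positivity)
      _ = _ := by ring
  have hpos : 0 ≤ √(2 * π) * Y := by positivity
  calc |Ek k y| * (√(2 * π) * Y) = |Ek k y * (√(2 * π) * Y)| := by
        rw [abs_mul, abs_of_nonneg hpos]
    _ ≤ |∫ x in Ioi (0:ℝ), Ek k x * ZD1_W y Y x| +
      |∫ x in Ioi (0:ℝ), (Ek k x - Ek k y) * ZD1_W y Y x| := by
        rw [hid]
        exact abs_sub _ _
    _ ≤ ‖GI k 0 y Y 0‖ + (√(2 * π) * Y * ((C * (1 + 2 * Real.exp 2)) * y ^ ε * (y * Y + 1)) +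
        √(2 * π) * Y * ((C * √2 * (2 + Real.exp 4)) * (E * y ^ 2))) := by
        rw [hG]
        linarith
    _ ≤ _ := by
        have r1 : 0 ≤ √(2 * π) * Y * ((C * √2 * (2 + Real.exp 4)) * y ^ ε * (y * Y + 1)) := by
          positivity
        have r2 : 0 ≤ √(2 * π) * Y * ((C * (1 + 2 * Real.exp 2)) * (E * y ^ 2)) := by positivity
        nlinarith

/-- **ZD1.** The pointwise bound `Δ_k(x) ≪ x^{1-3/(4k)+ε}`: compare `Δ_k(x)` with
`GI k 0 x Y 0 / (√(2π) Y)`, `Y = x^{-3/(4k)}`, by ZA7, and bound the latter by ZC4 and ZB5. -/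
theorem Ek_bound {k : ℕ} (hk : 2 ≤ k) {ε : ℝ} (hε : 0 < ε) : ∃ C : ℝ, 0 < C ∧
    ∀ x : ℝ, 1 ≤ x → |Ek k x| ≤ C * x ^ (1 - 3 / (4 * (k : ℝ)) + ε) := by
  obtain ⟨C1, hC1, hc⟩ := ZD1_cmp k hε
  obtain ⟨C2, hC2, hg⟩ := ZD1_GI hk
  have hk2 : (2:ℝ) ≤ k := by exact_mod_cast hk
  have hk0 : (0:ℝ) < k := by linarith
  set F := ((2 * k).factorial : ℝ) / (Real.log 2 ^ 2 / 4) ^ (2 * k) with hF
  have hl : 0 < Real.log 2 := Real.log_pos (by norm_num)
  have hF0 : 0 < F := by positivity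
  refine ⟨2 * C2 + 2 * C1 + C1 * F, by positivity, fun y hy => ?_⟩
  have hy0 : 0 < y := by linarith
  set Y := y ^ (-(3 / (4 * (k : ℝ)))) with hYdef
  have hY : 0 < Y := Real.rpow_pos_of_pos hy0 _
  have h34 : 0 ≤ 3 / (4 * (k : ℝ)) := by positivity
  have h34' : 3 / (4 * (k : ℝ)) ≤ 3 / 8 := by
    rw [div_le_div_iff₀ (by positivity) (by norm_num)]
    linarith
  have hY1 : Y ≤ 1 := Real.rpow_le_one_of_one_le_of_nonpos hy (by linarith)
  have hyY : y * Y = y ^ (1 - 3 / (4 * (k : ℝ))) := by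
    rw [hYdef, sub_eq_add_neg, Real.rpow_add hy0, Real.rpow_one]
  have hyY1 : 1 ≤ y * Y := by
    rw [hyY]
    exact Real.one_le_rpow hy (by linarith)
  set P := y ^ (1 - 3 / (4 * (k : ℝ)) + ε) with hP
  have hP1 : 1 ≤ P := Real.one_le_rpow hy (by linarith)
  have h1 : ‖GI k 0 y Y 0‖ ≤ Y * (2 * C2 * P) := by
    have h2 := hg 0 y Y le_rfl (by norm_num) hy0 hY hY1
    have e1 : Y ^ (-(3 / 4 * (k : ℝ))) = y ^ (9 / 16 : ℝ) := by
      rw [hYdef, ← Real.rpow_mul hy0.le]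
      congr 1
      field_simp
      norm_num
    have e2 : y ^ ((0:ℝ) - 1 / 4) * y ^ (9 / 16 : ℝ) ≤ P := by
      rw [← Real.rpow_add hy0]
      refine Real.rpow_le_rpow_of_exponent_le hy ?_
      linarith
    rw [e1, Real.rpow_zero] at h2
    refine h2.trans ?_
    have : 1 + y ^ ((0:ℝ) - 1 / 4) * y ^ (9 / 16 : ℝ) ≤ 2 * P := by linarith
    calc C2 * Y * (1 + y ^ ((0:ℝ) - 1 / 4) * y ^ (9 / 16 : ℝ)) ≤ C2 * Y * (2 * P) :=
          mul_le_mul_of_nonneg_left this (by positivity)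
      _ = _ := by ring
  have h2 : Real.exp (-(Real.log 2 ^ 2 / (4 * Y ^ 2))) * y ^ 2 ≤ F := by
    have e1 : Real.log 2 ^ 2 / (4 * Y ^ 2) = Real.log 2 ^ 2 / 4 * y ^ (3 / (2 * (k:ℝ))) := by
      have : Y ^ 2 * y ^ (3 / (2 * (k:ℝ))) = 1 := by
        rw [hYdef, ← Real.rpow_natCast, ← Real.rpow_mul hy0.le, ← Real.rpow_add hy0]
        have : -(3 / (4 * (k : ℝ))) * ((2:ℕ):ℝ) + 3 / (2 * (k:ℝ)) = 0 := by
          push_cast
          field_simp
          norm_num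
        rw [this, Real.rpow_zero]
      rw [div_eq_iff (by positivity)]
      calc Real.log 2 ^ 2 = Real.log 2 ^ 2 * (Y ^ 2 * y ^ (3 / (2 * (k:ℝ)))) := by
            rw [this, mul_one]
        _ = _ := by ring
    set z := Real.log 2 ^ 2 / 4 * y ^ (3 / (2 * (k:ℝ))) with hz
    have hz0 : 0 < z := by positivity
    have e2 : z ^ (2 * k) = (Real.log 2 ^ 2 / 4) ^ (2 * k) * y ^ 3 := by
      rw [hz, mul_pow]
      congr 1
      rw [← Real.rpow_natCast, ← Real.rpow_mul hy0.le, ← Real.rpow_natCast]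
      congr 1
      push_cast
      field_simp
    have e3 : z ^ (2 * k) ≤ (2 * k).factorial * Real.exp z := by
      have := Real.pow_div_factorial_le_exp z hz0.le (2 * k)
      rw [div_le_iff₀ (by positivity)] at this
      linarith
    rw [e1, hF, le_div_iff₀ (by positivity), Real.exp_neg]
    have e4 : y ^ 2 ≤ y ^ 3 := pow_le_pow_right₀ hy (by norm_num)
    have e5 : y ^ 2 * (Real.log 2 ^ 2 / 4) ^ (2 * k) ≤ (2 * k).factorial * Real.exp z := by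
      refine le_trans ?_ e3
      rw [e2, mul_comm]
      exact mul_le_mul_of_nonneg_left e4 (by positivity)
    calc (Real.exp z)⁻¹ * y ^ 2 * (Real.log 2 ^ 2 / 4) ^ (2 * k)
        = (Real.exp z)⁻¹ * (y ^ 2 * (Real.log 2 ^ 2 / 4) ^ (2 * k)) := by ring
      _ ≤ (Real.exp z)⁻¹ * ((2 * k).factorial * Real.exp z) :=
          mul_le_mul_of_nonneg_left e5 (by positivity)
      _ = (2 * k).factorial := by
          field_simp
  have h3 := hc y Y hy hY hY1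
  have hs : 1 ≤ √(2 * π) := by
    rw [Real.one_le_sqrt]
    have := Real.pi_gt_three
    linarith
  have hsY : 0 < √(2 * π) * Y := by positivity
  have h4 : y ^ ε * (y * Y + 1) ≤ 2 * P := by
    have e1 : y ^ ε * (y * Y) = P := by
      rw [hyY, ← Real.rpow_add hy0, hP]
      congr 1
      ring
    have e2 : y ^ ε * 1 ≤ y ^ ε * (y * Y) := mul_le_mul_of_nonneg_left hyY1 (by positivity)
    rw [mul_add]
    linarith
  have h5 : ‖GI k 0 y Y 0‖ ≤ √(2 * π) * Y * (2 * C2 * P) := by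
    refine h1.trans ?_
    have : 0 ≤ Y * (2 * C2 * P) := by positivity
    nlinarith
  have h6 : C1 * y ^ ε * (y * Y + 1) +
      C1 * (Real.exp (-(Real.log 2 ^ 2 / (4 * Y ^ 2))) * y ^ 2) ≤ (2 * C1 + C1 * F) * P := by
    have a1 := mul_le_mul_of_nonneg_left h4 hC1.le
    have a2 := mul_le_mul_of_nonneg_left h2 hC1.le
    have a3 : 0 ≤ C1 * F := by positivity
    nlinarith
  have h7 := mul_le_mul_of_nonneg_left h6 hsY.le
  have h8 : |Ek k y| * (√(2 * π) * Y) ≤ ((2 * C2 + 2 * C1 + C1 * F) * P) * (√(2 * π) * Y) := by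
    refine (h3.trans (add_le_add h5 h7)).trans (le_of_eq ?_)
    ring
  exact le_of_mul_le_mul_right h8 hsY
--END ZD1

--BEGIN ZD2
/-- **ZD2.** `τ = 0`: `GI ≪ Y T^{β+1/8}`. -/
theorem GI_zero_bound {k : ℕ} (hk : 4 ≤ k) {β : ℝ} (hβ : 1 ≤ β) (hβ' : β ≤ 2) :
    ∃ C : ℝ, 0 < C ∧ ∀ T : ℝ, 1 ≤ T → ∀ y ∈ Icc T (2 * T),
      ‖GI k β y (Yk k T) 0‖ ≤ C * Yk k T * T ^ (β + 1 / 8) := by
  obtain ⟨C, hC, h⟩ := ZD1_GI (k := k) (by omega)
  have hk0 : (0:ℝ) < k := by exact_mod_cast (by omega : 0 < k)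
  refine ⟨C * 8, by positivity, fun T hT y hy => ?_⟩
  have hT0 : 0 < T := by linarith
  have hy0 : 0 < y := by linarith [hy.1]
  have hY0 : 0 < Yk k T := Real.rpow_pos_of_pos hT0 _
  have hY1 : Yk k T ≤ 1 := Real.rpow_le_one_of_one_le_of_nonpos hT (by
    have : 0 ≤ 1 / (2 * (k:ℝ)) := by positivity
    linarith)
  have h1 := h β y (Yk k T) (by linarith) hβ' hy0 hY0 hY1
  have e1 : Yk k T ^ (-(3 / 4 * (k : ℝ))) = T ^ (3 / 8 : ℝ) := by
    unfold Yk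
    rw [← Real.rpow_mul hT0.le]
    congr 1
    field_simp
    norm_num
  have k1 : y ^ β ≤ 4 * T ^ β := by
    calc y ^ β ≤ (2 * T) ^ β := Real.rpow_le_rpow hy0.le hy.2 (by linarith)
      _ = 2 ^ β * T ^ β := Real.mul_rpow (by norm_num) hT0.le
      _ ≤ 2 ^ (2:ℝ) * T ^ β := mul_le_mul_of_nonneg_right
          (Real.rpow_le_rpow_of_exponent_le (by norm_num) hβ') (by positivity)
      _ = 4 * T ^ β := by norm_num
  have k2 : y ^ (β - 1 / 4) ≤ 4 * T ^ (β - 1 / 4) := by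
    calc y ^ (β - 1 / 4) ≤ (2 * T) ^ (β - 1 / 4) := Real.rpow_le_rpow hy0.le hy.2 (by linarith)
      _ = 2 ^ (β - 1 / 4) * T ^ (β - 1 / 4) := Real.mul_rpow (by norm_num) hT0.le
      _ ≤ 2 ^ (2:ℝ) * T ^ (β - 1 / 4) := mul_le_mul_of_nonneg_right
          (Real.rpow_le_rpow_of_exponent_le (by norm_num) (by linarith)) (by positivity)
      _ = 4 * T ^ (β - 1 / 4) := by norm_num
  have k3 : T ^ β ≤ T ^ (β + 1 / 8) := Real.rpow_le_rpow_of_exponent_le hT (by linarith)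
  have k4 : T ^ (β - 1 / 4) * T ^ (3 / 8 : ℝ) = T ^ (β + 1 / 8) := by
    rw [← Real.rpow_add hT0]
    congr 1
    ring
  rw [e1] at h1
  refine h1.trans ?_
  have k5 : y ^ β + y ^ (β - 1 / 4) * T ^ (3 / 8 : ℝ) ≤ 8 * T ^ (β + 1 / 8) := by
    have := mul_le_mul_of_nonneg_right k2 (show 0 ≤ T ^ (3 / 8 : ℝ) by positivity)
    nlinarith
  calc C * Yk k T * (y ^ β + y ^ (β - 1 / 4) * T ^ (3 / 8 : ℝ))
      ≤ C * Yk k T * (8 * T ^ (β + 1 / 8)) := mul_le_mul_of_nonneg_left k5 (by positivity)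
    _ = _ := by ring
--END ZD2

--BEGIN ZD3
/-- **ZD3.** A Gaussian integral with a complex variance. -/
theorem gauss_complex {A : ℂ} (hA : 0 < A.re) (c : ℝ) :
    ∫ v : ℝ, cexp (I * c * v - A * v ^ 2 / 2) =
      (2 * π / A) ^ (1 / 2 : ℂ) * cexp (-(c : ℂ) ^ 2 / (2 * A)) := by
  have hA0 : A ≠ 0 := by
    rintro rfl
    simp at hA
  have hb : (-(A / 2)).re < 0 := by
    have h1 : (-(A / 2)).re = -(A.re / 2) := by simp
    rw [h1]
    linarith
  have h1 := integral_cexp_quadratic hb (I * c) 0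
  have h2 : ∀ v : ℝ, cexp (I * c * v - A * v ^ 2 / 2) =
      cexp (-(A / 2) * (v : ℂ) ^ 2 + I * c * v + 0) := by
    intro v
    congr 1
    ring
  simp only [h2]
  rw [h1]
  congr 2
  · field_simp
  · have h3 : (I * (c : ℂ)) ^ 2 = -(c : ℂ) ^ 2 := by
      rw [mul_pow, Complex.I_sq]
      ring
    rw [h3]
    field_simp
    ring
--END ZD3

--BEGIN ZD4
private theorem ZD4_pow (a b : ℂ) {M : ℝ} (ha : ‖a‖ ≤ M) (hb : ‖b‖ ≤ M) (k : ℕ) :
    ‖a ^ k - b ^ k‖ ≤ k * M ^ (k - 1) * ‖a - b‖ := by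
  have hM : 0 ≤ M := (norm_nonneg a).trans ha
  rw [← geom_sum₂_mul, norm_mul]
  refine mul_le_mul_of_nonneg_right ?_ (norm_nonneg _)
  refine (norm_sum_le _ _).trans ?_
  have h1 : ∀ i ∈ Finset.range k, ‖a ^ i * b ^ (k - 1 - i)‖ ≤ M ^ (k - 1) := by
    intro i hi
    rw [Finset.mem_range] at hi
    rw [norm_mul, norm_pow, norm_pow]
    calc ‖a‖ ^ i * ‖b‖ ^ (k - 1 - i) ≤ M ^ i * M ^ (k - 1 - i) := by gcongr
      _ = M ^ (k - 1) := by
          rw [← pow_add]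
          congr 1
          omega
  refine (Finset.sum_le_sum h1).trans ?_
  rw [Finset.sum_const, Finset.card_range, nsmul_eq_mul]

private theorem ZD4_log {x : ℝ} (hx : |x| ≤ 1 / 2) :
    |(1 + x) * Real.log (1 + x) - x - x ^ 2 / 2| ≤ 4 * |x| ^ 3 := by
  have h1 := Real.abs_log_sub_add_sum_range_le (x := -x) (by rw [abs_neg]; linarith) 2
  rw [abs_neg, sub_neg_eq_add] at h1
  simp only [Finset.sum_range_succ, Finset.sum_range_zero] at h1
  norm_num at h1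
  have h2 : |x| ^ 3 / (1 - |x|) ≤ 2 * |x| ^ 3 := by
    rw [div_le_iff₀ (by linarith)]
    have : 0 ≤ |x| ^ 3 := by positivity
    nlinarith
  set R := -x + x ^ 2 / 2 + Real.log (1 + x) with hR
  have h3 : |R| ≤ 2 * |x| ^ 3 := h1.trans h2
  have h4 : (1 + x) * Real.log (1 + x) - x - x ^ 2 / 2 = -(x ^ 3 / 2) + (1 + x) * R := by
    rw [hR]
    ring
  have h5 : |1 + x| ≤ 3 / 2 := by
    rw [abs_le] at hx ⊢
    constructor <;> linarith
  rw [h4]
  calc |-(x ^ 3 / 2) + (1 + x) * R| ≤ |-(x ^ 3 / 2)| + |(1 + x) * R| := abs_add_le _ _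
    _ = |x| ^ 3 / 2 + |1 + x| * |R| := by
        rw [abs_neg, abs_div, abs_pow, abs_mul]
        norm_num
    _ ≤ |x| ^ 3 / 2 + 3 / 2 * (2 * |x| ^ 3) := by
        gcongr
    _ ≤ 4 * |x| ^ 3 := by
        have : 0 ≤ |x| ^ 3 := by positivity
        linarith

private theorem ZD4_phase {τ v : ℝ} (hτ : 0 < τ) (hv : |v| ≤ τ / 2) :
    |(τ + v) * Real.log ((τ + v) / (2 * π * Real.exp 1)) -
      (τ * Real.log (τ / (2 * π * Real.exp 1)) + v * Real.log (τ / (2 * π)) + v ^ 2 / (2 * τ))| ≤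
      4 * (|v| ^ 3 / τ ^ 2) := by
  have hx : |v / τ| ≤ 1 / 2 := by
    rw [abs_div, abs_of_pos hτ, div_le_iff₀ hτ]
    linarith
  have ht : 0 < τ + v := by
    have := (abs_le.1 hv).1
    linarith
  have hpi := Real.pi_pos
  have h1 := ZD4_log hx
  have h1x : 1 + v / τ = (τ + v) / τ := by field_simp
  have h2 : (τ + v) * Real.log ((τ + v) / (2 * π * Real.exp 1)) -
      (τ * Real.log (τ / (2 * π * Real.exp 1)) + v * Real.log (τ / (2 * π)) + v ^ 2 / (2 * τ)) =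
      τ * ((1 + v / τ) * Real.log (1 + v / τ) - v / τ - (v / τ) ^ 2 / 2) := by
    have e1 : Real.log ((τ + v) / (2 * π * Real.exp 1)) =
        Real.log (1 + v / τ) + Real.log τ - Real.log (2 * π) - 1 := by
      rw [h1x, ← div_div, Real.log_div (by positivity) (by positivity), Real.log_exp,
        Real.log_div (by positivity) (by positivity), Real.log_div (by positivity) (by positivity)]
      ring
    have e2 : Real.log (τ / (2 * π * Real.exp 1)) = Real.log τ - Real.log (2 * π) - 1 := by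
      rw [← div_div, Real.log_div (by positivity) (by positivity), Real.log_exp,
        Real.log_div (by positivity) (by positivity)]
    have e3 : Real.log (τ / (2 * π)) = Real.log τ - Real.log (2 * π) :=
      Real.log_div (by positivity) (by positivity)
    rw [e1, e2, e3]
    generalize Real.log (1 + v / τ) = l1
    generalize Real.log τ = l2
    generalize Real.log (2 * π) = l3
    field_simp
    ring
  rw [h2, abs_mul, abs_of_pos hτ]
  calc τ * |(1 + v / τ) * Real.log (1 + v / τ) - v / τ - (v / τ) ^ 2 / 2|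
      ≤ τ * (4 * |v / τ| ^ 3) := mul_le_mul_of_nonneg_left h1 hτ.le
    _ = 4 * (|v| ^ 3 / τ ^ 2) := by
        rw [abs_div, abs_of_pos hτ]
        field_simp

private theorem ZD4_amp {a : ℝ} (ha : 0 ≤ a) {τ v : ℝ} (hτ : 0 < τ) (hv : |v| ≤ τ / 2) :
    |((τ + v) / (2 * π)) ^ a - (τ / (2 * π)) ^ a| ≤
      (a * (3 / 2) ^ a * 2) * (τ ^ a * (|v| / τ)) := by
  have hpi := Real.pi_gt_three
  set f : ℝ → ℝ := fun x => (x / (2 * π)) ^ a with hf
  have hd : ∀ x ∈ Icc (τ / 2) (3 / 2 * τ), HasDerivWithinAt f (a * (x / (2 * π)) ^ a / x)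
      (Icc (τ / 2) (3 / 2 * τ)) x := by
    intro x hx
    have hx0 : 0 < x := lt_of_lt_of_le (by positivity) hx.1
    have h1 : HasDerivAt (fun x : ℝ => x / (2 * π)) (1 / (2 * π)) x :=
      (hasDerivAt_id x).div_const _
    have h2 := h1.rpow_const (p := a) (Or.inl (by positivity))
    have h3 : 1 / (2 * π) * a * (x / (2 * π)) ^ (a - 1) = a * (x / (2 * π)) ^ a / x := by
      rw [Real.rpow_sub_one (by positivity)]
      field_simp
    rw [h3] at h2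
    exact h2.hasDerivWithinAt
  have hb : ∀ x ∈ Icc (τ / 2) (3 / 2 * τ), ‖a * (x / (2 * π)) ^ a / x‖ ≤
      a * (3 / 2) ^ a * 2 * (τ ^ a / τ) := by
    intro x hx
    have hx0 : 0 < x := lt_of_lt_of_le (by positivity) hx.1
    rw [Real.norm_eq_abs, abs_of_nonneg (by positivity)]
    have h1 : (x / (2 * π)) ^ a ≤ (3 / 2) ^ a * τ ^ a := by
      rw [← Real.mul_rpow (by norm_num) hτ.le]
      refine Real.rpow_le_rpow (by positivity) ?_ ha
      rw [div_le_iff₀ (by positivity)]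
      have := hx.2
      nlinarith
    calc a * (x / (2 * π)) ^ a / x ≤ a * ((3 / 2) ^ a * τ ^ a) / (τ / 2) := by
          have := hx.1
          gcongr
      _ = a * (3 / 2) ^ a * 2 * (τ ^ a / τ) := by field_simp
  have h := (convex_Icc (τ / 2) (3 / 2 * τ)).norm_image_sub_le_of_norm_hasDerivWithin_le hd hb
    (x := τ) (y := τ + v) ⟨by linarith, by linarith⟩
    ⟨by linarith [(abs_le.1 hv).1], by linarith [(abs_le.1 hv).2]⟩
  rw [Real.norm_eq_abs, Real.norm_eq_abs, add_sub_cancel_left] at h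
  refine h.trans (le_of_eq ?_)
  ring

/-- **ZD4.** Local form of the integrand near `t = -τ`, i.e. for `ζ(-1/4 + i(τ+v))`: the phase of
`χ^k` is quadratic up to `O((1+|v|)/τ + |v|³/τ²)`, `|v| ≤ τ/2`. -/
theorem chi_pow_local {k : ℕ} (hk : 4 ≤ k) : ∃ (z : ℂ) (C : ℝ), z ≠ 0 ∧ 0 < C ∧ ∀ τ v : ℝ, 2 ≤ τ →
    |v| ≤ τ / 2 →
    ‖chi (-(1 / 4) + (τ + v : ℝ) * I) ^ k -
      z * ((((τ / (2 * π)) ^ (3 / 4 * (k : ℝ)) : ℝ)) : ℂ) *
      cexp (I * (-(k * τ * Real.log (τ / (2 * π * Real.exp 1))) -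
        k * v * Real.log (τ / (2 * π)) - k * v ^ 2 / (2 * τ) : ℝ))‖ ≤
      C * τ ^ (3 / 4 * (k : ℝ)) * ((1 + |v|) / τ + |v| ^ 3 / τ ^ 2) := by
  obtain ⟨z0, C0, hz0, hC0, hchi⟩ := chi_asymp
  have hpi := Real.pi_gt_three
  have hkr : (4 : ℝ) ≤ k := by exact_mod_cast hk
  set a : ℝ := 3 / 4 * (k : ℝ) with ha
  have ha0 : 0 ≤ a := by positivity
  have hz0n : 0 < ‖z0‖ := norm_pos_iff.2 hz0
  set K1 : ℝ := k * (‖z0‖ + C0) ^ (k - 1) * C0 * (2 * (3 / 2) ^ a) with hK1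
  set K2 : ℝ := ‖z0‖ ^ k * (a * (3 / 2) ^ a * 2) with hK2
  set K3 : ℝ := ‖z0‖ ^ k * (4 * k) with hK3
  have hK10 : 0 ≤ K1 := by positivity
  have hK20 : 0 ≤ K2 := by positivity
  have hK30 : 0 ≤ K3 := by positivity
  refine ⟨z0 ^ k, K1 + K2 + K3 + 1, pow_ne_zero k hz0, by linarith, fun τ v hτ hv => ?_⟩
  have hτ0 : 0 < τ := by linarith
  have hv1 := (abs_le.1 hv).1
  have hv2 := (abs_le.1 hv).2
  set t : ℝ := τ + v with ht
  have ht1 : 1 ≤ t := by linarith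
  have ht0 : 0 < t := by linarith
  have ht2 : τ / 2 ≤ t := by linarith
  have ht3 : t ≤ 3 / 2 * τ := by linarith
  set bb : ℂ := z0 * ((((t / (2 * π)) ^ (3 / 4 : ℝ) : ℝ)) : ℂ) *
      cexp (I * (-(t * Real.log (t / (2 * π * Real.exp 1))) : ℝ)) with hbb
  have hab := hchi t ht1
  have hexp1 : ∀ r : ℝ, ‖cexp (I * (r : ℂ))‖ = 1 := by
    intro r
    rw [mul_comm, Complex.norm_exp_ofReal_mul_I]
  have ht34 : 0 < t ^ (3 / 4 : ℝ) := Real.rpow_pos_of_pos ht0 _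
  have hbn : ‖bb‖ ≤ ‖z0‖ * t ^ (3 / 4 : ℝ) := by
    rw [hbb, norm_mul, norm_mul, hexp1, mul_one, Complex.norm_real, Real.norm_eq_abs,
      abs_of_nonneg (Real.rpow_nonneg (by positivity) _)]
    refine mul_le_mul_of_nonneg_left ?_ (norm_nonneg _)
    refine Real.rpow_le_rpow (by positivity) ?_ (by norm_num)
    rw [div_le_iff₀ (by positivity)]
    nlinarith
  have ht14 : t ^ (-(1 / 4) : ℝ) ≤ t ^ (3 / 4 : ℝ) :=
    Real.rpow_le_rpow_of_exponent_le ht1 (by norm_num)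
  have hbM : ‖bb‖ ≤ (‖z0‖ + C0) * t ^ (3 / 4 : ℝ) := by
    have : 0 ≤ C0 * t ^ (3 / 4 : ℝ) := by positivity
    linarith
  have haM : ‖chi (-(1 / 4) + (t : ℝ) * I)‖ ≤ (‖z0‖ + C0) * t ^ (3 / 4 : ℝ) := by
    have h4 := norm_le_norm_add_norm_sub' (chi (-(1 / 4) + (t : ℝ) * I)) bb
    have h5 : C0 * t ^ (-(1 / 4) : ℝ) ≤ C0 * t ^ (3 / 4 : ℝ) := mul_le_mul_of_nonneg_left ht14 hC0.le
    linarith
  -- first error
  have herr1 : ‖chi (-(1 / 4) + (t : ℝ) * I) ^ k - bb ^ k‖ ≤ K1 * (τ ^ a * (1 / τ)) := by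
    have h1 := ZD4_pow _ _ haM hbM k
    have h2 : ((‖z0‖ + C0) * t ^ (3 / 4 : ℝ)) ^ (k - 1) * (C0 * t ^ (-(1 / 4) : ℝ)) =
        (‖z0‖ + C0) ^ (k - 1) * C0 * (t ^ a / t) := by
      have h3 : (t ^ (3 / 4 : ℝ)) ^ (k - 1) * t ^ (-(1 / 4) : ℝ) = t ^ a / t := by
        rw [← Real.rpow_natCast, ← Real.rpow_mul ht0.le, ← Real.rpow_add ht0,
          ← Real.rpow_sub_one ht0.ne']
        congr 1
        rw [Nat.cast_sub (by omega), ha]
        push_cast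
        ring
      rw [mul_pow, ← h3]
      ring
    have h4 : t ^ a / t ≤ (2 * (3 / 2) ^ a) * (τ ^ a * (1 / τ)) := by
      have h5 : t ^ a ≤ (3 / 2) ^ a * τ ^ a := by
        rw [← Real.mul_rpow (by norm_num) hτ0.le]
        exact Real.rpow_le_rpow ht0.le ht3 ha0
      calc t ^ a / t ≤ (3 / 2) ^ a * τ ^ a / (τ / 2) := by gcongr
        _ = (2 * (3 / 2) ^ a) * (τ ^ a * (1 / τ)) := by field_simp
    calc ‖chi (-(1 / 4) + (t : ℝ) * I) ^ k - bb ^ k‖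
        ≤ k * ((‖z0‖ + C0) * t ^ (3 / 4 : ℝ)) ^ (k - 1) * ‖chi (-(1 / 4) + (t : ℝ) * I) - bb‖ := h1
      _ ≤ k * ((‖z0‖ + C0) * t ^ (3 / 4 : ℝ)) ^ (k - 1) * (C0 * t ^ (-(1 / 4) : ℝ)) :=
          mul_le_mul_of_nonneg_left hab (by positivity)
      _ = k * ((‖z0‖ + C0) ^ (k - 1) * C0) * (t ^ a / t) := by rw [mul_assoc, h2]; ring
      _ ≤ k * ((‖z0‖ + C0) ^ (k - 1) * C0) * ((2 * (3 / 2) ^ a) * (τ ^ a * (1 / τ))) :=
          mul_le_mul_of_nonneg_left h4 (by positivity)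
      _ = K1 * (τ ^ a * (1 / τ)) := by rw [hK1]; ring
  -- the power of the main term
  have hbk : bb ^ k = z0 ^ k * ((((t / (2 * π)) ^ a : ℝ)) : ℂ) *
      cexp (I * ((-(k * (t * Real.log (t / (2 * π * Real.exp 1)))) : ℝ) : ℂ)) := by
    rw [hbb, mul_pow, mul_pow, ← Complex.exp_nat_mul, ← Complex.ofReal_pow]
    have h1 : ((t / (2 * π)) ^ (3 / 4 : ℝ)) ^ k = (t / (2 * π)) ^ a := by
      rw [← Real.rpow_natCast, ← Real.rpow_mul (by positivity)]
    rw [h1]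
    congr 2
    push_cast
    ring
  have hamp := ZD4_amp ha0 hτ0 hv
  have hph := ZD4_phase hτ0 hv
  rw [← ht] at hamp hph
  set A : ℝ := -(k * (t * Real.log (t / (2 * π * Real.exp 1)))) with hA
  set B : ℝ := -(k * τ * Real.log (τ / (2 * π * Real.exp 1))) -
        k * v * Real.log (τ / (2 * π)) - k * v ^ 2 / (2 * τ) with hB
  have hAB : |A - B| ≤ 4 * k * (|v| ^ 3 / τ ^ 2) := by
    have h1 : A - B = -(k * (t * Real.log (t / (2 * π * Real.exp 1)) -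
      (τ * Real.log (τ / (2 * π * Real.exp 1)) + v * Real.log (τ / (2 * π)) +
        v ^ 2 / (2 * τ)))) := by
      rw [hA, hB]
      ring
    rw [h1, abs_neg, abs_mul, abs_of_nonneg (by positivity : (0 : ℝ) ≤ k)]
    calc (k : ℝ) * |t * Real.log (t / (2 * π * Real.exp 1)) -
      (τ * Real.log (τ / (2 * π * Real.exp 1)) + v * Real.log (τ / (2 * π)) +
        v ^ 2 / (2 * τ))| ≤ k * (4 * (|v| ^ 3 / τ ^ 2)) :=
          mul_le_mul_of_nonneg_left hph (by positivity)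
      _ = 4 * k * (|v| ^ 3 / τ ^ 2) := by ring
  have hee : ‖cexp (I * (A : ℂ)) - cexp (I * (B : ℂ))‖ ≤ |A - B| := by
    have h1 : cexp (I * (A : ℂ)) - cexp (I * (B : ℂ)) =
        cexp (I * (B : ℂ)) * (cexp (I * ((A - B : ℝ) : ℂ)) - 1) := by
      rw [mul_sub, ← Complex.exp_add, mul_one]
      congr 2
      push_cast
      ring
    rw [h1, norm_mul, hexp1, one_mul]
    exact Real.norm_exp_I_mul_ofReal_sub_one_le
  have hP0 : (τ / (2 * π)) ^ a ≤ τ ^ a := by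
    refine Real.rpow_le_rpow (by positivity) ?_ ha0
    rw [div_le_iff₀ (by positivity)]
    nlinarith
  have herr2 : ‖bb ^ k - z0 ^ k * ((((τ / (2 * π)) ^ a : ℝ)) : ℂ) * cexp (I * (B : ℂ))‖ ≤
      K2 * (τ ^ a * (|v| / τ)) + K3 * (τ ^ a * (|v| ^ 3 / τ ^ 2)) := by
    rw [hbk]
    have h1 : z0 ^ k * ((((t / (2 * π)) ^ a : ℝ)) : ℂ) * cexp (I * (A : ℂ)) -
        z0 ^ k * ((((τ / (2 * π)) ^ a : ℝ)) : ℂ) * cexp (I * (B : ℂ)) =
        z0 ^ k * ((((t / (2 * π)) ^ a - (τ / (2 * π)) ^ a : ℝ) : ℂ) * cexp (I * (A : ℂ))) +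
        z0 ^ k * ((((τ / (2 * π)) ^ a : ℝ) : ℂ) * (cexp (I * (A : ℂ)) - cexp (I * (B : ℂ)))) := by
      push_cast
      ring
    rw [h1]
    refine (norm_add_le _ _).trans (add_le_add ?_ ?_)
    · rw [norm_mul, norm_mul, norm_pow, hexp1, mul_one, Complex.norm_real, Real.norm_eq_abs]
      calc ‖z0‖ ^ k * |(t / (2 * π)) ^ a - (τ / (2 * π)) ^ a|
          ≤ ‖z0‖ ^ k * ((a * (3 / 2) ^ a * 2) * (τ ^ a * (|v| / τ))) :=
            mul_le_mul_of_nonneg_left hamp (by positivity)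
        _ = K2 * (τ ^ a * (|v| / τ)) := by rw [hK2]; ring
    · rw [norm_mul, norm_mul, norm_pow, Complex.norm_real, Real.norm_eq_abs,
        abs_of_nonneg (Real.rpow_nonneg (by positivity) _)]
      calc ‖z0‖ ^ k * ((τ / (2 * π)) ^ a * ‖cexp (I * (A : ℂ)) - cexp (I * (B : ℂ))‖)
          ≤ ‖z0‖ ^ k * (τ ^ a * (4 * k * (|v| ^ 3 / τ ^ 2))) := by
            have := hee.trans hAB
            gcongr
        _ = K3 * (τ ^ a * (|v| ^ 3 / τ ^ 2)) := by rw [hK3]; ring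
  have htri := norm_add_le (chi (-(1 / 4) + (t : ℝ) * I) ^ k - bb ^ k)
    (bb ^ k - z0 ^ k * ((((τ / (2 * π)) ^ a : ℝ)) : ℂ) * cexp (I * (B : ℂ)))
  rw [sub_add_sub_cancel] at htri
  refine htri.trans ?_
  have hτa : 0 < τ ^ a := Real.rpow_pos_of_pos hτ0 _
  set q1 := τ ^ a * (1 / τ) with hq1
  set q2 := τ ^ a * (|v| / τ) with hq2
  set q3 := τ ^ a * (|v| ^ 3 / τ ^ 2) with hq3
  have hq10 : 0 ≤ q1 := by positivity
  have hq20 : 0 ≤ q2 := by positivity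
  have hq30 : 0 ≤ q3 := by positivity
  have hfin : (K1 + K2 + K3 + 1) * τ ^ a * ((1 + |v|) / τ + |v| ^ 3 / τ ^ 2) =
      (K1 + K2 + K3 + 1) * (q1 + q2 + q3) := by
    rw [hq1, hq2, hq3]
    ring
  rw [hfin]
  have e1 : K1 * q1 ≤ (K1 + K2 + K3 + 1) * q1 := mul_le_mul_of_nonneg_right (by linarith) hq10
  have e2 : K2 * q2 ≤ (K1 + K2 + K3 + 1) * q2 := mul_le_mul_of_nonneg_right (by linarith) hq20
  have e3 : K3 * q3 ≤ (K1 + K2 + K3 + 1) * q3 := mul_le_mul_of_nonneg_right (by linarith) hq30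
  rw [mul_add, mul_add]
  linarith
--END ZD4

/-- The `n`-th term of the resonant integral. -/
noncomputable def Jn (k : ℕ) (β y Y τ : ℝ) (n : ℕ) : ℂ :=
  ∫ v in (-(τ / 2))..(τ / 2), chi (-(1 / 4) + (τ + v : ℝ) * I) ^ k *
    ((n * y : ℝ) : ℂ) ^ ((τ + v : ℝ) * I) *
    cexp ((Y : ℂ) ^ 2 * (β - 1 / 4 + v * I) ^ 2 / 2) / (-(1 / 4) + (τ + v : ℝ) * I)

--BEGIN ZD5
private theorem ZD5_poly {Y v : ℝ} (hY : 0 < Y) (hY1 : Y ≤ 1) :
    (1 + |v|) * Real.exp (-(Y ^ 2 * v ^ 2 / 2)) ≤ 2 * Y⁻¹ * Real.exp (-(Y ^ 2 * v ^ 2 / 4)) ∧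
    |v| ^ 3 * Real.exp (-(Y ^ 2 * v ^ 2 / 2)) ≤
      8 * Y⁻¹ ^ 3 * Real.exp (-(Y ^ 2 * v ^ 2 / 4)) := by
  have hu : 0 ≤ Y * |v| := by positivity
  have h0 : Y ^ 2 * v ^ 2 / 4 = (Y * |v|) ^ 2 / 4 := by rw [mul_pow, sq_abs]
  have h1 := Real.quadratic_le_exp_of_nonneg (x := (Y * |v|) ^ 2 / 4) (by positivity)
  have h2 : Real.exp (-(Y ^ 2 * v ^ 2 / 2)) =
      Real.exp (-(Y ^ 2 * v ^ 2 / 4)) * Real.exp (-(Y ^ 2 * v ^ 2 / 4)) := by
    rw [← Real.exp_add]; ring_nf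
  have h3 : Real.exp ((Y * |v|) ^ 2 / 4) * Real.exp (-(Y ^ 2 * v ^ 2 / 4)) = 1 := by
    rw [h0, ← Real.exp_add]; simp
  have hv : |v| = Y⁻¹ * (Y * |v|) := by field_simp
  have hE : 0 < Real.exp (-(Y ^ 2 * v ^ 2 / 4)) := Real.exp_pos _
  have hYi : 1 ≤ Y⁻¹ := (one_le_inv₀ hY).2 hY1
  rw [h2]
  generalize Real.exp (-(Y ^ 2 * v ^ 2 / 4)) = E at *
  generalize Real.exp ((Y * |v|) ^ 2 / 4) = e at *
  generalize Y * |v| = u at *
  generalize Y⁻¹ = Z at *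
  rw [hv]
  have he1 : u ≤ e := by nlinarith [sq_nonneg (u / 2 - 1), sq_nonneg (u ^ 2)]
  have he2 : 1 ≤ e := by nlinarith [sq_nonneg u, sq_nonneg (u ^ 2)]
  have he3 : u ^ 3 ≤ 8 * e := by
    have : 0 ≤ u ^ 2 * ((u / 2 - 1) ^ 2 + 1) := by positivity
    nlinarith
  constructor
  · have h4 : 1 + Z * u ≤ 2 * Z * e := by nlinarith
    calc (1 + Z * u) * (E * E) ≤ (2 * Z * e) * (E * E) := by gcongr
      _ = 2 * Z * E * (e * E) := by ring
      _ = 2 * Z * E := by rw [h3, mul_one]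
  · calc (Z * u) ^ 3 * (E * E) = Z ^ 3 * u ^ 3 * (E * E) := by ring
      _ ≤ Z ^ 3 * (8 * e) * (E * E) := by gcongr
      _ = 8 * Z ^ 3 * E * (e * E) := by ring
      _ = 8 * Z ^ 3 * E := by rw [h3, mul_one]

private theorem ZD5_g {Y b v : ℝ} (hY : 0 < Y) (hY1 : Y ≤ 1) (hb : 0 ≤ b) (hb' : b ≤ 2) :
    ‖cexp ((Y : ℂ) ^ 2 * (b + v * I) ^ 2 / 2)‖ ≤
      Real.exp 2 * Real.exp (-(Y ^ 2 * v ^ 2 / 2)) := by
  rw [Complex.norm_exp, ← Real.exp_add]
  apply Real.exp_le_exp.2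
  have : ((Y : ℂ) ^ 2 * (b + v * I) ^ 2 / 2).re = Y ^ 2 * b ^ 2 / 2 - Y ^ 2 * v ^ 2 / 2 := by
    have h1 : ((Y : ℂ) ^ 2 * (b + v * I) ^ 2 / 2) =
        ((Y ^ 2 * b ^ 2 / 2 - Y ^ 2 * v ^ 2 / 2 : ℝ) : ℂ) + ((Y ^ 2 * b * v : ℝ) : ℂ) * I := by
      push_cast
      have := Complex.I_sq
      linear_combination ((Y : ℂ) ^ 2 * v ^ 2 / 2) * this
    rw [h1, Complex.add_re, Complex.ofReal_re, Complex.mul_I_re, Complex.ofReal_im, neg_zero,
      add_zero]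
  rw [this]
  have h1 : Y ^ 2 ≤ 1 := pow_le_one₀ hY.le hY1
  have h2 : b ^ 2 ≤ 4 := by nlinarith
  nlinarith [sq_nonneg Y, sq_nonneg b]

private theorem ZD5_chi_cont (τ : ℝ) : Continuous (fun v : ℝ => chi (-(1 / 4) + (τ + v : ℝ) * I)) := by
  unfold chi
  refine ((continuous_const.mul ?_).mul ?_).mul ?_
  · refine Continuous.const_cpow (by fun_prop) (Or.inl ?_)
    norm_cast
    positivity
  · rw [continuous_iff_continuousAt]
    intro v
    have h1 : ContinuousAt Gamma (1 - (-(1 / 4) + (τ + v : ℝ) * I)) := by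
      refine (Complex.differentiableAt_Gamma _ fun m => ?_).continuousAt
      intro h
      have := congrArg Complex.re h
      simp at this
      have hm : (0 : ℝ) ≤ m := by positivity
      norm_num at this
      linarith
    exact ContinuousAt.comp (f := fun v : ℝ => 1 - (-(1 / 4) + (τ + v : ℝ) * I)) h1
      (by fun_prop)
  · fun_prop

/-- pointwise comparison -/
private theorem ZD5_pt {X M N g K : ℂ} {τ v Y y34 C B : ℝ} (E : ℂ) (hτ : 2 ≤ τ) (hY : 0 < Y)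
    (hY1 : Y ≤ 1) (hy : 0 < y34) (hC : 0 < C) (hB : 0 < B)
    (hM : ‖M‖ ≤ B * y34) (hN : ‖N‖ = 1)
    (hg : ‖g‖ ≤ Real.exp 2 * Real.exp (-(Y ^ 2 * v ^ 2 / 2)))
    (hK : M * N * g = K * E)
    (hX : |v| ≤ τ / 2 → ‖X - M‖ ≤ C * y34 * ((1 + |v|) / τ + |v| ^ 3 / τ ^ 2)) :
    (|v| ≤ τ / 2 → ‖X * N * g / (-(1 / 4) + (τ + v : ℝ) * I) - K * E / (I * τ)‖ ≤
      (16 * C + 4 * B) * Real.exp 2 * y34 * (Y⁻¹ / τ ^ 2 + Y⁻¹ ^ 3 / τ ^ 3) *
        Real.exp (-(Y ^ 2 * v ^ 2 / 4))) ∧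
    (τ / 2 ≤ |v| → ‖K * E / (I * τ)‖ ≤
      (16 * C + 4 * B) * Real.exp 2 * y34 * (Y⁻¹ / τ ^ 2 + Y⁻¹ ^ 3 / τ ^ 3) *
        Real.exp (-(Y ^ 2 * v ^ 2 / 4))) := by
  obtain ⟨p1, p2⟩ := ZD5_poly (v := v) hY hY1
  have hτ0 : 0 < τ := by linarith
  have hE2 : 0 < Real.exp 2 := Real.exp_pos 2
  have hg0 : 0 < Real.exp (-(Y ^ 2 * v ^ 2 / 2)) := Real.exp_pos _
  have hg1 : 0 < Real.exp (-(Y ^ 2 * v ^ 2 / 4)) := Real.exp_pos _
  generalize Real.exp (-(Y ^ 2 * v ^ 2 / 2)) = e1 at *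
  generalize Real.exp (-(Y ^ 2 * v ^ 2 / 4)) = e2 at *
  generalize Real.exp 2 = c2 at *
  have hZ : 0 < Y⁻¹ := inv_pos.2 hY
  generalize Y⁻¹ = Z at *
  have hv0 := abs_nonneg v
  have p3 : e1 ≤ 2 * Z * e2 := by nlinarith
  have p4 : |v| * e1 ≤ 2 * Z * e2 := by nlinarith
  have hIτ : (I * τ : ℂ) ≠ 0 := mul_ne_zero I_ne_zero (by exact_mod_cast hτ0.ne')
  have hIτn : ‖(I * τ : ℂ)‖ = τ := by
    rw [norm_mul, Complex.norm_I, one_mul, Complex.norm_real, Real.norm_eq_abs, abs_of_pos hτ0]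
  constructor
  · intro hv
    have hs : τ / 2 ≤ ‖(-(1 / 4) + (τ + v : ℝ) * I : ℂ)‖ := by
      have h1 := Complex.abs_im_le_norm (-(1 / 4) + (τ + v : ℝ) * I : ℂ)
      have h2 : (-(1 / 4) + (τ + v : ℝ) * I : ℂ).im = τ + v := by simp
      rw [h2] at h1
      have h3 := (abs_le.1 hv).1
      have h4 := le_abs_self (τ + v)
      linarith
    have hs0 : (-(1 / 4) + (τ + v : ℝ) * I : ℂ) ≠ 0 := by
      intro h
      rw [h, norm_zero] at hs
      linarith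
    have key : X * N * g / (-(1 / 4) + (τ + v : ℝ) * I) - K * E / (I * τ) =
        (X - M) * N * g / (-(1 / 4) + (τ + v : ℝ) * I) +
        M * N * g * ((1 / 4 - v * I) / ((-(1 / 4) + (τ + v : ℝ) * I) * (I * τ))) := by
      have hd : (1 / 4 - v * I : ℂ) = I * τ - (-(1 / 4) + (τ + v : ℝ) * I) := by
        push_cast; ring
      rw [← hK, hd]
      generalize (-(1 / 4) + (τ + v : ℝ) * I : ℂ) = s at hs0
      generalize (I * τ : ℂ) = t at hIτ
      field_simp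
      ring
    rw [key]
    have hX' := hX hv
    have e3 : ‖(X - M) * N * g / (-(1 / 4) + (τ + v : ℝ) * I)‖ ≤
        16 * C * c2 * y34 * (Z / τ ^ 2 + Z ^ 3 / τ ^ 3) * e2 := by
      rw [norm_div, norm_mul, norm_mul, hN, mul_one]
      calc ‖X - M‖ * ‖g‖ / ‖(-(1 / 4) + (τ + v : ℝ) * I : ℂ)‖
          ≤ (C * y34 * ((1 + |v|) / τ + |v| ^ 3 / τ ^ 2)) * (c2 * e1) / (τ / 2) := by gcongr
        _ = C * y34 * c2 * 2 * (((1 + |v|) * e1) / τ ^ 2 + (|v| ^ 3 * e1) / τ ^ 3) := by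
            field_simp
        _ ≤ C * y34 * c2 * 2 * ((2 * Z * e2) / τ ^ 2 + (8 * Z ^ 3 * e2) / τ ^ 3) := by gcongr
        _ ≤ C * y34 * c2 * 2 * ((8 * Z * e2) / τ ^ 2 + (8 * Z ^ 3 * e2) / τ ^ 3) := by
            gcongr
            norm_num
        _ = _ := by ring
    have e4 : ‖M * N * g * ((1 / 4 - v * I) / ((-(1 / 4) + (τ + v : ℝ) * I) * (I * τ)))‖ ≤
        4 * B * c2 * y34 * (Z / τ ^ 2 + Z ^ 3 / τ ^ 3) * e2 := by
      rw [norm_mul, norm_mul, norm_mul, hN, mul_one, norm_div, norm_mul, hIτn]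
      have h5 : ‖(1 / 4 - v * I : ℂ)‖ ≤ 1 + |v| := by
        refine (norm_sub_le _ _).trans ?_
        rw [norm_mul, Complex.norm_I, mul_one, Complex.norm_real, Real.norm_eq_abs]
        norm_num
      calc ‖M‖ * ‖g‖ * (‖(1 / 4 - v * I : ℂ)‖ / (‖(-(1 / 4) + (τ + v : ℝ) * I : ℂ)‖ * τ))
          ≤ (B * y34) * (c2 * e1) * ((1 + |v|) / (τ / 2 * τ)) := by gcongr
        _ = B * y34 * c2 * 2 * (((1 + |v|) * e1) / τ ^ 2) := by field_simp
        _ ≤ B * y34 * c2 * 2 * ((2 * Z * e2) / τ ^ 2) := by gcongr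
        _ ≤ B * y34 * c2 * 2 * ((2 * Z * e2) / τ ^ 2) + 4 * B * c2 * y34 * (Z ^ 3 / τ ^ 3) * e2 := by
            have : 0 ≤ 4 * B * c2 * y34 * (Z ^ 3 / τ ^ 3) * e2 := by positivity
            linarith
        _ = _ := by ring
    refine (norm_add_le _ _).trans ((add_le_add e3 e4).trans (le_of_eq ?_))
    ring
  · intro hv
    rw [← hK, norm_div, norm_mul, norm_mul, hN, mul_one, hIτn]
    have h1 : 1 ≤ 2 * |v| / τ := by rw [le_div_iff₀ hτ0]; linarith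
    calc ‖M‖ * ‖g‖ / τ ≤ (B * y34) * (c2 * e1) / τ := by gcongr
      _ ≤ (B * y34) * (c2 * e1) / τ * (2 * |v| / τ) := le_mul_of_one_le_right (by positivity) h1
      _ = B * y34 * c2 * 2 * (|v| * e1) / τ ^ 2 := by field_simp
      _ ≤ B * y34 * c2 * 2 * (2 * Z * e2) / τ ^ 2 := by gcongr
      _ ≤ B * y34 * c2 * 2 * (2 * Z * e2) / τ ^ 2 +
          (16 * C * c2 * y34 * (Z / τ ^ 2 + Z ^ 3 / τ ^ 3) * e2 +
            4 * B * c2 * y34 * (Z ^ 3 / τ ^ 3) * e2) := by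
          have : 0 ≤ (16 * C * c2 * y34 * (Z / τ ^ 2 + Z ^ 3 / τ ^ 3) * e2 +
            4 * B * c2 * y34 * (Z ^ 3 / τ ^ 3) * e2) := by positivity
          linarith
      _ = _ := by ring

private theorem ZD5_ident {z : ℂ} {k n : ℕ} {β y Y τ : ℝ} (hk : 4 ≤ k) (hn : 1 ≤ n) (hy : 1 ≤ y)
    (hτ : τ = 2 * π * y ^ (1 / (k : ℝ))) (v : ℝ) :
    z * ((((τ / (2 * π)) ^ (3 / 4 * (k : ℝ)) : ℝ)) : ℂ) *
      cexp (I * (-(k * τ * Real.log (τ / (2 * π * Real.exp 1))) -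
        k * v * Real.log (τ / (2 * π)) - k * v ^ 2 / (2 * τ) : ℝ)) *
      ((n * y : ℝ) : ℂ) ^ ((τ + v : ℝ) * I) *
      cexp ((Y : ℂ) ^ 2 * (β - 1 / 4 + v * I) ^ 2 / 2) =
    (z * ((y ^ (3 / 4 : ℝ) : ℝ) : ℂ) * cexp (I * (k * τ + τ * Real.log n : ℝ)) *
      cexp ((Y ^ 2 * (β - 1 / 4) ^ 2 / 2 : ℝ))) *
      cexp (I * (Real.log n + Y ^ 2 * (β - 1 / 4) : ℝ) * v -
        ((Y : ℂ) ^ 2 + I * (k / τ : ℝ)) * v ^ 2 / 2) := by
  have hy0 : 0 < y := by linarith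
  have hk0 : (k : ℝ) ≠ 0 := by positivity
  have hn0 : (0 : ℝ) < n := by exact_mod_cast hn
  have hτ0 : 0 < τ := by rw [hτ]; positivity
  have e1 : τ / (2 * π) = y ^ (1 / (k : ℝ)) := by rw [hτ]; field_simp
  have e2 : (τ / (2 * π)) ^ (3 / 4 * (k : ℝ)) = y ^ (3 / 4 : ℝ) := by
    rw [e1, ← Real.rpow_mul hy0.le]
    congr 1; field_simp
  have e3 : Real.log (τ / (2 * π)) = Real.log y / k := by
    rw [e1, Real.log_rpow hy0]; ring
  have e4 : Real.log (τ / (2 * π * Real.exp 1)) = Real.log y / k - 1 := by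
    rw [← div_div, Real.log_div (by rw [e1]; positivity) (Real.exp_pos 1).ne', Real.log_exp, e3]
  have hny : ((n * y : ℝ) : ℂ) ≠ 0 := by
    exact_mod_cast (mul_pos hn0 hy0).ne'
  have e5 : ((n * y : ℝ) : ℂ) ^ ((τ + v : ℝ) * I) =
      cexp (I * ((τ + v) * (Real.log n + Real.log y) : ℝ)) := by
    rw [Complex.cpow_def_of_ne_zero hny, ← Complex.ofReal_log (by positivity),
      Real.log_mul hn0.ne' hy0.ne']
    congr 1
    push_cast
    ring
  rw [e2, e3, e4, e5]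
  have e6 : cexp (I * (-(k * τ * (Real.log y / k - 1)) -
        k * v * (Real.log y / k) - k * v ^ 2 / (2 * τ) : ℝ)) *
      cexp (I * ((τ + v) * (Real.log n + Real.log y) : ℝ)) *
      cexp ((Y : ℂ) ^ 2 * (β - 1 / 4 + v * I) ^ 2 / 2) =
      cexp (I * (k * τ + τ * Real.log n : ℝ)) * cexp ((Y ^ 2 * (β - 1 / 4) ^ 2 / 2 : ℝ)) *
      cexp (I * (Real.log n + Y ^ 2 * (β - 1 / 4) : ℝ) * v -
        ((Y : ℂ) ^ 2 + I * (k / τ : ℝ)) * v ^ 2 / 2) := by
    rw [← Complex.exp_add, ← Complex.exp_add, ← Complex.exp_add, ← Complex.exp_add]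
    congr 1
    have hk1 : (k : ℂ) ≠ 0 := by exact_mod_cast hk0
    have hτ1 : (τ : ℂ) ≠ 0 := by exact_mod_cast hτ0.ne'
    push_cast
    field_simp
    have := Complex.I_sq
    ring_nf
    rw [this]
    ring
  calc _ = z * ((y ^ (3 / 4 : ℝ) : ℝ) : ℂ) * (cexp (I * (-(k * τ * (Real.log y / k - 1)) -
        k * v * (Real.log y / k) - k * v ^ 2 / (2 * τ) : ℝ)) *
      cexp (I * ((τ + v) * (Real.log n + Real.log y) : ℝ)) *
      cexp ((Y : ℂ) ^ 2 * (β - 1 / 4 + v * I) ^ 2 / 2)) := by ring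
    _ = _ := by rw [e6]; ring

private theorem ZD5_core {k : ℕ} (hk : 4 ≤ k) {β : ℝ} (hβ : 1 ≤ β) (hβ' : β ≤ 2) :
    ∃ (z : ℂ) (D : ℝ), z ≠ 0 ∧ 0 < D ∧ ∀ y Y τ : ℝ, 1 ≤ y → 0 < Y → Y ≤ 1 →
      τ = 2 * π * y ^ (1 / (k : ℝ)) → ∀ n : ℕ, 1 ≤ n →
      ‖Jn k β y Y τ n - z * ((y ^ (3 / 4 : ℝ) : ℝ) : ℂ) *
          cexp (I * (k * τ + τ * Real.log n : ℝ)) *
          cexp ((Y ^ 2 * (β - 1 / 4) ^ 2 / 2 : ℝ)) *
          ((2 * π / ((Y : ℂ) ^ 2 + I * (k / τ : ℝ))) ^ (1 / 2 : ℂ) *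
          cexp (-((Real.log n + Y ^ 2 * (β - 1 / 4) : ℝ) : ℂ) ^ 2 /
            (2 * ((Y : ℂ) ^ 2 + I * (k / τ : ℝ))))) / (I * τ)‖ ≤
      D * y ^ (3 / 4 : ℝ) * (Y⁻¹ ^ 2 / τ ^ 2 + Y⁻¹ ^ 4 / τ ^ 3) := by
  obtain ⟨z, C, hz, hC, hχ⟩ := chi_pow_local hk
  have hzn : 0 < ‖z‖ := norm_pos_iff.2 hz
  refine ⟨z, (16 * (C * (2 * π) ^ (3 / 4 * (k : ℝ))) + 4 * ‖z‖) * Real.exp 2 * (2 * √π), hz,
    by positivity, fun y Y τ hy hY hY1 hτ n hn => ?_⟩
  have hy0 : 0 < y := by linarith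
  have hk0 : (0 : ℝ) < k := by
    have : (4 : ℝ) ≤ k := by exact_mod_cast hk
    linarith
  have hn0 : (0 : ℝ) < n := by exact_mod_cast hn
  have hyk : 1 ≤ y ^ (1 / (k : ℝ)) := Real.one_le_rpow hy (by positivity)
  have hτ2 : 2 ≤ τ := by
    rw [hτ]
    have := Real.pi_gt_three
    nlinarith
  have hτ0 : 0 < τ := by linarith
  have e1 : τ / (2 * π) = y ^ (1 / (k : ℝ)) := by rw [hτ]; field_simp
  have e2 : (τ / (2 * π)) ^ (3 / 4 * (k : ℝ)) = y ^ (3 / 4 : ℝ) := by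
    rw [e1, ← Real.rpow_mul hy0.le]
    congr 1; field_simp
  have e3 : τ ^ (3 / 4 * (k : ℝ)) = (2 * π) ^ (3 / 4 * (k : ℝ)) * y ^ (3 / 4 : ℝ) := by
    rw [← e2, ← Real.mul_rpow (by positivity) (by positivity)]
    congr 1; field_simp
  have hy34 : 0 < y ^ (3 / 4 : ℝ) := by positivity
  -- the pointwise comparison
  have hpt := fun v : ℝ => ZD5_pt (X := chi (-(1 / 4) + (τ + v : ℝ) * I) ^ k)
    (M := z * ((((τ / (2 * π)) ^ (3 / 4 * (k : ℝ)) : ℝ)) : ℂ) *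
      cexp (I * (-(k * τ * Real.log (τ / (2 * π * Real.exp 1))) -
        k * v * Real.log (τ / (2 * π)) - k * v ^ 2 / (2 * τ) : ℝ)))
    (N := ((n * y : ℝ) : ℂ) ^ ((τ + v : ℝ) * I))
    (g := cexp ((Y : ℂ) ^ 2 * (β - 1 / 4 + v * I) ^ 2 / 2))
    (K := z * ((y ^ (3 / 4 : ℝ) : ℝ) : ℂ) * cexp (I * (k * τ + τ * Real.log n : ℝ)) *
      cexp ((Y ^ 2 * (β - 1 / 4) ^ 2 / 2 : ℝ)))
    (y34 := y ^ (3 / 4 : ℝ)) (C := C * (2 * π) ^ (3 / 4 * (k : ℝ))) (B := ‖z‖)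
    (cexp (I * (Real.log n + Y ^ 2 * (β - 1 / 4) : ℝ) * v -
        ((Y : ℂ) ^ 2 + I * (k / τ : ℝ)) * v ^ 2 / 2))
    hτ2 hY hY1 hy34 (by positivity) hzn
    (by
      rw [norm_mul, norm_mul, Complex.norm_real, e2, Real.norm_eq_abs, abs_of_pos hy34,
        mul_comm I, Complex.norm_exp_ofReal_mul_I, mul_one])
    (by
      rw [Complex.norm_cpow_eq_rpow_re_of_pos (by positivity)]
      simp)
    (by
      have := ZD5_g (Y := Y) (b := β - 1 / 4) (v := v) hY hY1 (by linarith) (by linarith)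
      push_cast at this
      exact this)
    (ZD5_ident hk hn hy hτ v)
    (fun hv => by
      have := hχ τ v hτ2 hv
      refine this.trans (le_of_eq ?_)
      rw [e3]; ring)
  -- integrals
  have hA : 0 < (((Y : ℂ) ^ 2 + I * (k / τ : ℝ))).re := by
    have : (((Y : ℂ) ^ 2 + I * (k / τ : ℝ))).re = Y ^ 2 := by
      rw [Complex.add_re, ← Complex.ofReal_pow, Complex.ofReal_re, mul_comm I, Complex.mul_I_re,
        Complex.ofReal_im, neg_zero, add_zero]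
    rw [this]; positivity
  have hG := gauss_complex hA (Real.log n + Y ^ 2 * (β - 1 / 4))
  have iG : Integrable (fun v : ℝ => (z * ((y ^ (3 / 4 : ℝ) : ℝ) : ℂ) *
      cexp (I * (k * τ + τ * Real.log n : ℝ)) * cexp ((Y ^ 2 * (β - 1 / 4) ^ 2 / 2 : ℝ))) *
      cexp (I * (Real.log n + Y ^ 2 * (β - 1 / 4) : ℝ) * v -
        ((Y : ℂ) ^ 2 + I * (k / τ : ℝ)) * v ^ 2 / 2) / (I * τ)) := by
    have h1 := integrable_cexp_quadratic' (b := -((Y : ℂ) ^ 2 + I * (k / τ : ℝ)) / 2)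
      (by
        rw [neg_div, Complex.neg_re]
        have : (((Y : ℂ) ^ 2 + I * (k / τ : ℝ)) / 2).re =
          (((Y : ℂ) ^ 2 + I * (k / τ : ℝ))).re / 2 := by
          rw [show (2 : ℂ) = ((2 : ℝ) : ℂ) by norm_num, Complex.div_ofReal_re]
        rw [this]; linarith)
      (I * (Real.log n + Y ^ 2 * (β - 1 / 4) : ℝ)) 0
    have h2 := (h1.const_mul (z * ((y ^ (3 / 4 : ℝ) : ℝ) : ℂ) *
      cexp (I * (k * τ + τ * Real.log n : ℝ)) *
      cexp ((Y ^ 2 * (β - 1 / 4) ^ 2 / 2 : ℝ)))).div_const (I * τ)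
    refine h2.congr (Filter.Eventually.of_forall fun v => ?_)
    simp only
    congr 3
    ring
  have hF : Continuous (fun v : ℝ => chi (-(1 / 4) + (τ + v : ℝ) * I) ^ k *
      ((n * y : ℝ) : ℂ) ^ ((τ + v : ℝ) * I) *
      cexp ((Y : ℂ) ^ 2 * (β - 1 / 4 + v * I) ^ 2 / 2) / (-(1 / 4) + (τ + v : ℝ) * I)) := by
    have hny : ((n * y : ℝ) : ℂ) ≠ 0 := by exact_mod_cast (mul_pos hn0 hy0).ne'
    refine Continuous.div ((((ZD5_chi_cont τ).pow k).mul ?_).mul (by fun_prop)) (by fun_prop) ?_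
    · exact Continuous.const_cpow (by fun_prop) (Or.inl hny)
    · intro v h
      have := congrArg Complex.re h
      simp at this
  have hab : -(τ / 2) ≤ τ / 2 := by linarith
  have iF := (hF.integrableOn_Icc (a := -(τ / 2)) (b := τ / 2) (μ := volume)).mono_set
    Ioc_subset_Icc_self
  have iF' := iF.integrable_indicator measurableSet_Ioc
  have hJ : Jn k β y Y τ n = ∫ v : ℝ, (Ioc (-(τ / 2)) (τ / 2)).indicator (fun v : ℝ =>
      chi (-(1 / 4) + (τ + v : ℝ) * I) ^ k *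
      ((n * y : ℝ) : ℂ) ^ ((τ + v : ℝ) * I) *
      cexp ((Y : ℂ) ^ 2 * (β - 1 / 4 + v * I) ^ 2 / 2) / (-(1 / 4) + (τ + v : ℝ) * I)) v := by
    rw [Jn, intervalIntegral.integral_of_le hab, integral_indicator measurableSet_Ioc]
  have hM : ∫ v : ℝ, (z * ((y ^ (3 / 4 : ℝ) : ℝ) : ℂ) *
      cexp (I * (k * τ + τ * Real.log n : ℝ)) * cexp ((Y ^ 2 * (β - 1 / 4) ^ 2 / 2 : ℝ))) *
      cexp (I * (Real.log n + Y ^ 2 * (β - 1 / 4) : ℝ) * v -
        ((Y : ℂ) ^ 2 + I * (k / τ : ℝ)) * v ^ 2 / 2) / (I * τ) =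
      z * ((y ^ (3 / 4 : ℝ) : ℝ) : ℂ) *
          cexp (I * (k * τ + τ * Real.log n : ℝ)) *
          cexp ((Y ^ 2 * (β - 1 / 4) ^ 2 / 2 : ℝ)) *
          ((2 * π / ((Y : ℂ) ^ 2 + I * (k / τ : ℝ))) ^ (1 / 2 : ℂ) *
          cexp (-((Real.log n + Y ^ 2 * (β - 1 / 4) : ℝ) : ℂ) ^ 2 /
            (2 * ((Y : ℂ) ^ 2 + I * (k / τ : ℝ))))) / (I * τ) := by
    rw [integral_div, integral_const_mul, hG]
  rw [hJ, ← hM, ← integral_sub iF' iG]
  have iB : Integrable (fun v : ℝ => (16 * (C * (2 * π) ^ (3 / 4 * (k : ℝ))) + 4 * ‖z‖) *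
      Real.exp 2 * y ^ (3 / 4 : ℝ) * (Y⁻¹ / τ ^ 2 + Y⁻¹ ^ 3 / τ ^ 3) *
        Real.exp (-(Y ^ 2 * v ^ 2 / 4))) := by
    have h1 := integrable_exp_neg_mul_sq (b := Y ^ 2 / 4) (by positivity)
    refine (h1.const_mul ((16 * (C * (2 * π) ^ (3 / 4 * (k : ℝ))) + 4 * ‖z‖) *
      Real.exp 2 * y ^ (3 / 4 : ℝ) * (Y⁻¹ / τ ^ 2 + Y⁻¹ ^ 3 / τ ^ 3))).congr
      (Filter.Eventually.of_forall fun v => ?_)
    simp only
    congr 2
    ring
  have hB : ∫ v : ℝ, (16 * (C * (2 * π) ^ (3 / 4 * (k : ℝ))) + 4 * ‖z‖) *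
      Real.exp 2 * y ^ (3 / 4 : ℝ) * (Y⁻¹ / τ ^ 2 + Y⁻¹ ^ 3 / τ ^ 3) *
        Real.exp (-(Y ^ 2 * v ^ 2 / 4)) =
      (16 * (C * (2 * π) ^ (3 / 4 * (k : ℝ))) + 4 * ‖z‖) * Real.exp 2 * (2 * √π) *
        y ^ (3 / 4 : ℝ) * (Y⁻¹ ^ 2 / τ ^ 2 + Y⁻¹ ^ 4 / τ ^ 3) := by
    have h1 := integral_gaussian (Y ^ 2 / 4)
    have h2 : ∫ v : ℝ, Real.exp (-(Y ^ 2 * v ^ 2 / 4)) = 2 * √π * Y⁻¹ := by
      have : ∀ v : ℝ, Real.exp (-(Y ^ 2 * v ^ 2 / 4)) = Real.exp (-(Y ^ 2 / 4) * v ^ 2) := by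
        intro v; congr 1; ring
      simp only [this]
      rw [h1]
      have : π / (Y ^ 2 / 4) = π * (2 * Y⁻¹) ^ 2 := by field_simp; norm_num
      rw [this, Real.sqrt_mul Real.pi_pos.le, Real.sqrt_sq (by positivity)]
      ring
    rw [integral_const_mul, h2]
    ring
  rw [← hB]
  refine norm_integral_le_of_norm_le iB (Filter.Eventually.of_forall fun v => ?_)
  by_cases hv : v ∈ Ioc (-(τ / 2)) (τ / 2)
  · rw [indicator_of_mem hv]
    exact (hpt v).1 (abs_le.2 ⟨hv.1.le, hv.2⟩)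
  · rw [indicator_of_notMem hv, zero_sub, norm_neg]
    refine (hpt v).2 ?_
    rw [mem_Ioc, not_and_or, not_lt, not_le] at hv
    rcases hv with h | h
    · have := neg_le_abs v
      linarith
    · exact h.le.trans (le_abs_self v)

private theorem ZD5_par {k : ℕ} (hk : 4 ≤ k) {T y : ℝ} (hT : 1 ≤ T) (hy : y ∈ Icc T (2 * T)) :
    1 ≤ T ^ (1 / (k : ℝ)) ∧ 0 < Yk k T ∧ Yk k T ≤ 1 ∧ Yk k T ^ 2 = (T ^ (1 / (k : ℝ)))⁻¹ ∧
    0 < (T / y) ^ (1 / (k : ℝ)) ∧ (T / y) ^ (1 / (k : ℝ)) ≤ 1 ∧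
    y ^ (1 / (k : ℝ)) = T ^ (1 / (k : ℝ)) / (T / y) ^ (1 / (k : ℝ)) ∧
    1 - (y / T - 1) ≤ (T / y) ^ (1 / (k : ℝ)) ∧ T ^ (1 / (k : ℝ)) ≤ y ^ (1 / (k : ℝ)) := by
  have hT0 : 0 < T := by linarith
  have hy0 : 0 < y := by linarith [hy.1]
  have hk0 : (0 : ℝ) < k := by
    have : (4 : ℝ) ≤ k := by exact_mod_cast hk
    linarith
  have hk1 : 1 / (k : ℝ) ≤ 1 := by
    rw [div_le_one hk0]
    have : (4 : ℝ) ≤ k := by exact_mod_cast hk
    linarith
  have hTy : T / y ≤ 1 := (div_le_one hy0).2 hy.1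
  have hTy0 : 0 < T / y := by positivity
  refine ⟨Real.one_le_rpow hT (by positivity), by unfold Yk; positivity, ?_, ?_, by positivity,
    Real.rpow_le_one hTy0.le hTy (by positivity), ?_, ?_,
    Real.rpow_le_rpow hT0.le hy.1 (by positivity)⟩
  · exact Real.rpow_le_one_of_one_le_of_nonpos hT (by
      have : 0 < 1 / (2 * (k : ℝ)) := by positivity
      linarith)
  · rw [Yk, ← Real.rpow_natCast, ← Real.rpow_mul hT0.le, ← Real.rpow_neg hT0.le]
    congr 1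
    push_cast
    field_simp
  · rw [Real.div_rpow hT0.le hy0.le]
    have : T ^ (1 / (k : ℝ)) ≠ 0 := by positivity
    field_simp
  · have h1 : T / y ≤ (T / y) ^ (1 / (k : ℝ)) := by
      have := Real.rpow_le_rpow_of_exponent_ge hTy0 hTy hk1
      rwa [Real.rpow_one] at this
    refine le_trans ?_ h1
    have h2 : T / y * (y / T) = 1 := by field_simp
    have h3 : 1 ≤ y / T := (one_le_div hT0).2 hy.1
    nlinarith [sq_nonneg (T / y - 1), sq_nonneg (y / T - 1)]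

private theorem ZD5_err {k : ℕ} (hk : 4 ≤ k) {T y : ℝ} (hT : 1 ≤ T) (hy : y ∈ Icc T (2 * T)) :
    y ^ (3 / 4 : ℝ) * ((Yk k T)⁻¹ ^ 2 / (2 * π * y ^ (1 / (k : ℝ))) ^ 2 +
      (Yk k T)⁻¹ ^ 4 / (2 * π * y ^ (1 / (k : ℝ))) ^ 3) ≤ 4 * T ^ (3 / 4 - 1 / (k : ℝ)) := by
  obtain ⟨h1, h2, -, h4, -, -, -, -, h9⟩ := ZD5_par hk hT hy
  have hT0 : 0 < T := by linarith
  have hy0 : 0 < y := by linarith [hy.1]
  have e1 : y ^ (3 / 4 : ℝ) ≤ 2 * T ^ (3 / 4 : ℝ) := by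
    calc y ^ (3 / 4 : ℝ) ≤ (2 * T) ^ (3 / 4 : ℝ) :=
          Real.rpow_le_rpow hy0.le hy.2 (by norm_num)
      _ = 2 ^ (3 / 4 : ℝ) * T ^ (3 / 4 : ℝ) := Real.mul_rpow (by norm_num) hT0.le
      _ ≤ 2 ^ (1 : ℝ) * T ^ (3 / 4 : ℝ) := by
          gcongr
          · norm_num
          · norm_num
      _ = _ := by rw [Real.rpow_one]
  have e2 : T ^ (3 / 4 - 1 / (k : ℝ)) = T ^ (3 / 4 : ℝ) / T ^ (1 / (k : ℝ)) :=
    Real.rpow_sub hT0 _ _
  have e3 : (Yk k T)⁻¹ ^ 2 = T ^ (1 / (k : ℝ)) := by rw [inv_pow, h4, inv_inv]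
  have e4 : (Yk k T)⁻¹ ^ 4 = (T ^ (1 / (k : ℝ))) ^ 2 := by
    rw [← e3]; ring
  rw [e2, e3, e4]
  have hp := Real.pi_gt_three
  have e5 : T ^ (1 / (k : ℝ)) ≤ 2 * π * y ^ (1 / (k : ℝ)) := by nlinarith
  have hT34 : 0 < T ^ (3 / 4 : ℝ) := by positivity
  generalize T ^ (1 / (k : ℝ)) = R at *
  generalize 2 * π * y ^ (1 / (k : ℝ)) = τ at *
  generalize T ^ (3 / 4 : ℝ) = U at *
  have hR : 0 < R := by linarith
  have hτ : 0 < τ := by linarith
  have e6 : R / τ ^ 2 ≤ 1 / R := by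
    rw [div_le_div_iff₀ (by positivity) hR]; nlinarith
  have e7 : R ^ 2 / τ ^ 3 ≤ 1 / R := by
    rw [div_le_div_iff₀ (by positivity) hR]
    have : R ^ 3 ≤ τ ^ 3 := pow_le_pow_left₀ hR.le e5 3
    nlinarith
  calc y ^ (3 / 4 : ℝ) * (R / τ ^ 2 + R ^ 2 / τ ^ 3) ≤ (2 * U) * (1 / R + 1 / R) := by gcongr
    _ = 4 * (U / R) := by ring

private theorem ZD5_fun (k : ℕ) : ∃ (ε C : ℝ), 0 < ε ∧ 0 < C ∧ ∀ r : ℝ, |r - 1| ≤ ε →
    ‖(r : ℂ) * (2 * π / (1 + I * (k * r / (2 * π)))) ^ (1 / 2 : ℂ) -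
      (2 * π / (1 + I * (k / (2 * π)))) ^ (1 / 2 : ℂ)‖ ≤ C * |r - 1| := by
  have hre : ∀ κ : ℝ, (1 + I * (κ : ℂ)) ≠ 0 ∧ 0 < ((2 * π : ℂ) / (1 + I * (κ : ℂ))).re := by
    intro κ
    have h1 : (1 + I * (κ : ℂ)).re = 1 := by simp
    have h0 : (1 + I * (κ : ℂ)) ≠ 0 := by
      intro h; rw [h] at h1; simp at h1
    refine ⟨h0, ?_⟩
    have h2 : ((2 * π : ℂ) / (1 + I * (κ : ℂ))).re = 2 * π / Complex.normSq (1 + I * (κ : ℂ)) := by
      rw [show (2 * π : ℂ) = ((2 * π : ℝ) : ℂ) by push_cast; rfl, Complex.div_re,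
        Complex.ofReal_re, Complex.ofReal_im, h1]
      ring
    rw [h2]
    have := Complex.normSq_pos.2 h0
    positivity
  have hd : DifferentiableAt ℂ (fun x : ℂ => x *
      (2 * π / (1 + I * (k * x / (2 * π)))) ^ (1 / 2 : ℂ)) ((1 : ℝ) : ℂ) := by
    have h1 := hre (k / (2 * π))
    refine differentiableAt_id.mul (DifferentiableAt.cpow_const ?_ ?_)
    · refine DifferentiableAt.div (by fun_prop) (by fun_prop) ?_
      have := h1.1
      push_cast at this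
      simpa using this
    · refine Or.inl ?_
      have := h1.2
      push_cast at this
      simpa using this
  have h2 := hd.hasDerivAt.comp_ofReal
  have h3 := h2.differentiableAt.isBigO_sub
  obtain ⟨C, hC⟩ := h3.bound
  rw [Metric.eventually_nhds_iff] at hC
  obtain ⟨ε, hε, hC⟩ := hC
  refine ⟨ε / 2, max C 1, by positivity, by positivity, fun r hr => ?_⟩
  have h4 := hC (y := r) (by rw [Real.dist_eq]; linarith)
  simp only [ofReal_one, mul_one, one_mul] at h4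
  refine h4.trans ?_
  rw [Real.norm_eq_abs]
  exact mul_le_mul_of_nonneg_right (le_max_left _ _) (abs_nonneg _)

private theorem ZD5_pow {k : ℕ} (hk : 4 ≤ k) {T : ℝ} (hT : 1 ≤ T) :
    T ^ (3 / 4 - 1 / (k : ℝ)) ≤ T ^ (3 / 4 - 1 / (2 * (k : ℝ)) - 1 / (40 * (k : ℝ))) := by
  refine Real.rpow_le_rpow_of_exponent_le hT ?_
  have hk0 : (0 : ℝ) < k := by
    have : (4 : ℝ) ≤ k := by exact_mod_cast hk
    linarith
  have : 1 / (2 * (k : ℝ)) + 1 / (40 * (k : ℝ)) ≤ 1 / (k : ℝ) := by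
    rw [div_add_div _ _ (by positivity) (by positivity), div_le_div_iff₀ (by positivity) hk0]
    nlinarith
  linarith

private theorem ZD5_X {k : ℕ} (_hk : 4 ≤ k) {T y : ℝ} (hT : 1 ≤ T) (hy : y ∈ Icc T (T + Xw k T)) :
    y ∈ Icc T (2 * T) ∧ y / T - 1 ≤ T ^ (-(1 / (32 * (k : ℝ)))) := by
  have hT0 : 0 < T := by linarith
  have hX : Xw k T = T * T ^ (-(1 / (32 * (k : ℝ)))) := by
    rw [Xw, sub_eq_add_neg, Real.rpow_add hT0, Real.rpow_one]
  have h1 : T ^ (-(1 / (32 * (k : ℝ)))) ≤ 1 :=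
    Real.rpow_le_one_of_one_le_of_nonpos hT (by
      have : 0 ≤ 1 / (32 * (k : ℝ)) := by positivity
      linarith)
  rw [hX] at hy
  refine ⟨⟨hy.1, by nlinarith [hy.2]⟩, ?_⟩
  rw [sub_le_iff_le_add, div_le_iff₀ hT0]
  nlinarith [hy.2]

private theorem ZD5_re1 (κ : ℝ) : (1 + I * (κ : ℂ)).re = 1 := by simp

private theorem ZD5_alg {q δ C1 : ℝ} {φr φ1 w : ℂ} (hq : |q - 1| ≤ δ) (h0 : 0 ≤ δ) (hδ : δ ≤ 1)
    (hC1 : 0 ≤ C1) (h1 : ‖φr - φ1‖ ≤ C1 * δ) (hw : ‖w‖ ≤ 4 * δ) (hw1 : ‖w‖ ≤ 1 / 4) :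
    ‖(q : ℂ) * (φr * cexp w) - φ1‖ ≤ (4 * (‖φ1‖ + C1) + 4 * C1 + 16 * ‖φ1‖) * δ := by
  have e1 : ‖cexp w - 1‖ ≤ 8 * δ := by
    have := Complex.norm_exp_sub_one_le (x := w) (by linarith)
    linarith
  have e2 : ‖cexp w‖ ≤ 2 := by
    have h2 := Complex.norm_exp_sub_one_le (x := w) (by linarith)
    have h3 : ‖cexp w‖ ≤ ‖cexp w - 1‖ + ‖(1 : ℂ)‖ := by
      have := norm_add_le (cexp w - 1) 1
      simpa using this
    rw [norm_one] at h3
    linarith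
  have e3 : ‖φr‖ ≤ ‖φ1‖ + C1 := by
    have h3 : ‖φr‖ ≤ ‖φr - φ1‖ + ‖φ1‖ := by
      have := norm_add_le (φr - φ1) φ1
      simpa using this
    nlinarith
  have e4 : (q : ℂ) * (φr * cexp w) - φ1 = ((q - 1 : ℝ) : ℂ) * (φr * cexp w) +
      (φr - φ1) * cexp w + φ1 * (cexp w - 1) := by
    push_cast; ring
  rw [e4]
  refine (norm_add₃_le).trans ?_
  rw [norm_mul, norm_mul, norm_mul, norm_mul, Complex.norm_real, Real.norm_eq_abs]
  have f1 : |q - 1| * (‖φr‖ * ‖cexp w‖) ≤ δ * ((‖φ1‖ + C1) * 2) := by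
    gcongr
  have f2 : ‖φr - φ1‖ * ‖cexp w‖ ≤ (C1 * δ) * 2 := by
    gcongr
  have f3 : ‖φ1‖ * ‖cexp w - 1‖ ≤ ‖φ1‖ * (8 * δ) := by
    gcongr
  have g1 := norm_nonneg φ1
  nlinarith [mul_nonneg g1 h0, mul_nonneg hC1 h0]

private theorem ZD5_cpow {R : ℝ} (hR : 0 < R) {x : ℂ} (hx : x ≠ 0) :
    ((R : ℂ) * x) ^ (1 / 2 : ℂ) = ((R ^ (1 / 2 : ℝ) : ℝ) : ℂ) * x ^ (1 / 2 : ℂ) := by
  have hR' : (R : ℂ) ≠ 0 := by exact_mod_cast hR.ne'
  rw [Complex.cpow_def_of_ne_zero (mul_ne_zero hR' hx), Complex.cpow_def_of_ne_zero hx,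
    Complex.log_ofReal_mul hR hx, Complex.ofReal_cpow hR.le, Complex.cpow_def_of_ne_zero hR',
    Complex.ofReal_log hR.le, ← Complex.exp_add]
  congr 1
  push_cast
  ring

private theorem ZD5_w {A : ℂ} {Y b R : ℝ} (hR : 0 < R) (hY2 : Y ^ 2 = R⁻¹) (hb0 : 0 ≤ b)
    (hb : b ≤ 2) (hAn : R⁻¹ ≤ ‖A‖) :
    ‖(((Y ^ 2 * b ^ 2 / 2 : ℝ) : ℂ) - ((Y ^ 2 * b : ℝ) : ℂ) ^ 2 / (2 * A))‖ ≤ 4 * R⁻¹ := by
  have hb4 : b ^ 2 ≤ 4 := by nlinarith
  have hA0 : 0 < ‖A‖ := lt_of_lt_of_le (by positivity) hAn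
  refine (norm_sub_le _ _).trans ?_
  rw [norm_div, norm_mul, norm_pow, Complex.norm_real, Complex.norm_real, Real.norm_eq_abs,
    Real.norm_eq_abs, sq_abs, hY2, Complex.norm_ofNat]
  have h1 : |R⁻¹ * b ^ 2 / 2| = R⁻¹ * b ^ 2 / 2 := abs_of_nonneg (by positivity)
  rw [h1]
  have h2 : (R⁻¹ * b) ^ 2 / (2 * ‖A‖) ≤ R⁻¹ * b ^ 2 / 2 := by
    rw [div_le_div_iff₀ (by positivity) (by norm_num)]
    have : R⁻¹ * (R⁻¹ * b ^ 2) ≤ ‖A‖ * (R⁻¹ * b ^ 2) :=
      mul_le_mul_of_nonneg_right hAn (by positivity)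
    nlinarith
  have h3 : 0 < R⁻¹ := by positivity
  nlinarith

private theorem ZD5_A {Y R r κ τ : ℝ} (hR : 0 < R) (hr : 0 < r) (hY2 : Y ^ 2 = R⁻¹)
    (hτ : τ = 2 * π * (R / r)) :
    ((Y : ℂ) ^ 2 + I * ((κ / τ : ℝ) : ℂ)) = ((R⁻¹ : ℝ) : ℂ) * (1 + I * (κ * r / (2 * π))) ∧
    (2 * π / ((Y : ℂ) ^ 2 + I * ((κ / τ : ℝ) : ℂ))) ^ (1 / 2 : ℂ) =
      ((R ^ (1 / 2 : ℝ) : ℝ) : ℂ) * (2 * π / (1 + I * (κ * r / (2 * π)))) ^ (1 / 2 : ℂ) ∧
    R⁻¹ ≤ ‖((Y : ℂ) ^ 2 + I * ((κ / τ : ℝ) : ℂ))‖ := by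
  have hA : ((Y : ℂ) ^ 2 + I * ((κ / τ : ℝ) : ℂ)) =
      ((R⁻¹ : ℝ) : ℂ) * (1 + I * (κ * r / (2 * π))) := by
    rw [← Complex.ofReal_pow, hY2, hτ]
    have h1 : (R : ℂ) ≠ 0 := by exact_mod_cast hR.ne'
    have h2 : (r : ℂ) ≠ 0 := by exact_mod_cast hr.ne'
    push_cast
    field_simp
  have hcast : (κ * r / (2 * π) : ℂ) = ((κ * r / (2 * π) : ℝ) : ℂ) := by push_cast; rfl
  have hpi : (π : ℂ) ≠ 0 := by exact_mod_cast Real.pi_ne_zero
  have hx0 : (1 + I * (κ * r / (2 * π)) : ℂ) ≠ 0 := by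
    intro h
    have h1 := ZD5_re1 (κ * r / (2 * π))
    rw [← hcast, h] at h1
    simp at h1
  have hR1 : (R : ℂ) ≠ 0 := by exact_mod_cast hR.ne'
  refine ⟨hA, ?_, ?_⟩
  · rw [hA, ← ZD5_cpow hR (div_ne_zero (mul_ne_zero two_ne_zero hpi) hx0)]
    congr 1
    push_cast
    field_simp
  · rw [hA, norm_mul, Complex.norm_real, Real.norm_eq_abs, abs_of_pos (by positivity)]
    refine le_mul_of_one_le_right (by positivity) ?_
    have h1 := ZD5_re1 (κ * r / (2 * π))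
    rw [hcast]
    have h2 := Complex.re_le_norm (1 + I * ((κ * r / (2 * π) : ℝ) : ℂ))
    rwa [h1] at h2

private theorem ZD5_ident1 {z A x : ℂ} {Y b R Rh r κ τ T34 q : ℝ} {L : ℝ} (hL : L = 0)
    (hR : 0 < R) (hr : 0 < r) (hτ : τ = 2 * π * (R / r))
    (hA2 : (2 * π / A) ^ (1 / 2 : ℂ) = (Rh : ℂ) * x) :
    z * ((T34 * q : ℝ) : ℂ) * cexp (I * (κ * τ + τ * L : ℝ)) * cexp ((Y ^ 2 * b ^ 2 / 2 : ℝ)) *
      ((2 * π / A) ^ (1 / 2 : ℂ) * cexp (-((L + Y ^ 2 * b : ℝ) : ℂ) ^ 2 / (2 * A))) / (I * τ) *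
        cexp (-(I * (κ * τ : ℝ))) =
      z / (2 * π * I) * ((T34 * (Rh / R) : ℝ) : ℂ) *
        ((q : ℂ) * (((r : ℂ) * x) * cexp (((Y ^ 2 * b ^ 2 / 2 : ℝ) : ℂ) -
            ((Y ^ 2 * b : ℝ) : ℂ) ^ 2 / (2 * A)))) := by
  subst hL
  have g1 : cexp (I * (κ * τ + τ * 0 : ℝ)) * cexp (-(I * (κ * τ : ℝ))) = 1 := by
    rw [← Complex.exp_add, ← Complex.exp_zero]
    congr 1
    push_cast
    ring
  have g2 : cexp ((Y ^ 2 * b ^ 2 / 2 : ℝ)) * cexp (-((0 + Y ^ 2 * b : ℝ) : ℂ) ^ 2 / (2 * A)) =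
      cexp (((Y ^ 2 * b ^ 2 / 2 : ℝ) : ℂ) - ((Y ^ 2 * b : ℝ) : ℂ) ^ 2 / (2 * A)) := by
    rw [← Complex.exp_add, zero_add]
    congr 1
    ring
  have g3 : (I * τ : ℂ) = 2 * π * I * R / r := by
    rw [hτ]; push_cast; ring
  have hr' : (r : ℂ) ≠ 0 := by exact_mod_cast hr.ne'
  have hR' : (R : ℂ) ≠ 0 := by exact_mod_cast hR.ne'
  have hpi : (π : ℂ) ≠ 0 := by exact_mod_cast Real.pi_ne_zero
  rw [hA2, g3, ← g2]
  generalize cexp (I * (κ * τ + τ * 0 : ℝ)) = E1 at *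
  generalize cexp (-(I * (κ * τ : ℝ))) = E5 at *
  generalize cexp ((Y ^ 2 * b ^ 2 / 2 : ℝ)) = E2 at *
  generalize cexp (-((0 + Y ^ 2 * b : ℝ) : ℂ) ^ 2 / (2 * A)) = E3 at *
  push_cast
  calc z * (T34 * q) * E1 * E2 * (Rh * x * E3) / (2 * π * I * R / r) * E5 =
        z * (T34 * q) * E2 * (Rh * x * E3) / (2 * π * I * R / r) * (E1 * E5) := by ring
      _ = _ := by
        rw [g1]
        have hI := I_ne_zero
        field_simp

private theorem ZD5_c0 {T : ℝ} (hT1 : 1 ≤ T) {k : ℕ} (hk4 : (4 : ℝ) ≤ k) :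
    (T ^ (1 / (k : ℝ)))⁻¹ ≤ T ^ (-(1 / (32 * (k : ℝ)))) ∧ T ^ (-(1 / (32 * (k : ℝ)))) ≤ 1 := by
  have hT0 : 0 < T := by linarith
  have hk0 : (0 : ℝ) < k := by linarith
  constructor
  · rw [← Real.rpow_neg hT0.le]
    refine Real.rpow_le_rpow_of_exponent_le hT1 ?_
    rw [neg_le_neg_iff]
    exact one_div_le_one_div_of_le hk0 (by linarith)
  · exact Real.rpow_le_one_of_one_le_of_nonpos hT1 (by
      have : 0 ≤ 1 / (32 * (k : ℝ)) := by positivity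
      linarith)

private theorem ZD5_c1 {T : ℝ} (hT1 : 1 ≤ T) {k : ℕ} (hk4 : (4 : ℝ) ≤ k) :
    T ^ (3 / 4 - 1 / (2 * (k : ℝ))) * T ^ (-(1 / (32 * (k : ℝ)))) ≤
      T ^ (3 / 4 - 1 / (2 * (k : ℝ)) - 1 / (40 * (k : ℝ))) := by
  have hT0 : 0 < T := by linarith
  have hk0 : (0 : ℝ) < k := by linarith
  rw [← Real.rpow_add hT0]
  refine Real.rpow_le_rpow_of_exponent_le hT1 ?_
  have : 1 / (40 * (k : ℝ)) ≤ 1 / (32 * (k : ℝ)) :=
    one_div_le_one_div_of_le (by positivity) (by linarith)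
  linarith

private theorem ZD5_fin {J M e5 c z φ1 x : ℂ} {P B D' U δ K Q : ℝ} (he : ‖e5‖ = 1)
    (hM : M * e5 = c * (P : ℂ) * x) (hJ : ‖J - M‖ ≤ D' * B) (hD : 0 ≤ D') (hB : B ≤ 4 * U)
    (hU : U ≤ Q) (hP : 0 ≤ P) (hc : ‖c‖ ≤ ‖z‖) (hx : ‖x - φ1‖ ≤ K * δ) (hK : 0 ≤ K)
    (hPδ : P * δ ≤ Q) :
    ‖J * e5 - c * φ1 * (P : ℂ)‖ ≤ (4 * D' + ‖z‖ * K) * Q := by
  have h1 : J * e5 - c * φ1 * (P : ℂ) = (J - M) * e5 + c * (P : ℂ) * (x - φ1) := by
    rw [sub_mul, hM]; ring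
  rw [h1]
  refine (norm_add_le _ _).trans ?_
  rw [norm_mul, he, mul_one, norm_mul, norm_mul, Complex.norm_real, Real.norm_eq_abs,
    abs_of_nonneg hP]
  have h2 : ‖J - M‖ ≤ 4 * D' * Q := by
    have : D' * B ≤ D' * (4 * Q) := by gcongr; linarith
    linarith
  have h3 : ‖c‖ * P * ‖x - φ1‖ ≤ ‖z‖ * K * Q := by
    calc ‖c‖ * P * ‖x - φ1‖ ≤ ‖z‖ * P * (K * δ) := by gcongr
      _ = ‖z‖ * K * (P * δ) := by ring
      _ ≤ ‖z‖ * K * Q := by gcongr
  linarith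

private theorem ZD5_cnorm (z : ℂ) : ‖z / (2 * π * I)‖ ≤ ‖z‖ := by
  rw [norm_div, norm_mul, Complex.norm_I, mul_one, norm_mul, Complex.norm_real, Real.norm_eq_abs,
    abs_of_pos Real.pi_pos, Complex.norm_ofNat]
  refine div_le_self (norm_nonneg _) ?_
  have := Real.pi_gt_three
  linarith

private theorem ZD5_T0 {T ε : ℝ} {k : ℕ} (hk4 : (4 : ℝ) ≤ k) (hT1 : 1 ≤ T) (hε : 0 < ε)
    (h1 : (1 / ε) ^ (32 * (k : ℝ)) ≤ T) (h2 : (16 : ℝ) ^ (k : ℝ) ≤ T) :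
    T ^ (-(1 / (32 * (k : ℝ)))) ≤ ε ∧ 16 ≤ T ^ (1 / (k : ℝ)) := by
  have hT0 : 0 < T := by linarith
  have hk0 : (0 : ℝ) < k := by linarith
  constructor
  · have h2 := Real.rpow_le_rpow (by positivity) h1 (by positivity : 0 ≤ 1 / (32 * (k : ℝ)))
    rw [← Real.rpow_mul (by positivity)] at h2
    have h3 : 32 * (k : ℝ) * (1 / (32 * (k : ℝ))) = 1 := by field_simp
    rw [h3, Real.rpow_one] at h2
    rw [Real.rpow_neg hT0.le]
    have h4 : 0 < T ^ (1 / (32 * (k : ℝ))) := by positivity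
    rw [inv_le_comm₀ h4 hε]
    rwa [one_div] at h2
  · have h2 := Real.rpow_le_rpow (by positivity) h2 (by positivity : 0 ≤ 1 / (k : ℝ))
    rw [← Real.rpow_mul (by positivity)] at h2
    have h3 : (k : ℝ) * (1 / (k : ℝ)) = 1 := by field_simp
    rwa [h3, Real.rpow_one] at h2

/-- **ZD5.** The term `n = 1`: with `τ = 2π y^{1/k}` the linear phase cancels, and the quadratic one
gives a Gaussian integral with variance `Y² + ik/τ`, `Y = T^{-1/(2k)}`, `y = T(1 + O(T^{-1/(32k)}))`. -/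
theorem Jn_one {k : ℕ} (hk : 4 ≤ k) {β : ℝ} (hβ : 1 ≤ β) (hβ' : β ≤ 2) :
    ∃ (z0 : ℂ) (C T0 : ℝ), z0 ≠ 0 ∧ 0 < C ∧ 1 ≤ T0 ∧ ∀ T : ℝ, T0 ≤ T → ∀ y ∈ Icc T (T + Xw k T),
      ‖Jn k β y (Yk k T) (2 * π * y ^ (1 / (k : ℝ))) 1 * cexp (-(I * (2 * π * k * y ^ (1 / (k : ℝ)) : ℝ)))
        - z0 * (T ^ (3 / 4 - 1 / (2 * (k : ℝ))) : ℝ)‖ ≤
      C * T ^ (3 / 4 - 1 / (2 * (k : ℝ)) - 1 / (40 * (k : ℝ))) := by
  obtain ⟨z, D, hz, hD, hcore⟩ := ZD5_core hk hβ hβ'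
  obtain ⟨ε, C1, hε, hC1, hφ⟩ := ZD5_fun k
  have hk4 : (4 : ℝ) ≤ k := by exact_mod_cast hk
  have hk0 : (0 : ℝ) < k := by linarith
  have hzn : 0 < ‖z‖ := norm_pos_iff.2 hz
  -- the constant
  have hw0 : (1 + I * (k / (2 * π)) : ℂ) ≠ 0 := by
    intro h
    have h1 := ZD5_re1 (k / (2 * π))
    have h2 : (1 + I * (k / (2 * π)) : ℂ) = 1 + I * ((k / (2 * π) : ℝ) : ℂ) := by
      push_cast; ring
    rw [← h2, h] at h1
    simp at h1
  have hpi : (π : ℂ) ≠ 0 := by exact_mod_cast Real.pi_ne_zero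
  have hφ1 : (2 * π / (1 + I * (k / (2 * π))) : ℂ) ^ (1 / 2 : ℂ) ≠ 0 := by
    rw [Complex.cpow_ne_zero_iff]
    exact Or.inl (div_ne_zero (mul_ne_zero two_ne_zero hpi) hw0)
  generalize hφ1d : (2 * π / (1 + I * (k / (2 * π))) : ℂ) ^ (1 / 2 : ℂ) = φ1 at hφ1 hφ
  have hφ1n : 0 < ‖φ1‖ := norm_pos_iff.2 hφ1
  refine ⟨z / (2 * π * I) * φ1, 4 * D + ‖z‖ * (4 * (‖φ1‖ + C1) + 4 * C1 + 16 * ‖φ1‖),
    max ((1 / ε) ^ (32 * (k : ℝ))) (max ((16 : ℝ) ^ (k : ℝ)) 1),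
    mul_ne_zero (div_ne_zero hz (mul_ne_zero (mul_ne_zero two_ne_zero hpi) I_ne_zero)) hφ1,
    by positivity, (le_max_right _ _).trans (le_max_right _ _), fun T hT y hy => ?_⟩
  have hT1 : 1 ≤ T := ((le_max_right _ _).trans (le_max_right _ _)).trans hT
  have hT0 : 0 < T := by linarith
  obtain ⟨hy2, hyδ⟩ := ZD5_X hk hT1 hy
  have hy0 : 0 < y := by linarith [hy.1]
  have hy1 : 1 ≤ y := by linarith [hy.1]
  obtain ⟨hR, hY, hY1, hY2, hr, hr1, hyk, hrδ, -⟩ := ZD5_par hk hT1 hy2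
  have hmain := hcore y (Yk k T) (2 * π * y ^ (1 / (k : ℝ))) hy1 hY hY1 rfl 1 le_rfl
  have herr := ZD5_err hk hT1 hy2
  obtain ⟨hδ1, hR16⟩ := ZD5_T0 hk4 hT1 hε ((le_max_left _ _).trans hT)
    (((le_max_left _ _).trans (le_max_right _ _)).trans hT)
  obtain ⟨hδR, hδ1'⟩ := ZD5_c0 hT1 hk4
  have hδ0 : 0 < T ^ (-(1 / (32 * (k : ℝ)))) := by positivity
  -- the main term
  have hR0 : 0 < T ^ (1 / (k : ℝ)) := by linarith
  have hτ' : 2 * π * y ^ (1 / (k : ℝ)) = 2 * π * (T ^ (1 / (k : ℝ)) / (T / y) ^ (1 / (k : ℝ))) := by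
    rw [← hyk]
  obtain ⟨hA, hA2, hAn⟩ := ZD5_A (κ := (k : ℝ)) hR0 hr hY2 hτ'
  have hP : T ^ (3 / 4 - 1 / (2 * (k : ℝ))) =
      T ^ (3 / 4 : ℝ) * ((T ^ (1 / (k : ℝ))) ^ (1 / 2 : ℝ) / T ^ (1 / (k : ℝ))) := by
    rw [← Real.rpow_mul hT0.le, ← Real.rpow_sub hT0, ← Real.rpow_add hT0]
    congr 1
    field_simp
    ring
  have hq : y ^ (3 / 4 : ℝ) = T ^ (3 / 4 : ℝ) * (y / T) ^ (3 / 4 : ℝ) := by
    rw [← Real.mul_rpow hT0.le (by positivity)]
    congr 1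
    field_simp
  have hident := ZD5_ident1 (z := z) (Y := Yk k T) (b := β - 1 / 4) (κ := (k : ℝ))
    (T34 := T ^ (3 / 4 : ℝ)) (q := (y / T) ^ (3 / 4 : ℝ)) (L := Real.log (1 : ℕ))
    (by rw [Nat.cast_one, Real.log_one]) hR0 hr hτ' hA2
  rw [← hq, ← hP] at hident
  have hδr : |(T / y) ^ (1 / (k : ℝ)) - 1| ≤ T ^ (-(1 / (32 * (k : ℝ)))) := by
    rw [abs_le]; constructor <;> linarith
  have hq1 : |(y / T) ^ (3 / 4 : ℝ) - 1| ≤ T ^ (-(1 / (32 * (k : ℝ)))) := by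
    have h1 : 1 ≤ y / T := (one_le_div hT0).2 hy.1
    have h2 : 1 ≤ (y / T) ^ (3 / 4 : ℝ) := Real.one_le_rpow h1 (by norm_num)
    have h3 : (y / T) ^ (3 / 4 : ℝ) ≤ y / T := by
      have := Real.rpow_le_rpow_of_exponent_le h1 (by norm_num : (3 / 4 : ℝ) ≤ 1)
      rwa [Real.rpow_one] at this
    rw [abs_le]; constructor <;> linarith
  have hw := ZD5_w hR0 hY2 (by linarith : 0 ≤ β - 1 / 4) (by linarith) hAn
  have hR16' : (T ^ (1 / (k : ℝ)))⁻¹ ≤ 1 / 16 := by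
    rw [inv_le_comm₀ hR0 (by norm_num)]
    have : (1 / 16 : ℝ)⁻¹ = 16 := by norm_num
    rw [this]; exact hR16
  have halg := ZD5_alg (C1 := C1) hq1 hδ0.le hδ1' hC1.le
    ((hφ _ (hδr.trans hδ1)).trans (mul_le_mul_of_nonneg_left hδr hC1.le))
    (hw.trans (by linarith)) (hw.trans (by linarith))
  -- conclusion
  have he5 : (2 * π * k * y ^ (1 / (k : ℝ)) : ℝ) = k * (2 * π * y ^ (1 / (k : ℝ))) := by ring
  rw [he5]
  refine ZD5_fin ?_ hident (B := y ^ (3 / 4 : ℝ) * ((Yk k T)⁻¹ ^ 2 / (2 * π * y ^ (1 / (k : ℝ))) ^ 2 +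
      (Yk k T)⁻¹ ^ 4 / (2 * π * y ^ (1 / (k : ℝ))) ^ 3)) (D' := D) ?_ hD.le herr
      (ZD5_pow hk hT1) (by positivity) (ZD5_cnorm z) halg (by positivity) (ZD5_c1 hT1 hk4)
  · rw [← mul_neg, ← Complex.ofReal_neg, mul_comm, Complex.norm_exp_ofReal_mul_I]
  · refine hmain.trans (le_of_eq ?_)
    ring
--END ZD5

--BEGIN ZD6
private theorem ZD6_exp {R r κ c : ℝ} (hR : 0 < R) (hr : 0 < r) (hr1 : r ≤ 1) (hc : 1 / 2 ≤ c) :
    ‖cexp (-(c : ℂ) ^ 2 / (2 * (((R⁻¹ : ℝ) : ℂ) * (1 + I * (κ * r / (2 * π))))))‖ ≤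
      8 * (1 + κ ^ 2) / R := by
  obtain ⟨θ, hθ⟩ : ∃ θ : ℝ, θ = κ * r / (2 * π) := ⟨_, rfl⟩
  have hcast : (κ * r / (2 * π) : ℂ) = (θ : ℂ) := by rw [hθ]; push_cast; rfl
  have hθ2 : θ ^ 2 ≤ κ ^ 2 := by
    rw [hθ, div_pow, mul_pow]
    have h1 : (1 : ℝ) ≤ (2 * π) ^ 2 := by
      have := Real.pi_gt_three
      nlinarith
    have h2 : r ^ 2 ≤ 1 := pow_le_one₀ hr.le hr1
    rw [div_le_iff₀ (by positivity)]
    have := sq_nonneg κ
    nlinarith [mul_le_mul_of_nonneg_left h2 this, mul_le_mul_of_nonneg_left h1 this]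
  have hx0 : (1 + I * (θ : ℂ)) ≠ 0 := by
    intro h
    have h1 := ZD5_re1 θ
    rw [h] at h1
    simp at h1
  have hR' : (R : ℂ) ≠ 0 := by exact_mod_cast hR.ne'
  have h1θ : (1 + (θ : ℂ) ^ 2) ≠ 0 := by
    have : (1 + θ ^ 2) ≠ 0 := by positivity
    exact_mod_cast this
  rw [hcast]
  have key : -(c : ℂ) ^ 2 / (2 * (((R⁻¹ : ℝ) : ℂ) * (1 + I * (θ : ℂ)))) =
      ((-(c ^ 2 * R / (2 * (1 + θ ^ 2))) : ℝ) : ℂ) +
        ((c ^ 2 * R * θ / (2 * (1 + θ ^ 2)) : ℝ) : ℂ) * I := by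
    push_cast
    rw [div_eq_iff (by
      refine mul_ne_zero two_ne_zero (mul_ne_zero (inv_ne_zero hR') hx0))]
    have := Complex.I_sq
    field_simp
    ring_nf
    rw [this]
    ring
  rw [key, Complex.norm_exp, Complex.add_re, Complex.ofReal_re, Complex.mul_I_re,
    Complex.ofReal_im, neg_zero, add_zero]
  have h3 : R / (8 * (1 + κ ^ 2)) ≤ c ^ 2 * R / (2 * (1 + θ ^ 2)) := by
    rw [div_le_div_iff₀ (by positivity) (by positivity)]
    have hc2 : 1 / 4 ≤ c ^ 2 := by nlinarith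
    have : (1 / 4) * (1 + θ ^ 2) ≤ c ^ 2 * (1 + κ ^ 2) := by
      have h0 := sq_nonneg κ
      nlinarith
    nlinarith
  calc Real.exp (-(c ^ 2 * R / (2 * (1 + θ ^ 2)))) ≤ Real.exp (-(R / (8 * (1 + κ ^ 2)))) :=
        Real.exp_le_exp.2 (by linarith)
    _ = (Real.exp (R / (8 * (1 + κ ^ 2))))⁻¹ := Real.exp_neg _
    _ ≤ (R / (8 * (1 + κ ^ 2)))⁻¹ := by
        have h4 : 0 < R / (8 * (1 + κ ^ 2)) := by positivity
        have h5 := Real.add_one_le_exp (R / (8 * (1 + κ ^ 2)))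
        exact inv_anti₀ h4 (by linarith)
    _ = _ := inv_div _ _

private theorem ZD6_alg {J z e1 e2 S E : ℂ} {y34 U R τ B D K Q : ℝ}
    (hR : 1 ≤ R) (hτ : R ≤ τ) (hJ : ‖J - z * (y34 : ℂ) * e1 * e2 * (S * E) / (I * τ)‖ ≤ D * B)
    (hD : 0 ≤ D) (hB : B ≤ 4 * (U / R)) (he1 : ‖e1‖ = 1) (he2 : ‖e2‖ ≤ Real.exp 2)
    (hy0 : 0 ≤ y34) (hy : y34 ≤ 2 * U) (hU : 0 ≤ U) (hS : ‖S‖ ≤ 2 * π * R) (hE : ‖E‖ ≤ K / R)
    (hK : 0 ≤ K) (hQ : U / R ≤ Q) :
    ‖J‖ ≤ (4 * D + ‖z‖ * 2 * Real.exp 2 * (2 * π) * K) * Q := by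
  have h1 : J = (J - z * (y34 : ℂ) * e1 * e2 * (S * E) / (I * τ)) +
      z * (y34 : ℂ) * e1 * e2 * (S * E) / (I * τ) := by ring
  have hR0 : 0 < R := by linarith
  have hτ0 : 0 < τ := by linarith
  rw [h1]
  refine (norm_add_le _ _).trans ?_
  rw [norm_div (z * (y34 : ℂ) * e1 * e2 * (S * E)), norm_mul (z * (y34 : ℂ) * e1 * e2),
    norm_mul (z * (y34 : ℂ) * e1), norm_mul (z * (y34 : ℂ)), norm_mul z, norm_mul S, norm_mul I,
    Complex.norm_I, one_mul, Complex.norm_real, Complex.norm_real, Real.norm_eq_abs,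
    Real.norm_eq_abs, abs_of_nonneg hy0, abs_of_pos hτ0, he1, mul_one]
  have h2 : ‖z‖ * y34 * ‖e2‖ * (‖S‖ * ‖E‖) / τ ≤
      ‖z‖ * (2 * U) * Real.exp 2 * ((2 * π * R) * (K / R)) / R := by
    gcongr
  have h3 : ‖z‖ * (2 * U) * Real.exp 2 * ((2 * π * R) * (K / R)) / R =
      ‖z‖ * 2 * Real.exp 2 * (2 * π) * K * (U / R) := by field_simp
  have h4 : ‖z‖ * 2 * Real.exp 2 * (2 * π) * K * (U / R) ≤
      ‖z‖ * 2 * Real.exp 2 * (2 * π) * K * Q := by gcongr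
  have h5 : D * B ≤ 4 * D * Q := by
    have : D * B ≤ D * (4 * Q) := by gcongr; linarith
    linarith
  linarith

/-- **ZD6.** The terms `n ≥ 2` are off resonance (`ZD3` with `c = log n`). -/
theorem Jn_two {k : ℕ} (hk : 4 ≤ k) {β : ℝ} (hβ : 1 ≤ β) (hβ' : β ≤ 2) :
    ∃ C T0 : ℝ, 0 < C ∧ 1 ≤ T0 ∧ ∀ T : ℝ, T0 ≤ T → ∀ y ∈ Icc T (T + Xw k T), ∀ n : ℕ, 2 ≤ n →
      ‖Jn k β y (Yk k T) (2 * π * y ^ (1 / (k : ℝ))) n‖ ≤
      C * T ^ (3 / 4 - 1 / (2 * (k : ℝ)) - 1 / (40 * (k : ℝ))) := by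
  obtain ⟨z, D, hz, hD, hcore⟩ := ZD5_core hk hβ hβ'
  have hk4 : (4 : ℝ) ≤ k := by exact_mod_cast hk
  have hk0 : (0 : ℝ) < k := by linarith
  have hzn : 0 < ‖z‖ := norm_pos_iff.2 hz
  refine ⟨4 * D + ‖z‖ * 2 * Real.exp 2 * (2 * π) * (8 * (1 + (k : ℝ) ^ 2)), 1, by positivity,
    le_rfl, fun T hT1 y hy n hn => ?_⟩
  have hT0 : 0 < T := by linarith
  obtain ⟨hy2, hyδ⟩ := ZD5_X hk hT1 hy
  have hy0 : 0 < y := by linarith [hy.1]
  have hy1 : 1 ≤ y := by linarith [hy.1]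
  obtain ⟨hR, hY, hY1, hY2, hr, hr1, hyk, hrδ, hRy⟩ := ZD5_par hk hT1 hy2
  have hR0 : 0 < T ^ (1 / (k : ℝ)) := by linarith
  have hmain := hcore y (Yk k T) (2 * π * y ^ (1 / (k : ℝ))) hy1 hY hY1 rfl n (by omega)
  have herr := ZD5_err hk hT1 hy2
  have hτ' : 2 * π * y ^ (1 / (k : ℝ)) = 2 * π * (T ^ (1 / (k : ℝ)) / (T / y) ^ (1 / (k : ℝ))) := by
    rw [← hyk]
  obtain ⟨hA, hA2, hAn⟩ := ZD5_A (κ := (k : ℝ)) hR0 hr hY2 hτ'
  have hU : T ^ (3 / 4 - 1 / (k : ℝ)) = T ^ (3 / 4 : ℝ) / T ^ (1 / (k : ℝ)) :=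
    Real.rpow_sub hT0 _ _
  have hpow := ZD5_pow hk hT1
  rw [hU] at hpow herr
  have hp := Real.pi_gt_three
  have hlog : 1 / 2 ≤ Real.log n + Yk k T ^ 2 * (β - 1 / 4) := by
    have h1 : Real.log 2 ≤ Real.log n := Real.log_le_log (by norm_num) (by exact_mod_cast hn)
    have h2 := Real.log_two_gt_d9
    have h3 : 0 ≤ Yk k T ^ 2 * (β - 1 / 4) := mul_nonneg (sq_nonneg _) (by linarith)
    linarith
  have hE := ZD6_exp (κ := (k : ℝ)) hR0 hr hr1 hlog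
  rw [← hA] at hE
  refine ZD6_alg (e1 := cexp (I * (k * (2 * π * y ^ (1 / (k : ℝ))) +
      2 * π * y ^ (1 / (k : ℝ)) * Real.log n : ℝ)))
    (e2 := cexp ((Yk k T ^ 2 * (β - 1 / 4) ^ 2 / 2 : ℝ)))
    (B := y ^ (3 / 4 : ℝ) * ((Yk k T)⁻¹ ^ 2 / (2 * π * y ^ (1 / (k : ℝ))) ^ 2 +
      (Yk k T)⁻¹ ^ 4 / (2 * π * y ^ (1 / (k : ℝ))) ^ 3))
    hR (by nlinarith) (hmain.trans (le_of_eq (by ring))) hD.le herr ?_ ?_ (by positivity) ?_
    (by positivity) ?_ hE (by positivity) hpow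
  · rw [mul_comm, Complex.norm_exp_ofReal_mul_I]
  · rw [Complex.norm_exp, Complex.ofReal_re]
    apply Real.exp_le_exp.2
    have h1 : Yk k T ^ 2 ≤ 1 := pow_le_one₀ hY.le hY1
    have h2 : (β - 1 / 4) ^ 2 ≤ 4 := by nlinarith
    nlinarith [sq_nonneg (Yk k T), sq_nonneg (β - 1 / 4)]
  · calc y ^ (3 / 4 : ℝ) ≤ (2 * T) ^ (3 / 4 : ℝ) :=
          Real.rpow_le_rpow hy0.le hy2.2 (by norm_num)
      _ = 2 ^ (3 / 4 : ℝ) * T ^ (3 / 4 : ℝ) := Real.mul_rpow (by norm_num) hT0.le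
      _ ≤ 2 ^ (1 : ℝ) * T ^ (3 / 4 : ℝ) := by
          gcongr
          · norm_num
          · norm_num
      _ = _ := by rw [Real.rpow_one]
  · have h1 : (1 / 2 : ℂ) = ((1 / 2 : ℝ) : ℂ) := by push_cast; rfl
    rw [h1, Complex.norm_cpow_real, norm_div, norm_mul, Complex.norm_real, Real.norm_eq_abs,
      abs_of_pos Real.pi_pos, Complex.norm_ofNat]
    have h2 : 2 * π / ‖((Yk k T : ℂ) ^ 2 + I * ((k / (2 * π * y ^ (1 / (k : ℝ))) : ℝ) : ℂ))‖ ≤
        2 * π * T ^ (1 / (k : ℝ)) := by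
      rw [div_le_iff₀ (lt_of_lt_of_le (by positivity) hAn)]
      have h3 : T ^ (1 / (k : ℝ)) * (T ^ (1 / (k : ℝ)))⁻¹ = 1 := mul_inv_cancel₀ hR0.ne'
      calc 2 * π = 2 * π * (T ^ (1 / (k : ℝ)) * (T ^ (1 / (k : ℝ)))⁻¹) := by rw [h3, mul_one]
        _ ≤ 2 * π * (T ^ (1 / (k : ℝ)) *
            ‖((Yk k T : ℂ) ^ 2 + I * ((k / (2 * π * y ^ (1 / (k : ℝ))) : ℝ) : ℂ))‖) := by gcongr
        _ = _ := by ring
    have h5 : 1 ≤ 2 * π * T ^ (1 / (k : ℝ)) := by nlinarith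
    calc _ ≤ (2 * π * T ^ (1 / (k : ℝ))) ^ (1 / 2 : ℝ) :=
          Real.rpow_le_rpow (by positivity) h2 (by norm_num)
      _ ≤ (2 * π * T ^ (1 / (k : ℝ))) ^ (1 : ℝ) :=
          Real.rpow_le_rpow_of_exponent_le h5 (by norm_num)
      _ = _ := Real.rpow_one _
--END ZD6

--BEGIN ZD7
private theorem ZD7_chi_cont (τ : ℝ) :
    Continuous (fun v : ℝ => chi (-(1 / 4) + (τ + v : ℝ) * I)) := by
  unfold chi
  refine ((continuous_const.mul ?_).mul ?_).mul ?_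
  · refine Continuous.const_cpow (by fun_prop) (Or.inl ?_)
    norm_cast
    positivity
  · rw [continuous_iff_continuousAt]
    intro v
    have h1 : ContinuousAt Gamma (1 - (-(1 / 4) + (τ + v : ℝ) * I)) := by
      refine (Complex.differentiableAt_Gamma _ fun m => ?_).continuousAt
      intro h
      have := congrArg Complex.re h
      simp at this
      have hm : (0 : ℝ) ≤ m := by positivity
      norm_num at this
      linarith
    exact ContinuousAt.comp (f := fun v : ℝ => 1 - (-(1 / 4) + (τ + v : ℝ) * I)) h1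
      (by fun_prop)
  · fun_prop

private theorem ZD7_s0 (t : ℝ) : (-(1 / 4) + (t : ℂ) * I) ≠ 0 := by
  intro h
  have := congrArg Complex.re h
  simp at this

private theorem ZD7_s4 (t : ℝ) : 1 / 4 ≤ ‖(-(1 / 4) + (t : ℂ) * I)‖ := by
  have h1 := Complex.abs_re_le_norm (-(1 / 4) + (t : ℂ) * I)
  have h2 : (-(1 / 4) + (t : ℂ) * I).re = -(1 / 4) := by simp
  rw [h2] at h1
  norm_num at h1 ⊢
  exact h1

/-- the integrand -/
private noncomputable def ZD7_h (k : ℕ) (β y Y τ : ℝ) (v : ℝ) : ℂ :=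
  riemannZeta (-(1 / 4) + (τ + v : ℝ) * I) ^ k * (y : ℂ) ^ ((τ + v : ℝ) * I) *
    cexp ((Y : ℂ) ^ 2 * (β - 1 / 4 + v * I) ^ 2 / 2) / (-(1 / 4) + (τ + v : ℝ) * I)

private theorem ZD7_h_cont (k : ℕ) {β y Y τ : ℝ} (hy : 0 < y) : Continuous (ZD7_h k β y Y τ) := by
  unfold ZD7_h
  have hy' : (y : ℂ) ≠ 0 := by exact_mod_cast hy.ne'
  refine Continuous.div (((Continuous.pow ?_ k).mul ?_).mul (by fun_prop)) (by fun_prop)
    (fun v => ZD7_s0 _)
  · rw [continuous_iff_continuousAt]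
    intro v
    have h1 : ContinuousAt riemannZeta (-(1 / 4) + (τ + v : ℝ) * I) := by
      refine (differentiableAt_riemannZeta ?_).continuousAt
      intro h
      have := congrArg Complex.re h
      simp at this
      norm_num at this
    exact ContinuousAt.comp (f := fun v : ℝ => (-(1 / 4) + (τ + v : ℝ) * I : ℂ)) h1
      (by fun_prop)
  · exact Continuous.const_cpow (by fun_prop) (Or.inl hy')

private theorem ZD7_coef (k n : ℕ) {y t : ℝ} (hy : 0 < y) (X g s : ℂ) :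
    ((dk k n * (n : ℝ) ^ (-(5 / 4) : ℝ) : ℝ) : ℂ) *
      (X * ((n * y : ℝ) : ℂ) ^ ((t : ℂ) * I) * g / s) =
    X * (y : ℂ) ^ ((t : ℂ) * I) * g / s *
      LSeries.term (fun n => (dk k n : ℂ)) (1 - (-(1 / 4) + (t : ℂ) * I)) n := by
  rcases Nat.eq_zero_or_pos n with h | h
  · subst h
    rw [LSeries.term_zero, Nat.cast_zero, Real.zero_rpow (by norm_num), mul_zero]
    simp
  · rw [LSeries.term_of_ne_zero h.ne']
    have hn : (0 : ℝ) < n := by exact_mod_cast h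
    have hn' : (n : ℂ) ≠ 0 := by exact_mod_cast hn.ne'
    have e1 : ((n * y : ℝ) : ℂ) ^ ((t : ℂ) * I) = (n : ℂ) ^ ((t : ℂ) * I) * (y : ℂ) ^ ((t : ℂ) * I) := by
      rw [Complex.ofReal_mul, Complex.mul_cpow_ofReal_nonneg hn.le hy.le, Complex.ofReal_natCast]
    have e2 : (n : ℂ) ^ (1 - (-(1 / 4) + (t : ℂ) * I)) = (n : ℂ) ^ (5 / 4 : ℂ) / (n : ℂ) ^ ((t : ℂ) * I) := by
      rw [← Complex.cpow_sub _ _ hn']
      congr 1; ring
    have e3 : (((n : ℝ) ^ (-(5 / 4) : ℝ) : ℝ) : ℂ) = ((n : ℂ) ^ (5 / 4 : ℂ))⁻¹ := by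
      rw [Complex.ofReal_cpow hn.le, Complex.ofReal_natCast, ← Complex.cpow_neg]
      congr 1; push_cast; ring
    rw [e1, e2, Complex.ofReal_mul, e3]
    have h1 : (n : ℂ) ^ (5 / 4 : ℂ) ≠ 0 := by rw [Complex.cpow_ne_zero_iff]; exact Or.inl hn'
    have h2 : (n : ℂ) ^ ((t : ℂ) * I) ≠ 0 := by rw [Complex.cpow_ne_zero_iff]; exact Or.inl hn'
    field_simp

private theorem ZD7_series (k : ℕ) {β y Y τ : ℝ} (hy : 0 < y) (hτ : 0 < τ) :
    Summable (fun n : ℕ => ((dk k n * (n : ℝ) ^ (-(5 / 4) : ℝ) : ℝ) : ℂ) * Jn k β y Y τ n) ∧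
    ∑' n : ℕ, ((dk k n * (n : ℝ) ^ (-(5 / 4) : ℝ) : ℝ) : ℂ) * Jn k β y Y τ n =
      ∫ v in Ioc (-(τ / 2)) (τ / 2), ZD7_h k β y Y τ v := by
  have hab : -(τ / 2) ≤ τ / 2 := by linarith
  have hpt : ∀ v : ℝ, ∀ n : ℕ, ((dk k n * (n : ℝ) ^ (-(5 / 4) : ℝ) : ℝ) : ℂ) *
      (chi (-(1 / 4) + (τ + v : ℝ) * I) ^ k * ((n * y : ℝ) : ℂ) ^ ((τ + v : ℝ) * I) *
        cexp ((Y : ℂ) ^ 2 * (β - 1 / 4 + v * I) ^ 2 / 2) / (-(1 / 4) + (τ + v : ℝ) * I)) =
      chi (-(1 / 4) + (τ + v : ℝ) * I) ^ k * (y : ℂ) ^ ((τ + v : ℝ) * I) *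
        cexp ((Y : ℂ) ^ 2 * (β - 1 / 4 + v * I) ^ 2 / 2) / (-(1 / 4) + (τ + v : ℝ) * I) *
        LSeries.term (fun n => (dk k n : ℂ)) (1 - (-(1 / 4) + ((τ + v : ℝ) : ℂ) * I)) n :=
    fun v n => ZD7_coef k n hy _ _ _
  have hre : ∀ t : ℝ, 1 < (1 - (-(1 / 4) + (t : ℂ) * I)).re := by
    intro t
    have : (1 - (-(1 / 4) + (t : ℂ) * I)).re = 5 / 4 := by simp; norm_num
    rw [this]; norm_num
  have htsum : ∀ v : ℝ, ∑' n : ℕ, ((dk k n * (n : ℝ) ^ (-(5 / 4) : ℝ) : ℝ) : ℂ) *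
      (chi (-(1 / 4) + (τ + v : ℝ) * I) ^ k * ((n * y : ℝ) : ℂ) ^ ((τ + v : ℝ) * I) *
        cexp ((Y : ℂ) ^ 2 * (β - 1 / 4 + v * I) ^ 2 / 2) / (-(1 / 4) + (τ + v : ℝ) * I)) =
      ZD7_h k β y Y τ v := by
    intro v
    simp only [hpt v]
    rw [tsum_mul_left]
    have h1 := (zeta_pow_series k (hre (τ + v))).2
    rw [LSeries] at h1
    rw [← h1, ZD7_h, zeta_chi (s := -(1 / 4) + ((τ + v : ℝ) : ℂ) * I) (by simp)]
    ring
  -- norms
  have hcn : Summable (fun n : ℕ => dk k n * (n : ℝ) ^ (-(5 / 4) : ℝ)) := by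
    have h1 := (zeta_pow_series k (s := (5 / 4 : ℂ)) (by norm_num)).1
    have h2 := h1.norm
    refine h2.congr fun n => ?_
    rcases Nat.eq_zero_or_pos n with h | h
    · subst h
      rw [LSeries.term_zero, Nat.cast_zero, Real.zero_rpow (by norm_num), mul_zero, norm_zero]
    · rw [LSeries.term_of_ne_zero h.ne', norm_div, Complex.norm_real, Real.norm_eq_abs,
        abs_of_nonneg (dk_nonneg k n), Complex.norm_natCast_cpow_of_pos h, Real.rpow_neg (by positivity),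
        div_eq_mul_inv]
      norm_num
  have hcont : ∀ n : ℕ, 1 ≤ n → Continuous (fun v : ℝ => chi (-(1 / 4) + (τ + v : ℝ) * I) ^ k *
      ((n * y : ℝ) : ℂ) ^ ((τ + v : ℝ) * I) *
      cexp ((Y : ℂ) ^ 2 * (β - 1 / 4 + v * I) ^ 2 / 2) / (-(1 / 4) + (τ + v : ℝ) * I)) := by
    intro n hn
    have hny : ((n * y : ℝ) : ℂ) ≠ 0 := by
      have : (0 : ℝ) < n := by exact_mod_cast hn
      exact_mod_cast (mul_pos this hy).ne'
    refine Continuous.div ((((ZD7_chi_cont τ).pow k).mul ?_).mul (by fun_prop)) (by fun_prop)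
      (fun v => ZD7_s0 _)
    exact Continuous.const_cpow (by fun_prop) (Or.inl hny)
  have hF_int : ∀ n : ℕ, Integrable (fun v : ℝ => ((dk k n * (n : ℝ) ^ (-(5 / 4) : ℝ) : ℝ) : ℂ) *
      (chi (-(1 / 4) + (τ + v : ℝ) * I) ^ k * ((n * y : ℝ) : ℂ) ^ ((τ + v : ℝ) * I) *
        cexp ((Y : ℂ) ^ 2 * (β - 1 / 4 + v * I) ^ 2 / 2) / (-(1 / 4) + (τ + v : ℝ) * I)))
      (volume.restrict (Ioc (-(τ / 2)) (τ / 2))) := by
    intro n
    rcases Nat.eq_zero_or_pos n with h | h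
    · subst h
      rw [Nat.cast_zero, Real.zero_rpow (by norm_num), mul_zero]
      simp
    · refine Integrable.const_mul ?_ _
      exact ((hcont n h).integrableOn_Icc (a := -(τ / 2)) (b := τ / 2) (μ := volume)).mono_set
        Ioc_subset_Icc_self
  have hnorm : ∀ n : ℕ, ∫ v in Ioc (-(τ / 2)) (τ / 2),
      ‖((dk k n * (n : ℝ) ^ (-(5 / 4) : ℝ) : ℝ) : ℂ) *
      (chi (-(1 / 4) + (τ + v : ℝ) * I) ^ k * ((n * y : ℝ) : ℂ) ^ ((τ + v : ℝ) * I) *
        cexp ((Y : ℂ) ^ 2 * (β - 1 / 4 + v * I) ^ 2 / 2) / (-(1 / 4) + (τ + v : ℝ) * I))‖ =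
      (dk k n * (n : ℝ) ^ (-(5 / 4) : ℝ)) * ∫ v in Ioc (-(τ / 2)) (τ / 2),
        ‖chi (-(1 / 4) + (τ + v : ℝ) * I) ^ k *
        cexp ((Y : ℂ) ^ 2 * (β - 1 / 4 + v * I) ^ 2 / 2) / (-(1 / 4) + (τ + v : ℝ) * I)‖ := by
    intro n
    rcases Nat.eq_zero_or_pos n with h | h
    · subst h
      rw [Nat.cast_zero, Real.zero_rpow (by norm_num), mul_zero]
      simp
    · rw [← integral_const_mul]
      congr 1
      ext v
      have hn : (0 : ℝ) < n := by exact_mod_cast h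
      have h1 : ‖((n * y : ℝ) : ℂ) ^ ((τ + v : ℝ) * I)‖ = 1 := by
        rw [Complex.norm_cpow_eq_rpow_re_of_pos (by positivity)]
        simp
      rw [norm_mul, Complex.norm_real, Real.norm_eq_abs, abs_of_nonneg (mul_nonneg
        (dk_nonneg k n) (by positivity)), norm_div, norm_mul, norm_mul, h1, mul_one, norm_div,
        norm_mul]
  have hsum := hasSum_integral_of_summable_integral_norm hF_int (by
    simp only [hnorm]
    exact hcn.mul_right _)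
  have hJ : ∀ n : ℕ, ∫ v in Ioc (-(τ / 2)) (τ / 2),
      ((dk k n * (n : ℝ) ^ (-(5 / 4) : ℝ) : ℝ) : ℂ) *
      (chi (-(1 / 4) + (τ + v : ℝ) * I) ^ k * ((n * y : ℝ) : ℂ) ^ ((τ + v : ℝ) * I) *
        cexp ((Y : ℂ) ^ 2 * (β - 1 / 4 + v * I) ^ 2 / 2) / (-(1 / 4) + (τ + v : ℝ) * I)) =
      ((dk k n * (n : ℝ) ^ (-(5 / 4) : ℝ) : ℝ) : ℂ) * Jn k β y Y τ n := by
    intro n
    rw [integral_const_mul, Jn, intervalIntegral.integral_of_le hab]
  simp only [hJ, htsum] at hsum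
  exact ⟨hsum.summable, hsum.tsum_eq⟩

private theorem ZD7_pt (k : ℕ) {β y Y τ : ℝ} (hy : 0 < y) (v : ℝ) :
    riemannZeta (-(1 / 4) + ((-(τ + v) : ℝ) : ℂ) * I) ^ k *
      ((√(2 * π) * Y : ℝ) * (y : ℂ) ^ (-(1 / 4) + ((-(τ + v) : ℝ) : ℂ) * I + β : ℂ) *
      cexp ((Y : ℂ) ^ 2 * (-(1 / 4) + ((-(τ + v) : ℝ) : ℂ) * I + β + I * τ) ^ 2 / 2) /
        (-(1 / 4) + ((-(τ + v) : ℝ) : ℂ) * I)) =
    conj (((√(2 * π) * Y * y ^ (β - 1 / 4) : ℝ) : ℂ) * ZD7_h k β y Y τ v) := by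
  have hy' : (y : ℂ) ≠ 0 := by exact_mod_cast hy.ne'
  have e1 : (-(1 / 4) + ((-(τ + v) : ℝ) : ℂ) * I : ℂ) = conj (-(1 / 4) + ((τ + v : ℝ) : ℂ) * I) := by
    rw [map_add, map_mul, Complex.conj_ofReal, Complex.conj_I, map_neg, map_div₀, map_one,
      Complex.conj_ofNat]
    push_cast; ring
  have e2 : (y : ℂ) ^ (-(1 / 4) + ((-(τ + v) : ℝ) : ℂ) * I + β : ℂ) =
      ((y ^ (β - 1 / 4) : ℝ) : ℂ) * conj ((y : ℂ) ^ (((τ + v : ℝ) : ℂ) * I)) := by
    rw [Complex.ofReal_cpow hy.le, Complex.cpow_def_of_ne_zero hy', Complex.cpow_def_of_ne_zero hy',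
      Complex.cpow_def_of_ne_zero hy', ← Complex.ofReal_log hy.le, ← Complex.exp_conj,
      ← Complex.exp_add, map_mul, map_mul, Complex.conj_ofReal, Complex.conj_ofReal, Complex.conj_I]
    congr 1
    push_cast; ring
  have e3 : cexp ((Y : ℂ) ^ 2 * (-(1 / 4) + ((-(τ + v) : ℝ) : ℂ) * I + β + I * τ) ^ 2 / 2) =
      conj (cexp ((Y : ℂ) ^ 2 * (β - 1 / 4 + v * I) ^ 2 / 2)) := by
    rw [← Complex.exp_conj]
    congr 1
    simp only [map_div₀, map_mul, map_pow, map_add, map_sub, map_one, Complex.conj_ofReal,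
      Complex.conj_I, Complex.conj_ofNat]
    push_cast; ring
  rw [e2, e3, e1, riemannZeta_conj, ZD7_h]
  simp only [map_div₀, map_mul, map_pow, Complex.conj_ofReal]
  push_cast
  ring

private theorem ZD7_int (k : ℕ) {β y Y τ : ℝ} (hy : 0 < y) :
    (1 / (2 * π) : ℂ) * ∫ t : ℝ, riemannZeta (-(1 / 4) + t * I) ^ k *
      ((√(2 * π) * Y : ℝ) * (y : ℂ) ^ (-(1 / 4) + t * I + β : ℂ) *
      cexp ((Y : ℂ) ^ 2 * (-(1 / 4) + t * I + β + I * τ) ^ 2 / 2) / (-(1 / 4) + t * I)) =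
    conj (((Y / √(2 * π) * y ^ (β - 1 / 4) : ℝ) : ℂ) * ∫ v : ℝ, ZD7_h k β y Y τ v) := by
  set G : ℝ → ℂ := fun t => riemannZeta (-(1 / 4) + t * I) ^ k *
      ((√(2 * π) * Y : ℝ) * (y : ℂ) ^ (-(1 / 4) + t * I + β : ℂ) *
      cexp ((Y : ℂ) ^ 2 * (-(1 / 4) + t * I + β + I * τ) ^ 2 / 2) / (-(1 / 4) + t * I)) with hG
  have h1 : ∫ t : ℝ, G t = ∫ v : ℝ, G (-(τ + v)) := by
    rw [integral_add_left_eq_self (fun v => G (-v)) τ, integral_neg_eq_self G]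
  have h2 : ∀ v : ℝ, G (-(τ + v)) =
      conj (((√(2 * π) * Y * y ^ (β - 1 / 4) : ℝ) : ℂ) * ZD7_h k β y Y τ v) :=
    fun v => ZD7_pt k hy v
  rw [h1]
  simp only [h2]
  rw [integral_conj, integral_const_mul]
  have h3 : (1 / (2 * π) : ℂ) = conj (((1 / (2 * π) : ℝ)) : ℂ) := by
    rw [Complex.conj_ofReal]; push_cast; rfl
  rw [h3, ← map_mul]
  congr 1
  rw [← mul_assoc, ← Complex.ofReal_mul]
  congr 2
  have h4 : √(2 * π) * √(2 * π) = 2 * π := Real.mul_self_sqrt (by positivity)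
  have h5 : √(2 * π) ≠ 0 := by positivity
  field_simp
  rw [sq, h4]

private theorem ZD7_exp (k : ℕ) {u : ℝ} (hu : 0 ≤ u) :
    (1 + u) ^ k ≤ (16 ^ k * k.factorial * Real.exp 1) * Real.exp (u ^ 2 / 8) := by
  have h1 : 1 + u ≤ 16 * (1 + u ^ 2 / 8) := by nlinarith [sq_nonneg (u - 1 / 4)]
  have h2 := Real.pow_div_factorial_le_exp (x := 1 + u ^ 2 / 8) (by positivity) k
  rw [div_le_iff₀ (by positivity), Real.exp_add] at h2
  calc (1 + u) ^ k ≤ (16 * (1 + u ^ 2 / 8)) ^ k := pow_le_pow_left₀ (by linarith) h1 k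
    _ = 16 ^ k * (1 + u ^ 2 / 8) ^ k := mul_pow _ _ _
    _ ≤ 16 ^ k * (Real.exp 1 * Real.exp (u ^ 2 / 8) * k.factorial) := by gcongr
    _ = _ := by ring

/-- bound for the integrand -/
private theorem ZD7_hb {k : ℕ} {C : ℝ} (hC : 0 < C)
    (hz : ∀ t : ℝ, ‖riemannZeta (-(1 / 4) + t * I)‖ ≤ C * (1 + |t|) ^ (3 / 4 : ℝ))
    {β y Y τ : ℝ} (hβ : 1 ≤ β) (hβ' : β ≤ 2) (hy : 0 < y) (hY : 0 < Y) (hY1 : Y ≤ 1) (hτ : 0 < τ)
    (v : ℝ) : ‖ZD7_h k β y Y τ v‖ ≤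
      (4 * C ^ k * Real.exp 2 * (16 ^ k * k.factorial * Real.exp 1)) * ((1 + τ) * Y⁻¹) ^ k *
        Real.exp (-(3 / 8 * Y ^ 2 * v ^ 2)) := by
  have hZ : 1 ≤ Y⁻¹ := (one_le_inv₀ hY).2 hY1
  have hv := abs_nonneg v
  have e1 : ‖riemannZeta (-(1 / 4) + ((τ + v : ℝ) : ℂ) * I)‖ ≤ C * ((1 + τ) * Y⁻¹ * (1 + Y * |v|)) := by
    refine (hz (τ + v)).trans (mul_le_mul_of_nonneg_left ?_ hC.le)
    have h1 : 1 ≤ 1 + |τ + v| := by linarith [abs_nonneg (τ + v)]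
    have h2 : (1 + |τ + v|) ^ (3 / 4 : ℝ) ≤ (1 + |τ + v|) ^ (1 : ℝ) :=
      Real.rpow_le_rpow_of_exponent_le h1 (by norm_num)
    rw [Real.rpow_one] at h2
    have h3 : |τ + v| ≤ τ + |v| := (abs_add_le τ v).trans (by rw [abs_of_pos hτ])
    have h4 : Y⁻¹ * (1 + Y * |v|) = Y⁻¹ + |v| := by field_simp
    calc _ ≤ _ := h2
      _ ≤ 1 + (τ + |v|) := by linarith
      _ ≤ (1 + τ) * (Y⁻¹ + |v|) := by nlinarith
      _ = _ := by rw [mul_assoc, h4]
  have e2 : ‖(y : ℂ) ^ (((τ + v : ℝ) : ℂ) * I)‖ = 1 := by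
    rw [Complex.norm_cpow_eq_rpow_re_of_pos hy]
    simp
  have e3 : ‖cexp ((Y : ℂ) ^ 2 * (β - 1 / 4 + v * I) ^ 2 / 2)‖ ≤
      Real.exp 2 * Real.exp (-(Y ^ 2 * v ^ 2 / 2)) := by
    rw [Complex.norm_exp, ← Real.exp_add]
    apply Real.exp_le_exp.2
    have : ((Y : ℂ) ^ 2 * (β - 1 / 4 + v * I) ^ 2 / 2).re =
        Y ^ 2 * (β - 1 / 4) ^ 2 / 2 - Y ^ 2 * v ^ 2 / 2 := by
      have h1 : ((Y : ℂ) ^ 2 * (β - 1 / 4 + v * I) ^ 2 / 2) =
          ((Y ^ 2 * (β - 1 / 4) ^ 2 / 2 - Y ^ 2 * v ^ 2 / 2 : ℝ) : ℂ) +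
            ((Y ^ 2 * (β - 1 / 4) * v : ℝ) : ℂ) * I := by
        push_cast
        have := Complex.I_sq
        linear_combination ((Y : ℂ) ^ 2 * v ^ 2 / 2) * this
      rw [h1, Complex.add_re, Complex.ofReal_re, Complex.mul_I_re, Complex.ofReal_im, neg_zero,
        add_zero]
    rw [this]
    have h1 : Y ^ 2 ≤ 1 := pow_le_one₀ hY.le hY1
    have h2 : (β - 1 / 4) ^ 2 ≤ 4 := by nlinarith
    nlinarith [sq_nonneg Y, sq_nonneg (β - 1 / 4)]
  have e4 := ZD7_s4 (τ + v)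
  rw [ZD7_h, norm_div, norm_mul, norm_mul, norm_pow, e2, mul_one]
  have e5 := ZD7_exp k (u := Y * |v|) (by positivity)
  have e6 : (Y * |v|) ^ 2 / 8 = Y ^ 2 * v ^ 2 / 8 := by rw [mul_pow, sq_abs]
  rw [e6] at e5
  have e7 : Real.exp (-(3 / 8 * Y ^ 2 * v ^ 2)) =
      Real.exp (Y ^ 2 * v ^ 2 / 8) * Real.exp (-(Y ^ 2 * v ^ 2 / 2)) := by
    rw [← Real.exp_add]; congr 1; ring
  have e8 : 0 < (1 + τ) * Y⁻¹ := by positivity
  calc ‖riemannZeta (-(1 / 4) + ((τ + v : ℝ) : ℂ) * I)‖ ^ k *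
        ‖cexp ((Y : ℂ) ^ 2 * (β - 1 / 4 + v * I) ^ 2 / 2)‖ /
        ‖(-(1 / 4) + ((τ + v : ℝ) : ℂ) * I)‖
      ≤ (C * ((1 + τ) * Y⁻¹ * (1 + Y * |v|))) ^ k *
        (Real.exp 2 * Real.exp (-(Y ^ 2 * v ^ 2 / 2))) / (1 / 4) := by gcongr
    _ = 4 * C ^ k * Real.exp 2 * ((1 + τ) * Y⁻¹) ^ k * ((1 + Y * |v|) ^ k) *
        Real.exp (-(Y ^ 2 * v ^ 2 / 2)) := by
          rw [mul_pow, mul_pow]; ring
    _ ≤ 4 * C ^ k * Real.exp 2 * ((1 + τ) * Y⁻¹) ^ k *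
        ((16 ^ k * k.factorial * Real.exp 1) * Real.exp (Y ^ 2 * v ^ 2 / 8)) *
        Real.exp (-(Y ^ 2 * v ^ 2 / 2)) := by gcongr
    _ = _ := by rw [e7]; ring

private theorem ZD7_h_int {k : ℕ} {C : ℝ} (hC : 0 < C)
    (hz : ∀ t : ℝ, ‖riemannZeta (-(1 / 4) + t * I)‖ ≤ C * (1 + |t|) ^ (3 / 4 : ℝ))
    {β y Y τ : ℝ} (hβ : 1 ≤ β) (hβ' : β ≤ 2) (hy : 0 < y) (hY : 0 < Y) (hY1 : Y ≤ 1) (hτ : 0 < τ) :
    Integrable (ZD7_h k β y Y τ) := by
  have h1 := (integrable_exp_neg_mul_sq (b := 3 / 8 * Y ^ 2) (by positivity)).const_mul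
    ((4 * C ^ k * Real.exp 2 * (16 ^ k * k.factorial * Real.exp 1)) * ((1 + τ) * Y⁻¹) ^ k)
  refine Integrable.mono' h1 (ZD7_h_cont k hy).aestronglyMeasurable
    (Filter.Eventually.of_forall fun v => ?_)
  refine (ZD7_hb hC hz hβ hβ' hy hY hY1 hτ v).trans (le_of_eq ?_)
  congr 2
  ring

private theorem ZD7_tail {k : ℕ} {C : ℝ} (hC : 0 < C)
    (hz : ∀ t : ℝ, ‖riemannZeta (-(1 / 4) + t * I)‖ ≤ C * (1 + |t|) ^ (3 / 4 : ℝ))
    {β y Y τ R : ℝ} (hβ : 1 ≤ β) (hβ' : β ≤ 2) (hy : 0 < y) (hY : 0 < Y) (hY1 : Y ≤ 1) (hτ : 0 < τ)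
    (hR : 32 * R ≤ Y ^ 2 * τ ^ 2) :
    ‖∫ v in (Ioc (-(τ / 2)) (τ / 2))ᶜ, ZD7_h k β y Y τ v‖ ≤
      (4 * C ^ k * Real.exp 2 * (16 ^ k * k.factorial * Real.exp 1)) * ((1 + τ) * Y⁻¹) ^ k *
        Real.exp (-R) * (4 * Y⁻¹) := by
  obtain ⟨B, hB⟩ : ∃ B : ℝ, B = (4 * C ^ k * Real.exp 2 * (16 ^ k * k.factorial * Real.exp 1)) *
    ((1 + τ) * Y⁻¹) ^ k := ⟨_, rfl⟩
  have hB0 : 0 < B := by rw [hB]; positivity
  have hb := ZD7_hb (k := k) hC hz hβ hβ' hy hY hY1 hτ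
  rw [← hB] at hb ⊢
  have iB : Integrable (fun v : ℝ => B * Real.exp (-R) * Real.exp (-(Y ^ 2 / 4) * v ^ 2)) :=
    (integrable_exp_neg_mul_sq (b := Y ^ 2 / 4) (by positivity)).const_mul _
  have hI : ∫ v : ℝ, B * Real.exp (-R) * Real.exp (-(Y ^ 2 / 4) * v ^ 2) =
      B * Real.exp (-R) * (2 * √π * Y⁻¹) := by
    rw [integral_const_mul, integral_gaussian]
    have : π / (Y ^ 2 / 4) = π * (2 * Y⁻¹) ^ 2 := by field_simp; norm_num
    rw [this, Real.sqrt_mul Real.pi_pos.le, Real.sqrt_sq (by positivity)]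
    ring
  have h1 : ‖∫ v in (Ioc (-(τ / 2)) (τ / 2))ᶜ, ZD7_h k β y Y τ v‖ ≤
      ∫ v in (Ioc (-(τ / 2)) (τ / 2))ᶜ, B * Real.exp (-R) * Real.exp (-(Y ^ 2 / 4) * v ^ 2) := by
    refine norm_integral_le_of_norm_le iB.integrableOn ?_
    rw [ae_restrict_iff' measurableSet_Ioc.compl]
    refine Filter.Eventually.of_forall fun v hv => ?_
    have hv' : τ / 2 ≤ |v| := by
      rw [mem_compl_iff, mem_Ioc, not_and_or, not_lt, not_le] at hv
      rcases hv with h | h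
      · have := neg_le_abs v
        linarith
      · exact h.le.trans (le_abs_self v)
    have hv2 : τ ^ 2 / 4 ≤ v ^ 2 := by
      rw [← sq_abs v]
      nlinarith [abs_nonneg v]
    refine (hb v).trans ?_
    rw [mul_assoc B, ← Real.exp_add]
    refine mul_le_mul_of_nonneg_left (Real.exp_le_exp.2 ?_) hB0.le
    have : Y ^ 2 * (τ ^ 2 / 4) ≤ Y ^ 2 * v ^ 2 := mul_le_mul_of_nonneg_left hv2 (sq_nonneg _)
    nlinarith
  have h2 : ∫ v in (Ioc (-(τ / 2)) (τ / 2))ᶜ, B * Real.exp (-R) * Real.exp (-(Y ^ 2 / 4) * v ^ 2) ≤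
      ∫ v : ℝ, B * Real.exp (-R) * Real.exp (-(Y ^ 2 / 4) * v ^ 2) :=
    setIntegral_le_integral iB (Filter.Eventually.of_forall fun v => by positivity)
  rw [hI] at h2
  have h3 : √π ≤ 2 := by
    rw [Real.sqrt_le_left (by norm_num)]
    have := Real.pi_lt_four
    linarith
  have h4 : 2 * √π * Y⁻¹ ≤ 4 * Y⁻¹ := by
    have : 0 < Y⁻¹ := inv_pos.2 hY
    nlinarith
  calc _ ≤ _ := h1
    _ ≤ _ := h2
    _ ≤ _ := by gcongr

private theorem ZD7_par {k : ℕ} (hk : 4 ≤ k) {T y : ℝ} (hT : 1 ≤ T) (hy : y ∈ Icc T (2 * T)) :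
    1 ≤ T ^ (1 / (k : ℝ)) ∧ (T ^ (1 / (k : ℝ))) ^ k = T ∧ 0 < Yk k T ∧ Yk k T ≤ 1 ∧
    Yk k T ^ 2 = (T ^ (1 / (k : ℝ)))⁻¹ ∧ (Yk k T)⁻¹ ≤ T ^ (1 / (k : ℝ)) ∧
    T ^ (1 / (k : ℝ)) ≤ y ^ (1 / (k : ℝ)) ∧ y ^ (1 / (k : ℝ)) ≤ 2 * T ^ (1 / (k : ℝ)) := by
  have hT0 : 0 < T := by linarith
  have hy0 : 0 < y := by linarith [hy.1]
  have hk4 : (4 : ℝ) ≤ k := by exact_mod_cast hk
  have hk0 : (0 : ℝ) < k := by linarith
  have hk1 : 1 / (k : ℝ) ≤ 1 := by
    rw [div_le_one hk0]; linarith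
  have hR : 1 ≤ T ^ (1 / (k : ℝ)) := Real.one_le_rpow hT (by positivity)
  have hY0 : 0 < Yk k T := by unfold Yk; positivity
  have hY2 : Yk k T ^ 2 = (T ^ (1 / (k : ℝ)))⁻¹ := by
    rw [Yk, ← Real.rpow_natCast, ← Real.rpow_mul hT0.le, ← Real.rpow_neg hT0.le]
    congr 1
    push_cast
    field_simp
  have hY1 : Yk k T ≤ 1 :=
    Real.rpow_le_one_of_one_le_of_nonpos hT (by
      have : 0 < 1 / (2 * (k : ℝ)) := by positivity
      linarith)
  refine ⟨hR, ?_, hY0, hY1, hY2, ?_, Real.rpow_le_rpow hT0.le hy.1 (by positivity), ?_⟩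
  · rw [← Real.rpow_natCast, ← Real.rpow_mul hT0.le, one_div_mul_cancel hk0.ne', Real.rpow_one]
  · have h1 : (Yk k T)⁻¹ ^ 2 = T ^ (1 / (k : ℝ)) := by rw [inv_pow, hY2, inv_inv]
    rw [← h1]
    have h2 : 1 ≤ (Yk k T)⁻¹ := (one_le_inv₀ hY0).2 hY1
    nlinarith
  · calc y ^ (1 / (k : ℝ)) ≤ (2 * T) ^ (1 / (k : ℝ)) :=
          Real.rpow_le_rpow hy0.le hy.2 (by positivity)
      _ = 2 ^ (1 / (k : ℝ)) * T ^ (1 / (k : ℝ)) := Real.mul_rpow (by norm_num) hT0.le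
      _ ≤ 2 ^ (1 : ℝ) * T ^ (1 / (k : ℝ)) := by
          gcongr
          norm_num
      _ = _ := by rw [Real.rpow_one]

private theorem ZD7_alg {k : ℕ} {R T A E Z P W B Y' tau1 : ℝ} (hR : 1 ≤ R) (hT : R ^ k = T)
    (hA : 0 ≤ A) (hE : E = Real.exp (-R)) (hZ : Z ≤ 12 * A * T ^ 2 * E) (hP0 : 0 ≤ P)
    (hP : P ≤ 4 * T ^ 2) (hB : 0 ≤ B) (hY0 : 0 ≤ Y') (hY' : Y' ≤ R) (ht0 : 0 ≤ tau1)
    (ht : tau1 ≤ 15 * R) (hW : W ≤ B * (tau1 * Y') ^ k * E * (4 * Y')) :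
    Z + P * W ≤ (12 * A + 16 * 15 ^ k * B) * (5 * k + 1).factorial * T⁻¹ := by
  have hR0 : 0 < R := by linarith
  have hT0 : 0 < T := by rw [← hT]; positivity
  have hE0 : 0 < E := by rw [hE]; exact Real.exp_pos _
  have h1 := Real.pow_div_factorial_le_exp (x := R) hR0.le (5 * k + 1)
  rw [div_le_iff₀ (by positivity)] at h1
  have h2 : R ^ (5 * k + 1) * E ≤ (5 * k + 1).factorial := by
    rw [hE]
    calc R ^ (5 * k + 1) * Real.exp (-R) ≤
          (Real.exp R * (5 * k + 1).factorial) * Real.exp (-R) := by gcongr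
      _ = (5 * k + 1).factorial * (Real.exp R * Real.exp (-R)) := by ring
      _ = _ := by rw [← Real.exp_add]; simp
  have h3 : R ^ (5 * k + 1) = R ^ (4 * k + 1) * T := by
    rw [← hT, ← pow_add]; congr 1; ring
  have h4 : R ^ (4 * k + 1) * E ≤ (5 * k + 1).factorial * T⁻¹ := by
    rw [h3] at h2
    rw [← div_eq_mul_inv, le_div_iff₀ hT0]
    linarith
  have hT2 : T ^ 2 = R ^ (2 * k) := by rw [← hT, ← pow_mul, mul_comm]
  have h5 : Z ≤ 12 * A * (R ^ (4 * k + 1) * E) := by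
    refine hZ.trans ?_
    rw [hT2, mul_assoc (12 * A)]
    have : R ^ (2 * k) ≤ R ^ (4 * k + 1) := pow_le_pow_right₀ hR (by omega)
    gcongr
  have h6 : W ≤ B * (15 * R * R) ^ k * E * (4 * R) := by
    refine hW.trans ?_
    gcongr
  have h7 : P * W ≤ 16 * 15 ^ k * B * (R ^ (4 * k + 1) * E) := by
    calc P * W ≤ P * (B * (15 * R * R) ^ k * E * (4 * R)) := by gcongr
      _ ≤ (4 * T ^ 2) * (B * (15 * R * R) ^ k * E * (4 * R)) := by gcongr
      _ = 16 * 15 ^ k * B * (R ^ (4 * k + 1) * E) := by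
          rw [hT2, mul_pow, mul_pow, show 4 * k + 1 = 2 * k + k + k + 1 by ring, pow_succ, pow_add,
            pow_add]
          ring
  calc Z + P * W ≤ (12 * A + 16 * 15 ^ k * B) * (R ^ (4 * k + 1) * E) := by linarith
    _ ≤ (12 * A + 16 * 15 ^ k * B) * ((5 * k + 1).factorial * T⁻¹) := by gcongr
    _ = _ := by ring

/-- **ZD7.** `GI` (at `τ = 2π y^{1/k}`, complex conjugated) is the sum of the `Jn`, up to a very
small error: put `t = -τ - v` in ZC4, cut at `|v| ≤ τ/2`, insert `ζ(s) = χ(s) ζ(1-s)` and the series. -/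
theorem GI_eq_Jn {k : ℕ} (hk : 4 ≤ k) {β : ℝ} (hβ : 1 ≤ β) (hβ' : β ≤ 2) :
    ∃ C T0 : ℝ, 0 < C ∧ 1 ≤ T0 ∧ ∀ T : ℝ, T0 ≤ T → ∀ y ∈ Icc T (2 * T),
      Summable (fun n : ℕ => ((dk k n * (n : ℝ) ^ (-(5 / 4) : ℝ) : ℝ) : ℂ) *
        Jn k β y (Yk k T) (2 * π * y ^ (1 / (k : ℝ))) n) ∧
      ‖GI k β y (Yk k T) (2 * π * y ^ (1 / (k : ℝ))) -
        conj (((Yk k T / √(2 * π) * y ^ (β - 1 / 4) : ℝ) : ℂ) *
          ∑' n : ℕ, ((dk k n * (n : ℝ) ^ (-(5 / 4) : ℝ) : ℝ) : ℂ) *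
            Jn k β y (Yk k T) (2 * π * y ^ (1 / (k : ℝ))) n)‖ ≤ C * T ^ (-(1 : ℝ)) := by
  obtain ⟨C, hC, hz⟩ := zeta_line_bound
  refine ⟨(12 * Real.exp 2 + 16 * 15 ^ k * (4 * C ^ k * Real.exp 2 *
    (16 ^ k * k.factorial * Real.exp 1))) * (5 * k + 1).factorial, 1, by positivity, le_rfl,
    fun T hT y hy => ?_⟩
  have hT0 : 0 < T := by linarith
  have hy0 : 0 < y := by linarith [hy.1]
  have hy1 : 1 ≤ y := by linarith [hy.1]
  obtain ⟨hR, hRk, hY0, hY1, hY2, hYi, hRy, hyR⟩ := ZD7_par hk hT hy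
  have hp3 := Real.pi_gt_three
  have hp4 := Real.pi_lt_d2
  have hτ0 : 0 < 2 * π * y ^ (1 / (k : ℝ)) := by positivity
  obtain ⟨hsum, htsum⟩ := ZD7_series k (β := β) (Y := Yk k T) hy0 hτ0
  refine ⟨hsum, ?_⟩
  have hR0 : 0 < T ^ (1 / (k : ℝ)) := by linarith
  have hτR : 6 * T ^ (1 / (k : ℝ)) ≤ 2 * π * y ^ (1 / (k : ℝ)) := by nlinarith
  have hτR' : 1 + 2 * π * y ^ (1 / (k : ℝ)) ≤ 15 * T ^ (1 / (k : ℝ)) := by nlinarith
  have hYτ : 32 * T ^ (1 / (k : ℝ)) ≤ Yk k T ^ 2 * (2 * π * y ^ (1 / (k : ℝ))) ^ 2 := by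
    rw [hY2]
    have h1 : (6 * T ^ (1 / (k : ℝ))) ^ 2 ≤ (2 * π * y ^ (1 / (k : ℝ))) ^ 2 :=
      pow_le_pow_left₀ (by positivity) hτR 2
    calc 32 * T ^ (1 / (k : ℝ)) ≤ (T ^ (1 / (k : ℝ)))⁻¹ * (6 * T ^ (1 / (k : ℝ))) ^ 2 := by
          have : (T ^ (1 / (k : ℝ)))⁻¹ * (6 * T ^ (1 / (k : ℝ))) ^ 2 = 36 * T ^ (1 / (k : ℝ)) := by
            field_simp; norm_num
          rw [this]; linarith
      _ ≤ _ := by gcongr
  have hint := ZD7_h_int (k := k) hC hz hβ hβ' hy0 hY0 hY1 hτ0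
  have htail := ZD7_tail (k := k) hC hz hβ hβ' hy0 hY0 hY1 hτ0 hYτ
  have hsplit := integral_add_compl (s := Ioc (-(2 * π * y ^ (1 / (k : ℝ)) / 2))
    (2 * π * y ^ (1 / (k : ℝ)) / 2)) measurableSet_Ioc hint
  rw [GI_formula (by omega) hy0 hY0, ZD7_int k hy0, htsum, ← hsplit, mul_add, map_add,
    add_sub_assoc, add_sub_cancel_left]
  refine (norm_add_le _ _).trans ?_
  rw [Complex.norm_conj, norm_mul (((Yk k T / √(2 * π) * y ^ (β - 1 / 4) : ℝ) : ℂ)),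
    Complex.norm_real, Real.norm_eq_abs, Real.rpow_neg_one]
  have hs1 : 1 ≤ √(2 * π) := by
    rw [Real.one_le_sqrt]; linarith
  have hs3 : √(2 * π) ≤ 3 := by
    rw [Real.sqrt_le_left (by norm_num)]; linarith
  have hypow : ∀ e : ℝ, e ≤ 2 → y ^ e ≤ 4 * T ^ 2 := by
    intro e he
    calc y ^ e ≤ y ^ (2 : ℝ) := Real.rpow_le_rpow_of_exponent_le hy1 he
      _ = y ^ 2 := Real.rpow_two y
      _ ≤ (2 * T) ^ 2 := pow_le_pow_left₀ hy0.le hy.2 2
      _ = _ := by ring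
  refine ZD7_alg (k := k) (R := T ^ (1 / (k : ℝ))) (A := Real.exp 2) hR hRk (by positivity) rfl ?_
    (abs_nonneg _) ?_ (by positivity) (by positivity) hYi (by positivity) hτR' htail
  · rw [norm_mul, norm_pow, riemannZeta_zero, norm_mul, norm_mul, Complex.norm_real,
      Real.norm_eq_abs, abs_of_pos (by positivity), Complex.norm_cpow_eq_rpow_re_of_pos hy0,
      Complex.norm_exp, Complex.ofReal_re]
    have h1 : ((Yk k T : ℂ) ^ 2 * (β + I * (2 * π * y ^ (1 / (k : ℝ)) : ℝ)) ^ 2 / 2).re =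
        Yk k T ^ 2 * β ^ 2 / 2 - Yk k T ^ 2 * (2 * π * y ^ (1 / (k : ℝ))) ^ 2 / 2 := by
      generalize (2 * π * y ^ (1 / (k : ℝ)) : ℝ) = τ
      have h1 : ((Yk k T : ℂ) ^ 2 * (β + I * τ) ^ 2 / 2) =
          ((Yk k T ^ 2 * β ^ 2 / 2 - Yk k T ^ 2 * τ ^ 2 / 2 : ℝ) : ℂ) +
            ((Yk k T ^ 2 * β * τ : ℝ) : ℂ) * I := by
        push_cast
        have := Complex.I_sq
        linear_combination ((Yk k T : ℂ) ^ 2 * τ ^ 2 / 2) * this
      rw [h1, Complex.add_re, Complex.ofReal_re, Complex.mul_I_re, Complex.ofReal_im, neg_zero,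
        add_zero]
    rw [h1]
    have h2 : Real.exp (Yk k T ^ 2 * β ^ 2 / 2 -
        Yk k T ^ 2 * (2 * π * y ^ (1 / (k : ℝ))) ^ 2 / 2) ≤
        Real.exp 2 * Real.exp (-T ^ (1 / (k : ℝ))) := by
      rw [← Real.exp_add]
      apply Real.exp_le_exp.2
      have h3 : Yk k T ^ 2 ≤ 1 := pow_le_one₀ hY0.le hY1
      have h4 : β ^ 2 ≤ 4 := by nlinarith
      nlinarith [sq_nonneg (Yk k T), sq_nonneg β]
    have h3 : ‖(-1 / 2 : ℂ)‖ ^ k ≤ 1 := by
      refine pow_le_one₀ (norm_nonneg _) ?_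
      rw [norm_div, norm_neg, norm_one, Complex.norm_ofNat]
      norm_num
    have h5 := hypow β hβ'
    calc ‖(-1 / 2 : ℂ)‖ ^ k * (√(2 * π) * Yk k T * y ^ β *
          Real.exp (Yk k T ^ 2 * β ^ 2 / 2 - Yk k T ^ 2 * (2 * π * y ^ (1 / (k : ℝ))) ^ 2 / 2))
        ≤ 1 * (3 * 1 * (4 * T ^ 2) * (Real.exp 2 * Real.exp (-T ^ (1 / (k : ℝ))))) := by gcongr
      _ = _ := by ring
  · rw [abs_of_pos (by positivity)]
    have h1 : Yk k T / √(2 * π) ≤ 1 := by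
      rw [div_le_one (by positivity)]; linarith
    calc Yk k T / √(2 * π) * y ^ (β - 1 / 4) ≤ 1 * (4 * T ^ 2) := by
          gcongr
          exact hypow _ (by linarith)
      _ = _ := one_mul _
--END ZD7

--BEGIN ZD8
private theorem ZD8_alg {G S J1 z0 : ℂ} {P V φ a1 a2 a3 : ℝ} (hP : 0 ≤ P) (hV : 0 ≤ V)
    (hG : ‖G - conj ((P : ℂ) * S)‖ ≤ a3) (hS : ‖S - J1‖ ≤ a2)
    (hJ : ‖J1 * cexp (-(I * (φ : ℝ))) - z0 * (V : ℂ)‖ ≤ a1) :
    P * (‖z0‖ * V - a1 - a2) - a3 ≤ (cexp (I * (φ + arg z0 : ℝ)) * G).re ∧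
    ‖G‖ ≤ P * (‖z0‖ * V + a1 + a2) + a3 := by
  have hw : ‖cexp (I * (φ + arg z0 : ℝ))‖ = 1 := by
    rw [mul_comm, Complex.norm_exp_ofReal_mul_I]
  have hw2 : cexp (I * (φ + arg z0 : ℝ)) * conj (cexp (I * (φ : ℝ)) * (z0 * (V : ℂ))) =
      ((‖z0‖ * V : ℝ) : ℂ) := by
    have h1 : cexp (I * (φ + arg z0 : ℝ)) = cexp (I * (φ : ℝ)) * cexp (arg z0 * I) := by
      rw [← Complex.exp_add]; congr 1; push_cast; ring
    have h2 : conj (cexp (I * (φ : ℝ))) = cexp (-(I * (φ : ℝ))) := by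
      rw [← Complex.exp_conj]; congr 1
      simp
    have h3 : cexp (I * (φ : ℝ)) * cexp (-(I * (φ : ℝ))) = 1 := by
      rw [← Complex.exp_add]; simp
    have h4 : cexp (arg z0 * I) * conj z0 = (‖z0‖ : ℂ) := by
      have h5 := Complex.norm_mul_exp_arg_mul_I z0
      have h6 : conj z0 = (‖z0‖ : ℂ) * cexp (-(arg z0 * I)) := by
        conv_lhs => rw [← h5]
        rw [map_mul, Complex.conj_ofReal, ← Complex.exp_conj]
        congr 2
        simp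
      have h7 : cexp (arg z0 * I) * cexp (-(arg z0 * I)) = 1 := by
        rw [← Complex.exp_add]; simp
      rw [h6]
      calc cexp (arg z0 * I) * ((‖z0‖ : ℂ) * cexp (-(arg z0 * I))) =
            (‖z0‖ : ℂ) * (cexp (arg z0 * I) * cexp (-(arg z0 * I))) := by ring
        _ = _ := by rw [h7, mul_one]
    rw [map_mul, map_mul, Complex.conj_ofReal, h1, h2]
    calc cexp (I * (φ : ℝ)) * cexp (arg z0 * I) * (cexp (-(I * (φ : ℝ))) * (conj z0 * (V : ℂ))) =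
          (cexp (I * (φ : ℝ)) * cexp (-(I * (φ : ℝ)))) * (cexp (arg z0 * I) * conj z0) * V := by
            ring
      _ = _ := by rw [h3, h4]; push_cast; ring
  have hJ' : ‖J1 - cexp (I * (φ : ℝ)) * (z0 * (V : ℂ))‖ ≤ a1 := by
    have h3 : cexp (I * (φ : ℝ)) * cexp (-(I * (φ : ℝ))) = 1 := by
      rw [← Complex.exp_add]; simp
    have h4 : J1 - cexp (I * (φ : ℝ)) * (z0 * (V : ℂ)) =
        cexp (I * (φ : ℝ)) * (J1 * cexp (-(I * (φ : ℝ))) - z0 * (V : ℂ)) := by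
      calc J1 - cexp (I * (φ : ℝ)) * (z0 * (V : ℂ)) =
            (cexp (I * (φ : ℝ)) * cexp (-(I * (φ : ℝ)))) * J1 -
              cexp (I * (φ : ℝ)) * (z0 * (V : ℂ)) := by rw [h3, one_mul]
        _ = _ := by ring
    rw [h4, norm_mul, mul_comm I, Complex.norm_exp_ofReal_mul_I, one_mul, mul_comm (φ : ℂ) I]
    exact hJ
  have hD : ‖cexp (I * (φ + arg z0 : ℝ)) * G - ((P * (‖z0‖ * V) : ℝ) : ℂ)‖ ≤
      P * (a1 + a2) + a3 := by
    have h1 : cexp (I * (φ + arg z0 : ℝ)) * G - ((P * (‖z0‖ * V) : ℝ) : ℂ) =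
        cexp (I * (φ + arg z0 : ℝ)) * (G - conj ((P : ℂ) * S)) +
        (P : ℂ) * (cexp (I * (φ + arg z0 : ℝ)) * conj (S - J1)) +
        (P : ℂ) * (cexp (I * (φ + arg z0 : ℝ)) *
          conj (J1 - cexp (I * (φ : ℝ)) * (z0 * (V : ℂ)))) := by
      rw [Complex.ofReal_mul, ← hw2, map_sub, map_sub, map_mul conj (P : ℂ), Complex.conj_ofReal]
      ring
    rw [h1]
    refine norm_add₃_le.trans ?_
    rw [norm_mul, norm_mul, norm_mul, norm_mul, norm_mul, hw, Complex.norm_real, Real.norm_eq_abs,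
      abs_of_nonneg hP, Complex.norm_conj, Complex.norm_conj, one_mul, one_mul, one_mul]
    have f1 : P * ‖S - J1‖ ≤ P * a2 := by gcongr
    have f2 : P * ‖J1 - cexp (I * (φ : ℝ)) * (z0 * (V : ℂ))‖ ≤ P * a1 := by gcongr
    linarith
  have hPV : 0 ≤ P * (‖z0‖ * V) := by positivity
  constructor
  · have h1 := (abs_le.1 (Complex.abs_re_le_norm
      (cexp (I * (φ + arg z0 : ℝ)) * G - ((P * (‖z0‖ * V) : ℝ) : ℂ)))).1
    rw [Complex.sub_re, Complex.ofReal_re] at h1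
    linarith
  · have h1 : ‖G‖ = ‖cexp (I * (φ + arg z0 : ℝ)) * G‖ := by rw [norm_mul, hw, one_mul]
    have h2 : ‖cexp (I * (φ + arg z0 : ℝ)) * G‖ ≤
        ‖cexp (I * (φ + arg z0 : ℝ)) * G - ((P * (‖z0‖ * V) : ℝ) : ℂ)‖ +
          ‖((P * (‖z0‖ * V) : ℝ) : ℂ)‖ := by
      have := norm_add_le (cexp (I * (φ + arg z0 : ℝ)) * G - ((P * (‖z0‖ * V) : ℝ) : ℂ))
        ((P * (‖z0‖ * V) : ℝ) : ℂ)
      simpa using this
    rw [Complex.norm_real, Real.norm_eq_abs, abs_of_nonneg hPV] at h2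
    rw [h1]
    linarith

private theorem ZD8_dk1 (k : ℕ) : dk k 1 = 1 := by
  unfold dk
  have : ((ArithmeticFunction.zeta : ArithmeticFunction ℕ) ^ k) 1 = 1 := by
    induction k with
    | zero => simp
    | succ k ih =>
      rw [pow_succ, ArithmeticFunction.mul_apply_one, ih]
      simp
  rw [this]; norm_num

private theorem ZD8_sum (k : ℕ) (J : ℕ → ℂ) (Q : ℝ) (hQ : 0 ≤ Q)
    (hs : Summable (fun n : ℕ => ((dk k n * (n : ℝ) ^ (-(5 / 4) : ℝ) : ℝ) : ℂ) * J n))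
    (hJ : ∀ n : ℕ, 2 ≤ n → ‖J n‖ ≤ Q) :
    ‖∑' n : ℕ, ((dk k n * (n : ℝ) ^ (-(5 / 4) : ℝ) : ℝ) : ℂ) * J n - J 1‖ ≤
      (∑' n : ℕ, dk k n * (n : ℝ) ^ (-(5 / 4) : ℝ)) * Q := by
  have hcn : Summable (fun n : ℕ => dk k n * (n : ℝ) ^ (-(5 / 4) : ℝ)) := by
    have h1 := (zeta_pow_series k (s := (5 / 4 : ℂ)) (by norm_num)).1
    have h2 := h1.norm
    refine h2.congr fun n => ?_
    rcases Nat.eq_zero_or_pos n with h | h
    · subst h
      rw [LSeries.term_zero, Nat.cast_zero, Real.zero_rpow (by norm_num), mul_zero, norm_zero]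
    · rw [LSeries.term_of_ne_zero h.ne', norm_div, Complex.norm_real, Real.norm_eq_abs,
        abs_of_nonneg (dk_nonneg k n), Complex.norm_natCast_cpow_of_pos h, Real.rpow_neg (by positivity),
        div_eq_mul_inv]
      norm_num
  have h1 := hs.sum_add_tsum_nat_add 2
  rw [Finset.sum_range_succ, Finset.sum_range_one, Nat.cast_zero, Real.zero_rpow (by norm_num),
    mul_zero, Complex.ofReal_zero, zero_mul, zero_add, Nat.cast_one, ZD8_dk1, Real.one_rpow,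
    one_mul, Complex.ofReal_one, one_mul] at h1
  rw [← h1, add_sub_cancel_left]
  have hc0 : ∀ n : ℕ, 0 ≤ dk k n * (n : ℝ) ^ (-(5 / 4) : ℝ) := fun n =>
    mul_nonneg (dk_nonneg k n) (by positivity)
  have h2 : Summable (fun n : ℕ => dk k (n + 2) * ((n + 2 : ℕ) : ℝ) ^ (-(5 / 4) : ℝ)) :=
    (summable_nat_add_iff 2).2 hcn
  have h3 := (h2.mul_right Q).hasSum
  have h4 := tsum_of_norm_bounded h3 (f := fun n : ℕ =>
    ((dk k (n + 2) * ((n + 2 : ℕ) : ℝ) ^ (-(5 / 4) : ℝ) : ℝ) : ℂ) * J (n + 2)) (fun n => by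
      rw [norm_mul, Complex.norm_real, Real.norm_eq_abs, abs_of_nonneg (hc0 (n + 2))]
      exact mul_le_mul_of_nonneg_left (hJ (n + 2) (by omega)) (hc0 (n + 2)))
  refine h4.trans ?_
  rw [tsum_mul_right]
  refine mul_le_mul_of_nonneg_right ?_ hQ
  have h5 := hcn.sum_add_tsum_nat_add 2
  have h6 : 0 ≤ ∑ i ∈ Finset.range 2, dk k i * (i : ℝ) ^ (-(5 / 4) : ℝ) :=
    Finset.sum_nonneg fun i _ => hc0 i
  linarith

private theorem ZD8_small {k : ℕ} (hk : 4 ≤ k) {T d : ℝ} (hT1 : 1 ≤ T) (hd : 0 < d)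
    (h : (1 / d) ^ (40 * (k : ℝ)) ≤ T) :
    T ^ (3 / 4 - 1 / (2 * (k : ℝ)) - 1 / (40 * (k : ℝ))) ≤ d * T ^ (3 / 4 - 1 / (2 * (k : ℝ))) := by
  have hT0 : 0 < T := by linarith
  have hk4 : (4 : ℝ) ≤ k := by exact_mod_cast hk
  have hk0 : (0 : ℝ) < k := by linarith
  have h2 := Real.rpow_le_rpow (by positivity) h (by positivity : 0 ≤ 1 / (40 * (k : ℝ)))
  rw [← Real.rpow_mul (by positivity)] at h2
  have h3 : 40 * (k : ℝ) * (1 / (40 * (k : ℝ))) = 1 := by field_simp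
  rw [h3, Real.rpow_one] at h2
  have h4 : 0 < T ^ (1 / (40 * (k : ℝ))) := by positivity
  rw [Real.rpow_sub hT0, div_le_iff₀ h4]
  have h5 : 1 ≤ d * T ^ (1 / (40 * (k : ℝ))) := by
    rw [div_le_iff₀ hd] at h2
    linarith
  have h6 : 0 < T ^ (3 / 4 - 1 / (2 * (k : ℝ))) := by positivity
  nlinarith

private theorem ZD8_fin {P V Q C1 C2 Cs a3 n0 Y W G' lo : ℝ} (hn0 : 0 < n0) (hP0 : 0 ≤ P)
    (_hV0 : 0 ≤ V)
    (hQ : (C1 + Cs * C2) * Q ≤ n0 / 4 * V) (hPlo : Y * W / 3 ≤ P * V) (hPhi : P * V ≤ 4 * (Y * W))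
    (ha3 : a3 ≤ n0 / 4 * (Y * W / 3))
    (h1 : P * (n0 * V - C1 * Q - Cs * (C2 * Q)) - a3 ≤ lo)
    (h2 : G' ≤ P * (n0 * V + C1 * Q + Cs * (C2 * Q)) + a3) :
    n0 / 6 * Y * W ≤ lo ∧ G' ≤ 6 * n0 * Y * W := by
  have e1 : P * ((C1 + Cs * C2) * Q) ≤ P * (n0 / 4 * V) := by gcongr
  have e2 : P * (n0 * V - C1 * Q - Cs * (C2 * Q)) = n0 * (P * V) - P * ((C1 + Cs * C2) * Q) := by
    ring
  have e3 : P * (n0 * V + C1 * Q + Cs * (C2 * Q)) = n0 * (P * V) + P * ((C1 + Cs * C2) * Q) := by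
    ring
  have e4 : P * (n0 / 4 * V) = n0 / 4 * (P * V) := by ring
  rw [e2] at h1
  rw [e3] at h2
  rw [e4] at e1
  have e5 : n0 / 4 * (Y * W / 3) ≤ n0 / 4 * (P * V) := by gcongr
  have e6 : n0 / 2 * (Y * W / 3) ≤ n0 / 2 * (P * V) := by gcongr
  have e7 : n0 * 3 / 2 * (P * V) ≤ n0 * 3 / 2 * (4 * (Y * W)) := by gcongr
  constructor <;> linarith

/-- **ZD8.** The main asymptotic of the resonant Gaussian integral (from ZD5 - ZD7). The phase `θ`
depends on `k` only through `z0`, and on `β` (through `z0`); `β` is fixed here. -/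
theorem GI_main {k : ℕ} (hk : 4 ≤ k) {β : ℝ} (hβ : 1 ≤ β) (hβ' : β ≤ 2) :
    ∃ θ c C T0 : ℝ, 0 < c ∧ 0 < C ∧ 1 ≤ T0 ∧ ∀ T : ℝ, T0 ≤ T → ∀ y ∈ Icc T (T + Xw k T),
      c * Yk k T * T ^ (β + 1 / 2 - 1 / (2 * (k : ℝ))) ≤
        (cexp (I * (2 * π * k * y ^ (1 / (k : ℝ)) + θ : ℝ)) *
          GI k β y (Yk k T) (2 * π * y ^ (1 / (k : ℝ)))).re ∧
      ‖GI k β y (Yk k T) (2 * π * y ^ (1 / (k : ℝ)))‖ ≤
        C * Yk k T * T ^ (β + 1 / 2 - 1 / (2 * (k : ℝ))) := by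
  obtain ⟨z0, C1, T1, hz0, hC1, hT1, h1⟩ := Jn_one hk hβ hβ'
  obtain ⟨C2, T2, hC2, hT2, h2⟩ := Jn_two hk hβ hβ'
  obtain ⟨C3, T3, hC3, hT3, h3⟩ := GI_eq_Jn hk hβ hβ'
  have hn0 : 0 < ‖z0‖ := norm_pos_iff.2 hz0
  have hk4 : (4 : ℝ) ≤ k := by exact_mod_cast hk
  have hk0 : (0 : ℝ) < k := by linarith
  obtain ⟨Cs, hCs, hCs0⟩ : ∃ Cs : ℝ, Cs = ∑' n : ℕ, dk k n * (n : ℝ) ^ (-(5 / 4) : ℝ) ∧ 0 ≤ Cs :=
    ⟨_, rfl, tsum_nonneg fun n => mul_nonneg (dk_nonneg k n) (by positivity)⟩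
  obtain ⟨d, hd, hdC⟩ : ∃ d : ℝ, 0 < d ∧ (C1 + Cs * C2) * d ≤ ‖z0‖ / 4 := by
    refine ⟨‖z0‖ / 4 / (C1 + Cs * C2), by positivity, ?_⟩
    rw [mul_div_cancel₀]
    positivity
  refine ⟨arg z0, ‖z0‖ / 6, 6 * ‖z0‖, max T1 (max T2 (max T3 (max ((1 / d) ^ (40 * (k : ℝ)))
    (12 * C3 / ‖z0‖)))), by positivity, by positivity, hT1.trans (le_max_left _ _),
    fun T hT y hy => ?_⟩
  have hTa : T1 ≤ T := (le_max_left _ _).trans hT
  have hTb := (le_max_right _ _).trans hT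
  have hTb1 : T2 ≤ T := (le_max_left _ _).trans hTb
  have hTc := (le_max_right _ _).trans hTb
  have hTc1 : T3 ≤ T := (le_max_left _ _).trans hTc
  have hTd := (le_max_right _ _).trans hTc
  have hTd1 : (1 / d) ^ (40 * (k : ℝ)) ≤ T := (le_max_left _ _).trans hTd
  have hTe : 12 * C3 / ‖z0‖ ≤ T := (le_max_right _ _).trans hTd
  have hT1' : 1 ≤ T := hT1.trans hTa
  have hT0 : 0 < T := by linarith
  have hX : Xw k T ≤ T := by
    calc Xw k T ≤ T ^ (1 : ℝ) := Real.rpow_le_rpow_of_exponent_le hT1' (by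
          have : 0 < 1 / (32 * (k : ℝ)) := by positivity
          linarith)
      _ = T := Real.rpow_one T
  have hy2 : y ∈ Icc T (2 * T) := ⟨hy.1, by linarith [hy.2]⟩
  have hy0 : 0 < y := by linarith [hy.1]
  have hY0 : 0 < Yk k T := by unfold Yk; positivity
  obtain ⟨h3s, h3b⟩ := h3 T hTc1 y hy2
  have hQ0 : 0 ≤ C2 * T ^ (3 / 4 - 1 / (2 * (k : ℝ)) - 1 / (40 * (k : ℝ))) := by positivity
  have hS := ZD8_sum k (fun n => Jn k β y (Yk k T) (2 * π * y ^ (1 / (k : ℝ))) n) _ hQ0 h3s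
    (fun n hn => h2 T hTb1 y hy n hn)
  rw [← hCs] at hS
  have hP0 : 0 ≤ Yk k T / √(2 * π) * y ^ (β - 1 / 4) := by positivity
  have halg := ZD8_alg hP0 (by positivity) h3b hS (h1 T hTa y hy)
  have hsm := ZD8_small hk hT1' hd hTd1
  have hs1 : 1 ≤ √(2 * π) := by
    rw [Real.one_le_sqrt]
    have := Real.pi_gt_three
    linarith
  have hs3 : √(2 * π) ≤ 3 := by
    rw [Real.sqrt_le_left (by norm_num)]
    have := Real.pi_lt_four
    linarith
  have hW : T ^ (β + 1 / 2 - 1 / (2 * (k : ℝ))) = T ^ (β - 1 / 4) * T ^ (3 / 4 - 1 / (2 * (k : ℝ))) := by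
    rw [← Real.rpow_add hT0]; congr 1; ring
  refine ZD8_fin (V := T ^ (3 / 4 - 1 / (2 * (k : ℝ))))
    (Q := T ^ (3 / 4 - 1 / (2 * (k : ℝ)) - 1 / (40 * (k : ℝ)))) (C1 := C1) (C2 := C2) (Cs := Cs)
    hn0 hP0 (by positivity) ?_ ?_ ?_ ?_ halg.1 halg.2
  · calc (C1 + Cs * C2) * T ^ (3 / 4 - 1 / (2 * (k : ℝ)) - 1 / (40 * (k : ℝ))) ≤
          (C1 + Cs * C2) * (d * T ^ (3 / 4 - 1 / (2 * (k : ℝ)))) := by gcongr
      _ = ((C1 + Cs * C2) * d) * T ^ (3 / 4 - 1 / (2 * (k : ℝ))) := by ring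
      _ ≤ _ := by gcongr
  · rw [hW]
    have e1 : T ^ (β - 1 / 4) ≤ y ^ (β - 1 / 4) := Real.rpow_le_rpow hT0.le hy.1 (by linarith)
    calc Yk k T * (T ^ (β - 1 / 4) * T ^ (3 / 4 - 1 / (2 * (k : ℝ)))) / 3 =
          Yk k T / 3 * T ^ (β - 1 / 4) * T ^ (3 / 4 - 1 / (2 * (k : ℝ))) := by ring
      _ ≤ _ := by gcongr
  · rw [hW]
    have e1 : y ^ (β - 1 / 4) ≤ 4 * T ^ (β - 1 / 4) := by
      calc y ^ (β - 1 / 4) ≤ (2 * T) ^ (β - 1 / 4) :=
            Real.rpow_le_rpow hy0.le hy2.2 (by linarith)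
        _ = 2 ^ (β - 1 / 4) * T ^ (β - 1 / 4) := Real.mul_rpow (by norm_num) hT0.le
        _ ≤ 2 ^ (2 : ℝ) * T ^ (β - 1 / 4) := by
            gcongr
            · norm_num
            · linarith
        _ = _ := by norm_num
    have e2 : Yk k T / √(2 * π) ≤ Yk k T := div_le_self hY0.le hs1
    calc Yk k T / √(2 * π) * y ^ (β - 1 / 4) * T ^ (3 / 4 - 1 / (2 * (k : ℝ))) ≤
          Yk k T * (4 * T ^ (β - 1 / 4)) * T ^ (3 / 4 - 1 / (2 * (k : ℝ))) := by gcongr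
      _ = _ := by ring
  · have e1 : T ≤ Yk k T * T ^ (β + 1 / 2 - 1 / (2 * (k : ℝ))) := by
      rw [Yk, ← Real.rpow_add hT0]
      calc T = T ^ (1 : ℝ) := (Real.rpow_one T).symm
        _ ≤ _ := Real.rpow_le_rpow_of_exponent_le hT1' (by
            have : 1 / (2 * (k : ℝ)) ≤ 1 / 8 := by
              rw [div_le_div_iff₀ (by positivity) (by norm_num)]; linarith
            linarith)
    rw [Real.rpow_neg_one, ← div_eq_mul_inv, div_le_iff₀ hT0]
    rw [div_le_iff₀ hn0] at hTe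
    have e2 : ‖z0‖ / 4 * (T / 3) ≤ ‖z0‖ / 4 *
        (Yk k T * T ^ (β + 1 / 2 - 1 / (2 * (k : ℝ))) / 3) := by gcongr
    have e3 : C3 ≤ ‖z0‖ / 4 * (T / 3) := by linarith
    have e4 : 0 ≤ ‖z0‖ / 4 * (Yk k T * T ^ (β + 1 / 2 - 1 / (2 * (k : ℝ))) / 3) := by positivity
    calc C3 ≤ ‖z0‖ / 4 * (Yk k T * T ^ (β + 1 / 2 - 1 / (2 * (k : ℝ))) / 3) := e3.trans e2
      _ ≤ _ := le_mul_of_one_le_right e4 hT1'
--END ZD8

end Pool.Agent.PEt
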